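import Mathlib

set_option autoImplicit false
open Filter Topology Set NormedSpace

namespace Pool.Agent.H27.Afp

variable {X : Type} [NormedAddCommGroup X] [NormedSpace ℝ X]

theorem far {V : Type} [NormedAddCommGroup V] [NormedSpace ℝ V] [CompleteSpace X]
    (J : X →ₗᵢ[ℝ] V) {F : V} (hF : F ∉ range J) : ∃ d : ℝ, 0 < d ∧ ∀ x, d ≤ ‖F - J x‖ := by
  obtain ⟨d, d0, hd⟩ :=
    Metric.isOpen_iff.1 J.isometry.isClosedEmbedding.isClosed_range.isOpen_compl _ hF
  refine ⟨d, d0, fun x => ?_⟩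
  by_contra h
  refine hd (a := J x) ?_ ⟨x, rfl⟩
  rw [Metric.mem_ball, dist_comm, dist_eq_norm]
  exact not_le.1 h

/-- finite norming sets for finite dimensional subspaces -/
theorem norming {V ι : Type} [NormedAddCommGroup V] [NormedSpace ℝ V] (ev : ι → V →L[ℝ] ℝ)
    (hn : ∀ (u : V) (r : ℝ), r < ‖u‖ → ∃ i, r < |ev i u|) (A : Finset V) :
    ∃ s : Finset ι, ∀ u ∈ Submodule.span ℝ (A : Set V),
      ∀ β : ℝ, 0 ≤ β → (∀ f ∈ s, |ev f u| ≤ β) → ‖u‖ ≤ 2 * β := by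
  classical
  set E := Submodule.span ℝ (A : Set V)
  haveI : FiniteDimensional ℝ E := FiniteDimensional.span_finset ℝ A
  have hK : IsCompact (Metric.sphere (0 : E) 1) := isCompact_sphere _ _
  obtain ⟨t, ht⟩ := hK.elim_finite_subcover
    (fun f : ι => {u : E | 1 / 2 < |ev f u|})
    (fun f => isOpen_lt continuous_const (((ev f).continuous.comp continuous_subtype_val).abs))
    (by
      intro u hu
      have h1 : ‖(u : V)‖ = 1 := mem_sphere_zero_iff_norm.1 hu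
      obtain ⟨z, z2⟩ := hn u (1 / 2) (by rw [h1]; norm_num)
      exact mem_iUnion.2 ⟨z, z2⟩)
  refine ⟨t, fun u hu β hβ h => ?_⟩
  rcases eq_or_ne u 0 with rfl | h0
  · simp [hβ]
  have hn : 0 < ‖u‖ := norm_pos_iff.2 h0
  have hm : (‖u‖⁻¹ • (⟨u, hu⟩ : E)) ∈ Metric.sphere (0 : E) 1 := by
    rw [mem_sphere_zero_iff_norm, norm_smul, norm_inv, norm_norm]
    exact inv_mul_cancel₀ hn.ne'
  obtain ⟨f, hf, h2⟩ := mem_iUnion₂.1 (ht hm)
  have h3 := h f hf
  have h4 : 1 / 2 < |ev f (‖u‖⁻¹ • u)| := h2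
  rw [map_smul, smul_eq_mul, abs_mul, abs_of_pos (inv_pos.2 hn), ← div_eq_inv_mul,
    lt_div_iff₀ hn] at h4
  linarith

/-- the sequence has bounded coordinates, heads and head sums -/
def Wide (x : ℕ → X) (M : ℝ) : Prop := ∀ (t : ℕ → ℝ) (n : ℕ),
  (∀ k < n, |t k| ≤ M * ‖∑ i ∈ Finset.range n, t i • x i‖) ∧
  ∀ N ≤ n, ‖∑ i ∈ Finset.range N, t i • x i‖ ≤ M * ‖∑ i ∈ Finset.range n, t i • x i‖ ∧
    |∑ i ∈ Finset.range N, t i| ≤ M * ‖∑ i ∈ Finset.range n, t i • x i‖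

theorem wide_abs {V ι : Type} [NormedAddCommGroup V] [NormedSpace ℝ V] (ev : ι → V →L[ℝ] ℝ)
    (hn : ∀ (u : V) (r : ℝ), r < ‖u‖ → ∃ i, r < |ev i u|) (hev : ∀ i u, |ev i u| ≤ ‖u‖)
    (J : X →ₗᵢ[ℝ] V) {C : Set X} {F : V} {d : ℝ} (d0 : 0 < d) (hd : ∀ x, d ≤ ‖F - J x‖)
    (hF : ∀ (s : Finset ι) (ε : ℝ), 0 < ε → ∃ x ∈ C, ∀ f ∈ s, |ev f (J x) - ev f F| < ε) :
    ∃ (x : ℕ → X) (M : ℝ), 0 < M ∧ (∀ n, x n ∈ C) ∧ Wide x M := by
  classical
  have hJ : ∀ y, ‖J y‖ = ‖y‖ := fun y => J.norm_map y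
  choose Nm hN2 using fun A : Finset X => norming ev hn (insert F (A.image J))
  let ε : ℕ → ℝ := fun k => d / 8 / 2 / 2 ^ k
  have hε : ∀ k, 0 < ε k := fun k => by positivity
  choose pk hp1 hp2 using fun (s : Finset ι) (k : ℕ) => hF s (ε k) (hε k)
  let A : ℕ → Finset X × Finset ι := fun n => Nat.rec (∅, Nm ∅)
    (fun k a => (insert (pk a.2 k) a.1, a.2 ∪ Nm (insert (pk a.2 k) a.1))) n
  let x : ℕ → X := fun k => pk (A k).2 k
  have hA1 : ∀ k, (A (k + 1)).1 = insert (x k) (A k).1 := fun k => rfl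
  have hA2 : ∀ k, (A (k + 1)).2 = (A k).2 ∪ Nm (A (k + 1)).1 := fun k => rfl
  have hm1 : Monotone fun k => (A k).1 := monotone_nat_of_le_succ fun k => by
    rw [hA1]; exact Finset.subset_insert _ _
  have hm2 : Monotone fun k => (A k).2 := monotone_nat_of_le_succ fun k => by
    rw [hA2]; exact Finset.subset_union_left
  have hx1 : ∀ k N, k < N → x k ∈ (A N).1 := fun k N h =>
    hm1 (Nat.succ_le_of_lt h) (by show x k ∈ (A (k + 1)).1; rw [hA1]; exact Finset.mem_insert_self _ _)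
  have hx2 : ∀ N, Nm (A N).1 ⊆ (A N).2 := fun N => by
    cases N with
    | zero => exact Finset.Subset.refl _
    | succ N => rw [hA2]; exact Finset.subset_union_right
  have hx3 : ∀ N k, N ≤ k → ∀ f ∈ Nm (A N).1, |ev f (J (x k)) - ev f F| < ε k := fun N k h f hf =>
    hp2 _ k f (hm2 h (hx2 N hf))
  refine ⟨x, 8 / d + 4 + 4 / d * ‖F‖, by positivity, fun n => hp1 _ _, fun t n => ?_⟩
  set v := ∑ i ∈ Finset.range n, t i • x i with hv
  have v0 := norm_nonneg v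
  let σ : ℕ → ℝ := fun N => ∑ i ∈ Finset.Ico N n, t i
  let u : ℕ → V := fun N =>
    J (∑ i ∈ Finset.range N, t i • x i) + σ N • F
  have key : ∀ τ : ℝ, 0 ≤ τ → (∀ k < n, |t k| ≤ τ) → ∀ N ≤ n, ‖u N‖ ≤ 2 * (‖v‖ + τ * (d / 8)) := by
    intro τ τ0 hτ N hN
    refine hN2 (A N).1 (u N) ?_ _ (by positivity) fun f hf => ?_
    · refine Submodule.add_mem _ ?_ (Submodule.smul_mem _ _ (Submodule.subset_span (by simp)))
      rw [map_sum]
      refine Submodule.sum_mem _ fun i hi => ?_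
      rw [map_smul]
      refine Submodule.smul_mem _ _ (Submodule.subset_span ?_)
      simp only [Finset.coe_insert, Finset.coe_image]
      exact Or.inr ⟨x i, hx1 i N (Finset.mem_range.1 hi), rfl⟩
    · have e1 : ev f (u N) =
          ev f (J v) - ∑ i ∈ Finset.Ico N n, t i * (ev f (J (x i)) - ev f F) := by
        rw [hv, ← Finset.sum_range_add_sum_Ico _ hN]
        simp only [u, σ, map_add, map_sum, map_smul, smul_eq_mul, mul_sub, Finset.sum_sub_distrib,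
          Finset.sum_mul]
        ring
      have e3 : |ev f (J v)| ≤ ‖v‖ := (hev _ _).trans (hJ v).le
      have e4 : |∑ i ∈ Finset.Ico N n, t i * (ev f (J (x i)) - ev f F)| ≤ τ * (d / 8) := by
        refine (Finset.abs_sum_le_sum_abs _ _).trans ?_
        refine (Finset.sum_le_sum (g := fun i => τ * ε i) fun i hi => ?_).trans ?_
        · rw [abs_mul]
          exact mul_le_mul (hτ i (Finset.mem_Ico.1 hi).2)
            (hx3 N i (Finset.mem_Ico.1 hi).1 f hf).le (abs_nonneg _) τ0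
        · rw [← Finset.mul_sum]
          exact mul_le_mul_of_nonneg_left
            (sum_le_hasSum _ (fun i _ => (hε i).le) (hasSum_geometric_two' (d / 8))) τ0
      rw [e1]
      exact (abs_sub _ _).trans (add_le_add e3 e4)
  have hσ : ∀ N, d * |σ N| ≤ ‖u N‖ := by
    intro N
    rcases eq_or_ne (σ N) 0 with h | h
    · rw [h, abs_zero, mul_zero]; exact norm_nonneg _
    have e1 : u N = σ N • (F - J (-(σ N)⁻¹ • ∑ i ∈ Finset.range N, t i • x i)) := by
      rw [map_smul, smul_sub, smul_smul, mul_neg, mul_inv_cancel₀ h, neg_smul, one_smul,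
        sub_neg_eq_add, add_comm]
    rw [e1, norm_smul, Real.norm_eq_abs, mul_comm]
    exact mul_le_mul_of_nonneg_left (hd _) (abs_nonneg _)
  have hτ : ∀ k < n, |t k| ≤ 8 / d * ‖v‖ := by
    intro k hk
    obtain ⟨j, hj, hmax⟩ := (Finset.range n).exists_max_image (fun i => |t i|)
      ⟨k, Finset.mem_range.2 hk⟩
    have hj' := Finset.mem_range.1 hj
    have h1 := key |t j| (abs_nonneg _) fun i hi => hmax i (Finset.mem_range.2 hi)
    have h2 := (hσ j).trans (h1 j hj'.le)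
    have h3 := (hσ (j + 1)).trans (h1 (j + 1) hj')
    have h4 : σ j = t j + σ (j + 1) := Finset.sum_eq_sum_Ico_succ_bot hj' t
    have h5 : |t j| ≤ |σ j| + |σ (j + 1)| := by
      have := abs_sub (σ j) (σ (j + 1))
      rwa [h4, add_sub_cancel_right, ← h4] at this
    have h6 : d * |t j| ≤ 8 * ‖v‖ := by nlinarith [mul_le_mul_of_nonneg_left h5 d0.le]
    refine (hmax k (Finset.mem_range.2 hk)).trans ?_
    rw [div_mul_eq_mul_div, le_div_iff₀ d0]
    linarith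
  have hu : ∀ N ≤ n, ‖u N‖ ≤ 4 * ‖v‖ := fun N hN => (key _ (by positivity) hτ N hN).trans (by
    have : 8 / d * ‖v‖ * (d / 8) = ‖v‖ := by field_simp
    rw [this]; linarith)
  have hs : ∀ N ≤ n, |σ N| ≤ 4 / d * ‖v‖ := fun N hN => by
    rw [div_mul_eq_mul_div, le_div_iff₀ d0]
    linarith [hσ N, hu N hN]
  have p1 : 0 ≤ 4 / d * ‖F‖ * ‖v‖ := by positivity
  have p2 : 0 ≤ 8 / d * ‖v‖ := by positivity
  refine ⟨fun k hk => (hτ k hk).trans (by nlinarith), fun N hN => ⟨?_, ?_⟩⟩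
  · rw [← hJ]
    have e1 : J (∑ i ∈ Finset.range N, t i • x i) = u N - σ N • F := (add_sub_cancel_right _ _).symm
    rw [e1]
    refine (norm_sub_le _ _).trans ?_
    rw [norm_smul, Real.norm_eq_abs]
    have := mul_le_mul_of_nonneg_right (hs N hN) (norm_nonneg F)
    nlinarith [hu N hN]
  · have e1 : ∑ i ∈ Finset.range N, t i = σ 0 - σ N := by
      simp only [σ, ← Finset.range_eq_Ico, ← Finset.sum_range_add_sum_Ico t hN]
      ring
    rw [e1]
    refine (abs_sub _ _).trans ?_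
    have e2 : 8 / d * ‖v‖ = 4 / d * ‖v‖ + 4 / d * ‖v‖ := by ring
    nlinarith [hs 0 (Nat.zero_le _), hs N hN]

theorem exists_cluster {C : Set X} (hb : Bornology.IsBounded C) (hcl : IsClosed C)
    (hcv : Convex ℝ C) (hnw : ¬ IsCompact (toWeakSpace ℝ X '' C)) :
    ∃ F : StrongDual ℝ (StrongDual ℝ X), (∀ x : X, ¬ ∀ f, F f = f x) ∧
      ∀ (s : Finset (StrongDual ℝ X)) (ε : ℝ), 0 < ε → ∃ x ∈ C, ∀ f ∈ s, |f x - F f| < ε := by
  have h1 : ¬ closure (inclusionInDoubleDualWeak ℝ X '' (toWeakSpace ℝ X '' C)) ⊆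
      range (inclusionInDoubleDualWeak ℝ X) := by
    intro h
    have h2 := isCompact_closure_of_isBounded ℝ X (toWeakSpace ℝ X '' C)
      (by rwa [preimage_image_eq _ (toWeakSpace ℝ X).injective]) h
    rw [← hcv.toWeakSpace_closure ℝ, hcl.closure_eq] at h2
    exact hnw h2
  obtain ⟨F, hF, hFr⟩ := not_subset.1 h1
  refine ⟨WeakDual.toStrongDual F, fun x hx => hFr ⟨toWeakSpace ℝ X x, ?_⟩, fun s ε hε => ?_⟩
  · apply DFunLike.ext
    intro f
    exact (hx f).symm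
  · have ho : IsOpen {G : WeakDual ℝ (StrongDual ℝ X) | ∀ f ∈ s, |G f - F f| < ε} := by
      simp only [setOf_forall]
      refine isOpen_biInter_finset fun f _ => ?_
      exact isOpen_lt ((WeakDual.eval_continuous f).sub continuous_const).abs continuous_const
    obtain ⟨_, hG, _, ⟨x, hx, rfl⟩, rfl⟩ := mem_closure_iff.1 hF _ ho
      (fun f _ => by rw [sub_self, abs_zero]; exact hε)
    exact ⟨x, hx, hG⟩

theorem wide_dual {Z : Type} [NormedAddCommGroup Z] [NormedSpace ℝ Z] [CompleteSpace X]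
    (J : X →ₗᵢ[ℝ] StrongDual ℝ Z) {C : Set X} {F : StrongDual ℝ Z} (hF' : F ∉ range J)
    (hF : ∀ (s : Finset Z) (ε : ℝ), 0 < ε → ∃ x ∈ C, ∀ f ∈ s, |J x f - F f| < ε) :
    ∃ (x : ℕ → X) (M : ℝ), 0 < M ∧ (∀ n, x n ∈ C) ∧ Wide x M := by
  classical
  obtain ⟨d, d0, hd⟩ := far J hF'
  refine wide_abs (ι := {f : Z // ‖f‖ ≤ 1})
    (fun f => ContinuousLinearMap.apply ℝ ℝ f.1) (fun u r hr => ?_) (fun f u => ?_)
    J d0 hd fun s ε hε => ?_
  · obtain ⟨z, z1, z2⟩ := u.exists_lt_apply_of_lt_opNorm hr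
    exact ⟨⟨z, z1.le⟩, z2⟩
  · exact (u.le_opNorm f.1).trans (mul_le_of_le_one_right (norm_nonneg u) f.2)
  · obtain ⟨x, hx, h⟩ := hF (s.image Subtype.val) ε hε
    exact ⟨x, hx, fun f hf => h f.1 (Finset.mem_image_of_mem _ hf)⟩

theorem exists_wide [CompleteSpace X] {C : Set X} (hb : Bornology.IsBounded C) (hcl : IsClosed C)
    (hcv : Convex ℝ C) (hnw : ¬ IsCompact (toWeakSpace ℝ X '' C)) :
    ∃ (x : ℕ → X) (M : ℝ), 0 < M ∧ (∀ n, x n ∈ C) ∧ Wide x M := by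
  obtain ⟨F, h1, h2⟩ := exists_cluster hb hcl hcv hnw
  refine wide_dual (Z := StrongDual ℝ X) (inclusionInDoubleDualLi (𝕜 := ℝ) (E := X)) (F := F) ?_ h2
  rintro ⟨x, hx⟩
  exact h1 x fun f => by rw [← hx]; rfl

end Pool.Agent.H27.Afp
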