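import Pool.Agent.H27.Afp1

set_option autoImplicit false
open Filter Topology Set

namespace Pool.Agent.H27.Afp

variable {X : Type} [NormedAddCommGroup X] [NormedSpace ℝ X]

theorem lc_eq (x : ℕ → X) (t : ℕ →₀ ℝ) (N : ℕ) :
    ∃ n, N ≤ n ∧ Finsupp.linearCombination ℝ x t = ∑ i ∈ Finset.range n, t i • x i := by
  obtain ⟨m, hm⟩ := t.support.exists_nat_subset_range
  refine ⟨max N m, le_max_left _ _, ?_⟩
  rw [Finsupp.linearCombination_apply]
  exact Finsupp.sum_of_support_subset t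
    (hm.trans (Finset.range_subset_range.2 (le_max_right _ _))) _ fun i _ => zero_smul _ _

theorem coords {x : ℕ → X} {M : ℝ} (M0 : 0 < M) (hw : Wide x M) :
    ∃ φ : ℕ → X →L[ℝ] ℝ, (∀ k, ‖φ k‖ ≤ M) ∧
      ∀ k (t : ℕ →₀ ℝ), φ k (Finsupp.linearCombination ℝ x t) = t k := by
  set Λ := Finsupp.linearCombination ℝ x with hΛ
  have hb : ∀ (t : ℕ →₀ ℝ) k, |t k| ≤ M * ‖Λ t‖ := fun t k => by
    obtain ⟨n, hn, e⟩ := lc_eq x t (k + 1)
    rw [hΛ, e]
    exact (hw t n).1 k hn
  have hinj : Function.Injective Λ := by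
    rw [injective_iff_map_eq_zero]
    intro t ht
    ext k
    have := hb t k
    rw [ht, norm_zero, mul_zero] at this
    exact abs_nonpos_iff.1 this
  have h : ∀ k, ∃ φ : X →L[ℝ] ℝ, ‖φ‖ ≤ M ∧ ∀ t, φ (Λ t) = t k := by
    intro k
    let e := LinearEquiv.ofInjective Λ hinj
    let g : LinearMap.range Λ →ₗ[ℝ] ℝ := (Finsupp.lapply k).comp e.symm.toLinearMap
    have hg : ∀ t, g (e t) = t k := fun t => by simp [g]
    have hg2 : ∀ y, ‖g y‖ ≤ M * ‖y‖ := fun y => by
      obtain ⟨t, rfl⟩ := e.surjective y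
      rw [hg]; exact hb t k
    obtain ⟨φ, h1, h2⟩ := exists_extension_norm_eq (LinearMap.range Λ) (g.mkContinuous M hg2)
    refine ⟨φ, h2.le.trans (g.mkContinuous_norm_le M0.le hg2), fun t => ?_⟩
    exact (h1 (e t)).trans (hg t)
  choose φ h1 h2 using h
  exact ⟨φ, h1, h2⟩

theorem geo : HasSum (fun n : ℕ => (1 : ℝ) / 2 / 2 ^ n) 1 := hasSum_geometric_two' 1

theorem main [CompleteSpace X] {x : ℕ → X} {M R : ℝ} (M0 : 0 < M) (hw : Wide x M)
    (hR : ∀ n, ‖x n‖ ≤ R) :
    ∃ T : X → X, MapsTo T (closure (convexHull ℝ (range x))) (closure (convexHull ℝ (range x))) ∧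
      (∀ a ∈ closure (convexHull ℝ (range x)), ∀ b ∈ closure (convexHull ℝ (range x)), ∀ s : ℝ,
        T (s • a + (1 - s) • b) = s • T a + (1 - s) • T b) ∧
      (∃ L : ℝ, 0 < L ∧ ∀ a ∈ closure (convexHull ℝ (range x)),
        ∀ b ∈ closure (convexHull ℝ (range x)), ∀ p : ℕ, ‖T^[p] a - T^[p] b‖ ≤ L * ‖a - b‖) ∧
      ∀ a ∈ closure (convexHull ℝ (range x)), T a ≠ a := by
  classical
  obtain ⟨φ, hφn, hφ⟩ := coords M0 hw
  have R0 : 0 ≤ R := (norm_nonneg _).trans (hR 0)
  set K := closure (convexHull ℝ (range x)) with hK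
  set Y := (Submodule.span ℝ (range x)).topologicalClosure with hY
  have hφx : ∀ k j, φ k (x j) = if j = k then 1 else 0 := fun k j => by
    have := hφ k (Finsupp.single j 1)
    rwa [Finsupp.linearCombination_single, one_smul, Finsupp.single_apply] at this
  let Q : ℕ → X →L[ℝ] X := fun N =>
    ContinuousLinearMap.id ℝ X + ∑ k ∈ Finset.range N, (φ k).smulRight (x N - x k)
  have hQ : ∀ N y, Q N y = y + ∑ k ∈ Finset.range N, φ k y • (x N - x k) := fun N y => by
    simp [Q]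
  have hQx : ∀ N j, Q N (x j) = x (max N j) := fun N j => by
    rw [hQ]
    simp only [hφx, ite_smul, one_smul, zero_smul, Finset.sum_ite_eq, Finset.mem_range]
    split_ifs with h
    · rw [max_eq_left h.le]; abel
    · rw [max_eq_right (not_lt.1 h), add_zero]
  have hxY : ∀ j, x j ∈ Y := fun j =>
    Submodule.le_topologicalClosure _ (Submodule.subset_span ⟨j, rfl⟩)
  have Yind : ∀ S : Submodule ℝ X, IsClosed (S : Set X) → (∀ j, x j ∈ S) → Y ≤ S :=
    fun S h1 h2 => Submodule.topologicalClosure_minimal _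
      (Submodule.span_le.2 (by rintro _ ⟨j, rfl⟩; exact h2 j)) h1
  have Ycl : IsClosed (Y : Set X) := Submodule.isClosed_topologicalClosure _
  have Kind : ∀ S : Set X, IsClosed S → Convex ℝ S → (∀ j, x j ∈ S) → K ⊆ S :=
    fun S h1 h2 h3 => closure_minimal (convexHull_min (by rintro _ ⟨j, rfl⟩; exact h3 j) h2) h1
  have Kcv : Convex ℝ K := (convex_convexHull ℝ _).closure
  have hxK : ∀ j, x j ∈ K := fun j => subset_closure (subset_convexHull ℝ _ ⟨j, rfl⟩)
  have hKY : K ⊆ Y := Kind _ Ycl Y.convex hxY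
  have Yeq : ∀ {Z : Type} [NormedAddCommGroup Z] [NormedSpace ℝ Z] (A B : X →L[ℝ] Z),
      (∀ j, A (x j) = B (x j)) → ∀ y ∈ Y, A y = B y := fun A B h y hy =>
    Yind (LinearMap.eqLocus A.toLinearMap B.toLinearMap) (isClosed_eq A.continuous B.continuous) h hy
  set L := 1 + M + M * R with hL
  have L0 : 0 < L := by positivity
  have hQb : ∀ N, ∀ y ∈ Y, ‖Q N y‖ ≤ L * ‖y‖ := by
    intro N y hy
    refine closure_minimal (s := (Submodule.span ℝ (range x) : Set X))
      (t := {y | ‖Q N y‖ ≤ L * ‖y‖}) ?_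
      (isClosed_le (Q N).continuous.norm (continuous_const.mul continuous_norm)) hy
    intro z hz
    rw [← Finsupp.range_linearCombination] at hz
    obtain ⟨t, rfl⟩ := hz
    show ‖Q N _‖ ≤ L * ‖_‖
    rw [hQ]
    simp only [hφ, smul_sub, Finset.sum_sub_distrib, ← Finset.sum_smul]
    obtain ⟨n, hn, e⟩ := lc_eq x t N
    obtain ⟨h1, h2⟩ := (hw t n).2 N hn
    rw [← e] at h1 h2
    refine (norm_add_le _ _).trans ?_
    have h3 := norm_sub_le ((∑ i ∈ Finset.range N, t i) • x N) (∑ i ∈ Finset.range N, t i • x i)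
    rw [norm_smul, Real.norm_eq_abs] at h3
    have h4 := mul_le_mul h2 (hR N) (norm_nonneg _) (by positivity)
    rw [hL]
    nlinarith
  have hQY : ∀ N, ∀ y ∈ Y, Q N y ∈ Y := fun N y hy => by
    rw [hQ]
    exact Y.add_mem hy (Y.sum_mem fun k _ => Y.smul_mem _ (Y.sub_mem (hxY _) (hxY _)))
  have hQK : ∀ N, ∀ y ∈ K, Q N y ∈ K := fun N =>
    Kind (Q N ⁻¹' K) (isClosed_closure.preimage (Q N).continuous)
      (Kcv.linear_preimage (Q N).toLinearMap) fun j => by
        show Q N (x j) ∈ K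
        rw [hQx]; exact hxK _
  have hQQ : ∀ N P, ∀ y ∈ Y, Q N (Q P y) = Q (max N P) y := fun N P =>
    Yeq ((Q N).comp (Q P)) (Q (max N P)) fun j => by
      show Q N (Q P (x j)) = _
      rw [hQx, hQx, hQx, max_assoc]
  let w : ℕ → ℝ := fun n => 1 / 2 / 2 ^ n
  have w0 : ∀ n, 0 < w n := fun n => by positivity
  let T : X → X := fun y => ∑' N, w N • Q N y
  have hT : ∀ y ∈ Y, HasSum (fun N => w N • Q N y) (T y) := fun y hy => by
    refine Summable.hasSum (Summable.of_norm_bounded (geo.mul_right (L * ‖y‖)).summable fun N => ?_)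
    rw [norm_smul, Real.norm_of_nonneg (w0 N).le]
    exact mul_le_mul_of_nonneg_left (hQb N y hy) (w0 N).le
  have hTY : ∀ y ∈ Y, T y ∈ Y := fun y hy =>
    Ycl.mem_of_tendsto (hT y hy) (Eventually.of_forall fun s =>
      Y.sum_mem fun N _ => Y.smul_mem _ (hQY N y hy))
  have hTl : ∀ a ∈ Y, ∀ b ∈ Y, ∀ r s : ℝ, T (r • a + s • b) = r • T a + s • T b := by
    intro a ha b hb r s
    refine (hT _ (Y.add_mem (Y.smul_mem r ha) (Y.smul_mem s hb))).unique ?_
    have e : (fun N => w N • Q N (r • a + s • b)) = fun N => r • w N • Q N a + s • w N • Q N b := by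
      funext N
      rw [map_add, map_smul, map_smul, smul_add, smul_comm r, smul_comm s]
    rw [e]
    exact ((hT a ha).const_smul r).add ((hT b hb).const_smul s)
  have hTK : MapsTo T K K := by
    intro y hy
    by_contra h
    obtain ⟨g, u, h1, h2⟩ := geometric_hahn_banach_point_closed Kcv isClosed_closure h
    have h3 := hasSum_le (fun N => ?_) (geo.mul_right u) (g.hasSum (hT y (hKY hy)))
    · rw [one_mul] at h3; exact absurd h1 (not_lt.2 h3)
    · rw [map_smul, smul_eq_mul]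
      exact mul_le_mul_of_nonneg_left (h2 _ (hQK N y hy)).le (w0 N).le
  have hTb : ∀ β : ℝ, ∀ y ∈ Y, (∀ N, ‖Q N y‖ ≤ β) → ∀ N, ‖Q N (T y)‖ ≤ β := by
    intro β y hy h N
    have := ((Q N).hasSum (hT y hy)).norm_le_of_bounded (geo.mul_right β) fun P => by
      rw [map_smul, hQQ _ _ _ hy, norm_smul, Real.norm_of_nonneg (w0 P).le]
      exact mul_le_mul_of_nonneg_left (h _) (w0 P).le
    rwa [one_mul] at this
  have hit : ∀ p : ℕ, ∀ a ∈ Y, ∀ b ∈ Y, T^[p] a ∈ Y ∧ T^[p] b ∈ Y ∧
      ∀ N, ‖Q N (T^[p] a - T^[p] b)‖ ≤ L * ‖a - b‖ := by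
    intro p a ha b hb
    induction p with
    | zero => exact ⟨ha, hb, fun N => hQb N _ (Y.sub_mem ha hb)⟩
    | succ p ih =>
      obtain ⟨h1, h2, h3⟩ := ih
      simp only [Function.iterate_succ_apply']
      refine ⟨hTY _ h1, hTY _ h2, ?_⟩
      have h4 := hTl _ h1 _ h2 1 (-1)
      simp only [one_smul, neg_smul, ← sub_eq_add_neg] at h4
      rw [← h4]
      exact hTb _ _ (Y.sub_mem h1 h2) h3
  refine ⟨T, hTK, fun a ha b hb s => hTl a (hKY ha) b (hKY hb) _ _,
    ⟨L, L0, fun a ha b hb p => ?_⟩, fun y hy hfix => ?_⟩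
  · have := (hit p a (hKY ha) b (hKY hb)).2.2 0
    rwa [hQ, Finset.sum_range_zero, add_zero] at this
  have hy' := hKY hy
  have hz : ∀ j, φ j y = 0 := by
    intro j
    induction j using Nat.strong_induction_on with
    | _ j ih =>
      have h1 : ∀ N, φ j (Q N y) = if N ≤ j then φ j y else 0 := fun N => by
        split_ifs with h
        · rw [hQ, Finset.sum_eq_zero fun k hk => by
            rw [ih k ((Finset.mem_range.1 hk).trans_le h), zero_smul], add_zero]
        · refine Yeq ((φ j).comp (Q N)) 0 (fun i => ?_) y hy'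
          show φ j (Q N (x i)) = 0
          rw [hQx, hφx, if_neg (by omega)]
      have h2 := ((φ j).hasSum (hT y hy')).mul_left (φ j y)
      have h3 := (geo.mul_right (φ j y * φ j y)).sub h2
      have h4 : T y = y := hfix
      rw [h4, one_mul, sub_self] at h3
      have h5 := le_hasSum h3 (j + 1) fun N _ => by
        rw [map_smul, h1, smul_eq_mul]
        have := mul_nonneg (w0 N).le (mul_self_nonneg (φ j y))
        split_ifs
        · exact le_of_eq (by simp only [w]; ring)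
        · simpa [w] using this
      rw [map_smul, h1, if_neg (by omega), smul_zero, mul_zero, sub_zero] at h5
      by_contra h0
      exact absurd h5 (not_le.2 (mul_pos (w0 (j + 1)) (mul_self_pos.2 h0)))
  have hQy : ∀ N, Q N y = y := fun N => by
    rw [hQ, Finset.sum_eq_zero fun k _ => by rw [hz k, zero_smul], add_zero]
  have hε : 0 < 1 / (M * L) := by positivity
  obtain ⟨z, hz1, hz2⟩ := Metric.mem_closure_iff.1 hy _ hε
  have hev : ∃ n, ∀ N, n ≤ N → Q N z = x N := by
    refine convexHull_min (t := {z | ∃ n, ∀ N, n ≤ N → Q N z = x N}) ?_ ?_ hz1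
    · rintro _ ⟨j, rfl⟩
      exact ⟨j, fun N h => by rw [hQx, max_eq_left h]⟩
    · rintro a ⟨n, hn⟩ b ⟨m, hm⟩ r s _ _ hrs
      refine ⟨max n m, fun N h => ?_⟩
      rw [map_add, map_smul, map_smul, hn N ((le_max_left _ _).trans h),
        hm N ((le_max_right _ _).trans h), ← add_smul, hrs, one_smul]
  obtain ⟨n, hn⟩ := hev
  have h1 := hQb n (y - z) (Y.sub_mem hy' (hKY (subset_closure hz1)))
  rw [map_sub, hQy, hn n le_rfl] at h1
  have h2 := (φ n).le_of_opNorm_le (hφn n) (y - x n)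
  rw [map_sub, hz, hφx, if_pos rfl, zero_sub, norm_neg, norm_one] at h2
  rw [dist_eq_norm, lt_div_iff₀ (by positivity)] at hz2
  nlinarith [mul_le_mul_of_nonneg_left h1 M0.le]

end Pool.Agent.H27.Afp
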