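import Pool.Agent.H27.Mom

namespace Pool.Agent.H27.Alpha
open Complex Matrix Finset Pool.Agent.H27.Mom
open scoped Matrix.Norms.L2Operator ComplexConjugate

variable {n : ℕ} {I : Type} [Fintype I] [DecidableEq I]

lemma phi (M Y : Matrix I I ℂ) : ‖trace (Mᴴ * Y * (Mᴴ * Y))‖ ≤ ‖Y‖ ^ 2 * fn M ^ 2 := by
  have a := cs (Mᴴ * Y)ᴴ (Mᴴ * Y)
  have b := fm' Y Mᴴ
  rw [conjTranspose_conjTranspose, fnH] at a
  rw [fnH] at b
  refine a.trans ((mul_self_le_mul_self (f0 _) b).trans_eq (by ring))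

lemma ent (M N : Matrix I I ℂ) (x : I → ℝ) (i j : I) :
    (M * D x * N) i j = ∑ l, M i l * x l * N l j := by
  rw [mul_apply]; simp [D]

lemma ent2 (M N : Matrix I I ℂ) (x y : I → ℝ) :
    trace (D y * M * D x * N) = ∑ i, ∑ l, y i * M i l * (x l * N l i) := by
  simp only [trace, Matrix.diag, ent]; simp [D, mul_assoc]

lemma dg (S : Matrix I I ℂ) (h : Sᴴ = S) (q : I → ℝ) (hq : ∀ i, 0 ≤ q i) :
    ∑ l, (q l * (S l l).re) ^ 2 ≤ (trace (D q * S * (D q * S))).re := by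
  rw [← mul_assoc, ent2]; simp only [re_sum]
  have t : ∀ l m, (q l * S l m * (q m * S m l)).re = q l * q m * ‖S l m‖ ^ 2 := fun l m => by
    rw [← h, conjTranspose_apply S l m, h, star_def, mul_mul_mul_comm, mul_conj', ← ofReal_mul,
      ← ofReal_pow, ← ofReal_mul, ofReal_re]
  refine sum_le_sum fun l _ => le_trans ?_ ((single_le_sum (f := fun m => q l * q m * ‖S l m‖ ^ 2)
    (fun m _ => mul_nonneg (mul_nonneg (hq _) (hq _)) (sq_nonneg _)) (mem_univ l)).trans_eq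
      (sum_congr rfl fun m _ => (t l m).symm))
  rw [mul_pow, sq (q l)]
  exact mul_le_mul_of_nonneg_left (sq_le_sq.2 ((abs_re_le_norm _).trans (le_abs_self _)))
    (mul_self_nonneg _)

omit [DecidableEq I] in
lemma schur (K : I → I → ℝ) (hK : ∀ a l, 0 ≤ K a l) (p q : I → ℝ) (c : ℝ) (hc : 0 ≤ c)
    (h : ∑ l, (∑ a, K a l) ^ 2 + ∑ a, (∑ l, K a l) ^ 2 ≤ c * ∑ a, ∑ l, p a * q l * K a l) :
    ∑ a, ∑ l, p a * q l * K a l ≤ c / 2 * (√(∑ a, (p a ^ 2) ^ 2) * √(∑ l, (q l ^ 2) ^ 2)) := by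
  have a := sum_sq_le_sum_mul_sum_of_sq_le_mul (univ : Finset (I × I))
    (r := fun t => p t.1 * q t.2 * K t.1 t.2) (f := fun t => p t.1 ^ 2 * K t.1 t.2)
    (g := fun t => q t.2 ^ 2 * K t.1 t.2) (fun t _ => mul_nonneg (sq_nonneg _) (hK _ _))
    (fun t _ => mul_nonneg (sq_nonneg _) (hK _ _)) fun t _ => le_of_eq (by ring)
  simp only [Fintype.sum_prod_type] at a
  rw [sum_comm (f := fun x y => q y ^ 2 * K x y)] at a
  simp only [← mul_sum _ (K _), ← mul_sum _ (fun x => K x _)] at a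
  have b := Real.sum_mul_le_sqrt_mul_sqrt univ (fun a => p a ^ 2) fun a => ∑ l, K a l
  have d := Real.sum_mul_le_sqrt_mul_sqrt univ (fun l => q l ^ 2) fun l => ∑ a, K a l
  have a2 := a.trans (mul_le_mul b d (sum_nonneg fun l _ => mul_nonneg (sq_nonneg _)
    (sum_nonneg fun a _ => hK _ _)) (by positivity))
  rw [← Real.sq_sqrt (sum_nonneg fun l _ => sq_nonneg (∑ a, K a l)),
    ← Real.sq_sqrt (sum_nonneg fun a _ => sq_nonneg (∑ l, K a l))] at h
  generalize ∑ a, ∑ l, p a * q l * K a l = s at *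
  generalize √(∑ l, (∑ a, K a l) ^ 2) = u at *
  generalize √(∑ a, (∑ l, K a l) ^ 2) = v at *
  have P : 0 ≤ √(∑ a, (p a ^ 2) ^ 2) * √(∑ l, (q l ^ 2) ^ 2) := by positivity
  rw [mul_mul_mul_comm] at a2
  generalize √(∑ a, (p a ^ 2) ^ 2) * √(∑ l, (q l ^ 2) ^ 2) = P at *
  rcases le_or_gt s 0 with h0 | h0
  · exact h0.trans (by positivity)
  · have : v * u ≤ c / 2 * s := by nlinarith [sq_nonneg (u - v)]
    nlinarith [mul_le_mul_of_nonneg_left this P]

lemma key (A : Fin n → Matrix I I ℂ)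
    (hA : ∀ z : Fin n → ℂ, (∀ k, ‖z k‖ = 1) → ‖∑ k, z k • A k‖ ^ 2 ≤ n) (h1 : ∀ k, ‖A k‖ ≤ 1)
    (p q : I → ℝ) (hp : ∀ i, 0 ≤ p i) (hq : ∀ i, 0 ≤ q i) : ∑ k, fn (D p * A k * D q) ^ 2 ≤
      (n + 1) / 2 * (√(∑ a, (p a ^ 2) ^ 2) * √(∑ l, (q l ^ 2) ^ 2)) := by
  set Y : G n → Matrix I I ℂ := fun z => ∑ k, e (z k) • A k with hY
  have YH : ∀ z, (Y z)ᴴ = ∑ k, conj (e (z k)) • (A k)ᴴ := fun z => by simp [hY, conjTranspose_sum]
  have N := cardpos (n := n)
  have a : ∑ z, fn (D p * Y z * D q) ^ 2 =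
      Fintype.card (G n) * ∑ k, fn (D p * A k * D q) ^ 2 := by
    have := congrArg trace (mom2 (fun k => (D p * A k * D q)ᴴ) fun k => D p * A k * D q)
    refine ofReal_injective ?_
    simp only [trace_sum, trace_smul, smul_eq_mul] at this
    simp only [ofReal_sum, ofReal_mul, ← trs, ofReal_natCast, ← this]
    simp [hY, conjTranspose_sum, mul_sum, sum_mul]
  have b := congrArg (fun M => (trace M).re) (mom4 (fun k => D q * (A k)ᴴ) (fun k => D p * A k)
    (fun k => D q * (A k)ᴴ) fun k => D p * A k)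
  have q1 : ∀ z : G n, ∑ k, conj (e (z k)) • (D q * (A k)ᴴ) = D q * (Y z)ᴴ := fun z => by
    simp only [YH, mul_sum, mul_smul_comm]
  have q2 : ∀ z : G n, ∑ k, e (z k) • (D p * A k) = D p * Y z := fun z => by
    simp only [hY, mul_sum, mul_smul_comm]
  have q3 : ∀ Y : Matrix I I ℂ, (trace (D q * Yᴴ * (D p * Y) * (D q * Yᴴ) * (D p * Y))).re ≤
      ‖Y‖ ^ 2 * fn (D p * Y * D q) ^ 2 := fun Y => (re_le_norm _).trans (le_of_eq_of_le (by
    simp only [conjTranspose_mul, DH, mul_assoc]) (phi _ Y))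
  have c := dg (∑ k, (A k)ᴴ * D p * A k) (by simp [conjTranspose_sum, DH, mul_assoc]) q hq
  have d := dg (∑ k, A k * D q * (A k)ᴴ) (by simp [conjTranspose_sum, DH, mul_assoc]) p hp
  have q4 : ∑ i, trace (D q * (A i)ᴴ * (∑ j, D p * A j * (D q * (A j)ᴴ)) * (D p * A i)) =
      trace (D p * (∑ k, A k * D q * (A k)ᴴ) * (D p * ∑ k, A k * D q * (A k)ᴴ)) := by
    rw [mul_sum, sum_mul, trace_sum]
    refine sum_congr rfl fun i _ => ?_
    rw [trace_mul_comm]; simp only [mul_assoc]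
  have q5 : ∑ i, D q * (A i)ᴴ * (D p * A i) = D q * ∑ k, (A k)ᴴ * D p * A k := by
    simp only [mul_sum, mul_assoc]
  simp only [q1, q2, trace_smul, trace_sub, trace_add, trace_sum, q4, q5, re_sum, smul_eq_mul,
    ← ofReal_natCast, re_ofReal_mul, sub_re, add_re] at b
  have f := (sum_le_sum fun z _ => (q3 (Y z)).trans (mul_le_mul_of_nonneg_right
    (hA _ fun k => e1 (z k)) (sq_nonneg _))).trans_eq (by rw [← mul_sum, a])
  have g := sum_le_sum fun k (_ : k ∈ univ) => (q3 (A k)).trans (mul_le_of_le_one_left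
    (sq_nonneg _) (pow_le_one₀ (norm_nonneg _) (h1 k)))
  rw [b, mul_left_comm] at f
  replace f := le_of_mul_le_mul_left f N
  have s : ∑ k, fn (D p * A k * D q) ^ 2 =
      ∑ a, ∑ l, p a * q l * (p a * q l * ∑ k, ‖A k a l‖ ^ 2) := by
    simp only [fn2, D, mul_diagonal, diagonal_mul, norm_mul, norm_real, Real.norm_eq_abs, mul_pow,
      sq_abs, mul_sum]
    rw [sum_comm]
    refine sum_congr rfl fun a _ => sum_comm.trans (sum_congr rfl fun l _ =>
      sum_congr rfl fun k _ => by ring)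
  have u : ∀ l, q l * ((∑ k, (A k)ᴴ * D p * A k) l l).re = ∑ a, p a * q l * ∑ k, ‖A k a l‖ ^ 2 :=
    fun l => by
    simp only [Matrix.sum_apply, ent, conjTranspose_apply, re_sum, mul_sum, star_def]
    refine sum_comm.trans (sum_congr rfl fun a _ => sum_congr rfl fun k _ => ?_)
    rw [mul_right_comm, conj_mul', ← ofReal_pow, ← ofReal_mul, ofReal_re]; ring
  have v : ∀ a, p a * ((∑ k, A k * D q * (A k)ᴴ) a a).re = ∑ l, p a * q l * ∑ k, ‖A k a l‖ ^ 2 :=
    fun a => by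
    simp only [Matrix.sum_apply, ent, conjTranspose_apply, re_sum, mul_sum, star_def]
    refine sum_comm.trans (sum_congr rfl fun l _ => sum_congr rfl fun k _ => ?_)
    rw [mul_right_comm, mul_conj', ← ofReal_pow, ← ofReal_mul, ofReal_re]; ring
  simp only [u, v] at c d
  rw [s] at f g ⊢
  exact schur _ (fun a l => mul_nonneg (mul_nonneg (hp _) (hq _)) (by positivity)) p q _
    (by positivity) (by linarith)

lemma F2 (A C : Fin n → Matrix I I ℂ) (hA : ∀ z : Fin n → ℂ, ‖∑ k, z k • A k‖ ≤ √(∑ k, ‖z k‖ ^ 2))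
    (hC : ∀ z : Fin n → ℂ, ‖∑ k, z k • C k‖ ≤ √(∑ k, ‖z k‖ ^ 2)) (x y : I → ℝ) (hx : ∀ i, 0 ≤ x i)
    (hy : ∀ i, 0 ≤ y i) : ‖∑ k, trace (D y * A k * D x * C k)‖ ≤
      (n + 1) / 2 * (√(∑ i, y i ^ 2) * √(∑ i, x i ^ 2)) := by
  have K : ∀ A : Fin n → Matrix I I ℂ, (∀ z : Fin n → ℂ, ‖∑ k, z k • A k‖ ≤ √(∑ k, ‖z k‖ ^ 2)) →
      ∀ x y : I → ℝ, (∀ i, 0 ≤ x i) → (∀ i, 0 ≤ y i) →
      ∑ k, fn (D (fun i => √(y i)) * A k * D fun i => √(x i)) ^ 2 ≤
        (n + 1) / 2 * (√(∑ i, y i ^ 2) * √(∑ i, x i ^ 2)) := fun A hA x y hx hy => by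
    have := key A (fun z hz => by
      simpa [hz] using pow_le_pow_left₀ (norm_nonneg _) (hA z) 2) (fun k => by
      simpa [Pi.single_apply, apply_ite norm] using hA (Pi.single k 1)) (fun i => √(y i))
      (fun i => √(x i)) (fun _ => Real.sqrt_nonneg _) fun _ => Real.sqrt_nonneg _
    simpa only [Real.sq_sqrt (hx _), Real.sq_sqrt (hy _)] using this
  have a := K A hA x y hx hy
  have b := K C hC y x hy hx
  rw [mul_comm √_] at b
  have DD : ∀ x : I → ℝ, (∀ i, 0 ≤ x i) → D x = D (fun i => √(x i)) * D fun i => √(x i) :=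
    fun x hx => by simp [D, ← ofReal_mul, Real.mul_self_sqrt (hx _)]
  refine (norm_sum_le_of_le univ fun k _ => ?_).trans ((Real.sum_mul_le_sqrt_mul_sqrt _ _ _).trans
    ((mul_le_mul (Real.sqrt_le_sqrt a) (Real.sqrt_le_sqrt b) (Real.sqrt_nonneg _)
      (Real.sqrt_nonneg _)).trans_eq (Real.mul_self_sqrt (by positivity))))
  refine le_of_eq_of_le ?_ ((cs (D (fun i => √(y i)) * A k * D fun i => √(x i))ᴴ
    (D (fun i => √(x i)) * C k * D fun i => √(y i))).trans_eq (by rw [fnH]))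
  rw [conjTranspose_conjTranspose, DD x hx, DD y hy]
  simp only [mul_assoc]
  rw [trace_mul_comm]
  simp only [mul_assoc]

lemma two {A : Type} [CStarAlgebra A] (a : A) (ha : IsSelfAdjoint a) (h : ‖a‖ ≤ 1) :
    ∃ u ∈ unitary A, a + a = u + star u := by
  let _ := CStarAlgebra.spectralOrder A
  let _ := CStarAlgebra.spectralOrderedRing A
  refine ⟨_, (selfAdjoint.unitarySelfAddISMul ⟨a, ha⟩ h).2, ?_⟩
  rw [selfAdjoint.star_coe_unitarySelfAddISMul]; simp

lemma Finf (hn : 0 < n) (A C : Fin n → Matrix I I ℂ)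
    (hA : ∀ z : Fin n → ℂ, ‖∑ k, z k • A k‖ ≤ ∑ k, ‖z k‖)
    (hC : ∀ z : Fin n → ℂ, ‖∑ k, z k • C k‖ ≤ ‖z‖) (x y : I → ℝ) :
    ‖∑ k, trace (D y * A k * D x * C k)‖ ≤
      n / √(2 * n - 1) * (√(∑ i, y i ^ 2) * √(∑ i, x i ^ 2)) := by
  have h1 : ∀ k, ‖A k‖ ≤ 1 := fun k => by
    simpa [Pi.single_apply, apply_ite norm] using hA (Pi.single k 1)
  have bl : ∀ M N : Matrix I I ℂ, ‖M‖ ≤ 1 → ‖N‖ ≤ 1 → ‖fromBlocks 0 M N 0‖ ≤ 1 := fun M N a b => by
    refine nle _ _ zero_le_one fun v => ?_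
    have c := (nge M (v ∘ Sum.inr)).trans (mul_le_of_le_one_left (by positivity)
      (pow_le_one₀ (norm_nonneg _) a))
    have d := (nge N (v ∘ Sum.inl)).trans (mul_le_of_le_one_left (by positivity)
      (pow_le_one₀ (norm_nonneg _) b))
    simp only [fromBlocks_mulVec, Fintype.sum_sum_type, zero_mulVec, zero_add, add_zero,
      Sum.elim_inl, Sum.elim_inr, Function.comp_apply] at c d ⊢
    linarith
  choose U hU hs using fun k => two (fromBlocks 0 (A k) (A k)ᴴ 0) (by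
    simp [IsSelfAdjoint, star_eq_conjTranspose, fromBlocks_conjTranspose])
    (bl _ _ (h1 k) (by rw [l2_opNorm_conjTranspose]; exact h1 k))
  have hC' : ∀ z : Fin n → ℂ, (∀ k, ‖z k‖ = 1) → ‖∑ k, z k • fromBlocks 0 0 (C k) 0‖ ≤ 1 :=
    fun z hz => by
    refine le_of_eq_of_le (congrArg _ ?_) (bl 0 _ (by simp) ((hC z).trans
      ((pi_norm_le_iff_of_nonneg zero_le_one).2 fun k => (hz k).le)))
    ext (i | i) (j | j) <;> simp [Matrix.sum_apply]
  have a := uni U _ (fun k => (hU k).1) (fun k => (hU k).2) hC' (Sum.elim 0 x) (Sum.elim y 0) hn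
  have b := uni (fun k => (U k)ᴴ) _ (fun k => by rw [conjTranspose_conjTranspose]; exact (hU k).2)
    (fun k => by rw [conjTranspose_conjTranspose]; exact (hU k).1) hC' (Sum.elim 0 x) (Sum.elim y 0) hn
  have c := (norm_add_le _ _).trans (add_le_add a b)
  simp only [← sum_add_distrib, ← trace_add, ← add_mul, ← mul_add, ← star_eq_conjTranspose,
    ← hs] at c
  simp only [mul_add, add_mul, trace_add, sum_add_distrib] at c
  simp only [← two_mul, norm_mul, ent2, Fintype.sum_sum_type] at c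
  simp only [ent2]
  simpa [mul_assoc] using c

variable {H : Type} [NormedAddCommGroup H] [InnerProductSpace ℂ H]

lemma dec (ξ : I → H) : ∃ (V : Matrix I I ℂ) (x : I → ℝ) (v : I → H), ‖V‖ ≤ 1 ∧ (∀ i, 0 ≤ x i) ∧
    (∀ j, ξ j = ∑ l, (V j l * x l) • v l) ∧ (∀ s : I → ℂ, ‖∑ l, s l • v l‖ ≤ √(∑ l, ‖s l‖ ^ 2)) ∧
    ∑ i, x i ^ 2 = ∑ i, ‖ξ i‖ ^ 2 := by
  have hG := isHermitian_gram ℂ ξ
  have h := hG.conjStarAlgAut_star_eigenvectorUnitary
  have u1 := hG.eigenvectorUnitary.2.1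
  have u2 := hG.eigenvectorUnitary.2.2
  simp only [Unitary.conjStarAlgAut_apply, star_star, Unitary.coe_star] at h
  generalize (hG.eigenvectorUnitary : Matrix I I ℂ) = U at *
  rw [star_eq_conjTranspose] at *
  let ζ : I → H := fun l => ∑ j, U j l • ξ j
  have o : ∀ l m, inner ℂ (ζ l) (ζ m) = (Uᴴ * gram ℂ ξ * U) l m := fun l m => by
    simp only [ζ, inner_sum, sum_inner, inner_smul_left, inner_smul_right, mul_apply, sum_mul,
      mul_sum, gram_apply, conjTranspose_apply, star_def, mul_comm]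
  have nz : ∀ l, (‖ζ l‖ : ℂ) • (‖ζ l‖⁻¹ : ℂ) • ζ l = ζ l := fun l => by
    by_cases h : ζ l = 0 <;> simp [h, smul_smul]
  refine ⟨Uᴴᵀ, fun l => ‖ζ l‖, fun l => (‖ζ l‖⁻¹ : ℂ) • ζ l, ?_, fun _ => norm_nonneg _,
    fun j => ?_, fun s => Real.le_sqrt_of_sq_le ?_, ofReal_injective ?_⟩
  · refine (sq_le_one_iff₀ (norm_nonneg _)).1 ?_
    rw [sq, ← l2_opNorm_conjTranspose_mul_self, show Uᴴᵀᴴ = Uᵀ by ext; simp, ← transpose_mul, u1,
      transpose_one]
    exact nle _ _ zero_le_one (by simp)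
  · simp only [mul_smul, nz]
    simp only [ζ, smul_sum, smul_smul, transpose_apply]
    rw [sum_comm]
    simp only [← sum_smul, mul_comm (Uᴴ _ j), ← mul_apply, u2]
    simp [one_apply]
  · rw [← inner_self_eq_norm_sq (𝕜 := ℂ), sum_inner, map_sum]
    refine sum_le_sum fun l _ => ?_
    rw [inner_sum, sum_eq_single l (fun m _ hm => by
      simp [inner_smul_left, inner_smul_right, o, h, diagonal_apply_ne' _ hm]) (by simp),
      inner_self_eq_norm_sq, norm_smul, mul_pow]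
    refine mul_le_of_le_one_right (sq_nonneg _) (pow_le_one₀ (norm_nonneg _) ?_)
    simp [norm_smul, inv_mul_le_one]
  · have := trace_mul_cycle Uᴴ (gram ℂ ξ) U
    rw [u2, one_mul] at this
    simpa [trace, ← o, inner_self_eq_norm_sq_to_K] using this

lemma red (N₁ N₂ : (Fin n → ℂ) → ℝ) (K : ℝ) (hK : 0 ≤ K) (h : ∀ A C : Fin n → Matrix I I ℂ,
    (∀ z, ‖∑ k, z k • A k‖ ≤ N₁ z) → (∀ z, ‖∑ k, z k • C k‖ ≤ N₂ z) → ∀ x y : I → ℝ,
    (∀ i, 0 ≤ x i) → (∀ i, 0 ≤ y i) → ‖∑ k, trace (D y * A k * D x * C k)‖ ≤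
      K * (√(∑ i, y i ^ 2) * √(∑ i, x i ^ 2))) (A : Fin n → Matrix I I ℂ) (B : Fin n → H →L[ℂ] H)
    (hA : ∀ z, ‖∑ k, z k • A k‖ ≤ N₁ z) (hB : ∀ z, ‖∑ k, z k • B k‖ ≤ N₂ z) (ξ : I → H) :
    √(∑ i, ‖∑ j, (∑ k, A k i j • B k) (ξ j)‖ ^ 2) ≤ K * √(∑ j, ‖ξ j‖ ^ 2) := by
  set η := fun i => ∑ j, (∑ k, A k i j • B k) (ξ j) with hη
  obtain ⟨V, x, v, V1, x0, hv, v1, sx⟩ := dec ξ
  obtain ⟨W, y, w, W1, y0, hw, w1, sy⟩ := dec η
  have a := h (fun k => Wᴴ * A k * V) (fun k => of fun l a => inner ℂ (w a) (B k (v l)))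
    (fun z => ?_) (fun z => ?_) x y x0 y0
  · have b : ∑ k, trace (D y * (Wᴴ * A k * V) * D x * of fun l a => inner ℂ (w a) (B k (v l))) =
        (∑ i, ‖η i‖ ^ 2 : ℝ) := by
      have c : ∀ i, η i = ∑ k, ∑ l, ((A k * V) i l * x l) • B k (v l) := fun i => by
        simp only [hη, hv, ContinuousLinearMap.sum_apply, ContinuousLinearMap.smul_apply, map_sum,
          map_smul, smul_sum, smul_smul, mul_apply, sum_mul, sum_smul, mul_assoc]
        exact (sum_congr rfl fun j _ => sum_comm).trans (sum_comm.trans (sum_congr rfl fun k _ =>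
          sum_comm.trans (sum_congr rfl fun l _ => sum_congr rfl fun j _ => by congr 1; ring)))
      have d : ∀ i, (‖η i‖ ^ 2 : ℂ) = ∑ k, ∑ a, ∑ l, y a * (Wᴴ a i * (A k * V) i l) *
          (x l * inner ℂ (w a) (B k (v l))) := fun i => by
        refine (inner_self_eq_norm_sq_to_K (𝕜 := ℂ) (η i)).symm.trans ?_
        conv_lhs => congr; rw [hw]; rfl; rw [c]
        simp only [inner_sum, sum_inner, inner_smul_left, inner_smul_right, mul_sum, map_mul,
          conj_ofReal, conjTranspose_apply, star_def]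
        exact sum_congr rfl fun k _ => sum_comm.trans (sum_congr rfl fun a _ =>
          sum_congr rfl fun l _ => by ring)
      simp only [ofReal_sum, ofReal_pow, d, ent2, mul_assoc Wᴴ, mul_apply (M := Wᴴ), of_apply,
        mul_sum, sum_mul]
      exact (sum_comm.trans (sum_congr rfl fun k _ => sum_comm.trans
        (sum_congr rfl fun a _ => sum_comm))).symm
    rw [b, sx, sy, norm_real, Real.norm_of_nonneg (by positivity), ← Real.mul_self_sqrt
      (x := ∑ i, ‖η i‖ ^ 2) (by positivity), Real.sqrt_mul_self (Real.sqrt_nonneg _),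
      mul_left_comm] at a
    rcases (Real.sqrt_nonneg (∑ i, ‖η i‖ ^ 2)).eq_or_lt with h0 | h0
    · rw [← h0]; positivity
    · exact le_of_mul_le_mul_left a h0
  · have : ∑ k, z k • (Wᴴ * A k * V) = Wᴴ * (∑ k, z k • A k) * V := by simp [mul_sum, sum_mul]
    rw [this]
    refine (norm_mul₃_le.trans ?_).trans (hA z)
    rw [l2_opNorm_conjTranspose]
    exact (mul_le_of_le_one_right (by positivity) V1).trans (mul_le_of_le_one_left (norm_nonneg _) W1)
  · refine le_trans (nle _ _ (norm_nonneg _) fun s => ?_) (hB z)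
    set T := ∑ k, z k • B k with hT
    set t := (∑ k, z k • of fun l a => inner ℂ (w a) (B k (v l)) : Matrix I I ℂ) *ᵥ s with ht
    have c : ((∑ i, ‖t i‖ ^ 2 : ℝ) : ℂ) =
        inner ℂ (∑ a, conj (s a) • w a) (T (∑ l, conj (t l) • v l)) := by
      simp only [ofReal_sum, ofReal_pow, ← conj_mul', map_sum, map_smul, inner_sum,
        inner_smul_right]
      refine sum_congr rfl fun l _ => congrArg _ ?_
      simp [ht, hT, mulVec, dotProduct, sum_inner, inner_sum, Matrix.sum_apply, inner_smul_left,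
        inner_smul_right, mul_comm, mul_sum, mul_left_comm]
      exact sum_comm
    have d := (c ▸ norm_inner_le_norm _ _).trans (mul_le_mul (w1 _) ((T.le_opNorm _).trans
      (mul_le_mul_of_nonneg_left (v1 _) (norm_nonneg _))) (norm_nonneg _) (Real.sqrt_nonneg _))
    simp only [norm_real, RCLike.norm_conj] at d
    rw [Real.norm_of_nonneg (by positivity)] at d
    have e1 := Real.sq_sqrt (x := ∑ i, ‖t i‖ ^ 2) (by positivity)
    have e2 := Real.sq_sqrt (x := ∑ i, ‖s i‖ ^ 2) (by positivity)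
    nlinarith [sq_nonneg (√(∑ i, ‖t i‖ ^ 2) - ‖T‖ * √(∑ i, ‖s i‖ ^ 2))]

end Pool.Agent.H27.Alpha
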