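import Mathlib

namespace Pool.Agent.H27.AlphaDef

variable {E : Type} [NormedAddCommGroup E] [NormedSpace ℂ E] {I : Type} [Fintype I]

/-- `‖x‖ ≤ 1` in `M_I(min E)`: for every functional `f` with `‖f‖ ≤ 1` the scalar matrix
`(f (x i j))` has operator norm at most `1` on `ℓ₂(I)`. -/
def MinLE (x : Matrix I I E) : Prop :=
  ∀ f : E →L[ℂ] ℂ, ‖f‖ ≤ 1 → ∀ v : I → ℂ,
    √(∑ i, ‖∑ j, f (x i j) * v j‖ ^ 2) ≤ √(∑ j, ‖v j‖ ^ 2)

/-- `‖x‖ ≤ C` in `M_I(max E)`: for every Hilbert space `H` and every linear `u : E → B(H)` with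
`‖u‖ ≤ 1` the operator matrix `(u (x i j))` has norm at most `C` on the Hilbert sum `H^I`. -/
def MaxLE (x : Matrix I I E) (C : ℝ) : Prop :=
  ∀ (H : Type) [NormedAddCommGroup H] [InnerProductSpace ℂ H] [CompleteSpace H]
    (u : E →L[ℂ] H →L[ℂ] H), ‖u‖ ≤ 1 → ∀ ξ : I → H,
    √(∑ i, ‖∑ j, u (x i j) (ξ j)‖ ^ 2) ≤ C * √(∑ j, ‖ξ j‖ ^ 2)

/-- The constants `C` with `‖id : min E → max E‖_cb ≤ C`. -/
def Bounds (E : Type) [NormedAddCommGroup E] [NormedSpace ℂ E] : Set ℝ :=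
  {C | ∀ (m : ℕ) (x : Matrix (Fin m) (Fin m) E), MinLE x → MaxLE x C}

/-- Paulsen's constant `α(E) = ‖id : min E → max E‖_cb`. -/
noncomputable def alpha (E : Type) [NormedAddCommGroup E] [NormedSpace ℂ E] : ℝ := sInf (Bounds E)

end Pool.Agent.H27.AlphaDef
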