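import Pool.Agent.H27.Alpha
import Pool.Agent.H27.AlphaDef

namespace Pool.Agent.H27.Alpha2
open Complex Matrix Finset Pool.Agent.H27.Mom Pool.Agent.H27.Alpha Pool.Agent.H27.AlphaDef
open scoped Matrix.Norms.L2Operator ComplexConjugate

lemma car (n : ℕ) : ∃ (I : Type) (_ : Fintype I) (_ : DecidableEq I) (c : Fin n → Matrix I I ℂ)
    (Q : ℕ → Matrix I I ℂ), (∀ i, (c i)ᵀ = (c i)ᴴ) ∧
    (∀ i j, (c i)ᴴ * c j + c j * (c i)ᴴ = if i = j then 1 else 0) ∧
    (∀ i j, c i * c j + c j * c i = 0) ∧ Q 0 = 0 ∧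
    (∀ r, ∑ k, c k * Q r * (c k)ᴴ = (r : ℂ) • Q (r + 1)) ∧
    ∀ r, fn (Q (r + 1)) ^ 2 = n.choose r := by
  induction n with
  | zero =>
    refine ⟨Unit, inferInstance, inferInstance, fun _ => 0, fun r => if r = 1 then 1 else 0,
      by simp, fun i => i.elim0, by simp, by simp, fun r => ?_, fun r => ?_⟩ <;>
      cases r <;> simp [fn2]
  | succ n ih =>
    obtain ⟨I, _, _, c, Q, h1, h2, h3, h4, h5, h6⟩ := ih
    refine ⟨I ⊕ I, inferInstance, inferInstance,
      Fin.cons (fromBlocks 0 0 1 0) fun k => fromBlocks (c k) 0 0 (-c k),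
      fun r => match r with | 0 => 0 | r + 1 => fromBlocks (Q (r + 1)) 0 0 (Q r), fun i => ?_,
      fun i j => ?_, fun i j => ?_, rfl, fun r => ?_, fun r => ?_⟩
    · cases i using Fin.cases <;> simp [fromBlocks_transpose, fromBlocks_conjTranspose, h1]
    · cases i using Fin.cases <;> cases j using Fin.cases <;>
        simp [fromBlocks_multiply, fromBlocks_conjTranspose, fromBlocks_add, h2,
          (Fin.succ_ne_zero _).symm]
      split_ifs <;> simp
    · cases i using Fin.cases <;> cases j using Fin.cases <;>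
        simp [fromBlocks_multiply, fromBlocks_add, h3]
    · cases r with
      | zero => simp
      | succ r =>
        have a := fun i j => congrFun (congrFun (h5 r) i) j
        have b := fun i j => congrFun (congrFun (h5 (r + 1)) i) j
        simp only [Fin.sum_univ_succ, Fin.cons_zero, Fin.cons_succ, fromBlocks_multiply,
          fromBlocks_conjTranspose, Matrix.sum_apply] at a b ⊢
        ext (i | i) (j | j) <;> simp [Matrix.sum_apply, a, b, add_mul, add_comm]
    · have a := h6 r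
      cases r with
      | zero => simpa [fn2, h4] using a
      | succ r =>
        have b := h6 r
        simp only [fn2] at a b
        simp [fn2, a, b, Nat.choose_succ_succ']
        ring

variable {n : ℕ} {I : Type} [Fintype I] [DecidableEq I]

lemma anti (T : Matrix I I ℂ) (s : ℝ) (hs : 0 ≤ s) (h : Tᴴ * T + T * Tᴴ = (s : ℂ) • 1) :
    ‖T‖ ≤ √s := by
  refine nle _ _ (Real.sqrt_nonneg _) fun v => ?_
  have e : ∀ w : I → ℂ, star w ⬝ᵥ w = (∑ i, ‖w i‖ ^ 2 : ℝ) := fun w => by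
    simp [dotProduct, conj_mul']
  have e' : ∀ M : Matrix I I ℂ, star v ⬝ᵥ ((Mᴴ * M) *ᵥ v) = (∑ i, ‖(M *ᵥ v) i‖ ^ 2 : ℝ) :=
    fun M => by rw [← e, star_mulVec, ← mulVec_mulVec, dotProduct_mulVec]
  have a := congrArg (fun M => star v ⬝ᵥ (M *ᵥ v)) h
  have b := e' Tᴴ
  rw [conjTranspose_conjTranspose] at b
  simp only [add_mulVec, dotProduct_add, e', b, smul_mulVec, one_mulVec, dotProduct_smul, e,
    smul_eq_mul] at a
  norm_cast at a
  rw [Real.sq_sqrt hs, ← a]
  exact le_add_of_nonneg_right (by positivity)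

lemma anti2 (c : Fin n → Matrix I I ℂ) (t : ℝ) (ht : 0 ≤ t)
    (h : ∀ i j, (c i)ᴴ * c j + c j * (c i)ᴴ = if i = j then (t : ℂ) • 1 else 0) (z : Fin n → ℂ) :
    ‖∑ k, z k • c k‖ ≤ √(t * ∑ k, ‖z k‖ ^ 2) := by
  refine anti _ _ (by positivity) ?_
  simp only [conjTranspose_sum, conjTranspose_smul, sum_mul, mul_sum, smul_mul_smul_comm]
  rw [sum_comm, ← sum_add_distrib, ofReal_sum, sum_smul]
  refine sum_congr rfl fun i _ => ?_
  simp only [← sum_add_distrib, mul_comm (z _) (star _), ← smul_add, h]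
  simp [conj_mul', ← smul_smul (‖z i‖ ^ 2 : ℂ), mul_comm (t : ℂ)]

variable {E : Type} [NormedAddCommGroup E] [NormedSpace ℂ E]

omit [DecidableEq I] in
lemma anyI {C : ℝ} (hC : C ∈ Bounds E) (x : Matrix I I E) (hx : MinLE x) : MaxLE x C := by
  let e := (Fintype.equivFin I).symm
  intro H _ _ _ u hu ξ
  have := hC _ (x.submatrix e e) (fun f hf v => by
    simpa [← e.sum_comp] using hx f hf (v ∘ e.symm)) H u hu (ξ ∘ e)
  simpa [← e.sum_comp] using this

lemma up (b : Fin n → E) (φ : Fin n → E →L[ℂ] ℂ) (hb : ∀ y, ∑ k, φ k y • b k = y)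
    (N₁ N₂ : (Fin n → ℂ) → ℝ) (h1 : ∀ z, ‖∑ k, z k • φ k‖ ≤ N₁ z) (h2 : ∀ z, ‖∑ k, z k • b k‖ ≤ N₂ z)
    (K : ℝ) (hK : 0 ≤ K) (h : ∀ (m : ℕ) (A C : Fin n → Matrix (Fin m) (Fin m) ℂ),
    (∀ z, ‖∑ k, z k • A k‖ ≤ N₁ z) → (∀ z, ‖∑ k, z k • C k‖ ≤ N₂ z) → ∀ x y : Fin m → ℝ,
    (∀ i, 0 ≤ x i) → (∀ i, 0 ≤ y i) → ‖∑ k, trace (D y * A k * D x * C k)‖ ≤
      K * (√(∑ i, y i ^ 2) * √(∑ i, x i ^ 2))) : K ∈ Bounds E := by
  intro m x hx H _ _ _ u hu ξ
  have := red N₁ N₂ K hK (h m) (fun k => x.map (φ k)) (fun k => u (b k)) (fun z => ?_)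
    (fun z => ?_) ξ
  · simpa only [map_apply, ← map_smul, ← map_sum, hb] using this
  · refine le_trans (nle _ _ (norm_nonneg _) fun v => ?_) (h1 z)
    set f := ∑ k, z k • φ k with hf
    have e : ∀ i, ((∑ k, z k • x.map (φ k)) *ᵥ v) i = ∑ j, f (x i j) * v j := fun i => by
      simp [hf, mulVec, dotProduct, Matrix.sum_apply]
    simp only [e]
    by_cases h0 : f = 0
    · simp [h0]
    have p := norm_pos_iff.2 h0
    have := (Real.sqrt_le_sqrt_iff (by positivity)).1
      (hx ((‖f‖⁻¹ : ℂ) • f) (by simp [norm_smul, h0]) v)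
    simp only [_root_.smul_apply, smul_eq_mul, mul_assoc, ← mul_sum, norm_mul, norm_inv, norm_real,
      norm_norm, mul_pow, inv_pow] at this
    rwa [inv_mul_le_iff₀ (by positivity)] at this
  · simp only [← map_smul, ← map_sum]
    exact ((u.le_opNorm _).trans (mul_le_of_le_one_left (norm_nonneg _) hu)).trans (h2 z)

lemma low (b : Fin n → E) (φ : Fin n → E →L[ℂ] ℂ) (hb : ∀ k l, φ k (b l) = if k = l then 1 else 0)
    (A B : Fin n → Matrix I I ℂ) (hA : ∀ f : E →L[ℂ] ℂ, ‖f‖ ≤ 1 → ‖∑ k, f (b k) • A k‖ ≤ 1)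
    (hB : ∀ y, ‖∑ k, φ k y • B k‖ ≤ ‖y‖) {C : ℝ} (hC : C ∈ Bounds E) (X : Matrix I I ℂ) :
    fn (∑ k, A k * X * (B k)ᵀ) ≤ C * fn X := by
  have := anyI hC (of fun i j => ∑ k, A k i j • b k) (fun f hf v => Real.sqrt_le_sqrt ?_)
    (EuclideanSpace ℂ I) (∑ k, (φ k).smulRight (toEuclideanCLM (n := I) (𝕜 := ℂ) (B k)))
    (ContinuousLinearMap.opNorm_le_bound _ zero_le_one fun y => ?_) fun j => WithLp.toLp 2 (X j)
  · rw [← Real.sqrt_sq (f0 X), ← Real.sqrt_sq (f0 _), fn2, fn2]
    simp only [EuclideanSpace.norm_sq_eq] at this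
    convert this using 5 with i _ p
    simp [hb, Matrix.sum_apply, mul_apply, mulVec, dotProduct, sum_mul, mul_sum]
    exact congrArg _ ((sum_congr rfl fun k _ => sum_comm).trans (sum_comm.trans (sum_congr rfl
      fun _ _ => sum_congr rfl fun _ _ => sum_congr rfl fun _ _ => by ring)))
  · have := (nge _ v).trans (mul_le_of_le_one_left (by positivity)
      (pow_le_one₀ (norm_nonneg _) (hA f hf)))
    simpa [mulVec, dotProduct, Matrix.sum_apply, mul_comm] using this
  · have := hB y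
    rw [cstar_norm_def] at this
    simpa using this

omit [DecidableEq I] in
lemma fsm (t : ℂ) (X : Matrix I I ℂ) : fn (t • X) = ‖t‖ * fn X := norm_smul t (Mom.vec X)

lemma e2 (z : Fin n → ℂ) : ‖∑ k, z k • EuclideanSpace.single k (1 : ℂ)‖ = √(∑ k, ‖z k‖ ^ 2) := by
  simp [EuclideanSpace.norm_eq, Pi.single_apply]

lemma ei (z : Fin n → ℂ) : ∑ k, z k • (Pi.single k 1 : Fin n → ℂ) = z := by
  ext; simp [Pi.single_apply]

lemma up2 : ((n : ℝ) + 1) / 2 ∈ Bounds (EuclideanSpace ℂ (Fin n)) :=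
  up (fun k => EuclideanSpace.single k 1) (fun k => EuclideanSpace.proj k)
    (fun y => by ext; simp [Pi.single_apply]) _ _ (fun z =>
      ContinuousLinearMap.opNorm_le_bound _ (Real.sqrt_nonneg _) fun y => by
        simpa [EuclideanSpace.norm_eq] using (norm_sum_le_of_le univ fun k _ =>
          (norm_mul (z k) (y k)).le).trans (Real.sum_mul_le_sqrt_mul_sqrt _ _ _))
    (fun z => (e2 z).le) _ (by positivity) fun _ => F2

lemma low2 (r : ℕ) (hr : r ≤ n) {C : ℝ} (hC : C ∈ Bounds (EuclideanSpace ℂ (Fin n))) :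
    √((r + 1) * (n - r)) ≤ C := by
  obtain ⟨I, _, _, c, Q, h1, h2, -, -, h5, h6⟩ := car n
  have a := fun z => anti2 c 1 zero_le_one (by simpa using h2) z
  have b := low (fun k => EuclideanSpace.single k 1) (fun k => EuclideanSpace.proj k)
    (fun k l => by simp [Pi.single_apply]) c c (fun f hf => (a _).trans ?_)
    (fun y => by simpa [EuclideanSpace.norm_eq] using a y) hC (Q (r + 1))
  · simp only [h1, h5, fsm, norm_natCast] at b
    have p : (0 : ℝ) < n.choose r := by exact_mod_cast Nat.choose_pos hr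
    have q : (n.choose (r + 1) : ℝ) * (r + 1) = n.choose r * (n - r) := by
      exact_mod_cast Nat.choose_succ_right_eq n r
    have s := f0 (Q (r + 1))
    have t := mul_nonneg (r + 1).cast_nonneg (f0 (Q (r + 1 + 1)))
    have u := pow_le_pow_left₀ t b 2
    rw [mul_pow, mul_pow, h6, h6] at u
    push_cast at u
    refine Real.sqrt_le_iff.2 ⟨nonneg_of_mul_nonneg_left (t.trans b) (s.lt_of_ne' fun h => ?_), ?_⟩
    · simp [← h6, h] at p
    · nlinarith
  · have := f.le_opNorm (∑ k, conj (f (EuclideanSpace.single k 1)) • EuclideanSpace.single k 1)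
    rw [e2] at this
    simp only [map_sum, map_smul, smul_eq_mul, conj_mul', RCLike.norm_conj, one_mul] at this ⊢
    norm_cast at this
    rw [Real.norm_of_nonneg (by positivity)] at this
    have e := Real.mul_self_sqrt (x := ∑ k, ‖f (EuclideanSpace.single k 1)‖ ^ 2) (by positivity)
    nlinarith [Real.sqrt_nonneg (∑ k, ‖f (EuclideanSpace.single k 1)‖ ^ 2)]

lemma upi (hn : 0 < n) : n / √(2 * n - 1) ∈ Bounds (Fin n → ℂ) :=
  up (fun k => Pi.single k 1) (fun k => ContinuousLinearMap.proj k) ei _ _ (fun z =>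
      norm_sum_le_of_le _ fun k _ => ContinuousLinearMap.opNorm_le_bound _ (norm_nonneg _) fun y => by
        simpa using mul_le_mul_of_nonneg_left (norm_le_pi_norm y k) (norm_nonneg (z k)))
    (fun z => (congrArg _ (ei z)).le) _ (by positivity) fun _ A C a b x y _ _ => Finf hn A C a b x y

lemma lowi (hn : 0 < n) {C : ℝ} (hC : C ∈ Bounds (Fin n → ℂ)) : √(n / 2) ≤ C := by
  obtain ⟨I, _, _, c, Q, h1, h2, h3, -, -, h6⟩ := car n
  set g := fun k => c k + (c k)ᴴ with hg
  have g1 : ∀ k, (g k)ᴴ = g k := fun k => by simp [hg, add_comm]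
  have g2 : ∀ k, (g k)ᵀ = g k := fun k => by simp [hg, ← h1, add_comm]
  have g3 : ∀ i j, (g i)ᴴ * g j + g j * (g i)ᴴ = if i = j then ((2 : ℝ) : ℂ) • 1 else 0 :=
    fun i j => by
    have a := congrArg conjTranspose (h3 i j)
    have b := h2 i j
    have d := h2 j i
    have e := h3 i j
    simp only [conjTranspose_add, conjTranspose_mul, conjTranspose_zero, eq_comm (a := j)] at a d
    rw [g1, hg]
    split_ifs at * <;> simp only [ofReal_ofNat, two_smul] <;>
      linear_combination (norm := noncomm_ring) a + b + d + e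
  have g4 : ∀ k, g k * g k = 1 := fun k => by
    have := g3 k k
    rw [g1, if_pos rfl, ← two_smul ℂ] at this
    exact smul_right_injective _ two_ne_zero this
  have g5 : ∀ k, ‖g k‖ ≤ 1 := fun k => (sq_le_one_iff₀ (norm_nonneg _)).1 (by
    rw [sq, ← l2_opNorm_conjTranspose_mul_self, g1, g4]; exact nle _ _ zero_le_one (by simp))
  have n0 : (0 : ℝ) < n := by exact_mod_cast hn
  have s := Real.sqrt_pos.2 (mul_pos two_pos n0)
  have b := low (fun k => Pi.single k 1) (fun k => ContinuousLinearMap.proj k)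
    (fun k l => by simp [Pi.single_apply]) g (fun k => ((√(2 * n))⁻¹ : ℝ) • g k) (fun f hf => ?_)
    (fun y => ?_) hC 1
  · have p : 0 < fn (1 : Matrix I I ℂ) := by
      rcases isEmpty_or_nonempty I with h | h
      · simpa [fn2] using h6 0
      · refine (f0 _).lt_of_ne' fun h0 => ?_
        simpa [h0, one_apply, apply_ite norm] using (fn2 (1 : Matrix I I ℂ)).symm
    simp only [transpose_smul, g2, mul_one, mul_smul_comm, g4, sum_const, card_univ,
      Fintype.card_fin, ← Nat.cast_smul_eq_nsmul ℂ, ← Complex.coe_smul, fsm, ← mul_assoc] at b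
    refine le_trans (le_of_eq ?_) (le_of_mul_le_mul_right b p)
    rw [norm_natCast, norm_real, Real.norm_of_nonneg (by positivity), Real.sqrt_eq_iff_mul_self_eq
      (by positivity) (by positivity), mul_mul_mul_comm, ← mul_inv, Real.mul_self_sqrt
      (by positivity)]
    field_simp
  · choose w w1 hw using fun k => exists_norm_eq_mul_self (f (Pi.single k 1))
    have := (f.le_opNorm w).trans (mul_le_one₀ hf (norm_nonneg _)
      ((pi_norm_le_iff_of_nonneg zero_le_one).2 fun k => (w1 k).le))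
    rw [← ei w] at this
    simp only [map_sum, map_smul, smul_eq_mul, ← hw] at this
    norm_cast at this
    exact (norm_sum_le_of_le _ fun k _ => (norm_smul_le _ _).trans (mul_le_of_le_one_right
      (norm_nonneg _) (g5 k))).trans ((le_abs_self _).trans this)
  · simp only [smul_comm _ (√(2 * (n : ℝ)))⁻¹, ← smul_sum, norm_smul, norm_inv, Real.norm_of_nonneg s.le,
      inv_mul_le_iff₀ s]
    refine (anti2 g 2 two_pos.le g3 _).trans (Real.sqrt_le_iff.2 ⟨by positivity, ?_⟩)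
    rw [mul_pow, Real.sq_sqrt (by positivity), mul_assoc]
    simpa using sum_le_card_nsmul univ _ _ fun k _ =>
      pow_le_pow_left₀ (norm_nonneg _) (norm_le_pi_norm y k) 2

theorem a2 (n : ℕ) : alpha (EuclideanSpace ℂ (Fin n)) ≤ (n + 1) / 2 ∧
    ∀ r : ℕ, r ≤ n → √((r + 1) * (n - r)) ≤ alpha (EuclideanSpace ℂ (Fin n)) :=
  ⟨csInf_le ⟨_, fun _ => low2 0 n.zero_le⟩ up2, fun r hr => le_csInf ⟨_, up2⟩ fun _ => low2 r hr⟩

theorem ai (hn : 0 < n) : √(n / 2) ≤ alpha (Fin n → ℂ) ∧ alpha (Fin n → ℂ) ≤ n / √(2 * n - 1) :=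
  ⟨le_csInf ⟨_, upi hn⟩ fun _ => lowi hn, csInf_le ⟨_, fun _ => lowi hn⟩ (upi hn)⟩

end Pool.Agent.H27.Alpha2
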