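import Mathlib

set_option autoImplicit false

namespace Pool.Agent.H27.Alt
open scoped RealInnerProductSpace
open Filter Topology

lemma harm (a : ℕ → ℝ) (a0 : ∀ k, 0 ≤ a k) (C B η : ℝ) (hB : 0 ≤ B) (hη : 0 < η)
    (hC : ∀ n, ∑ j ∈ Finset.range n, a j ^ 2 ≤ C)
    (h : ∀ k, η ≤ a (k + 1) * (B + ∑ j ∈ Finset.range (k + 2), a j)) : False := by
  have C0 : 0 ≤ C := by simpa using hC 0
  set D := 2 * B ^ 2 + 2 * C with hD
  have key : ∀ k : ℕ, η ^ 2 ≤ a (k + 1) ^ 2 * (D * ((k : ℝ) + 2)) := by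
    intro k
    have h1 : (∑ j ∈ Finset.range (k + 2), a j) ^ 2 ≤ ((k : ℝ) + 2) * C := by
      refine sq_sum_le_card_mul_sum_sq.trans ?_
      rw [Finset.card_range]; push_cast
      exact mul_le_mul_of_nonneg_left (hC _) (by positivity)
    have h2 : (B + ∑ j ∈ Finset.range (k + 2), a j) ^ 2 ≤ D * ((k : ℝ) + 2) := by
      have : (0 : ℝ) ≤ k := by positivity
      nlinarith [sq_nonneg (B - ∑ j ∈ Finset.range (k + 2), a j), sq_nonneg B]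
    calc η ^ 2 ≤ (a (k + 1) * (B + ∑ j ∈ Finset.range (k + 2), a j)) ^ 2 :=
          pow_le_pow_left₀ hη.le (h k) 2
      _ ≤ _ := by rw [mul_pow]; gcongr
  have D0 : 0 < D := by
    rcases (show 0 ≤ D by positivity).lt_or_eq with h | h
    · exact h
    · have := key 0
      rw [← h] at this
      nlinarith
  have s1 : Summable fun j => a j ^ 2 := summable_of_sum_range_le (fun _ => sq_nonneg _) hC
  have s2 : Summable fun k : ℕ => a (k + 1) ^ 2 * (D / η ^ 2) :=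
    ((summable_nat_add_iff 1).2 s1).mul_right _
  refine Real.not_summable_one_div_natCast ((summable_nat_add_iff 2).1
    (Summable.of_nonneg_of_le (fun _ => by positivity) (fun k => ?_) s2))
  push_cast
  rw [← mul_div_assoc, div_le_div_iff₀ (by positivity) (by positivity)]
  nlinarith [key k]

variable {E H : Type} [NormedAddCommGroup E] [NormedSpace ℝ E] [NormedAddCommGroup H]
  [InnerProductSpace ℝ H] (p : E →L[ℝ] H) (e : H)

/-- derivative of the fourth power of the norm -/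
noncomputable def J (x v : E) : ℝ := 4 * ‖p x‖ ^ 2 * ⟪p x, p v⟫ + 4 * ⟪e, p x⟫ ^ 3 * ⟪e, p v⟫

lemma J_add (x u v : E) : J p e x (u + v) = J p e x u + J p e x v := by
  simp only [J, map_add, inner_add_right]; ring

lemma J_lip (he : ‖e‖ = 1) (x y v : E) (R : ℝ) (hx : ‖p x‖ ≤ R) (hy : ‖p y‖ ≤ R) :
    |J p e x v - J p e y v| ≤ 24 * R ^ 2 * ‖p (x - y)‖ * ‖p v‖ := by
  have R0 : 0 ≤ R := (norm_nonneg _).trans hx
  rw [map_sub]
  set d := ‖p x - p y‖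
  have ee : ∀ w : H, |⟪e, w⟫| ≤ ‖w‖ := fun w => by simpa [he] using abs_real_inner_le_norm e w
  have e1 : J p e x v - J p e y v = 4 * (‖p x‖ ^ 2 * ⟪p x - p y, p v⟫) +
      4 * ((‖p x‖ - ‖p y‖) * (‖p x‖ + ‖p y‖) * ⟪p y, p v⟫) +
      4 * (⟪e, p x - p y⟫ * (⟪e, p x⟫ ^ 2 + ⟪e, p x⟫ * ⟪e, p y⟫ + ⟪e, p y⟫ ^ 2) * ⟪e, p v⟫) := by
    simp only [J, inner_sub_left, inner_sub_right]; ring
  have b1 : |‖p x‖ ^ 2 * ⟪p x - p y, p v⟫| ≤ R ^ 2 * (d * ‖p v‖) := by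
    rw [abs_mul, abs_pow, abs_norm]; gcongr; exact abs_real_inner_le_norm _ _
  have b2 : |(‖p x‖ - ‖p y‖) * (‖p x‖ + ‖p y‖) * ⟪p y, p v⟫| ≤ d * (R + R) * (R * ‖p v‖) := by
    rw [abs_mul, abs_mul, abs_of_nonneg (show 0 ≤ ‖p x‖ + ‖p y‖ by positivity)]
    gcongr
    · exact abs_norm_sub_norm_le _ _
    · exact (abs_real_inner_le_norm _ _).trans (by gcongr)
  have b3 : |⟪e, p x - p y⟫ * (⟪e, p x⟫ ^ 2 + ⟪e, p x⟫ * ⟪e, p y⟫ + ⟪e, p y⟫ ^ 2) * ⟪e, p v⟫| ≤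
      d * (R ^ 2 + R * R + R ^ 2) * ‖p v‖ := by
    have x1 := (ee (p x)).trans hx
    have y1 := (ee (p y)).trans hy
    rw [abs_mul, abs_mul]
    gcongr
    · exact ee _
    · refine (abs_add_three _ _ _).trans ?_
      rw [abs_pow, abs_pow, abs_mul]; gcongr
    · exact ee _
  rw [e1]
  refine (abs_add_three _ _ _).trans ?_
  rw [abs_mul 4, abs_mul 4, abs_mul 4, abs_of_pos (show (0 : ℝ) < 4 by norm_num)]
  nlinarith

variable {p e} (hN : ∀ x, ‖x‖ ^ 4 = ‖p x‖ ^ 4 + ⟪e, p x⟫ ^ 4)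
include hN

lemma p_le (x : E) : ‖p x‖ ≤ ‖x‖ :=
  (pow_le_pow_iff_left₀ (norm_nonneg _) (norm_nonneg _) four_ne_zero).1 (by
    rw [hN]; nlinarith [sq_nonneg (⟪e, p x⟫ ^ 2)])

lemma le_p (he : ‖e‖ = 1) (x : E) : ‖x‖ ^ 4 ≤ 2 * ‖p x‖ ^ 4 := by
  have h : |⟪e, p x⟫| ≤ ‖p x‖ := by simpa [he] using abs_real_inner_le_norm e (p x)
  have := pow_le_pow_left₀ (abs_nonneg _) h 4
  rw [Even.pow_abs (by norm_num)] at this
  rw [hN]; linarith

lemma conv (x v : E) : ‖x‖ ^ 4 + J p e x v + 2 * ‖p x‖ ^ 2 * ‖p v‖ ^ 2 ≤ ‖x + v‖ ^ 4 := by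
  rw [hN, hN, map_add, inner_add_right, show ‖p x + p v‖ ^ 4 = (‖p x + p v‖ ^ 2) ^ 2 by ring,
    norm_add_sq_real, J]
  nlinarith [sq_nonneg (2 * ⟪p x, p v⟫ + ‖p v‖ ^ 2), sq_nonneg (⟪e, p v⟫ * (2 * ⟪e, p x⟫ + ⟪e, p v⟫)),
    sq_nonneg (⟪e, p v⟫ * ⟪e, p x⟫)]

lemma clark (m d : E) : 2 * ‖m‖ ^ 4 + 2 * ‖p d‖ ^ 4 ≤ ‖m + d‖ ^ 4 + ‖m - d‖ ^ 4 := by
  rw [hN, hN, hN, map_add, map_sub, inner_add_right, inner_sub_right,
    show ‖p m + p d‖ ^ 4 = (‖p m + p d‖ ^ 2) ^ 2 by ring,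
    show ‖p m - p d‖ ^ 4 = (‖p m - p d‖ ^ 2) ^ 2 by ring, norm_add_sq_real, norm_sub_sq_real]
  nlinarith [sq_nonneg ⟪p m, p d⟫, sq_nonneg (‖p m‖ * ‖p d‖), sq_nonneg (⟪e, p d⟫ * ⟪e, p m⟫),
    sq_nonneg (⟪e, p d⟫ ^ 2)]

lemma opt (x g : E) (h : ∀ t : ℝ, ‖x‖ ≤ ‖x + t • g‖) : J p e x g = 0 := by
  have e1 : (fun t : ℝ => ‖x + t • g‖ ^ 4) = fun t : ℝ =>
      (‖p x‖ ^ 2 + 2 * (t * ⟪p x, p g⟫) + t ^ 2 * ‖p g‖ ^ 2) ^ 2 + (⟪e, p x⟫ + t * ⟪e, p g⟫) ^ 4 := by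
    funext t
    rw [hN, map_add, map_smul, inner_add_right, inner_smul_right,
      show ‖p x + t • p g‖ ^ 4 = (‖p x + t • p g‖ ^ 2) ^ 2 by ring, norm_add_sq_real,
      inner_smul_right, norm_smul, mul_pow, Real.norm_eq_abs, sq_abs]
  have d : HasDerivAt (fun t : ℝ => ‖x + t • g‖ ^ 4) (J p e x g) 0 := by
    rw [e1]
    have i := hasDerivAt_id' (0 : ℝ)
    convert! ((((i.mul_const ⟪p x, p g⟫).const_mul 2).const_add (‖p x‖ ^ 2)).fun_add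
      ((i.fun_pow 2).mul_const (‖p g‖ ^ 2))).fun_pow 2 |>.fun_add
      (((i.mul_const ⟪e, p g⟫).const_add ⟪e, p x⟫).fun_pow 4) using 1
    simp [J]; ring
  refine IsLocalMin.hasDerivAt_eq_zero (Eventually.of_forall fun t => ?_) d
  simpa using pow_le_pow_left₀ (norm_nonneg _) (h t) 4

lemma opt' (G : Submodule ℝ E) (x y : E) (h1 : x - y ∈ G) (h2 : ‖y‖ = Metric.infDist x G)
    (g : E) (hg : g ∈ G) : J p e y g = 0 := by
  refine opt hN y g fun t => ?_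
  have := Metric.infDist_le_dist_of_mem (x := x) (G.sub_mem h1 (G.smul_mem t hg))
  rw [h2]
  convert this using 1
  rw [dist_eq_norm]; congr 1; abel

lemma low (he : ‖e‖ = 1) (G₁ G₂ : Submodule ℝ E) (r : ℕ → E) (K : ℕ → Submodule ℝ E)
    (hK : ∀ k, (K k = G₁ ∧ K (k + 1) = G₂) ∨ (K k = G₂ ∧ K (k + 1) = G₁))
    (h1 : ∀ k, r k - r (k + 1) ∈ K k) (h2 : ∀ k, ∀ g ∈ K k, J p e (r (k + 1)) g = 0)
    (ρ : ℝ) (hρ : ∀ k, ρ ≤ ‖r k‖ ^ 4) (g : E) (hg : g ∈ G₁ ⊔ G₂) : ρ ≤ ‖r 0 - g‖ ^ 4 := by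
  by_contra hlt
  push Not at hlt
  have ρ0 : 0 < ρ := (by positivity : (0 : ℝ) ≤ _).trans_lt hlt
  obtain ⟨g₁, m₁, g₂, m₂, rfl⟩ := Submodule.mem_sup.1 hg
  set a : ℕ → ℝ := fun k => ‖p (r k - r (k + 1))‖ with ha
  set μ := Real.sqrt (ρ / 2) with hμ
  have μ0 : 0 < μ := by positivity
  have hm : ∀ k, μ ≤ ‖p (r k)‖ ^ 2 := fun k => Real.sqrt_le_iff.2 ⟨by positivity, by
    have := le_p hN he (r k)
    have := hρ k
    nlinarith⟩
  have dec : ∀ k, ‖r (k + 1)‖ ^ 4 + 2 * μ * a k ^ 2 ≤ ‖r k‖ ^ 4 := fun k => by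
    have := conv hN (r (k + 1)) (r k - r (k + 1))
    rw [h2 k _ (h1 k), add_sub_cancel] at this
    nlinarith [hm (k + 1), sq_nonneg (a k)]
  have tel : ∀ n, ‖r n‖ ^ 4 + 2 * μ * ∑ j ∈ Finset.range n, a j ^ 2 ≤ ‖r 0‖ ^ 4 := fun n => by
    induction n with
    | zero => simp
    | succ n ih => rw [Finset.sum_range_succ]; linarith [dec n]
  have bR : ∀ n, ‖p (r n)‖ ≤ ‖r 0‖ := fun n => (p_le hN _).trans
    ((pow_le_pow_iff_left₀ (norm_nonneg _) (norm_nonneg _) four_ne_zero).1 (by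
      have : 0 ≤ 2 * μ * ∑ j ∈ Finset.range n, a j ^ 2 := by positivity
      linarith [tel n]))
  have R0 : 0 < ‖r 0‖ := by
    by_contra h
    have := hρ 0
    rw [le_antisymm (not_lt.1 h) (norm_nonneg _)] at this
    linarith
  have spl : ∀ n, ∃ u ∈ G₁, ∃ v ∈ G₂, r 0 - r n = u + v ∧ ‖p u‖ ≤ ∑ j ∈ Finset.range n, a j ∧
      ‖p v‖ ≤ ∑ j ∈ Finset.range n, a j := fun n => by
    induction n with
    | zero => exact ⟨0, G₁.zero_mem, 0, G₂.zero_mem, by simp, by simp, by simp⟩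
    | succ n ih =>
      obtain ⟨u, hu, v, hv, e1, b1, b2⟩ := ih
      have a0 : 0 ≤ a n := norm_nonneg _
      have e2 : r 0 - r (n + 1) = u + v + (r n - r (n + 1)) := by rw [← e1]; abel
      rw [Finset.sum_range_succ]
      rcases hK n with ⟨k, -⟩ | ⟨k, -⟩
      · refine ⟨u + (r n - r (n + 1)), G₁.add_mem hu (k ▸ h1 n), v, hv, by rw [e2]; abel, ?_,
          by linarith⟩
        rw [map_add]; exact (norm_add_le _ _).trans (by gcongr)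
      · refine ⟨u, hu, v + (r n - r (n + 1)), G₂.add_mem hv (k ▸ h1 n), by rw [e2]; abel,
          by linarith, ?_⟩
        rw [map_add]; exact (norm_add_le _ _).trans (by gcongr)
  refine harm a (fun _ => norm_nonneg _) (‖r 0‖ ^ 4 / (2 * μ)) (‖p g₁‖ + ‖p g₂‖)
    ((ρ - ‖r 0 - (g₁ + g₂)‖ ^ 4) / (24 * ‖r 0‖ ^ 2)) (by positivity)
    (div_pos (by linarith) (by positivity)) (fun n => ?_) fun k => ?_
  · rw [le_div_iff₀ (by positivity)]
    have : 0 ≤ ‖r n‖ ^ 4 := by positivity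
    linarith [tel n]
  · obtain ⟨u, hu, v, hv, e1, b1, b2⟩ := spl (k + 2)
    set S := ∑ j ∈ Finset.range (k + 2), a j
    have c := conv hN (r (k + 2)) (u - g₁ + (v - g₂))
    have e2 : r (k + 2) + (u - g₁ + (v - g₂)) = r 0 - (g₁ + g₂) := by
      rw [eq_add_of_sub_eq e1]; abel
    have gen : ∀ w g' : E, J p e (r (k + 1)) (w - g') = 0 → ‖p w‖ ≤ S →
        ‖p g'‖ ≤ ‖p g₁‖ + ‖p g₂‖ → -(24 * ‖r 0‖ ^ 2 * (a (k + 1) * (‖p g₁‖ + ‖p g₂‖ + S))) ≤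
          J p e (r (k + 2)) (w - g') := fun w g' z bw bg => by
      have l := J_lip p e he (r (k + 1)) (r (k + 2)) (w - g') _ (bR _) (bR _)
      rw [z, zero_sub, abs_neg] at l
      have : ‖p (w - g')‖ ≤ ‖p g₁‖ + ‖p g₂‖ + S := by
        rw [map_sub]; linarith [norm_sub_le (p w) (p g')]
      refine le_trans ?_ (neg_abs_le _)
      rw [neg_le_neg_iff, ← mul_assoc]
      exact l.trans (by gcongr)
    rw [e2, J_add] at c
    rw [div_le_iff₀ (by positivity)]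
    have n1 : 0 ≤ 2 * ‖p (r (k + 2))‖ ^ 2 * ‖p (u - g₁ + (v - g₂))‖ ^ 2 := by positivity
    have n2 := hρ (k + 2)
    rcases hK k with ⟨k1, k2⟩ | ⟨k1, k2⟩
    · have := gen u g₁ (h2 k _ (k1 ▸ G₁.sub_mem hu m₁)) b1 (by linarith [norm_nonneg (p g₂)])
      rw [h2 (k + 1) (v - g₂) (k2 ▸ G₂.sub_mem hv m₂)] at c
      linarith
    · have := gen v g₂ (h2 k _ (k1 ▸ G₂.sub_mem hv m₂)) b2 (by linarith [norm_nonneg (p g₁)])
      rw [h2 (k + 1) (u - g₁) (k2 ▸ G₁.sub_mem hu m₁)] at c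
      linarith

theorem alt [CompleteSpace E] (he : ‖e‖ = 1) (G₁ G₂ : Submodule ℝ E) (r : ℕ → E)
    (h1 : ∀ k : ℕ, r (2 * k) - r (2 * k + 1) ∈ G₁ ∧
      ‖r (2 * k + 1)‖ = Metric.infDist (r (2 * k)) (G₁ : Set E))
    (h2 : ∀ k : ℕ, r (2 * k + 1) - r (2 * k + 2) ∈ G₂ ∧
      ‖r (2 * k + 2)‖ = Metric.infDist (r (2 * k + 1)) (G₂ : Set E)) :
    ∃ y : E, Tendsto r atTop (nhds y) ∧ r 0 - y ∈ (G₁ ⊔ G₂).topologicalClosure ∧
      ‖y‖ = Metric.infDist (r 0) ((G₁ ⊔ G₂).topologicalClosure : Set E) := by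
  set K : ℕ → Submodule ℝ E := fun k => if Even k then G₁ else G₂ with hKd
  have hK : ∀ k, (K k = G₁ ∧ K (k + 1) = G₂) ∨ (K k = G₂ ∧ K (k + 1) = G₁) := fun k => by
    by_cases h : Even k <;> simp [hKd, h, Nat.even_add_one]
  have h3 : ∀ k, r k - r (k + 1) ∈ K k ∧ ‖r (k + 1)‖ = Metric.infDist (r k) (K k) := fun k => by
    rcases Nat.even_or_odd' k with ⟨j, rfl | rfl⟩
    · simpa [hKd] using h1 j
    · simpa [hKd] using h2 j
  have an : Antitone fun k => ‖r k‖ ^ 4 := antitone_nat_of_succ_le fun k => by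
    have := Metric.infDist_le_dist_of_mem (x := r k) (K k).zero_mem
    rw [dist_zero_right, ← (h3 k).2] at this
    gcongr
  have bb : BddBelow (Set.range fun k => ‖r k‖ ^ 4) := ⟨0, by rintro _ ⟨k, rfl⟩; positivity⟩
  have lim := tendsto_atTop_ciInf an bb
  set ρ := ⨅ k, ‖r k‖ ^ 4
  have lo := low hN he G₁ G₂ r K hK (fun k => (h3 k).1)
    (fun k => opt' hN _ _ _ (h3 k).1 (h3 k).2) ρ (ciInf_le bb)
  have mem : ∀ n, r 0 - r n ∈ G₁ ⊔ G₂ := fun n => by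
    induction n with
    | zero => simp
    | succ n ih =>
      rw [show r 0 - r (n + 1) = r 0 - r n + (r n - r (n + 1)) by abel]
      refine Submodule.add_mem _ ih ?_
      rcases hK n with ⟨k, -⟩ | ⟨k, -⟩
      · exact Submodule.mem_sup_left (k ▸ (h3 n).1)
      · exact Submodule.mem_sup_right (k ▸ (h3 n).1)
  have cau : CauchySeq r := by
    refine Metric.cauchySeq_iff'.2 fun ε hε => ?_
    obtain ⟨N, hN'⟩ := (lim.eventually (gt_mem_nhds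
      (show ρ < ρ + ε ^ 4 / 32 by linarith [pow_pos hε 4]))).exists
    refine ⟨N, fun n hn => ?_⟩
    have c := clark hN ((1 / 2 : ℝ) • (r n + r N)) ((1 / 2 : ℝ) • (r n - r N))
    have l := lo ((1 / 2 : ℝ) • (r 0 - r n + (r 0 - r N)))
      (Submodule.smul_mem _ _ (Submodule.add_mem _ (mem n) (mem N)))
    rw [show r 0 - (1 / 2 : ℝ) • (r 0 - r n + (r 0 - r N)) = (1 / 2 : ℝ) • (r n + r N) by
      module] at l
    rw [show (1 / 2 : ℝ) • (r n + r N) + (1 / 2 : ℝ) • (r n - r N) = r n by module,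
      show (1 / 2 : ℝ) • (r n + r N) - (1 / 2 : ℝ) • (r n - r N) = r N by module] at c
    have l2 := le_p hN he ((1 / 2 : ℝ) • (r n - r N))
    rw [norm_smul, mul_pow, Real.norm_eq_abs, abs_of_pos (by norm_num)] at l2
    have l3 := an hn
    simp only at l3
    rw [dist_eq_norm]
    exact lt_of_pow_lt_pow_left₀ 4 hε.le (by linarith)
  obtain ⟨y, hy⟩ := cauchySeq_tendsto_of_complete cau
  have my : r 0 - y ∈ (G₁ ⊔ G₂).topologicalClosure :=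
    mem_closure_of_tendsto (hy.const_sub (r 0)) (Eventually.of_forall mem)
  refine ⟨y, hy, my, le_antisymm ((Metric.le_infDist ⟨_, my⟩).2 fun g hg => ?_) ?_⟩
  · have e1 : ‖y‖ ^ 4 = ρ := tendsto_nhds_unique (hy.norm.pow 4) lim
    have : ρ ≤ ‖r 0 - g‖ ^ 4 := closure_minimal (t := {g | ρ ≤ ‖r 0 - g‖ ^ 4}) lo
      (isClosed_le continuous_const (by fun_prop)) hg
    rw [dist_eq_norm]
    exact (pow_le_pow_iff_left₀ (norm_nonneg _) (norm_nonneg _) four_ne_zero).1 (e1 ▸ this)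
  · simpa using Metric.infDist_le_dist_of_mem (x := r 0) my

end Pool.Agent.H27.Alt
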