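import Mathlib

set_option autoImplicit false

namespace Pool.Agent.H27.Arg

open Set Filter Topology

/-! ### Bounded finite sums -/

def Bd {ι : Type*} (f : ι → ℝ) (C : ℝ) : Prop := ∀ F : Finset ι, ∑ i ∈ F, f i ≤ C

theorem Bd.mono {ι : Type*} {f g : ι → ℝ} {C : ℝ} (h : Bd g C) (hfg : ∀ i, f i ≤ g i) : Bd f C :=
  fun F => (Finset.sum_le_sum fun i _ => hfg i).trans (h F)

theorem Bd.weak {ι : Type*} {f : ι → ℝ} {C C' : ℝ} (h : Bd f C) (hC : C ≤ C') : Bd f C' :=
  fun F => (h F).trans hC

theorem Bd.add {ι : Type*} {f g : ι → ℝ} {C C' : ℝ} (h : Bd f C) (h' : Bd g C') :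
    Bd (fun i => f i + g i) (C + C') := fun F => by
  rw [Finset.sum_add_distrib]; exact add_le_add (h F) (h' F)

theorem Bd.nonneg {ι : Type*} {f : ι → ℝ} {C : ℝ} (h : Bd f C) : 0 ≤ C := by
  simpa using h ∅

theorem Bd.single {ι : Type*} {f : ι → ℝ} {C : ℝ} (h : Bd f C) (i : ι) : f i ≤ C := by
  simpa using h {i}

theorem Bd.inj {ι κ : Type*} {f : ι → ℝ} {C : ℝ} (e : κ → ι) (he : Function.Injective e)
    (h0 : ∀ i, i ∉ Set.range e → f i = 0) (h : Bd (fun k => f (e k)) C) : Bd f C := fun F => by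
  rw [← Finset.sum_preimage e F he.injOn f (fun i _ hi => h0 i hi)]
  exact h _

theorem Bd.prod {ι κ : Type*} {f : ι → ℝ} {g : κ → ℝ} {C C' : ℝ} (hf : ∀ i, 0 ≤ f i)
    (hg : ∀ i, 0 ≤ g i) (h : Bd f C) (h' : Bd g C') :
    Bd (fun p : ι × κ => f p.1 * g p.2) (C * C') := fun F => by
  classical
  calc ∑ p ∈ F, f p.1 * g p.2 ≤ ∑ p ∈ F.image Prod.fst ×ˢ F.image Prod.snd, f p.1 * g p.2 := by
        apply Finset.sum_le_sum_of_subset_of_nonneg
        · intro p hp
          exact Finset.mem_product.2 ⟨Finset.mem_image_of_mem _ hp, Finset.mem_image_of_mem _ hp⟩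
        · intro p _ _; exact mul_nonneg (hf _) (hg _)
    _ = (∑ i ∈ F.image Prod.fst, f i) * ∑ k ∈ F.image Prod.snd, g k := by
        rw [Finset.sum_product, Finset.sum_mul_sum]
    _ ≤ C * C' := mul_le_mul (h _) (h' _) (Finset.sum_nonneg fun i _ => hg i) h.nonneg

theorem Bd.geo : Bd (fun n : ℕ => (1 / 2 : ℝ) ^ n) 2 := fun F => by
  have := summable_geometric_two.sum_le_tsum F (fun i _ => by positivity)
  rwa [tsum_geometric_two] at this

theorem Bd.list {ι : Type*} {a : ι → ℝ} (ha : ∀ i, 0 ≤ a i) (h : Bd a (1 / 2)) :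
    Bd (fun l : List ι => (l.map a).prod) 2 := by
  classical
  have hp : ∀ l : List ι, 0 ≤ (l.map a).prod := fun l =>
    List.prod_nonneg fun x hx => by
      obtain ⟨i, -, rfl⟩ := List.mem_map.1 hx
      exact ha i
  have hnil : Bd (fun l : List ι => if l = [] then (1 : ℝ) else 0) 1 := by
    intro F
    rw [Finset.sum_ite_eq']
    split_ifs <;> norm_num
  have key : ∀ N : ℕ, Bd (fun l : List ι => if l.length ≤ N then (l.map a).prod else 0) 2 := by
    intro N
    induction N with
    | zero =>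
      refine (hnil.mono fun l => ?_).weak (by norm_num)
      cases l with
      | nil => simp
      | cons i l => simp
    | succ N ih =>
      have h2 : Bd (fun l : List ι => if l = [] then (0 : ℝ) else
          if l.length ≤ N + 1 then (l.map a).prod else 0) (1 / 2 * 2) := by
        refine Bd.inj (fun p : ι × List ι => p.1 :: p.2) ?_ ?_ ?_
        · rintro ⟨i, l⟩ ⟨j, m⟩ hh
          simp only [List.cons.injEq] at hh
          exact Prod.ext hh.1 hh.2
        · intro l hl
          cases l with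
          | nil => simp
          | cons i l => exact absurd ⟨(i, l), rfl⟩ hl
        · refine (Bd.prod ha (fun l => ?_) h ih).mono fun p => ?_
          · split_ifs
            · exact hp l
            · exact le_rfl
          · simp only [List.cons_ne_nil, if_false, List.length_cons, add_le_add_iff_right,
              List.map_cons, List.prod_cons]
            split_ifs <;> simp
      refine ((hnil.add h2).mono fun l => ?_).weak (by norm_num)
      cases l with
      | nil => simp
      | cons i l => simp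
  intro F
  refine le_trans (le_of_eq ?_) (key (F.sup List.length) F)
  refine Finset.sum_congr rfl fun l hl => ?_
  exact (if_pos (Finset.le_sup (f := List.length) hl)).symm

/-! ### Density of monomials -/

theorem dense_mono {T ι : Type*} [TopologicalSpace T] [CompactSpace T] (b : ι → C(T, ℝ))
    (hb : ∀ x y : T, (∀ i, b i x = b i y) → x = y) :
    Dense (Submodule.span ℝ (Set.range fun l : List ι => (l.map b).prod) : Set C(T, ℝ)) := by
  have h1 := ContinuousMap.subalgebra_topologicalClosure_eq_top_of_separatesPoints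
    (Algebra.adjoin ℝ (Set.range b)) (by
      intro x y hxy
      by_contra hc
      apply hxy
      apply hb
      intro i
      by_contra hi
      exact hc ⟨b i, ⟨b i, Algebra.subset_adjoin ⟨i, rfl⟩, rfl⟩, hi⟩)
  have h2 : Dense (Algebra.adjoin ℝ (Set.range b) : Set C(T, ℝ)) := by
    rw [dense_iff_closure_eq]
    have := congrArg (fun s : Subalgebra ℝ C(T, ℝ) => (s : Set C(T, ℝ))) h1
    simpa using this
  refine h2.mono fun f hf => ?_
  have h3 : f ∈ Subalgebra.toSubmodule (Algebra.adjoin ℝ (Set.range b)) := hf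
  rw [Algebra.adjoin_eq_span] at h3
  refine Submodule.span_mono ?_ h3
  intro g hg
  induction hg using Submonoid.closure_induction with
  | mem x hx =>
    obtain ⟨i, rfl⟩ := hx
    exact ⟨[i], by simp⟩
  | one => exact ⟨[], by simp⟩
  | mul x y _ _ hx hy =>
    obtain ⟨l, rfl⟩ := hx
    obtain ⟨m, rfl⟩ := hy
    exact ⟨l ++ m, by simp⟩

/-! ### The decomposition method -/

section Pel
variable {X Y Z : Type*} [NormedAddCommGroup X] [NormedSpace ℝ X] [NormedAddCommGroup Y]
  [NormedSpace ℝ Y] [NormedAddCommGroup Z] [NormedSpace ℝ Z]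

theorem iso_of_bij [CompleteSpace X] [CompleteSpace Y] (f : X →L[ℝ] Y)
    (h1 : Function.Injective f) (h2 : Function.Surjective f) : Nonempty (X ≃L[ℝ] Y) :=
  ⟨ContinuousLinearEquiv.ofBijective f (LinearMap.ker_eq_bot.2 h1) (LinearMap.range_eq_top.2 h2)⟩

theorem pel (j : Y →L[ℝ] X) (p : X →L[ℝ] Y) (h : Function.RightInverse j p)
    (e1 : Y ≃L[ℝ] Y × Y) (e2 : Y ≃L[ℝ] X × Y) : Nonempty (X ≃L[ℝ] Y) := by
  let e := ContinuousLinearEquiv.equivOfRightInverse p j h
  have f1 : X ≃L[ℝ] (Y × Y) × p.ker := e.trans (e1.prodCongr (.refl ℝ _))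
  have f2 : X ≃L[ℝ] Y × X :=
    (f1.trans (ContinuousLinearEquiv.prodAssoc ℝ _ _ _)).trans
      ((ContinuousLinearEquiv.refl ℝ Y).prodCongr e.symm)
  exact ⟨(f2.trans (ContinuousLinearEquiv.prodComm ℝ _ _)).trans e2.symm⟩

variable {A : Type*} [TopologicalSpace A] [CompactSpace A]

theorem iso_shift [CompleteSpace X] (a0 : A) (ha : IsClopen ({a0} : Set A)) (s t : C(A, A))
    (hts : ∀ a, t (s a) = a) (hst : ∀ a, a ≠ a0 → s (t a) = a) (hs : ∀ a, s a ≠ a0) :
    Nonempty (C(A, X) ≃L[ℝ] X × C(A, X)) := by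
  classical
  refine iso_of_bij ((ContinuousMap.evalCLM ℝ a0).prod (ContinuousMap.compCLM ℝ X s)) ?_ ?_
  · intro f g hfg
    have h1 : f a0 = g a0 := congrArg Prod.fst hfg
    have h2 : f.comp s = g.comp s := congrArg Prod.snd hfg
    ext a
    by_cases h : a = a0
    · rw [h, h1]
    · have := DFunLike.congr_fun h2 (t a)
      simpa [hst a h] using this
  · rintro ⟨x, g⟩
    refine ⟨⟨fun a => if a ∈ ({a0} : Set A) then x else g (t a), ?_⟩, ?_⟩
    · exact Continuous.if (by simp [ha.frontier_eq]) continuous_const (by fun_prop)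
    · refine Prod.ext ?_ ?_
      · simp
      · ext a
        simp [hs a, hts a]

theorem iso_double [CompleteSpace X] (β : A → Bool) (hβ : Continuous β) (h0 h1 t : C(A, A))
    (ht0 : ∀ a, t (h0 a) = a) (ht1 : ∀ a, t (h1 a) = a) (hb0 : ∀ a, β (h0 a) = false)
    (hb1 : ∀ a, β (h1 a) = true) (hh0 : ∀ a, β a = false → h0 (t a) = a)
    (hh1 : ∀ a, β a = true → h1 (t a) = a) :
    Nonempty (C(A, X) ≃L[ℝ] C(A, X) × C(A, X)) := by
  classical
  refine iso_of_bij ((ContinuousMap.compCLM ℝ X h0).prod (ContinuousMap.compCLM ℝ X h1)) ?_ ?_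
  · intro f g hfg
    have e0 : f.comp h0 = g.comp h0 := congrArg Prod.fst hfg
    have e1 : f.comp h1 = g.comp h1 := congrArg Prod.snd hfg
    ext a
    cases h : β a
    · have := DFunLike.congr_fun e0 (t a)
      simpa [hh0 a h] using this
    · have := DFunLike.congr_fun e1 (t a)
      simpa [hh1 a h] using this
  · rintro ⟨g0, g1⟩
    have hc : IsClopen {a | β a = true} := (isClopen_discrete {true}).preimage hβ
    refine ⟨⟨fun a => if β a = true then g1 (t a) else g0 (t a), ?_⟩, ?_⟩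
    · exact Continuous.if (by simp [hc.frontier_eq]) (by fun_prop) (by fun_prop)
    · refine Prod.ext ?_ ?_
      · ext a
        simp [hb0 a, ht0 a]
      · ext a
        simp [hb1 a, ht1 a]

theorem iso_curry {M : Type*} [TopologicalSpace M] [CompactSpace M] [T2Space A] [T2Space M] :
    Nonempty (C(A × M, ℝ) ≃L[ℝ] C(A, C(M, ℝ))) := by
  refine iso_of_bij (X := C(A × M, ℝ)) (Y := C(A, C(M, ℝ)))
    { toFun := ContinuousMap.curry
      map_add' := fun _ _ => rfl
      map_smul' := fun _ _ => rfl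
      cont := ContinuousMap.continuous_curry } ?_ ?_
  · exact (Homeomorph.curry (X := A) (Y := M) (Z := ℝ)).injective
  · exact (Homeomorph.curry (X := A) (Y := M) (Z := ℝ)).surjective

theorem iso_split {V : Type*} [NormedAddCommGroup V] [NormedSpace ℝ V] (e : Z ≃L[ℝ] X × V) :
    Nonempty (C(A, Z) ≃L[ℝ] C(A, X) × C(A, V)) := by
  refine ⟨ContinuousLinearEquiv.equivOfInverse
    ((((ContinuousLinearMap.fst ℝ X V).comp (e : Z →L[ℝ] X × V)).compLeftContinuous ℝ A).prod
      (((ContinuousLinearMap.snd ℝ X V).comp (e : Z →L[ℝ] X × V)).compLeftContinuous ℝ A))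
    ((((e.symm : X × V →L[ℝ] Z).comp (ContinuousLinearMap.inl ℝ X V)).compLeftContinuous ℝ A).coprod
      (((e.symm : X × V →L[ℝ] Z).comp (ContinuousLinearMap.inr ℝ X V)).compLeftContinuous ℝ A))
    ?_ ?_⟩
  · intro f
    ext a
    show e.symm ((e (f a)).1, 0) + e.symm (0, (e (f a)).2) = f a
    rw [← map_add]; simp
  · rintro ⟨g, h⟩
    refine Prod.ext ?_ ?_
    · ext a
      show (e (e.symm (g a, 0) + e.symm (0, h a))).1 = g a
      simp
    · ext a
      show (e (e.symm (g a, 0) + e.symm (0, h a))).2 = h a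
      simp

theorem iso_absorb [CompleteSpace X] (i : X →L[ℝ] Z) (ρ : Z →L[ℝ] X)
    (h : Function.RightInverse i ρ) (e : Y ≃L[ℝ] C(A, Z))
    (hs : Nonempty (C(A, X) ≃L[ℝ] X × C(A, X))) : Nonempty (Y ≃L[ℝ] X × Y) := by
  obtain ⟨s⟩ := hs
  obtain ⟨f⟩ := iso_split (A := A) (ContinuousLinearEquiv.equivOfRightInverse ρ i h)
  have g := e.trans f
  exact ⟨((g.trans (s.prodCongr (.refl ℝ _))).trans (ContinuousLinearEquiv.prodAssoc ℝ _ _ _)).trans
    ((ContinuousLinearEquiv.refl ℝ X).prodCongr g.symm)⟩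

end Pel

end Pool.Agent.H27.Arg
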