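import Mathlib
import Pool.Agent.H27.Arg1

set_option autoImplicit false

namespace Pool.Agent.H27.Arg

open Set Filter Topology

/-- positive unital functionals on `C(T)` with the weak-star topology -/
def St (T : Type*) [TopologicalSpace T] : Set (WeakDual ℝ C(T, ℝ)) :=
  {Λ | (∀ f : C(T, ℝ), 0 ≤ f → 0 ≤ Λ f) ∧ Λ 1 = 1}

section
variable {T S : Type*} [TopologicalSpace T] [TopologicalSpace S]

theorem St.mono {Λ : WeakDual ℝ C(T, ℝ)} (h : Λ ∈ St T) {f g : C(T, ℝ)} (hfg : f ≤ g) :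
    Λ f ≤ Λ g := by
  have := h.1 (g - f) (sub_nonneg.2 hfg)
  rw [map_sub] at this
  linarith

theorem St.le {Λ : WeakDual ℝ C(T, ℝ)} (h : Λ ∈ St T) {f : C(T, ℝ)} {c : ℝ} (hf : ∀ y, f y ≤ c) :
    Λ f ≤ c := by
  have h1 : f ≤ c • (1 : C(T, ℝ)) := fun y => by simpa using hf y
  have := St.mono h h1
  rw [map_smul, h.2] at this
  simpa using this

theorem St.abs_le [CompactSpace T] {Λ : WeakDual ℝ C(T, ℝ)} (h : Λ ∈ St T) (f : C(T, ℝ)) :
    |Λ f| ≤ ‖f‖ := by
  rw [_root_.abs_le]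
  constructor
  · have := St.le h (f := -f) (c := ‖f‖) fun y => by
      have := f.norm_coe_le_norm y
      rw [Real.norm_eq_abs, _root_.abs_le] at this
      simp only [ContinuousMap.neg_apply]; linarith [this.1]
    rw [map_neg] at this
    linarith
  · exact St.le h fun y => (le_abs_self _).trans (f.norm_coe_le_norm y)

theorem St.bd {Λ : WeakDual ℝ C(T, ℝ)} (h : Λ ∈ St T) {κ : Type*} {m : κ → C(T, ℝ)} {c : ℝ}
    (hm : ∀ y, Bd (fun k => m k y) c) : Bd (fun k => Λ (m k)) c := fun F => by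
  rw [← map_sum]
  refine St.le h fun y => ?_
  rw [ContinuousMap.sum_apply]
  exact hm y F

theorem isCompact_St [CompactSpace T] : IsCompact (St T) := by
  refine (WeakDual.isCompact_closedBall (0 : StrongDual ℝ C(T, ℝ)) 1).of_isClosed_subset ?_ ?_
  · have : St T = (⋂ f : C(T, ℝ), ⋂ _ : 0 ≤ f, {Λ : WeakDual ℝ C(T, ℝ) | 0 ≤ Λ f}) ∩
        {Λ | Λ 1 = 1} := by
      ext Λ; simp [St]
    rw [this]
    refine IsClosed.inter (isClosed_iInter fun f => isClosed_iInter fun _ => ?_) ?_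
    · exact isClosed_le continuous_const (WeakDual.eval_continuous f)
    · exact isClosed_eq (WeakDual.eval_continuous _) continuous_const
  · intro Λ h
    simp only [mem_preimage, mem_closedBall_zero_iff]
    refine ContinuousLinearMap.opNorm_le_bound _ zero_le_one fun f => ?_
    rw [one_mul]
    exact St.abs_le h f

instance [CompactSpace T] : CompactSpace (St T) := isCompact_iff_compactSpace.1 isCompact_St

theorem convex_St : Convex ℝ (St T) := by
  intro Λ h Λ' h' a b ha hb hab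
  constructor
  · intro f hf
    show 0 ≤ a * Λ f + b * Λ' f
    have := h.1 f hf
    have := h'.1 f hf
    positivity
  · show a * Λ 1 + b * Λ' 1 = 1
    rw [h.2, h'.2]; linarith

/-- point masses -/
noncomputable def dirac (T : Type*) [TopologicalSpace T] : C(T, St T) where
  toFun y := ⟨StrongDual.toWeakDual (ContinuousMap.evalCLM ℝ y), fun _ hf => hf y, rfl⟩
  continuous_toFun := Continuous.subtype_mk
    (WeakDual.continuous_of_continuous_eval fun f => f.continuous) _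

@[simp] theorem dirac_apply (y : T) (f : C(T, ℝ)) : (dirac T y).1 f = f y := rfl

theorem St.push (φ : C(S, T)) {Λ : WeakDual ℝ C(S, ℝ)} (h : Λ ∈ St S) :
    ∃ Λ' ∈ St T, ∀ f, Λ' f = Λ (f.comp φ) :=
  ⟨StrongDual.toWeakDual ((WeakDual.toStrongDual Λ).comp (ContinuousMap.compCLM ℝ ℝ φ)),
    ⟨fun f hf => h.1 (f.comp φ) fun y => hf (φ y), h.2⟩, fun _ => rfl⟩

theorem St.ext_mono {ι : Type*} [CompactSpace T] (b : ι → C(T, ℝ))
    (hb : ∀ x y : T, (∀ i, b i x = b i y) → x = y) {Λ Λ' : WeakDual ℝ C(T, ℝ)}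
    (h : ∀ l : List ι, Λ (l.map b).prod = Λ' (l.map b).prod) : Λ = Λ' := by
  have : WeakDual.toStrongDual Λ = WeakDual.toStrongDual Λ' :=
    ContinuousLinearMap.ext_on (dense_mono b hb) (by rintro _ ⟨l, rfl⟩; exact h l)
  exact WeakDual.toStrongDual.injective this

/-- the affine functions -/
noncomputable def aff (T : Type*) [TopologicalSpace T] [CompactSpace T] :
    C(T, ℝ) →L[ℝ] C(St T, ℝ) :=
  LinearMap.mkContinuous
    { toFun := fun g => ⟨fun Λ => Λ.1 g, (WeakDual.eval_continuous g).comp continuous_subtype_val⟩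
      map_add' := fun f g => by ext Λ; simp
      map_smul' := fun c g => by ext Λ; simp } 1 fun g => by
    rw [one_mul, ContinuousMap.norm_le _ (norm_nonneg _)]
    intro Λ
    exact St.abs_le Λ.2 g

theorem aff_dirac [CompactSpace T] :
    Function.RightInverse (aff T) (ContinuousMap.compCLM ℝ ℝ (dirac T)) := fun g => by
  ext y; rfl

theorem embed [CompactSpace T] {κ : Type*} (m : κ → C(T, ℝ)) (h0 : ∀ k, 0 ≤ m k)
    (hbd : ∀ y, Bd (fun k => m k y) 2)
    (hsep : ∀ Λ Λ' : WeakDual ℝ C(T, ℝ), (∀ k, Λ (m k) = Λ' (m k)) → Λ = Λ') :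
    ∃ K : Set (WeakSpace ℝ (lp (fun _ : κ => ℝ) 2)), Convex ℝ K ∧ Nonempty (St T ≃ₜ K) := by
  classical
  have hsq : ∀ Λ : St T, ∀ F : Finset κ, ∑ k ∈ F, ‖Λ.1 (m k)‖ ^ (2 : ENNReal).toReal ≤ 4 := by
    intro Λ F
    have h1 := St.bd Λ.2 hbd
    calc ∑ k ∈ F, ‖Λ.1 (m k)‖ ^ (2 : ENNReal).toReal ≤ ∑ k ∈ F, 2 * Λ.1 (m k) := by
          refine Finset.sum_le_sum fun k _ => ?_
          have h2 := Λ.2.1 _ (h0 k)
          have h3 : Λ.1 (m k) ≤ 2 := h1.single k
          simp only [ENNReal.toReal_ofNat, Real.rpow_ofNat, Real.norm_eq_abs, abs_of_nonneg h2]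
          nlinarith
      _ ≤ 4 := by
          rw [← Finset.mul_sum]
          have := h1 F
          linarith
  let Φ : St T → lp (fun _ : κ => ℝ) 2 := fun Λ =>
    ⟨fun k => Λ.1 (m k), memℓp_gen' (C := 4) (hsq Λ)⟩
  have hΦ : ∀ Λ k, Φ Λ k = Λ.1 (m k) := fun _ _ => rfl
  have hn : ∀ Λ, ‖Φ Λ‖ ≤ 2 := fun Λ =>
    lp.norm_le_of_forall_sum_le (by norm_num) (by norm_num) fun F => (hsq Λ F).trans (by norm_num)
  have hin : ∀ v : lp (fun _ : κ => ℝ) 2, Continuous fun Λ => inner ℝ v (Φ Λ) := by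
    intro v
    have hs := lp.hasSum_single (E := fun _ : κ => ℝ) (p := 2) (by norm_num) v
    refine TendstoUniformly.continuous (p := atTop)
      (F := fun (F : Finset κ) Λ => inner ℝ (∑ k ∈ F, lp.single 2 k (v k)) (Φ Λ)) ?_
      (Frequently.of_forall fun F => ?_)
    · rw [Metric.tendstoUniformly_iff]
      intro ε hε
      have := (Metric.tendsto_nhds.1 hs) (ε / 3) (by positivity)
      filter_upwards [this] with F hF Λ
      rw [Real.dist_eq, ← inner_sub_left]
      refine (abs_real_inner_le_norm _ _).trans_lt ?_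
      rw [dist_comm, dist_eq_norm] at hF
      have := hn Λ
      nlinarith [norm_nonneg (v - ∑ k ∈ F, lp.single 2 k (v k)), norm_nonneg (Φ Λ)]
    · simp only [sum_inner, lp.inner_single_left]
      refine continuous_finsetSum _ fun k _ => ?_
      exact continuous_const.inner ((WeakDual.eval_continuous (m k)).comp continuous_subtype_val)
  let Ψ : St T → WeakSpace ℝ (lp (fun _ : κ => ℝ) 2) := fun Λ => toWeakSpace ℝ _ (Φ Λ)
  have hc : Continuous Ψ := by
    refine WeakBilin.continuous_of_continuous_eval _ fun φ => ?_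
    have := hin ((InnerProductSpace.toDual ℝ _).symm φ)
    simp only [InnerProductSpace.toDual_symm_apply] at this
    exact this
  have hi : Function.Injective Ψ := fun Λ Λ' h => by
    have h1 : Φ Λ = Φ Λ' := (toWeakSpace ℝ _).injective h
    exact Subtype.ext (hsep _ _ fun k => by rw [← hΦ, ← hΦ, h1])
  refine ⟨Set.range Ψ, ?_, ⟨(hc.isClosedEmbedding hi).isEmbedding.toHomeomorph⟩⟩
  rintro _ ⟨Λ, rfl⟩ _ ⟨Λ', rfl⟩ a b ha hb hab
  refine ⟨⟨a • Λ.1 + b • Λ'.1, convex_St Λ.2 Λ'.2 ha hb hab⟩, ?_⟩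
  show toWeakSpace ℝ _ _ = a • toWeakSpace ℝ _ (Φ Λ) + b • toWeakSpace ℝ _ (Φ Λ')
  rw [← map_smul, ← map_smul, ← map_add]
  congr 1

end

end Pool.Agent.H27.Arg
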