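import Mathlib
import Pool.Agent.H27.Arg2

set_option autoImplicit false

namespace Pool.Agent.H27.Arg

open Set Filter Topology MeasureTheory

theorem avg {D K : Type*} [TopologicalSpace D] [CompactSpace D] [TopologicalSpace K]
    [CompactSpace K] (σ : K → ℝ → D) (M : Set C(D, ℝ))
    (hM : Dense (Submodule.span ℝ M : Set C(D, ℝ)))
    (h1 : ∀ f ∈ M, ∀ k, Measurable fun ω => f (σ k ω))
    (h2 : ∀ f ∈ M, Continuous fun k => ∫ ω in Ioo (1 : ℝ) 2, f (σ k ω)) :
    ∃ u : C(D, ℝ) →L[ℝ] C(K, ℝ), ∀ f k, u f k = ∫ ω in Ioo (1 : ℝ) 2, f (σ k ω) := by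
  have hvol : (volume.restrict (Ioo (1 : ℝ) 2)).real univ = 1 := by
    rw [measureReal_restrict_apply_univ, Real.volume_real_Ioo]; norm_num
  have m1 : ∀ f : C(D, ℝ), ∀ k, Measurable fun ω => f (σ k ω) := by
    intro f k
    refine closure_minimal (t := {f : C(D, ℝ) | Measurable fun ω => f (σ k ω)}) ?_ ?_ (hM f)
    · intro g hg
      show Measurable fun ω => g (σ k ω)
      induction hg using Submodule.span_induction with
      | mem x hx => exact h1 x hx k
      | zero => exact measurable_const
      | add x y _ _ hx hy => exact hx.add hy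
      | smul a x _ hx => exact hx.const_mul a
    · refine IsSeqClosed.isClosed fun g f hg hf => ?_
      refine measurable_of_tendsto_metrizable hg (tendsto_pi_nhds.2 fun ω => ?_)
      exact ((continuous_eval_const (σ k ω)).tendsto f).comp hf
  have i1 : ∀ f : C(D, ℝ), ∀ k, Integrable (fun ω => f (σ k ω)) (volume.restrict (Ioo (1 : ℝ) 2)) :=
    fun f k => Integrable.of_bound (m1 f k).aestronglyMeasurable ‖f‖
      (Eventually.of_forall fun ω => f.norm_coe_le_norm _)
  have n1 : ∀ f : C(D, ℝ), ∀ k, ‖∫ ω in Ioo (1 : ℝ) 2, f (σ k ω)‖ ≤ ‖f‖ := fun f k => by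
    have := norm_integral_le_of_norm_le_const (μ := volume.restrict (Ioo (1 : ℝ) 2))
      (f := fun ω => f (σ k ω)) (C := ‖f‖) (Eventually.of_forall fun ω => f.norm_coe_le_norm _)
    rwa [hvol, mul_one] at this
  have c0 : ∀ g ∈ Submodule.span ℝ M, Continuous fun k => ∫ ω in Ioo (1 : ℝ) 2, g (σ k ω) := by
    intro g hg
    induction hg using Submodule.span_induction with
    | mem x hx => exact h2 x hx
    | zero => simpa using continuous_const
    | add x y _ _ hx hy =>
      refine (hx.add hy).congr fun k => ?_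
      exact (integral_add (i1 x k) (i1 y k)).symm
    | smul a x _ hx =>
      refine (hx.const_mul a).congr fun k => ?_
      exact (integral_const_mul a _).symm
  have c1 : ∀ f : C(D, ℝ), Continuous fun k => ∫ ω in Ioo (1 : ℝ) 2, f (σ k ω) := by
    intro f
    refine continuous_of_uniform_approx_of_continuous fun U hU => ?_
    obtain ⟨ε, hε, hU⟩ := Metric.mem_uniformity_dist.1 hU
    obtain ⟨g, hg, hfg⟩ := Metric.dense_iff.1 hM f ε hε
    refine ⟨_, c0 g hfg, fun k => hU ?_⟩
    rw [dist_eq_norm, ← integral_sub (i1 f k) (i1 g k)]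
    refine (n1 (f - g) k).trans_lt ?_
    rwa [Metric.mem_ball, dist_comm, dist_eq_norm] at hg
  refine ⟨LinearMap.mkContinuous
    { toFun := fun f => ⟨_, c1 f⟩
      map_add' := fun f g => by
        ext k
        exact integral_add (i1 f k) (i1 g k)
      map_smul' := fun a f => by
        ext k
        exact integral_const_mul a _ } 1 fun f => ?_, fun _ _ => rfl⟩
  rw [one_mul, ContinuousMap.norm_le _ (norm_nonneg _)]
  exact n1 f

theorem exists_r : ∃ r : ℕ → ℝ, (∀ n, 0 < r n) ∧
    ∀ a b : ℝ, 0 ≤ a → a < b → ∃ n, a < r n ∧ r n < b := by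
  haveI : Nonempty {q : ℚ // 0 < q} := ⟨⟨1, one_pos⟩⟩
  obtain ⟨s, hs⟩ := exists_surjective_nat {q : ℚ // 0 < q}
  refine ⟨fun n => ((s n).1 : ℝ), fun n => Rat.cast_pos.2 (s n).2, fun a b ha hab => ?_⟩
  obtain ⟨q, h1, h2⟩ := exists_rat_btwn hab
  obtain ⟨n, hn⟩ := hs ⟨q, by exact_mod_cast ha.trans_lt h1⟩
  exact ⟨n, by simp [hn, h1], by simp [hn, h2]⟩

noncomputable def r : ℕ → ℝ := exists_r.choose
theorem r_pos (n : ℕ) : 0 < r n := exists_r.choose_spec.1 n
theorem r_dense {a b : ℝ} (ha : 0 ≤ a) (hab : a < b) : ∃ n, a < r n ∧ r n < b :=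
  exists_r.choose_spec.2 a b ha hab

/-- indices (`true`) and lists of indices (`false`) -/
inductive T : Bool → Type
  | ga : ℝ → T true
  | ca : ℕ → T true
  | om : ℕ → T true
  | bit : T false → ℕ → T true
  | nil : T false
  | cons : T true → T false → T false

/-- the index set of the coordinates -/
abbrev I : Type := T true

def toL : ∀ {v : Bool}, T v → List I
  | _, .cons i l => i :: toL l
  | _, _ => []

def ofL : List I → T false
  | [] => .nil
  | i :: l => .cons i (ofL l)

theorem toL_ofL (l : List I) : toL (ofL l) = l := by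
  induction l with
  | nil => rfl
  | cons i l ih => simp only [ofL, toL, ih]

theorem ofL_toL' : ∀ {v : Bool} (t : T v), v = false → HEq (ofL (toL t)) t := by
  intro v t
  induction t with
  | ga _ => intro h; cases h
  | ca _ => intro h; cases h
  | om _ => intro h; cases h
  | bit _ _ _ => intro h; cases h
  | nil => intro _; rfl
  | cons i l _ ih =>
    intro _
    have := eq_of_heq (ih rfl)
    simp only [ofL, toL, this]
    rfl

theorem toL_inj : Function.Injective (toL : T false → List I) :=
  Function.LeftInverse.injective (g := ofL) fun t => eq_of_heq (ofL_toL' t rfl)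

/-- weights -/
noncomputable def w : ∀ {v : Bool}, T v → ℝ
  | _, .ga _ => 1
  | _, .ca n => (1 / 2) ^ n
  | _, .om n => (1 / 2) ^ n
  | _, .bit l n => w l * ((1 / 2) ^ n * r n)
  | _, .nil => 1
  | _, .cons i l => w i / 18 * w l

noncomputable def W (l : List I) : ℝ := (l.map fun i => w i / 18).prod

theorem w_ofL (l : List I) : w (ofL l) = W l := by
  induction l with
  | nil => simp [ofL, w, W]
  | cons i l ih => simp only [ofL, w, W, List.map_cons, List.prod_cons] at ih ⊢; rw [ih]

theorem w_bit (l : T false) (n : ℕ) : w (.bit l n) = W (toL l) * ((1 / 2) ^ n * r n) := by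
  rw [w, ← w_ofL, eq_of_heq (ofL_toL' l rfl)]

theorem w_pos {v : Bool} (i : T v) : 0 < w i := by
  induction i with
  | ga _ => rw [w]; norm_num
  | ca n => rw [w]; positivity
  | om n => rw [w]; positivity
  | bit l n ih => rw [w]; exact mul_pos ih (mul_pos (by positivity) (r_pos n))
  | nil => rw [w]; norm_num
  | cons i l h1 h2 => rw [w]; positivity

theorem Bd.comp {ι κ : Type*} {f : ι → ℝ} {C : ℝ} (e : κ → ι) (he : Function.Injective e)
    (h : Bd f C) : Bd (fun k => f (e k)) C := fun F => by
  have := h (F.map ⟨e, he⟩)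
  rwa [Finset.sum_map] at this

theorem W_pos (l : List I) : 0 < W l := List.prod_pos fun x hx => by
  obtain ⟨i, -, rfl⟩ := List.mem_map.1 hx
  have := w_pos i
  positivity

def bt (v : Bool) : ℝ := if v = true then 1 else 0

theorem bt_nonneg (v : Bool) : 0 ≤ bt v := by cases v <;> simp [bt]
theorem bt_le (v : Bool) : bt v ≤ 1 := by cases v <;> simp [bt]
theorem bt_inj : Function.Injective bt := by
  intro a b; cases a <;> cases b <;> simp [bt]
theorem bt_cont : Continuous bt := continuous_of_discreteTopology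

/-- subsets of the line with at most one point -/
def A : Type := {s : ℝ → Bool // ∀ a b, s a = true → s b = true → a = b}

instance : TopologicalSpace A := instTopologicalSpaceSubtype
instance : T2Space A := inferInstanceAs (T2Space {s : ℝ → Bool // _})
instance : TotallyDisconnectedSpace A :=
  inferInstanceAs (TotallyDisconnectedSpace {s : ℝ → Bool // _})

theorem isClopen_coord {ι : Type*} (i : ι) (v : Bool) : IsClopen {s : ι → Bool | s i = v} :=
  (isClopen_discrete {v}).preimage (continuous_apply i)

instance : CompactSpace A := by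
  refine isCompact_iff_compactSpace.1 (IsClosed.isCompact
    (s := {s : ℝ → Bool | ∀ a b, s a = true → s b = true → a = b}) ?_)
  have : {s : ℝ → Bool | ∀ a b, s a = true → s b = true → a = b} =
      ⋂ a, ⋂ b, {s : ℝ → Bool | s a = true → s b = true → a = b} := by
    ext s; simp
  rw [this]
  refine isClosed_iInter fun a => isClosed_iInter fun b => ?_
  exact isClosed_imp (isClopen_coord a true).2 (isClosed_imp (isClopen_coord b true).2 isClosed_const)

abbrev L (D : Set (I → Bool)) : Type := A × ((ℕ → Bool) × D)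

def full {D : Set (I → Bool)} (y : L D) : I → Bool
  | .ga γ => y.1.1 γ
  | .ca n => y.2.1 n
  | .om n => y.2.2.1 (.om n)
  | .bit l n => y.2.2.1 (.bit l n)

theorem full_cont {D : Set (I → Bool)} (i : I) : Continuous fun y : L D => full y i := by
  cases i with
  | ga γ => exact (continuous_apply γ).comp (continuous_subtype_val.comp continuous_fst)
  | ca n => exact (continuous_apply n).comp (continuous_fst.comp continuous_snd)
  | om n =>
    exact (continuous_apply _).comp (continuous_subtype_val.comp (continuous_snd.comp continuous_snd))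
  | bit l n =>
    exact (continuous_apply _).comp (continuous_subtype_val.comp (continuous_snd.comp continuous_snd))

def b (D : Set (I → Bool)) (i : I) : C(L D, ℝ) := ⟨fun y => bt (full y i), bt_cont.comp (full_cont i)⟩

noncomputable def mono (D : Set (I → Bool)) (l : List I) : C(L D, ℝ) := (l.map (b D)).prod

theorem mono_apply (D : Set (I → Bool)) (l : List I) (y : L D) :
    mono D l y = (l.map fun i => bt (full y i)).prod := by
  induction l with
  | nil => simp [mono]
  | cons i l ih =>
    simp only [mono, List.map_cons, List.prod_cons, ContinuousMap.mul_apply] at ih ⊢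
    rw [ih]; rfl

theorem mono_nonneg (D : Set (I → Bool)) (l : List I) : 0 ≤ mono D l := fun y => by
  show 0 ≤ mono D l y
  rw [mono_apply]
  refine List.prod_nonneg fun x hx => ?_
  obtain ⟨i, -, rfl⟩ := List.mem_map.1 hx
  exact bt_nonneg _

def U : Set (I → Bool) :=
  {x | (∀ γ, x (.ga γ) = false) ∧ (∀ n, x (.ca n) = false) ∧ Bd (fun i => w i * bt (x i)) 6}

theorem isClosed_U : IsClosed U := by
  have : U = (⋂ γ, {x | x (.ga γ) = false}) ∩ ((⋂ n, {x | x (.ca n) = false}) ∩
      ⋂ F : Finset I, {x | ∑ i ∈ F, w i * bt (x i) ≤ 6}) := by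
    ext x; simp [U, Bd]
  rw [this]
  refine (isClosed_iInter fun γ => (isClopen_coord _ _).1).inter
    ((isClosed_iInter fun γ => (isClopen_coord _ _).1).inter (isClosed_iInter fun F => ?_))
  refine isClosed_le (continuous_finsetSum _ fun i _ => ?_) continuous_const
  exact continuous_const.mul (bt_cont.comp (continuous_apply i))

theorem zero_mem_U : (fun _ => false) ∈ U :=
  ⟨fun _ => rfl, fun _ => rfl, fun F => by simp [bt]⟩

theorem b_sep {D : Set (I → Bool)} (hD : D ⊆ U) (x y : L D) (h : ∀ i, b D i x = b D i y) :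
    x = y := by
  have h' : ∀ i, full x i = full y i := fun i => bt_inj (h i)
  refine Prod.ext (Subtype.ext (funext fun γ => h' (.ga γ)))
    (Prod.ext (funext fun n => h' (.ca n)) (Subtype.ext (funext fun i => ?_)))
  cases i with
  | ga γ => rw [(hD x.2.2.2).1, (hD y.2.2.2).1]
  | ca n => rw [(hD x.2.2.2).2.1, (hD y.2.2.2).2.1]
  | om n => exact h' (.om n)
  | bit l n => exact h' (.bit l n)

theorem bdA (s : A) : Bd (fun γ => bt (s.1 γ)) 1 := by
  classical
  by_cases h : ∃ γ, s.1 γ = true
  · obtain ⟨γ, hγ⟩ := h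
    have : Bd (fun δ => if δ = γ then (1 : ℝ) else 0) 1 := fun F => by
      rw [Finset.sum_ite_eq']
      split_ifs <;> norm_num
    refine this.mono fun δ => ?_
    by_cases h2 : δ = γ
    · simp [h2, bt_le]
    · have : s.1 δ ≠ true := fun h3 => h2 (s.2 _ _ h3 hγ)
      simp [h2, bt, this]
  · intro F
    have : ∀ γ, bt (s.1 γ) = 0 := fun γ => by
      have : s.1 γ ≠ true := fun h3 => h ⟨γ, h3⟩
      simp [bt, this]
    simp [this]

theorem bdL {D : Set (I → Bool)} (hD : D ⊆ U) (y : L D) :
    Bd (fun i => w i * bt (full y i)) 9 := by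
  have h1 : Bd (fun i : I => match i with | .ga γ => bt (y.1.1 γ) | _ => 0) 1 := by
    refine Bd.inj T.ga (fun _ _ h => by injection h) ?_ (bdA y.1)
    intro i hi
    cases i with
    | ga γ => exact absurd ⟨γ, rfl⟩ hi
    | _ => rfl
  have h2 : Bd (fun i : I => match i with | .ca n => (1 / 2 : ℝ) ^ n | _ => 0) 2 := by
    refine Bd.inj T.ca (fun _ _ h => by injection h) ?_ Bd.geo
    intro i hi
    cases i with
    | ca γ => exact absurd ⟨γ, rfl⟩ hi
    | _ => rfl
  refine (((h1.add h2).add (hD y.2.2.2).2.2).mono fun i => ?_).weak (by norm_num)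
  cases i with
  | ga γ =>
    have := bt_nonneg (y.2.2.1 (.ga γ))
    simp only [w, full]; linarith
  | ca n =>
    have := bt_nonneg (y.2.2.1 (.ca n))
    have := bt_le (y.2.1 n)
    have : (0 : ℝ) < (1 / 2) ^ n := by positivity
    simp only [w, full]; nlinarith
  | om n => simp only [full]; linarith
  | bit l n => simp only [full]; linarith

theorem bdM {D : Set (I → Bool)} (hD : D ⊆ U) (y : L D) :
    Bd (fun l => (W l • mono D l) y) 2 := by
  have h1 : Bd (fun i => w i / 18 * bt (full y i)) (1 / 2) := fun F => by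
    have := bdL hD y F
    have h2 : ∑ i ∈ F, w i / 18 * bt (full y i) = (∑ i ∈ F, w i * bt (full y i)) / 18 := by
      rw [Finset.sum_div]
      exact Finset.sum_congr rfl fun i _ => by ring
    show ∑ i ∈ F, w i / 18 * bt (full y i) ≤ 1 / 2
    rw [h2]
    have : ∑ i ∈ F, w i * bt (full y i) ≤ 9 := this
    linarith
  refine (Bd.list (fun i => mul_nonneg (by have := w_pos i; positivity) (bt_nonneg _)) h1).mono
    fun l => le_of_eq ?_
  rw [ContinuousMap.smul_apply, mono_apply, W, smul_eq_mul, List.prod_map_mul]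

end Pool.Agent.H27.Arg
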