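import Mathlib
import Pool.Agent.H27.Arg3

set_option autoImplicit false

namespace Pool.Agent.H27.Arg

open Set Filter Topology MeasureTheory

noncomputable def thr (c : List I → ℝ) (ω : ℝ) : I → ℝ
  | .ga _ => -1
  | .ca _ => -1
  | .om n => ω - r n
  | .bit l n => c (toL l) - r n * ω

def Cons (c : List I → ℝ) (ω : ℝ) (x : I → Bool) : Prop :=
  ∀ i, (x i = true → 0 ≤ thr c ω i) ∧ (x i = false → thr c ω i ≤ 0)

open Classical in
noncomputable def sig (c : List I → ℝ) (ω : ℝ) : I → Bool := fun i => decide (0 < thr c ω i)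

theorem cons_sig (c : List I → ℝ) (ω : ℝ) : Cons c ω (sig c ω) := fun i => by
  constructor
  · intro h
    exact (of_decide_eq_true h).le
  · intro h
    exact not_lt.1 (of_decide_eq_false h)

theorem Cons.lt {c c' : List I → ℝ} {ω ω' : ℝ} {x : I → Bool} (h : Cons c ω x) (h' : Cons c' ω' x)
    (i : I) (h1 : thr c ω i < 0) (h2 : 0 < thr c' ω' i) : False := by
  cases hx : x i
  · exact absurd ((h' i).2 hx) (not_le.2 h2)
  · exact absurd ((h i).1 hx) (not_le.2 h1)

theorem Cons.om_le {c c' : List I → ℝ} {ω ω' : ℝ} {x : I → Bool} (h : Cons c ω x)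
    (h' : Cons c' ω' x) (h0 : 0 ≤ ω) : ω' ≤ ω := by
  by_contra hc
  obtain ⟨n, h1, h2⟩ := r_dense h0 (not_le.1 hc)
  exact h.lt h' (.om n) (by simp only [thr]; linarith) (by simp only [thr]; linarith)

theorem Cons.c_le {c c' : List I → ℝ} {ω : ℝ} {x : I → Bool} (h : Cons c ω x)
    (h' : Cons c' ω x) (h0 : 0 < ω) (l : List I) (hl : 0 ≤ c l) : c' l ≤ c l := by
  by_contra hc
  obtain ⟨n, h1, h2⟩ := r_dense (div_nonneg hl h0.le)
    (div_lt_div_of_pos_right (not_le.1 hc) h0)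
  rw [div_lt_iff₀ h0] at h1
  rw [lt_div_iff₀ h0] at h2
  exact h.lt h' (.bit (ofL l) n) (by simp only [thr, toL_ofL]; linarith)
    (by simp only [thr, toL_ofL]; linarith)

def Phi (D : Set (I → Bool)) : Set (I → Bool) :=
  {x | ∃ Λ ∈ St (L D), ∃ ω ∈ Icc (1 : ℝ) 2, Cons (fun l => Λ (mono D l)) ω x}

theorem Phi_mono {D D' : Set (I → Bool)} (h : D ⊆ D') : Phi D ⊆ Phi D' := by
  rintro x ⟨Λ, hΛ, ω, hω, hc⟩
  let φ : C(L D, L D') := ⟨fun y => (y.1, y.2.1, Set.inclusion h y.2.2),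
    continuous_fst.prodMk ((continuous_fst.comp continuous_snd).prodMk
      ((continuous_inclusion h).comp (continuous_snd.comp continuous_snd)))⟩
  obtain ⟨Λ', h1, h2⟩ := St.push φ hΛ
  refine ⟨Λ', h1, ω, hω, ?_⟩
  have : (fun l => Λ' (mono D' l)) = fun l => Λ (mono D l) := by
    funext l
    rw [h2]
    congr 1
    ext y
    rw [ContinuousMap.comp_apply, mono_apply, mono_apply]
    congr 2
  rwa [this]

theorem Phi_sub {D : Set (I → Bool)} (hD : D ⊆ U) : Phi D ⊆ U := by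
  rintro x ⟨Λ, hΛ, ω, hω, hc⟩
  refine ⟨fun γ => ?_, fun n => ?_, ?_⟩
  · by_contra h
    have := (hc (.ga γ)).1 (by simpa using h)
    simp only [thr] at this; linarith
  · by_contra h
    have := (hc (.ca n)).1 (by simpa using h)
    simp only [thr] at this; linarith
  have hn : ∀ l, 0 ≤ Λ (W l • mono D l) := fun l =>
    hΛ.1 _ (smul_nonneg (W_pos l).le (mono_nonneg D l))
  have h1 : Bd (fun i : I => match i with | .om n => (1 / 2 : ℝ) ^ n | _ => 0) 2 := by
    refine Bd.inj T.om (fun _ _ h => by injection h) ?_ Bd.geo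
    intro i hi
    cases i with
    | om γ => exact absurd ⟨γ, rfl⟩ hi
    | _ => rfl
  have h2 : Bd (fun i : I => match i with
      | .bit l n => Λ (W (toL l) • mono D (toL l)) * (1 / 2 : ℝ) ^ n | _ => 0) (2 * 2) := by
    refine Bd.inj (fun p : T false × ℕ => T.bit p.1 p.2) ?_ ?_
      (Bd.prod (fun t => hn (toL t)) (fun n => by positivity)
        (Bd.comp (f := fun l => Λ (W l • mono D l)) toL toL_inj (St.bd hΛ (bdM hD))) Bd.geo)
    · rintro ⟨l, n⟩ ⟨m, k⟩ h
      simp only [T.bit.injEq] at h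
      exact Prod.ext h.1 h.2
    · intro i hi
      cases i with
      | bit l n => exact absurd ⟨(l, n), rfl⟩ hi
      | _ => rfl
  refine ((h1.add h2).mono fun i => ?_).weak (by norm_num)
  cases hx : x i
  · simp only [bt, Bool.false_eq_true, if_false, mul_zero]
    cases i with
    | ga γ => simp
    | ca n => simp
    | om n => simp
    | bit l n =>
      have := hn (toL l)
      simp only [zero_add]
      positivity
  · have h3 := (hc i).1 hx
    simp only [bt, if_true, mul_one]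
    cases i with
    | ga γ => simp only [thr] at h3; linarith
    | ca n => simp only [thr] at h3; linarith
    | om n => simp [w]
    | bit l n =>
      simp only [thr] at h3
      simp only [zero_add, w_bit, map_smul, smul_eq_mul]
      have h4 : r n ≤ Λ (mono D (toL l)) := by nlinarith [r_pos n, hω.1]
      have h5 : 0 < W (toL l) * (1 / 2 : ℝ) ^ n := mul_pos (W_pos _) (by positivity)
      nlinarith

theorem Phi_nonempty {D : Set (I → Bool)} (h : D.Nonempty) : (Phi D).Nonempty := by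
  obtain ⟨x, hx⟩ := h
  let y : L D := (⟨fun _ => false, by simp⟩, fun _ => false, ⟨x, hx⟩)
  exact ⟨_, (dirac _ y).1, (dirac _ y).2, 1, ⟨le_rfl, by norm_num⟩, cons_sig _ _⟩

theorem isClosed_Phi' {D : Set (I → Bool)} [CompactSpace D] {Z : Set (St (L D))} (hZ : IsClosed Z) :
    IsClosed {x | ∃ Λ ∈ Z, ∃ ω ∈ Icc (1 : ℝ) 2, Cons (fun l => Λ.1 (mono D l)) ω x} := by
  let E : Set (St (L D) × Icc (1 : ℝ) 2 × (I → Bool)) :=
    {z | z.1 ∈ Z ∧ Cons (fun l => z.1.1 (mono D l)) z.2.1 z.2.2}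
  have ht : ∀ i, Continuous fun z : St (L D) × Icc (1 : ℝ) 2 × (I → Bool) =>
      thr (fun l => z.1.1 (mono D l)) z.2.1 i := by
    intro i
    have h1 : Continuous fun z : St (L D) × Icc (1 : ℝ) 2 × (I → Bool) => (z.2.1 : ℝ) := by
      fun_prop
    cases i with
    | ga γ => exact continuous_const
    | ca n => exact continuous_const
    | om n => exact h1.sub continuous_const
    | bit l n =>
      exact ((WeakDual.eval_continuous (mono D (toL l))).comp
        (continuous_subtype_val.comp continuous_fst)).sub (continuous_const.mul h1)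
  have hE : IsClosed E := by
    refine (hZ.preimage continuous_fst).inter ?_
    have : {z : St (L D) × Icc (1 : ℝ) 2 × (I → Bool) |
        Cons (fun l => z.1.1 (mono D l)) z.2.1 z.2.2} = ⋂ i,
        ({z | z.2.2 i = true → 0 ≤ thr (fun l => z.1.1 (mono D l)) z.2.1 i} ∩
          {z | z.2.2 i = false → thr (fun l => z.1.1 (mono D l)) z.2.1 i ≤ 0}) := by
      ext z; simp only [Cons, mem_setOf_eq, mem_iInter, mem_inter_iff]
    show IsClosed {z : St (L D) × Icc (1 : ℝ) 2 × (I → Bool) |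
        Cons (fun l => z.1.1 (mono D l)) z.2.1 z.2.2}
    rw [this]
    refine isClosed_iInter fun i => IsClosed.inter ?_ ?_
    · exact isClosed_imp ((isClopen_coord i true).2.preimage (continuous_snd.comp continuous_snd))
        (isClosed_le continuous_const (ht i))
    · exact isClosed_imp ((isClopen_coord i false).2.preimage (continuous_snd.comp continuous_snd))
        (isClosed_le (ht i) continuous_const)
  have := (hE.isCompact.image (continuous_snd.comp continuous_snd)).isClosed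
  convert this using 1
  ext x
  constructor
  · rintro ⟨Λ, hΛ, ω, hω, hc⟩
    exact ⟨(Λ, ⟨ω, hω⟩, x), ⟨hΛ, hc⟩, rfl⟩
  · rintro ⟨⟨Λ, ω, x⟩, ⟨hΛ, hc⟩, rfl⟩
    exact ⟨Λ, hΛ, ω.1, ω.2, hc⟩

theorem isClosed_Phi {D : Set (I → Bool)} (hD : IsClosed D) : IsClosed (Phi D) := by
  haveI : CompactSpace D := isCompact_iff_compactSpace.1 hD.isCompact
  convert isClosed_Phi' (D := D) isClosed_univ using 1
  ext x
  constructor
  · rintro ⟨Λ, hΛ, h⟩
    exact ⟨⟨Λ, hΛ⟩, trivial, h⟩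
  · rintro ⟨Λ, -, h⟩
    exact ⟨Λ.1, Λ.2, h⟩

theorem exists_fix : ∃ D : Set (I → Bool), IsClosed D ∧ D.Nonempty ∧ D ⊆ U ∧ Phi D = D := by
  obtain ⟨D, -, hD⟩ := zorn_superset_nonempty
    {D : Set (I → Bool) | IsClosed D ∧ D.Nonempty ∧ D ⊆ U ∧ Phi D ⊆ D} (by
      intro c hc hch hne
      haveI := hne.to_subtype
      refine ⟨⋂₀ c, ⟨isClosed_sInter fun D hD => (hc hD).1, ?_, ?_, ?_⟩,
        fun s hs => sInter_subset_of_mem hs⟩
      · exact IsCompact.nonempty_sInter_of_directed_nonempty_isCompact_isClosed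
          (IsChain.directedOn hch.symm) (fun D hD => (hc hD).2.1) (fun D hD => (hc hD).1.isCompact)
          (fun D hD => (hc hD).1)
      · obtain ⟨D, hD⟩ := hne
        exact (sInter_subset_of_mem hD).trans (hc hD).2.2.1
      · exact subset_sInter fun D hD => (Phi_mono (sInter_subset_of_mem hD)).trans (hc hD).2.2.2)
    U ⟨isClosed_U, ⟨_, zero_mem_U⟩, subset_rfl, Phi_sub subset_rfl⟩
  obtain ⟨⟨h1, h2, h3, h4⟩, h5⟩ := hD
  exact ⟨D, h1, h2, h3, h4.antisymm
    (h5 ⟨isClosed_Phi h1, Phi_nonempty h2, Phi_sub h3, Phi_mono h4⟩ h4)⟩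

theorem cons_unique {D : Set (I → Bool)} [CompactSpace D] (hD : D ⊆ U) {Λ Λ' : St (L D)}
    {ω ω' : ℝ} (hω : ω ∈ Icc (1 : ℝ) 2) (hω' : ω' ∈ Icc (1 : ℝ) 2) {x : I → Bool}
    (h : Cons (fun l => Λ.1 (mono D l)) ω x) (h' : Cons (fun l => Λ'.1 (mono D l)) ω' x) :
    Λ = Λ' := by
  have e : ω = ω' := le_antisymm (h'.om_le h (by linarith [hω'.1])) (h.om_le h' (by linarith [hω.1]))
  subst e
  have h0 : 0 < ω := by linarith [hω.1]
  refine Subtype.ext (St.ext_mono (b D) (b_sep hD) fun l => le_antisymm ?_ ?_)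
  · exact h'.c_le h h0 l (Λ'.2.1 _ (mono_nonneg D l))
  · exact h.c_le h' h0 l (Λ.2.1 _ (mono_nonneg D l))

theorem exists_p {D : Set (I → Bool)} [CompactSpace D] (hD : D ⊆ U) (hf : Phi D = D) :
    ∃ p : C(D, St (L D)), ∀ (x : D) (Λ : St (L D)) (ω : ℝ), ω ∈ Icc (1 : ℝ) 2 →
      Cons (fun l => Λ.1 (mono D l)) ω x.1 → p x = Λ := by
  have h1 : ∀ x : D, ∃ Λ : St (L D), ∃ ω ∈ Icc (1 : ℝ) 2,
      Cons (fun l => Λ.1 (mono D l)) ω x.1 := fun x => by
    obtain ⟨Λ, hΛ, h⟩ : x.1 ∈ Phi D := hf.symm ▸ x.2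
    exact ⟨⟨Λ, hΛ⟩, h⟩
  choose p hp using h1
  have h2 : ∀ (x : D) (Λ : St (L D)) (ω : ℝ), ω ∈ Icc (1 : ℝ) 2 →
      Cons (fun l => Λ.1 (mono D l)) ω x.1 → p x = Λ := fun x Λ ω hω hc => by
    obtain ⟨ω', hω', hc'⟩ := hp x
    exact cons_unique hD hω' hω hc' hc
  refine ⟨⟨p, continuous_iff_isClosed.2 fun Z hZ => ?_⟩, h2⟩
  convert (isClosed_Phi' hZ).preimage (continuous_subtype_val (p := fun x => x ∈ D)) using 1
  ext x
  constructor
  · intro hx
    exact ⟨p x, hx, hp x⟩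
  · rintro ⟨Λ, hΛ, ω, hω, hc⟩
    show p x ∈ Z
    rwa [h2 x Λ ω hω hc]

def cl (ω : ℝ) : ℝ := max 1 (min ω 2)

theorem cl_mem (ω : ℝ) : cl ω ∈ Icc (1 : ℝ) 2 :=
  ⟨le_max_left _ _, max_le (by norm_num) (min_le_right _ _)⟩

theorem cl_eq {ω : ℝ} (h : ω ∈ Ioo (1 : ℝ) 2) : cl ω = ω := by
  rw [cl, min_eq_left h.2.le, max_eq_right h.1.le]

theorem cl_meas : Measurable cl := by
  unfold cl; fun_prop

theorem sig_interval {K : Type*} [TopologicalSpace K] (c : K → List I → ℝ)
    (hc : ∀ l, Continuous fun k => c k l) (l : List I) :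
    ∃ (a : ℝ) (β : K → ℝ), Continuous β ∧ ∀ k, ∀ ω ∈ Icc (1 : ℝ) 2,
      (l.map fun i => bt (sig (c k) ω i)).prod = (Ioo a (β k)).indicator 1 ω := by
  have h1 : ∀ i, ∃ (a : ℝ) (β : K → ℝ), Continuous β ∧ ∀ k, ∀ ω ∈ Icc (1 : ℝ) 2,
      (0 < thr (c k) ω i ↔ ω ∈ Ioo a (β k)) := by
    intro i
    cases i with
    | ga γ =>
      refine ⟨3, fun _ => 3, continuous_const, fun k ω _ => ?_⟩
      simp [thr]
    | ca n =>
      refine ⟨3, fun _ => 3, continuous_const, fun k ω _ => ?_⟩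
      simp [thr]
    | om n =>
      refine ⟨r n, fun _ => 3, continuous_const, fun k ω hω => ?_⟩
      simp only [thr, mem_Ioo, sub_pos]
      exact ⟨fun h => ⟨h, by linarith [hω.2]⟩, fun h => h.1⟩
    | bit l n =>
      refine ⟨0, fun k => c k (toL l) / r n, (hc _).div_const _, fun k ω hω => ?_⟩
      simp only [thr, mem_Ioo, sub_pos, lt_div_iff₀ (r_pos n)]
      exact ⟨fun h => ⟨by linarith [hω.1], by linarith⟩, fun h => by linarith [h.2]⟩
  induction l with
  | nil =>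
    refine ⟨0, fun _ => 3, continuous_const, fun k ω hω => ?_⟩
    rw [indicator_of_mem (show ω ∈ Ioo (0 : ℝ) 3 from ⟨by linarith [hω.1], by linarith [hω.2]⟩)]
    simp
  | cons i l ih =>
    obtain ⟨a, β, hβ, h⟩ := ih
    obtain ⟨a', β', hβ', h'⟩ := h1 i
    refine ⟨a' ⊔ a, fun k => β' k ⊓ β k, hβ'.min hβ, fun k ω hω => ?_⟩
    rw [List.map_cons, List.prod_cons, h k ω hω, ← Ioo_inter_Ioo, inter_indicator_one,
      Pi.mul_apply]
    congr 1
    by_cases h2 : ω ∈ Ioo a' (β' k)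
    · rw [indicator_of_mem h2]
      simp [bt, sig, (h' k ω hω).2 h2]
    · rw [indicator_of_notMem h2]
      have : ¬ 0 < thr (c k) ω i := fun h3 => h2 ((h' k ω hω).1 h3)
      simp [bt, sig, this]

theorem exists_avg {D : Set (I → Bool)} [CompactSpace D] (hD : D ⊆ U) (hf : Phi D = D) :
    ∃ (p : C(D, St (L D))) (u : C(D, ℝ) →L[ℝ] C(St (L D), ℝ)), ∀ g, u (g.comp p) = g := by
  obtain ⟨p, hp⟩ := exists_p hD hf
  let σ : St (L D) → ℝ → D := fun Λ ω => ⟨sig (fun l => Λ.1 (mono D l)) (cl ω),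
    hf.subset ⟨Λ.1, Λ.2, cl ω, cl_mem ω, cons_sig _ _⟩⟩
  let bD : I → C(D, ℝ) := fun i => ⟨fun x => bt (x.1 i),
    bt_cont.comp ((continuous_apply i).comp continuous_subtype_val)⟩
  have hb : ∀ (l : List I) (x : D), (l.map bD).prod x = (l.map fun i => bt (x.1 i)).prod := by
    intro l x
    induction l with
    | nil => simp
    | cons i l ih =>
      simp only [List.map_cons, List.prod_cons, ContinuousMap.mul_apply] at ih ⊢
      rw [ih]; rfl
  have hi : ∀ l : List I, ∃ (a : ℝ) (β : St (L D) → ℝ), Continuous β ∧ ∀ Λ ω,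
      (l.map bD).prod (σ Λ ω) = (Ioo a (β Λ)).indicator 1 (cl ω) := fun l => by
    obtain ⟨a, β, hβ, h⟩ := sig_interval (fun (Λ : St (L D)) l => Λ.1 (mono D l))
      (fun l => (WeakDual.eval_continuous (mono D l)).comp continuous_subtype_val) l
    exact ⟨a, β, hβ, fun Λ ω => by rw [hb]; exact h Λ _ (cl_mem ω)⟩
  obtain ⟨u, hu⟩ := avg σ _ (dense_mono bD fun x y h => Subtype.ext (funext fun i => bt_inj (h i)))
    (by
      rintro _ ⟨l, rfl⟩ Λ
      obtain ⟨a, β, -, h⟩ := hi l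
      simp only [h]
      exact (measurable_one.indicator measurableSet_Ioo).comp cl_meas)
    (by
      rintro _ ⟨l, rfl⟩
      obtain ⟨a, β, hβ, h⟩ := hi l
      have : Continuous fun Λ => max (min (β Λ) 2 - max a 1) 0 := by fun_prop
      refine this.congr fun Λ => ?_
      simp only [h]
      rw [setIntegral_congr_fun measurableSet_Ioo (g := (Ioo a (β Λ)).indicator 1)
        (fun ω hω => by simp only [cl_eq hω]), integral_indicator_one measurableSet_Ioo,
        measureReal_restrict_apply measurableSet_Ioo, Ioo_inter_Ioo, Real.volume_real_Ioo])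
  refine ⟨p, u, fun g => ?_⟩
  ext Λ
  rw [hu]
  have : ∀ ω, (g.comp p) (σ Λ ω) = g Λ := fun ω => by
    rw [ContinuousMap.comp_apply, hp (σ Λ ω) Λ (cl ω) (cl_mem ω) (cons_sig _ _)]
  simp only [this]
  rw [setIntegral_const, Real.volume_real_Ioo]
  norm_num

end Pool.Agent.H27.Arg
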