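import Mathlib
import Pool.Agent.H27.Arg4

set_option autoImplicit false

namespace Pool.Agent.H27.Arg

open Set Filter Topology

theorem sepW {D : Set (I → Bool)} [CompactSpace D] (hD : D ⊆ U) (Λ Λ' : WeakDual ℝ C(L D, ℝ))
    (h : ∀ l, Λ (W l • mono D l) = Λ' (W l • mono D l)) : Λ = Λ' := by
  refine St.ext_mono (b D) (b_sep hD) fun l => ?_
  have := h l
  rw [map_smul, map_smul, smul_eq_mul, smul_eq_mul] at this
  exact mul_left_cancel₀ (W_pos l).ne' this

theorem iso_homeo {S T : Type*} [TopologicalSpace S] [TopologicalSpace T] (e : S ≃ₜ T) :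
    Nonempty (C(T, ℝ) ≃L[ℝ] C(S, ℝ)) :=
  ⟨ContinuousLinearEquiv.equivOfInverse (ContinuousMap.compCLM ℝ ℝ (e : C(S, T)))
    (ContinuousMap.compCLM ℝ ℝ (e.symm : C(T, S))) (fun f => by ext x; simp)
    (fun f => by ext x; simp)⟩

open Classical in
noncomputable def pt (γ : ℝ) : A := ⟨fun δ => decide (δ = γ), fun a b ha hb => by
  rw [of_decide_eq_true ha, of_decide_eq_true hb]⟩

theorem eq_pt {s : A} {γ : ℝ} (h : s.1 γ = true) : s = pt γ := by
  refine Subtype.ext (funext fun δ => ?_)
  by_cases h2 : δ = γ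
  · simp [pt, h2, h]
  · have : s.1 δ ≠ true := fun h3 => h2 (s.2 _ _ h3 h)
    simp [pt, h2, this]

theorem pt_self (γ : ℝ) : (pt γ).1 γ = true := by simp [pt]

theorem shiftA {X : Type*} [NormedAddCommGroup X] [NormedSpace ℝ X] [CompleteSpace X] :
    Nonempty (C(A, X) ≃L[ℝ] X × C(A, X)) := by
  obtain ⟨e⟩ : Nonempty (Option ℝ ≃ ℝ) := Cardinal.eq.1 (by simp)
  have hcl : IsClopen ({pt (e none)} : Set A) := by
    have : ({pt (e none)} : Set A) = Subtype.val ⁻¹' {s : ℝ → Bool | s (e none) = true} := by
      ext s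
      exact ⟨fun h => by rw [h]; exact pt_self _, fun h => eq_pt h⟩
    rw [this]
    exact (isClopen_coord _ _).preimage continuous_subtype_val
  let s : C(A, A) := ⟨fun a => ⟨fun γ => (e.symm γ).elim false a.1, fun γ δ h1 h2 => by
      cases hγ : e.symm γ with
      | none => simp [hγ] at h1
      | some γ' =>
        cases hδ : e.symm δ with
        | none => simp [hδ] at h2
        | some δ' =>
          simp only [hγ, hδ, Option.elim] at h1 h2
          apply e.symm.injective
          rw [hγ, hδ, a.2 _ _ h1 h2]⟩,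
    Continuous.subtype_mk (continuous_pi fun γ => by
      cases e.symm γ with
      | none => exact continuous_const
      | some γ' => exact (continuous_apply γ').comp continuous_subtype_val) _⟩
  let t : C(A, A) := ⟨fun a => ⟨fun γ => a.1 (e (some γ)), fun γ δ h1 h2 =>
      Option.some_injective _ (e.injective (a.2 _ _ h1 h2))⟩,
    Continuous.subtype_mk (continuous_pi fun γ => by
      exact (continuous_apply (e (some γ))).comp continuous_subtype_val) _⟩
  refine iso_shift (pt (e none)) hcl s t ?_ ?_ ?_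
  · intro a
    refine Subtype.ext (funext fun γ => ?_)
    show (e.symm (e (some γ))).elim false a.1 = a.1 γ
    simp
  · intro a ha
    refine Subtype.ext (funext fun γ => ?_)
    show (e.symm γ).elim false (fun δ => a.1 (e (some δ))) = a.1 γ
    obtain ⟨o, rfl⟩ := e.surjective γ
    rw [e.symm_apply_apply]
    cases o with
    | none =>
      have : a.1 (e none) ≠ true := fun h => ha (eq_pt h)
      simp [this]
    | some δ => rfl
  · intro a ha
    have h1 : (s a).1 (e none) = true := by rw [ha]; exact pt_self _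
    have h2 : (s a).1 (e none) = (e.symm (e none)).elim false a.1 := rfl
    rw [h2] at h1
    simp at h1

theorem doubleL (D : Set (I → Bool)) [CompactSpace D] :
    Nonempty (C(L D, ℝ) ≃L[ℝ] C(L D, ℝ) × C(L D, ℝ)) := by
  have hc : ∀ v : Bool, Continuous fun c : ℕ → Bool => fun n => (Nat.casesOn n v c : Bool) :=
    fun v => continuous_pi fun n => by
      cases n with
      | zero => exact continuous_const
      | succ n => exact continuous_apply n
  let h : Bool → C(L D, L D) := fun v => ⟨fun y => (y.1, fun n => Nat.casesOn n v y.2.1, y.2.2),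
    continuous_fst.prodMk (((hc v).comp (continuous_fst.comp continuous_snd)).prodMk
      (continuous_snd.comp continuous_snd))⟩
  let t : C(L D, L D) := ⟨fun y => (y.1, fun n => y.2.1 (n + 1), y.2.2), by fun_prop⟩
  have key : ∀ v (y : L D), y.2.1 0 = v → h v (t y) = y := by
    intro v y hy
    refine Prod.ext rfl (Prod.ext (funext fun n => ?_) rfl)
    cases n with
    | zero => exact hy.symm
    | succ n => rfl
  exact iso_double (fun y => y.2.1 0) (by fun_prop) (h false) (h true) t (fun _ => rfl)
    (fun _ => rfl) (fun _ => rfl) (fun _ => rfl) (key false) (key true)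

theorem iso_main {D : Set (I → Bool)} [CompactSpace D] (hD : D ⊆ U) (hf : Phi D = D) (_x0 : D) :
    Nonempty (C(St (L D), ℝ) ≃L[ℝ] C(L D, ℝ)) := by
  obtain ⟨p, u, hu⟩ := exists_avg hD hf
  obtain ⟨e1⟩ := doubleL D
  obtain ⟨e⟩ := iso_curry (A := A) (M := (ℕ → Bool) × D)
  obtain ⟨e2⟩ := iso_absorb (Y := C(L D, ℝ))
    (ContinuousMap.compCLM ℝ ℝ (p.comp (ContinuousMap.snd : C((ℕ → Bool) × D, D))))
    (u.comp (ContinuousMap.compCLM ℝ ℝ
      (⟨fun x => (fun _ => false, x), by fun_prop⟩ : C(D, (ℕ → Bool) × D))))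
    (fun g => hu g) e shiftA
  exact pel (aff (L D)) _ aff_dirac e1 e2

theorem not_metr {D : Set (I → Bool)} [CompactSpace D] (x0 : D) :
    ¬ TopologicalSpace.MetrizableSpace (St (L D)) := by
  intro h
  letI := TopologicalSpace.metrizableSpaceMetric (St (L D))
  have := Pairwise.countable_of_isOpen_disjoint
    (s := fun γ : ℝ => {Λ : St (L D) | 1 / 2 < Λ.1 (b D (.ga γ))}) ?_ ?_ ?_
  · exact not_countable this
  · intro γ δ hne
    refine Set.disjoint_left.2 fun Λ h1 h2 => ?_
    have h3 : Λ.1 (b D (.ga γ) + b D (.ga δ)) ≤ 1 := St.le Λ.2 fun y => by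
      have := bdA y.1 {γ, δ}
      rw [Finset.sum_pair hne] at this
      exact this
    rw [map_add] at h3
    simp only [mem_setOf_eq] at h1 h2
    linarith
  · intro γ
    exact isOpen_lt continuous_const ((WeakDual.eval_continuous _).comp continuous_subtype_val)
  · intro γ
    refine ⟨dirac _ (pt γ, fun _ => false, x0), ?_⟩
    show 1 / 2 < bt ((pt γ).1 γ)
    rw [pt_self]; norm_num [bt]

end Pool.Agent.H27.Arg
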