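import Mathlib

set_option autoImplicit false

namespace Pool.Agent.H27.Bisym

open Set

section Holder

variable {M : Type*} [AddCommMonoid M] [LinearOrder M] [IsOrderedCancelAddMonoid M]

def Bd (β m : M) : Prop := ∃ N : ℕ, m ≤ N • β

noncomputable def st (β m : M) : ℝ :=
  sSup {t : ℝ | ∃ p q : ℕ, 0 < q ∧ p • β ≤ q • m ∧ t = (p : ℝ) / q}

variable {β : M}

lemma nsmul_cancel (hβ : 0 < β) {p q : ℕ} (h : p • β ≤ q • β) : p ≤ q := by
  by_contra hc
  push Not at hc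
  exact absurd h (not_le.2 (nsmul_lt_nsmul_left hβ hc))

lemma cross (hβ : 0 < β) {m : M} {p q p' q' : ℕ} (h1 : p • β ≤ q • m) (h2 : q' • m ≤ p' • β) :
    p * q' ≤ p' * q := by
  apply nsmul_cancel hβ
  calc (p * q') • β = q' • (p • β) := by rw [mul_nsmul]
    _ ≤ q' • (q • m) := nsmul_le_nsmul_right h1 _
    _ = q • (q' • m) := by rw [← mul_nsmul, ← mul_nsmul, mul_comm]
    _ ≤ q • (p' • β) := nsmul_le_nsmul_right h2 _
    _ = (p' * q) • β := by rw [mul_nsmul]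

lemma st_ub (hβ : 0 < β) {m : M} {p' q' : ℕ} (hq' : 0 < q') (h2 : q' • m ≤ p' • β) :
    (p' : ℝ) / q' ∈ upperBounds {t : ℝ | ∃ p q : ℕ, 0 < q ∧ p • β ≤ q • m ∧ t = (p : ℝ) / q} := by
  rintro t ⟨p, q, hq, h1, rfl⟩
  have h := cross hβ h1 h2
  have hq1 : (0 : ℝ) < q := by exact_mod_cast hq
  have hq2 : (0 : ℝ) < q' := by exact_mod_cast hq'
  rw [div_le_div_iff₀ hq1 hq2]
  exact_mod_cast h

lemma le_st (hβ : 0 < β) {m : M} (hb : Bd β m) {p q : ℕ} (hq : 0 < q) (h : p • β ≤ q • m) :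
    (p : ℝ) ≤ q * st β m := by
  obtain ⟨N, hN⟩ := hb
  have hq1 : (0 : ℝ) < q := by exact_mod_cast hq
  have : (p : ℝ) / q ≤ st β m :=
    le_csSup ⟨_, st_ub hβ Nat.one_pos (by simpa using hN)⟩ ⟨p, q, hq, h, rfl⟩
  rwa [div_le_iff₀ hq1, mul_comm] at this

lemma st_le (hβ : 0 < β) {m : M} (hm : 0 ≤ m) {p q : ℕ} (hq : 0 < q) (h : q • m ≤ p • β) :
    q * st β m ≤ p := by
  have hq1 : (0 : ℝ) < q := by exact_mod_cast hq
  have : st β m ≤ (p : ℝ) / q :=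
    csSup_le ⟨0, 0, 1, Nat.one_pos, by simpa using hm, by simp⟩ (st_ub hβ hq h)
  rwa [le_div_iff₀ hq1, mul_comm] at this

lemma exists_bracket (hβ : 0 < β) {m : M} (hm : 0 ≤ m) (hb : Bd β m) (q : ℕ) :
    ∃ p : ℕ, p • β ≤ q • m ∧ q • m ≤ (p + 1) • β := by
  classical
  obtain ⟨N, hN⟩ := hb
  have hex : ∃ n : ℕ, q • m ≤ (n + 1) • β := by
    refine ⟨N * q, ?_⟩
    calc q • m ≤ q • (N • β) := nsmul_le_nsmul_right hN _
      _ = (N * q) • β := by rw [mul_nsmul]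
      _ ≤ (N * q + 1) • β := nsmul_le_nsmul_left hβ.le (Nat.le_succ _)
  refine ⟨Nat.find hex, ?_, Nat.find_spec hex⟩
  rcases Nat.eq_zero_or_pos (Nat.find hex) with h0 | h0
  · rw [h0, zero_nsmul]
    exact nsmul_nonneg hm _
  · have := Nat.find_min hex (Nat.sub_lt h0 Nat.one_pos)
    rw [Nat.sub_add_cancel h0] at this
    exact (not_le.1 this).le

lemma eq_of_mul_close {s t C : ℝ} (h : ∀ q : ℕ, 0 < q → |q * s - q * t| ≤ C) : s = t := by
  by_contra hne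
  have hpos : 0 < |s - t| := abs_pos.2 (sub_ne_zero.2 hne)
  obtain ⟨q, hq⟩ := exists_nat_gt (C / |s - t|)
  have h1 := h (q + 1) (Nat.succ_pos _)
  rw [← mul_sub, abs_mul, abs_of_nonneg (by positivity)] at h1
  rw [div_lt_iff₀ hpos] at hq
  push_cast at h1
  nlinarith

lemma Bd.add {m n : M} (hm : Bd β m) (hn : Bd β n) : Bd β (m + n) := by
  obtain ⟨N, hN⟩ := hm
  obtain ⟨K, hK⟩ := hn
  exact ⟨N + K, by rw [add_nsmul]; exact add_le_add hN hK⟩

lemma st_add (hβ : 0 < β) {m n : M} (hm : 0 ≤ m) (hn : 0 ≤ n) (bm : Bd β m) (bn : Bd β n) :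
    st β (m + n) = st β m + st β n := by
  apply eq_of_mul_close (C := 2)
  intro q hq
  obtain ⟨p1, h1, h1'⟩ := exists_bracket hβ hm bm q
  obtain ⟨p2, h2, h2'⟩ := exists_bracket hβ hn bn q
  have a1 := le_st hβ bm hq h1
  have a2 := le_st hβ bn hq h2
  have b1 := st_le hβ hm hq h1'
  have b2 := st_le hβ hn hq h2'
  have c1 : (p1 + p2) • β ≤ q • (m + n) := by
    rw [add_nsmul, nsmul_add]; exact add_le_add h1 h2
  have c2 : q • (m + n) ≤ ((p1 + 1) + (p2 + 1)) • β := by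
    rw [add_nsmul, nsmul_add]; exact add_le_add h1' h2'
  have d1 := le_st hβ (bm.add bn) hq c1
  have d2 := st_le hβ (add_nonneg hm hn) hq c2
  push_cast at *
  rw [abs_le]
  constructor <;> linarith

lemma st_mono (hβ : 0 < β) {m n : M} (hm : 0 ≤ m) (bn : Bd β n) (h : m ≤ n) :
    st β m ≤ st β n := by
  unfold st
  refine csSup_le ⟨0, 0, 1, Nat.one_pos, by simpa using hm, by simp⟩ ?_
  rintro t ⟨p, q, hq, h1, rfl⟩
  have hq1 : (0 : ℝ) < q := by exact_mod_cast hq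
  rw [div_le_iff₀ hq1, mul_comm]
  exact le_st hβ bn hq (h1.trans (nsmul_le_nsmul_right h _))

lemma st_zero (hβ : 0 < β) : st β 0 = 0 := by
  have b0 : Bd β (0 : M) := ⟨0, by simp⟩
  have := st_add hβ le_rfl le_rfl b0 b0
  rw [add_zero] at this
  linarith

lemma st_self (hβ : 0 < β) : st β β = 1 := by
  have b0 : Bd β β := ⟨1, by simp⟩
  have h1 := le_st hβ b0 Nat.one_pos (p := 1) le_rfl
  have h2 := st_le hβ hβ.le Nat.one_pos (p := 1) le_rfl
  push_cast at h1 h2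
  linarith

lemma Bd.nsmul {m : M} (hm : Bd β m) (k : ℕ) : Bd β (k • m) := by
  obtain ⟨N, hN⟩ := hm
  exact ⟨N * k, by rw [mul_nsmul]; exact nsmul_le_nsmul_right hN _⟩

lemma st_nsmul (hβ : 0 < β) {m : M} (hm : 0 ≤ m) (bm : Bd β m) (k : ℕ) :
    st β (k • m) = k * st β m := by
  induction k with
  | zero => simp [st_zero hβ]
  | succ k ih =>
    rw [succ_nsmul, st_add hβ (nsmul_nonneg hm _) hm (bm.nsmul k) bm, ih]
    push_cast
    ring

lemma st_hom (hβ : 0 < β) (f : M →+ M) (hf : Monotone f) (hfb : f β ≤ β) {m : M} (hm : 0 ≤ m)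
    (bm : Bd β m) : st β (f m) = st β (f β) * st β m := by
  have f0 : ∀ x : M, 0 ≤ x → 0 ≤ f x := fun x hx => by simpa using hf hx
  have bfb : Bd β (f β) := ⟨1, by simpa using hfb⟩
  have bfm : Bd β (f m) := by
    obtain ⟨N, hN⟩ := bm
    refine ⟨N, (hf hN).trans ?_⟩
    rw [map_nsmul]
    exact nsmul_le_nsmul_right hfb _
  have r0 : 0 ≤ st β (f β) := by
    rw [← st_zero hβ]; exact st_mono hβ le_rfl bfb (f0 _ hβ.le)
  have r1 : st β (f β) ≤ 1 := by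
    rw [← st_self hβ]; exact st_mono hβ (f0 _ hβ.le) ⟨1, by simp⟩ hfb
  apply eq_of_mul_close (C := 1)
  intro q hq
  obtain ⟨p, h1, h2⟩ := exists_bracket hβ hm bm q
  have a1 := le_st hβ bm hq h1
  have a2 := st_le hβ hm hq h2
  have g1 := hf h1
  have g2 := hf h2
  rw [map_nsmul, map_nsmul] at g1 g2
  have k1 := st_mono hβ (nsmul_nonneg (f0 _ hβ.le) _) (bfm.nsmul q) g1
  have k2 := st_mono hβ (nsmul_nonneg (f0 _ hm) _) (bfb.nsmul (p + 1)) g2
  rw [st_nsmul hβ (f0 _ hβ.le) bfb, st_nsmul hβ (f0 _ hm) bfm] at k1 k2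
  push_cast at *
  rw [abs_le]
  constructor <;> nlinarith

end Holder

end Pool.Agent.H27.Bisym
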