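import Mathlib
import Pool.Agent.H27.BisymA

set_option autoImplicit false

namespace Pool.Agent.H27.Bisym

open Set

structure Dat (S : Type) [LinearOrder S] where
  op : S → S → S
  a : S
  b : S
  med : ∀ x y u v, op (op x y) (op u v) = op (op x u) (op y v)
  idem : ∀ x, op x x = x
  monoL : ∀ y, StrictMono fun x => op x y
  monoR : ∀ x, StrictMono (op x)
  bot : ∀ x, a ≤ x
  top : ∀ x, x ≤ b
  lt : a < b

variable {S : Type} [LinearOrder S] (D : Dat S)

namespace Dat

def L (x : S) : S := D.op D.a x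
def R (x : S) : S := D.op x D.a
def T (x : S) : S := D.R (D.L x)
def pl (x y : S) : S := D.op (D.L x) (D.R y)

lemma L_op (x y : S) : D.L (D.op x y) = D.op (D.L x) (D.L y) := by
  unfold L
  rw [← D.med, D.idem]

lemma R_op (x y : S) : D.R (D.op x y) = D.op (D.R x) (D.R y) := by
  unfold R
  rw [← D.med, D.idem]

lemma L_a : D.L D.a = D.a := D.idem _
lemma R_a : D.R D.a = D.a := D.idem _

lemma LR (x : S) : D.L (D.R x) = D.R (D.L x) := by
  have h := D.L_op x D.a
  rw [L_a] at h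
  exact h

lemma L_mono : StrictMono D.L := D.monoR _
lemma R_mono : StrictMono D.R := D.monoL _
lemma T_mono : StrictMono D.T := D.R_mono.comp D.L_mono
lemma T_a : D.T D.a = D.a := by unfold T; rw [L_a, R_a]

lemma T_op (x y : S) : D.T (D.op x y) = D.op (D.T x) (D.T y) := by
  unfold T; rw [L_op, R_op]

lemma pl_comm (x y : S) : D.pl x y = D.pl y x := by
  unfold pl L R; rw [D.med]

lemma pl_a (x : S) : D.pl x D.a = D.T x := by
  unfold pl T; rw [R_a]; rfl

lemma L_pl (x y : S) : D.L (D.pl x y) = D.pl (D.L x) (D.L y) := by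
  unfold pl; rw [L_op, LR]

lemma R_pl (x y : S) : D.R (D.pl x y) = D.pl (D.R x) (D.R y) := by
  unfold pl; rw [R_op, LR]

lemma T_pl (x y : S) : D.T (D.pl x y) = D.pl (D.T x) (D.T y) := by
  unfold T; rw [L_pl, R_pl]

lemma pl_med (x y u v : S) : D.pl (D.pl x y) (D.pl u v) = D.pl (D.pl x u) (D.pl y v) := by
  unfold pl
  rw [L_op, R_op, L_op, R_op, D.med, LR, LR]

lemma pl_assoc (x y z : S) : D.pl (D.pl x y) (D.T z) = D.pl (D.T x) (D.pl y z) := by
  rw [← pl_a, D.pl_comm z, pl_med, pl_a]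

lemma pl_monoL (y : S) : StrictMono fun x => D.pl x y := (D.monoL _).comp D.L_mono
lemma pl_monoR (x : S) : StrictMono (D.pl x) := (D.monoR _).comp D.R_mono

lemma Tn_mono (n : ℕ) : StrictMono (D.T^[n]) := D.T_mono.iterate n

lemma Tn_a (n : ℕ) : D.T^[n] D.a = D.a := Function.iterate_fixed D.T_a n

lemma Tn_pl (n : ℕ) (x y : S) : D.T^[n] (D.pl x y) = D.pl (D.T^[n] x) (D.T^[n] y) := by
  induction n with
  | zero => rfl
  | succ n ih => rw [Function.iterate_succ_apply', ih, T_pl, Function.iterate_succ_apply',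
      Function.iterate_succ_apply']

lemma Tn_add (m n : ℕ) (x : S) : D.T^[m] (D.T^[n] x) = D.T^[m + n] x :=
  (Function.iterate_add_apply _ _ _ _).symm

def P (_D : Dat S) : Type := S × ℕ

instance : Preorder D.P where
  le p q := D.T^[q.2] p.1 ≤ D.T^[p.2] q.1
  le_refl _ := le_rfl
  le_trans p q r h1 h2 := by
    have a1 := (D.Tn_mono r.2).monotone h1
    have a2 := (D.Tn_mono p.2).monotone h2
    rw [Tn_add, Tn_add] at a1 a2
    rw [← (D.Tn_mono q.2).le_iff_le, Tn_add, Tn_add, add_comm q.2 r.2, add_comm q.2 p.2]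
    rw [add_comm r.2 p.2] at a1
    exact a1.trans a2

lemma P_le (p q : D.P) : p ≤ q ↔ D.T^[q.2] p.1 ≤ D.T^[p.2] q.1 := Iff.rfl

instance : @Std.Total D.P (· ≤ ·) := ⟨fun _ _ => le_total _ _⟩

def addP (p q : D.P) : D.P := (D.pl (D.T^[q.2] p.1) (D.T^[p.2] q.1), p.2 + q.2 + 1)

lemma addP_comm (p q : D.P) : D.addP p q = D.addP q p := by
  unfold addP; rw [pl_comm, add_comm p.2]

lemma addP_le_iff (p q r : D.P) : D.addP p q ≤ D.addP p r ↔ q ≤ r := by
  rw [P_le, P_le]
  unfold addP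
  simp only [Tn_pl, Tn_add]
  rw [show p.2 + r.2 + 1 + q.2 = p.2 + q.2 + 1 + r.2 by ring, (D.pl_monoR _).le_iff_le,
    ← (D.Tn_mono (p.2 + p.2 + 1)).le_iff_le (a := D.T^[r.2] q.1), Tn_add, Tn_add,
    show p.2 + r.2 + 1 + p.2 = p.2 + p.2 + 1 + r.2 by ring,
    show p.2 + q.2 + 1 + p.2 = p.2 + p.2 + 1 + q.2 by ring]

lemma addP_assoc (p q r : D.P) : D.addP (D.addP p q) r = D.addP p (D.addP q r) := by
  unfold addP
  simp only [Tn_pl, Tn_add]
  refine Prod.ext ?_ (by simp only; ring)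
  simp only
  rw [Function.iterate_succ_apply', pl_assoc, Function.iterate_succ_apply', add_comm r.2 q.2,
    add_comm r.2 p.2]

def M : Type := Antisymmetrization D.P (· ≤ ·)

noncomputable instance : LinearOrder D.M := by
  classical
  exact inferInstanceAs (LinearOrder (Antisymmetrization D.P (· ≤ ·)))

def cl (p : D.P) : D.M := toAntisymmetrization (· ≤ ·) p

lemma mk_le (p q : D.P) : D.cl p ≤ D.cl q ↔ p ≤ q := Iff.rfl

lemma mk_eq (p q : D.P) (h : D.T^[q.2] p.1 = D.T^[p.2] q.1) : D.cl p = D.cl q :=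
  le_antisymm ((D.mk_le _ _).2 h.le) ((D.mk_le _ _).2 h.ge)

lemma M_ind {C : D.M → Prop} (h : ∀ p, C (D.cl p)) (m : D.M) : C m :=
  Quotient.inductionOn m h

def addM (m n : D.M) : D.M :=
  Quotient.map₂ D.addP (fun p p' hp q q' hq => by
    constructor
    · exact ((D.addP_le_iff p q q').2 hq.1).trans (by
        rw [D.addP_comm p, D.addP_comm p']; exact (D.addP_le_iff _ _ _).2 hp.1)
    · exact ((D.addP_le_iff p' q' q).2 hq.2).trans (by
        rw [D.addP_comm p, D.addP_comm p']; exact (D.addP_le_iff _ _ _).2 hp.2)) m n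

lemma addM_mk (p q : D.P) : D.addM (D.cl p) (D.cl q) = D.cl (D.addP p q) := rfl

lemma addM_comm (m n : D.M) : D.addM m n = D.addM n m := by
  induction m using M_ind with | _ p => ?_
  induction n using M_ind with | _ q => ?_
  rw [addM_mk, addM_mk, addP_comm]

lemma addM_zero (m : D.M) : D.addM m (D.cl (D.a, 0)) = m := by
  induction m using M_ind with | _ p => ?_
  change D.cl (D.addP p (D.a, 0)) = D.cl p
  apply mk_eq
  change D.T^[p.2] (D.pl p.1 (D.T^[p.2] D.a)) = D.T^[p.2 + 1] p.1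
  rw [Tn_a, pl_a, Function.iterate_succ_apply]

instance : Zero D.M := ⟨D.cl (D.a, 0)⟩
instance : Add D.M := ⟨D.addM⟩

instance : AddCommMonoid D.M where
  add_assoc m n k := by
    induction m using M_ind with | _ p => ?_
    induction n using M_ind with | _ q => ?_
    induction k using M_ind with | _ r => ?_
    exact congrArg D.cl (D.addP_assoc p q r)
  zero_add m := (D.addM_comm _ _).trans (D.addM_zero m)
  add_zero m := D.addM_zero m
  add_comm := D.addM_comm
  nsmul := nsmulRec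

lemma mk_add (p q : D.P) : D.cl p + D.cl q = D.cl (D.addP p q) := rfl

lemma add_le_iff (m n k : D.M) : m + n ≤ m + k ↔ n ≤ k := by
  induction m using M_ind with | _ p => ?_
  induction n using M_ind with | _ q => ?_
  induction k using M_ind with | _ r => ?_
  exact D.addP_le_iff p q r

instance : IsOrderedCancelAddMonoid D.M where
  add_le_add_left m n h k := by
    rw [add_comm m, add_comm n]; exact (D.add_le_iff _ _ _).2 h
  le_of_add_le_add_left m n k h := (D.add_le_iff _ _ _).1 h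

def io (x : S) : D.M := D.cl (x, 0)

lemma io_le (x y : S) : D.io x ≤ D.io y ↔ x ≤ y := Iff.rfl

lemma io_a : D.io D.a = 0 := rfl

lemma io_op (x y : S) : D.io (D.op x y) = D.io (D.R x) + D.io (D.L y) := by
  change D.cl (D.op x y, 0) = D.cl (D.addP (D.R x, 0) (D.L y, 0))
  apply mk_eq
  change D.T (D.op x y) = D.pl (D.R x) (D.L y)
  rw [T_op]
  unfold pl T
  rw [LR]

def ext (f : S → S) (hf : Monotone f) (hT : ∀ x, f (D.T x) = D.T (f x)) : D.P →o D.P where
  toFun p := (f p.1, p.2)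
  monotone' p q h := by
    have hn : ∀ n x, f (D.T^[n] x) = D.T^[n] (f x) := by
      intro n x
      induction n with
      | zero => rfl
      | succ n ih => rw [Function.iterate_succ_apply', hT, ih, Function.iterate_succ_apply']
    change D.T^[q.2] (f p.1) ≤ D.T^[p.2] (f q.1)
    rw [← hn, ← hn]
    exact hf h

def extM (f : S → S) (hf : Monotone f) (hT : ∀ x, f (D.T x) = D.T (f x)) (ha : f D.a = D.a)
    (hp : ∀ x y, f (D.pl x y) = D.pl (f x) (f y)) : D.M →+ D.M where
  toFun := (D.ext f hf hT).antisymmetrization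
  map_zero' := by
    change D.cl (f D.a, 0) = D.cl (D.a, 0)
    rw [ha]
  map_add' m n := by
    induction m using M_ind with | _ p => ?_
    induction n using M_ind with | _ q => ?_
    have hn : ∀ n x, f (D.T^[n] x) = D.T^[n] (f x) := by
      intro n x
      induction n with
      | zero => rfl
      | succ n ih => rw [Function.iterate_succ_apply', hT, ih, Function.iterate_succ_apply']
    change D.cl (f (D.pl (D.T^[q.2] p.1) (D.T^[p.2] q.1)), p.2 + q.2 + 1) =
      D.cl (D.pl (D.T^[q.2] (f p.1)) (D.T^[p.2] (f q.1)), p.2 + q.2 + 1)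
    rw [hp, hn, hn]

theorem exists_hom : ∃ (φ : S → ℝ) (ρ σ : ℝ), Monotone φ ∧ φ D.a = 0 ∧ φ D.b = 1 ∧ 0 ≤ ρ ∧ 0 ≤ σ ∧
    ρ + σ = 1 ∧ ∀ x y, φ (D.op x y) = ρ * φ x + σ * φ y := by
  have hβ : 0 < D.io D.b := lt_of_not_ge fun h => absurd ((D.io_le _ _).1 h) (not_le.2 D.lt)
  have h0 : ∀ x, 0 ≤ D.io x := fun x => (D.io_le _ _).2 (D.bot x)
  have hb : ∀ x, Bd (D.io D.b) (D.io x) := fun x => ⟨1, by
    rw [one_nsmul]; exact (D.io_le _ _).2 (D.top x)⟩
  let fR := D.extM D.R D.R_mono.monotone (fun x => by unfold T; rw [LR]) D.R_a D.R_pl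
  let fL := D.extM D.L D.L_mono.monotone (fun x => by unfold T; rw [LR]) D.L_a D.L_pl
  have hR : ∀ x, st (D.io D.b) (D.io (D.R x)) =
      st (D.io D.b) (D.io (D.R D.b)) * st (D.io D.b) (D.io x) := fun x =>
    st_hom hβ fR (D.ext _ _ _).antisymmetrization.monotone ((D.io_le _ _).2 (D.top _)) (h0 x) (hb x)
  have hL : ∀ x, st (D.io D.b) (D.io (D.L x)) =
      st (D.io D.b) (D.io (D.L D.b)) * st (D.io D.b) (D.io x) := fun x =>
    st_hom hβ fL (D.ext _ _ _).antisymmetrization.monotone ((D.io_le _ _).2 (D.top _)) (h0 x) (hb x)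
  have hop : ∀ x y, st (D.io D.b) (D.io (D.op x y)) =
      st (D.io D.b) (D.io (D.R D.b)) * st (D.io D.b) (D.io x) +
        st (D.io D.b) (D.io (D.L D.b)) * st (D.io D.b) (D.io y) := fun x y => by
    rw [io_op, st_add hβ (h0 _) (h0 _) (hb _) (hb _), hR x, hL y]
  have hnn : ∀ x, 0 ≤ st (D.io D.b) (D.io x) := fun x => by
    rw [← st_zero hβ]; exact st_mono hβ le_rfl (hb x) (h0 x)
  refine ⟨fun x => st (D.io D.b) (D.io x), _, _, fun x y h =>
    st_mono hβ (h0 x) (hb y) ((D.io_le _ _).2 h), st_zero hβ, st_self hβ, hnn _, hnn _, ?_, hop⟩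
  have := hop D.b D.b
  rw [D.idem, st_self hβ] at this
  linarith

end Dat

end Pool.Agent.H27.Bisym
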