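import Mathlib
import Pool.Agent.H27.BisymB

set_option autoImplicit false

namespace Pool.Agent.H27.Bisym

open Set Filter Topology

variable {a b : ℝ}

lemma locConst_contra (D : Dat (Icc a b)) (φ : Icc a b → ℝ) (hm : Monotone φ)
    (h0 : φ D.a = 0) (h1 : φ D.b = 1)
    (hl : ∀ x, D.a < x → ∃ y, y < x ∧ φ y = φ x) (hr : ∀ x, x < D.b → ∃ y, x < y ∧ φ y = φ x) :
    False := by
  have : PreconnectedSpace (Icc a b) := Subtype.preconnectedSpace isPreconnected_Icc
  have hlc : IsLocallyConstant φ := by
    rw [IsLocallyConstant.iff_eventually_eq]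
    intro x
    have e1 : ∀ᶠ y in 𝓝 x, φ x ≤ φ y := by
      rcases (D.bot x).eq_or_lt with h | h
      · exact Eventually.of_forall fun y => hm (h ▸ D.bot y)
      · obtain ⟨z, hz, hzx⟩ := hl x h
        filter_upwards [Ioi_mem_nhds hz] with y hy
        rw [← hzx]; exact hm (le_of_lt hy)
    have e2 : ∀ᶠ y in 𝓝 x, φ y ≤ φ x := by
      rcases (D.top x).eq_or_lt with h | h
      · exact Eventually.of_forall fun y => hm (h ▸ D.top y)
      · obtain ⟨z, hz, hzx⟩ := hr x h
        filter_upwards [Iio_mem_nhds hz] with y hy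
        rw [← hzx]; exact hm (le_of_lt hy)
    filter_upwards [e1, e2] with y h1 h2 using le_antisymm h2 h1
  have := hlc.apply_eq_of_preconnectedSpace D.a D.b
  rw [h0, h1] at this
  exact zero_ne_one this

lemma dense_of_closed (E : Set ℝ) (ρ σ : ℝ) (hρ : 0 < ρ) (hσ : 0 < σ) (hs : ρ + σ = 1)
    (h0 : (0 : ℝ) ∈ E) (h1 : (1 : ℝ) ∈ E) (hc : ∀ x ∈ E, ∀ y ∈ E, ρ * x + σ * y ∈ E)
    {p q : ℝ} (hp : 0 ≤ p) (hpq : p < q) (hq : q ≤ 1) : ∃ t ∈ E, p < t ∧ t < q := by
  by_contra hne
  push Not at hne
  set A := {t ∈ E | t ≤ p} with hA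
  set B := {t ∈ E | q ≤ t} with hB
  have hAne : A.Nonempty := ⟨0, h0, hp⟩
  have hBne : B.Nonempty := ⟨1, h1, hq⟩
  have hAb : BddAbove A := ⟨p, fun t ht => ht.2⟩
  have hBb : BddBelow B := ⟨q, fun t ht => ht.2⟩
  have hu : sSup A ≤ p := csSup_le hAne fun t ht => ht.2
  have hv : q ≤ sInf B := le_csInf hBne fun t ht => ht.2
  set u := sSup A
  set v := sInf B
  have huv : u < v := by linarith
  obtain ⟨x, hx, hx'⟩ := exists_lt_of_lt_csSup hAne
    (show u - σ * (v - u) < u by nlinarith)
  obtain ⟨y, hy, hy'⟩ := exists_lt_of_csInf_lt hBne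
    (show v < v + ρ * (v - u) by nlinarith)
  have hxu : x ≤ u := le_csSup hAb hx
  have hyv : v ≤ y := csInf_le hBb hy
  have hz := hc x hx.1 y hy.1
  have hρ1 : ρ < 1 := by linarith
  have hσ1 : σ < 1 := by linarith
  have hσ' : σ = 1 - ρ := by linarith
  have z1 : u < ρ * x + σ * y := by
    have : ρ * (u - σ * (v - u)) < ρ * x := mul_lt_mul_of_pos_left hx' hρ
    have h2 : σ * v ≤ σ * y := mul_le_mul_of_nonneg_left hyv hσ.le
    have h3 : 0 < σ * σ * (v - u) := by have := sub_pos.2 huv; positivity
    subst hσ'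
    nlinarith
  have z2 : ρ * x + σ * y < v := by
    have : σ * y < σ * (v + ρ * (v - u)) := mul_lt_mul_of_pos_left hy' hσ
    have h2 : ρ * x ≤ ρ * u := mul_le_mul_of_nonneg_left hxu hρ.le
    have h3 : 0 < ρ * ρ * (v - u) := by have := sub_pos.2 huv; positivity
    subst hσ'
    nlinarith
  by_cases hzp : ρ * x + σ * y ≤ p
  · exact absurd (le_csSup hAb (show _ ∈ A from ⟨hz, hzp⟩)) (not_le.2 z1)
  · have := hne _ hz (not_le.1 hzp)
    exact absurd (csInf_le hBb (show _ ∈ B from ⟨hz, this⟩)) (not_le.2 z2)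

theorem good_hom (D : Dat (Icc a b)) : ∃ (φ : Icc a b → ℝ) (ρ σ : ℝ), StrictMono φ ∧ Continuous φ ∧
    φ D.a = 0 ∧ (∀ t ∈ Icc (0 : ℝ) 1, ∃ x, φ x = t) ∧ 0 < ρ ∧ 0 < σ ∧
    ∀ x y, φ (D.op x y) = ρ * φ x + σ * φ y := by
  obtain ⟨φ, ρ, σ, hm, h0, h1, hρ, hσ, hs, hop⟩ := D.exists_hom
  have hρ' : 0 < ρ := by
    rcases hρ.eq_or_lt with h | h
    · exfalso
      have hσ1 : σ = 1 := by linarith
      refine locConst_contra D φ hm h0 h1 (fun x hx => ⟨D.op D.a x, ?_, ?_⟩)
        (fun x hx => ⟨D.op D.b x, ?_, ?_⟩)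
      · simpa [D.idem] using D.monoL x hx
      · rw [hop, ← h, hσ1]; ring
      · simpa [D.idem] using D.monoL x hx
      · rw [hop, ← h, hσ1]; ring
    · exact h
  have hσ' : 0 < σ := by
    rcases hσ.eq_or_lt with h | h
    · exfalso
      have hρ1 : ρ = 1 := by linarith
      refine locConst_contra D φ hm h0 h1 (fun x hx => ⟨D.op x D.a, ?_, ?_⟩)
        (fun x hx => ⟨D.op x D.b, ?_, ?_⟩)
      · simpa [D.idem] using D.monoR x hx
      · rw [hop, ← h, hρ1]; ring
      · simpa [D.idem] using D.monoR x hx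
      · rw [hop, ← h, hρ1]; ring
    · exact h
  have hmem : ∀ x, φ x ∈ Icc (0 : ℝ) 1 := fun x => ⟨h0 ▸ hm (D.bot x), h1 ▸ hm (D.top x)⟩
  let ψ : Icc a b → Icc (0 : ℝ) 1 := fun x => ⟨φ x, hmem x⟩
  have hψm : Monotone ψ := fun x y h => hm h
  have hψd : DenseRange ψ := by
    apply dense_of_exists_between
    intro p q hpq
    obtain ⟨_, ⟨x, rfl⟩, h2, h3⟩ := dense_of_closed (range φ) ρ σ hρ' hσ' hs ⟨_, h0⟩ ⟨_, h1⟩
      (by rintro _ ⟨x, rfl⟩ _ ⟨y, rfl⟩; exact ⟨_, hop x y⟩) p.2.1 hpq q.2.2
    exact ⟨ψ x, ⟨x, rfl⟩, h2, h3⟩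
  have hc : Continuous φ := continuous_subtype_val.comp (hψm.continuous_of_denseRange hψd)
  have : PreconnectedSpace (Icc a b) := Subtype.preconnectedSpace isPreconnected_Icc
  have hsurj : ∀ t ∈ Icc (0 : ℝ) 1, ∃ x, φ x = t := by
    intro t ht
    have := intermediate_value_univ D.a D.b hc
    rw [h0, h1] at this
    exact this ht
  refine ⟨φ, ρ, σ, ?_, hc, h0, hsurj, hρ', hσ', hop⟩
  intro u v huv
  by_contra hn
  have he : φ u = φ v := le_antisymm (hm huv.le) (not_lt.1 hn)
  have : Nonempty (Icc a b) := ⟨u⟩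
  choose! X hX using hsurj
  have hval : ∀ t ∈ Icc (0 : ℝ) 1, ∀ z ∈ Ioo (D.op (X t) u) (D.op (X t) v),
      φ z = ρ * t + σ * φ u := by
    intro t ht z hz
    have e1 := hm hz.1.le
    have e2 := hm hz.2.le
    rw [hop, hX t ht] at e1 e2
    rw [← he] at e2
    exact le_antisymm e2 e1
  have hcount : (Icc (0 : ℝ) 1).Countable := by
    apply Set.PairwiseDisjoint.countable_of_isOpen
      (s := fun t => Ioo (D.op (X t) u) (D.op (X t) v))
    · intro s hs t ht hst
      rw [Function.onFun, Set.disjoint_left]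
      intro z hz1 hz2
      have := (hval s hs z hz1).symm.trans (hval t ht z hz2)
      exact hst (mul_left_cancel₀ hρ'.ne' (by linarith))
    · exact fun _ _ => isOpen_Ioo
    · exact fun t _ => nonempty_Ioo.2 (D.monoR _ huv)
  have := hcount.measure_zero MeasureTheory.volume
  simp at this

theorem cont_of_comm (D : Dat (Icc a b)) {ι : Type} [Fintype ι] (F : (ι → Icc a b) → Icc a b)
    (hF : Monotone F) (hrefl : ∀ x, F (fun _ => x) = x)
    (hcomm : ∀ x y : ι → Icc a b, F (fun i => D.op (x i) (y i)) = D.op (F x) (F y)) :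
    Continuous F := by
  obtain ⟨φ, ρ, σ, hm, hc, h0, hsurj, hρ, hσ, hop⟩ := good_hom D
  have key : ∀ δ : ℝ, 0 ≤ δ → δ ≤ σ / ρ → ∀ x y : ι → Icc a b, (∀ i, φ (x i) ≤ φ (y i) + δ) →
      φ (F x) ≤ φ (F y) + δ := by
    intro δ hδ hδ' x y hxy
    have ht : ρ * δ / σ ∈ Icc (0 : ℝ) 1 := by
      constructor
      · positivity
      · rw [div_le_one hσ]
        rw [le_div_iff₀ hρ] at hδ'
        linarith
    obtain ⟨c, hcv⟩ := hsurj _ ht
    have e : σ * φ c = ρ * δ := by rw [hcv]; field_simp
    have h1 : (fun i => D.op (x i) D.a) ≤ fun i => D.op (y i) c := by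
      intro i
      rw [← hm.le_iff_le, hop, hop, h0, e]
      nlinarith [hxy i]
    have h2 := hm.monotone (hF h1)
    rw [hcomm x (fun _ => D.a), hcomm y (fun _ => c), hrefl, hrefl, hop, hop, h0, e] at h2
    have h3 : ρ * φ (F x) ≤ ρ * (φ (F y) + δ) := by linarith
    exact le_of_mul_le_mul_left h3 hρ
  have hemb : IsInducing φ := (hc.isClosedEmbedding hm.injective).isInducing
  rw [hemb.continuous_iff, continuous_iff_continuousAt]
  intro y
  rw [ContinuousAt, Metric.tendsto_nhds]
  intro ε hε
  have hδ : 0 < min (ε / 2) (σ / ρ) := lt_min (by linarith) (by positivity)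
  have hev : ∀ᶠ x in 𝓝 y, ∀ i, dist (φ (x i)) (φ (y i)) < min (ε / 2) (σ / ρ) := by
    rw [eventually_all]
    intro i
    exact Metric.tendsto_nhds.1 (hc.comp (continuous_apply i)).continuousAt _ hδ
  filter_upwards [hev] with x hx
  have k1 := key _ hδ.le (min_le_right _ _) x y fun i => by
    have := hx i
    rw [Real.dist_eq, abs_lt] at this
    linarith [this.2]
  have k2 := key _ hδ.le (min_le_right _ _) y x fun i => by
    have := hx i
    rw [Real.dist_eq, abs_lt] at this
    linarith [this.1]
  have := min_le_left (ε / 2) (σ / ρ)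
  rw [Real.dist_eq, abs_lt]
  simp only [Function.comp]
  constructor <;> linarith

theorem nary {n : ℕ} (hab : a < b) (hn : 2 ≤ n) (F : (Fin n → Icc a b) → Icc a b)
    (hrefl : ∀ x, F (fun _ => x) = x)
    (hbis : ∀ M : Fin n → Fin n → Icc a b, F (fun i => F (M i)) = F (fun j => F (fun i => M i j)))
    (hmono : ∀ (x : Fin n → Icc a b) (i : Fin n),
      StrictMono (fun t : Icc a b => F (Function.update x i t))) :
    Continuous F := by
  have hF : Monotone F := by
    have h : ∀ s : Finset (Fin n), ∀ x y : Fin n → Icc a b, x ≤ y →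
        (∀ i, i ∉ s → x i = y i) → F x ≤ F y := by
      intro s
      induction s using Finset.induction_on with
      | empty =>
        intro x y _ h
        rw [show x = y from funext fun i => h i (by simp)]
      | insert j s hj ih =>
        intro x y hxy h
        have h1 : F x ≤ F (Function.update x j (y j)) := by
          have := (hmono x j).monotone (hxy j)
          simpa using this
        refine h1.trans (ih _ _ ?_ ?_)
        · intro i
          by_cases hi : i = j
          · subst hi; simp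
          · rw [Function.update_of_ne hi]; exact hxy i
        · intro i hi
          by_cases hij : i = j
          · subst hij; simp
          · rw [Function.update_of_ne hij]; exact h i (by simp [hij, hi])
    exact fun x y hxy => h Finset.univ x y hxy (by simp)
  let i0 : Fin n := ⟨0, by omega⟩
  let i1 : Fin n := ⟨1, by omega⟩
  have h01 : i1 ≠ i0 := by simp [i0, i1, Fin.ext_iff]
  let op : Icc a b → Icc a b → Icc a b := fun x y => F (Function.update (fun _ => x) i0 y)
  have hcomm : ∀ x y : Fin n → Icc a b, F (fun i => op (x i) (y i)) = op (F x) (F y) := by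
    intro x y
    have := hbis fun i => Function.update (fun _ => x i) i0 (y i)
    refine this.trans ?_
    congr 1
    funext j
    by_cases hj : j = i0
    · subst hj; simp
    · simp [Function.update_of_ne hj]
  let D : Dat (Icc a b) :=
    { op := op
      a := ⟨a, left_mem_Icc.2 hab.le⟩
      b := ⟨b, right_mem_Icc.2 hab.le⟩
      med := by
        intro x y u v
        have := hcomm (Function.update (fun _ => x) i0 u) (Function.update (fun _ => y) i0 v)
        refine Eq.trans ?_ this
        change F _ = F _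
        congr 1
        funext j
        by_cases hj : j = i0
        · subst hj; simp
        · simp [Function.update_of_ne hj]
      idem := by
        intro x
        simp only [op, Function.update_eq_self]
        exact hrefl x
      monoL := by
        intro y x x' hx
        have e1 := hmono (Function.update (fun _ => x) i0 y) i1 hx
        simp only at e1
        have e0 : Function.update (Function.update (fun _ => x) i0 y) i1 x =
            Function.update (fun _ => x) i0 y := by
          rw [Function.update_eq_self_iff, Function.update_of_ne h01]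
        rw [e0] at e1
        refine e1.trans_le (hF ?_)
        intro j
        by_cases hj : j = i1
        · subst hj; simp [Function.update_of_ne h01]
        · rw [Function.update_of_ne hj]
          by_cases hj0 : j = i0
          · subst hj0; simp
          · simp only [Function.update_of_ne hj0]; exact hx.le
      monoR := fun x => hmono _ i0
      bot := fun x => x.2.1
      top := fun x => x.2.2
      lt := hab }
  exact cont_of_comm D F hF hrefl hcomm

end Pool.Agent.H27.Bisym
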