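import Mathlib

set_option autoImplicit false

namespace Pool.Agent.H27.Bk

open MeasureTheory Filter Topology Set

variable {X : Type} [MeasurableSpace X] {μ : Measure X} {T : X → X}

/-- Running maximum of the ergodic sums. -/
noncomputable def M (T : X → X) (g : X → ℝ) : ℕ → X → ℝ
  | 0 => fun _ => 0
  | N + 1 => fun x => max 0 (g x + M T g N (T x))

omit [MeasurableSpace X] in
lemma M_nonneg (g : X → ℝ) (N : ℕ) (x : X) : 0 ≤ M T g N x := by
  cases N with
  | zero => exact le_rfl
  | succ N => exact le_max_left _ _

omit [MeasurableSpace X] in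
lemma M_succ (g : X → ℝ) (N : ℕ) : ∀ x, M T g N x ≤ M T g (N + 1) x := by
  induction N with
  | zero => exact fun x => M_nonneg g _ x
  | succ N ih => exact fun x => max_le_max le_rfl (add_le_add le_rfl (ih _))

omit [MeasurableSpace X] in
lemma M_mono (g : X → ℝ) (x : X) : Monotone (fun N => M T g N x) :=
  monotone_nat_of_le_succ (fun N => M_succ g N x)

omit [MeasurableSpace X] in
lemma S_le (g : X → ℝ) (N : ℕ) : ∀ x, birkhoffSum T g N x ≤ M T g N x := by
  induction N with
  | zero => exact fun x => by simp [M]
  | succ N ih =>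
    intro x
    rw [birkhoffSum_succ']
    exact le_trans (add_le_add le_rfl (ih _)) (le_max_right _ _)

lemma M_meas (hT : Measurable T) {g : X → ℝ} (hg : Measurable g) (N : ℕ) :
    Measurable (M T g N) := by
  induction N with
  | zero => exact measurable_const
  | succ N ih => exact measurable_const.max (hg.add (ih.comp hT))

lemma M_int (hT : MeasurePreserving T μ μ) {g : X → ℝ} (gi : Integrable g μ) (N : ℕ) :
    Integrable (M T g N) μ := by
  induction N with
  | zero => exact integrable_zero _ _ _
  | succ N ih => exact (integrable_zero _ _ _).sup (gi.add (hT.integrable_comp_of_integrable ih))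

lemma D_int (hT : MeasurePreserving T μ μ) {g : X → ℝ} (hg : Measurable g) (gi : Integrable g μ)
    (A : Set X) (hA : MeasurableSet A) (hi : T ⁻¹' A = A) (N : ℕ) :
    0 ≤ ∫ x in A, (M T g (N + 1) x - M T g N (T x)) ∂μ := by
  have e : ∫ x in A, M T g N (T x) ∂μ = ∫ x in A, M T g N x ∂μ := by
    have := setIntegral_map (μ := μ) (g := T) (f := M T g N) hA
      (M_meas hT.measurable hg N).aestronglyMeasurable hT.measurable.aemeasurable
    rw [hT.map_eq, hi] at this
    exact this.symm
  have i2 : Integrable (fun x => M T g N (T x)) μ :=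
    hT.integrable_comp_of_integrable (M_int hT gi N)
  rw [integral_sub (M_int hT gi _).integrableOn i2.integrableOn, e, sub_nonneg]
  exact integral_mono (M_int hT gi _).integrableOn (M_int hT gi _).integrableOn (M_succ g N)

lemma maximal (hT : MeasurePreserving T μ μ) {g : X → ℝ} (hg : Measurable g) (gi : Integrable g μ) :
    0 ≤ ∫ x in ⋃ N, {x | 0 < M T g (N + 1) x}, g x ∂μ := by
  have ms : ∀ N, MeasurableSet {x | 0 < M T g (N + 1) x} := fun N =>
    measurableSet_lt measurable_const (M_meas hT.measurable hg _)
  refine ge_of_tendsto' (tendsto_setIntegral_of_monotone ms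
    (fun a b hab x hx => lt_of_lt_of_le hx (M_mono g x (by omega))) gi.integrableOn) (fun N => ?_)
  have h := D_int hT hg gi univ MeasurableSet.univ rfl N
  rw [Measure.restrict_univ] at h
  rw [← integral_indicator (ms N)]
  refine le_trans h (integral_mono ((M_int hT gi _).sub
    (hT.integrable_comp_of_integrable (M_int hT gi N))) (gi.indicator (ms N)) (fun x => ?_))
  by_cases hx : x ∈ {x | 0 < M T g (N + 1) x}
  · rw [indicator_of_mem hx]
    have : M T g (N + 1) x = g x + M T g N (T x) :=
      max_eq_right (lt_max_iff.1 hx |>.resolve_left (lt_irrefl _)).le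
    simp only [this]
    linarith
  · rw [indicator_of_notMem hx]
    have := M_nonneg (T := T) g N (T x)
    have h2 : M T g (N + 1) x ≤ 0 := not_lt.1 hx
    simp only
    linarith

lemma bdd [IsProbabilityMeasure μ] (hT : MeasurePreserving T μ μ) {g : X → ℝ} (hg : Measurable g)
    (gi : Integrable g μ) (ε : ℝ) (hε : 0 < ε)
    (hc : μ[g | MeasurableSpace.invariants T] =ᵐ[μ] fun _ => -ε) :
    ∀ᵐ x ∂μ, ∃ C : ℕ, ∀ N, M T g N x ≤ C := by
  set A : Set X := {x | ∀ C : ℕ, ∃ N, (C : ℝ) < M T g N x} with hA
  have Am : MeasurableSet A := by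
    rw [hA, setOf_forall]
    refine MeasurableSet.iInter (fun C => ?_)
    rw [setOf_exists]
    exact MeasurableSet.iUnion (fun N =>
      measurableSet_lt measurable_const (M_meas hT.measurable hg _))
  have Ai : T ⁻¹' A = A := by
    ext x
    obtain ⟨D, hD⟩ := exists_nat_ge |g x|
    have := abs_le.1 hD
    constructor
    · intro hx C
      obtain ⟨N, hN⟩ := hx (C + D)
      push_cast at hN
      exact ⟨N + 1, lt_of_lt_of_le (by linarith) (le_max_right _ _)⟩
    · intro hx C
      obtain ⟨N, hN⟩ := hx (C + D)
      push_cast at hN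
      cases N with
      | zero => exact absurd hN (by simp only [M]; exact not_lt.2 (by positivity))
      | succ N =>
        rcases lt_max_iff.1 hN with h | h
        · exact absurd h (not_lt.2 (by positivity))
        · exact ⟨N, by linarith⟩
  have lim : Tendsto (fun N => ∫ x in A, (M T g (N + 1) x - M T g N (T x)) ∂μ) atTop
      (𝓝 (∫ x in A, g x ∂μ)) := by
    refine tendsto_integral_of_dominated_convergence (fun x => |g x|) (fun N =>
      ((M_meas hT.measurable hg _).sub
        ((M_meas hT.measurable hg _).comp hT.measurable)).aestronglyMeasurable)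
      gi.abs.integrableOn (fun N => Eventually.of_forall (fun x => ?_)) ?_
    · have := M_nonneg (T := T) g N (T x)
      rw [Real.norm_eq_abs, abs_le]
      simp only [M]
      rcases max_cases 0 (g x + M T g N (T x)) with h | h <;> constructor <;>
        linarith [h.1, h.2, le_abs_self (g x), neg_abs_le (g x), abs_nonneg (g x)]
    · refine (ae_restrict_iff' Am).2 (Eventually.of_forall (fun x hx => ?_))
      obtain ⟨D, hD⟩ := exists_nat_ge |g x|
      have hx' : T x ∈ A := by rw [← Ai] at hx; exact hx
      obtain ⟨N, hN⟩ := hx' D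
      refine tendsto_const_nhds.congr' ?_
      filter_upwards [eventually_ge_atTop N] with n hn
      have : M T g N (T x) ≤ M T g n (T x) := M_mono g (T x) hn
      simp only [M]
      rw [max_eq_right (by linarith [neg_abs_le (g x)])]
      ring
  have h0 : 0 ≤ ∫ x in A, g x ∂μ := ge_of_tendsto' lim (D_int hT hg gi A Am Ai)
  rw [← setIntegral_condExp (MeasurableSpace.invariants_le T) gi ⟨Am, Ai⟩,
    setIntegral_congr_ae Am (hc.mono (fun x hx _ => hx))] at h0
  simp only [integral_const, smul_eq_mul, mul_neg, Left.nonneg_neg_iff,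
    measureReal_restrict_apply_univ] at h0
  have h1 : μ.real A = 0 := le_antisymm (by nlinarith [measureReal_nonneg (μ := μ) (s := A)])
    measureReal_nonneg
  have h2 : μ A = 0 := (measureReal_eq_zero_iff (measure_ne_top _ _)).1 h1
  filter_upwards [compl_mem_ae_iff.2 h2] with x hx
  simpa [hA] using hx

lemma upper [IsProbabilityMeasure μ] (hT : MeasurePreserving T μ μ) {f : X → ℝ} (hf : Measurable f)
    (fi : Integrable f μ) (ε : ℝ) (hε : 0 < ε) :
    ∀ᵐ x ∂μ, ∀ᶠ k in atTop,
      birkhoffAverage ℝ T f k x - (μ[f | MeasurableSpace.invariants T]) x ≤ 2 * ε := by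
  have hm := MeasurableSpace.invariants_le T
  set F := μ[f | MeasurableSpace.invariants T] with hF
  have Fs : StronglyMeasurable[MeasurableSpace.invariants T] F := stronglyMeasurable_condExp
  have Fi : Integrable F μ := integrable_condExp
  have FT : F ∘ T = F := MeasurableSpace.comp_eq_of_measurable_invariants Fs.measurable
  have hc : μ[f - (F + fun _ => ε) | MeasurableSpace.invariants T] =ᵐ[μ] fun _ => -ε := by
    have i2 : Integrable (F + fun _ => ε) μ := Fi.add (integrable_const _)
    refine (condExp_sub fi i2 _).trans ?_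
    rw [condExp_of_stronglyMeasurable hm (Fs.add stronglyMeasurable_const) i2]
    exact Eventually.of_forall (fun x => by simp [hF])
  filter_upwards [bdd hT (hf.sub ((Fs.mono hm).measurable.add measurable_const))
    (fi.sub (Fi.add (integrable_const _))) ε hε hc] with x ⟨C, hC⟩
  have e : ∀ k y, birkhoffSum T (f - (F + fun _ => ε)) k y =
      birkhoffSum T f k y - k * (F y + ε) := by
    intro k
    induction k with
    | zero => simp
    | succ k ih =>
      intro y
      rw [birkhoffSum_succ', birkhoffSum_succ', ih, show F (T y) = F y from congrFun FT y]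
      simp only [Pi.sub_apply, Pi.add_apply]
      push_cast
      ring
  filter_upwards [eventually_gt_atTop 0,
    tendsto_natCast_atTop_atTop.eventually_ge_atTop ((C : ℝ) / ε)] with k k0 k1
  have k2 : (0 : ℝ) < k := by exact_mod_cast k0
  have h := le_trans (S_le _ k x) (hC k)
  change birkhoffSum T (f - (F + fun _ => ε)) k x ≤ _ at h
  rw [e] at h
  rw [div_le_iff₀ hε] at k1
  rw [birkhoffAverage, smul_eq_mul, sub_le_iff_le_add, inv_mul_le_iff₀ k2]
  nlinarith

theorem birkhoff [IsProbabilityMeasure μ] (hT : MeasurePreserving T μ μ) {f : X → ℝ}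
    (hf : Measurable f) (fi : Integrable f μ) :
    ∀ᵐ x ∂μ, ∀ ε : ℝ, 0 < ε → ∀ᶠ k in atTop,
      |birkhoffAverage ℝ T f k x - (μ[f | MeasurableSpace.invariants T]) x| ≤ ε := by
  have p : ∀ n : ℕ, (0 : ℝ) < 1 / ((n : ℝ) + 1) := fun n => by positivity
  filter_upwards [ae_all_iff.2 (fun n : ℕ => upper hT hf fi _ (p n)),
    ae_all_iff.2 (fun n : ℕ => upper hT hf.neg fi.neg _ (p n)),
    condExp_neg (μ := μ) f (MeasurableSpace.invariants T)] with x h1 h2 h3 ε hε
  obtain ⟨n, hn⟩ := exists_nat_one_div_lt (show 0 < ε / 2 by positivity)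
  filter_upwards [h1 n, h2 n] with k a b
  have e : birkhoffAverage ℝ T (fun x => -f x) k x = -birkhoffAverage ℝ T f k x := by
    simp [birkhoffAverage, birkhoffSum]
  change birkhoffAverage ℝ T (fun x => -f x) k x - (μ[-f | MeasurableSpace.invariants T]) x ≤ _ at b
  rw [e, h3, Pi.neg_apply] at b
  rw [abs_le]
  constructor <;> linarith

end Pool.Agent.H27.Bk
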