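import Pool.Agent.H27.Bk1

set_option autoImplicit false

namespace Pool.Agent.H27.Bk

open MeasureTheory Filter Topology Set
open scoped ENNReal

variable {X : Type} [MeasurableSpace X] {μ : Measure X} {T : X → X}

lemma A_meas (hT : Measurable T) {f : X → ℝ} (hf : Measurable f) (k : ℕ) :
    Measurable (fun x => birkhoffAverage ℝ T f k x) := by
  simp only [birkhoffAverage, birkhoffSum, smul_eq_mul]
  exact (Finset.measurable_sum _ (fun i _ => hf.comp (hT.iterate i))).const_mul _

lemma weak [IsProbabilityMeasure μ] (hT : MeasurePreserving T μ μ) {h : X → ℝ} (hm : Measurable h)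
    (h0 : ∀ x, 0 ≤ h x) (hi : Integrable h μ) (p : ℝ) (hp : 1 < p)
    (hpi : Integrable (fun x => h x ^ p) μ) (l : ℝ) (hl : 0 < l) :
    ∃ E : Set X, MeasurableSet E ∧ (∀ x k, l < birkhoffAverage ℝ T h k x → x ∈ E) ∧
      μ.real E ≤ (2 / l) ^ p * ∫ x, h x ^ p ∂μ := by
  have gm : Measurable (fun x => h x - l) := hm.sub measurable_const
  have mx := maximal hT gm (hi.sub (integrable_const l))
  set E := ⋃ N, {x | 0 < M T (fun x => h x - l) (N + 1) x} with hE
  have Em : MeasurableSet E := MeasurableSet.iUnion (fun N =>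
    measurableSet_lt measurable_const (M_meas hT.measurable gm _))
  refine ⟨E, Em, fun x k hk => ?_, ?_⟩
  · cases k with
    | zero => simp at hk; linarith
    | succ k =>
      refine mem_iUnion.2 ⟨k, lt_of_lt_of_le ?_ (S_le _ _ x)⟩
      rw [birkhoffAverage, smul_eq_mul, lt_inv_mul_iff₀ (by positivity)] at hk
      simp only [birkhoffSum, Finset.sum_sub_distrib, Finset.sum_const, Finset.card_range,
        nsmul_eq_mul] at hk ⊢
      linarith
  · have q : 0 < (2 / l) ^ (p - 1) := Real.rpow_pos_of_pos (by positivity) _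
    have pt : ∀ x, h x - l ≤ (2 / l) ^ (p - 1) * h x ^ p - l / 2 := by
      intro x
      rcases le_total (h x) (l / 2) with c | c
      · have : 0 ≤ (2 / l) ^ (p - 1) * h x ^ p := mul_nonneg q.le (Real.rpow_nonneg (h0 x) _)
        linarith
      · have x0 : 0 < h x := by linarith
        have e : (2 / l) ^ (p - 1) * h x ^ p = (2 / l * h x) ^ (p - 1) * h x := by
          rw [Real.mul_rpow (by positivity) x0.le, mul_assoc, ← Real.rpow_add_one x0.ne',
            sub_add_cancel]
        have o : 1 ≤ (2 / l * h x) ^ (p - 1) := Real.one_le_rpow (by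
          rw [div_mul_eq_mul_div, le_div_iff₀ hl]; linarith) (by linarith)
        rw [e]
        nlinarith
    have a : 0 ≤ ∫ x in E, ((2 / l) ^ (p - 1) * h x ^ p - l / 2) ∂μ := le_trans mx (integral_mono (hi.sub (integrable_const l)).integrableOn
      ((hpi.const_mul _).sub (integrable_const _)).integrableOn pt)
    rw [integral_sub (hpi.const_mul _).integrableOn (integrable_const _).integrableOn,
      integral_const_mul, integral_const, measureReal_restrict_apply_univ, smul_eq_mul] at a
    have b : ∫ x in E, h x ^ p ∂μ ≤ ∫ x, h x ^ p ∂μ :=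
      setIntegral_le_integral hpi (Eventually.of_forall (fun x => Real.rpow_nonneg (h0 x) _))
    have e : (2 / l) ^ p = 2 / l * (2 / l) ^ (p - 1) := by
      rw [mul_comm, ← Real.rpow_add_one (by positivity), sub_add_cancel]
    rw [e, mul_assoc, div_mul_eq_mul_div, le_div_iff₀ hl]
    nlinarith [mul_le_mul_of_nonneg_left b q.le]

lemma dom [IsProbabilityMeasure μ] (hT : MeasurePreserving T μ μ) {h : X → ℝ} (hm : Measurable h)
    (h0 : ∀ x, 0 ≤ h x) (hi : Integrable h μ) (p : ℝ) (hp : 1 < p)
    (hpi : Integrable (fun x => h x ^ p) μ) :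
    ∃ H : X → ℝ, Integrable H μ ∧ ∀ᵐ x ∂μ, ∀ k, birkhoffAverage ℝ T h k x ≤ H x := by
  choose E Em E1 E2 using fun j : ℕ => weak hT hm h0 hi p hp hpi (2 ^ j) (by positivity)
  set C := ∫ x, h x ^ p ∂μ with hC
  have C0 : 0 ≤ C := integral_nonneg (fun x => Real.rpow_nonneg (h0 x) _)
  set u : ℕ → X → ℝ := fun j => (E j).indicator (fun _ => (2 : ℝ) ^ (j + 1)) with hu
  have ui : ∀ j, Integrable (u j) μ := fun j => (integrable_const _).indicator (Em j)
  have u0 : ∀ j x, 0 ≤ u j x := fun j x => indicator_nonneg (fun _ _ => by positivity) x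
  have r1 : (2 : ℝ) * (1 / 2) ^ p < 1 := by
    have : (1 / 2 : ℝ) ^ p < (1 / 2) ^ (1 : ℝ) :=
      Real.rpow_lt_rpow_of_exponent_gt (by norm_num) (by norm_num) hp
    rw [Real.rpow_one] at this
    linarith
  have su : Summable (fun j => ∫ x, ‖u j x‖ ∂μ) := by
    refine Summable.of_nonneg_of_le (fun j => integral_nonneg (fun _ => norm_nonneg _))
      (fun j => ?_) ((summable_geometric_of_lt_one (by positivity) r1).mul_right (2 * 2 ^ p * C))
    simp only [Real.norm_eq_abs, abs_of_nonneg (u0 j _)]
    rw [hu, integral_indicator_const _ (Em j), smul_eq_mul]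
    refine le_trans (mul_le_mul_of_nonneg_right (E2 j) (by positivity)) (le_of_eq ?_)
    rw [div_eq_mul_one_div, ← one_div_pow, Real.mul_rpow (by norm_num) (by positivity),
      ← Real.rpow_pow_comm (by norm_num), mul_pow]
    ring
  have en : ∑' j, ∫⁻ x, ‖u j x‖ₑ ∂μ ≠ ∞ := by
    simp only [← ofReal_integral_norm_eq_lintegral_enorm (ui _)]
    rw [← ENNReal.ofReal_tsum_of_nonneg (fun j => integral_nonneg (fun _ => norm_nonneg _)) su]
    exact ENNReal.ofReal_ne_top
  set G : X → ℝ≥0∞ := fun x => ∑' j, ‖u j x‖ₑ with hG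
  have Gm : Measurable G := Measurable.ennreal_tsum (fun j =>
    (measurable_const.indicator (Em j)).enorm)
  have Gf : ∫⁻ x, G x ∂μ ≠ ∞ := by
    rw [hG, lintegral_tsum (fun j => (ui j).aestronglyMeasurable.enorm)]
    exact en
  refine ⟨fun x => 1 + (G x).toReal, (integrable_const _).add
    (integrable_toReal_of_lintegral_ne_top Gm.aemeasurable Gf), ?_⟩
  filter_upwards [ae_lt_top Gm Gf] with x hx k
  rcases le_or_gt (birkhoffAverage ℝ T h k x) 1 with c | c
  · linarith [ENNReal.toReal_nonneg (a := G x)]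
  · obtain ⟨j, j1, j2⟩ := exists_nat_pow_near_of_lt_one (x := (birkhoffAverage ℝ T h k x)⁻¹)
      (y := (1 / 2 : ℝ)) (by positivity) (inv_le_one_of_one_le₀ c.le) (by norm_num) (by norm_num)
    rw [one_div, inv_pow, inv_lt_inv₀ (by positivity) (by positivity)] at j1
    rw [one_div, inv_pow, inv_le_inv₀ (by positivity) (by positivity)] at j2
    cases j with
    | zero =>
      have := ENNReal.toReal_mono hx.ne (ENNReal.le_tsum (f := fun j => ‖u j x‖ₑ) 0)
      rw [toReal_enorm, hu] at this
      simp only [indicator_of_mem (E1 0 x k (by simpa using c)), Real.norm_eq_abs] at this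
      rw [abs_of_pos (by positivity)] at this
      linarith
    | succ j =>
      have m1 : x ∈ E j := E1 j x k (lt_of_lt_of_le (by rw [pow_succ]; nlinarith [show (0 : ℝ) < 2 ^ j by positivity]) j2)
      by_cases m2 : x ∈ E (j + 1)
      · have := ENNReal.toReal_mono hx.ne (ENNReal.le_tsum (f := fun j => ‖u j x‖ₑ) (j + 1))
        rw [toReal_enorm, hu] at this
        simp only [indicator_of_mem m2, Real.norm_eq_abs] at this
        rw [abs_of_pos (by positivity)] at this
        linarith
      · have := ENNReal.toReal_mono hx.ne (ENNReal.le_tsum (f := fun j => ‖u j x‖ₑ) j)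
        rw [toReal_enorm, hu] at this
        simp only [indicator_of_mem m1, Real.norm_eq_abs] at this
        rw [abs_of_pos (by positivity)] at this
        have : birkhoffAverage ℝ T h k x ≤ 2 ^ (j + 1) := not_lt.1 (fun hh => m2 (E1 _ x k hh))
        linarith

end Pool.Agent.H27.Bk
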