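import Pool.Agent.H27.Bk2

set_option autoImplicit false

namespace Pool.Agent.H27.Bk

open MeasureTheory Filter Topology Set Metric
open scoped ENNReal

variable {X : Type} [MetricSpace X] [MeasurableSpace X]

/-- Average of `f` over the open ball. -/
noncomputable def avg (μ : Measure X) (x : X) (r : ℝ) (f : X → ℝ) : ℝ :=
  (μ.real (ball x r))⁻¹ * ∫ y in ball x r, f y ∂μ

/-- The Lebesgue differentiation property. -/
def LDP (μ : Measure X) : Prop :=
  ∀ f : X → ℝ, Integrable f μ → ∀ᵐ x ∂μ, Tendsto (fun r => avg μ x r f) (𝓝[>] 0) (𝓝 (f x))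

lemma A_int {μ : Measure X} {T : X → X} (hT : MeasurePreserving T μ μ) {f : X → ℝ}
    (fi : Integrable f μ) (k : ℕ) : Integrable (fun x => birkhoffAverage ℝ T f k x) μ := by
  simp only [birkhoffAverage, birkhoffSum, smul_eq_mul]
  exact (integrable_finsetSum _ (fun i _ =>
    (hT.iterate i).integrable_comp_of_integrable fi)).const_mul _

theorem main_meas (μ : Measure X) [IsProbabilityMeasure μ] (hμ : LDP μ) (T : X → X)
    (hT : MeasurePreserving T μ μ) (p : ℝ) (hp : 1 < p) (f : X → ℝ) (hf : Measurable f)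
    (fp : MemLp f (ENNReal.ofReal p) μ) :
    ∀ᵐ x ∂μ, ∀ ε : ℝ, 0 < ε → ∃ δ : ℝ, 0 < δ ∧ ∃ K : ℕ, ∀ r : ℝ, 0 < r → r < δ → ∀ k : ℕ, K ≤ k →
      |avg μ x r (fun y => birkhoffAverage ℝ T f k y) -
        (μ[f | MeasurableSpace.invariants T]) x| < ε := by
  have fi : Integrable f μ := fp.integrable (by simpa using hp.le)
  have f2 : Integrable (fun x => |f x| ^ p) μ := by
    have := fp.integrable_norm_rpow (by simp; linarith) ENNReal.ofReal_ne_top
    simpa [ENNReal.toReal_ofReal (show 0 ≤ p by linarith)] using this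
  obtain ⟨H, Hi, hH⟩ := dom hT hf.abs (fun x => abs_nonneg _) fi.abs p hp f2
  set F := μ[f | MeasurableSpace.invariants T] with hF
  have Fm : Measurable F :=
    (stronglyMeasurable_condExp.mono (MeasurableSpace.invariants_le T)).measurable
  have Fi : Integrable F μ := integrable_condExp
  set d : ℕ → X → ℝ := fun k x => |birkhoffAverage ℝ T f k x - F x| with hd
  have dm : ∀ k, Measurable (d k) := fun k => ((A_meas hT.measurable hf k).sub Fm).abs
  have db : ∀ᵐ x ∂μ, ∀ k, d k x ≤ H x + |F x| := by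
    filter_upwards [hH] with x hx k
    refine le_trans (abs_sub _ _) (add_le_add (le_trans ?_ (hx k)) le_rfl)
    simp only [birkhoffAverage, birkhoffSum, smul_eq_mul, abs_mul, abs_inv, Nat.abs_cast]
    exact mul_le_mul_of_nonneg_left (Finset.abs_sum_le_sum_abs _ _) (by positivity)
  set g : ℕ → X → ℝ := fun K x => ⨆ k, d (k + K) x with hg
  have gl : ∀ᵐ x ∂μ, ∀ K k, K ≤ k → d k x ≤ g K x := by
    filter_upwards [db] with x hx K k hk
    have := le_ciSup (f := fun k => d (k + K) x) ⟨_, by rintro _ ⟨k, rfl⟩; exact hx _⟩ (k - K)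
    rwa [Nat.sub_add_cancel hk] at this
  have gi : ∀ K, Integrable (g K) μ := fun K =>
    Integrable.mono' (Hi.add Fi.abs) (Measurable.iSup (fun k => dm _)).aestronglyMeasurable (by
      filter_upwards [db] with x hx
      rw [Real.norm_eq_abs, abs_of_nonneg (Real.iSup_nonneg (fun k => abs_nonneg _))]
      exact ciSup_le (fun k => hx _))
  filter_upwards [ae_all_iff.2 (fun K => hμ (g K) (gi K)), hμ F Fi, birkhoff hT hf fi]
    with x h1 h2 h3 ε hε
  obtain ⟨K, hK⟩ := eventually_atTop.1 (h3 (ε / 3) (by positivity))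
  have gK : g K x ≤ ε / 3 := ciSup_le (fun k => hK _ (Nat.le_add_left _ _))
  have a1 := (h1 K).eventually_lt_const (show g K x < 2 * ε / 3 by linarith)
  have a2 := Metric.tendsto_nhds.1 h2 (ε / 3) (by positivity)
  obtain ⟨δ, δ0, hδ⟩ := Metric.mem_nhdsWithin_iff.1 (a1.and a2)
  refine ⟨δ, δ0, K, fun r r0 r1 k hk => ?_⟩
  obtain ⟨b1, b2⟩ := hδ ⟨by rw [mem_ball, Real.dist_eq, sub_zero, abs_of_pos r0]; exact r1, r0⟩
  rw [Real.dist_eq] at b2
  have b3 : |avg μ x r (fun y => birkhoffAverage ℝ T f k y) - avg μ x r F| ≤ avg μ x r (g K) := by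
    simp only [avg]
    rw [← mul_sub, abs_mul, abs_of_nonneg (inv_nonneg.2 measureReal_nonneg),
      ← integral_sub (A_int hT fi k).integrableOn Fi.integrableOn]
    refine mul_le_mul_of_nonneg_left (le_trans abs_integral_le_integral_abs ?_)
      (inv_nonneg.2 measureReal_nonneg)
    exact integral_mono_ae ((A_int hT fi k).sub Fi).abs.integrableOn (gi K).integrableOn
      (ae_restrict_of_ae (gl.mono (fun y hy => hy K k hk)))
  have := abs_sub_le (avg μ x r (fun y => birkhoffAverage ℝ T f k y)) (avg μ x r F) (F x)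
  linarith

theorem main (μ : Measure X) [IsProbabilityMeasure μ] (hμ : LDP μ) (T : X → X)
    (hT : MeasurePreserving T μ μ) (p : ℝ) (hp : 1 < p) (f : X → ℝ)
    (fp : MemLp f (ENNReal.ofReal p) μ) :
    ∀ᵐ x ∂μ, ∀ ε : ℝ, 0 < ε → ∃ δ : ℝ, 0 < δ ∧ ∃ K : ℕ, ∀ r : ℝ, 0 < r → r < δ → ∀ k : ℕ, K ≤ k →
      |avg μ x r (fun y => birkhoffAverage ℝ T f k y) -
        (μ[f | MeasurableSpace.invariants T]) x| < ε := by
  have m := fp.aestronglyMeasurable
  have e := m.ae_eq_mk
  have e2 : ∀ k x r, avg μ x r (fun y => birkhoffAverage ℝ T f k y) =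
      avg μ x r (fun y => birkhoffAverage ℝ T (m.mk f) k y) := by
    intro k x r
    simp only [avg]
    congr 1
    refine integral_congr_ae (ae_restrict_of_ae ?_)
    filter_upwards [ae_all_iff.2 (fun i : ℕ =>
      (hT.iterate i).quasiMeasurePreserving.ae_eq_comp e)] with y hy
    simp only [birkhoffAverage, birkhoffSum]
    congr 1
    exact Finset.sum_congr rfl (fun i _ => hy i)
  filter_upwards [main_meas μ hμ T hT p hp _ m.stronglyMeasurable_mk.measurable
    (fp.ae_eq e), condExp_congr_ae (m := MeasurableSpace.invariants T) e] with x h1 h2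
  simp only [e2, h2]
  exact h1

end Pool.Agent.H27.Bk
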