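import Mathlib

set_option autoImplicit false

namespace Pool.Agent.H27.Broken

open Set Filter Topology

/-- the broken-linear homeomorphism -/
noncomputable def T (x : ℝ) : ℝ := max (x / 2) (2 * x - 1)

theorem T_cont : Continuous T := by unfold T; fun_prop

theorem T_left {x : ℝ} (h : x ≤ 2 / 3) : T x = x / 2 := max_eq_left (by linarith)

theorem T_right {x : ℝ} (h : 2 / 3 ≤ x) : T x = 2 * x - 1 := max_eq_right (by linarith)

theorem T_strictMono : StrictMono T := fun x y h =>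
  max_lt_max (by linarith) (by linarith)

theorem T_bij : BijOn T (Icc 0 1) (Icc 0 1) := by
  have h0 : T 0 = 0 := by rw [T_left (by norm_num)]; norm_num
  have h1 : T 1 = 1 := by rw [T_right (by norm_num)]; norm_num
  refine ⟨fun x hx => ⟨h0 ▸ T_strictMono.monotone hx.1, h1 ▸ T_strictMono.monotone hx.2⟩,
    T_strictMono.injective.injOn, ?_⟩
  have := intermediate_value_Icc (zero_le_one' ℝ) T_cont.continuousOn
  rwa [h0, h1] at this

theorem T_pieces : ∃ (m : ℕ) (a : Fin (m + 1) → ℝ), StrictMono a ∧ a 0 = 0 ∧ a (Fin.last m) = 1 ∧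
    ∀ j : Fin m, ∃ c d : ℝ, ∀ x ∈ Icc (a j.castSucc) (a j.succ), T x = c * x + d := by
  refine ⟨2, ![0, 2 / 3, 1], ?_, rfl, rfl, fun j => ?_⟩
  · rw [Fin.strictMono_iff_lt_succ]
    intro i
    fin_cases i <;> simp <;> norm_num
  · fin_cases j
    · exact ⟨1 / 2, 0, fun x hx => by rw [T_left (by simpa using hx.2)]; ring⟩
    · exact ⟨2, -1, fun x hx => by rw [T_right (by simpa using hx.1)]; ring⟩

theorem iter_left {q : ℝ} (h0 : 0 < q) (h : q ≤ 2 / 3) (i : ℕ) : T^[i] q = q / 2 ^ i := by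
  induction i with
  | zero => simp
  | succ i ih =>
    rw [Function.iterate_succ_apply', ih, T_left, pow_succ, div_div]
    exact (div_le_self h0.le (one_le_pow₀ one_le_two)).trans h

theorem exists_enter {p : ℝ} (h0 : 0 < p) (h1 : p < 1) :
    ∃ n, 0 < T^[n] p ∧ T^[n] p ≤ 2 / 3 := by
  have hpos : ∀ n, 0 < T^[n] p := fun n => by
    induction n with
    | zero => exact h0
    | succ n ih => rw [Function.iterate_succ_apply']; exact lt_max_of_lt_left (by linarith)
  by_contra h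
  push Not at h
  have h2 : ∀ n, 1 - T^[n] p = 2 ^ n * (1 - p) := fun n => by
    induction n with
    | zero => simp
    | succ n ih =>
      rw [Function.iterate_succ_apply', T_right (h n (hpos n)).le, pow_succ]; linarith
  obtain ⟨n, hn⟩ := pow_unbounded_of_one_lt (1 / (1 - p)) (one_lt_two (α := ℝ))
  rw [div_lt_iff₀ (by linarith)] at hn
  linarith [h2 n, hpos n]

/-- minus the binary logarithm -/
noncomputable def lg (x : ℝ) : ℝ := -Real.logb 2 x

theorem lg_meas : Measurable lg := by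
  unfold lg Real.logb
  exact (Real.measurable_log.div_const _).neg

theorem lg_div {q : ℝ} (h0 : 0 < q) (i : ℕ) : lg (q / 2 ^ i) = lg q + i := by
  unfold lg
  rw [Real.logb_div h0.ne' (by positivity), Real.logb_pow, Real.logb_self_eq_one one_lt_two]
  ring

theorem lg_nonneg {q : ℝ} (h0 : 0 < q) (h1 : q ≤ 1) : 0 ≤ lg q :=
  neg_nonneg.2 (Real.logb_nonpos one_lt_two h0.le h1)

theorem lg_mem {p a b : ℝ} (h1 : (2 : ℝ) ^ (-b) < p) (h2 : p < (2 : ℝ) ^ (-a)) :
    a < lg p ∧ lg p < b := by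
  have h0 : 0 < p := lt_trans (by positivity) h1
  have h3 := (Real.logb_lt_iff_lt_rpow one_lt_two h0).2 h2
  have h4 := (Real.lt_logb_iff_rpow_lt one_lt_two h0).2 h1
  unfold lg
  constructor <;> linarith

theorem div_mem {q : ℝ} (h0 : 0 < q) (h : q ≤ 2 / 3) (i : ℕ) : q / 2 ^ i ∈ Ioc (0 : ℝ) 1 :=
  ⟨by positivity, (div_le_self h0.le (one_le_pow₀ one_le_two)).trans (by linarith)⟩

theorem no_density : ¬ ∃ L : ℝ, Tendsto (fun N : ℕ => (1 / (N : ℝ)) *
    ∑ i ∈ Finset.range N, if Even (Nat.log 2 i) then (1 : ℝ) else 0) atTop (𝓝 L) := by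
  rintro ⟨L, hL⟩
  set s : ℕ → ℝ := fun N => (1 / (N : ℝ)) *
    ∑ i ∈ Finset.range N, if Even (Nat.log 2 i) then (1 : ℝ) else 0 with hs
  have key : ∀ j : ℕ, 2 * s (2 ^ (j + 1)) - s (2 ^ j) = if Even j then 1 else 0 := by
    intro j
    have h1 : ∑ i ∈ Finset.Ico (2 ^ j) (2 ^ (j + 1)), (if Even (Nat.log 2 i) then (1 : ℝ) else 0) =
        2 ^ j * if Even j then 1 else 0 := by
      rw [Finset.sum_congr rfl (g := fun _ => if Even j then (1 : ℝ) else 0)]
      · rw [Finset.sum_const, Nat.card_Ico, nsmul_eq_mul]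
        have : (2 ^ (j + 1) - 2 ^ j : ℕ) = 2 ^ j := by
          rw [pow_succ, Nat.mul_two, Nat.add_sub_cancel]
        rw [this]; push_cast; rfl
      · intro i hi
        rw [Finset.mem_Ico] at hi
        rw [Nat.log_eq_of_pow_le_of_lt_pow hi.1 hi.2]
    have h2 := Finset.sum_range_add_sum_Ico (fun i => if Even (Nat.log 2 i) then (1 : ℝ) else 0)
      (Nat.pow_le_pow_right two_pos (Nat.le_succ j))
    simp only [hs]
    rw [← h2, h1]
    push_cast
    field_simp
    ring
  have hp : Tendsto (fun j : ℕ => 2 ^ j) atTop atTop := tendsto_pow_atTop_atTop_of_one_lt one_lt_two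
  have h3 : Tendsto (fun j : ℕ => 2 * s (2 ^ (j + 1)) - s (2 ^ j)) atTop (𝓝 (2 * L - L)) :=
    (((hL.comp hp).comp (tendsto_add_atTop_nat 1)).const_mul 2).sub (hL.comp hp)
  simp only [key] at h3
  have h4 : Tendsto (fun j : ℕ => 2 * j) atTop atTop := tendsto_id.const_mul_atTop' two_pos
  have h5 := h3.comp h4
  have h6 := h3.comp ((tendsto_add_atTop_nat 1).comp h4)
  have e5 : ((fun j : ℕ => if Even j then (1 : ℝ) else 0) ∘ fun j : ℕ => 2 * j) = fun _ => 1 := by
    ext j; simp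
  have e6 : ((fun j : ℕ => if Even j then (1 : ℝ) else 0) ∘ (fun j : ℕ => j + 1) ∘
      fun j : ℕ => 2 * j) = fun _ => 0 := by
    ext j; simp [Nat.even_add_one]
  rw [e5] at h5
  rw [e6] at h6
  have := (tendsto_nhds_unique h5 tendsto_const_nhds).symm.trans
    (tendsto_nhds_unique h6 tendsto_const_nhds)
  norm_num at this

theorem periodic_density (b : ℕ → ℝ) (n e k : ℕ) (hk : 0 < k)
    (hb : ∀ j, b (n + j) = if k ∣ e + j + 1 then 1 else 0) :
    Tendsto (fun N : ℕ => (1 / (N : ℝ)) * ∑ i ∈ Finset.range N, b i) atTop (𝓝 (1 / k)) := by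
  have h1 : ∀ M : ℕ, ∑ i ∈ Finset.range (n + M), b i =
      ∑ i ∈ Finset.range n, b i + (((e + M) / k : ℕ) : ℝ) - ((e / k : ℕ) : ℝ) := by
    intro M
    induction M with
    | zero => simp
    | succ M ih =>
      rw [← add_assoc, Finset.sum_range_succ, ih, hb, ← add_assoc, Nat.succ_div]
      split_ifs <;> push_cast <;> ring
  set C := ∑ i ∈ Finset.range n, b i - ((e / k : ℕ) : ℝ) + ((e : ℝ) - n) / k with hC
  have hk' : (0 : ℝ) < k := by exact_mod_cast hk
  have h2 : ∀ N : ℕ, n ≤ N → |∑ i ∈ Finset.range N, b i - N / k| ≤ |C| + 1 := by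
    intro N hN
    obtain ⟨M, rfl⟩ := Nat.exists_eq_add_of_le hN
    rw [h1]
    have h3 : (((e + M) / k : ℕ) : ℝ) ≤ ((e + M : ℕ) : ℝ) / k := Nat.cast_div_le
    have h4 : ((e + M : ℕ) : ℝ) / k < (((e + M) / k : ℕ) : ℝ) + 1 := by
      rw [div_lt_iff₀ hk']
      have h7 := Nat.lt_div_mul_add (a := e + M) hk
      have h8 : e + M < ((e + M) / k + 1) * k := by rw [add_mul, one_mul]; exact h7
      exact_mod_cast h8
    have h5 : ∑ i ∈ Finset.range n, b i + (((e + M) / k : ℕ) : ℝ) - ((e / k : ℕ) : ℝ) -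
        ((n + M : ℕ) : ℝ) / k = C + ((((e + M) / k : ℕ) : ℝ) - ((e + M : ℕ) : ℝ) / k) := by
      rw [hC]; push_cast; ring
    rw [h5]
    refine (abs_add_le _ _).trans (add_le_add_right ?_ _)
    rw [abs_le]; constructor <;> linarith
  rw [tendsto_iff_norm_sub_tendsto_zero]
  refine squeeze_zero' (Eventually.of_forall fun _ => norm_nonneg _) ?_
    (tendsto_const_div_atTop_nhds_zero_nat (|C| + 1))
  filter_upwards [eventually_ge_atTop (n + 1)] with N hN
  have hN0 : (0 : ℝ) < N := by exact_mod_cast (by omega : 0 < N)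
  have h6 : 1 / (N : ℝ) * ∑ i ∈ Finset.range N, b i - 1 / k =
      (∑ i ∈ Finset.range N, b i - N / k) / N := by field_simp
  rw [h6, Real.norm_eq_abs, abs_div, abs_of_pos hN0]
  exact div_le_div_of_nonneg_right (h2 N (by omega)) hN0.le

end Pool.Agent.H27.Broken
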