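import Mathlib

set_option autoImplicit false

open Filter Topology MeasureTheory Real

namespace Pool.Agent.H27.Bumps

/-- The Laplacian `u_xx + u_yy`. -/
noncomputable def lap (u : ℝ × ℝ → ℝ) (p : ℝ × ℝ) : ℝ :=
  iteratedDeriv 2 (fun t => u (t, p.2)) p.1 + iteratedDeriv 2 (fun t => u (p.1, t)) p.2

theorem d2 (c k l a b e x : ℝ) (hk : 0 < k) (hl : 0 < l) :
    iteratedDeriv 2 (fun t => c - log (k + (t - a) ^ 2) - log (l + (t - b) ^ 2) - e * t ^ 2) x =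
      -((2 * k - 2 * (x - a) ^ 2) / (k + (x - a) ^ 2) ^ 2) -
        (2 * l - 2 * (x - b) ^ 2) / (l + (x - b) ^ 2) ^ 2 - e * 2 := by
  have h : ∀ k a : ℝ, 0 < k → ∀ t, HasDerivAt (fun t => log (k + (t - a) ^ 2))
      (2 * (t - a) / (k + (t - a) ^ 2)) t ∧ HasDerivAt (fun t => 2 * (t - a) / (k + (t - a) ^ 2))
      ((2 * k - 2 * (t - a) ^ 2) / (k + (t - a) ^ 2) ^ 2) t := fun k a hk t => by
    have h1 := (((hasDerivAt_id' t).sub_const a).fun_pow 2).const_add k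
    have h2 : k + (t - a) ^ 2 ≠ 0 := by positivity
    refine ⟨by simpa using h1.log h2, ?_⟩
    convert! (((hasDerivAt_id' t).sub_const a).const_mul 2).fun_div h1 h2 using 1
    simp; ring
  have h3 : ∀ t : ℝ, HasDerivAt (fun t => e * t ^ 2) (e * 2 * t) t := fun t => by
    convert! (hasDerivAt_pow 2 t).const_mul e using 1
    simp; ring
  rw [iteratedDeriv_succ, iteratedDeriv_one, funext fun t =>
    ((((h k a hk t).1.const_sub c).fun_sub (h l b hl t).1).fun_sub (h3 t)).deriv]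
  simpa using (((h k a hk x).2.fun_neg.fun_sub (h l b hl x).2).fun_sub
    ((hasDerivAt_id' x).const_mul (e * 2))).deriv

/-- The example. -/
noncomputable def v (p : ℝ × ℝ) : ℝ :=
  log (79 * 10 ^ 11) - 2 / 10 ^ 15 * p.2 ^ 2 - log (1 + p.2 ^ 2 + (p.1 - 10 ^ 6) ^ 2) -
    log (1 + p.2 ^ 2 + (p.1 - -10 ^ 6) ^ 2) - 2 / 10 ^ 15 * p.1 ^ 2

theorem ev (p : ℝ × ℝ) : exp (v p) = 79 * 10 ^ 11 / (1 + p.2 ^ 2 + (p.1 - 10 ^ 6) ^ 2) /
    (1 + p.2 ^ 2 + (p.1 - -10 ^ 6) ^ 2) * exp (-(2 / 10 ^ 15 * (p.1 ^ 2 + p.2 ^ 2))) := by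
  rw [← exp_log (show (0 : ℝ) < 79 * 10 ^ 11 by norm_num),
    ← exp_log (show 0 < 1 + p.2 ^ 2 + (p.1 - 10 ^ 6) ^ 2 by positivity),
    ← exp_log (show 0 < 1 + p.2 ^ 2 + (p.1 - -10 ^ 6) ^ 2 by positivity),
    ← exp_sub, ← exp_sub, ← exp_add, v]
  congr 1; ring

theorem ev2 (p : ℝ × ℝ) : exp (2 * v p) ≤ (79 * 10 ^ 11 / (1 + p.2 ^ 2 + (p.1 - 10 ^ 6) ^ 2) /
    (1 + p.2 ^ 2 + (p.1 - -10 ^ 6) ^ 2)) ^ 2 := by
  rw [two_mul, exp_add, ← sq]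
  refine pow_le_pow_left₀ (exp_pos _).le ?_ 2
  rw [ev]
  exact mul_le_of_le_one_right (by positivity) (exp_le_one_iff.2 (neg_nonpos.2 (by positivity)))

theorem smooth : ContDiff ℝ 2 v := by unfold v; fun_prop (disch := intros; positivity)

theorem integ : Integrable fun p => exp (2 * v p) := by
  refine (((integrable_inv_one_add_sq.comp_sub_right (10 ^ 6)).mul_prod
    integrable_inv_one_add_sq).const_mul ((79 * 10 ^ 11) ^ 2)).mono' (by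
      have := smooth.continuous; fun_prop) (.of_forall fun p => ?_)
  rw [Real.norm_of_nonneg (exp_pos _).le]
  refine (ev2 p).trans ?_
  rw [div_div, div_pow, ← mul_inv, div_eq_mul_inv]
  have h1 : (1 + (p.1 - 10 ^ 6) ^ 2) * (1 + p.2 ^ 2) ≤
      (1 + p.2 ^ 2 + (p.1 - 10 ^ 6) ^ 2) * (1 + p.2 ^ 2 + (p.1 - -10 ^ 6) ^ 2) := by
    refine mul_le_mul ?_ ?_ (by positivity) (by positivity) <;>
      linarith [sq_nonneg p.2, sq_nonneg (p.1 - -10 ^ 6)]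
  have h2 : 1 ≤ (1 + (p.1 - 10 ^ 6) ^ 2) * (1 + p.2 ^ 2) :=
    one_le_mul_of_one_le_of_one_le (by nlinarith) (by nlinarith)
  gcongr
  nlinarith

theorem super (p : ℝ × ℝ) : lap v p + exp (2 * v p) ≤ 0 := by
  have e : (fun t => v (p.1, t)) = fun t => log (79 * 10 ^ 11) - 2 / 10 ^ 15 * p.1 ^ 2 -
      log (1 + (p.1 - 10 ^ 6) ^ 2 + (t - 0) ^ 2) -
      log (1 + (p.1 - -10 ^ 6) ^ 2 + (t - 0) ^ 2) - 2 / 10 ^ 15 * t ^ 2 := by
    ext t; simp only [v, sub_zero, add_right_comm]; ring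
  refine (add_le_add_right (ev2 p) _).trans ?_
  rw [lap, e, d2 _ _ _ _ _ _ _ (by positivity) (by positivity)]
  simp only [v]
  rw [d2 _ _ _ _ _ _ _ (by positivity) (by positivity), sub_zero,
    add_right_comm 1 ((p.1 - 10 ^ 6) ^ 2), add_right_comm 1 ((p.1 - -10 ^ 6) ^ 2)]
  have h1 : 2 * 10 ^ 12 ≤ (1 + p.2 ^ 2 + (p.1 - 10 ^ 6) ^ 2) +
      (1 + p.2 ^ 2 + (p.1 - -10 ^ 6) ^ 2) := by nlinarith [sq_nonneg p.1, sq_nonneg p.2]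
  have h2 : 0 < 1 + p.2 ^ 2 + (p.1 - 10 ^ 6) ^ 2 := by positivity
  have h3 : 0 < 1 + p.2 ^ 2 + (p.1 - -10 ^ 6) ^ 2 := by positivity
  have h5 : 1 + p.2 ^ 2 + (p.1 - 10 ^ 6) ^ 2 ≤ 10 ^ 8 →
      395 * 10 ^ 10 ≤ 1 + p.2 ^ 2 + (p.1 - -10 ^ 6) ^ 2 := fun h => by
    have : 99 * 10 ^ 4 ≤ p.1 := by nlinarith [sq_nonneg p.2]
    nlinarith [sq_nonneg p.2]
  have h6 : 1 + p.2 ^ 2 + (p.1 - -10 ^ 6) ^ 2 ≤ 10 ^ 8 →
      395 * 10 ^ 10 ≤ 1 + p.2 ^ 2 + (p.1 - 10 ^ 6) ^ 2 := fun h => by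
    have : p.1 ≤ -(99 * 10 ^ 4) := by nlinarith [sq_nonneg p.2]
    nlinarith [sq_nonneg p.2]
  generalize 1 + p.2 ^ 2 + (p.1 - 10 ^ 6) ^ 2 = P at *
  generalize 1 + p.2 ^ 2 + (p.1 - -10 ^ 6) ^ 2 = Q at *
  have h7 : (79 * 10 ^ 11 : ℝ) ^ 2 ≤ 4 * Q ^ 2 + 4 * P ^ 2 + 8 / 10 ^ 15 * (P * Q) ^ 2 := by
    rcases le_total P (10 ^ 8) with a | a
    · nlinarith [h5 a, sq_nonneg P, sq_nonneg (P * Q)]
    rcases le_total Q (10 ^ 8) with b | b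
    · nlinarith [h6 b, sq_nonneg Q, sq_nonneg (P * Q)]
    have : 10 ^ 20 ≤ P * Q := by nlinarith
    nlinarith [sq_nonneg P, sq_nonneg Q]
  have h4 : (79 * 10 ^ 11 / P / Q) ^ 2 ≤ 4 / P ^ 2 + 4 / Q ^ 2 + 8 / 10 ^ 15 := by
    rw [div_div, div_pow, div_le_iff₀ (by positivity)]
    refine h7.trans_eq ?_
    field_simp
  refine (add_le_add_right h4 _).trans_eq ?_
  ring

theorem near {a : ℝ} (ha : a = 10 ^ 6 ∨ a = -10 ^ 6) {p : ℝ × ℝ}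
    (h : p.2 ^ 2 + (p.1 - a) ^ 2 ≤ 25) : 197 / 100 / (1 + p.2 ^ 2 + (p.1 - a) ^ 2) ≤ exp (v p) := by
  have h1 : |p.1 - a| ≤ 5 := abs_le_of_sq_le_sq' (by nlinarith [sq_nonneg p.2]) (by norm_num) |>
    abs_le.2
  have h2 : p.2 ^ 2 ≤ 25 := by nlinarith [sq_nonneg (p.1 - a)]
  rw [abs_le] at h1
  have h3 : 9979 / 10000 ≤ exp (-(2 / 10 ^ 15 * (p.1 ^ 2 + p.2 ^ 2))) := by
    refine le_trans ?_ (add_one_le_exp _)
    rcases ha with rfl | rfl <;> nlinarith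
  rw [ev]
  refine le_trans ?_ (mul_le_mul_of_nonneg_left h3 (by positivity))
  rcases ha with rfl | rfl
  · rw [div_right_comm (79 * 10 ^ 11), div_mul_eq_mul_div]
    gcongr ?_ / _
    rw [div_mul_eq_mul_div, le_div_iff₀ (by positivity)]
    nlinarith
  · rw [div_mul_eq_mul_div (_ / _)]
    gcongr ?_ / _
    rw [div_mul_eq_mul_div, le_div_iff₀ (by positivity)]
    nlinarith

end Pool.Agent.H27.Bumps
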