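import Mathlib

namespace Pool.Agent.H27.CMeas

open MeasureTheory Filter Finset
open scoped FourierTransform RealInnerProductSpace Topology SchwartzMap

/-- A complex Radon measure in polar form: total variation `tv` and a unimodular phase. -/
structure CMeas (V : Type) [TopologicalSpace V] [MeasurableSpace V] where
  tv : Measure V
  loc : IsLocallyFiniteMeasure tv
  ph : V → ℂ
  meas : Measurable ph
  uni : ∀ x, ‖ph x‖ = 1

/-- the action `μ(g)` of the measure on a function -/
noncomputable def CMeas.app {V : Type} [TopologicalSpace V] [MeasurableSpace V] (μ : CMeas V)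
    (g : V → ℂ) : ℂ := ∫ x, g x * μ.ph x ∂μ.tv

/-- continuous compactly supported functions -/
def Cc {V : Type} [TopologicalSpace V] (g : V → ℂ) : Prop := Continuous g ∧ HasCompactSupport g

variable {V : Type} [NormedAddCommGroup V] [InnerProductSpace ℝ V] [FiniteDimensional ℝ V]
  [MeasurableSpace V] [BorelSpace V]

open Classical in
noncomputable def ofDens (ρ : V → ℂ) (h : Continuous ρ) : CMeas V where
  tv := volume.withDensity fun x => ‖ρ x‖ₑ
  loc := IsLocallyFiniteMeasure.withDensity_coe (f := fun x => ‖ρ x‖₊) h.nnnorm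
  ph := fun x => if ρ x = 0 then 1 else ρ x / ‖ρ x‖
  meas := Measurable.ite (h.measurable (measurableSet_singleton 0)) measurable_const
    (h.measurable.div (Complex.measurable_ofReal.comp h.norm.measurable))
  uni := fun x => by
    split_ifs with hx
    · simp
    · simp [hx]

lemma app_ofDens (ρ : V → ℂ) (h : Continuous ρ) (g : V → ℂ) :
    (ofDens ρ h).app g = ∫ x, g x * ρ x := by
  unfold CMeas.app ofDens
  simp only
  have := integral_withDensity_eq_integral_smul (μ := (volume : Measure V))
    (f := fun x => ‖ρ x‖₊) h.nnnorm.measurable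
    (fun x => g x * (open Classical in if ρ x = 0 then 1 else ρ x / ‖ρ x‖))
  refine this.trans ?_
  congr 1; ext x
  split_ifs with hx
  · simp [hx]
  · have : (‖ρ x‖ : ℂ) ≠ 0 := by simpa using hx
    rw [NNReal.smul_def, Complex.real_smul, coe_nnnorm]; field_simp

lemma finite_ofDens (ρ : V → ℂ) (h : Continuous ρ) (hi : Integrable ρ) :
    IsFiniteMeasure (ofDens ρ h).tv := isFiniteMeasure_withDensity hi.2.ne

lemma tv_ofDens (ρ : V → ℂ) (h : Continuous ρ) {s : Set V} (hs : MeasurableSet s) :
    (ofDens ρ h).tv s = ∫⁻ x in s, ‖ρ x‖ₑ := withDensity_apply _ hs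

lemma dual (ρ : V → ℂ) (hc : Continuous ρ) (hi : Integrable ρ) (hF : Integrable (𝓕 ρ))
    (g : V → ℂ) (hg : Integrable g) : ∫ x, g x * ρ x = ∫ y, 𝓕⁻ g y * 𝓕 ρ y := by
  have := VectorFourier.integral_bilin_fourierIntegral_eq_flip (ContinuousLinearMap.mul ℂ ℂ)
    (L := -innerₗ V) (e := Real.fourierChar) (μ := volume) (ν := volume)
    Real.continuous_fourierChar (by simpa using! continuous_inner.neg) hg hF
  have h2 : VectorFourier.fourierIntegral Real.fourierChar volume (-innerₗ V).flip (𝓕 ρ) = ρ := by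
    rw [← hc.fourierInv_fourier_eq hi hF]
    ext x
    rw [hc.fourierInv_fourier_eq hi hF]
    conv_rhs => rw [← hc.fourierInv_fourier_eq hi hF]
    rw [Real.fourierInv_eq]
    simp [VectorFourier.fourierIntegral, real_inner_comm]
  rw [h2] at this
  exact this.symm

lemma cont_inv (g : V → ℂ) (hg : Integrable g) : Continuous (𝓕⁻ g) :=
  VectorFourier.fourierIntegral_continuous (L := -innerₗ V) Real.continuous_fourierChar
    (by simpa using! continuous_inner.neg) hg

lemma norm_inv_le (g : V → ℂ) (y : V) : ‖𝓕⁻ g y‖ ≤ ∫ x, ‖g x‖ :=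
  VectorFourier.norm_fourierIntegral_le_integral_norm _ _ (-innerₗ V) g y

/-- a finite combination of translates of `φ` along multiples of `v` -/
noncomputable def comb (φ : 𝓢(V, ℂ)) (v : V) (p : Polynomial ℂ) (x : V) : ℂ :=
  ∑ j ∈ p.support, p.coeff j * φ (x - (j : ℝ) • v)

noncomputable def z (v y : V) : ℂ := Complex.exp (-2 * Real.pi * ⟪y, v⟫ * Complex.I)

lemma norm_z (v y : V) : ‖z v y‖ = 1 := by
  unfold z
  have := Complex.norm_exp_ofReal_mul_I (-2 * Real.pi * ⟪y, v⟫)
  push_cast at this
  exact this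

lemma cont_z (v : V) : Continuous (z v) := by unfold z; fun_prop

lemma comb_cont (φ : 𝓢(V, ℂ)) (v : V) (p : Polynomial ℂ) : Continuous (comb φ v p) := by
  unfold comb
  have := φ.continuous
  fun_prop

lemma comb_int (φ : 𝓢(V, ℂ)) (v : V) (p : Polynomial ℂ) : Integrable (comb φ v p) :=
  integrable_finset_sum _ fun j _ => (φ.integrable.comp_sub_right _).const_mul _

lemma fourier_comb (φ : 𝓢(V, ℂ)) (v : V) (p : Polynomial ℂ) (y : V) :
    𝓕 (comb φ v p) y = p.eval (z v y) * 𝓕 (φ : V → ℂ) y := by
  rw [Real.fourier_eq, Polynomial.eval_eq_sum, Polynomial.sum, sum_mul]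
  unfold comb
  simp only [smul_sum]
  rw [integral_finset_sum]
  · refine sum_congr rfl fun j _ => ?_
    have := congrFun (VectorFourier.fourierIntegral_comp_add_right Real.fourierChar
      (volume : Measure V) (innerₗ V) (φ : V → ℂ) (-((j : ℝ) • v))) y
    have e : ∫ x, Real.fourierChar (-⟪x, y⟫) • (p.coeff j * φ (x - (j : ℝ) • v)) =
        p.coeff j * ∫ x, Real.fourierChar (-⟪x, y⟫) • φ (x - (j : ℝ) • v) := by
      rw [← integral_const_mul]; congr 1; ext x; simp [Circle.smul_def]; ring
    rw [e, mul_assoc]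
    congr 1
    simp only [VectorFourier.fourierIntegral, Function.comp, ← sub_eq_add_neg, innerₗ_apply_apply]
      at this
    rw [this, Real.fourier_eq, Circle.smul_def, smul_eq_mul]
    congr 1
    rw [Real.fourierChar_apply, z, ← Complex.exp_nat_mul, inner_neg_left, real_inner_smul_left,
      real_inner_comm]
    congr 1; push_cast; ring
  · intro j _
    exact (Real.fourierIntegral_convergent_iff y).2 ((φ.integrable.comp_sub_right _).const_mul _)

lemma fourier_comb_cont (φ : 𝓢(V, ℂ)) (v : V) (p : Polynomial ℂ) :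
    Continuous (𝓕 (comb φ v p)) :=
  VectorFourier.fourierIntegral_continuous (L := innerₗ V) Real.continuous_fourierChar
    continuous_inner (comb_int φ v p)

lemma fourier_comb_int (φ : 𝓢(V, ℂ)) (v : V) (p : Polynomial ℂ) :
    Integrable (𝓕 (comb φ v p)) := by
  have h1 : Integrable (𝓕 (φ : V → ℂ)) := (𝓕 φ).integrable
  have : 𝓕 (comb φ v p) = fun y => p.eval (z v y) * 𝓕 (φ : V → ℂ) y := funext (fourier_comb φ v p)
  rw [this]
  refine h1.bdd_mul (c := ∑ j ∈ p.support, ‖p.coeff j‖)
    (p.continuous.comp (cont_z v)).aestronglyMeasurable (Eventually.of_forall fun y => ?_)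
  rw [Polynomial.eval_eq_sum, Polynomial.sum]
  refine (norm_sum_le _ _).trans (le_of_eq (sum_congr rfl fun j _ => ?_))
  rw [norm_mul, norm_pow, norm_z, one_pow, mul_one]

/-- a smooth bump supported in the unit ball with a nonzero Fourier transform -/
lemma exists_bump : ∃ φ : 𝓢(V, ℂ), (∀ x, 1 ≤ ‖x‖ → φ x = 0) ∧ ∃ y, 𝓕 (φ : V → ℂ) y ≠ 0 := by
  let b : ContDiffBump (0 : V) := ⟨1 / 2, 1, by norm_num, by norm_num⟩
  have h1 : HasCompactSupport fun x => (b x : ℂ) :=
    b.hasCompactSupport.comp_left (g := fun r : ℝ => (r : ℂ)) (by simp)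
  have h2 : ContDiff ℝ (⊤ : ℕ∞) fun x => (b x : ℂ) := Complex.ofRealCLM.contDiff.comp b.contDiff
  refine ⟨h1.toSchwartzMap h2, fun x hx => ?_, ?_⟩
  · have : b x = 0 := b.zero_of_le_dist (by simpa using hx)
    simp [this]
  · by_contra hn
    push Not at hn
    set φ := h1.toSchwartzMap h2
    have e : 𝓕 (φ : V → ℂ) = 0 := funext hn
    have := φ.continuous.fourierInv_fourier_eq φ.integrable (𝓕 φ).integrable
    rw [e] at this
    have h0 := congrFun this 0
    have : φ 0 = 1 := by
      have : b 0 = 1 := b.one_of_mem_closedBall (by simp [b])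
      simp [φ, this]
    rw [this, Real.fourierInv_eq] at h0
    simp at h0

end Pool.Agent.H27.CMeas
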