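import Mathlib

set_option autoImplicit false

open Filter Topology OnePoint

namespace Pool.Agent.H27.Cone

/-- A closed cone in a real normed space. -/
structure IsCone {X : Type*} [NormedAddCommGroup X] [NormedSpace ℝ X] (C : Set X) : Prop where
  closed : IsClosed C
  add : ∀ x ∈ C, ∀ y ∈ C, x + y ∈ C
  smul : ∀ t : ℝ, 0 ≤ t → ∀ x ∈ C, t • x ∈ C
  pointed : ∀ x, (x ∈ C ∧ -x ∈ C) ↔ x = 0

/-- The space of the example. -/
abbrev X := C(OnePoint ℕ, ℝ) × ℝ

/-- The cone of the example. -/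
def K : Set X := {p | (∀ t, 0 ≤ p.1 t) ∧ 0 ≤ p.2 ∧ p.2 ≤ p.1 ∞}

theorem isCone : IsCone K where
  closed := by
    refine IsClosed.inter ?_ ((isClosed_le continuous_const continuous_snd).inter
      (isClosed_le continuous_snd (by fun_prop)))
    show IsClosed {p : X | ∀ t, 0 ≤ p.1 t}
    rw [Set.setOf_forall]
    exact isClosed_iInter fun t => isClosed_le continuous_const (by fun_prop)
  add := fun x hx y hy => ⟨fun t => add_nonneg (hx.1 t) (hy.1 t), add_nonneg hx.2.1 hy.2.1,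
    add_le_add hx.2.2 hy.2.2⟩
  smul := fun c hc x hx => ⟨fun t => mul_nonneg hc (hx.1 t), mul_nonneg hc hx.2.1,
    mul_le_mul_of_nonneg_left hx.2.2 hc⟩
  pointed := fun x => ⟨fun ⟨h1, h2⟩ => Prod.ext (ContinuousMap.ext fun t =>
    le_antisymm (neg_nonneg.1 (h2.1 t)) (h1.1 t)) (le_antisymm (neg_nonneg.1 h2.2.1) h1.2.1),
    by rintro rfl; simp [K]⟩

theorem mem_sub {p q : X} : p - q ∈ K ↔
    (∀ t, q.1 t ≤ p.1 t) ∧ q.2 ≤ p.2 ∧ p.2 - q.2 ≤ p.1 ∞ - q.1 ∞ := by simp [K]

theorem normal (x y : X) (hx : x ∈ K) (h : y - x ∈ K) : ‖x‖ ≤ 1 * ‖y‖ := by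
  rw [mem_sub] at h
  rw [one_mul]
  refine max_le_max ((ContinuousMap.norm_le _ (norm_nonneg _)).2 fun t => ?_) ?_
  · rw [Real.norm_of_nonneg (hx.1 t)]
    exact (h.1 t).trans ((le_abs_self _).trans (y.1.norm_coe_le_norm t))
  · rw [Real.norm_of_nonneg hx.2.1]; exact h.2.1.trans (le_abs_self _)

/-- The indicator of a finite set. -/
noncomputable def ind (A : Finset ℕ) : C(OnePoint ℕ, ℝ) :=
  continuousMapMkNat (fun k => if k ∈ A then 1 else 0) 0 (tendsto_const_nhds.congr'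
    ((eventually_gt_atTop (A.sup id)).mono fun k hk =>
      (if_neg fun h => hk.not_ge (Finset.le_sup (f := id) h)).symm))

@[simp] theorem ind_coe (A : Finset ℕ) (k : ℕ) : ind A k = if k ∈ A then 1 else 0 := rfl
@[simp] theorem ind_inf (A : Finset ℕ) : ind A ∞ = 0 := rfl

/-- The sequence of the example. -/
noncomputable def seq (n : ℕ) : X := (ind (Finset.range n), 0)

theorem seq_mono (i j : ℕ) (h : i ≤ j) : seq j - seq i ∈ K := by
  refine mem_sub.2 ⟨fun t => ?_, le_rfl, by simp [seq]⟩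
  induction t using OnePoint.rec with
  | infty => simp [seq]
  | coe k => simp only [seq, ind_coe, Finset.mem_range]; split_ifs <;> first | omega | norm_num

theorem ub (a : ℝ) (h0 : 0 ≤ a) (h1 : a ≤ 1) (j : ℕ) : ((1, a) : X) - seq j ∈ K := by
  refine mem_sub.2 ⟨fun t => ?_, h0, by simpa [seq] using h1⟩
  induction t using OnePoint.rec with
  | infty => simp [seq]
  | coe k => simp only [seq, ind_coe, ContinuousMap.one_apply]; split_ifs <;> norm_num

theorem one_le {v : X} (h : ∀ j, v - seq j ∈ K) (t : OnePoint ℕ) : 1 ≤ v.1 t := by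
  have h1 : ∀ k : ℕ, 1 ≤ v.1 k := fun k => by simpa [seq] using (mem_sub.1 (h (k + 1))).1 k
  induction t using OnePoint.rec with
  | infty => exact ge_of_tendsto' ((continuous_iff_from_nat _).1 v.1.continuous) h1
  | coe k => exact h1 k

theorem minimal (a : ℝ) (v : X) (h : ∀ j, v - seq j ∈ K) (h1 : ((1, a) : X) - v ∈ K) :
    v = (1, a) := by
  rw [mem_sub] at h1
  have h2 := one_le h
  refine Prod.ext (ContinuousMap.ext fun t => le_antisymm (h1.1 t) (h2 t))
    (le_antisymm h1.2.1 ?_)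
  have := h1.2.2
  have := h2 ∞
  simp only [ContinuousMap.one_apply] at *
  linarith

theorem no_sup : ¬∃ s : X, (∀ j, s - seq j ∈ K) ∧ ∀ v, (∀ j, v - seq j ∈ K) → v - s ∈ K := by
  rintro ⟨s, h1, h2⟩
  have a1 := minimal 0 s h1 (h2 _ (ub 0 le_rfl zero_le_one))
  have a2 := minimal 1 s h1 (h2 _ (ub 1 zero_le_one le_rfl))
  simpa using congrArg Prod.snd (a1.symm.trans a2)

theorem net {J : Type*} [Preorder J] (x : J → X) (s : X) (hx : ∀ i j, i ≤ j → x j - x i ∈ K)
    (h1 : ∀ j, s - x j ∈ K) (h2 : ∀ v, (∀ j, v - x j ∈ K) → v - s ∈ K) :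
    Tendsto x atTop (𝓝 s) := by
  simp only [mem_sub] at hx h1 h2
  have ha : Tendsto (fun j => (x j).2) atTop (𝓝 s.2) := by
    refine tendsto_atTop_isLUB (fun i j h => (hx i j h).2.1) ⟨?_, fun A hA => ?_⟩
    · rintro _ ⟨j, rfl⟩; exact (h1 j).2.1
    · by_contra h
      exact h (h2 (s.1, A) fun j => ⟨(h1 j).1, hA ⟨j, rfl⟩, by linarith [(h1 j).2.2]⟩).2.1
  have hb : Tendsto (fun j => (x j).1 ∞ - (x j).2) atTop (𝓝 (s.1 ∞ - s.2)) := by
    refine tendsto_atTop_isLUB (fun i j h => by linarith [(hx i j h).2.2]) ⟨?_, fun B hB => ?_⟩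
    · rintro _ ⟨j, rfl⟩; linarith [(h1 j).2.2]
    · by_contra h
      have := (h2 (s.1, s.1 ∞ - B) fun j => ⟨(h1 j).1, by linarith [(h1 j).2.1],
        by linarith [hB ⟨j, rfl⟩]⟩).2.2
      simp only at this
      linarith
  refine Tendsto.prodMk_nhds (ContinuousMap.tendsto_of_monotone_of_pointwise
    (fun i j h => (hx i j h).1) fun t => ?_) ha
  induction t using OnePoint.rec with
  | infty => simpa using hb.add ha
  | coe k =>
    refine tendsto_atTop_isLUB (fun i j h => (hx i j h).1 k) ⟨?_, fun L hL => ?_⟩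
    · rintro _ ⟨j, rfl⟩; exact (h1 j).1 k
    · have := (h2 (s.1 - (s.1 k - L) • ind {k}, s.2) fun j => ⟨fun t => ?_, (h1 j).2.1,
        by simpa using (h1 j).2.2⟩).1 k
      · simpa using this
      · induction t using OnePoint.rec with
        | infty => simpa using (h1 j).1 ∞
        | coe m =>
          by_cases hm : m = k
          · subst hm; simpa using hL ⟨j, rfl⟩
          · simpa [hm] using (h1 j).1 m

theorem no_lim : ¬∃ l, Tendsto seq atTop (𝓝 l) := by
  rintro ⟨l, hl⟩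
  have h1 : ∀ j, l - seq j ∈ K := fun j => isCone.closed.mem_of_tendsto (hl.sub_const _)
    ((eventually_ge_atTop j).mono fun i hi => seq_mono j i hi)
  exact no_sup ⟨l, h1, fun v hv =>
    isCone.closed.mem_of_tendsto (hl.const_sub v) (Eventually.of_forall hv)⟩

end Pool.Agent.H27.Cone
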