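import Mathlib

set_option autoImplicit false

/-! The diametral local diameter two property implies the diametral diameter two property. -/

namespace Pool.Agent.H27.Dd

open Finset

variable {E F : Type} [NormedAddCommGroup E] [NormedSpace ℝ E] [AddCommGroup F] [Module ℝ F]

/-- The local property with respect to the functionals `J φ`. -/
def L (J : F →ₗ[ℝ] E →L[ℝ] ℝ) : Prop := ∀ (φ : F) (x : E), ‖x‖ = 1 → ∀ τ : ℝ, 0 < τ →
  ∃ y : E, ‖y‖ ≤ 1 ∧ J φ x - τ < J φ y ∧ 2 - τ < ‖x - y‖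

theorem step {J : F →ₗ[ℝ] E →L[ℝ] ℝ} (h : L J) {ι : Type} [Fintype ι] (g : ι → F) {x V : E}
    (hx : ‖x‖ = 1) {k K t τ : ℝ} (k0 : 0 ≤ k) (hk : k ≤ K) (K1 : 1 ≤ K) (hV : ‖V‖ ≤ k) (t0 : 0 < t)
    (ht : 4 * (t * K) * (K * ∑ i, ‖J (g i)‖ ^ 2) ≤ 1) (ht' : t * K ≤ 1 / 2) (τ0 : 0 < τ)
    (τ1 : τ ≤ 1) : ∃ v : E, ‖v‖ ≤ 1 ∧ ‖x - t • V‖ + t - 2 * τ ≤ ‖x - t • (V + v)‖ ∧
      ∑ i, (J (g i) (V + v - (k + 1) • x)) ^ 2 ≤
        ∑ i, (J (g i) (V - k • x)) ^ 2 + (4 * ∑ i, ‖J (g i)‖ ^ 2 + 4) := by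
  set w := x - t • V with hw
  set N := ‖w‖ with hN
  have a1 : ‖t • V‖ ≤ t * K := by
    rw [norm_smul, Real.norm_of_nonneg t0.le]
    exact mul_le_mul_of_nonneg_left (hV.trans hk) t0.le
  have a2 : |N - 1| ≤ t * K := by
    have := abs_norm_sub_norm_le w x
    rw [hx, hw, sub_sub_cancel_left, norm_neg] at this
    exact this.trans a1
  obtain ⟨a3, a4⟩ := abs_le.1 a2
  have N0 : 0 < N := by linarith
  have tN : t ≤ N := by nlinarith
  have u1 : ‖N⁻¹ • w‖ = 1 := by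
    rw [norm_smul, Real.norm_of_nonneg (inv_pos.2 N0).le, inv_mul_cancel₀ N0.ne']
  have u2 : ‖N⁻¹ • w - x‖ ≤ 2 * (t * K) := by
    have e : N⁻¹ • w - x = (1 - N) • (N⁻¹ • w) - t • V := by
      rw [sub_smul, one_smul, smul_smul, mul_inv_cancel₀ N0.ne', one_smul, hw]; abel
    rw [e]
    refine (norm_sub_le _ _).trans ?_
    rw [norm_smul, u1, Real.norm_eq_abs, abs_sub_comm]
    linarith
  set s : ι → ℝ := fun i => J (g i) (V - k • x) with hs
  obtain ⟨v, v1, v2, v3⟩ := h (-∑ i, s i • g i) _ u1 τ τ0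
  have eφ : ∀ z, J (-∑ i, s i • g i) z = -∑ i, s i * J (g i) z := fun z => by
    simp [map_sum]
  refine ⟨v, v1, ?_, ?_⟩
  · have e : N • (N⁻¹ • w - v) = (x - t • (V + v)) - (N - t) • v := by
      rw [smul_sub, smul_smul, mul_inv_cancel₀ N0.ne', one_smul, hw, smul_add, sub_smul]; abel
    have b1 := norm_sub_le (x - t • (V + v)) ((N - t) • v)
    rw [← e, norm_smul, norm_smul, Real.norm_of_nonneg N0.le,
      Real.norm_of_nonneg (sub_nonneg.2 tN)] at b1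
    nlinarith [mul_le_mul_of_nonneg_left v1 (sub_nonneg.2 tN),
      mul_le_mul_of_nonneg_left v3.le N0.le]
  · have e : ∀ i, J (g i) (V + v - (k + 1) • x) = s i + J (g i) (v - x) := fun i => by
      rw [hs, ← map_add]
      congr 1
      rw [add_smul, one_smul]; abel
    have b1 : ∑ i, (J (g i) (v - x)) ^ 2 ≤ 4 * ∑ i, ‖J (g i)‖ ^ 2 := by
      rw [mul_sum]
      refine sum_le_sum fun i _ => ?_
      have c1 : |J (g i) (v - x)| ≤ ‖J (g i)‖ * 2 :=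
        (J (g i)).le_opNorm_of_le ((norm_sub_le _ _).trans (by linarith))
      nlinarith [sq_abs (J (g i) (v - x)), abs_nonneg (J (g i) (v - x))]
    have b2 : ∑ i, s i * J (g i) (N⁻¹ • w - x) ≤ 4 * (t * K) * (K * ∑ i, ‖J (g i)‖ ^ 2) := by
      rw [mul_sum, mul_sum]
      refine sum_le_sum fun i _ => (le_abs_self _).trans ?_
      have c1 : |s i| ≤ ‖J (g i)‖ * (2 * K) := (J (g i)).le_opNorm_of_le ((norm_sub_le _ _).trans
        (by rw [norm_smul, hx, Real.norm_of_nonneg k0]; linarith))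
      have c2 : |J (g i) (N⁻¹ • w - x)| ≤ ‖J (g i)‖ * (2 * (t * K)) := (J (g i)).le_opNorm_of_le u2
      rw [abs_mul]
      refine (mul_le_mul c1 c2 (abs_nonneg _) (by positivity)).trans (le_of_eq (by ring))
    have b3 : ∑ i, s i * J (g i) (v - x) ≤ 2 := by
      rw [eφ, eφ] at v2
      simp only [map_sub, mul_sub, sum_sub_distrib] at b2 ⊢
      linarith
    have b4 : ∑ i, (s i + J (g i) (v - x)) ^ 2 = ∑ i, s i ^ 2 + 2 * ∑ i, s i * J (g i) (v - x) +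
        ∑ i, (J (g i) (v - x)) ^ 2 := by
      rw [mul_sum, ← sum_add_distrib, ← sum_add_distrib]
      exact sum_congr rfl fun i _ => by ring
    simp only [e]
    linarith

theorem dd {J : F →ₗ[ℝ] E →L[ℝ] ℝ} (h : L J) {ι : Type} [Fintype ι] (g : ι → F) {δ : ℝ}
    (hδ : 0 < δ) {x : E} (hx : ‖x‖ = 1) {ε : ℝ} (hε : 0 < ε) :
    ∃ y : E, ‖y‖ ≤ 1 ∧ (∀ i, |J (g i) (y - x)| < δ) ∧ 2 - ε < ‖x - y‖ := by
  set A := ∑ i, ‖J (g i)‖ ^ 2 with hA
  have A0 : 0 ≤ A := sum_nonneg fun i _ => sq_nonneg _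
  obtain ⟨K, hK⟩ := exists_nat_gt ((4 * A + 4) / δ ^ 2)
  have K0 : (0 : ℝ) < K := lt_trans (by positivity) hK
  have K1 : (1 : ℝ) ≤ K := by exact_mod_cast Nat.cast_pos.1 K0
  obtain ⟨t, t0, ht, ht'⟩ : ∃ t : ℝ, 0 < t ∧ 4 * (t * K) * (K * A) ≤ 1 ∧ t * K ≤ 1 / 2 := by
    refine ⟨1 / (4 * K * (K * A + 1)), by positivity, ?_, ?_⟩
    · rw [show 4 * (1 / (4 * K * (K * A + 1)) * K) * (K * A) = K * A / (K * A + 1) by field_simp,
        div_le_one (by positivity)]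
      linarith
    · rw [show 1 / (4 * K * (K * A + 1)) * K = 1 / (4 * (K * A + 1)) by field_simp]
      exact one_div_le_one_div_of_le (by norm_num) (by nlinarith [mul_nonneg K0.le A0])
  obtain ⟨τ, τ0, τ1, τ2⟩ : ∃ τ : ℝ, 0 < τ ∧ τ ≤ 1 ∧ τ ≤ ε * t / 4 :=
    ⟨min 1 (ε * t / 4), by positivity, min_le_left _ _, min_le_right _ _⟩
  have key : ∀ k : ℕ, k ≤ K → ∃ V : E, ‖V‖ ≤ k ∧ 1 + k * (t - 2 * τ) ≤ ‖x - t • V‖ ∧
      ∑ i, (J (g i) (V - (k : ℝ) • x)) ^ 2 ≤ k * (4 * A + 4) := fun k => by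
    induction k with
    | zero => exact fun _ => ⟨0, by simp, by simp [hx], by simp⟩
    | succ k ih =>
      intro hk
      obtain ⟨V, h1, h2, h3⟩ := ih (by omega)
      obtain ⟨v, v1, v2, v3⟩ := step h g hx (Nat.cast_nonneg k)
        (by exact_mod_cast (by omega : k ≤ K)) K1 h1 t0 ht ht' τ0 τ1
      push_cast
      exact ⟨V + v, by linarith [norm_add_le V v], by linarith, by linarith⟩
  obtain ⟨V, h1, h2, h3⟩ := key K le_rfl
  refine ⟨(K : ℝ)⁻¹ • V, ?_, fun i => ?_, ?_⟩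
  · rw [norm_smul, Real.norm_of_nonneg (inv_pos.2 K0).le, inv_mul_le_iff₀ K0, mul_one]
    exact h1
  · have e : V - (K : ℝ) • x = (K : ℝ) • ((K : ℝ)⁻¹ • V - x) := by
      rw [smul_sub, smul_smul, mul_inv_cancel₀ K0.ne', one_smul]
    have h4 := (single_le_sum (f := fun i => (J (g i) (V - (K : ℝ) • x)) ^ 2)
      (fun i _ => sq_nonneg _) (mem_univ i)).trans h3
    rw [e, map_smul, smul_eq_mul, mul_pow] at h4
    rw [div_lt_iff₀ (by positivity)] at hK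
    refine abs_lt_of_sq_lt_sq ?_ hδ.le
    by_contra hc
    nlinarith [mul_le_mul_of_nonneg_left (not_lt.1 hc) (sq_nonneg (K : ℝ)),
      mul_lt_mul_of_pos_left hK K0]
  · have e : x - t • V = (t * K) • (x - (K : ℝ)⁻¹ • V) + (1 - t * K) • x := by
      rw [smul_sub, smul_smul, mul_assoc, mul_inv_cancel₀ K0.ne', mul_one, sub_smul, one_smul]
      abel
    have h4 := norm_add_le ((t * K) • (x - (K : ℝ)⁻¹ • V)) ((1 - t * K) • x)
    rw [← e, norm_smul, norm_smul, hx, Real.norm_of_nonneg (by positivity),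
      Real.norm_of_nonneg (by linarith)] at h4
    by_contra hc
    nlinarith [mul_le_mul_of_nonneg_left (not_lt.1 hc) (mul_pos t0 K0).le,
      mul_le_mul_of_nonneg_left τ2 K0.le, mul_pos (mul_pos hε t0) K0]

end Pool.Agent.H27.Dd
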