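import Mathlib

namespace Pool.Agent.H27.Domino
open Finset

abbrev Dir := Fin 3 × Bool

def tab : List ℕ := [374218703, 0, 0, 411179320, 0, 1358521594, 0, 0, 0, 0, 1677888209, 0, 1704800915, 0, 0,
  1741761532, 0, 0, 412857641, 0, 1360199915, 0, 0, 1360171396, 0, 0, 0, 0, 0, 0, 1743439853, 0,
  0, 421249246, 0, 0, 0, 0, 0, 0, 1687958135, 0, 0, 1687929616, 0, 1751831458, 0, 0, 422927567, 0,
  0, 422899048, 0, 422878282, 0, 0, 0, 0, 422631857, 0, 1753509779, 0, 0, 1753481260, 0,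
  1418941150, 0, 0, 0, 0, 0, 0, 1765220471, 0, 0, 1802181088, 0, 1417914466, 0, 0, 1420619471, 0,
  0, 1420590952, 0, 1420570186, 0, 0, 0, 0, 1803859409, 0, 1419592787, 0, 0, 1803810124, 0, 0, 0,
  0, 0, 0, 0, 0, 0, 1812251014, 0, 0, 0, 0, 0, 0, 0, 1813879258, 0, 0, 0, 0, 0, 0, 1813929335, 0,
  0, 1813900816, 0, 1813880050, 0, 0, 0, 0, 2040405545, 0, 2067318251, 0, 0, 2104278868, 0, 0, 0,
  0, 0, 0, 2039378861, 0, 0, 0, 0, 0, 0, 0, 2105957189, 0, 0, 0, 0, 0, 0, 0, 0, 0, 2050475471, 0,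
  0, 2050446952, 0, 2114348794, 0, 0, 0, 0, 2050179761, 0, 2049448787, 0, 0, 2114053084, 0, 0,
  2115730613, 0, 2116027115, 0, 0, 2115998596, 0, 0, 0, 0, 0, 0, 2115731405, 0, 2127737807, 0, 0,
  2164698424, 0, 2127688522, 0, 0, 0, 0, 2127442097, 0, 2126711123, 0, 0, 2163671740, 0, 0,
  2166376745, 0, 2166327438, 0, 0, 2166327460, 0, 0, 0, 0, 0, 0, 2165350061, 0, 0, 2174768350, 0,
  0, 0, 0, 0, 0, 2174472618, 0, 0, 2174472640, 0, 2173741666, 0, 0, 2176446671, 0, 0, 2176418152,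
  0, 2176397386, 0, 0, 0, 0, 2176150961, 0, 2175419987, 0, 0, 2175391468]

def cd (s : Dir) (i : Fin 3) : ℤ := if s.1 = i then (if s.2 then 1 else -1) else 0

def Good (b a : Fin 2 → Fin 2 → Bool) (P : Fin 2 → Fin 2 → Fin 3 → Dir) : Prop :=
  ∀ i j t, (t = 0 → (P i j t = (2, false) ↔ b i j = true)) ∧
    (t = 2 → (P i j t = (2, true) ↔ a i j = true)) ∧
    ((t = 0 ∧ P i j t = (2, false)) ∨ (t = 2 ∧ P i j t = (2, true)) ∨ ∃ (i' j' : Fin 2) (t' : Fin 3),
      -(i' : ℤ) = -i + cd (P i j t) 0 ∧ -(j' : ℤ) = -j + cd (P i j t) 1 ∧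
      (t' : ℤ) = t + cd (P i j t) 2 ∧ P i' j' t' = ((P i j t).1, !(P i j t).2))

instance (b a P) : Decidable (Good b a P) := by unfold Good; infer_instance

def pat (N : ℕ) (i j : Fin 2) (t : Fin 3) : Dir :=
  (Fin.ofNat 3 (N / 6 ^ (i + 2 * j + 4 * t : ℕ) % 6 / 2), N / 6 ^ (i + 2 * j + 4 * t : ℕ) % 2 = 1)

def plan (b a : Fin 2 → Fin 2 → Bool) : Fin 2 → Fin 2 → Fin 3 → Dir :=
  pat (tab.getD ((b 0 0).toNat + 2 * (b 1 0).toNat + 4 * (b 0 1).toNat + 8 * (b 1 1).toNat +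
    16 * (a 0 0).toNat + 32 * (a 1 0).toNat + 64 * (a 0 1).toNat + 128 * (a 1 1).toNat) 0)

lemma good0 : ∀ b1 b2 b3 b4 a1 a2 a3 a4 : Bool,
    b1.toNat + b4.toNat + a1.toNat + a4.toNat = b2.toNat + b3.toNat + a2.toNat + a3.toNat →
    Good ![![b1, b2], ![b3, b4]] ![![a1, a2], ![a3, a4]]
      (plan ![![b1, b2], ![b3, b4]] ![![a1, a2], ![a3, a4]]) := by
  decide +kernel

lemma good (b a : Fin 2 → Fin 2 → Bool) (h : (b 0 0).toNat + (b 1 1).toNat + (a 0 0).toNat +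
    (a 1 1).toNat = (b 0 1).toNat + (b 1 0).toNat + (a 0 1).toNat + (a 1 0).toNat) :
    Good b a (plan b a) := by
  have e : ∀ b : Fin 2 → Fin 2 → Bool, ![![b 0 0, b 0 1], ![b 1 0, b 1 1]] = b := fun b => by
    ext i j; fin_cases i <;> fin_cases j <;> rfl
  simpa only [e] using good0 _ _ _ _ _ _ _ _ h

def uu (a b c d : ZMod 2) : Bool := c.val + d.val < a.val + b.val

lemma uu1 : ∀ a b c d : ZMod 2, a - b - c + d = 1 →
    2 * (uu a b c d).toNat + c.val + d.val = 1 + a.val + b.val := by decide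

lemma uu2 : ∀ a b c d : ZMod 2, a - b - c + d = 1 → uu (a + 1) (b + 1) (c + 1) (d + 1) = !uu a b c d := by
  decide

lemma v1 : ∀ a : ZMod 2, (a + 1).val + a.val = 1 := by decide

variable {n : ℕ}

abbrev V (n : ℕ) := Fin (n + 3) → ℤ

def io (a b c : ℤ) : V n := fun i => if i = 0 then a else if i = 1 then b else if i = 2 then c else 0

lemma io0 (a b c : ℤ) : (io a b c : V n) 0 = a := rfl
lemma io1 (a b c : ℤ) : (io a b c : V n) 1 = b := rfl
lemma io2 (a b c : ℤ) : (io a b c : V n) 2 = c := rfl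

lemma ioa (p : V n) (a b c a' b' c' : ℤ) :
    p + io a b c + io a' b' c' = p + io (a + a') (b + b') (c + c') := by
  ext i; simp only [io, Pi.add_apply]; split_ifs <;> ring

lemma ioz (p : V n) : p + io 0 0 0 = p := by ext i; simp [io]

lemma iod (p : V n) (a b c : ℤ) (R : ℕ) (ha : |a| ≤ R) (hb : |b| ≤ R) (hc : |c| ≤ R) :
    dist (p + io a b c) p ≤ R := by
  rw [dist_self_add_left, pi_norm_le_iff_of_nonneg R.cast_nonneg]
  intro i
  simp only [io, Int.norm_eq_abs]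
  split_ifs <;> first | exact_mod_cast ‹_› | simp

def eh (θ : V n → ZMod 2) (p : V n) : ZMod 2 := θ (p + io 1 0 0) - θ p + p 2
def ew (θ : V n → ZMod 2) (p : V n) : ZMod 2 := θ (p + io 0 1 0) - θ p + (p 0 + p 2 : ℤ)
def fl (θ : V n → ZMod 2) (p : V n) : Prop := θ (p + io 0 0 1) ≠ θ p
def U (θ : V n → ZMod 2) (p : V n) : Bool :=
  uu (eh θ p) (eh θ (p + io 0 1 0)) (ew θ p) (ew θ (p + io 1 0 0))

def emb (s : Dir) : Fin (n + 3) × Bool := (s.1.castLE (by omega), s.2)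

def Gov (φ : V n → Prop) (p : V n) (i j : Fin 2) (t : Fin 3) : Prop := φ (p + io i j (-t))

def Rel (x : V n → Fin (n + 3) × Bool) (u : V n → Bool) (φ : V n → Prop) : Prop :=
  (∀ q, φ q → ∀ (i j : Fin 2) (t : Fin 3), x (q + io (-i) (-j) t) =
    emb (plan (fun i j => u (q + io (-i) (-j) 0)) (fun i j => u (q + io (-i) (-j) 3)) i j t)) ∧
  ∀ p, (∀ i j t, ¬Gov φ p i j t) → x p = emb (2, !u p)

def Sep (φ : V n → Prop) : Prop :=
  ∀ q a b c, |a| ≤ 1 → |b| ≤ 1 → |c| ≤ 2 → φ q → φ (q + io a b c) → a = 0 ∧ b = 0 ∧ c = 0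

lemma uniq {φ : V n → Prop} (h : Sep φ) {p : V n} {i j i' j' : Fin 2} {t t' : Fin 3}
    (a : Gov φ p i j t) (b : Gov φ p i' j' t') : i = i' ∧ j = j' ∧ t = t' := by
  have := h _ (i' - i) (j' - j) (t - t') (by rw [abs_le]; omega) (by rw [abs_le]; omega)
    (by rw [abs_le]; omega) a (by rw [ioa]; unfold Gov at b; convert b using 3 <;> ring)
  omega

lemma exi (u : V n → Bool) {φ : V n → Prop} (h : Sep φ) : ∃ x, Rel x u φ := by
  have : ∀ p : V n, ∃ s, (∀ (q : V n) (i j : Fin 2) (t : Fin 3), φ q → p = q + io (-i) (-j) t → s =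
      emb (plan (fun i j => u (q + io (-i) (-j) 0)) (fun i j => u (q + io (-i) (-j) 3)) i j t)) ∧
      ((∀ i j t, ¬Gov φ p i j t) → s = (emb (2, !u p) : Fin (n + 3) × Bool)) := fun p => by
    have g : ∀ (q : V n) (i j : Fin 2) (t : Fin 3), p = q + io (-i) (-j) t →
        q = p + io i j (-t) := fun q i j t e => by simp [e, ioa, ioz]
    by_cases e : ∃ i j t, Gov φ p i j t
    · obtain ⟨i, j, t, e⟩ := e
      refine ⟨emb (plan (fun i' j' => u (p + io i j (-t) + io (-i') (-j') 0))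
        (fun i' j' => u (p + io i j (-t) + io (-i') (-j') 3)) i j t), fun q i' j' t' a b => ?_,
        fun h => (h i j t e).elim⟩
      obtain rfl := g _ _ _ _ b
      obtain ⟨rfl, rfl, rfl⟩ := uniq h e a
      rfl
    · exact ⟨_, fun q i j t a b => (e ⟨i, j, t, by rwa [g _ _ _ _ b] at a⟩).elim, fun _ => rfl⟩
  choose x hx using this
  exact ⟨x, fun q a i j t => (hx _).1 q i j t a rfl, fun p => (hx p).2⟩

lemma par (θ : V n → ZMod 2) (p : V n) :
    eh θ p - eh θ (p + io 0 1 0) - ew θ p + ew θ (p + io 1 0 0) = 1 := by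
  simp [eh, ew, ioa, io0, io2]; ring

lemma stat (θ : V n → ZMod 2) (p : V n) (h : ∀ i j, ¬Gov (fl θ) p i j 0) :
    U θ (p + io 0 0 1) = !U θ p := by
  have a := h 0 0
  have b := h 0 1
  have c := h 1 0
  have d := h 1 1
  simp [Gov, fl, ioa, ioz] at a b c d
  rw [U, U, ← uu2 _ _ _ _ (par θ p)]
  congr 1 <;> simp [eh, ew, ioa, io0, io2, a, b, c, d] <;> ring

lemma bal (θ : V n → ZMod 2) (h : Sep (fl θ)) (q : V n) (hq : fl θ q) : Good
    (fun i j => U θ (q + io (-i) (-j) 0)) (fun i j => U θ (q + io (-i) (-j) 3))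
    (plan (fun i j => U θ (q + io (-i) (-j) 0)) fun i j => U θ (q + io (-i) (-j) 3)) := by
  have s : ∀ a b c : ℤ, |a| ≤ 1 → |b| ≤ 1 → |c| ≤ 2 → ¬(a = 0 ∧ b = 0 ∧ c = 0) →
      θ (q + io a b (c + 1)) = θ (q + io a b c) := fun a b c ha hb hc k => by
    by_contra e
    exact k (h q a b c ha hb hc hq (by simpa [fl, ioa] using e))
  have o : ∀ a b : ℤ, |a| ≤ 1 → |b| ≤ 1 → ¬(a = 0 ∧ b = 0) →
      θ (q + io a b 3) = θ (q + io a b 0) := fun a b ha hb k =>
    (s a b 2 ha hb (by simp) (by simp)).trans ((s a b 1 ha hb (by simp) (by simp)).trans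
      (s a b 0 ha hb (by simp) (by simpa using k)))
  have c : θ (q + io 0 0 3) = θ (q + io 0 0 0) + 1 := by
    have e : θ (q + io 0 0 3) = θ (q + io 0 0 1) :=
      (s 0 0 2 (by simp) (by simp) (by simp) (by simp)).trans (s 0 0 1 (by simp) (by simp) (by simp) (by simp))
    rw [e, ioz]
    exact (by decide : ∀ a b : ZMod 2, a ≠ b → a = b + 1) _ _ hq
  have t2 : (2 : ZMod 2) = 0 := rfl
  have H : ∀ a b : ℤ, (a = -1 ∨ a = 0) → |b| ≤ 1 → eh θ (q + io a b 3) =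
      eh θ (q + io a b 0) + if b = 0 then 0 else 1 := fun a b ha hb => by
    by_cases e : b = 0
    · rcases ha with rfl | rfl <;> simp [eh, ioa, io2, e, c, o] <;>
        first | linear_combination t2 | linear_combination 2 * t2
    · rcases ha with rfl | rfl <;> simp [eh, ioa, io2, e, o _ _ _ hb] <;> linear_combination t2
  have W : ∀ a b : ℤ, (b = -1 ∨ b = 0) → |a| ≤ 1 → ew θ (q + io a b 3) =
      ew θ (q + io a b 0) + if a = 0 then 0 else 1 := fun a b hb ha => by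
    by_cases e : a = 0
    · rcases hb with rfl | rfl <;> simp [ew, ioa, io0, io2, e, c, o] <;>
        first | linear_combination t2 | linear_combination 2 * t2
    · rcases hb with rfl | rfl <;> simp [ew, ioa, io0, io2, e, o _ _ ha] <;> linear_combination t2
  refine good _ _ ?_
  have k : ∀ a b c, 2 * (U θ (q + io a b c)).toNat + (ew θ (q + io a b c)).val +
      (ew θ (q + io (a + 1) b c)).val = 1 + (eh θ (q + io a b c)).val +
        (eh θ (q + io a (b + 1) c)).val := fun a b c => by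
    have := uu1 _ _ _ _ (par θ (q + io a b c))
    rw [← U] at this
    simpa only [ioa, add_zero] using this
  have k1 := k 0 0 0; have k2 := k 0 (-1) 0; have k3 := k (-1) 0 0; have k4 := k (-1) (-1) 0
  have k5 := k 0 0 3; have k6 := k 0 (-1) 3; have k7 := k (-1) 0 3; have k8 := k (-1) (-1) 3
  have w := fun a b => v1 (eh θ (q + io a b 0))
  have w' := fun a b => v1 (ew θ (q + io a b 0))
  norm_num [H, W] at k1 k2 k3 k4 k5 k6 k7 k8 ⊢
  linarith [w 0 1, w 0 (-1), w (-1) 1, w (-1) (-1), w' 1 0, w' (-1) 0, w' 1 (-1), w' (-1) (-1)]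

end Pool.Agent.H27.Domino
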