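import Mathlib

set_option autoImplicit false

/-! No space with an unconditional basis has the super alternative Daugavet property. -/

namespace Pool.Agent.H27.Uab

open Filter Topology Set

variable {𝕜 X β : Type} [RCLike 𝕜] [NormedAddCommGroup X] [NormedSpace 𝕜 X]

theorem sum_abs_le {s : Finset β} {r : β → ℝ} {C : ℝ} (h : ∀ t : Finset β, |∑ n ∈ t, r n| ≤ C) :
    ∑ n ∈ s, |r n| ≤ 2 * C := by
  classical
  rw [← Finset.sum_filter_add_sum_filter_not s (fun n => 0 ≤ r n)]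
  have h1 : ∑ n ∈ s.filter (fun n => 0 ≤ r n), |r n| = ∑ n ∈ s.filter (fun n => 0 ≤ r n), r n :=
    Finset.sum_congr rfl fun n hn => abs_of_nonneg (Finset.mem_filter.1 hn).2
  have h2 : ∑ n ∈ s.filter (fun n => ¬ 0 ≤ r n), |r n| =
      -∑ n ∈ s.filter (fun n => ¬ 0 ≤ r n), r n := by
    rw [← Finset.sum_neg_distrib]
    exact Finset.sum_congr rfl fun n hn => abs_of_neg (not_le.1 (Finset.mem_filter.1 hn).2)
  rw [h1, h2]
  linarith [le_abs_self (∑ n ∈ s.filter (fun n => 0 ≤ r n), r n),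
    neg_le_abs (∑ n ∈ s.filter (fun n => ¬ 0 ≤ r n), r n), h (s.filter (fun n => 0 ≤ r n)),
    h (s.filter (fun n => ¬ 0 ≤ r n))]

theorem sum_norm_le {s : Finset β} {z : β → 𝕜} {C : ℝ} (h : ∀ t : Finset β, ‖∑ n ∈ t, z n‖ ≤ C) :
    ∑ n ∈ s, ‖z n‖ ≤ 4 * C := by
  have h1 : ∑ n ∈ s, |RCLike.re (z n)| ≤ 2 * C := sum_abs_le fun t => by
    rw [← map_sum]; exact (RCLike.abs_re_le_norm _).trans (h t)
  have h2 : ∑ n ∈ s, |RCLike.im (z n)| ≤ 2 * C := sum_abs_le fun t => by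
    rw [← map_sum]; exact (RCLike.abs_im_le_norm _).trans (h t)
  have h3 : ∑ n ∈ s, ‖z n‖ ≤ ∑ n ∈ s, (|RCLike.re (z n)| + |RCLike.im (z n)|) :=
    Finset.sum_le_sum fun n _ => by
      refine abs_le_of_sq_le_sq' ?_ (by positivity) |>.2
      rw [RCLike.norm_sq_eq_def]
      nlinarith [abs_mul_abs_self (RCLike.re (z n)), abs_mul_abs_self (RCLike.im (z n)),
        mul_nonneg (abs_nonneg (RCLike.re (z n))) (abs_nonneg (RCLike.im (z n)))]
  rw [Finset.sum_add_distrib] at h3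
  linarith

/-- The absolute value of the expansion of `f x`. -/
noncomputable def G (b : UnconditionalSchauderBasis β 𝕜 X) (f : X →L[𝕜] 𝕜) (x : X) : ℝ :=
  ∑' n, ‖b.coord n x * f (b n)‖

section

variable {b : UnconditionalSchauderBasis β 𝕜 X} {C : ℝ} (hC : ∀ A, ‖b.proj A‖ ≤ C)
  {f : X →L[𝕜] 𝕜} (hf : ‖f‖ ≤ 1)
include hC

theorem proj_le (A : Finset β) (x : X) : ‖b.proj A x‖ ≤ C * ‖x‖ :=
  (b.proj A).le_of_opNorm_le (hC A) x

include hf

theorem fin_le (x : X) (s : Finset β) : ∑ n ∈ s, ‖b.coord n x * f (b n)‖ ≤ 4 * (C * ‖x‖) :=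
  sum_norm_le fun t => by
    have : ∑ n ∈ t, b.coord n x * f (b n) = f (b.proj t x) := by simp
    rw [this]
    exact (f.le_of_opNorm_le hf _).trans (by simpa using proj_le hC t x)

theorem smb (x : X) : Summable fun n => ‖b.coord n x * f (b n)‖ :=
  summable_of_sum_le (fun _ => norm_nonneg _) (fin_le hC hf x)

theorem G_le (x : X) : G b f x ≤ 4 * (C * ‖x‖) :=
  (smb hC hf x).tsum_le_of_sum_le (fin_le hC hf x)

theorem le_G (x : X) : ‖f x‖ ≤ G b f x := by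
  have h : HasSum (fun n => b.coord n x * f (b n)) (f x) := by
    simpa using (b.expansion x).mapL f
  rw [← h.tsum_eq]
  exact norm_tsum_le_tsum_norm (smb hC hf x)

theorem G_near (x y : X) : G b f x - 4 * (C * ‖x - y‖) ≤ G b f y := by
  have h1 : G b f x ≤ G b f y + G b f (x - y) := by
    rw [G, G, G, ← (smb hC hf y).tsum_add (smb hC hf (x - y))]
    refine (smb hC hf x).tsum_le_tsum (fun n => ?_) ((smb hC hf y).add (smb hC hf (x - y)))
    refine le_of_eq_of_le ?_ (norm_add_le _ _)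
    congr 1
    rw [map_sub]; ring
  linarith [G_le hC hf (x - y)]

theorem G_split (B : Finset β) (x : X) :
    G b f x = G b f (b.proj B x) + G b f (x - b.proj B x) := by
  classical
  rw [G, G, G, ← (smb hC hf _).tsum_add (smb hC hf _)]
  refine tsum_congr fun n => ?_
  have : b.coord n (b.proj B x) = if n ∈ B then b.coord n x else 0 := by
    simp [b.ortho, Pi.single_apply]
  rw [map_sub, this]
  split_ifs <;> simp

end

theorem G_smul (b : UnconditionalSchauderBasis β 𝕜 X) (f : X →L[𝕜] 𝕜) (t : 𝕜) (x : X) :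
    G b f (t • x) = ‖t‖ * G b f x := by
  rw [G, G, ← tsum_mul_left]
  exact tsum_congr fun n => by simp [mul_assoc]

/-- Weak-star slices of the dual ball. -/
def Sl (D : Set (X →L[𝕜] 𝕜)) : Prop := ∃ (x : X) (ε : ℝ), ‖x‖ = 1 ∧ 0 < ε ∧
  D = {f | ‖f‖ ≤ 1 ∧ 1 - ε < RCLike.re (f x)}

theorem Sl.le {D : Set (X →L[𝕜] 𝕜)} (h : Sl D) {f : X →L[𝕜] 𝕜} (hf : f ∈ D) : ‖f‖ ≤ 1 := by
  obtain ⟨x, ε, -, -, rfl⟩ := h
  exact hf.1

theorem Sl.nonempty {D : Set (X →L[𝕜] 𝕜)} (h : Sl D) : D.Nonempty := by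
  obtain ⟨x, ε, hx, hε, rfl⟩ := h
  obtain ⟨g, h1, h2⟩ := exists_dual_vector 𝕜 x (by rw [hx]; exact one_ne_zero)
  exact ⟨g, h1.le, by rw [h2, hx]; simpa using hε⟩

/-- The form of the super ADP that is used. -/
def Hyp (b : UnconditionalSchauderBasis β 𝕜 X) : Prop :=
  ∀ (x w : X) (B : Finset β) (η : ℝ), ‖x‖ = 1 → ‖w‖ ≤ 1 → 0 < η → ∃ (y : X) (θ : 𝕜), ‖y‖ ≤ 1 ∧
    ‖θ‖ = 1 ∧ ‖b.proj B y - b.proj B w‖ < η ∧ 2 - η < ‖x + θ • y‖

theorem refine {b : UnconditionalSchauderBasis β 𝕜 X} (H : Hyp b) {D : Set (X →L[𝕜] 𝕜)}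
    (hD : Sl D) {w : X} (hw : ‖w‖ ≤ 1) (B : Finset β) {η : ℝ} (hη : 0 < η) :
    ∃ D', Sl D' ∧ D' ⊆ D ∧ ∃ (y : X) (θ : 𝕜), ‖y‖ ≤ 1 ∧ ‖θ‖ = 1 ∧
      ‖b.proj B y - b.proj B w‖ ≤ η ∧ ∀ f ∈ D', ‖f (θ • y) - 1‖ ≤ η := by
  obtain ⟨x, ε, hx, hε, rfl⟩ := hD
  obtain ⟨ρ, r0, r1, r2, r3, r4⟩ : ∃ ρ : ℝ, 0 < ρ ∧ ρ ≤ 1 ∧ ρ ≤ η ∧ 3 * ρ ≤ ε ∧ 6 * ρ ≤ η ^ 2 :=
    ⟨min (min 1 η) (min (ε / 3) (η ^ 2 / 6)), by positivity,
      (min_le_left _ _).trans (min_le_left _ _), (min_le_left _ _).trans (min_le_right _ _),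
      by linarith [(min_le_right (min 1 η) _).trans (min_le_left (ε / 3) (η ^ 2 / 6))],
      by linarith [(min_le_right (min 1 η) _).trans (min_le_right (ε / 3) (η ^ 2 / 6))]⟩
  obtain ⟨y, θ, h1, h2, h3, h4⟩ := H x w B ρ hx hw r0
  set N := ‖x + θ • y‖ with hN
  have N0 : 0 < N := by linarith
  have hy : ‖θ • y‖ ≤ 1 := by rw [norm_smul, h2, one_mul]; exact h1
  have N2 : N ≤ 2 := (norm_add_le _ _).trans (by linarith)
  have key : ∀ f : X →L[𝕜] 𝕜, ‖f‖ ≤ 1 → 1 - ρ < RCLike.re (f (((N⁻¹ : ℝ) : 𝕜) • (x + θ • y))) →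
      1 - 3 * ρ < RCLike.re (f x) ∧ 1 - 3 * ρ < RCLike.re (f (θ • y)) := by
    intro f hf h
    rw [map_smul, smul_eq_mul, RCLike.re_ofReal_mul, map_add, map_add, lt_inv_mul_iff₀ N0] at h
    have a1 : RCLike.re (f x) ≤ 1 :=
      (RCLike.re_le_norm _).trans ((f.le_of_opNorm_le hf _).trans (by rw [hx]; norm_num))
    have a2 : RCLike.re (f (θ • y)) ≤ 1 :=
      (RCLike.re_le_norm _).trans ((f.le_of_opNorm_le hf _).trans (by linarith))
    have a3 : 2 - 3 * ρ ≤ N * (1 - ρ) := by nlinarith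
    constructor <;> linarith
  refine ⟨{f | ‖f‖ ≤ 1 ∧ 1 - ρ < RCLike.re (f (((N⁻¹ : ℝ) : 𝕜) • (x + θ • y)))},
    ⟨_, ρ, ?_, r0, rfl⟩, fun f hf => ⟨hf.1, by linarith [(key f hf.1 hf.2).1]⟩, y, θ, h1, h2,
    by linarith, fun f hf => ?_⟩
  · rw [norm_smul, RCLike.norm_ofReal, abs_of_pos (inv_pos.2 N0), inv_mul_cancel₀ N0.ne']
  · have a1 := (key f hf.1 hf.2).2
    have a2 : ‖f (θ • y)‖ ≤ 1 := (f.le_of_opNorm_le hf.1 _).trans (by linarith)
    have a3 : ‖f (θ • y)‖ ^ 2 ≤ 1 := pow_le_one₀ (norm_nonneg _) a2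
    refine abs_le_of_sq_le_sq' ?_ hη.le |>.2
    rw [RCLike.norm_sq_eq_def] at a3 ⊢
    simp only [map_sub, RCLike.one_re, RCLike.one_im, sub_zero]
    nlinarith

theorem near (b : UnconditionalSchauderBasis β 𝕜 X) (x : X) (A : Finset β) {η : ℝ} (hη : 0 < η) :
    ∃ B, A ⊆ B ∧ ‖x - b.proj B x‖ ≤ η := by
  have h : Tendsto (fun B => b.proj B x) atTop (𝓝 x) := b.tendsto_proj x
  obtain ⟨B, h1, h2⟩ := ((eventually_ge_atTop A).and
    (h.eventually (Metric.closedBall_mem_nhds x hη))).exists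
  exact ⟨B, h1, by simpa only [Metric.mem_closedBall, dist_eq_norm'] using h2⟩

/-- The inductive statement. -/
def P (b : UnconditionalSchauderBasis β 𝕜 X) (a : 𝕜) (k : ℝ) : Prop :=
  ∀ D, Sl D → ∀ (A : Finset β) (δ : ℝ), 0 < δ → ∃ D', Sl D' ∧ D' ⊆ D ∧ ∃ w : X, ‖w‖ ≤ 1 ∧
    ‖b.proj A w‖ ≤ δ ∧ ∀ f ∈ D', ‖f w - a‖ ≤ δ ∧ k - δ ≤ G b f w

theorem small {C δ : ℝ} (C0 : 0 ≤ C) (hδ : 0 < δ) :
    ∃ η : ℝ, 0 < η ∧ 5 * η + 8 * (C * η) ≤ δ :=
  ⟨δ / (5 + 8 * C), by positivity, le_of_eq (by field_simp)⟩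

theorem proj_sub {b : UnconditionalSchauderBasis β 𝕜 X} {A B : Finset β} (h : A ⊆ B) (x : X) :
    b.proj A (b.proj B x) = b.proj A x := by
  classical
  rw [b.proj_comp]
  congr 2
  convert Finset.inter_eq_left.2 h

theorem up {b : UnconditionalSchauderBasis β 𝕜 X} {C : ℝ} (hC : ∀ A, ‖b.proj A‖ ≤ C) (H : Hyp b)
    {k : ℝ} (h : P b 0 k) : P b 1 (k + 1) := by
  intro D hD A δ hδ
  have C0 : 0 ≤ C := (norm_nonneg _).trans (hC ∅)
  obtain ⟨η, η0, hη⟩ := small C0 hδ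
  have Cη : 0 ≤ C * η := by positivity
  obtain ⟨D1, s1, d1, w, w1, w2, w3⟩ := h D hD A η η0
  obtain ⟨B, hAB, hB⟩ := near b w A η0
  obtain ⟨D2, s2, d2, y, θ, y1, θ1, y2, y3⟩ := refine H s1 w1 B η0
  refine ⟨D2, s2, d2.trans d1, θ • y, by rw [norm_smul, θ1, one_mul]; exact y1, ?_,
    fun f hf => ⟨by linarith [y3 f hf], ?_⟩⟩
  · rw [map_smul, norm_smul, θ1, one_mul]
    have e : b.proj A y = b.proj A w + b.proj A (b.proj B y - b.proj B w) := by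
      rw [map_sub, proj_sub hAB, proj_sub hAB]; abel
    have := proj_le hC A (b.proj B y - b.proj B w)
    rw [e]
    linarith [norm_add_le (b.proj A w) (b.proj A (b.proj B y - b.proj B w)),
      mul_le_mul_of_nonneg_left y2 C0]
  · have f1 := s2.le hf
    obtain ⟨a1, a2⟩ := w3 f (d2 hf)
    rw [sub_zero] at a1
    have a3 : ‖w - b.proj B y‖ ≤ 2 * η := by
      have := norm_sub_le_norm_sub_add_norm_sub w (b.proj B w) (b.proj B y)
      rw [norm_sub_rev (b.proj B w)] at this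
      linarith
    have a4 := G_near hC f1 w (b.proj B y)
    have a5 := le_G hC f1 (y - b.proj B y)
    have a6 : 1 - η ≤ ‖f y‖ := by
      have h1 := y3 f hf
      have h2 := norm_sub_norm_le (1 : 𝕜) (f (θ • y))
      rw [norm_sub_rev, map_smul, norm_smul, θ1, norm_one, one_mul] at h2
      rw [map_smul] at h1
      linarith
    have a7 : ‖f y‖ ≤ ‖f (y - b.proj B y)‖ + ‖f w‖ + ‖f (w - b.proj B y)‖ := by
      have : f y = f (y - b.proj B y) + f w - f (w - b.proj B y) := by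
        rw [map_sub, map_sub]; ring
      calc ‖f y‖ = _ := by rw [this]
        _ ≤ _ := norm_sub_le _ _
        _ ≤ _ := by gcongr; exact norm_add_le _ _
    have a8 := f.le_of_opNorm_le f1 (w - b.proj B y)
    rw [G_smul, θ1, one_mul, G_split hC f1 B y]
    nlinarith [mul_le_mul_of_nonneg_left a3 C0]

theorem down {b : UnconditionalSchauderBasis β 𝕜 X} {C : ℝ} (hC : ∀ A, ‖b.proj A‖ ≤ C)
    {k : ℝ} (h : P b 1 k) : P b 0 k := by
  intro D hD A δ hδ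
  have C0 : 0 ≤ C := (norm_nonneg _).trans (hC ∅)
  obtain ⟨η, η0, hη⟩ := small C0 hδ
  have Cη : 0 ≤ C * η := by positivity
  obtain ⟨D1, s1, d1, y, y1, y2, y3⟩ := h D hD A η η0
  obtain ⟨B, hAB, hB⟩ := near b y A η0
  obtain ⟨D2, s2, d2, z, z1, z2, z3⟩ := h D1 s1 B η η0
  have n2 : ‖(2⁻¹ : 𝕜)‖ = 2⁻¹ := by simp
  refine ⟨D2, s2, d2.trans d1, (2⁻¹ : 𝕜) • (y - z), ?_, ?_, fun f hf => ⟨?_, ?_⟩⟩
  · rw [norm_smul, n2]; linarith [norm_sub_le y z]
  · rw [map_smul, norm_smul, n2, map_sub, ← proj_sub hAB z]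
    linarith [norm_sub_le (b.proj A y) (b.proj A (b.proj B z)), proj_le hC A (b.proj B z),
      mul_le_mul_of_nonneg_left z2 C0]
  · rw [map_smul, sub_zero, norm_smul, n2, map_sub]
    have := norm_sub_le_norm_sub_add_norm_sub (f y) 1 (f z)
    rw [norm_sub_rev 1] at this
    linarith [(y3 f (d2 hf)).1, (z3 f hf).1]
  · have f1 := s2.le hf
    have a1 := G_near hC f1 y (b.proj B (y - z))
    have a2 := G_near hC f1 ((-1 : 𝕜) • z) (y - z - b.proj B (y - z))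
    have a3 : ‖y - b.proj B (y - z)‖ ≤ 2 * η := by
      have : y - b.proj B (y - z) = (y - b.proj B y) + b.proj B z := by rw [map_sub]; abel
      rw [this]; linarith [norm_add_le (y - b.proj B y) (b.proj B z)]
    have a4 : ‖(-1 : 𝕜) • z - (y - z - b.proj B (y - z))‖ ≤ 2 * η := by
      have : (-1 : 𝕜) • z - (y - z - b.proj B (y - z)) = -(y - b.proj B (y - z)) := by
        rw [neg_one_smul]; abel
      rw [this, norm_neg]; exact a3
    rw [G_smul, norm_neg, norm_one, one_mul] at a2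
    rw [G_smul, n2, G_split hC f1 B (y - z)]
    linarith [mul_le_mul_of_nonneg_left a3 C0, mul_le_mul_of_nonneg_left a4 C0,
      (y3 f (d2 hf)).2, (z3 f hf).2]

theorem main [CompleteSpace X] (b : UnconditionalSchauderBasis β 𝕜 X) (H : Hyp b) {x : X}
    (hx : ‖x‖ = 1) : False := by
  obtain ⟨C, hC⟩ := b.exists_norm_proj_le
  have C0 : 0 ≤ C := (norm_nonneg _).trans (hC ∅)
  have h : ∀ k : ℕ, P b 0 k := fun k => by
    induction k with
    | zero =>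
      intro D hD A δ hδ
      exact ⟨D, hD, subset_rfl, 0, by simp, by simpa using hδ.le, fun f _ =>
        ⟨by simpa using hδ.le, by simpa [G] using hδ.le⟩⟩
    | succ k ih => push_cast; exact down hC (up hC H ih)
  obtain ⟨k, hk⟩ := exists_nat_gt (4 * C + 1)
  obtain ⟨D, hD, -, w, w1, -, w3⟩ := h k _ ⟨x, 1, hx, one_pos, rfl⟩ ∅ 1 one_pos
  obtain ⟨f, hf⟩ := hD.nonempty
  linarith [(w3 f hf).2, G_le hC (hD.le hf) w, mul_le_mul_of_nonneg_left w1 C0]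

end Pool.Agent.H27.Uab
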