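import Mathlib
import Pool.Agent.H27.Uab

set_option autoImplicit false

/-! Renorming by a sequence of operators, and basic facts on `c₀`. -/

namespace Pool.Agent.H27.Dp

open Filter Topology Set ZeroAtInfty

theorem renorm {E F I : Type} [NormedAddCommGroup E] [NormedSpace ℝ E] [CompleteSpace E]
    [NormedAddCommGroup F] [NormedSpace ℝ F] [CompleteSpace F] (A : I → E →L[ℝ] F) {C : ℝ} (hC : 0 ≤ C)
    (h1 : ∀ i x, ‖A i x‖ ≤ C * ‖x‖) (h2 : ∀ x c, 0 ≤ c → (∀ i, ‖A i x‖ ≤ c) → ‖x‖ ≤ C * c) :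
    ∃ (X : Type) (_ : NormedAddCommGroup X) (_ : NormedSpace ℝ X) (_ : CompleteSpace X)
      (j : E →L[ℝ] X), Function.Surjective j ∧ (∀ i x, ‖A i x‖ ≤ ‖j x‖) ∧
        ∀ x c, 0 ≤ c → (∀ i, ‖A i x‖ ≤ c) → ‖j x‖ ≤ c := by
  let V := lp (fun _ : I => F) ⊤
  let G : E →L[ℝ] V := LinearMap.mkContinuous
    { toFun := fun x => ⟨fun i => A i x, memℓp_infty ⟨_, by rintro _ ⟨i, rfl⟩; exact h1 i x⟩⟩
      map_add' := fun x y => lp.ext (funext fun i => by simp [V])
      map_smul' := fun c x => lp.ext (funext fun i => by simp [V]) } C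
    fun x => lp.norm_le_of_forall_le (by positivity) fun i => h1 i x
  have g1 : ∀ i x, ‖A i x‖ ≤ ‖G x‖ := fun i x => lp.norm_apply_le_norm (by simp) (G x) i
  have hc : IsClosed (range G) := (G.antilipschitz_of_bound (K := ⟨C, hC⟩) fun x =>
    h2 x _ (norm_nonneg _) fun i => g1 i x).isClosed_range G.uniformContinuous
  exact ⟨G.range, inferInstance, inferInstance, hc.completeSpace_coe, G.rangeRestrict,
    fun ⟨_, x, hx⟩ => ⟨x, Subtype.ext hx⟩, g1,
    fun x c h h' => lp.norm_le_of_forall_le (f := G x) h h'⟩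

/-- The space `c₀`. -/
abbrev C0 : Type := C₀(ℕ, ℝ)

theorem C0_le (u : C0) (n : ℕ) : |u n| ≤ ‖u‖ := u.toBCF.norm_coe_le_norm n

theorem C0_norm_le (u : C0) {C : ℝ} (hC : 0 ≤ C) (h : ∀ p, |u p| ≤ C) : ‖u‖ ≤ C :=
  (BoundedContinuousFunction.norm_le (f := u.toBCF) hC).2 h

theorem C0_tendsto (u : C0) : Tendsto u atTop (𝓝 0) := by
  have := u.zero_at_infty'
  rwa [cocompact_eq_cofinite, Nat.cofinite_eq_atTop] at this

/-- Coordinates. -/
noncomputable def ev (n : ℕ) : C0 →L[ℝ] ℝ := LinearMap.mkContinuous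
  { toFun := fun u => u n, map_add' := fun _ _ => rfl, map_smul' := fun _ _ => rfl } 1
  fun u => by simpa using C0_le u n

@[simp] theorem ev_apply (n : ℕ) (u : C0) : ev n u = u n := rfl

/-- Unit vectors. -/
noncomputable def e (n : ℕ) : C0 := ⟨⟨Pi.single n 1, continuous_of_discreteTopology⟩, by
  rw [cocompact_eq_cofinite, Nat.cofinite_eq_atTop]
  exact tendsto_const_nhds.congr' (eventually_atTop.2 ⟨n + 1, fun k hk =>
    (Pi.single_eq_of_ne (M := fun _ => ℝ) (show k ≠ n by omega) 1).symm⟩)⟩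

theorem e_apply (n k : ℕ) : e n k = if k = n then 1 else 0 := Pi.single_apply n 1 k

theorem weak_null (φ : C0 →L[ℝ] ℝ) : Tendsto (fun n => φ (e n)) atTop (𝓝 0) := by
  have h : ∀ t : Finset ℕ, |∑ n ∈ t, φ (e n)| ≤ ‖φ‖ := fun t => by
    rw [← map_sum]
    refine (φ.le_opNorm _).trans (mul_le_of_le_one_right (norm_nonneg _)
      (C0_norm_le _ zero_le_one fun p => ?_))
    rw [← ev_apply, map_sum]
    simp only [ev_apply, e_apply, Finset.sum_ite_eq]
    split_ifs <;> simp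
  exact (Summable.of_abs (summable_of_sum_le (fun _ => abs_nonneg _)
    fun s => Uab.sum_abs_le h)).tendsto_atTop_zero

/-- The Hilbert space. -/
abbrev L2 : Type := lp (fun _ : ℕ => ℝ) 2

theorem exists_T : ∃ T : C0 →L[ℝ] L2, Function.Injective T ∧
    Tendsto (fun n => ‖T (e n)‖) atTop (𝓝 0) := by
  have hb : ∀ (u : C0) (n : ℕ), ‖(1 / 2 : ℝ) ^ n * u n‖ ^ (2 : ENNReal).toReal ≤
      ‖u‖ ^ 2 * (1 / 2) ^ n := fun u n => by
    have h1 : ((1 / 2 : ℝ) ^ n) ≤ 1 := pow_le_one₀ (by norm_num) (by norm_num)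
    have h2 : (0 : ℝ) ≤ (1 / 2 : ℝ) ^ n := by positivity
    have h3 : (u n) ^ 2 ≤ ‖u‖ ^ 2 := sq_le_sq' (abs_le.1 (C0_le u n)).1 (abs_le.1 (C0_le u n)).2
    rw [ENNReal.toReal_ofNat, Real.rpow_two, Real.norm_eq_abs, sq_abs, mul_pow]
    nlinarith [mul_le_mul h3 h1 h2 (sq_nonneg _), sq_nonneg (u n), mul_nonneg h2 h2,
      mul_le_mul_of_nonneg_left h1 h2]
  have hs : ∀ u : C0, Summable fun n : ℕ => ‖(1 / 2 : ℝ) ^ n * u n‖ ^ (2 : ENNReal).toReal :=
    fun u => Summable.of_nonneg_of_le (fun n => by positivity) (hb u)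
      (summable_geometric_two.mul_left _)
  let T : C0 →L[ℝ] L2 := LinearMap.mkContinuous
    { toFun := fun u => ⟨fun n => (1 / 2 : ℝ) ^ n * u n, memℓp_gen (hs u)⟩
      map_add' := fun x y => lp.ext (funext fun i => mul_add _ _ _)
      map_smul' := fun c x => lp.ext (funext fun i => mul_left_comm _ _ _) } 2
    fun u => lp.norm_le_of_tsum_le (by simp) (by positivity) (by
      refine ((hs u).tsum_le_tsum (hb u) (summable_geometric_two.mul_left _)).trans ?_
      rw [tsum_mul_left, tsum_geometric_two, ENNReal.toReal_ofNat, Real.rpow_two]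
      nlinarith [sq_nonneg ‖u‖])
  have hT : ∀ u m, T u m = (1 / 2 : ℝ) ^ m * u m := fun u m => rfl
  refine ⟨T, (injective_iff_map_eq_zero _).2 fun u hu => ?_, ?_⟩
  · ext m
    have := hT u m
    rw [hu] at this
    simpa using this
  · have : ∀ n, T (e n) = lp.single 2 n ((1 / 2 : ℝ) ^ n) := fun n => lp.ext (funext fun m => by
      rw [hT, e_apply]
      by_cases h : m = n
      · subst h; simp
      · simp [h])
    simp only [this, lp.norm_single (show (0 : ENNReal) < 2 by simp)]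
    exact (tendsto_pow_atTop_nhds_zero_of_lt_one (by norm_num) (by norm_num)).norm.trans (by simp)

end Pool.Agent.H27.Dp
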