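import Mathlib

set_option autoImplicit false

namespace Pool.Agent.H27.Ds

open Filter Topology Set

lemma tail_le (b h : ℕ → ℝ) (P : ℕ → Prop) (hb1 : ∀ l, P l → b l = h l) (hb0 : ∀ l, ¬ P l → b l = 0)
    (hB : ∀ k l, k < l → P k → P l → h l ≤ (1 / 2) ^ k) (m : ℕ) :
    ∀ (K : ℕ) (c : ℝ), 0 ≤ c → (∀ l, K ≤ l → P l → h l ≤ c) →
      ∑ i ∈ Finset.range m, b (i + K) ≤ c + 2 * (1 / 2) ^ K := by
  induction m with
  | zero =>
    intro K c hc _
    simp only [Finset.range_zero, Finset.sum_empty]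
    positivity
  | succ m ih =>
    intro K c hc hK
    rw [Finset.sum_range_succ']
    have e : ∀ i, i + 1 + K = i + (K + 1) := fun i => by ring
    simp only [e, zero_add]
    have hp : (0 : ℝ) < (1 / 2) ^ K := by positivity
    by_cases hP : P K
    · have h1 := ih (K + 1) ((1 / 2) ^ K) hp.le (fun l hl hPl => hB K l (by omega) hP hPl)
      rw [hb1 K hP]
      have h2 := hK K le_rfl hP
      rw [pow_succ] at h1
      linarith
    · have h1 := ih (K + 1) c hc (fun l hl hPl => hK l (by omega) hPl)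
      rw [hb0 K hP]
      rw [pow_succ] at h1
      linarith

lemma cont_sum {X : Type} [TopologicalSpace X] (U : ℕ → Set X) (hU : ∀ k, IsClopen (U k))
    (h : ℕ → ℝ) (h0 : ∀ k, 0 ≤ h k) (h1 : ∀ k, h k ≤ 1)
    (hlim : ∀ k : ℕ, ∃ m, ∀ l, m ≤ l → h l ≤ (1 / 2) ^ k)
    (hB : ∀ k l x, k < l → x ∈ U k → x ∈ U l → h l ≤ (1 / 2) ^ k) :
    ∃ ψ : X → ℝ, Continuous ψ ∧
      ∀ x, HasSum (fun l => (U l).indicator (fun _ => h l) x) (ψ x) := by
  set b : ℕ → X → ℝ := fun l x => (U l).indicator (fun _ => h l) x with hb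
  have bn : ∀ l x, 0 ≤ b l x := fun l x => Set.indicator_nonneg (fun _ _ => h0 l) x
  have tl : ∀ x (m K : ℕ) (c : ℝ), 0 ≤ c → (∀ l, K ≤ l → x ∈ U l → h l ≤ c) →
      ∑ i ∈ Finset.range m, b (i + K) x ≤ c + 2 * (1 / 2) ^ K := by
    intro x m K c hc hK
    exact tail_le (fun l => b l x) h (fun l => x ∈ U l)
      (fun l hl => by simp only [hb]; rw [Set.indicator_of_mem hl])
      (fun l hl => by simp only [hb]; rw [Set.indicator_of_notMem hl])
      (fun k l hkl hk hl => hB k l x hkl hk hl) m K c hc hK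
  have sm : ∀ x, Summable (fun l => b l x) := by
    intro x
    refine summable_of_sum_range_le (c := 1 + 2 * (1 / 2) ^ 0) (fun l => bn l x) (fun m => ?_)
    simpa using tl x m 0 1 zero_le_one (fun l _ _ => h1 l)
  have bc : ∀ l, Continuous (b l) := by
    intro l
    exact (hU l).continuous_indicator continuous_const
  refine ⟨fun x => ∑' l, b l x, ?_, fun x => (sm x).hasSum⟩
  have hu : TendstoUniformly (fun K x => ∑ i ∈ Finset.range K, b i x) (fun x => ∑' l, b l x) atTop := by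
    rw [Metric.tendstoUniformly_iff]
    intro ε hε
    obtain ⟨k, hk⟩ := exists_pow_lt_of_lt_one (show (0 : ℝ) < ε / 3 by positivity)
      (show (1 / 2 : ℝ) < 1 by norm_num)
    obtain ⟨m, hm⟩ := hlim k
    filter_upwards [eventually_ge_atTop (max m k)] with K hK x
    have e := (sm x).sum_add_tsum_nat_add K
    have s2 : Summable (fun i => b (i + K) x) := (summable_nat_add_iff K).2 (sm x)
    have t0 : 0 ≤ ∑' i, b (i + K) x := tsum_nonneg (fun i => bn _ x)
    have t1 : ∑' i, b (i + K) x ≤ (1 / 2) ^ k + 2 * (1 / 2) ^ K :=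
      Real.tsum_le_of_sum_range_le (fun i => bn _ x) (fun m' =>
        tl x m' K _ (by positivity) (fun l hl _ => hm l (le_trans (le_trans (le_max_left _ _) hK) hl)))
    have t2 : (1 / 2 : ℝ) ^ K ≤ (1 / 2) ^ k :=
      pow_le_pow_of_le_one (by norm_num) (by norm_num) (le_trans (le_max_right _ _) hK)
    rw [Real.dist_eq, ← e, add_sub_cancel_left, abs_of_nonneg t0]
    linarith
  exact hu.continuous (Frequently.of_forall (fun K => continuous_finset_sum _ (fun i _ => bc i)))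

lemma rec_ex (F : (k : ℕ) → (Fin k → ℝ) → ℝ) : ∃ h : ℕ → ℝ, ∀ k, h k = F k (fun l => h l) :=
  ⟨WellFounded.fix (C := fun _ => ℝ) Nat.lt_wfRel.wf (fun k ih => F k (fun l => ih l l.2)),
    fun k => WellFounded.fix_eq _ _ k⟩

/-- The union of the small balls around the points of the `k`-th segment. -/
def U (n r : ℕ → ℕ) (k : ℕ) : Set ℤ_[2] :=
  ⋃ i ∈ Finset.Ico (n k) (n (k + 1)), Metric.closedBall (i : ℤ_[2]) (((2 : ℕ) : ℝ) ^ (-(r k : ℤ)))

lemma U_clopen (n r : ℕ → ℕ) (k : ℕ) : IsClopen (U n r k) := by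
  refine isClopen_biUnion_finset (fun i _ => IsUltrametricDist.isClopen_closedBall _ ?_)
  positivity

lemma nat_mem (n r : ℕ → ℕ) (k R j : ℕ) (h1 : n (k + 1) ≤ R) (h2 : R < 2 ^ r k)
    (hj : (j : ℤ_[2]) ∈ U n r k) : j ∈ Finset.Ico (n k) (n (k + 1)) ∨ R ≤ j := by
  simp only [U, Set.mem_iUnion, Metric.mem_closedBall, exists_prop] at hj
  obtain ⟨i, hi, hd⟩ := hj
  rw [dist_eq_norm] at hd
  have e : (j : ℤ_[2]) - (i : ℤ_[2]) = (((j : ℤ) - (i : ℤ) : ℤ) : ℤ_[2]) := by push_cast; rfl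
  rw [e, PadicInt.norm_int_le_pow_iff_dvd] at hd
  by_cases hij : j = i
  · left; rw [hij]; exact hi
  · right
    have hne : (j : ℤ) - (i : ℤ) ≠ 0 := by omega
    have h3 := Int.le_of_dvd (abs_pos.2 hne) ((dvd_abs _ _).2 hd)
    have h4 : ((R : ℕ) : ℤ) < ((2 : ℕ) : ℤ) ^ r k := by exact_mod_cast h2
    have h5 := (Finset.mem_Ico.1 hi).2
    rcases abs_cases ((j : ℤ) - (i : ℤ)) with h | h <;> omega

lemma self_mem (n r : ℕ → ℕ) (k j : ℕ) (hj : j ∈ Finset.Ico (n k) (n (k + 1))) :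
    (j : ℤ_[2]) ∈ U n r k := by
  simp only [U, Set.mem_iUnion, Metric.mem_closedBall, exists_prop]
  exact ⟨j, hj, by rw [dist_self]; positivity⟩

lemma inter_mem (n r : ℕ → ℕ) (k l : ℕ) (hr : r k ≤ r l) (x : ℤ_[2]) (hk : x ∈ U n r k)
    (hl : x ∈ U n r l) : ∃ j ∈ Finset.Ico (n l) (n (l + 1)), (j : ℤ_[2]) ∈ U n r k := by
  simp only [U, Set.mem_iUnion, Metric.mem_closedBall, exists_prop] at hk hl ⊢
  obtain ⟨i, hi, hd⟩ := hk
  obtain ⟨j, hj, he⟩ := hl
  refine ⟨j, hj, i, hi, ?_⟩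
  refine le_trans (IsUltrametricDist.dist_triangle_max _ x _) (max_le ?_ hd)
  rw [dist_comm]
  refine le_trans he (zpow_le_zpow_right₀ (by norm_num) (by omega))

theorem cocycle (n : ℕ → ℕ) (hn : StrictMono n)
    (hg : Tendsto (fun k : ℕ => n (k + 1) - n k) atTop atTop) (a : ℕ → ℝ) :
    ∃ ψ : ℤ_[2] → ℝ, Continuous ψ ∧
      ∀ k, ∃ z : ℤ, ∑ j ∈ Finset.Ico (n k) (n (k + 1)), ψ (j : ℤ_[2]) = a k + z := by
  classical
  have hm : ∀ k : ℕ, ∃ m, k + 1 ≤ m ∧ ∀ l, m ≤ l → 2 ^ k ≤ n (l + 1) - n l := by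
    intro k
    obtain ⟨m, hm⟩ := eventually_atTop.1 (hg.eventually (eventually_ge_atTop (2 ^ k)))
    exact ⟨max m (k + 1), le_max_right _ _, fun l hl => hm l (le_trans (le_max_left _ _) hl)⟩
  choose m hm1 hm2 using hm
  set r : ℕ → ℕ := fun k => ∑ i ∈ Finset.range (k + 1), n (m i) with hr
  have rmono : ∀ k l, k ≤ l → r k ≤ r l := fun k l hkl =>
    Finset.sum_le_sum_of_subset (Finset.range_mono (by omega))
  have rbig : ∀ k, n (m k) < 2 ^ r k := by
    intro k
    have : n (m k) ≤ r k :=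
      Finset.single_le_sum (f := fun i => n (m i)) (fun _ _ => Nat.zero_le _)
        (Finset.mem_range.2 (Nat.lt_succ_self k))
    exact lt_of_le_of_lt this Nat.lt_two_pow_self
  have A : ∀ k j : ℕ, (j : ℤ_[2]) ∈ U n r k → j ∈ Finset.Ico (n k) (n (k + 1)) ∨ n (m k) ≤ j :=
    fun k j hj => nat_mem n r k _ j (hn.monotone (hm1 k)) (rbig k) hj
  set g : ℕ → ℝ := fun k => ((n (k + 1) - n k : ℕ) : ℝ) with hgd
  have g1 : ∀ k, 1 ≤ g k := by
    intro k
    have := hn (Nat.lt_succ_self k)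
    simp only [hgd]
    exact_mod_cast (show 1 ≤ n (k + 1) - n k by simp only [Nat.succ_eq_add_one] at this; omega)
  obtain ⟨h, hh⟩ := rec_ex (fun k v => Int.fract (a k - ∑ j ∈ Finset.Ico (n k) (n (k + 1)),
    ∑ l : Fin k, (U n r l).indicator (fun _ => v l) (j : ℤ_[2])) / g k)
  have h0 : ∀ k, 0 ≤ h k := fun k => by
    rw [hh k]; exact div_nonneg (Int.fract_nonneg _) (by linarith [g1 k])
  have h1 : ∀ k, h k ≤ 1 / g k := fun k => by
    rw [hh k]; exact div_le_div_of_nonneg_right (Int.fract_lt_one _).le (by linarith [g1 k])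
  have h2 : ∀ k l, m k ≤ l → h l ≤ (1 / 2) ^ k := by
    intro k l hl
    refine le_trans (h1 l) ?_
    rw [one_div_pow]
    refine one_div_le_one_div_of_le (by positivity) ?_
    simp only [hgd]
    exact_mod_cast hm2 k l hl
  obtain ⟨ψ, hψ, hs⟩ := cont_sum (U n r) (U_clopen n r) h h0
    (fun k => le_trans (h1 k) (by rw [div_le_one (by linarith [g1 k])]; exact g1 k))
    (fun k => ⟨m k, h2 k⟩) (by
      intro k l x hkl hk hl
      obtain ⟨j, hj, hj2⟩ := inter_mem n r k l (rmono k l hkl.le) x hk hl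
      rw [Finset.mem_Ico] at hj
      apply h2
      rcases A k j hj2 with h3 | h3
      · rw [Finset.mem_Ico] at h3
        have := hn.monotone (show k + 1 ≤ l by omega)
        omega
      · have : n (m k) < n (l + 1) := by omega
        have := hn.lt_iff_lt.1 this
        omega)
  refine ⟨ψ, hψ, fun k => ?_⟩
  have val : ∀ j ∈ Finset.Ico (n k) (n (k + 1)), ψ (j : ℤ_[2]) =
      ∑ l : Fin k, (U n r l).indicator (fun _ => h l) (j : ℤ_[2]) + h k := by
    intro j hj
    have e1 : HasSum (fun l => (U n r l).indicator (fun _ => h l) (j : ℤ_[2]))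
        (∑ l ∈ Finset.range (k + 1), (U n r l).indicator (fun _ => h l) (j : ℤ_[2])) := by
      refine hasSum_sum_of_ne_finset_zero (fun l hl => Set.indicator_of_notMem (fun hjl => ?_) _)
      rw [Finset.mem_range] at hl
      rw [Finset.mem_Ico] at hj
      rcases A l j hjl with h3 | h3
      · rw [Finset.mem_Ico] at h3
        have := hn.monotone (show k + 1 ≤ l by omega)
        omega
      · have := hn.monotone (show k + 1 ≤ m l by have := hm1 l; omega)
        omega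
    rw [(hs _).unique e1, Finset.sum_range_succ, Set.indicator_of_mem (self_mem n r k j hj),
      Finset.sum_range (fun l => (U n r l).indicator (fun _ => h l) (j : ℤ_[2]))]
  rw [Finset.sum_congr rfl val, Finset.sum_add_distrib, Finset.sum_const, Nat.card_Ico,
    nsmul_eq_mul]
  set S := ∑ j ∈ Finset.Ico (n k) (n (k + 1)),
    ∑ l : Fin k, (U n r l).indicator (fun _ => h l) (j : ℤ_[2]) with hS
  refine ⟨-⌊a k - S⌋, ?_⟩
  have e2 : g k * h k = Int.fract (a k - S) := by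
    rw [hh k]
    have := g1 k
    field_simp
    rfl
  change S + g k * h k = _
  rw [e2, Int.fract]
  push_cast
  ring

end Pool.Agent.H27.Ds
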