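import Pool.Agent.H27.Ds1

set_option autoImplicit false

namespace Pool.Agent.H27.Ds

open Filter Topology Set

lemma iter_diff (a : ℤ_[2]) (θ : ℤ_[2] → UnitAddCircle) (S : ℤ_[2] × UnitAddCircle → ℤ_[2] × UnitAddCircle)
    (hS : ∀ p, S p = (p.1 + a, p.2 + θ p.1)) (p q : ℤ_[2] × UnitAddCircle) (m : ℕ) :
    (S^[m] p).1 - (S^[m] q).1 = p.1 - q.1 ∧
      (p.1 = q.1 → (S^[m] p).2 - (S^[m] q).2 = p.2 - q.2) := by
  induction m with
  | zero => simp
  | succ m ih =>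
    rw [Function.iterate_succ_apply', Function.iterate_succ_apply', hS, hS]
    refine ⟨by simp only; rw [← ih.1]; ring, fun h => ?_⟩
    have e : (S^[m] p).1 = (S^[m] q).1 := by
      have := ih.1
      rw [h, sub_self, sub_eq_zero] at this
      exact this
    simp only
    rw [e, ← ih.2 h]
    abel

lemma iter_dist (a : ℤ_[2]) (θ : ℤ_[2] → UnitAddCircle)
    (S : ℤ_[2] × UnitAddCircle → ℤ_[2] × UnitAddCircle)
    (hS : ∀ p, S p = (p.1 + a, p.2 + θ p.1)) (p q : ℤ_[2] × UnitAddCircle) (m : ℕ) :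
    dist p.1 q.1 ≤ dist (S^[m] p) (S^[m] q) ∧
      (p.1 = q.1 → dist p.2 q.2 ≤ dist (S^[m] p) (S^[m] q)) := by
  have h := iter_diff a θ S hS p q m
  rw [Prod.dist_eq]
  refine ⟨le_trans (le_of_eq ?_) (le_max_left _ _), fun e => le_trans (le_of_eq ?_) (le_max_right _ _)⟩
  · rw [dist_eq_norm, dist_eq_norm, h.1]
  · rw [dist_eq_norm, dist_eq_norm, h.2 e]

/-- The skew product over the odometer. -/
noncomputable def skew (ψ : ℤ_[2] → ℝ) (hψ : Continuous ψ) :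
    (ℤ_[2] × UnitAddCircle) ≃ₜ (ℤ_[2] × UnitAddCircle) where
  toFun p := (p.1 + 1, p.2 + ((ψ p.1 : ℝ) : UnitAddCircle))
  invFun p := (p.1 + (-1), p.2 + -((ψ (p.1 + (-1)) : ℝ) : UnitAddCircle))
  left_inv p := by simp
  right_inv p := by simp
  continuous_toFun := by
    have : Continuous (fun p : ℤ_[2] × UnitAddCircle => ((ψ p.1 : ℝ) : UnitAddCircle)) :=
      (AddCircle.continuous_mk' 1).comp (hψ.comp continuous_fst)
    exact (continuous_fst.add continuous_const).prodMk (continuous_snd.add this)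
  continuous_invFun := by
    have : Continuous (fun p : ℤ_[2] × UnitAddCircle => ((ψ (p.1 + (-1)) : ℝ) : UnitAddCircle)) :=
      (AddCircle.continuous_mk' 1).comp (hψ.comp (continuous_fst.add continuous_const))
    exact (continuous_fst.add continuous_const).prodMk (continuous_snd.add this.neg)

lemma skew_iter (ψ : ℤ_[2] → ℝ) (hψ : Continuous ψ) (s : ℝ) (m : ℕ) :
    (skew ψ hψ)^[m] (0, (s : UnitAddCircle)) =
      ((m : ℤ_[2]), ((s + ∑ j ∈ Finset.range m, ψ (j : ℤ_[2]) : ℝ) : UnitAddCircle)) := by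
  induction m with
  | zero => simp
  | succ m ih =>
    rw [Function.iterate_succ_apply', ih, Finset.sum_range_succ, ← add_assoc, AddCircle.coe_add]
    push_cast
    rfl

theorem main (n : ℕ → ℕ) (hn : StrictMono n)
    (hg : Tendsto (fun k : ℕ => n (k + 1) - n k) atTop atTop) (φ : ℕ → ℝ)
    (hC : ∃ C : ℝ, ∀ k : ℕ, |φ k| ≤ C) :
    ∃ (X : Type) (_ : MetricSpace X) (_ : CompactSpace X) (T : X ≃ₜ X),
      (∀ x y : X, x ≠ y → ∃ ε : ℝ, 0 < ε ∧ ∀ m : ℕ,
          ε ≤ dist ((⇑T)^[m] x) ((⇑T)^[m] y) ∧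
          ε ≤ dist ((⇑T.symm)^[m] x) ((⇑T.symm)^[m] y)) ∧
      ∃ (x₀ : X) (f : X → ℝ), Continuous f ∧
        ∀ k : ℕ, f ((⇑T)^[n k] x₀) = φ k := by
  obtain ⟨C, hC⟩ := hC
  have C0 : 0 ≤ C := le_trans (abs_nonneg _) (hC 0)
  set t : ℕ → ℝ := fun k => (φ k + (C + 1)) / (4 * (C + 1)) with ht
  have t0 : ∀ k, 0 ≤ t k := fun k =>
    div_nonneg (by linarith [(abs_le.1 (hC k)).1]) (by positivity)
  have t1 : ∀ k, t k ≤ 1 / 2 := fun k => by
    simp only [ht]
    rw [div_le_iff₀ (by positivity)]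
    linarith [(abs_le.1 (hC k)).2]
  obtain ⟨ψ, hψ, hs⟩ := cocycle n hn hg (fun k => t (k + 1) - t k)
  refine ⟨ℤ_[2] × UnitAddCircle, inferInstance, inferInstance, skew ψ hψ, ?_,
    (0, ((t 0 - ∑ j ∈ Finset.range (n 0), ψ (j : ℤ_[2]) : ℝ) : UnitAddCircle)),
    fun p => -(C + 1) + 4 * (C + 1) * ‖p.2‖, by fun_prop, fun k => ?_⟩
  · intro p q hpq
    have h1 := iter_dist 1 (fun x => ((ψ x : ℝ) : UnitAddCircle)) (skew ψ hψ) (fun _ => rfl) p q
    have h2 := iter_dist (-1) (fun x => -((ψ (x + (-1)) : ℝ) : UnitAddCircle)) (skew ψ hψ).symm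
      (fun _ => rfl) p q
    by_cases e : p.1 = q.1
    · have e2 : p.2 ≠ q.2 := fun h => hpq (Prod.ext e h)
      exact ⟨dist p.2 q.2, dist_pos.2 e2, fun m => ⟨(h1 m).2 e, (h2 m).2 e⟩⟩
    · exact ⟨dist p.1 q.1, dist_pos.2 e, fun m => ⟨(h1 m).1, (h2 m).1⟩⟩
  · have key : ∀ k, ∃ z : ℤ, t 0 - ∑ j ∈ Finset.range (n 0), ψ (j : ℤ_[2]) +
        ∑ j ∈ Finset.range (n k), ψ (j : ℤ_[2]) = t k + z := by
      intro k
      induction k with
      | zero => exact ⟨0, by simp⟩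
      | succ k ih =>
        obtain ⟨z, hz⟩ := ih
        obtain ⟨w, hw⟩ := hs k
        refine ⟨z + w, ?_⟩
        rw [← Finset.sum_range_add_sum_Ico _ (hn.monotone (Nat.le_succ k)), ← add_assoc, hz, hw]
        push_cast
        ring
    obtain ⟨z, hz⟩ := key k
    rw [skew_iter, hz]
    have e : ((t k + z : ℝ) : UnitAddCircle) = (t k : ℝ) := by
      rw [AddCircle.coe_add]
      have : ((z : ℝ) : UnitAddCircle) = 0 := (AddCircle.coe_eq_zero_iff _).2 ⟨z, by simp⟩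
      rw [this, add_zero]
    have e2 : ‖((t k : ℝ) : UnitAddCircle)‖ = |t k| :=
      (AddCircle.norm_coe_eq_abs_iff 1 one_ne_zero).2 (by
        rw [abs_of_nonneg (t0 k), abs_one]; exact t1 k)
    simp only
    rw [e, e2, abs_of_nonneg (t0 k)]
    simp only [ht]
    field_simp
    ring

end Pool.Agent.H27.Ds
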