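import Mathlib

/-! Tours of the four-corner Cantor set. -/

open Real Set

namespace Pool.Agent.H27.Dust

/-- Admissible step between two (time, parameter) pairs. -/
def St (a A : ℝ) (z w : ℕ × (Bool → ℝ)) : Prop :=
  z.1 + A ≤ w.1 ∧ ∀ i, z.1 * z.2 i + A * a ≤ w.1 * w.2 i

/-- A tour covering `P` inside a square, within a time window. -/
def G (a A τ : ℝ) (c : Bool → ℝ) (s : ℝ) (P : Set (Bool → ℝ)) (n m : ℝ) : Prop :=
  n ≤ m ∧ ∃ S : Set (ℕ × (Bool → ℝ)), (∀ z ∈ S, n ≤ z.1 ∧ z.1 ≤ m ∧ ∀ i, c i ≤ z.2 i ∧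
    z.2 i ≤ c i + s) ∧ S.Pairwise (fun z w => St a A z w ∨ St a A w z) ∧
      ∀ p ∈ P, ∃ z ∈ S, ∀ i, z.1 * |p i - z.2 i| ≤ τ

/-- Tours exist for every dust of side `s`. -/
def W (K : Set ℝ) (a A τ s n m : ℝ) : Prop :=
  ∀ c : Bool → ℝ, (∀ i, a ≤ c i) → G a A τ c s {p | ∀ i, ∃ t ∈ K, p i = c i + s * t} n m

variable {K : Set ℝ} {a A τ s n m n' m' : ℝ} {c : Bool → ℝ}

lemma tr (a0 : 0 < a) (A0 : 0 ≤ A) (s0 : 0 ≤ s) (hc : ∀ i, a ≤ c i) {z w : ℕ × (Bool → ℝ)}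
    (hz : z.1 ≤ m) (hw : m * (1 + s / a) + A ≤ w.1) (bz : ∀ i, z.2 i ≤ c i + s)
    (bw : ∀ i, c i ≤ w.2 i) : St a A z w := by
  have z0 : (0 : ℝ) ≤ z.1 := by positivity
  have m0 := z0.trans hz
  have q0 : 0 ≤ m * (s / a) := by positivity
  refine ⟨by linarith, fun i => ?_⟩
  have := hc i
  have e : m * (s / a) * a = m * s := by field_simp
  nlinarith [mul_le_mul hw (bw i) (by linarith) w.1.cast_nonneg,
    mul_le_mul_of_nonneg_left (bz i) z0,
    mul_le_mul_of_nonneg_right hz (by linarith : 0 ≤ c i + s),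
    mul_le_mul_of_nonneg_left this q0, mul_le_mul_of_nonneg_left this A0]

lemma G.union {P Q : Set (Bool → ℝ)} (a0 : 0 < a) (A0 : 0 ≤ A) (s0 : 0 ≤ s) (hc : ∀ i, a ≤ c i)
    (n0 : 0 ≤ n) (h : G a A τ c s P n m) (h' : G a A τ c s Q n' m')
    (t : m * (1 + s / a) + A ≤ n') : G a A τ c s (P ∪ Q) n m' := by
  obtain ⟨l, S, h1, h2, h3⟩ := h
  obtain ⟨l', S', g1, g2, g3⟩ := h'
  have : m ≤ n' := by nlinarith [mul_nonneg (n0.trans l) (div_nonneg s0 a0.le)]
  refine ⟨by linarith, S ∪ S', ?_, pairwise_union.2 ⟨h2, g2, ?_⟩, ?_⟩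
  · rintro z (hz | hz)
    exacts [⟨(h1 z hz).1, by linarith [(h1 z hz).2.1], (h1 z hz).2.2⟩,
      ⟨by linarith [(g1 z hz).1], (g1 z hz).2⟩]
  · intro z hz w hw _
    have := tr a0 A0 s0 hc (h1 z hz).2.1 (t.trans (g1 w hw).1)
      (fun i => ((h1 z hz).2.2 i).2) fun i => ((g1 w hw).2.2 i).1
    exact ⟨Or.inl this, Or.inr this⟩
  · rintro p (hp | hp)
    exacts [(h3 p hp).imp fun z hz => ⟨Or.inl hz.1, hz.2⟩,
      (g3 p hp).imp fun z hz => ⟨Or.inr hz.1, hz.2⟩]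

lemma W.mono (h : W K a A τ s n m) (h1 : n' ≤ n) (h2 : m ≤ m') : W K a A τ s n' m' := fun c hc => by
  obtain ⟨l, S, g1, g2⟩ := h c hc
  exact ⟨by linarith, S, fun z hz => ⟨h1.trans (g1 z hz).1, (g1 z hz).2.1.trans h2,
    (g1 z hz).2.2⟩, g2⟩

variable (hK : ∀ t ∈ K, 0 ≤ t ∧ t ≤ 1 ∧ ∃ e : Bool, ∃ t' ∈ K, t = (if e then 3 / 4 else 0) + t' / 4)
  (a0 : 0 < a) (A0 : 0 ≤ A) (s0 : 0 < s)
include hK a0 A0 s0

omit a0 A0 in
lemma base (n0 : 0 ≤ n) (h : n + 1 ≤ m) (h' : m * s ≤ τ) : W K a A τ s n m := fun c _ => by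
  have := (Nat.ceil_lt_add_one n0).le
  refine ⟨by linarith, {(⌈n⌉₊, c)}, ?_, pairwise_singleton _ _, fun p hp => ⟨_, rfl, fun i => ?_⟩⟩
  · rintro _ rfl
    exact ⟨Nat.le_ceil _, this.trans h, fun i => ⟨le_rfl, by linarith⟩⟩
  · obtain ⟨t, ht, e⟩ := hp i
    obtain ⟨t0, t1, -⟩ := hK t ht
    rw [e, add_sub_cancel_left, abs_of_nonneg (by positivity)]
    exact (mul_le_mul (this.trans h) (mul_le_of_le_one_right s0.le t1) (by positivity)
      (by linarith)).trans h'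

lemma four {n1 m1 n2 m2 n3 m3 : ℝ} (n0 : 0 ≤ n) (h0 : W K a A τ (s / 4) n m)
    (h1 : W K a A τ (s / 4) n1 m1) (h2 : W K a A τ (s / 4) n2 m2) (h3 : W K a A τ (s / 4) n3 m3)
    (t1 : m * (1 + s / a) + A ≤ n1) (t2 : m1 * (1 + s / a) + A ≤ n2)
    (t3 : m2 * (1 + s / a) + A ≤ n3) : W K a A τ s n m3 := fun c hc => by
  have ch : ∀ (e : Bool → Bool) {n m : ℝ}, W K a A τ (s / 4) n m → G a A τ c s {p | ∀ i, ∃ t ∈ K,
      p i = c i + s * (if e i then 3 / 4 else 0) + s / 4 * t} n m := fun e n m h => by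
    have b : ∀ i, 0 ≤ s * (if e i then 3 / 4 else 0) ∧
        s * (if e i then 3 / 4 else 0) ≤ s * (3 / 4) := fun i => by
      split_ifs <;> constructor <;> linarith
    obtain ⟨l, S, g1, g2⟩ := h (fun i => c i + s * (if e i then 3 / 4 else 0))
      fun i => by linarith [hc i, b i]
    exact ⟨l, S, fun z hz => ⟨(g1 z hz).1, (g1 z hz).2.1, fun i =>
      ⟨by linarith [(g1 z hz).2.2 i, b i], by linarith [(g1 z hz).2.2 i, b i]⟩⟩, g2⟩
  obtain ⟨l, S, g1, g2, g3⟩ := (((ch (fun _ => true) h0).union a0 A0 s0.le hc n0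
    (ch (fun _ => false) h1) t1).union a0 A0 s0.le hc n0 (ch id h2) t2).union a0 A0 s0.le hc n0
      (ch not h3) t3
  refine ⟨l, S, g1, g2, fun p hp => g3 p ?_⟩
  choose t ht e1 using hp
  choose e t' ht' e2 using fun i => (hK _ (ht i)).2.2
  have k : ∀ i, ∃ t ∈ K, p i = c i + s * (if e i then 3 / 4 else 0) + s / 4 * t :=
    fun i => ⟨_, ht' i, by rw [e1, e2]; ring⟩
  have : ∀ e : Bool → Bool, e = (fun _ => true) ∨ e = (fun _ => false) ∨ e = id ∨ e = not := by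
    decide
  rcases this e with rfl | rfl | rfl | rfl
  exacts [Or.inl (Or.inl (Or.inl k)), Or.inl (Or.inl (Or.inr k)), Or.inl (Or.inr k), Or.inr k]

lemma iter {ν ω u : ℝ} (ν0 : 0 < ν) (u0 : 0 ≤ u) (d : ℕ)
    (h : ∀ n, ν ≤ n → n * exp u ≤ ω → W K a A τ (s / 4 ^ d) n (n * exp u)) (U : ℝ)
    (hU : 4 ^ d * u + 3 * d * (s / a) + (4 ^ d - 1) * (A / ν) ≤ U) (hn : ν ≤ n)
    (hω : n * exp U ≤ ω) : W K a A τ s n (n * exp U) := by
  induction d generalizing s n U with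
  | zero =>
    have : n * exp u ≤ n * exp U := by gcongr; exacts [by linarith, by simpa using hU]
    simpa using (h n hn (this.trans hω)).mono le_rfl this
  | succ d ih =>
    set V := 4 ^ d * u + 3 * d * (s / 4 / a) + (4 ^ d - 1) * (A / ν) with hV
    set w := s / a + A / ν with hw
    have V0 : 0 ≤ V := by
      have : (0 : ℝ) ≤ 4 ^ d - 1 := sub_nonneg.2 (one_le_pow₀ (by norm_num))
      positivity
    have w0 : 0 ≤ w := by positivity
    have n0 : 0 ≤ n := by linarith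
    have UV : 4 * V + 3 * w ≤ U := by
      refine le_trans (le_of_eq ?_) hU
      rw [hV, hw]; push_cast; ring
    have f : ∀ x, 0 ≤ x → ν ≤ n * exp x := fun x hx =>
      hn.trans (le_mul_of_one_le_right n0 (one_le_exp hx))
    have g : ∀ x, 0 ≤ x → x + V ≤ U → W K a A τ (s / 4) (n * exp x) (n * exp (x + V)) :=
      fun x hx hx' => by
        rw [exp_add, ← mul_assoc]
        refine ih (by positivity) (by simpa only [div_div, ← pow_succ'] using h) V le_rfl (f x hx)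
          (le_trans ?_ hω)
        rw [mul_assoc, ← exp_add]
        gcongr
    have t : ∀ x, 0 ≤ x → n * exp x * (1 + s / a) + A ≤ n * exp (x + w) := fun x hx => by
      have := mul_le_mul_of_nonneg_right (f x hx) (div_nonneg A0 ν0.le)
      rw [mul_div_cancel₀ _ ν0.ne'] at this
      rw [exp_add, ← mul_assoc]
      nlinarith [mul_le_mul_of_nonneg_left (add_one_le_exp w) (ν0.le.trans (f x hx))]
    refine (four hK a0 A0 s0 (by positivity) (g 0 le_rfl (by linarith)) (g (0 + V + w)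
      (by linarith) (by linarith)) (g (0 + V + w + V + w) (by linarith) (by linarith))
        (g (0 + V + w + V + w + V + w) (by linarith) (by linarith)) (t _ (by linarith))
          (t _ (by linarith)) (t _ (by linarith))).mono (by simp) ?_
    gcongr
    linarith

lemma small (τ0 : 0 < τ) (hs : s / a ≤ 1 / 36) (n0 : 0 ≤ n) : ∃ m, W K a A τ s n m := by
  set ν := n + 12 * (1 + A) with hν
  have ν0 : 0 < ν := by positivity
  obtain ⟨k, hk⟩ := pow_unbounded_of_one_lt (log ν + 1 + 36 * s * (1 + A) / τ) (by norm_num :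
    (1 : ℝ) < 4)
  have l0 : 0 ≤ log ν := log_nonneg (by linarith)
  have p0 : 0 ≤ 36 * s * (1 + A) / τ := by positivity
  have k4 : (k : ℝ) ≤ 4 ^ k := by exact_mod_cast (Nat.lt_pow_self (by norm_num)).le
  have q0 : (0 : ℝ) < 4 ^ k := by positivity
  have sa := div_pos s0 a0
  have Aν : A / ν ≤ 1 := (div_le_one ν0).2 (by linarith)
  refine ⟨_, (iter hK a0 A0 s0 ν0 zero_le_one k (fun x hx hω => ?_) (3 * 4 ^ k) ?_ le_rfl
    le_rfl).mono (by linarith) le_rfl⟩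
  swap
  · nlinarith [div_nonneg A0 ν0.le, k.cast_nonneg (α := ℝ)]
  have x0 : 0 < x := by linarith
  set r := s / 4 ^ k / τ with hr
  have r0 : 0 < r := by positivity
  have r1 : 36 * r * (1 + A) ≤ 1 := by
    rw [show 36 * r * (1 + A) = 36 * s * (1 + A) / τ / 4 ^ k by rw [hr]; ring, div_le_one q0]
    linarith
  have e3 : exp 1 ≤ 3 := by linarith [exp_one_lt_d9]
  have e1 : 1 ≤ exp 1 := one_le_exp zero_le_one
  obtain ⟨d, d1, d2⟩ := exists_nat_pow_near (x := 1 + x * exp 1 * r) (y := 4)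
    (le_add_of_nonneg_right (by positivity)) (by norm_num)
  have dk : (d : ℝ) ≤ log ν + 3 * 4 ^ k := by
    rw [← exp_le_exp, exp_add, exp_log ν0, ← exp_one_pow]
    refine (pow_le_pow_left₀ (by positivity) (by linarith) d).trans (d1.trans (le_trans ?_ hω))
    have : r ≤ 1 / 36 := by nlinarith
    nlinarith [mul_le_mul_of_nonneg_left this (mul_pos x0 (exp_pos 1)).le]
  refine iter hK a0 A0 (by positivity) x0 (one_div_pos.2 x0).le (d + 1) (ω := 4 ^ (d + 1) / r)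
    (fun y hy h => base hK (by positivity) (by linarith) ?_ ?_) 1 ?_ le_rfl ?_
  · have := mul_le_mul_of_nonneg_right hy (one_div_pos.2 x0).le
    rw [mul_one_div_cancel x0.ne'] at this
    nlinarith [mul_le_mul_of_nonneg_left (add_one_le_exp (1 / x)) (x0.le.trans hy)]
  · refine (mul_le_mul_of_nonneg_right h (by positivity)).trans_eq ?_
    rw [hr]; field_simp
  · have a1 : 3 * ((d + 1 : ℕ) : ℝ) * (s / 4 ^ k / a) ≤ 1 / 3 := by
      rw [show 3 * ((d + 1 : ℕ) : ℝ) * (s / 4 ^ k / a) = 3 * (d + 1) * (s / a) / 4 ^ k by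
        push_cast; ring, div_le_iff₀ q0]
      nlinarith [d.cast_nonneg (α := ℝ)]
    have a2 : 4 ^ (d + 1) * (1 + A) / x ≤ 2 / 3 := by
      rw [div_le_iff₀ x0, pow_succ]
      nlinarith [mul_le_mul_of_nonneg_right d1 (by linarith : 0 ≤ 1 + A),
        mul_le_mul_of_nonneg_left r1 x0.le,
        mul_le_mul_of_nonneg_right e3 (by positivity : 0 ≤ x * r * (1 + A))]
    have : 4 ^ (d + 1) * (1 + A) / x = 4 ^ (d + 1) * (1 / x) + 4 ^ (d + 1) * (A / x) := by ring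
    linarith [div_nonneg A0 x0.le]
  · rw [le_div_iff₀ r0]
    linarith

lemma stage (τ0 : 0 < τ) (n0 : 0 ≤ n) : ∃ m, W K a A τ s n m := by
  obtain ⟨k, hk⟩ := pow_unbounded_of_one_lt (36 * (s / a)) (by norm_num : (1 : ℝ) < 4)
  induction k generalizing s n with
  | zero => exact small hK a0 A0 s0 τ0 (by linarith) n0
  | succ k ih =>
    have i : ∀ n, 0 ≤ n → ∃ m, W K a A τ (s / 4) n m ∧ 0 ≤ m * (1 + s / a) + A := fun n hn => by
      obtain ⟨m, hm⟩ := ih (s := s / 4) (by positivity) hn (by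
        rw [pow_succ] at hk; rw [div_right_comm]; linarith)
      have := hn.trans (hm (fun _ => a) fun _ => le_rfl).1
      exact ⟨m, hm, by positivity⟩
    obtain ⟨m0, h0, p0⟩ := i n n0
    obtain ⟨m1, h1, p1⟩ := i _ p0
    obtain ⟨m2, h2, p2⟩ := i _ p1
    obtain ⟨m3, h3, -⟩ := i _ p2
    exact ⟨m3, four hK a0 A0 s0 n0 h0 h1 h2 h3 le_rfl le_rfl le_rfl⟩

end Pool.Agent.H27.Dust
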