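import Pool.Agent.H27.Dust1

/-! Common hypercyclic vectors over the four-corner Cantor set. -/

open Real Set Filter Topology TopologicalSpace

namespace Pool.Agent.H27.Dust

lemma targets : ∃ (u : ℕ → Bool → ℕ → ℂ) (M : ℕ → ℝ), (∀ j i n, ‖u j i n‖ ≤ M j) ∧
    (∀ j i (n : ℕ), M j ≤ n → u j i n = 0) ∧ ∀ v : Bool → ℕ → ℂ, (∀ i, Tendsto (v i) atTop (𝓝 0)) →
      ∀ η > 0, ∀ J, ∃ j ≥ J, ∀ i n, ‖u j i n - v i n‖ < η := by
  let w : ℕ → ℕ → Bool → ℕ → ℂ := fun N k i n =>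
    if h : n < N then denseSeq (Fin N → Bool → ℂ) k ⟨n, h⟩ i else 0
  refine ⟨fun j => w j.unpair.1.unpair.1 j.unpair.1.unpair.2, fun j => j.unpair.1.unpair.1 +
    ‖denseSeq (Fin j.unpair.1.unpair.1 → Bool → ℂ) j.unpair.1.unpair.2‖, fun j i n => ?_,
      fun j i n h => dif_neg ?_, fun v hv η η0 J => ?_⟩
  · simp only [w]
    split_ifs
    · exact ((norm_le_pi_norm _ _).trans (norm_le_pi_norm _ _)).trans
        (le_add_of_nonneg_left (by positivity))
    · rw [norm_zero]; positivity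
  · exact not_lt.2 (by exact_mod_cast (le_add_of_nonneg_right (norm_nonneg _)).trans h)
  obtain ⟨N, hN⟩ := eventually_atTop.1 (eventually_all.2 fun i => Metric.tendsto_nhds.1 (hv i) η η0)
  obtain ⟨k, hk⟩ := (denseRange_denseSeq (Fin N → Bool → ℂ)).exists_dist_lt
    (fun n i => v i n) η0
  refine ⟨(N.pair k).pair J, Nat.right_le_pair _ _, fun i n => ?_⟩
  simp only [Nat.unpair_pair, w]
  split_ifs with h
  · rw [← dist_eq_norm, dist_comm]
    exact ((dist_le_pi_dist _ _ i).trans (dist_le_pi_dist (fun (n : Fin N) i => v i n) _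
      ⟨n, h⟩)).trans_lt hk
  · simpa using hN n (not_lt.1 h) i

theorem main {K : Set ℝ} (hK : ∀ t ∈ K, 0 ≤ t ∧ t ≤ 1 ∧ ∃ e : Bool, ∃ t' ∈ K,
    t = (if e then 3 / 4 else 0) + t' / 4) {a s : ℝ} (a0 : 0 < a) (s0 : 0 < s) {c : Bool → ℝ}
    (hc : ∀ i, a ≤ c i) : ∃ x : Bool → ℕ → ℂ, (∀ i, Tendsto (x i) atTop (𝓝 0)) ∧
      ∀ p : Bool → ℝ, (∀ i, ∃ t ∈ K, p i = c i + s * t) → ∀ v : Bool → ℕ → ℂ,
        (∀ i, Tendsto (v i) atTop (𝓝 0)) → ∀ η > 0, ∃ k : ℕ, ∀ i n,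
          ‖(exp (k * p i) : ℝ) * x i (n + k) - v i n‖ < η := by
  classical
  obtain ⟨u, M, hM, u0, hu⟩ := targets
  have M0 : ∀ j, 0 ≤ M j := fun j => (norm_nonneg _).trans (hM j true 0)
  set B : ℕ → ℝ := fun j => M j + (1 + M j * (j + 1)) / a with hB
  have B0 : ∀ j, 0 ≤ B j := fun j => by have := M0 j; positivity
  set A : ℕ → ℝ := fun j => ∑ i ∈ Finset.range (j + 1), B i with hA
  have Am : Monotone A := monotone_nat_of_le_succ fun j => by
    simp only [hA, Finset.sum_range_succ _ (j + 1)]; linarith [B0 (j + 1)]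
  have BA : ∀ j, B j ≤ A j := fun j =>
    Finset.single_le_sum (fun i _ => B0 i) (Finset.self_mem_range_succ j)
  have A0 : ∀ j, 0 ≤ A j := fun j => (B0 j).trans (BA j)
  have MA : ∀ j, M j ≤ A j := fun j => le_trans (le_add_of_nonneg_right (by
    have := M0 j; positivity)) (BA j)
  have ME : ∀ j : ℕ, M j ≤ exp (A j * a - 1) / (j + 1) := fun j => by
    have := mul_le_mul_of_nonneg_right (BA j) a0.le
    simp only [hB] at this
    rw [add_mul, div_mul_cancel₀ _ a0.ne'] at this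
    rw [le_div_iff₀ (by positivity)]
    nlinarith [add_one_le_exp (A j * a - 1), mul_nonneg (M0 j) a0.le]
  set τ : ℕ → ℝ := fun j => 1 / (2 * (M j + 1) * (j + 1)) with hτ
  have τ0 : ∀ j, 0 < τ j := fun j => by have := M0 j; positivity
  have τ1 : ∀ j, τ j ≤ 1 := fun j => (div_le_one (by have := M0 j; positivity)).2 (by
    nlinarith [M0 j, j.cast_nonneg (α := ℝ), mul_nonneg (M0 j) j.cast_nonneg])
  choose F hF using fun j (m : ℝ) => stage hK a0 (A0 j) s0 (τ0 j)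
    (n := |m| * (1 + s / a) + 2 * A j) (by have := A0 j; positivity)
  let μ : ℕ → ℝ := fun j => Nat.rec 0 F j
  choose l S h1 h2 h3 using fun j => hF j (μ j) c hc
  change ∀ j, _ ≤ μ (j + 1) at l
  have sa := div_pos s0 a0
  have μm : Monotone μ := monotone_nat_of_le_succ fun j => by
    nlinarith [l j, le_abs_self (μ j), abs_nonneg (μ j), A0 j]
  have cmp : ∀ j z j' w, z ∈ S j → w ∈ S j' → (j, z) ≠ (j', w) →
      j ≤ j' ∧ St a (A j') z w ∨ j' ≤ j ∧ St a (A j) w z := by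
    have : ∀ j z j' w, z ∈ S j → w ∈ S j' → j < j' → St a (A j') z w := fun j z j' w hz hw h =>
      tr a0 (A0 _) s0.le hc (m := |μ j'|) ((h1 j z hz).2.1.trans ((μm h).trans (le_abs_self _)))
        (by linarith [(h1 j' w hw).1, A0 j']) (fun i => ((h1 j z hz).2.2 i).2)
          fun i => ((h1 j' w hw).2.2 i).1
    intro j z j' w hz hw e
    rcases lt_trichotomy j j' with h | rfl | h
    exacts [Or.inl ⟨h.le, this _ _ _ _ hz hw h⟩, (h2 j hz hw fun h => e (by rw [h])).imp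
      (⟨le_rfl, ·⟩) (⟨le_rfl, ·⟩), Or.inr ⟨h.le, this _ _ _ _ hw hz h⟩]
  let E : ℕ → ℕ × ℕ × (Bool → ℝ) → Prop := fun n q =>
    q.2 ∈ S q.1 ∧ q.2.1 ≤ n ∧ (n : ℝ) < q.2.1 + A q.1
  let x : Bool → ℕ → ℂ := fun i n => if h : ∃ q, E n q then
    (exp (-(h.choose.2.1 * h.choose.2.2 i)) : ℝ) * u h.choose.1 i (n - h.choose.2.1) else 0
  have hx : ∀ n, (∃ q, E n q ∧ ∀ i, x i n = (exp (-(q.2.1 * q.2.2 i)) : ℝ) * u q.1 i (n - q.2.1)) ∨
      ((∀ q, ¬E n q) ∧ ∀ i, x i n = 0) := fun n => by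
    by_cases h : ∃ q, E n q
    exacts [Or.inl ⟨_, h.choose_spec, fun i => dif_pos h⟩,
      Or.inr ⟨not_exists.1 h, fun i => dif_neg h⟩]
  refine ⟨x, fun i => squeeze_zero_norm (a := fun n : ℕ => exp (-(n * (a / 3)))) (fun n => ?_)
    (tendsto_exp_neg_atTop_nhds_zero.comp (tendsto_natCast_atTop_atTop.atTop_mul_const
      (by positivity))), fun p hp v hv η η0 => ?_⟩
  · rcases hx n with ⟨⟨j, z⟩, ⟨e1, e2, e3⟩, e⟩ | ⟨-, e⟩
    swap
    · rw [e, norm_zero]; positivity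
    rw [e, norm_mul, Complex.norm_real, norm_of_nonneg (exp_pos _).le]
    refine (mul_le_mul_of_nonneg_left ((hM _ _ _).trans ((ME j).trans (div_le_self (exp_pos _).le
      (by simp)))) (exp_pos _).le).trans ?_
    rw [← exp_add, exp_le_exp]
    obtain ⟨b1, -, b2⟩ := h1 j z e1
    have b3 : 2 * A j ≤ z.1 := le_trans (le_add_of_nonneg_left (by positivity)) b1
    simp only at e3 ⊢
    nlinarith [mul_le_mul_of_nonneg_left ((hc i).trans (b2 i).1) z.1.cast_nonneg]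
  obtain ⟨J, hJ⟩ := exists_nat_one_div_lt (half_pos η0)
  obtain ⟨j, jJ, hj⟩ := hu v hv _ (half_pos η0) J
  obtain ⟨z, zS, hz⟩ := h3 j p hp
  refine ⟨z.1, fun i n => ?_⟩
  suffices ‖(exp (z.1 * p i) : ℝ) * x i (n + z.1) - u j i n‖ ≤ 1 / (j + 1) by
    have b : (1 : ℝ) / (j + 1) ≤ 1 / (J + 1) := by gcongr
    linarith [hj i n, norm_sub_le_norm_sub_add_norm_sub ((exp (z.1 * p i) : ℝ) * x i (n + z.1))
      (u j i n) (v i n)]
  have θ : |z.1 * (p i - z.2 i)| ≤ τ j := by rw [abs_mul, Nat.abs_cast]; exact hz i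
  rcases hx (n + z.1) with ⟨⟨j', w⟩, ⟨e1, e2, e3⟩, e⟩ | ⟨e1, e⟩
  swap
  · have := e1 (j, z)
    simp only [E, zS, le_add_iff_nonneg_left, zero_le, true_and, Nat.cast_add, not_lt] at this
    rw [e, u0 j i n (by linarith [MA j]), mul_zero, sub_zero, norm_zero]
    positivity
  simp only [Nat.cast_add] at e e1 e2 e3
  rw [e, ← mul_assoc, ← Complex.ofReal_mul, ← exp_add]
  by_cases h : (j, z) = (j', w)
  · obtain ⟨rfl, rfl⟩ := Prod.mk.inj h
    rw [Nat.add_sub_cancel, ← sub_one_mul, norm_mul, ← Complex.ofReal_one, ← Complex.ofReal_sub,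
      Complex.norm_real, norm_eq_abs, ← sub_eq_add_neg, ← mul_sub]
    refine (mul_le_mul ((abs_exp_sub_one_le (θ.trans (τ1 j))).trans (mul_le_mul_of_nonneg_left θ
      zero_le_two)) ((hM _ _ _).trans (le_add_of_nonneg_right zero_le_one)) (norm_nonneg _)
        (by have := τ0 j; positivity)).trans_eq ?_
    have := M0 j
    simp only [hτ]
    field_simp
  rcases cmp j z j' w zS e1 h with ⟨b1, b2, b3⟩ | ⟨b1, b2, -⟩
  swap
  · linarith [Am b1, n.cast_nonneg (α := ℝ)]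
  have e2' : (w.1 : ℝ) ≤ n + z.1 := by exact_mod_cast e2
  rw [u0 j i n (by linarith [MA j, Am b1]), sub_zero, norm_mul, Complex.norm_real,
    norm_of_nonneg (exp_pos _).le]
  refine (mul_le_mul_of_nonneg_left ((hM _ _ _).trans (ME j')) (exp_pos _).le).trans ?_
  rw [← mul_div_assoc, ← exp_add]
  gcongr
  exact exp_le_one_iff.2 (by linarith [b3 i, τ1 j, (abs_le.1 θ).2])

end Pool.Agent.H27.Dust
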