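import Mathlib

/-! Holomorphic dependence on parameters, root multisets and Newton identities. -/

open Set Metric Complex Filter Topology MeasureTheory

namespace Pool.Agent.H27.Elim

variable {X : Type*} [NormedAddCommGroup X] [NormedSpace ℂ X] [FiniteDimensional ℂ X]

lemma param_diff {Φ : X × ℂ → ℂ} {O : Set (X × ℂ)} (hO : IsOpen O) (hΦ : DifferentiableOn ℂ Φ O)
    {x0 : X} {c : ℂ} {R : ℝ} (hR : 0 ≤ R) (hx : ∀ ζ ∈ sphere c R, (x0, ζ) ∈ O) :
    DifferentiableAt ℂ (fun x => ∮ ζ in C(c, R), Φ (x, ζ)) x0 := by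
  haveI : ProperSpace X := FiniteDimensional.proper ℂ X
  borelize X
  have hK : IsCompact (({x0} : Set X) ×ˢ sphere c R) := isCompact_singleton.prod (isCompact_sphere c R)
  obtain ⟨ε, ε0, hε⟩ := hK.exists_cthickening_subset_open hO (by
    rintro ⟨x, ζ⟩ ⟨h1, h2⟩
    rw [mem_singleton_iff] at h1
    simp only at h1 h2
    rw [h1]
    exact hx ζ h2)
  obtain ⟨M, hM⟩ := (hK.cthickening (r := ε)).exists_bound_of_continuousOn
    (hΦ.continuousOn.mono hε)
  have hin : ∀ x ∈ ball x0 (ε / 2), ∀ θ, ∀ p ∈ ball (x, circleMap c R θ) (ε / 2),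
      p ∈ cthickening ε (({x0} : Set X) ×ˢ sphere c R) := by
    intro x hx θ p hp
    refine mem_cthickening_of_dist_le p (x0, circleMap c R θ) ε _
      ⟨rfl, circleMap_mem_sphere c hR θ⟩ ?_
    have h1 : dist (x, circleMap c R θ) (x0, circleMap c R θ) = dist x x0 := by simp
    rw [mem_ball] at hx hp
    linarith [dist_triangle p (x, circleMap c R θ) (x0, circleMap c R θ)]
  have hin' : ∀ x ∈ ball x0 (ε / 2), ∀ θ, (x, circleMap c R θ) ∈ O := fun x hx θ =>
    hε (hin x hx θ _ (mem_ball_self (half_pos ε0)))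
  have hcont : ∀ x ∈ ball x0 (ε / 2), Continuous fun θ =>
      deriv (circleMap c R) θ • Φ (x, circleMap c R θ) := by
    intro x hx
    simp only [deriv_circleMap]
    exact ((continuous_circleMap 0 R).mul continuous_const).smul
      (hΦ.continuousOn.comp_continuous (continuous_const.prodMk (continuous_circleMap c R))
        (hin' x hx))
  have hx0 : x0 ∈ ball x0 (ε / 2) := mem_ball_self (half_pos ε0)
  refine (intervalIntegral.hasFDerivAt_integral_of_dominated_of_fderiv_le (𝕜 := ℂ) (μ := volume)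
    (F := fun x θ => deriv (circleMap c R) θ • Φ (x, circleMap c R θ))
    (F' := fun x θ => deriv (circleMap c R) θ •
      (fderiv ℂ Φ (x, circleMap c R θ)).comp (ContinuousLinearMap.inl ℂ X ℂ))
    (bound := fun _ => R * (2 * M / (ε / 2))) (ball_mem_nhds x0 (half_pos ε0)) ?_
    ((hcont x0 hx0).intervalIntegrable _ _) ?_ ?_ (continuous_const.intervalIntegrable _ _)
    ?_).differentiableAt
  · filter_upwards [ball_mem_nhds x0 (half_pos ε0)] with x hx using
      (hcont x hx).aestronglyMeasurable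
  · simp only [deriv_circleMap]
    refine ((continuous_circleMap 0 R).mul continuous_const).aestronglyMeasurable.smul ?_
    have m1 : AEStronglyMeasurable (fun θ => fderiv ℂ Φ (x0, circleMap c R θ))
        (volume.restrict (uIoc 0 (2 * Real.pi))) :=
      ((measurable_fderiv ℂ Φ).comp
        (continuous_const.prodMk (continuous_circleMap c R)).measurable).aestronglyMeasurable
    have hc : Continuous fun L : X × ℂ →L[ℂ] ℂ => L.comp (ContinuousLinearMap.inl ℂ X ℂ) :=
      continuous_id.clm_comp continuous_const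
    exact hc.comp_aestronglyMeasurable m1
  · refine ae_of_all _ fun θ _ x hx => ?_
    rw [norm_smul, deriv_circleMap, norm_mul, norm_I, mul_one, norm_circleMap_zero,
      abs_of_nonneg hR]
    refine mul_le_mul_of_nonneg_left ((ContinuousLinearMap.opNorm_comp_le _ _).trans
      ((mul_le_of_le_one_right (norm_nonneg _) (ContinuousLinearMap.norm_inl_le_one ℂ X ℂ)).trans
        ?_)) hR
    refine Complex.norm_fderiv_le_div_of_mapsTo_ball (hΦ.mono fun y hy => hε (hin x hx θ y hy))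
      (fun y hy => ?_) (half_pos ε0)
    rw [mem_closedBall, dist_eq_norm]
    have h1 := hM _ (hin x hx θ y hy)
    have h2 := hM _ (hin x hx θ _ (mem_ball_self (half_pos ε0)))
    linarith [norm_sub_le (Φ y) (Φ (x, circleMap c R θ))]
  · refine ae_of_all _ fun θ _ x hx => ?_
    have := (hΦ.differentiableAt (hO.mem_nhds (hin' x hx θ))).hasFDerivAt
    exact (HasFDerivAt.comp x (g := Φ) (f := fun x => (x, circleMap c R θ)) this
      (hasFDerivAt_prodMk_left x (circleMap c R θ))).const_smul (deriv (circleMap c R) θ)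

omit [NormedSpace ℂ X] [FiniteDimensional ℂ X] in
lemma polydisc {O : Set (X × ℂ)} (hO : IsOpen O) {p : X × ℂ} (hp : p ∈ O) :
    ∃ R > 0, ∀ x ∈ ball p.1 R, ∀ ζ ∈ closedBall p.2 R, (x, ζ) ∈ O := by
  obtain ⟨ε, ε0, hε⟩ := nhds_basis_closedBall.mem_iff.1 (hO.mem_nhds hp)
  refine ⟨ε, ε0, fun x hx ζ hζ => hε ?_⟩
  rw [← closedBall_prod_same]
  exact ⟨ball_subset_closedBall hx, hζ⟩

omit [FiniteDimensional ℂ X] in
lemma slice_diff {Φ : X × ℂ → ℂ} {O : Set (X × ℂ)} (hΦ : DifferentiableOn ℂ Φ O) (x : X) :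
    DifferentiableOn ℂ (fun ζ => Φ (x, ζ)) {ζ | (x, ζ) ∈ O} :=
  hΦ.comp (by fun_prop) fun _ h => h

omit [NormedSpace ℂ X] [FiniteDimensional ℂ X] in
lemma slice_open {O : Set (X × ℂ)} (hO : IsOpen O) (x : X) : IsOpen {ζ | (x, ζ) ∈ O} :=
  hO.preimage (continuous_const.prodMk continuous_id)

lemma kernel_diff {Φ : X × ℂ → ℂ} {O : Set (X × ℂ)} (hO : IsOpen O) (hΦ : DifferentiableOn ℂ Φ O)
    {p : X × ℂ} {R : ℝ} (hR : 0 < R) (h : ∀ ζ ∈ closedBall p.2 R, (p.1, ζ) ∈ O) (k : ℕ) :
    DifferentiableAt ℂ (fun x : X × ℂ => ∮ ζ in C(p.2, R), ((ζ - x.2) ^ k)⁻¹ • Φ (x.1, ζ)) p := by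
  refine param_diff (X := X × ℂ) (Φ := fun z => ((z.2 - z.1.2) ^ k)⁻¹ • Φ (z.1.1, z.2))
    (O := {z | (z.1.1, z.2) ∈ O ∧ z.2 ≠ z.1.2}) ?_ ?_ hR.le ?_
  · exact (hO.preimage (by fun_prop)).inter (isOpen_ne_fun (by fun_prop) (by fun_prop))
  · intro z hz
    have a1 : DifferentiableAt ℂ (fun z : (X × ℂ) × ℂ => ((z.2 - z.1.2) ^ k)⁻¹) z :=
      DifferentiableAt.inv (by fun_prop) (pow_ne_zero _ (sub_ne_zero.2 hz.2))
    have a2 : DifferentiableAt ℂ (fun z : (X × ℂ) × ℂ => Φ (z.1.1, z.2)) z :=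
      (hΦ.differentiableAt (hO.mem_nhds hz.1)).comp z (by fun_prop)
    exact (a1.smul a2).differentiableWithinAt
  · intro ζ hζ
    refine ⟨h ζ (sphere_subset_closedBall hζ), fun h' => ?_⟩
    simp only at h'
    rw [h', mem_sphere, dist_self] at hζ
    exact hR.ne hζ

lemma pderiv_diff {Φ : X × ℂ → ℂ} {O : Set (X × ℂ)} (hO : IsOpen O)
    (hΦ : DifferentiableOn ℂ Φ O) :
    DifferentiableOn ℂ (fun p : X × ℂ => deriv (fun ζ => Φ (p.1, ζ)) p.2) O := by
  intro p hp
  obtain ⟨R, hR, h⟩ := polydisc hO hp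
  have h1 := (kernel_diff hO hΦ hR (h _ (mem_ball_self hR)) 2).const_smul
    (2 * Real.pi * I : ℂ)⁻¹
  refine (h1.congr_of_eventuallyEq ?_).differentiableWithinAt
  filter_upwards [ball_mem_nhds p hR] with x hx
  rw [← ball_prod_same] at hx
  exact (two_pi_I_inv_smul_circleIntegral_sub_sq_inv_smul_of_differentiable (slice_open hO x.1)
    (fun ζ hζ => h _ hx.1 ζ hζ) (slice_diff hΦ x.1) hx.2).symm

lemma quot_diff {Φ : X × ℂ → ℂ} {O : Set (X × ℂ)} (hO : IsOpen O) (hΦ : DifferentiableOn ℂ Φ O)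
    (h0 : ∀ y, (y, 0) ∈ O → Φ (y, 0) = 0) :
    ∃ Ψ : X × ℂ → ℂ, DifferentiableOn ℂ Ψ O ∧ ∀ p : X × ℂ, p.2 ≠ 0 → Ψ p = p.2⁻¹ * Φ p := by
  classical
  refine ⟨fun p => if p.2 = 0 then deriv (fun ζ => Φ (p.1, ζ)) 0 else p.2⁻¹ * Φ p, ?_,
    fun p hp => if_neg hp⟩
  intro p hp
  by_cases hp2 : p.2 = 0
  · obtain ⟨R, hR, h⟩ := polydisc hO hp
    have hO' : IsOpen (O ∩ {z | z.2 ≠ 0}) := hO.inter (isOpen_ne_fun (by fun_prop) (by fun_prop))
    have h1 : DifferentiableAt ℂ (fun x : X × ℂ =>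
        ∮ ζ in C(p.2, R), (ζ - x.2)⁻¹ • (ζ⁻¹ * Φ (x.1, ζ))) p := by
      refine param_diff (X := X × ℂ) (Φ := fun z => (z.2 - z.1.2)⁻¹ • (z.2⁻¹ * Φ (z.1.1, z.2)))
        (O := {z | (z.1.1, z.2) ∈ O ∧ z.2 ≠ z.1.2 ∧ z.2 ≠ 0}) ?_ ?_ hR.le ?_
      · exact (hO.preimage (by fun_prop)).inter
          ((isOpen_ne_fun (by fun_prop) (by fun_prop)).inter
            (isOpen_ne_fun (by fun_prop) (by fun_prop)))
      · intro z hz
        have a1 : DifferentiableAt ℂ (fun z : (X × ℂ) × ℂ => (z.2 - z.1.2)⁻¹) z :=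
          DifferentiableAt.inv (by fun_prop) (sub_ne_zero.2 hz.2.1)
        have a3 : DifferentiableAt ℂ (fun z : (X × ℂ) × ℂ => z.2⁻¹) z :=
          DifferentiableAt.inv (by fun_prop) hz.2.2
        have a2 : DifferentiableAt ℂ (fun z : (X × ℂ) × ℂ => Φ (z.1.1, z.2)) z :=
          (hΦ.differentiableAt (hO.mem_nhds hz.1)).comp z (by fun_prop)
        exact (a1.smul (a3.mul a2)).differentiableWithinAt
      · intro ζ hζ
        have : ζ ≠ p.2 := fun h' => by
          rw [h', mem_sphere, dist_self] at hζ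
          exact hR.ne hζ
        exact ⟨h _ (mem_ball_self hR) ζ (sphere_subset_closedBall hζ), this, hp2 ▸ this⟩
    refine ((h1.const_smul (2 * Real.pi * I : ℂ)⁻¹).congr_of_eventuallyEq ?_).differentiableWithinAt
    filter_upwards [ball_mem_nhds p hR] with x hx
    rw [← ball_prod_same] at hx
    have hz : (x.1, 0) ∈ O := h _ hx.1 0 (by rw [hp2]; exact mem_closedBall_self hR.le)
    have hd : DifferentiableOn ℂ (dslope (fun ζ => Φ (x.1, ζ)) 0) (closedBall p.2 R) :=
      ((differentiableOn_dslope ((slice_open hO x.1).mem_nhds hz)).2 (slice_diff hΦ x.1)).mono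
        fun ζ hζ => h _ hx.1 ζ hζ
    have hv : ∀ ζ : ℂ, ζ ≠ 0 → dslope (fun ζ => Φ (x.1, ζ)) 0 ζ = ζ⁻¹ * Φ (x.1, ζ) := by
      intro ζ hζ
      rw [dslope_of_ne _ hζ, slope_def_field, h0 _ hz, sub_zero, sub_zero, div_eq_inv_mul]
    have h2 := hd.circleIntegral_sub_inv_smul hx.2
    have h3 : (∮ ζ in C(p.2, R), (ζ - x.2)⁻¹ • (ζ⁻¹ * Φ (x.1, ζ))) =
        ∮ ζ in C(p.2, R), (ζ - x.2)⁻¹ • dslope (fun ζ => Φ (x.1, ζ)) 0 ζ := by
      refine circleIntegral.integral_congr hR.le fun ζ hζ => ?_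
      have : ζ ≠ 0 := fun h' => by
        rw [h', hp2, mem_sphere, dist_self] at hζ
        exact hR.ne hζ
      simp only [hv ζ this]
    simp only [Pi.smul_apply]
    rw [h3, h2, smul_smul, inv_mul_cancel₀ two_pi_I_ne_zero, one_smul]
    split_ifs with h4
    · rw [h4, dslope_same]
    · exact (hv _ h4).symm
  · have h1 : DifferentiableAt ℂ (fun p : X × ℂ => p.2⁻¹ * Φ p) p :=
      (differentiableAt_snd.inv hp2).mul (hΦ.differentiableAt (hO.mem_nhds hp))
    refine (h1.congr_of_eventuallyEq ?_).differentiableWithinAt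
    filter_upwards [(isOpen_ne_fun continuous_snd continuous_const).mem_nhds hp2] with x hx
    exact if_neg hx

lemma factor {K : Set ℂ} (n : ℕ) : ∀ f : ℂ → ℂ, AnalyticOnNhd ℂ f K →
    (∀ z ∈ K, ¬ ∀ᶠ w in 𝓝 z, f w = 0) → {z ∈ K | f z = 0}.Finite → {z ∈ K | f z = 0}.ncard = n →
    ∃ (s : Multiset ℂ) (g : ℂ → ℂ), AnalyticOnNhd ℂ g K ∧ (∀ z ∈ K, g z ≠ 0) ∧ (∀ a ∈ s, a ∈ K) ∧
      f = fun z => (s.map fun a => z - a).prod * g z := by
  classical
  induction n with
  | zero =>
    intro f hf _ hfin hn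
    rw [Set.ncard_eq_zero hfin] at hn
    refine ⟨0, f, hf, fun z hz h => ?_, by simp, by simp⟩
    have : z ∈ {z ∈ K | f z = 0} := ⟨hz, h⟩
    rw [hn] at this
    exact this
  | succ n ih =>
    intro f hf hne hfin hn
    obtain ⟨z0, hz0K, hz0⟩ : {z ∈ K | f z = 0}.Nonempty := Set.nonempty_of_ncard_ne_zero (by omega)
    obtain ⟨m, g, hg, hg0, hfg⟩ :=
      (hf z0 hz0K).exists_eventuallyEq_pow_smul_nonzero_iff.2 (hne z0 hz0K)
    have hm : m ≠ 0 := by
      rintro rfl
      have := hfg.self_of_nhds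
      simp only [pow_zero, one_smul] at this
      exact hg0 (this ▸ hz0)
    set f1 : ℂ → ℂ := fun z => if z = z0 then g z0 else f z / (z - z0) ^ m with hf1
    have e1 : ∀ z, f z = (z - z0) ^ m * f1 z := by
      intro z
      by_cases h : z = z0
      · rw [h, hz0, sub_self, zero_pow hm, zero_mul]
      · simp only [hf1, if_neg h]
        have := pow_ne_zero m (sub_ne_zero.2 h)
        field_simp
    have e2 : f1 =ᶠ[𝓝 z0] g := by
      filter_upwards [hfg] with z hz
      by_cases h : z = z0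
      · simp only [hf1, h, if_true]
      · simp only [hf1, if_neg h, hz, smul_eq_mul]
        have := pow_ne_zero m (sub_ne_zero.2 h)
        field_simp
    have han : AnalyticOnNhd ℂ f1 K := by
      intro z hz
      by_cases h : z = z0
      · rw [h]; exact hg.congr e2.symm
      · have : AnalyticAt ℂ (fun w => f w / (w - z0) ^ m) z :=
          (hf z hz).div (by fun_prop) (pow_ne_zero m (sub_ne_zero.2 h))
        refine this.congr ?_
        filter_upwards [isOpen_ne.mem_nhds h] with w hw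
        simp only [hf1, if_neg hw]
    have hz : {z ∈ K | f1 z = 0} = {z ∈ K | f z = 0} \ {z0} := by
      ext z
      simp only [mem_setOf_eq, mem_diff, mem_singleton_iff]
      constructor
      · rintro ⟨h1, h2⟩
        refine ⟨⟨h1, by rw [e1, h2, mul_zero]⟩, fun h => ?_⟩
        simp only [hf1, h, if_true] at h2
        exact hg0 h2
      · rintro ⟨⟨h1, h2⟩, h3⟩
        exact ⟨h1, by simp only [hf1, if_neg h3, h2, zero_div]⟩
    obtain ⟨s, g', h1, h2, h3, h4⟩ := ih f1 han (fun z hz h => hne z hz (by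
        filter_upwards [h] with w hw
        rw [e1, hw, mul_zero])) (hz ▸ hfin.diff) (by
      rw [hz, Set.ncard_diff_singleton_of_mem (by exact ⟨hz0K, hz0⟩), hn]; rfl)
    refine ⟨Multiset.replicate m z0 + s, g', h1, h2, fun a ha => ?_, ?_⟩
    · rcases Multiset.mem_add.1 ha with h | h
      · rw [Multiset.eq_of_mem_replicate h]; exact hz0K
      · exact h3 a h
    · funext z
      rw [e1, congrFun h4 z]
      simp [mul_assoc]

lemma int_prod {c : ℂ} {R : ℝ} (hR : 0 < R) {g φ : ℂ → ℂ} (hg : AnalyticOnNhd ℂ g (closedBall c R))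
    (hg0 : ∀ z ∈ closedBall c R, g z ≠ 0) (hφ : AnalyticOnNhd ℂ φ (closedBall c R))
    (s : Multiset ℂ) (hs : ∀ a ∈ s, a ∈ ball c R) :
    AnalyticOnNhd ℂ (fun z => (s.map fun a => z - a).prod * g z) (closedBall c R) ∧
    (∀ z ∈ sphere c R, (s.map fun a => z - a).prod * g z ≠ 0) ∧
    (∮ z in C(c, R), φ z * logDeriv (fun z => (s.map fun a => z - a).prod * g z) z) =
      2 * Real.pi * I * (s.map φ).sum := by
  induction s using Multiset.induction_on with
  | empty =>
    simp only [Multiset.map_zero, Multiset.prod_zero, one_mul, Multiset.sum_zero, mul_zero]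
    refine ⟨hg, fun z hz => hg0 z (sphere_subset_closedBall hz), ?_⟩
    have : AnalyticOnNhd ℂ (fun z => φ z * logDeriv g z) (closedBall c R) := fun z hz =>
      (hφ z hz).mul ((hg z hz).deriv.div (hg z hz) (hg0 z hz))
    exact (this.differentiableOn.diffContOnCl_ball Subset.rfl).circleIntegral_eq_zero hR.le
  | cons a s ih =>
    obtain ⟨h1, h2, h3⟩ := ih fun b hb => hs b (Multiset.mem_cons_of_mem hb)
    have ha := hs a (Multiset.mem_cons_self a s)
    have hne : ∀ z ∈ sphere c R, z - a ≠ 0 := fun z hz h => by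
      rw [sub_eq_zero] at h
      rw [h, mem_sphere] at hz
      exact (mem_ball.1 ha).ne hz
    simp only [Multiset.map_cons, Multiset.prod_cons, Multiset.sum_cons, mul_assoc]
    set G : ℂ → ℂ := fun z => (s.map fun a => z - a).prod * g z with hG
    refine ⟨fun z hz => (by fun_prop : AnalyticAt ℂ (fun z => z - a) z).mul (h1 z hz),
      fun z hz => mul_ne_zero (hne z hz) (h2 z hz), ?_⟩
    have e : (∮ z in C(c, R), φ z * logDeriv (fun z => (z - a) * G z) z) =
        ∮ z in C(c, R), ((z - a)⁻¹ • φ z + φ z * logDeriv G z) := by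
      refine circleIntegral.integral_congr hR.le fun z hz => ?_
      have := logDeriv_mul (f := fun z => z - a) (g := G) z (hne z hz) (h2 z hz) (by fun_prop)
        (h1 z (sphere_subset_closedBall hz)).differentiableAt
      show φ z * logDeriv (fun z => (z - a) * G z) z = (z - a)⁻¹ • φ z + φ z * logDeriv G z
      rw [this, logDeriv_apply (fun z => z - a)]
      simp only [deriv_sub_const, deriv_id'', smul_eq_mul]
      ring
    have i1 : CircleIntegrable (fun z => (z - a)⁻¹ • φ z) c R :=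
      ContinuousOn.circleIntegrable hR.le (ContinuousOn.smul
        (ContinuousOn.inv₀ (by fun_prop) hne) (hφ.continuousOn.mono sphere_subset_closedBall))
    have i2 : CircleIntegrable (fun z => φ z * logDeriv G z) c R :=
      ContinuousOn.circleIntegrable hR.le fun z hz =>
        ((hφ z (sphere_subset_closedBall hz)).mul
          ((h1 z (sphere_subset_closedBall hz)).deriv.div (h1 z (sphere_subset_closedBall hz))
            (h2 z hz))).continuousAt.continuousWithinAt
    rw [e, circleIntegral.integral_add i1 i2, h3,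
      hφ.differentiableOn.circleIntegral_sub_inv_smul ha, smul_eq_mul]
    ring

lemma roots {c : ℂ} {R : ℝ} (hR : 0 < R) {f : ℂ → ℂ} (hf : AnalyticOnNhd ℂ f (closedBall c R))
    (h0 : ∀ z ∈ sphere c R, f z ≠ 0) :
    ∃ s : Multiset ℂ, (∀ a, a ∈ s ↔ a ∈ ball c R ∧ f a = 0) ∧
      ∀ φ : ℂ → ℂ, AnalyticOnNhd ℂ φ (closedBall c R) →
        (∮ z in C(c, R), φ z * logDeriv f z) = 2 * Real.pi * I * (s.map φ).sum := by
  obtain ⟨z1, hz1⟩ : (sphere c R).Nonempty := NormedSpace.sphere_nonempty.2 hR.le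
  have hne : ∀ z ∈ closedBall c R, ¬ ∃ᶠ w in 𝓝[≠] z, f w = 0 := fun z hz h =>
    h0 z1 hz1 (hf.eqOn_zero_of_preconnected_of_frequently_eq_zero
      (convex_closedBall c R).isPreconnected hz h (sphere_subset_closedBall hz1))
  have hfin : {z ∈ closedBall c R | f z = 0}.Finite := by
    by_contra hinf
    obtain ⟨z, hz, hacc⟩ := (Set.not_finite.1 hinf).exists_accPt_of_subset_isCompact
      (isCompact_closedBall c R) (fun z hz => hz.1)
    exact hne z hz ((accPt_iff_frequently_nhdsNE.1 hacc).mono fun w hw => hw.2)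
  obtain ⟨s, g, h1, h2, h3, h4⟩ := factor _ f hf (fun z hz h =>
    hne z hz (h.filter_mono nhdsWithin_le_nhds).frequently) hfin rfl
  have hz : ∀ a ∈ s, f a = 0 := fun a ha => by
    rw [h4]
    exact mul_eq_zero_of_left (Multiset.prod_eq_zero (Multiset.mem_map.2 ⟨a, ha, sub_self a⟩)) _
  have hs : ∀ a ∈ s, a ∈ ball c R := fun a ha =>
    lt_of_le_of_ne (mem_closedBall.1 (h3 a ha)) fun h => h0 a h (hz a ha)
  refine ⟨s, fun a => ⟨fun ha => ⟨hs a ha, hz a ha⟩, fun ⟨h5, h6⟩ => ?_⟩, fun φ hφ => ?_⟩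
  · rw [h4] at h6
    have := (mul_eq_zero.1 h6).resolve_right (h2 a (ball_subset_closedBall h5))
    obtain ⟨b, hb, hab⟩ := Multiset.mem_map.1 (Multiset.prod_eq_zero_iff.1 this)
    rwa [sub_eq_zero.1 hab]
  · rw [h4]
    exact (int_prod hR h1 h2 hφ s hs).2.2

lemma newton (t : Multiset ℂ) (k : ℕ) : (k : ℂ) * t.esymm k = (-1) ^ (k + 1) *
    ∑ a ∈ Finset.HasAntidiagonal.antidiagonal k with a.1 < k,
      (-1) ^ a.1 * t.esymm a.1 * (t.map fun z => z ^ a.2).sum := by
  induction t using Quotient.inductionOn with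
  | h l =>
    have h := congrArg (MvPolynomial.aeval (R := ℂ) l.get)
      (MvPolynomial.mul_esymm_eq_sum (Fin l.length) ℂ k)
    have e : (Finset.univ.val.map l.get : Multiset ℂ) = (l : Multiset ℂ) := by
      rw [Fin.univ_val_map, List.ofFn_get]
    simp only [map_mul, map_natCast, map_pow, map_neg, map_one, map_sum,
      MvPolynomial.aeval_esymm_eq_multiset_esymm, e, MvPolynomial.psum,
      MvPolynomial.aeval_X] at h
    have e2 : ∀ j : ℕ, ∑ i, l.get i ^ j = ((l : Multiset ℂ).map fun z => z ^ j).sum := by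
      intro j
      rw [← e, Multiset.map_map]
      rfl
    simp only [e2] at h
    exact h

omit [FiniteDimensional ℂ X] in
lemma prod_diff {B : Set X} (v : X → Multiset ℂ) (d : ℕ) (hd : ∀ x ∈ B, (v x).card = d)
    (hp : ∀ j : ℕ, DifferentiableOn ℂ (fun x => ((v x).map fun z => z ^ j).sum) B) :
    DifferentiableOn ℂ (fun x => (v x).prod) B := by
  have h : ∀ k, DifferentiableOn ℂ (fun x => (v x).esymm k) B := by
    intro k
    induction k using Nat.strong_induction_on with
    | _ k ih =>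
      rcases Nat.eq_zero_or_pos k with rfl | hk
      · simp [Multiset.esymm]
      · have hk' : (k : ℂ) ≠ 0 := by exact_mod_cast hk.ne'
        have : DifferentiableOn ℂ (fun x => (k : ℂ)⁻¹ * ((-1) ^ (k + 1) *
            ∑ a ∈ Finset.HasAntidiagonal.antidiagonal k with a.1 < k,
              (-1) ^ a.1 * (v x).esymm a.1 * ((v x).map fun z => z ^ a.2).sum)) B := by
          refine DifferentiableOn.const_mul (DifferentiableOn.const_mul
            (DifferentiableOn.fun_sum fun a ha => ?_) _) _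
          exact ((ih a.1 (Finset.mem_filter.1 ha).2).const_mul _).mul (hp a.2)
        refine this.congr fun x _ => ?_
        rw [← newton, ← mul_assoc, inv_mul_cancel₀ hk', one_mul]
  refine (h d).congr fun x hx => ?_
  rw [← hd x hx, Multiset.esymm]
  simp

end Pool.Agent.H27.Elim
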