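import Pool.Agent.H27.Elim1

/-! Elimination: a holomorphic curve selection lemma over a distinguished coordinate. -/

open Set Metric Complex Filter Topology

namespace Pool.Agent.H27.Elim

section

variable {X : Type*} [NormedAddCommGroup X] [NormedSpace ℂ X] [FiniteDimensional ℂ X]

lemma moment_diff {F φ : X × ℂ → ℂ} {O : Set (X × ℂ)} (hO : IsOpen O)
    (hF : DifferentiableOn ℂ F O) (hφ : DifferentiableOn ℂ φ O) {x0 : X} {c : ℂ} {R : ℝ}
    (hR : 0 ≤ R) (hx : ∀ ζ ∈ sphere c R, (x0, ζ) ∈ O ∧ F (x0, ζ) ≠ 0) :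
    DifferentiableAt ℂ
      (fun x => ∮ ζ in C(c, R), φ (x, ζ) * logDeriv (fun ζ => F (x, ζ)) ζ) x0 := by
  have h1 : DifferentiableOn ℂ (fun p => φ p * (deriv (fun ζ => F (p.1, ζ)) p.2 * (F p)⁻¹))
      (O ∩ F ⁻¹' {0}ᶜ) :=
    (hφ.mono inter_subset_left).mul (((pderiv_diff hO hF).mono inter_subset_left).mul
      ((hF.mono inter_subset_left).inv fun p hp => hp.2))
  simp only [logDeriv_apply, div_eq_mul_inv]
  exact param_diff (Φ := fun p => φ p * (deriv (fun ζ => F (p.1, ζ)) p.2 * (F p)⁻¹))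
    (hF.continuousOn.isOpen_inter_preimage hO isOpen_compl_singleton) h1 hR hx

omit [FiniteDimensional ℂ X] in
lemma slice_an {F : X × ℂ → ℂ} {O : Set (X × ℂ)} (hO : IsOpen O) (hF : DifferentiableOn ℂ F O)
    {x : X} {K : Set ℂ} (h : ∀ ζ ∈ K, (x, ζ) ∈ O) : AnalyticOnNhd ℂ (fun ζ => F (x, ζ)) K :=
  ((slice_diff hF x).analyticOnNhd (slice_open hO x)).mono h

lemma root_family {F : X × ℂ → ℂ} {O : Set (X × ℂ)} (hO : IsOpen O)
    (hF : DifferentiableOn ℂ F O) {B : Set X} (hB : IsPreconnected B) {c : ℂ} {R : ℝ} (hR : 0 < R)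
    (h1 : ∀ x ∈ B, ∀ ζ ∈ closedBall c R, (x, ζ) ∈ O) (h2 : ∀ x ∈ B, ∀ ζ ∈ sphere c R, F (x, ζ) ≠ 0) :
    ∃ (r : X → Multiset ℂ) (d : ℕ), (∀ x ∈ B, (r x).card = d ∧
      ∀ a, a ∈ r x ↔ a ∈ ball c R ∧ F (x, a) = 0) ∧
      ∀ φ : X × ℂ → ℂ, DifferentiableOn ℂ φ O →
        DifferentiableOn ℂ (fun x => ((r x).map fun a => φ (x, a)).sum) B := by
  have hex : ∀ x, ∃ s : Multiset ℂ, x ∈ B → (∀ a, a ∈ s ↔ a ∈ ball c R ∧ F (x, a) = 0) ∧
      ∀ φ : ℂ → ℂ, AnalyticOnNhd ℂ φ (closedBall c R) →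
        (∮ z in C(c, R), φ z * logDeriv (fun ζ => F (x, ζ)) z) =
          2 * Real.pi * I * (s.map φ).sum := by
    intro x
    by_cases hx : x ∈ B
    · obtain ⟨s, hs⟩ := roots hR (slice_an hO hF (h1 x hx)) (h2 x hx)
      exact ⟨s, fun _ => hs⟩
    · exact ⟨0, fun h => absurd h hx⟩
  choose r hr using hex
  have hd : ∀ φ : X × ℂ → ℂ, DifferentiableOn ℂ φ O →
      DifferentiableOn ℂ (fun x => ((r x).map fun a => φ (x, a)).sum) B := by
    intro φ hφ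
    have : DifferentiableOn ℂ (fun x => (2 * Real.pi * I : ℂ)⁻¹ *
        ∮ ζ in C(c, R), φ (x, ζ) * logDeriv (fun ζ => F (x, ζ)) ζ) B := fun x hx =>
      ((moment_diff hO hF hφ hR.le fun ζ hζ => ⟨h1 x hx ζ (sphere_subset_closedBall hζ),
        h2 x hx ζ hζ⟩).const_mul _).differentiableWithinAt
    refine this.congr fun x hx => ?_
    rw [(hr x hx).2 _ (slice_an hO hφ (h1 x hx)), ← mul_assoc, inv_mul_cancel₀ two_pi_I_ne_zero,
      one_mul]
  have hc : ContinuousOn (fun x => (r x).card) B := by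
    have h3 := (hd (fun _ => 1) (differentiableOn_const 1)).continuousOn
    have h4 : ContinuousOn (fun x => (((r x).card : ℕ) : ℝ)) B := by
      refine (continuous_re.comp_continuousOn h3).congr fun x _ => ?_
      simp
    exact Nat.isClosedEmbedding_coe_real.isInducing.continuousOn_iff.2 h4
  rcases B.eq_empty_or_nonempty with rfl | ⟨x0, hx0⟩
  · exact ⟨r, 0, by simp, hd⟩
  · exact ⟨r, (r x0).card, fun x hx => ⟨hB.constant hc hx hx0, (hr x hx).1⟩, hd⟩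

end

lemma select {f : ℂ × ℂ → ℂ} {O : Set (ℂ × ℂ)} (hO : IsOpen O) (hf : DifferentiableOn ℂ f O)
    {T' : Set ℂ} (hT : IsOpen T') (hne : T'.Nonempty) {ρ : ℝ} (hρ : 0 < ρ)
    (h1 : ∀ t ∈ T', ∀ ζ ∈ closedBall (0:ℂ) ρ, (t, ζ) ∈ O)
    (h2 : ∀ t ∈ T', ∀ ζ ∈ sphere (0:ℂ) ρ, f (t, ζ) ≠ 0) (𝓖 : Set (ℂ × ℂ → ℂ))
    (hG : ∀ g ∈ 𝓖, ContinuousOn g O)
    (h3 : ∀ t ∈ T', ∃ ζ ∈ ball (0:ℂ) ρ, f (t, ζ) = 0 ∧ ∀ g ∈ 𝓖, g (t, ζ) = 0) :
    ∃ T ⊆ T', IsOpen T ∧ T.Nonempty ∧ ∃ β : ℂ → ℂ, DifferentiableOn ℂ β T ∧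
      ∀ t ∈ T, β t ∈ ball (0:ℂ) ρ ∧ ∀ g ∈ 𝓖, g (t, β t) = 0 := by
  classical
  obtain ⟨t1, ht1⟩ := hne
  obtain ⟨σ1, hσ1, hb1⟩ := Metric.isOpen_iff.1 hT t1 ht1
  obtain ⟨r, d, hr, -⟩ := root_family hO hf (convex_ball t1 σ1).isPreconnected hρ
    (fun t ht => h1 t (hb1 ht)) (fun t ht => h2 t (hb1 ht))
  have hfin : ((fun t => (r t).toFinset.card) '' ball t1 σ1).Finite :=
    (Set.finite_Iic d).subset (by
      rintro _ ⟨t, ht, rfl⟩
      exact (Multiset.toFinset_card_le _).trans (hr t ht).1.le)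
  obtain ⟨t0, ht0, hmax⟩ := hfin.exists_maximalFor' (fun t => (r t).toFinset.card) _
    ⟨t1, mem_ball_self hσ1⟩
  set Z := (r t0).toFinset with hZ
  have hZm : ∀ b ∈ Z, b ∈ ball (0:ℂ) ρ ∧ f (t0, b) = 0 := fun b hb =>
    ((hr t0 ht0).2 b).1 (Multiset.mem_toFinset.1 hb)
  obtain ⟨ε, ⟨hε1, hε2⟩, hε⟩ : ∃ ε : ℝ, ((∀ b ∈ Z, closedBall b ε ⊆ ball (0:ℂ) ρ) ∧
      ∀ b ∈ Z, ∀ b' ∈ Z, b ≠ b' → 2 * ε < dist b b') ∧ ε ∈ Ioi (0:ℝ) := by
    refine (Eventually.and (Eventually.and ?_ ?_) self_mem_nhdsWithin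
      (f := 𝓝[>] (0:ℝ))).exists
    · refine (eventually_all_finset Z).2 fun b hb => mem_nhdsWithin_of_mem_nhds ?_
      exact eventually_closedBall_subset (isOpen_ball.mem_nhds (hZm b hb).1)
    · refine (eventually_all_finset Z).2 fun b _ => (eventually_all_finset Z).2 fun b' _ => ?_
      by_cases h : b = b'
      · exact Eventually.of_forall fun _ h' => absurd h h'
      · have hd : 0 < dist b b' / 2 := half_pos (dist_pos.2 h)
        filter_upwards [mem_nhdsWithin_of_mem_nhds (gt_mem_nhds hd)] with ε hε _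
        linarith
  have hε0 : 0 < ε := hε
  have hs0 : ∀ b ∈ Z, ∀ ζ ∈ sphere b ε, f (t0, ζ) ≠ 0 := by
    intro b hb ζ hζ h
    have hζZ : ζ ∈ Z := Multiset.mem_toFinset.2
      (((hr t0 ht0).2 ζ).2 ⟨hε1 b hb (sphere_subset_closedBall hζ), h⟩)
    rw [mem_sphere] at hζ
    by_cases h' : ζ = b
    · rw [h', dist_self] at hζ
      exact hε0.ne hζ
    · linarith [hε2 ζ hζZ b hb h']
  have hev : ∀ᶠ t in 𝓝 t0, t ∈ ball t1 σ1 ∧ ∀ b ∈ Z, ∀ ζ ∈ sphere b ε, f (t, ζ) ≠ 0 := by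
    refine (isOpen_ball.eventually_mem ht0).and ((eventually_all_finset Z).2 fun b hb => ?_)
    refine (isCompact_sphere b ε).eventually_forall_of_forall_eventually
      (P := fun t ζ => f (t, ζ) ≠ 0) fun ζ hζ => ?_
    have hin := h1 t0 (hb1 ht0) ζ (ball_subset_closedBall (hε1 b hb (sphere_subset_closedBall hζ)))
    exact (hf.continuousOn.continuousAt (hO.mem_nhds hin)).eventually_ne (hs0 b hb ζ hζ)
  obtain ⟨σ, hσ, hV⟩ := Metric.eventually_nhds_iff_ball.1 hev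
  have hloc : ∀ b : Z, ∃ β : ℂ → ℂ, DifferentiableOn ℂ β (ball t0 σ) ∧ ∃ (r' : ℂ → Multiset ℂ),
      ∀ t ∈ ball t0 σ, (∀ a, a ∈ r' t ↔ a ∈ ball b.1 ε ∧ f (t, a) = 0) ∧ r' t ≠ 0 ∧
        β t = ((r' t).card : ℂ)⁻¹ * (r' t).sum := by
    rintro ⟨b, hb⟩
    obtain ⟨r', d', hr', hd'⟩ := root_family hO hf (convex_ball t0 σ).isPreconnected hε0
      (fun t ht ζ hζ => h1 t (hb1 (hV t ht).1) ζ (ball_subset_closedBall (hε1 b hb hζ)))
      (fun t ht => (hV t ht).2 b hb)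
    have hd0 : d' ≠ 0 := by
      rintro rfl
      have h4 := hr' t0 (mem_ball_self hσ)
      have := (h4.2 b).2 ⟨mem_ball_self hε0, (hZm b hb).2⟩
      rw [Multiset.card_eq_zero.1 h4.1] at this
      exact Multiset.notMem_zero _ this
    refine ⟨fun t => (d' : ℂ)⁻¹ * ((r' t).map fun a => a).sum,
      (hd' (fun p => p.2) differentiableOn_snd).const_mul _, r', fun t ht =>
        ⟨(hr' t ht).2, fun h => hd0 ?_, by simp [(hr' t ht).1]⟩⟩
    rw [← (hr' t ht).1, h, Multiset.card_zero]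
  choose β hβ r' hr' using hloc
  have hall : ∀ t ∈ ball t0 σ, (∀ b : Z, β b t ∈ ball b.1 ε) ∧
      ∀ ζ ∈ ball (0:ℂ) ρ, f (t, ζ) = 0 → ∃ b : Z, β b t = ζ := by
    intro t ht
    choose c hc using fun b : Z => Multiset.exists_mem_of_ne_zero (hr' b t ht).2.1
    have hc1 : ∀ b : Z, c b ∈ ball b.1 ε ∧ f (t, c b) = 0 := fun b => ((hr' b t ht).1 _).1 (hc b)
    have hdisj : ∀ b b' : Z, ∀ a, a ∈ ball b.1 ε → a ∈ ball b'.1 ε → b = b' := by
      intro b b' a h4 h5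
      by_contra h
      have := hε2 b.1 b.2 b'.1 b'.2 (fun h' => h (Subtype.ext h'))
      rw [mem_ball] at h4 h5
      linarith [dist_triangle_left b.1 b'.1 a]
    have hinj : Function.Injective c := fun b b' h =>
      hdisj b b' (c b) (hc1 b).1 (h ▸ (hc1 b').1)
    have hsub : Finset.univ.image c ⊆ (r t).toFinset := by
      intro a ha
      obtain ⟨b, -, rfl⟩ := Finset.mem_image.1 ha
      exact Multiset.mem_toFinset.2 (((hr t (hV t ht).1).2 _).2
        ⟨hε1 b.1 b.2 (ball_subset_closedBall (hc1 b).1), (hc1 b).2⟩)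
    have hcard : (Finset.univ.image c).card = Z.card := by
      rw [Finset.card_image_of_injective _ hinj]
      simp
    have hle : (r t).toFinset.card ≤ Z.card :=
      hmax (hV t ht).1 (hcard.symm.le.trans (Finset.card_le_card hsub))
    have heq := Finset.eq_of_subset_of_card_le hsub (hcard ▸ hle)
    have hsurj : ∀ ζ ∈ ball (0:ℂ) ρ, f (t, ζ) = 0 → ∃ b : Z, c b = ζ := by
      intro ζ h4 h5
      have : ζ ∈ (r t).toFinset := Multiset.mem_toFinset.2 (((hr t (hV t ht).1).2 _).2 ⟨h4, h5⟩)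
      rw [← heq] at this
      obtain ⟨b, -, hb⟩ := Finset.mem_image.1 this
      exact ⟨b, hb⟩
    have hβc : ∀ b : Z, β b t = c b := by
      intro b
      have h4 : ∀ a ∈ r' b t, a = c b := by
        intro a ha
        obtain ⟨h5, h6⟩ := ((hr' b t ht).1 a).1 ha
        obtain ⟨b', hb'⟩ := hsurj a (hε1 b.1 b.2 (ball_subset_closedBall h5)) h6
        rw [← hb', hdisj b b' a h5 (hb' ▸ (hc1 b').1)]
      have h5 : ((r' b t).card : ℂ) ≠ 0 := by
        exact_mod_cast fun h => (hr' b t ht).2.1 (Multiset.card_eq_zero.1 h)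
      rw [(hr' b t ht).2.2, Multiset.eq_replicate_card.2 h4, Multiset.sum_replicate,
        Multiset.card_replicate, nsmul_eq_mul, ← mul_assoc, inv_mul_cancel₀ h5, one_mul]
    exact ⟨fun b => hβc b ▸ (hc1 b).1, fun ζ h4 h5 => by
      obtain ⟨b, hb⟩ := hsurj ζ h4 h5
      exact ⟨b, (hβc b).trans hb⟩⟩
  have hsb : closedBall t0 (σ / 2) ⊆ ball t0 σ := closedBall_subset_ball (half_lt_self hσ)
  set A : Option Z → Set ℂ := fun o => o.elim (ball t0 (σ / 2))ᶜ fun b =>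
    {t ∈ closedBall t0 (σ / 2) | ∀ g ∈ 𝓖, g (t, β b t) = 0} with hA
  have hAc : ∀ o, IsClosed (A o) := by
    rintro (_ | b)
    · exact isOpen_ball.isClosed_compl
    · have : A (some b) = closedBall t0 (σ / 2) ∩ ⋂ g ∈ 𝓖,
          (closedBall t0 (σ / 2) ∩ (fun t => g (t, β b t)) ⁻¹' {0}) := by
        ext t
        simp only [hA, Option.elim, mem_setOf_eq, mem_inter_iff, mem_iInter, mem_preimage,
          mem_singleton_iff]
        exact ⟨fun h => ⟨h.1, fun g hg => ⟨h.1, h.2 g hg⟩⟩, fun h => ⟨h.1, fun g hg => (h.2 g hg).2⟩⟩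
      rw [this]
      refine isClosed_closedBall.inter (isClosed_biInter fun g hg => ?_)
      refine ContinuousOn.preimage_isClosed_of_isClosed ?_ isClosed_closedBall isClosed_singleton
      refine (hG g hg).comp (continuousOn_id.prodMk ((hβ b).continuousOn.mono hsb)) fun t ht => ?_
      exact h1 t (hb1 (hV t (hsb ht)).1) _ (ball_subset_closedBall
        (hε1 b.1 b.2 (ball_subset_closedBall ((hall t (hsb ht)).1 b))))
  have hAu : ⋃ o, A o = univ := by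
    refine eq_univ_of_forall fun t => mem_iUnion.2 ?_
    by_cases ht : t ∈ ball t0 (σ / 2)
    · have ht' := hsb (ball_subset_closedBall ht)
      obtain ⟨ζ, h4, h5, h6⟩ := h3 t (hb1 (hV t ht').1)
      obtain ⟨b, hb⟩ := (hall t ht').2 ζ h4 h5
      exact ⟨some b, ball_subset_closedBall ht, fun g hg => hb ▸ h6 g hg⟩
    · exact ⟨none, ht⟩
  obtain ⟨t, ht1', ht2⟩ := (dense_iUnion_interior_of_closed hAc hAu).exists_mem_open isOpen_ball
    ⟨t0, mem_ball_self (half_pos hσ)⟩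
  obtain ⟨o, ho⟩ := mem_iUnion.1 ht1'
  rcases o with _ | b
  · exact absurd ht2 (interior_subset ho)
  · have hsub : interior (A (some b)) ⊆ ball t0 σ := fun s hs => hsb (interior_subset hs).1
    exact ⟨interior (A (some b)), fun s hs => hb1 (hV s (hsub hs)).1, isOpen_interior, ⟨t, ho⟩,
      β b, (hβ b).mono hsub, fun s hs => ⟨hε1 b.1 b.2 (ball_subset_closedBall
        ((hall s (hsub hs)).1 b)), (interior_subset hs).2⟩⟩

lemma divide {X : Type*} [NormedAddCommGroup X] [NormedSpace ℂ X] [FiniteDimensional ℂ X]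
    {O : Set (X × ℂ)} (hO : IsOpen O) {y1 : X} (hy : (y1, (0:ℂ)) ∈ O) {g : ℂ → ℂ}
    (hg : ContinuousAt g 0) (hg0 : g 0 ≠ 0) (k : ℕ) : ∀ h : X × ℂ → ℂ, DifferentiableOn ℂ h O →
      (∀ᶠ t in 𝓝[≠] (0:ℂ), h (y1, t) = t ^ k * g t) →
      ∃ F : X × ℂ → ℂ, DifferentiableOn ℂ F O ∧ (∀ p : X × ℂ, p.2 ≠ 0 → h p = 0 → F p = 0) ∧
        ∃ y, (y, (0:ℂ)) ∈ O ∧ F (y, 0) ≠ 0 := by
  induction k with
  | zero =>
    intro h hh he
    refine ⟨h, hh, fun _ _ h => h, y1, hy, ?_⟩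
    have h1 : ContinuousAt (fun t : ℂ => h (y1, t)) 0 :=
      ContinuousAt.comp (f := fun t : ℂ => (y1, t)) (hh.continuousOn.continuousAt (hO.mem_nhds hy))
        (by fun_prop)
    have := tendsto_nhds_unique_of_eventuallyEq (h1.tendsto.mono_left nhdsWithin_le_nhds)
      (hg.tendsto.mono_left nhdsWithin_le_nhds) (he.mono fun t ht => by simpa using ht)
    rw [this]
    exact hg0
  | succ k ih =>
    intro h hh he
    by_cases h0 : ∀ y, (y, (0:ℂ)) ∈ O → h (y, 0) = 0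
    · obtain ⟨Ψ, h1, h2⟩ := quot_diff hO hh h0
      obtain ⟨F, h3, h4, h5⟩ := ih Ψ h1 (by
        filter_upwards [he, self_mem_nhdsWithin] with t ht ht0
        have ht0' : t ≠ 0 := ht0
        rw [h2 (y1, t) ht0', ht]
        field_simp
        ring)
      exact ⟨F, h3, fun p hp hp' => h4 p hp (by rw [h2 p hp, hp', mul_zero]), h5⟩
    · push Not at h0
      exact ⟨h, hh, fun _ _ h => h, h0⟩

theorem curve (n : ℕ) : ∀ (Y : Type) [NormedAddCommGroup Y] [NormedSpace ℂ Y]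
    [FiniteDimensional ℂ Y], Module.finrank ℂ Y = n → ∀ (W : Set (Y × ℂ)), IsOpen W →
    (0 : Y × ℂ) ∈ W → ∀ 𝓗 : Set (Y × ℂ → ℂ), (∀ h ∈ 𝓗, DifferentiableOn ℂ h W) →
    (∀ U ∈ 𝓝 (0 : Y × ℂ), ∃ p ∈ U, p.2 ≠ 0 ∧ ∀ h ∈ 𝓗, h p = 0) →
    ∃ T : Set ℂ, IsOpen T ∧ T.Nonempty ∧ ∃ s : ℂ → Y, DifferentiableOn ℂ s T ∧
      ∀ t ∈ T, (s t, t) ∈ W ∧ ∀ h ∈ 𝓗, h (s t, t) = 0 := by
  induction n using Nat.strong_induction_on with
  | _ n ih =>
  intro Y _ _ _ hn W hW h0 𝓗 hH hacc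
  obtain ⟨r, hr, hrW⟩ := Metric.isOpen_iff.1 hW 0 h0
  have hmem : ∀ (y : Y) (t : ℂ), (y, t) ∈ ball (0 : Y × ℂ) r ↔ ‖y‖ < r ∧ ‖t‖ < r := by
    intro y t
    rw [mem_ball_zero_iff, Prod.norm_def, max_lt_iff]
  by_cases hz : ∀ h ∈ 𝓗, ∀ p ∈ ball (0 : Y × ℂ) r, h p = 0
  · have h1 : ∀ t ∈ ball (0:ℂ) r, ((0:Y), t) ∈ ball (0 : Y × ℂ) r := fun t ht =>
      (hmem _ _).2 ⟨by simpa using hr, mem_ball_zero_iff.1 ht⟩
    exact ⟨ball 0 r, isOpen_ball, ⟨0, mem_ball_self hr⟩, fun _ => 0, differentiableOn_const _,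
      fun t ht => ⟨hrW (h1 t ht), fun h hh => hz h hh _ (h1 t ht)⟩⟩
  push Not at hz
  obtain ⟨h1, hh1, ⟨y1, t1⟩, hp1, hne1⟩ := hz
  rw [hmem] at hp1
  have hd1 : DifferentiableOn ℂ h1 (ball 0 r) := (hH h1 hh1).mono hrW
  have han : AnalyticOnNhd ℂ (fun t => h1 (y1, t)) (ball 0 r) :=
    slice_an isOpen_ball hd1 fun t ht => (hmem _ _).2 ⟨hp1.1, mem_ball_zero_iff.1 ht⟩
  obtain ⟨k, g, hg, hg0, hk⟩ := (han 0 (mem_ball_self hr)).exists_eventuallyEq_pow_smul_nonzero_iff.2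
    (fun h => hne1 (han.eqOn_zero_of_preconnected_of_eventuallyEq_zero
      (convex_ball _ _).isPreconnected (mem_ball_self hr) h (mem_ball_zero_iff.2 hp1.2)))
  obtain ⟨F, hF, hF1, v, hv, hFv⟩ := divide isOpen_ball ((hmem y1 0).2 ⟨hp1.1, by simpa using hr⟩)
    hg.continuousAt hg0 k h1 hd1 ((hk.filter_mono nhdsWithin_le_nhds).mono fun t ht => by
      simpa using ht)
  have hF0 : F 0 = 0 := by
    by_contra h
    obtain ⟨p, hp, hp2, hp3⟩ := hacc _
      ((hF.continuousOn.continuousAt (ball_mem_nhds 0 hr)).eventually_ne h)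
    exact hp (hF1 p hp2 (hp3 h1 hh1))
  have hv0 : v ≠ 0 := by
    rintro rfl
    exact hFv hF0
  obtain ⟨l, hl⟩ := SeparatingDual.exists_eq_one (R := ℂ) hv0
  set Y' := LinearMap.ker (l : Y →ₗ[ℂ] ℂ) with hY'
  have hlt : Module.finrank ℂ Y' < n := by
    rw [← hn]
    refine Submodule.finrank_lt fun h => ?_
    have : v ∈ Y' := h ▸ Submodule.mem_top
    rw [hY', LinearMap.mem_ker] at this
    exact one_ne_zero (hl.symm.trans this)
  set e : (Y' × ℂ) × ℂ → Y × ℂ := fun z => ((z.1.1 : Y) + z.2 • v, z.1.2) with he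
  have hed : Differentiable ℂ e := by
    have a1 : Differentiable ℂ fun z : (Y' × ℂ) × ℂ => Y'.subtypeL z.1.1 := by fun_prop
    have a2 : Differentiable ℂ fun z : (Y' × ℂ) × ℂ => z.2 • v := by fun_prop
    have a3 : Differentiable ℂ fun z : (Y' × ℂ) × ℂ => z.1.2 := by fun_prop
    exact (a1.add a2).prodMk a3
  set O := e ⁻¹' ball 0 r with hO
  have hOo : IsOpen O := isOpen_ball.preimage hed.continuous
  have hcomp : ∀ h : Y × ℂ → ℂ, DifferentiableOn ℂ h (ball 0 r) →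
      DifferentiableOn ℂ (fun z => h (e z)) O := fun h hh =>
    hh.comp hed.differentiableOn fun _ hz => hz
  have he0 : ∀ ζ : ℂ, e (0, ζ) = (ζ • v, 0) := fun ζ => by simp [he]
  have hcv : Convex ℝ {ζ : ℂ | ((0 : Y' × ℂ), ζ) ∈ O} := by
    have : {ζ : ℂ | ((0 : Y' × ℂ), ζ) ∈ O} = ball 0 (r / ‖v‖) := by
      ext ζ
      simp only [hO, mem_setOf_eq, mem_preimage, he0, hmem, norm_smul, norm_zero, hr, and_true,
        mem_ball_zero_iff]
      rw [lt_div_iff₀ (norm_pos_iff.2 hv0)]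
    rw [this]
    exact convex_ball _ _
  have h00 : ((0 : Y' × ℂ), (0:ℂ)) ∈ O := by
    simp only [hO, mem_preimage, he0, zero_smul]
    exact mem_ball_self hr
  have hiso : ∀ᶠ ζ in 𝓝[≠] (0:ℂ), F (e (0, ζ)) ≠ 0 := by
    by_contra h
    rw [not_eventually] at h
    have := (slice_an hOo (hcomp F hF) (x := 0) (fun ζ h => h)).eqOn_zero_of_preconnected_of_frequently_eq_zero
      hcv.isPreconnected h00 (h.mono fun ζ h => not_not.1 h)
      (show ((0 : Y' × ℂ), (1:ℂ)) ∈ O by simpa only [hO, mem_preimage, he0, one_smul] using hv)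
    simp only [he0, one_smul, Pi.zero_apply] at this
    exact hFv this
  obtain ⟨ρ, hρ, hρ'⟩ := Metric.nhds_basis_closedBall.eventually_iff.1
    ((eventually_nhdsWithin_iff.1 hiso).and ((slice_open hOo 0).mem_nhds h00))
  have hev : ∀ᶠ x in 𝓝 (0 : Y' × ℂ), (∀ ζ ∈ closedBall (0:ℂ) ρ, (x, ζ) ∈ O) ∧
      ∀ ζ ∈ sphere (0:ℂ) ρ, F (e (x, ζ)) ≠ 0 := by
    refine Eventually.and ((isCompact_closedBall 0 ρ).eventually_forall_of_forall_eventually
      (P := fun x ζ => (x, ζ) ∈ O) fun ζ hζ => hOo.mem_nhds (hρ' hζ).2)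
      ((isCompact_sphere 0 ρ).eventually_forall_of_forall_eventually
        (P := fun x ζ => F (e (x, ζ)) ≠ 0) fun ζ hζ => ?_)
    have h2 := hρ' (sphere_subset_closedBall hζ)
    refine ((hcomp F hF).continuousOn.continuousAt (hOo.mem_nhds h2.2)).eventually_ne (h2.1 ?_)
    rintro rfl
    rw [mem_sphere, dist_self] at hζ
    exact hρ.ne hζ
  obtain ⟨σ, hσ, hV⟩ := Metric.eventually_nhds_iff_ball.1 hev
  obtain ⟨rt, d, hrt, hrd⟩ := root_family hOo (hcomp F hF) (convex_ball 0 σ).isPreconnected hρ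
    (fun x hx => (hV x hx).1) (fun x hx => (hV x hx).2)
  have hspan : ∀ h ∈ Submodule.span ℂ 𝓗, DifferentiableOn ℂ h (ball 0 r) := by
    intro h hh
    induction hh using Submodule.span_induction with
    | mem h hh => exact (hH h hh).mono hrW
    | zero => exact differentiableOn_const 0
    | add a b _ _ ha hb => exact ha.add hb
    | smul c a _ ha => exact ha.const_smul c
  obtain ⟨T', hT', hT'ne, s', hs', hs''⟩ := ih _ hlt Y' rfl (ball 0 σ) isOpen_ball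
    (mem_ball_self hσ) ((fun h x => ((rt x).map fun a => h (e (x, a))).prod) ''
      (Submodule.span ℂ 𝓗 : Set (Y × ℂ → ℂ))) (by
      rintro _ ⟨h, hh, rfl⟩
      refine prod_diff _ d (fun x hx => by rw [Multiset.card_map, (hrt x hx).1]) fun j => ?_
      simp only [Multiset.map_map, Function.comp_def]
      exact hrd (fun z => h (e z) ^ j) ((hcomp h (hspan h hh)).pow j)) (by
      intro U hU
      have hk : ∀ y : Y, y - l y • v ∈ Y' := fun y => by
        simp [hY', hl]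
      set e' : Y × ℂ → (Y' × ℂ) × ℂ := fun p => ((⟨p.1 - l p.1 • v, hk p.1⟩, p.2), l p.1) with he'
      have hc : Continuous e' := by
        refine (Continuous.prodMk (Continuous.subtype_mk (by fun_prop) _) continuous_snd).prodMk
          (by fun_prop)
      have h2 : e' 0 = 0 := by
        simp only [he', Prod.fst_zero, Prod.snd_zero, map_zero, zero_smul, sub_zero]
        rfl
      have h3 : ∀ p, e (e' p) = p := fun p => by simp [he, he']
      have h4 : (U ∩ ball 0 σ) ×ˢ ball (0:ℂ) ρ ∈ 𝓝 (e' 0) := by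
        rw [h2]
        exact prod_mem_nhds (inter_mem hU (ball_mem_nhds 0 hσ)) (ball_mem_nhds 0 hρ)
      obtain ⟨p, hp, hp2, hp3⟩ := hacc _ (hc.continuousAt.preimage_mem_nhds h4)
      refine ⟨(e' p).1, hp.1.1, hp2, ?_⟩
      rintro _ ⟨h, hh, rfl⟩
      have h5 : (e' p).2 ∈ rt (e' p).1 := ((hrt _ hp.1.2).2 _).2
        ⟨hp.2, by show F (e (e' p)) = 0; rw [h3]; exact hF1 p hp2 (hp3 h1 hh1)⟩
      refine Multiset.prod_eq_zero (Multiset.mem_map.2 ⟨_, h5, ?_⟩)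
      show h (e (e' p)) = 0
      rw [h3]
      induction hh using Submodule.span_induction with
      | mem h hh => exact hp3 h hh
      | zero => rfl
      | add a b _ _ ha hb => simp [ha, hb]
      | smul c a _ ha => simp [ha])
  set m : ℂ × ℂ → (Y' × ℂ) × ℂ := fun z => ((s' z.1, z.1), z.2) with hm
  have hmd : DifferentiableOn ℂ m (T' ×ˢ univ) :=
    ((hs'.comp differentiableOn_fst fun z hz => hz.1).prodMk differentiableOn_fst).prodMk
      differentiableOn_snd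
  have hO2 : IsOpen (T' ×ˢ univ ∩ m ⁻¹' O) :=
    hmd.continuousOn.isOpen_inter_preimage (hT'.prod isOpen_univ) hOo
  have hcomp2 : ∀ h : Y × ℂ → ℂ, DifferentiableOn ℂ h (ball 0 r) →
      DifferentiableOn ℂ (fun z => h (e (m z))) (T' ×ˢ univ ∩ m ⁻¹' O) := fun h hh =>
    (hcomp h hh).comp (hmd.mono inter_subset_left) fun _ hz => hz.2
  obtain ⟨T, hTT, hTo, hTne, β, hβ, hβ'⟩ := select hO2 (hcomp2 F hF) hT' hT'ne hρ
    (fun t ht ζ hζ => ⟨⟨ht, trivial⟩, (hV _ (hs'' t ht).1).1 ζ hζ⟩)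
    (fun t ht ζ hζ => (hV _ (hs'' t ht).1).2 ζ hζ) ((fun h z => h (e (m z))) '' 𝓗) (by
      rintro _ ⟨h, hh, rfl⟩
      exact (hcomp2 h ((hH h hh).mono hrW)).continuousOn) (by
      intro t ht
      by_contra hcon
      push Not at hcon
      obtain ⟨h, hh, hne⟩ := Module.Dual.exists_forall_mem_ne_zero_of_forall_exists
        (ι := (rt (s' t, t)).toFinset) (Submodule.span ℂ 𝓗)
        (fun a => LinearMap.proj (e ((s' t, t), a.1))) (by
          rintro ⟨a, ha⟩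
          have h2 := ((hrt _ (hs'' t ht).1).2 a).1 (Multiset.mem_toFinset.1 ha)
          obtain ⟨_, ⟨h, hh, rfl⟩, h3⟩ := hcon a h2.1 h2.2
          exact ⟨h, Submodule.subset_span hh, h3⟩)
      have h4 := (hs'' t ht).2 _ ⟨h, hh, rfl⟩
      obtain ⟨a, ha, h5⟩ := Multiset.mem_map.1 (Multiset.prod_eq_zero_iff.1 h4)
      exact hne ⟨a, Multiset.mem_toFinset.2 ha⟩ h5)
  refine ⟨T, hTo, hTne, fun t => (s' t : Y) + β t • v,
    (Y'.subtypeL.differentiable.comp_differentiableOn (hs'.mono hTT)).add (hβ.smul_const v),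
    fun t ht => ⟨hrW ((hV _ (hs'' t (hTT ht)).1).1 _ (ball_subset_closedBall (hβ' t ht).1)),
      fun h hh => (hβ' t ht).2 _ ⟨h, hh, rfl⟩⟩⟩

end Pool.Agent.H27.Elim
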