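import Pool.Agent.H27.Tab1

/-! Complex-analytic tools for the Bernstein–Markov inequality on `[-1, 1]`. -/

open Complex Metric Set Polynomial MeasureTheory

namespace Pool.Agent.H27.Er

lemma harnack {F : ℂ → ℂ} (hF : Differentiable ℂ F) {r s : ℝ} {K : ℕ} (h : s < r)
    (hK : 2 * s / (r - s) ≤ K) (h1 : ∀ v ∈ ball 0 r, 1 ≤ ‖F v‖) {v : ℂ} (hv : ‖v‖ = s) :
    ‖F v‖ ≤ Real.exp K * ‖F 0‖ ^ (K + 1) := by
  have r0 : 0 < r := (norm_nonneg v).trans_lt (hv ▸ h)
  have n0 : ∀ v ∈ ball 0 r, F v ≠ 0 := fun v hv => norm_pos_iff.1 (one_pos.trans_le (h1 v hv))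
  obtain ⟨g, g0, hg⟩ := (DifferentiableOn.isExactOn_ball (f := fun v => -(deriv F v / F v))
    (c := 0) (r := r) (hF.deriv.differentiableOn.div hF.differentiableOn n0).neg).with_val_at 0 0
  have d : ∀ v ∈ ball 0 r, HasDerivAt (fun v => F v * exp (g v)) 0 v := fun v hv => by
    refine ((hF v).hasDerivAt.mul (hg v hv).cexp).congr_deriv ?_
    have := n0 v hv
    field_simp; ring
  have e : ∀ v ∈ ball 0 r, ‖F v‖ * Real.exp (g v).re = ‖F 0‖ := fun v hv => by
    have := isOpen_ball.is_const_of_deriv_eq_zero (convex_ball _ _).isPreconnected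
      (fun v hv => (d v hv).differentiableAt.differentiableWithinAt) (fun v hv => (d v hv).deriv)
      hv (mem_ball_self r0)
    simpa [g0, norm_exp] using congrArg norm this
  have p := h1 0 (mem_ball_self r0)
  have l0 := Real.log_nonneg p
  have hv' : v ∈ ball 0 r := mem_ball_zero_iff.2 (hv ▸ h)
  have b := borelCaratheodory_zero (M := Real.log ‖F 0‖ + 1) (by linarith)
    (fun v hv => (hg v hv).differentiableAt.differentiableWithinAt) (fun v hv => by
      have := e v hv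
      have h2 := h1 v hv
      refine le_trans ((Real.le_log_iff_exp_le (by linarith)).2 ?_) (lt_add_one _).le
      nlinarith [Real.exp_pos (g v).re]) r0 hv' g0
  rw [hv] at b
  have b2 : -(g v).re ≤ K * (Real.log ‖F 0‖ + 1) := by
    refine ((neg_le_abs _).trans (abs_re_le_norm _)).trans (b.trans ?_)
    rw [mul_right_comm, mul_div_right_comm]
    gcongr
  have : ‖F v‖ = ‖F 0‖ * Real.exp (-(g v).re) := by
    rw [← e v hv', mul_assoc, ← Real.exp_add]; simp
  rw [this, pow_succ', mul_left_comm]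
  gcongr
  refine (Real.exp_le_exp.2 b2).trans_eq ?_
  rw [mul_add, Real.exp_add, Real.exp_nat_mul, Real.exp_log (by linarith), mul_one, mul_comm]

/-- The Joukowski map. -/
noncomputable def jz (v : ℂ) : ℂ := (1 + v ^ 2) / (2 * v)

/-- `v ^ n * q (jz v)` as an entire function. -/
noncomputable def H (n : ℕ) (q : ℝ[X]) (v : ℂ) : ℂ :=
  ∑ k ∈ Finset.range (n + 1), q.coeff k * v ^ (n - k) * ((1 + v ^ 2) / 2) ^ k

lemma H_diff (n : ℕ) (q : ℝ[X]) : Differentiable ℂ (H n q) := by unfold H; fun_prop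

lemma H_eq {n : ℕ} {q : ℝ[X]} (hq : q.natDegree ≤ n) {v : ℂ} (hv : v ≠ 0) :
    H n q v = v ^ n * aeval (jz v) q := by
  rw [aeval_eq_sum_range' (Nat.lt_succ_of_le hq), Finset.mul_sum]
  refine Finset.sum_congr rfl fun k hk => ?_
  obtain ⟨j, rfl⟩ := Nat.exists_eq_add_of_le (Nat.lt_succ_iff.1 (Finset.mem_range.1 hk))
  simp only [jz, Nat.add_sub_cancel_left, real_smul, pow_add, div_pow, mul_pow]
  field_simp

lemma H_zero {q : ℝ[X]} (hq : q.Monic) : ‖H q.natDegree q 0‖ = (1 / 2) ^ q.natDegree := by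
  rw [H, Finset.sum_range_succ, Finset.sum_eq_zero fun k hk => by
    rw [zero_pow (Nat.sub_ne_zero_of_lt (Finset.mem_range.1 hk))]; simp]
  simp [hq.coeff_natDegree]

lemma H_T (n : ℕ) {v : ℂ} (hv : v ≠ 0) : H n (Chebyshev.T ℝ n) v = (1 + v ^ (2 * n)) / 2 := by
  rw [H_eq (by simp [Chebyshev.natDegree_T]) hv, Chebyshev.aeval_T,
    show jz v = cosh (log v) by rw [cosh, exp_neg, exp_log hv, jz]; field_simp; ring,
    Chebyshev.T_complex_cosh, cosh, exp_neg]
  push_cast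
  rw [exp_nat_mul, exp_log hv, two_mul, pow_add]
  field_simp; ring

lemma sup_le {n : ℕ} {q : ℝ[X]} (hq : q.natDegree ≤ n) {s B : ℝ} (s0 : 0 < s) (s1 : s ≤ 1)
    (h : ∀ v : ℂ, ‖v‖ = s → ‖H n q v‖ ≤ B) {x : ℝ} (hx : x ∈ Icc (-1 : ℝ) 1) :
    |q.eval x| ≤ (s⁻¹ ^ 2) ^ n * B := by
  have y2 := Real.sq_sqrt (show 0 ≤ 1 - x ^ 2 by nlinarith [hx.1, hx.2])
  generalize √(1 - x ^ 2) = y at y2
  have n1 : ‖x + y * I‖ = 1 := by rw [norm_add_mul_I, y2]; simp
  have n0 : x + y * I ≠ 0 := norm_pos_iff.1 (n1 ▸ one_pos)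
  have := Tab.max_mod (f := H n q) (c := 0) (r := s⁻¹) (z := x + y * I) (m := (s⁻¹ ^ 2) ^ n * B)
    (by positivity) (fun w _ => H_diff n q w) (fun v hv => by
      rw [mem_sphere_zero_iff_norm] at hv
      have v0 : v ≠ 0 := norm_pos_iff.1 (hv ▸ inv_pos.2 s0)
      have : H n q v = (v ^ 2) ^ n * H n q v⁻¹ := by
        rw [H_eq hq v0, H_eq hq (inv_ne_zero v0), show jz v⁻¹ = jz v by
          simp only [jz]; field_simp; ring, ← mul_assoc, ← mul_pow]
        congr 2; field_simp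
      rw [this, norm_mul, norm_pow, norm_pow, hv]
      gcongr
      exact h _ (by rw [norm_inv, hv, inv_inv]))
    (mem_closedBall_zero_iff.2 (n1 ▸ (one_le_inv₀ s0).2 s1))
  rw [H_eq hq n0, show jz (x + y * I) = x by
    have : (y : ℂ) ^ 2 = 1 - x ^ 2 := by exact_mod_cast y2
    rw [jz, div_eq_iff (mul_ne_zero two_ne_zero n0)]
    linear_combination y ^ 2 * I_sq - this, norm_mul, norm_pow, n1] at this
  rw [← coe_algebraMap, aeval_algebraMap_apply_eq_algebraMap_eval] at this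
  simpa using this

lemma ker {v : ℂ} {r x : ℝ} (hv : ‖v‖ ≤ r) (r1 : r < 1) (hx : x ∈ Icc (-1 : ℝ) 1) :
    v ^ 2 - 2 * x * v + 1 ≠ 0 ∧ (1 - r) ^ 3 / 16 ≤ ((1 - v ^ 2) / (v ^ 2 - 2 * x * v + 1)).re ∧
      ‖(1 - v ^ 2) / (v ^ 2 - 2 * x * v + 1)‖ ≤ 4 / (1 - r) ^ 3 := by
  have x1 : |x| ≤ 1 := abs_le.2 hx
  have v0 := norm_nonneg v
  have a : (1 - r) ^ 3 ≤ ((1 - v ^ 2) * (starRingEnd ℂ) (v ^ 2 - 2 * x * v + 1)).re := by
    have e : ((1 - v ^ 2) * (starRingEnd ℂ) (v ^ 2 - 2 * x * v + 1)).re =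
        (1 - ‖v‖ ^ 2) * (1 + ‖v‖ ^ 2 - 2 * (x * v.re)) := by
      rw [Complex.sq_norm]
      simp [normSq_apply, sq]; ring
    have : x * v.re ≤ ‖v‖ := (le_abs_self _).trans (by
      rw [abs_mul]; exact (mul_le_of_le_one_left (abs_nonneg _) x1).trans (abs_re_le_norm _))
    rw [e, pow_succ']
    refine mul_le_mul (by nlinarith) (by nlinarith) (by positivity) (by nlinarith)
  have b : ‖1 - v ^ 2‖ ≤ 2 := (norm_sub_le _ _).trans (by simp; nlinarith)
  have c : ‖v ^ 2 - 2 * x * v + 1‖ ≤ 4 := (norm_add_le _ _).trans (by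
    have := norm_sub_le (v ^ 2) (2 * x * v)
    simp at this ⊢; nlinarith [abs_nonneg x])
  have p : 0 < (1 - r) ^ 3 := pow_pos (by linarith) _
  have d := a.trans (re_le_norm _)
  rw [norm_mul, norm_conj] at d
  generalize v ^ 2 - 2 * x * v + 1 = W at *
  have W0 : 0 < ‖W‖ := by
    by_contra! h; nlinarith [norm_nonneg (1 - v ^ 2)]
  refine ⟨norm_pos_iff.1 W0, ?_, ?_⟩
  · rw [div_eq_mul_inv (1 - v ^ 2), Complex.inv_def, ← mul_assoc, re_mul_ofReal,
      ← div_eq_mul_inv, ← Complex.sq_norm]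
    gcongr
    · linarith
    · nlinarith
  · rw [norm_div, div_le_div_iff₀ W0 p]
    nlinarith [norm_nonneg (1 - v ^ 2)]

lemma key {w : ℝ → ℝ} (hw : IntervalIntegrable w volume (-1) 1) (w0 : ∀ x, 0 ≤ w x) {n : ℕ}
    (n0 : 0 < n) {P q : ℝ[X]} (hP : P.natDegree ≤ n) (hq : q.natDegree ≤ n)
    (o : ∀ k < n, ∫ x in (-1 : ℝ)..1, P.eval x * x ^ k * w x = 0) {v : ℂ} {r : ℝ} (v0 : v ≠ 0)
    (hv : ‖v‖ ≤ r) (r1 : r < 1) :
    ‖H n q v‖ * ((1 - r) ^ 3 / 16 * ∫ x in (-1 : ℝ)..1, P.eval x ^ 2 * w x) ≤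
      ‖H n P v‖ * (4 / (1 - r) ^ 3 * ∫ x in (-1 : ℝ)..1, |P.eval x * q.eval x| * w x) := by
  have m : (-1 : ℝ) ≤ 1 := by norm_num
  set k : ℝ → ℂ := fun x => (1 - v ^ 2) / (v ^ 2 - 2 * x * v + 1) with hk
  have ck : ContinuousOn k (uIcc (-1) 1) := continuousOn_const.div (by fun_prop) fun x hx =>
    (ker hv r1 (uIcc_of_le m ▸ hx)).1
  have ir : ∀ f : ℝ → ℝ, Continuous f → IntervalIntegrable (fun x => f x * w x) volume (-1) 1 :=
    fun f hf => hw.continuousOn_mul hf.continuousOn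
  have ic : ∀ f : ℝ → ℝ, Continuous f →
      IntervalIntegrable (fun x => (f x * w x) • k x) volume (-1) 1 :=
    fun f hf => (ir f hf).smul_continuousOn ck
  set N := C (aeval (jz v) q) * P.map (algebraMap ℝ ℂ) - C (aeval (jz v) P) *
    q.map (algebraMap ℝ ℂ) with hN
  have e := mul_divByMonic_eq_iff_isRoot.2 (show N.IsRoot (jz v) by
    simp [hN, eval_map_algebraMap, mul_comm])
  have dg : (N /ₘ (X - C (jz v))).natDegree < n := by
    have : N.natDegree ≤ n := (natDegree_sub_le _ _).trans (max_le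
      ((natDegree_C_mul_le _ _).trans (natDegree_map_le.trans hP))
      ((natDegree_C_mul_le _ _).trans (natDegree_map_le.trans hq)))
    rw [natDegree_divByMonic _ (monic_X_sub_C _), natDegree_X_sub_C]; omega
  generalize N /ₘ (X - C (jz v)) = D at e dg
  have z : ∫ x in (-1 : ℝ)..1, (P.eval x * w x) • D.eval (x : ℂ) = 0 := by
    have : ∀ x : ℝ, (P.eval x * w x) • D.eval (x : ℂ) =
        ∑ j ∈ Finset.range n, (P.eval x * x ^ j * w x) • D.coeff j := fun x => by
      rw [eval_eq_sum_range' dg, Finset.smul_sum]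
      exact Finset.sum_congr rfl fun j _ => by simp only [real_smul]; push_cast; ring
    simp only [this]
    rw [intervalIntegral.integral_finset_sum fun j _ =>
      (ir (fun x => P.eval x * x ^ j) (by fun_prop)).smul_continuousOn continuousOn_const]
    exact Finset.sum_eq_zero fun j hj => by
      rw [intervalIntegral.integral_smul_const, o j (Finset.mem_range.1 hj), zero_smul]
  have id : aeval (jz v) q * (∫ x in (-1 : ℝ)..1, (P.eval x ^ 2 * w x) • k x) =
      aeval (jz v) P * ∫ x in (-1 : ℝ)..1, (P.eval x * q.eval x * w x) • k x := by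
    rw [← sub_eq_zero, ← intervalIntegral.integral_const_mul, ← intervalIntegral.integral_const_mul,
      ← intervalIntegral.integral_sub ((ic _ (by fun_prop)).const_mul _)
        ((ic _ (by fun_prop)).const_mul _), ← mul_zero (-(1 - v ^ 2) / (2 * v)), ← z,
      ← intervalIntegral.integral_const_mul]
    refine intervalIntegral.integral_congr fun x hx => ?_
    have h1 := (ker hv r1 (uIcc_of_le m ▸ hx)).1
    have h2 := congrArg (eval (x : ℂ)) e
    simp only [hN, eval_mul, eval_sub, eval_X, eval_C, ← coe_algebraMap, eval_map_apply] at h2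
    simp only [hk, real_smul, coe_algebraMap] at h2 ⊢
    generalize aeval (jz v) q = a at *
    generalize aeval (jz v) P = b at *
    rw [jz] at h2
    push_cast
    obtain ⟨W, hW⟩ : ∃ W, v ^ 2 - 2 * x * v + 1 = W := ⟨_, rfl⟩
    rw [hW] at h1 ⊢
    field_simp at h2 ⊢
    linear_combination ((P.eval x : ℝ) * w x * (1 - v ^ 2)) * (-h2 - D.eval (x : ℂ) * hW)
  have l1 : (1 - r) ^ 3 / 16 * ∫ x in (-1 : ℝ)..1, P.eval x ^ 2 * w x ≤
      ‖∫ x in (-1 : ℝ)..1, (P.eval x ^ 2 * w x) • k x‖ := by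
    refine le_trans ?_ (re_le_norm _)
    rw [← reCLM_apply, ← reCLM.intervalIntegral_comp_comm (ic _ (by fun_prop)),
      ← intervalIntegral.integral_const_mul]
    refine intervalIntegral.integral_mono_on m ((ir _ (by fun_prop)).const_mul _) ?_ fun x hx => ?_
    · exact ⟨reCLM.integrable_comp (ic _ (by fun_prop)).1, reCLM.integrable_comp
        (ic _ (by fun_prop)).2⟩
    · rw [map_smul, smul_eq_mul, mul_comm]
      exact mul_le_mul_of_nonneg_left (ker hv r1 hx).2.1 (mul_nonneg (sq_nonneg _) (w0 x))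
  have l2 : ‖∫ x in (-1 : ℝ)..1, (P.eval x * q.eval x * w x) • k x‖ ≤
      4 / (1 - r) ^ 3 * ∫ x in (-1 : ℝ)..1, |P.eval x * q.eval x| * w x := by
    rw [← intervalIntegral.integral_const_mul]
    refine intervalIntegral.norm_integral_le_of_norm_le m (ae_of_all _ fun x hx => ?_)
      ((ir _ (by fun_prop)).const_mul _)
    rw [norm_smul, norm_mul, Real.norm_of_nonneg (w0 x), mul_comm]
    exact mul_le_mul_of_nonneg_right (ker hv r1 (Ioc_subset_Icc_self hx)).2.2
      (mul_nonneg (abs_nonneg _) (w0 x))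
  rw [H_eq hq v0, H_eq hP v0, norm_mul, norm_mul, mul_assoc, mul_assoc]
  refine mul_le_mul_of_nonneg_left ((mul_le_mul_of_nonneg_left l1 (norm_nonneg _)).trans ?_)
    (norm_nonneg _)
  rw [← norm_mul, id, norm_mul]
  gcongr

end Pool.Agent.H27.Er
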