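import Pool.Agent.H27.Er1

/-! Regular weights on `[-1, 1]` have the Bernstein–Markov property. -/

open Metric Set Polynomial MeasureTheory Filter Topology

namespace Pool.Agent.H27.Er

variable {w : ℝ → ℝ}

/-- Squared weighted norm. -/
noncomputable def Q (w : ℝ → ℝ) (q : ℝ[X]) : ℝ := ∫ x in (-1 : ℝ)..1, q.eval x ^ 2 * w x

lemma root {y : ℝ} (hy : 1 < y) (k : ℕ) : ∃ τ, 1 < τ ∧ τ ^ (k + 1) = y :=
  ⟨y ^ (((k + 1 : ℕ) : ℝ)⁻¹), Real.one_lt_rpow hy (by positivity),
    Real.rpow_inv_natCast_pow (by linarith) k.succ_ne_zero⟩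

lemma pd (hw : IntervalIntegrable w volume (-1) 1) (w0 : ∀ x, 0 ≤ w x)
    (hs : ∀ a b : ℝ, -1 ≤ a → a < b → b ≤ 1 → 0 < ∫ x in a..b, w x) {q : ℝ[X]} (hq : q ≠ 0) :
    0 < Q w q := by
  obtain ⟨y, hy, y0⟩ := (Ioo_infinite (show (-1 : ℝ) < 1 by norm_num)).exists_notMem_finite
    (finite_setOf_isRoot hq)
  have p : 0 < q.eval y ^ 2 := sq_pos_of_ne_zero y0
  obtain ⟨a, b, -, h1, h2⟩ := exists_Icc_mem_subset_of_mem_nhds (inter_mem (Ioo_mem_nhds hy.1 hy.2)
    ((show ContinuousAt (fun x => q.eval x ^ 2) y by fun_prop).eventually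
      (lt_mem_nhds (half_lt_self p))))
  rw [Icc_mem_nhds_iff] at h1
  have ab := h1.1.trans h1.2
  have a1 := (h2 (left_mem_Icc.2 ab.le)).1.1.le
  have b1 := (h2 (right_mem_Icc.2 ab.le)).1.2.le
  have i : IntervalIntegrable (fun x => q.eval x ^ 2 * w x) volume (-1) 1 :=
    hw.continuousOn_mul (by fun_prop)
  have s : uIcc a b ⊆ uIcc (-1) 1 := by
    rw [uIcc_of_le ab.le, uIcc_of_le (by norm_num)]; exact Icc_subset_Icc a1 b1
  refine ((mul_pos (half_pos p) (hs a b a1 ab b1)).trans_le ?_).trans_le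
    (intervalIntegral.integral_mono_interval a1 ab.le b1
      (ae_of_all _ fun x => mul_nonneg (sq_nonneg _) (w0 x)) i)
  rw [← intervalIntegral.integral_const_mul]
  exact intervalIntegral.integral_mono_on ab.le ((hw.mono_set s).const_mul _) (i.mono_set s)
    fun x hx => mul_le_mul_of_nonneg_right (h2 hx).2.le (w0 x)

lemma op (hw : IntervalIntegrable w volume (-1) 1) (hp : ∀ q ≠ 0, 0 < Q w q) (n : ℕ) :
    ∃ P : ℝ[X], P.Monic ∧ P.natDegree = n ∧
      ∀ k < n, ∫ x in (-1 : ℝ)..1, P.eval x * x ^ k * w x = 0 := by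
  let L : ℝ[X] →ₗ[ℝ] ℝ :=
    { toFun q := ∫ x in (-1 : ℝ)..1, q.eval x * w x
      map_add' p q := by
        simp only [eval_add, add_mul]
        exact intervalIntegral.integral_add (hw.continuousOn_mul (by fun_prop))
          (hw.continuousOn_mul (by fun_prop))
      map_smul' c p := by simp [mul_assoc] }
  let p : (Fin n → ℝ) → ℝ[X] := fun c => ∑ j : Fin n, C (c j) * X ^ (j : ℕ)
  let Ψ := (Matrix.of fun k j : Fin n => L (X ^ (j : ℕ) * X ^ (k : ℕ))).mulVecLin
  have e : ∀ c (k : Fin n), L (p c * X ^ (k : ℕ)) = Ψ c k := fun c k => by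
    simp only [p, Ψ, Finset.sum_mul, map_sum, C_mul', map_smul, smul_mul_assoc,
      Matrix.mulVecLin_apply, Matrix.mulVec, dotProduct, Matrix.of_apply, smul_eq_mul]
    exact Finset.sum_congr rfl fun _ _ => mul_comm _ _
  have inj : Function.Injective Ψ := (injective_iff_map_eq_zero _).2 fun c hc => by
    have z : p c = 0 := by
      by_contra h
      refine (hp _ h).ne' (Eq.trans (b := L (p c * p c)) (by simp [Q, L, sq]) ?_)
      conv_lhs => rw [show p c * p c = ∑ j : Fin n, c j • (p c * X ^ (j : ℕ)) by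
        simp only [← mul_smul_comm, ← Finset.mul_sum, ← C_mul', p]]
      simp [map_sum, e, hc]
    funext j
    simpa [p, coeff_X_pow, Fin.val_inj] using congrArg (coeff · j) z
  obtain ⟨c, hc⟩ := LinearMap.injective_iff_surjective.1 inj fun k => L (X ^ n * X ^ (k : ℕ))
  have d : (p c).degree < n := degree_sum_fin_lt c
  refine ⟨X ^ n - p c, monic_X_pow_sub d, natDegree_eq_of_degree_eq_some ?_, fun k hk => ?_⟩
  · rw [degree_sub_eq_left_of_degree_lt (by rwa [degree_X_pow]), degree_X_pow]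
  · have := e c ⟨k, hk⟩
    rw [hc, eq_comm, ← sub_eq_zero, ← map_sub, ← sub_mul] at this
    simpa [L] using this

lemma cs (hw : IntervalIntegrable w volume (-1) 1) (w0 : ∀ x, 0 ≤ w x) {P q : ℝ[X]}
    (hP : 0 < Q w P) (hq : 0 < Q w q) :
    ∫ x in (-1 : ℝ)..1, |P.eval x * q.eval x| * w x ≤ √(Q w P) * √(Q w q) := by
  have a := Real.sq_sqrt hP.le
  have b := Real.sq_sqrt hq.le
  have a0 := Real.sqrt_pos.2 hP
  have b0 := Real.sqrt_pos.2 hq
  generalize √(Q w P) = s at *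
  generalize √(Q w q) = t at *
  have i : ∀ q : ℝ[X], IntervalIntegrable (fun x => q.eval x ^ 2 * w x) volume (-1) 1 := fun q =>
    hw.continuousOn_mul (by fun_prop)
  refine (intervalIntegral.integral_mono_on (g := fun x => t / (2 * s) * (P.eval x ^ 2 * w x) +
    s / (2 * t) * (q.eval x ^ 2 * w x)) (by norm_num) (hw.continuousOn_mul (by fun_prop))
    (((i _).const_mul _).add ((i _).const_mul _)) fun x _ => ?_).trans_eq ?_
  · rw [← mul_assoc, ← mul_assoc, ← add_mul, abs_mul, ← sq_abs (P.eval x), ← sq_abs (q.eval x)]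
    refine mul_le_mul_of_nonneg_right ?_ (w0 x)
    rw [div_mul_eq_mul_div, div_mul_eq_mul_div, div_add_div _ _ (by positivity) (by positivity),
      le_div_iff₀ (by positivity)]
    nlinarith [sq_nonneg (t * |P.eval x| - s * |q.eval x|)]
  · rw [intervalIntegral.integral_add ((i _).const_mul _) ((i _).const_mul _),
      intervalIntegral.integral_const_mul, intervalIntegral.integral_const_mul]
    change _ * Q w P + _ * Q w q = _
    rw [← a, ← b]; field_simp; ring

theorem bm (hw : IntervalIntegrable w volume (-1) 1) (w0 : ∀ x, 0 ≤ w x)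
    (hp : ∀ q ≠ 0, 0 < Q w q) (reg : ∀ σ, 1 < σ → ∀ᶠ n in atTop, ∀ q : ℝ[X], q.Monic →
      q.natDegree = n → (2 * σ)⁻¹ ^ n ≤ √(Q w q)) {ρ : ℝ} (hρ : 1 < ρ) :
    ∃ A, 0 < A ∧ ∀ᶠ n in atTop, ∀ q : ℝ[X], q.natDegree ≤ n → ∀ x ∈ Icc (-1 : ℝ) 1,
      |q.eval x| ≤ A * ρ ^ n * √(Q w q) := by
  obtain ⟨τ, τ1, rfl⟩ := root hρ 2
  obtain ⟨r, sr, r1⟩ := exists_between (inv_lt_one_of_one_lt₀ τ1)
  have s0 : 0 < τ⁻¹ := by positivity
  obtain ⟨K, hK⟩ := exists_nat_ge (2 * τ⁻¹ / (r - τ⁻¹))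
  obtain ⟨σ, σ1, hσ⟩ := root τ1 K
  have p : 0 < 1 - r := by linarith
  have W0 := Real.sqrt_pos.2 (hp 1 one_ne_zero)
  set C := 64 / (1 - r) ^ 6 with hC
  set c := (1 - r) / (2 * C * √(Q w 1)) with hc
  refine ⟨C * c * (Real.exp K * c⁻¹ ^ (K + 1)), by positivity, ?_⟩
  filter_upwards [reg σ σ1, eventually_gt_atTop 0] with n hn n0 q hq x hx
  obtain ⟨P, Pm, Pd, o⟩ := op hw hp n
  have P0 := hp P Pm.ne_zero
  have κ0 := Real.sqrt_pos.2 P0
  have k : ∀ q : ℝ[X], q ≠ 0 → q.natDegree ≤ n → ∀ v : ℂ, v ≠ 0 → ‖v‖ ≤ r →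
      ‖H n q v‖ * √(Q w P) ≤ C * ‖H n P v‖ * √(Q w q) := fun q q0 hq v v0 hv => by
    have := (key hw w0 n0 Pd.le hq o v0 hv r1).trans (mul_le_mul_of_nonneg_left
      (mul_le_mul_of_nonneg_left (cs hw w0 P0 (hp q q0)) (by positivity)) (norm_nonneg _))
    change _ * (_ * Q w P) ≤ _ at this
    refine le_of_mul_le_mul_left ?_ (show 0 < (1 - r) ^ 3 / 16 * √(Q w P) by positivity)
    refine (le_of_eq ?_).trans (this.trans_eq ?_)
    · linear_combination (1 - r) ^ 3 / 16 * ‖H n q v‖ * Real.mul_self_sqrt P0.le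
    · rw [hC]; field_simp; ring
  have lo : ∀ v : ℂ, v ≠ 0 → ‖v‖ ≤ r → 1 ≤ ‖H n P v / (c * √(Q w P) : ℝ)‖ := fun v v0 hv => by
    have a := k _ (Chebyshev.T_ne_zero ℝ n) (by simp [Chebyshev.natDegree_T]) v v0 hv
    have b : √(Q w (Chebyshev.T ℝ n)) ≤ √(Q w 1) := Real.sqrt_le_sqrt
      (intervalIntegral.integral_mono_on (by norm_num) (hw.continuousOn_mul (by fun_prop))
        (hw.continuousOn_mul (by fun_prop)) fun x hx => mul_le_mul_of_nonneg_right (by
          simpa using Chebyshev.abs_eval_T_real_le_one n (abs_le.2 hx)) (w0 x))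
    have d : (1 - r) / 2 ≤ ‖H n (Chebyshev.T ℝ n) v‖ := by
      rw [H_T n v0, norm_div, Complex.norm_ofNat]
      gcongr
      have := norm_sub_norm_le (1 : ℂ) (-v ^ (2 * n))
      rw [sub_neg_eq_add, norm_neg, norm_pow, norm_one] at this
      linarith [pow_le_of_le_one (norm_nonneg v) (hv.trans r1.le) (show 2 * n ≠ 0 by omega)]
    rw [norm_div, Complex.norm_real, Real.norm_of_nonneg (by positivity),
      one_le_div (by positivity), hc, div_mul_eq_mul_div, div_le_iff₀ (by positivity)]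
    have e := mul_le_mul_of_nonneg_left b (show 0 ≤ C * ‖H n P v‖ by positivity)
    nlinarith [mul_le_mul_of_nonneg_right d κ0.le]
  have dF : Differentiable ℂ fun v => H n P v / (c * √(Q w P) : ℝ) := (H_diff n P).div_const _
  have lo' : ∀ v ∈ ball (0 : ℂ) r, 1 ≤ ‖H n P v / (c * √(Q w P) : ℝ)‖ := fun v hv => by
    rcases eq_or_ne v 0 with rfl | v0
    · refine ge_of_tendsto (x := 𝓝[≠] 0)
        (dF.continuous.norm.continuousAt.tendsto.mono_left nhdsWithin_le_nhds) ?_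
      filter_upwards [self_mem_nhdsWithin, nhdsWithin_le_nhds (isOpen_ball.mem_nhds hv)]
        with v v0 hv using lo v v0 (mem_ball_zero_iff.1 hv).le
    · exact lo v v0 (mem_ball_zero_iff.1 hv).le
  rcases eq_or_ne q 0 with rfl | q0
  · simp only [eval_zero, abs_zero]; positivity
  refine (sup_le hq s0 (sr.trans r1).le (B := C * c * (Real.exp K * (σ ^ n * c⁻¹) ^ (K + 1)) *
    √(Q w q)) (fun v hv => ?_) hx).trans_eq ?_
  · have a := harnack dF sr hK lo' hv
    have b := k q q0 hq v (norm_pos_iff.1 (hv ▸ s0)) (hv ▸ sr.le)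
    have d : ‖H n P 0 / (c * √(Q w P) : ℝ)‖ ≤ σ ^ n * c⁻¹ := by
      have := hn P Pm Pd
      rw [norm_div, Complex.norm_real, Real.norm_of_nonneg (by positivity), ← Pd, H_zero Pm, Pd,
        div_le_iff₀ (by positivity), mul_assoc, inv_mul_cancel_left₀ (by positivity)]
      refine le_trans (le_of_eq ?_) (mul_le_mul_of_nonneg_left this (by positivity))
      rw [← mul_pow]; congr 1; field_simp
    replace a := a.trans (mul_le_mul_of_nonneg_left (pow_le_pow_left₀ (norm_nonneg _) d _)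
      (Real.exp_pos _).le)
    rw [norm_div, Complex.norm_real, Real.norm_of_nonneg (by positivity),
      div_le_iff₀ (by positivity)] at a
    refine le_of_mul_le_mul_right (b.trans ?_) κ0
    refine (mul_le_mul_of_nonneg_right (mul_le_mul_of_nonneg_left a (by positivity))
      (Real.sqrt_nonneg _)).trans_eq (by ring)
  · rw [mul_pow, ← pow_mul σ, mul_comm n, pow_mul σ, hσ, inv_inv, pow_succ τ 2, mul_pow]
    ring

end Pool.Agent.H27.Er
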