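import Pool.Agent.H27.Er2

/-! Discretising the zeros of a Chebyshev-type polynomial. -/

open Metric Polynomial MeasureTheory Filter Topology Finset

namespace Pool.Agent.H27.Er

lemma zeros {q : ℝ[X]} (hq : q.Monic) : ∃ s : ℕ → ℝ, Monotone s ∧ (∀ i, s i ∈ Set.Icc (-1 : ℝ) 1) ∧
    ∀ x ∈ Set.Icc (-1 : ℝ) 1, ∏ i ∈ range q.natDegree, |x - s i| ≤ |q.eval x| := by
  have m : (-1 : ℝ) ≤ 1 := by norm_num
  have sp := IsAlgClosed.splits (q.map (algebraMap ℝ ℂ))
  have e := sp.eval_eq_prod_roots_of_monic (hq.map _)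
  have d := sp.natDegree_eq_card_roots
  rw [hq.natDegree_map] at d
  obtain ⟨l, hl⟩ := Quotient.exists_rep (q.map (algebraMap ℝ ℂ)).roots
  rw [← hl] at e d
  simp only [Multiset.quot_mk_to_coe, Multiset.coe_card, Multiset.map_coe, Multiset.prod_coe,
    ← Fin.prod_univ_fun_getElem] at e d
  let f : Fin l.length → ℝ := fun i => Set.projIcc (-1) 1 m (l[i.1]).re
  have hf : ∀ i, f i ∈ Set.Icc (-1 : ℝ) 1 := fun i => Subtype.prop _
  refine ⟨fun i => if h : i < l.length then f (Tuple.sort f ⟨i, h⟩) else 1, fun i j ij => ?_,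
    fun i => ?_, fun x hx => ?_⟩
  · dsimp only
    split_ifs with h1 h2 h2
    exacts [Tuple.monotone_sort f ij, (hf _).2, absurd (ij.trans_lt h2) h1, le_rfl]
  · dsimp only
    split_ifs
    exacts [hf _, ⟨m, le_rfl⟩]
  · have := congrArg norm (e x)
    rw [← Complex.coe_algebraMap, eval_map_apply, Complex.coe_algebraMap, Complex.norm_real,
      Real.norm_eq_abs, norm_prod] at this
    rw [d, prod_range, this]
    simp only [Fin.is_lt, dite_true, Fin.eta]
    rw [Equiv.prod_comp (Tuple.sort f) fun i => |x - f i|]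
    refine prod_le_prod (fun _ _ => abs_nonneg _) fun i _ => ?_
    have := Set.abs_projIcc_sub_projIcc m (c := x) (d := (l[i.1]).re)
    rw [Set.projIcc_of_mem m hx] at this
    exact this.trans (by simpa using Complex.abs_re_le_norm (x - l[i.1]))

variable {s : ℕ → ℝ} {x : ℝ} {n : ℕ}

lemma pw {a : ℝ} {f : ℕ → ℝ} (a0 : 0 ≤ a) (h : ∀ i < n, a ≤ f i) : a ^ n ≤ ∏ i ∈ range n, f i := by
  simpa using prod_le_prod (s := range n) (f := fun _ => a) (fun _ _ => a0)
    fun i hi => h i (mem_range.1 hi)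

lemma left (hs : Monotone s) (h2 : |x - s 0| ≤ 2) (N : ℕ) (h : s (n * N) ≤ x) :
    ∏ j ∈ range (N + 1), |x - s (n * j)| ^ n ≤ 2 ^ n * ∏ i ∈ range (n * N), |x - s i| := by
  induction N with
  | zero => simpa using pow_le_pow_left₀ (abs_nonneg _) h2 n
  | succ N ih =>
    rw [prod_range_succ, mul_add_one, prod_range_add _ (n * N), ← mul_assoc]
    rw [mul_add_one] at h
    refine mul_le_mul (ih ((hs (by omega)).trans h)) (pw (abs_nonneg _) fun i hi => ?_)
      (by positivity) (by positivity)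
    have := hs (show n * N + i ≤ n * N + n by omega)
    rw [abs_of_nonneg (by linarith), abs_of_nonneg (by linarith)]; linarith

lemma block (hs : Monotone s) (h2 : |x - s 0| ≤ 2) (N : ℕ) : ∃ k ≤ N,
    (∏ j ∈ range (N + 1), |x - s (n * j)| ^ n) * ∏ i ∈ range n, |x - s (n * k + i)| ≤
      2 ^ n * ∏ i ∈ range (n * (N + 1)), |x - s i| := by
  induction N with
  | zero =>
    refine ⟨0, le_rfl, ?_⟩
    simp only [zero_add, prod_range_one, mul_zero, mul_one]
    gcongr
  | succ N ih =>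
    rw [mul_add_one n (N + 1), prod_range_add _ (n * (N + 1)), ← mul_assoc]
    rcases le_total (s (n * (N + 1))) x with h | h
    · exact ⟨N + 1, le_rfl, mul_le_mul_of_nonneg_right (left hs h2 _ h) (by positivity)⟩
    · obtain ⟨k, hk, ih⟩ := ih
      refine ⟨k, by omega, ?_⟩
      rw [prod_range_succ, mul_right_comm]
      refine mul_le_mul ih (pw (abs_nonneg _) fun i hi => ?_) (by positivity) (by positivity)
      have := hs (show n * (N + 1) ≤ n * (N + 1) + i by omega)
      rw [abs_of_nonpos (by linarith), abs_of_nonpos (by linarith)]; linarith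

/-- The truncated singular kernel. -/
noncomputable def g : ℝ → ℝ := (ball (0 : ℝ) 3).indicator fun y => |y| ^ (-(1 / 2 : ℝ))

lemma g_int : Integrable g := (integrable_indicator_iff measurableSet_ball).2
  (integrableOn_ball_of_norm_le_rpow (C := 1) (α := 1 / 2) (by simp) (by norm_num)
    (ae_of_all _ fun x => by
      rw [one_mul, Real.norm_of_nonneg (by positivity), Real.norm_eq_abs])
    (Measurable.aestronglyMeasurable (by fun_prop)))

lemma g0 (y : ℝ) : 0 ≤ g y := Set.indicator_nonneg (fun _ _ => by positivity) _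

lemma disc {T : ℝ[X]} (hT : T.Monic) (n0 : 0 < T.natDegree) {F : Set ℝ} {c : ℝ} (c0 : 0 < c)
    (hF : ∀ x ∈ F, x ∈ Set.Icc (-1 : ℝ) 1 ∧ |T.eval x| ≤ c ^ T.natDegree) {N : ℕ} (N0 : 0 < N) :
    ∃ p : ℝ[X], p.Monic ∧ p.natDegree = N ∧ ∃ G : ℝ → ℝ, Integrable G ∧ (∀ x, 0 ≤ G x) ∧
      ∫ x, G x = N * ∫ x, g x ∧ ∀ᵐ x, x ∈ F → |p.eval x| ≤ 2 * c ^ N * G x ^ 2 := by
  obtain ⟨s, hs, s1, h⟩ := zeros (hT.pow (n := N))
  rw [hT.natDegree_pow, mul_comm] at h
  generalize T.natDegree = n at *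
  have n1 : (0 : ℝ) < n := by positivity
  refine ⟨∏ j ∈ range N, (X - C (s (n * j))), monic_prod_of_monic _ _ fun _ _ => monic_X_sub_C _,
    by rw [natDegree_prod_of_monic _ _ fun _ _ => monic_X_sub_C _]; simp,
    fun x => (n : ℝ)⁻¹ * ∑ i ∈ range (n * N), g (x - s i), (integrable_finset_sum _ fun i _ =>
      g_int.comp_sub_right _).const_mul _, fun x => mul_nonneg (by positivity)
      (sum_nonneg fun _ _ => g0 _), ?_, ?_⟩
  · rw [integral_const_mul, integral_finset_sum _ fun i _ => g_int.comp_sub_right _]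
    simp only [integral_sub_right_eq_self g, sum_const, card_range, nsmul_eq_mul]
    push_cast; field_simp
  filter_upwards [(Set.countable_range s).ae_notMem volume] with x hx xF
  obtain ⟨x1, hx2⟩ := hF x xF
  have d : ∀ i, |x - s i| ≤ 2 := fun i =>
    abs_le.2 ⟨by linarith [x1.1, (s1 i).2], by linarith [x1.2, (s1 i).1]⟩
  have e : ∀ i, |x - s i| * g (x - s i) ^ 2 = 1 := fun i => by
    have : 0 < |x - s i| := abs_pos.2 (sub_ne_zero.2 fun h => hx ⟨i, h.symm⟩)
    rw [g, Set.indicator_of_mem (mem_ball_zero_iff.2 ((d i).trans_lt (by norm_num))),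
      ← Real.rpow_natCast, ← Real.rpow_mul this.le]
    norm_num [Real.rpow_neg_one, this.ne']
  obtain ⟨N, rfl⟩ := Nat.exists_eq_add_one_of_ne_zero N0.ne'
  obtain ⟨k, hk, b⟩ := block (n := n) hs (d 0) N
  have b1 := b.trans (mul_le_mul_of_nonneg_left (h x x1) (by positivity))
  have am := Real.geom_mean_le_arith_mean_weighted (range n) (fun _ => (n : ℝ)⁻¹)
    (fun i => g (x - s (n * k + i))) (fun _ _ => by positivity) (by simp [n0.ne'])
    fun _ _ => g0 _
  have am2 := pow_le_pow_left₀ (prod_nonneg fun _ _ => Real.rpow_nonneg (g0 _) _) (am.trans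
    (show _ ≤ (n : ℝ)⁻¹ * ∑ i ∈ range (n * (N + 1)), g (x - s i) by
      rw [← mul_sum]
      refine mul_le_mul_of_nonneg_left (le_trans ?_ (sum_le_sum_of_subset_of_nonneg
        (range_subset_range.2 (show n * k + n ≤ _ by nlinarith)) fun _ _ _ => g0 _))
        (by positivity)
      rw [sum_range_add]
      exact le_add_of_nonneg_left (sum_nonneg fun _ _ => g0 _))) n
  simp only [← prod_pow, Real.rpow_inv_natCast_pow (g0 _) n0.ne'] at am2
  refine le_of_pow_le_pow_left₀ n0.ne' (by positivity) ?_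
  have p0 : 0 ≤ ∏ i ∈ range n, g (x - s (n * k + i)) := prod_nonneg fun _ _ => g0 _
  calc _ = (∏ j ∈ range (N + 1), |x - s (n * j)| ^ n) * (∏ i ∈ range n, |x - s (n * k + i)|) *
        (∏ i ∈ range n, g (x - s (n * k + i))) ^ 2 := by
        rw [mul_assoc, ← prod_pow, ← prod_mul_distrib]
        simp [e, eval_prod, abs_prod, prod_pow]
    _ ≤ 2 ^ n * (c ^ n) ^ (N + 1) * (((n : ℝ)⁻¹ * ∑ i ∈ range (n * (N + 1)), g (x - s i)) ^ n) ^ 2
        := by
        refine mul_le_mul (b1.trans ?_) (pow_le_pow_left₀ p0 am2 2) (by positivity) (by positivity)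
        rw [eval_pow, abs_pow]; gcongr
    _ = _ := by rw [pow_right_comm c, pow_right_comm _ n, ← mul_pow, ← mul_pow]

end Pool.Agent.H27.Er
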