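import Pool.Agent.H27.Er3

/-! Regular bounded weights cannot be concentrated near sets of small capacity. -/

open Set Polynomial MeasureTheory Filter Topology

namespace Pool.Agent.H27.Er

theorem contra {w : ℝ → ℝ} (hw : IntervalIntegrable w volume (-1) 1) (w0 : ∀ x, 0 ≤ w x) {M c : ℝ}
    (M0 : 0 < M) (hM : ∀ x, w x ≤ M) (hp : ∀ q ≠ 0, 0 < Q w q)
    (reg : ∀ σ, 1 < σ → ∀ᶠ n in atTop, ∀ q : ℝ[X], q.Monic →
      q.natDegree = n → (2 * σ)⁻¹ ^ n ≤ √(Q w q)) (c0 : 0 < c) (c1 : 2 * c < 1)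
    (h : ∀ ε, 0 < ε → ∃ F B : Set ℝ, MeasurableSet B ∧ volume B ≤ ENNReal.ofReal ε ∧
      (∀ x ∈ Icc (-1 : ℝ) 1, 0 < w x → x ∉ B → x ∈ F) ∧ ∃ T : ℝ[X], T.Monic ∧ 0 < T.natDegree ∧
      ∀ x ∈ F, x ∈ Icc (-1 : ℝ) 1 ∧ |T.eval x| ≤ c ^ T.natDegree) : False := by
  obtain ⟨y, y1, y2⟩ := exists_between ((one_lt_inv₀ (by positivity)).2 c1)
  obtain ⟨ρ, ρ1, rfl⟩ := root y1 4
  obtain ⟨A, A0, hA⟩ := bm hw w0 hp reg ρ1
  have K0 : 0 ≤ ∫ x, g x := integral_nonneg g0
  set K := ∫ x, g x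
  have θ1 : |(2 * c * ρ ^ 5) ^ 2| < 1 := by
    rw [abs_of_nonneg (by positivity)]
    exact pow_lt_one₀ (by positivity) (by
      rwa [lt_inv_comm₀ (by positivity) (by positivity), ← div_lt_one (by positivity),
        div_inv_eq_mul] at y2) two_ne_zero
  have t := (tendsto_pow_const_mul_const_pow_of_abs_lt_one 4 θ1).const_mul
    (16 * M * (4 * M * A ^ 2 * (K + 1)) ^ 4)
  rw [mul_zero] at t
  obtain ⟨N, ⟨h1, h2⟩, h3, N0⟩ := ((hA.and (reg ρ ρ1)).and ((t.eventually (gt_mem_nhds one_pos)).and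
    (eventually_gt_atTop 0))).exists
  set S := (A * ρ ^ N) ^ 2 with hS
  have S0 : 0 < S := by positivity
  obtain ⟨F, B, mB, vB, hF, T, Tm, T0, hT⟩ := h (1 / (4 * M * S)) (by positivity)
  obtain ⟨p, pm, pd, G, Gi, G0, GK, hG⟩ := disc Tm T0 c0 hT N0
  have Q0 := hp p pm.ne_zero
  have N1 : (1 : ℝ) ≤ N := by exact_mod_cast N0
  set L := 4 * M * S * (N * (K + 1)) with hL
  have L0 : 0 < L := by positivity
  have fB : volume B ≠ ⊤ := ne_top_of_le_ne_top ENNReal.ofReal_ne_top vB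
  have iB : Integrable (B.indicator fun _ => (1 : ℝ)) :=
    (integrable_indicator_iff mB).2 (integrableOn_const fB)
  have iI : Integrable ((Ioc (-1 : ℝ) 1).indicator fun _ => (1 : ℝ)) :=
    (integrable_indicator_iff measurableSet_Ioc).2 (integrableOn_const (by simp))
  have main : Q w p ≤ ∫ x, (M * (2 * c ^ N * L ^ 2) ^ 2 * (Ioc (-1 : ℝ) 1).indicator (fun _ => 1) x +
      M * (S * Q w p) / L * G x + M * (S * Q w p) * B.indicator (fun _ => 1) x) := by
    conv_lhs => rw [Q, intervalIntegral.integral_of_le (by norm_num),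
      ← integral_indicator measurableSet_Ioc]
    refine integral_mono_ae ((integrable_indicator_iff measurableSet_Ioc).2
      (hw.continuousOn_mul (g := fun x => p.eval x ^ 2) (by fun_prop)).1)
      (((iI.const_mul _).add (Gi.const_mul _)).add (iB.const_mul _)) ?_
    filter_upwards [hG] with x hx
    have a1 : 0 ≤ M * (S * Q w p) / L * G x := mul_nonneg (by positivity) (G0 x)
    have a2 : 0 ≤ M * (S * Q w p) * B.indicator (fun _ => 1) x :=
      mul_nonneg (by positivity) (indicator_nonneg (fun _ _ => zero_le_one) _)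
    have a3 : 0 ≤ M * (2 * c ^ N * L ^ 2) ^ 2 := by positivity
    by_cases xI : x ∈ Ioc (-1 : ℝ) 1
    swap
    · simp only [indicator_of_notMem xI]; linarith
    simp only [indicator_of_mem xI, mul_one]
    have b : p.eval x ^ 2 ≤ S * Q w p := by
      rw [← sq_abs, hS, ← Real.sq_sqrt Q0.le, ← mul_pow]
      exact pow_le_pow_left₀ (abs_nonneg _) (h1 p pd.le x (Ioc_subset_Icc_self xI)) 2
    have b0 : p.eval x ^ 2 * w x ≤ M * p.eval x ^ 2 := by nlinarith [hM x, sq_nonneg (p.eval x)]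
    have b1 := b0.trans (mul_le_mul_of_nonneg_left b M0.le)
    rcases (w0 x).eq_or_lt with z | z
    · rw [← z]; linarith
    by_cases xB : x ∈ B
    · rw [indicator_of_mem xB, mul_one]; linarith
    rcases le_total (G x) L with l | l
    · have : p.eval x ^ 2 ≤ (2 * c ^ N * L ^ 2) ^ 2 := by
        rw [← sq_abs]
        have := G0 x
        exact pow_le_pow_left₀ (abs_nonneg _) ((hx (hF x (Ioc_subset_Icc_self xI) z xB)).trans
          (by gcongr)) 2
      linarith [mul_le_mul_of_nonneg_left this M0.le]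
    · have : M * (S * Q w p) / L * L ≤ M * (S * Q w p) / L * G x := by gcongr
      rw [div_mul_cancel₀ _ L0.ne'] at this
      linarith
  rw [integral_add (by exact (iI.const_mul _).add (Gi.const_mul _)) (iB.const_mul _),
    integral_add (iI.const_mul _) (Gi.const_mul _), integral_const_mul, integral_const_mul,
    integral_const_mul, GK, integral_indicator_const _ mB,
    integral_indicator_const _ measurableSet_Ioc] at main
  have v : volume.real B ≤ 1 / (4 * M * S) := ENNReal.toReal_le_of_le_ofReal (by positivity) vB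
  have v1 : M * (S * Q w p) * volume.real B ≤ Q w p / 4 :=
    (mul_le_mul_of_nonneg_left v (by positivity)).trans_eq (by field_simp)
  have v2 : M * (S * Q w p) / L * (N * K) ≤ Q w p / 4 :=
    (mul_le_mul_of_nonneg_left (show N * K ≤ N * (K + 1) by gcongr; linarith)
      (by positivity)).trans_eq (by rw [hL]; field_simp)
  have lo := pow_le_pow_left₀ (by positivity) (h2 p pm pd) 2
  rw [Real.sq_sqrt Q0.le] at lo
  norm_num at main
  have fin : ((2 * ρ)⁻¹ ^ N) ^ 2 ≤ 4 * (M * (2 * c ^ N * L ^ 2) ^ 2) := by linarith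
  refine h3.not_ge (le_of_mul_le_mul_left ?_ (show 0 < ((2 * ρ)⁻¹ ^ N) ^ 2 by positivity))
  rw [mul_one]
  refine fin.trans_eq ?_
  rw [hL, hS, pow_right_comm _ 2 N, mul_pow (2 * c), mul_pow 2 c, pow_right_comm ρ 5, inv_pow,
    mul_pow 2 ρ]
  field_simp
  ring

end Pool.Agent.H27.Er
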