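import Mathlib

set_option autoImplicit false

namespace Pool.Agent.H27.Filt

open Filter Set

/-- An almost disjoint family of infinite subsets of `ℕ` indexed by Cantor space. -/
theorem exists_ad : ∃ M : (ℕ → Bool) → Set ℕ, (∀ x, (M x).Infinite) ∧
    ∀ x y, x ≠ y → (M x ∩ M y).Finite := by
  let c : (ℕ → Bool) → ℕ → ℕ := fun x k => Encodable.encode ((List.range k).map x)
  have hc : ∀ x y k l, c x k = c y l → k = l ∧ ∀ i < k, x i = y i := by
    intro x y k l h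
    have h1 := Encodable.encode_injective h
    have h2 : k = l := by simpa using congrArg List.length h1
    subst h2
    exact ⟨rfl, fun i hi => List.map_inj_left.1 h1 i (List.mem_range.2 hi)⟩
  refine ⟨fun x => range (c x), fun x => infinite_range_of_injective fun k l h => (hc x x k l h).1,
    fun x y hxy => ?_⟩
  obtain ⟨i, hi⟩ := Function.ne_iff.1 hxy
  refine ((finite_Iic i).image (c x)).subset ?_
  rintro _ ⟨⟨k, rfl⟩, ⟨l, hl⟩⟩
  refine ⟨k, ?_, rfl⟩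
  by_contra hk
  exact hi ((hc x y k l hl.symm).2 i (not_le.1 hk))

theorem inter_unions {D : ℕ → Set ℕ} (hD : Pairwise (Function.onFun Disjoint D)) (M N : Set ℕ) :
    (⋃ n ∈ M, D n) ∩ (⋃ n ∈ N, D n) ⊆ ⋃ n ∈ M ∩ N, D n := by
  rintro x ⟨h1, h2⟩
  simp only [mem_iUnion] at h1 h2 ⊢
  obtain ⟨m, hm, hxm⟩ := h1
  obtain ⟨n, hn, hxn⟩ := h2
  by_cases h : m = n
  · subst h; exact ⟨m, ⟨hm, hn⟩, hxm⟩
  · exact absurd hxn (Set.disjoint_left.1 (hD h) hxm)

theorem compl_biUnion_mem {F : Filter ℕ} {D : ℕ → Set ℕ} (hF : ∀ n, (D n)ᶜ ∈ F) {M : Set ℕ}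
    (hM : M.Finite) : (⋃ n ∈ M, D n)ᶜ ∈ F := by
  rw [compl_iUnion₂]
  exact (biInter_mem hM).2 fun n _ => hF n

theorem uncountable_cantor : Uncountable (ℕ → Bool) := by
  rw [← Cardinal.aleph0_lt_mk_iff]
  simp [Cardinal.aleph0_lt_continuum]

/-- A conglomerated filter is not poor. -/
theorem not_poor_of_cong {F : Filter ℕ} {D : ℕ → Set ℕ}
    (hD : Pairwise (Function.onFun Disjoint D)) (hF : ∀ n, (D n)ᶜ ∈ F)
    (hM : ∀ M : Set ℕ, M.Infinite → (⋃ n ∈ M, D n)ᶜ ∉ F) :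
    ∃ 𝒜 : Set (Set ℕ), (∀ A ∈ 𝒜, Aᶜ ∉ F) ∧ 𝒜.Pairwise (fun A B => (A ∩ B)ᶜ ∈ F) ∧
      ¬ 𝒜.Countable := by
  obtain ⟨M, h1, h2⟩ := exists_ad
  let E : (ℕ → Bool) → Set ℕ := fun x => ⋃ n ∈ M x, D n
  have h3 : ∀ x y, x ≠ y → (E x ∩ E y)ᶜ ∈ F := fun x y hxy =>
    mem_of_superset (compl_biUnion_mem hF (h2 x y hxy)) (compl_subset_compl.2 (inter_unions hD _ _))
  have h4 : Function.Injective E := fun x y h => by
    by_contra hxy
    have := h3 x y hxy
    rw [← h, inter_self] at this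
    exact hM _ (h1 x) this
  refine ⟨range E, ?_, ?_, fun h => ?_⟩
  · rintro _ ⟨x, rfl⟩; exact hM _ (h1 x)
  · rintro _ ⟨x, rfl⟩ _ ⟨y, rfl⟩ hxy
    exact h3 x y fun h => hxy (h ▸ rfl)
  · haveI := uncountable_cantor
    have : (univ : Set (ℕ → Bool)).Countable := by
      rw [← image_univ] at h
      exact countable_of_injective_of_countable_image h4.injOn h
    exact not_countable_univ this

section Measure

variable {μ : Set ℕ → ℝ} (h0 : ∀ A, 0 ≤ μ A)
  (hadd : ∀ A B, Disjoint A B → μ (A ∪ B) = μ A + μ B)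

include h0 hadd

theorem mu_mono {A B : Set ℕ} (h : A ⊆ B) : μ A ≤ μ B := by
  have := hadd A (B \ A) disjoint_sdiff_right
  rw [union_sdiff_cancel h] at this
  linarith [h0 (B \ A)]

theorem mu_union_le (A B : Set ℕ) : μ (A ∪ B) ≤ μ A + μ B := by
  have := hadd A (B \ A) disjoint_sdiff_right
  rw [union_sdiff_self] at this
  linarith [mu_mono h0 hadd (sdiff_subset : B \ A ⊆ B)]

omit h0 in
theorem mu_empty : μ ∅ = 0 := by
  have := hadd ∅ ∅ (by simp)
  rw [union_self] at this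
  linarith

theorem mu_biUnion_le {ι : Type} (T : Finset ι) (C : ι → Set ℕ) :
    μ (⋃ i ∈ T, C i) ≤ ∑ i ∈ T, μ (C i) := by
  classical
  induction T using Finset.induction_on with
  | empty => simp [mu_empty hadd]
  | insert a T ha ih =>
    rw [Finset.set_biUnion_insert, Finset.sum_insert ha]
    linarith [mu_union_le h0 hadd (C a) (⋃ i ∈ T, C i)]

omit h0 in
theorem mu_biUnion_eq {ι : Type} (T : Finset ι) (C : ι → Set ℕ)
    (hC : Pairwise (Function.onFun Disjoint C)) :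
    μ (⋃ i ∈ T, C i) = ∑ i ∈ T, μ (C i) := by
  classical
  induction T using Finset.induction_on with
  | empty => simp [mu_empty hadd]
  | insert a T ha ih =>
    rw [Finset.set_biUnion_insert, Finset.sum_insert ha, hadd, ih]
    refine disjoint_iUnion₂_right.2 fun i hi => hC ?_
    rintro rfl
    exact ha hi

theorem finite_big {ι : Type} (C : ι → Set ℕ) (hC : Pairwise (Function.onFun Disjoint C))
    {ε : ℝ} (hε : 0 < ε) : {i | ε < μ (C i)}.Finite := by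
  by_contra hinf
  obtain ⟨N, hN⟩ := exists_nat_gt (μ univ / ε)
  obtain ⟨T, hT, hTN⟩ := Set.Infinite.exists_subset_card_eq hinf N
  have h1 := mu_biUnion_eq hadd T C hC
  have h2 := mu_mono h0 hadd (subset_univ (⋃ i ∈ T, C i))
  have h3 : ∑ _i ∈ T, ε ≤ ∑ i ∈ T, μ (C i) :=
    Finset.sum_le_sum fun i hi => le_of_lt (hT hi)
  rw [Finset.sum_const, hTN, nsmul_eq_mul] at h3
  rw [div_lt_iff₀ hε] at hN
  linarith

end Measure

section Slalom

/-- decoding of a natural number as a finite slalom -/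
def dec (n : ℕ) : List (List ℕ) := Denumerable.ofNat _ n

def tau (n j i : ℕ) : ℕ := ((dec n).getD j []).getD i 0

def Bm (m : ℕ) : Set ℕ := {n | m ≤ (dec n).length}

def Af (f : ℕ → ℕ) : Set ℕ := {n | ∀ j < (dec n).length, ∃ i ≤ j, tau n j i = f j}

def Valid (p : Finset (ℕ → ℕ)) : Prop := ∀ j, (p.image (· j)).card ≤ j + 1

def Pp (p : Finset (ℕ → ℕ)) : Set ℕ := ⋂ f ∈ p, Af f

theorem exists_mem {p : Finset (ℕ → ℕ)} (hp : Valid p) (m : ℕ) : (Pp p ∩ Bm m).Nonempty := by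
  let l : List (List ℕ) := (List.range m).map fun j => (p.image (· j)).toList
  have hl : dec (Encodable.encode l) = l := Denumerable.ofNat_encode l
  have hlen : l.length = m := by simp [l]
  refine ⟨Encodable.encode l, ?_, ?_⟩
  · simp only [Pp, mem_iInter]
    intro f hf j hj
    rw [hl, hlen] at hj
    have h1 : l.getD j [] = (p.image (· j)).toList := by
      simp [l, hj]
    have h2 : f j ∈ (p.image (· j)).toList := Finset.mem_toList.2 (Finset.mem_image_of_mem _ hf)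
    obtain ⟨i, hi, he⟩ := List.getElem_of_mem h2
    refine ⟨i, ?_, ?_⟩
    · have := hp j
      rw [Finset.length_toList] at hi
      omega
    · rw [tau, hl, h1, List.getD_eq_getElem _ _ hi, he]
  · change m ≤ (dec (Encodable.encode l)).length
    rw [hl, hlen]

theorem exists_maximal : ∃ F : Filter ℕ, (∀ m, Bm m ∈ F) ∧ (∀ p, Valid p → (Pp p)ᶜ ∉ F) ∧
    ∀ A : Set ℕ, Aᶜ ∉ F → ∃ p, Valid p ∧ (Pp p \ A)ᶜ ∈ F := by
  let S : Set (Filter ℕ)ᵒᵈ := {F | (∀ m, Bm m ∈ OrderDual.ofDual F) ∧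
    ∀ p, Valid p → (Pp p)ᶜ ∉ OrderDual.ofDual F}
  have h0 : OrderDual.toDual (⨅ m, 𝓟 (Bm m)) ∈ S := by
    refine ⟨fun m => mem_iInf_of_mem m (mem_principal_self _), fun p hp h => ?_⟩
    have hdir : Directed (· ≥ ·) fun m => 𝓟 (Bm m) := by
      refine Antitone.directed_ge fun a b hab => principal_mono.2 fun n hn => ?_
      exact le_trans hab hn
    obtain ⟨m, hm⟩ := (mem_iInf_of_directed hdir _).1 h
    obtain ⟨n, h1, h2⟩ := exists_mem hp m
    exact hm h2 h1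
  obtain ⟨F, -, hF⟩ := zorn_le_nonempty₀ S (fun c hc hch y hy => by
    haveI : Nonempty c := ⟨⟨y, hy⟩⟩
    have hdir : Directed (· ≥ ·) fun G : c => OrderDual.ofDual G.1 := by
      intro a b
      rcases hch.total a.2 b.2 with h | h
      · exact ⟨b, h, le_rfl⟩
      · exact ⟨a, le_rfl, h⟩
    refine ⟨OrderDual.toDual (⨅ G : c, OrderDual.ofDual G.1), ⟨fun m => ?_, fun p hp h => ?_⟩,
      fun z hz => ?_⟩
    · exact mem_iInf_of_mem ⟨y, hy⟩ ((hc hy).1 m)
    · obtain ⟨G, hG⟩ := (mem_iInf_of_directed hdir _).1 h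
      exact (hc G.2).2 p hp hG
    · exact iInf_le (fun G : c => OrderDual.ofDual G.1) ⟨z, hz⟩) _ h0
  refine ⟨OrderDual.ofDual F, hF.1.1, hF.1.2, fun A hA => ?_⟩
  by_contra hcon
  push Not at hcon
  have h1 : OrderDual.toDual (OrderDual.ofDual F ⊓ 𝓟 Aᶜ) ∈ S := by
    refine ⟨fun m => mem_inf_of_left (hF.1.1 m), fun p hp h => hcon p hp ?_⟩
    refine mem_of_superset (mem_inf_principal.1 h) fun n hn h2 => ?_
    exact hn h2.2 h2.1
  have h2 : OrderDual.ofDual F ≤ OrderDual.ofDual F ⊓ 𝓟 Aᶜ :=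
    hF.2 h1 (inf_le_left : OrderDual.ofDual F ⊓ 𝓟 Aᶜ ≤ OrderDual.ofDual F)
  exact hA (h2 (mem_inf_of_right (mem_principal_self _)))

open Classical in
theorem valid_union {p q : Finset (ℕ → ℕ)} (hp : Valid p)
    (h : (List.range (2 * p.card)).map (fun j => p.image (· j)) =
      (List.range (2 * q.card)).map (fun j => q.image (· j))) : Valid (p ∪ q) := by
  have h1 : 2 * p.card = 2 * q.card := by simpa using congrArg List.length h
  rw [← h1] at h
  intro j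
  by_cases hj : j < 2 * p.card
  · have h2 : p.image (· j) = q.image (· j) := List.map_inj_left.1 h j (List.mem_range.2 hj)
    rw [Finset.image_union, ← h2, Finset.union_self]
    exact hp j
  · have h2 := Finset.card_image_le (s := p ∪ q) (f := (· j))
    have h3 := Finset.card_union_le p q
    omega

open Classical in
/-- A poor free filter that is not generated by a statistical measure. -/
theorem exists_poor : ∃ F : Filter ℕ, F.NeBot ∧ F ≤ cofinite ∧
    (∀ 𝒜 : Set (Set ℕ), (∀ A ∈ 𝒜, Aᶜ ∉ F) → 𝒜.Pairwise (fun A B => (A ∩ B)ᶜ ∈ F) →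
      𝒜.Countable) ∧
    ∀ μ : Set ℕ → ℝ, (∀ A, 0 ≤ μ A) → (∀ A B, Disjoint A B → μ (A ∪ B) = μ A + μ B) →
      μ univ = 1 → ¬ ∀ A, A ∈ F ↔ μ A = 1 := by
  obtain ⟨F, hB, hP, hmax⟩ := exists_maximal
  refine ⟨F, ?_, ?_, ?_, ?_⟩
  · have := hP ∅ (fun j => by simp)
    refine ⟨fun h => this ?_⟩
    rw [h]; exact mem_bot
  · intro s hs
    obtain ⟨m, hm⟩ := ((mem_cofinite.1 hs).image fun n => (dec n).length).bddAbove
    refine mem_of_superset (hB (m + 1)) fun n hn => ?_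
    by_contra h
    have h1 : (dec n).length ≤ m := hm ⟨n, h, rfl⟩
    have h2 : m + 1 ≤ (dec n).length := hn
    omega
  · intro 𝒜 h1 h2
    choose! p hp1 hp2 using hmax
    refine countable_of_injective_of_countable_image
      (f := fun A => (List.range (2 * (p A).card)).map (fun j => (p A).image (· j))) ?_
      (to_countable _)
    intro A hA A' hA' h
    by_contra hne
    refine hP _ (valid_union (hp1 A (h1 A hA)) h) ?_
    filter_upwards [h2 hA hA' hne, hp2 A (h1 A hA), hp2 A' (h1 A' hA')] with n a b c hn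
    have hn' : n ∈ Pp (p A) ∧ n ∈ Pp (p A') := by
      simp only [Pp, mem_iInter] at hn ⊢
      exact ⟨fun f hf => hn f (Finset.mem_union_left _ hf),
        fun f hf => hn f (Finset.mem_union_right _ hf)⟩
    refine a ⟨?_, ?_⟩
    · by_contra h; exact b ⟨hn'.1, h⟩
    · by_contra h; exact c ⟨hn'.2, h⟩
  · intro μ h0 hadd h1 hF
    have hcompl : ∀ A, μ A + μ Aᶜ = 1 := fun A => by
      rw [← hadd A Aᶜ disjoint_compl_right, union_compl_self, h1]
    have hpos : ∀ f, 0 < μ (Af f) := fun f => by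
      have h2 := hP {f} (fun j => by simp)
      have h3 : Pp {f} = Af f := by simp [Pp]
      rw [h3, hF] at h2
      rcases (h0 (Af f)).eq_or_lt with h | h
      · exact absurd (by linarith [hcompl (Af f)]) h2
      · exact h
    let C : ℕ → ℕ → ℕ → Set ℕ := fun k i a => {n | tau n k i = a}
    have hfin : ∀ k : ℕ, (⋃ i ∈ Iic k, {a | 1 / ((k : ℝ) + 1) ^ 2 < 2 * μ (C k i a)}).Finite := by
      intro k
      refine (finite_Iic k).biUnion fun i _ => ?_
      refine (finite_big h0 hadd (C k i) (fun a b hab => ?_)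
        (ε := 1 / ((k : ℝ) + 1) ^ 2 / 2) (by positivity)).subset fun a ha => ?_
      · exact Set.disjoint_left.2 fun n h1 h2 => hab (h1.symm.trans h2)
      · simp only [mem_setOf_eq] at ha ⊢
        linarith
    choose g hg using fun k => (hfin k).exists_notMem
    obtain ⟨k, hk⟩ := exists_nat_one_div_lt (hpos g)
    have h2 : Af g ⊆ (Bm (k + 1))ᶜ ∪ ⋃ i ∈ Finset.range (k + 1), C k i (g k) := by
      intro n hn
      by_cases hb : n ∈ Bm (k + 1)
      · obtain ⟨i, hi, he⟩ := hn k hb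
        exact Or.inr (mem_biUnion (Finset.mem_coe.2 (Finset.mem_range.2 (by omega))) he)
      · exact Or.inl hb
    have h3 := mu_mono h0 hadd h2
    have h4 := mu_union_le h0 hadd (Bm (k + 1))ᶜ (⋃ i ∈ Finset.range (k + 1), C k i (g k))
    have h5 : μ (Bm (k + 1))ᶜ = 0 := by linarith [hcompl (Bm (k + 1)), (hF _).1 (hB (k + 1))]
    have h6 := mu_biUnion_le h0 hadd (Finset.range (k + 1)) fun i => C k i (g k)
    have h7 : ∑ i ∈ Finset.range (k + 1), μ (C k i (g k)) ≤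
        ∑ _i ∈ Finset.range (k + 1), 1 / ((k : ℝ) + 1) ^ 2 := by
      refine Finset.sum_le_sum fun i hi => ?_
      have h8 := hg k
      simp only [mem_iUnion, not_exists, mem_setOf_eq, not_lt] at h8
      have h9 := h8 i (by simpa [Nat.lt_succ_iff] using hi)
      linarith [h0 (C k i (g k))]
    rw [Finset.sum_const, Finset.card_range, nsmul_eq_mul] at h7
    have h8 : ((k + 1 : ℕ) : ℝ) * (1 / ((k : ℝ) + 1) ^ 2) = 1 / ((k : ℝ) + 1) := by
      push_cast; field_simp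
    linarith

end Slalom

section Recursion

/-- no finite subfamily covers `ℕ` up to a finite set -/
def Proper (J : Set (Set ℕ)) : Prop := ∀ t : Set (Set ℕ), t ⊆ J → t.Finite → (⋃₀ t)ᶜ.Infinite

theorem pseudo {J : Set (Set ℕ)} (hc : J.Countable) (hJ : Proper J) :
    ∃ g : ℕ → ℕ, Function.Injective g ∧ ∀ j ∈ J, {n | g n ∈ j}.Finite := by
  rcases J.eq_empty_or_nonempty with rfl | hne
  · exact ⟨id, Function.injective_id, by simp⟩
  obtain ⟨e, rfl⟩ := hc.exists_eq_range hne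
  have h1 : ∀ k m : ℕ, ∃ n, m < n ∧ ∀ i ≤ k, n ∉ e i := fun k m => by
    obtain ⟨n, hn, hmn⟩ := (hJ (e '' Iic k) (image_subset_range _ _)
      ((finite_Iic k).image e)).exists_gt m
    exact ⟨n, hmn, fun i hi h => hn ⟨e i, ⟨i, hi, rfl⟩, h⟩⟩
  choose s hs1 hs2 using h1
  let g : ℕ → ℕ := fun n => Nat.rec (s 0 0) (fun k m => s (k + 1) m) n
  have hg : StrictMono g := strictMono_nat_of_lt_succ fun n => hs1 _ _
  refine ⟨g, hg.injective, ?_⟩
  rintro _ ⟨i, rfl⟩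
  refine (finite_Iic i).subset fun n hn => ?_
  by_contra h
  have h2 : i < n := not_le.1 h
  obtain ⟨k, rfl⟩ : ∃ k, n = k + 1 := ⟨n - 1, by omega⟩
  exact hs2 (k + 1) (g k) i h2.le hn

theorem exists_piece {J : Set (Set ℕ)} (hc : J.Countable) (hJ : Proper J) :
    ∃ a : Set ℕ, a.Infinite ∧ (∀ j ∈ J, (a ∩ j).Finite) ∧ Proper (insert a J) := by
  obtain ⟨g, hg, h⟩ := pseudo hc hJ
  refine ⟨range fun n => g (2 * n), infinite_range_of_injective fun a b hab => by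
    have := hg hab; omega, fun j hj => ?_, fun t ht hf => ?_⟩
  · refine ((h j hj).image g).subset ?_
    rintro _ ⟨⟨n, rfl⟩, hn⟩
    exact ⟨2 * n, hn, rfl⟩
  · have h1 : (⋃ j ∈ t, {n | g (2 * n + 1) ∈ j}).Finite := by
      refine hf.biUnion fun j hj => ?_
      rcases ht hj with rfl | hj
      · refine finite_empty.subset ?_
        rintro n ⟨m, hm⟩
        have := hg hm
        omega
      · exact (h j hj).preimage (f := fun n => 2 * n + 1)
          (fun a _ b _ hab => by simp only at hab; omega)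
    refine (h1.infinite_compl.image (f := fun n => g (2 * n + 1)) ?_).mono ?_
    · intro a _ b _ hab
      have := hg hab
      omega
    · rintro _ ⟨n, hn, rfl⟩ ⟨j, hj, hm⟩
      exact hn (mem_biUnion hj hm)

theorem exists_ultra {a : Set ℕ} (ha : a.Infinite) :
    ∃ U : Ultrafilter ℕ, a ∈ U ∧ ∀ s : Set ℕ, s.Finite → s ∉ U := by
  haveI : (cofinite ⊓ 𝓟 a).NeBot := ha.cofinite_inf_principal_neBot
  refine ⟨Ultrafilter.of (cofinite ⊓ 𝓟 a), Ultrafilter.of_le _ (mem_inf_of_right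
    (mem_principal_self a)), fun s hs => ?_⟩
  rw [← Ultrafilter.compl_mem_iff_notMem]
  exact Ultrafilter.of_le _ (mem_inf_of_left hs.compl_mem_cofinite)

theorem subsingleton_bad {D : ℕ → Set ℕ} (hD : Pairwise (Function.onFun Disjoint D))
    {M : (ℕ → Bool) → Set ℕ} (hM : ∀ x y, x ≠ y → (M x ∩ M y).Finite) (V : Ultrafilter ℕ)
    (hV : ∀ n, D n ∉ V) : {x | (⋃ n ∈ M x, D n) ∈ V}.Subsingleton := by
  intro x hx y hy
  by_contra hxy
  have h1 : (⋃ n ∈ M x ∩ M y, D n) ∈ V :=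
    mem_of_superset (inter_mem hx hy) (inter_unions hD _ _)
  obtain ⟨n, -, hn⟩ := (Ultrafilter.finite_biUnion_mem_iff (hM x y hxy)).1 h1
  exact hV n hn

theorem proper_insert_iff {J : Set (Set ℕ)} {E : Set ℕ} (h : ¬ Proper (insert E J)) :
    ∃ t : Set (Set ℕ), t ⊆ J ∧ t.Finite ∧ (E ∪ ⋃₀ t)ᶜ.Finite := by
  unfold Proper at h
  push Not at h
  obtain ⟨t, h1, h2, h3⟩ := h
  refine ⟨t \ {E}, fun j hj => (h1 hj.1).resolve_left hj.2, h2.subset sdiff_subset, ?_⟩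
  refine h3.subset (compl_subset_compl.2 ?_)
  rintro x ⟨j, hj, hx⟩
  by_cases hjE : j = E
  · exact Or.inl (hjE ▸ hx)
  · exact Or.inr ⟨j, ⟨hj, hjE⟩, hx⟩

theorem proper_mono {J K : Set (Set ℕ)} (h : J ⊆ K) (hK : Proper K) : Proper J :=
  fun t ht hf => hK t (ht.trans h) hf

/-- one step of the recursion -/
theorem step (J : Set (Set ℕ)) (𝒰 : Set (Ultrafilter ℕ)) (D : ℕ → Set ℕ) :
    ∃ o : Set ℕ × Set ℕ × Ultrafilter ℕ, J.Countable → 𝒰.Countable → Proper J →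
      (∀ V ∈ 𝒰, ∀ s : Set ℕ, s.Finite → s ∉ V) →
      Proper (insert o.2.1 (insert o.1 J)) ∧ o.2.1 ∈ o.2.2 ∧
      (∀ s : Set ℕ, s.Finite → s ∉ o.2.2) ∧ (∀ j ∈ insert o.1 J, (o.2.1 ∩ j).Finite) ∧
      (∀ V ∈ 𝒰, o.1 ∉ V) ∧
      (Pairwise (Function.onFun Disjoint D) → (∀ V ∈ insert o.2.2 𝒰, ∀ n, D n ∉ V) →
        ∃ M : Set ℕ, M.Infinite ∧ o.1 = ⋃ n ∈ M, D n) := by
  by_cases hyp : J.Countable ∧ 𝒰.Countable ∧ Proper J ∧ ∀ V ∈ 𝒰, ∀ s : Set ℕ, s.Finite → s ∉ V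
  swap
  · exact ⟨(∅, ∅, pure 0), fun a b c d => absurd ⟨a, b, c, d⟩ hyp⟩
  obtain ⟨hJc, hUc, hJ, hU⟩ := hyp
  have main : ∃ E : Set ℕ, Proper (insert E J) ∧ (∀ V ∈ 𝒰, E ∉ V) ∧
      (Pairwise (Function.onFun Disjoint D) → (∀ V ∈ 𝒰, ∀ n, D n ∉ V) →
        (∃ M : Set ℕ, M.Infinite ∧ E = ⋃ n ∈ M, D n) ∨
        ∃ (K : Set ℕ) (t : Set (Set ℕ)), K.Finite ∧ t ⊆ J ∧ t.Finite ∧
          ((⋃ n ∈ K, D n) ∪ ⋃₀ t)ᶜ.Finite) := by
    by_cases h : Pairwise (Function.onFun Disjoint D) ∧ (∀ V ∈ 𝒰, ∀ n, D n ∉ V) ∧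
        ¬ ∃ (K : Set ℕ) (t : Set (Set ℕ)), K.Finite ∧ t ⊆ J ∧ t.Finite ∧
          ((⋃ n ∈ K, D n) ∪ ⋃₀ t)ᶜ.Finite
    · obtain ⟨hD, hV, hK⟩ := h
      obtain ⟨M, hM1, hM2⟩ := exists_ad
      have b1 : {x | ¬ Proper (insert (⋃ n ∈ M x, D n) J)}.Subsingleton := by
        intro x hx y hy
        by_contra hxy
        obtain ⟨t, a1, a2, a3⟩ := proper_insert_iff hx
        obtain ⟨t', c1, c2, c3⟩ := proper_insert_iff hy
        refine hK ⟨M x ∩ M y, t ∪ t', hM2 x y hxy, union_subset a1 c1, a2.union c2, ?_⟩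
        refine (a3.union c3).subset fun z hz => ?_
        by_contra hcon
        have hc1 : z ∈ (⋃ n ∈ M x, D n) ∪ ⋃₀ t := by
          by_contra h; exact hcon (Or.inl h)
        have hc2 : z ∈ (⋃ n ∈ M y, D n) ∪ ⋃₀ t' := by
          by_contra h; exact hcon (Or.inr h)
        apply hz
        rcases hc1 with h1 | ⟨j, hj, h1⟩ <;> rcases hc2 with h2 | ⟨j', hj', h2⟩
        · exact Or.inl (inter_unions hD _ _ ⟨h1, h2⟩)
        · exact Or.inr ⟨j', Or.inr hj', h2⟩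
        · exact Or.inr ⟨j, Or.inl hj, h1⟩
        · exact Or.inr ⟨j, Or.inl hj, h1⟩
      have b2 : (⋃ V ∈ 𝒰, {x | (⋃ n ∈ M x, D n) ∈ V}).Countable :=
        hUc.biUnion fun V hV' => (subsingleton_bad hD hM2 V (hV V hV')).countable
      haveI := uncountable_cantor
      have b3 := b1.countable.union b2
      obtain ⟨x, hx⟩ : ∃ x, x ∉ {x | ¬ Proper (insert (⋃ n ∈ M x, D n) J)} ∪
          ⋃ V ∈ 𝒰, {x | (⋃ n ∈ M x, D n) ∈ V} := by
        by_contra hcon
        push Not at hcon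
        exact not_countable_univ (b3.mono fun x _ => hcon x)
      refine ⟨⋃ n ∈ M x, D n, ?_, fun V hV' h => hx (Or.inr (mem_biUnion hV' h)),
        fun _ _ => Or.inl ⟨M x, hM1 x, rfl⟩⟩
      by_contra h
      exact hx (Or.inl h)
    · refine ⟨∅, ?_, fun V hV => hU V hV ∅ finite_empty, fun h1 h2 => Or.inr ?_⟩
      · by_contra hcon
        obtain ⟨t, a1, a2, a3⟩ := proper_insert_iff hcon
        rw [empty_union] at a3
        exact hJ t a1 a2 a3
      · by_contra h3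
        exact h ⟨h1, h2, h3⟩
  obtain ⟨E, hE1, hE2, hE3⟩ := main
  obtain ⟨a, ha1, ha2, ha3⟩ := exists_piece (hJc.insert E) hE1
  obtain ⟨U, hU1, hU2⟩ := exists_ultra ha1
  refine ⟨(E, a, U), fun _ _ _ _ => ⟨ha3, hU1, hU2, ha2, hE2, fun hD hV => ?_⟩⟩
  rcases hE3 hD (fun V h => hV V (Or.inr h)) with h | ⟨K, t, k1, k2, k3, k4⟩
  · exact h
  · exfalso
    have h1 : (⋃ n ∈ K, D n) ∪ ⋃₀ t ∈ U := Ultrafilter.compl_notMem_iff.1 (hU2 _ k4)
    rcases Ultrafilter.union_mem_iff.1 h1 with h2 | h2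
    · obtain ⟨n, -, hn⟩ := (Ultrafilter.finite_biUnion_mem_iff k1).1 h2
      exact hV U (Or.inl rfl) n hn
    · obtain ⟨j, hj, hjU⟩ := (Ultrafilter.finite_sUnion_mem_iff k3).1 h2
      exact hU2 _ (ha2 j (Or.inr (k2 hj))) (inter_mem hU1 hjU)

theorem recursion {Ω : Type} [LinearOrder Ω] [WellFoundedLT Ω]
    (hΩ : ∀ α : Ω, (Iio α).Countable) (D : Ω → ℕ → Set ℕ) :
    ∃ (a : Ω → Set ℕ) (U : Ω → Ultrafilter ℕ), (∀ α, a α ∈ U α) ∧
      (∀ α, ∀ s : Set ℕ, s.Finite → s ∉ U α) ∧ (∀ α β, α ≠ β → (a α ∩ a β).Finite) ∧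
      ∀ α, Pairwise (Function.onFun Disjoint (D α)) → (∀ β n, D α n ∉ U β) →
        ∃ M : Set ℕ, M.Infinite ∧ ∀ β, (⋃ n ∈ M, D α n) ∉ U β := by
  choose st hst using step
  let G : (α : Ω) → ((β : Ω) → β < α → Set ℕ × Set ℕ × Ultrafilter ℕ) →
      Set ℕ × Set ℕ × Ultrafilter ℕ := fun α r =>
    st ({s | ∃ β h, s = (r β h).1} ∪ {s | ∃ β h, s = (r β h).2.1}) {V | ∃ β h, V = (r β h).2.2}
      (D α)
  let g : Ω → Set ℕ × Set ℕ × Ultrafilter ℕ := WellFoundedLT.fix G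
  let J : Ω → Set (Set ℕ) := fun α =>
    {s | ∃ β, ∃ _ : β < α, s = (g β).1} ∪ {s | ∃ β, ∃ _ : β < α, s = (g β).2.1}
  let 𝒰 : Ω → Set (Ultrafilter ℕ) := fun α => {V | ∃ β, ∃ _ : β < α, V = (g β).2.2}
  have hg : ∀ α, g α = st (J α) (𝒰 α) (D α) := fun α => WellFoundedLT.fix_eq G α
  have hJc : ∀ α, (J α).Countable := fun α => by
    refine (((hΩ α).image fun β => (g β).1).union ((hΩ α).image fun β => (g β).2.1)).mono ?_
    rintro s (⟨β, h, rfl⟩ | ⟨β, h, rfl⟩)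
    · exact Or.inl ⟨β, h, rfl⟩
    · exact Or.inr ⟨β, h, rfl⟩
  have hUc : ∀ α, (𝒰 α).Countable := fun α => by
    refine ((hΩ α).image fun β => (g β).2.2).mono ?_
    rintro s ⟨β, h, rfl⟩
    exact ⟨β, h, rfl⟩
  have inv : ∀ α, Proper (insert (g α).2.1 (insert (g α).1 (J α))) ∧ (g α).2.1 ∈ (g α).2.2 ∧
      (∀ s : Set ℕ, s.Finite → s ∉ (g α).2.2) ∧
      (∀ j ∈ insert (g α).1 (J α), ((g α).2.1 ∩ j).Finite) ∧
      (∀ V ∈ 𝒰 α, (g α).1 ∉ V) ∧
      (Pairwise (Function.onFun Disjoint (D α)) →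
        (∀ V ∈ insert (g α).2.2 (𝒰 α), ∀ n, D α n ∉ V) →
        ∃ M : Set ℕ, M.Infinite ∧ (g α).1 = ⋃ n ∈ M, D α n) := by
    intro α
    induction α using WellFoundedLT.induction with
    | ind α ih =>
      rw [hg α]
      refine hst (J α) (𝒰 α) (D α) (hJc α) (hUc α) (fun t ht hf => ?_) ?_
      · have h1 : ∀ s ∈ t, ∃ β, β < α ∧ (s = (g β).1 ∨ s = (g β).2.1) := fun s hs => by
          rcases ht hs with ⟨β, h, e⟩ | ⟨β, h, e⟩
          · exact ⟨β, h, Or.inl e⟩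
          · exact ⟨β, h, Or.inr e⟩
        rcases t.eq_empty_or_nonempty with rfl | hne
        · simpa using infinite_univ
        haveI : Nonempty Ω := ⟨α⟩
        choose! b hb1 hb2 using h1
        obtain ⟨s₀, hs₀, hmax⟩ := exists_max_image t b hf hne
        refine (ih (b s₀) (hb1 s₀ hs₀)).1 t (fun s hs => ?_) hf
        rcases (hmax s hs).eq_or_lt with h | h
        · rcases hb2 s hs with e | e
          · exact Or.inr (Or.inl (h ▸ e))
          · exact Or.inl (h ▸ e)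
        · rcases hb2 s hs with e | e
          · exact Or.inr (Or.inr (Or.inl ⟨_, h, e⟩))
          · exact Or.inr (Or.inr (Or.inr ⟨_, h, e⟩))
      · rintro V ⟨β, h, rfl⟩
        exact (ih β h).2.2.1
  have hlt : ∀ α β, β < α → ((g α).2.1 ∩ (g β).2.1).Finite := fun α β h =>
    (inv α).2.2.2.1 _ (Or.inr (Or.inr ⟨β, h, rfl⟩))
  refine ⟨fun α => (g α).2.1, fun α => (g α).2.2, fun α => (inv α).2.1, fun α => (inv α).2.2.1,
    fun α β h => ?_, fun α h1 h2 => ?_⟩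
  · rcases lt_or_gt_of_ne h with h | h
    · rw [inter_comm]; exact hlt β α h
    · exact hlt α β h
  · obtain ⟨M, hM, hE⟩ := (inv α).2.2.2.2.2 h1 (by
      rintro V (rfl | ⟨β, -, rfl⟩) n
      · exact h2 _ n
      · exact h2 _ n)
    refine ⟨M, hM, fun β => ?_⟩
    rw [← hE]
    rcases lt_or_ge β α with h | h
    · exact (inv α).2.2.2.2.1 _ ⟨β, h, rfl⟩
    · intro hmem
      refine (inv β).2.2.1 _ ((inv β).2.2.2.1 (g α).1 ?_) (inter_mem (inv β).2.1 hmem)
      rcases h.eq_or_lt with rfl | h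
      · exact Or.inl rfl
      · exact Or.inr (Or.inl ⟨α, h, rfl⟩)

open Cardinal in
/-- A free filter that is neither poor nor conglomerated. -/
theorem exists_neither : ∃ F : Filter ℕ, F.NeBot ∧ F ≤ cofinite ∧
    (∃ 𝒜 : Set (Set ℕ), (∀ A ∈ 𝒜, Aᶜ ∉ F) ∧ 𝒜.Pairwise (fun A B => (A ∩ B)ᶜ ∈ F) ∧
      ¬ 𝒜.Countable) ∧
    ∀ D : ℕ → Set ℕ, Pairwise (Function.onFun Disjoint D) → (∀ n, (D n)ᶜ ∈ F) →
      ∃ M : Set ℕ, M.Infinite ∧ (⋃ n ∈ M, D n)ᶜ ∈ F := by
  let Ω : Type := (ℵ₁ : Cardinal.{0}).ord.ToType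
  have hcard : #Ω = ℵ₁ := mk_ord_toType _
  have hΩ : ∀ α : Ω, (Iio α).Countable := fun α => by
    rw [← Cardinal.le_aleph0_iff_set_countable, ← Cardinal.lt_aleph_one_iff]
    exact mk_Iio_toType_ord_lt α
  haveI hunc : Uncountable Ω := by
    rw [← Cardinal.aleph0_lt_mk_iff, hcard]; exact aleph0_lt_aleph_one
  have hX : #(ℕ → Set ℕ) = 𝔠 := by simp
  obtain ⟨D, hD⟩ : ∃ D : Ω → ℕ → Set ℕ, 𝔠 ≤ ℵ₁ → Function.Surjective D := by
    by_cases h : (𝔠 : Cardinal.{0}) ≤ ℵ₁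
    · have h1 : #(ℕ → Set ℕ) ≤ #Ω := by rw [hX, hcard]; exact h
      obtain ⟨e⟩ := (Cardinal.le_def _ _).1 h1
      exact ⟨Function.invFun e, fun _ => Function.invFun_surjective e.injective⟩
    · exact ⟨fun _ _ => ∅, fun h' => absurd h' h⟩
  obtain ⟨a, U, h1, h2, h3, h4⟩ := recursion hΩ D
  have hmem : ∀ s : Set ℕ, sᶜ ∈ (⨆ α, (U α : Filter ℕ)) ↔ ∀ α, s ∉ U α := fun s => by
    rw [mem_iSup]
    exact forall_congr' fun α => Ultrafilter.compl_mem_iff_notMem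
  have hinj : Function.Injective a := fun α β h => by
    by_contra hne
    have := h3 α β hne
    rw [← h, inter_self] at this
    exact h2 α _ this (h1 α)
  refine ⟨⨆ α, (U α : Filter ℕ), ?_, fun s hs => ?_, ⟨range a, ?_, ?_, fun h => ?_⟩,
    fun E hE1 hE2 => ?_⟩
  · obtain ⟨α⟩ : Nonempty Ω := inferInstance
    exact (U α).neBot.mono (le_iSup (fun α => (U α : Filter ℕ)) α)
  · rw [← compl_compl s, hmem]
    exact fun α => h2 α _ hs
  · rintro _ ⟨α, rfl⟩ h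
    exact (hmem _).1 h α (h1 α)
  · rintro _ ⟨α, rfl⟩ _ ⟨β, rfl⟩ h
    exact (hmem _).2 fun γ => h2 γ _ (h3 α β fun e => h (e ▸ rfl))
  · rw [← image_univ] at h
    exact not_countable_univ (countable_of_injective_of_countable_image hinj.injOn h)
  · have hE3 : ∀ β n, E n ∉ U β := fun β n => (hmem _).1 (hE2 n) β
    by_cases h : (𝔠 : Cardinal.{0}) ≤ ℵ₁
    · obtain ⟨α, rfl⟩ := hD h E
      obtain ⟨M, hM, hM'⟩ := h4 α hE1 hE3
      exact ⟨M, hM, (hmem _).2 hM'⟩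
    · obtain ⟨M, hM1, hM2⟩ := exists_ad
      by_contra hcon
      push Not at hcon
      have h5 : ∀ x, ∃ β, (⋃ n ∈ M x, E n) ∈ U β := fun x => by
        by_contra h6
        push Not at h6
        exact hcon _ (hM1 x) ((hmem _).2 h6)
      choose b hb using h5
      have h6 : Function.Injective b := fun x y hxy =>
        subsingleton_bad hE1 hM2 (U (b x)) (hE3 _) (hb x) (hxy ▸ hb y)
      have h7 := Cardinal.mk_le_of_injective h6
      rw [hcard] at h7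
      exact h (by simpa using h7)

end Recursion

end Pool.Agent.H27.Filt
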