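import Pool.Agent.H27.FrDef

/-! From the string equation to the Pearson recurrence for a positive moment sequence. -/

open Finset

namespace Pool.Agent.H27.Fr

variable {τ t : ℝ} {b : ℕ → ℝ}

/-- The Jacobi operator. -/
def J (b u : ℕ → ℝ) : ℕ → ℝ
  | 0 => b 1 * u 1
  | n + 1 => u n + b (n + 2) * u (n + 2)

/-- The lowering operator. -/
def D (τ : ℝ) (b u : ℕ → ℝ) (n : ℕ) : ℝ :=
  (n + 1) * u (n + 1) + b (n + 3) * b (n + 2) * b (n + 1) *
    (6 * (b (n + 4) + b (n + 3) + b (n + 2) + b (n + 1) + b n) - 4 * τ) * u (n + 3) +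
    6 * b (n + 5) * b (n + 4) * b (n + 3) * b (n + 2) * b (n + 1) * u (n + 5)

/-- The orbit of the first basis vector. -/
def U (b : ℕ → ℝ) : ℕ → ℕ → ℝ
  | 0 => fun n => if n = 0 then 1 else 0
  | k + 1 => J b (U b k)

lemma comm (h : FrDef.PosSol τ t b) (u : ℕ → ℝ) (n : ℕ) :
    D τ b (J b u) n = J b (D τ b u) n + u n := by
  obtain ⟨z, -, e⟩ := h
  cases n with
  | zero =>
    have e1 := e 1 le_rfl
    have e2 := e 2 one_le_two
    simp only [D, J, z] at *
    norm_num [z] at *
    linear_combination u 2 * (b 1 * e2 - b 2 * e1)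
  | succ n =>
    have e1 := e (n + 2) (by omega)
    have e2 := e (n + 3) (by omega)
    simp only [D, J, add_assoc, Nat.add_sub_cancel, show n + 2 - 1 = n + 1 from rfl,
      show n + 3 - 1 = n + 2 from rfl, show n + 3 - 2 = n + 1 from rfl, Nat.reduceAdd] at *
    push_cast at *
    linear_combination u (n + 3) * (b (n + 2) * e2 - b (n + 3) * e1)

lemma DU (h : FrDef.PosSol τ t b) (k : ℕ) : D τ b (U b k) = fun n => k * U b (k - 1) n := by
  induction k with
  | zero => funext n; simp [D, U]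
  | succ k ih =>
    funext n
    rw [U, comm h, ih]
    cases k with
    | zero => cases n <;> simp [J]
    | succ k => cases n <;> simp only [J, U, Nat.add_sub_cancel] <;> push_cast <;> ring

lemma pearson (h : FrDef.PosSol τ t b) (k : ℕ) : k * U b (k - 1) 0 =
    6 * U b (k + 5) 0 - 4 * τ * U b (k + 3) 0 - 2 * t * U b (k + 1) 0 := by
  have e1 := h.2.2 1 le_rfl
  have := congrFun (DU h k) 0
  simp only [D, U, J, h.1] at *
  norm_num [h.1] at *
  linear_combination -this - U b k 1 * e1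

lemma supp (k n : ℕ) (h : k < n) : U b k n = 0 := by
  induction k generalizing n with
  | zero => simp [U, h.ne']
  | succ k ih =>
    obtain ⟨n, rfl⟩ : ∃ m, n = m + 1 := ⟨n - 1, by omega⟩
    simp [U, J, ih n (by omega), ih (n + 2) (by omega)]

/-- Squared norms. -/
def hh (b : ℕ → ℝ) (n : ℕ) : ℝ := ∏ i ∈ range n, b (i + 1)

lemma green (u w : ℕ → ℝ) (N : ℕ) : ∑ n ∈ range (N + 1), hh b n * (J b u n * w n) =
    ∑ n ∈ range (N + 1), hh b n * (u n * J b w n) +
      hh b (N + 1) * (u (N + 1) * w N - u N * w (N + 1)) := by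
  induction N with
  | zero => simp [J, hh]; ring
  | succ N ih =>
    rw [sum_range_succ, ih, sum_range_succ _ (N + 1)]
    simp only [J, hh, prod_range_succ _ (N + 1)]
    ring

lemma hankel (j l N : ℕ) (h : j + l < N) :
    ∑ n ∈ range N, hh b n * (U b j n * U b l n) = U b (j + l) 0 := by
  induction j generalizing l with
  | zero => rw [sum_eq_single 0] <;> simp +contextual [U, hh]; omega
  | succ j ih =>
    obtain ⟨N, rfl⟩ : ∃ m, N = m + 1 := ⟨N - 1, by omega⟩
    rw [U, green, supp l N (by omega), supp l (N + 1) (by omega), show j + 1 + l = j + (l + 1) by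
      omega, ← ih (l + 1) (by omega)]
    simp [U]

lemma gram (h : FrDef.PosSol τ t b) : ∃ v : ℕ → lp (fun _ : ℕ => ℂ) 2,
    ∀ j l, inner ℂ (v j) (v l) = (U b (j + l) 0 : ℝ) := by
  have o := (default : HilbertBasis ℕ ℂ (lp (fun _ : ℕ => ℂ) 2)).orthonormal
  generalize (default : HilbertBasis ℕ ℂ (lp (fun _ : ℕ => ℂ) 2)) = e at o
  refine ⟨fun k => ∑ n ∈ range (k + 1), ((√(hh b n) * U b k n : ℝ) : ℂ) • e n, fun j l => ?_⟩
  have s : ∀ k N, k < N → ∑ n ∈ range (k + 1), ((√(hh b n) * U b k n : ℝ) : ℂ) • e n =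
      ∑ n ∈ range N, ((√(hh b n) * U b k n : ℝ) : ℂ) • e n := fun k N hN =>
    sum_subset (range_subset_range.2 hN) fun n _ hn => by
      rw [supp k n (by simpa using hn)]; simp
  simp only
  rw [s j (j + l + 1) (by omega), s l (j + l + 1) (by omega), o.inner_sum,
    ← hankel j l (j + l + 1) (by omega), Complex.ofReal_sum]
  refine sum_congr rfl fun n _ => ?_
  rw [Complex.conj_ofReal, ← Complex.ofReal_mul, mul_mul_mul_comm, Real.mul_self_sqrt
    (show 0 ≤ hh b n from prod_nonneg fun i _ => (h.2.1 _ (by omega)).le)]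

end Pool.Agent.H27.Fr
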