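import Pool.Agent.H27.Fr1

/-! The characteristic function of a positive solution of the Pearson recurrence. -/

open Complex

namespace Pool.Agent.H27.Fr

variable {H : Type*} [NormedAddCommGroup H] [InnerProductSpace ℂ H] [CompleteSpace H]
  {v : ℕ → H} {m : ℕ → ℝ} {τ t : ℝ}

omit [CompleteSpace H] in
lemma grow (hv : ∀ j l, inner ℂ (v j) (v l) = m (j + l)) (m0 : m 0 = 1)
    (hp : ∀ k : ℕ, k * m (k - 1) = 6 * m (k + 5) - 4 * τ * m (k + 3) - 2 * t * m (k + 1)) :
    ∃ C, 1 ≤ C ∧ ∀ j, ‖v j‖ ^ 2 ≤ C ^ j * j.factorial := by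
  have e : ∀ j, ‖v j‖ ^ 2 = m (2 * j) := fun j => by
    have := hv j j
    rw [inner_self_eq_norm_sq_to_K, ← two_mul] at this
    exact ofReal_injective (by simpa using this)
  have p : ∀ j, 0 ≤ m (2 * j) := fun j => e j ▸ sq_nonneg _
  obtain ⟨C, c1, c2, c3, c4⟩ : ∃ C, 1 ≤ C ∧ 1 + |τ| + |t| ≤ C ∧ m 2 ≤ C ∧ m 4 ≤ C := by
    have := p 1
    have := p 2
    refine ⟨1 + |τ| + |t| + m 2 + m 4, ?_, ?_, ?_, ?_⟩ <;>
      linarith [abs_nonneg τ, abs_nonneg t]
  refine ⟨C, c1, fun j => ?_⟩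
  rw [e]
  induction j using Nat.strong_induction_on with | _ j ih =>
  match j with
  | 0 => simp [m0]
  | 1 => simpa using c3
  | 2 => norm_num; nlinarith
  | j + 3 =>
    have h := hp (2 * j + 1)
    have i0 := ih j (by omega)
    have i1 := ih (j + 1) (by omega)
    have i2 := ih (j + 2) (by omega)
    have f : ∀ i ≤ 2, C ^ (j + i) * (j + i).factorial ≤ C ^ (j + 2) * (j + 2).factorial :=
      fun i hi => by gcongr
    have f0 := i0.trans (f 0 (by omega))
    have f1 := i1.trans (f 1 (by omega))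
    have p0 := p j
    have p1 := p (j + 1)
    have p2 := p (j + 2)
    rw [Nat.factorial_succ (j + 2), pow_succ C (j + 2)]
    rw [Nat.add_sub_cancel, show 2 * j + 1 + 5 = 2 * (j + 3) by ring, show 2 * j + 1 + 3 =
      2 * (j + 2) by ring, show 2 * j + 1 + 1 = 2 * (j + 1) by ring] at h
    push_cast at h ⊢
    rw [show C ^ (j + 2) * C * ((j + 2 + 1) * (j + 2).factorial) = C * (j + 3) * (C ^ (j + 2) *
      (j + 2).factorial) by ring]
    generalize C ^ (j + 2) * (j + 2).factorial = X at *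
    have j0 : (0:ℝ) ≤ j := by positivity
    have a1 : τ * m (2 * (j + 2)) ≤ |τ| * X := mul_le_mul (le_abs_self _) i2 p2 (abs_nonneg _)
    have a2 : t * m (2 * (j + 1)) ≤ |t| * X := mul_le_mul (le_abs_self _) f1 p1 (abs_nonneg _)
    have a3 : (2 * j + 1) * m (2 * j) ≤ (2 * j + 1) * X := by gcongr
    have X0 := p2.trans i2
    have a4 : (1 + |τ| + |t|) * (j + 3) * X ≤ C * (j + 3) * X := by gcongr
    have := mul_nonneg (mul_nonneg j0 X0) (add_nonneg (abs_nonneg τ) (abs_nonneg t))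
    nlinarith [mul_nonneg (abs_nonneg τ) X0, mul_nonneg (abs_nonneg t) X0, mul_nonneg j0 X0]

omit [CompleteSpace H] [InnerProductSpace ℂ H] in
lemma summ {C : ℝ} (c1 : 1 ≤ C) (h : ∀ j, ‖v j‖ ^ 2 ≤ C ^ j * j.factorial) (k : ℕ) (R : ℝ)
    (hR : 0 ≤ R) : Summable fun j => R ^ j / j.factorial * ‖v (j + k)‖ := by
  refine .of_nonneg_of_le (fun j => by positivity) (fun j => ?_) (((Real.summable_pow_div_factorial
    (8 * C * R ^ 2)).mul_left ((2 * C) ^ k * k.factorial)).add
      (summable_geometric_of_lt_one (r := 1 / 4) (by norm_num) (by norm_num)))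
  have j0 : (0:ℝ) < j.factorial := by positivity
  have f : ((j + k).factorial : ℝ) ≤ 2 ^ (j + k) * j.factorial * k.factorial := by
    rw [← Nat.add_choose_mul_factorial_mul_factorial]
    push_cast
    gcongr
    exact_mod_cast Nat.choose_le_two_pow (j + k) k
  have a : (2 ^ j * (R ^ j / j.factorial * ‖v (j + k)‖)) ^ 2 ≤
      (2 * C) ^ k * k.factorial * ((8 * C * R ^ 2) ^ j / j.factorial) := by
    rw [mul_pow, mul_pow]
    calc _ ≤ (2 ^ j) ^ 2 * ((R ^ j / j.factorial) ^ 2 * (C ^ (j + k) *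
          (2 ^ (j + k) * j.factorial * k.factorial))) := by
          gcongr; exact (h _).trans (by gcongr)
      _ = _ := by
          rw [show (8:ℝ) = 2 * 2 * 2 by norm_num]
          simp only [mul_pow, pow_add, pow_right_comm R 2 j]
          field_simp
  have b : (1 / 4 : ℝ) ^ j = ((2 ^ j)⁻¹) ^ 2 := by
    rw [← inv_pow, ← pow_mul, mul_comm, pow_mul]; norm_num
  have c : R ^ j / j.factorial * ‖v (j + k)‖ = 2 ^ j * (R ^ j / j.factorial * ‖v (j + k)‖) *
      (2 ^ j)⁻¹ := by field_simp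
  rw [b, c]
  nlinarith [sq_nonneg (2 ^ j * (R ^ j / j.factorial * ‖v (j + k)‖) - (2 ^ j)⁻¹),
    sq_nonneg (2 ^ j * (R ^ j / j.factorial * ‖v (j + k)‖)), sq_nonneg ((2:ℝ) ^ j)⁻¹]

/-- Exponential coefficients. -/
noncomputable def ex (s : ℝ) (j : ℕ) : ℂ := (2 * Real.pi * I * s) ^ j / j.factorial

lemma ex_le {s R : ℝ} (h : |s| ≤ R) (j : ℕ) : ‖ex s j‖ ≤ (2 * Real.pi * R) ^ j / j.factorial := by
  simp only [ex, norm_div, norm_pow, norm_mul, norm_I, norm_real, Complex.norm_ofNat, mul_one,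
    Complex.norm_natCast, Real.norm_eq_abs, abs_of_pos Real.pi_pos]
  gcongr

lemma ex_d (s : ℝ) (j : ℕ) :
    HasDerivAt (fun s => ex s (j + 1)) (2 * Real.pi * I * ex s j) s := by
  have := ((((hasDerivAt_id (s : ℂ)).const_mul (2 * Real.pi * I)).fun_pow (j + 1)).div_const
    ((j + 1).factorial : ℂ)).comp_ofReal
  refine this.congr_deriv ?_
  have : (j.factorial : ℂ) ≠ 0 := by exact_mod_cast j.factorial_ne_zero
  have : (j + 1 : ℂ) ≠ 0 := by exact_mod_cast j.succ_ne_zero
  simp only [ex, Nat.factorial_succ, id, Nat.add_sub_cancel]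
  push_cast
  field_simp

theorem char (hv : ∀ j l, inner ℂ (v j) (v l) = m (j + l)) (m0 : m 0 = 1)
    (hp : ∀ k : ℕ, k * m (k - 1) = 6 * m (k + 5) - 4 * τ * m (k + 3) - 2 * t * m (k + 1)) :
    ∃ φ : ℕ → ℝ → ℂ, (∀ k, φ k 0 = m k) ∧
      (∀ k s, HasDerivAt (φ k) (2 * Real.pi * I * φ (k + 1) s) s) ∧
      (∀ k, ∃ C, ∀ s, ‖φ k s‖ ≤ C) ∧ ∀ (k : ℕ) (s : ℝ), 2 * Real.pi * I * s * φ k s =
        6 * φ (k + 5) s - 4 * τ * φ (k + 3) s - 2 * t * φ (k + 1) s - k * φ (k - 1) s := by
  obtain ⟨C, c1, hC⟩ := grow hv m0 hp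
  have π0 := Real.pi_pos
  have nb : ∀ k s R j, |s| ≤ R → ‖ex s j • v (j + k)‖ ≤
      (2 * Real.pi * R) ^ j / j.factorial * ‖v (j + k)‖ := fun k s R j h => by
    rw [norm_smul]; gcongr; exact ex_le h j
  have sm : ∀ k s, Summable fun j => ex s j • v (j + k) := fun k s =>
    .of_norm_bounded (summ c1 hC k _ (by positivity)) fun j => nb k s _ j le_rfl
  set w : ℕ → ℝ → H := fun k s => ∑' j, ex s j • v (j + k) with hw
  have e0 : ∀ s, ex s 0 = 1 := fun s => by simp [ex]
  have wd : ∀ k s, HasDerivAt (w k) ((2 * Real.pi * I : ℂ) • w (k + 1) s) s := fun k s => by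
    have a := hasDerivAt_tsum_of_isPreconnected (t := Set.Ioo (-(|s| + 1)) (|s| + 1)) (y := s)
      (y₀ := s) (g := fun j s => ex s (j + 1) • v (j + (k + 1)))
      (g' := fun j s => (2 * Real.pi * I : ℂ) • ex s j • v (j + (k + 1)))
      ((summ c1 hC (k + 1) (2 * Real.pi * (|s| + 1)) (by positivity)).mul_left
        ‖(2 * Real.pi * I : ℂ)‖) isOpen_Ioo isPreconnected_Ioo
      (fun j y _ => by rw [smul_smul]; exact (ex_d y j).smul_const _)
      (fun j y hy => by rw [norm_smul]; gcongr; exact nb _ _ _ _ (abs_lt.2 hy).le)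
      (abs_lt.1 (lt_add_one _)) (by
        simpa only [add_assoc, add_comm 1 k] using (summable_nat_add_iff 1).2 (sm k s))
      (abs_lt.1 (lt_add_one _))
    rw [(sm _ _).tsum_const_smul] at a
    convert a.const_add (v k) using 1
    funext s
    simp only [hw]
    rw [(sm k s).tsum_eq_zero_add]
    simp only [e0, one_smul, zero_add, add_assoc, add_comm 1 k]
  have hs : ∀ x k s, HasSum (fun j => ex s j * inner ℂ x (v (j + k))) (inner ℂ x (w k s)) :=
    fun x k s => by simpa using (sm k s).hasSum.mapL (innerSL ℂ x)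
  have ps : ∀ k s, HasSum (fun j => ex s j * m (j + k)) (inner ℂ (v 0) (w k s)) := fun k s => by
    simpa only [hv, zero_add] using hs (v 0) k s
  have sh : ∀ l k s, inner ℂ (v l) (w k s) = inner ℂ (v 0) (w (k + l) s) := fun l k s =>
    (hs _ k s).unique (by simpa only [hv, add_comm l, add_assoc] using ps (k + l) s)
  have sy : ∀ s, inner ℂ (w 0 s) (w 1 s) = inner ℂ (w 1 s) (w 0 s) := fun s => by
    refine (hs _ 1 s).unique ?_
    convert hs (w 1 s) 0 s using 3 with j
    rw [← inner_conj_symm, sh, ← inner_conj_symm (w 1 s), sh (j + 0)]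
    simp only [zero_add, add_zero, add_comm]
  have cn : ∀ s, ‖w 0 s‖ = ‖w 0 0‖ := fun s => by
    have d : ∀ s, HasDerivAt (fun s => inner ℂ (w 0 s) (w 0 s)) 0 s := fun s => by
      refine ((wd 0 s).inner ℂ (wd 0 s)).congr_deriv ?_
      simp [inner_smul_left, inner_smul_right, sy, map_ofNat]
    have := is_const_of_deriv_eq_zero (fun s => (d s).differentiableAt) (fun s => (d s).deriv) s 0
    simp only [inner_self_eq_norm_sq_to_K] at this
    exact (pow_left_inj₀ (norm_nonneg _) (norm_nonneg _) two_ne_zero).1 (by exact_mod_cast this)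
  refine ⟨fun k s => inner ℂ (v 0) (w k s), fun k => (ps k 0).unique ?_, fun k s => ?_,
    fun k => ⟨‖v k‖ * ‖w 0 0‖, fun s => ?_⟩, fun k s => ?_⟩
  · convert hasSum_single (f := fun j => ex 0 j * m (j + k)) 0 fun j hj => by simp [ex, hj] using 1
    simp [e0]
  · simpa [inner_smul_right] using (hasDerivAt_const s (v 0)).inner ℂ (wd k s)
  · have := sh k 0 s
    rw [zero_add] at this
    simp only [← cn s, ← this]; exact norm_inner_le_norm _ _
  · have a := ((((ps (k + 5) s).mul_left 6).sub ((ps (k + 3) s).mul_left (4 * τ : ℂ))).sub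
      ((ps (k + 1) s).mul_left (2 * t : ℂ))).sub ((ps (k - 1) s).mul_left (k : ℂ))
    have b : ∀ j, 6 * (ex s j * m (j + (k + 5))) - 4 * τ * (ex s j * m (j + (k + 3))) -
        2 * t * (ex s j * m (j + (k + 1))) - k * (ex s j * m (j + (k - 1))) =
        ex s j * j * m (j + k - 1) := fun j => by
      have h1 := congrArg (fun x : ℝ => (x : ℂ)) (hp (j + k))
      have h2 : (k : ℂ) * m (j + (k - 1)) = k * m (j + k - 1) := by cases k <;> simp
      simp only [← add_assoc]
      push_cast at h1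
      linear_combination -ex s j * (h1 + h2)
    have c : ∀ j, ex s (j + 1) * (j + 1 : ℕ) * m (j + 1 + k - 1) =
        2 * Real.pi * I * s * (ex s j * m (j + k)) := fun j => by
      have : (j.factorial : ℂ) ≠ 0 := by exact_mod_cast j.factorial_ne_zero
      have : (j + 1 : ℂ) ≠ 0 := by exact_mod_cast j.succ_ne_zero
      simp only [ex, Nat.factorial_succ, show j + 1 + k - 1 = j + k by omega]
      push_cast
      field_simp
      ring
    simp only [b] at a
    rw [← hasSum_nat_add_iff' 1] at a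
    simp only [c] at a
    simpa using ((ps k s).mul_left _).unique a

end Pool.Agent.H27.Fr
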