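import Pool.Agent.H27.Fr2

/-! Fourier identification of the moments. -/

open Complex MeasureTheory FourierTransform Real

namespace Pool.Agent.H27.Fr

variable {τ t : ℝ}

lemma int_w (k : ℕ) : Integrable fun x : ℝ => x ^ k * rexp (-x ^ 6 + τ * x ^ 4 + t * x ^ 2) := by
  obtain ⟨C, hC⟩ : ∃ C, ∀ y : ℝ, 0 ≤ y → -y ^ 3 + τ * y ^ 2 + t * y ≤ C - y := by
    refine ⟨(|τ| + |t| + 2) ^ 3, fun y y0 => ?_⟩
    have a1 : τ * y ^ 2 ≤ |τ| * y ^ 2 := by gcongr; exact le_abs_self _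
    have a2 : t * y ≤ |t| * y := by gcongr; exact le_abs_self _
    have p := abs_nonneg τ
    have q := abs_nonneg t
    generalize |τ| = a at *
    generalize |t| = b at *
    rcases le_total y (a + b + 2) with h | h
    · have : y ^ 2 ≤ (a + b + 2) ^ 2 := by gcongr
      have b1 : a * y ^ 2 ≤ a * (a + b + 2) ^ 2 := by gcongr
      have b2 : (b + 1) * y ≤ (b + 1) * (a + b + 2) ^ 2 := by gcongr; nlinarith
      nlinarith [pow_nonneg y0 3]
    · have b1 : (a + b + 2) * y ^ 2 ≤ y ^ 3 := by rw [pow_succ' y 2]; gcongr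
      have b2 : (b + 1) * y ≤ (b + 1) * y ^ 2 := by gcongr; nlinarith
      have : 0 ≤ (a + b + 2) ^ 3 := by positivity
      nlinarith
  have := (integrable_rpow_mul_exp_neg_mul_sq one_pos (s := k) (by
    linarith [Nat.cast_nonneg (α := ℝ) k])).norm.const_mul (rexp C)
  refine this.mono' (Continuous.aestronglyMeasurable (by fun_prop)) (ae_of_all _ fun x => ?_)
  simp only [norm_mul, rpow_natCast, Real.norm_eq_abs, abs_exp]
  rw [mul_left_comm, ← Real.exp_add]
  exact mul_le_mul_of_nonneg_left (exp_le_exp.2 (by nlinarith [hC (x ^ 2) (sq_nonneg x)]))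
    (abs_nonneg _)

theorem ident {φ : ℕ → ℝ → ℂ} (hd : ∀ k s, HasDerivAt (φ k) (2 * π * I * φ (k + 1) s) s)
    (hb : ∀ k, ∃ C, ∀ s, ‖φ k s‖ ≤ C) (ho : ∀ (k : ℕ) (s : ℝ), 2 * π * I * s * φ k s =
      6 * φ (k + 5) s - 4 * τ * φ (k + 3) s - 2 * t * φ (k + 1) s - k * φ (k - 1) s) :
    ∃ a : ℂ, ∀ k, φ k 0 = a * FrDef.mu τ t k := by
  have π0 := pi_pos
  have c0 : (2 * π * I : ℂ) ≠ 0 := two_pi_I_ne_zero
  have ct : ∀ k, Continuous (φ k) := fun k =>
    continuous_iff_continuousAt.2 fun s => (hd k s).continuousAt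
  have dec : ∀ p k : ℕ, ∃ C, ∀ s : ℝ, ‖(s : ℂ) ^ p * φ k s‖ ≤ C := fun p => by
    induction p with
    | zero => simpa using hb
    | succ p ih =>
      intro k
      choose C hC using ih
      refine ⟨‖(2 * π * I : ℂ)⁻¹‖ * (‖(6 : ℂ)‖ * C (k + 5) + ‖(4 * τ : ℂ)‖ * C (k + 3) +
        ‖(2 * t : ℂ)‖ * C (k + 1) + ‖(k : ℂ)‖ * C (k - 1)), fun s => ?_⟩
      rw [show (s : ℂ) ^ (p + 1) * φ k s = (2 * π * I : ℂ)⁻¹ * (6 * (s ^ p * φ (k + 5) s) -
        4 * τ * (s ^ p * φ (k + 3) s) - 2 * t * (s ^ p * φ (k + 1) s) - k * (s ^ p * φ (k - 1) s))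
        by rw [eq_inv_mul_iff_mul_eq₀ c0]; linear_combination s ^ p * ho k s, norm_mul]
      gcongr
      refine (norm_sub_le _ _).trans (add_le_add ((norm_sub_le _ _).trans (add_le_add
        ((norm_sub_le _ _).trans (add_le_add ?_ ?_)) ?_)) ?_) <;> rw [norm_mul] <;> gcongr <;>
        exact hC _ _
  have ig : ∀ p k : ℕ, Integrable fun s : ℝ => (s : ℂ) ^ p * φ k s := fun p k => by
    obtain ⟨C, hC⟩ := dec p k
    obtain ⟨C', hC'⟩ := dec (2 + p) k
    have := ct k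
    refine (integrable_inv_one_add_sq.const_mul (C + C')).mono'
      (Continuous.aestronglyMeasurable (by fun_prop)) (ae_of_all _ fun s => ?_)
    have h := hC' s
    rw [pow_add, mul_assoc, norm_mul, norm_pow, norm_real, Real.norm_eq_abs, sq_abs] at h
    rw [← div_eq_mul_inv, le_div_iff₀ (by positivity)]
    linarith [hC s]
  have i0 : ∀ k, Integrable (φ k) := fun k => by simpa using ig 0 k
  have sm : ∀ (c : ℂ) (f : ℝ → ℂ) x, 𝓕 (fun s => c * f s) x = c * 𝓕 f x := fun c f x => by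
    simp only [fourier_eq', smul_eq_mul, mul_left_comm _ c, integral_const_mul]
  have sb : ∀ (f g : ℝ → ℂ) x, Integrable f → Integrable g →
      𝓕 (fun s => f s - g s) x = 𝓕 f x - 𝓕 g x := fun f g x hf hg => by
    simp only [fourier_eq, smul_sub]
    exact integral_sub ((fourierIntegral_convergent_iff x).2 hf)
      ((fourierIntegral_convergent_iff x).2 hg)
  have st : ∀ k x, 𝓕 (φ k) x = x ^ k * 𝓕 (φ 0) x := fun k x => by
    induction k with
    | zero => simp
    | succ k ih =>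
      have e : deriv (φ k) = fun s => 2 * π * I * φ (k + 1) s := funext fun s => (hd k s).deriv
      have := congrFun (fourier_deriv (i0 k) (fun s => (hd k s).differentiableAt)
        (e ▸ (i0 _).const_mul _)) x
      rw [e, sm, ih, smul_eq_mul] at this
      exact mul_left_cancel₀ c0 (by rw [this]; ring)
  have dW : ∀ x : ℝ, HasDerivAt (fun x : ℝ => 𝓕 (φ 0) x * rexp (x ^ 6 - τ * x ^ 4 - t * x ^ 2))
      0 x := fun x => by
    have a := hasDerivAt_fourier (i0 0) (by simpa using ig 1 0) x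
    have e : (fun s : ℝ => (-2 * π * I * s) • φ 0 s) = fun s => 2 * t * φ 1 s -
        (6 * φ 5 s - 4 * τ * φ 3 s) := funext fun s => by
      have := ho 0 s
      simp only [zero_add, Nat.cast_zero, zero_mul, sub_zero] at this
      rw [smul_eq_mul]
      linear_combination -this
    rw [e, sb _ (fun s => 6 * φ 5 s - 4 * τ * φ 3 s) _ ((i0 _).const_mul _)
      (((i0 _).const_mul _).sub ((i0 _).const_mul _)),
      sb _ _ _ ((i0 _).const_mul _) ((i0 _).const_mul _), sm, sm, sm, st 1, st 5, st 3] at a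
    refine (a.mul ((((hasDerivAt_pow 6 x).sub ((hasDerivAt_pow 4 x).const_mul τ)).sub
      ((hasDerivAt_pow 2 x).const_mul t)).exp.ofReal_comp)).congr_deriv ?_
    simp only [Pi.sub_apply]
    push_cast
    ring
  have cs := is_const_of_deriv_eq_zero (fun s => (dW s).differentiableAt) fun s => (dW s).deriv
  refine ⟨𝓕 (φ 0) 0, fun k => ?_⟩
  have e : 𝓕 (φ k) = fun x : ℝ => 𝓕 (φ 0) 0 *
      (x ^ k * rexp (-x ^ 6 + τ * x ^ 4 + t * x ^ 2) : ℝ) := funext fun x => by
    have := cs x 0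
    simp only [ne_eq, OfNat.ofNat_ne_zero, not_false_eq_true, zero_pow, mul_zero, sub_self,
      Real.exp_zero, ofReal_one, mul_one] at this
    rw [st, ← this, mul_assoc, ← ofReal_mul, mul_left_comm (rexp _), ← Real.exp_add]
    simp [show x ^ 6 - τ * x ^ 4 - t * x ^ 2 + (-x ^ 6 + τ * x ^ 4 + t * x ^ 2) = 0 by ring,
      mul_comm]
  rw [← (ct k).fourierInv_fourier_eq (i0 k) (e ▸ (int_w k).ofReal.const_mul _), e, fourierInv_eq']
  simp only [inner_zero_right, mul_zero, ofReal_zero, zero_mul, Complex.exp_zero, one_smul,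
    integral_const_mul, integral_complex_ofReal, FrDef.mu]

theorem main {b : ℕ → ℝ} (h : FrDef.PosSol τ t b) : b 1 = FrDef.mu τ t 2 / FrDef.mu τ t 0 ∧
    b 2 = FrDef.mu τ t 4 / FrDef.mu τ t 2 - FrDef.mu τ t 2 / FrDef.mu τ t 0 := by
  obtain ⟨v, hv⟩ := gram h
  obtain ⟨φ, p0, pd, pb, po⟩ := char (m := fun k => U b k 0) hv (by simp [U]) (pearson h)
  obtain ⟨a, ha⟩ := ident pd pb po
  have e : ∀ k, U b k 0 = a.re * FrDef.mu τ t k := fun k => by
    simpa using congrArg re ((p0 k).symm.trans (ha k))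
  have e0 := e 0
  have e2 := e 2
  have e4 := e 4
  have b1 := h.2.1 1 le_rfl
  simp only [U, J] at e0 e2 e4
  norm_num at e0 e2 e4
  have n0 : FrDef.mu τ t 0 ≠ 0 := fun z => by simp [z] at e0
  have n2 : FrDef.mu τ t 2 ≠ 0 := fun z => by simp [z, b1.ne'] at e2
  have h1 : b 1 = FrDef.mu τ t 2 / FrDef.mu τ t 0 := by
    rw [eq_div_iff n0]; linear_combination FrDef.mu τ t 0 * e2 - FrDef.mu τ t 2 * e0
  refine ⟨h1, ?_⟩
  rw [← h1, eq_sub_iff_add_eq, eq_div_iff n2]
  refine mul_left_cancel₀ b1.ne' ?_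
  linear_combination FrDef.mu τ t 2 * e4 - FrDef.mu τ t 4 * e2

end Pool.Agent.H27.Fr
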