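import Mathlib

/-! The sextic Freud weight and its string equation. -/

namespace Pool.Agent.H27.FrDef

/-- Moments of the weight `exp (-x^6 + τ x^4 + t x^2)`. -/
noncomputable def mu (τ t : ℝ) (k : ℕ) : ℝ :=
  ∫ x : ℝ, x ^ k * Real.exp (-x ^ 6 + τ * x ^ 4 + t * x ^ 2)

/-- Positive solutions of the string equation (E); at `n = 1` the truncated index `n - 2` is `0`,
and `b 0 = 0`, which is the convention `b (-1) = 0`. -/
def PosSol (τ t : ℝ) (b : ℕ → ℝ) : Prop :=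
  b 0 = 0 ∧ (∀ n, 1 ≤ n → 0 < b n) ∧ ∀ n, 1 ≤ n →
    6 * b n * (b (n - 2) * b (n - 1) + b (n - 1) ^ 2 + 2 * b (n - 1) * b n + b (n - 1) * b (n + 1)
      + b n ^ 2 + 2 * b n * b (n + 1) + b (n + 1) ^ 2 + b (n + 1) * b (n + 2))
      - 4 * τ * b n * (b (n - 1) + b n + b (n + 1)) - 2 * t * b n = n

end Pool.Agent.H27.FrDef
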