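import Mathlib

set_option autoImplicit false

/-! Quantifying over the dual ball keeps conditions on pseudonorms open. -/

namespace Pool.Agent.H27.Gd

open Filter Topology Set

variable {V : Type} [AddCommGroup V]

/-- The condition on `μ` obtained from open relations `R`. -/
def Cond (R : V → ℕ → (n : ℕ) → Set ((V → ℝ) × (Fin n → V → ℝ))) (μ : V → ℝ) : Prop :=
  ∀ (x : V) (m n : ℕ) (h : Fin n → V → Icc (-1 : ℝ) 1), μ x ≤ 1 - 1 / ((m : ℝ) + 1) →
    (∀ i u v, μ (u + v) * h i (u + v) = μ u * h i u + μ v * h i v) →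
    (μ, fun i v => μ v * h i v) ∈ R x m n

theorem isGδ [Countable V] {R : V → ℕ → (n : ℕ) → Set ((V → ℝ) × (Fin n → V → ℝ))}
    (hR : ∀ x m n, IsOpen (R x m n)) : IsGδ {μ | Cond R μ} := by
  have : {μ | Cond R μ} = ⋂ p : V × ℕ × ℕ, (Prod.fst '' {q : (V → ℝ) ×
      (Fin p.2.2 → V → Icc (-1 : ℝ) 1) | q.1 p.1 ≤ 1 - 1 / ((p.2.1 : ℝ) + 1) ∧
      (∀ i u v, q.1 (u + v) * q.2 i (u + v) = q.1 u * q.2 i u + q.1 v * q.2 i v) ∧
      (q.1, fun i v => q.1 v * q.2 i v) ∉ R p.1 p.2.1 p.2.2})ᶜ := by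
    ext μ
    simp only [mem_iInter, mem_compl_iff, mem_setOf_eq]
    exact ⟨fun h p ⟨q, ⟨h1, h2, h3⟩, e⟩ => h3 (by subst e; exact h _ _ _ _ h1 h2),
      fun h x m n g h1 h2 => by_contra fun h3 => h (x, m, n) ⟨(μ, g), ⟨h1, h2, h3⟩, rfl⟩⟩
  rw [this]
  refine IsGδ.iInter_of_isOpen fun p => (isClosedMap_fst_of_compactSpace _ ?_).isOpen_compl
  refine IsClosed.and (isClosed_le (by fun_prop) continuous_const) (IsClosed.and ?_ ?_)
  · simp only [setOf_forall]
    exact isClosed_iInter fun i => isClosed_iInter fun u => isClosed_iInter fun v =>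
      isClosed_eq (by fun_prop) (by fun_prop)
  · exact ((hR _ _ _).preimage (by fun_prop)).isClosed_compl

variable {X : Type} [NormedAddCommGroup X] [NormedSpace ℝ X] {j : V →+ X}

theorem extend (hj : DenseRange j) {g : V → ℝ} (ha : ∀ u v, g (u + v) = g u + g v)
    (hb : ∀ v, |g v| ≤ ‖j v‖) : ∃ f : X →L[ℝ] ℝ, ‖f‖ ≤ 1 ∧ ∀ v, f (j v) = g v := by
  let g' : V →+ ℝ := AddMonoidHom.mk' g ha
  have hl : ∀ u v, |g u - g v| ≤ ‖j u - j v‖ := fun u v => by
    rw [← map_sub]; exact (congrArg abs (map_sub g' u v)).symm.trans_le (hb _)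
  have hG : LipschitzOnWith 1 (fun x => g (Function.invFun j x)) (range j) :=
    LipschitzOnWith.of_dist_le_mul fun a ha b hb => by
      have := hl (Function.invFun j a) (Function.invFun j b)
      rw [Function.invFun_eq ha, Function.invFun_eq hb] at this
      simpa [Real.dist_eq, dist_eq_norm] using this
  obtain ⟨F, h1, h2⟩ := hG.extend_real
  have h3 : ∀ v, F (j v) = g v := fun v => by
    have := hl (Function.invFun j (j v)) v
    rw [Function.invFun_eq (f := j) ⟨v, rfl⟩, sub_self, norm_zero, abs_nonpos_iff, sub_eq_zero] at this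
    rw [← h2 ⟨v, rfl⟩]; exact this
  have hc := h1.continuous
  have h4 : ∀ a b, F (a + b) = F a + F b := fun a b =>
    hj.induction_on₂ (p := fun a b => F (a + b) = F a + F b)
      (isClosed_eq (by fun_prop) (by fun_prop)) (fun u v => by rw [← map_add, h3, h3, h3, ha]) a b
  refine ⟨(AddMonoidHom.mk' F h4).toRealLinearMap hc,
    ContinuousLinearMap.opNorm_le_bound _ zero_le_one fun x => ?_, h3⟩
  rw [one_mul]
  exact hj.induction_on (p := fun x => |F x| ≤ ‖x‖) x (isClosed_le (by fun_prop) (by fun_prop))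
    fun v => by rw [h3]; exact hb v

theorem cond_iff (hj : DenseRange j) {μ : V → ℝ} (hμ : ∀ v, ‖j v‖ = μ v)
    (R : V → ℕ → (n : ℕ) → Set ((V → ℝ) × (Fin n → V → ℝ))) : Cond R μ ↔
    ∀ (x : V) (m n : ℕ) (f : Fin n → X →L[ℝ] ℝ), μ x ≤ 1 - 1 / ((m : ℝ) + 1) → (∀ i, ‖f i‖ ≤ 1) →
      (μ, fun i v => f i (j v)) ∈ R x m n := by
  have μ0 : ∀ v, 0 ≤ μ v := fun v => hμ v ▸ norm_nonneg _
  refine ⟨fun h x m n f hx hf => ?_, fun h x m n g hx hg => ?_⟩
  · have b : ∀ i v, |f i (j v)| ≤ μ v := fun i v =>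
      ((f i).le_of_opNorm_le (hf i) _).trans (by rw [one_mul, hμ])
    have e : ∀ i v, μ v * (f i (j v) / μ v) = f i (j v) := fun i v => by
      rcases (μ0 v).eq_or_lt with h0 | h0
      · have := b i v
        rw [← h0, abs_nonpos_iff] at this
        rw [← h0, this, zero_mul]
      · field_simp
    have := h x m n (fun i v => ⟨f i (j v) / μ v, abs_le.1 (by
      rw [abs_div, abs_of_nonneg (μ0 v)]; exact div_le_one_of_le₀ (b i v) (μ0 v))⟩) hx
      fun i u v => by rw [e, e, e, map_add, map_add]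
    simpa only [e] using this
  · choose f f1 f2 using fun i => extend hj (g := fun v => μ v * g i v) (hg i) fun v => by
      rw [abs_mul, hμ, abs_of_nonneg (μ0 v)]
      exact mul_le_of_le_one_right (μ0 v) (abs_le.2 (g i v).2)
    simpa only [f2] using h x m n f hx f1

theorem approx (hj : DenseRange j) {w : X} (hw : ‖w‖ ≤ 1) {O : Set X} (hO : IsOpen O)
    (h : w ∈ O) : ∃ v, ‖j v‖ < 1 ∧ j v ∈ O := by
  have : w ∈ closure (Metric.ball (0 : X) 1) := by
    rw [closure_ball _ one_ne_zero]; exact mem_closedBall_zero_iff.2 hw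
  obtain ⟨v, h1, h2⟩ := hj.exists_mem_open (hO.inter Metric.isOpen_ball)
    (mem_closure_iff.1 this O hO h)
  exact ⟨v, mem_ball_zero_iff.1 h2, h1⟩

theorem nhds_basis {W : Set {x : WeakSpace ℝ X // ‖(toWeakSpace ℝ X).symm x‖ ≤ 1}} (hW : IsOpen W)
    {w : {x : WeakSpace ℝ X // ‖(toWeakSpace ℝ X).symm x‖ ≤ 1}} (hw : w ∈ W) :
    ∃ (n : ℕ) (f : Fin n → X →L[ℝ] ℝ) (δ : ℝ), 0 < δ ∧ (∀ i, ‖f i‖ ≤ 1) ∧ ∀ (y : X) (hy : ‖y‖ ≤ 1),
      (∀ i, |f i y - f i ((toWeakSpace ℝ X).symm w.1)| < δ) → ⟨toWeakSpace ℝ X y, hy⟩ ∈ W := by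
  obtain ⟨U', hU', rfl⟩ := isOpen_induced_iff.1 hW
  obtain ⟨U, hU, rfl⟩ := isOpen_induced_iff.1 hU'
  obtain ⟨I, u, hu, hI⟩ := isOpen_pi_iff.1 hU _ hw
  have h1 : ∀ᶠ ε : ℝ in 𝓝[>] 0, ∀ f ∈ I,
      Metric.ball (f ((toWeakSpace ℝ X).symm w.1)) ((‖f‖ + 1) * ε) ⊆ u f := by
    rw [eventually_all_finset]
    intro f hf
    obtain ⟨δ, hδ, h⟩ := Metric.isOpen_iff.1 (hu f hf).1 _ (hu f hf).2
    filter_upwards [Ioo_mem_nhdsGT (div_pos hδ (by positivity : 0 < ‖f‖ + 1))] with ε hε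
    exact (Metric.ball_subset_ball ((le_div_iff₀' (by positivity)).1 hε.2.le)).trans h
  obtain ⟨ε, h2, h3⟩ := (h1.and self_mem_nhdsWithin).exists
  refine ⟨I.card, fun i => (‖(I.equivFin.symm i).1‖ + 1)⁻¹ • (I.equivFin.symm i).1, ε, h3,
    fun i => ?_, fun y hy h => hI fun f hf => h2 f hf ?_⟩
  · rw [norm_smul, Real.norm_of_nonneg (by positivity), inv_mul_le_iff₀ (by positivity)]
    linarith
  · have := h (I.equivFin ⟨f, hf⟩)
    simp only [Equiv.symm_apply_apply, ContinuousLinearMap.smul_apply, smul_eq_mul, ← mul_sub,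
      abs_mul] at this
    rw [abs_of_pos (by positivity), inv_mul_lt_iff₀ (by positivity)] at this
    exact this

end Pool.Agent.H27.Gd
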