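import Mathlib

set_option autoImplicit false

namespace Pool.Agent.H27.GenPoly

open Filter Topology Polynomial

section Alg

variable {E : Type} [AddCommGroup E] [Module ℝ E]

def Deg (m : ℕ) (F : E → ℝ) : Prop :=
  ∀ x h : E, ∃ p : ℝ[X], p.natDegree ≤ m ∧ ∀ t : ℚ, F (x + (t : ℝ) • h) = p.eval (t : ℝ)

theorem poly_ext {p q : ℝ[X]} (h : ∀ t : ℚ, p.eval (t : ℝ) = q.eval (t : ℝ)) : p = q := by
  apply Polynomial.eq_of_infinite_eval_eq
  refine (Set.infinite_range_of_injective (Rat.cast_injective (α := ℝ))).mono ?_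
  rintro _ ⟨t, rfl⟩
  exact h t

theorem coeff_comb (m : ℕ) : ∃ w : ℕ → ℕ → ℝ, ∀ p : ℝ[X], p.natDegree ≤ m → ∀ j,
    p.coeff j = ∑ k ∈ Finset.range (m + 1), w j k * p.eval (k : ℝ) := by
  refine ⟨fun j k => (Lagrange.basis (Finset.range (m + 1)) (fun k : ℕ => (k : ℝ)) k).coeff j,
    fun p hp j => ?_⟩
  have h1 : p.degree < (Finset.range (m + 1)).card := by
    rw [Finset.card_range]
    exact lt_of_le_of_lt (degree_le_of_natDegree_le hp) (by exact_mod_cast Nat.lt_succ_self m)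
  have h2 := Lagrange.eq_interpolate (s := Finset.range (m + 1)) (v := fun k : ℕ => (k : ℝ))
    (fun a _ b _ h => Nat.cast_injective h) h1
  conv_lhs => rw [h2]
  rw [Lagrange.interpolate_apply, finsetSum_coeff]
  refine Finset.sum_congr rfl fun k _ => ?_
  rw [coeff_C_mul, mul_comm]

variable {m : ℕ} {F : E → ℝ}

noncomputable def P (hF : Deg m F) (x h : E) : ℝ[X] := (hF x h).choose

theorem P_deg (hF : Deg m F) (x h : E) : (P hF x h).natDegree ≤ m := (hF x h).choose_spec.1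

theorem P_eval (hF : Deg m F) (x h : E) (t : ℚ) :
    (P hF x h).eval (t : ℝ) = F (x + (t : ℝ) • h) := ((hF x h).choose_spec.2 t).symm

theorem P_eq (hF : Deg m F) (x h : E) (q : ℝ[X])
    (hq : ∀ t : ℚ, F (x + (t : ℝ) • h) = q.eval (t : ℝ)) : P hF x h = q :=
  poly_ext fun t => by rw [P_eval, hq]

theorem two_var (hF : Deg m F) (x y z : E) : ∃ q : ℕ → ℝ[X],
    (∀ s t : ℚ, F (x + (s : ℝ) • y + (t : ℝ) • z) =
      ∑ j ∈ Finset.range (m + 1), (q j).eval (s : ℝ) * (t : ℝ) ^ j) := by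
  obtain ⟨w, hw⟩ := coeff_comb m
  refine ⟨fun j => ∑ k ∈ Finset.range (m + 1), C (w j k) * P hF (x + (k : ℝ) • z) y,
    fun s t => ?_⟩
  rw [← P_eval hF, eval_eq_sum_range' (Nat.lt_succ_of_le (P_deg hF _ _))]
  refine Finset.sum_congr rfl fun j _ => ?_
  congr 1
  rw [hw _ (P_deg hF _ _), eval_finsetSum]
  refine Finset.sum_congr rfl fun k _ => ?_
  rw [eval_mul, eval_C, P_eval]
  have := P_eval hF (x + (s : ℝ) • y) z (k : ℚ)
  rw [Rat.cast_natCast] at this
  rw [this]
  congr 2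
  abel

theorem diag (hF : Deg m F) (x y z : E) (q : ℕ → ℝ[X])
    (hq : ∀ s t : ℚ, F (x + (s : ℝ) • y + (t : ℝ) • z) =
      ∑ j ∈ Finset.range (m + 1), (q j).eval (s : ℝ) * (t : ℝ) ^ j) (l : ℚ) (d : ℕ) :
    (P hF x (y + (l : ℝ) • z)).coeff d =
      ∑ j ∈ Finset.range (m + 1), (if j ≤ d then (q j).coeff (d - j) else 0) * (l : ℝ) ^ j := by
  rw [P_eq hF x _ (∑ j ∈ Finset.range (m + 1), q j * X ^ j * C ((l : ℝ) ^ j))]
  · rw [finsetSum_coeff]
    refine Finset.sum_congr rfl fun j _ => ?_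
    rw [coeff_mul_C, coeff_mul_X_pow']
  · intro s
    have := hq s (s * l)
    rw [eval_finsetSum]
    have e : x + (s : ℝ) • (y + (l : ℝ) • z) = x + (s : ℝ) • y + ((s * l : ℚ) : ℝ) • z := by
      push_cast
      rw [smul_add, smul_smul, add_assoc]
    rw [e, this]
    refine Finset.sum_congr rfl fun j _ => ?_
    simp only [eval_mul, eval_pow, eval_X, eval_C]
    push_cast
    ring

theorem sum_coeff (n : ℕ) (a : ℕ → ℝ) (j : ℕ) (hj : j < n) :
    (∑ i ∈ Finset.range n, C (a i) * X ^ i : ℝ[X]).coeff j = a j := by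
  rw [finsetSum_coeff, Finset.sum_eq_single j]
  · simp
  · intro i _ hi
    simp [coeff_X_pow, hi.symm]
  · intro h; exact absurd (Finset.mem_range.2 hj) h

theorem sum_eval (n : ℕ) (a : ℕ → ℝ) (t : ℝ) :
    (∑ i ∈ Finset.range n, C (a i) * X ^ i : ℝ[X]).eval t = ∑ i ∈ Finset.range n, a i * t ^ i := by
  rw [eval_finsetSum]; simp

theorem sum_deg (m : ℕ) (a : ℕ → ℝ) :
    (∑ i ∈ Finset.range (m + 1), C (a i) * X ^ i : ℝ[X]).natDegree ≤ m := by
  refine natDegree_sum_le_of_forall_le _ _ fun i hi => ?_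
  exact (natDegree_C_mul_X_pow_le _ _).trans (Nat.lt_succ_iff.1 (Finset.mem_range.1 hi))

theorem total (hF : Deg m F) (x y z : E) (q : ℕ → ℝ[X])
    (hq : ∀ s t : ℚ, F (x + (s : ℝ) • y + (t : ℝ) • z) =
      ∑ j ∈ Finset.range (m + 1), (q j).eval (s : ℝ) * (t : ℝ) ^ j) (i j : ℕ) (hj : j ≤ m)
    (hij : m < i + j) : (q j).coeff i = 0 := by
  have h1 : (∑ k ∈ Finset.range (m + 1),
      C (if k ≤ i + j then (q k).coeff (i + j - k) else 0) * X ^ k : ℝ[X]) = 0 := by
    refine poly_ext fun l => ?_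
    rw [sum_eval, ← diag hF x y z q hq l, eval_zero]
    exact coeff_eq_zero_of_natDegree_lt ((P_deg hF _ _).trans_lt hij)
  have h2 := sum_coeff (m + 1) (fun k => if k ≤ i + j then (q k).coeff (i + j - k) else 0) j
    (Nat.lt_succ_of_le hj)
  rw [h1] at h2
  simpa using h2.symm

theorem top_indep (hF : Deg m F) (x y : E) : (P hF x y).coeff m = (P hF 0 y).coeff m := by
  obtain ⟨q, hq⟩ := two_var hF 0 y x
  have key : ∀ t : ℚ, (P hF ((t : ℝ) • x) y).coeff m = (q 0).coeff m := by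
    intro t
    rw [P_eq hF _ _ (∑ j ∈ Finset.range (m + 1), q j * C ((t : ℝ) ^ j))]
    · rw [finsetSum_coeff, Finset.sum_eq_single 0]
      · simp
      · intro j hj hj0
        rw [coeff_mul_C, total hF 0 y x q hq m j (Nat.lt_succ_iff.1 (Finset.mem_range.1 hj))
          (by omega), zero_mul]
      · intro h; simp at h
    · intro s
      have := hq s t
      rw [zero_add, add_comm] at this
      rw [this, eval_finsetSum]
      simp
  have h1 := key 1
  have h0 := key 0
  simp only [Rat.cast_one, one_smul, Rat.cast_zero, zero_smul] at h1 h0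
  rw [h1, h0]

/-- top homogeneous part -/
noncomputable def top (hF : Deg m F) (y : E) : ℝ := (P hF 0 y).coeff m

theorem top_line (hF : Deg m F) (y z : E) : ∃ r : ℝ[X], r.natDegree ≤ m ∧
    r.coeff m = top hF z ∧ ∀ l : ℚ, top hF (y + (l : ℝ) • z) = r.eval (l : ℝ) := by
  obtain ⟨q, hq⟩ := two_var hF 0 y z
  refine ⟨∑ j ∈ Finset.range (m + 1), C (if j ≤ m then (q j).coeff (m - j) else 0) * X ^ j,
    sum_deg _ _, ?_, fun l => ?_⟩
  · rw [sum_coeff _ _ _ (Nat.lt_succ_self m), top,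
      P_eq hF 0 z (∑ j ∈ Finset.range (m + 1), C ((q j).coeff 0) * X ^ j),
      sum_coeff _ _ _ (Nat.lt_succ_self m)]
    · simp
    · intro t
      have := hq 0 t
      simp only [Rat.cast_zero, zero_smul, add_zero] at this
      rw [this, sum_eval]
      simp [coeff_zero_eq_eval_zero]
  · rw [sum_eval, top, diag hF 0 y z q hq l m]

theorem top_smul (hF : Deg m F) (y : E) (t : ℚ) :
    top hF ((t : ℝ) • y) = (t : ℝ) ^ m * top hF y := by
  rw [top, P_eq hF 0 _ ((P hF 0 y).comp (C (t : ℝ) * X)), comp_C_mul_X_coeff, top, mul_comm]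
  intro s
  have := P_eval hF 0 y (t * s)
  rw [eval_comp, smul_smul]
  simp only [eval_mul, eval_C, eval_X]
  push_cast at this
  rw [this, mul_comm]

theorem deg_top (hF : Deg m F) : Deg m (top hF) := fun x h => by
  obtain ⟨r, h1, -, h3⟩ := top_line hF x h
  exact ⟨r, h1, h3⟩

theorem deg_sub_top (hF : Deg (m + 1) F) : Deg m fun x => F x - top hF x := by
  intro x h
  obtain ⟨r, h1, h2, h3⟩ := top_line hF x h
  refine ⟨P hF x h - r, ?_, fun t => by rw [eval_sub, P_eval, ← h3]⟩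
  refine natDegree_le_iff_coeff_eq_zero.2 fun N hN => ?_
  rw [coeff_sub]
  rcases eq_or_lt_of_le (Nat.succ_le_of_lt hN) with h4 | h4
  · rw [← h4, top_indep, h2, top, sub_self]
  · rw [coeff_eq_zero_of_natDegree_lt ((P_deg hF _ _).trans_lt h4),
      coeff_eq_zero_of_natDegree_lt (h1.trans_lt h4), sub_self]

theorem coeff_bound (m : ℕ) : ∃ W : ℝ, 0 ≤ W ∧ ∀ {F : E → ℝ} (hF : Deg m F) (x h : E) (M : ℝ),
    (∀ k ≤ m, |F (x + (k : ℝ) • h)| ≤ M) → ∀ j ≤ m, |(P hF x h).coeff j| ≤ W * M := by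
  obtain ⟨w, hw⟩ := coeff_comb m
  refine ⟨∑ j ∈ Finset.range (m + 1), ∑ k ∈ Finset.range (m + 1), |w j k|, by positivity,
    fun hF x h M hM j hj => ?_⟩
  have hM0 : 0 ≤ M := (abs_nonneg _).trans (hM 0 (Nat.zero_le _))
  rw [hw _ (P_deg hF _ _)]
  refine (Finset.abs_sum_le_sum_abs _ _).trans ?_
  calc _ ≤ ∑ k ∈ Finset.range (m + 1), |w j k| * M := by
        refine Finset.sum_le_sum fun k hk => ?_
        rw [abs_mul]
        have := P_eval hF x h (k : ℚ)
        rw [Rat.cast_natCast] at this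
        rw [this]
        exact mul_le_mul_of_nonneg_left (hM k (Nat.lt_succ_iff.1 (Finset.mem_range.1 hk)))
          (abs_nonneg _)
    _ = (∑ k ∈ Finset.range (m + 1), |w j k|) * M := by rw [Finset.sum_mul]
    _ ≤ _ := by
        refine mul_le_mul_of_nonneg_right ?_ hM0
        exact Finset.single_le_sum (f := fun j => ∑ k ∈ Finset.range (m + 1), |w j k|)
          (fun _ _ => by positivity) (Finset.mem_range.2 (Nat.lt_succ_of_le hj))

end Alg

section Top

variable {E : Type} [NormedAddCommGroup E] [NormedSpace ℝ E] {m : ℕ} {F : E → ℝ}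

def LB (F : E → ℝ) (x : E) : Prop := ∃ M : ℝ, ∀ᶠ y in 𝓝 x, |F y| ≤ M

theorem cont_of_LB (hF : Deg m F) (x : E) (h : LB F x) : ContinuousAt F x := by
  obtain ⟨M, hM⟩ := h
  obtain ⟨r, hr, hb⟩ := Metric.eventually_nhds_iff.1 hM
  obtain ⟨W, hW, hWb⟩ := coeff_bound (E := E) m
  have hM0 : 0 ≤ M := (abs_nonneg _).trans (hb (by simpa using hr : dist x x < r))
  rw [Metric.continuousAt_iff]
  intro ε hε
  obtain ⟨N, hN⟩ := exists_nat_gt (max 1 (m * (W * M) / ε))
  have hN1 : (1 : ℝ) < N := (le_max_left _ _).trans_lt hN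
  have hN2 : m * (W * M) < ε * N := by
    have := (le_max_right _ _).trans_lt hN
    rw [div_lt_iff₀ hε] at this
    linarith
  refine ⟨r / ((m + 1) * N), by positivity, fun y hy => ?_⟩
  have hc := hWb hF x ((N : ℝ) • (y - x)) M fun k hk => by
    apply hb
    rw [dist_eq_norm] at hy ⊢
    rw [add_sub_cancel_left, norm_smul, norm_smul, Real.norm_natCast, Real.norm_natCast]
    rw [lt_div_iff₀ (by positivity)] at hy
    have : (k : ℝ) ≤ m + 1 := by exact_mod_cast hk.trans (Nat.le_succ m)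
    calc (k : ℝ) * (N * ‖y - x‖) ≤ (m + 1) * (N * ‖y - x‖) := by gcongr
      _ = ‖y - x‖ * ((m + 1) * N) := by ring
      _ < r := hy
  have e1 := P_eval hF x ((N : ℝ) • (y - x)) ((N : ℚ)⁻¹)
  have e0 := P_eval hF x ((N : ℝ) • (y - x)) 0
  have hN0 : (N : ℝ) ≠ 0 := by positivity
  push_cast at e1 e0
  rw [smul_smul, inv_mul_cancel₀ hN0, one_smul, add_sub_cancel] at e1
  rw [zero_smul, add_zero, ← coeff_zero_eq_eval_zero] at e0
  rw [Real.dist_eq, ← e1, ← e0, eval_eq_sum_range' (Nat.lt_succ_of_le (P_deg hF _ _)),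
    Finset.sum_range_succ', pow_zero, mul_one, add_sub_cancel_right]
  refine (Finset.abs_sum_le_sum_abs _ _).trans_lt ?_
  have : ∀ j ∈ Finset.range m, |(P hF x ((N : ℝ) • (y - x))).coeff (j + 1) * (N : ℝ)⁻¹ ^ (j + 1)|
      ≤ W * M * (N : ℝ)⁻¹ := by
    intro j hj
    rw [abs_mul]
    refine mul_le_mul (hc _ (Finset.mem_range.1 hj)) ?_ (abs_nonneg _) (by positivity)
    rw [abs_of_nonneg (by positivity), pow_succ]
    exact mul_le_of_le_one_left (by positivity)
      (pow_le_one₀ (by positivity) (inv_le_one_of_one_le₀ hN1.le))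
  refine (Finset.sum_le_sum this).trans_lt ?_
  rw [Finset.sum_const, Finset.card_range, nsmul_eq_mul, ← mul_assoc, ← div_eq_mul_inv,
    div_lt_iff₀ (by positivity)]
  exact hN2

theorem LB_top (hF : Deg m F) (h : LB (top hF) 0) (x : E) : LB (top hF) x := by
  obtain ⟨M, hM⟩ := h
  obtain ⟨r, hr, hb⟩ := Metric.eventually_nhds_iff.1 hM
  obtain ⟨N, hN⟩ := exists_nat_gt ((‖x‖ + 1) / r)
  have hN0 : (0 : ℝ) < N := lt_trans (by positivity) hN
  refine ⟨N ^ m * M, Metric.eventually_nhds_iff.2 ⟨1, one_pos, fun y hy => ?_⟩⟩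
  have e := top_smul hF ((N : ℝ)⁻¹ • y) (N : ℚ)
  push_cast at e
  rw [smul_smul, mul_inv_cancel₀ hN0.ne', one_smul] at e
  rw [e, abs_mul, abs_of_nonneg (by positivity)]
  refine mul_le_mul_of_nonneg_left (hb ?_) (by positivity)
  rw [dist_zero_right, norm_smul, norm_inv, Real.norm_natCast, inv_mul_lt_iff₀ hN0]
  rw [div_lt_iff₀ hr] at hN
  rw [dist_eq_norm] at hy
  have := norm_le_norm_add_norm_sub' y x
  linarith

theorem blowup (m : ℕ) : ∀ F : E → ℝ, Deg m F → (∃ x, ¬ LB F x) →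
    ∃ u : ℕ → E, Tendsto u atTop (𝓝 0) ∧ ∀ x M, ∃ᶠ n in atTop, M ≤ |F (u n + x)| := by
  induction m with
  | zero =>
    rintro F hF ⟨x, hx⟩
    refine absurd ⟨|F 0|, Eventually.of_forall fun y => le_of_eq ?_⟩ hx
    have h1 := P_eval hF 0 y 1
    have h0 := P_eval hF 0 y 0
    rw [eq_C_of_natDegree_le_zero (P_deg hF 0 y)] at h1 h0
    simp only [eval_C, Rat.cast_one, one_smul, zero_add, Rat.cast_zero, zero_smul] at h1 h0
    rw [← h1, ← h0]
  | succ m ih =>
    rintro F hF ⟨x₀, hx₀⟩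
    by_cases hc : LB (top hF) 0
    · obtain ⟨u, hu, hu'⟩ := ih _ (deg_sub_top hF) ⟨x₀, fun ⟨M, hM⟩ => hx₀ (by
        obtain ⟨M', hM'⟩ := LB_top hF hc x₀
        refine ⟨M + M', (hM.and hM').mono fun y hy => ?_⟩
        have := abs_add_le (F y - top hF y) (top hF y)
        rw [sub_add_cancel] at this
        linarith [hy.1, hy.2])⟩
      refine ⟨u, hu, fun x M => ?_⟩
      obtain ⟨M', hM'⟩ := LB_top hF hc x
      have h1 : Tendsto (fun n => u n + x) atTop (𝓝 x) := by simpa using hu.add_const x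
      refine ((hu' x (M + M')).and_eventually (h1.eventually hM')).mono fun n hn => ?_
      have := abs_sub (F (u n + x)) (top hF (u n + x))
      linarith [hn.1, hn.2]
    · have h1 : ∀ n : ℕ, ∃ y : E, ‖y‖ < 1 / ((n : ℝ) + 1) ∧ (n : ℝ) < |top hF y| := by
        intro n
        by_contra hn
        push Not at hn
        exact hc ⟨n, Metric.eventually_nhds_iff.2 ⟨1 / ((n : ℝ) + 1), by positivity,
          fun y hy => hn y (by simpa using hy)⟩⟩
      choose y hy hy' using h1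
      obtain ⟨W, hW, hWb⟩ := coeff_bound (E := E) (m + 1)
      refine ⟨fun n => ((n % (m + 2) : ℕ) : ℝ) • y (n / (m + 2)), ?_, fun x M => ?_⟩
      · have h2 : Tendsto (fun n : ℕ => ((m : ℝ) + 2) * (1 / (((n / (m + 2) : ℕ) : ℝ) + 1)))
            atTop (𝓝 (((m : ℝ) + 2) * 0)) :=
          (tendsto_one_div_add_atTop_nhds_zero_nat.comp
            (Nat.tendsto_div_const_atTop (by omega))).const_mul _
        rw [mul_zero] at h2
        refine squeeze_zero_norm (fun n => ?_) h2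
        rw [norm_smul, Real.norm_natCast]
        refine mul_le_mul ?_ (hy _).le (norm_nonneg _) (by positivity)
        exact_mod_cast (Nat.mod_lt n (by omega : 0 < m + 2)).le
      · by_contra hn
        rw [not_frequently] at hn
        obtain ⟨N, hN⟩ := eventually_atTop.1 hn
        obtain ⟨N', hN'⟩ := exists_nat_gt (W * M)
        have h3 := hWb hF x (y (N + N')) M (fun k hk => by
          have h4 := hN ((m + 2) * (N + N') + k) (by nlinarith)
          beta_reduce at h4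
          rw [Nat.mul_add_mod, Nat.mod_eq_of_lt (by omega), Nat.mul_add_div (by omega),
            Nat.div_eq_of_lt (by omega), add_zero, add_comm] at h4
          exact (not_le.1 h4).le) (m + 1) le_rfl
        rw [top_indep] at h3
        have h5 := hy' (N + N')
        rw [top] at h5
        push_cast at h5
        have : (0 : ℝ) ≤ N := Nat.cast_nonneg N
        linarith

end Top

end Pool.Agent.H27.GenPoly
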