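import Mathlib

set_option autoImplicit false

namespace Pool.Agent.H27.Gr

open Finset Matrix

lemma tri (a b c : ℝ) (ha : |a| ≤ 2) (hb : |b| ≤ 2) (hc : |c| ≤ 2) : a * b - a * c + b * c ≤ 4 := by
  obtain ⟨a1, a2⟩ := abs_le.1 ha
  obtain ⟨b1, b2⟩ := abs_le.1 hb
  obtain ⟨c1, c2⟩ := abs_le.1 hc
  rcases le_total b c with h | h
  · nlinarith [mul_nonneg (show 0 ≤ a + 2 by linarith) (sub_nonneg.2 h),
      mul_nonneg (show 0 ≤ 2 + b by linarith) (show 0 ≤ 2 + c by linarith),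
      mul_nonneg (show 0 ≤ 2 - b by linarith) (show 0 ≤ 2 + c by linarith),
      mul_nonneg (show 0 ≤ 2 + b by linarith) (show 0 ≤ 2 - c by linarith)]
  · nlinarith [mul_nonneg (show 0 ≤ 2 - a by linarith) (sub_nonneg.2 h),
      mul_nonneg (show 0 ≤ 2 - b by linarith) (show 0 ≤ 2 + c by linarith),
      mul_nonneg (show 0 ≤ 2 + b by linarith) (show 0 ≤ 2 - c by linarith)]

lemma score (n : ℕ) (z : Fin n → Fin n → ℝ) (h1 : ∀ i j, z j i = -z i j) (h2 : ∀ i j, |z i j| ≤ 2) :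
    3 * ∑ i, (∑ j, z i j) ^ 2 ≤ 4 * (n : ℝ) ^ 3 := by
  have e : ∑ i, (∑ j, z i j) ^ 2 = ∑ i, ∑ j, ∑ k, z i j * z i k := by
    simp only [sq, sum_mul_sum]
  have e2 : ∑ i, ∑ j, ∑ k, z i j * z i k = ∑ i, ∑ j, ∑ k, z j i * z j k := sum_comm
  have e3 : ∑ i, ∑ j, ∑ k, z i j * z i k = ∑ i, ∑ j, ∑ k, z k i * z k j := by
    rw [sum_comm]
    exact sum_congr rfl (fun i _ => sum_comm)
  have e4 : 3 * ∑ i, (∑ j, z i j) ^ 2 =
      ∑ i, ∑ j, ∑ k, (z i j * z i k + z j i * z j k + z k i * z k j) := by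
    simp only [sum_add_distrib]
    rw [← e2, ← e3, e]
    ring
  rw [e4]
  calc ∑ i, ∑ j, ∑ k, (z i j * z i k + z j i * z j k + z k i * z k j)
      ≤ ∑ _i : Fin n, ∑ _j : Fin n, ∑ _k : Fin n, (4 : ℝ) :=
        sum_le_sum (fun i _ => sum_le_sum (fun j _ => sum_le_sum (fun k _ => by
          have := tri _ _ _ (h2 i j) (h2 i k) (h2 j k)
          rw [h1 i j, h1 i k, h1 j k]
          linarith)))
    _ = 4 * (n : ℝ) ^ 3 := by simp; ring

/-- Roots of type A. -/
def w (n : ℕ) (a : Fin n × Fin n) (p : Fin n) : ℝ :=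
  (if a.1 = p then 1 else 0) - (if a.2 = p then 1 else 0)

lemma w_sum (n : ℕ) (x : Fin n × Fin n → ℝ) (p : Fin n) :
    ∑ a, x a * w n a p = ∑ j, (x (p, j) - x (j, p)) := by
  simp only [w, mul_sub, sum_sub_distrib, mul_ite, mul_one, mul_zero, Fintype.sum_prod_type]
  congr 1
  · rw [sum_comm]; simp
  · simp

lemma w_cov (n : ℕ) (p q : Fin n) :
    ∑ a, w n a p * w n a q = (if p = q then 2 * (n : ℝ) else 0) - 2 := by
  rw [w_sum]
  simp only [w, sum_sub_distrib]
  by_cases h : p = q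
  · subst h
    simp
    ring
  · have h' : ¬ q = p := fun e => h e.symm
    simp [h, h']
    ring

theorem exmp (n : ℕ) : ∃ S B : Matrix (Fin n × Fin n) (Fin n × Fin n) ℝ,
    S.PosSemidef ∧ (∀ a, S a a = 1) ∧
    ∑ a, ∑ b, B a b * S a b = 4 / 3 * (n : ℝ) ^ 3 - 2 * (n : ℝ) ^ 2 ∧
    ∀ x : Fin n × Fin n → ℝ, (∀ a, |x a| = 1) →
      |∑ a, ∑ b, B a b * (x a * x b)| ≤ 2 / 3 * (n : ℝ) ^ 3 := by
  classical
  set U : Matrix (Fin n × Fin n) (Fin n) ℝ := fun a p =>
    if a.1 = a.2 then (if a.1 = p then 1 else 0) else (√2)⁻¹ * w n a p with hU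
  have r2 : (√2 : ℝ)⁻¹ * (√2)⁻¹ = 1 / 2 := by
    rw [← mul_inv, Real.mul_self_sqrt (by norm_num)]; norm_num
  have w0 : ∀ a : Fin n × Fin n, a.1 = a.2 → ∀ p, w n a p = 0 := fun a h p => by simp [w, h]
  have Sd : ∀ a, (U * Uᴴ) a a = 1 := by
    intro a
    simp only [mul_apply, conjTranspose_apply, star_trivial, hU]
    by_cases h : a.1 = a.2
    · simp [h]
    · simp only [if_neg h]
      have : ∀ p, (√2 : ℝ)⁻¹ * w n a p * ((√2)⁻¹ * w n a p) =
          1 / 2 * ((if a.1 = p then 1 else 0) + (if a.2 = p then 1 else 0)) := by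
        intro p
        rw [mul_mul_mul_comm, r2]
        simp only [w]
        by_cases h1 : a.1 = p <;> by_cases h2 : a.2 = p
        · exact absurd (h1.trans h2.symm) h
        all_goals simp [h1, h2]
      simp only [this, ← mul_sum, sum_add_distrib]
      simp
      norm_num
  have card : ∑ _a : Fin n × Fin n, 2 / 3 * (n : ℝ) = 2 / 3 * (n : ℝ) ^ 3 := by simp; ring
  refine ⟨U * Uᴴ, fun a b => ∑ p, w n a p * w n b p - if a = b then 2 / 3 * (n : ℝ) else 0,
    posSemidef_self_mul_conjTranspose U, Sd, ?_, fun x hx => ?_⟩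
  · have e1 : ∀ a b, (∑ p, w n a p * w n b p) * (U * Uᴴ) a b =
        1 / 2 * ∑ p, ∑ q, (w n a p * w n a q) * (w n b p * w n b q) := by
      intro a b
      by_cases ha : a.1 = a.2
      · simp [w0 a ha]
      by_cases hb : b.1 = b.2
      · simp [w0 b hb]
      simp only [mul_apply, conjTranspose_apply, star_trivial, hU, if_neg ha, if_neg hb]
      rw [sum_mul_sum, mul_sum]
      refine sum_congr rfl (fun p _ => ?_)
      rw [mul_sum]
      refine sum_congr rfl (fun q _ => ?_)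
      rw [mul_mul_mul_comm (√2 : ℝ)⁻¹, r2]
      ring
    simp only [sub_mul, sum_sub_distrib, e1, ite_mul, zero_mul, sum_ite_eq, mem_univ, if_true, Sd,
      mul_one, card, ← mul_sum]
    have e2 : ∑ a : Fin n × Fin n, ∑ b : Fin n × Fin n, ∑ p, ∑ q,
        (w n a p * w n a q) * (w n b p * w n b q) =
        ∑ p, ∑ q, (∑ a, w n a p * w n a q) * (∑ a, w n a p * w n a q) := by
      simp only [sum_mul_sum]
      simp only [← Fintype.sum_prod_type']
      exact Fintype.sum_equiv ⟨fun t => (t.2.2.1, t.2.2.2, t.1, t.2.1),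
        fun t => (t.2.2.1, t.2.2.2, t.1, t.2.1), fun _ => rfl, fun _ => rfl⟩ _ _ (fun _ => rfl)
    rw [e2]
    have e3 : ∀ p q : Fin n, ((if p = q then 2 * (n : ℝ) else 0) - 2) *
        ((if p = q then 2 * (n : ℝ) else 0) - 2) =
        (if p = q then 4 * (n : ℝ) ^ 2 - 8 * n else 0) + 4 := by
      intro p q
      split_ifs <;> ring
    simp only [w_cov, e3, sum_add_distrib]
    simp
    ring
  · have x2 : ∀ a, x a * x a = 1 := fun a => by rw [← abs_mul_abs_self, hx a, one_mul]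
    have e1 : ∑ a, ∑ b, (∑ p, w n a p * w n b p) * (x a * x b) =
        ∑ p, (∑ j, (x (p, j) - x (j, p))) ^ 2 := by
      simp only [← w_sum, sq, sum_mul, mul_sum]
      rw [sum_comm (s := (univ : Finset (Fin n)))]
      refine sum_congr rfl (fun a _ => ?_)
      rw [sum_comm (s := (univ : Finset (Fin n)))]
      exact sum_congr rfl (fun b _ => sum_congr rfl (fun p _ => by ring))
    simp only [sub_mul, sum_sub_distrib (s := (univ : Finset (Fin n × Fin n))), e1, ite_mul,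
      zero_mul, sum_ite_eq, mem_univ, if_true, x2, mul_one, card]
    have s1 := score n (fun i j => x (i, j) - x (j, i)) (fun i j => by ring) (fun i j =>
      le_trans (abs_sub _ _) (by rw [hx, hx]; norm_num))
    have s2 : 0 ≤ ∑ p, (∑ j, (x (p, j) - x (j, p))) ^ 2 := sum_nonneg (fun _ _ => sq_nonneg _)
    rw [abs_le]
    constructor <;> linarith

theorem two (K : ℝ) (hK : K < 2) : ∃ (k : ℕ) (S B : Matrix (Fin k) (Fin k) ℝ),
    S.PosSemidef ∧ (∀ i, S i i = 1) ∧ ∀ x : Fin k → ℝ, (∀ i, |x i| = 1) →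
      K * |(Bᵀ * vecMulVec x x).trace| < |(Bᵀ * S).trace| := by
  obtain ⟨n, hn⟩ := exists_nat_gt (3 / (2 - max K 0) + 3)
  have k2 : 0 < 2 - max K 0 := by
    have := max_lt hK (show (0 : ℝ) < 2 by norm_num)
    linarith
  have q : 0 ≤ 3 / (2 - max K 0) := by positivity
  have n0 : (0 : ℝ) < n := by linarith
  have n1 : 3 < (2 - max K 0) * n := by
    have : 3 / (2 - max K 0) < n := by linarith
    rw [div_lt_iff₀ k2] at this
    linarith
  obtain ⟨S, B, s1, s2, s3, s4⟩ := exmp n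
  set e : Fin (n * n) ≃ Fin n × Fin n := finProdFinEquiv.symm
  have tr : ∀ M : Matrix (Fin n × Fin n) (Fin n × Fin n) ℝ,
      ((B.submatrix e e)ᵀ * M.submatrix e e).trace = ∑ a, ∑ b, B a b * M a b := by
    intro M
    simp only [trace, Matrix.diag, mul_apply, transpose_apply, submatrix_apply]
    rw [sum_comm, ← e.sum_comp (fun a => ∑ b, B a b * M a b)]
    exact sum_congr rfl (fun a _ => e.sum_comp (fun b => B (e a) b * M (e a) b))
  refine ⟨n * n, S.submatrix e e, B.submatrix e e, s1.submatrix e, fun i => s2 _, fun x hx => ?_⟩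
  have h := s4 (fun a => x (e.symm a)) (fun a => hx _)
  have e2 : vecMulVec x x =
      (vecMulVec (fun a => x (e.symm a)) (fun a => x (e.symm a))).submatrix e e := by
    ext i j
    simp [vecMulVec_apply]
  rw [e2, tr, tr, s3]
  simp only [vecMulVec_apply]
  refine lt_of_lt_of_le ?_ (le_abs_self _)
  refine lt_of_le_of_lt (mul_le_mul (le_max_left K 0) h (abs_nonneg _) (le_max_right _ _)) ?_
  have : 0 < (n : ℝ) ^ 2 := by positivity
  nlinarith

end Pool.Agent.H27.Gr
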