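import Mathlib

set_option autoImplicit false

namespace Pool.Agent.H27.Gr

open Finset Matrix MeasureTheory
open scoped InnerProductSpace ComplexConjugate ComplexOrder

variable {𝕜 : Type} [RCLike 𝕜]

lemma hs_low (d k : ℕ) (u w : Fin k → EuclideanSpace 𝕜 (Fin d)) :
    (∑ a, RCLike.re ⟪u a, w a⟫_𝕜) ^ 2 ≤ d * RCLike.re (∑ a, ∑ b, ⟪w b, w a⟫_𝕜 * ⟪u a, u b⟫_𝕜) := by
  set T : Fin d → Fin d → 𝕜 := fun p q => ∑ a, w a p * conj (u a q) with hT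
  have e1 : ∑ a, ∑ b, ⟪w b, w a⟫_𝕜 * ⟪u a, u b⟫_𝕜 = ∑ p, ∑ q, T p q * conj (T p q) := by
    simp only [hT, PiLp.inner_apply, RCLike.inner_apply, map_sum, map_mul, RCLike.conj_conj,
      sum_mul_sum]
    simp only [← Fintype.sum_prod_type']
    exact Fintype.sum_equiv ⟨fun t => (t.2.2.1, t.2.2.2, t.1, t.2.1),
      fun t => (t.2.2.1, t.2.2.2, t.1, t.2.1), fun _ => rfl, fun _ => rfl⟩ _ _ (fun _ => by
        simp only [Equiv.coe_fn_mk]; ring)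
  have e2 : ∑ a, RCLike.re ⟪u a, w a⟫_𝕜 = ∑ p, RCLike.re (T p p) := by
    simp only [hT, PiLp.inner_apply, RCLike.inner_apply, map_sum]
    exact sum_comm
  rw [e1, e2]
  simp only [RCLike.mul_conj, map_sum, ← RCLike.ofReal_pow, RCLike.ofReal_re]
  refine le_trans sq_sum_le_card_mul_sum_sq ?_
  rw [card_univ, Fintype.card_fin]
  refine mul_le_mul_of_nonneg_left (sum_le_sum (fun p _ => ?_)) (Nat.cast_nonneg _)
  refine le_trans ?_ (single_le_sum (f := fun q => ‖T p q‖ ^ 2) (fun _ _ => sq_nonneg _)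
    (mem_univ p))
  rw [← sq_abs]
  exact pow_le_pow_left₀ (abs_nonneg _) (RCLike.abs_re_le_norm _) 2

lemma build (d k : ℕ) (hk : 0 < k) (u w : Fin k → EuclideanSpace 𝕜 (Fin d)) (hu : ∀ a, ‖u a‖ = 1)
    (κ : ℝ) (hw : ∀ x : Fin k → 𝕜, (∀ a, ‖x a‖ = 1) → ‖∑ a, x a • w a‖ ≤ κ) :
    ∃ S B : Matrix (Fin k) (Fin k) 𝕜, S.PosSemidef ∧ (∀ i, S i i = 1) ∧
      RCLike.re (∑ a, ∑ b, ⟪w b, w a⟫_𝕜 * ⟪u a, u b⟫_𝕜) - κ ^ 2 / 2 ≤ ‖(Bᴴ * S).trace‖ ∧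
      ∀ x : Fin k → 𝕜, (∀ i, ‖x i‖ = 1) → ‖(Bᴴ * vecMulVec x (star x)).trace‖ ≤ κ ^ 2 / 2 := by
  set c : ℝ := κ ^ 2 / 2 / k with hc
  have ck : (k : 𝕜) * (c : 𝕜) = ((κ ^ 2 / 2 : ℝ) : 𝕜) := by
    have : (k : ℝ) * c = κ ^ 2 / 2 := by
      rw [hc]; field_simp
    rw [← this]; push_cast; rfl
  set B : Matrix (Fin k) (Fin k) 𝕜 := fun a b => ⟪w a, w b⟫_𝕜 - if a = b then (c : 𝕜) else 0
    with hB
  have tr : ∀ M : Matrix (Fin k) (Fin k) 𝕜, (∀ i, M i i = 1) → (Bᴴ * M).trace =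
      ∑ a, ∑ b, ⟪w b, w a⟫_𝕜 * M a b - ((κ ^ 2 / 2 : ℝ) : 𝕜) := by
    intro M hM
    simp only [trace, Matrix.diag, mul_apply, conjTranspose_apply, hB, star_sub, sub_mul,
      sum_sub_distrib, RCLike.star_def, inner_conj_symm, apply_ite conj, map_zero, ite_mul,
      zero_mul, sum_ite_eq', mem_univ, if_true, hM, mul_one, RCLike.conj_ofReal, sum_const,
      card_univ, Fintype.card_fin, nsmul_eq_mul, ck]
    rw [sum_comm]
  have Sd : ∀ i, gram 𝕜 u i i = 1 := fun i => by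
    rw [gram_apply, inner_self_eq_norm_sq_to_K, hu]; simp
  refine ⟨gram 𝕜 u, B, posSemidef_gram 𝕜 u, Sd, ?_, fun x hx => ?_⟩
  · rw [tr _ Sd]
    refine le_trans (le_of_eq ?_) (RCLike.re_le_norm _)
    simp only [map_sub, RCLike.ofReal_re, gram_apply]
  · rw [tr _ (fun i => by
      rw [vecMulVec_apply, Pi.star_apply, RCLike.star_def, RCLike.mul_conj, hx]; simp)]
    have e : ∑ a, ∑ b, ⟪w b, w a⟫_𝕜 * vecMulVec x (star x) a b =
        ((‖∑ a, x a • w a‖ ^ 2 : ℝ) : 𝕜) := by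
      rw [RCLike.ofReal_pow, ← inner_self_eq_norm_sq_to_K, inner_sum]
      refine sum_congr rfl (fun a _ => ?_)
      rw [sum_inner]
      refine sum_congr rfl (fun b _ => ?_)
      rw [inner_smul_left, inner_smul_right, vecMulVec_apply, Pi.star_apply, RCLike.star_def]
      ring
    rw [e, ← RCLike.ofReal_sub, RCLike.norm_ofReal, abs_le]
    have := pow_le_pow_left₀ (norm_nonneg _) (hw x hx) 2
    constructor <;> nlinarith [sq_nonneg ‖∑ a, x a • w a‖]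

lemma net (d : ℕ) (hd : 0 < d) (δ : ℝ) (hδ : 0 < δ) : ∃ (k : ℕ) (_ : 0 < k)
    (u : Fin k → EuclideanSpace 𝕜 (Fin d)), (∀ a, ‖u a‖ = 1) ∧
    ∀ z : EuclideanSpace 𝕜 (Fin d), ∃ a, (1 - δ) * ‖z‖ ≤ RCLike.re ⟪u a, z⟫_𝕜 := by
  haveI : ProperSpace (EuclideanSpace 𝕜 (Fin d)) := FiniteDimensional.proper_rclike 𝕜 _
  obtain ⟨t, t1, t2, t3⟩ := (isCompact_sphere (0 : EuclideanSpace 𝕜 (Fin d)) 1).finite_cover_balls hδ
  have one : ‖(EuclideanSpace.single ⟨0, hd⟩ (1 : 𝕜) : EuclideanSpace 𝕜 (Fin d))‖ = 1 := by simp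
  obtain ⟨k, f, hf⟩ := t2.fin_param
  have cov : ∀ y : EuclideanSpace 𝕜 (Fin d), ‖y‖ = 1 → ∃ a, ‖y - f a‖ < δ := by
    intro y hy
    obtain ⟨v, hv, hy'⟩ := Set.mem_iUnion₂.1 (t3 (mem_sphere_zero_iff_norm.2 hy))
    rw [← hf.2] at hv
    obtain ⟨a, rfl⟩ := hv
    exact ⟨a, mem_ball_iff_norm.1 hy'⟩
  obtain ⟨a0, -⟩ := cov _ one
  refine ⟨k, a0.pos, f, fun a => mem_sphere_zero_iff_norm.1 (t1 (hf.2 ▸ ⟨a, rfl⟩)), fun z => ?_⟩
  by_cases hz : z = 0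
  · exact ⟨a0, by simp [hz]⟩
  have nz : ‖z‖ ≠ 0 := norm_ne_zero_iff.2 hz
  set y : EuclideanSpace 𝕜 (Fin d) := ((‖z‖⁻¹ : ℝ) : 𝕜) • z with hy
  obtain ⟨a, ha⟩ := cov y (by rw [hy, norm_smul, RCLike.norm_ofReal, abs_inv, abs_norm,
    inv_mul_cancel₀ nz])
  refine ⟨a, ?_⟩
  have e1 : RCLike.re ⟪y, z⟫_𝕜 = ‖z‖ := by
    rw [hy, inner_smul_left, RCLike.conj_ofReal, RCLike.re_ofReal_mul, inner_self_eq_norm_sq]
    field_simp
  have e2 : RCLike.re ⟪y - f a, z⟫_𝕜 ≤ δ * ‖z‖ :=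
    le_trans (re_inner_le_norm _ _) (mul_le_mul_of_nonneg_right ha.le (norm_nonneg _))
  rw [inner_sub_left, map_sub, e1] at e2
  linarith

theorem abstr {Ω : Type} [MeasurableSpace Ω] [TopologicalSpace Ω] [OpensMeasurableSpace Ω]
    (μ : Measure Ω) (d : ℕ) (hd : 0 < d) (g : Ω → EuclideanSpace 𝕜 (Fin d)) (gc : Continuous g)
    (gi : Integrable g μ) (κ : ℝ) (κ0 : 0 ≤ κ)
    (hκ : ∀ v : EuclideanSpace 𝕜 (Fin d), ∫ ω, ‖⟪v, g ω⟫_𝕜‖ ∂μ ≤ κ * ‖v‖)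
    (δ : ℝ) (hδ : 0 < δ) (hδ1 : δ ≤ 1) :
    ∃ (k : ℕ) (S B : Matrix (Fin k) (Fin k) 𝕜), S.PosSemidef ∧ (∀ i, S i i = 1) ∧
      ((1 - δ) * ∫ ω, ‖g ω‖ ∂μ) ^ 2 / d - κ ^ 2 / 2 ≤ ‖(Bᴴ * S).trace‖ ∧
      ∀ x : Fin k → 𝕜, (∀ i, ‖x i‖ = 1) → ‖(Bᴴ * vecMulVec x (star x)).trace‖ ≤ κ ^ 2 / 2 := by
  classical
  obtain ⟨k, hk, u, hu, hn⟩ := net (𝕜 := 𝕜) d hd δ hδ
  set A : Fin k → Set Ω := fun a => {ω | (1 - δ) * ‖g ω‖ ≤ RCLike.re ⟪u a, g ω⟫_𝕜} with hA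
  have Am : ∀ a, MeasurableSet (A a) := fun a =>
    (isClosed_le (by fun_prop) (RCLike.continuous_re.comp (continuous_const.inner gc))).measurableSet
  set D : Fin k → Set Ω := disjointed A with hD
  have Dm : ∀ a, MeasurableSet (D a) := fun a => by
    rw [hD, disjointed_eq_inter_compl]
    exact (Am a).inter (MeasurableSet.iInter (fun j => MeasurableSet.iInter (fun _ => (Am j).compl)))
  have Dd : Pairwise (Function.onFun Disjoint D) := disjoint_disjointed A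
  have Du : ⋃ a, D a = Set.univ := by
    rw [hD, iUnion_disjointed]
    exact Set.eq_univ_of_forall (fun ω => Set.mem_iUnion.2 (hn (g ω)))
  have split : ∀ f : Ω → ℝ, Integrable f μ → ∑ a, ∫ ω in D a, f ω ∂μ = ∫ ω, f ω ∂μ := by
    intro f hf
    rw [← integral_iUnion_fintype Dm Dd (fun a => hf.integrableOn), Du, Measure.restrict_univ]
  set w : Fin k → EuclideanSpace 𝕜 (Fin d) := fun a => ∫ ω in D a, g ω ∂μ with hw
  have iw : ∀ v a, ⟪v, w a⟫_𝕜 = ∫ ω in D a, ⟪v, g ω⟫_𝕜 ∂μ := fun v a =>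
    (integral_inner gi.integrableOn v).symm
  obtain ⟨S, B, s1, s2, s3, s4⟩ := build d k hk u w hu κ (fun x hx => by
    set y := ∑ a, x a • w a with hy
    have e : ‖y‖ ^ 2 ≤ κ * ‖y‖ := by
      calc ‖y‖ ^ 2 = ‖⟪y, y⟫_𝕜‖ := by rw [inner_self_eq_norm_sq_to_K]; simp
        _ = ‖∑ a, x a * ⟪y, w a⟫_𝕜‖ := by
          have : ∀ v, ⟪v, y⟫_𝕜 = ∑ a, x a * ⟪v, w a⟫_𝕜 := fun v => by
            simp only [hy, inner_sum, inner_smul_right]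
          rw [this]
        _ ≤ ∑ a, ∫ ω in D a, ‖⟪y, g ω⟫_𝕜‖ ∂μ := by
          refine le_trans (norm_sum_le _ _) (sum_le_sum (fun a _ => ?_))
          rw [norm_mul, hx, one_mul, iw]
          exact norm_integral_le_integral_norm _
        _ ≤ κ * ‖y‖ := by
          rw [split _ (gi.const_inner y).norm]
          exact hκ y
    rcases (norm_nonneg y).eq_or_lt with h | h
    · rw [← h]; exact κ0
    · nlinarith)
  refine ⟨k, S, B, s1, s2, le_trans (sub_le_sub_right ?_ _) s3, s4⟩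
  rw [div_le_iff₀' (by exact_mod_cast hd)]
  refine le_trans (pow_le_pow_left₀ (mul_nonneg (by linarith)
    (integral_nonneg (fun _ => norm_nonneg _))) ?_ 2) (hs_low d k u w)
  rw [← integral_const_mul, ← split _ (gi.norm.const_mul _)]
  refine sum_le_sum (fun a _ => ?_)
  rw [iw, ← integral_re (gi.const_inner _).integrableOn]
  exact setIntegral_mono_on (gi.norm.const_mul _).integrableOn (gi.const_inner _).re.integrableOn
    (Dm a) (fun ω hω => disjointed_subset A a hω)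

end Pool.Agent.H27.Gr
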