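import Pool.Agent.H27.Gr2

set_option autoImplicit false

namespace Pool.Agent.H27.Gr

open Finset Matrix MeasureTheory ProbabilityTheory Real Filter Topology
open scoped InnerProductSpace ComplexConjugate ComplexOrder

lemma abs_gauss : ∫ x, |x| ∂(gaussianReal 0 1) = (√(2 * π))⁻¹ * 2 := by
  rw [integral_gaussianReal_eq_integral_smul one_ne_zero]
  have e : ∀ x : ℝ, gaussianPDFReal 0 1 x • |x| =
      (√(2 * π))⁻¹ * (fun t : ℝ => t ^ (1 : ℝ) * exp (-(1 / 2) * t ^ (2 : ℝ))) |x| := by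
    intro x
    simp only [gaussianPDFReal, NNReal.coe_one, mul_one, sub_zero, smul_eq_mul, rpow_one,
      rpow_two, sq_abs]
    rw [show -x ^ 2 / 2 = -(1 / 2) * x ^ 2 by ring]
    ring
  simp only [e]
  rw [integral_const_mul, integral_comp_abs
    (f := fun t : ℝ => t ^ (1 : ℝ) * exp (-(1 / 2) * t ^ (2 : ℝ))),
    integral_rpow_mul_exp_neg_mul_rpow (by norm_num) (by norm_num) (by norm_num)]
  norm_num [rpow_neg_one]

lemma abs_lin {ι : Type} [Fintype ι] (c : ι → ℝ) :
    ∫ ω, |∑ i, c i * ω i| ∂(Measure.pi (fun _ : ι => gaussianReal 0 1)) =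
      (√(2 * π))⁻¹ * 2 * √(∑ i, c i ^ 2) := by
  set L : StrongDual ℝ (EuclideanSpace ℝ ι) := innerSL ℝ (WithLp.toLp 2 c) with hL
  have nL : ‖L‖ = √(∑ i, c i ^ 2) := by
    rw [hL, innerSL_apply_norm, EuclideanSpace.norm_eq]
    simp
  have e1 : ∫ ω, |∑ i, c i * ω i| ∂(Measure.pi (fun _ : ι => gaussianReal 0 1)) =
      ∫ z, |L z| ∂(stdGaussian (EuclideanSpace ℝ ι)) := by
    rw [← map_pi_eq_stdGaussian, integral_map (by fun_prop) (by fun_prop)]
    simp [hL, PiLp.inner_apply, mul_comm]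
  have e2 : (stdGaussian (EuclideanSpace ℝ ι)).map L = (gaussianReal 0 1).map (‖L‖ * ·) := by
    rw [IsGaussian.map_eq_gaussianReal L, gaussianReal_map_const_mul,
      integral_strongDual_stdGaussian, variance_dual_stdGaussian, mul_zero, mul_one]
    congr 1
    exact Real.toNNReal_of_nonneg _
  rw [e1, ← integral_map (f := fun t : ℝ => |t|) (by fun_prop) (by fun_prop), e2,
    integral_map (by fun_prop) (by fun_prop)]
  simp only [abs_mul, abs_norm]
  rw [integral_const_mul, abs_gauss, nL, mul_comm]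

lemma norm_low : ∃ V : ℝ, 0 ≤ V ∧ ∀ (ι : Type) [Fintype ι], 0 < Fintype.card ι →
    V ≤ Fintype.card ι →
    Integrable (fun ω : ι → ℝ => √(∑ i, ω i ^ 2)) (Measure.pi (fun _ : ι => gaussianReal 0 1)) ∧
    (Fintype.card ι : ℝ) - V ≤
      (∫ ω, √(∑ i, ω i ^ 2) ∂(Measure.pi (fun _ : ι => gaussianReal 0 1))) ^ 2 := by
  have m2 : MemLp (fun x : ℝ => x ^ 2) 2 (gaussianReal 0 1) := by
    rw [memLp_two_iff_integrable_sq (by fun_prop)]
    have := (memLp_id_gaussianReal' (μ := 0) (v := 1) ((4 : ℕ) : ENNReal)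
      (by simp)).integrable_norm_pow (by norm_num)
    refine this.congr (Eventually.of_forall (fun x => ?_))
    simp only [id, Real.norm_eq_abs]
    rw [show |x| ^ 4 = (|x| ^ 2) ^ 2 by ring, sq_abs]
  have i2 : ∫ x, x ^ 2 ∂(gaussianReal 0 1) = 1 := by
    have := variance_eq_sub (memLp_id_gaussianReal (μ := 0) (v := 1) 2)
    rw [variance_id_gaussianReal] at this
    simpa using this.symm
  refine ⟨Var[fun x : ℝ => x ^ 2; gaussianReal 0 1], variance_nonneg _ _, fun ι _ h0 hV => ?_⟩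
  set V := Var[fun x : ℝ => x ^ 2; gaussianReal 0 1] with hVd
  set μ := Measure.pi (fun _ : ι => gaussianReal 0 1) with hμ
  set n : ℝ := ((Fintype.card ι : ℕ) : ℝ) with hn
  have n0 : 0 < n := by rw [hn]; exact_mod_cast h0
  set X : (ι → ℝ) → ℝ := fun ω => ∑ i, ω i ^ 2 with hX
  have mi : ∀ i, MemLp (fun ω : ι → ℝ => ω i ^ 2) 2 μ := fun i =>
    m2.comp_measurePreserving (measurePreserving_eval _ i)
  have mX : MemLp X 2 μ := memLp_finsetSum _ (fun i _ => mi i)
  have EX : ∫ ω, X ω ∂μ = n := by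
    rw [integral_finsetSum _ (fun i _ => (mi i).integrable one_le_two)]
    have : ∀ i, ∫ ω : ι → ℝ, ω i ^ 2 ∂μ = 1 := fun i => by
      rw [← i2]
      exact integral_comp_eval (μ := fun _ : ι => gaussianReal 0 1) (i := i)
        (f := fun x : ℝ => x ^ 2) (by fun_prop)
    simp [this, hn]
  have VX : Var[X; μ] = n * V := by
    have := variance_sum_pi (μ := fun _ : ι => gaussianReal 0 1)
      (X := fun _ x => x ^ 2) (fun _ => m2)
    rw [sum_const, card_univ, nsmul_eq_mul] at this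
    rw [← this]
    congr 1
    ext ω
    simp [hX]
  have EX2 : ∫ ω, X ω ^ 2 ∂μ = n * V + n ^ 2 := by
    have := variance_eq_sub mX
    rw [VX, EX] at this
    simp only [Pi.pow_apply] at this
    linarith
  have iX := mX.integrable one_le_two
  have iX2 := mX.integrable_sq
  have X0 : ∀ ω, 0 ≤ X ω := fun ω => sum_nonneg (fun _ _ => sq_nonneg _)
  have iS : Integrable (fun ω => √(X ω)) μ := by
    refine Integrable.mono' ((integrable_const 1).add iX) (by fun_prop)
      (Eventually.of_forall (fun ω => ?_))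
    rw [Real.norm_eq_abs, abs_of_nonneg (sqrt_nonneg _), Pi.add_apply]
    nlinarith [sq_sqrt (X0 ω), sq_nonneg (√(X ω) - 1), sqrt_nonneg (X ω)]
  refine ⟨iS, ?_⟩
  set s := √n with hs
  have s0 : 0 < s := sqrt_pos.2 n0
  have s2 : n = s ^ 2 := (sq_sqrt n0.le).symm
  have low : s - V / (2 * s) ≤ ∫ ω, √(X ω) ∂μ := by
    have a : ∫ ω, (3 / (2 * s) * X ω - 1 / (2 * s ^ 3) * X ω ^ 2) ∂μ = s - V / (2 * s) := by
      rw [integral_sub (iX.const_mul _) (iX2.const_mul _), integral_const_mul, integral_const_mul,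
        EX, EX2, s2]
      field_simp
      ring
    rw [← a]
    refine integral_mono ((iX.const_mul _).sub (iX2.const_mul _)) iS (fun ω => ?_)
    simp only
    have t0 := sqrt_nonneg (X ω)
    have t2 := sq_sqrt (X0 ω)
    set t := √(X ω)
    rw [← t2, ← sub_nonneg]
    have : t - (3 / (2 * s) * t ^ 2 - 1 / (2 * s ^ 3) * (t ^ 2) ^ 2) =
        t * (t - s) ^ 2 * (t + 2 * s) / (2 * s ^ 3) := by
      field_simp
      ring
    rw [this]
    positivity
  have V0 : 0 ≤ V := variance_nonneg _ _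
  have p : 0 ≤ s - V / (2 * s) := by
    rw [sub_nonneg, div_le_iff₀ (by positivity)]
    nlinarith
  refine le_trans ?_ (pow_le_pow_left₀ p low 2)
  have : (s - V / (2 * s)) ^ 2 = s ^ 2 - V + (V / (2 * s)) ^ 2 := by field_simp; ring
  rw [this, s2]
  nlinarith [sq_nonneg (V / (2 * s))]

lemma pickd (c m V : ℝ) (h : c < m) : ∃ d : ℕ, 0 < d ∧ V ≤ d ∧
    c < (1 - 1 / (d : ℝ)) ^ 2 * (m * d - V) / d := by
  have z := tendsto_one_div_atTop_nhds_zero_nat (𝕜 := ℝ)
  have l : Tendsto (fun d : ℕ => (1 - 1 / (d : ℝ)) ^ 2 * (m - V * (1 / (d : ℝ)))) atTop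
      (𝓝 ((1 - 0) ^ 2 * (m - V * 0))) :=
    ((tendsto_const_nhds.sub z).pow 2).mul (tendsto_const_nhds.sub (z.const_mul V))
  obtain ⟨d, d1, d2, d3⟩ := ((eventually_gt_atTop 0).and
    ((tendsto_natCast_atTop_atTop.eventually_ge_atTop V).and
      (l.eventually_const_lt (by simpa using h)))).exists
  refine ⟨d, d1, d2, lt_of_lt_of_eq d3 ?_⟩
  have : (d : ℝ) ≠ 0 := by positivity
  field_simp

lemma norm_avg (z : ℂ) : ∫ θ in (0 : ℝ)..π, |(Complex.exp (θ * Complex.I) * z).re| = 2 * ‖z‖ := by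
  have e : ∀ θ : ℝ, |(Complex.exp (θ * Complex.I) * z).re| = ‖z‖ * |cos (θ + z.arg)| := by
    intro θ
    conv_lhs => rw [← Complex.norm_mul_exp_arg_mul_I z]
    rw [mul_left_comm, ← Complex.exp_add, ← add_mul, ← Complex.ofReal_add, Complex.re_ofReal_mul,
      Complex.exp_ofReal_mul_I_re, abs_mul, abs_norm]
  simp only [e]
  have per : Function.Periodic (fun θ => |cos θ|) π := fun θ => by simp [cos_add_pi]
  rw [intervalIntegral.integral_const_mul,
    intervalIntegral.integral_comp_add_right (fun θ => |cos θ|), zero_add, add_comm π,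
    per.intervalIntegral_add_eq _ (-(π / 2)), intervalIntegral.integral_congr (g := cos)]
  · rw [integral_cos, show -(π / 2) + π = π / 2 by ring]
    simp
    ring
  · intro θ hθ
    rw [Set.uIcc_of_le (by linarith [pi_pos])] at hθ
    exact abs_of_nonneg (cos_nonneg_of_mem_Icc ⟨hθ.1, by linarith [hθ.2]⟩)

end Pool.Agent.H27.Gr
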