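import Pool.Agent.H27.Gr3

set_option autoImplicit false

namespace Pool.Agent.H27.Gr

open Finset Matrix MeasureTheory ProbabilityTheory Real Filter Topology
open scoped InnerProductSpace ComplexConjugate ComplexOrder

theorem fin {𝕜 : Type} [RCLike 𝕜] (K κ m : ℝ) (κ0 : 0 ≤ κ) (m1 : 1 ≤ m)
    (hK : (max K 0 + 1) * (κ ^ 2 / 2) < m)
    (h : ∀ d : ℕ, 0 < d → ∃ (ι : Type) (_ : Fintype ι) (g : (ι → ℝ) → EuclideanSpace 𝕜 (Fin d)),
      (Fintype.card ι : ℝ) = m * d ∧ Continuous g ∧ (∀ ω, ‖g ω‖ = √(∑ i, ω i ^ 2)) ∧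
      (Integrable g (Measure.pi (fun _ : ι => gaussianReal 0 1)) →
        ∀ v : EuclideanSpace 𝕜 (Fin d),
          ∫ ω, ‖⟪v, g ω⟫_𝕜‖ ∂(Measure.pi (fun _ : ι => gaussianReal 0 1)) ≤ κ * ‖v‖)) :
    ∃ (k : ℕ) (S B : Matrix (Fin k) (Fin k) 𝕜), S.PosSemidef ∧ (∀ i, S i i = 1) ∧
      ∀ x : Fin k → 𝕜, (∀ i, ‖x i‖ = 1) →
        K * ‖(Bᴴ * vecMulVec x (star x)).trace‖ < ‖(Bᴴ * S).trace‖ := by
  obtain ⟨V, V0, hV⟩ := norm_low
  obtain ⟨d, d0, d1, d2⟩ := pickd _ m V hK
  obtain ⟨ι, _, g, g1, g2, g3, g4⟩ := h d d0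
  have d0' : (1 : ℝ) ≤ d := by exact_mod_cast d0
  obtain ⟨a1, a2⟩ := hV ι (by
    have : (0 : ℝ) < Fintype.card ι := by rw [g1]; positivity
    exact_mod_cast this) (by rw [g1]; nlinarith)
  have gi : Integrable g (Measure.pi (fun _ : ι => gaussianReal 0 1)) :=
    Integrable.mono' a1 g2.aestronglyMeasurable (Eventually.of_forall (fun ω => (g3 ω).le))
  obtain ⟨k, S, B, s1, s2, s3, s4⟩ := abstr _ d d0 g g2 gi κ κ0 (g4 gi) (1 / d) (by positivity)
    (by rw [div_le_one (by positivity)]; exact d0')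
  refine ⟨k, S, B, s1, s2, fun x hx => lt_of_lt_of_le ?_ s3⟩
  refine lt_of_le_of_lt (mul_le_mul (le_max_left K 0) (s4 x hx) (norm_nonneg _)
    (le_max_right _ _)) ?_
  simp only [g3]
  rw [g1] at a2
  have : (1 - 1 / (d : ℝ)) ^ 2 * (m * d - V) / d ≤ ((1 - 1 / (d : ℝ)) *
      ∫ ω, √(∑ i, ω i ^ 2) ∂(Measure.pi (fun _ : ι => gaussianReal 0 1))) ^ 2 / d := by
    rw [mul_pow]
    exact div_le_div_of_nonneg_right (mul_le_mul_of_nonneg_left a2 (sq_nonneg _)) (by positivity)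
  linarith

lemma ksq : ((√(2 * π))⁻¹ * 2) ^ 2 = 2 / π := by
  rw [mul_pow, inv_pow, sq_sqrt (by positivity)]
  field_simp

theorem real_case (K : ℝ) (hK : K < π - 1) :
    ∃ (k : ℕ) (S B : Matrix (Fin k) (Fin k) ℝ), S.PosSemidef ∧ (∀ i, S i i = 1) ∧
      ∀ x : Fin k → ℝ, (∀ i, ‖x i‖ = 1) →
        K * ‖(Bᴴ * vecMulVec x (star x)).trace‖ < ‖(Bᴴ * S).trace‖ := by
  refine fin K ((√(2 * π))⁻¹ * 2) 1 (by positivity) le_rfl ?_ (fun d _ =>
    ⟨Fin d, inferInstance, WithLp.toLp 2, by simp, by fun_prop,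
      fun ω => by simp [EuclideanSpace.norm_eq], fun _ v => ?_⟩)
  · have := max_lt hK (show (0 : ℝ) < π - 1 by linarith [pi_gt_three])
    rw [ksq, show 2 / π / 2 = 1 / π by ring, mul_one_div, div_lt_one pi_pos]
    linarith
  · have := abs_lin (fun i => v i)
    refine le_of_eq ?_
    rw [EuclideanSpace.norm_eq]
    simp only [Real.norm_eq_abs, sq_abs]
    rw [← this]
    simp [PiLp.inner_apply, mul_comm]

theorem complex_case (K : ℝ) (hK : K < 8 / π - 1) :
    ∃ (k : ℕ) (S B : Matrix (Fin k) (Fin k) ℂ), S.PosSemidef ∧ (∀ i, S i i = 1) ∧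
      ∀ x : Fin k → ℂ, (∀ i, ‖x i‖ = 1) →
        K * ‖(Bᴴ * vecMulVec x (star x)).trace‖ < ‖(Bᴴ * S).trace‖ := by
  refine fin K (π / 2 * ((√(2 * π))⁻¹ * 2)) 2 (by positivity) (by norm_num) ?_ (fun d _ =>
    ⟨Fin d ⊕ Fin d, inferInstance,
      fun ω => WithLp.toLp 2 (fun i => (ω (Sum.inl i) : ℂ) + ω (Sum.inr i) * Complex.I),
      by simp; ring, by fun_prop, fun ω => ?_, fun gi v => ?_⟩)
  · have p4 : (0 : ℝ) < 8 / π - 1 := by
      rw [sub_pos, one_lt_div pi_pos]; linarith [pi_le_four]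
    have := max_lt hK p4
    rw [mul_pow, ksq, show (π / 2) ^ 2 * (2 / π) / 2 = π / 4 by field_simp; ring]
    have h2 : max K 0 + 1 < 8 / π := by linarith
    rw [lt_div_iff₀ pi_pos] at h2
    linarith
  · rw [EuclideanSpace.norm_eq, Fintype.sum_sum_type, ← sum_add_distrib]
    congr 1
    refine sum_congr rfl (fun i _ => ?_)
    rw [Complex.sq_norm, Complex.normSq_add_mul_I]
  · set μ := Measure.pi (fun _ : Fin d ⊕ Fin d => gaussianReal 0 1) with hμ
    set z : (Fin d ⊕ Fin d → ℝ) → ℂ := fun ω => ⟪v, WithLp.toLp 2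
      (fun i => (ω (Sum.inl i) : ℂ) + ω (Sum.inr i) * Complex.I)⟫_ℂ with hz
    have zc : Continuous z := by rw [hz]; fun_prop
    have zi : Integrable z μ := gi.const_inner v
    have inn : ∀ θ : ℝ, ∫ ω, |(Complex.exp (θ * Complex.I) * z ω).re| ∂μ =
        (√(2 * π))⁻¹ * 2 * ‖v‖ := by
      intro θ
      have := abs_lin (Sum.elim (fun i => (Complex.exp (θ * Complex.I) * conj (v i)).re)
        (fun i => -(Complex.exp (θ * Complex.I) * conj (v i)).im))
      have e1 : ∑ i, Sum.elim (fun i => (Complex.exp (θ * Complex.I) * conj (v i)).re)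
          (fun i => -(Complex.exp (θ * Complex.I) * conj (v i)).im) i ^ 2 = ∑ i, ‖v i‖ ^ 2 := by
        rw [Fintype.sum_sum_type, ← sum_add_distrib]
        refine sum_congr rfl (fun i _ => ?_)
        rw [Sum.elim_inl, Sum.elim_inr, neg_sq, sq, sq, ← Complex.normSq_apply,
          ← Complex.sq_norm, norm_mul, Complex.norm_exp_ofReal_mul_I, one_mul, Complex.norm_conj]
      rw [e1, ← EuclideanSpace.norm_eq] at this
      rw [← this]
      congr 1
      funext ω
      congr 1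
      simp only [hz, PiLp.inner_apply, RCLike.inner_apply, mul_sum, Complex.re_sum,
        Fintype.sum_sum_type, ← sum_add_distrib, Sum.elim_inl, Sum.elim_inr]
      refine sum_congr rfl (fun i _ => ?_)
      rw [mul_comm _ (conj (v i)), ← mul_assoc, Complex.mul_re]
      simp
      ring
    have sw := intervalIntegral_integral_swap (a := 0) (b := π) (μ := μ)
      (f := fun θ ω => |(Complex.exp (θ * Complex.I) * z ω).re|) (by
        haveI : IsFiniteMeasure ((volume : Measure ℝ).restrict (Set.uIoc 0 π)) :=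
          isFiniteMeasure_restrict.2 (by rw [Set.uIoc_of_le pi_pos.le]; simp)
        refine Integrable.mono' (zi.norm.comp_snd _) (Continuous.aestronglyMeasurable ?_)
          (Eventually.of_forall (fun p => ?_))
        · unfold Function.uncurry
          fun_prop
        · simp only [Function.uncurry, Real.norm_eq_abs, abs_abs]
          refine le_trans (Complex.abs_re_le_norm _) ?_
          rw [norm_mul, Complex.norm_exp_ofReal_mul_I, one_mul])
    simp only [inn, norm_avg, integral_const_mul, intervalIntegral.integral_const, sub_zero,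
      smul_eq_mul] at sw
    change ∫ ω, ‖z ω‖ ∂μ ≤ _
    linarith

end Pool.Agent.H27.Gr
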