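import Mathlib

set_option autoImplicit false

namespace Pool.Agent.H27.Heavy

open Set

/-- piecewise linear derivative -/
noncomputable def g (x : ℝ) : ℝ :=
  33 / 10 * x - 1 + 3 / 10 * max (x + 5) 0 - 9 / 25 * max x 0 + 32 / 75 * max (x - 5) 0

theorem g_cont : Continuous g := by unfold g; fun_prop

theorem g_slope {x y : ℝ} (h : x ≤ y) :
    16 / 5 * (y - x) ≤ g y - g x ∧ g y - g x ≤ 37 / 10 * (y - x) := by
  unfold g
  simp only [max_def]
  split_ifs <;> constructor <;> linarith

noncomputable def f (x : ℝ) : ℝ := ∫ t in (0 : ℝ)..x, g t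

theorem f_deriv (x : ℝ) : HasDerivAt f (g x) x := (g_cont.integral_hasStrictDerivAt 0 x).hasDerivAt

theorem deriv_f : deriv f = g := funext fun x => (f_deriv x).deriv

theorem f_diff : Differentiable ℝ f := fun x => (f_deriv x).differentiableAt

theorem sub_deriv {F : ℝ → ℝ} (hF : Differentiable ℝ F) (m x : ℝ) :
    HasDerivAt (fun x : ℝ => F x - m / 2 * ‖x‖ ^ 2) (deriv F x - m * x) x := by
  have h1 : HasDerivAt (fun x : ℝ => F x - m / 2 * x ^ 2) (deriv F x - m * x) x := by
    convert! (hF x).hasDerivAt.sub ((hasDerivAt_pow 2 x).const_mul (m / 2)) using 1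
    simp; ring
  simpa [Real.norm_eq_abs, sq_abs] using h1

theorem f_strong : StrongConvexOn univ (16 / 5) f := by
  rw [strongConvexOn_iff_convex]
  refine Monotone.convexOn_univ_of_deriv (fun x => (sub_deriv f_diff _ x).differentiableAt) ?_
  intro x y h
  rw [(sub_deriv f_diff _ x).deriv, (sub_deriv f_diff _ y).deriv, deriv_f]
  linarith [(g_slope h).1]

theorem f_lip (x y : ℝ) : |deriv f x - deriv f y| ≤ 37 / 10 * |x - y| := by
  rw [deriv_f]
  rcases le_total x y with h | h
  · have := g_slope h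
    rw [abs_sub_comm, abs_sub_comm x, abs_of_nonneg (by linarith), abs_of_nonneg (by linarith)]
    exact this.2
  · have := g_slope h
    rw [abs_of_nonneg (by linarith), abs_of_nonneg (by linarith)]
    exact this.2

theorem slope_of_strong {F : ℝ → ℝ} {m : ℝ} (hF : Differentiable ℝ F)
    (h : StrongConvexOn univ m F) {x y : ℝ} (hxy : x ≤ y) :
    m * (y - x) ≤ deriv F y - deriv F x := by
  rw [strongConvexOn_iff_convex] at h
  have := h.monotoneOn_deriv (fun x _ => (sub_deriv hF m x).differentiableAt) (mem_univ x)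
    (mem_univ y) hxy
  rw [(sub_deriv hF _ x).deriv, (sub_deriv hF _ y).deriv] at this
  linarith

theorem g_vals : g 8 = 277 / 10 ∧ g (-8) = -137 / 5 ∧ g 5 = 167 / 10 ∧ g 0 = 1 / 2 ∧
    g (-5) = -35 / 2 := by
  unfold g
  refine ⟨?_, ?_, ?_, ?_, ?_⟩ <;> norm_num [max_def]

/-- the star shaped cycle -/
def star5 (t : ℕ) : ℝ := ![8, -8, 5, 0, -5] (Fin.ofNat 5 t)

theorem star5_per : Function.Periodic star5 5 := fun t => by
  unfold star5
  congr 1
  ext
  simp [Fin.ofNat]

theorem star5_rec (t : ℕ) : star5 (t + 2) =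
    star5 (t + 1) - 1 * deriv f (star5 (t + 1)) + 9 / 10 * (star5 (t + 1) - star5 t) := by
  have h : ∀ s, star5 (t + s) = star5 (t % 5 + s) := fun s => by
    have := (star5_per.nat_mul (t / 5)) (t % 5 + s)
    rw [← this]; congr 1; simp only [Nat.cast_id]; omega
  have h0 : star5 t = star5 (t % 5) := h 0
  rw [h 2, h 1, h0, deriv_f]
  obtain ⟨g1, g2, g3, g4, g5⟩ := g_vals
  have h5 : t % 5 < 5 := Nat.mod_lt _ (by norm_num)
  have e0 : star5 0 = 8 := rfl
  have e1 : star5 1 = -8 := rfl
  have e2 : star5 2 = 5 := rfl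
  have e3 : star5 3 = 0 := rfl
  have e4 : star5 4 = -5 := rfl
  have e5 : star5 5 = 8 := rfl
  have e6 : star5 6 = -8 := rfl
  generalize t % 5 = r at h5
  interval_cases r <;> simp only [Nat.reduceAdd, e0, e1, e2, e3, e4, e5, e6, g1, g2, g3, g4, g5] <;>
    norm_num

theorem star5_inj : ∀ i < 5, ∀ j < 5, star5 i = star5 j → i = j := by
  have e0 : star5 0 = 8 := rfl
  have e1 : star5 1 = -8 := rfl
  have e2 : star5 2 = 5 := rfl
  have e3 : star5 3 = 0 := rfl
  have e4 : star5 4 = -5 := rfl
  intro i hi j hj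
  interval_cases i <;> interval_cases j <;> simp only [e0, e1, e2, e3, e4] <;> norm_num

theorem no_ordered {F : ℝ → ℝ} (hF : Differentiable ℝ F) (h : StrongConvexOn univ (16 / 5) F)
    {K : ℕ} (hK : 3 ≤ K) {x : ℕ → ℝ} (hp : Function.Periodic x K)
    (hr : ∀ t, x (t + 2) = x (t + 1) - 1 * deriv F (x (t + 1)) + 9 / 10 * (x (t + 1) - x t))
    (ho : ∀ i < K, ∀ j < K, (if i = 0 then 0 else if i ≤ K / 2 then 2 * i - 1 else 2 * (K - i)) <
      (if j = 0 then 0 else if j ≤ K / 2 then 2 * j - 1 else 2 * (K - j)) → x i ≤ x j) :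
    ∀ i j, x i = x j := by
  have key : ∀ s, x s = x (s + 1) → x (s + 1) = x (s + 2) → ∀ t, x (s + t) = x s := by
    intro s h1 h2
    have h3 : deriv F (x s) = 0 := by
      have := hr s
      rw [← h2, ← h1] at this
      linarith
    have h4 : ∀ t, x (s + t) = x s ∧ x (s + t + 1) = x s := by
      intro t
      induction t with
      | zero => exact ⟨rfl, h1.symm⟩
      | succ t ih =>
        refine ⟨ih.2, ?_⟩
        have := hr (s + t)
        rw [ih.1, ih.2, h3] at this
        rw [show s + (t + 1) + 1 = s + t + 2 by ring, this]; ring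
    exact fun t => (h4 t).1
  suffices hs : x 0 = x 1 ∧ x 1 = x 2 by
    intro i j
    have := key 0 hs.1 hs.2
    simp only [zero_add] at this
    rw [this i, this j]
  have r0 := hr 0
  have r1 := hr 1
  have r2 := hr 2
  have r3 := hr 3
  simp only [Nat.reduceAdd, zero_add] at r0 r1 r2 r3
  rcases (by omega : K = 3 ∨ K = 4 ∨ 5 ≤ K) with rfl | rfl | h5
  · have o1 := ho 0 (by norm_num) 1 (by norm_num) (by norm_num)
    have o2 := ho 1 (by norm_num) 2 (by norm_num) (by norm_num)
    have p0 : x 3 = x 0 := hp 0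
    have p1 : x 4 = x 1 := hp 1
    have s1 := slope_of_strong hF h o1
    rw [p0] at r2
    constructor <;> linarith
  · have o1 := ho 0 (by norm_num) 1 (by norm_num) (by norm_num)
    have o2 := ho 1 (by norm_num) 3 (by norm_num) (by norm_num)
    have o3 := ho 3 (by norm_num) 2 (by norm_num) (by norm_num)
    have p0 : x 4 = x 0 := hp 0
    have s1 := slope_of_strong hF h (o2.trans o3)
    have s2 := slope_of_strong hF h o3
    constructor <;> linarith
  · have o1 := ho 0 (by omega) 1 (by omega) (by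
      rw [if_pos rfl, if_neg (by omega), if_pos (by omega)]; omega)
    have o2 := ho 1 (by omega) 2 (by omega) (by
      rw [if_neg (by omega), if_pos (by omega), if_neg (by omega), if_pos (by omega)]; omega)
    have o3 := ho 2 (by omega) 3 (by omega) (by
      rw [if_neg (by omega), if_pos (by omega), if_neg (by omega)]; split_ifs <;> omega)
    have s1 := slope_of_strong hF h o2
    constructor <;> linarith

end Pool.Agent.H27.Heavy
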