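import Pool.Agent.H27.Elim2

/-! Constancy of the energy on the zero set of a holomorphic Fredholm map, and its application to
power nonlinearities on `L^∞`. -/

open Set Metric Filter Topology MeasureTheory
open scoped ENNReal

namespace Pool.Agent.H27.Iso

theorem banach_iso {X : Type} [NormedAddCommGroup X] [NormedSpace ℂ X] [CompleteSpace X]
    (Φ : X → X) (C : X →L[ℂ] X) (hC : IsCompactOperator C) (hΦ : ContDiffAt ℂ 1 Φ 0)
    (h0 : Φ 0 = 0) (hd : HasFDerivAt Φ (1 - C) 0)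
    (htr : ∀ x n : X, C n = n → n = x - C x → n = 0) (E : X → ℂ)
    (hE : ∀ᶠ g in 𝓝 (0:X), DifferentiableAt ℂ E g ∧
      (Φ g = 0 → ∀ v, fderiv ℂ Φ g v = 0 → fderiv ℂ E g v = 0)) :
    ∀ᶠ g in 𝓝 (0:X), Φ g = 0 → E g = E 0 := by
  set N : Submodule ℂ X := Module.End.eigenspace C.toLinearMap 1 with hN
  have hNm : ∀ x, x ∈ N ↔ C x = x := fun x => by
    rw [hN, Module.End.mem_eigenspace_iff, one_smul]; rfl
  haveI : FiniteDimensional ℂ N := by
    have hcl : IsClosed (N : Set X) := by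
      have : (N : Set X) = {x | C x = x} := Set.ext hNm
      rw [this]
      exact isClosed_eq C.continuous continuous_id
    have h1 : IsCompactOperator fun x : N => C (N.subtypeL x) := hC.comp_clm N.subtypeL
    have h2 := h1.codRestrict (V := N) (fun x => by
      show C x.1 ∈ N
      rw [(hNm _).1 x.2]; exact x.2) hcl
    refine FiniteDimensional.of_isCompactOperator_id (𝕜 := ℂ) ?_
    have e : (id : N → N) = codRestrict (fun x : N => C (N.subtypeL x)) (N : Set X) (fun x => by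
        show C x.1 ∈ N
        rw [(hNm _).1 x.2]; exact x.2) := funext fun x => Subtype.ext ((hNm _).1 x.2).symm
    rw [e]
    exact h2
  obtain ⟨π, hπ⟩ := Submodule.ClosedComplemented.of_finiteDimensional N
  set R : X →L[ℂ] X := N.subtypeL.comp π with hR
  have hRc : IsCompactOperator R := by
    haveI : ProperSpace N := FiniteDimensional.proper ℂ N
    exact (isCompactOperator_of_locallyCompactSpace_dom π).clm_comp N.subtypeL
  have hunit : IsUnit (1 - C + R) := by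
    have hc : IsCompactOperator (C - R) := hC.sub hRc
    rcases IsCompactOperator.hasEigenvalue_or_mem_resolventSet hc (μ := 1) one_ne_zero with h | h
    · exfalso
      obtain ⟨x, hx, hx0⟩ := h.exists_hasEigenvector
      rw [Module.End.mem_eigenspace_iff, one_smul] at hx
      have hx' : C x - (π x : X) = x := hx
      have h1 : (π x : X) = 0 := htr (-x) _ ((hNm _).1 (π x).2) (by
        rw [map_neg]
        linear_combination (norm := abel) -hx')
      rw [h1, sub_zero] at hx'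
      have h2 := congrArg Subtype.val (hπ ⟨x, (hNm x).2 hx'⟩)
      exact hx0 (h2.symm.trans h1)
    · rw [spectrum.mem_resolventSet_iff, map_one] at h
      convert h using 1
      abel
  obtain ⟨u, hu⟩ := hunit
  set L : X ≃L[ℂ] X := ContinuousLinearEquiv.ofUnit u with hL
  set Ψ : X → X := fun g => Φ g + R g with hΨ
  have hΨc : ContDiffAt ℂ 1 Ψ 0 := hΦ.add R.contDiff.contDiffAt
  have hΨd : HasFDerivAt Ψ (L : X →L[ℂ] X) 0 := by
    have : (L : X →L[ℂ] X) = 1 - C + R := hu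
    rw [this]
    exact hd.add R.hasFDerivAt
  have hΨ0 : Ψ 0 = 0 := by simp [hΨ, h0]
  set Γ := hΨc.localInverse hΨd one_ne_zero with hΓ
  have hΓc : ContDiffAt ℂ 1 Γ 0 := by
    have := hΨc.to_localInverse hΨd one_ne_zero
    rwa [hΨ0] at this
  have hΓ0 : Γ 0 = 0 := by
    have := hΨc.localInverse_apply_image hΨd one_ne_zero
    rwa [hΨ0] at this
  have hleft : ∀ᶠ g in 𝓝 (0:X), Γ (Ψ g) = g :=
    (hΨc.hasStrictFDerivAt' hΨd one_ne_zero).eventually_left_inverse
  have hright : ∀ᶠ w in 𝓝 (0:X), Ψ (Γ w) = w := by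
    have := (hΨc.hasStrictFDerivAt' hΨd one_ne_zero).eventually_right_inverse
    rwa [hΨ0] at this
  have hΓt : Tendsto Γ (𝓝 0) (𝓝 0) := by
    have := hΓc.continuousAt.tendsto
    rwa [hΓ0] at this
  have hgood : ∀ᶠ w in 𝓝 (0:X), DifferentiableAt ℂ Γ w ∧ Ψ (Γ w) = w ∧
      DifferentiableAt ℂ Φ (Γ w) ∧ DifferentiableAt ℂ E (Γ w) ∧
      (Φ (Γ w) = 0 → ∀ v, fderiv ℂ Φ (Γ w) v = 0 → fderiv ℂ E (Γ w) v = 0) := by
    filter_upwards [hΓc.eventually (by simp), hright, hΓt.eventually (hΦ.eventually (by simp)),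
      hΓt.eventually hE] with w h1 h2 h3 h4
    exact ⟨h1.differentiableAt one_ne_zero, h2, h3.differentiableAt one_ne_zero, h4⟩
  obtain ⟨V, hV, hVo, hV0⟩ := _root_.eventually_nhds_iff.1 hgood
  by_contra hcon
  rw [not_eventually] at hcon
  set W : Set (N × ℂ) := {p | (p.1 : X) ∈ V} with hW
  have hWo : IsOpen W := hVo.preimage (continuous_subtype_val.comp continuous_fst)
  have hΓd : DifferentiableOn ℂ (fun p : N × ℂ => Γ p.1) W := fun p hp =>
    (DifferentiableAt.comp (g := Γ) (f := fun p : N × ℂ => N.subtypeL p.1) p (hV _ hp).1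
      (by fun_prop)).differentiableWithinAt
  obtain ⟨T, hTo, ⟨t0, ht0⟩, s, hs, hs'⟩ := Elim.curve _ N rfl W hWo hV0
    (insert (fun p => E (Γ p.1) - E 0 - p.2)
      (range fun l : N →L[ℂ] ℂ => fun p => l (p.1 - π (Γ p.1)))) (by
      rintro _ (rfl | ⟨l, rfl⟩)
      · refine DifferentiableOn.sub (DifferentiableOn.sub_const ?_ _) differentiableOn_snd
        intro p hp
        exact DifferentiableAt.comp_differentiableWithinAt (g := E) p (hV _ hp).2.2.2.1 (hΓd p hp)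
      · exact l.differentiable.comp_differentiableOn
          (differentiableOn_fst.sub (π.differentiable.comp_differentiableOn hΓd))) (by
      intro U hU
      have hc : ContinuousAt (fun g : X => (π g, E g - E 0)) 0 :=
        π.continuous.continuousAt.prodMk
          (hE.self_of_nhds.1.continuousAt.sub continuousAt_const)
      have hU' : U ∈ 𝓝 ((fun g : X => (π g, E g - E 0)) 0) := by
        simp only [map_zero, sub_self]
        exact hU
      obtain ⟨g, h1, h2, h3⟩ := (hcon.and_eventually ((hc.eventually_mem hU').and hleft)).exists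
      push Not at h1
      have h4 : Γ (π g) = g := by
        have : Ψ g = π g := by simp [hΨ, h1.1, hR]
        rw [← this, h3]
      refine ⟨(π g, E g - E 0), h2, sub_ne_zero.2 h1.2, ?_⟩
      rintro _ (rfl | ⟨l, rfl⟩)
      · simp only [h4, sub_self]
      · simp only [h4, sub_self, map_zero])
  set γ : ℂ → X := fun t => Γ (s t) with hγ
  have hγd : DifferentiableAt ℂ γ t0 :=
    DifferentiableAt.comp (g := Γ) (f := fun t => N.subtypeL (s t)) t0 (hV _ (hs' t0 ht0).1).1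
      (N.subtypeL.differentiableAt.comp t0 (hs.differentiableAt (hTo.mem_nhds ht0)))
  have hΦγ : ∀ t ∈ T, Φ (γ t) = 0 := by
    intro t ht
    have h1 : s t - π (γ t) = 0 := by
      by_contra h
      obtain ⟨l, hl⟩ := SeparatingDual.exists_ne_zero (R := ℂ) h
      exact hl ((hs' t ht).2 _ (Or.inr ⟨l, rfl⟩))
    have h2 := (hV _ (hs' t ht).1).2.1
    have h3 : R (γ t) = s t := by rw [sub_eq_zero.1 h1]; rfl
    have h4 : Φ (γ t) + R (γ t) = s t := h2
    rw [h3] at h4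
    exact add_eq_right.1 h4
  have hEγ : ∀ t ∈ T, E (γ t) = E 0 + t := by
    intro t ht
    have := (hs' t ht).2 _ (Or.inl rfl)
    simp only at this
    linear_combination this
  obtain ⟨-, -, d1, d2, d3⟩ := hV _ (hs' t0 ht0).1
  have e1 : HasDerivAt (Φ ∘ γ) 0 t0 := (hasDerivAt_const t0 (0:X)).congr_of_eventuallyEq (by
    filter_upwards [hTo.mem_nhds ht0] with t ht using hΦγ t ht)
  have e2 : HasDerivAt (E ∘ γ) 1 t0 := ((hasDerivAt_id t0).const_add (E 0)).congr_of_eventuallyEq (by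
    filter_upwards [hTo.mem_nhds ht0] with t ht using hEγ t ht)
  have e3 := (d1.hasFDerivAt.comp_hasDerivAt t0 hγd.hasDerivAt).unique e1
  have e4 := (d2.hasFDerivAt.comp_hasDerivAt t0 hγd.hasDerivAt).unique e2
  rw [d3 (hΦγ t0 ht0) _ e3] at e4
  exact zero_ne_one e4

variable {Z : Type} [MeasurableSpace Z] {ν : Measure Z}

lemma ae_le_norm {F : Type*} [NormedAddCommGroup F] (g : Lp F ∞ ν) : ∀ᵐ z ∂ν, ‖g z‖ ≤ ‖g‖ := by
  filter_upwards [ae_le_eLpNormEssSup (f := g) (μ := ν)] with z hz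
  rw [Lp.norm_def, eLpNorm_exponent_top, ← toReal_enorm]
  refine ENNReal.toReal_mono ?_ hz
  rw [← eLpNorm_exponent_top]
  exact Lp.eLpNorm_ne_top g

lemma norm_le_of_ae {F : Type*} [NormedAddCommGroup F] (g : Lp F ∞ ν) {C : ℝ} (hC : 0 ≤ C)
    (h : ∀ᵐ z ∂ν, ‖g z‖ ≤ C) : ‖g‖ ≤ C := by
  rw [Lp.norm_def, eLpNorm_exponent_top]
  exact ENNReal.toReal_le_of_le_ofReal hC (eLpNormEssSup_le_of_ae_bound h)

lemma taylor {φ : ℂ → ℂ} (hφ : DifferentiableOn ℂ φ (ball 0 1)) : ∃ C, 0 ≤ C ∧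
    ∀ a ∈ closedBall (0:ℂ) (1 / 2), ‖φ a‖ ≤ C ∧ ∀ b ∈ closedBall (0:ℂ) (1 / 2),
      ‖φ b - φ a‖ ≤ C * ‖b - a‖ ∧ ‖φ b - φ a - deriv φ a * (b - a)‖ ≤ C * ‖b - a‖ * ‖b - a‖ := by
  have hsub : closedBall (0:ℂ) (1 / 2) ⊆ ball 0 1 := closedBall_subset_ball (by norm_num)
  have hK := isCompact_closedBall (0:ℂ) (1 / 2)
  have a0 := (hφ.analyticOnNhd isOpen_ball).mono hsub
  obtain ⟨C0, h0⟩ := hK.exists_bound_of_continuousOn a0.continuousOn
  obtain ⟨C1, h1⟩ := hK.exists_bound_of_continuousOn a0.deriv.continuousOn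
  obtain ⟨C2, h2⟩ := hK.exists_bound_of_continuousOn a0.deriv.deriv.continuousOn
  have z0 : (0:ℂ) ∈ closedBall (0:ℂ) (1 / 2) := mem_closedBall_self (by norm_num)
  have p0 := (norm_nonneg _).trans (h0 0 z0)
  have p1 := (norm_nonneg _).trans (h1 0 z0)
  have p2 := (norm_nonneg _).trans (h2 0 z0)
  refine ⟨C0 + C1 + C2, by positivity, fun a ha => ⟨by linarith [h0 a ha], fun b hb => ⟨?_, ?_⟩⟩⟩
  · refine ((convex_closedBall _ _).norm_image_sub_le_of_norm_deriv_le
      (fun z hz => (a0 z hz).differentiableAt) h1 ha hb).trans ?_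
    gcongr
    linarith
  · have hs : Convex ℝ (closedBall (0:ℂ) (1 / 2) ∩ closedBall a ‖b - a‖) :=
      (convex_closedBall _ _).inter (convex_closedBall _ _)
    have := hs.norm_image_sub_le_of_norm_hasDerivWithin_le (f := fun z => φ z - deriv φ a * z)
      (f' := fun z => deriv φ z - deriv φ a) (C := C2 * ‖b - a‖) (fun z hz =>
        (((a0 z hz.1).differentiableAt.hasDerivAt.sub
          ((hasDerivAt_id z).const_mul (deriv φ a))).congr_deriv (by simp)).hasDerivWithinAt)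
      (fun z hz => ((convex_closedBall _ _).norm_image_sub_le_of_norm_deriv_le
        (fun z hz => (a0.deriv z hz).differentiableAt) h2 ha hz.1).trans
          (mul_le_mul_of_nonneg_left (mem_closedBall_iff_norm.1 hz.2) p2))
      ⟨ha, mem_closedBall_self (norm_nonneg _)⟩ ⟨hb, mem_closedBall_iff_norm.2 le_rfl⟩
    have e : φ b - deriv φ a * b - (φ a - deriv φ a * a) = φ b - φ a - deriv φ a * (b - a) := by ring
    rw [e] at this
    refine this.trans ?_
    gcongr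
    linarith

open Classical in
/-- The superposition operator on `L^∞`. -/
noncomputable def Nem (φ : ℂ → ℂ) (g : Lp ℂ ∞ ν) : Lp ℂ ∞ ν :=
  if h : MemLp (fun z => φ (g z)) ∞ ν then h.toLp _ else 0

/-- Pointwise multiplication on `L^∞`. -/
noncomputable def mulL (ν : Measure Z) : Lp ℂ ∞ ν →L[ℂ] Lp ℂ ∞ ν →L[ℂ] Lp ℂ ∞ ν :=
  (ContinuousLinearMap.mul ℂ ℂ).holderL ν ∞ ∞ ∞

lemma mulL_coe (f g : Lp ℂ ∞ ν) : mulL ν f g =ᵐ[ν] fun z => f z * g z :=
  (ContinuousLinearMap.mul ℂ ℂ).coeFn_holder f g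

lemma ae_half {g : Lp ℂ ∞ ν} (hg : ‖g‖ < 1 / 2) : ∀ᵐ z ∂ν, g z ∈ closedBall (0:ℂ) (1 / 2) := by
  filter_upwards [ae_le_norm g] with z hz
  exact mem_closedBall_zero_iff.2 (hz.trans hg.le)

lemma Nem_coe {φ : ℂ → ℂ} (hm : Measurable φ) (hφ : DifferentiableOn ℂ φ (ball 0 1))
    {g : Lp ℂ ∞ ν} (hg : ‖g‖ < 1 / 2) : Nem φ g =ᵐ[ν] fun z => φ (g z) := by
  obtain ⟨C, -, hC⟩ := taylor hφ
  have h : MemLp (fun z => φ (g z)) ∞ ν :=
    memLp_top_of_bound (hm.comp_aemeasurable (Lp.aestronglyMeasurable g).aemeasurable).aestronglyMeasurable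
      C ((ae_half hg).mono fun z hz => (hC _ hz).1)
  rw [Nem, dif_pos h]
  exact h.coeFn_toLp

lemma Nem_cont {φ : ℂ → ℂ} (hm : Measurable φ) (hφ : DifferentiableOn ℂ φ (ball 0 1)) :
    ContinuousOn (Nem (ν := ν) φ) (ball 0 (1 / 2)) := by
  obtain ⟨C, hC0, hC⟩ := taylor hφ
  refine (LipschitzOnWith.of_dist_le_mul (K := ⟨C, hC0⟩) fun a ha b hb => ?_).continuousOn
  rw [mem_ball_zero_iff] at ha hb
  rw [dist_eq_norm, dist_eq_norm]
  refine norm_le_of_ae _ (mul_nonneg hC0 (norm_nonneg _)) ?_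
  filter_upwards [Lp.coeFn_sub (Nem φ a) (Nem φ b), Nem_coe hm hφ ha, Nem_coe hm hφ hb,
    ae_half ha, ae_half hb, ae_le_norm (a - b), Lp.coeFn_sub a b] with z h1 h2 h3 h4 h5 h6 h7
  rw [h1, Pi.sub_apply, h2, h3]
  rw [h7, Pi.sub_apply] at h6
  exact ((hC _ h5).2 _ h4).1.trans (mul_le_mul_of_nonneg_left h6 hC0)

lemma Nem_deriv {φ : ℂ → ℂ} (hm : Measurable φ) (hφ : DifferentiableOn ℂ φ (ball 0 1))
    {g : Lp ℂ ∞ ν} (hg : ‖g‖ < 1 / 2) :
    HasFDerivAt (Nem φ) (mulL ν (Nem (deriv φ) g)) g := by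
  obtain ⟨C, hC0, hC⟩ := taylor hφ
  rw [hasFDerivAt_iff_isLittleO, Asymptotics.isLittleO_iff]
  intro ε hε
  have h1 : ∀ᶠ b in 𝓝 g, ‖b‖ < 1 / 2 := continuous_norm.continuousAt.eventually_lt
    continuousAt_const hg
  have h2 : ∀ᶠ b in 𝓝 g, C * ‖b - g‖ < ε := by
    have : Continuous fun b : Lp ℂ ∞ ν => C * ‖b - g‖ := by fun_prop
    exact this.continuousAt.eventually_lt continuousAt_const (by simpa using hε)
  filter_upwards [h1, h2] with b hb hb2
  refine norm_le_of_ae _ (by positivity) ?_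
  filter_upwards [Lp.coeFn_sub (Nem φ b - Nem φ g) (mulL ν (Nem (deriv φ) g) (b - g)),
    Lp.coeFn_sub (Nem φ b) (Nem φ g), Nem_coe hm hφ hb, Nem_coe hm hφ hg,
    Nem_coe (measurable_deriv φ) (hφ.deriv isOpen_ball) hg, mulL_coe (Nem (deriv φ) g) (b - g),
    ae_half hg, ae_half hb, ae_le_norm (b - g), Lp.coeFn_sub b g]
    with z e1 e2 e3 e4 e5 e6 e7 e8 e9 e10
  rw [e1, Pi.sub_apply, e2, Pi.sub_apply, e3, e4, e6, e5, e10, Pi.sub_apply]
  rw [e10, Pi.sub_apply] at e9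
  refine ((hC _ e7).2 _ e8).2.trans ?_
  exact mul_le_mul ((mul_le_mul_of_nonneg_left e9 hC0).trans hb2.le) e9 (norm_nonneg _) hε.le

lemma Nem_contDiff {φ : ℂ → ℂ} (hm : Measurable φ) (hφ : DifferentiableOn ℂ φ (ball 0 1)) :
    ContDiffAt ℂ 1 (Nem (ν := ν) φ) 0 :=
  contDiffAt_one_iff.2 ⟨fun g => mulL ν (Nem (deriv φ) g), ball 0 (1 / 2),
    ball_mem_nhds 0 (by norm_num), (mulL ν).continuous.comp_continuousOn
      (Nem_cont (measurable_deriv φ) (hφ.deriv isOpen_ball)),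
    fun _ hg => Nem_deriv hm hφ (mem_ball_zero_iff.1 hg)⟩

end Pool.Agent.H27.Iso
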