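import Pool.Agent.H27.Iso3

/-! Sobolev, Poincaré and Rellich type estimates for compactly supported `C¹` functions. -/

open Set Filter Topology MeasureTheory Metric
open scoped ENNReal NNReal

namespace Pool.Agent.H27.Iso

section generic
variable {Z : Type} [MeasurableSpace Z] {μ : Measure Z} {F : Type*} [NormedAddCommGroup F]

lemma int_le_of_eLp {f : Z → F} {s T : ℝ} (hf : AEStronglyMeasurable f μ) (hs : 0 < s)
    (hT : 0 ≤ T) (h : eLpNorm f (ENNReal.ofReal s) μ ≤ ENNReal.ofReal T) :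
    Integrable (fun z => ‖f z‖ ^ s) μ ∧ ∫ z, ‖f z‖ ^ s ∂μ ≤ T ^ s := by
  have hm : MemLp f (ENNReal.ofReal s) μ := ⟨hf, h.trans_lt ENNReal.ofReal_lt_top⟩
  have p0 : ENNReal.ofReal s ≠ 0 := by simpa using hs
  have hi := hm.integrable_norm_rpow p0 ENNReal.ofReal_ne_top
  rw [hm.eLpNorm_eq_integral_rpow_norm p0 ENNReal.ofReal_ne_top,
    ENNReal.ofReal_le_ofReal_iff hT] at h
  rw [ENNReal.toReal_ofReal hs.le] at hi h
  refine ⟨hi, ?_⟩
  have i0 : 0 ≤ ∫ z, ‖f z‖ ^ s ∂μ := integral_nonneg fun z => by positivity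
  have := Real.rpow_le_rpow (by positivity) h hs.le
  rwa [← Real.rpow_mul i0, inv_mul_cancel₀ hs.ne', Real.rpow_one] at this

lemma eLp_eq {f : Z → F} {s : ℝ} (hf : AEStronglyMeasurable f μ) (hs : 0 < s)
    (hi : Integrable (fun z => ‖f z‖ ^ s) μ) :
    eLpNorm f (ENNReal.ofReal s) μ = ENNReal.ofReal ((∫ z, ‖f z‖ ^ s ∂μ) ^ s⁻¹) := by
  have p0 : ENNReal.ofReal s ≠ 0 := by simpa using hs
  have hm : MemLp f (ENNReal.ofReal s) μ := by
    rw [← integrable_norm_rpow_iff hf p0 ENNReal.ofReal_ne_top, ENNReal.toReal_ofReal hs.le]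
    exact hi
  rw [hm.eLpNorm_eq_integral_rpow_norm p0 ENNReal.ofReal_ne_top, ENNReal.toReal_ofReal hs.le]

lemma eLp_le_of_int {f : Z → F} {s T : ℝ} (hf : AEStronglyMeasurable f μ) (hs : 0 < s)
    (hT : 0 ≤ T) (hi : Integrable (fun z => ‖f z‖ ^ s) μ) (h : ∫ z, ‖f z‖ ^ s ∂μ ≤ T ^ s) :
    eLpNorm f (ENNReal.ofReal s) μ ≤ ENNReal.ofReal T := by
  rw [eLp_eq hf hs hi]
  refine ENNReal.ofReal_le_ofReal ?_
  have := Real.rpow_le_rpow (integral_nonneg fun z => by positivity) h (inv_pos.2 hs).le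
  rwa [← Real.rpow_mul hT, mul_inv_cancel₀ hs.ne', Real.rpow_one] at this

lemma sq_int_le [IsFiniteMeasure μ] {g : Z → ℝ} (hm : AEStronglyMeasurable g μ)
    (hi : Integrable (fun z => g z ^ 2) μ) : (∫ z, g z ∂μ) ^ 2 ≤ μ.real univ * ∫ z, g z ^ 2 ∂μ := by
  have e : ∀ z, |g z| ^ (2:ℝ) = g z ^ 2 := fun z => by rw [Real.rpow_two, sq_abs]
  obtain ⟨-, h⟩ := holder (μ := μ) (f := fun z => |g z|) (g := fun _ => 1)
    Real.HolderConjugate.two_two hm.norm aestronglyMeasurable_const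
    (ae_of_all _ fun z => abs_nonneg _) (ae_of_all _ fun z => zero_le_one)
    (by simpa only [e] using hi) (integrable_const _)
  simp only [e, mul_one, Real.one_rpow, integral_const, smul_eq_mul] at h
  have i0 : 0 ≤ ∫ z, g z ^ 2 ∂μ := integral_nonneg fun z => sq_nonneg _
  have h2 : |∫ z, g z ∂μ| ≤ ∫ z, |g z| ∂μ := abs_integral_le_integral_abs
  rw [← Real.mul_rpow i0 measureReal_nonneg, ← Real.sqrt_eq_rpow] at h
  rw [← sq_abs, mul_comm]
  exact (pow_le_pow_left₀ (abs_nonneg _) (h2.trans h) 2).trans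
    (Real.sq_sqrt (mul_nonneg i0 measureReal_nonneg)).le

end generic

/-- Euclidean space. -/
abbrev E (N : ℕ) := EuclideanSpace ℝ (Fin N)

variable {N : ℕ}

/-- Dirichlet energy. -/
noncomputable def En (φ : E N → ℝ) : ℝ := ∫ x, ‖fderiv ℝ φ x‖ ^ 2

lemma En_nonneg (φ : E N → ℝ) : 0 ≤ En φ := integral_nonneg fun _ => sq_nonneg _

/-- Compactly supported `C¹` functions. -/
structure C1 (φ : E N → ℝ) : Prop where
  cd : ContDiff ℝ 1 φ
  cs : HasCompactSupport φ

lemma C1.cont {φ : E N → ℝ} (h : C1 φ) : Continuous φ := h.cd.continuous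

lemma C1.contD {φ : E N → ℝ} (h : C1 φ) : Continuous (fderiv ℝ φ) :=
  h.cd.continuous_fderiv one_ne_zero

lemma C1.diff {φ : E N → ℝ} (h : C1 φ) : Differentiable ℝ φ := h.cd.differentiable one_ne_zero

lemma int_of_cs {F : Type*} [NormedAddCommGroup F] {f : E N → F} (hf : Continuous f)
    (hc : HasCompactSupport f) (g : F → ℝ) (hg : Continuous g) (g0 : g 0 = 0) :
    Integrable fun x => g (f x) :=
  (hg.comp hf).integrable_of_hasCompactSupport (hc.comp_left g0)

lemma C1.intD {φ : E N → ℝ} (h : C1 φ) : Integrable fun x => ‖fderiv ℝ φ x‖ ^ 2 :=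
  int_of_cs h.contD (h.cs.fderiv ℝ) (fun t => ‖t‖ ^ 2) (by fun_prop) (by simp)

lemma C1.int2 {φ : E N → ℝ} (h : C1 φ) : Integrable fun x => φ x ^ 2 :=
  int_of_cs h.cont h.cs (fun t => t ^ 2) (by fun_prop) (by simp)

lemma C1.intp {φ : E N → ℝ} (h : C1 φ) {s : ℝ} (hs : 0 < s) : Integrable fun x => |φ x| ^ s :=
  int_of_cs h.cont h.cs (fun t => |t| ^ s) (continuous_abs.rpow_const fun _ => Or.inr hs.le)
    (by simp [hs.ne'])

lemma gns_bdd (hN : 2 ≤ N) {s : ℝ} (hs : 2 ≤ s) (hsN : ((N:ℝ) - 2) * s < 2 * N) {S : Set (E N)}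
    (hS : Bornology.IsBounded S) : ∃ C, 0 < C ∧ ∀ φ : E N → ℝ, C1 φ → Function.support φ ⊆ S →
      ∀ T, 0 ≤ T → En φ ≤ T ^ 2 → ∫ x, |φ x| ^ s ≤ (C * T) ^ s := by
  have N0 : (2:ℝ) ≤ N := by exact_mod_cast hN
  have s0 : 0 < s := by linarith
  set a := min 1 ((N:ℝ)⁻¹ + s⁻¹) with ha
  have a1 : 1 / 2 < a := by
    refine lt_min (by norm_num) ?_
    rw [inv_add_inv (by linarith) s0.ne', div_lt_div_iff₀ (by norm_num) (by positivity)]
    linarith
  have a2 : a ≤ 1 := min_le_left _ _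
  have a0 : 0 < a := by linarith
  set p : ℝ≥0 := ⟨a⁻¹, by positivity⟩ with hp
  have pc : (p:ℝ) = a⁻¹ := rfl
  have p1 : 1 ≤ p := by
    rw [← NNReal.coe_le_coe, pc, NNReal.coe_one]; exact (one_le_inv₀ a0).2 a2
  have p2 : (p:ℝ) < 2 := by rw [pc, inv_lt_comm₀ a0 (by norm_num)]; linarith
  have fin : volume (closure S) ≠ ∞ := hS.closure.measure_lt_top.ne
  set K := (eLpNormLESNormFDerivOfLeConst ℝ (volume : Measure (E N)) S p s.toNNReal : ℝ) *
    (volume (closure S) ^ (1 / (p:ℝ≥0∞).toReal - 1 / (ENNReal.ofReal 2).toReal)).toReal with hK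
  have K0 : 0 ≤ K := by positivity
  refine ⟨K + 1, by positivity, fun φ hφ hs' T T0 hT => ?_⟩
  have b1 := eLpNorm_le_eLpNorm_fderiv_of_le (volume : Measure (E N)) (F := ℝ) hφ.cd hs'
    (p := p) (q := s.toNNReal) p1 (by
      rw [← NNReal.coe_lt_coe]; simp; linarith) (by
      simp only [finrank_euclideanSpace, Fintype.card_fin, NNReal.coe_inv, pc, inv_inv,
        Real.coe_toNNReal s s0.le]
      linarith [min_le_right 1 ((N:ℝ)⁻¹ + s⁻¹)]) hS
  have sup : Function.support (fun x => ‖fderiv ℝ φ x‖) ⊆ closure S := fun x hx =>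
    (support_fderiv_subset ℝ).trans (closure_mono hs') (norm_ne_zero_iff.1 hx)
  have b2 := eLpNorm_le_eLpNorm_mul_rpow_measure_univ (μ := volume.restrict (closure S))
    (f := fun x => ‖fderiv ℝ φ x‖) (p := p) (q := ENNReal.ofReal 2) (by
      rw [← ENNReal.ofReal_coe_nnreal]; exact ENNReal.ofReal_le_ofReal p2.le)
    hφ.contD.norm.aestronglyMeasurable
  rw [eLpNorm_restrict_eq_of_support_subset sup, eLpNorm_restrict_eq_of_support_subset sup,
    Measure.restrict_apply_univ, eLpNorm_norm, eLpNorm_norm] at b2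
  have b3 := eLp_le_of_int (μ := volume) hφ.contD.aestronglyMeasurable two_pos T0
    (by simpa using hφ.intD) (by simpa [En] using hT)
  have e0 : 0 ≤ 1 / (p:ℝ≥0∞).toReal - 1 / (ENNReal.ofReal 2).toReal := by
    simp only [ENNReal.coe_toReal, pc, one_div, inv_inv, ENNReal.toReal_ofReal zero_le_two]
    linarith
  have b4 : eLpNorm φ (ENNReal.ofReal s) volume ≤ ENNReal.ofReal ((K + 1) * T) := by
    refine b1.trans ((mul_le_mul_right (b2.trans (mul_le_mul_left b3 _)) _).trans ?_)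
    rw [← ENNReal.ofReal_toReal (ENNReal.rpow_ne_top_of_nonneg e0 fin),
      ← ENNReal.ofReal_coe_nnreal, ← ENNReal.ofReal_mul T0, ← ENNReal.ofReal_mul (by positivity)]
    refine ENNReal.ofReal_le_ofReal ?_
    rw [mul_comm T, ← mul_assoc, ← hK]; nlinarith
  simpa using (int_le_of_eLp hφ.cont.aestronglyMeasurable s0 (by positivity) b4).2

lemma ball_real (x : E N) {r : ℝ} (hr : 0 < r) :
    volume.real (ball x r) = r ^ N * volume.real (ball (0 : E N) 1) := by
  rw [measureReal_def, Measure.addHaar_ball_of_pos _ _ hr, ENNReal.toReal_mul,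
    ENNReal.toReal_ofReal (by positivity), finrank_euclideanSpace, Fintype.card_fin,
    measureReal_def]

lemma ball1_pos : 0 < volume.real (ball (0 : E N) 1) :=
  ENNReal.toReal_pos (measure_ball_pos _ _ one_pos).ne' measure_ball_lt_top.ne

lemma ball_fub {a : E N → ℝ} (ha : Integrable a) (ρ : ℝ) :
    Integrable (fun y => ∫ x in ball y ρ, a x) ∧
      ∫ y, ∫ x in ball y ρ, a x = (∫ x, a x) * volume.real (ball (0 : E N) ρ) := by
  have hi : Integrable ((ball (0 : E N) ρ).indicator fun _ => (1:ℝ)) :=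
    (integrable_indicator_iff measurableSet_ball).2 (integrableOn_const measure_ball_lt_top.ne)
  have e : convolution a ((ball (0 : E N) ρ).indicator fun _ => (1:ℝ))
      (ContinuousLinearMap.mul ℝ ℝ) volume = fun y => ∫ x in ball y ρ, a x := by
    funext y
    rw [convolution_def, ← integral_indicator measurableSet_ball]
    congr 1; funext t
    by_cases h : t ∈ ball y ρ
    · have : y - t ∈ ball (0 : E N) ρ := by
        rwa [mem_ball_zero_iff, ← dist_eq_norm, dist_comm]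
      simp [h, this]
    · have : y - t ∉ ball (0 : E N) ρ := by
        rwa [mem_ball_zero_iff, ← dist_eq_norm, dist_comm]
      simp [h, this]
  rw [← e]
  refine ⟨ha.integrable_convolution _ hi, ?_⟩
  rw [integral_convolution _ ha hi, integral_indicator measurableSet_ball]
  simp

lemma avg {a b : E N → ℝ} (ha : Integrable a) (hb : Integrable b) {R K : ℝ} (hR : 0 < R)
    (h : ∀ y, ∫ x in ball y R, a x ≤ K * ∫ x in ball y (2 * R), b x) :
    ∫ x, a x ≤ 2 ^ N * K * ∫ x, b x := by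
  have := integral_mono (ball_fub ha R).1 ((ball_fub hb (2 * R)).1.const_mul K) h
  rw [integral_const_mul, (ball_fub ha R).2, (ball_fub hb _).2, ball_real _ hR,
    ball_real _ (by positivity : 0 < 2 * R), mul_pow] at this
  have p : 0 < R ^ N * volume.real (ball (0 : E N) 1) := mul_pos (by positivity) ball1_pos
  refine le_of_mul_le_mul_right (this.trans (le_of_eq ?_)) p
  ring

lemma cutoff : ∃ L, 0 ≤ L ∧ ∀ (y : E N) (R : ℝ), 0 < R → ∃ η : E N → ℝ, ContDiff ℝ (⊤ : ℕ∞) η ∧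
    (∀ x, 0 ≤ η x ∧ η x ≤ 1) ∧ (∀ x ∈ ball y R, η x = 1) ∧ tsupport η ⊆ ball y (2 * R) ∧
    ∀ x, ‖fderiv ℝ η x‖ ≤ L / R := by
  let b : ContDiffBump (0 : E N) := ⟨1, 3 / 2, one_pos, by norm_num⟩
  obtain ⟨L, hL⟩ := ((b.contDiff (n := 1)).continuous_fderiv one_ne_zero
    ).bounded_above_of_compact_support (b.hasCompactSupport.fderiv ℝ)
  refine ⟨L, (norm_nonneg _).trans (hL 0), fun y R hR => ⟨fun x => b (R⁻¹ • (x - y)),
    b.contDiff.comp (by fun_prop), fun x => ⟨b.nonneg, b.le_one⟩, fun x hx => ?_, ?_, fun x => ?_⟩⟩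
  · refine b.one_of_mem_closedBall ?_
    rw [mem_closedBall_zero_iff, norm_smul, norm_inv, Real.norm_of_nonneg hR.le,
      inv_mul_le_iff₀ hR, ← dist_eq_norm]
    simpa [b] using (mem_ball.1 hx).le
  · refine (closure_minimal (t := closedBall y (3 / 2 * R)) (fun x hx => ?_)
      isClosed_closedBall).trans (closedBall_subset_ball (by linarith))
    have : R⁻¹ • (x - y) ∈ Function.support b := hx
    rw [b.support_eq, mem_ball_zero_iff, norm_smul, norm_inv, Real.norm_of_nonneg hR.le,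
      inv_mul_lt_iff₀ hR, ← dist_eq_norm] at this
    simp only [b] at this
    rw [mem_closedBall]; linarith
  · have h1 : HasFDerivAt (fun x : E N => R⁻¹ • (x - y)) (R⁻¹ • ContinuousLinearMap.id ℝ (E N)) x :=
      ((hasFDerivAt_id x).sub_const y).const_smul R⁻¹
    have h2 := (((b.contDiff (n := 1)).differentiable one_ne_zero) _).hasFDerivAt.comp x h1
    rw [show (fun x => b (R⁻¹ • (x - y))) = b ∘ fun x : E N => R⁻¹ • (x - y) from rfl, h2.fderiv]
    refine (ContinuousLinearMap.opNorm_comp_le _ _).trans ?_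
    rw [norm_smul, norm_inv, Real.norm_of_nonneg hR.le, div_eq_mul_inv]
    refine mul_le_mul (hL _) ?_ (by positivity) ((norm_nonneg _).trans (hL 0))
    exact mul_le_of_le_one_right (by positivity) ContinuousLinearMap.norm_id_le

lemma norm_fderiv_mul {η φ : E N → ℝ} {x : E N} (h1 : DifferentiableAt ℝ η x)
    (h2 : DifferentiableAt ℝ φ x) : ‖fderiv ℝ (fun x => η x * φ x) x‖ ≤
      |η x| * ‖fderiv ℝ φ x‖ + |φ x| * ‖fderiv ℝ η x‖ := by
  rw [show (fun x => η x * φ x) = η * φ from rfl, fderiv_mul h1 h2]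
  refine (norm_add_le _ _).trans ?_
  rw [norm_smul, norm_smul, Real.norm_eq_abs, Real.norm_eq_abs]

lemma C1.mul {η φ : E N → ℝ} (hφ : C1 φ) (hη : ContDiff ℝ (⊤ : ℕ∞) η) : C1 fun x => η x * φ x :=
  ⟨(hη.of_le (by exact_mod_cast le_top)).mul hφ.cd, hφ.cs.mul_left⟩

lemma En_cut {η φ : E N → ℝ} (hφ : C1 φ) (hη : ContDiff ℝ (⊤ : ℕ∞) η) {B : Set (E N)}
    (hB : MeasurableSet B) {l : ℝ} (h1 : ∀ x, 0 ≤ η x ∧ η x ≤ 1) (h2 : tsupport η ⊆ B)
    (h3 : ∀ x, ‖fderiv ℝ η x‖ ≤ l) :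
    En (fun x => η x * φ x) ≤ 2 * ∫ x in B, ‖fderiv ℝ φ x‖ ^ 2 + l ^ 2 * φ x ^ 2 := by
  have gi := hφ.intD.add (hφ.int2.const_mul (l ^ 2))
  rw [← integral_indicator hB, ← integral_const_mul]
  refine integral_mono (hφ.mul hη).intD ((gi.indicator hB).const_mul 2) fun x => ?_
  by_cases hx : x ∈ B
  · have a1 := norm_fderiv_mul (hη.differentiable (by simp) x) (hφ.diff x)
    have a2 : |η x| * ‖fderiv ℝ φ x‖ ≤ ‖fderiv ℝ φ x‖ :=
      mul_le_of_le_one_left (norm_nonneg _) (by rw [abs_of_nonneg (h1 x).1]; exact (h1 x).2)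
    have a3 := mul_le_mul_of_nonneg_left (h3 x) (abs_nonneg (φ x))
    have a4 := pow_le_pow_left₀ (norm_nonneg _) (a1.trans (add_le_add a2 a3)) 2
    simp only [indicator_of_mem hx]
    rw [← sq_abs (φ x)]
    nlinarith [sq_nonneg (‖fderiv ℝ φ x‖ - |φ x| * l)]
  · have : fderiv ℝ (fun x => η x * φ x) x = 0 := by
      by_contra hne
      exact hx (h2 (tsupport_mul_subset_left (support_fderiv_subset ℝ hne)))
    simp [hx, this]

lemma cut_low {η φ : E N → ℝ} (hφ : C1 φ) (hη : ContDiff ℝ (⊤ : ℕ∞) η) {B : Set (E N)}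
    (hB : MeasurableSet B) (h1 : ∀ x ∈ B, η x = 1) {s : ℝ} (hs : 0 < s) :
    ∫ x in B, |φ x| ^ s ≤ ∫ x, |η x * φ x| ^ s := by
  rw [setIntegral_congr_fun (g := fun x => |η x * φ x| ^ s) hB fun x hx => by simp [h1 x hx]]
  exact setIntegral_le_integral ((hφ.mul hη).intp hs) (ae_of_all _ fun x => by positivity)

lemma sob (hN : 2 ≤ N) {s : ℝ} (hs : 2 ≤ s) (hsN : ((N:ℝ) - 2) * s < 2 * N) :
    ∃ C, 0 < C ∧ ∀ φ : E N → ℝ, C1 φ → ∀ T, 0 ≤ T → En φ + ∫ x, φ x ^ 2 ≤ T ^ 2 →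
      ∫ x, |φ x| ^ s ≤ (C * T) ^ s := by
  obtain ⟨C, C0, hC⟩ := gns_bdd hN hs hsN (isBounded_ball (x := (0 : E N)) (r := 2 * 1))
  obtain ⟨L, L0, hL⟩ := cutoff (N := N)
  have s0 : 0 < s := by linarith
  set M := 2 * (1 + L ^ 2) with hM
  have M0 : 0 < M := by positivity
  refine ⟨2 ^ N * (C * √M), by positivity, fun φ hφ T T0 hT => ?_⟩
  have gi := hφ.intD.add (hφ.int2.const_mul ((L / 1) ^ 2))
  have g0 : ∀ x, 0 ≤ ‖fderiv ℝ φ x‖ ^ 2 + (L / 1) ^ 2 * φ x ^ 2 := fun x => by positivity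
  have gT : 2 * ∫ x, ‖fderiv ℝ φ x‖ ^ 2 + (L / 1) ^ 2 * φ x ^ 2 ≤ M * T ^ 2 := by
    rw [integral_add hφ.intD (hφ.int2.const_mul _), integral_const_mul, div_one, hM]
    have a1 := En_nonneg φ
    have a2 : 0 ≤ ∫ x, φ x ^ 2 := integral_nonneg fun _ => sq_nonneg _
    unfold En at a1 hT
    nlinarith [sq_nonneg L, mul_nonneg (sq_nonneg L) a1]
  have := avg (hφ.intp s0) gi one_pos (K := C ^ s * (M * T ^ 2) ^ (s / 2 - 1) * 2) fun y => by
    obtain ⟨η, h1, h2, h3, h4, h5⟩ := hL y 1 one_pos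
    have a1 := En_cut hφ h1 measurableSet_ball h2 h4 h5
    have a2 := setIntegral_le_integral (s := ball y (2 * 1)) gi (ae_of_all _ g0)
    simp only [Pi.add_apply] at a2 ⊢
    set G := ∫ x in ball y (2 * 1), ‖fderiv ℝ φ x‖ ^ 2 + (L / 1) ^ 2 * φ x ^ 2
    have G0 : 0 ≤ G := integral_nonneg g0
    have c := hφ.mul h1
    have a3 := hC (fun x => η (x + y) * φ (x + y))
      ⟨c.cd.comp (contDiff_id.add contDiff_const), c.cs.comp_homeomorph (Homeomorph.addRight y)⟩
      (fun x hx => by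
        have : x + y ∈ ball y (2 * 1) := h4 (subset_tsupport _ (left_ne_zero_of_mul hx))
        simpa using this) (√(2 * G)) (Real.sqrt_nonneg _) (by
        rw [Real.sq_sqrt (by positivity)]
        refine le_trans (le_of_eq ?_) a1
        unfold En
        rw [← integral_add_right_eq_self (fun x => ‖fderiv ℝ (fun x => η x * φ x) x‖ ^ 2) y]
        simp only [← fderiv_comp_add_right])
    rw [integral_add_right_eq_self (fun x => |η x * φ x| ^ s) y, Real.mul_rpow C0.le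
      (Real.sqrt_nonneg _), Real.sqrt_eq_rpow, ← Real.rpow_mul (by positivity)] at a3
    refine (cut_low hφ h1 measurableSet_ball h3 s0).trans (a3.trans ?_)
    have e : (2 * G) ^ (1 / 2 * s) = (2 * G) ^ (s / 2 - 1) * (2 * G) := by
      rw [← Real.rpow_add_one' (by positivity) (by linarith)]; congr 1; ring
    have a4 : (2 * G) ^ (s / 2 - 1) ≤ (M * T ^ 2) ^ (s / 2 - 1) :=
      Real.rpow_le_rpow (by positivity) (by linarith) (by linarith)
    rw [e]
    calc C ^ s * ((2 * G) ^ (s / 2 - 1) * (2 * G))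
        ≤ C ^ s * ((M * T ^ 2) ^ (s / 2 - 1) * (2 * G)) := by gcongr
      _ = _ := by ring
  simp only [Pi.add_apply] at this
  have e : (M * T ^ 2) ^ (s / 2 - 1) * (M * T ^ 2) = (√M * T) ^ s := by
    rw [← Real.rpow_add_one' (by positivity) (by linarith),
      show M * T ^ 2 = (√M * T) ^ 2 by rw [mul_pow, Real.sq_sqrt M0.le], ← Real.rpow_natCast,
      ← Real.rpow_mul (by positivity)]
    congr 1; push_cast; ring
  have a5 : (2:ℝ) ^ N ≤ (2 ^ N) ^ s := by
    simpa using Real.rpow_le_rpow_of_exponent_le (one_le_pow₀ (by norm_num) : (1:ℝ) ≤ 2 ^ N)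
      (by linarith : 1 ≤ s)
  calc _ ≤ _ := this
    _ = 2 ^ N * C ^ s * ((M * T ^ 2) ^ (s / 2 - 1) *
        (2 * ∫ x, ‖fderiv ℝ φ x‖ ^ 2 + (L / 1) ^ 2 * φ x ^ 2)) := by ring
    _ ≤ (2 ^ N) ^ s * C ^ s * ((M * T ^ 2) ^ (s / 2 - 1) * (M * T ^ 2)) := by
        have : 0 ≤ ∫ x, ‖fderiv ℝ φ x‖ ^ 2 + (L / 1) ^ 2 * φ x ^ 2 := integral_nonneg g0
        gcongr
    _ = _ := by
        rw [e, ← Real.mul_rpow (by positivity) C0.le, ← Real.mul_rpow (by positivity)
          (by positivity)]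
        congr 1; ring

/-- Test functions on `Ω`. -/
def IsTest (Ω : Set (E N)) (φ : E N → ℝ) : Prop :=
  ContDiff ℝ (⊤ : ℕ∞) φ ∧ HasCompactSupport φ ∧ tsupport φ ⊆ Ω

lemma IsTest.c1 {Ω : Set (E N)} {φ : E N → ℝ} (h : IsTest Ω φ) : C1 φ :=
  ⟨h.1.of_le (by exact_mod_cast le_top), h.2.1⟩

lemma IsTest.mul {Ω : Set (E N)} {η φ : E N → ℝ} (h : IsTest Ω φ) (hη : ContDiff ℝ (⊤ : ℕ∞) η) :
    IsTest Ω fun x => η x * φ x :=
  ⟨hη.mul h.1, h.2.1.mul_left, tsupport_mul_subset_right.trans h.2.2⟩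

/-- Poincaré inequality on `Ω`. -/
def Poin (Ω : Set (E N)) : Prop := ∃ C, 0 < C ∧ ∀ φ, IsTest Ω φ → ∫ x, φ x ^ 2 ≤ C ^ 2 * En φ

lemma poin_bdd (hN : 2 ≤ N) {Ω : Set (E N)} (hΩ : Bornology.IsBounded Ω) : Poin Ω := by
  obtain ⟨C, C0, hC⟩ := gns_bdd hN le_rfl (by linarith) hΩ
  refine ⟨C, C0, fun φ hφ => ?_⟩
  have := hC φ hφ.c1 ((subset_tsupport _).trans hφ.2.2) _ (Real.sqrt_nonneg _)
    (Real.sq_sqrt (En_nonneg φ)).ge
  simpa [mul_pow, Real.sq_sqrt (En_nonneg φ)] using this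

lemma poin_of_q {Ω : Set (E N)} {q C : ℝ} (hq : 2 < q) (hqN : ((N:ℝ) - 2) * q < 2 * N) (C0 : 0 ≤ C)
    (hC : ∀ φ, IsTest Ω φ → ∀ T, 0 ≤ T → En φ ≤ T ^ 2 → ∫ x, |φ x| ^ q ≤ (C * T) ^ q) :
    Poin Ω := by
  obtain ⟨L, L0, hL⟩ := cutoff (N := N)
  have q0 : 0 < q := by linarith
  set e := 1 - 2 / q with he
  have e0 : 0 < e := by rw [he, sub_pos, div_lt_one q0]; exact hq
  set v := volume.real (ball (0 : E N) 1)
  have v0 : 0 < v := ball1_pos
  have ex : 0 < 2 - N * e := by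
    rw [he, sub_pos, mul_one_sub, ← mul_div_assoc, sub_lt_iff_lt_add, ← sub_lt_iff_lt_add',
      lt_div_iff₀ q0]
    linarith
  have tt := (tendsto_rpow_neg_atTop ex).const_mul (2 ^ N * (C ^ 2 * (2 ^ N * v) ^ e * 2) * L ^ 2)
  rw [mul_zero] at tt
  obtain ⟨R, hR, R0⟩ := ((tt.eventually_le_const one_half_pos).and (eventually_gt_atTop 0)).exists
  set K := C ^ 2 * ((2 * R) ^ N * v) ^ e * 2 with hK
  have K0 : 0 ≤ K := by positivity
  have hR' : 2 ^ N * K * (L / R) ^ 2 ≤ 1 / 2 := by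
    refine le_trans (le_of_eq ?_) hR
    have e1 : R ^ (-(2 - N * e)) = (R ^ N) ^ e / R ^ 2 := by
      rw [neg_sub, Real.rpow_sub R0, Real.rpow_mul R0.le, Real.rpow_natCast, Real.rpow_two]
    rw [e1, hK, mul_pow, mul_right_comm (2 ^ N) (R ^ N),
      Real.mul_rpow (x := 2 ^ N * v) (by positivity) (by positivity)]
    field_simp
  refine ⟨√(2 * (2 ^ N * K)) + 1, by positivity, fun φ hφ => ?_⟩
  have c := hφ.c1
  have gi := c.intD.add (c.int2.const_mul ((L / R) ^ 2))
  have := avg c.int2 gi R0 (K := K) fun y => by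
    obtain ⟨η, h1, h2, h3, h4, h5⟩ := hL y R R0
    have a1 := En_cut c h1 measurableSet_ball h2 h4 h5
    simp only [Pi.add_apply]
    set G := ∫ x in ball y (2 * R), ‖fderiv ℝ φ x‖ ^ 2 + (L / R) ^ 2 * φ x ^ 2
    have G0 : 0 ≤ G := integral_nonneg fun x => by positivity
    have a3 := hC _ (hφ.mul h1) (√(2 * G)) (Real.sqrt_nonneg _)
      (by rw [Real.sq_sqrt (by positivity)]; exact a1)
    have a4 := cut_low c h1 measurableSet_ball h3 two_pos
    have a5 := (holder_set (μ := volume) (w := fun x => |η x * φ x|) two_pos hq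
      (c.mul h1).cont.abs.measurable (ae_of_all _ fun x => abs_nonneg _) ((c.mul h1).intp q0)
      measurableSet_ball measure_ball_lt_top (ae_of_all _ fun x hx => by
        have : η x = 0 := by
          by_contra hne
          exact hx (h4 (subset_tsupport _ hne))
        simp [this])).2
    have a6 : (∫ x, |η x * φ x| ^ q) ^ (2 / q) ≤ C ^ 2 * (2 * G) := by
      refine (Real.rpow_le_rpow (integral_nonneg fun x => by positivity) a3
        (by positivity)).trans (le_of_eq ?_)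
      rw [← Real.rpow_mul (by positivity), mul_div_cancel₀ _ q0.ne', Real.rpow_two, mul_pow,
        Real.sq_sqrt (by positivity)]
    rw [ball_real _ (by positivity : 0 < 2 * R)] at a5
    simp only [Real.rpow_two, sq_abs] at a4 a5
    refine a4.trans (a5.trans ((mul_le_mul_of_nonneg_right a6 (by positivity)).trans
      (le_of_eq ?_)))
    rw [hK]; ring
  simp only [Pi.add_apply] at this
  rw [integral_add c.intD (c.int2.const_mul _), integral_const_mul] at this
  have a1 := En_nonneg φ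
  have a2 : 0 ≤ ∫ x, φ x ^ 2 := integral_nonneg fun _ => sq_nonneg _
  have a3 := mul_le_mul_of_nonneg_right hR' a2
  have a4 : 2 * (2 ^ N * K) ≤ (√(2 * (2 ^ N * K)) + 1) ^ 2 := by
    nlinarith [Real.sq_sqrt (by positivity : 0 ≤ 2 * (2 ^ N * K)),
      Real.sqrt_nonneg (2 * (2 ^ N * K))]
  have a5 := mul_le_mul_of_nonneg_right a4 a1
  unfold En at *
  linarith

lemma transl {φ : E N → ℝ} (hφ : C1 φ) (h : E N) :
    ∫⁻ x, ENNReal.ofReal ((φ (x + h) - φ x) ^ 2) ≤ ENNReal.ofReal (‖h‖ ^ 2 * En φ) := by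
  have cD := hφ.contD
  have pt : ∀ x, ENNReal.ofReal ((φ (x + h) - φ x) ^ 2) ≤
      ∫⁻ t in Ioc (0:ℝ) 1, ENNReal.ofReal (‖h‖ ^ 2 * ‖fderiv ℝ φ (x + t • h)‖ ^ 2) := fun x => by
    have c1 : Continuous fun t : ℝ => fderiv ℝ φ (x + t • h) h := by fun_prop
    have c2 : Continuous fun t : ℝ => ‖h‖ ^ 2 * ‖fderiv ℝ φ (x + t • h)‖ ^ 2 := by fun_prop
    have d : ∀ t ∈ uIcc (0:ℝ) 1, HasDerivAt (fun t : ℝ => φ (x + t • h))
        (fderiv ℝ φ (x + t • h) h) t := fun t _ => by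
      have := (hφ.diff (x + t • h)).hasFDerivAt.comp_hasDerivAt t
        (((hasDerivAt_id t).smul_const h).const_add x)
      exact this.congr_deriv (by simp)
    have e := intervalIntegral.integral_eq_sub_of_hasDerivAt d (c1.intervalIntegrable _ _)
    rw [intervalIntegral.integral_of_le zero_le_one, one_smul, zero_smul, add_zero] at e
    have i1 := (c1.pow 2).integrableOn_Ioc (μ := volume) (a := 0) (b := 1)
    have i2 := c2.integrableOn_Ioc (μ := volume) (a := 0) (b := 1)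
    rw [← ofReal_integral_eq_lintegral_ofReal i2 (ae_of_all _ fun t => by positivity), ← e]
    refine ENNReal.ofReal_le_ofReal ((sq_int_le c1.aestronglyMeasurable i1).trans ?_)
    simp only [MeasurableSet.univ, measureReal_restrict_apply, univ_inter, Real.volume_real_Ioc,
      sub_zero, zero_le_one, sup_of_le_left, one_mul]
    refine integral_mono i1 i2 fun t => ?_
    simp only
    rw [← mul_pow, ← sq_abs, mul_comm]
    exact pow_le_pow_left₀ (abs_nonneg _) ((fderiv ℝ φ (x + t • h)).le_opNorm h) 2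
  refine (lintegral_mono pt).trans ?_
  have mc : Continuous fun p : E N × ℝ => ‖h‖ ^ 2 * ‖fderiv ℝ φ (p.1 + p.2 • h)‖ ^ 2 := by
    fun_prop
  rw [lintegral_lintegral_swap mc.measurable.ennreal_ofReal.aemeasurable]
  have e : ∀ t : ℝ, ∫⁻ x, ENNReal.ofReal (‖h‖ ^ 2 * ‖fderiv ℝ φ (x + t • h)‖ ^ 2) =
      ENNReal.ofReal (‖h‖ ^ 2 * En φ) := fun t => by
    rw [lintegral_add_right_eq_self (fun x => ENNReal.ofReal (‖h‖ ^ 2 * ‖fderiv ℝ φ x‖ ^ 2)),
      ← ofReal_integral_eq_lintegral_ofReal (hφ.intD.const_mul _)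
      (ae_of_all _ fun t => by positivity), integral_const_mul, En]
  simp only [e]
  simp

lemma rellich {S : Set (E N)} (hS : Bornology.IsBounded S) {ε : ℝ} (hε : 0 < ε) :
    ∃ (t : Finset (E N)) (δ c : ℝ), 0 ≤ c ∧ ∀ φ : E N → ℝ, C1 φ → Function.support φ ⊆ S →
      ∫ x, φ x ^ 2 ≤ ε * En φ + c * ∑ y ∈ t, (∫ x in ball y δ, φ x) ^ 2 := by
  obtain ⟨δ, δ0, hδ⟩ : ∃ δ : ℝ, 0 < δ ∧ 2 ^ N * 8 * δ ^ 2 = ε :=
    ⟨√(ε / (2 ^ N * 8)), by positivity, by rw [Real.sq_sqrt (by positivity)]; field_simp⟩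
  obtain ⟨t, -, ht, hc⟩ := finite_cover_balls_of_compact hS.isCompact_closure δ0
  set v := δ ^ N * volume.real (ball (0 : E N) 1) with hv
  have v0 : 0 < v := mul_pos (by positivity) ball1_pos
  have fin : volume (closure S) < ∞ := hS.closure.measure_lt_top
  refine ⟨ht.toFinset, δ, 2 / v ^ 2 * volume.real (closure S), by positivity, fun φ hφ hs => ?_⟩
  set Q := ∑ y ∈ ht.toFinset, (∫ x in ball y δ, φ x) ^ 2 with hQ
  have Q0 : 0 ≤ Q := Finset.sum_nonneg fun _ _ => sq_nonneg _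
  have c0 := hφ.cont
  have pt : ∀ x, ENNReal.ofReal (φ x ^ 2) ≤ ENNReal.ofReal (2 / v) *
      (∫⁻ h in ball (0 : E N) (2 * δ), ENNReal.ofReal ((φ (x + h) - φ x) ^ 2)) +
      (closure S).indicator (fun _ => ENNReal.ofReal (2 / v ^ 2 * Q)) x := fun x => by
    by_cases hx : x ∈ closure S
    swap
    · have : φ x = 0 := by
        by_contra hne
        exact hx (subset_closure (hs hne))
      simp [this]
    obtain ⟨y, hy, hxy⟩ := mem_iUnion₂.1 (hc hx)
    have i1 : ∀ (z : E N) (r : ℝ) {g : E N → ℝ}, Continuous g → IntegrableOn g (ball z r) :=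
      fun z r g hg => (hg.continuousOn.integrableOn_compact (isCompact_closedBall z r)).mono_set
        ball_subset_closedBall
    haveI : IsFiniteMeasure (volume.restrict (ball y δ)) := ⟨by simpa using measure_ball_lt_top⟩
    have a1 := sq_int_le (μ := volume.restrict (ball y δ)) (g := fun z => φ z - φ x)
      (by fun_prop) (i1 y δ (by fun_prop))
    rw [integral_sub (i1 y δ c0) (integrable_const _), integral_const] at a1
    simp only [MeasurableSet.univ, measureReal_restrict_apply, univ_inter, smul_eq_mul,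
      ball_real y δ0, ← hv] at a1
    have a2 : ∫ z in ball y δ, (φ z - φ x) ^ 2 ≤
        ∫ h in ball (0 : E N) (2 * δ), (φ (x + h) - φ x) ^ 2 := by
      have e : ∫ h in ball (0 : E N) (2 * δ), (φ (x + h) - φ x) ^ 2 =
          ∫ z in ball x (2 * δ), (φ z - φ x) ^ 2 := by
        rw [← integral_indicator measurableSet_ball, ← integral_indicator measurableSet_ball,
          ← integral_add_left_eq_self ((ball x (2 * δ)).indicator fun z => (φ z - φ x) ^ 2) x]
        congr 1; funext h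
        by_cases hh : h ∈ ball (0 : E N) (2 * δ)
        · rw [indicator_of_mem hh, indicator_of_mem (by simpa using hh)]
        · rw [indicator_of_notMem hh, indicator_of_notMem (by simpa using hh)]
      rw [e]
      refine setIntegral_mono_set (i1 x _ (by fun_prop)) (ae_of_all _ fun z => sq_nonneg _)
        (HasSubset.Subset.eventuallyLE fun z hz => ?_)
      rw [mem_ball] at *
      linarith [dist_triangle z y x, dist_comm y x]
    have a3 : (∫ x in ball y δ, φ x) ^ 2 ≤ Q :=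
      Finset.single_le_sum (f := fun y => (∫ x in ball y δ, φ x) ^ 2) (fun _ _ => sq_nonneg _)
        (ht.mem_toFinset.2 hy)
    rw [indicator_of_mem hx, ← ofReal_integral_eq_lintegral_ofReal (i1 0 _ (by fun_prop))
      (ae_of_all _ fun t => sq_nonneg _), ← ENNReal.ofReal_mul (by positivity),
      ← ENNReal.ofReal_add (mul_nonneg (by positivity) (integral_nonneg fun _ => sq_nonneg _))
      (mul_nonneg (div_nonneg zero_le_two (sq_nonneg v)) Q0)]
    refine ENNReal.ofReal_le_ofReal ?_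
    have a5 := a1.trans (mul_le_mul_of_nonneg_left a2 v0.le)
    generalize ∫ h in ball (0 : E N) (2 * δ), (φ (x + h) - φ x) ^ 2 = I at a5 ⊢
    generalize ∫ x in ball y δ, φ x = A at a5 a3
    generalize φ x = b at a5 ⊢
    clear_value Q v
    have a4 : v ^ 2 * b ^ 2 ≤ 2 * v * I + 2 * Q := by
      have := sq_nonneg (2 * A - v * b)
      linarith
    calc b ^ 2 = v ^ 2 * b ^ 2 / v ^ 2 := by field_simp
      _ ≤ (2 * v * I + 2 * Q) / v ^ 2 := by gcongr
      _ = _ := by field_simp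
  have E0 := En_nonneg φ
  have b1 : ∫⁻ x, ∫⁻ h in ball (0 : E N) (2 * δ), ENNReal.ofReal ((φ (x + h) - φ x) ^ 2) ≤
      ENNReal.ofReal ((2 * δ) ^ 2 * En φ * (2 ^ N * v)) := by
    have mc : Continuous fun p : E N × E N => (φ (p.1 + p.2) - φ p.1) ^ 2 := by fun_prop
    rw [lintegral_lintegral_swap mc.measurable.ennreal_ofReal.aemeasurable]
    refine (setLIntegral_mono (g := fun _ => ENNReal.ofReal ((2 * δ) ^ 2 * En φ))
      measurable_const fun h hh => (transl hφ h).trans (ENNReal.ofReal_le_ofReal ?_)).trans ?_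
    · have := (mem_ball_zero_iff.1 hh).le
      gcongr
    · rw [setLIntegral_const, ENNReal.ofReal_mul (p := (2 * δ) ^ 2 * En φ) (by positivity),
        ← ENNReal.ofReal_toReal (measure_ball_lt_top (μ := volume)).ne, ← measureReal_def,
        ball_real _ (by positivity : 0 < 2 * δ), hv, mul_pow 2 δ N, mul_assoc (2 ^ N)]
  have b2 := lintegral_mono (μ := volume) pt
  rw [lintegral_add_right _ (measurable_const.indicator measurableSet_closure),
    lintegral_const_mul' _ _ ENNReal.ofReal_ne_top, lintegral_indicator_const measurableSet_closure,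
    ← ofReal_integral_eq_lintegral_ofReal hφ.int2 (ae_of_all _ fun t => sq_nonneg _),
    ← ENNReal.ofReal_toReal fin.ne, ← measureReal_def] at b2
  have b3 := b2.trans (add_le_add_left (mul_le_mul_right b1 _) _)
  rw [← ENNReal.ofReal_mul (by positivity), ← ENNReal.ofReal_mul (by positivity),
    ← ENNReal.ofReal_add (by positivity) (by positivity),
    ENNReal.ofReal_le_ofReal_iff (by positivity)] at b3
  refine b3.trans (le_of_eq ?_)
  rw [← hδ]; field_simp; ring

end Pool.Agent.H27.Iso
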