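import Pool.Agent.H27.Iso8
import Pool.Agent.H27.Iso9

/-! The homogeneous Sobolev space of an open set as an abstract Dirichlet space. -/

open Set Filter Topology MeasureTheory Metric
open scoped ENNReal RealInnerProductSpace

namespace Pool.Agent.H27.Iso

section weak
variable {H F : Type*} [NormedAddCommGroup H] [InnerProductSpace ℝ H] [CompleteSpace H]
  [NormedAddCommGroup F] [InnerProductSpace ℝ F] [CompleteSpace F]

lemma weak_lim (U : Ultrafilter ℕ) {x : ℕ → H} {R : ℝ} (hx : ∀ n, ‖x n‖ ≤ R) :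
    ∃ x0 : H, ∀ y, Tendsto (fun n => ⟪x n, y⟫) U (𝓝 ⟪x0, y⟫) := by
  have hb : ∀ y n, ⟪x n, y⟫ ∈ Icc (-(R * ‖y‖)) (R * ‖y‖) := fun y n =>
    abs_le.1 ((abs_real_inner_le_norm _ _).trans (by gcongr; exact hx n))
  have : ∀ y, ∃ a ∈ Icc (-(R * ‖y‖)) (R * ‖y‖), Tendsto (fun n => ⟪x n, y⟫) U (𝓝 a) := fun y =>
    isCompact_Icc.ultrafilter_le_nhds (U.map fun n => ⟪x n, y⟫)
      (by rw [Ultrafilter.coe_map, le_principal_iff, mem_map]; exact univ_mem' (hb y))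
  choose l hl ht using this
  let L : H →ₗ[ℝ] ℝ :=
    { toFun := l
      map_add' := fun a b => tendsto_nhds_unique (ht (a + b))
        (by simpa only [inner_add_right] using (ht a).add (ht b))
      map_smul' := fun c a => tendsto_nhds_unique (ht (c • a))
        (by simpa only [real_inner_smul_right, RingHom.id_apply, smul_eq_mul]
          using (ht a).const_mul c) }
  refine ⟨(InnerProductSpace.toDual ℝ H).symm (L.mkContinuous R fun y => abs_le.2 (hl y)),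
    fun y => ?_⟩
  rw [InnerProductSpace.toDual_symm_apply]
  exact ht y

lemma weak_rep (T : H →L[ℝ] F) {x : ℕ → H} {v : F} {r : ℕ → ℝ} {ρ : ℝ}
    (hT : Tendsto (fun n => T (x n)) atTop (𝓝 v)) (hx : ∀ n, ‖x n‖ ≤ r n)
    (hr : Tendsto r atTop (𝓝 ρ)) : ∃ x0, T x0 = v ∧ ‖x0‖ ≤ ρ := by
  obtain ⟨R, hR⟩ := hr.bddAbove_range
  obtain ⟨x0, h0⟩ := weak_lim (hyperfilter ℕ) fun n => (hx n).trans (hR ⟨n, rfl⟩)
  refine ⟨x0, ext_inner_right ℝ fun g => ?_, ?_⟩
  · have h1 := h0 (ContinuousLinearMap.adjoint T g)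
    simp only [ContinuousLinearMap.adjoint_inner_right] at h1
    exact tendsto_nhds_unique h1
      ((hT.inner tendsto_const_nhds).mono_left Nat.hyperfilter_le_atTop)
  · have h1 : ⟪x0, x0⟫ ≤ ρ * ‖x0‖ := le_of_tendsto_of_tendsto' (h0 x0)
      ((hr.mul_const _).mono_left Nat.hyperfilter_le_atTop) fun n =>
        (real_inner_le_norm _ _).trans (by gcongr; exact hx n)
    have ρ0 : 0 ≤ ρ := ge_of_tendsto' hr fun n => (norm_nonneg _).trans (hx n)
    rw [real_inner_self_eq_norm_sq] at h1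
    rcases (norm_nonneg x0).eq_or_lt with h | h
    · rwa [← h]
    · nlinarith

lemma cpt_of_est {ι : Type*} (T : H →L[ℝ] F) (hT : ∀ ε > 0, ∃ (t : Finset ι) (g : ι → F) (c : ℝ),
    ∀ h, ‖T h‖ ^ 2 ≤ ε * ‖h‖ ^ 2 + c * ∑ i ∈ t, ⟪g i, T h⟫ ^ 2) {x : ℕ → H} {R : ℝ}
    (hx : ∀ n, ‖x n‖ ≤ R) : ∃ φ : ℕ → ℕ, StrictMono φ ∧ CauchySeq fun n => T (x (φ n)) := by
  obtain ⟨x0, h0⟩ := weak_lim (hyperfilter ℕ) hx
  have h1 : Tendsto (fun n => T (x n)) (hyperfilter ℕ) (𝓝 (T x0)) := by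
    refine Metric.tendsto_nhds.2 fun ε hε => ?_
    have R0 : 0 ≤ R := (norm_nonneg _).trans (hx 0)
    obtain ⟨t, g, c, hc⟩ := hT (ε ^ 2 / 2 / ((R + ‖x0‖) ^ 2 + 1)) (by positivity)
    have h2 : Tendsto (fun n => c * ∑ i ∈ t, ⟪g i, T (x n - x0)⟫ ^ 2) (hyperfilter ℕ)
        (𝓝 (c * ∑ i ∈ t, 0 ^ 2)) := by
      refine (tendsto_finset_sum _ fun i _ => Tendsto.pow ?_ 2).const_mul c
      have := (h0 (ContinuousLinearMap.adjoint T (g i))).sub_const
        ⟪x0, ContinuousLinearMap.adjoint T (g i)⟫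
      simp only [sub_self, ContinuousLinearMap.adjoint_inner_right] at this
      refine this.congr fun n => ?_
      rw [map_sub, inner_sub_right, real_inner_comm (g i), real_inner_comm (g i)]
    simp only [ne_eq, OfNat.ofNat_ne_zero, not_false_eq_true, zero_pow, Finset.sum_const_zero,
      mul_zero] at h2
    filter_upwards [h2.eventually_lt_const (by positivity : 0 < ε ^ 2 / 2)] with n hn
    rw [dist_eq_norm, ← map_sub]
    refine lt_of_pow_lt_pow_left₀ 2 hε.le ((hc _).trans_lt ?_)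
    have a1 : ‖x n - x0‖ ^ 2 ≤ (R + ‖x0‖) ^ 2 + 1 := by
      have := pow_le_pow_left₀ (norm_nonneg _) ((norm_sub_le (x n) x0).trans
        (add_le_add_left (hx n) _)) 2
      linarith
    have a2 : ε ^ 2 / 2 / ((R + ‖x0‖) ^ 2 + 1) * ‖x n - x0‖ ^ 2 ≤ ε ^ 2 / 2 := by
      rw [div_mul_eq_mul_div, div_le_iff₀ (by positivity)]; gcongr
    linarith
  obtain ⟨φ, hφ, h2⟩ := (h1.mapClusterPt.mono Nat.hyperfilter_le_atTop).tendsto_subseq
  exact ⟨φ, hφ, h2.cauchySeq⟩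

omit [CompleteSpace H] in
lemma half_sq {h g : H} (g2 : ‖g‖ ≤ ‖h‖) :
    ‖(1 / 2 : ℝ) • (h - g)‖ ^ 2 ≤ ⟪h, (1 / 2 : ℝ) • (h - g)⟫ := by
  rw [norm_smul, real_inner_smul_right, inner_sub_right, mul_pow, norm_sub_sq_real,
    real_inner_self_eq_norm_sq, Real.norm_of_nonneg (by norm_num)]
  have := pow_le_pow_left₀ (norm_nonneg _) g2 2
  linarith

end weak

lemma L2_sq {Z F : Type*} [MeasurableSpace Z] {μ : Measure Z} [NormedAddCommGroup F]
    [InnerProductSpace ℝ F] (f : Lp F 2 μ) {g : Z → F} (h : f =ᵐ[μ] g) :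
    ‖f‖ ^ 2 = ∫ x, ‖g x‖ ^ 2 ∂μ := by
  rw [← real_inner_self_eq_norm_sq, L2.inner_def]
  refine integral_congr_ae (h.mono fun x hx => ?_)
  simp only [hx, real_inner_self_eq_norm_sq]

variable {N : ℕ}

lemma norm_grad (φ : E N → ℝ) (x : E N) : ‖gradient φ x‖ = ‖fderiv ℝ φ x‖ := by
  rw [gradient, LinearIsometryEquiv.norm_map]

lemma C1.contG {φ : E N → ℝ} (h : C1 φ) : Continuous (gradient φ) :=
  (InnerProductSpace.toDual ℝ (E N)).symm.continuous.comp h.contD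

lemma C1.memG {φ : E N → ℝ} (h : C1 φ) : MemLp (gradient φ) 2 volume :=
  h.contG.memLp_of_hasCompactSupport
    ((h.cs.fderiv ℝ).comp_left (g := (InnerProductSpace.toDual ℝ (E N)).symm) (map_zero _))

lemma C1.mem {φ : E N → ℝ} (h : C1 φ) (p : ℝ≥0∞) : MemLp φ p volume :=
  h.cont.memLp_of_hasCompactSupport h.cs

/-- The space of test functions. -/
def Test (Ω : Set (E N)) : Submodule ℝ (E N → ℝ) where
  carrier := {φ | IsTest Ω φ}
  add_mem' := fun {a b} ha hb => ⟨ha.1.add hb.1, ha.2.1.add hb.2.1,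
    (tsupport_add a b).trans (union_subset ha.2.2 hb.2.2)⟩
  zero_mem' := ⟨contDiff_const, HasCompactSupport.zero, by simp⟩
  smul_mem' := fun c _ ha => IsTest.mul (η := fun _ => c) ha contDiff_const

variable {Ω : Set (E N)}

lemma Test.c1 (φ : Test Ω) : C1 φ.1 := IsTest.c1 φ.2

/-- Gradient as an element of `L²`. -/
noncomputable def gradL (Ω : Set (E N)) : Test Ω →ₗ[ℝ] Lp (E N) 2 (volume : Measure (E N)) where
  toFun φ := (Test.c1 φ).memG.toLp _
  map_add' a b := by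
    rw [← MemLp.toLp_add]
    refine MemLp.toLp_congr _ _ (ae_of_all _ fun x => ?_)
    simp only [Submodule.coe_add, gradient, Pi.add_apply,
      fderiv_add ((Test.c1 a).diff x) ((Test.c1 b).diff x), map_add]
  map_smul' c a := by
    rw [RingHom.id_apply, ← MemLp.toLp_const_smul]
    refine MemLp.toLp_congr _ _ (ae_of_all _ fun x => ?_)
    simp only [Submodule.coe_smul, gradient, Pi.smul_apply,
      fderiv_const_smul ((Test.c1 a).diff x)]
    simp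

/-- Value as an element of `L²`. -/
noncomputable def valL (Ω : Set (E N)) : Test Ω →ₗ[ℝ] Lp ℝ 2 (volume : Measure (E N)) where
  toFun φ := ((Test.c1 φ).mem 2).toLp _
  map_add' a b := by rw [← MemLp.toLp_add]; rfl
  map_smul' c a := by rw [RingHom.id_apply, ← MemLp.toLp_const_smul]; rfl

lemma gradL_coe (φ : Test Ω) : gradL Ω φ =ᵐ[volume] gradient φ.1 := (Test.c1 φ).memG.coeFn_toLp

lemma valL_coe (φ : Test Ω) : valL Ω φ =ᵐ[volume] φ.1 := ((Test.c1 φ).mem 2).coeFn_toLp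

/-- The completion of the test functions, realised by gradients. -/
noncomputable def HS (Ω : Set (E N)) : Submodule ℝ (Lp (E N) 2 (volume : Measure (E N))) :=
  (LinearMap.range (gradL Ω)).topologicalClosure

instance : CompleteSpace (HS Ω) := Submodule.topologicalClosure.completeSpace _

/-- Test functions inside the completion. -/
noncomputable def eL (Ω : Set (E N)) : Test Ω →ₗ[ℝ] HS Ω :=
  (gradL Ω).codRestrict _ fun φ => Submodule.le_topologicalClosure _ ⟨φ, rfl⟩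

lemma eL_dense : DenseRange (eL Ω) := fun h => by
  have : h.1 ∈ closure (range (gradL Ω)) := h.2
  rw [Metric.mem_closure_iff] at this ⊢
  intro ε hε
  obtain ⟨_, ⟨φ, rfl⟩, h1⟩ := this ε hε
  exact ⟨_, ⟨φ, rfl⟩, h1⟩

lemma eL_sq (φ : Test Ω) : ‖eL Ω φ‖ ^ 2 = En φ.1 := by
  change ‖gradL Ω φ‖ ^ 2 = _
  rw [L2_sq _ (gradL_coe φ), En]; simp only [norm_grad]

lemma valL_sq (φ : Test Ω) : ‖valL Ω φ‖ ^ 2 = ∫ x, φ.1 x ^ 2 := by
  rw [L2_sq _ (valL_coe φ)]; simp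

/-- The function attached to an element of the completion. -/
noncomputable def J (Ω : Set (E N)) : HS Ω →L[ℝ] Lp ℝ 2 (volume : Measure (E N)) :=
  (valL Ω).extendOfNorm (eL Ω)

lemma Poin.J_eq (hP : Poin Ω) (φ : Test Ω) : J Ω (eL Ω φ) = valL Ω φ := by
  obtain ⟨C, C0, hC⟩ := hP
  refine LinearMap.extendOfNorm_eq eL_dense ⟨C, fun φ => ?_⟩ φ
  refine le_of_sq_le_sq (by rw [valL_sq, mul_pow, eL_sq]; exact hC _ φ.2) (by positivity)

lemma Poin.J_coe (hP : Poin Ω) (φ : Test Ω) : J Ω (eL Ω φ) =ᵐ[volume] φ.1 := by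
  rw [hP.J_eq]; exact valL_coe φ

lemma Poin.approx (hP : Poin Ω) (h : HS Ω) : ∃ φ : ℕ → Test Ω,
    Tendsto (fun n => eL Ω (φ n)) atTop (𝓝 h) ∧ Tendsto (fun n => valL Ω (φ n)) atTop (𝓝 (J Ω h)) := by
  obtain ⟨x, hx, ht⟩ := mem_closure_iff_seq_limit.1 (eL_dense h)
  choose φ hφ using hx
  have : Tendsto (fun n => eL Ω (φ n)) atTop (𝓝 h) := by simpa only [hφ] using ht
  exact ⟨φ, this, by
    simpa only [← hP.J_eq, Function.comp_def] using ((J Ω).continuous.tendsto h).comp this⟩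

lemma Poin.emb (hP : Poin Ω) (hN : 2 ≤ N) {s : ℝ} (hs : 2 ≤ s) (hsN : ((N:ℝ) - 2) * s < 2 * N) :
    ∃ C, 0 < C ∧ ∀ C', C ≤ C' → ∀ h : HS Ω,
      Integrable (fun x => |J Ω h x| ^ s) ∧ ∫ x, |J Ω h x| ^ s ≤ (C' * ‖h‖) ^ s := by
  obtain ⟨C, C0, hC⟩ := sob hN hs hsN
  obtain ⟨P, P0, hP'⟩ := id hP
  have s0 : 0 < s := by linarith
  refine ⟨C * (1 + P) * 2, by positivity, fun C' hC' h => ?_⟩
  have C0' : 0 ≤ C' := le_trans (by positivity) hC'
  refine int_le_of_eLp (f := J Ω h) (Lp.aestronglyMeasurable _) s0 (by positivity) ?_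
  rcases eq_or_ne h 0 with rfl | hne
  · rw [map_zero, eLpNorm_congr_ae (Lp.coeFn_zero _ _ _)]; simp
  obtain ⟨φ, h1, h2⟩ := hP.approx h
  refine eLpNorm_le_of_tendstoInMeasure ?_ (tendstoInMeasure_of_tendsto_Lp h2)
    fun n => Lp.aestronglyMeasurable _
  have n0 := norm_pos_iff.2 hne
  filter_upwards [h1.norm.eventually_le_const (by linarith : ‖h‖ < 2 * ‖h‖)] with n hn
  have c := Test.c1 (φ n)
  rw [eLpNorm_congr_ae (valL_coe _)]
  refine eLp_le_of_int c.cont.aestronglyMeasurable s0 (by positivity) (c.intp s0)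
    ((hC _ c ((1 + P) * ‖eL Ω (φ n)‖) (by positivity) ?_).trans ?_)
  · have := hP' _ (φ n).2
    have := En_nonneg (φ n).1
    rw [mul_pow, eL_sq]; nlinarith
  · refine Real.rpow_le_rpow (by positivity) ?_ s0.le
    calc C * ((1 + P) * ‖eL Ω (φ n)‖) ≤ C * ((1 + P) * (2 * ‖h‖)) := by gcongr
      _ = C * (1 + P) * 2 * ‖h‖ := by ring
      _ ≤ _ := by gcongr

/-- Smooth contractions approximating `s ↦ k - |s - k|`. -/
noncomputable def beta (k ε s : ℝ) : ℝ := √(k ^ 2 + ε ^ 2) - √((s - k) ^ 2 + ε ^ 2)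

lemma beta_lip (k ε a b : ℝ) : |beta k ε a - beta k ε b| ≤ |a - b| := by
  have e : ∀ t : ℝ, √(t ^ 2 + ε ^ 2) = ‖(⟨t, ε⟩ : ℂ)‖ := fun t => by
    rw [Complex.norm_eq_sqrt_sq_add_sq]
  have := abs_norm_sub_norm_le (⟨b - k, ε⟩ : ℂ) ⟨a - k, ε⟩
  rw [show (⟨b - k, ε⟩ : ℂ) - ⟨a - k, ε⟩ = ((b - a : ℝ) : ℂ) from Complex.ext (by simp) (by simp),
    Complex.norm_real, Real.norm_eq_abs, abs_sub_comm b a] at this
  unfold beta
  rw [e (a - k), e (b - k)]
  convert this using 2; ring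

lemma beta_zero (k ε : ℝ) : beta k ε 0 = 0 := by simp [beta]

lemma beta_smooth (k : ℝ) {ε : ℝ} (hε : 0 < ε) : ContDiff ℝ (⊤ : ℕ∞) (beta k ε) :=
  contDiff_const.sub (ContDiff.sqrt (by fun_prop) fun x => by positivity)

lemma IsTest.comp {φ : E N → ℝ} {β : ℝ → ℝ} (h : IsTest Ω φ) (hβ : ContDiff ℝ (⊤ : ℕ∞) β)
    (h0 : β 0 = 0) : IsTest Ω fun x => β (φ x) :=
  ⟨hβ.comp h.1, h.2.1.comp_left h0, (closure_mono (Function.support_comp_subset h0 φ)).trans h.2.2⟩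

lemma beta_tend {Z : Type*} [MeasurableSpace Z] {μ : Measure Z} {a b : ℕ → Lp ℝ 2 μ}
    {u : Lp ℝ 2 μ} {k : ℝ} (hk : 0 ≤ k) (h2 : Tendsto a atTop (𝓝 u))
    (hb : ∀ n, b n =ᵐ[μ] fun x => beta k (1 / ((n:ℝ) + 1)) (a n x)) :
    ∃ v : Lp ℝ 2 μ, (v =ᵐ[μ] fun x => k - |u x - k|) ∧ Tendsto b atTop (𝓝 v) := by
  have ε0 : ∀ n : ℕ, 0 < 1 / ((n:ℝ) + 1) := fun n => Nat.one_div_pos_of_nat
  have bz : ∀ ε s, |beta k ε s| ≤ |s| := fun ε s => by
    simpa [beta_zero] using beta_lip k ε s 0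
  have Tb : ∀ s : ℝ, |k - (|s - k|)| ≤ |s| := fun s => by
    have := bz 0 s
    simpa [beta, Real.sqrt_sq hk, Real.sqrt_sq_eq_abs] using this
  have um : Measurable u := (Lp.stronglyMeasurable _).measurable
  have vm : MemLp (fun x => k - |u x - k|) 2 μ :=
    (Lp.memLp u).of_le (Measurable.aestronglyMeasurable (by fun_prop)) (ae_of_all _ fun x => Tb _)
  have u2 : Integrable (fun x => u x ^ 2) μ := by
    simpa using (Lp.memLp u).integrable_norm_pow two_ne_zero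
  have m1 : ∀ n : ℕ, AEStronglyMeasurable (fun x => (beta k (1 / ((n:ℝ) + 1)) (u x) -
      (k - |u x - k|)) ^ 2) μ := fun n => by
    have := (beta_smooth k (ε0 n)).continuous.measurable
    exact Measurable.aestronglyMeasurable (by fun_prop)
  have m2 : ∀ n : ℕ, ∀ᵐ x ∂μ, ‖(beta k (1 / ((n:ℝ) + 1)) (u x) - (k - |u x - k|)) ^ 2‖ ≤
      4 * u x ^ 2 := fun n => ae_of_all _ fun x => by
    have a1 := abs_le.1 (bz (1 / ((n:ℝ) + 1)) (u x))
    have a2 := abs_le.1 (Tb (u x))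
    rw [Real.norm_of_nonneg (sq_nonneg _), ← sq_abs (u x)]
    nlinarith
  have t1 : Tendsto (fun n : ℕ => ∫ x, (beta k (1 / ((n:ℝ) + 1)) (u x) -
      (k - |u x - k|)) ^ 2 ∂μ) atTop (𝓝 (∫ _, (0:ℝ) ∂μ)) := by
    refine tendsto_integral_of_dominated_convergence (fun x => 4 * u x ^ 2) m1
      (u2.const_mul 4) m2 (ae_of_all _ fun x => ?_)
    have c : Continuous fun ε => (beta k ε (u x) - (k - |u x - k|)) ^ 2 := by
      unfold beta; fun_prop
    have := (c.tendsto 0).comp tendsto_one_div_add_atTop_nhds_zero_nat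
    simpa [beta, Real.sqrt_sq hk, Real.sqrt_sq_eq_abs, Function.comp_def] using this
  rw [integral_zero] at t1
  refine ⟨vm.toLp _, vm.coeFn_toLp, ?_⟩
  rw [tendsto_iff_norm_sub_tendsto_zero] at h2 ⊢
  have t3 := (((h2.pow 2).const_mul 2).add (t1.const_mul 2)).sqrt
  simp only [ne_eq, OfNat.ofNat_ne_zero, not_false_eq_true, zero_pow, mul_zero, add_zero,
    Real.sqrt_zero] at t3
  refine squeeze_zero (fun n => norm_nonneg _) (fun n => Real.le_sqrt_of_sq_le ?_) t3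
  have i1 := (Lp.memLp (a n - u)).integrable_norm_pow two_ne_zero
  have i2 := (u2.const_mul 4).mono' (m1 n) (m2 n)
  rw [L2_sq _ (ae_eq_refl _), L2_sq _ (ae_eq_refl _), ← integral_const_mul,
    ← integral_const_mul, ← integral_add (i1.const_mul 2) (i2.const_mul 2)]
  refine integral_mono_ae ((Lp.memLp _).integrable_norm_pow two_ne_zero)
    ((i1.const_mul 2).add (i2.const_mul 2)) ?_
  filter_upwards [Lp.coeFn_sub (b n) (vm.toLp _), hb n, vm.coeFn_toLp, Lp.coeFn_sub (a n) u]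
    with x a1 a2 a3 a4
  rw [a1, a4, Pi.sub_apply, Pi.sub_apply, a2, a3, Real.norm_eq_abs, Real.norm_eq_abs, sq_abs]
  have a6 := pow_le_pow_left₀ (abs_nonneg _) (beta_lip k (1 / ((n:ℝ) + 1)) (a n x) (u x)) 2
  rw [sq_abs] at a6
  have := sq_nonneg (beta k (1 / ((n:ℝ) + 1)) (a n x) -
    2 * beta k (1 / ((n:ℝ) + 1)) (u x) + (k - |u x - k|))
  linarith

lemma En_comp {φ : E N → ℝ} (hφ : IsTest Ω φ) (k : ℝ) {ε : ℝ} (hε : 0 < ε) :
    En (fun x => beta k ε (φ x)) ≤ En φ := by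
  refine integral_mono (hφ.comp (beta_smooth k hε) (beta_zero _ _)).c1.intD hφ.c1.intD fun x => ?_
  refine pow_le_pow_left₀ (norm_nonneg _) ?_ 2
  have d := ((beta_smooth k hε).differentiable (by simp) (φ x)).hasDerivAt
  have e := (d.comp_hasFDerivAt x (hφ.c1.diff x).hasFDerivAt).fderiv
  have l : ‖deriv (beta k ε) (φ x)‖ ≤ (1 : NNReal) :=
    norm_deriv_le_of_lipschitz (LipschitzWith.of_dist_le_mul fun a b => by
      simpa [Real.dist_eq] using beta_lip k _ a b)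
  change ‖fderiv ℝ (beta k ε ∘ φ) x‖ ≤ _
  rw [e, norm_smul]
  exact mul_le_of_le_one_left (norm_nonneg _) l

lemma Poin.trunc (hP : Poin Ω) (h : HS Ω) {k : ℝ} (hk : 0 ≤ k) :
    ∃ w, (J Ω w =ᵐ[volume] fun x => max (J Ω h x - k) 0) ∧ ‖w‖ ^ 2 ≤ ⟪h, w⟫ := by
  obtain ⟨φ, h1, h2⟩ := hP.approx h
  have ε0 : ∀ n : ℕ, 0 < 1 / ((n:ℝ) + 1) := fun n => Nat.one_div_pos_of_nat
  obtain ⟨ψ, hψ⟩ : ∃ ψ : ℕ → Test Ω, ∀ n, (ψ n).1 = fun x => beta k (1 / ((n:ℝ) + 1)) ((φ n).1 x) :=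
    ⟨fun n => ⟨_, IsTest.comp (φ n).2 (beta_smooth k (ε0 n)) (beta_zero _ _)⟩, fun _ => rfl⟩
  obtain ⟨v, hv, t2⟩ := beta_tend (b := fun n => J Ω (eL Ω (ψ n))) hk h2 fun n => by
    filter_upwards [hP.J_coe (ψ n), valL_coe (φ n)] with x a1 a2
    rw [a1, a2, hψ]
  obtain ⟨g, g1, g2⟩ := weak_rep (J Ω) t2 (fun n => by
    refine le_of_sq_le_sq ?_ (norm_nonneg (eL Ω (φ n)))
    rw [eL_sq, eL_sq, hψ]
    exact En_comp (φ n).2 k (ε0 n)) h1.norm
  refine ⟨(1 / 2 : ℝ) • (h - g), ?_, ?_⟩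
  · rw [map_smul, map_sub, g1]
    filter_upwards [Lp.coeFn_smul (1 / 2 : ℝ) (J Ω h - v), Lp.coeFn_sub (J Ω h) v, hv]
      with x a1 a2 a3
    rw [a1, Pi.smul_apply, a2, Pi.sub_apply, a3, smul_eq_mul]
    rcases le_total 0 (J Ω h x - k) with b | b
    · rw [abs_of_nonneg b, max_eq_left b]; ring
    · rw [abs_of_nonpos b, max_eq_right b]; ring
  · exact half_sq g2

/-- Compactness of the embedding in `L^q`. -/
def Cpt (Ω : Set (E N)) (q : ℝ) : Prop :=
  ∀ (h : ℕ → HS Ω) (R : ℝ), (∀ n, ‖h n‖ ≤ R) → ∃ φ : ℕ → ℕ, StrictMono φ ∧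
    ∀ ε > 0, ∃ n0, ∀ n ≥ n0, ∀ m ≥ n0, ∫ x, |J Ω (h (φ n) - h (φ m)) x| ^ q ≤ ε

lemma ex_p (hN : 2 ≤ N) {q : ℝ} (hqN : ((N:ℝ) - 2) * q < 2 * N) :
    ∃ p, q < p ∧ ((N:ℝ) - 2) * p < 2 * N := by
  have N0 : (2:ℝ) ≤ N := by exact_mod_cast hN
  have h1 : (0:ℝ) < N - 1 := by linarith
  have h2 : 0 < (2 * N - ((N:ℝ) - 2) * q) / (N - 1) := div_pos (by linarith) h1
  refine ⟨q + (2 * N - ((N:ℝ) - 2) * q) / (N - 1), by linarith, ?_⟩
  have := mul_div_cancel₀ (2 * N - ((N:ℝ) - 2) * q) h1.ne'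
  nlinarith

theorem exDS (hN : 2 ≤ N) {q : ℝ} (hq : 2 < q) (hqN : ((N:ℝ) - 2) * q < 2 * N) (hP : Poin Ω)
    (hc : Cpt Ω q) : ∃ D : DS volume (HS Ω) q, ∀ h, (D.j h : E N → ℝ) = J Ω h := by
  have N0 : (2:ℝ) ≤ N := by exact_mod_cast hN
  obtain ⟨p, qp, hp⟩ := ex_p hN hqN
  obtain ⟨C1, C10, h1⟩ := hP.emb hN (s := (2 + q) / 2) (by linarith) (by nlinarith)
  obtain ⟨C2, C20, h2⟩ := hP.emb hN hq.le hqN
  obtain ⟨C3, C30, h3⟩ := hP.emb hN (s := p) (by linarith) hp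
  refine ⟨{ j := { toFun := fun h => (J Ω h).1
                   map_add' := fun a b => by rw [map_add]; rfl
                   map_smul' := fun c a => by rw [map_smul]; rfl }
            r := (2 + q) / 2, p := p, C := C1 + C2 + C3, hr := by linarith, hrq := by linarith,
            hqp := qp, hC := by positivity, emb := ?_, trunc := fun h k hk => hP.trunc h hk,
            cpt := hc }, fun h => rfl⟩
  rintro s (rfl | rfl | rfl) h
  exacts [h1 _ (by linarith) h, h2 _ (by linarith) h, h3 _ (by linarith) h]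

lemma cpt_bdd (hN : 2 ≤ N) {q : ℝ} (hq : 2 < q) (hqN : ((N:ℝ) - 2) * q < 2 * N)
    (hΩ : Bornology.IsBounded Ω) : Cpt Ω q := by
  have hP := poin_bdd hN hΩ
  obtain ⟨p, qp, hp⟩ := ex_p hN hqN
  obtain ⟨C, C0, hC⟩ := hP.emb hN (s := p) (by linarith) hp
  intro h R hR
  have R0 : 0 ≤ R := (norm_nonneg _).trans (hR 0)
  obtain ⟨φ, hφ, hc⟩ := cpt_of_est (ι := E N) (J Ω) (fun ε hε => by
    obtain ⟨t, δ, c, -, ht⟩ := rellich hΩ hε
    refine ⟨t, fun y => indicatorConstLp 2 (measurableSet_ball (x := y) (ε := δ))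
      measure_ball_lt_top.ne 1, c, fun h => ?_⟩
    refine eL_dense.induction_on h (isClosed_le (by fun_prop) (by fun_prop)) fun ψ => ?_
    rw [hP.J_eq, valL_sq, eL_sq]
    refine (ht _ (Test.c1 ψ) ((subset_tsupport _).trans ψ.2.2.2)).trans (le_of_eq ?_)
    congr 2
    refine Finset.sum_congr rfl fun y _ => ?_
    rw [L2.inner_indicatorConstLp_one, integral_congr_ae (ae_restrict_of_ae (valL_coe ψ))]) hR
  refine ⟨φ, hφ, fun ε hε => ?_⟩
  have tt := (tendsto_rpow_neg_atTop (sub_pos.2 qp)).mul_const ((C * (2 * R)) ^ p)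
  rw [zero_mul] at tt
  obtain ⟨M, hM, M0⟩ := ((tt.eventually_le_const (half_pos hε)).and (eventually_gt_atTop 0)).exists
  obtain ⟨n0, hn0⟩ := Metric.cauchySeq_iff.1 hc (√(ε / 2 / M ^ (q - 2))) (by positivity)
  refine ⟨n0, fun n hn m hm => ?_⟩
  have a1 := hn0 n hn m hm
  rw [dist_eq_norm, ← map_sub, Real.lt_sqrt (norm_nonneg _), L2_sq _ (ae_eq_refl _),
    lt_div_iff₀ (by positivity)] at a1
  set d := h (φ n) - h (φ m)
  obtain ⟨a2, a3⟩ := hC C le_rfl d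
  have a4 : (C * ‖d‖) ^ p ≤ (C * (2 * R)) ^ p := by
    have : ‖d‖ ≤ 2 * R := by linarith [norm_sub_le (h (φ n)) (h (φ m)), hR (φ n), hR (φ m)]
    exact Real.rpow_le_rpow (by positivity) (by gcongr) (by linarith)
  have i1 := (Lp.memLp (J Ω d)).integrable_norm_pow two_ne_zero
  have a5 := integral_mono_of_nonneg (μ := volume) (f := fun x => |J Ω d x| ^ q)
    (ae_of_all _ fun x => by positivity)
    ((a2.const_mul (M ^ (-(p - q)))).add (i1.mul_const (M ^ (q - 2)))) (ae_of_all _ fun x => by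
      simp only [Pi.add_apply, Real.norm_eq_abs]
      have t0 := abs_nonneg (J Ω d x)
      set t := |J Ω d x|
      rcases le_total t M with b | b
      · have e : t ^ q = t ^ 2 * t ^ (q - 2) := by
          rw [← Real.rpow_natCast, ← Real.rpow_add' t0 (by push_cast; linarith)]
          congr 1; push_cast; ring
        have := mul_le_mul_of_nonneg_left (Real.rpow_le_rpow t0 b (by linarith : 0 ≤ q - 2))
          (sq_nonneg t)
        have : 0 ≤ M ^ (-(p - q)) * t ^ p := by positivity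
        linarith
      · have e : t ^ q = t ^ (-(p - q)) * t ^ p := by
          rw [← Real.rpow_add (M0.trans_le b)]; congr 1; ring
        have := mul_le_mul_of_nonneg_right (Real.rpow_le_rpow_of_nonpos M0 b
          (by linarith : -(p - q) ≤ 0)) (Real.rpow_nonneg t0 p)
        have : 0 ≤ t ^ 2 * M ^ (q - 2) := by positivity
        linarith)
  simp only [Pi.add_apply] at a5
  rw [integral_add (a2.const_mul _) (i1.mul_const _), integral_const_mul, integral_mul_const] at a5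
  have := mul_le_mul_of_nonneg_left (a3.trans a4) (by positivity : 0 ≤ M ^ (-(p - q)))
  linarith

end Pool.Agent.H27.Iso
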