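import Mathlib

/-! Definitions for the `q`-spectrum of the Dirichlet Laplacian. -/

open MeasureTheory Filter Topology

namespace Pool.Agent.H27.QSpec

variable {N : ℕ}

/-- `φ ∈ C_0^∞(Ω)`. -/
def Test (Ω : Set (EuclideanSpace ℝ (Fin N))) (φ : EuclideanSpace ℝ (Fin N) → ℝ) : Prop :=
  ContDiff ℝ (⊤ : ℕ∞) φ ∧ HasCompactSupport φ ∧ tsupport φ ⊆ Ω

/-- `u ∈ D^{1,2}_0(Ω) ⊆ L^q` with gradient `G`: there are test functions converging to `u` in `L^q`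
whose gradients converge to `G` in `L²`. -/
def D12 (Ω : Set (EuclideanSpace ℝ (Fin N))) (q : ℝ) (u : EuclideanSpace ℝ (Fin N) → ℝ)
    (G : EuclideanSpace ℝ (Fin N) → EuclideanSpace ℝ (Fin N)) : Prop :=
  MemLp u (ENNReal.ofReal q) volume ∧ MemLp G 2 volume ∧
    ∃ φ : ℕ → EuclideanSpace ℝ (Fin N) → ℝ, (∀ n, Test Ω (φ n)) ∧
      Tendsto (fun n => eLpNorm (fun x => φ n x - u x) (ENNReal.ofReal q) volume) atTop (𝓝 0) ∧
      Tendsto (fun n => eLpNorm (fun x => gradient (φ n) x - G x) 2 volume) atTop (𝓝 0)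

/-- `Ω` is `q`-admissible: on test functions, the `L^q` norm is bounded by the gradient norm, and
every sequence with bounded gradient norms has a subsequence converging in `L^q`. -/
def Adm (Ω : Set (EuclideanSpace ℝ (Fin N))) (q : ℝ) : Prop :=
  (∃ C : NNReal, ∀ φ, Test Ω φ →
    eLpNorm φ (ENNReal.ofReal q) volume ≤ C * eLpNorm (gradient φ) 2 volume) ∧
  ∀ (φ : ℕ → EuclideanSpace ℝ (Fin N) → ℝ) (R : NNReal), (∀ n, Test Ω (φ n)) →
    (∀ n, eLpNorm (gradient (φ n)) 2 volume ≤ R) →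
    ∃ (v : EuclideanSpace ℝ (Fin N) → ℝ) (k : ℕ → ℕ), StrictMono k ∧
      MemLp v (ENNReal.ofReal q) volume ∧
      Tendsto (fun n => eLpNorm (fun x => φ (k n) x - v x) (ENNReal.ofReal q) volume) atTop (𝓝 0)

/-- `u ≠ 0` in `D^{1,2}_0(Ω)` solves `-Δu = l ‖u‖_q^(2-q) |u|^(q-2) u` weakly. -/
def IsEig (Ω : Set (EuclideanSpace ℝ (Fin N))) (q l : ℝ) (u : EuclideanSpace ℝ (Fin N) → ℝ) :
    Prop :=
  ∃ G, D12 Ω q u G ∧ ¬ (u =ᵐ[volume] 0) ∧ ∀ ψ, Test Ω ψ →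
    ∫ x, inner ℝ (G x) (gradient ψ x) =
      l * (eLpNorm u (ENNReal.ofReal q) volume).toReal ^ (2 - q) *
        ∫ x, |u x| ^ (q - 2) * u x * ψ x

/-- The `q`-spectrum. -/
def Spec (Ω : Set (EuclideanSpace ℝ (Fin N))) (q : ℝ) : Set ℝ := {l | ∃ u, IsEig Ω q l u}

/-- The first `q`-eigenvalue. -/
noncomputable def lam1 (Ω : Set (EuclideanSpace ℝ (Fin N))) (q : ℝ) : ℝ :=
  sInf {t | ∃ u G, D12 Ω q u G ∧ eLpNorm u (ENNReal.ofReal q) volume = 1 ∧ t = ∫ x, ‖G x‖ ^ 2}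

end Pool.Agent.H27.QSpec
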