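import Pool.Agent.H27.Iso10
import Pool.Agent.H27.QDef

/-! Link between the abstract theory and weak solutions. -/

open Set Filter Topology MeasureTheory Metric
open scoped ENNReal RealInnerProductSpace

namespace Pool.Agent.H27.Iso

variable {N : ℕ} {Ω : Set (E N)} {q : ℝ}

/-- The class of limits of test functions, with values converging in `L^p`. -/
def W (p : ℝ≥0∞) (Ω : Set (E N)) (u : E N → ℝ) (G : E N → E N) : Prop :=
  MemLp u p volume ∧ MemLp G 2 volume ∧ ∃ φ : ℕ → E N → ℝ, (∀ n, IsTest Ω (φ n)) ∧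
    Tendsto (fun n => eLpNorm (fun x => φ n x - u x) p volume) atTop (𝓝 0) ∧
    Tendsto (fun n => eLpNorm (fun x => gradient (φ n) x - G x) 2 volume) atTop (𝓝 0)

/-- `h` represents the pair `(u, G)`. -/
def Rep (h : HS Ω) (u : E N → ℝ) (G : E N → E N) : Prop :=
  (h.1 =ᵐ[volume] G) ∧ J Ω h =ᵐ[volume] u

lemma Poin.of_W (hP : Poin Ω) {p : ℝ≥0∞} (hp : p ≠ 0) {u : E N → ℝ} {G : E N → E N}
    (h : W p Ω u G) : ∃ h : HS Ω, Rep h u G := by
  obtain ⟨hu, hG, φ, hφ, h1, h2⟩ := h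
  let ψ : ℕ → Test Ω := fun n => ⟨φ n, hφ n⟩
  have t1 : Tendsto (fun n => gradL Ω (ψ n)) atTop (𝓝 (hG.toLp _)) := by
    rw [Lp.tendsto_Lp_iff_tendsto_eLpNorm']
    refine h2.congr fun n => eLpNorm_congr_ae ?_
    filter_upwards [gradL_coe (ψ n), hG.coeFn_toLp] with x a1 a2
    rw [Pi.sub_apply, a1, a2]
  have hm : hG.toLp _ ∈ HS Ω :=
    mem_closure_of_tendsto t1 (Eventually.of_forall fun n => ⟨ψ n, rfl⟩)
  refine ⟨⟨_, hm⟩, hG.coeFn_toLp, ?_⟩
  have t2 : Tendsto (fun n => eL Ω (ψ n)) atTop (𝓝 ⟨_, hm⟩) := tendsto_subtype_rng.2 t1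
  have t3 := tendstoInMeasure_of_tendsto_Lp (((J Ω).continuous.tendsto _).comp t2)
  exact tendstoInMeasure_ae_unique (t3.congr_left fun n => hP.J_coe (ψ n))
    (tendstoInMeasure_of_tendsto_eLpNorm hp (fun n => (hφ n).c1.cont.aestronglyMeasurable) hu.1 h1)

lemma Rep.norm {h : HS Ω} {u : E N → ℝ} {G : E N → E N} (r : Rep h u G) :
    ‖h‖ ^ 2 = ∫ x, ‖G x‖ ^ 2 := L2_sq h.1 r.1

lemma Rep.inner {h k : HS Ω} {u v : E N → ℝ} {G F : E N → E N} (r : Rep h u G) (r' : Rep k v F) :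
    ⟪h, k⟫ = ∫ x, ⟪G x, F x⟫ := by
  change ⟪h.1, k.1⟫ = _
  rw [L2.inner_def]
  refine integral_congr_ae ?_
  filter_upwards [r.1, r'.1] with x a1 a2
  rw [a1, a2]

lemma Poin.rep_test (hP : Poin Ω) (φ : Test Ω) : Rep (eL Ω φ) φ.1 (gradient φ.1) :=
  ⟨gradL_coe φ, hP.J_coe φ⟩

lemma rep_self (h : HS Ω) : Rep h (J Ω h) h.1 := ⟨ae_eq_refl _, ae_eq_refl _⟩

/-- The Dirichlet space is realised by `J`. -/
structure Real' (D : DS (volume : Measure (E N)) (HS Ω) q) : Prop where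
  hP : Poin Ω
  eq : ∀ h, (D.j h : E N → ℝ) = J Ω h

variable {D : DS (volume : Measure (E N)) (HS Ω) q}

lemma Real'.eLp (hD : Real' D) (h : HS Ω) :
    eLpNorm (J Ω h) (ENNReal.ofReal q) volume ≤ ENNReal.ofReal (D.C * ‖h‖) := by
  have hC := D.hC
  refine eLp_le_of_int (Lp.aestronglyMeasurable _) (by linarith [D.hq]) (by positivity) ?_ ?_
  · simpa only [hD.eq, Real.norm_eq_abs] using D.intq h
  · simpa only [hD.eq, Real.norm_eq_abs] using D.embq h

lemma Real'.to_W (hD : Real' D) {p : ℝ≥0∞} (hp : p = 2 ∨ p = ENNReal.ofReal q) (h : HS Ω) :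
    W p Ω (J Ω h) h.1 := by
  obtain ⟨φ, h1, h2⟩ := hD.hP.approx h
  have g : Tendsto (fun n => eLpNorm (fun x => gradient (φ n).1 x - h.1 x) 2 volume) atTop
      (𝓝 0) := by
    have := (Lp.tendsto_Lp_iff_tendsto_eLpNorm' _ _).1 (tendsto_subtype_rng.1 h1)
    refine this.congr fun n => eLpNorm_congr_ae ?_
    filter_upwards [gradL_coe (φ n)] with x a1
    rw [Pi.sub_apply, ← a1]; rfl
  rcases hp with rfl | rfl
  · refine ⟨Lp.memLp _, Lp.memLp _, fun n => (φ n).1, fun n => (φ n).2, ?_, g⟩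
    refine ((Lp.tendsto_Lp_iff_tendsto_eLpNorm' _ _).1 h2).congr fun n => eLpNorm_congr_ae ?_
    filter_upwards [valL_coe (φ n)] with x a1
    rw [Pi.sub_apply, a1]
  · refine ⟨⟨Lp.aestronglyMeasurable _, (hD.eLp h).trans_lt ENNReal.ofReal_lt_top⟩, Lp.memLp _,
      fun n => (φ n).1, fun n => (φ n).2, ?_, g⟩
    have t := ENNReal.tendsto_ofReal ((tendsto_iff_norm_sub_tendsto_zero.1 h1).const_mul D.C)
    rw [mul_zero, ENNReal.ofReal_zero] at t
    refine tendsto_of_tendsto_of_tendsto_of_le_of_le tendsto_const_nhds t (fun n => zero_le)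
      fun n => le_of_eq_of_le (eLpNorm_congr_ae ?_) (hD.eLp (eL Ω (φ n) - h))
    rw [map_sub]
    filter_upwards [Lp.coeFn_sub (J Ω (eL Ω (φ n))) (J Ω h), hD.hP.J_coe (φ n)] with x a1 a2
    rw [a1, Pi.sub_apply, a2]

lemma Real'.j_eq (hD : Real' D) {h : HS Ω} {u : E N → ℝ} {G : E N → E N} (r : Rep h u G) :
    D.j h =ᵐ[volume] u := by rw [hD.eq]; exact r.2

lemma Real'.m_eq (hD : Real' D) {h : HS Ω} {u : E N → ℝ} {G : E N → E N} (r : Rep h u G)
    (A : Set (E N)) : D.m A h = ∫ x in A, |u x| ^ q :=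
  integral_congr_ae (ae_restrict_of_ae ((hD.j_eq r).mono fun x hx => by simp only [hx]))

lemma Real'.eLp_eq (hD : Real' D) {h : HS Ω} {u : E N → ℝ} {G : E N → E N} (r : Rep h u G) :
    eLpNorm u (ENNReal.ofReal q) volume = ENNReal.ofReal (D.m univ h ^ q⁻¹) := by
  rw [← eLpNorm_congr_ae (hD.j_eq r), Iso.eLp_eq (D.j h).aestronglyMeasurable
    (by linarith [D.hq]) (D.intq h), DS.m_univ]
  rfl

lemma Real'.one_iff (hD : Real' D) {h : HS Ω} {u : E N → ℝ} {G : E N → E N} (r : Rep h u G) :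
    eLpNorm u (ENNReal.ofReal q) volume = 1 ↔ D.m univ h = 1 := by
  have q0 : q⁻¹ ≠ 0 := inv_ne_zero (by linarith [D.hq])
  rw [hD.eLp_eq r, ENNReal.ofReal_eq_one]
  refine ⟨fun h1 => Real.rpow_left_injOn q0 (D.m_nonneg _ _) (zero_le_one' ℝ) (by simpa using h1),
    fun h1 => by rw [h1, Real.one_rpow]⟩

lemma Real'.lam_eq (hD : Real' D) {p : ℝ≥0∞} (hp : p = 2 ∨ p = ENNReal.ofReal q) :
    sInf {t | ∃ u G, W p Ω u G ∧ eLpNorm u (ENNReal.ofReal q) volume = 1 ∧ t = ∫ x, ‖G x‖ ^ 2} =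
      D.lam := by
  have p0 : p ≠ 0 := by
    rcases hp with rfl | rfl
    · simp
    · simpa using (by linarith [D.hq] : 0 < q)
  rw [DS.lam]
  congr 1
  ext t
  constructor
  · rintro ⟨u, G, h1, h2, rfl⟩
    obtain ⟨h, r⟩ := hD.hP.of_W p0 h1
    exact ⟨h, (hD.one_iff r).1 h2, r.norm.symm⟩
  · rintro ⟨h, h1, rfl⟩
    exact ⟨_, _, hD.to_W hp h, (hD.one_iff (rep_self h)).2 h1, (rep_self h).norm⟩

lemma Real'.eig (hD : Real' D) {h : HS Ω} {u : E N → ℝ} {G : E N → E N} (r : Rep h u G) {l : ℝ}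
    (h1 : D.m univ h = 1) (h2 : ∀ ψ, IsTest Ω ψ →
      ∫ x, ⟪G x, gradient ψ x⟫ = l * ∫ x, |u x| ^ (q - 2) * u x * ψ x) : D.Eig h l := by
  have q2 := D.hq
  have m := D.meas h
  obtain ⟨g, hg⟩ := D.green (f := fun z => l * (|D.j h z| ^ (q - 2) * D.j h z)) (A := |l|)
    (Measurable.aestronglyMeasurable (by fun_prop)) m (D.intq h) (abs_nonneg _)
    (by rw [← DS.m_univ, h1]) (ae_of_all _ fun z => by
      have := DS.pw_eq q2 (abs_nonneg (D.j h z))
      rw [abs_abs] at this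
      rw [abs_mul, abs_mul, abs_of_nonneg (Real.rpow_nonneg (abs_nonneg _) _), this])
  have e : h = g := by
    refine ext_inner_right ℝ fun φ => ?_
    refine eL_dense.induction_on φ (isClosed_eq (by fun_prop) (by fun_prop)) fun ψ => ?_
    refine (r.inner (hD.hP.rep_test ψ)).trans ((h2 _ ψ.2).trans (Eq.trans ?_ (hg _).2.symm))
    rw [← integral_const_mul]
    refine integral_congr_ae ?_
    filter_upwards [hD.j_eq r, hD.j_eq (hD.hP.rep_test ψ)] with x a1 a2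
    rw [a1, a2, mul_assoc l]
  exact ⟨h1, by rw [← e] at hg; exact hg⟩

lemma Real'.weak (hD : Real' D) {h k : HS Ω} {u v : E N → ℝ} {G F : E N → E N} (r : Rep h u G)
    (r' : Rep k v F) {l : ℝ} (h1 : D.Eig h l) :
    ∫ x, ⟪G x, F x⟫ = l * ∫ x, |u x| ^ (q - 2) * u x * v x := by
  refine (r.inner r').symm.trans ((h1.src k).2.trans ?_)
  rw [← integral_const_mul]
  refine integral_congr_ae ?_
  filter_upwards [hD.j_eq r, hD.j_eq r'] with x a1 a2
  rw [a1, a2, mul_assoc l]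

theorem real_bdd (hN : 2 ≤ N) (hq : 2 < q) (hqN : ((N:ℝ) - 2) * q < 2 * N)
    (hΩ : Bornology.IsBounded Ω) : ∃ D : DS (volume : Measure (E N)) (HS Ω) q, Real' D := by
  obtain ⟨D, hD⟩ := exDS hN hq hqN (poin_bdd hN hΩ) (cpt_bdd hN hq hqN hΩ)
  exact ⟨D, poin_bdd hN hΩ, hD⟩

lemma eLp_grad (φ : Test Ω) : eLpNorm (gradient φ.1) 2 volume = ENNReal.ofReal ‖eL Ω φ‖ := by
  change _ = ENNReal.ofReal ‖gradL Ω φ‖
  rw [Lp.norm_def, ENNReal.ofReal_toReal (Lp.eLpNorm_ne_top _), eLpNorm_congr_ae (gradL_coe φ)]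

theorem real_adm (hN : 2 ≤ N) (hq : 2 < q) (hqN : ((N:ℝ) - 2) * q < 2 * N)
    (hΩ : QSpec.Adm Ω q) : ∃ D : DS (volume : Measure (E N)) (HS Ω) q, Real' D := by
  obtain ⟨⟨C, hC⟩, hc⟩ := hΩ
  have q0 : 0 < q := by linarith
  have q1 : 1 ≤ ENNReal.ofReal q := by simpa using (by linarith : 1 ≤ q)
  have hP : Poin Ω := poin_of_q (C := C) hq hqN C.coe_nonneg fun φ hφ T T0 hT => by
    refine (int_le_of_eLp hφ.c1.cont.aestronglyMeasurable q0 (mul_nonneg C.coe_nonneg T0)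
      ((hC φ hφ).trans ?_)).2
    rw [eLp_grad ⟨φ, hφ⟩, ENNReal.ofReal_mul C.coe_nonneg, ENNReal.ofReal_coe_nnreal]
    refine mul_le_mul_right (ENNReal.ofReal_le_ofReal ?_) _
    exact le_of_sq_le_sq (by rw [eL_sq]; exact hT) T0
  obtain ⟨K, K0, hK⟩ := hP.emb hN hq.le hqN
  obtain ⟨D, hD⟩ := exDS hN hq hqN hP fun h R hR => by
    have R0 : 0 ≤ R := (norm_nonneg _).trans (hR 0)
    choose φ hφ using fun n : ℕ => eL_dense.exists_dist_lt (h n)
      (Nat.one_div_pos_of_nat : 0 < 1 / ((n:ℝ) + 1))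
    obtain ⟨v, k, hk, hv, ht⟩ := hc (fun n => (φ n).1) ⟨R + 1, by positivity⟩ (fun n => (φ n).2)
      fun n => by
        rw [eLp_grad, ← ENNReal.ofReal_coe_nnreal]
        refine ENNReal.ofReal_le_ofReal ?_
        have a1 := hφ n
        have a2 : 1 / ((n:ℝ) + 1) ≤ 1 := Nat.cast_add_one_pos n |> fun h => by
          rw [div_le_one h]; linarith [n.cast_nonneg (α := ℝ)]
        have a3 := norm_le_norm_add_norm_sub' (eL Ω (φ n)) (h n)
        rw [dist_comm, dist_eq_norm] at a1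
        change _ ≤ R + 1
        linarith [hR n]
    have t1 : Tendsto (fun n => eLpNorm (fun x => J Ω (h (k n)) x - v x) (ENNReal.ofReal q) volume)
        atTop (𝓝 0) := by
      have t := ENNReal.tendsto_ofReal ((tendsto_one_div_add_atTop_nhds_zero_nat.comp
        hk.tendsto_atTop).const_mul K)
      have t' := t.add ht
      rw [mul_zero, ENNReal.ofReal_zero, add_zero] at t'
      refine tendsto_of_tendsto_of_tendsto_of_le_of_le tendsto_const_nhds t' (fun n => zero_le)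
        fun n => ?_
      have a1 := eLpNorm_add_le (Lp.aestronglyMeasurable (J Ω (h (k n) - eL Ω (φ (k n)))))
        ((Test.c1 (φ (k n))).cont.aestronglyMeasurable.sub hv.1) q1
      refine le_of_eq_of_le (eLpNorm_congr_ae ?_) (a1.trans (add_le_add ?_ le_rfl))
      · rw [map_sub]
        filter_upwards [Lp.coeFn_sub (J Ω (h (k n))) (J Ω (eL Ω (φ (k n)))), hP.J_coe (φ (k n))]
          with x b1 b2
        rw [Pi.add_apply, b1, Pi.sub_apply, Pi.sub_apply, b2]; ring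
      · obtain ⟨b1, b2⟩ := hK K le_rfl (h (k n) - eL Ω (φ (k n)))
        refine eLp_le_of_int (Lp.aestronglyMeasurable _) q0 (by simp only [Function.comp_apply]; positivity) b1
          (b2.trans (Real.rpow_le_rpow (by positivity) ?_ q0.le))
        exact mul_le_mul_of_nonneg_left (by rw [← dist_eq_norm]; exact (hφ _).le) K0.le
    refine ⟨k, hk, fun ε hε => ?_⟩
    obtain ⟨n0, hn0⟩ := eventually_atTop.1 (t1.eventually_le_const
      (ENNReal.ofReal_pos.2 (by positivity : 0 < ε ^ q⁻¹ / 2)))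
    refine ⟨n0, fun n hn m hm => ?_⟩
    have a1 := eLpNorm_sub_le ((Lp.aestronglyMeasurable (J Ω (h (k n)))).sub hv.1)
      ((Lp.aestronglyMeasurable (J Ω (h (k m)))).sub hv.1) q1
    have a2 := a1.trans (add_le_add (hn0 n hn) (hn0 m hm))
    rw [← ENNReal.ofReal_add (by positivity) (by positivity), add_halves] at a2
    have a3 := (int_le_of_eLp (f := J Ω (h (k n) - h (k m))) (Lp.aestronglyMeasurable _) q0
      (by positivity) (le_of_eq_of_le (eLpNorm_congr_ae (by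
        rw [map_sub]
        filter_upwards [Lp.coeFn_sub (J Ω (h (k n))) (J Ω (h (k m)))] with x b1
        rw [b1]; simp)) a2)).2
    rwa [← Real.rpow_mul hε.le, inv_mul_cancel₀ q0.ne', Real.rpow_one] at a3
  exact ⟨D, hP, hD⟩

lemma Real'.isEig (hD : Real' D) {l : ℝ} {u : E N → ℝ} (h : QSpec.IsEig Ω q l u) :
    ∃ k, D.Eig k l ∧ ∃ c, 0 < c ∧ D.j k =ᵐ[volume] fun x => c * u x := by
  obtain ⟨G, h1, h2, h3⟩ := h
  have q2 := D.hq
  have q0 : 0 < q := by linarith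
  obtain ⟨h, r⟩ := hD.hP.of_W (by simpa using q0) h1
  have a0 : 0 < D.m univ h := by
    refine lt_of_le_of_ne (D.m_nonneg _ _) fun h0 => h2 ?_
    rw [← eLpNorm_eq_zero_iff h1.1.1 (by simpa using q0 : ENNReal.ofReal q ≠ 0), hD.eLp_eq r, ← h0,
      Real.zero_rpow (by positivity), ENNReal.ofReal_zero]
  rw [hD.eLp_eq r, ENNReal.toReal_ofReal (by positivity)] at h3
  set a := D.m univ h ^ q⁻¹ with ha
  have a1 : 0 < a := by positivity
  have r' : Rep (a⁻¹ • h) (fun x => a⁻¹ * u x) fun x => a⁻¹ • G x := by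
    constructor
    · filter_upwards [Lp.coeFn_smul a⁻¹ h.1, r.1] with x b1 b2
      rw [← b2]; exact b1
    · rw [map_smul]
      filter_upwards [Lp.coeFn_smul a⁻¹ (J Ω h), r.2] with x b1 b2
      rw [← b2]; exact b1
  refine ⟨a⁻¹ • h, hD.eig r' ?_ fun ψ hψ => ?_, a⁻¹, by positivity, hD.j_eq r'⟩
  · rw [D.m_smul _ (by positivity), Real.inv_rpow a1.le, ha, ← Real.rpow_mul a0.le,
      inv_mul_cancel₀ q0.ne', Real.rpow_one, inv_mul_cancel₀ a0.ne']
  · simp only [real_inner_smul_left]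
    rw [integral_const_mul, h3 ψ hψ, mul_assoc l, mul_left_comm, ← integral_const_mul,
      ← integral_const_mul]
    congr 2; funext x
    rw [abs_mul, abs_of_pos (inv_pos.2 a1), Real.mul_rpow (by positivity) (abs_nonneg _),
      Real.inv_rpow a1.le, ← Real.rpow_neg a1.le, neg_sub]
    ring

lemma Real'.toEig (hD : Real' D) {l : ℝ} {h : HS Ω} (he : D.Eig h l) :
    QSpec.IsEig Ω q l (J Ω h) := by
  have e := (hD.one_iff (rep_self h)).2 he.one
  refine ⟨_, hD.to_W (Or.inr rfl) h, fun h0 => ?_, fun ψ hψ => ?_⟩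
  · rw [eLpNorm_congr_ae h0, eLpNorm_zero] at e
    exact zero_ne_one e
  · rw [e, ENNReal.toReal_one, Real.one_rpow, mul_one]
    exact hD.weak (rep_self h) (hD.hP.rep_test ⟨ψ, hψ⟩) he

end Pool.Agent.H27.Iso
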