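import Pool.Agent.H27.Iso11

/-! Chambers joined by tiny holes: decoupling estimates and local minimisers. -/

open Set Filter Topology MeasureTheory Metric
open scoped ENNReal RealInnerProductSpace

namespace Pool.Agent.H27.Iso

section abstract
variable {Z : Type} [MeasurableSpace Z] {μ : Measure Z} {H : Type} [NormedAddCommGroup H]
  [InnerProductSpace ℝ H] {q : ℝ}

/-- Decoupling inequality. -/
def DS.Dec (D : DS μ H q) (U : Set Z) (a b σ θ : ℝ) : Prop :=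
  ∀ h, a * max (D.m U h - σ * (‖h‖ ^ 2) ^ (q / 2)) 0 ^ (2 / q) +
    b * max (D.m Uᶜ h - σ * (‖h‖ ^ 2) ^ (q / 2)) 0 ^ (2 / q) ≤ (1 + θ) * ‖h‖ ^ 2

lemma DS.m_compl (D : DS μ H q) {U : Set Z} (hU : MeasurableSet U) (h : H) :
    D.m U h + D.m Uᶜ h = D.m univ h := by
  rw [D.m_univ]; exact integral_add_compl hU (D.intq h)

lemma le_rpow_self {x y p : ℝ} (p0 : 0 ≤ p) (p1 : p ≤ 1) (x0 : 0 ≤ x) (x1 : x ≤ 1) (h : x ≤ y) :
    x ≤ y ^ p := by
  refine le_trans ?_ (Real.rpow_le_rpow x0 h p0)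
  simpa using Real.rpow_le_rpow_of_exponent_ge' x0 x1 p0 p1

lemma DS.Dec.low {D : DS μ H q} {U : Set Z} {a b σ θ : ℝ} (hd : D.Dec U a b σ θ) (a0 : 0 ≤ a)
    (b0 : 0 ≤ b) (σ0 : 0 ≤ σ) (hσ : σ * (2 * a) ^ (q / 2) ≤ θ / 2) {h : H} (hh : ‖h‖ ^ 2 ≤ 2 * a) :
    a * max (D.m U h - θ / 2) 0 ^ (2 / q) + b * max (D.m Uᶜ h - θ / 2) 0 ^ (2 / q) ≤
      (1 + θ) * ‖h‖ ^ 2 := by
  have q0 : 0 < q := by linarith [D.hq]
  have e : σ * (‖h‖ ^ 2) ^ (q / 2) ≤ θ / 2 := le_trans (mul_le_mul_of_nonneg_left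
    (Real.rpow_le_rpow (sq_nonneg _) hh (by positivity)) σ0) hσ
  refine le_trans (add_le_add (mul_le_mul_of_nonneg_left ?_ a0)
    (mul_le_mul_of_nonneg_left ?_ b0)) (hd h) <;>
  exact Real.rpow_le_rpow (le_max_right _ _) (max_le_max (by linarith) le_rfl) (by positivity)

lemma DS.chamber [CompleteSpace H] {D : DS μ H q} {U : Set Z} (hU : MeasurableSet U)
    {a b σ θ : ℝ} (hd : D.Dec U a b σ θ) (a0 : 0 < a) (b0 : 0 ≤ b) (σ0 : 0 ≤ σ) (θ0 : 0 < θ)
    (θ1 : θ ≤ 1 / 4) (hσ : σ * (2 * a) ^ (q / 2) ≤ θ / 2) (hθ : 6 * θ * a < b * (θ / 2) ^ (2 / q))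
    {h0 : H} (a1 : D.m univ h0 = 1) (a2 : D.m Uᶜ h0 = 0) (a3 : ‖h0‖ ^ 2 ≤ (1 + θ) * a) :
    ∃ h l, D.Pos h l ∧ l ≤ (1 + θ) * a ∧ a * (1 - 2 * θ) ≤ (1 + θ) * l := by
  have q2 := D.hq
  have q0 : 0 < q := by linarith
  have p0 : 0 ≤ 2 / q := by positivity
  have p1 : 2 / q ≤ 1 := by rw [div_le_one q0]; exact q2.le
  obtain ⟨h, b1, b2, b3⟩ := D.local_min Uᶜ θ0 a1 (by rw [a2]; exact θ0.le) fun g g1 g2 g3 => by
    by_contra hc
    push Not at hc
    have c1 := hd.low a0.le b0 σ0 hσ (h := g) (by nlinarith)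
    have c2 := D.m_compl hU g
    have c3 : 1 - 3 * θ ≤ max (D.m U g - θ / 2) 0 ^ (2 / q) :=
      le_rpow_self p0 p1 (by linarith) (by linarith) (le_max_of_le_left (by linarith))
    have c4 : (θ / 2) ^ (2 / q) ≤ max (D.m Uᶜ g - θ / 2) 0 ^ (2 / q) :=
      Real.rpow_le_rpow (by positivity) (le_max_of_le_left (by linarith)) p0
    have c5 := mul_le_mul_of_nonneg_left c3 a0.le
    have c6 := mul_le_mul_of_nonneg_left c4 b0
    have c7 := mul_le_mul_of_nonneg_left (hc.trans a3) (by linarith : 0 ≤ 1 + θ)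
    have c8 : θ * θ * a ≤ θ * a := by
      have := mul_pos θ0 a0
      nlinarith
    linarith
  have b4 := (b3 h0 a1 (by rw [a2]; exact θ0)).trans a3
  refine ⟨h, _, b1, b4, ?_⟩
  have c1 := hd.low a0.le b0 σ0 hσ (h := h) (by nlinarith)
  have c2 := D.m_compl hU h
  rw [D.m_univ, b1.one] at c2
  have c3 : 1 - 2 * θ ≤ max (D.m U h - θ / 2) 0 ^ (2 / q) :=
    le_rpow_self p0 p1 (by linarith) (by linarith) (le_max_of_le_left (by linarith))
  have c5 := mul_le_mul_of_nonneg_left c3 a0.le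
  have c6 := mul_nonneg b0 (Real.rpow_nonneg (le_max_right (D.m Uᶜ h - θ / 2) 0) (2 / q))
  linarith

lemma DS.first [CompleteSpace H] (D : DS μ H q) {h0 : H} (a1 : D.m univ h0 = 1) :
    ∃ h, D.m univ h = 1 ∧ ‖h‖ ^ 2 = D.lam := by
  obtain ⟨h, b1, b2⟩ := D.exists_min univ (P := fun _ => 0) continuous_const (fun _ => le_rfl) a1
  refine ⟨h, b1, le_antisymm (le_csInf ⟨_, h0, a1, rfl⟩ ?_) (D.lam_le b1)⟩
  rintro _ ⟨g, hg, rfl⟩
  simpa using b2 g hg

lemma DS.Dec.lam [CompleteSpace H] {D : DS μ H q} {U : Set Z} (hU : MeasurableSet U)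
    {a b σ θ : ℝ} (hd : D.Dec U a b σ θ) (b0 : 0 ≤ b) (ba : b ≤ a) (σ0 : 0 ≤ σ) (θ0 : 0 < θ)
    (θ1 : θ ≤ 1 / 4) (hσ : σ * (2 * a) ^ (q / 2) ≤ θ / 2) {h0 : H} (a1 : D.m univ h0 = 1)
    (hl : D.lam ≤ b) : b * (1 - θ) ≤ (1 + θ) * D.lam := by
  have q2 := D.hq
  have q0 : 0 < q := by linarith
  have p0 : 0 ≤ 2 / q := by positivity
  have p1 : 2 / q ≤ 1 := by rw [div_le_one q0]; exact q2.le
  obtain ⟨h, b1, b2⟩ := D.first a1
  have c1 := hd.low (b0.trans ba) b0 σ0 hσ (h := h) (by linarith)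
  have c2 := D.m_compl hU h
  have c3 := Real.rpow_add_le_add_rpow (le_max_right (D.m U h - θ / 2) 0)
    (le_max_right (D.m Uᶜ h - θ / 2) 0) p0 p1
  have c4 := (le_rpow_self (x := 1 - θ) p0 p1 (by linarith) (by linarith) (by
    linarith [le_max_left (D.m U h - θ / 2) 0, le_max_left (D.m Uᶜ h - θ / 2) 0])).trans c3
  have c5 := mul_le_mul_of_nonneg_left c4 b0
  have c6 := mul_le_mul_of_nonneg_right ba
    (Real.rpow_nonneg (le_max_right (D.m U h - θ / 2) 0) (2 / q))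
  rw [← b2]; linarith

lemma small_theta {a b : ℝ} (hq : 2 < q) (b0 : 0 < b) :
    ∀ᶠ θ in 𝓝[>] (0:ℝ), 6 * θ * a < b * (θ / 2) ^ (2 / q) := by
  have q0 : 0 < q := by linarith
  have e0 : 0 < 1 - 2 / q := by rw [sub_pos, div_lt_one q0]; exact hq
  have tt : Tendsto (fun t : ℝ => 12 * a * (t / 2) ^ (1 - 2 / q)) (𝓝[>] 0) (𝓝 0) := by
    have c : Continuous fun t : ℝ => 12 * a * (t / 2) ^ (1 - 2 / q) :=
      continuous_const.mul ((continuous_id.div_const 2).rpow_const fun _ => Or.inr e0.le)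
    simpa [e0.ne'] using (c.tendsto 0).mono_left (nhdsWithin_le_nhds (s := Ioi 0))
  filter_upwards [tt.eventually_lt_const b0, self_mem_nhdsWithin] with θ h1 h2
  have θ0 : 0 < θ / 2 := half_pos h2
  have e : θ / 2 = (θ / 2) ^ (1 - 2 / q) * (θ / 2) ^ (2 / q) := by
    rw [← Real.rpow_add θ0, sub_add_cancel, Real.rpow_one]
  have := mul_lt_mul_of_pos_right h1 (Real.rpow_pos_of_pos θ0 (2 / q))
  rw [mul_assoc, ← e] at this
  linarith

end abstract

variable {N : ℕ} {Ω U V : Set (E N)} {q : ℝ}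

/-- Sobolev inequality on `U` with constant `c`. -/
def Sob (q : ℝ) (U : Set (E N)) (c : ℝ) : Prop :=
  ∀ φ, IsTest U φ → c * (∫ x, |φ x| ^ q) ^ (2 / q) ≤ En φ

lemma IsTest.mono {φ : E N → ℝ} (h : IsTest U φ) (hU : U ⊆ V) : IsTest V φ :=
  ⟨h.1, h.2.1, h.2.2.trans hU⟩

lemma Sob.mono {c : ℝ} (h : Sob q V c) (hU : U ⊆ V) : Sob q U c := fun φ hφ => h φ (hφ.mono hU)

/-- Best Sobolev constant. -/
noncomputable def Sq (q : ℝ) (U : Set (E N)) : ℝ :=
  sInf {t | ∃ φ, IsTest U φ ∧ ∫ x, |φ x| ^ q = 1 ∧ t = En φ}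

lemma IsTest.normalize (hq : 0 < q) {φ : E N → ℝ} (h : IsTest U φ) (a0 : 0 < ∫ x, |φ x| ^ q) :
    ∃ ψ, IsTest U ψ ∧ ∫ x, |ψ x| ^ q = 1 ∧ En ψ * (∫ x, |φ x| ^ q) ^ (2 / q) = En φ := by
  set a := ∫ x, |φ x| ^ q with ha
  have c0 : 0 < a ^ (-1 / q) := by positivity
  refine ⟨fun x => a ^ (-1 / q) * φ x, h.mul contDiff_const, ?_, ?_⟩
  · simp only [abs_mul, abs_of_pos c0, Real.mul_rpow c0.le (abs_nonneg _)]
    rw [integral_const_mul, ← Real.rpow_mul a0.le, div_mul_cancel₀ _ hq.ne', Real.rpow_neg_one,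
      inv_mul_cancel₀ a0.ne']
  · unfold En
    simp only [fderiv_const_mul (h.c1.diff _), norm_smul, mul_pow, Real.norm_of_nonneg c0.le]
    rw [integral_const_mul, mul_right_comm, ← Real.rpow_natCast, ← Real.rpow_mul a0.le,
      ← Real.rpow_add a0, show -1 / q * ((2:ℕ):ℝ) + 2 / q = 0 by push_cast; ring, Real.rpow_zero,
      one_mul]

lemma Sq_nonneg : 0 ≤ Sq q U := Real.sInf_nonneg fun _ ⟨_, _, _, e⟩ => e ▸ En_nonneg _

lemma Sq_sob (hq : 0 < q) : Sob q U (Sq q U) := fun φ hφ => by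
  rcases (integral_nonneg fun x => by positivity : 0 ≤ ∫ x, |φ x| ^ q).eq_or_lt with h0 | h0
  · rw [← h0, Real.zero_rpow (by positivity), mul_zero]; exact En_nonneg _
  · obtain ⟨ψ, h1, h2, h3⟩ := hφ.normalize hq h0
    rw [← h3]
    exact mul_le_mul_of_nonneg_right (csInf_le ⟨0, fun _ ⟨_, _, _, e⟩ => e ▸ En_nonneg _⟩
      ⟨ψ, h1, h2, rfl⟩) (by positivity)

lemma ex_test (hq : 0 < q) (y : E N) {r : ℝ} (hr : 0 < r) :
    ∃ φ, IsTest (ball y r) φ ∧ ∫ x, |φ x| ^ q = 1 := by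
  obtain ⟨L, -, hL⟩ := cutoff (N := N)
  obtain ⟨η, h1, -, h3, h4, -⟩ := hL y (r / 2) (half_pos hr)
  rw [mul_div_cancel₀ _ two_ne_zero] at h4
  have t : IsTest (ball y r) η := ⟨h1, (isCompact_closedBall y r).of_isClosed_subset
    isClosed_closure (h4.trans ball_subset_closedBall), h4⟩
  obtain ⟨ψ, a1, a2, -⟩ := t.normalize hq (Continuous.integral_pos_of_hasCompactSupport_nonneg_nonzero
    (f := fun x => |η x| ^ q) (x := y) (t.c1.cont.abs.rpow_const fun _ => Or.inr hq.le)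
    (t.2.1.comp_left (g := fun s => |s| ^ q) (by simp [hq.ne'])) (fun x => by positivity)
    (by simp [h3 y (mem_ball_self (half_pos hr))]))
  exact ⟨ψ, a1, a2⟩

lemma Sob.le_Sq {c : ℝ} {y : E N} {r : ℝ} (hq : 0 < q) (hr : 0 < r) (h : Sob q (ball y r) c) :
    c ≤ Sq q (ball y r) := by
  obtain ⟨φ, h1, h2⟩ := ex_test hq y hr
  refine le_csInf ⟨_, φ, h1, h2, rfl⟩ ?_
  rintro _ ⟨ψ, a1, a2, rfl⟩
  simpa [a2] using h ψ a1

lemma Sq_near {y : E N} {r θ : ℝ} (hq : 0 < q) (hr : 0 < r) (θ0 : 0 < θ)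
    (h0 : 0 < Sq q (ball y r)) :
    ∃ φ, IsTest (ball y r) φ ∧ ∫ x, |φ x| ^ q = 1 ∧ En φ ≤ (1 + θ) * Sq q (ball y r) := by
  obtain ⟨φ, h1, h2⟩ := ex_test hq y hr
  obtain ⟨_, ⟨ψ, a1, a2, rfl⟩, a3⟩ := exists_lt_of_csInf_lt (s := {t | ∃ φ, IsTest (ball y r) φ ∧
    ∫ x, |φ x| ^ q = 1 ∧ t = En φ}) ⟨_, φ, h1, h2, rfl⟩
    (show Sq q (ball y r) < (1 + θ) * Sq q (ball y r) by nlinarith)
  exact ⟨ψ, a1, a2, a3.le⟩

lemma mass_small (hN : 2 ≤ N) (hq : 2 < q) (hqN : ((N:ℝ) - 2) * q < 2 * N) {S : Set (E N)}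
    (hS : Bornology.IsBounded S) {σ : ℝ} (σ0 : 0 < σ) : ∀ᶠ R in 𝓝[>] (0:ℝ),
    ∀ φ, IsTest S φ → ∀ y, ∫ x in ball y R, |φ x| ^ q ≤ σ * En φ ^ (q / 2) := by
  obtain ⟨p, qp, hp⟩ := ex_p hN hqN
  obtain ⟨C, C0, hC⟩ := gns_bdd hN (by linarith : 2 ≤ p) hp hS
  have q0 : 0 < q := by linarith
  have p0 : 0 < p := by linarith
  have e0 : 0 < 1 - q / p := by rw [sub_pos, div_lt_one p0]; exact qp
  have n0 : N ≠ 0 := by omega
  have tt : Tendsto (fun t : ℝ => C ^ q * (t ^ N * volume.real (ball (0 : E N) 1)) ^ (1 - q / p))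
      (𝓝[>] 0) (𝓝 0) := by
    have c : Continuous fun t : ℝ =>
        C ^ q * (t ^ N * volume.real (ball (0 : E N) 1)) ^ (1 - q / p) :=
      continuous_const.mul (Continuous.rpow_const (by fun_prop) fun _ => Or.inr e0.le)
    simpa [e0.ne', n0] using (c.tendsto 0).mono_left
      (nhdsWithin_le_nhds (s := Ioi 0))
  filter_upwards [tt.eventually_le_const σ0, self_mem_nhdsWithin] with R h1 R0 φ hφ y
  have c := hφ.c1
  have a1 := hC φ c ((subset_tsupport _).trans hφ.2.2) _ (Real.sqrt_nonneg _)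
    (Real.sq_sqrt (En_nonneg φ)).ge
  have a2 := (holder_set (μ := volume.restrict (ball y R)) (w := fun x => |φ x|) q0 qp
    c.cont.abs.measurable (ae_of_all _ fun x => abs_nonneg _) (c.intp p0).restrict
    MeasurableSet.univ (by simpa using measure_ball_lt_top) (ae_of_all _ fun x hx => by
      simp at hx)).2
  have a3 : (∫ x in ball y R, |φ x| ^ p) ^ (q / p) ≤ C ^ q * En φ ^ (q / 2) := by
    refine (Real.rpow_le_rpow (integral_nonneg fun x => by positivity) ((setIntegral_le_integral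
      (c.intp p0) (ae_of_all _ fun x => by positivity)).trans a1) (by positivity)).trans
      (le_of_eq ?_)
    rw [← Real.rpow_mul (by positivity), mul_div_cancel₀ _ p0.ne', Real.mul_rpow C0.le
      (Real.sqrt_nonneg _), Real.sqrt_eq_rpow, ← Real.rpow_mul (En_nonneg _)]
    congr 2; ring
  simp only [MeasurableSet.univ, measureReal_restrict_apply, univ_inter, ball_real y R0] at a2
  have a4 := Real.rpow_nonneg (En_nonneg φ) (q / 2)
  have a5 := ball1_pos (N := N)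
  have R0' : 0 < R := R0
  calc _ ≤ _ := a2
    _ ≤ C ^ q * En φ ^ (q / 2) * (R ^ N * volume.real (ball (0 : E N) 1)) ^ (1 - q / p) := by
      gcongr
    _ = C ^ q * (R ^ N * volume.real (ball (0 : E N) 1)) ^ (1 - q / p) * En φ ^ (q / 2) := by ring
    _ ≤ _ := by gcongr

lemma Sq_large (hN : 2 ≤ N) (hq : 2 < q) (hqN : ((N:ℝ) - 2) * q < 2 * N) {S : Set (E N)}
    (hS : Bornology.IsBounded S) (M : ℝ) :
    ∀ᶠ R in 𝓝[>] (0:ℝ), ∀ y, ball y R ⊆ S → M ≤ Sq q (ball y R) := by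
  have q0 : 0 < q := by linarith
  have M0 : 0 < |M| + 1 := by positivity
  filter_upwards [mass_small hN hq hqN hS (σ := ((|M| + 1) ^ (q / 2))⁻¹) (by positivity),
    self_mem_nhdsWithin] with R h1 R0 y hy
  refine le_trans (by linarith [le_abs_self M]) (Sob.le_Sq (c := |M| + 1) q0 R0 fun φ hφ => ?_)
  have a1 := h1 φ (hφ.mono hy) y
  rw [setIntegral_eq_integral_of_forall_compl_eq_zero (fun x hx => by
    have : φ x = 0 := by
      by_contra hne
      exact hx (hφ.2.2 (subset_tsupport _ hne))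
    simp [this, q0.ne'])] at a1
  have a2 := Real.rpow_le_rpow (integral_nonneg fun x => by positivity) a1
    (by positivity : 0 ≤ 2 / q)
  have E0 := En_nonneg φ
  rw [Real.mul_rpow (by positivity) (by positivity), Real.inv_rpow (by positivity),
    ← Real.rpow_mul M0.le, ← Real.rpow_mul E0, show q / 2 * (2 / q) = 1 by field_simp,
    Real.rpow_one, Real.rpow_one, le_inv_mul_iff₀ M0] at a2
  exact a2

lemma Sq_pos (hN : 2 ≤ N) (hq : 2 < q) (hqN : ((N:ℝ) - 2) * q < 2 * N) (y : E N) {r : ℝ}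
    (hr : 0 < r) : 0 < Sq q (ball y r) := by
  obtain ⟨C, C0, hC⟩ := gns_bdd hN hq.le hqN (isBounded_ball (x := y) (r := r))
  have q0 : 0 < q := by linarith
  refine lt_of_lt_of_le (by positivity : 0 < (C ^ 2)⁻¹) (Sob.le_Sq q0 hr fun φ hφ => ?_)
  have a1 := Real.rpow_le_rpow (integral_nonneg fun x => by positivity)
    (hC φ hφ.c1 ((subset_tsupport _).trans hφ.2.2) _ (Real.sqrt_nonneg _)
    (Real.sq_sqrt (En_nonneg φ)).ge) (by positivity : 0 ≤ 2 / q)
  rwa [← Real.rpow_mul (by positivity), mul_div_cancel₀ _ q0.ne', Real.rpow_two, mul_pow,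
    Real.sq_sqrt (En_nonneg φ), ← inv_mul_le_iff₀ (by positivity)] at a1

lemma Sob.scale {c t : ℝ} (hq : 0 < q) (ht : 0 < t) (h : Sob q U c)
    (hV : ∀ x, t • x ∈ V → x ∈ U) : Sob q V (c * t ^ ((N:ℝ) - 2 - N * (2 / q))) := fun ψ hψ => by
  have a1 := h (fun x => ψ (t • x)) ⟨hψ.1.comp (by fun_prop), hψ.2.1.comp_smul ht.ne', by
    refine (closure_minimal (t := (fun x : E N => t • x) ⁻¹' tsupport ψ)
      (fun x hx => subset_tsupport _ hx) (isClosed_closure.preimage (by fun_prop))).trans ?_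
    exact fun x hx => hV x (hψ.2.2 hx)⟩
  unfold En at a1 ⊢
  simp only [fderiv_comp_smul, norm_smul, mul_pow, Real.norm_of_nonneg ht.le] at a1
  rw [integral_const_mul, Measure.integral_comp_smul volume (fun x => ‖fderiv ℝ ψ x‖ ^ 2),
    Measure.integral_comp_smul volume (fun x => |ψ x| ^ q), finrank_euclideanSpace,
    Fintype.card_fin, abs_of_pos (by positivity), smul_eq_mul, smul_eq_mul,
    Real.mul_rpow (by positivity) (integral_nonneg fun x => by positivity),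
    Real.inv_rpow (by positivity)] at a1
  have e : t ^ ((N:ℝ) - 2 - N * (2 / q)) = t ^ N / t ^ 2 / (t ^ N) ^ (2 / q) := by
    rw [Real.rpow_sub ht, Real.rpow_sub ht, Real.rpow_mul ht.le, Real.rpow_natCast, Real.rpow_two]
  have a2 := mul_le_mul_of_nonneg_left a1 (by positivity : 0 ≤ t ^ N / t ^ 2)
  rw [e]
  refine le_trans (le_of_eq ?_) (a2.trans (le_of_eq ?_))
  · ring
  · field_simp

lemma IsTest.split {ψ : E N → ℝ} (hU : IsOpen U) (hV : IsOpen V) (hd : Disjoint U V)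
    (h : IsTest (U ∪ V) ψ) : IsTest U (U.indicator ψ) ∧
      En (U.indicator ψ) = ∫ x in U, ‖fderiv ℝ ψ x‖ ^ 2 := by
  have e1 : ∀ x ∈ U, U.indicator ψ =ᶠ[𝓝 x] ψ := fun x hx =>
    (hU.eventually_mem hx).mono fun y hy => indicator_of_mem hy _
  have e2 : ∀ x ∉ U, U.indicator ψ =ᶠ[𝓝 x] 0 := fun x hx => by
    by_cases hx' : x ∈ V
    · exact (hV.eventually_mem hx').mono fun y hy =>
        indicator_of_notMem (disjoint_right.1 hd hy) _
    · have : ψ =ᶠ[𝓝 x] 0 := notMem_tsupport_iff_eventuallyEq.1 fun hc => (h.2.2 hc).elim hx hx'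
      exact this.mono fun y hy => by simp [indicator_apply, hy]
  refine ⟨⟨contDiff_iff_contDiffAt.2 fun x => ?_, h.2.1.mono (by simp), fun x hx => ?_⟩, ?_⟩
  · by_cases hx : x ∈ U
    · exact h.1.contDiffAt.congr_of_eventuallyEq (e1 x hx)
    · exact contDiffAt_const.congr_of_eventuallyEq (e2 x hx)
  · by_contra hc
    exact notMem_tsupport_iff_eventuallyEq.2 (e2 x hc) hx
  · rw [En, ← integral_indicator hU.measurableSet]
    congr 1; funext x
    by_cases hx : x ∈ U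
    · rw [indicator_of_mem hx, (e1 x hx).fderiv_eq]
    · rw [indicator_of_notMem hx, (e2 x hx).fderiv_eq]; simp

lemma split_ineq {a b : ℝ} (hq : 0 < q) (hU : IsOpen U) (hV : IsOpen V) (hd : Disjoint U V)
    (ha : Sob q U a) (hb : Sob q V b) {ψ : E N → ℝ} (h : IsTest (U ∪ V) ψ) :
    a * (∫ x in U, |ψ x| ^ q) ^ (2 / q) + b * (∫ x in Uᶜ, |ψ x| ^ q) ^ (2 / q) ≤ En ψ := by
  obtain ⟨a1, a2⟩ := h.split hU hV hd
  obtain ⟨b1, b2⟩ := IsTest.split hV hU hd.symm (by rwa [union_comm])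
  have c1 := ha _ a1
  have c2 := hb _ b1
  have e1 : ∫ x, |U.indicator ψ x| ^ q = ∫ x in U, |ψ x| ^ q := by
    rw [← integral_indicator hU.measurableSet]
    congr 1; funext x
    by_cases hx : x ∈ U <;> simp [hx, hq.ne']
  have e2 : ∫ x, |V.indicator ψ x| ^ q = ∫ x in Uᶜ, |ψ x| ^ q := by
    rw [← integral_indicator hU.measurableSet.compl]
    congr 1; funext x
    by_cases hx : x ∈ U
    · simp [hx, disjoint_left.1 hd hx, hq.ne']
    · by_cases hx' : x ∈ V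
      · simp [hx, hx']
      · have : ψ x = 0 := by
          by_contra hne
          exact (h.2.2 (subset_tsupport _ hne)).elim hx hx'
        simp [hx, hx', this]
  have c3 : ∫ x in V, ‖fderiv ℝ ψ x‖ ^ 2 ≤ ∫ x in Uᶜ, ‖fderiv ℝ ψ x‖ ^ 2 :=
    setIntegral_mono_set h.c1.intD.integrableOn (ae_of_all _ fun x => sq_nonneg _)
      (HasSubset.Subset.eventuallyLE hd.subset_compl_left)
  have c4 := integral_add_compl hU.measurableSet h.c1.intD
  rw [e1, a2] at c1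
  rw [e2, b2] at c2
  unfold En; linarith

/-- Test functions on `Ω` can be cut off to `W` at small cost. -/
def Cut (q : ℝ) (Ω W : Set (E N)) (σ θ : ℝ) : Prop :=
  ∃ B, MeasurableSet B ∧ ∀ φ, IsTest Ω φ → ∫ x in B, |φ x| ^ q ≤ σ * En φ ^ (q / 2) ∧
    ∃ ψ, IsTest W ψ ∧ En ψ ≤ (1 + θ) * En φ ∧ ∀ x ∉ B, ψ x = φ x

lemma Real'.dec {D : DS (volume : Measure (E N)) (HS Ω) q} (hD : Real' D) {a b σ θ : ℝ}
    (hU : IsOpen U) (hV : IsOpen V) (hd : Disjoint U V) (a0 : 0 ≤ a) (b0 : 0 ≤ b)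
    (ha : Sob q U a) (hb : Sob q V b) (hc : Cut q Ω (U ∪ V) σ θ) : D.Dec U a b σ θ := by
  have q0 : 0 < q := by linarith [D.hq]
  have p0 : 0 ≤ 2 / q := by positivity
  obtain ⟨B, hB, hc⟩ := hc
  intro h
  have cm : ∀ A, Continuous fun h : HS Ω => max (D.m A h - σ * (‖h‖ ^ 2) ^ (q / 2)) 0 ^ (2 / q) :=
    fun A => (((D.m_cont A).sub (continuous_const.mul ((continuous_norm.pow 2).rpow_const
      fun _ => Or.inr (by positivity)))).max continuous_const).rpow_const fun _ => Or.inr p0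
  refine eL_dense.induction_on h (isClosed_le ((continuous_const.mul (cm _)).add
    (continuous_const.mul (cm _))) (by fun_prop)) fun φ => ?_
  obtain ⟨c1, ψ, c2, c3, c4⟩ := hc _ φ.2
  have key : ∀ A, MeasurableSet A → max (D.m A (eL Ω φ) - σ * (‖eL Ω φ‖ ^ 2) ^ (q / 2)) 0 ^ (2 / q)
      ≤ (∫ x in A, |ψ x| ^ q) ^ (2 / q) := fun A hA => by
    refine Real.rpow_le_rpow (le_max_right _ _)
      (max_le ?_ (integral_nonneg fun x => by positivity)) p0
    have i1 := (Test.c1 φ).intp q0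
    have i2 := c2.c1.intp q0
    have := integral_mono (i1.indicator hA) ((i2.indicator hA).add (i1.indicator hB)) fun x => by
      have := Real.rpow_nonneg (abs_nonneg (φ.1 x)) q
      have := Real.rpow_nonneg (abs_nonneg (ψ x)) q
      by_cases h1 : x ∈ A <;> by_cases h2 : x ∈ B <;> simp [*]
    simp only [Pi.add_apply] at this
    rw [integral_add (i2.indicator hA) (i1.indicator hB), integral_indicator hA,
      integral_indicator hA, integral_indicator hB] at this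
    rw [hD.m_eq (hD.hP.rep_test φ), eL_sq]
    linarith
  have d1 := mul_le_mul_of_nonneg_left (key U hU.measurableSet) a0
  have d2 := mul_le_mul_of_nonneg_left (key Uᶜ hU.measurableSet.compl) b0
  have d3 := split_ineq q0 hU hV hd ha hb c2
  rw [← eL_sq φ] at c3
  linarith

lemma logcut (hN : 2 ≤ N) (y : E N) {a : ℝ} (a0 : 0 < a) {R : ℝ} (R0 : 0 < R) :
    ∃ (ρ : ℝ) (ζ : E N → ℝ), 0 < ρ ∧ ρ ≤ R ∧ IsTest (ball y R) ζ ∧ (∀ x, 0 ≤ ζ x ∧ ζ x ≤ 1) ∧
      (∀ x ∈ ball y ρ, ζ x = 1) ∧ ∫ x, ‖fderiv ℝ ζ x‖ ^ N ≤ a := by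
  obtain ⟨L, L0, hL⟩ := cutoff (N := N)
  have n0 : N ≠ 0 := by omega
  have int : ∀ {S : Set (E N)} {ζ : E N → ℝ}, IsTest S ζ →
      Integrable fun x => ‖fderiv ℝ ζ x‖ ^ N := fun h =>
    int_of_cs h.c1.contD (h.2.1.fderiv ℝ) (fun t => ‖t‖ ^ N) (by fun_prop)
      (by simp [n0])
  have zero : ∀ {S : Set (E N)} {ζ : E N → ℝ}, IsTest S ζ → ∀ x ∉ S, fderiv ℝ ζ x = 0 :=
    fun h x hx => by
      by_contra hne
      exact hx (h.2.2 (support_fderiv_subset ℝ hne))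
  have ind : ∀ n : ℕ, ∀ R, 0 < R → ∃ (ρ : ℝ) (ζ : E N → ℝ), 0 < ρ ∧ ρ ≤ R ∧ IsTest (ball y R) ζ ∧
      (∀ x, 0 ≤ ζ x ∧ ζ x ≤ 1) ∧ (∀ x ∈ ball y ρ, ζ x = 1) ∧
      ∫ x, ‖fderiv ℝ ζ x‖ ^ N ≤ (2 * L) ^ N * volume.real (ball (0 : E N) 1) * (1 / 2) ^ n := by
    intro n
    induction n with
    | zero =>
      intro R R0
      obtain ⟨η, h1, h2, h3, h4, h5⟩ := hL y (R / 2) (half_pos R0)
      rw [mul_div_cancel₀ _ two_ne_zero] at h4
      have t : IsTest (ball y R) η := ⟨h1, (isCompact_closedBall y R).of_isClosed_subset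
        isClosed_closure (h4.trans ball_subset_closedBall), h4⟩
      refine ⟨R / 2, η, half_pos R0, by linarith, t, h2, h3, ?_⟩
      rw [← setIntegral_eq_integral_of_forall_compl_eq_zero (s := ball y R) fun x hx => by
        simp [zero t x hx, n0]]
      refine (setIntegral_mono_on (g := fun _ => (L / (R / 2)) ^ N) (int t).integrableOn
        (integrableOn_const measure_ball_lt_top.ne) measurableSet_ball fun x _ =>
          pow_le_pow_left₀ (norm_nonneg _) (h5 x) N).trans (le_of_eq ?_)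
      rw [setIntegral_const, ball_real y R0, smul_eq_mul, pow_zero, mul_one, mul_right_comm,
        ← mul_pow]
      congr 2; field_simp
    | succ n ih =>
      intro R R0
      obtain ⟨ρ1, ζ1, a1, a2, a3, a4, a5, a6⟩ := ih R R0
      obtain ⟨ρ2, ζ2, b1, b2, b3, b4, b5, b6⟩ := ih ρ1 a1
      have t : IsTest (ball y R) fun x => (1 / 2 : ℝ) * (ζ1 + ζ2) x :=
        IsTest.mul ((Test _).add_mem a3 (b3.mono (ball_subset_ball a2))) contDiff_const
      refine ⟨ρ2, _, b1, b2.trans a2, t, fun x => ?_, fun x hx => ?_, ?_⟩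
      · simp only [Pi.add_apply]; constructor <;> linarith [a4 x, b4 x]
      · simp only [Pi.add_apply, a5 x (ball_subset_ball b2 hx), b5 x hx]; norm_num
      · have := integral_mono (int t) (((int a3).add (int b3)).const_mul (1 / 4)) fun x => by
          have c : (1 / 2 : ℝ) ^ N ≤ 1 / 4 :=
            (pow_le_pow_of_le_one (by norm_num) (by norm_num) hN).trans (by norm_num)
          simp only
          rw [fderiv_const_mul ((a3.c1.diff x).add (b3.c1.diff x)),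
            fderiv_add (a3.c1.diff x) (b3.c1.diff x), norm_smul, mul_pow,
            Real.norm_of_nonneg (by norm_num), Pi.add_apply]
          refine mul_le_mul c ?_ (by positivity) (by norm_num)
          by_cases hx : x ∈ ball y ρ1
          · have : ζ1 =ᶠ[𝓝 x] fun _ => 1 := (isOpen_ball.eventually_mem hx).mono a5
            simp [this.fderiv_eq, n0]
          · simp [zero b3 x hx, n0]
        simp only [Pi.add_apply] at this
        rw [integral_const_mul, integral_add (int a3) (int b3)] at this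
        rw [pow_succ]; simp only [Pi.add_apply]; linarith
  have tt := (tendsto_pow_atTop_nhds_zero_of_lt_one (by norm_num : (0:ℝ) ≤ 1 / 2)
    (by norm_num)).const_mul ((2 * L) ^ N * volume.real (ball (0 : E N) 1))
  rw [mul_zero] at tt
  obtain ⟨n, hn⟩ := (tt.eventually_le_const a0).exists
  obtain ⟨ρ, ζ, a1, a2, a3, a4, a5, a6⟩ := ind n R R0
  exact ⟨ρ, ζ, a1, a2, a3, a4, a5, a6.trans hn⟩

lemma gns_crit (hN : 3 ≤ N) : ∃ C, 0 < C ∧ ∀ φ : E N → ℝ, C1 φ →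
    ∫ x, |φ x| ^ (2 * (N / (N - 2) : ℝ)) ≤ (C * √(En φ)) ^ (2 * (N / (N - 2) : ℝ)) := by
  have N0 : (3:ℝ) ≤ N := by exact_mod_cast hN
  have N2 : (0:ℝ) < N - 2 := by linarith
  have s0 : 0 < 2 * (N / (N - 2) : ℝ) := by positivity
  set K : ℝ := NNReal.toReal (SNormLESNormFDerivOfEqConst ℝ (volume : Measure (E N)) (2 : NNReal))
    with hK
  have K0 : 0 ≤ K := NNReal.coe_nonneg _
  refine ⟨K + 1, by positivity, fun φ hφ => ?_⟩
  have b1 := eLpNorm_le_eLpNorm_fderiv_of_eq (volume : Measure (E N)) (F := ℝ) hφ.cd hφ.cs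
    (p := 2) (p' := (2 * (N / (N - 2) : ℝ)).toNNReal) one_le_two (by simp; omega) (by
      simp only [finrank_euclideanSpace, Fintype.card_fin, Real.coe_toNNReal _ s0.le]
      push_cast; field_simp)
  have b3 := eLp_le_of_int (μ := volume) hφ.contD.aestronglyMeasurable two_pos
    (Real.sqrt_nonneg (En φ)) (by simpa using hφ.intD)
    (by rw [Real.rpow_two, Real.sq_sqrt (En_nonneg _)]; simp [En])
  have b4 : eLpNorm φ (ENNReal.ofReal (2 * (N / (N - 2) : ℝ))) volume ≤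
      ENNReal.ofReal ((K + 1) * √(En φ)) := by
    rw [ENNReal.ofReal_ofNat] at b3
    refine b1.trans ((mul_le_mul_right b3 _).trans ?_)
    rw [← ENNReal.ofReal_coe_nnreal, ← ENNReal.ofReal_mul (NNReal.coe_nonneg _)]
    refine ENNReal.ofReal_le_ofReal ?_
    rw [← hK]; nlinarith [Real.sqrt_nonneg (En φ)]
  simpa using (int_le_of_eLp hφ.cont.aestronglyMeasurable s0 (by positivity) b4).2

lemma hole (hN : 3 ≤ N) (hq : 2 < q) (hqN : ((N:ℝ) - 2) * q < 2 * N) {S : Set (E N)}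
    (hS : Bornology.IsBounded S) (y : E N) {σ θ r : ℝ} (σ0 : 0 < σ) (θ0 : 0 < θ) (r0 : 0 < r) :
    ∃ ρ, 0 < ρ ∧ ρ ≤ r ∧ ∀ Ω W : Set (E N), Ω ⊆ S → Ω \ ball y ρ ⊆ W → Cut q Ω W σ θ := by
  have N0 : (3:ℝ) ≤ N := by exact_mod_cast hN
  have N2 : (0:ℝ) < N - 2 := by linarith
  obtain ⟨C, C0, hC⟩ := gns_crit hN
  have n0 : N ≠ 0 := by omega
  obtain ⟨R, ⟨h1, R1⟩, R0⟩ := (((mass_small (by omega) hq hqN hS σ0).and
    ((eventually_le_nhds r0).filter_mono nhdsWithin_le_nhds)).and self_mem_nhdsWithin).exists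
  set a := θ / 2 / (1 + 2 / θ) / C ^ 2 with ha
  obtain ⟨ρ, ζ, a1, a2, a3, a4, a5, a6⟩ := logcut (by omega) y (a := a ^ ((N:ℝ) / 2))
    (by positivity) R0
  refine ⟨ρ, a1, a2.trans R1, fun Ω W hΩ hW => ⟨ball y R, measurableSet_ball, fun φ hφ =>
    ⟨h1 φ (hφ.mono hΩ) y, fun x => (1 - ζ x) * φ x, ?_, ?_, fun x hx => ?_⟩⟩⟩
  · have t := hφ.mul (contDiff_const.sub a3.1 : ContDiff ℝ (⊤ : ℕ∞) fun x => 1 - ζ x)
    refine ⟨t.1, t.2.1, fun x hx => hW ⟨t.2.2 hx, fun hb => ?_⟩⟩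
    exact notMem_tsupport_iff_eventuallyEq.2 ((isOpen_ball.eventually_mem hb).mono fun z hz => by
      simp [a5 z hz]) hx
  · have c := hφ.c1
    have E0 := En_nonneg φ
    have hc : (N / (N - 2) : ℝ).HolderConjugate (N / 2) :=
      ⟨by field_simp; ring, by positivity, by positivity⟩
    have e1 : ∀ x, (φ x ^ 2) ^ (N / (N - 2) : ℝ) = |φ x| ^ (2 * (N / (N - 2) : ℝ)) := fun x => by
      rw [Real.rpow_mul (abs_nonneg _), Real.rpow_two, sq_abs]
    have e2 : ∀ x, (‖fderiv ℝ ζ x‖ ^ 2) ^ ((N:ℝ) / 2) = ‖fderiv ℝ ζ x‖ ^ N := fun x => by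
      rw [← Real.rpow_natCast _ 2, ← Real.rpow_mul (norm_nonneg _), ← Real.rpow_natCast _ N]
      congr 1; push_cast; ring
    have cz := a3.c1.contD
    have cf := c.cont
    obtain ⟨b1, b2⟩ := holder (μ := volume) (f := fun x => φ x ^ 2)
      (g := fun x => ‖fderiv ℝ ζ x‖ ^ 2) hc (by fun_prop) (by fun_prop)
      (ae_of_all _ fun x => sq_nonneg _) (ae_of_all _ fun x => sq_nonneg _)
      (by simpa only [e1] using c.intp (by positivity)) (by
        simpa only [e2] using int_of_cs cz (a3.2.1.fderiv ℝ) (fun t => ‖t‖ ^ N) (by fun_prop)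
          (by simp [n0]))
    simp only [e1, e2] at b2
    have b3 : (∫ x, |φ x| ^ (2 * (N / (N - 2) : ℝ))) ^ (1 / (N / (N - 2) : ℝ)) ≤ C ^ 2 * En φ := by
      refine (Real.rpow_le_rpow (integral_nonneg fun x => by positivity) (hC φ c)
        (by positivity)).trans (le_of_eq ?_)
      rw [← Real.rpow_mul (by positivity), mul_assoc, mul_one_div_cancel (by positivity), mul_one,
        Real.rpow_two, mul_pow, Real.sq_sqrt E0]
    have b4 : (∫ x, ‖fderiv ℝ ζ x‖ ^ N) ^ (1 / ((N:ℝ) / 2)) ≤ a := by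
      refine (Real.rpow_le_rpow (integral_nonneg fun x => by positivity) a6
        (by positivity)).trans (le_of_eq ?_)
      rw [← Real.rpow_mul (by positivity), mul_one_div_cancel (by positivity), Real.rpow_one]
    have b5 := b2.trans (mul_le_mul b3 b4 (Real.rpow_nonneg (integral_nonneg fun x => by
      positivity) _) (by positivity))
    have t := c.mul (contDiff_const.sub a3.1 : ContDiff ℝ (⊤ : ℕ∞) fun x => 1 - ζ x)
    have b6 := integral_mono t.intD ((c.intD.const_mul (1 + θ / 2)).add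
      (b1.const_mul (1 + 2 / θ))) fun x => by
      have d1 := norm_fderiv_mul (η := fun x => 1 - ζ x)
        ((differentiableAt_const _).sub (a3.c1.diff x)) (c.diff x)
      rw [fderiv_const_sub, norm_neg] at d1
      have d2 : |1 - ζ x| * ‖fderiv ℝ φ x‖ ≤ ‖fderiv ℝ φ x‖ :=
        mul_le_of_le_one_left (norm_nonneg _) (abs_le.2 ⟨by linarith [a4 x], by linarith [a4 x]⟩)
      have d3 := pow_le_pow_left₀ (norm_nonneg _) (d1.trans (add_le_add_left d2 _)) 2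
      simp only [Pi.add_apply]
      rw [← sq_abs (φ x), ← mul_pow]
      refine d3.trans ?_
      generalize ‖fderiv ℝ φ x‖ = A
      generalize |φ x| * ‖fderiv ℝ ζ x‖ = B
      have d4 : 0 ≤ 2 / θ * (θ / 2 * A - B) ^ 2 := by positivity
      have d5 : 2 / θ * (θ / 2 * A - B) ^ 2 = θ / 2 * A ^ 2 - 2 * A * B + 2 / θ * B ^ 2 := by
        field_simp; ring
      linarith
    simp only [Pi.add_apply] at b6
    rw [integral_add (c.intD.const_mul _) (b1.const_mul _), integral_const_mul,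
      integral_const_mul] at b6
    have b7 := mul_le_mul_of_nonneg_left b5 (by positivity : 0 ≤ 1 + 2 / θ)
    have b8 : (1 + 2 / θ) * (C ^ 2 * En φ * a) = θ / 2 * En φ := by rw [ha]; field_simp
    unfold En at *
    linarith
  · have : ζ x = 0 := by
      by_contra hne
      exact hx (a3.2.2 (subset_tsupport _ hne))
    simp [this]

lemma cut_self (σ θ : ℝ) (σ0 : 0 ≤ σ) (θ0 : 0 ≤ θ) : Cut q Ω Ω σ θ :=
  ⟨∅, MeasurableSet.empty, fun φ hφ => ⟨by
    simpa using mul_nonneg σ0 (Real.rpow_nonneg (En_nonneg φ) _), φ, hφ,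
      by nlinarith [En_nonneg φ], fun _ _ => rfl⟩⟩

lemma Real'.chamber {D : DS (volume : Measure (E N)) (HS Ω) q} (hD : Real' D) {y : E N}
    {r b σ θ : ℝ} (r0 : 0 < r) (hΩ : ball y r ⊆ Ω) (a0 : 0 < Sq q (ball y r))
    (hd : D.Dec (ball y r) (Sq q (ball y r)) b σ θ) (b0 : 0 ≤ b) (σ0 : 0 ≤ σ) (θ0 : 0 < θ)
    (θ1 : θ ≤ 1 / 4) (hσ : σ * (2 * Sq q (ball y r)) ^ (q / 2) ≤ θ / 2)
    (hθ : 6 * θ * Sq q (ball y r) < b * (θ / 2) ^ (2 / q)) :
    ∃ h l, D.Pos h l ∧ l ≤ (1 + θ) * Sq q (ball y r) ∧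
      Sq q (ball y r) * (1 - 2 * θ) ≤ (1 + θ) * l := by
  have q0 : 0 < q := by linarith [D.hq]
  obtain ⟨φ, h1, h2, h3⟩ := Sq_near q0 r0 θ0 a0
  have r := hD.hP.rep_test ⟨φ, h1.mono hΩ⟩
  refine DS.chamber measurableSet_ball hd a0 b0 σ0 θ0 θ1 hσ hθ (h0 := eL Ω ⟨φ, h1.mono hΩ⟩)
    (by rw [hD.m_eq r, Measure.restrict_univ]; exact h2) ?_ (by rw [eL_sq]; exact h3)
  rw [hD.m_eq r]
  refine setIntegral_eq_zero_of_forall_eq_zero fun x hx => ?_
  have : φ x = 0 := by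
    by_contra hne
    exact hx (h1.2.2 (subset_tsupport _ hne))
  simp [this, q0.ne']

lemma Real'.sob {D : DS (volume : Measure (E N)) (HS Ω) q} (hD : Real' D) : Sob q Ω D.lam :=
  fun φ hφ => by
  have := D.lam_mul (eL Ω ⟨φ, hφ⟩)
  rwa [hD.m_eq (hD.hP.rep_test ⟨φ, hφ⟩), Measure.restrict_univ, eL_sq] at this

end Pool.Agent.H27.Iso
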