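import Pool.Agent.H27.QDef

/-! Lusternik-Schnirelman values of the Dirichlet integral on the unit `L^q` sphere. -/

open MeasureTheory

namespace Pool.Agent.H27.QSpec

/-- Krasnoselskii genus: the least `m ≥ 1` with a continuous odd map `F → S^(m-1)`, `⊤` if none. -/
noncomputable def genus {X : Type} [NormedAddCommGroup X] (F : Set X) : ℕ∞ :=
  sInf {k | ∃ m : ℕ, k = m ∧ 1 ≤ m ∧ ∃ f : X → EuclideanSpace ℝ (Fin m),
    ContinuousOn f F ∧ ∀ x ∈ F, ‖f x‖ = 1 ∧ f (-x) = -f x}

/-- Infimum of `max_F ‖·‖²` over compact symmetric `F ⊆ S` of genus at least `k`. -/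
noncomputable def minimax {X : Type} [NormedAddCommGroup X] (S : Set X) (k : ℕ) : ℝ :=
  sInf {t | ∃ F ⊆ S, IsCompact F ∧ F = -F ∧ (k : ℕ∞) ≤ genus F ∧
    IsGreatest ((fun G => ‖G‖ ^ 2) '' F) t}

/-- The same for the set of `L²` vector fields with property `P`. -/
noncomputable def minimaxL2 {X : Type} [NormedAddCommGroup X] [MeasurableSpace X] (μ : Measure X)
    (P : (X → X) → Prop) (k : ℕ) : ℝ :=
  minimax {G : Lp X 2 μ | P G} k

/-- The `k`-th Lusternik-Schnirelman value. An element `u` of the unit `L^q` sphere of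
`D^{1,2}_0(Ω)` is recorded by its gradient in `L²`, so the topology is that of `‖∇u‖_2`. -/
noncomputable def lamLS {N : ℕ} (Ω : Set (EuclideanSpace ℝ (Fin N))) (q : ℝ) (k : ℕ) : ℝ :=
  minimaxL2 volume (fun G => ∃ u, D12 Ω q u G ∧ eLpNorm u (ENNReal.ofReal q) volume = 1) k

end Pool.Agent.H27.QSpec
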