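import Pool.Agent.H27.Iso12
import Pool.Agent.H27.QDef2

/-! Two examples: an eigenvalue that is no min-max value, and infinitely many positive solutions. -/

open Set Filter Topology MeasureTheory Metric
open scoped ENNReal RealInnerProductSpace

namespace Pool.Agent.H27.Iso

variable {N : ℕ} {Ω : Set (E N)} {q : ℝ}

lemma Real'.ls_ne {D : DS (volume : Measure (E N)) (HS Ω) q} (hD : Real' D) {h0 : HS Ω}
    (a1 : D.m univ h0 = 1) {l : ℝ} (h1 : D.lam < l) (h2 : l < 2 ^ (1 - 2 / q) * D.lam) (k : ℕ)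
    (hk : 1 ≤ k) : QSpec.lamLS Ω q k ≠ l := by
  have l0 := D.lam_pos a1
  have q0 : 0 < q := by linarith [D.hq]
  set S : Set (Lp (E N) 2 (volume : Measure (E N))) :=
    {G | ∃ u, QSpec.D12 Ω q u G ∧ eLpNorm u (ENNReal.ofReal q) volume = 1} with hS
  change QSpec.minimax S k ≠ l
  rcases hk.eq_or_lt with rfl | hk
  · obtain ⟨h, b1, b2⟩ := D.first a1
    have mem : ∀ g : HS Ω, D.m univ g = 1 → g.1 ∈ S := fun g hg =>
      ⟨_, hD.to_W (Or.inr rfl) g, (hD.one_iff (rep_self g)).2 hg⟩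
    refine ne_of_lt (lt_of_le_of_lt (csInf_le ⟨0, ?_⟩ ⟨{h.1, -h.1}, ?_, (toFinite _).isCompact,
      by simp [pair_comm], le_sInf ?_, ?_⟩) h1)
    · rintro _ ⟨F, -, -, -, -, ⟨G, -, rfl⟩, -⟩
      exact sq_nonneg _
    · rintro _ (rfl | rfl)
      exacts [mem h b1, mem (-h) (by rw [D.m_neg, b1])]
    · rintro _ ⟨m, rfl, hm, -⟩
      exact_mod_cast hm
    · rw [image_pair, norm_neg, pair_eq_singleton, ← b2]
      exact isGreatest_singleton
  · rcases eq_empty_or_nonempty {t | ∃ F ⊆ S, IsCompact F ∧ F = -F ∧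
      (k : ℕ∞) ≤ QSpec.genus F ∧ IsGreatest ((fun G => ‖G‖ ^ 2) '' F) t} with he | he
    · rw [QSpec.minimax, he, Real.sInf_empty]; linarith
    refine ne_of_gt (h2.trans_le (le_csInf he ?_))
    rintro t ⟨F, f1, -, -, f4, f5⟩
    let P := (HS Ω).orthogonalProjectionOnto
    let g : Lp (E N) 2 (volume : Measure (E N)) → ℝ := fun G => D.mp (P G) - D.mp (-P G)
    have gc : Continuous g :=
      (D.mp_cont.comp P.continuous).sub (D.mp_cont.comp P.continuous.neg)
    have go : ∀ G, g (-G) = -g G := fun G => by simp only [g, map_neg, neg_neg, neg_sub]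
    by_cases hz : ∃ G ∈ F, g G = 0
    · obtain ⟨G, hG, hz⟩ := hz
      obtain ⟨u, u1, u2⟩ := f1 hG
      obtain ⟨h, r⟩ := hD.hP.of_W (by simpa using q0) u1
      have e : P G = h := by
        rw [← Lp.ext r.1]; exact Submodule.orthogonalProjectionOnto_mem_subspace_eq_self h
      simp only [g, e, sub_eq_zero] at hz
      refine (D.split_low ((hD.one_iff r).1 u2) hz).trans (f5.2 ⟨G, hG, ?_⟩)
      rw [← Lp.ext r.1]; rfl
    · push Not at hz
      have : QSpec.genus F ≤ (1:ℕ) := sInf_le ⟨1, rfl, le_rfl,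
        fun G => (g G / |g G|) • EuclideanSpace.single (0 : Fin 1) (1:ℝ),
        (gc.continuousOn.div gc.abs.continuousOn fun G hG => abs_ne_zero.2 (hz G hG)).smul
          continuousOn_const, fun G hG => ⟨by
            simp [norm_smul, hz G hG], by simp [go, neg_div]⟩⟩
      have := f4.trans this
      norm_cast at this
      omega

lemma touch {p c : E N} {r ρ : ℝ} (r0 : 0 < r) (ρ0 : 0 < ρ) (h : dist p c = r) :
    (ball c r ∩ ball p ρ).Nonempty := by
  have : p ∈ closure (ball c r) := by rw [closure_ball c r0.ne']; exact h.le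
  obtain ⟨x, h1, h2⟩ := Metric.mem_closure_iff.1 this ρ ρ0
  exact ⟨x, h1, mem_ball'.2 h2⟩

theorem ls_example (hN : 2 ≤ N) (hq : 2 < q) (hqN : ((N:ℝ) - 2) * q < 2 * N) :
    ∃ Ω : Set (E N), IsOpen Ω ∧ Bornology.IsBounded Ω ∧ Ω.Nonempty ∧ (3 ≤ N → IsConnected Ω) ∧
      ∃ l ∈ QSpec.Spec Ω q, ∀ k, 1 ≤ k → QSpec.lamLS Ω q k ≠ l := by
  have q0 : 0 < q := by linarith
  set e := (N:ℝ) - 2 - N * (2 / q) with he
  have e0 : e < 0 := by
    rw [he, sub_neg, ← mul_div_assoc, lt_div_iff₀ q0]; linarith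
  set w : ℝ := 2 ^ (1 - 2 / q) with hw
  have w1 : 1 < w := Real.one_lt_rpow (by norm_num) (by rw [sub_pos, div_lt_one q0]; exact hq)
  obtain ⟨t, t1, t2⟩ : ∃ t : ℝ, 1 < w * t ^ e ∧ 1 < t := by
    have := ((Real.continuousAt_rpow_const 1 e (Or.inl one_ne_zero)).tendsto.const_mul w
      ).mono_left (nhdsWithin_le_nhds (s := Ioi 1))
    rw [Real.one_rpow, mul_one] at this
    exact ((this.eventually_const_lt w1).and self_mem_nhdsWithin).exists
  have t0 : 0 < t := by linarith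
  have t3 : t ^ e < 1 := Real.rpow_lt_one_of_one_lt_of_neg t2 e0
  have t4 : 0 < t ^ e := by positivity
  set c : E N := EuclideanSpace.single ⟨0, by omega⟩ 1 with hc
  have c1 : ‖c‖ = 1 := by simp [hc]
  set r := (t - 1) / (t + 1) with hr
  have r0 : 0 < r := div_pos (by linarith) (by linarith)
  have hr' : r + t * r = t - 1 := by rw [hr]; field_simp; ring
  have dj : Disjoint (ball c r) (ball (t • c) (t * r)) := ball_disjoint_ball (by
    rw [dist_comm, dist_eq_norm, show t • c - c = (t - 1) • c by rw [sub_smul, one_smul],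
      norm_smul, c1, Real.norm_of_nonneg (by linarith)]; linarith)
  set a := Sq q (ball c r) with ha
  set b := Sq q (ball (t • c) (t * r)) with hb
  have a0 : 0 < a := Sq_pos hN hq hqN c r0
  have ab : b = a * t ^ e := by
    have h1 : a * t ^ e ≤ b := Sob.le_Sq q0 (by positivity) ((Sq_sob q0).scale q0 t0 fun x hx => by
      rwa [mem_ball, dist_smul₀, Real.norm_of_nonneg t0.le, mul_lt_mul_iff_right₀ t0] at hx)
    have h2 : b * t⁻¹ ^ e ≤ a := Sob.le_Sq q0 r0 ((Sq_sob q0).scale q0 (inv_pos.2 t0) fun x hx => by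
      rw [mem_ball, ← mul_lt_mul_iff_right₀ t0, ← Real.norm_of_nonneg t0.le, ← dist_smul₀,
        Real.norm_of_nonneg t0.le, smul_inv_smul₀ t0.ne'] at hx
      exact hx)
    rw [Real.inv_rpow t0.le, mul_inv_le_iff₀ t4] at h2
    exact le_antisymm h2 h1
  have b0 : 0 < b := by rw [ab]; positivity
  have ba : b < a := by rw [ab]; nlinarith
  have wb : a < w * b := by rw [ab]; nlinarith
  obtain ⟨θ, ⟨⟨⟨θ1, θ2⟩, θ3⟩, θ4⟩, θ0⟩ : ∃ θ : ℝ, (((6 * θ * a < b * (θ / 2) ^ (2 / q) ∧
      θ ≤ 1 / 4) ∧ 0 < a * (1 - 2 * θ) - (1 + θ) * b) ∧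
      0 < w * (b * (1 - θ)) - (1 + θ) * ((1 + θ) * a)) ∧ 0 < θ := by
    refine (((((small_theta hq b0).and ?_).and ?_).and ?_).and self_mem_nhdsWithin).exists
    · exact (eventually_le_nhds (by norm_num)).filter_mono nhdsWithin_le_nhds
    · refine Eventually.filter_mono nhdsWithin_le_nhds (ContinuousAt.eventually_lt
        continuousAt_const (by fun_prop) (by simpa using ba))
    · refine Eventually.filter_mono nhdsWithin_le_nhds (ContinuousAt.eventually_lt
        continuousAt_const (by fun_prop) (by simpa using wb))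
  set σ := θ / 2 / (2 * a) ^ (q / 2) with hσ
  have σ0 : 0 < σ := by positivity
  have main : ∀ Ω : Set (E N), Bornology.IsBounded Ω → ball c r ∪ ball (t • c) (t * r) ⊆ Ω →
      Cut q Ω (ball c r ∪ ball (t • c) (t * r)) σ θ →
      ∃ l ∈ QSpec.Spec Ω q, ∀ k, 1 ≤ k → QSpec.lamLS Ω q k ≠ l := fun Ω h1 h2 h3 => by
    obtain ⟨D, hD⟩ := real_bdd hN hq hqN h1
    have hd := hD.dec isOpen_ball isOpen_ball dj a0.le b0.le (Sq_sob q0) (Sq_sob q0) h3
    have hs : σ * (2 * a) ^ (q / 2) ≤ θ / 2 := by rw [hσ, div_mul_cancel₀ _ (by positivity)]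
    obtain ⟨h, l, l1, l2, l3⟩ := hD.chamber r0 (subset_union_left.trans h2) a0 hd b0.le σ0.le θ0
      θ2 hs θ1
    have l4 : D.lam ≤ b := Sob.le_Sq q0 (by positivity)
      (hD.sob.mono (subset_union_right.trans h2))
    have l5 := hd.lam measurableSet_ball b0.le ba.le σ0.le θ0 θ2 hs l1.eig.one l4
    refine ⟨l, ⟨_, hD.toEig l1.eig⟩, hD.ls_ne l1.eig.one (l4.trans_lt ?_) ?_⟩
    · rw [← ha] at l3; nlinarith
    · have := mul_le_mul_of_nonneg_left l5 (by linarith : 0 ≤ w)
      have := mul_le_mul_of_nonneg_left l2 (by linarith : 0 ≤ 1 + θ)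
      rw [← ha] at this
      rw [← hw]; nlinarith
  have bd := (isBounded_ball (x := c) (r := r)).union (isBounded_ball (x := t • c) (r := t * r))
  by_cases h3 : 3 ≤ N
  · set p := (1 + r) • c with hp
    obtain ⟨ρ, ρ0, ρ1, hρ⟩ := hole h3 hq hqN (bd.union (isBounded_ball (x := p) (r := 1))) p σ0 θ0
      one_pos
    refine ⟨ball c r ∪ ball (t • c) (t * r) ∪ ball p ρ,
      (isOpen_ball.union isOpen_ball).union isOpen_ball, bd.union isBounded_ball,
      ⟨p, Or.inr (mem_ball_self ρ0)⟩, fun _ => ?_, main _ (bd.union isBounded_ball)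
        subset_union_left (hρ _ _ (union_subset_union_right _ (ball_subset_ball ρ1))
          fun x hx => hx.1.resolve_right hx.2)⟩
    rw [union_union_distrib_right]
    refine IsConnected.union ⟨p, Or.inr (mem_ball_self ρ0), Or.inr (mem_ball_self ρ0)⟩
      (IsConnected.union (touch r0 ρ0 ?_) (isConnected_ball r0) (isConnected_ball ρ0))
      (IsConnected.union (touch (by positivity) ρ0 ?_) (isConnected_ball (by positivity))
        (isConnected_ball ρ0))
    · rw [dist_eq_norm, hp, add_smul, one_smul, add_sub_cancel_left, norm_smul, c1, mul_one,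
        Real.norm_of_nonneg r0.le]
    · rw [dist_eq_norm, hp, ← sub_smul, norm_smul, c1, mul_one,
        show 1 + r - t = -(t * r) by linarith, norm_neg, Real.norm_of_nonneg (by positivity)]
  · exact ⟨_, isOpen_ball.union isOpen_ball, bd, ⟨c, Or.inl (mem_ball_self r0)⟩,
      fun h => absurd h h3, main _ bd Subset.rfl (cut_self _ _ σ0.le θ0.le)⟩

theorem comb_example (hN : 3 ≤ N) (hq : 2 < q) (hqN : ((N:ℝ) - 2) * q < 2 * N) :
    ∃ Ω : Set (E N), IsOpen Ω ∧ Bornology.IsBounded Ω ∧ IsConnected Ω ∧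
      ∃ D : DS (volume : Measure (E N)) (HS Ω) q, Real' D ∧ ∀ M, ∃ h l, D.Pos h l ∧ M ≤ l := by
  have q0 : 0 < q := by linarith
  have hN2 : 2 ≤ N := by omega
  set i0 : Fin N := ⟨0, by omega⟩
  set i1 : Fin N := ⟨1, by omega⟩
  have i01 : i1 ≠ i0 := by simp [i0, i1]
  set e0 : E N := EuclideanSpace.single i0 1 with he0
  set e1 : E N := EuclideanSpace.single i1 1 with he1
  have n0 : ‖e0‖ = 1 := by simp [he0]
  have n1 : ‖e1‖ = 1 := by simp [he1]
  let s : ℕ → ℝ := fun k => (1 / 2) ^ k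
  have s0 : ∀ k, 0 < s k := fun k => by positivity
  have s1 : ∀ k, s k ≤ 1 := fun k => pow_le_one₀ (by norm_num) (by norm_num)
  let p : ℕ → E N := fun k => s k • e0
  let c : ℕ → E N := fun k => p k + (s k / 8) • e1
  have pc : ∀ k, dist (p k) (c k) = s k / 8 := fun k => by
    rw [dist_self_add_right, norm_smul, n1, mul_one, Real.norm_of_nonneg (by linarith [s0 k])]
  have pn : ∀ k, ‖p k‖ = s k := fun k => by
    rw [norm_smul, n0, mul_one, Real.norm_of_nonneg (s0 k).le]
  have Cs : ∀ k, ball (c k) (s k / 8) ⊆ ball (p k) (s k / 4) := fun k =>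
    ball_subset_ball' (by rw [dist_comm, pc]; linarith)
  have Bs : ∀ k, ball (p k) (s k / 4) ⊆ ball 0 2 := fun k =>
    ball_subset_ball' (by rw [dist_zero_right, pn]; linarith [s1 k])
  have dj : ∀ j k, j ≠ k → Disjoint (ball (p j) (s j / 4)) (ball (p k) (s k / 4)) := by
    have : ∀ j k, j < k → Disjoint (ball (p j) (s j / 4)) (ball (p k) (s k / 4)) := fun j k h => by
      have h1 : s k ≤ s j / 2 := by
        have := pow_le_pow_of_le_one (by norm_num : (0:ℝ) ≤ 1 / 2) (by norm_num)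
          (show j + 1 ≤ k from h)
        rw [pow_succ] at this
        simp only [s]; linarith
      refine ball_disjoint_ball ?_
      have := abs_norm_sub_norm_le (p j) (p k)
      rw [pn, pn, ← dist_eq_norm] at this
      linarith [le_abs_self (s j - s k), s0 k]
    intro j k h
    rcases lt_or_gt_of_ne h with h | h
    exacts [this j k h, (this k j h).symm]
  set b := Sq q (ball (0 : E N) 2) with hb
  have b0 : 0 < b := Sq_pos hN2 hq hqN 0 two_pos
  have a0 : ∀ k, 0 < Sq q (ball (c k) (s k / 8)) := fun k =>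
    Sq_pos hN2 hq hqN _ (by linarith [s0 k])
  choose θ hθ using fun k => (((small_theta (a := Sq q (ball (c k) (s k / 8))) hq b0).and
    ((eventually_le_nhds (by norm_num : (0:ℝ) < 1 / 4)).filter_mono nhdsWithin_le_nhds)).and
    self_mem_nhdsWithin).exists
  have θ0 : ∀ k, 0 < θ k := fun k => (hθ k).2
  choose ρ ρ0 ρ1 hρ using fun k => hole hN hq hqN (isBounded_ball (x := (0 : E N)) (r := 2)) (p k)
    (σ := θ k / 2 / (2 * Sq q (ball (c k) (s k / 8))) ^ (q / 2))
    (by have := a0 k; have := θ0 k; positivity) (θ0 k) (by linarith [s0 k] : 0 < s k / 4)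
  set B : Set (E N) := ball 0 2 ∩ {x | x i1 < 0} with hB
  have Bo : IsOpen B := isOpen_ball.inter (isOpen_lt (by fun_prop) continuous_const)
  have Bc : Convex ℝ B := (convex_ball _ _).inter
    (convex_halfSpace_lt (f := fun x : E N => x i1) ⟨fun _ _ => rfl, fun _ _ => rfl⟩ 0)
  let A : ℕ → Set (E N) := fun k => ball (c k) (s k / 8) ∪ ball (p k) (ρ k)
  have As : ∀ k, A k ⊆ ball (p k) (s k / 4) := fun k =>
    union_subset (Cs k) (ball_subset_ball (ρ1 k))
  have Ao : ∀ k, IsOpen (A k) := fun k => isOpen_ball.union isOpen_ball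
  have sub : B ∪ ⋃ k, A k ⊆ ball 0 2 :=
    union_subset inter_subset_left (iUnion_subset fun k => (As k).trans (Bs k))
  have bd := isBounded_ball.subset sub
  have Bm : ∀ k, p k - (ρ k / 2) • e1 ∈ B ∩ ball (p k) (ρ k) := fun k => by
    have h1 : p k - (ρ k / 2) • e1 ∈ ball (p k) (ρ k) := by
      rw [mem_ball, dist_eq_norm, sub_sub_cancel_left, norm_neg, norm_smul, n1, mul_one,
        Real.norm_of_nonneg (by linarith [ρ0 k])]
      linarith [ρ0 k]
    refine ⟨⟨Bs k (ball_subset_ball (ρ1 k) h1), ?_⟩, h1⟩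
    simpa [p, he0, he1, i01] using ρ0 k
  obtain ⟨D, hD⟩ := real_bdd hN2 hq hqN bd
  refine ⟨_, Bo.union (isOpen_iUnion Ao), bd, ?_, D, hD, fun M => ?_⟩
  · rw [union_iUnion]
    refine ⟨⟨_, mem_iUnion.2 ⟨0, Or.inl (Bm 0).1⟩⟩, isPreconnected_iUnion
      ⟨_, mem_iInter.2 fun k => Or.inl (Bm 0).1⟩ fun k => ?_⟩
    exact IsPreconnected.union _ (Bm k).1 (Or.inr (Bm k).2) Bc.isPreconnected
      (IsConnected.union (touch (by linarith [s0 k]) (ρ0 k) (pc k))
        (isConnected_ball (by linarith [s0 k])) (isConnected_ball (ρ0 k))).isPreconnected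
  · have ts : Tendsto (fun k => s k / 8) atTop (𝓝[>] 0) := by
      refine tendsto_nhdsWithin_iff.2 ⟨?_, Eventually.of_forall fun k => by
        simpa using s0 k⟩
      simpa only [zero_div] using (tendsto_pow_atTop_nhds_zero_of_lt_one
        (by norm_num : (0:ℝ) ≤ 1 / 2) (by norm_num)).div_const 8
    obtain ⟨k, hk⟩ := (ts.eventually (Sq_large hN2 hq hqN
      (isBounded_ball (x := (0 : E N)) (r := 2)) (3 * |M|))).exists
    have hk' := hk (c k) ((Cs k).trans (Bs k))
    have hd := hD.dec (U := ball (c k) (s k / 8)) (V := B ∪ ⋃ j ∈ {j | j ≠ k}, A j) isOpen_ball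
      (Bo.union (isOpen_biUnion fun j _ => Ao j)) (by
        refine disjoint_union_right.2 ⟨disjoint_left.2 fun x h1 h2 => ?_,
          disjoint_iUnion₂_right.2 fun j hj => (dj k j (Ne.symm hj)).mono (Cs k) (As j)⟩
        have h3 := (PiLp.dist_apply_le x (c k) i1).trans_lt h1
        have h4 : c k i1 = s k / 8 := by simp [c, p, he0, he1, i01]
        have h5 : x i1 < 0 := h2.2
        rw [h4, Real.dist_eq] at h3
        linarith [(abs_lt.1 h3).1]) (a0 k).le b0.le (Sq_sob q0)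
      ((Sq_sob q0).mono (union_subset inter_subset_left
        (iUnion₂_subset fun j _ => (As j).trans (Bs j)))) (hρ k _ _ sub (by
          rintro x ⟨h1 | h1, h2⟩
          · exact Or.inr (Or.inl h1)
          · obtain ⟨j, hj⟩ := mem_iUnion.1 h1
            by_cases e : j = k
            · subst e; exact Or.inl (hj.resolve_right h2)
            · exact Or.inr (Or.inr (mem_iUnion₂.2 ⟨j, e, hj⟩))))
    have := a0 k
    have := θ0 k
    obtain ⟨h, l, l1, -, l3⟩ := hD.chamber (by linarith [s0 k])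
      (subset_union_left.trans ((subset_iUnion A k).trans subset_union_right)) (a0 k) hd b0.le
      (by positivity) (θ0 k) (hθ k).1.2 (by rw [div_mul_cancel₀ _ (by positivity)]) (hθ k).1.1
    refine ⟨h, l, l1, ?_⟩
    have := l1.pos
    have := (hθ k).1.2
    nlinarith [le_abs_self M, abs_nonneg M]

lemma adm_bdd (hN : 2 ≤ N) (hq : 2 < q) (hqN : ((N:ℝ) - 2) * q < 2 * N)
    (hΩ : Bornology.IsBounded Ω) : QSpec.Adm Ω q := by
  obtain ⟨D, hD⟩ := real_bdd hN hq hqN hΩ
  have q0 : 0 < q := by linarith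
  have hC := D.hC
  haveI : Fact (1 ≤ ENNReal.ofReal q) := ⟨by simpa using (by linarith : 1 ≤ q)⟩
  refine ⟨⟨⟨D.C, hC.le⟩, fun φ hφ => ?_⟩, fun φ R hφ hR => ?_⟩
  · have := hD.eLp (eL Ω ⟨φ, hφ⟩)
    rw [eLpNorm_congr_ae (hD.hP.J_coe ⟨φ, hφ⟩), ENNReal.ofReal_mul hC.le,
      ← eLp_grad ⟨φ, hφ⟩] at this
    rw [← ENNReal.ofReal_coe_nnreal]
    exact this
  · obtain ⟨k, hk, hc⟩ := D.cpt (fun n => eL Ω ⟨φ n, hφ n⟩) R fun n => by
      have := hR n
      rwa [eLp_grad ⟨φ n, hφ n⟩, ← ENNReal.ofReal_coe_nnreal,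
        ENNReal.ofReal_le_ofReal_iff R.coe_nonneg] at this
    have m : ∀ n, MemLp (φ (k n)) (ENNReal.ofReal q) volume := fun n => (IsTest.c1 (hφ _)).mem _
    obtain ⟨v, hv⟩ := cauchySeq_tendsto_of_complete (u := fun n => (m n).toLp _)
      (Metric.cauchySeq_iff.2 fun ε hε => by
        obtain ⟨n0, hn0⟩ := hc ((ε / 2) ^ q) (by positivity)
        refine ⟨n0, fun a ha b hb => lt_of_le_of_lt ?_ (half_lt_self hε)⟩
        rw [Lp.dist_def]
        refine ENNReal.toReal_le_of_le_ofReal (by positivity) (le_of_eq_of_le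
          (eLpNorm_congr_ae ?_) (eLp_le_of_int (D.j _).aestronglyMeasurable q0 (by positivity)
          (D.intq _) (hn0 a ha b hb)))
        filter_upwards [(m a).coeFn_toLp, (m b).coeFn_toLp, D.j_sub (eL Ω ⟨φ (k a), hφ _⟩)
          (eL Ω ⟨φ (k b), hφ _⟩), hD.j_eq (hD.hP.rep_test ⟨φ (k a), hφ _⟩),
          hD.j_eq (hD.hP.rep_test ⟨φ (k b), hφ _⟩)] with x a1 a2 a3 a4 a5
        rw [Pi.sub_apply, a1, a2, a3, a4, a5])
    refine ⟨v, k, hk, Lp.memLp v, ((Lp.tendsto_Lp_iff_tendsto_eLpNorm' _ _).1 hv).congr fun n =>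
      eLpNorm_congr_ae ?_⟩
    filter_upwards [(m n).coeFn_toLp] with x a1
    rw [Pi.sub_apply, a1]

end Pool.Agent.H27.Iso
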