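import Pool.Agent.H27.Iso1

/-! Isolation of the energy level for `h = K (h^(q-1))` near `h = 1` in `L^∞`. -/

open Set Metric Filter Topology MeasureTheory Complex
open scoped ENNReal

namespace Pool.Agent.H27.Iso

variable {Z : Type} [MeasurableSpace Z] {ν : Measure Z}

/-- Real functions as complex ones. -/
noncomputable def oR (ν : Measure Z) : Lp ℝ ∞ ν →L[ℝ] Lp ℂ ∞ ν := ofRealCLM.compLpL ∞ ν
/-- Real part. -/
noncomputable def reL (ν : Measure Z) : Lp ℂ ∞ ν →L[ℝ] Lp ℝ ∞ ν := reCLM.compLpL ∞ ν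
/-- Imaginary part. -/
noncomputable def imL (ν : Measure Z) : Lp ℂ ∞ ν →L[ℝ] Lp ℝ ∞ ν := imCLM.compLpL ∞ ν

lemma oR_coe (a : Lp ℝ ∞ ν) : oR ν a =ᵐ[ν] fun z => (a z : ℂ) := ofRealCLM.coeFn_compLpL a
lemma reL_coe (g : Lp ℂ ∞ ν) : reL ν g =ᵐ[ν] fun z => (g z).re := reCLM.coeFn_compLpL g
lemma imL_coe (g : Lp ℂ ∞ ν) : imL ν g =ᵐ[ν] fun z => (g z).im := imCLM.coeFn_compLpL g

lemma decomp (g : Lp ℂ ∞ ν) : g = oR ν (reL ν g) + I • oR ν (imL ν g) := by
  refine Lp.ext ?_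
  filter_upwards [Lp.coeFn_add (oR ν (reL ν g)) (I • oR ν (imL ν g)),
    Lp.coeFn_smul I (oR ν (imL ν g)), oR_coe (reL ν g), oR_coe (imL ν g), reL_coe g, imL_coe g]
    with z h1 h2 h3 h4 h5 h6
  rw [h1, Pi.add_apply, h2, Pi.smul_apply, h3, h4, h5, h6, smul_eq_mul, mul_comm, re_add_im]

lemma re_oR (a : Lp ℝ ∞ ν) : reL ν (oR ν a) = a := by
  refine Lp.ext ?_
  filter_upwards [reL_coe (oR ν a), oR_coe a] with z h1 h2
  rw [h1, h2, ofReal_re]

lemma im_oR (a : Lp ℝ ∞ ν) : imL ν (oR ν a) = 0 := by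
  refine Lp.ext ?_
  filter_upwards [imL_coe (oR ν a), oR_coe a, Lp.coeFn_zero ℝ ∞ ν] with z h1 h2 h3
  rw [h1, h2, ofReal_im, h3, Pi.zero_apply]

lemma re_smul (c : ℂ) (g : Lp ℂ ∞ ν) : reL ν (c • g) = c.re • reL ν g - c.im • imL ν g := by
  refine Lp.ext ?_
  filter_upwards [reL_coe (c • g), Lp.coeFn_smul c g, Lp.coeFn_sub (c.re • reL ν g) (c.im • imL ν g),
    Lp.coeFn_smul c.re (reL ν g), Lp.coeFn_smul c.im (imL ν g), reL_coe g, imL_coe g]
    with z h1 h2 h3 h4 h5 h6 h7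
  rw [h1, h2, h3, Pi.sub_apply, h4, h5, Pi.smul_apply, Pi.smul_apply, Pi.smul_apply, h6, h7]
  simp

lemma im_smul (c : ℂ) (g : Lp ℂ ∞ ν) : imL ν (c • g) = c.re • imL ν g + c.im • reL ν g := by
  refine Lp.ext ?_
  filter_upwards [imL_coe (c • g), Lp.coeFn_smul c g, Lp.coeFn_add (c.re • imL ν g) (c.im • reL ν g),
    Lp.coeFn_smul c.re (imL ν g), Lp.coeFn_smul c.im (reL ν g), reL_coe g, imL_coe g]
    with z h1 h2 h3 h4 h5 h6 h7
  rw [h1, h2, h3, Pi.add_apply, h4, h5, Pi.smul_apply, Pi.smul_apply, Pi.smul_apply, h6, h7]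
  simp

lemma oR_smul (r : ℝ) (a : Lp ℝ ∞ ν) : oR ν (r • a) = (r : ℂ) • oR ν a := by
  refine Lp.ext ?_
  filter_upwards [oR_coe (r • a), Lp.coeFn_smul r a, Lp.coeFn_smul (r : ℂ) (oR ν a), oR_coe a]
    with z h1 h2 h3 h4
  rw [h1, h2, h3, Pi.smul_apply, Pi.smul_apply, h4]
  simp

/-- Complexification of a real operator. -/
noncomputable def Kc (K : Lp ℝ ∞ ν →L[ℝ] Lp ℝ ∞ ν) : Lp ℂ ∞ ν →L[ℂ] Lp ℂ ∞ ν where
  toFun g := oR ν (K (reL ν g)) + I • oR ν (K (imL ν g))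
  map_add' g h := by
    simp only [map_add, smul_add]
    abel
  map_smul' c g := by
    rw [re_smul, im_smul, map_sub, map_add, map_smul, map_smul, map_smul, map_smul, map_sub,
      map_add, oR_smul, oR_smul, oR_smul, oR_smul, RingHom.id_apply]
    conv_rhs => rw [← re_add_im c]
    match_scalars
    · ring
    · linear_combination (-(c.im : ℂ)) * I_mul_I
  cont := by fun_prop

lemma Kc_apply (K : Lp ℝ ∞ ν →L[ℝ] Lp ℝ ∞ ν) (g : Lp ℂ ∞ ν) :
    Kc K g = oR ν (K (reL ν g)) + I • oR ν (K (imL ν g)) := rfl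

lemma Kc_oR (K : Lp ℝ ∞ ν →L[ℝ] Lp ℝ ∞ ν) (a : Lp ℝ ∞ ν) : Kc K (oR ν a) = oR ν (K a) := by
  rw [Kc_apply, re_oR, im_oR]
  simp

lemma Kc_compact {K : Lp ℝ ∞ ν →L[ℝ] Lp ℝ ∞ ν} (hK : IsCompactOperator K) :
    IsCompactOperator (Kc K) :=
  ((hK.comp_clm (reL ν)).clm_comp (oR ν)).add (((hK.comp_clm (imL ν)).clm_comp (oR ν)).smul I)

variable [IsFiniteMeasure ν]

/-- Integration on `L^∞`. -/
noncomputable def intL (ν : Measure Z) [IsFiniteMeasure ν] : Lp ℂ ∞ ν →L[ℂ] ℂ :=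
  ((ContinuousLinearMap.mul ℂ ℂ).lpPairing ν ∞ 1).flip (Lp.const 1 ν (1:ℂ))

lemma intL_eq {g : Lp ℂ ∞ ν} {f : Z → ℂ} (h : g =ᵐ[ν] f) : intL ν g = ∫ z, f z ∂ν := by
  rw [intL, ContinuousLinearMap.flip_apply, ContinuousLinearMap.lpPairing_eq_integral]
  refine integral_congr_ae ?_
  filter_upwards [h, Lp.coeFn_const 1 ν (1:ℂ)] with z h1 h2
  rw [h1, h2]
  simp

lemma pair_eq (g h : Lp ℂ ∞ ν) : intL ν (mulL ν g h) = ∫ z, g z * h z ∂ν := intL_eq (mulL_coe g h)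

lemma Kc_sym {K : Lp ℝ ∞ ν →L[ℝ] Lp ℝ ∞ ν}
    (hs : ∀ a b : Lp ℝ ∞ ν, ∫ z, K a z * b z ∂ν = ∫ z, a z * K b z ∂ν) (g h : Lp ℂ ∞ ν) :
    intL ν (mulL ν (Kc K g) h) = intL ν (mulL ν g (Kc K h)) := by
  have e : ∀ a b : Lp ℝ ∞ ν, intL ν (mulL ν (oR ν a) (oR ν b)) = ((∫ z, a z * b z ∂ν : ℝ) : ℂ) := by
    intro a b
    rw [pair_eq, ← integral_complex_ofReal]
    refine integral_congr_ae ?_
    filter_upwards [oR_coe a, oR_coe b] with z h1 h2
    simp [h1, h2]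
  rw [Kc_apply, Kc_apply]
  conv_lhs => rw [decomp h]
  conv_rhs => enter [2, 1]; rw [decomp g]
  simp only [map_add, map_smul, ContinuousLinearMap.add_apply, ContinuousLinearMap.smul_apply, e,
    hs]

/-- The power function. -/
noncomputable def pw (a : ℝ) (z : ℂ) : ℂ := (1 + z) ^ (a : ℂ)

lemma pw_meas (a : ℝ) : Measurable (pw a) := (measurable_const.add measurable_id).pow_const _

lemma slit {z : ℂ} (hz : z ∈ ball (0:ℂ) 1) : 1 + z ∈ slitPlane :=
  mem_slitPlane_of_norm_lt_one (mem_ball_zero_iff.1 hz)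

lemma pw_deriv (a : ℝ) {z : ℂ} (hz : z ∈ ball (0:ℂ) 1) : HasDerivAt (pw a) (a * pw (a - 1) z) z := by
  have := ((hasDerivAt_id z).const_add 1).cpow_const (c := (a : ℂ)) (slit hz)
  refine this.congr_deriv ?_
  simp [pw]

lemma pw_diff (a : ℝ) : DifferentiableOn ℂ (pw a) (ball 0 1) := fun _ hz =>
  (pw_deriv a hz).differentiableAt.differentiableWithinAt

lemma pw_succ (a : ℝ) {z : ℂ} (hz : z ∈ ball (0:ℂ) 1) : (1 + z) * pw (a - 1) z = pw a z := by
  have h := slitPlane_ne_zero (slit hz)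
  simp only [pw, ofReal_sub, ofReal_one]
  rw [cpow_sub _ _ h, cpow_one]
  field_simp

lemma half_ball {z : ℂ} (hz : z ∈ closedBall (0:ℂ) (1 / 2)) : z ∈ ball (0:ℂ) 1 :=
  closedBall_subset_ball (by norm_num) hz

theorem linf_iso (K : Lp ℝ ∞ ν →L[ℝ] Lp ℝ ∞ ν) (hK : IsCompactOperator K)
    (hs : ∀ a b : Lp ℝ ∞ ν, ∫ z, K a z * b z ∂ν = ∫ z, a z * K b z ∂ν) (e : Lp ℝ ∞ ν)
    (he : e =ᵐ[ν] fun _ => 1) (hKe : K e = e) {q : ℝ} (hq : 2 < q) :
    ∃ ε > 0, ∀ h g : Lp ℝ ∞ ν, ‖h - e‖ < ε → (g =ᵐ[ν] fun z => h z ^ (q - 1)) → h = K g →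
      ∫ z, h z ^ q ∂ν = ν.real univ := by
  have z0 : ‖(0 : Lp ℂ ∞ ν)‖ < 1 / 2 := by simp
  have hN0 : Nem (pw (q - 1)) (0 : Lp ℂ ∞ ν) = oR ν e := by
    refine Lp.ext ?_
    filter_upwards [Nem_coe (pw_meas _) (pw_diff (q - 1)) z0, oR_coe e, he, Lp.coeFn_zero ℂ ∞ ν]
      with z h1 h2 h3 h4
    rw [h1, h2, h3, h4]
    simp [pw]
  set Φ : Lp ℂ ∞ ν → Lp ℂ ∞ ν := fun g => g + oR ν e - Kc K (Nem (pw (q - 1)) g) with hΦ
  have hΦd : ∀ g : Lp ℂ ∞ ν, ‖g‖ < 1 / 2 → HasFDerivAt Φ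
      (1 - (Kc K).comp (mulL ν (Nem (deriv (pw (q - 1))) g))) g := fun g hg =>
    ((hasFDerivAt_id g).add_const _).sub
      ((Kc K).hasFDerivAt.comp g (Nem_deriv (pw_meas _) (pw_diff _) hg))
  have hD : ∀ (a : ℝ) (g : Lp ℂ ∞ ν), ‖g‖ < 1 / 2 →
      Nem (deriv (pw a)) g =ᵐ[ν] fun z => a * pw (a - 1) (g z) := by
    intro a g hg
    filter_upwards [Nem_coe (measurable_deriv _) ((pw_diff a).deriv isOpen_ball) hg, ae_half hg]
      with z h1 h2
    rw [h1, (pw_deriv a (half_ball h2)).deriv]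
  have hm0 : (Kc K).comp (mulL ν (Nem (deriv (pw (q - 1))) (0 : Lp ℂ ∞ ν))) =
      ((q - 1 : ℝ) : ℂ) • Kc K := by
    ext1 v
    rw [ContinuousLinearMap.comp_apply, ContinuousLinearMap.smul_apply, ← map_smul]
    congr 1
    refine Lp.ext ?_
    filter_upwards [mulL_coe (Nem (deriv (pw (q - 1))) (0 : Lp ℂ ∞ ν)) v, hD (q - 1) 0 z0,
      Lp.coeFn_zero ℂ ∞ ν, Lp.coeFn_smul ((q - 1 : ℝ) : ℂ) v] with z h1 h2 h3 h4
    rw [h1, h2, h3, h4]
    simp [pw]
  have key := banach_iso Φ (((q - 1 : ℝ) : ℂ) • Kc K) ((Kc_compact hK).smul ((q - 1 : ℝ) : ℂ))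
    ((contDiffAt_id.add contDiffAt_const).sub
      ((Kc K).contDiff.contDiffAt.comp 0 (Nem_contDiff (pw_meas _) (pw_diff _))))
    (by simp only [hΦ, hN0, Kc_oR, hKe, zero_add, sub_self]) (hm0 ▸ hΦd 0 z0) (by
      intro x n h1 h2
      simp only [ContinuousLinearMap.smul_apply] at h1 h2
      have r1 := congrArg (reL ν) h1
      have r2 := congrArg (imL ν) h1
      simp only [re_smul, im_smul, Kc_apply, map_add, re_oR, im_oR, ofReal_re, ofReal_im, I_re,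
        I_im, zero_smul, smul_zero, sub_zero, add_zero, one_smul, zero_add] at r1 r2
      set m := oR ν (reL ν n) - I • oR ν (imL ν n) with hm
      have h3 : ((q - 1 : ℝ) : ℂ) • Kc K m = m := by
        rw [hm, map_sub, map_smul, Kc_oR, Kc_oR, smul_sub, smul_comm _ I, ← oR_smul, ← oR_smul,
          r1, r2]
      have h4 : intL ν (mulL ν n m) = 0 := by
        clear_value m
        conv_lhs => rw [h2]
        rw [map_sub, ContinuousLinearMap.sub_apply, map_sub, map_smul,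
          ContinuousLinearMap.smul_apply, map_smul, Kc_sym hs, ← map_smul, ← map_smul, h3, sub_self]
      have h5 : intL ν (mulL ν n m) = ((∫ z, ‖n z‖ ^ 2 ∂ν : ℝ) : ℂ) := by
        rw [pair_eq, ← integral_complex_ofReal]
        refine integral_congr_ae ?_
        filter_upwards [Lp.coeFn_sub (oR ν (reL ν n)) (I • oR ν (imL ν n)),
          Lp.coeFn_smul I (oR ν (imL ν n)), oR_coe (reL ν n), oR_coe (imL ν n), reL_coe n,
          imL_coe n] with z a1 a2 a3 a4 a5 a6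
        rw [a1, Pi.sub_apply, a2, Pi.smul_apply, a3, a4, a5, a6, ← normSq_eq_norm_sq]
        apply Complex.ext <;> simp [normSq_apply]
        ring
      rw [h4] at h5
      have h6 : ∫ z, ‖n z‖ ^ 2 ∂ν = 0 := by exact_mod_cast h5.symm
      have h7 : Integrable (fun z => ‖n z‖ ^ 2) ν :=
        (memLp_two_iff_integrable_sq_norm (Lp.aestronglyMeasurable n)).1
          ((Lp.memLp n).mono_exponent le_top)
      rw [integral_eq_zero_iff_of_nonneg (fun z => by positivity) h7] at h6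
      refine Lp.ext ?_
      filter_upwards [h6, Lp.coeFn_zero ℂ ∞ ν] with z a1 a2
      rw [a2]
      simpa using a1)
    (fun g => intL ν (Nem (pw q) g)) (by
      filter_upwards [ball_mem_nhds (0 : Lp ℂ ∞ ν) (by norm_num : (0:ℝ) < 1 / 2)] with g hg
      rw [mem_ball_zero_iff] at hg
      have hE := (intL ν).hasFDerivAt.comp g (Nem_deriv (pw_meas q) (pw_diff q) hg)
      refine ⟨hE.differentiableAt, fun h1 v h2 => ?_⟩
      have hE' : fderiv ℂ (fun g => intL ν (Nem (pw q) g)) g = _ := hE.fderiv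
      rw [hE', ContinuousLinearMap.comp_apply]
      rw [(hΦd g hg).fderiv, ContinuousLinearMap.sub_apply, ContinuousLinearMap.one_apply,
        ContinuousLinearMap.comp_apply, sub_eq_zero] at h2
      have h3 : g + oR ν e = Kc K (Nem (pw (q - 1)) g) := sub_eq_zero.1 h1
      set B := intL ν (mulL ν (Nem (pw (q - 1)) g) v) with hB
      have h4 : B = ((q - 1 : ℝ) : ℂ) * B := by
        conv_lhs => rw [hB, h2, ← Kc_sym hs, ← h3]
        rw [hB, pair_eq, pair_eq, ← integral_const_mul]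
        refine integral_congr_ae ?_
        filter_upwards [Lp.coeFn_add g (oR ν e), oR_coe e, he,
          mulL_coe (Nem (deriv (pw (q - 1))) g) v, hD (q - 1) g hg,
          Nem_coe (pw_meas _) (pw_diff (q - 1)) hg, ae_half hg] with z a1 a2 a3 a4 a5 a6 a7
        rw [a1, Pi.add_apply, a2, a3, a4, a5, a6, ← pw_succ (q - 1) (half_ball a7)]
        push_cast
        ring
      have h5 : B = 0 := by
        have h6 : ((q - 2 : ℝ) : ℂ) ≠ 0 := by exact_mod_cast (by linarith : q - 2 ≠ 0)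
        refine (mul_eq_zero.1 ?_).resolve_left h6
        push_cast at h4 ⊢
        linear_combination -h4
      have h7 : intL ν (mulL ν (Nem (deriv (pw q)) g) v) = (q : ℂ) * B := by
        rw [hB, pair_eq, pair_eq, ← integral_const_mul]
        refine integral_congr_ae ?_
        filter_upwards [hD q g hg, Nem_coe (pw_meas _) (pw_diff (q - 1)) hg] with z a1 a2
        rw [a1, a2]
        ring
      rw [h7, h5, mul_zero])
  obtain ⟨ε, hε, hb⟩ := Metric.eventually_nhds_iff_ball.1 key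
  refine ⟨min ε (1 / 2), by positivity, fun h g h1 h2 h3 => ?_⟩
  have hn : ‖oR ν (h - e)‖ ≤ ‖h - e‖ := by
    refine norm_le_of_ae _ (norm_nonneg _) ?_
    filter_upwards [oR_coe (h - e), ae_le_norm (h - e)] with z a1 a2
    rw [a1, norm_real]
    exact a2
  have hn2 : ‖oR ν (h - e)‖ < 1 / 2 := hn.trans_lt (h1.trans_le (min_le_right _ _))
  have hpt : ∀ a : ℝ, Nem (pw a) (oR ν (h - e)) =ᵐ[ν] fun z => ((h z ^ a : ℝ) : ℂ) := by
    intro a
    filter_upwards [Nem_coe (pw_meas _) (pw_diff a) hn2, oR_coe (h - e), Lp.coeFn_sub h e, he,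
      ae_le_norm (h - e)] with z a1 a2 a3 a4 a5
    rw [a3, Pi.sub_apply, a4, Real.norm_eq_abs] at a5
    have a6 : 0 ≤ h z := by
      have := (abs_le.1 a5).1
      linarith [h1.trans_le (min_le_right _ _)]
    rw [a1, a2, a3, Pi.sub_apply, a4, ofReal_cpow a6, pw]
    congr 1
    push_cast
    ring
  have h4 : Nem (pw (q - 1)) (oR ν (h - e)) = oR ν g := by
    refine Lp.ext ?_
    filter_upwards [hpt (q - 1), oR_coe g, h2] with z a1 a2 a3
    rw [a1, a2, a3]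
  have h5 := hb (oR ν (h - e)) (mem_ball_zero_iff.2 (hn.trans_lt (h1.trans_le (min_le_left _ _))))
    (by
      show oR ν (h - e) + oR ν e - Kc K (Nem (pw (q - 1)) (oR ν (h - e))) = 0
      rw [h4, Kc_oR, ← h3, map_sub, sub_add_cancel, sub_self])
  have h6 : Nem (pw q) (0 : Lp ℂ ∞ ν) =ᵐ[ν] fun _ => ((1:ℝ) : ℂ) := by
    filter_upwards [Nem_coe (pw_meas _) (pw_diff q) z0, Lp.coeFn_zero ℂ ∞ ν] with z a1 a2
    rw [a1, a2]
    simp [pw]
  simp only [intL_eq (hpt q), intL_eq h6, integral_complex_ofReal, ofReal_inj] at h5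
  simpa using h5

end Pool.Agent.H27.Iso
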