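import Mathlib

/-! Elementary inequalities and the De Giorgi iteration. -/

open Set Filter Topology MeasureTheory
open scoped ENNReal

namespace Pool.Agent.H27.Iso

variable {Z : Type} [MeasurableSpace Z] {μ : Measure Z}

lemma memLp_of {f : Z → ℝ} {a : ℝ} (ha : 0 < a) (hm : AEStronglyMeasurable f μ)
    (h0 : 0 ≤ᵐ[μ] f) (hi : Integrable (fun z => f z ^ a) μ) : MemLp f (ENNReal.ofReal a) μ := by
  rw [← integrable_norm_rpow_iff hm (by simpa using ha) ENNReal.ofReal_ne_top,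
    ENNReal.toReal_ofReal ha.le]
  refine hi.congr ?_
  filter_upwards [h0] with z hz
  rw [Real.norm_of_nonneg hz]

lemma holder {f g : Z → ℝ} {a b : ℝ} (hab : a.HolderConjugate b) (hf : AEStronglyMeasurable f μ)
    (hg : AEStronglyMeasurable g μ) (f0 : 0 ≤ᵐ[μ] f) (g0 : 0 ≤ᵐ[μ] g)
    (fi : Integrable (fun z => f z ^ a) μ) (gi : Integrable (fun z => g z ^ b) μ) :
    Integrable (fun z => f z * g z) μ ∧
      ∫ z, f z * g z ∂μ ≤ (∫ z, f z ^ a ∂μ) ^ (1 / a) * (∫ z, g z ^ b ∂μ) ^ (1 / b) := by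
  refine ⟨?_, integral_mul_le_Lp_mul_Lq_of_nonneg hab f0 g0 (memLp_of hab.pos hf f0 fi)
    (memLp_of hab.symm.pos hg g0 gi)⟩
  refine Integrable.mono' ((fi.div_const a).add (gi.div_const b)) (hf.mul hg) ?_
  filter_upwards [f0, g0] with z h1 h2
  rw [Real.norm_of_nonneg (mul_nonneg h1 h2)]
  exact Real.young_inequality_of_nonneg h1 h2 hab

lemma holder_set {w : Z → ℝ} {a b : ℝ} (ha : 0 < a) (hab : a < b) (hw : Measurable w)
    (w0 : 0 ≤ᵐ[μ] w) (wi : Integrable (fun z => w z ^ b) μ) {A : Set Z} (hA : MeasurableSet A)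
    (hfin : μ A < ∞) (hz : ∀ᵐ z ∂μ, z ∉ A → w z = 0) :
    Integrable (fun z => w z ^ a) μ ∧
      ∫ z, w z ^ a ∂μ ≤ (∫ z, w z ^ b ∂μ) ^ (a / b) * μ.real A ^ (1 - a / b) := by
  have hb : 0 < b := ha.trans hab
  have hc : (b / a).HolderConjugate (b / (b - a)) := by
    have : 0 < b - a := sub_pos.2 hab
    refine ⟨by field_simp; ring, by positivity, by positivity⟩
  have e1 : ∀ᵐ z ∂μ, (w z ^ a) ^ (b / a) = w z ^ b := by
    filter_upwards [w0] with z h
    rw [← Real.rpow_mul h]; congr 1; field_simp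
  have e2 : ∀ z, (A.indicator (fun _ => (1:ℝ)) z) ^ (b / (b - a)) = A.indicator (fun _ => 1) z := by
    intro z
    by_cases h : z ∈ A
    · simp [h]
    · simp [h, hc.symm.pos.ne']
  have e3 : ∀ᵐ z ∂μ, w z ^ a * A.indicator (fun _ => (1:ℝ)) z = w z ^ a := by
    filter_upwards [hz] with z h
    by_cases h' : z ∈ A
    · simp [h']
    · simp [h', h h', ha.ne']
  have hi : Integrable (A.indicator (fun _ => (1:ℝ))) μ :=
    (integrable_indicator_iff hA).2 (integrableOn_const hfin.ne)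
  obtain ⟨h1, h2⟩ := holder (μ := μ) (f := fun z => w z ^ a) (g := A.indicator (fun _ => (1:ℝ))) hc
    (hw.pow_const a).aestronglyMeasurable hi.1
    (by filter_upwards [w0] with z h; exact Real.rpow_nonneg h _)
    (ae_of_all _ fun z => indicator_nonneg (fun _ _ => zero_le_one) z)
    (wi.congr (e1.mono fun z h => h.symm)) (by simpa only [e2] using hi)
  refine ⟨h1.congr e3, ?_⟩
  rw [integral_congr_ae e3, integral_congr_ae e1] at h2
  simp only [e2] at h2
  rw [integral_indicator hA] at h2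
  have : 0 < b - a := sub_pos.2 hab
  convert h2 using 2
  · field_simp
  · simp only [integral_const, MeasurableSet.univ, measureReal_restrict_apply, univ_inter,
      smul_eq_mul, mul_one]
    congr 1; field_simp

lemma trunc_int {v : Z → ℝ} {s k : ℝ} (hv : Measurable v) (hs : 0 < s) (hk : 0 ≤ k)
    (hi : Integrable (fun z => |v z| ^ s) μ) :
    Integrable (fun z => max (v z - k) 0 ^ s) μ ∧
      ∫ z, max (v z - k) 0 ^ s ∂μ ≤ ∫ z, |v z| ^ s ∂μ := by
  have hle : ∀ z, max (v z - k) 0 ^ s ≤ |v z| ^ s := fun z =>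
    Real.rpow_le_rpow (le_max_right _ _)
      (max_le (by linarith [le_abs_self (v z)]) (abs_nonneg _)) hs.le
  have h1 : Integrable (fun z => max (v z - k) 0 ^ s) μ := by
    refine hi.mono' (((hv.sub_const k).max measurable_const).pow_const s).aestronglyMeasurable
      (ae_of_all _ fun z => ?_)
    rw [Real.norm_of_nonneg (Real.rpow_nonneg (le_max_right _ _) _)]
    exact hle z
  exact ⟨h1, integral_mono h1 hi hle⟩

lemma cheb {v : Z → ℝ} {s k l : ℝ} (hs : 0 < s) (hkl : k < l)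
    (hi : Integrable (fun z => max (v z - k) 0 ^ s) μ) :
    μ {z | l < v z} < ∞ ∧
      μ.real {z | l < v z} ≤ (∫ z, max (v z - k) 0 ^ s ∂μ) / (l - k) ^ s := by
  have hp : 0 < (l - k) ^ s := Real.rpow_pos_of_pos (sub_pos.2 hkl) _
  have hsub : {z | l < v z} ⊆ {z | (l - k) ^ s ≤ max (v z - k) 0 ^ s} := fun z hz =>
    Real.rpow_le_rpow (sub_pos.2 hkl).le
      (le_max_of_le_left (by have : l < v z := hz; linarith)) hs.le
  have hf : μ {z | (l - k) ^ s ≤ max (v z - k) 0 ^ s} < ∞ := hi.measure_ge_lt_top hp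
  refine ⟨(measure_mono hsub).trans_lt hf, ?_⟩
  rw [le_div_iff₀ hp, mul_comm]
  refine le_trans ?_ (mul_meas_ge_le_integral_of_nonneg
    (ae_of_all _ fun z => Real.rpow_nonneg (le_max_right _ _) _) hi ((l - k) ^ s))
  exact mul_le_mul_of_nonneg_left (measureReal_mono hsub hf.ne) hp.le

lemma iter {y : ℕ → ℝ} {c b α Y : ℝ} (hy : ∀ n, 0 ≤ y n) (hc : 0 ≤ c) (hb : 1 < b) (hα : 0 < α)
    (hY : y 0 ≤ Y) (h : ∀ n, y (n + 1) ≤ c * b ^ n * y n ^ (1 + α))
    (h0 : c * Y ^ α ≤ b ^ (-1 / α)) : Tendsto y atTop (𝓝 0) := by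
  have hb0 : 0 < b := by linarith
  have hY0 : 0 ≤ Y := (hy 0).trans hY
  set β := b ^ (-1 / α) with hβ
  have β0 : 0 < β := Real.rpow_pos_of_pos hb0 _
  have β1 : β < 1 := Real.rpow_lt_one_of_one_lt_of_neg hb (by rw [neg_div]; simp [hα])
  have βα : β ^ α = b⁻¹ := by
    rw [hβ, ← Real.rpow_mul hb0.le, ← Real.rpow_neg_one]; congr 1; field_simp
  have key : ∀ n, y n ≤ Y * β ^ n := by
    intro n
    induction n with
    | zero => simpa using hY
    | succ n ih =>
      have e : (Y * β ^ n) ^ (1 + α) = Y * β ^ n * (Y ^ α * (b ^ n)⁻¹) := by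
        rw [Real.rpow_add' (by positivity) (by positivity), Real.rpow_one,
          Real.mul_rpow hY0 (by positivity), ← Real.rpow_natCast β, ← Real.rpow_mul β0.le,
          mul_comm (n:ℝ), Real.rpow_mul β0.le, βα, Real.rpow_natCast, Real.rpow_natCast, inv_pow]
      calc y (n + 1) ≤ c * b ^ n * y n ^ (1 + α) := h n
        _ ≤ c * b ^ n * (Y * β ^ n) ^ (1 + α) := by gcongr; exact hy n
        _ = Y * β ^ n * (c * Y ^ α) := by rw [e]; field_simp
        _ ≤ Y * β ^ n * β := by gcongr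
        _ = Y * β ^ (n + 1) := by ring
  refine squeeze_zero hy key ?_
  simpa using (tendsto_pow_atTop_nhds_zero_of_lt_one β0.le β1).const_mul Y

/-- De Giorgi levels. -/
noncomputable def lev (K : ℝ) (n : ℕ) : ℝ := K * (1 - (1 / 2) ^ n)

lemma lev_nonneg {K : ℝ} (hK : 0 < K) (n : ℕ) : 0 ≤ lev K n :=
  mul_nonneg hK.le (sub_nonneg.2 (pow_le_one₀ (by norm_num) (by norm_num)))

lemma lev_le {K : ℝ} (hK : 0 < K) (n : ℕ) : lev K n ≤ K := by
  have : 0 < K * (1 / 2) ^ n := by positivity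
  unfold lev; linarith

lemma lev_diff (K : ℝ) (n : ℕ) : lev K (n + 1) - lev K n = K / 2 ^ (n + 1) := by
  unfold lev; rw [one_div_pow, one_div_pow]; field_simp; ring

lemma dg {v : Z → ℝ} {s K c b α Y : ℝ} (hv : Measurable v) (hs : 0 < s) (hK : 0 < K)
    (hi : Integrable (fun z => |v z| ^ s) μ) (hY : ∫ z, |v z| ^ s ∂μ ≤ Y) (hc : 0 ≤ c)
    (hb : 1 < b) (hα : 0 < α)
    (h : ∀ n, ∫ z, max (v z - lev K (n + 1)) 0 ^ s ∂μ ≤
      c * b ^ n * (∫ z, max (v z - lev K n) 0 ^ s ∂μ) ^ (1 + α))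
    (h0 : c * Y ^ α ≤ b ^ (-1 / α)) : ∀ᵐ z ∂μ, v z ≤ K := by
  have ht := iter (y := fun n => ∫ z, max (v z - lev K n) 0 ^ s ∂μ)
    (fun n => integral_nonneg fun z => Real.rpow_nonneg (le_max_right _ _) _) hc hb hα
    ((trunc_int hv hs (lev_nonneg hK 0) hi).2.trans hY) h h0
  have hK' := (trunc_int hv hs hK.le hi).1
  have h1 : ∫ z, max (v z - K) 0 ^ s ∂μ ≤ 0 := by
    refine ge_of_tendsto' ht fun n => ?_
    refine integral_mono hK' (trunc_int hv hs (lev_nonneg hK n) hi).1 fun z => ?_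
    exact Real.rpow_le_rpow (le_max_right _ _)
      (max_le_max (by linarith [lev_le hK n]) le_rfl) hs.le
  have h2 := (integral_eq_zero_iff_of_nonneg
    (fun z => Real.rpow_nonneg (le_max_right (v z - K) 0) s) hK').1
    (le_antisymm h1 (integral_nonneg fun z => Real.rpow_nonneg (le_max_right _ _) _))
  filter_upwards [h2] with z hz
  have : max (v z - K) 0 = 0 := by
    by_contra hne
    exact (Real.rpow_pos_of_pos (lt_of_le_of_ne (le_max_right _ _) (Ne.symm hne)) s).ne' hz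
  linarith [le_max_left (v z - K) 0]

/-- Perturbation inequality for powers. -/
lemma pow_pert {γ ε : ℝ} (hγ : 0 < γ) (hε : 0 < ε) : ∃ C, 0 ≤ C ∧ ∀ a b : ℝ, 0 ≤ a → 0 ≤ b →
    |a ^ γ - b ^ γ| ≤ ε * b ^ γ + C * |a - b| ^ γ := by
  have hc : ContinuousAt (fun t : ℝ => t ^ γ) 1 := Real.continuousAt_rpow_const _ _ (Or.inr hγ.le)
  obtain ⟨δ, hδ, h⟩ := Metric.continuousAt_iff.1 hc ε hε
  refine ⟨(1 + 1 / δ) ^ γ, by positivity, fun a b ha hb => ?_⟩
  by_cases hab : |a - b| < δ * b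
  · have b0 : 0 < b := by
      by_contra h'
      have : b = 0 := le_antisymm (not_lt.1 h') hb
      rw [this, mul_zero] at hab
      exact absurd hab (not_lt.2 (abs_nonneg _))
    have h1 : dist (a / b) 1 < δ := by
      rw [Real.dist_eq, div_sub_one b0.ne', abs_div, abs_of_pos b0, div_lt_iff₀ b0]; exact hab
    have h2 := h h1
    rw [Real.dist_eq, Real.one_rpow, Real.div_rpow ha hb,
      div_sub_one (Real.rpow_pos_of_pos b0 _).ne', abs_div,
      abs_of_pos (Real.rpow_pos_of_pos b0 _), div_lt_iff₀ (Real.rpow_pos_of_pos b0 _)] at h2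
    have : 0 ≤ (1 + 1 / δ) ^ γ * |a - b| ^ γ := by positivity
    linarith
  · have hb' : b ≤ 1 / δ * |a - b| := by
      rw [one_div, le_inv_mul_iff₀ hδ]; exact not_lt.1 hab
    have e : (1 + 1 / δ) ^ γ * |a - b| ^ γ = ((1 + 1 / δ) * |a - b|) ^ γ :=
      (Real.mul_rpow (by positivity) (abs_nonneg _)).symm
    have h1 : a ^ γ ≤ ((1 + 1 / δ) * |a - b|) ^ γ :=
      Real.rpow_le_rpow ha (by nlinarith [le_abs_self (a - b)]) hγ.le
    have h2 : b ^ γ ≤ ((1 + 1 / δ) * |a - b|) ^ γ :=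
      Real.rpow_le_rpow hb (by nlinarith [abs_nonneg (a - b)]) hγ.le
    have h3 := Real.rpow_nonneg ha γ
    have h4 := Real.rpow_nonneg hb γ
    have h5 : 0 ≤ ε * b ^ γ := by positivity
    rw [e, abs_le]; constructor <;> linarith

lemma add_rpow_le {a b γ : ℝ} (ha : 0 ≤ a) (hb : 0 ≤ b) (hγ : 0 ≤ γ) :
    (a + b) ^ γ ≤ 2 ^ γ * (a ^ γ + b ^ γ) := by
  have h3 := Real.rpow_nonneg ha γ
  have h4 := Real.rpow_nonneg hb γ
  have h5 : (0:ℝ) < 2 ^ γ := by positivity
  rcases le_total a b with h | h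
  · calc (a + b) ^ γ ≤ (2 * b) ^ γ := Real.rpow_le_rpow (by positivity) (by linarith) hγ
      _ = 2 ^ γ * b ^ γ := Real.mul_rpow (by norm_num) hb
      _ ≤ _ := by gcongr; linarith
  · calc (a + b) ^ γ ≤ (2 * a) ^ γ := Real.rpow_le_rpow (by positivity) (by linarith) hγ
      _ = 2 ^ γ * a ^ γ := Real.mul_rpow (by norm_num) ha
      _ ≤ _ := by gcongr; linarith

end Pool.Agent.H27.Iso
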