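import Pool.Agent.H27.Iso3

/-! Abstract Dirichlet spaces: sup bounds and comparison. -/

open Set Filter Topology MeasureTheory
open scoped ENNReal RealInnerProductSpace

namespace Pool.Agent.H27.Iso

/-- An abstract Dirichlet space with Sobolev embeddings, truncations and compactness in `L^q`. -/
structure DS {Z : Type} [MeasurableSpace Z] (μ : Measure Z) (H : Type) [NormedAddCommGroup H]
    [InnerProductSpace ℝ H] (q : ℝ) where
  j : H →ₗ[ℝ] (Z →ₘ[μ] ℝ)
  r : ℝ
  p : ℝ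
  C : ℝ
  hr : 2 < r
  hrq : r < q
  hqp : q < p
  hC : 0 < C
  emb : ∀ s, (s = r ∨ s = q ∨ s = p) → ∀ h,
    Integrable (fun z => |j h z| ^ s) μ ∧ ∫ z, |j h z| ^ s ∂μ ≤ (C * ‖h‖) ^ s
  trunc : ∀ h (k : ℝ), 0 ≤ k → ∃ w, (j w =ᵐ[μ] fun z => max (j h z - k) 0) ∧ ‖w‖ ^ 2 ≤ ⟪h, w⟫
  cpt : ∀ (h : ℕ → H) (R : ℝ), (∀ n, ‖h n‖ ≤ R) → ∃ φ : ℕ → ℕ, StrictMono φ ∧
    ∀ ε > 0, ∃ n0, ∀ n ≥ n0, ∀ m ≥ n0, ∫ z, |j (h (φ n) - h (φ m)) z| ^ q ∂μ ≤ ε

variable {Z : Type} [MeasurableSpace Z] {μ : Measure Z} {H : Type} [NormedAddCommGroup H]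
  [InnerProductSpace ℝ H] {q : ℝ}

namespace DS

variable (D : DS μ H q)

lemma hq (D : DS μ H q) : 2 < q := D.hr.trans D.hrq

lemma meas (h : H) : Measurable (D.j h) := (D.j h).measurable

lemma j_add (a b : H) : ∀ᵐ z ∂μ, D.j (a + b) z = D.j a z + D.j b z := by
  rw [map_add]; exact AEEqFun.coeFn_add _ _

lemma j_sub (a b : H) : ∀ᵐ z ∂μ, D.j (a - b) z = D.j a z - D.j b z := by
  rw [map_sub]; exact AEEqFun.coeFn_sub _ _

lemma j_neg (a : H) : ∀ᵐ z ∂μ, D.j (-a) z = -D.j a z := by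
  rw [map_neg]; exact AEEqFun.coeFn_neg _

lemma j_smul (c : ℝ) (a : H) : ∀ᵐ z ∂μ, D.j (c • a) z = c * D.j a z := by
  rw [map_smul]; exact AEEqFun.coeFn_smul _ _

lemma intq (h : H) : Integrable (fun z => |D.j h z| ^ q) μ := (D.emb q (by simp) h).1

lemma embq (h : H) : ∫ z, |D.j h z| ^ q ∂μ ≤ (D.C * ‖h‖) ^ q := (D.emb q (by simp) h).2

/-- `ψ` is the weak solution with source `f`. -/
def Src (ψ : H) (f : Z → ℝ) : Prop :=
  ∀ φ, Integrable (fun z => f z * D.j φ z) μ ∧ ⟪ψ, φ⟫ = ∫ z, f z * D.j φ z ∂μ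

variable {D}

lemma Src.congr {ψ : H} {f g : Z → ℝ} (h : D.Src ψ f) (e : f =ᵐ[μ] g) : D.Src ψ g := fun φ => by
  have : (fun z => f z * D.j φ z) =ᵐ[μ] fun z => g z * D.j φ z := e.mono fun z hz => by
    simp only [hz]
  exact ⟨(h φ).1.congr this, (h φ).2.trans (integral_congr_ae this)⟩

lemma Src.add {ψ χ : H} {f g : Z → ℝ} (h : D.Src ψ f) (h' : D.Src χ g) :
    D.Src (ψ + χ) fun z => f z + g z := fun φ => by
  simp only [add_mul]
  exact ⟨(h φ).1.add (h' φ).1, by
    rw [inner_add_left, integral_add (h φ).1 (h' φ).1, (h φ).2, (h' φ).2]⟩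

lemma Src.smul {ψ : H} {f : Z → ℝ} (h : D.Src ψ f) (c : ℝ) :
    D.Src (c • ψ) fun z => c * f z := fun φ => by
  simp only [mul_assoc]
  exact ⟨(h φ).1.const_mul c, by rw [real_inner_smul_left, integral_const_mul, (h φ).2]⟩

lemma Src.neg {ψ : H} {f : Z → ℝ} (h : D.Src ψ f) : D.Src (-ψ) fun z => -f z := by
  simpa using h.smul (-1)

lemma Src.sub {ψ χ : H} {f g : Z → ℝ} (h : D.Src ψ f) (h' : D.Src χ g) :
    D.Src (ψ - χ) fun z => f z - g z := by
  simpa [sub_eq_add_neg] using h.add h'.neg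

lemma Src.unique {ψ χ : H} {f : Z → ℝ} (h : D.Src ψ f) (h' : D.Src χ f) : ψ = χ :=
  ext_inner_right ℝ fun φ => (h φ).2.trans (h' φ).2.symm

lemma Src.trunc {ψ : H} {f : Z → ℝ} (h : D.Src ψ f) {k : ℝ} (hk : 0 ≤ k) : ∃ t, 0 ≤ t ∧
    (∀ s, (s = D.r ∨ s = q ∨ s = D.p) → ∫ z, max (D.j ψ z - k) 0 ^ s ∂μ ≤ (D.C * t) ^ s) ∧
    Integrable (fun z => f z * max (D.j ψ z - k) 0) μ ∧
    t ^ 2 ≤ ∫ z, f z * max (D.j ψ z - k) 0 ∂μ := by
  obtain ⟨w, hw, hn⟩ := D.trunc ψ k hk
  have e : (fun z => f z * D.j w z) =ᵐ[μ] fun z => f z * max (D.j ψ z - k) 0 :=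
    hw.mono fun z hz => by simp only [hz]
  refine ⟨‖w‖, norm_nonneg _, fun s hs => le_of_eq_of_le (integral_congr_ae ?_) (D.emb s hs w).2,
    (h w).1.congr e, hn.trans (((h w).2.trans (integral_congr_ae e)).le)⟩
  filter_upwards [hw] with z hz
  rw [hz, abs_of_nonneg (le_max_right _ _)]

lemma lev_step {m y K s e : ℝ} {n : ℕ} (hm : 0 ≤ m) (hy : 0 ≤ y) (hK : 0 < K) (he : 0 ≤ e)
    (h : m ≤ y / (lev K (n + 1) - lev K n) ^ s) :
    m ^ e ≤ (2 ^ (s * e)) ^ (n + 1) * y ^ e / K ^ (s * e) := by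
  rw [lev_diff] at h
  refine (Real.rpow_le_rpow hm h he).trans (le_of_eq ?_)
  rw [Real.div_rpow hy (by positivity), ← Real.rpow_mul (by positivity),
    Real.div_rpow hK.le (by positivity), ← Real.rpow_pow_comm (by norm_num)]
  field_simp

lemma lev_lt {K : ℝ} (hK : 0 < K) (n : ℕ) : lev K n < lev K (n + 1) := by
  have : 0 < K / 2 ^ (n + 1) := by positivity
  linarith [lev_diff K n]

lemma sup_bound (D : DS μ H q) {s : ℝ} (hs : s = D.r ∨ s = q) : ∃ c0, 0 < c0 ∧
    ∀ (ψ : H) (f : Z → ℝ) (A K Y : ℝ), D.Src ψ f → (∀ᵐ z ∂μ, f z ≤ A) → 0 ≤ A → 0 < K →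
      ∫ z, |D.j ψ z| ^ s ∂μ ≤ Y → c0 * A ^ s * Y ^ (s - 2) ≤ K ^ (s * (s - 1)) →
      ∀ᵐ z ∂μ, D.j ψ z ≤ K := by
  have hs' : s = D.r ∨ s = q ∨ s = D.p := by tauto
  have s2 : 2 < s := by rcases hs with h | h <;> rw [h]; exacts [D.hr, D.hq]
  have hC := D.hC
  set b : ℝ := 2 ^ (s * (s - 1)) with hb
  have b1 : 1 < b := Real.one_lt_rpow (by norm_num) (by nlinarith)
  refine ⟨(D.C ^ 2) ^ s * b * b ^ (1 / (s - 2)), by positivity,
    fun ψ f A K Y hS hf hA hK hY h0 => ?_⟩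
  have hi := (D.emb s hs' ψ).1
  have KP : 0 < K ^ (s * (s - 1)) := by positivity
  refine dg (c := (D.C ^ 2 * A) ^ s * b / K ^ (s * (s - 1))) (b := b) (α := s - 2) (D.meas ψ)
    (by linarith) hK hi hY (by positivity) b1 (by linarith) (fun n => ?_) ?_
  · obtain ⟨t, t0, h1, h2, h3⟩ := hS.trunc (lev_nonneg hK (n + 1))
    obtain ⟨c1, c2⟩ := cheb (μ := μ) (v := D.j ψ) (s := s) (by linarith) (lev_lt hK n)
      (trunc_int (D.meas ψ) (by linarith) (lev_nonneg hK n) hi).1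
    set y := ∫ z, max (D.j ψ z - lev K n) 0 ^ s ∂μ
    have y0 : 0 ≤ y := integral_nonneg fun z => Real.rpow_nonneg (le_max_right _ _) _
    set m := μ.real {z | lev K (n + 1) < D.j ψ z}
    have m0 : 0 ≤ m := measureReal_nonneg
    obtain ⟨g1, g2⟩ := holder_set (μ := μ) (w := fun z => max (D.j ψ z - lev K (n + 1)) 0)
      (a := 1) (b := s) one_pos (by linarith) (((D.meas ψ).sub_const _).max measurable_const)
      (ae_of_all _ fun z => le_max_right _ _)
      (trunc_int (D.meas ψ) (by linarith) (lev_nonneg hK (n + 1)) hi).1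
      (measurableSet_lt measurable_const (D.meas ψ)) c1
      (ae_of_all _ fun z hz => max_eq_right (by simpa using hz))
    simp only [Real.rpow_one] at g1 g2
    have g3 : (∫ z, max (D.j ψ z - lev K (n + 1)) 0 ^ s ∂μ) ^ (1 / s) ≤ D.C * t := by
      refine (Real.rpow_le_rpow (integral_nonneg fun z => Real.rpow_nonneg (le_max_right _ _) _)
        (h1 s hs') (by positivity)).trans (le_of_eq ?_)
      rw [← Real.rpow_mul (by positivity), mul_one_div_cancel (by linarith), Real.rpow_one]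
    have g4 : t ^ 2 ≤ A * (D.C * t * m ^ (1 - 1 / s)) := by
      refine h3.trans ((integral_mono_ae h2 (g1.const_mul A) ?_).trans ?_)
      · filter_upwards [hf] with z hz
        exact mul_le_mul_of_nonneg_right hz (le_max_right _ _)
      · rw [integral_const_mul]
        gcongr
        exact g2.trans (by gcongr)
    have g5 : t ≤ A * D.C * m ^ (1 - 1 / s) := by
      rcases t0.eq_or_lt with h | h
      · rw [← h]; positivity
      · nlinarith
    have g6 := lev_step m0 y0 hK (by linarith : 0 ≤ s - 1) c2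
    calc _ ≤ (D.C * t) ^ s := h1 s hs'
      _ ≤ (D.C ^ 2 * A * m ^ (1 - 1 / s)) ^ s := by
          refine Real.rpow_le_rpow (by positivity) ?_ (by linarith)
          nlinarith
      _ = (D.C ^ 2 * A) ^ s * m ^ (s - 1) := by
          rw [Real.mul_rpow (by positivity) (by positivity), ← Real.rpow_mul m0]
          congr 2; field_simp
      _ ≤ (D.C ^ 2 * A) ^ s * (b ^ (n + 1) * y ^ (s - 1) / K ^ (s * (s - 1))) := by gcongr
      _ = _ := by rw [show 1 + (s - 2) = s - 1 by ring]; field_simp; ring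
  · have e : b ^ (-1 / (s - 2)) = (b ^ (1 / (s - 2)))⁻¹ := by
      rw [← Real.rpow_neg (by linarith), neg_div]
    have : 0 < b ^ (1 / (s - 2)) := by positivity
    rw [e, div_mul_eq_mul_div, div_le_iff₀ KP, Real.mul_rpow (by positivity) hA,
      le_inv_mul_iff₀ this]
    linarith

lemma eig_bound (D : DS μ H q) {Λ : ℝ} (hΛ : 0 ≤ Λ) : ∃ M, 0 < M ∧ ∀ (h : H) (l : ℝ), l ≤ Λ →
    (∀ᵐ z ∂μ, 0 ≤ D.j h z) → ∫ z, |D.j h z| ^ q ∂μ ≤ 1 →
    D.Src h (fun z => l * D.j h z ^ (q - 1)) → ∀ᵐ z ∂μ, D.j h z ≤ M := by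
  have hC := D.hC
  have q2 := D.hq
  have qp := D.hqp
  have p0 : 0 < D.p := by linarith
  set e := 1 - q / D.p with he
  have e0 : 0 < e := by rw [he, sub_pos, div_lt_one p0]; exact qp
  have α0 : 0 < q / 2 - q / D.p := by
    rw [sub_pos]; exact div_lt_div_of_pos_left (by linarith) (by norm_num) (by linarith)
  set α := q / 2 - q / D.p with hα
  set b : ℝ := (2 ^ (q - 1)) ^ (q / 2) * 2 ^ (q * e) with hb
  have b1 : 1 < b := by
    have h1 : (1:ℝ) < (2 ^ (q - 1)) ^ (q / 2) :=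
      Real.one_lt_rpow (Real.one_lt_rpow (by norm_num) (by linarith)) (by linarith)
    have h2 : (1:ℝ) < 2 ^ (q * e) := Real.one_lt_rpow (by norm_num) (by positivity)
    nlinarith
  obtain ⟨K, hK1, hK⟩ := (((tendsto_rpow_atTop (by positivity : 0 < q * e)).eventually_ge_atTop
    ((D.C ^ 2 * Λ) ^ (q / 2) * b * b ^ (1 / α))).and (eventually_gt_atTop 0)).exists
  refine ⟨K, hK, fun h l hl h0 hY hS => ?_⟩
  have hi := D.intq h
  have KP : 0 < K ^ (q * e) := by positivity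
  refine dg (c := (D.C ^ 2 * Λ) ^ (q / 2) * b / K ^ (q * e)) (b := b) (α := α) (D.meas h)
    (by linarith) hK hi hY (by positivity) b1 α0 (fun n => ?_) ?_
  · obtain ⟨t, t0, h1, h2, h3⟩ := hS.trunc (lev_nonneg hK (n + 1))
    have yi := (trunc_int (D.meas h) (by linarith) (lev_nonneg hK n) hi).1
    obtain ⟨c1, c2⟩ := cheb (μ := μ) (v := D.j h) (s := q) (by linarith) (lev_lt hK n) yi
    set y := ∫ z, max (D.j h z - lev K n) 0 ^ q ∂μ with hy
    have y0 : 0 ≤ y := integral_nonneg fun z => Real.rpow_nonneg (le_max_right _ _) _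
    set m := μ.real {z | lev K (n + 1) < D.j h z}
    have m0 : 0 ≤ m := measureReal_nonneg
    obtain ⟨-, g2⟩ := holder_set (μ := μ) (w := fun z => max (D.j h z - lev K (n + 1)) 0)
      (a := q) (b := D.p) (by linarith) qp (((D.meas h).sub_const _).max measurable_const)
      (ae_of_all _ fun z => le_max_right _ _)
      (trunc_int (D.meas h) p0 (lev_nonneg hK (n + 1)) (D.emb _ (by simp) h).1).1
      (measurableSet_lt measurable_const (D.meas h)) c1
      (ae_of_all _ fun z hz => max_eq_right (by simpa using hz))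
    have g3 : (∫ z, max (D.j h z - lev K (n + 1)) 0 ^ D.p ∂μ) ^ (q / D.p) ≤
        (D.C ^ 2 * t ^ 2) ^ (q / 2) := by
      refine (Real.rpow_le_rpow (integral_nonneg fun z => Real.rpow_nonneg (le_max_right _ _) _)
        (h1 _ (by simp)) (by positivity)).trans (le_of_eq ?_)
      rw [← Real.rpow_mul (by positivity), ← mul_pow, ← Real.rpow_natCast,
        ← Real.rpow_mul (by positivity)]
      congr 1; push_cast; field_simp
    have g4 : t ^ 2 ≤ Λ * (2 ^ (q - 1)) ^ (n + 1) * y := by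
      refine h3.trans ((integral_mono_ae h2 (yi.const_mul (Λ * (2 ^ (q - 1)) ^ (n + 1))) ?_).trans
        (by rw [integral_const_mul]))
      filter_upwards [h0] with z hz
      by_cases hv : D.j h z ≤ lev K (n + 1)
      · rw [max_eq_right (by linarith), mul_zero]
        have := Real.rpow_nonneg (le_max_right (D.j h z - lev K n) 0) q
        positivity
      · push Not at hv
        have l1 := lev_lt hK n
        rw [max_eq_left (by linarith), max_eq_left (by linarith)]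
        set v := D.j h z
        have t1 : 0 < v - lev K n := by linarith
        have hv2 : v ≤ 2 ^ (n + 1) * (v - lev K n) := by
          have a1 : (2:ℝ) ^ (n + 1) * lev K n = (2 ^ (n + 1) - 2) * K := by
            unfold lev; rw [one_div_pow]; field_simp; ring
          have a2 : ((2:ℝ) ^ (n + 1) - 2) * K ≤ (2 ^ (n + 1) - 1) * lev K (n + 1) := by
            have a3 : ((2:ℝ) ^ (n + 1) - 1) * lev K (n + 1) =
                (2 ^ (n + 1) - 2) * K + K / 2 ^ (n + 1) := by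
              unfold lev; rw [one_div_pow]; field_simp; ring
            have : 0 < K / 2 ^ (n + 1) := by positivity
            linarith
          have a4 : (1:ℝ) ≤ 2 ^ (n + 1) := one_le_pow₀ (by norm_num)
          nlinarith
        have a5 : v ^ (q - 1) ≤ (2 ^ (q - 1)) ^ (n + 1) * (v - lev K n) ^ (q - 1) := by
          refine (Real.rpow_le_rpow hz hv2 (by linarith)).trans (le_of_eq ?_)
          rw [Real.mul_rpow (by positivity) t1.le, ← Real.rpow_pow_comm (by norm_num)]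
        have a6 : (v - lev K n) ^ q = (v - lev K n) ^ (q - 1) * (v - lev K n) := by
          rw [← Real.rpow_add_one t1.ne']; congr 1; ring
        have a7 := Real.rpow_nonneg hz (q - 1)
        calc l * v ^ (q - 1) * (v - lev K (n + 1))
            ≤ Λ * ((2 ^ (q - 1)) ^ (n + 1) * (v - lev K n) ^ (q - 1)) * (v - lev K n) := by
              refine mul_le_mul (mul_le_mul hl a5 a7 hΛ) (by linarith) (by linarith)
                (by positivity)
          _ = _ := by rw [a6]; ring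
    have g6 := lev_step m0 y0 hK e0.le c2
    calc _ ≤ _ := g2
      _ ≤ (D.C ^ 2 * (Λ * (2 ^ (q - 1)) ^ (n + 1) * y)) ^ (q / 2) *
          ((2 ^ (q * e)) ^ (n + 1) * y ^ e / K ^ (q * e)) := by
          refine mul_le_mul (g3.trans ?_) g6 (by positivity) (by positivity)
          gcongr
      _ = _ := by
          have a1 : (D.C ^ 2 * (Λ * (2 ^ (q - 1)) ^ (n + 1) * y)) ^ (q / 2) =
              (D.C ^ 2 * Λ) ^ (q / 2) * (((2:ℝ) ^ (q - 1)) ^ (q / 2)) ^ (n + 1) * y ^ (q / 2) := by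
            rw [show D.C ^ 2 * (Λ * (2 ^ (q - 1)) ^ (n + 1) * y) =
              D.C ^ 2 * Λ * (2 ^ (q - 1)) ^ (n + 1) * y by ring,
              Real.mul_rpow (by positivity) y0, Real.mul_rpow (by positivity) (by positivity),
              ← Real.rpow_pow_comm (by positivity)]
          have a2 : y ^ (1 + α) = y ^ (q / 2) * y ^ e := by
            rw [← Real.rpow_add' y0 (by positivity)]; congr 1; rw [hα, he]; ring
          rw [a1, a2, hb, mul_pow]; field_simp; ring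
  · have e1 : b ^ (-1 / α) = (b ^ (1 / α))⁻¹ := by
      rw [← Real.rpow_neg (by linarith), neg_div]
    have : 0 < b ^ (1 / α) := by positivity
    rw [e1, Real.one_rpow, mul_one, div_le_iff₀ KP, le_inv_mul_iff₀ this]
    linarith

/-- Positive parts vanish when the source has the right sign. -/
lemma Src.nonpos {ψ : H} {f : Z → ℝ} (h : D.Src ψ f) (hf : ∀ᵐ z ∂μ, D.j ψ z ≤ 0 ∨ f z ≤ 0) :
    ∀ᵐ z ∂μ, D.j ψ z ≤ 0 := by
  obtain ⟨t, t0, h1, h2, h3⟩ := h.trunc le_rfl
  have q0 : 0 < q := by linarith [D.hq]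
  have a1 : ∫ z, f z * max (D.j ψ z - 0) 0 ∂μ ≤ 0 := by
    refine integral_nonpos_of_ae ?_
    filter_upwards [hf] with z hz
    rcases hz with hz | hz
    · simp [max_eq_right hz]
    · exact mul_nonpos_of_nonpos_of_nonneg hz (le_max_right _ _)
  have a2 : t = 0 := by nlinarith
  have a3 := h1 q (by simp)
  rw [a2, mul_zero, Real.zero_rpow q0.ne'] at a3
  have a4 := (integral_eq_zero_iff_of_nonneg
    (fun z => Real.rpow_nonneg (le_max_right (D.j ψ z - 0) 0) q)
    (trunc_int (D.meas ψ) q0 le_rfl (D.intq ψ)).1).1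
    (le_antisymm a3 (integral_nonneg fun z => Real.rpow_nonneg (le_max_right _ _) _))
  filter_upwards [a4] with z hz
  have : max (D.j ψ z - 0) 0 = 0 := by
    by_contra hne
    exact (Real.rpow_pos_of_pos (lt_of_le_of_ne (le_max_right _ _) (Ne.symm hne)) q).ne' hz
  linarith [le_max_left (D.j ψ z - 0) 0]

/-- Comparison principle. -/
lemma Src.cmp {ψ χ : H} {f g : Z → ℝ} (h : D.Src ψ f) (h' : D.Src χ g)
    (hf : ∀ᵐ z ∂μ, D.j ψ z ≤ D.j χ z ∨ f z ≤ g z) : ∀ᵐ z ∂μ, D.j ψ z ≤ D.j χ z := by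
  have := (h.sub h').nonpos (by
    filter_upwards [hf, D.j_sub ψ χ] with z h1 h2
    rw [h2]; rcases h1 with h1 | h1
    · left; linarith
    · right; linarith)
  filter_upwards [this, D.j_sub ψ χ] with z h1 h2
  linarith

end DS

end Pool.Agent.H27.Iso
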