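import Pool.Agent.H27.Iso4

/-! Abstract Dirichlet spaces: Green solutions and bounds relative to a positive solution. -/

open Set Filter Topology MeasureTheory
open scoped ENNReal RealInnerProductSpace

namespace Pool.Agent.H27.Iso

variable {Z : Type} [MeasurableSpace Z] {μ : Measure Z} {H : Type} [NormedAddCommGroup H]
  [InnerProductSpace ℝ H] {q : ℝ}

lemma hold2 {g h : Z → ℝ} {T S : ℝ} (hq : 1 < q) (hg : Measurable g) (hh : Measurable h)
    (g0 : 0 ≤ᵐ[μ] g) (h0 : 0 ≤ᵐ[μ] h) (gi : Integrable (fun z => g z ^ q) μ)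
    (hi : Integrable (fun z => h z ^ q) μ) (T0 : 0 ≤ T) (S0 : 0 ≤ S)
    (gT : ∫ z, g z ^ q ∂μ ≤ T ^ q) (hS : ∫ z, h z ^ q ∂μ ≤ S ^ q) :
    Integrable (fun z => g z ^ (q - 1) * h z) μ ∧
      ∫ z, g z ^ (q - 1) * h z ∂μ ≤ T ^ (q - 1) * S := by
  have q1 : 0 < q - 1 := sub_pos.2 hq
  have q0 : 0 < q := by linarith
  have hc : (q / (q - 1)).HolderConjugate q :=
    ⟨by field_simp; ring, by positivity, by positivity⟩
  have e1 : ∀ᵐ z ∂μ, (g z ^ (q - 1)) ^ (q / (q - 1)) = g z ^ q := by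
    filter_upwards [g0] with z h
    rw [← Real.rpow_mul h]; congr 1; field_simp
  obtain ⟨h1, h2⟩ := holder (μ := μ) (f := fun z => g z ^ (q - 1)) (g := h) hc
    (hg.pow_const _).aestronglyMeasurable hh.aestronglyMeasurable
    (by filter_upwards [g0] with z h; exact Real.rpow_nonneg h _) h0
    (gi.congr (e1.mono fun z h => h.symm)) hi
  refine ⟨h1, h2.trans ?_⟩
  rw [integral_congr_ae e1]
  refine mul_le_mul ?_ ?_ (Real.rpow_nonneg (integral_nonneg_of_ae ?_) _) (by positivity)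
  · refine (Real.rpow_le_rpow (integral_nonneg_of_ae ?_) gT (by positivity)).trans (le_of_eq ?_)
    · filter_upwards [g0] with z h; exact Real.rpow_nonneg h _
    · rw [← Real.rpow_mul T0]; congr 1; field_simp
  · refine (Real.rpow_le_rpow (integral_nonneg_of_ae ?_) hS (by positivity)).trans (le_of_eq ?_)
    · filter_upwards [h0] with z h; exact Real.rpow_nonneg h _
    · rw [← Real.rpow_mul S0, mul_one_div_cancel q0.ne', Real.rpow_one]
  · filter_upwards [h0] with z h; exact Real.rpow_nonneg h _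

lemma hold3 {f g h : Z → ℝ} {A T S : ℝ} (hq : 1 < q) (hf : AEStronglyMeasurable f μ)
    (hg : Measurable g) (hh : Measurable h) (gi : Integrable (fun z => |g z| ^ q) μ)
    (hi : Integrable (fun z => |h z| ^ q) μ) (A0 : 0 ≤ A) (T0 : 0 ≤ T) (S0 : 0 ≤ S)
    (gT : ∫ z, |g z| ^ q ∂μ ≤ T ^ q) (hS : ∫ z, |h z| ^ q ∂μ ≤ S ^ q)
    (hb : ∀ᵐ z ∂μ, |f z| ≤ A * |g z| ^ (q - 1)) :
    Integrable (fun z => f z * h z) μ ∧ |∫ z, f z * h z ∂μ| ≤ A * T ^ (q - 1) * S := by
  obtain ⟨h1, h2⟩ := hold2 hq hg.abs hh.abs (ae_of_all _ fun z => abs_nonneg _)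
    (ae_of_all _ fun z => abs_nonneg _) gi hi T0 S0 gT hS
  have hle : ∀ᵐ z ∂μ, ‖f z * h z‖ ≤ A * (|g z| ^ (q - 1) * |h z|) := by
    filter_upwards [hb] with z hz
    rw [Real.norm_eq_abs, abs_mul, ← mul_assoc]
    exact mul_le_mul_of_nonneg_right hz (abs_nonneg _)
  refine ⟨(h1.const_mul A).mono' (hf.mul hh.aestronglyMeasurable) hle, ?_⟩
  refine (norm_integral_le_of_norm_le (h1.const_mul A) hle).trans ?_
  rw [integral_const_mul, mul_assoc]
  exact mul_le_mul_of_nonneg_left h2 A0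

lemma pos_zero {v : Z → ℝ} {s : ℝ} (hi : Integrable (fun z => max (v z) 0 ^ s) μ)
    (h : ∫ z, max (v z) 0 ^ s ∂μ ≤ 0) : ∀ᵐ z ∂μ, v z ≤ 0 := by
  have a4 := (integral_eq_zero_iff_of_nonneg
    (fun z => Real.rpow_nonneg (le_max_right (v z) 0) s) hi).1
    (le_antisymm h (integral_nonneg fun z => Real.rpow_nonneg (le_max_right _ _) _))
  filter_upwards [a4] with z hz
  have : max (v z) 0 = 0 := by
    by_contra hne
    exact (Real.rpow_pos_of_pos (lt_of_le_of_ne (le_max_right _ _) (Ne.symm hne)) s).ne' hz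
  linarith [le_max_left (v z) 0]

namespace DS

variable {D : DS μ H q}

lemma pair (D : DS μ H q) {f g : Z → ℝ} {A T : ℝ} (hf : AEStronglyMeasurable f μ)
    (hg : Measurable g) (gi : Integrable (fun z => |g z| ^ q) μ) (A0 : 0 ≤ A) (T0 : 0 ≤ T)
    (gT : ∫ z, |g z| ^ q ∂μ ≤ T ^ q) (hb : ∀ᵐ z ∂μ, |f z| ≤ A * |g z| ^ (q - 1)) (φ : H) :
    Integrable (fun z => f z * D.j φ z) μ ∧
      |∫ z, f z * D.j φ z ∂μ| ≤ A * T ^ (q - 1) * D.C * ‖φ‖ := by
  have := hold3 (by linarith [D.hq]) hf hg (D.meas φ) gi (D.intq φ) A0 T0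
    (mul_nonneg D.hC.le (norm_nonneg φ)) gT (D.embq φ) hb
  rwa [← mul_assoc] at this

lemma green [CompleteSpace H] (D : DS μ H q) {f g : Z → ℝ} {A : ℝ}
    (hf : AEStronglyMeasurable f μ) (hg : Measurable g) (gi : Integrable (fun z => |g z| ^ q) μ)
    (A0 : 0 ≤ A) (gT : ∫ z, |g z| ^ q ∂μ ≤ 1) (hb : ∀ᵐ z ∂μ, |f z| ≤ A * |g z| ^ (q - 1)) :
    ∃ ψ, D.Src ψ f := by
  have hp := D.pair hf hg gi A0 zero_le_one (by simpa using gT) hb
  let L : H →ₗ[ℝ] ℝ :=
    { toFun := fun φ => ∫ z, f z * D.j φ z ∂μ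
      map_add' := fun a b => by
        rw [← integral_add (hp a).1 (hp b).1]
        refine integral_congr_ae ?_
        filter_upwards [D.j_add a b] with z hz
        rw [hz, mul_add]
      map_smul' := fun c a => by
        rw [RingHom.id_apply, smul_eq_mul, ← integral_const_mul]
        refine integral_congr_ae ?_
        filter_upwards [D.j_smul c a] with z hz
        rw [hz]; ring }
  refine ⟨(InnerProductSpace.toDual ℝ H).symm (L.mkContinuous _ fun φ => (hp φ).2),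
    fun φ => ⟨(hp φ).1, ?_⟩⟩
  rw [InnerProductSpace.toDual_symm_apply]
  rfl

lemma Src.norm_le {ψ : H} {f g : Z → ℝ} {A : ℝ} (h : D.Src ψ f)
    (hf : AEStronglyMeasurable f μ) (hg : Measurable g) (gi : Integrable (fun z => |g z| ^ q) μ)
    (A0 : 0 ≤ A) (gT : ∫ z, |g z| ^ q ∂μ ≤ 1) (hb : ∀ᵐ z ∂μ, |f z| ≤ A * |g z| ^ (q - 1)) :
    ‖ψ‖ ≤ A * D.C := by
  have h1 := (D.pair hf hg gi A0 zero_le_one (by simpa using gT) hb ψ).2
  rw [← (h ψ).2, real_inner_self_eq_norm_sq, Real.one_rpow, mul_one,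
    abs_of_nonneg (by positivity)] at h1
  rcases (norm_nonneg ψ).eq_or_lt with h0 | h0
  · rw [← h0]; exact mul_nonneg A0 D.hC.le
  · nlinarith

/-- A nonnegative normalised solution with eigenvalue `l`. -/
structure Pos (D : DS μ H q) (u : H) (l : ℝ) : Prop where
  nn : ∀ᵐ z ∂μ, 0 ≤ D.j u z
  one : ∫ z, |D.j u z| ^ q ∂μ = 1
  src : D.Src u fun z => l * D.j u z ^ (q - 1)

lemma Pos.eq {u : H} {l : ℝ} (h : D.Pos u l) : ‖u‖ ^ 2 = l := by
  have e : l = ∫ z, l * |D.j u z| ^ q ∂μ := by rw [integral_const_mul, h.one, mul_one]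
  rw [← real_inner_self_eq_norm_sq, (h.src u).2]
  refine (integral_congr_ae ?_).trans e.symm
  filter_upwards [h.nn] with z hz
  rw [abs_of_nonneg hz, mul_assoc, ← Real.rpow_add_one' hz (by linarith [D.hq]),
    sub_add_cancel]

lemma low (D : DS μ H q) {u : H} (h : ∫ z, |D.j u z| ^ q ∂μ = 1) : 1 / D.C ^ 2 ≤ ‖u‖ ^ 2 := by
  have h1 := D.embq u
  have hC := D.hC
  rw [h] at h1
  have h2 : 1 ≤ D.C * ‖u‖ := by
    by_contra h3
    exact absurd h1 (not_le.2 (Real.rpow_lt_one (by positivity) (not_le.1 h3)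
      (by linarith [D.hq])))
  rw [div_le_iff₀ (by positivity)]
  nlinarith

lemma Pos.pos {u : H} {l : ℝ} (h : D.Pos u l) : 0 < l := by
  have := D.low h.one
  have hC := D.hC
  rw [h.eq] at this
  exact lt_of_lt_of_le (by positivity) this

lemma Pos.cmp {u ψ : H} {l c : ℝ} {f : Z → ℝ} (h : D.Pos u l) (hS : D.Src ψ f)
    (hf : ∀ᵐ z ∂μ, D.j ψ z ≤ c * D.j u z ∨ f z ≤ c * (l * D.j u z ^ (q - 1))) :
    ∀ᵐ z ∂μ, D.j ψ z ≤ c * D.j u z := by
  have := hS.cmp (h.src.smul c) (by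
    filter_upwards [hf, D.j_smul c u] with z h1 h2
    rwa [h2])
  filter_upwards [this, D.j_smul c u] with z h1 h2
  rwa [h2] at h1

/-- The part of the source where `u` is small. -/
noncomputable def low1 (D : DS μ H q) (u : H) (t : ℝ) (z : Z) : ℝ :=
  if D.j u z < t then D.j u z ^ (q - 1) else 0

lemma low1_meas (D : DS μ H q) (u : H) (t : ℝ) : Measurable (D.low1 u t) :=
  Measurable.ite (measurableSet_lt (D.meas u) measurable_const) ((D.meas u).pow_const _)
    measurable_const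

lemma Pos.key0 [CompleteSpace H] {u : H} {l : ℝ} (h : D.Pos u l) {ε : ℝ} (hε : 0 < ε) :
    ∃ δ, 0 < δ ∧ ∃ χ, D.Src χ (D.low1 u δ) ∧ ∀ᵐ z ∂μ, 0 ≤ D.j χ z ∧ D.j χ z ≤ ε * D.j u z := by
  have q2 := D.hq
  have r2 := D.hr
  have rq := D.hrq
  have hC := D.hC
  have l0 := h.pos
  have hb : ∀ t, ∀ᵐ z ∂μ, 0 ≤ D.low1 u t z ∧ D.low1 u t z ≤ |D.j u z| ^ (q - 1) := fun t => by
    filter_upwards [h.nn] with z hz
    have := Real.rpow_nonneg hz (q - 1)
    rw [abs_of_nonneg hz]; unfold low1; split_ifs <;> simp [this]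
  have hex : ∀ t, ∃ χ, D.Src χ (D.low1 u t) := fun t =>
    D.green (A := 1) (D.low1_meas u t).aestronglyMeasurable (D.meas u) (D.intq u) zero_le_one
      h.one.le (by
        filter_upwards [hb t] with z hz
        rw [abs_of_nonneg hz.1, one_mul]; exact hz.2)
  choose χ hχ using hex
  obtain ⟨c0, c00, hsup⟩ := D.sup_bound (s := D.r) (by simp)
  set Y := (D.C * (1 * D.C)) ^ D.r with hY
  obtain ⟨M, hM1, hM⟩ := (((tendsto_rpow_atTop (by nlinarith : 0 < D.r * (D.r - 1))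
    ).eventually_ge_atTop (c0 * Y ^ (D.r - 2))).and (eventually_gt_atTop 0)).exists
  set γ := (q - 1) / (D.r - 1) with hγ
  have r1 : 0 < D.r - 1 := by linarith
  have γ1 : 1 < γ := by rw [hγ, one_lt_div r1]; linarith
  have sb : ∀ (t : ℝ) (ψ : H) (f : Z → ℝ), 0 < t → D.Src ψ f → Measurable f →
      (∀ᵐ z ∂μ, 0 ≤ f z ∧ f z ≤ D.low1 u t z) → ∀ᵐ z ∂μ, D.j ψ z ≤ M * t ^ γ := by
    intro t ψ f t0 hS hf hft
    have n1 : ‖ψ‖ ≤ 1 * D.C := hS.norm_le hf.aestronglyMeasurable (D.meas u) (D.intq u)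
      zero_le_one h.one.le (by
        filter_upwards [hb t, hft] with z h1 h2
        rw [abs_of_nonneg h2.1, one_mul]; exact h2.2.trans h1.2)
    refine hsup ψ f (t ^ (q - 1)) _ Y hS ?_ (by positivity) (by positivity)
      ((D.emb _ (by simp) ψ).2.trans ?_) ?_
    · filter_upwards [hft, h.nn] with z h1 h2
      refine h1.2.trans ?_
      unfold low1; split_ifs with h3
      · exact Real.rpow_le_rpow h2 h3.le (by linarith)
      · positivity
    · exact Real.rpow_le_rpow (by positivity) (by gcongr) (by linarith)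
    · have e : (t ^ γ) ^ (D.r * (D.r - 1)) = (t ^ (q - 1)) ^ D.r := by
        rw [← Real.rpow_mul t0.le, ← Real.rpow_mul t0.le]; congr 1; rw [hγ]; field_simp
      rw [Real.mul_rpow hM.le (by positivity), e]
      have : 0 < (t ^ (q - 1)) ^ D.r := by positivity
      nlinarith
  set ρ : ℝ := (1 / 2) ^ (γ - 1) with hρ
  have ρ1 : ρ < 1 := Real.rpow_lt_one (by norm_num) (by norm_num) (by linarith)
  have ρ0 : 0 < ρ := by positivity
  set B := 2 * M / (1 - ρ) with hB
  have B0 : 0 < B := div_pos (by positivity) (by linarith)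
  have hBe : 2 * M + B * ρ = B := by
    have : 1 - ρ ≠ 0 := by linarith
    rw [hB]; field_simp; ring
  have ind : ∀ n : ℕ, ∀ t, 0 < t →
      ∀ᵐ z ∂μ, D.j (χ t) z ≤ B * t ^ (γ - 1) * D.j u z + M * (t / 2 ^ n) ^ γ := by
    intro n
    induction n with
    | zero =>
      intro t t0
      filter_upwards [sb t _ _ t0 (hχ t) (D.low1_meas u t)
        ((hb t).mono fun z hz => ⟨hz.1, le_rfl⟩), h.nn] with z h1 h2
      have : 0 ≤ B * t ^ (γ - 1) * D.j u z := by positivity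
      simp only [pow_zero, div_one]; linarith
    | succ n ih =>
      intro t t0
      have hS := (hχ t).sub (hχ (t / 2))
      have h1 := sb t _ _ t0 hS ((D.low1_meas u t).sub (D.low1_meas u _)) (by
        filter_upwards [h.nn] with z hz
        have := Real.rpow_nonneg hz (q - 1)
        unfold low1; split_ifs with h3 h4 h4 <;> simp [this]
        linarith)
      have h2 := h.cmp (c := 2 * M * t ^ (γ - 1)) hS (by
        filter_upwards [h1, h.nn] with z h1 hz
        by_cases h3 : D.j u z < t / 2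
        · right
          have := Real.rpow_nonneg hz (q - 1)
          unfold low1
          rw [if_pos h3, if_pos (by linarith), sub_self]; positivity
        · left
          refine h1.trans ?_
          have e : t ^ γ = t ^ (γ - 1) * t := by
            rw [← Real.rpow_add_one t0.ne', sub_add_cancel]
          have : 0 < M * t ^ (γ - 1) := by positivity
          rw [e]; nlinarith)
      filter_upwards [h2, ih (t / 2) (by positivity), D.j_sub (χ t) (χ (t / 2))] with z a1 a2 a3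
      have e1 : (t / 2) ^ (γ - 1) = t ^ (γ - 1) * ρ := by
        rw [hρ, ← Real.mul_rpow t0.le (by norm_num), mul_one_div]
      have e2 : t / 2 / 2 ^ n = t / 2 ^ (n + 1) := by rw [div_div, pow_succ']
      rw [e1, e2] at a2
      have e3 : B * t ^ (γ - 1) * D.j u z = 2 * M * t ^ (γ - 1) * D.j u z +
        B * (t ^ (γ - 1) * ρ) * D.j u z := by
          conv_lhs => rw [← hBe]
          ring
      linarith
  have tt : Tendsto (fun t : ℝ => B * t ^ (γ - 1)) (𝓝[>] 0) (𝓝 0) := by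
    have := ((Real.continuousAt_rpow_const 0 (γ - 1) (Or.inr (by linarith))).tendsto.const_mul
      B).mono_left (nhdsWithin_le_nhds (s := Ioi 0))
    rwa [Real.zero_rpow (by linarith), mul_zero] at this
  obtain ⟨δ, hδ1, hδ⟩ := ((tt.eventually_le_const hε).and self_mem_nhdsWithin).exists
  have δ0 : 0 < δ := hδ
  refine ⟨δ, δ0, χ δ, hχ δ, ?_⟩
  have hn := (hχ δ).neg.nonpos ((hb δ).mono fun z hz => Or.inr (by linarith [hz.1]))
  have lim : Tendsto (fun n : ℕ => M * (δ / 2 ^ n) ^ γ) atTop (𝓝 0) := by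
    have a1 : Tendsto (fun n : ℕ => δ / 2 ^ n) atTop (𝓝 0) :=
      tendsto_const_nhds.div_atTop (tendsto_pow_atTop_atTop_of_one_lt (by norm_num))
    have := ((Real.continuousAt_rpow_const 0 γ (Or.inr (by linarith))).tendsto.comp a1).const_mul M
    rwa [Real.zero_rpow (by linarith), mul_zero] at this
  filter_upwards [hn, D.j_neg (χ δ), ae_all_iff.2 fun n => ind n δ δ0, h.nn] with z a1 a2 a3 a4
  refine ⟨by linarith, ?_⟩
  have a5 := ge_of_tendsto' (lim.const_add (B * δ ^ (γ - 1) * D.j u z)) a3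
  have := mul_le_mul_of_nonneg_right hδ1 a4
  linarith

lemma Pos.key [CompleteSpace H] {u : H} {l : ℝ} (h : D.Pos u l) {ε : ℝ} (hε : 0 < ε) :
    ∃ δ, 0 < δ ∧ ∀ (ψ : H) (f : Z → ℝ) (A S : ℝ), D.Src ψ f → 0 ≤ A → 0 ≤ S →
      (∀ᵐ z ∂μ, f z ≤ A * D.j u z ^ (q - 1)) → (∀ᵐ z ∂μ, D.j ψ z ≤ S) →
      ∀ᵐ z ∂μ, D.j ψ z ≤ (S / δ + A * ε) * D.j u z := by
  obtain ⟨δ, δ0, χ, hχ, hb⟩ := h.key0 hε
  refine ⟨δ, δ0, fun ψ f A S hS A0 S0 hf hψ => ?_⟩
  have l0 := h.pos
  have e : ∀ᵐ z ∂μ, D.j (A • χ + (S / δ) • u) z = A * D.j χ z + S / δ * D.j u z := by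
    filter_upwards [D.j_add (A • χ) ((S / δ) • u), D.j_smul A χ, D.j_smul (S / δ) u]
      with z a1 a2 a3
    rw [a1, a2, a3]
  have := hS.cmp ((hχ.smul A).add (h.src.smul (S / δ))) (by
    filter_upwards [e, hb, hf, hψ, h.nn] with z a1 a2 a3 a4 a5
    by_cases h3 : D.j u z < δ
    · right
      have := Real.rpow_nonneg a5 (q - 1)
      have : 0 ≤ S / δ * (l * D.j u z ^ (q - 1)) := by positivity
      unfold low1; rw [if_pos h3]; linarith
    · left
      have b1 : S / δ * δ ≤ S / δ * D.j u z :=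
        mul_le_mul_of_nonneg_left (not_lt.1 h3) (by positivity)
      rw [div_mul_cancel₀ _ δ0.ne'] at b1
      have := mul_nonneg A0 a2.1
      rw [a1]; linarith)
  filter_upwards [this, e, hb] with z a1 a2 a3
  have := mul_le_mul_of_nonneg_left a3.2 A0
  rw [a2] at a1; linarith

end DS

end Pool.Agent.H27.Iso
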