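import Pool.Agent.H27.Iso2
import Pool.Agent.H27.Iso5

/-! Abstract Dirichlet spaces: the ground state transform as a compact operator on `L^∞`. -/

open Set Filter Topology MeasureTheory
open scoped ENNReal RealInnerProductSpace

namespace Pool.Agent.H27.Iso

variable {Z : Type} [MeasurableSpace Z] {μ : Measure Z} {H : Type} [NormedAddCommGroup H]
  [InnerProductSpace ℝ H] {q : ℝ}

lemma compact_closure {X : Type*} [MetricSpace X] [CompleteSpace X] {s : Set X}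
    (h : ∀ x : ℕ → X, (∀ n, x n ∈ s) → ∃ φ : ℕ → ℕ, StrictMono φ ∧ CauchySeq (x ∘ φ)) :
    IsCompact (closure s) := by
  refine IsSeqCompact.isCompact fun y hy => ?_
  choose x hx hd using fun n : ℕ => Metric.mem_closure_iff.1 (hy n) (1 / ((n:ℝ) + 1))
    Nat.one_div_pos_of_nat
  obtain ⟨φ, hφ, hc⟩ := h x hx
  obtain ⟨a, ha⟩ := cauchySeq_tendsto_of_complete hc
  refine ⟨a, mem_closure_of_tendsto ha (Eventually.of_forall fun n => hx _), φ, hφ, ?_⟩
  refine tendsto_of_tendsto_of_dist ha (squeeze_zero (fun _ => dist_nonneg) (fun n => ?_)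
    (tendsto_one_div_add_atTop_nhds_zero_nat.comp hφ.tendsto_atTop))
  rw [dist_comm]; exact (hd (φ n)).le

namespace DS

variable {D : DS μ H q}

lemma small_sup (D : DS μ H q) {A S : ℝ} (A0 : 0 ≤ A) (S0 : 0 < S) : ∃ η, 0 < η ∧
    ∀ (ψ : H) (f : Z → ℝ), D.Src ψ f → (∀ᵐ z ∂μ, |f z| ≤ A) → ∫ z, |D.j ψ z| ^ q ∂μ ≤ η →
      ∀ᵐ z ∂μ, |D.j ψ z| ≤ S := by
  obtain ⟨c0, c00, hsup⟩ := D.sup_bound (s := q) (by simp)
  have q2 := D.hq
  have tt : Tendsto (fun t : ℝ => c0 * A ^ q * t ^ (q - 2)) (𝓝[>] 0) (𝓝 0) := by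
    have := ((Real.continuousAt_rpow_const 0 (q - 2) (Or.inr (by linarith))).tendsto.const_mul
      (c0 * A ^ q)).mono_left (nhdsWithin_le_nhds (s := Ioi 0))
    rwa [Real.zero_rpow (by linarith), mul_zero] at this
  obtain ⟨η, h1, η0⟩ := ((tt.eventually_le_const
    (Real.rpow_pos_of_pos S0 (q * (q - 1)))).and self_mem_nhdsWithin).exists
  refine ⟨η, η0, fun ψ f hS hf hY => ?_⟩
  have a1 := hsup ψ f A S η hS (hf.mono fun z hz => (le_abs_self _).trans hz) A0 S0 hY h1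
  have a2 := hsup (-ψ) _ A S η hS.neg (hf.mono fun z hz => (neg_le_abs _).trans hz) A0 S0
    (le_of_eq_of_le (integral_congr_ae ((D.j_neg ψ).mono fun z hz => by
      simp only [hz, abs_neg])) hY) h1
  filter_upwards [a1, a2, D.j_neg ψ] with z b1 b2 b3
  rw [abs_le]; constructor <;> linarith

lemma Pos.key2 [CompleteSpace H] {u : H} {l : ℝ} (h : D.Pos u l) {A ε : ℝ} (A0 : 0 ≤ A)
    (hε : 0 < ε) : ∃ η, 0 < η ∧ ∀ (ψ : H) (f : Z → ℝ), D.Src ψ f →
      (∀ᵐ z ∂μ, |f z| ≤ A * D.j u z ^ (q - 1)) → ∫ z, |D.j ψ z| ^ q ∂μ ≤ η →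
      ∀ᵐ z ∂μ, |D.j ψ z| ≤ ε * D.j u z := by
  obtain ⟨δ, δ0, hk⟩ := h.key (ε := ε / 2 / (A + 1)) (by positivity)
  obtain ⟨M, M0, hM⟩ := D.eig_bound h.pos.le
  have hu := hM u l le_rfl h.nn h.one.le h.src
  obtain ⟨η, η0, hη⟩ := D.small_sup (A := A * M ^ (q - 1)) (S := ε / 2 * δ) (by positivity)
    (by positivity)
  refine ⟨η, η0, fun ψ f hS hf hY => ?_⟩
  have a0 := hη ψ f hS (by
    filter_upwards [hf, hu, h.nn] with z b1 b2 b3
    exact b1.trans (mul_le_mul_of_nonneg_left (Real.rpow_le_rpow b3 b2 (by linarith [D.hq])) A0))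
    hY
  have a1 := hk ψ f A _ hS A0 (by positivity) (hf.mono fun z hz => (le_abs_self _).trans hz)
    (a0.mono fun z hz => (le_abs_self _).trans hz)
  have a2 := hk (-ψ) _ A (ε / 2 * δ) hS.neg A0 (by positivity)
    (hf.mono fun z hz => (neg_le_abs _).trans hz) (by
      filter_upwards [a0, D.j_neg ψ] with z b1 b2
      rw [b2]; exact (neg_le_abs _).trans b1)
  have e : ε / 2 * δ / δ + A * (ε / 2 / (A + 1)) ≤ ε := by
    have : A * (ε / 2 / (A + 1)) ≤ ε / 2 := by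
      rw [← mul_div_assoc, div_le_iff₀ (by positivity)]; nlinarith
    rw [mul_div_cancel_right₀ _ δ0.ne']; linarith
  filter_upwards [a1, a2, D.j_neg ψ, h.nn] with z b1 b2 b3 b4
  have := mul_le_mul_of_nonneg_right e b4
  rw [abs_le]; constructor <;> linarith

/-- The measure `|u|^q dμ`. -/
noncomputable def nu (D : DS μ H q) (u : H) : Measure Z :=
  μ.withDensity fun z => ENNReal.ofReal (|D.j u z| ^ q)

lemma nu_meas (D : DS μ H q) (u : H) : Measurable fun z => ENNReal.ofReal (|D.j u z| ^ q) :=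
  ((D.meas u).abs.pow_const _).ennreal_ofReal

lemma ae_nu {u : H} {P : Z → Prop} : (∀ᵐ z ∂D.nu u, P z) ↔ ∀ᵐ z ∂μ, D.j u z ≠ 0 → P z := by
  rw [nu, ae_withDensity_iff (D.nu_meas u)]
  have : ∀ z, ENNReal.ofReal (|D.j u z| ^ q) ≠ 0 ↔ D.j u z ≠ 0 := fun z => by
    rw [Ne, ENNReal.ofReal_eq_zero, not_le]
    refine ⟨fun h1 h2 => ?_, fun h1 => Real.rpow_pos_of_pos (abs_pos.2 h1) _⟩
    rw [h2, abs_zero, Real.zero_rpow (by linarith [D.hq])] at h1
    exact lt_irrefl _ h1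
  simp only [this]

lemma int_nu (D : DS μ H q) (u : H) (g : Z → ℝ) :
    ∫ z, g z ∂D.nu u = ∫ z, |D.j u z| ^ q * g z ∂μ := by
  rw [nu, integral_withDensity_eq_integral_toReal_smul (D.nu_meas u)
    (ae_of_all _ fun _ => ENNReal.ofReal_lt_top)]
  refine integral_congr_ae (ae_of_all _ fun z => ?_)
  simp only [ENNReal.toReal_ofReal (Real.rpow_nonneg (abs_nonneg _) _), smul_eq_mul]

instance (D : DS μ H q) (u : H) : IsFiniteMeasure (D.nu u) :=
  isFiniteMeasure_withDensity_ofReal (D.intq u).2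

lemma Pos.exK [CompleteSpace H] {u : H} {l : ℝ} (h : D.Pos u l) :
    ∃ K : Lp ℝ ∞ (D.nu u) →L[ℝ] Lp ℝ ∞ (D.nu u),
      (∀ (a : Lp ℝ ∞ (D.nu u)) (ψ : H), D.Src ψ (fun z => D.j u z ^ (q - 1) * a z) →
        K a =ᵐ[D.nu u] fun z => l * D.j ψ z / D.j u z) ∧ IsCompactOperator K ∧
      ∀ a b : Lp ℝ ∞ (D.nu u), ∫ z, K a z * b z ∂D.nu u = ∫ z, a z * K b z ∂D.nu u := by
  have q2 := D.hq
  have l0 := h.pos
  have hC := D.hC
  have z0 : (0:ℝ) ^ (q - 1) = 0 := Real.zero_rpow (by linarith)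
  have hb : ∀ a : Lp ℝ ∞ (D.nu u),
      ∀ᵐ z ∂μ, |D.j u z ^ (q - 1) * a z| ≤ ‖a‖ * D.j u z ^ (q - 1) := fun a => by
    filter_upwards [ae_nu.1 (ae_le_norm a), h.nn] with z h1 h2
    by_cases h3 : D.j u z = 0
    · simp [h3, z0]
    · rw [abs_mul, abs_of_nonneg (Real.rpow_nonneg h2 _), mul_comm]
      exact mul_le_mul_of_nonneg_right (h1 h3) (Real.rpow_nonneg h2 _)
  have hb' : ∀ a : Lp ℝ ∞ (D.nu u),
      ∀ᵐ z ∂μ, |D.j u z ^ (q - 1) * a z| ≤ ‖a‖ * |D.j u z| ^ (q - 1) := fun a => by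
    filter_upwards [hb a, h.nn] with z h1 h2
    rwa [abs_of_nonneg h2]
  have hm : ∀ a : Lp ℝ ∞ (D.nu u), AEStronglyMeasurable (fun z => D.j u z ^ (q - 1) * a z) μ :=
    fun a => (((D.meas u).pow_const _).mul (Lp.stronglyMeasurable a).measurable
      ).aestronglyMeasurable
  choose G hG using fun a : Lp ℝ ∞ (D.nu u) =>
    D.green (hm a) (D.meas u) (D.intq u) (norm_nonneg a) h.one.le (hb' a)
  have tr : ∀ {a b : Z → ℝ}, (a =ᵐ[D.nu u] b) →
      (fun z => D.j u z ^ (q - 1) * a z) =ᵐ[μ] fun z => D.j u z ^ (q - 1) * b z := fun hab => by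
    filter_upwards [ae_nu.1 hab] with z h1
    by_cases h3 : D.j u z = 0
    · simp [h3, z0]
    · rw [h1 h3]
  have Gadd : ∀ a b, G (a + b) = G a + G b := fun a b =>
    ((hG _).congr (tr (Lp.coeFn_add a b))).unique
      (((hG a).add (hG b)).congr (ae_of_all _ fun z => by simp [mul_add]))
  have Gsub : ∀ a b, G (a - b) = G a - G b := fun a b =>
    ((hG _).congr (tr (Lp.coeFn_sub a b))).unique
      (((hG a).sub (hG b)).congr (ae_of_all _ fun z => by simp [mul_sub]))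
  have Gsmul : ∀ (c : ℝ) a, G (c • a) = c • G a := fun c a =>
    ((hG _).congr (tr (Lp.coeFn_smul c a))).unique
      (((hG a).smul c).congr (ae_of_all _ fun z => by simp [mul_left_comm]))
  have conv : ∀ (ψ : H) (c : ℝ), (∀ᵐ z ∂μ, |D.j ψ z| ≤ c * D.j u z) →
      ∀ᵐ z ∂D.nu u, ‖l * D.j ψ z / D.j u z‖ ≤ l * c := fun ψ c hψ => by
    rw [ae_nu]
    filter_upwards [hψ, h.nn] with z h1 h2 h3
    have h4 : 0 < D.j u z := lt_of_le_of_ne h2 (Ne.symm h3)
    rw [Real.norm_eq_abs, abs_div, abs_mul, abs_of_pos l0, abs_of_pos h4, div_le_iff₀ h4,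
      mul_assoc]
    exact mul_le_mul_of_nonneg_left h1 l0.le
  have Gb : ∀ a, ∀ᵐ z ∂D.nu u, ‖l * D.j (G a) z / D.j u z‖ ≤ 1 * ‖a‖ := fun a => by
    have e : ∀ t, ‖a‖ / l * (l * t) = ‖a‖ * t := fun t => by field_simp
    have a1 := h.cmp (c := ‖a‖ / l) (hG a) ((hb a).mono fun z hz => Or.inr (by
      rw [e]; exact (le_abs_self _).trans hz))
    have a2 := h.cmp (c := ‖a‖ / l) (hG a).neg ((hb a).mono fun z hz => Or.inr (by
      rw [e]; exact (neg_le_abs _).trans hz))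
    have := conv (G a) (‖a‖ / l) (by
      filter_upwards [a1, a2, D.j_neg (G a)] with z b1 b2 b3
      rw [abs_le]; constructor <;> linarith)
    rwa [mul_div_cancel₀ _ l0.ne', ← one_mul ‖a‖] at this
  have Gm : ∀ a, MemLp (fun z => l * D.j (G a) z / D.j u z) ∞ (D.nu u) := fun a =>
    memLp_top_of_bound ((((D.meas _).const_mul l).div (D.meas u)).aestronglyMeasurable) _ (Gb a)
  have ac : ∀ {P : Z → Prop}, (∀ᵐ z ∂μ, P z) → ∀ᵐ z ∂D.nu u, P z := fun hP =>
    ae_nu.2 (hP.mono fun _ h _ => h)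
  let L : Lp ℝ ∞ (D.nu u) →ₗ[ℝ] Lp ℝ ∞ (D.nu u) :=
    { toFun := fun a => (Gm a).toLp _
      map_add' := fun a b => by
        refine Lp.ext ?_
        filter_upwards [(Gm (a + b)).coeFn_toLp, (Gm a).coeFn_toLp, (Gm b).coeFn_toLp,
          Lp.coeFn_add ((Gm a).toLp _) ((Gm b).toLp _), ac (D.j_add (G a) (G b))]
          with z b1 b2 b3 b4 b5
        rw [b1, b4, Pi.add_apply, b2, b3, Gadd, b5]; ring
      map_smul' := fun c a => by
        refine Lp.ext ?_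
        filter_upwards [(Gm (c • a)).coeFn_toLp, (Gm a).coeFn_toLp,
          Lp.coeFn_smul c ((Gm a).toLp _), ac (D.j_smul c (G a))] with z b1 b2 b4 b5
        rw [RingHom.id_apply, b1, b4, Pi.smul_apply, b2, Gsmul, b5, smul_eq_mul]; ring }
  have hL : ∀ a, L a =ᵐ[D.nu u] fun z => l * D.j (G a) z / D.j u z := fun a => (Gm a).coeFn_toLp
  have Lb : ∀ a, ‖L a‖ ≤ 1 * ‖a‖ := fun a => norm_le_of_ae _ (by positivity) (by
    filter_upwards [hL a, Gb a] with z b1 b2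
    rwa [b1])
  refine ⟨L.mkContinuous 1 Lb, fun a ψ hψ => ?_, ?_, fun a b => ?_⟩
  · rw [hψ.unique (hG a)]; exact hL a
  · refine (isCompactOperator_iff_isCompact_closure_image_ball L one_pos).2
      (compact_closure fun x hx => ?_)
    choose a ha hx using hx
    have ha' : ∀ n, ‖a n‖ ≤ 1 := fun n => (mem_ball_zero_iff.1 (ha n)).le
    obtain ⟨φ, hφ, hc⟩ := D.cpt (fun n => G (a n)) (1 * D.C) fun n =>
      ((hG _).norm_le (hm _) (D.meas u) (D.intq u) (norm_nonneg _) h.one.le (hb' _)).trans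
        (by gcongr; exact ha' n)
    refine ⟨φ, hφ, Metric.cauchySeq_iff.2 fun ε hε => ?_⟩
    obtain ⟨η, η0, hη⟩ := h.key2 (A := 2) (ε := ε / 2 / l) (by norm_num) (by positivity)
    obtain ⟨n0, hn0⟩ := hc η η0
    refine ⟨n0, fun n hn m hm => ?_⟩
    rw [Function.comp_apply, Function.comp_apply, ← hx, ← hx, dist_eq_norm, ← map_sub]
    refine lt_of_le_of_lt (norm_le_of_ae _ (by positivity) ?_) (half_lt_self hε)
    have b1 := hη _ _ (hG (a (φ n) - a (φ m))) (by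
      filter_upwards [hb (a (φ n) - a (φ m)), h.nn] with z b1 b2
      refine b1.trans (mul_le_mul_of_nonneg_right ?_ (Real.rpow_nonneg b2 _))
      linarith [norm_sub_le (a (φ n)) (a (φ m)), ha' (φ n), ha' (φ m)])
      (by rw [Gsub]; exact hn0 n hn m hm)
    filter_upwards [conv _ _ b1, hL (a (φ n) - a (φ m))] with z b2 b3
    rwa [b3, ← mul_div_cancel₀ (ε / 2) l0.ne']
  · have key : ∀ a b, ∫ z, L a z * b z ∂D.nu u = l * ⟪G b, G a⟫ := fun a b => by
      have e0 : (fun z => L a z * b z) =ᵐ[D.nu u] fun z => l * D.j (G a) z / D.j u z * b z :=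
        (hL a).mono fun z hz => by simp only [hz]
      rw [integral_congr_ae e0, int_nu, (hG b (G a)).2, ← integral_const_mul]
      refine integral_congr_ae ?_
      filter_upwards [h.nn] with z h2
      by_cases h3 : D.j u z = 0
      · simp [h3, z0]
      · have e : D.j u z ^ q = D.j u z ^ (q - 1) * D.j u z := by
          rw [← Real.rpow_add_one h3, sub_add_cancel]
        rw [abs_of_nonneg h2, e]; field_simp
    change ∫ z, L a z * b z ∂D.nu u = ∫ z, a z * L b z ∂D.nu u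
    rw [key, real_inner_comm, ← key]
    simp only [mul_comm]

end DS

end Pool.Agent.H27.Iso
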