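import Pool.Agent.H27.Iso6

/-! Abstract Dirichlet spaces: eigenvalues with nonnegative eigenfunctions do not accumulate. -/

open Set Filter Topology MeasureTheory
open scoped ENNReal RealInnerProductSpace

namespace Pool.Agent.H27.Iso

variable {Z : Type} [MeasurableSpace Z] {μ : Measure Z} {H : Type} [NormedAddCommGroup H]
  [InnerProductSpace ℝ H] {q : ℝ}

lemma tend_of_eps {ι : Type*} {F : Filter ι} {a d : ι → ℝ} {b T : ℝ} (hd : Tendsto d F (𝓝 0))
    (T0 : 0 ≤ T) (h : ∀ ε > 0, ∃ C, ∀ n, |a n - b| ≤ ε * T + C * d n) : Tendsto a F (𝓝 b) := by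
  refine Metric.tendsto_nhds.2 fun ε hε => ?_
  obtain ⟨C, hC⟩ := h (ε / 2 / (T + 1)) (by positivity)
  have h1 : ε / 2 / (T + 1) * T ≤ ε / 2 := by
    rw [div_mul_eq_mul_div, div_le_iff₀ (by positivity)]; nlinarith
  have h2 := hd.const_mul C
  rw [mul_zero] at h2
  filter_upwards [h2.eventually_lt_const (half_pos hε)] with n hn
  rw [Real.dist_eq]; linarith [hC n]

lemma tend_int {ι : Type*} {F : Filter ι} {v d : ι → Z → ℝ} {w : Z → ℝ} (hq : 0 < q)
    (vi : ∀ n, Integrable (fun z => |v n z| ^ q) μ) (wi : Integrable (fun z => |w z| ^ q) μ)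
    (di : ∀ n, Integrable (fun z => |d n z| ^ q) μ) (e : ∀ n, ∀ᵐ z ∂μ, d n z = v n z - w z)
    (hd : Tendsto (fun n => ∫ z, |d n z| ^ q ∂μ) F (𝓝 0)) :
    Tendsto (fun n => ∫ z, |v n z| ^ q ∂μ) F (𝓝 (∫ z, |w z| ^ q ∂μ)) := by
  refine tend_of_eps hd (T := ∫ z, |w z| ^ q ∂μ)
    (integral_nonneg fun z => Real.rpow_nonneg (abs_nonneg _) _) fun ε hε => ?_
  obtain ⟨C, C0, hC⟩ := pow_pert hq hε
  refine ⟨C, fun n => ?_⟩
  rw [← integral_sub (vi n) wi, ← integral_const_mul, ← integral_const_mul,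
    ← integral_add (wi.const_mul _) ((di n).const_mul _), ← Real.norm_eq_abs]
  refine norm_integral_le_of_norm_le ((wi.const_mul _).add ((di n).const_mul _)) ?_
  filter_upwards [e n] with z hz
  refine (hC _ _ (abs_nonneg _) (abs_nonneg _)).trans ?_
  have := Real.rpow_le_rpow (abs_nonneg _) (abs_abs_sub_abs_le_abs_sub (v n z) (w z)) hq.le
  rw [hz]; gcongr

lemma small_zero {B γ : ℝ} (hB : 0 ≤ B) (hγ : 1 < γ) :
    ∃ η, 0 < η ∧ ∀ y, 0 ≤ y → y ≤ η → y ≤ (B * y) ^ γ → y ≤ 0 := by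
  have tt : Tendsto (fun t : ℝ => B ^ γ * t ^ (γ - 1)) (𝓝[>] 0) (𝓝 0) := by
    have := ((Real.continuousAt_rpow_const 0 (γ - 1) (Or.inr (by linarith))).tendsto.const_mul
      (B ^ γ)).mono_left (nhdsWithin_le_nhds (s := Ioi 0))
    rwa [Real.zero_rpow (by linarith), mul_zero] at this
  obtain ⟨η, h1, η0⟩ := ((tt.eventually_lt_const one_pos).and self_mem_nhdsWithin).exists
  refine ⟨η, η0, fun y y0 hy h => ?_⟩
  by_contra h3
  push Not at h3
  have e : y ^ γ = y ^ (γ - 1) * y := by rw [← Real.rpow_add_one h3.ne', sub_add_cancel]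
  rw [Real.mul_rpow hB y0, e, ← mul_assoc] at h
  have h4 : B ^ γ * y ^ (γ - 1) ≤ B ^ γ * η ^ (γ - 1) :=
    mul_le_mul_of_nonneg_left (Real.rpow_le_rpow y0 hy (by linarith)) (by positivity)
  nlinarith

namespace DS

variable {D : DS μ H q}

lemma tend_q (D : DS μ H q) {ι : Type*} {F : Filter ι} {h : ι → H} {u : H}
    (hh : Tendsto h F (𝓝 u)) : Tendsto (fun n => ∫ z, |D.j (h n - u) z| ^ q ∂μ) F (𝓝 0) := by
  refine squeeze_zero (fun n => integral_nonneg fun z => Real.rpow_nonneg (abs_nonneg _) _)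
    (fun n => D.embq _) ?_
  have h1 := (tendsto_iff_norm_sub_tendsto_zero.1 hh).const_mul D.C
  rw [mul_zero] at h1
  have := (Real.continuousAt_rpow_const 0 q (Or.inr (by linarith [D.hq]))).tendsto.comp h1
  rwa [Real.zero_rpow (by linarith [D.hq])] at this

lemma tend_set (D : DS μ H q) {ι : Type*} {F : Filter ι} {h : ι → H} {u : H} (A : Set Z)
    (hh : Tendsto (fun n => ∫ z, |D.j (h n - u) z| ^ q ∂μ) F (𝓝 0)) :
    Tendsto (fun n => ∫ z in A, |D.j (h n) z| ^ q ∂μ) F (𝓝 (∫ z in A, |D.j u z| ^ q ∂μ)) := by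
  refine tend_int (μ := μ.restrict A) (d := fun n => D.j (h n - u)) (by linarith [D.hq])
    (fun n => (D.intq _).restrict) (D.intq _).restrict (fun n => (D.intq _).restrict)
    (fun n => ae_restrict_of_ae (D.j_sub _ _)) ?_
  refine squeeze_zero (fun n => integral_nonneg fun z => Real.rpow_nonneg (abs_nonneg _) _)
    (fun n => ?_) hh
  exact setIntegral_le_integral (D.intq _)
    (ae_of_all _ fun z => Real.rpow_nonneg (abs_nonneg _) _)

lemma Pos.bd {u : H} {l : ℝ} (h : D.Pos u l) :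
    ∀ᵐ z ∂μ, |D.j u z ^ (q - 1)| ≤ 1 * |D.j u z| ^ (q - 1) := by
  filter_upwards [h.nn] with z hz
  rw [abs_of_nonneg hz, abs_of_nonneg (Real.rpow_nonneg hz _), one_mul]

lemma limit [CompleteSpace H] {h : ℕ → H} {l : ℕ → ℝ} {l0 : ℝ} (hp : ∀ n, D.Pos (h n) (l n))
    (hl : Tendsto l atTop (𝓝 l0)) : ∃ φ : ℕ → ℕ, StrictMono φ ∧ ∃ u, D.Pos u l0 ∧
      Tendsto (fun n => h (φ n)) atTop (𝓝 u) := by
  have q2 := D.hq
  have hC := D.hC
  obtain ⟨Λ, hΛ⟩ := hl.bddAbove_range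
  have hΛ' : ∀ n, l n ≤ Λ := fun n => hΛ ⟨n, rfl⟩
  have Λ0 : 0 < Λ := (hp 0).pos.trans_le (hΛ' 0)
  obtain ⟨φ, hφ, hc⟩ := D.cpt h (Λ + 1) fun n => by
    nlinarith [(hp n).eq, hΛ' n, norm_nonneg (h n)]
  have hcau : CauchySeq fun n => h (φ n) := by
    refine Metric.cauchySeq_iff.2 fun ε hε => ?_
    obtain ⟨n0, hn0⟩ := hc ((ε ^ 2 / (4 * Λ)) ^ q) (by positivity)
    refine ⟨n0, fun n hn m hm => ?_⟩
    have key : ∀ k, |⟪h k, h (φ n) - h (φ m)⟫| ≤ Λ * (ε ^ 2 / (4 * Λ)) := fun k => by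
      rw [((hp k).src _).2]
      have := (hold3 (A := Λ) (T := 1) (by linarith)
        ((((D.meas (h k)).pow_const (q - 1)).const_mul (l k)).aestronglyMeasurable)
        (D.meas (h k)) (D.meas _) (D.intq _) (D.intq _) Λ0.le zero_le_one (by positivity)
        (by simp [(hp k).one]) (hn0 n hn m hm) (by
          filter_upwards [(hp k).bd] with z hz
          rw [abs_mul, abs_of_pos (hp k).pos]
          rw [one_mul] at hz
          exact mul_le_mul (hΛ' k) hz (abs_nonneg _) Λ0.le)).2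
      simpa using this
    have e : Λ * (ε ^ 2 / (4 * Λ)) = ε ^ 2 / 4 := by field_simp
    have a1 := abs_le.1 (key (φ n))
    have a2 := abs_le.1 (key (φ m))
    have a3 : ‖h (φ n) - h (φ m)‖ ^ 2 = ⟪h (φ n), h (φ n) - h (φ m)⟫ -
        ⟪h (φ m), h (φ n) - h (φ m)⟫ := by
      rw [← inner_sub_left, real_inner_self_eq_norm_sq]
    rw [dist_eq_norm]
    refine lt_of_pow_lt_pow_left₀ 2 hε.le ?_
    have : 0 < ε ^ 2 := by positivity
    linarith [a1.2, a2.1]
  obtain ⟨u, hu⟩ := cauchySeq_tendsto_of_complete hcau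
  have hq := D.tend_q hu
  have nn : ∀ᵐ z ∂μ, 0 ≤ D.j u z := by
    have i1 := trunc_int (μ := μ) (v := fun z => -D.j u z) (D.meas u).neg (by linarith : 0 < q)
      le_rfl (by simpa using D.intq u)
    simp only [sub_zero] at i1
    have := pos_zero i1.1 (ge_of_tendsto' hq fun n => integral_mono_ae i1.1 (D.intq _) (by
      filter_upwards [(hp (φ n)).nn, D.j_sub (h (φ n)) u] with z a1 a2
      refine Real.rpow_le_rpow (le_max_right _ _) (max_le ?_ (abs_nonneg _)) (by linarith)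
      rw [a2]; linarith [le_abs_self (D.j (h (φ n)) z - D.j u z)]))
    filter_upwards [this] with z hz
    linarith
  have one : ∫ z, |D.j u z| ^ q ∂μ = 1 := by
    have := D.tend_set univ hq
    simp only [Measure.restrict_univ, fun n => (hp (φ n)).one] at this
    exact tendsto_nhds_unique this tendsto_const_nhds
  have bd : ∀ᵐ z ∂μ, |D.j u z ^ (q - 1)| ≤ 1 * |D.j u z| ^ (q - 1) := by
    filter_upwards [nn] with z hz
    rw [abs_of_nonneg hz, abs_of_nonneg (Real.rpow_nonneg hz _), one_mul]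
  have pi : ∀ {v : H}, ∫ z, |D.j v z| ^ q ∂μ = 1 →
      (∀ᵐ z ∂μ, |D.j v z ^ (q - 1)| ≤ 1 * |D.j v z| ^ (q - 1)) → ∀ ψ,
      Integrable (fun z => D.j v z ^ (q - 1) * D.j ψ z) μ := fun h1 h2 ψ =>
    (D.pair ((D.meas _).pow_const _).aestronglyMeasurable (D.meas _) (D.intq _) zero_le_one
      zero_le_one (by simp [h1]) h2 ψ).1
  refine ⟨φ, hφ, u, ⟨nn, one, fun ψ => ?_⟩, hu⟩
  simp only [mul_assoc]
  refine ⟨(pi one bd ψ).const_mul _, ?_⟩
  have t1 : Tendsto (fun n => ∫ z, D.j (h (φ n)) z ^ (q - 1) * D.j ψ z ∂μ) atTop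
      (𝓝 (∫ z, D.j u z ^ (q - 1) * D.j ψ z ∂μ)) := by
    have d0 : Tendsto (fun n => (D.C * ‖h (φ n) - u‖) ^ (q - 1)) atTop (𝓝 0) := by
      have h1 := (tendsto_iff_norm_sub_tendsto_zero.1 hu).const_mul D.C
      rw [mul_zero] at h1
      have := (Real.continuousAt_rpow_const 0 (q - 1) (Or.inr (by linarith))).tendsto.comp h1
      rwa [Real.zero_rpow (by linarith)] at this
    refine tend_of_eps d0 (T := D.C * ‖ψ‖) (by positivity) fun ε hε => ?_
    obtain ⟨C, C0, hC'⟩ := pow_pert (by linarith : 0 < q - 1) hε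
    refine ⟨C * (D.C * ‖ψ‖), fun n => ?_⟩
    obtain ⟨a1, a2⟩ := hold2 (μ := μ) (by linarith : 1 < q) (D.meas u).abs (D.meas ψ).abs
      (ae_of_all _ fun z => abs_nonneg _) (ae_of_all _ fun z => abs_nonneg _) (D.intq _) (D.intq _)
      zero_le_one (by positivity) (by simp [one]) (D.embq ψ)
    obtain ⟨a3, a4⟩ := hold2 (μ := μ) (by linarith : 1 < q) (D.meas (h (φ n) - u)).abs
      (D.meas ψ).abs (ae_of_all _ fun z => abs_nonneg _) (ae_of_all _ fun z => abs_nonneg _)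
      (D.intq _) (D.intq _) (by positivity) (by positivity) (D.embq _) (D.embq ψ)
    rw [← integral_sub (pi (hp _).one (hp _).bd ψ) (pi one bd ψ), ← Real.norm_eq_abs]
    refine (norm_integral_le_of_norm_le ((a1.const_mul ε).add (a3.const_mul C)) ?_).trans ?_
    · filter_upwards [nn, (hp (φ n)).nn, D.j_sub (h (φ n)) u] with z b1 b2 b3
      have := mul_le_mul_of_nonneg_right (hC' _ _ b2 b1) (abs_nonneg (D.j ψ z))
      simp only [Pi.add_apply]
      rw [← sub_mul, Real.norm_eq_abs, abs_mul, b3, abs_of_nonneg b1]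
      linarith
    · simp only [Pi.add_apply]
      rw [integral_add (a1.const_mul ε) (a3.const_mul C), integral_const_mul, integral_const_mul]
      rw [Real.one_rpow, one_mul] at a2
      have := mul_le_mul_of_nonneg_left a2 hε.le
      have := mul_le_mul_of_nonneg_left a4 C0
      linarith
  rw [integral_const_mul]
  refine tendsto_nhds_unique (hu.inner tendsto_const_nhds)
    (((hl.comp hφ.tendsto_atTop).mul t1).congr fun n => ?_)
  rw [((hp (φ n)).src ψ).2, ← integral_const_mul]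
  simp only [mul_assoc, Function.comp_apply]

lemma Pos.ratio [CompleteSpace H] {h : ℕ → H} {l : ℕ → ℝ} {u : H} {l0 : ℝ} (hu : D.Pos u l0)
    (hp : ∀ n, D.Pos (h n) (l n)) (hl : Tendsto l atTop (𝓝 l0)) (hh : Tendsto h atTop (𝓝 u))
    {ε : ℝ} (hε : 0 < ε) :
    ∀ᶠ n in atTop, ∀ᵐ z ∂μ, |D.j (h n) z - D.j u z| ≤ ε * D.j u z := by
  have q2 := D.hq
  have hC := D.hC
  obtain ⟨Λ, hΛ⟩ := hl.bddAbove_range
  have hΛ' : ∀ n, l n ≤ Λ := fun n => hΛ ⟨n, rfl⟩
  have Λ0 : 0 < Λ := (hp 0).pos.trans_le (hΛ' 0)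
  have hl0 : l0 ≤ Λ := le_of_tendsto' hl hΛ'
  have l00 := hu.pos
  have hq := D.tend_q hh
  obtain ⟨M, M0, hM⟩ := D.eig_bound Λ0.le
  have src := fun n => (hp n).src.sub hu.src
  set A := Λ * 2 ^ (q - 1) * 3 ^ (q - 1) with hA
  obtain ⟨δ, δ0, χ, hχ, hb⟩ := hu.key0 (ε := 1 / (A + 1)) (by positivity)
  obtain ⟨η, η0, hη⟩ := D.small_sup (A := Λ * M ^ (q - 1)) (S := δ / 2) (by positivity)
    (by positivity)
  obtain ⟨η', η0', hη'⟩ := small_zero (B := D.C ^ 2 * (Λ * 2 ^ (q - 1))) (γ := q / 2)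
    (by positivity) (by linarith)
  have three : ∀ᶠ n in atTop, ∀ᵐ z ∂μ, D.j (h n) z ≤ 3 * D.j u z := by
    filter_upwards [hq.eventually_le_const η0, hq.eventually_le_const η0'] with n n1 n2
    have a1 := hη _ _ (src n) (by
      filter_upwards [hM _ _ (hΛ' n) (hp n).nn (hp n).one.le (hp n).src,
        hM _ _ hl0 hu.nn hu.one.le hu.src, (hp n).nn, hu.nn] with z b1 b2 b3 b4
      have c1 := mul_le_mul (hΛ' n) (Real.rpow_le_rpow b3 b1 (by linarith : 0 ≤ q - 1))
        (Real.rpow_nonneg b3 _) Λ0.le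
      have c2 := mul_le_mul hl0 (Real.rpow_le_rpow b4 b2 (by linarith : 0 ≤ q - 1))
        (Real.rpow_nonneg b4 _) Λ0.le
      have c3 := mul_nonneg (hp n).pos.le (Real.rpow_nonneg b3 (q - 1))
      have c4 := mul_nonneg l00.le (Real.rpow_nonneg b4 (q - 1))
      rw [abs_le]; constructor <;> linarith) n1
    have hS := ((hp n).src.sub (hu.src.smul 2)).sub (hχ.smul A)
    set ψ := h n - (2:ℝ) • u - A • χ
    have e : ∀ᵐ z ∂μ, D.j ψ z = D.j (h n) z - 2 * D.j u z - A * D.j χ z := by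
      filter_upwards [D.j_sub (h n - (2:ℝ) • u) (A • χ), D.j_sub (h n) ((2:ℝ) • u), D.j_smul 2 u,
        D.j_smul A χ] with z b1 b2 b3 b4
      rw [b1, b2, b3, b4]
    have hAχ : ∀ᵐ z ∂μ, 0 ≤ A * D.j χ z ∧ A * D.j χ z ≤ D.j u z := by
      filter_upwards [hb, hu.nn] with z b1 b2
      refine ⟨mul_nonneg (by positivity) b1.1,
        (mul_le_mul_of_nonneg_left b1.2 (by positivity)).trans ?_⟩
      rw [← mul_assoc]
      refine mul_le_of_le_one_left b2 ?_
      rw [mul_one_div, div_le_one (by positivity)]; linarith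
    obtain ⟨t, t0, h1, h2, h3⟩ := hS.trunc le_rfl
    have yi := (trunc_int (D.meas ψ) (by linarith) le_rfl (D.intq ψ)).1
    simp only [sub_zero] at h1 h2 h3 yi
    set y := ∫ z, max (D.j ψ z) 0 ^ q ∂μ with hy
    have y0 : 0 ≤ y := integral_nonneg fun z => Real.rpow_nonneg (le_max_right _ _) _
    have g1 : t ^ 2 ≤ Λ * 2 ^ (q - 1) * y := by
      refine h3.trans ((integral_mono_ae h2 (yi.const_mul (Λ * 2 ^ (q - 1))) ?_).trans
        (by rw [integral_const_mul]))
      filter_upwards [e, hAχ, a1, D.j_sub (h n) u, hu.nn, (hp n).nn] with z b1 b2 b3 b4 b5 b6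
      by_cases hv : D.j ψ z ≤ 0
      · rw [max_eq_right hv, mul_zero, Real.zero_rpow (by linarith), mul_zero]
      · push Not at hv
        rw [max_eq_left hv.le]
        have c1 : D.j u z < δ := by linarith [le_abs_self (D.j (h n - u) z), b2.1]
        have c2 : D.j (h n) z ^ (q - 1) ≤
            2 ^ (q - 1) * (3 ^ (q - 1) * D.j u z ^ (q - 1) + D.j ψ z ^ (q - 1)) := by
          rw [← Real.mul_rpow (by norm_num) b5]
          exact (Real.rpow_le_rpow b6 (by linarith [b2.2]) (by linarith)).trans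
            (add_rpow_le (by positivity) hv.le (by linarith))
        have c3 := mul_le_mul (hΛ' n) c2 (Real.rpow_nonneg b6 _) Λ0.le
        have c4 := mul_nonneg l00.le (Real.rpow_nonneg b5 (q - 1))
        have c5 : D.j ψ z ^ q = D.j ψ z ^ (q - 1) * D.j ψ z := by
          rw [← Real.rpow_add_one hv.ne', sub_add_cancel]
        unfold low1
        rw [if_pos c1, c5, ← mul_assoc (Λ * 2 ^ (q - 1))]
        refine mul_le_mul_of_nonneg_right ?_ hv.le
        rw [hA]; linarith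
    have g2 : y ≤ η' := by
      refine le_trans (integral_mono_ae yi (D.intq _) ?_) n2
      filter_upwards [e, hAχ, D.j_sub (h n) u, hu.nn] with z b1 b2 b4 b5
      refine Real.rpow_le_rpow (le_max_right _ _) (max_le ?_ (abs_nonneg _)) (by linarith)
      linarith [le_abs_self (D.j (h n - u) z), b2.1]
    have g3 : y ≤ (D.C ^ 2 * (Λ * 2 ^ (q - 1)) * y) ^ (q / 2) := by
      refine (h1 q (by simp)).trans ?_
      have e2 : (D.C * t) ^ q = (D.C ^ 2 * t ^ 2) ^ (q / 2) := by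
        rw [← mul_pow, ← Real.rpow_natCast, ← Real.rpow_mul (by positivity)]
        congr 1; push_cast; ring
      rw [e2, mul_assoc]
      gcongr
    filter_upwards [pos_zero yi (hη' y y0 g2 g3), e, hAχ] with z b1 b2 b3
    linarith [b3.2]
  obtain ⟨η2, η20, hη2⟩ := hu.key2 (A := Λ * 3 ^ (q - 1)) (by positivity) hε
  filter_upwards [three, hq.eventually_le_const η20] with n n1 n2
  have := hη2 _ _ (src n) (by
    filter_upwards [n1, hu.nn, (hp n).nn] with z b1 b2 b3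
    have c0 := Real.rpow_nonneg b2 (q - 1)
    have c1 : D.j (h n) z ^ (q - 1) ≤ 3 ^ (q - 1) * D.j u z ^ (q - 1) := by
      rw [← Real.mul_rpow (by norm_num) b2]
      exact Real.rpow_le_rpow b3 b1 (by linarith)
    have c2 := mul_le_mul (hΛ' n) c1 (Real.rpow_nonneg b3 _) Λ0.le
    have c3 := mul_nonneg (hp n).pos.le (Real.rpow_nonneg b3 (q - 1))
    have c4 := mul_nonneg l00.le c0
    have c5 : (1:ℝ) ≤ 3 ^ (q - 1) := Real.one_le_rpow (by norm_num) (by linarith)
    have c6 : l0 * D.j u z ^ (q - 1) ≤ Λ * 3 ^ (q - 1) * D.j u z ^ (q - 1) :=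
      mul_le_mul_of_nonneg_right (by nlinarith) c0
    rw [abs_le]; constructor <;> linarith) n2
  filter_upwards [this, D.j_sub (h n) u] with z b1 b2
  rwa [b2] at b1

theorem no_accum [CompleteSpace H] {h : ℕ → H} {l : ℕ → ℝ} {l0 : ℝ}
    (hp : ∀ n, D.Pos (h n) (l n)) (hl : Tendsto l atTop (𝓝 l0)) : ∃ n, l n = l0 := by
  have q2 := D.hq
  obtain ⟨φ, hφ, u, hu, hh⟩ := limit hp hl
  have hl' : Tendsto (fun n => l (φ n)) atTop (𝓝 l0) := hl.comp hφ.tendsto_atTop
  have l00 := hu.pos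
  obtain ⟨K, hK, hKc, hKs⟩ := hu.exK
  have me : MemLp (fun _ => (1:ℝ)) ∞ (D.nu u) := memLp_top_const 1
  have z0 : (0:ℝ) ^ (q - 1) = 0 := Real.zero_rpow (by linarith)
  obtain ⟨ε, ε0, hε⟩ := linf_iso K hKc hKs (me.toLp _) me.coeFn_toLp (by
    refine Lp.ext ?_
    have := hK (me.toLp _) ((1 / l0) • u) ((hu.src.smul (1 / l0)).congr (by
      filter_upwards [ae_nu.1 me.coeFn_toLp] with z h1
      by_cases h3 : D.j u z = 0
      · simp [h3, z0]
      · rw [h1 h3]; field_simp))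
    refine this.trans (EventuallyEq.trans (ae_nu.2 ?_) me.coeFn_toLp.symm)
    filter_upwards [D.j_smul (1 / l0) u] with z h1 h3
    rw [h1]; field_simp) q2
  have ht : Tendsto (fun n => (l (φ n) / l0) ^ (1 / (q - 2))) atTop (𝓝 1) := by
    have := (hl'.div_const l0).rpow_const (p := 1 / (q - 2)) (Or.inl (div_pos l00 l00).ne')
    rwa [div_self l00.ne', Real.one_rpow] at this
  set κ := min (ε / 4) 1 with hκ
  have κ0 : 0 < κ := by positivity
  have κ1 : κ ≤ 1 := min_le_right _ _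
  have κ2 : κ ≤ ε / 4 := min_le_left _ _
  obtain ⟨n, n1, n2⟩ := ((hu.ratio (fun n => hp (φ n)) hl' hh κ0).and
    (Metric.tendsto_nhds.1 ht κ κ0)).exists
  refine ⟨φ n, ?_⟩
  have hn := hp (φ n)
  have ln := hn.pos
  set v := h (φ n)
  set t := (l (φ n) / l0) ^ (1 / (q - 2)) with htd
  have t0 : 0 < t := by positivity
  have tq : t ^ (q - 2) = l (φ n) / l0 := by
    rw [htd, ← Real.rpow_mul (by positivity), one_div_mul_cancel (by linarith), Real.rpow_one]
  have tq1 : t ^ (q - 1) = l (φ n) / l0 * t := by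
    rw [← tq, ← Real.rpow_add_one t0.ne']; congr 1; ring
  rw [Real.dist_eq] at n2
  have bd : ∀ᵐ z ∂D.nu u, 0 ≤ t * D.j v z / D.j u z ∧ |t * D.j v z / D.j u z - 1| ≤ 3 * κ := by
    rw [ae_nu]
    filter_upwards [n1, hu.nn, hn.nn] with z b1 b2 b3 b4
    have b5 : 0 < D.j u z := lt_of_le_of_ne b2 (Ne.symm b4)
    refine ⟨by positivity, ?_⟩
    have b6 : |D.j v z / D.j u z - 1| ≤ κ := by
      rwa [div_sub_one b4, abs_div, abs_of_pos b5, div_le_iff₀ b5]
    rw [mul_div_assoc]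
    set x := D.j v z / D.j u z
    have b7 := abs_le.1 b6
    have b8 := abs_lt.1 n2
    rw [abs_le]; constructor <;> nlinarith
  have m0 : Measurable fun z => t * D.j v z / D.j u z := ((D.meas v).const_mul t).div (D.meas u)
  have bd4 : ∀ᵐ z ∂D.nu u, t * D.j v z / D.j u z ≤ 4 := bd.mono fun z hz => by
    linarith [(abs_le.1 hz.2).2]
  have m1 : MemLp (fun z => t * D.j v z / D.j u z) ∞ (D.nu u) :=
    memLp_top_of_bound m0.aestronglyMeasurable 4 (by
      filter_upwards [bd, bd4] with z b1 b2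
      rwa [Real.norm_of_nonneg b1.1])
  have m2 : MemLp (fun z => (t * D.j v z / D.j u z) ^ (q - 1)) ∞ (D.nu u) :=
    memLp_top_of_bound (m0.pow_const _).aestronglyMeasurable (4 ^ (q - 1)) (by
      filter_upwards [bd, bd4] with z b1 b2
      rw [Real.norm_of_nonneg (Real.rpow_nonneg b1.1 _)]
      exact Real.rpow_le_rpow b1.1 b2 (by linarith))
  have vz : ∀ᵐ z ∂μ, D.j u z = 0 → D.j v z = 0 := by
    filter_upwards [n1] with z b1 b2
    simpa [b2] using b1
  have res := hε (m1.toLp _) (m2.toLp _) (by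
    refine lt_of_le_of_lt (norm_le_of_ae _ (C := 3 * κ) (by positivity) ?_) (by linarith)
    filter_upwards [Lp.coeFn_sub (m1.toLp _) (me.toLp _), m1.coeFn_toLp, me.coeFn_toLp, bd]
      with z b1 b2 b3 b4
    rw [b1, Pi.sub_apply, b2, b3]; exact b4.2) (by
    filter_upwards [m1.coeFn_toLp, m2.coeFn_toLp] with z b1 b2
    rw [b1, b2]) (by
    refine Lp.ext ?_
    have := hK (m2.toLp _) ((t / l0) • v) ((hn.src.smul (t / l0)).congr (by
      filter_upwards [ae_nu.1 m2.coeFn_toLp, vz, hu.nn, hn.nn] with z b1 b2 b3 b4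
      by_cases h3 : D.j u z = 0
      · simp [h3, z0, b2 h3]
      · have b5 : 0 < D.j u z ^ (q - 1) :=
          Real.rpow_pos_of_pos (lt_of_le_of_ne b3 (Ne.symm h3)) _
        rw [b1 h3, Real.div_rpow (by positivity) b3, Real.mul_rpow t0.le b4, tq1]
        field_simp))
    refine m1.coeFn_toLp.trans (EventuallyEq.trans (ae_nu.2 ?_) this.symm)
    filter_upwards [D.j_smul (t / l0) v] with z h1 h3
    rw [h1]; field_simp)
  have e1 : (D.nu u).real univ = 1 := by
    have := D.int_nu u fun _ => 1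
    simpa [hu.one] using this
  have e2 : ∫ z, m1.toLp _ z ^ q ∂D.nu u = t ^ q := by
    have e0 : (fun z => m1.toLp _ z ^ q) =ᵐ[D.nu u] fun z => (t * D.j v z / D.j u z) ^ q :=
      m1.coeFn_toLp.mono fun z hz => by simp only [hz]
    rw [integral_congr_ae e0, int_nu, ← mul_one (t ^ q), ← hn.one, ← integral_const_mul]
    refine integral_congr_ae ?_
    filter_upwards [vz, hu.nn, hn.nn] with z b2 b3 b4
    by_cases h3 : D.j u z = 0
    · simp [h3, b2 h3, Real.zero_rpow (by linarith : q ≠ 0)]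
    · have b5 : 0 < D.j u z ^ q := Real.rpow_pos_of_pos (lt_of_le_of_ne b3 (Ne.symm h3)) _
      rw [abs_of_nonneg b3, abs_of_nonneg b4, Real.div_rpow (by positivity) b3,
        Real.mul_rpow t0.le b4]
      field_simp
  rw [e1, e2] at res
  have q0 : q ≠ 0 := by linarith
  have t1 : t = 1 := Real.rpow_left_injOn q0 t0.le (zero_le_one' ℝ) (by simpa using res)
  rw [t1, Real.one_rpow, eq_comm, div_eq_one_iff_eq l00.ne'] at tq
  exact tq

theorem finite_pos [CompleteSpace H] (D : DS μ H q) (Λ : ℝ) :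
    {l | l ≤ Λ ∧ ∃ h, D.Pos h l}.Finite := by
  by_contra hinf
  obtain ⟨x, -, hx⟩ := Set.Infinite.exists_accPt_of_subset_isCompact hinf
    (isCompact_Icc (a := 0) (b := Λ)) fun l ⟨h1, h, h2⟩ => ⟨h2.pos.le, h1⟩
  rw [accPt_principal_iff_clusterPt, ← mem_closure_iff_clusterPt, mem_closure_iff_seq_limit] at hx
  obtain ⟨l, hl, ht⟩ := hx
  choose h hh using fun n => (hl n).1.2
  obtain ⟨n, hn⟩ := no_accum hh ht
  exact (hl n).2 hn

end DS

end Pool.Agent.H27.Iso
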