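import Pool.Agent.H27.Iso7

/-! Abstract Dirichlet spaces: isolation of the first eigenvalue, local minimisers. -/

open Set Filter Topology MeasureTheory
open scoped ENNReal RealInnerProductSpace

namespace Pool.Agent.H27.Iso

variable {Z : Type} [MeasurableSpace Z] {μ : Measure Z} {H : Type} [NormedAddCommGroup H]
  [InnerProductSpace ℝ H] {q : ℝ}

lemma int_pert (hq : 0 < q) {ε : ℝ} (hε : 0 < ε) : ∃ C, 0 ≤ C ∧ ∀ (ν : Measure Z) (v w d : Z → ℝ),
    Integrable (fun z => v z ^ q) ν → Integrable (fun z => w z ^ q) ν →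
    Integrable (fun z => |d z| ^ q) ν → (∀ᵐ z ∂ν, 0 ≤ v z ∧ 0 ≤ w z ∧ |v z - w z| ≤ |d z|) →
    |∫ z, v z ^ q ∂ν - ∫ z, w z ^ q ∂ν| ≤ ε * ∫ z, w z ^ q ∂ν + C * ∫ z, |d z| ^ q ∂ν := by
  obtain ⟨C, C0, hC⟩ := pow_pert hq hε
  refine ⟨C, C0, fun ν v w d vi wi di e => ?_⟩
  rw [← integral_sub vi wi, ← integral_const_mul, ← integral_const_mul,
    ← integral_add (wi.const_mul _) (di.const_mul _), ← Real.norm_eq_abs]
  refine norm_integral_le_of_norm_le ((wi.const_mul _).add (di.const_mul _)) ?_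
  filter_upwards [e] with z hz
  refine (hC _ _ hz.1 hz.2.1).trans ?_
  have := Real.rpow_le_rpow (abs_nonneg _) hz.2.2 hq.le
  gcongr

lemma tangent {a b : ℝ} (hq : 1 < q) (ha : 0 ≤ a) : a ^ q + q * (a ^ (q - 1) * b) ≤ |a + b| ^ q := by
  have h0 := Real.rpow_nonneg (abs_nonneg (a + b)) q
  rcases ha.eq_or_lt with h | h
  · rw [← h] at h0 ⊢
    rw [Real.zero_rpow (by linarith), Real.zero_rpow (by linarith)]; simpa using h0
  have e : a ^ q = a ^ (q - 1) * a := by rw [← Real.rpow_add_one h.ne', sub_add_cancel]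
  have h1 : 0 < a ^ (q - 1) := by positivity
  by_cases hb : -a ≤ b
  · have h2 := one_add_mul_self_le_rpow_one_add (s := b / a)
      (by rw [le_div_iff₀ h]; linarith) hq.le
    rw [one_add_div h.ne', Real.div_rpow (by linarith) ha, le_div_iff₀ (by positivity)] at h2
    rw [abs_of_nonneg (by linarith)]
    refine le_trans (le_of_eq ?_) h2
    rw [e]; field_simp
  · push Not at hb
    have : a + q * b ≤ 0 := by nlinarith
    rw [e]; nlinarith

namespace DS

variable {D : DS μ H q}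

/-- Mass of `|h|^q` on a set. -/
noncomputable def m (D : DS μ H q) (A : Set Z) (h : H) : ℝ := ∫ z in A, |D.j h z| ^ q ∂μ

lemma m_univ (D : DS μ H q) (h : H) : D.m univ h = ∫ z, |D.j h z| ^ q ∂μ := by
  rw [m, Measure.restrict_univ]

lemma m_nonneg (D : DS μ H q) (A : Set Z) (h : H) : 0 ≤ D.m A h :=
  integral_nonneg fun _ => Real.rpow_nonneg (abs_nonneg _) _

lemma m_le (D : DS μ H q) (A : Set Z) (h : H) : D.m A h ≤ ∫ z, |D.j h z| ^ q ∂μ :=
  setIntegral_le_integral (D.intq _) (ae_of_all _ fun _ => Real.rpow_nonneg (abs_nonneg _) _)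

lemma m_smul (D : DS μ H q) (A : Set Z) {c : ℝ} (hc : 0 ≤ c) (h : H) :
    D.m A (c • h) = c ^ q * D.m A h := by
  rw [m, m, ← integral_const_mul]
  refine integral_congr_ae (ae_restrict_of_ae ?_)
  filter_upwards [D.j_smul c h] with z hz
  rw [hz, abs_mul, abs_of_nonneg hc, Real.mul_rpow hc (abs_nonneg _)]

lemma normalize (D : DS μ H q) {h : H} (ha : 0 < D.m univ h) : ∃ g, D.m univ g = 1 ∧
    D.m univ h ^ (2 / q) * ‖g‖ ^ 2 = ‖h‖ ^ 2 ∧ (∀ A, D.m A g = D.m A h / D.m univ h) ∧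
    ∃ c : ℝ, g = c • h := by
  have q0 : 0 < q := by linarith [D.hq]
  set a := D.m univ h
  have e : (a ^ (-1 / q)) ^ q = a⁻¹ := by
    rw [← Real.rpow_mul ha.le, ← Real.rpow_neg_one]; congr 1; field_simp
  have hA : ∀ A, D.m A (a ^ (-1 / q) • h) = D.m A h / a := fun A => by
    rw [D.m_smul A (by positivity), e]; field_simp
  refine ⟨a ^ (-1 / q) • h, by rw [hA, div_self ha.ne'], ?_, hA, _, rfl⟩
  rw [norm_smul, Real.norm_of_nonneg (by positivity), mul_pow, ← mul_assoc, ← Real.rpow_natCast,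
    ← Real.rpow_mul ha.le, ← Real.rpow_add ha]
  have : 2 / q + -1 / q * ((2:ℕ):ℝ) = 0 := by push_cast; ring
  rw [this, Real.rpow_zero, one_mul]

/-- The first eigenvalue. -/
noncomputable def lam (D : DS μ H q) : ℝ := sInf {t | ∃ h, D.m univ h = 1 ∧ t = ‖h‖ ^ 2}

lemma lam_nonneg (D : DS μ H q) : 0 ≤ D.lam :=
  Real.sInf_nonneg fun _ ⟨_, _, e⟩ => e ▸ sq_nonneg _

lemma lam_le (D : DS μ H q) {h : H} (hh : D.m univ h = 1) : D.lam ≤ ‖h‖ ^ 2 :=
  csInf_le ⟨0, fun _ ⟨_, _, e⟩ => e ▸ sq_nonneg _⟩ ⟨h, hh, rfl⟩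

lemma lam_pos (D : DS μ H q) {h : H} (hh : D.m univ h = 1) : 0 < D.lam := by
  have hC := D.hC
  refine lt_of_lt_of_le (by positivity : 0 < 1 / D.C ^ 2) (le_csInf ⟨_, h, hh, rfl⟩ ?_)
  rintro _ ⟨g, hg, rfl⟩
  exact D.low (by rwa [← m_univ])

lemma lam_mul (D : DS μ H q) (h : H) : D.lam * D.m univ h ^ (2 / q) ≤ ‖h‖ ^ 2 := by
  rcases (D.m_nonneg univ h).eq_or_lt with h0 | h0
  · have : 0 < q := by linarith [D.hq]
    rw [← h0, Real.zero_rpow (by positivity), mul_zero]; positivity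
  · obtain ⟨g, g1, g2, -⟩ := D.normalize h0
    rw [← g2, mul_comm]
    exact mul_le_mul_of_nonneg_left (D.lam_le g1) (by positivity)

/-- Normalised eigenfunction. -/
structure Eig (D : DS μ H q) (u : H) (l : ℝ) : Prop where
  one : D.m univ u = 1
  src : D.Src u fun z => l * (|D.j u z| ^ (q - 2) * D.j u z)

lemma m_neg (D : DS μ H q) (A : Set Z) (h : H) : D.m A (-h) = D.m A h :=
  integral_congr_ae (ae_restrict_of_ae ((D.j_neg h).mono fun z hz => by simp only [hz, abs_neg]))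

lemma Eig.neg {u : H} {l : ℝ} (h : D.Eig u l) : D.Eig (-u) l :=
  ⟨by rw [m_neg, h.one], h.src.neg.congr ((D.j_neg u).mono fun z hz => by
    simp only [hz, abs_neg, mul_neg])⟩

lemma pw_eq {a : ℝ} (hq : 2 < q) (ha : 0 ≤ a) : |a| ^ (q - 2) * a = a ^ (q - 1) := by
  rw [abs_of_nonneg ha, ← Real.rpow_add_one' ha (by linarith)]; congr 1; ring

lemma Eig.pos {u : H} {l : ℝ} (h : D.Eig u l) (h0 : ∀ᵐ z ∂μ, 0 ≤ D.j u z) : D.Pos u l :=
  ⟨h0, by rw [← m_univ, h.one], h.src.congr (h0.mono fun z hz => by simp only [pw_eq D.hq hz])⟩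

lemma Pos.eig {u : H} {l : ℝ} (h : D.Pos u l) : D.Eig u l :=
  ⟨by rw [m_univ, h.one], h.src.congr (h.nn.mono fun z hz => by simp only [pw_eq D.hq hz])⟩

lemma Eig.eq {u : H} {l : ℝ} (h : D.Eig u l) : ‖u‖ ^ 2 = l := by
  have e : l = ∫ z, l * |D.j u z| ^ q ∂μ := by rw [integral_const_mul, ← m_univ, h.one, mul_one]
  rw [← real_inner_self_eq_norm_sq, (h.src u).2]
  refine (integral_congr_ae (ae_of_all _ fun z => ?_)).trans e.symm
  have := pw_eq D.hq (abs_nonneg (D.j u z))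
  rw [abs_abs] at this
  simp only
  rw [mul_assoc, mul_assoc, ← abs_mul_abs_self, ← mul_assoc (|D.j u z| ^ (q - 2)), this,
    ← Real.rpow_add_one' (abs_nonneg _) (by linarith [D.hq]), sub_add_cancel]

/-- Mass of the positive part. -/
noncomputable def mp (D : DS μ H q) (h : H) : ℝ := ∫ z, max (D.j h z) 0 ^ q ∂μ

lemma mp_int (D : DS μ H q) (h : H) : Integrable (fun z => max (D.j h z) 0 ^ q) μ := by
  simpa using (trunc_int (D.meas h) (by linarith [D.hq]) le_rfl (D.intq h)).1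

lemma mp_nonneg (D : DS μ H q) (h : H) : 0 ≤ D.mp h :=
  integral_nonneg fun _ => Real.rpow_nonneg (le_max_right _ _) _

lemma mp_add (D : DS μ H q) (h : H) : D.mp h + D.mp (-h) = D.m univ h := by
  rw [mp, mp, m_univ, ← integral_add (D.mp_int _) (D.mp_int _)]
  refine integral_congr_ae ?_
  have q0 : q ≠ 0 := by linarith [D.hq]
  filter_upwards [D.j_neg h] with z hz
  rw [hz]
  rcases le_total 0 (D.j h z) with h1 | h1
  · rw [max_eq_left h1, max_eq_right (by linarith), abs_of_nonneg h1, Real.zero_rpow q0, add_zero]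
  · rw [max_eq_right h1, max_eq_left (by linarith), abs_of_nonpos h1, Real.zero_rpow q0, zero_add]

lemma trunc0 (D : DS μ H q) (h : H) : ∃ w, (∀ᵐ z ∂μ, D.j w z = max (D.j h z) 0) ∧
    ‖w‖ ^ 2 ≤ ⟪h, w⟫ ∧ D.m univ w = D.mp h ∧ D.m univ (w - h) = D.mp (-h) := by
  obtain ⟨w, h1, h2⟩ := D.trunc h 0 le_rfl
  simp only [sub_zero] at h1
  refine ⟨w, h1, h2, ?_, ?_⟩
  · rw [m_univ]
    refine integral_congr_ae (h1.mono fun z hz => ?_)
    simp only [hz, abs_of_nonneg (le_max_right (D.j h z) 0)]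
  · rw [m_univ]
    refine integral_congr_ae ?_
    filter_upwards [h1, D.j_sub w h, D.j_neg h] with z a1 a2 a3
    rw [a2, a1, a3]
    rcases le_total 0 (D.j h z) with h1 | h1
    · rw [max_eq_left h1, max_eq_right (by linarith), sub_self, abs_zero]
    · rw [max_eq_right h1, max_eq_left (by linarith), zero_sub, abs_of_nonneg (by linarith)]

lemma Eig.alt {u : H} {l : ℝ} (h : D.Eig u l) (hl : l < 2 ^ (1 - 2 / q) * D.lam) :
    D.mp u ≤ 0 ∨ 1 / 2 < D.mp u := by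
  by_contra hc
  push Not at hc
  obtain ⟨a0, a1⟩ := hc
  have q2 := D.hq
  obtain ⟨w, h1, h2, h3, -⟩ := D.trunc0 u
  have b1 := D.lam_mul w
  have b2 : ⟪u, w⟫ = l * D.mp u := by
    rw [(h.src w).2, mp, ← integral_const_mul]
    refine integral_congr_ae (h1.mono fun z hz => ?_)
    simp only [hz]
    rcases le_total 0 (D.j u z) with h1 | h1
    · rw [max_eq_left h1, pw_eq q2 h1, mul_assoc, ← Real.rpow_add_one' h1 (by linarith),
        sub_add_cancel]
    · rw [max_eq_right h1, Real.zero_rpow (by linarith)]; simp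
  rw [h3] at b1
  set a := D.mp u
  have e0 : 0 ≤ 1 - 2 / q := by rw [sub_nonneg, div_le_one (by linarith)]; exact q2.le
  have b3 : 2 ^ (1 - 2 / q) * a ≤ a ^ (2 / q) := by
    have e : a = a ^ (1 - 2 / q) * a ^ (2 / q) := by
      rw [← Real.rpow_add a0, sub_add_cancel, Real.rpow_one]
    have : 2 ^ (1 - 2 / q) * a ^ (1 - 2 / q) ≤ 1 := by
      rw [← Real.mul_rpow (by norm_num) a0.le]
      exact Real.rpow_le_one (by positivity) (by linarith) e0
    calc 2 ^ (1 - 2 / q) * a = 2 ^ (1 - 2 / q) * a ^ (1 - 2 / q) * a ^ (2 / q) := by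
          rw [mul_assoc, ← e]
      _ ≤ 1 * a ^ (2 / q) := by gcongr
      _ = _ := one_mul _
  have b4 := mul_le_mul_of_nonneg_left b3 D.lam_nonneg
  nlinarith

lemma Eig.sign {u : H} {l : ℝ} (h : D.Eig u l) (hl : l < 2 ^ (1 - 2 / q) * D.lam) :
    ∃ v, D.Pos v l := by
  have e := D.mp_add u
  rw [h.one] at e
  rcases h.alt hl with a | a
  · refine ⟨-u, h.neg.pos ?_⟩
    filter_upwards [pos_zero (D.mp_int u) a, D.j_neg u] with z b1 b2
    linarith
  rcases h.neg.alt hl with b | b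
  · refine ⟨u, h.pos ?_⟩
    filter_upwards [pos_zero (D.mp_int (-u)) b, D.j_neg u] with z b1 b2
    linarith
  · linarith

lemma two_lt (D : DS μ H q) : (1:ℝ) < 2 ^ (1 - 2 / q) :=
  Real.one_lt_rpow (by norm_num) (by
    rw [sub_pos, div_lt_one (by linarith [D.hq])]; exact D.hq)

theorem isolated [CompleteSpace H] (D : DS μ H q) :
    ∃ ε, 0 < ε ∧ ∀ u l, D.Eig u l → l < D.lam + ε → l = D.lam := by
  by_cases hex : ∃ h, D.m univ h = 1
  swap
  · exact ⟨1, one_pos, fun u l h _ => absurd ⟨u, h.one⟩ hex⟩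
  obtain ⟨h0, hh0⟩ := hex
  have l0 := D.lam_pos hh0
  have t1 := D.two_lt
  have hf := ((D.finite_pos (2 ^ (1 - 2 / q) * D.lam)).subset
    (diff_subset (t := {D.lam}))).isClosed.isOpen_compl
  obtain ⟨ε, ε0, hε⟩ := Metric.isOpen_iff.1 hf D.lam (by simp)
  refine ⟨min ε ((2 ^ (1 - 2 / q) - 1) * D.lam), lt_min ε0 (by nlinarith), fun u l h hl => ?_⟩
  have a1 : l < 2 ^ (1 - 2 / q) * D.lam := by
    linarith [min_le_right ε ((2 ^ (1 - 2 / q) - 1) * D.lam)]
  have a2 := D.lam_le h.one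
  rw [h.eq] at a2
  by_contra hne
  refine hε (a := l) ?_ ⟨⟨a1.le, h.sign a1⟩, hne⟩
  rw [Metric.mem_ball, Real.dist_eq, abs_of_nonneg (by linarith)]
  linarith [min_le_left ε ((2 ^ (1 - 2 / q) - 1) * D.lam)]

lemma split_low (D : DS μ H q) {h : H} (h1 : D.m univ h = 1) (h2 : D.mp h = D.mp (-h)) :
    2 ^ (1 - 2 / q) * D.lam ≤ ‖h‖ ^ 2 := by
  have e := D.mp_add h
  obtain ⟨w, -, a2, a3, a4⟩ := D.trunc0 h
  have b1 := D.lam_mul w
  have b2 := D.lam_mul (w - h)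
  rw [a3, show D.mp h = 1 / 2 by linarith] at b1
  rw [a4, show D.mp (-h) = 1 / 2 by linarith, norm_sub_sq_real, real_inner_comm] at b2
  have e2 : (2:ℝ) ^ (1 - 2 / q) = 2 * (1 / 2) ^ (2 / q) := by
    rw [Real.rpow_sub (by norm_num), Real.rpow_one, Real.div_rpow (by norm_num) (by norm_num),
      Real.one_rpow]; ring
  rw [e2]; linarith

lemma mp_cont (D : DS μ H q) : Continuous D.mp := by
  refine continuous_iff_continuousAt.2 fun u => ?_
  refine tend_of_eps (D.tend_q (F := 𝓝 u) (h := id) tendsto_id) (D.mp_nonneg u) fun ε hε => ?_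
  obtain ⟨C, -, hC⟩ := int_pert (Z := Z) (by linarith [D.hq] : 0 < q) hε
  refine ⟨C, fun h => hC μ _ _ _ (D.mp_int h) (D.mp_int u) (D.intq _) ?_⟩
  filter_upwards [D.j_sub h u] with z hz
  refine ⟨le_max_right _ _, le_max_right _ _, ?_⟩
  rw [id, hz]; exact abs_max_sub_max_le_abs _ _ _

lemma m_cont (D : DS μ H q) (A : Set Z) : Continuous (D.m A) :=
  continuous_iff_continuousAt.2 fun u => D.tend_set A (D.tend_q (F := 𝓝 u) (h := id) tendsto_id)

lemma exists_min [CompleteSpace H] (D : DS μ H q) (A : Set Z) {P : ℝ → ℝ} (hP : Continuous P)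
    (P0 : ∀ t, 0 ≤ P t) {h0 : H} (hh0 : D.m univ h0 = 1) : ∃ h, D.m univ h = 1 ∧
      ∀ g, D.m univ g = 1 → ‖h‖ ^ 2 + P (D.m A h) ≤ ‖g‖ ^ 2 + P (D.m A g) := by
  have q0 : 0 < q := by linarith [D.hq]
  set S := {t | ∃ h, D.m univ h = 1 ∧ t = ‖h‖ ^ 2 + P (D.m A h)} with hS
  have bdd : BddBelow S := ⟨0, fun _ ⟨h, _, e⟩ => e ▸ add_nonneg (sq_nonneg _) (P0 _)⟩
  have low : ∀ g, D.m univ g = 1 → sInf S ≤ ‖g‖ ^ 2 + P (D.m A g) := fun g hg =>
    csInf_le bdd ⟨g, hg, rfl⟩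
  obtain ⟨t, -, ht, hts⟩ := exists_seq_tendsto_sInf (S := S) ⟨_, h0, hh0, rfl⟩ bdd
  choose x hx hxt using hts
  obtain ⟨R, hR⟩ := ht.bddAbove_range
  obtain ⟨φ, hφ, hc⟩ := D.cpt x (R + 1) fun n => by
    have : t n ≤ R := hR ⟨n, rfl⟩
    nlinarith [hxt n, P0 (D.m A (x n)), norm_nonneg (x n)]
  obtain ⟨a, -, ψ, hψ, ha⟩ := (isCompact_Icc (a := (0:ℝ)) (b := 1)).tendsto_subseq
    (x := fun n => D.m A (x (φ n))) fun n =>
      ⟨D.m_nonneg _ _, (D.m_le _ _).trans (by rw [← m_univ, hx])⟩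
  set y : ℕ → H := fun n => x (φ (ψ n)) with hy
  have y1 : ∀ n, D.m univ (y n) = 1 := fun n => hx _
  have ya : Tendsto (fun n => D.m A (y n)) atTop (𝓝 a) := ha
  have yn : Tendsto (fun n => ‖y n‖ ^ 2) atTop (𝓝 (sInf S - P a)) := by
    refine ((ht.comp (hφ.comp hψ).tendsto_atTop).sub ((hP.tendsto a).comp ya)).congr fun n => ?_
    simp only [Function.comp_apply, hxt, hy]; ring
  let g : ℕ × ℕ → H := fun p => (1 / 2 : ℝ) • (y p.1 + y p.2)
  have f1 : Tendsto (fun p : ℕ × ℕ => p.1) atTop atTop := by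
    rw [← prod_atTop_atTop_eq]; exact tendsto_fst
  have f2 : Tendsto (fun p : ℕ × ℕ => p.2) atTop atTop := by
    rw [← prod_atTop_atTop_eq]; exact tendsto_snd
  have d0 : Tendsto (fun p : ℕ × ℕ => ∫ z, |D.j (y p.1 - y p.2) z| ^ q ∂μ) atTop (𝓝 0) := by
    refine Metric.tendsto_nhds.2 fun ε hε => ?_
    obtain ⟨n0, hn0⟩ := hc (ε / 2) (half_pos hε)
    filter_upwards [(hψ.tendsto_atTop.comp f1).eventually_ge_atTop n0,
      (hψ.tendsto_atTop.comp f2).eventually_ge_atTop n0] with p p1 p2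
    rw [Real.dist_eq, sub_zero, abs_of_nonneg
      (integral_nonneg fun z => Real.rpow_nonneg (abs_nonneg _) _)]
    exact (hn0 _ p1 _ p2).trans_lt (half_lt_self hε)
  have gm : ∀ B, Tendsto (fun p => D.m B (g p) - D.m B (y p.1)) atTop (𝓝 0) := fun B => by
    refine tend_of_eps d0 zero_le_one fun ε hε => ?_
    obtain ⟨C, C0, hC⟩ := int_pert (Z := Z) q0 hε
    refine ⟨C, fun p => ?_⟩
    rw [sub_zero]
    refine (hC (μ.restrict B) _ _ (D.j (y p.1 - y p.2)) (D.intq _).restrict (D.intq _).restrict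
      (D.intq _).restrict (ae_restrict_of_ae ?_)).trans (add_le_add ?_ ?_)
    · filter_upwards [D.j_smul (1 / 2) (y p.1 + y p.2), D.j_add (y p.1) (y p.2),
        D.j_sub (y p.1) (y p.2)] with z b1 b2 b3
      refine ⟨abs_nonneg _, abs_nonneg _, (abs_abs_sub_abs_le_abs_sub _ _).trans ?_⟩
      simp only [g]
      rw [b1, b2, b3, show 1 / 2 * (D.j (y p.1) z + D.j (y p.2) z) - D.j (y p.1) z =
        -(1 / 2) * (D.j (y p.1) z - D.j (y p.2) z) by ring, abs_mul, abs_neg]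
      norm_num; linarith [abs_nonneg (D.j (y p.1) z - D.j (y p.2) z)]
    · exact mul_le_mul_of_nonneg_left ((D.m_le B _).trans (by rw [← m_univ, y1])) hε.le
    · exact mul_le_mul_of_nonneg_left (D.m_le B _) C0
  have g1 : Tendsto (fun p => D.m univ (g p)) atTop (𝓝 1) := by
    have := (gm univ).add_const 1
    simpa [y1] using this
  have ga : Tendsto (fun p => D.m A (g p)) atTop (𝓝 a) := by
    have := (gm A).add (ya.comp f1)
    simpa using this
  have gl : Tendsto (fun p => D.m univ (g p) ^ (2 / q) *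
      (sInf S - P (D.m A (g p) / D.m univ (g p)))) atTop (𝓝 (sInf S - P a)) := by
    have := (g1.rpow_const (p := 2 / q) (Or.inl one_ne_zero)).mul
      (((hP.tendsto _).comp (ga.div g1 one_ne_zero)).const_sub (sInf S))
    simpa using this
  have hcau : CauchySeq y := by
    rw [cauchySeq_iff_tendsto_dist_atTop_0]
    have hsq : Tendsto (fun p : ℕ × ℕ => dist (y p.1) (y p.2) ^ 2) atTop (𝓝 0) := by
      have lim := (((yn.comp f1).const_mul 2).add ((yn.comp f2).const_mul 2)).sub (gl.const_mul 4)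
      rw [show 2 * (sInf S - P a) + 2 * (sInf S - P a) - 4 * (sInf S - P a) = 0 by ring] at lim
      refine squeeze_zero' (Eventually.of_forall fun _ => sq_nonneg _) ?_ lim
      filter_upwards [g1.eventually_const_lt zero_lt_one] with p hp
      obtain ⟨k, k1, k2, k3, -⟩ := D.normalize hp
      have b1 := low k k1
      rw [k3] at b1
      have b2 : D.m univ (g p) ^ (2 / q) * (sInf S - P (D.m A (g p) / D.m univ (g p))) ≤
          ‖g p‖ ^ 2 := by
        rw [← k2]; exact mul_le_mul_of_nonneg_left (by linarith) (by positivity)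
      have b3 : 4 * ‖g p‖ ^ 2 = ‖y p.1 + y p.2‖ ^ 2 := by
        simp only [g]; rw [norm_smul, Real.norm_of_nonneg (by norm_num)]; ring
      have b4 := parallelogram_law_with_norm ℝ (y p.1) (y p.2)
      simp only [Function.comp_apply, dist_eq_norm]
      nlinarith
    have := hsq.sqrt
    simpa [Real.sqrt_sq dist_nonneg] using this
  obtain ⟨h, hh⟩ := cauchySeq_tendsto_of_complete hcau
  have c1 : D.m univ h = 1 := tendsto_nhds_unique (((D.m_cont univ).tendsto h).comp hh)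
    (tendsto_const_nhds.congr fun n => (y1 n).symm)
  have c2 : D.m A h = a := tendsto_nhds_unique (((D.m_cont A).tendsto h).comp hh) ya
  have c3 : ‖h‖ ^ 2 = sInf S - P a := tendsto_nhds_unique (hh.norm.pow 2) yn
  refine ⟨h, c1, fun k hk => ?_⟩
  rw [c2, c3, sub_add_cancel]; exact low k hk

lemma abs_rep (D : DS μ H q) (h : H) : ∃ g, (∀ᵐ z ∂μ, 0 ≤ D.j g z) ∧ ‖g‖ ^ 2 ≤ ‖h‖ ^ 2 ∧
    ∀ A, D.m A g = D.m A h := by
  obtain ⟨w, a1, a2, -⟩ := D.trunc0 h
  have e : ∀ᵐ z ∂μ, D.j ((2:ℝ) • w - h) z = |D.j h z| := by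
    filter_upwards [a1, D.j_sub ((2:ℝ) • w) h, D.j_smul 2 w] with z b1 b2 b3
    rw [b2, b3, b1]
    rcases le_total 0 (D.j h z) with h1 | h1
    · rw [max_eq_left h1, abs_of_nonneg h1]; ring
    · rw [max_eq_right h1, abs_of_nonpos h1]; ring
  refine ⟨(2:ℝ) • w - h, e.mono fun z hz => hz ▸ abs_nonneg _, ?_, fun A =>
    integral_congr_ae (ae_restrict_of_ae (e.mono fun z hz => by simp only [hz, abs_abs]))⟩
  rw [norm_sub_sq_real, norm_smul, real_inner_smul_left, real_inner_comm, Real.norm_two]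
  linarith

lemma euler (D : DS μ H q) {A : Set Z} {θ : ℝ} {h : H} (h0 : ∀ᵐ z ∂μ, 0 ≤ D.j h z)
    (h1 : D.m univ h = 1) (h2 : D.m A h < θ)
    (hmin : ∀ g, D.m univ g = 1 → D.m A g < θ → ‖h‖ ^ 2 ≤ ‖g‖ ^ 2) : D.Pos h (‖h‖ ^ 2) := by
  have q2 := D.hq
  have q0 : 0 < q := by linarith
  have one : ∫ z, |D.j h z| ^ q ∂μ = 1 := by rw [← m_univ, h1]
  refine ⟨h0, one, fun φ => ?_⟩
  have pi : Integrable (fun z => D.j h z ^ (q - 1) * D.j φ z) μ :=
    (D.pair (A := 1) ((D.meas _).pow_const _).aestronglyMeasurable (D.meas h) (D.intq _)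
      zero_le_one zero_le_one (by simp [one]) (h0.mono fun z hz => by
        rw [abs_of_nonneg hz, abs_of_nonneg (Real.rpow_nonneg hz _), one_mul]) φ).1
  simp only [mul_assoc]
  refine ⟨pi.const_mul _, ?_⟩
  rw [integral_const_mul]
  set I := ∫ z, D.j h z ^ (q - 1) * D.j φ z ∂μ with hI
  have c0 : Tendsto (fun t : ℝ => h + t • φ) (𝓝 0) (𝓝 h) := by
    have : Continuous fun t : ℝ => h + t • φ := by fun_prop
    simpa using this.tendsto 0
  have c1 := ((D.m_cont univ).tendsto h).comp c0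
  have c2 := (((D.m_cont A).tendsto h).comp c0).div c1 (by rw [h1]; exact one_ne_zero)
  rw [h1] at c1
  rw [h1, div_one] at c2
  have c3 : Tendsto (fun t : ℝ => 1 + q * (t * I)) (𝓝 0) (𝓝 1) := by
    have : Continuous fun t : ℝ => 1 + q * (t * I) := by fun_prop
    simpa using this.tendsto 0
  have hm : IsLocalMin (fun t : ℝ => ‖h‖ ^ 2 + 2 * (t * ⟪h, φ⟫) + t ^ 2 * ‖φ‖ ^ 2 -
      ‖h‖ ^ 2 * (1 + q * (t * I)) ^ (2 / q)) 0 := by
    filter_upwards [c1.eventually_const_lt zero_lt_one, c2.eventually_lt_const h2,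
      c3.eventually_const_lt zero_lt_one] with t t1 t2 t3
    simp only [Function.comp_apply, Pi.div_apply] at t1 t2
    obtain ⟨k, k1, k2, k3, -⟩ := D.normalize t1
    have b1 := hmin k k1 (by rw [k3]; exact t2)
    have b2 : 1 + q * (t * I) ≤ D.m univ (h + t • φ) := by
      have i1 : Integrable (fun z => D.j h z ^ q) μ :=
        (D.intq h).congr (h0.mono fun z hz => by simp only [abs_of_nonneg hz])
      have i2 : ∫ z, D.j h z ^ q ∂μ = 1 :=
        (integral_congr_ae (h0.mono fun z hz => by simp only [abs_of_nonneg hz])).trans one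
      rw [m_univ, ← i2, hI, ← integral_const_mul, ← integral_const_mul,
        ← integral_add i1 ((pi.const_mul t).const_mul q)]
      refine integral_mono_ae (i1.add ((pi.const_mul t).const_mul q)) (D.intq _) ?_
      filter_upwards [h0, D.j_add h (t • φ), D.j_smul t φ] with z a1 a2 a3
      rw [a2, a3, mul_left_comm t]
      exact tangent (by linarith) a1
    have b3 := Real.rpow_le_rpow t3.le b2 (by positivity : 0 ≤ 2 / q)
    have b4 : ‖h + t • φ‖ ^ 2 = ‖h‖ ^ 2 + 2 * (t * ⟪h, φ⟫) + t ^ 2 * ‖φ‖ ^ 2 := by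
      rw [norm_add_sq_real, real_inner_smul_right, norm_smul, mul_pow, Real.norm_eq_abs, sq_abs]
    have b5 := mul_le_mul b3 b1 (sq_nonneg _) (by positivity)
    simp only [zero_mul, mul_zero, add_zero, Real.one_rpow, mul_one, sub_self, ne_eq,
      OfNat.ofNat_ne_zero, not_false_eq_true, zero_pow]
    linarith
  have hd : HasDerivAt (fun t : ℝ => ‖h‖ ^ 2 + 2 * (t * ⟪h, φ⟫) + t ^ 2 * ‖φ‖ ^ 2 -
      ‖h‖ ^ 2 * (1 + q * (t * I)) ^ (2 / q)) (2 * ⟪h, φ⟫ - ‖h‖ ^ 2 * (2 * I)) 0 := by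
    have a1 := ((((hasDerivAt_id (0:ℝ)).mul_const I).const_mul q).const_add 1).rpow_const
      (p := 2 / q) (Or.inl (by simp))
    have a2 := ((((hasDerivAt_id (0:ℝ)).mul_const ⟪h, φ⟫).const_mul 2).const_add (‖h‖ ^ 2)).add
      (((hasDerivAt_id (0:ℝ)).pow 2).mul_const (‖φ‖ ^ 2))
    refine (a2.sub (a1.const_mul (‖h‖ ^ 2))).congr_deriv ?_
    simp; field_simp; simp
  have := hm.hasDerivAt_eq_zero hd
  linarith

theorem local_min [CompleteSpace H] (D : DS μ H q) (A : Set Z) {θ : ℝ} (θ0 : 0 < θ) {h0 : H}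
    (a1 : D.m univ h0 = 1) (a2 : D.m A h0 ≤ θ)
    (gap : ∀ g, D.m univ g = 1 → θ ≤ D.m A g → D.m A g ≤ 2 * θ → ‖h0‖ ^ 2 < ‖g‖ ^ 2) :
    ∃ h, D.Pos h (‖h‖ ^ 2) ∧ D.m A h < θ ∧
      ∀ g, D.m univ g = 1 → D.m A g < θ → ‖h‖ ^ 2 ≤ ‖g‖ ^ 2 := by
  obtain ⟨h, b1, b2⟩ := D.exists_min A (P := fun t => (‖h0‖ ^ 2 + 1) / θ * max (t - θ) 0)
    (by fun_prop) (fun t => mul_nonneg (by positivity) (le_max_right _ _)) a1
  have b3 := b2 h0 a1
  rw [max_eq_right (sub_nonpos.2 a2), mul_zero, add_zero] at b3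
  have P0 : 0 ≤ (‖h0‖ ^ 2 + 1) / θ * max (D.m A h - θ) 0 :=
    mul_nonneg (by positivity) (le_max_right _ _)
  have b4 : D.m A h < θ := by
    by_contra hc
    push Not at hc
    by_cases h2 : D.m A h ≤ 2 * θ
    · linarith [gap h b1 hc h2]
    · have : (‖h0‖ ^ 2 + 1) / θ * θ ≤ (‖h0‖ ^ 2 + 1) / θ * max (D.m A h - θ) 0 :=
        mul_le_mul_of_nonneg_left (le_max_of_le_left (by linarith)) (by positivity)
      rw [div_mul_cancel₀ _ θ0.ne'] at this
      linarith [sq_nonneg ‖h‖]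
  obtain ⟨g, g0, g1, g2⟩ := D.abs_rep h
  have b5 : ∀ k, D.m univ k = 1 → D.m A k < θ → ‖g‖ ^ 2 ≤ ‖k‖ ^ 2 := fun k k1 k2 => by
    have := b2 k k1
    rw [max_eq_right (sub_nonpos.2 k2.le), mul_zero, add_zero] at this
    linarith
  exact ⟨g, D.euler g0 (by rw [g2, b1]) (by rw [g2]; exact b4) b5, by rw [g2]; exact b4, b5⟩

end DS

end Pool.Agent.H27.Iso
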