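import Mathlib

set_option autoImplicit false

namespace Pool.Agent.H27.Kap

open Filter Topology

abbrev H (G : Type) : Type := lp (fun _ : G => ℂ) 2

variable {G : Type}

theorem summ (v : H G) : Summable fun g => ‖v g‖ ^ 2 := by
  have := (lp.memℓp v).summable (by norm_num)
  simpa using this

theorem norm_sq (v : H G) : ‖v‖ ^ 2 = ∑' g, ‖v g‖ ^ 2 := by
  have := lp.norm_rpow_eq_tsum (p := 2) (by norm_num) v
  simpa using this

noncomputable def perm0 (e : G ≃ G) (v : H G) : H G :=
  ⟨fun g => v (e g), memℓp_gen (by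
    have := e.summable_iff.2 (summ v)
    simpa [Function.comp_def] using this)⟩

theorem perm0_norm (e : G ≃ G) (v : H G) : ‖perm0 e v‖ = ‖v‖ := by
  have : ‖perm0 e v‖ ^ 2 = ‖v‖ ^ 2 := by
    rw [norm_sq, norm_sq]
    exact e.tsum_eq fun g => ‖v g‖ ^ 2
  exact (sq_eq_sq₀ (norm_nonneg _) (norm_nonneg _)).1 this

noncomputable def perm (e : G ≃ G) : H G →L[ℂ] H G :=
  LinearMap.mkContinuous
    { toFun := perm0 e
      map_add' := fun _ _ => rfl
      map_smul' := fun _ _ => rfl } 1 fun v => by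
    rw [one_mul]; exact (perm0_norm e v).le

theorem perm_apply (e : G ≃ G) (v : H G) (g : G) : perm e v g = v (e g) := rfl

theorem perm_norm_le (e : G ≃ G) : ‖perm e‖ ≤ 1 :=
  LinearMap.mkContinuous_norm_le _ zero_le_one _

theorem perm_inner (e : G ≃ G) (v w : H G) : inner ℂ (perm e v) (perm e w) = inner ℂ v w := by
  rw [lp.inner_eq_tsum, lp.inner_eq_tsum]
  exact e.tsum_eq fun g => inner ℂ (v g) (w g)

noncomputable def ev (g : G) : H G →L[ℂ] ℂ := lp.evalCLM ℂ (fun _ : G => ℂ) 2 g

theorem ev_apply (g : G) (v : H G) : ev g v = v g := rfl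

variable [Group G]

noncomputable def lam (h : G) : H G →L[ℂ] H G := perm (Equiv.mulLeft h⁻¹)
noncomputable def rho (k : G) : H G →L[ℂ] H G := perm (Equiv.mulRight k⁻¹)

theorem lam_apply (h : G) (v : H G) (g : G) : lam h v g = v (h⁻¹ * g) := rfl
theorem rho_apply (k : G) (v : H G) (g : G) : rho k v g = v (g * k⁻¹) := rfl

theorem rho_rho_inv (k : G) (v : H G) : rho k (rho k⁻¹ v) = v := by
  ext g; simp [rho_apply]

/-- commuting with all right translations -/
def Cm (X : H G →L[ℂ] H G) : Prop := ∀ k, Commute (rho k) X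

theorem cm_lam (h : G) : Cm (lam h) := fun k => by
  ext v g
  simp [rho_apply, lam_apply, mul_assoc]

theorem Cm.mul {X Y : H G →L[ℂ] H G} (hX : Cm X) (hY : Cm Y) : Cm (X * Y) :=
  fun k => (hX k).mul_right (hY k)

theorem Cm.sub {X Y : H G →L[ℂ] H G} (hX : Cm X) (hY : Cm Y) : Cm (X - Y) :=
  fun k => (hX k).sub_right (hY k)

theorem cm_one : Cm (1 : H G →L[ℂ] H G) := fun _ => Commute.one_right _

theorem Cm.app {X : H G →L[ℂ] H G} (hX : Cm X) (k : G) (v : H G) : X (rho k v) = rho k (X v) :=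
  (DFunLike.congr_fun (hX k).eq v).symm

variable [DecidableEq G]

noncomputable def dl (g : G) : H G := lp.single 2 g 1

theorem dl_apply (g s : G) : dl g s = if s = g then 1 else 0 := by
  simp [dl, lp.single_apply, Pi.single_apply]

theorem rho_dl (k : G) : rho k (dl 1) = dl k := by
  ext g
  simp [rho_apply, dl_apply, mul_inv_eq_one]

theorem hasSum_dl (v : H G) : HasSum (fun g => v g • dl g) v := by
  have := lp.hasSum_single (E := fun _ : G => ℂ) (p := 2) (by norm_num) v
  convert this using 2 with g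
  rw [dl, ← lp.single_smul]; simp

theorem Cm.eq_zero {X : H G →L[ℂ] H G} (hX : Cm X) (h : X (dl 1) = 0) : X = 0 := by
  ext1 v
  have h1 := X.hasSum (hasSum_dl v)
  have h2 : (fun g => X (v g • dl g)) = fun _ => 0 := by
    funext g
    rw [map_smul, ← rho_dl, hX.app, h]; simp
  rw [h2] at h1
  exact h1.unique hasSum_zero

theorem Cm.ext {X Y : H G →L[ℂ] H G} (hX : Cm X) (hY : Cm Y) (h : X (dl 1) = Y (dl 1)) : X = Y :=
  sub_eq_zero.1 ((hX.sub hY).eq_zero (by simp [h]))

theorem tr_mul {X Y : H G →L[ℂ] H G} (hX : Cm X) :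
    (X * Y) (dl 1) 1 = ∑' g, Y (dl 1) g * X (dl 1) g⁻¹ := by
  have h1 := ((ev 1).comp X).hasSum (hasSum_dl (Y (dl 1)))
  refine (HasSum.tsum_eq ?_).symm
  have h2 : (fun g => Y (dl 1) g * X (dl 1) g⁻¹) =
      fun g => ((ev 1).comp X) (Y (dl 1) g • dl g) := by
    funext g
    rw [ContinuousLinearMap.comp_apply, map_smul, ← rho_dl g, hX.app, map_smul, ev_apply, rho_apply]
    simp
  rw [h2]
  exact h1

theorem tr_comm {X Y : H G →L[ℂ] H G} (hX : Cm X) (hY : Cm Y) :
    (X * Y) (dl 1) 1 = (Y * X) (dl 1) 1 := by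
  rw [tr_mul hX, tr_mul hY, ← (Equiv.inv G).tsum_eq]
  simp [mul_comm]

/-- a right invertible operator commuting with right translations is injective -/
theorem inj_of_right_inv {T S : H G →L[ℂ] H G} (hT : Cm T) (hS : Cm S) (h : T * S = 1) {v : H G}
    (hv : T v = 0) : v = 0 := by
  let K : Submodule ℂ (H G) := T.ker
  haveI : CompleteSpace K := (T.isClosed_ker).completeSpace_coe
  let q : H G →L[ℂ] H G := K.starProjection
  have hK : ∀ k, ∀ w ∈ K, rho k w ∈ K := fun k w hw => by
    have : T w = 0 := hw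
    show T (rho k w) = 0
    rw [hT.app, this, map_zero]
  have hq : Cm q := fun k => by
    ext1 w
    symm
    refine Submodule.eq_starProjection_of_mem_of_inner_eq_zero
      (hK k _ (K.starProjection_apply_mem w)) fun z hz => ?_
    show inner ℂ (rho k w - rho k (q w)) z = 0
    rw [← map_sub, ← rho_rho_inv k z]
    exact (perm_inner _ _ _).trans (K.starProjection_inner_eq_zero w _ (hK _ _ hz))
  have hE : Cm (1 - S * T) := cm_one.sub (hS.mul hT)
  have e1 : q * (1 - S * T) = 1 - S * T := by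
    ext1 w
    refine Submodule.starProjection_eq_self_iff.2 ?_
    show T (w - S (T w)) = 0
    have : T (S (T w)) = T w := DFunLike.congr_fun h (T w)
    rw [map_sub, this, sub_self]
  have e2 : (1 - S * T) * q = q := by
    ext1 w
    have : T (q w) = 0 := K.starProjection_apply_mem w
    show q w - S (T (q w)) = q w
    rw [this]; simp
  have e3 : q (dl 1) 1 = 0 := by
    rw [← e2, ← tr_comm hq hE, e1]
    have := tr_comm hS hT
    rw [h] at this
    show dl (1 : G) 1 - (S * T) (dl 1) 1 = 0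
    rw [this]; simp
  have e4 : q (dl 1) = 0 := by
    have h1 := K.starProjection_inner_eq_zero (dl 1) _ (K.starProjection_apply_mem (dl 1))
    rw [inner_sub_left] at h1
    have h2 : inner ℂ (dl (1 : G)) (q (dl 1)) = q (dl 1) 1 := by
      rw [dl, lp.inner_single_left]; simp
    have h3 : inner ℂ (q (dl (1 : G))) (q (dl 1)) = 0 := by
      have := h2.trans e3
      rw [this, zero_sub, neg_eq_zero] at h1
      exact h1
    exact inner_self_eq_zero.1 h3
  have e5 := hq.eq_zero e4
  have : q v = v := Submodule.starProjection_eq_self_iff.2 hv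
  rw [← this, e5]; rfl

/-- left convolution by a summable function -/
noncomputable def cv (f : G → ℂ) : H G →L[ℂ] H G := ∑' h, f h • lam h

omit [DecidableEq G] in
theorem hasSum_cv {f : G → ℂ} (hf : Summable fun g => ‖f g‖) :
    HasSum (fun h => f h • lam h) (cv f) := by
  refine (Summable.of_norm_bounded hf fun h => ?_).hasSum
  rw [norm_smul]
  exact mul_le_of_le_one_right (norm_nonneg _) (perm_norm_le _)

omit [DecidableEq G] in
theorem cv_apply {f : G → ℂ} (hf : Summable fun g => ‖f g‖) (v : H G) (g : G) :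
    cv f v g = ∑' h, f h * v (h⁻¹ * g) :=
  (((ev g).comp (ContinuousLinearMap.apply ℂ (H G) v)).hasSum (hasSum_cv hf)).tsum_eq.symm

omit [DecidableEq G] in
theorem cm_cv {f : G → ℂ} (hf : Summable fun g => ‖f g‖) : Cm (cv f) := fun k => by
  ext v g
  show cv f v (g * k⁻¹) = cv f (rho k v) g
  rw [cv_apply hf, cv_apply hf]
  simp [rho_apply, mul_assoc]

theorem cv_dl {f : G → ℂ} (hf : Summable fun g => ‖f g‖) (g : G) : cv f (dl 1) g = f g := by
  rw [cv_apply hf, tsum_eq_single g]
  · simp [dl_apply]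
  · intro h hh
    have : h⁻¹ * g ≠ 1 := fun h2 => hh (inv_mul_eq_one.1 h2)
    simp [dl_apply, this]

omit [DecidableEq G] in
theorem tsum_conv {f u : G → ℂ} (hf : Summable fun g => ‖f g‖) (hu : Summable fun g => ‖u g‖)
    (h0 : ∑' g, f g = 0) : ∑' g, ∑' h, f h * u (h⁻¹ * g) = 0 := by
  have h1 := summable_mul_of_summable_norm hf hu
  let e : G × G ≃ G × G := (Equiv.refl G).prodShear fun h => Equiv.mulLeft h⁻¹
  have h2 : Summable (Function.uncurry fun h g => f h * u (h⁻¹ * g)) := e.summable_iff.2 h1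
  rw [h2.tsum_comm]
  have h3 : ∀ h, ∑' g, f h * u (h⁻¹ * g) = f h * ∑' g, u g := fun h => by
    rw [tsum_mul_left]
    congr 1
    exact (Equiv.mulLeft h⁻¹).tsum_eq u
  simp only [h3, tsum_mul_right, h0, zero_mul]

end Pool.Agent.H27.Kap
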