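import Mathlib
import Pool.Agent.H27.Kap1

set_option autoImplicit false

namespace Pool.Agent.H27.Kap

open Filter Topology FreeGroup

abbrev G : Type := FreeGroup ℕ

open Classical in
noncomputable def ind (b : Bool) (i : ℕ) (g : G) : ℝ := if g ∈ startsWith (i, b) then 1 else 0

theorem ind_nonneg (b : Bool) (i : ℕ) (g : G) : 0 ≤ ind b i g := by
  unfold ind; split_ifs <;> norm_num

theorem ind_le (b : Bool) (i : ℕ) (g : G) : ind b i g ≤ 1 := by
  unfold ind; split_ifs <;> norm_num

theorem sum_ind (b : Bool) (g : G) (s : Finset ℕ) : ∑ i ∈ s, ind b i g ≤ 1 := by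
  classical
  by_cases h : ∃ j, g ∈ startsWith (j, b)
  · obtain ⟨j, hj⟩ := h
    calc ∑ i ∈ s, ind b i g ≤ ∑ i ∈ s, if i = j then (1 : ℝ) else 0 := by
          refine Finset.sum_le_sum fun i _ => ?_
          by_cases hij : i = j
          · simp [hij, ind_le]
          · have : g ∉ startsWith (i, b) := fun hi =>
              Set.disjoint_left.1 (startsWith.disjoint_iff_ne.2 (by simp [hij])) hi hj
            simp [hij, ind, this]
      _ ≤ 1 := by
          rw [Finset.sum_ite_eq']
          split_ifs <;> norm_num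
  · have : ∀ i, ind b i g = 0 := fun i => by
      have : g ∉ startsWith (i, b) := fun hi => h ⟨i, hi⟩
      simp [ind, this]
    simp [this]

theorem sum_shift {φ : G → ℝ} (h0 : ∀ g, 0 ≤ φ g) (hφ : Summable φ) (c : G) (F : Finset G) :
    ∑ g ∈ F, φ (c * g) ≤ ∑' g, φ g := by
  have h1 : Summable fun g => φ (c * g) := (Equiv.mulLeft c).summable_iff.2 hφ
  exact (h1.sum_le_tsum F fun g _ => h0 _).trans ((Equiv.mulLeft c).tsum_eq φ).le

theorem pingpong {φ : G → ℝ} (h0 : ∀ g, 0 ≤ φ g) (hφ : Summable φ) (b : Bool) (s : Finset ℕ)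
    (F : Finset G) :
    ∑ g ∈ F, ∑ i ∈ s, (1 - ind (!b) i g) * φ (mk [(i, b)] * g) ≤ ∑' g, φ g := by
  have hs : ∀ i, Summable fun g => ind b i g * φ g := fun i =>
    Summable.of_nonneg_of_le (fun g => mul_nonneg (ind_nonneg _ _ _) (h0 g))
      (fun g => mul_le_of_le_one_left (h0 g) (ind_le _ _ _)) hφ
  rw [Finset.sum_comm]
  calc ∑ i ∈ s, ∑ g ∈ F, (1 - ind (!b) i g) * φ (mk [(i, b)] * g)
      ≤ ∑ i ∈ s, ∑' g, ind b i g * φ g := by
        refine Finset.sum_le_sum fun i _ => le_trans (Finset.sum_le_sum fun g _ => ?_)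
          (sum_shift (fun g => mul_nonneg (ind_nonneg _ _ _) (h0 g)) (hs i) (mk [(i, b)]) F)
        refine mul_le_mul_of_nonneg_right ?_ (h0 _)
        by_cases h : g ∈ startsWith (i, !b)
        · simp only [ind, h, if_true, sub_self]
          split_ifs <;> norm_num
        · have := startsWith_mk_mul (w := (i, b)) g h
          simp [ind, h, this]
    _ = ∑' g, ∑ i ∈ s, ind b i g * φ g := (Summable.tsum_finsetSum fun i _ => hs i).symm
    _ ≤ ∑' g, φ g := by
        refine Summable.tsum_le_tsum (fun g => ?_) (summable_sum fun i _ => hs i) hφ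
        rw [← Finset.sum_mul]
        exact mul_le_of_le_one_left (h0 g) (sum_ind _ _ _)

theorem of_inv (i : ℕ) : (of i : G)⁻¹ = mk [(i, false)] := rfl

noncomputable def M : H G →L[ℂ] H G := (1 / 5 : ℂ) • ∑ i ∈ Finset.range 5, lam (of i)

theorem cm_M : Cm M := fun k =>
  (Commute.sum_right _ _ _ fun i _ => cm_lam (of i) k).smul_right _

theorem norm_M : ‖M‖ < 1 := by
  refine lt_of_le_of_lt (ContinuousLinearMap.opNorm_le_bound _ (by norm_num : (0 : ℝ) ≤ 9 / 10)
    fun v => ?_) (by norm_num)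
  refine lp.norm_le_of_forall_sum_le (by norm_num) (by positivity) fun F => ?_
  simp only [ENNReal.toReal_ofNat, Real.rpow_ofNat]
  have h1 : ∀ g, ‖M v g‖ ^ 2 ≤ (2 / 25) * (∑ i ∈ Finset.range 5, ‖v (mk [(i, false)] * g)‖ ^ 2
      * ind true i g + 5 * ∑ i ∈ Finset.range 5,
        (1 - ind (!false) i g) * ‖v (mk [(i, false)] * g)‖ ^ 2) := by
    intro g
    have e : M v g = (1 / 5 : ℂ) * ∑ i ∈ Finset.range 5, v (mk [(i, false)] * g) := by
      simp only [M, ContinuousLinearMap.smul_apply, ContinuousLinearMap.sum_apply, lp.coeFn_smul,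
        lp.coeFn_sum, Pi.smul_apply, Finset.sum_apply, smul_eq_mul]
      rfl
    have h2 : ‖M v g‖ ≤ (1 / 5) * ∑ i ∈ Finset.range 5, ‖v (mk [(i, false)] * g)‖ := by
      rw [e, norm_mul]
      refine mul_le_mul (by norm_num) (norm_sum_le _ _) (norm_nonneg _) (by norm_num)
    have h3 := Finset.sum_sq_le_sum_mul_sum_of_sq_eq_mul (Finset.range 5)
      (r := fun i => ‖v (mk [(i, false)] * g)‖)
      (f := fun i => (1 + 4 * ind true i g) / 5)
      (g := fun i => ‖v (mk [(i, false)] * g)‖ ^ 2 * (5 - 4 * ind true i g))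
      (fun i _ => by have := ind_nonneg true i g; positivity)
      (fun i _ => mul_nonneg (by positivity) (by have := ind_le true i g; linarith))
      (fun i _ => by unfold ind; split_ifs <;> ring)
    have h4 : ∑ i ∈ Finset.range 5, (1 + 4 * ind true i g) / 5 ≤ 2 := by
      rw [← Finset.sum_div, Finset.sum_add_distrib, ← Finset.mul_sum]
      have := sum_ind true g (Finset.range 5)
      simp only [Finset.sum_const, Finset.card_range, nsmul_eq_mul]
      norm_num; linarith
    have h5 : ∑ i ∈ Finset.range 5, ‖v (mk [(i, false)] * g)‖ ^ 2 * (5 - 4 * ind true i g) =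
        ∑ i ∈ Finset.range 5, ‖v (mk [(i, false)] * g)‖ ^ 2 * ind true i g + 5 *
          ∑ i ∈ Finset.range 5, (1 - ind (!false) i g) * ‖v (mk [(i, false)] * g)‖ ^ 2 := by
      rw [Finset.mul_sum, ← Finset.sum_add_distrib]
      exact Finset.sum_congr rfl fun i _ => by simp only [Bool.not_false]; ring
    have h6 : 0 ≤ ∑ i ∈ Finset.range 5, ‖v (mk [(i, false)] * g)‖ ^ 2 * (5 - 4 * ind true i g) :=
      Finset.sum_nonneg fun i _ =>
        mul_nonneg (by positivity) (by have := ind_le true i g; linarith)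
    rw [← h5]
    have h7 := pow_le_pow_left₀ (norm_nonneg _) h2 2
    nlinarith
  have h8 := pingpong (φ := fun g => ‖v g‖ ^ 2) (fun g => by positivity) (summ v) false
    (Finset.range 5) F
  have h9 : ∑ g ∈ F, ∑ i ∈ Finset.range 5, ‖v (mk [(i, false)] * g)‖ ^ 2 * ind true i g ≤
      5 * ∑' g, ‖v g‖ ^ 2 := by
    rw [Finset.sum_comm]
    refine (Finset.sum_le_card_nsmul _ _ (∑' g, ‖v g‖ ^ 2) fun i _ => ?_).trans (by simp)
    refine le_trans (Finset.sum_le_sum fun g _ => ?_)
      (sum_shift (φ := fun g => ‖v g‖ ^ 2) (fun g => by positivity) (summ v) (mk [(i, false)]) F)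
    exact mul_le_of_le_one_right (by positivity) (ind_le _ _ _)
  rw [← norm_sq] at h8 h9
  refine (Finset.sum_le_sum fun g _ => h1 g).trans ?_
  rw [← Finset.mul_sum, Finset.sum_add_distrib, ← Finset.mul_sum]
  nlinarith [sq_nonneg ‖v‖]

theorem isoper (u : H G) (y : ℕ → G → ℂ) (hy : ∀ i, Summable fun g => ‖y i g‖)
    (h : ∀ i < 5, ∀ g, u g - u (g * (of i)⁻¹) = y i g) : Summable fun g => ‖u g‖ := by
  have hu0 : Tendsto (fun g => ‖u g⁻¹‖ ^ 2) cofinite (𝓝 0) :=
    ((Equiv.inv G).summable_iff.2 (summ u)).tendsto_cofinite_zero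
  set C := ∑ i ∈ Finset.range 5, ∑' g, ‖y i g‖ with hC
  have key : ∀ t : ℝ, 0 < t → ∀ F : Finset G, ∑ g ∈ F, ‖u g⁻¹‖ ≤ C / 3 + t * F.card := by
    intro t ht F
    let φ : G → ℝ := fun g => max (‖u g⁻¹‖ - t) 0
    have h0 : ∀ g, 0 ≤ φ g := fun g => le_max_right _ _
    have hφ : Summable φ := by
      refine summable_of_finite_support ?_
      have := hu0.eventually (gt_mem_nhds (by positivity : (0 : ℝ) < t ^ 2))
      refine (Filter.eventually_cofinite.1 this).subset fun g hg h2 => hg ?_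
      have : ‖u g⁻¹‖ < t := lt_of_pow_lt_pow_left₀ 2 ht.le h2
      exact max_eq_right (by linarith)
    have h1 : ∀ g, 4 * φ g ≤ ∑ i ∈ Finset.range 5, (1 - ind (!true) i g) * φ (mk [(i, true)] * g) +
        ∑ i ∈ Finset.range 5, ‖y i g⁻¹‖ := by
      intro g
      have h2 := sum_ind false g (Finset.range 5)
      have h3 : ∑ i ∈ Finset.range 5, (1 - ind false i g) * φ g ≤
          ∑ i ∈ Finset.range 5, ((1 - ind (!true) i g) * φ (mk [(i, true)] * g) + ‖y i g⁻¹‖) := by
        refine Finset.sum_le_sum fun i hi => ?_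
        have h4 : φ g ≤ φ (mk [(i, true)] * g) + ‖y i g⁻¹‖ := by
          have h5 := h i (Finset.mem_range.1 hi) g⁻¹
          have h6 : (mk [(i, true)] * g : G)⁻¹ = g⁻¹ * (of i)⁻¹ := by
            rw [mul_inv_rev]; rfl
          have h7 : ‖u g⁻¹‖ ≤ ‖u (g⁻¹ * (of i)⁻¹)‖ + ‖y i g⁻¹‖ := by
            rw [← h5]
            exact norm_le_norm_add_norm_sub' _ _
          simp only [φ, h6]
          refine max_le ?_ (by positivity)
          have := le_max_left (‖u (g⁻¹ * (of i)⁻¹)‖ - t) 0
          linarith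
        have := ind_nonneg false i g
        have := ind_le false i g
        simp only [Bool.not_true]
        nlinarith [norm_nonneg (y i g⁻¹)]
      rw [← Finset.sum_mul, Finset.sum_sub_distrib, Finset.sum_add_distrib] at h3
      simp only [Finset.sum_const, Finset.card_range, nsmul_eq_mul] at h3
      have := h0 g
      push_cast at h3
      nlinarith
    have h2 : ∑' g, φ g ≤ (∑' g, φ g + C) / 4 := by
      refine hφ.tsum_le_of_sum_le fun F => ?_
      have h3 := Finset.sum_le_sum fun g (_ : g ∈ F) => h1 g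
      rw [← Finset.mul_sum, Finset.sum_add_distrib] at h3
      have h4 := pingpong h0 hφ true (Finset.range 5) F
      have h5 : ∑ g ∈ F, ∑ i ∈ Finset.range 5, ‖y i g⁻¹‖ ≤ C := by
        rw [Finset.sum_comm]
        refine Finset.sum_le_sum fun i _ => ?_
        have h6 : Summable fun g : G => ‖y i g⁻¹‖ := (Equiv.inv G).summable_iff.2 (hy i)
        exact (h6.sum_le_tsum F fun g _ => norm_nonneg _).trans
          ((Equiv.inv G).tsum_eq fun g => ‖y i g‖).le
      linarith
    calc ∑ g ∈ F, ‖u g⁻¹‖ ≤ ∑ g ∈ F, (φ g + t) := Finset.sum_le_sum fun g _ => by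
          have := le_max_left (‖u g⁻¹‖ - t) 0
          simp only [φ]; linarith
      _ ≤ C / 3 + t * F.card := by
          rw [Finset.sum_add_distrib]
          have := hφ.sum_le_tsum F fun g _ => h0 g
          simp only [Finset.sum_const, nsmul_eq_mul]
          linarith
  have h1 : Summable fun g : G => ‖u g⁻¹‖ := by
    refine summable_of_sum_le (c := C / 3 + 1) (fun g => norm_nonneg _) fun F => ?_
    refine (key (1 / (F.card + 1)) (by positivity) F).trans ?_
    have : (1 / (F.card + 1) : ℝ) * F.card ≤ 1 := by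
      rw [div_mul_eq_mul_div, div_le_one (by positivity)]; linarith
    linarith
  exact (Equiv.inv G).summable_iff.1 h1

theorem no_factor (f : G → ℂ) (hf : Summable fun g => ‖f g‖) (h0 : ∑' g, f g = 0)
    (y : ℕ → G → ℂ) (hy : ∀ i, Summable fun g => ‖y i g‖)
    (h : ∀ i < 5, ∀ g, dl (1 : G) g - dl (of i) g = ∑' s, f s * y i (s⁻¹ * g)) : False := by
  have hl : ∀ k : G, lam k (dl 1) = dl k := fun k => by
    ext g
    simp [lam_apply, dl_apply, inv_mul_eq_one, eq_comm]
  have h1 : ∀ i < 5, cv f (cv (y i) (dl 1)) = dl 1 - dl (of i) := fun i hi => by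
    ext g
    rw [cv_apply hf]
    simp only [cv_dl (hy i)]
    exact (h i hi g).symm
  have h2 : ∀ i < 5, cv f * cv (y i) = 1 - lam (of i) := fun i hi =>
    ((cm_cv hf).mul (cm_cv (hy i))).ext (cm_one.sub (cm_lam _)) (by
      show cv f (cv (y i) (dl 1)) = dl 1 - lam (of i) (dl 1)
      rw [h1 i hi, hl])
  let Y : H G →L[ℂ] H G := (1 / 5 : ℂ) • ∑ i ∈ Finset.range 5, cv (y i)
  have hY : Cm Y := fun k => (Commute.sum_right _ _ _ fun i _ => cm_cv (hy i) k).smul_right _
  have h3 : cv f * Y = 1 - M := by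
    simp only [Y, M, mul_smul_comm, Finset.mul_sum]
    rw [Finset.sum_congr rfl fun i hi => h2 i (Finset.mem_range.1 hi), Finset.sum_sub_distrib,
      smul_sub]
    congr 1
    simp only [Finset.sum_const, Finset.card_range]
    rw [← Nat.cast_smul_eq_nsmul ℂ, smul_smul]; norm_num
  let W := Units.oneSub M norm_M
  have hW : Cm (↑W⁻¹ : H G →L[ℂ] H G) := fun k =>
    Commute.units_inv_right (u := W) (cm_one.sub cm_M k)
  have h4 : cv f * (Y * ↑W⁻¹) = 1 := by
    rw [← mul_assoc, h3]
    exact W.mul_inv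
  let u : H G := (Y * ↑W⁻¹ : H G →L[ℂ] H G) (dl 1)
  have h5 : cv f u = dl 1 := DFunLike.congr_fun h4 (dl 1)
  have h6 : ∀ i < 5, ∀ g, u g - u (g * (of i)⁻¹) = y i g := fun i hi g => by
    have := inj_of_right_inv (cm_cv hf) (hY.mul hW) h4
      (v := u - rho (of i) u - cv (y i) (dl 1)) (by
        rw [map_sub, map_sub, (cm_cv hf).app, h5, rho_dl, h1 i hi, sub_self])
    rw [sub_eq_zero] at this
    rw [← cv_dl (hy i), ← this]; rfl
  have h7 := tsum_conv hf (isoper u y hy h6) h0
  simp only [← cv_apply hf, h5, dl_apply] at h7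
  simp at h7

end Pool.Agent.H27.Kap
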