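import Mathlib

open MeasureTheory Set Filter Topology

namespace Pool.Agent.H27.Khin

/-- second moment bound -/
lemma second_moment {Z ι : Type*} [MeasurableSpace Z] (μ : Measure Z) [IsProbabilityMeasure μ]
    (I : Finset ι) (A : ι → Set Z) (hA : ∀ i, MeasurableSet (A i)) (β : ℝ)
    (hβ : (I.card : ℝ) * β = 1)
    (h1 : ∀ i ∈ I, μ.real (A i) = β)
    (h2 : ∀ i ∈ I, ∀ j ∈ I, i ≠ j → μ.real (A i ∩ A j) = β ^ 2) :
    1 / 2 ≤ μ.real (⋃ i ∈ I, A i) := by
  classical
  set X : Z → ℝ := fun z => ∑ i ∈ I, (A i).indicator (fun _ => (1:ℝ)) z with hX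
  have hint : ∀ S : Set Z, MeasurableSet S → Integrable (S.indicator (fun _ => (1:ℝ))) μ :=
    fun S hS => (integrable_const (1:ℝ)).indicator hS
  have hXi : Integrable X μ := integrable_finset_sum _ fun i _ => hint _ (hA i)
  have hX2 : ∀ z, X z ^ 2 = ∑ i ∈ I, ∑ j ∈ I, (A i ∩ A j).indicator (fun _ => (1:ℝ)) z := by
    intro z
    rw [sq, hX]
    simp only
    rw [Finset.sum_mul_sum]
    refine Finset.sum_congr rfl fun i _ => Finset.sum_congr rfl fun j _ => ?_
    by_cases hi : z ∈ A i <;> by_cases hj : z ∈ A j <;> simp [indicator, hi, hj]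
  have hX2i : Integrable (fun z => X z ^ 2) μ := by
    simp_rw [hX2]
    exact integrable_finset_sum _ fun i _ => integrable_finset_sum _ fun j _ =>
      hint _ ((hA i).inter (hA j))
  have e1 : ∫ z, X z ∂μ = 1 := by
    rw [hX]
    simp only
    rw [integral_finset_sum _ fun i _ => hint _ (hA i)]
    rw [Finset.sum_congr rfl (g := fun _ => β)]
    · simp [hβ]
    · intro i hi
      rw [integral_indicator_const _ (hA i)]
      simp [h1 i hi]
  have e2 : ∫ z, X z ^ 2 ∂μ ≤ 2 := by
    simp_rw [hX2]
    rw [integral_finset_sum _ fun i _ => integrable_finset_sum _ fun j _ =>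
      hint _ ((hA i).inter (hA j))]
    have : ∀ i ∈ I, ∫ z, ∑ j ∈ I, (A i ∩ A j).indicator (fun _ => (1:ℝ)) z ∂μ
        ≤ β + I.card * β ^ 2 := by
      intro i hi
      rw [integral_finset_sum _ fun j _ => hint _ ((hA i).inter (hA j))]
      have : ∀ j ∈ I, ∫ z, (A i ∩ A j).indicator (fun _ => (1:ℝ)) z ∂μ
          ≤ (if j = i then β else 0) + β ^ 2 := by
        intro j hj
        rw [integral_indicator_const _ ((hA i).inter (hA j))]
        by_cases hji : j = i
        · subst hji
          simp [h1 j hj, sq_nonneg]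
        · simp [hji, h2 i hi j hj (Ne.symm hji)]
      refine (Finset.sum_le_sum this).trans ?_
      rw [Finset.sum_add_distrib, Finset.sum_ite_eq' I i]
      simp [hi]
    refine (Finset.sum_le_sum this).trans ?_
    simp only [Finset.sum_const, nsmul_eq_mul]
    have : (I.card : ℝ) * (β + I.card * β ^ 2) = I.card * β + (I.card * β) ^ 2 := by ring
    rw [this, hβ]; norm_num
  have hU : MeasurableSet (⋃ i ∈ I, A i) := Finset.measurableSet_biUnion _ fun i _ => hA i
  have hle : ∀ z, X z - X z ^ 2 / 4 ≤ (⋃ i ∈ I, A i).indicator (fun _ => (1:ℝ)) z := by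
    intro z
    by_cases hz : z ∈ ⋃ i ∈ I, A i
    · rw [indicator_of_mem hz]
      nlinarith [sq_nonneg (X z / 2 - 1)]
    · rw [indicator_of_notMem hz]
      have : X z = 0 := by
        refine Finset.sum_eq_zero fun i hi => indicator_of_notMem ?_ _
        intro h; exact hz (mem_biUnion hi h)
      simp [this]
  have := integral_mono (hXi.sub (hX2i.div_const 4)) (hint _ hU) hle
  rw [integral_indicator_const _ hU] at this
  have h3 : ∫ z, ((X - fun z => X z ^ 2 / 4 : Z → ℝ)) z ∂μ
      = ∫ z, X z ∂μ - (∫ z, X z ^ 2 ∂μ) / 4 := by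
    rw [← integral_div, ← integral_sub hXi (hX2i.div_const 4)]; rfl
  rw [h3, e1] at this
  simp at this
  linarith

lemma zsmul_surj {n : ℤ} (hn : n ≠ 0) : Function.Surjective fun t : UnitAddCircle => n • t :=
  DivisibleBy.surjective_smul _ _ hn

lemma probT : IsProbabilityMeasure (volume : Measure UnitAddCircle) := ⟨by simp⟩

/-- circle lemma -/
lemma circle {ι : Type*} (I : Finset ι) (hI : I.Nonempty) (g : ι → ℤ) (hg : InjOn g I) :
    ∃ B : Set UnitAddCircle, MeasurableSet B ∧ volume.real B = 1 / I.card ∧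
      1 / 3 ≤ volume.real (⋃ i ∈ I, {t : UnitAddCircle | g i • t ∈ B}) := by
  haveI := probT
  set β : ℝ := 1 / I.card with hβ
  have hc : (1:ℝ) ≤ I.card := by exact_mod_cast hI.card_pos
  have hβ0 : 0 < β := by positivity
  have hβ1 : β ≤ 1 := by rw [hβ, div_le_one (by linarith)]; exact hc
  set B0 : Set UnitAddCircle := Metric.closedBall 0 (β / 2) with hB0
  have mB0 : MeasurableSet B0 := Metric.isClosed_closedBall.measurableSet
  have vB0 : volume.real B0 = β := by
    rw [measureReal_def, hB0, AddCircle.volume_closedBall, ENNReal.toReal_ofReal (by positivity)]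
    rw [min_eq_right (by linarith)]; ring
  set μ : Measure (UnitAddCircle × UnitAddCircle) := volume.prod volume with hμ
  let φ : ι → (UnitAddCircle × UnitAddCircle →+ UnitAddCircle) := fun i =>
    g i • AddMonoidHom.fst _ _ - AddMonoidHom.snd _ _
  have φa : ∀ i z, φ i z = g i • z.1 - z.2 := fun i z => rfl
  have φc : ∀ i, Continuous (φ i) := fun i => by
    show Continuous fun z : UnitAddCircle × UnitAddCircle => g i • z.1 - z.2
    fun_prop
  let A : ι → Set (UnitAddCircle × UnitAddCircle) := fun i => φ i ⁻¹' B0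
  have mA : ∀ i, MeasurableSet (A i) := fun i => (φc i).measurable mB0
  have h1 : ∀ i ∈ I, μ.real (A i) = β := by
    intro i _
    have : MeasurePreserving (φ i) μ volume := by
      refine AddMonoidHom.measurePreserving (φc i) ?_ (by simp [hμ])
      intro u
      exact ⟨(0, -u), by simp [φa]⟩
    rw [← vB0]
    exact this.measureReal_preimage mB0.nullMeasurableSet
  have h2 : ∀ i ∈ I, ∀ j ∈ I, i ≠ j → μ.real (A i ∩ A j) = β ^ 2 := by
    intro i hi j hj hij
    have hne : g i - g j ≠ 0 := sub_ne_zero.2 fun h => hij (hg hi hj h)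
    have : MeasurePreserving ((φ i).prod (φ j)) μ μ := by
      refine AddMonoidHom.measurePreserving ((φc i).prodMk (φc j)) ?_ rfl
      rintro ⟨u, v⟩
      obtain ⟨t, ht⟩ := zsmul_surj hne (u - v)
      refine ⟨(t, g i • t - u), ?_⟩
      simp only [sub_smul] at ht
      simp only [AddMonoidHom.prod_apply, φa, Prod.mk.injEq]
      constructor
      · abel
      · have : g j • t = g i • t - (u - v) := by rw [← ht]; abel
        rw [this]; abel
    have h := this.measureReal_preimage (mB0.prod mB0).nullMeasurableSet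
    have e : ((φ i).prod (φ j)) ⁻¹' (B0 ×ˢ B0) = A i ∩ A j := rfl
    rw [e] at h
    rw [h, hμ, measureReal_prod_prod, vB0, sq]
  have key := second_moment μ I A mA β (by rw [hβ]; field_simp) h1 h2
  have hU : MeasurableSet (⋃ i ∈ I, A i) := Finset.measurableSet_biUnion _ fun i _ => mA i
  by_contra hcon
  push Not at hcon
  have hs : ∀ s : UnitAddCircle, volume ((fun t => (t, s)) ⁻¹' (⋃ i ∈ I, A i))
      ≤ ENNReal.ofReal (1 / 3) := by
    intro s
    have hm : MeasurableSet ((fun u => u - s) ⁻¹' B0) := (measurable_sub_const s) mB0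
    have := hcon ((fun u => u - s) ⁻¹' B0) hm
      (by rw [(measurePreserving_sub_right volume s).measureReal_preimage mB0.nullMeasurableSet,
        vB0])
    have e : (fun t => (t, s)) ⁻¹' (⋃ i ∈ I, A i)
        = ⋃ i ∈ I, {t : UnitAddCircle | g i • t ∈ (fun u => u - s) ⁻¹' B0} := by
      ext t; simp [A, φa]
    rw [e, ← ofReal_measureReal (measure_ne_top _ _)]
    exact ENNReal.ofReal_le_ofReal this.le
  have : μ (⋃ i ∈ I, A i) ≤ ENNReal.ofReal (1 / 3) := by
    rw [hμ, Measure.prod_apply_symm hU]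
    refine (lintegral_mono hs).trans ?_
    simp
  have h4 : μ.real (⋃ i ∈ I, A i) ≤ 1 / 3 :=
    ENNReal.toReal_le_of_le_ofReal (by norm_num) this
  linarith

end Pool.Agent.H27.Khin
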