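import Pool.Agent.H27.Khin1

open MeasureTheory Set Filter Topology

namespace Pool.Agent.H27.Khin

noncomputable def xi (b : Bool) : ℝ := if b then 1 else 0
noncomputable def S (p : ℝ) (n : ℕ) (x : ℕ → Bool) : ℝ := ∑ i ∈ Finset.range n, (xi (x i) - p)
def lam (x : ℕ → Bool) (n : ℕ) : ℕ := ∏ i ∈ Finset.range n, if x i then 2 else 3

lemma lam_eq (p : ℝ) (x : ℕ → Bool) (n : ℕ) :
    ∃ a b : ℕ, a + b = n ∧ lam x n = 2 ^ a * 3 ^ b ∧ S p n x = a - p * n := by
  induction n with
  | zero => exact ⟨0, 0, rfl, by simp [lam], by simp [S]⟩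
  | succ n ih =>
    obtain ⟨a, b, h1, h2, h3⟩ := ih
    have e1 : lam x (n + 1) = lam x n * if x n then 2 else 3 := Finset.prod_range_succ _ _
    have e2 : S p (n + 1) x = S p n x + (xi (x n) - p) := Finset.sum_range_succ _ _
    cases hx : x n
    · refine ⟨a, b + 1, by omega, ?_, ?_⟩
      · rw [e1, h2, hx]; simp; ring
      · rw [e2, h3, hx]; simp [xi]; ring
    · refine ⟨a + 1, b, by omega, ?_, ?_⟩
      · rw [e1, h2, hx]; simp; ring
      · rw [e2, h3, hx]; simp [xi]; ring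

def mu (α β : ℤ) : ℕ := 2 ^ α.toNat * 3 ^ β.toNat

lemma mu_pos (α β : ℤ) : 0 < mu α β := by unfold mu; positivity

lemma mu_mul {α β : ℤ} {a b : ℕ} (ha : (a : ℤ) ≤ α) (hb : (b : ℤ) ≤ β) :
    mu (α - a) (β - b) * (2 ^ a * 3 ^ b) = mu α β := by
  unfold mu
  have h1 : α.toNat = (α - a).toNat + a := by omega
  have h2 : β.toNat = (β - b).toNat + b := by omega
  rw [h1, h2]; ring

lemma mu_inj {α β γ δ : ℤ} (h1 : 0 ≤ α) (h2 : 0 ≤ β) (h3 : 0 ≤ γ) (h4 : 0 ≤ δ)
    (h : mu α β = mu γ δ) : α = γ ∧ β = δ := by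
  unfold mu at h
  have e2 := congrArg (fun n => n.factorization 2) h
  have e3 := congrArg (fun n => n.factorization 3) h
  simp [Nat.factorization_mul, Nat.factorization_pow, Nat.prime_two.factorization,
    Nat.prime_three.factorization] at e2 e3
  omega

lemma level {p : ℝ} (hp0 : 0 ≤ p) (hp1 : p ≤ 1) (x : ℕ → Bool) (K L w : ℕ) (hK : 0 < K)
    (hL : 0 < L) (hw : 0 < w) (h : ℕ → ℝ) (Good : ℕ → Finset ℕ)
    (hb : ∀ k < K, |h k| ≤ L) (hsep : ∀ k l, k < l → l < K → h k + w ≤ h l)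
    (hG : ∀ k < K, ∀ n ∈ Good k, n ≤ L ∧ |S p n x - h k| ≤ w) :
    ∃ E G : Set UnitAddCircle, MeasurableSet E ∧ MeasurableSet G ∧ volume.real E ≤ 8 / K ∧
      1 / 3 ≤ volume.real G ∧ ∀ t ∈ G, ∃ k < K, ∀ n ∈ Good k, lam x n • t ∈ E := by
  haveI := probT
  set c : ℤ := 2 * L + w with hc
  let F : ℕ → ℕ → ℤ := fun k u => ⌊p * ((L + u : ℕ) : ℝ) + h k⌋
  have F1 : ∀ k < K, ∀ u, -(L : ℤ) ≤ F k u := by
    intro k hk u
    refine Int.le_floor.2 ?_
    have := abs_le.1 (hb k hk)
    have : 0 ≤ p * ((L + u : ℕ) : ℝ) := by positivity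
    push_cast at *; linarith
  have F2 : ∀ k < K, ∀ u, F k u ≤ 2 * L + u := by
    intro k hk u
    have h1 := abs_le.1 (hb k hk)
    have h2 : p * ((L + u : ℕ) : ℝ) ≤ ((L + u : ℕ) : ℝ) :=
      mul_le_of_le_one_left (by positivity) hp1
    have h3 := Int.floor_le (p * ((L + u : ℕ) : ℝ) + h k)
    have : (F k u : ℝ) ≤ 2 * L + u := by
      simp only [F]; push_cast at *; linarith
    exact_mod_cast this
  have F3 : ∀ k l, k < l → l < K → ∀ u, F k u + w ≤ F l u := by
    intro k l hkl hl u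
    simp only [F]
    rw [← Int.floor_add_natCast]
    exact Int.floor_mono (by linarith [hsep k l hkl hl])
  let I := Finset.range K ×ˢ Finset.range L ×ˢ Finset.range w
  let g : ℕ × ℕ × ℕ → ℤ := fun i =>
    mu (c + F i.1 i.2.1 + i.2.2) (c + (L + i.2.1) - F i.1 i.2.1 - i.2.2)
  have hI : I.Nonempty := ⟨(0, 0, 0), by simp [I, hK, hL, hw]⟩
  have hg : InjOn g I := by
    rintro ⟨k, u, r⟩ h1 ⟨l, v, s⟩ h2 he
    simp only [I, Finset.coe_product, Finset.coe_range, mem_prod, mem_Iio] at h1 h2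
    simp only [g, Nat.cast_inj] at he
    have a1 := F1 k h1.1 u
    have a2 := F2 k h1.1 u
    have a3 := F1 l h2.1 v
    have a4 := F2 l h2.1 v
    obtain ⟨e1, e2⟩ := mu_inj (by omega) (by omega) (by omega) (by omega) he
    have huv : u = v := by omega
    subst huv
    rcases lt_trichotomy k l with hkl | hkl | hkl
    · have := F3 k l hkl h2.1 u; omega
    · subst hkl
      have : r = s := by omega
      rw [this]
    · have := F3 l k hkl h1.1 u; omega
  obtain ⟨B, mB, vB, hB⟩ := circle I hI g hg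
  let J : Finset (ℕ × ℤ) := Finset.range (2 * L) ×ˢ Finset.Icc (-(w : ℤ)) (2 * w)
  let q : ℕ × ℤ → ℤ := fun j =>
    mu (c + ⌊p * (j.1 : ℝ)⌋ + j.2) (c + j.1 - ⌊p * (j.1 : ℝ)⌋ - j.2)
  have mz : ∀ m : ℤ, MeasurableSet {t : UnitAddCircle | m • t ∈ B} := fun m =>
    (continuous_zsmul m).measurable mB
  refine ⟨⋃ j ∈ J, {t | q j • t ∈ B}, _, Finset.measurableSet_biUnion _ fun j _ => mz _,
    Finset.measurableSet_biUnion _ fun j _ => mz _, ?_, hB, ?_⟩
  · refine (measureReal_biUnion_finset_le _ _).trans ?_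
    have : ∀ j ∈ J, volume.real {t : UnitAddCircle | q j • t ∈ B} = 1 / I.card := by
      intro j _
      have hq : q j ≠ 0 := by
        simp only [q]; exact_mod_cast (mu_pos _ _).ne'
      rw [← vB]
      exact (Measure.measurePreserving_zsmul volume hq).measureReal_preimage mB.nullMeasurableSet
    rw [Finset.sum_congr rfl this]
    have cJ : J.card = 2 * L * (3 * w + 1) := by
      simp only [J, Finset.card_product, Finset.card_range, Int.card_Icc]
      congr 1; omega
    have cI : I.card = K * (L * w) := by simp [I]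
    simp only [Finset.sum_const, nsmul_eq_mul, cJ, cI]
    have w1 : (1:ℝ) ≤ w := by exact_mod_cast hw
    have L1 : (0:ℝ) < L := by exact_mod_cast hL
    have K1 : (0:ℝ) < K := by exact_mod_cast hK
    push_cast
    rw [mul_one_div, div_le_div_iff₀ (by positivity) K1]
    have : 0 ≤ (L:ℝ) * K * (w - 1) := by
      have : (0:ℝ) ≤ w - 1 := by linarith
      positivity
    nlinarith
  · intro t ht
    simp only [mem_iUnion, mem_setOf_eq, exists_prop] at ht
    obtain ⟨⟨k, u, r⟩, h1, ht⟩ := ht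
    simp only [I, Finset.mem_product, Finset.mem_range] at h1
    refine ⟨k, h1.1, fun n hn => ?_⟩
    obtain ⟨hnL, hS⟩ := hG k h1.1 n hn
    obtain ⟨a, b, hab, hl, hSe⟩ := lam_eq p x n
    simp only [mem_iUnion, mem_setOf_eq, exists_prop]
    have a1 := F1 k h1.1 u
    have a2 := F2 k h1.1 u
    refine ⟨(L + u - n, F k u + r - a - ⌊p * ((L + u - n : ℕ) : ℝ)⌋), ?_, ?_⟩
    · simp only [J, Finset.mem_product, Finset.mem_range, Finset.mem_Icc]
      have c1 : ((L + u - n : ℕ) : ℝ) = L + u - n := by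
        rw [Nat.cast_sub (by omega)]; push_cast; ring
      have b1 := Int.floor_le (p * ((L + u : ℕ) : ℝ) + h k)
      have b2 := Int.lt_floor_add_one (p * ((L + u : ℕ) : ℝ) + h k)
      have b3 := Int.floor_le (p * ((L + u - n : ℕ) : ℝ))
      have b4 := Int.lt_floor_add_one (p * ((L + u - n : ℕ) : ℝ))
      have b5 := abs_le.1 hS
      have b6 : (r : ℝ) + 1 ≤ w := by exact_mod_cast h1.2.2
      have b7 : (0 : ℝ) ≤ r := by positivity
      have e : p * ((L + u - n : ℕ) : ℝ) = p * ((L + u : ℕ) : ℝ) - p * n := by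
        rw [c1]; push_cast; ring
      refine ⟨by omega, ?_, ?_⟩
      · have : ((-(w : ℤ) - 1 : ℤ) : ℝ) <
            ((F k u + r - a - ⌊p * ((L + u - n : ℕ) : ℝ)⌋ : ℤ) : ℝ) := by
          simp only [F]; push_cast [-Nat.cast_add]; linarith
        have := Int.cast_lt.1 this
        omega
      · have : ((F k u + r - a - ⌊p * ((L + u - n : ℕ) : ℝ)⌋ : ℤ) : ℝ)
            < ((2 * (w : ℤ) + 1 : ℤ) : ℝ) := by
          simp only [F]; push_cast [-Nat.cast_add]; linarith
        have := Int.cast_lt.1 this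
        omega
    · have key : q (L + u - n, F k u + r - a - ⌊p * ((L + u - n : ℕ) : ℝ)⌋) * (lam x n : ℤ)
          = g (k, u, r) := by
        simp only [q, g]
        rw [hl, ← mu_mul (α := c + F k u + r) (β := c + (L + u) - F k u - r) (a := a) (b := b)
          (by omega) (by omega)]
        push_cast [-Nat.cast_add]
        congr 3
        · ring
        · have : ((L + u - n : ℕ) : ℤ) = L + u - n := by omega
          rw [this]; omega
      rw [← natCast_zsmul, smul_smul, key]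
      exact ht

end Pool.Agent.H27.Khin
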