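import Pool.Agent.H27.Khin2

open MeasureTheory Set Filter Topology

namespace Pool.Agent.H27.Khin

def shift (s : ℕ) (x : ℕ → Bool) : ℕ → Bool := fun i => x (s + i)
def Jump (p M : ℝ) (n : ℕ) : Set (ℕ → Bool) := {x | M * √n < S p n x}
def Stay (p : ℝ) (l : ℕ) : Set (ℕ → Bool) :=
  {x | ∑ i ∈ Finset.range l, S p i x ^ 2 + l * S p l x ^ 2 < (l : ℝ) ^ 2}
def Ev (p M : ℝ) (n : ℕ) : Set (ℕ → Bool) :=
  shift n ⁻¹' Jump p M n ∩ shift (2 * n) ⁻¹' Stay p (2 * n)

lemma S_add (p : ℝ) (s n : ℕ) (x : ℕ → Bool) : S p (s + n) x = S p s x + S p n (shift s x) :=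
  Finset.sum_range_add _ _ _

lemma abs_S {p : ℝ} (hp0 : 0 ≤ p) (hp1 : p ≤ 1) (n : ℕ) (x : ℕ → Bool) : |S p n x| ≤ n := by
  refine (Finset.abs_sum_le_sum_abs _ _).trans ?_
  have : ∀ i ∈ Finset.range n, |xi (x i) - p| ≤ 1 := by
    intro i _
    unfold xi
    split_ifs <;> rw [abs_le] <;> constructor <;> linarith
  simpa using Finset.sum_le_sum this

lemma good_card (s : Finset ℕ) (f : ℕ → ℝ) (w : ℝ) (hw : 0 < w) (h1 : 2 * (s.card : ℝ) ≤ w ^ 2)
    (h2 : ∑ i ∈ s, f i ^ 2 ≤ (s.card : ℝ) ^ 2) :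
    (s.card : ℝ) / 2 ≤ (s.filter fun i => |f i| ≤ w).card := by
  have e := Finset.card_filter_add_card_filter_not (s := s) (fun i => |f i| ≤ w)
  have e' : ((s.filter fun i => |f i| ≤ w).card : ℝ) + (s.filter fun i => ¬ |f i| ≤ w).card
      = s.card := by exact_mod_cast e
  have h3 : ((s.filter fun i => ¬ |f i| ≤ w).card : ℝ) * w ^ 2 ≤ ∑ i ∈ s, f i ^ 2 := by
    refine le_trans ?_ (Finset.sum_le_sum_of_subset_of_nonneg
      (Finset.filter_subset (fun i => ¬ |f i| ≤ w) s) fun _ _ _ => sq_nonneg _)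
    rw [← nsmul_eq_mul]
    refine Finset.card_nsmul_le_sum _ _ _ fun i hi => ?_
    have := (Finset.mem_filter.1 hi).2
    rw [← sq_abs (f i)]
    exact pow_le_pow_left₀ hw.le (le_of_lt (not_le.1 this)) 2
  set b : ℝ := ((s.filter fun i => ¬ |f i| ≤ w).card : ℝ)
  have hb : 0 ≤ b := by positivity
  have hs : (0:ℝ) ≤ s.card := by positivity
  rcases hs.eq_or_lt with h0 | h0
  · rw [← h0]; simp
  have : b * (2 * s.card) ≤ (s.card : ℝ) ^ 2 := by nlinarith
  have : b ≤ s.card / 2 := by nlinarith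
  linarith

lemma level2 {p : ℝ} (hp0 : 0 ≤ p) (hp1 : p ≤ 1) (x : ℕ → Bool) (K j : ℕ) (hK : 0 < K)
    (hx : ∀ k < K, x ∈ Ev p (4 * 2 ^ K) (4 ^ (j + k))) :
    ∃ E G : Set UnitAddCircle, MeasurableSet E ∧ MeasurableSet G ∧ volume.real E ≤ 8 / K ∧
      1 / 3 ≤ volume.real G ∧ ∀ t ∈ G, ∃ N : ℕ, j < N ∧
        (N : ℝ) / 4 ≤ ∑ n ∈ Finset.range N, E.indicator (fun _ => (1:ℝ)) (lam x (n + 1) • t) := by
  set w : ℕ := 2 * 2 ^ (j + K) with hw
  let h : ℕ → ℝ := fun k => S p (2 * 4 ^ (j + k)) x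
  let Good : ℕ → Finset ℕ := fun k =>
    (Finset.Ico (2 * 4 ^ (j + k)) (4 * 4 ^ (j + k))).filter fun n => |S p n x - h k| ≤ w
  have p1 : ∀ k < K, 4 * 4 ^ (j + k) ≤ 4 ^ (j + K) := by
    intro k hk
    rw [← pow_succ']
    exact Nat.pow_le_pow_right (by norm_num) (by omega)
  have w2 : (w : ℝ) ^ 2 = 4 * 4 ^ (j + K) := by
    rw [hw]; push_cast
    rw [mul_pow, ← pow_mul, mul_comm (j + K) 2, pow_mul]; norm_num
  have w0 : (0:ℝ) < w := by rw [hw]; positivity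
  have step : ∀ k, k + 1 < K → h k + w ≤ h (k + 1) := by
    intro k hk
    have a1 : 4 * 2 ^ K * √((4 ^ (j + (k + 1)) : ℕ) : ℝ) < _ := (hx (k + 1) hk).1
    have a2 := (hx k (by omega)).2
    simp only [mem_preimage, Stay, mem_setOf_eq] at a2
    have e1 := S_add p (4 ^ (j + (k + 1))) (4 ^ (j + (k + 1))) x
    have e2 := S_add p (2 * 4 ^ (j + k)) (2 * 4 ^ (j + k)) x
    have e3 : 2 * 4 ^ (j + k) + 2 * 4 ^ (j + k) = 4 ^ (j + (k + 1)) := by ring
    rw [e3] at e2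
    rw [← two_mul] at e1
    have sq : √((4 ^ (j + (k + 1)) : ℕ) : ℝ) = 2 ^ (j + (k + 1)) := by
      rw [Real.sqrt_eq_iff_mul_self_eq (by positivity) (by positivity), ← mul_pow]
      push_cast; norm_num
    rw [sq] at a1
    have a3 : (2:ℝ) * w ≤ 4 * 2 ^ K * 2 ^ (j + (k + 1)) := by
      rw [hw]; push_cast
      have : (2:ℝ) ^ j ≤ 2 ^ (j + (k + 1)) := pow_le_pow_right₀ (by norm_num) (by omega)
      have h2 : (0:ℝ) < 2 ^ K := by positivity
      rw [pow_add 2 j K]; nlinarith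
    set y := S p (2 * 4 ^ (j + k)) (shift (2 * 4 ^ (j + k)) x)
    have a4 : 0 ≤ ∑ i ∈ Finset.range (2 * 4 ^ (j + k)), S p i (shift (2 * 4 ^ (j + k)) x) ^ 2 :=
      Finset.sum_nonneg fun _ _ => sq_nonneg _
    have l0 : (0:ℝ) < ((2 * 4 ^ (j + k) : ℕ) : ℝ) := by positivity
    have a5 : y ^ 2 ≤ ((2 * 4 ^ (j + k) : ℕ) : ℝ) := by
      by_contra hh
      push Not at hh
      nlinarith
    have a6 : ((2 * 4 ^ (j + k) : ℕ) : ℝ) ≤ (w:ℝ) ^ 2 := by
      rw [w2]
      have := p1 k (by omega)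
      have h3 : 2 * 4 ^ (j + k) ≤ 4 * 4 ^ (j + K) := by omega
      exact_mod_cast h3
    have a7 := abs_le.1 (abs_le_of_sq_le_sq' (a5.trans a6) w0.le |> fun h => abs_le.2 h)
    simp only [h]
    linarith [a7.1]
  obtain ⟨E, G, mE, mG, vE, vG, hG⟩ := level hp0 hp1 x K (4 ^ (j + K)) w hK (by positivity)
    (by positivity) h Good
    (fun k hk => (abs_S hp0 hp1 _ x).trans (by
      have := p1 k hk
      exact_mod_cast (by omega : 2 * 4 ^ (j + k) ≤ 4 ^ (j + K))))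
    (fun k l hkl hl => by
      induction l, hkl using Nat.le_induction with
      | base => exact step k hl
      | succ l _ ih => linarith [ih (by omega), step l hl])
    (fun k hk n hn => by
      have h1 := Finset.mem_filter.1 hn
      have h2 := Finset.mem_Ico.1 h1.1
      have := p1 k hk
      exact ⟨by omega, h1.2⟩)
  refine ⟨E, G, mE, mG, vE, vG, fun t ht => ?_⟩
  obtain ⟨k, hk, ht⟩ := hG t ht
  have pos : 0 < 4 ^ (j + k) := by positivity
  refine ⟨4 * 4 ^ (j + k), ?_, ?_⟩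
  · have : j + k < 4 ^ (j + k) := Nat.lt_pow_self (by norm_num)
    omega
  have c0 : (Finset.Ico (2 * 4 ^ (j + k)) (4 * 4 ^ (j + k))).card = 2 * 4 ^ (j + k) := by
    rw [Nat.card_Ico]; omega
  have c1 := good_card (Finset.Ico (2 * 4 ^ (j + k)) (4 * 4 ^ (j + k)))
    (fun n => S p n x - h k) w w0
    (by
      rw [c0, w2]
      have := p1 k hk
      exact_mod_cast (by omega : 2 * (2 * 4 ^ (j + k)) ≤ 4 * 4 ^ (j + K)))
    (by
      rw [c0, Finset.sum_Ico_eq_sum_range,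
        show 4 * 4 ^ (j + k) - 2 * 4 ^ (j + k) = 2 * 4 ^ (j + k) by omega]
      have a2 := (hx k hk).2
      simp only [mem_preimage, Stay, mem_setOf_eq] at a2
      simp only [S_add, h, add_sub_cancel_left]
      have : 0 ≤ ((2 * 4 ^ (j + k) : ℕ) : ℝ) *
        S p (2 * 4 ^ (j + k)) (shift (2 * 4 ^ (j + k)) x) ^ 2 := by positivity
      linarith)
  rw [c0] at c1
  have e : ∑ n ∈ Finset.range (4 * 4 ^ (j + k)), E.indicator (fun _ => (1:ℝ)) (lam x (n + 1) • t)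
      = ∑ n ∈ Finset.Ico 1 (4 * 4 ^ (j + k) + 1), E.indicator (fun _ => (1:ℝ)) (lam x n • t) := by
    rw [Finset.sum_Ico_eq_sum_range]
    simp [add_comm 1]
  rw [e]
  refine le_trans ?_ (Finset.sum_le_sum_of_subset_of_nonneg (s := Good k) ?_
    fun _ _ _ => indicator_nonneg (fun _ _ => zero_le_one) _)
  · rw [Finset.sum_congr rfl (g := fun _ => (1:ℝ)) fun n hn => indicator_of_mem (ht n hn) _]
    simp only [Finset.sum_const, nsmul_eq_mul, mul_one]
    refine le_trans (le_of_eq ?_) c1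
    push_cast; ring
  · intro n hn
    have h2 := Finset.mem_Ico.1 (Finset.mem_filter.1 hn).1
    exact Finset.mem_Ico.2 (by omega)

lemma determ {p : ℝ} (hp0 : 0 ≤ p) (hp1 : p ≤ 1) (x : ℕ → Bool)
    (hx : ∀ K j1 : ℕ, ∃ j ≥ j1, ∀ k < K, x ∈ Ev p (4 * 2 ^ K) (4 ^ (j + k))) :
    ∃ E : Set UnitAddCircle, MeasurableSet E ∧
      ¬ ∀ᵐ t : UnitAddCircle, Tendsto (fun N : ℕ => (1 / (N : ℝ)) * ∑ n ∈ Finset.range N,
        E.indicator (fun _ => (1:ℝ)) (lam x (n + 1) • t)) atTop (𝓝 (volume.real E)) := by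
  haveI := probT
  have : ∀ i : ℕ, ∃ E G : Set UnitAddCircle, MeasurableSet E ∧ MeasurableSet G ∧
      volume.real E ≤ 1 / 8 / 2 / 2 ^ i ∧ 1 / 3 ≤ volume.real G ∧ ∀ t ∈ G, ∃ N : ℕ, i < N ∧
        (N : ℝ) / 4 ≤ ∑ n ∈ Finset.range N, E.indicator (fun _ => (1:ℝ)) (lam x (n + 1) • t) := by
    intro i
    obtain ⟨j, hj, h⟩ := hx (128 * 2 ^ i) i
    obtain ⟨E, G, mE, mG, vE, vG, hG⟩ := level2 hp0 hp1 x _ j (by positivity) h
    refine ⟨E, G, mE, mG, vE.trans (le_of_eq ?_), vG, fun t ht => ?_⟩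
    · push_cast; field_simp; norm_num
    · obtain ⟨N, h1, h2⟩ := hG t ht
      exact ⟨N, by omega, h2⟩
  choose E G mE mG vE vG hG using this
  refine ⟨⋃ i, E i, MeasurableSet.iUnion mE, fun hae => ?_⟩
  have vU : volume.real (⋃ i, E i) ≤ 1 / 8 := by
    refine ENNReal.toReal_le_of_le_ofReal (by norm_num) ((measure_iUnion_le _).trans ?_)
    rw [← (hasSum_geometric_two' (1 / 8 : ℝ)).tsum_eq,
      ENNReal.ofReal_tsum_of_nonneg (fun _ => by positivity) (summable_geometric_two' _)]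
    refine ENNReal.tsum_le_tsum fun i => ?_
    rw [← ofReal_measureReal (measure_ne_top _ _)]
    exact ENNReal.ofReal_le_ofReal (vE i)
  let C : ℕ → Set UnitAddCircle := fun i => {t | ∀ N : ℕ, i < N → (1 / (N : ℝ)) *
    ∑ n ∈ Finset.range N, (⋃ i, E i).indicator (fun _ => (1:ℝ)) (lam x (n + 1) • t) < 1 / 4}
  have Cm : Monotone C := fun i j hij t ht N hN => ht N (by omega)
  have C1 : ∀ i, volume (C i) ≤ ENNReal.ofReal (2 / 3) := by
    intro i
    have : C i ⊆ (G i)ᶜ := by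
      intro t ht htG
      obtain ⟨N, h1, h2⟩ := hG i t htG
      have h3 := ht N h1
      have N0 : (0:ℝ) < N := by exact_mod_cast (by omega : 0 < N)
      have h4 : ∑ n ∈ Finset.range N, (E i).indicator (fun _ => (1:ℝ)) (lam x (n + 1) • t) ≤
          ∑ n ∈ Finset.range N, (⋃ i, E i).indicator (fun _ => (1:ℝ)) (lam x (n + 1) • t) :=
        Finset.sum_le_sum fun n _ =>
          indicator_le_indicator_of_subset (subset_iUnion E i) (fun _ => zero_le_one) _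
      rw [one_div, inv_mul_lt_iff₀ N0] at h3
      linarith
    refine (measure_mono this).trans ?_
    rw [← ofReal_measureReal (measure_ne_top _ _), probReal_compl_eq_one_sub (mG i)]
    exact ENNReal.ofReal_le_ofReal (by linarith [vG i])
  have C2 : volume (⋃ i, C i) ≤ ENNReal.ofReal (2 / 3) := by
    rw [Cm.measure_iUnion]; exact iSup_le C1
  have C3 : ∀ᵐ t : UnitAddCircle, t ∈ ⋃ i, C i := by
    filter_upwards [hae] with t ht
    have := ht.eventually (gt_mem_nhds (show volume.real (⋃ i, E i) < 1 / 4 by linarith))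
    obtain ⟨i, hi⟩ := eventually_atTop.1 this
    exact mem_iUnion.2 ⟨i, fun N hN => hi N hN.le⟩
  have C4 : volume (univ : Set UnitAddCircle) ≤ volume (⋃ i, C i) :=
    measure_mono_ae (by filter_upwards [C3] with t ht _; exact ht)
  have := C4.trans C2
  rw [measure_univ, ENNReal.one_le_ofReal] at this
  norm_num at this

end Pool.Agent.H27.Khin
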