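import Pool.Agent.H27.Khin3

open MeasureTheory ProbabilityTheory Set Filter Topology

namespace Pool.Agent.H27.Khin

def Dep (A : Set (ℕ → Bool)) (a b : ℕ) : Prop :=
  ∀ x y : ℕ → Bool, (∀ i, a ≤ i → i < b → x i = y i) → x ∈ A → y ∈ A

lemma Dep.eq {A a b} (h : Dep A a b) :
    A = (fun (x : ℕ → Bool) (i : Finset.Ico a b) => x i) ⁻¹'
      ((fun (x : ℕ → Bool) (i : Finset.Ico a b) => x i) '' A) := by
  refine Subset.antisymm (subset_preimage_image _ _) ?_
  rintro y ⟨x, hx, e⟩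
  exact h x y (fun i h1 h2 => congrFun e ⟨i, Finset.mem_Ico.2 ⟨h1, h2⟩⟩) hx

lemma Dep.meas {A a b} (h : Dep A a b) : MeasurableSet A := by
  rw [h.eq]
  exact (by fun_prop : Measurable (fun (x : ℕ → Bool) (i : Finset.Ico a b) => x i))
    (toFinite _).measurableSet

lemma Dep.mono {A a b c d} (h : Dep A a b) (h1 : c ≤ a) (h2 : b ≤ d) : Dep A c d :=
  fun x y e => h x y fun i h3 h4 => e i (by omega) (by omega)

lemma Dep.inter {A B a b} (h : Dep A a b) (h' : Dep B a b) : Dep (A ∩ B) a b :=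
  fun x y e hx => ⟨h x y e hx.1, h' x y e hx.2⟩

lemma Dep.compl {A a b} (h : Dep A a b) : Dep Aᶜ a b :=
  fun x y e hx hy => hx (h y x (fun i h1 h2 => (e i h1 h2).symm) hy)

lemma Dep.shift {A n} (h : Dep A 0 n) (s : ℕ) : Dep (shift s ⁻¹' A) s (s + n) :=
  fun x y e hx => h _ _ (fun i _ h2 => e (s + i) (by omega) (by omega)) hx

lemma S_congr (p : ℝ) {n : ℕ} {x y : ℕ → Bool} (e : ∀ i < n, x i = y i) : S p n x = S p n y :=
  Finset.sum_congr rfl fun i hi => by rw [e i (Finset.mem_range.1 hi)]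

lemma dep_Jump (p M : ℝ) (n : ℕ) : Dep (Jump p M n) 0 n := fun x y e hx => by
  simp only [Jump, mem_setOf_eq] at hx ⊢
  rwa [← S_congr p fun i hi => e i (Nat.zero_le _) hi]

lemma dep_Stay (p : ℝ) (n : ℕ) : Dep (Stay p n) 0 n := fun x y e hx => by
  simp only [Stay, mem_setOf_eq] at hx ⊢
  have h1 : ∑ i ∈ Finset.range n, S p i x ^ 2 = ∑ i ∈ Finset.range n, S p i y ^ 2 :=
    Finset.sum_congr rfl fun m hm => by
      rw [S_congr p (x := x) (y := y) fun i hi => e i (Nat.zero_le _)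
        (hi.trans (Finset.mem_range.1 hm))]
  rwa [← S_congr p fun i hi => e i (Nat.zero_le _) hi, ← h1]

lemma dep_Ev (p M : ℝ) (n : ℕ) : Dep (Ev p M n) n (4 * n) :=
  (((dep_Jump p M n).shift n).mono le_rfl (by omega)).inter
    (((dep_Stay p (2 * n)).shift (2 * n)).mono (by omega) (by omega))

variable (ν : Measure Bool) [IsProbabilityMeasure ν]

noncomputable abbrev PP : Measure (ℕ → Bool) := Measure.infinitePi fun _ : ℕ => ν

lemma indepc : iIndepFun (fun (i : ℕ) (x : ℕ → Bool) => x i) (PP ν) :=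
  iIndepFun_infinitePi (X := fun _ b => b) (fun _ => measurable_id)

lemma Dep.indep {A B a b c d} (h : Dep A a b) (h' : Dep B c d) (hbc : b ≤ c) :
    (PP ν).real (A ∩ B) = (PP ν).real A * (PP ν).real B := by
  have := (indepc ν).indepFun_finset (Finset.Ico a b) (Finset.Ico c d)
    (Finset.disjoint_left.2 fun i h1 h2 => by
      have := Finset.mem_Ico.1 h1; have := Finset.mem_Ico.1 h2; omega)
    (fun i => measurable_pi_apply i)
  have e := this.measure_inter_preimage_eq_mul _ _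
    (toFinite ((fun (x : ℕ → Bool) (i : Finset.Ico a b) => x i) '' A)).measurableSet
    (toFinite ((fun (x : ℕ → Bool) (i : Finset.Ico c d) => x i) '' B)).measurableSet
  rw [← h.eq, ← h'.eq] at e
  simp only [measureReal_def, e, ENNReal.toReal_mul]

lemma shift_mp (s : ℕ) : MeasurePreserving (shift s) (PP ν) (PP ν) :=
  ⟨by unfold shift; fun_prop,
    Measure.map_infinitePi_infinitePi_of_inj (f := fun i => s + i) (add_right_injective s)⟩

lemma runs (E : ℕ → Set (ℕ → Bool)) (hE : ∀ j, Dep (E j) (4 ^ j) (4 ^ (j + 1))) (c : ℝ)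
    (hc : 0 < c) (j0 : ℕ) (hP : ∀ j ≥ j0, c ≤ (PP ν).real (E j)) (K j1 : ℕ) :
    ∀ᵐ x ∂(PP ν), ∃ j ≥ j1, ∀ k < K, x ∈ E (j + k) := by
  have pm : ∀ {a b : ℕ}, a ≤ b → 4 ^ a ≤ 4 ^ b := fun h => Nat.pow_le_pow_right (by norm_num) h
  let G : ℕ → ℕ → Set (ℕ → Bool) := fun j K => {x | ∀ k < K, x ∈ E (j + k)}
  have dG : ∀ j K, Dep (G j K) (4 ^ j) (4 ^ (j + K)) := fun j K x y e hx k hk =>
    ((hE (j + k)).mono (pm (by omega)) (pm (by omega))) x y e (hx k hk)
  have pG : ∀ j ≥ j0, ∀ K, c ^ K ≤ (PP ν).real (G j K) := by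
    intro j hj K
    induction K with
    | zero => simp [G]
    | succ K ih =>
      have : G j (K + 1) = G j K ∩ E (j + K) := by
        ext x; exact Nat.forall_lt_succ_right
      rw [this, (dG j K).indep ν (hE (j + K)) le_rfl, pow_succ]
      exact mul_le_mul ih (hP _ (by omega)) hc.le measureReal_nonneg
  set s := max j0 j1
  let H : ℕ → Set (ℕ → Bool) := fun r => {x | ∀ i < r, x ∈ (G (s + i * K) K)ᶜ}
  have dH : ∀ r, Dep (H r) 0 (4 ^ (s + r * K)) := fun r x y e hx i hi =>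
    ((dG (s + i * K) K).compl.mono (Nat.zero_le _) (pm (by nlinarith))) x y e (hx i hi)
  have c1 : c ^ K ≤ 1 := (pG j0 le_rfl K).trans measureReal_le_one
  have pH : ∀ r, (PP ν).real (H r) ≤ (1 - c ^ K) ^ r := by
    intro r
    induction r with
    | zero => simp [H]
    | succ r ih =>
      have : H (r + 1) = H r ∩ (G (s + r * K) K)ᶜ := by
        ext x; exact Nat.forall_lt_succ_right
      rw [this, (dH r).indep ν (dG _ K).compl le_rfl, pow_succ,
        probReal_compl_eq_one_sub (dG _ K).meas]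
      refine mul_le_mul ih ?_ ?_ (pow_nonneg (by linarith) _)
      · linarith [pG (s + r * K) (le_trans (le_max_left _ _) (Nat.le_add_right _ _)) K]
      · linarith [measureReal_le_one (μ := PP ν) (s := G (s + r * K) K)]
  rw [ae_iff]
  have lim : Tendsto (fun r : ℕ => (1 - c ^ K) ^ r) atTop (𝓝 0) :=
    tendsto_pow_atTop_nhds_zero_of_lt_one (by linarith) (by linarith [pow_pos hc K])
  rw [← measureReal_eq_zero_iff]
  refine le_antisymm (ge_of_tendsto' lim fun r => le_trans (measureReal_mono ?_) (pH r))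
    measureReal_nonneg
  intro x hx i _ hxG
  exact hx ⟨s + i * K, le_trans (le_max_right _ _) (Nat.le_add_right _ _), hxG⟩

variable {p : ℝ}

lemma meas_xi : Measurable xi := measurable_of_countable _

lemma xi_mem (b : Bool) : xi b ∈ Icc (0:ℝ) 1 := by cases b <;> simp [xi]

lemma memLp_X (i : ℕ) : MemLp (fun x : ℕ → Bool => xi (x i)) 2 (PP ν) :=
  memLp_of_bounded (ae_of_all _ fun x : ℕ → Bool => xi_mem (x i))
    (meas_xi.comp (measurable_pi_apply i)).aestronglyMeasurable 2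

lemma int_X (hν : ν.real {true} = p) (i : ℕ) : ∫ x, xi (x i) ∂(PP ν) = p := by
  have h := (measurePreserving_eval_infinitePi (fun _ : ℕ => ν) i)
  have : ∫ x, xi (x i) ∂(PP ν) = ∫ b, xi b ∂ν := by
    rw [← h.map_eq, integral_map h.measurable.aemeasurable meas_xi.aestronglyMeasurable,
      h.map_eq]
  rw [this, integral_fintype Integrable.of_finite]
  simp [xi, hν]

lemma memLp_S (n : ℕ) : MemLp (S p n) 2 (PP ν) :=
  memLp_finset_sum _ fun i _ => (memLp_X ν i).sub (memLp_const p)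

lemma int_S2 (hν : ν.real {true} = p) (n : ℕ) : ∫ x, S p n x ^ 2 ∂(PP ν) ≤ n / 4 := by
  have h0 : ∫ x, S p n x ∂(PP ν) = 0 := by
    unfold S
    rw [integral_finset_sum (f := fun i (x : ℕ → Bool) => xi (x i) - p) _ fun i _ =>
      ((memLp_X ν i).integrable one_le_two).sub (integrable_const p)]
    refine Finset.sum_eq_zero fun i _ => ?_
    rw [integral_sub ((memLp_X ν i).integrable one_le_two) (integrable_const p), int_X ν hν]
    simp
  rw [← variance_of_integral_eq_zero (memLp_S ν n).aemeasurable h0]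
  have e : S p n = ∑ i ∈ Finset.range n, fun x : ℕ → Bool => xi (x i) - p := by
    ext x; simp [S]
  rw [e, IndepFun.variance_sum (X := fun i (x : ℕ → Bool) => xi (x i) - p) (fun i _ => (memLp_X ν i).sub (memLp_const p))
    (fun i _ j _ hij => ((indepc ν).indepFun hij).comp (φ := fun b => xi b - p)
      (ψ := fun b => xi b - p) (measurable_of_countable _) (measurable_of_countable _))]
  have : ∀ i ∈ Finset.range n, Var[fun x : ℕ → Bool => xi (x i) - p; PP ν] ≤ 1 / 4 := by
    intro i _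
    rw [variance_sub_const (memLp_X ν i).aestronglyMeasurable]
    have := variance_le_sq_of_bounded (μ := PP ν) (X := fun x : ℕ → Bool => xi (x i))
      (ae_of_all _ fun x : ℕ → Bool => xi_mem (x i)) (memLp_X ν i).aemeasurable
    linarith
  refine (Finset.sum_le_sum this).trans ?_
  simp; ring_nf; rfl

lemma prob_Stay (hν : ν.real {true} = p) {l : ℕ} (hl : 0 < l) :
    1 / 2 ≤ (PP ν).real (Stay p l) := by
  have i2 : ∀ n, Integrable (fun x => S p n x ^ 2) (PP ν) := fun n => (memLp_S ν n).integrable_sq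
  have hi : Integrable (fun x => ∑ i ∈ Finset.range l, S p i x ^ 2 + l * S p l x ^ 2) (PP ν) :=
    (integrable_finset_sum _ fun i _ => i2 i).add ((i2 l).const_mul _)
  have h := mul_meas_ge_le_integral_of_nonneg (ae_of_all _ fun x => by
    have : 0 ≤ ∑ i ∈ Finset.range l, S p i x ^ 2 := Finset.sum_nonneg fun _ _ => sq_nonneg _
    show 0 ≤ _
    positivity) hi ((l : ℝ) ^ 2)
  rw [integral_add (integrable_finset_sum _ fun i _ => i2 i) ((i2 l).const_mul _),
    integral_finset_sum _ fun i _ => i2 i, integral_const_mul] at h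
  have h1 : ∑ i ∈ Finset.range l, ∫ x, S p i x ^ 2 ∂(PP ν) ≤ l * (l / 4) := by
    have : ∀ i ∈ Finset.range l, ∫ x, S p i x ^ 2 ∂(PP ν) ≤ l / 4 := fun i hi =>
      (int_S2 ν hν i).trans (by
        have : (i : ℝ) ≤ l := by exact_mod_cast (Finset.mem_range.1 hi).le
        linarith)
    simpa using Finset.sum_le_sum this
  have l0 : (0:ℝ) < l := by exact_mod_cast hl
  have h2 := mul_le_mul_of_nonneg_left (int_S2 ν hν l) l0.le
  have e : {x | (l : ℝ) ^ 2 ≤ ∑ i ∈ Finset.range l, S p i x ^ 2 + l * S p l x ^ 2}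
      = (Stay p l)ᶜ := by ext x; simp [Stay]
  rw [e, probReal_compl_eq_one_sub (dep_Stay p l).meas] at h
  by_contra hh
  push Not at hh
  nlinarith [sq_pos_of_pos l0]

lemma prob_Jump (hν : ν.real {true} = p) (hp0 : 0 < p) (hp1 : p < 1) (M : ℝ) :
    ∃ c > 0, ∀ᶠ n in atTop, c ≤ (PP ν).real (Jump p M n) := by
  let X : ℕ → (ℕ → Bool) → ℝ := fun i x => xi (x i)
  have hv : Var[X 0; PP ν] = p - p ^ 2 := by
    rw [variance_eq_sub (memLp_X ν 0)]
    have : (fun x : ℕ → Bool => xi (x 0)) ^ 2 = fun x => xi (x 0) := by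
      ext x; cases h : x 0 <;> simp [xi, h]
    rw [this, int_X ν hν]
  have hv0 : Var[X 0; PP ν].toNNReal ≠ 0 := by
    rw [hv]; simp; nlinarith
  have clt := tendstoInDistribution_inv_sqrt_mul_sum_sub (X := X) (P := PP ν)
    (HasLaw.id (μ := gaussianReal 0 Var[X 0; PP ν].toNNReal)) (memLp_X ν 0)
    ((indepc ν).comp (fun _ => xi) fun _ => meas_xi)
    (fun i => ((measurePreserving_eval_infinitePi (fun _ : ℕ => ν) i).hasLaw.identDistrib
      (measurePreserving_eval_infinitePi (fun _ : ℕ => ν) 0).hasLaw).comp meas_xi)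
  have po := ProbabilityMeasure.le_liminf_measure_open_of_tendsto clt.tendsto (isOpen_Ioi (a := M))
  simp only [ProbabilityMeasure.coe_mk, Measure.map_id] at po
  have g0 : 0 < gaussianReal 0 Var[X 0; PP ν].toNNReal (Ioi M) := by
    rw [pos_iff_ne_zero]
    intro h
    simpa using gaussianReal_absolutelyContinuous' 0 hv0 h
  obtain ⟨c, c0, c1⟩ := ENNReal.lt_iff_exists_nnreal_btwn.1 g0
  refine ⟨c, by exact_mod_cast c0, ?_⟩
  filter_upwards [eventually_lt_of_lt_liminf (c1.trans_le po), eventually_gt_atTop 0] with n hn n0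
  rw [Measure.map_apply_of_aemeasurable (clt.forall_aemeasurable n) measurableSet_Ioi] at hn
  have e : (fun x => (√n)⁻¹ * (∑ k ∈ Finset.range n, X k x - n * ∫ x, X 0 x ∂(PP ν))) ⁻¹' Ioi M
      = Jump p M n := by
    ext x
    have : 0 < √(n : ℝ) := Real.sqrt_pos.2 (by exact_mod_cast n0)
    simp only [mem_preimage, mem_Ioi, Jump, mem_setOf_eq, X, int_X ν hν, S,
      Finset.sum_sub_distrib]
    rw [lt_inv_mul_iff₀ this, mul_comm]; simp
  rw [e] at hn
  have := ENNReal.toReal_mono (measure_ne_top _ _) hn.le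
  simpa [measureReal_def] using this

theorem main (hν : ν.real {true} = p) (hp0 : 0 < p) (hp1 : p < 1) :
    ∀ᵐ x ∂(PP ν), ∀ K j1 : ℕ, ∃ j ≥ j1, ∀ k < K, x ∈ Ev p (4 * 2 ^ K) (4 ^ (j + k)) := by
  rw [ae_all_iff]; intro K
  rw [ae_all_iff]; intro j1
  obtain ⟨c, c0, hc⟩ := prob_Jump ν hν hp0 hp1 (4 * 2 ^ K)
  obtain ⟨n0, hn0⟩ := eventually_atTop.1 hc
  refine runs ν (fun j => Ev p (4 * 2 ^ K) (4 ^ j))
    (fun j => (dep_Ev p _ _).mono le_rfl (by rw [pow_succ'])) (c * (1 / 2)) (by positivity) n0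
    (fun j hj => ?_) K j1
  have hj' : j < 4 ^ j := Nat.lt_pow_self (by norm_num)
  rw [Ev, ((dep_Jump p _ _).shift _).indep ν ((dep_Stay p _).shift _) (by omega),
    (shift_mp ν _).measureReal_preimage (dep_Jump p _ _).meas.nullMeasurableSet,
    (shift_mp ν _).measureReal_preimage (dep_Stay p _).meas.nullMeasurableSet]
  exact mul_le_mul (hn0 _ (by omega)) (prob_Stay ν hν (by omega)) (by norm_num) measureReal_nonneg

end Pool.Agent.H27.Khin
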