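import Mathlib

open MeasureTheory Set Filter Topology Metric
open scoped ENNReal

namespace Pool.Agent.H27.Kob

variable {E : Type} [NormedAddCommGroup E] [NormedSpace ℂ E]

/-- The infinitesimal Kobayashi (Kobayashi-Royden) metric of `Ω` at `p` on the vector `v`. -/
noncomputable def kobF (Ω : Set E) (p v : E) : ℝ≥0∞ :=
  ⨅ (f : ℂ → E) (c : ℂ) (_ : DifferentiableOn ℂ f (ball 0 1)) (_ : MapsTo f (ball 0 1) Ω)
    (_ : f 0 = p) (_ : c • deriv f 0 = v), ‖c‖ₑ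

/-- The Kobayashi distance: the integrated form of the infinitesimal metric. -/
noncomputable def kob (Ω : Set E) (p q : E) : ℝ≥0∞ :=
  ⨅ (γ : ℝ → E) (_ : ContDiffOn ℝ 1 γ (Icc 0 1)) (_ : MapsTo γ (Icc 0 1) Ω)
    (_ : γ 0 = p) (_ : γ 1 = q), ∫⁻ t in Icc (0:ℝ) 1, kobF Ω (γ t) (derivWithin γ (Icc 0 1) t)

lemma upper {Ω : Set E} {f : ℂ → E} (hf : DifferentiableOn ℂ f (ball 0 1))
    (hm : MapsTo f (ball 0 1) Ω) {t : ℝ} (t0 : 0 ≤ t) (t1 : t < 1) [CompleteSpace E] :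
    kob Ω (f 0) (f t) ≤ ENNReal.ofReal (t / (1 - t)) := by
  have hb : ∀ s ∈ Icc (0:ℝ) 1, ‖((s * t : ℝ) : ℂ)‖ ≤ t := by
    intro s hs
    rw [Complex.norm_real, Real.norm_of_nonneg (mul_nonneg hs.1 t0)]
    exact mul_le_of_le_one_left t0 hs.2
  have hb' : ∀ s ∈ Icc (0:ℝ) 1, ((s * t : ℝ) : ℂ) ∈ ball (0:ℂ) 1 := fun s hs =>
    mem_ball_zero_iff.2 ((hb s hs).trans_lt t1)
  let γ : ℝ → E := fun s => f ((s * t : ℝ) : ℂ)
  have hγ : ContDiffOn ℝ 1 γ (Icc 0 1) := by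
    have h1 : ContDiffOn ℝ 1 f (ball 0 1) := (hf.contDiffOn isOpen_ball).restrict_scalars ℝ
    have h2 : ContDiff ℝ 1 fun s : ℝ => s * t := by fun_prop
    exact h1.comp (Complex.ofRealCLM.contDiff.comp h2).contDiffOn hb'
  unfold kob
  refine iInf_le_of_le γ <| iInf_le_of_le hγ <| iInf_le_of_le (fun s hs => hm (hb' s hs)) <|
    iInf_le_of_le (by simp [γ]) <| iInf_le_of_le (by simp [γ]) ?_
  have : ∀ s ∈ Icc (0:ℝ) 1, kobF Ω (γ s) (derivWithin γ (Icc 0 1) s)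
      ≤ ENNReal.ofReal (t / (1 - t)) := by
    intro s hs
    set a : ℂ := ((s * t : ℝ) : ℂ) with ha
    have hfa : HasDerivAt f (deriv f a) a :=
      (hf.differentiableAt (isOpen_ball.mem_nhds (hb' s hs))).hasDerivAt
    have d1 : HasDerivAt γ ((t : ℂ) • deriv f a) s := by
      have : HasDerivAt (fun s : ℝ => ((s * t : ℝ) : ℂ)) (t : ℂ) s := by
        simpa using ((hasDerivAt_id s).mul_const t).ofReal_comp
      exact hfa.scomp s this
    have hin : MapsTo (fun ζ : ℂ => a + (1 - t) * ζ) (ball 0 1) (ball 0 1) := by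
      intro ζ hζ
      rw [mem_ball_zero_iff] at hζ ⊢
      refine (norm_add_le _ _).trans_lt ?_
      have : ‖(1 - t : ℂ)‖ = 1 - t := by
        rw [show (1 - t : ℂ) = ((1 - t : ℝ) : ℂ) by simp, Complex.norm_real,
          Real.norm_of_nonneg (by linarith)]
      rw [norm_mul, this]
      have := hb s hs
      nlinarith
    have d2 : HasDerivAt (fun ζ : ℂ => f (a + (1 - t) * ζ)) ((1 - t : ℂ) • deriv f a) 0 := by
      have h2 : HasDerivAt (fun ζ : ℂ => a + (1 - t) * ζ) (1 - t) 0 := by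
        simpa using ((hasDerivAt_id (0:ℂ)).const_mul (1 - t : ℂ)).const_add a
      exact HasDerivAt.scomp_of_eq 0 hfa h2 (by simp)
    have t2 : (1 - t : ℂ) ≠ 0 := by
      rw [show (1 - t : ℂ) = ((1 - t : ℝ) : ℂ) by simp]
      exact_mod_cast (by linarith : (1 - t) ≠ 0)
    unfold kobF
    refine iInf_le_of_le (fun ζ : ℂ => f (a + (1 - t) * ζ)) <|
      iInf_le_of_le ((t / (1 - t) : ℝ) : ℂ) <|
      iInf_le_of_le (hf.comp (by fun_prop) hin) <| iInf_le_of_le (hm.comp hin) <|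
      iInf_le_of_le (by simp [γ, ha]) <| iInf_le_of_le ?_ ?_
    · rw [d2.deriv, d1.hasDerivWithinAt.derivWithin (uniqueDiffOn_Icc zero_lt_one s hs),
        smul_smul]
      congr 1
      push_cast; field_simp
    · rw [← ofReal_norm_eq_enorm, Complex.norm_real,
        Real.norm_of_nonneg (div_nonneg t0 (by linarith))]
  refine (setLIntegral_mono' measurableSet_Icc this).trans ?_
  simp

lemma lower {G : Type} [NormedAddCommGroup G] [NormedSpace ℝ G] {Ω : Set E} (hΩ : IsOpen Ω)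
    {Φ : E → G} (hΦ : ContDiffOn ℝ 1 Φ Ω)
    (hb : ∀ f : ℂ → E, DifferentiableOn ℂ f (ball 0 1) → MapsTo f (ball 0 1) Ω →
      ∀ ζ : ℂ, ‖ζ‖ < 1 / 2 → ‖Φ (f ζ) - Φ (f 0)‖ ≤ 4 * ‖ζ‖) (p q : E) :
    ‖Φ q - Φ p‖ₑ ≤ 4 * kob Ω p q := by
  have key : ∀ x ∈ Ω, ∀ v, ‖fderiv ℝ Φ x v‖ₑ ≤ 4 * kobF Ω x v := by
    intro x hx v
    simp only [kobF, ENNReal.mul_iInf_of_ne (show (4:ℝ≥0∞) ≠ 0 by simp) (by simp), le_iInf_iff]
    rintro f c hf hm rfl rfl
    have hf0 : HasDerivAt f (deriv f 0) 0 :=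
      (hf.differentiableAt (ball_mem_nhds _ one_pos)).hasDerivAt
    have d0 : HasDerivAt (fun s : ℝ => (s : ℂ) * c) c 0 := by
      simpa using ((hasDerivAt_id (0:ℝ)).ofReal_comp).mul_const c
    have d1 : HasDerivAt (fun s : ℝ => f ((s : ℂ) * c)) (c • deriv f 0) 0 :=
      HasDerivAt.scomp_of_eq 0 hf0 d0 (by simp)
    have d2 : HasFDerivAt Φ (fderiv ℝ Φ (f 0)) (f 0) :=
      ((hΦ.differentiableOn one_ne_zero).differentiableAt (hΩ.mem_nhds hx)).hasFDerivAt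
    have d3 := d2.comp_hasDerivAt_of_eq 0 d1 (by simp)
    have := d3.le_of_lip' (C := 4 * ‖c‖) (by positivity) (by
      have : ∀ᶠ s : ℝ in 𝓝 0, ‖(s : ℂ) * c‖ < 1 / 2 :=
        (by fun_prop : Continuous fun s : ℝ => ‖(s : ℂ) * c‖).continuousAt.eventually_lt
          continuousAt_const (by simp)
      filter_upwards [this] with s hs
      have := hb f hf hm _ hs
      simp only [Function.comp, Complex.ofReal_zero, zero_mul, sub_zero]
      refine this.trans (le_of_eq ?_)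
      rw [norm_mul, Complex.norm_real]; ring)
    rw [← ofReal_norm_eq_enorm, ← ofReal_norm_eq_enorm,
      show (4:ℝ≥0∞) = ENNReal.ofReal 4 by simp, ← ENNReal.ofReal_mul (by norm_num)]
    exact ENNReal.ofReal_le_ofReal this
  simp only [kob, ENNReal.mul_iInf_of_ne (show (4:ℝ≥0∞) ≠ 0 by simp) (by simp), le_iInf_iff]
  rintro γ hγ hm rfl rfl
  refine (enorm_sub_le_lintegral_derivWithin_Icc_of_contDiffOn_Icc (hΦ.comp hγ hm)
    zero_le_one).trans ?_
  rw [← lintegral_const_mul' _ _ (by simp)]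
  refine setLIntegral_mono' measurableSet_Icc fun t ht => ?_
  have d2 : HasFDerivAt Φ (fderiv ℝ Φ (γ t)) (γ t) :=
    ((hΦ.differentiableOn one_ne_zero).differentiableAt (hΩ.mem_nhds (hm ht))).hasFDerivAt
  have d3 := d2.comp_hasDerivWithinAt t
    ((hγ.differentiableOn one_ne_zero t ht).hasDerivWithinAt)
  rw [d3.derivWithin (uniqueDiffOn_Icc zero_lt_one t ht)]
  exact key _ (hm ht) _

lemma harnack {G : ℂ → ℂ} (hG : DifferentiableOn ℂ G (ball 0 1))
    (hp : ∀ ζ ∈ ball (0:ℂ) 1, 0 < (G ζ).re) {ζ : ℂ} (hζ : ‖ζ‖ < 1 / 2) :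
    ‖Real.log (G ζ).re - Real.log (G 0).re‖ ≤ 4 * ‖ζ‖ := by
  have h0 := hp 0 (mem_ball_self one_pos)
  have hne : ∀ ζ ∈ ball (0:ℂ) 1, G ζ + (starRingEnd ℂ) (G 0) ≠ 0 := by
    intro ζ hζ h
    have := congrArg Complex.re h
    simp at this
    linarith [hp ζ hζ]
  have hle : ∀ ζ ∈ ball (0:ℂ) 1, ‖G ζ - G 0‖ ≤ ‖G ζ + (starRingEnd ℂ) (G 0)‖ := by
    intro ζ hζ
    rw [← sq_le_sq₀ (norm_nonneg _) (norm_nonneg _), Complex.sq_norm, Complex.sq_norm,
      Complex.normSq_apply, Complex.normSq_apply]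
    simp
    nlinarith [mul_pos h0 (hp ζ hζ)]
  have hζ1 : ζ ∈ ball (0:ℂ) 1 := mem_ball_zero_iff.2 (by linarith)
  have := Complex.norm_le_norm_of_mapsTo_ball
    (f := fun ζ => (G ζ - G 0) / (G ζ + (starRingEnd ℂ) (G 0))) (R := 1) (z := ζ)
    ((hG.sub_const _).div (hG.add_const _) hne)
    (fun ζ hζ => by
      rw [mem_closedBall_zero_iff, norm_div]
      exact div_le_one_of_le₀ (hle ζ hζ) (norm_nonneg _)) (by simp) (by linarith)
  rw [norm_div, div_le_iff₀ (norm_pos_iff.2 (hne ζ hζ1))] at this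
  have h2 := pow_le_pow_left₀ (norm_nonneg _) this 2
  rw [mul_pow, Complex.sq_norm (G ζ - _), Complex.sq_norm (G ζ + _), Complex.normSq_apply,
    Complex.normSq_apply] at h2
  simp only [Complex.sub_re, Complex.sub_im, Complex.add_re, Complex.add_im, Complex.conj_re,
    Complex.conj_im] at h2
  have hx := hp ζ hζ1
  set x := (G ζ).re
  set a := (G 0).re
  set t := ‖ζ‖
  have t0 : 0 ≤ t := norm_nonneg _
  have h3 : (x - a) ^ 2 ≤ (t * (x + a)) ^ 2 := by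
    have : t ^ 2 ≤ 1 := by nlinarith
    nlinarith [sq_nonneg ((G ζ).im - (G 0).im)]
  have h4 := abs_le.1 (abs_le_of_sq_le_sq' h3 (by positivity) |> fun h => abs_le.2 h)
  have l1 : Real.log x - Real.log a ≤ 4 * t := by
    rw [← Real.log_div hx.ne' h0.ne']
    refine (Real.log_le_sub_one_of_pos (by positivity)).trans ?_
    rw [sub_le_iff_le_add, div_le_iff₀ h0]
    nlinarith [h4.2, mul_nonneg t0 h0.le]
  have l2 : Real.log a - Real.log x ≤ 4 * t := by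
    rw [← Real.log_div h0.ne' hx.ne']
    refine (Real.log_le_sub_one_of_pos (by positivity)).trans ?_
    rw [sub_le_iff_le_add, div_le_iff₀ hx]
    nlinarith [h4.1, mul_nonneg t0 hx.le]
  rw [Real.norm_eq_abs, abs_le]
  constructor <;> linarith

lemma exists_log {g : ℂ → ℂ} (hg : DifferentiableOn ℂ g (ball 0 1))
    (h0 : ∀ ζ ∈ ball (0:ℂ) 1, g ζ ≠ 0) :
    ∃ G : ℂ → ℂ, DifferentiableOn ℂ G (ball 0 1) ∧ ∀ ζ ∈ ball (0:ℂ) 1, Complex.exp (G ζ) = g ζ := by
  have h1 : DifferentiableOn ℂ (fun ζ => deriv g ζ / g ζ) (ball 0 1) :=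
    (hg.deriv isOpen_ball).div hg h0
  obtain ⟨G, G0, hG⟩ := h1.isExactOn_ball.with_val_at 0 (Complex.log (g 0))
  have dG : DifferentiableOn ℂ G (ball 0 1) := fun ζ hζ =>
    (hG ζ hζ).differentiableAt.differentiableWithinAt
  refine ⟨G, dG, fun ζ hζ => ?_⟩
  have := isOpen_ball.is_const_of_deriv_eq_zero (convex_ball (0:ℂ) 1).isPreconnected
    (f := fun ζ => Complex.exp (G ζ) / g ζ) (dG.cexp.div hg h0) (fun ζ hζ => by
      have d := ((hG ζ hζ).cexp).div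
        (hg.differentiableAt (isOpen_ball.mem_nhds hζ)).hasDerivAt (h0 ζ hζ)
      have := h0 ζ hζ
      refine d.deriv.trans ?_
      simp only [Pi.zero_apply]
      field_simp
      simp) hζ (mem_ball_self one_pos)
  have g0 := h0 0 (mem_ball_self one_pos)
  simp only [G0, Complex.exp_log g0, div_self g0] at this
  exact (div_eq_one_iff_eq (h0 ζ hζ)).1 this

end Pool.Agent.H27.Kob
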