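import Pool.Agent.H27.Kob

open MeasureTheory Set Filter Topology Metric
open scoped ENNReal

namespace Pool.Agent.H27.Kob

def Om (k : ℕ) : Set (ℂ × ℂ) := {x | ‖x.1‖ < 1 ∧ ‖x.2‖ < ‖x.1‖ ^ k}

variable {k : ℕ}

lemma ne0 (hk : k ≠ 0) {x : ℂ × ℂ} (hx : x ∈ Om k) : x.1 ≠ 0 := by
  intro h
  have := hx.2
  rw [h, norm_zero, zero_pow hk] at this
  exact (norm_nonneg _).not_gt this

lemma psi_lt (hk : k ≠ 0) {x : ℂ × ℂ} (hx : x ∈ Om k) : ‖x.2 / x.1 ^ k‖ < 1 := by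
  rw [norm_div, norm_pow, div_lt_one (pow_pos (norm_pos_iff.2 (ne0 hk hx)) _)]
  exact hx.2

lemma open_Om : IsOpen (Om k) :=
  (isOpen_lt (f := fun x : ℂ × ℂ => ‖x.1‖) (g := fun _ => 1) (by fun_prop) continuous_const).inter
    (isOpen_lt (f := fun x : ℂ × ℂ => ‖x.2‖) (g := fun x => ‖x.1‖ ^ k) (by fun_prop) (by fun_prop))

lemma norm_le {x : ℂ × ℂ} (hx : x ∈ Om k) : ‖x‖ ≤ 1 :=
  max_le hx.1.le (hx.2.le.trans (pow_le_one₀ (norm_nonneg _) hx.1.le))

lemma mem_Om {g b : ℂ} (hg : g.re < 0) (hb : ‖b‖ < 1) :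
    (Complex.exp g, Complex.exp g ^ k * b) ∈ Om k := by
  refine ⟨by simpa [Complex.norm_exp] using hg, ?_⟩
  simp only [norm_mul, norm_pow]
  exact mul_lt_of_lt_one_right (pow_pos (norm_pos_iff.2 (Complex.exp_ne_zero g)) _) hb

lemma log_re_neg (hk : k ≠ 0) {x : ℂ × ℂ} (hx : x ∈ Om k) : Real.log ‖x.1‖ < 0 :=
  Real.log_neg (norm_pos_iff.2 (ne0 hk hx)) hx.1

lemma conn_Om (hk : k ≠ 0) : IsConnected (Om k) := by
  have : Om k = (fun y : ℂ × ℂ => (Complex.exp y.1, Complex.exp y.1 ^ k * y.2)) ''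
      ({g : ℂ | g.re < 0} ×ˢ ball (0:ℂ) 1) := by
    ext x
    constructor
    · intro hx
      refine ⟨(Complex.log x.1, x.2 / x.1 ^ k), ⟨?_, mem_ball_zero_iff.2 (psi_lt hk hx)⟩, ?_⟩
      · simpa [Complex.log_re] using log_re_neg hk hx
      · have := ne0 hk hx
        simp only [Complex.exp_log this]
        ext <;> simp; field_simp
    · rintro ⟨y, hy, rfl⟩
      exact mem_Om hy.1 (mem_ball_zero_iff.1 hy.2)
  rw [this]
  refine IsConnected.image ?_ _ (by fun_prop)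
  exact ((convex_halfSpace_re_lt 0).prod (convex_ball _ _)).isConnected
    ⟨(-1, 0), by simp⟩

lemma low1 (p q : ℂ × ℂ) : ‖q - p‖ₑ ≤ 4 * kob (Om k) p q := by
  refine lower (Φ := id) open_Om contDiffOn_id (fun f hf hm ζ hζ => ?_) p q
  have := Complex.dist_le_div_mul_dist_of_mapsTo_ball (R₂ := 2) hf (fun z hz => by
    rw [mem_closedBall, dist_eq_norm]
    linarith [norm_sub_le (f z) (f 0), norm_le (hm hz), norm_le (hm (mem_ball_self one_pos))])
    (mem_ball_zero_iff.2 (by linarith : ‖ζ‖ < 1))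
  simp only [dist_eq_norm, sub_zero, id] at this ⊢
  linarith [norm_nonneg ζ]

lemma low2 (hk : k ≠ 0) (p q : ℂ × ℂ) :
    ‖Real.log (-Real.log ‖q.1‖) - Real.log (-Real.log ‖p.1‖)‖ₑ ≤ 4 * kob (Om k) p q := by
  refine lower (Φ := fun x : ℂ × ℂ => Real.log (-Real.log ‖x.1‖)) open_Om (fun x hx => ?_)
    (fun f hf hm ζ hζ => ?_) p q
  · refine ContDiffAt.contDiffWithinAt ?_
    refine ((contDiffAt_fst.norm ℝ (ne0 hk hx)).log (norm_ne_zero_iff.2 (ne0 hk hx))).neg.log ?_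
    linarith [log_re_neg hk hx]
  · obtain ⟨G, dG, hG⟩ := exists_log hf.fst fun ζ hζ => ne0 hk (hm hζ)
    have e : ∀ ζ ∈ ball (0:ℂ) 1, (-G ζ).re = -Real.log ‖(f ζ).1‖ := by
      intro ζ hζ
      rw [← hG ζ hζ, Complex.norm_exp, Real.log_exp]; simp
    have := harnack (G := fun ζ => -G ζ) dG.neg
      (fun ζ hζ => by rw [e ζ hζ]; linarith [log_re_neg hk (hm hζ)]) hζ
    rwa [e ζ (mem_ball_zero_iff.2 (by linarith)), e 0 (mem_ball_self one_pos)] at this

lemma re_pos (hk : k ≠ 0) {e : ℂ} (he : ‖e‖ = 1) {x : ℂ × ℂ} (hx : x ∈ Om k) :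
    1 - ‖x.2 / x.1 ^ k‖ ≤ (1 - e * (x.2 / x.1 ^ k)).re := by
  have := Complex.re_le_norm (e * (x.2 / x.1 ^ k))
  rw [norm_mul, he, one_mul] at this
  simp only [Complex.sub_re, Complex.one_re]
  linarith

lemma low3 (hk : k ≠ 0) {e : ℂ} (he : ‖e‖ = 1) (p q : ℂ × ℂ) :
    ‖Real.log (1 - e * (q.2 / q.1 ^ k)).re - Real.log (1 - e * (p.2 / p.1 ^ k)).re‖ₑ
      ≤ 4 * kob (Om k) p q := by
  refine lower (Φ := fun x : ℂ × ℂ => Real.log (1 - e * (x.2 / x.1 ^ k)).re) open_Om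
    (fun x hx => ?_) (fun f hf hm ζ hζ => ?_) p q
  · refine ContDiffAt.contDiffWithinAt ?_
    have h1 : ContDiffAt ℂ 1 (fun x : ℂ × ℂ => 1 - e * (x.2 / x.1 ^ k)) x :=
      contDiffAt_const.sub (contDiffAt_const.mul (contDiffAt_snd.div (contDiffAt_fst.pow k)
        (pow_ne_zero _ (ne0 hk hx))))
    refine (Complex.reCLM.contDiff.contDiffAt.comp x (h1.restrict_scalars ℝ)).log ?_
    have := re_pos hk he hx
    have := psi_lt hk hx
    simp only [Function.comp, Complex.reCLM_apply]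
    linarith
  · exact harnack (G := fun ζ => 1 - e * ((f ζ).2 / (f ζ).1 ^ k))
      ((differentiableOn_const _).sub ((hf.snd.div (hf.fst.pow k)
        fun ζ hζ => pow_ne_zero _ (ne0 hk (hm hζ))).const_mul e))
      (fun ζ hζ => by linarith [re_pos hk he (hm hζ), psi_lt hk (hm hζ)]) hζ

lemma real_of {a ε : ℝ} {d : ℝ≥0∞} (hε : 0 < ε) (h : ‖a‖ₑ ≤ 4 * d) (hd : d < ENNReal.ofReal ε) :
    |a| ≤ 4 * ε := by
  have : ‖a‖ₑ ≤ ENNReal.ofReal (4 * ε) := by
    rw [ENNReal.ofReal_mul (by norm_num)]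
    exact h.trans (by gcongr <;> simp)
  rwa [← ofReal_norm_eq_enorm, ENNReal.ofReal_le_ofReal_iff (by positivity)] at this

lemma near {y : ℂ × ℂ} (hy : y ∈ Om k) {x : ℕ → ℂ × ℂ} (hx : Tendsto x atTop (𝓝 y)) :
    Tendsto (fun n => kob (Om k) y (x n)) atTop (𝓝 0) := by
  obtain ⟨ε, ε0, hε⟩ := Metric.isOpen_iff.1 open_Om y hy
  have h1 : Tendsto (fun n => ‖x n - y‖ / ε) atTop (𝓝 0) := by
    simpa using (tendsto_iff_norm_sub_tendsto_zero.1 hx).div_const ε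
  have h2 : Tendsto (fun n => ENNReal.ofReal (‖x n - y‖ / ε / (1 - ‖x n - y‖ / ε))) atTop
      (𝓝 0) := by
    have := ENNReal.tendsto_ofReal (h1.div (h1.const_sub 1) (by simp))
    simpa using this
  refine tendsto_of_tendsto_of_tendsto_of_le_of_le' tendsto_const_nhds h2
    (Eventually.of_forall fun _ => zero_le) ?_
  filter_upwards [h1.eventually (gt_mem_nhds one_pos)] with n hn
  set t := ‖x n - y‖ / ε with ht
  have t0 : 0 ≤ t := by positivity
  have := upper (Ω := Om k) (f := fun ζ : ℂ => y + ζ • ((t : ℂ)⁻¹ • (x n - y))) (by fun_prop)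
    (fun ζ hζ => hε (by
      rw [mem_ball_zero_iff] at hζ
      rw [mem_ball, dist_eq_norm, add_sub_cancel_left, norm_smul, norm_smul, norm_inv,
        Complex.norm_real, Real.norm_of_nonneg t0]
      have : t⁻¹ * ‖x n - y‖ ≤ ε := by
        rcases t0.eq_or_lt with h | h
        · rw [← h]; simp [ε0.le]
        · rw [inv_mul_le_iff₀ h, ht]; field_simp; rfl
      have h3 : 0 ≤ t⁻¹ * ‖x n - y‖ := by positivity
      nlinarith [norm_nonneg ζ])) t0 hn
  have e : y + (t : ℂ) • ((t : ℂ)⁻¹ • (x n - y)) = x n := by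
    rcases t0.eq_or_lt with h | h
    · have : x n - y = 0 := by
        have : ‖x n - y‖ / ε = 0 := h.symm
        simpa [ε0.ne'] using this
      rw [this]; simp [(sub_eq_zero.1 this)]
    · rw [smul_smul, mul_inv_cancel₀ (by exact_mod_cast h.ne')]; simp
  simp only [e, zero_smul, add_zero] at this
  exact this

lemma complete (hk : k ≠ 0) (x : ℕ → ℂ × ℂ) (hx : ∀ n, x n ∈ Om k)
    (hc : ∀ ε : ℝ≥0∞, 0 < ε → ∃ N, ∀ m ≥ N, ∀ n ≥ N, kob (Om k) (x m) (x n) < ε) :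
    ∃ y ∈ Om k, Tendsto (fun n => kob (Om k) y (x n)) atTop (𝓝 0) := by
  have cau : CauchySeq x := by
    refine Metric.cauchySeq_iff.2 fun ε ε0 => ?_
    obtain ⟨N, hN⟩ := hc (ENNReal.ofReal (ε / 8)) (by simpa using ε0)
    refine ⟨N, fun m hm n hn => ?_⟩
    have := real_of (a := ‖x m - x n‖) (ε := ε / 8) (by positivity)
      (by simpa using low1 (x n) (x m)) (hN n hn m hm)
    rw [dist_eq_norm]
    linarith [le_abs_self ‖x m - x n‖]
  obtain ⟨y, hy⟩ := cauchySeq_tendsto_of_complete cau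
  suffices h : y ∈ Om k from ⟨y, h, near h hy⟩
  obtain ⟨N, hN⟩ := hc (ENNReal.ofReal 1) (by simp)
  set u := -Real.log ‖(x N).1‖ with hu
  have u0 : 0 < u := by linarith [log_re_neg hk (hx N)]
  set δ := 1 - ‖(x N).2 / (x N).1 ^ k‖ with hδ
  have δ0 : 0 < δ := by linarith [psi_lt hk (hx N)]
  have b : ∀ n ≥ N, Real.exp (-(u * Real.exp 4)) ≤ ‖(x n).1‖ ∧
      ‖(x n).1‖ ≤ Real.exp (-(u * Real.exp (-4))) ∧
      ‖(x n).2‖ ≤ (1 - δ * Real.exp (-4)) * ‖(x n).1‖ ^ k := by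
    intro n hn
    have a1 := abs_le.1 (real_of one_pos (low2 hk (x N) (x n)) (hN N le_rfl n hn))
    have n0 := norm_pos_iff.2 (ne0 hk (hx n))
    have v0 : 0 < -Real.log ‖(x n).1‖ := by linarith [log_re_neg hk (hx n)]
    refine ⟨?_, ?_, ?_⟩
    · rw [← Real.le_log_iff_exp_le n0, neg_le, ← Real.log_le_log_iff v0 (by positivity),
        Real.log_mul u0.ne' (Real.exp_ne_zero _), Real.log_exp]
      linarith [a1.2]
    · rw [← Real.log_le_iff_le_exp n0, le_neg, ← Real.log_le_log_iff (by positivity) v0,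
        Real.log_mul u0.ne' (Real.exp_ne_zero _), Real.log_exp]
      linarith [a1.1]
    · obtain ⟨e, he, he'⟩ := Complex.exists_norm_eq_mul_self ((x n).2 / (x n).1 ^ k)
      have a2 := abs_le.1 (real_of one_pos (low3 hk he (x N) (x n)) (hN N le_rfl n hn))
      rw [← he'] at a2
      have a3 := Real.log_le_log δ0 (re_pos hk he (hx N))
      have p0 := psi_lt hk (hx n)
      simp only [Complex.sub_re, Complex.one_re, Complex.ofReal_re] at a2 a3
      have a4 : δ * Real.exp (-4) ≤ 1 - ‖(x n).2 / (x n).1 ^ k‖ := by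
        rw [← Real.log_le_log_iff (by positivity) (by linarith),
          Real.log_mul δ0.ne' (Real.exp_ne_zero _), Real.log_exp]
        linarith [a2.1]
      rw [← div_le_iff₀ (pow_pos n0 _), ← norm_pow, ← norm_div]
      linarith
  have t1 : Tendsto (fun n => ‖(x n).1‖) atTop (𝓝 ‖y.1‖) := hy.fst_nhds.norm
  have t2 : Tendsto (fun n => ‖(x n).2‖) atTop (𝓝 ‖y.2‖) := hy.snd_nhds.norm
  have c1 := ge_of_tendsto t1 (eventually_atTop.2 ⟨N, fun n hn => (b n hn).1⟩)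
  have c2 := le_of_tendsto t1 (eventually_atTop.2 ⟨N, fun n hn => (b n hn).2.1⟩)
  have c3 := le_of_tendsto_of_tendsto t2 ((t1.pow k).const_mul (1 - δ * Real.exp (-4)))
    (eventually_atTop.2 ⟨N, fun n hn => (b n hn).2.2⟩)
  refine ⟨c2.trans_lt (Real.exp_lt_one_iff.2 (by simp; positivity)), c3.trans_lt ?_⟩
  have : 0 < ‖y.1‖ ^ k := pow_pos ((Real.exp_pos _).trans_le c1) _
  have : 0 < δ * Real.exp (-4) := by positivity
  nlinarith

end Pool.Agent.H27.Kob
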