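import Mathlib

/-! Weak compactness helpers and Köthe sequence spaces. -/

open Filter Topology Finset
open scoped Pointwise

namespace Pool.Agent.H27.Kot

section weak

variable {Y : Type} [NormedAddCommGroup Y] [NormedSpace ℝ Y]

lemma wlim {K : Set Y} (hK : IsCompact (toWeakSpace ℝ Y '' K)) {ι : Type} (U : Ultrafilter ι)
    {y : ι → Y} (hy : ∀ᶠ i in U, y i ∈ K) :
    ∃ x ∈ K, ∀ f : Y →L[ℝ] ℝ, Tendsto (fun i => f (y i)) U (𝓝 (f x)) := by
  obtain ⟨_, ⟨x, hx, rfl⟩, h⟩ := hK.ultrafilter_le_nhds (U.map fun i => toWeakSpace ℝ Y (y i))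
    (le_principal_iff.2 (mem_map.2 (hy.mono fun i q => ⟨_, q, rfl⟩)))
  exact ⟨x, hx, fun f => ((WeakBilin.eval_continuous (topDualPairing ℝ Y).flip f).tendsto _).comp h⟩

lemma wnull {y : ℕ → Y} (h : ∀ f : Y →L[ℝ] ℝ, Tendsto (fun i => f (y i)) atTop (𝓝 0)) :
    IsCompact (toWeakSpace ℝ Y '' insert 0 (Set.range y)) := by
  rw [Set.image_insert_eq, ← Set.range_comp]
  refine Tendsto.isCompact_insert_range ((IsInducing.induced fun (x : WeakSpace ℝ Y) f =>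
    (topDualPairing ℝ Y).flip x f).tendsto_nhds_iff.2 (tendsto_pi_nhds.2 fun f => ?_))
  exact (h f).trans (le_of_eq (congrArg 𝓝 (map_zero f).symm))

lemma wnull' {y : ℕ → Y} (h : ∀ ε > 0, ∀ S : Set ℕ, S.Infinite → ∃ s : Finset ℕ, ↑s ⊆ S ∧
    s.Nonempty ∧ ∀ σ : ℕ → ℝ, (∀ i, |σ i| ≤ 1) → ‖∑ i ∈ s, σ i • y i‖ ≤ ε * s.card)
    (f : Y →L[ℝ] ℝ) : Tendsto (fun i => f (y i)) atTop (𝓝 0) := by
  rw [NormedAddGroup.tendsto_nhds_zero]
  intro ε e0
  by_contra q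
  rw [← Nat.cofinite_eq_atTop, eventually_cofinite] at q
  have e1 : 0 < ε / (‖f‖ + 1) := by positivity
  obtain ⟨s, s1, s2, s3⟩ := h _ e1 _ q
  have a := (le_abs_self _).trans (f.le_of_opNorm_le_of_le le_rfl (s3 (fun i =>
    SignType.sign (f (y i))) fun i => by
      rcases lt_trichotomy (f (y i)) 0 with q | q | q <;> simp [q]))
  simp only [map_sum, map_smul, smul_eq_mul, sign_mul_self] at a
  have b := card_nsmul_le_sum s (fun i => |f (y i)|) ε fun i hi => not_lt.1 (s1 hi)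
  have c : ε / (‖f‖ + 1) * (‖f‖ + 1) = ε := div_mul_cancel₀ _ (by positivity)
  have d : (0 : ℝ) < s.card := Nat.cast_pos.2 s2.card_pos
  rw [nsmul_eq_mul] at b
  nlinarith [mul_pos e1 d]

lemma not_absorb {K : Set Y} (hK : IsCompact (toWeakSpace ℝ Y '' K)) (Φ : ℕ → Y →L[ℝ] ℝ)
    (h1 : ∀ w (s : Finset ℕ), ∑ j ∈ s, |Φ j w| ≤ ‖w‖) {F : ℕ → Y}
    (h2 : ∀ i j, Φ i (F j) = if i = j then 1 else 0) (c : ℝ) (k : ℕ) :
    ∃ j, k ≤ j ∧ F j ∉ c • K + Metric.closedBall 0 (1 / 2) := by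
  by_contra h
  push Not at h
  have sm : ∀ w, Summable fun j => |Φ j w| := fun w =>
    summable_of_sum_le (fun _ => abs_nonneg _) (h1 w)
  have sm' : ∀ J w, Summable fun j => Φ (j + J) w := fun J w =>
    (summable_nat_add_iff J).2 (sm w).of_abs
  have bd : ∀ J w, |∑' j, Φ (j + J) w| ≤ ‖w‖ := fun J w =>
    (norm_tsum_le_tsum_norm (sm' J w).norm).trans ((sm' J w).norm.tsum_le_of_sum_le fun s => by
      simpa using h1 w (s.map (addRightEmbedding J)))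
  let T : ℕ → Y →L[ℝ] ℝ := fun J => LinearMap.mkContinuous ⟨⟨fun w => ∑' j, Φ (j + J) w,
    fun a b => by simp [(sm' J a).tsum_add (sm' J b)]⟩, fun a b => by simp [tsum_mul_left]⟩ 1
    fun w => by rw [one_mul]; exact bd J w
  have hT : ∀ J w, T J w = ∑' j, Φ (j + J) w := fun _ _ => rfl
  choose! a ha b hb hab using h
  choose! y hy hy' using ha
  have U : ∀ J, ∀ᶠ j in hyperfilter ℕ, J ≤ j := fun J =>
    (eventually_ge_atTop J).filter_mono Nat.hyperfilter_le_atTop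
  obtain ⟨x, -, hx⟩ := wlim hK (hyperfilter ℕ) ((U k).mono hy)
  have lo : ∀ J, 1 / 2 ≤ T J (c • x) := fun J => by
    rw [map_smul]
    refine ge_of_tendsto ((hx (T J)).const_smul c) ?_
    filter_upwards [U k, U J] with j h1 h3
    have e : T J (F j) = 1 := by
      rw [hT, tsum_eq_single (j - J) fun i q => by rw [h2, if_neg (by omega)], h2, if_pos (by omega)]
    have := (le_abs_self _).trans ((bd J (b j)).trans (mem_closedBall_zero_iff.1 (hb j h1)))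
    rw [← hab j h1, ← hy' j h1, map_add, map_smul] at e
    rw [← hT] at this
    linarith
  have := ge_of_tendsto' (tendsto_sum_nat_add fun j => Φ j (c • x)) lo
  linarith

lemma swcg [TopologicalSpace.SeparableSpace Y]
    (h : ∀ L : Set Y, IsCompact (toWeakSpace ℝ Y '' L) → IsCompact L) :
    ∃ K : Set Y, IsCompact (toWeakSpace ℝ Y '' K) ∧ ∀ L : Set Y, IsCompact (toWeakSpace ℝ Y '' L) →
      ∀ ε : ℝ, 0 < ε → ∃ n : ℕ, L ⊆ (n : ℝ) • K + Metric.closedBall (0 : Y) ε := by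
  obtain ⟨d, hd⟩ := TopologicalSpace.exists_dense_seq Y
  let r : ℕ → ℝ := fun i => (i + 1) * (‖d i‖ + 1)
  have r0 : ∀ i, 0 < r i := fun i => by positivity
  have t : Tendsto (fun i => (r i)⁻¹ • d i) atTop (𝓝 0) :=
    squeeze_zero_norm (fun i => by
      rw [norm_smul, norm_inv, Real.norm_of_nonneg (r0 i).le, inv_mul_le_iff₀ (r0 i)]
      simp only [r]
      field_simp
      linarith) tendsto_one_div_add_atTop_nhds_zero_nat
  refine ⟨Set.Icc (0 : ℝ) 1 • insert 0 (Set.range fun i => (r i)⁻¹ • d i),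
    (isCompact_Icc.smul_set t.isCompact_insert_range).image (toWeakSpaceCLM ℝ Y).continuous,
    fun L hL ε e0 => ?_⟩
  obtain ⟨s, hs⟩ := (h L hL).elim_finite_subcover (fun i => Metric.ball (d i) ε)
    (fun _ => Metric.isOpen_ball) fun x _ => Set.mem_iUnion.2 (hd.exists_dist_lt x e0)
  refine ⟨s.sup fun i => ⌈r i⌉₊, fun x hx => ?_⟩
  obtain ⟨i, hi, q⟩ := Set.mem_iUnion₂.1 (hs hx)
  have a : r i ≤ (s.sup fun i => ⌈r i⌉₊ : ℕ) := Nat.ceil_le.1 (le_sup (f := fun i => ⌈r i⌉₊) hi)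
  generalize ((s.sup fun i => ⌈r i⌉₊ : ℕ) : ℝ) = n at a
  have n0 := (r0 i).trans_le a
  refine ⟨d i, ⟨_, ⟨r i / n, ⟨by positivity, div_le_one_of_le₀ a n0.le⟩, _,
    Or.inr ⟨i, rfl⟩, rfl⟩, ?_⟩, x - d i, mem_closedBall_zero_iff.2 (mem_ball_iff_norm.1 q).le,
    add_sub_cancel _ _⟩
  simp only [smul_smul]
  rw [show n * (r i / n * (r i)⁻¹) = 1 by have := r0 i; field_simp, one_smul]

end weak

structure Good {Q X : Type} [NormedAddCommGroup X] [NormedSpace ℝ X] (G : Set (Q → ℝ))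
    (co : Q → X →L[ℝ] ℝ) : Prop where
  ext : ∀ x, (∀ q, co q x = 0) → x = 0
  le : ∀ g ∈ G, ∀ (τ : Finset Q) x, ∑ q ∈ τ, |g q| * |co q x| ≤ ‖x‖
  mk' : ∀ (f : Q → ℝ) C, (∀ g ∈ G, ∀ τ : Finset Q, ∑ q ∈ τ, |g q| * |f q| ≤ C) →
    ∃ x, (∀ q, co q x = f q) ∧ ‖x‖ ≤ C
  one : ∀ q, ∃ g ∈ G, g q = 1
  bd : ∀ g ∈ G, ∀ q, |g q| ≤ 1

theorem space {Q : Type} [Nonempty Q] (G : Set (Q → ℝ)) (one : ∀ q, ∃ g ∈ G, g q = 1)
    (bd : ∀ g ∈ G, ∀ q, |g q| ≤ 1) : ∃ (X : Type) (_ : NormedAddCommGroup X)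
      (_ : NormedSpace ℝ X) (_ : CompleteSpace X) (co : Q → X →L[ℝ] ℝ), Good G co := by
  let I := {p : Finset Q × (Q → ℝ) // ∃ g ∈ G, ∀ q, |p.2 q| ≤ |g q|}
  let δ : Q → I := fun q => ⟨⟨{q}, (one q).choose⟩, _, (one q).choose_spec.1, fun _ => le_rfl⟩
  let E := lp (fun _ : I => ℝ) ⊤
  let ev : I → E →L[ℝ] ℝ := fun g => lp.evalCLM ℝ (fun _ : I => ℝ) ⊤ g
  let N : Submodule ℝ E := ⨅ g, (ev g - ∑ q ∈ g.1.1, g.1.2 q • ev (δ q)).ker
  have hN : ∀ v : E, v ∈ N ↔ ∀ g, v g = ∑ q ∈ g.1.1, g.1.2 q * v (δ q) := fun v => by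
    simp [N, ev, sub_eq_zero, lp.evalCLM]
    rfl
  have Nc : IsClosed (N : Set E) := by
    rw [Submodule.coe_iInf]
    exact isClosed_iInter fun g => ContinuousLinearMap.isClosed_ker _
  let co : Q → N →L[ℝ] ℝ := fun q => (ev (δ q)).comp N.subtypeL
  have hco : ∀ q (x : N), co q x = x.1 (δ q) := fun _ _ => rfl
  refine ⟨N, inferInstance, inferInstance, Nc.completeSpace_coe, co, fun x h => ?_,
    fun g hg τ x => ?_, fun f C h => ?_, one, bd⟩
  · refine Subtype.ext (lp.ext (funext fun g => ?_))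
    simp only [hco] at h
    rw [(hN _).1 x.2]
    simp [h]
  · have := lp.norm_apply_le_norm (by simp) x.1 ⟨⟨τ, fun q => |g q| * SignType.sign (co q x)⟩, g,
      hg, fun q => by rcases lt_trichotomy (co q x) 0 with p | p | p <;> simp [p]⟩
    rw [(hN _).1 x.2] at this
    refine le_trans (le_of_eq ?_) ((le_abs_self _).trans this)
    simp only [← hco, mul_assoc, sign_mul_self]
  · have b : ∀ p : I, |∑ q ∈ p.1.1, p.1.2 q * f q| ≤ C := fun p => by
      obtain ⟨g, hg, hp⟩ := p.2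
      refine (abs_sum_le_sum_abs _ _).trans ((sum_le_sum fun q _ => ?_).trans (h g hg p.1.1))
      rw [abs_mul]
      exact mul_le_mul_of_nonneg_right (hp q) (abs_nonneg _)
    have e : ∀ q, ∑ r ∈ (δ q).1.1, (δ q).1.2 r * f r = f q := fun q => by
      simp [δ, (one q).choose_spec.2]
    exact ⟨⟨⟨fun p => ∑ q ∈ p.1.1, p.1.2 q * f q, memℓp_infty ⟨C, by
      rintro _ ⟨p, rfl⟩; exact b p⟩⟩, (hN _).2 fun g => by simp only [e]⟩, e,
      lp.norm_le_of_forall_le ((abs_nonneg _).trans (b (δ (Classical.arbitrary Q)))) b⟩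

namespace Good

variable {Q X : Type} [NormedAddCommGroup X] [NormedSpace ℝ X] {G : Set (Q → ℝ)}
  {co : Q → X →L[ℝ] ℝ} (H : Good G co)
include H

lemma ext' {x y : X} (h : ∀ q, co q x = co q y) : x = y :=
  sub_eq_zero.1 (H.ext _ fun q => by simp [h])

lemma norm_le {x : X} {C : ℝ} (h : ∀ g ∈ G, ∀ τ : Finset Q, ∑ q ∈ τ, |g q| * |co q x| ≤ C) :
    ‖x‖ ≤ C := by
  obtain ⟨y, hy, hC⟩ := H.mk' _ C h
  rwa [← H.ext' hy]

lemma co_le (q : Q) (x : X) : |co q x| ≤ ‖x‖ := by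
  obtain ⟨g, hg, h⟩ := H.one q
  simpa [h] using H.le g hg {q} x

lemma solid (x : X) {f : Q → ℝ} (h : ∀ q, |f q| ≤ |co q x|) :
    ∃ y, (∀ q, co q y = f q) ∧ ‖y‖ ≤ ‖x‖ := H.mk' f _ fun g hg τ =>
  (sum_le_sum fun q _ => mul_le_mul_of_nonneg_left (h q) (abs_nonneg _)).trans (H.le g hg τ x)

lemma mul (A : Set Q) : ∃ M : X →L[ℝ] X, (∀ x q, co q (M x) = A.indicator (co · x) q) ∧
    ∀ x, ‖M x‖ ≤ ‖x‖ := by
  choose m h1 h2 using fun x => H.solid x (f := A.indicator (co · x)) fun q =>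
    norm_indicator_le_norm_self (fun q => co q x) q
  exact ⟨LinearMap.mkContinuous ⟨⟨m, fun x y => H.ext' fun q => by
    by_cases p : q ∈ A <;> simp [h1, p]⟩, fun c x => H.ext' fun q => by
    by_cases p : q ∈ A <;> simp [h1, p]⟩ 1 fun x => by rw [one_mul]; exact h2 x, h1, h2⟩

lemma l1 {x : X} (F : Finset Q) (h : ∀ q ∉ F, co q x = 0) : ‖x‖ ≤ ∑ q ∈ F, |co q x| := by
  classical
  refine H.norm_le fun g hg τ => (sum_le_sum fun q _ => mul_le_of_le_one_left (abs_nonneg _)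
    (H.bd g hg q)).trans ?_
  rw [← sum_subset (inter_subset_left (s₂ := F)) fun q h1 h2 => by
    rw [h q fun p => h2 (mem_inter.2 ⟨h1, p⟩), abs_zero]]
  exact sum_le_sum_of_subset_of_nonneg inter_subset_right fun _ _ _ => abs_nonneg _

lemma basis [DecidableEq Q] : ∃ e : Q → X, ∀ q r, co r (e q) = if r = q then 1 else 0 := by
  choose e he _ using fun q : Q => H.mk' (fun r => if r = q then 1 else 0) 1 fun g hg τ => by
    simp only [apply_ite abs, abs_one, abs_zero, mul_ite, mul_one, mul_zero, sum_ite_eq']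
    split_ifs
    · exact H.bd g hg q
    · exact zero_le_one
  exact ⟨e, he⟩

lemma fn {g : Q → ℝ} (hg : g ∈ G) :
    ∃ f : X →L[ℝ] ℝ, ∀ x, HasSum (fun q => g q * co q x) (f x) := by
  have sm : ∀ x, Summable fun q => ‖g q * co q x‖ := fun x =>
    summable_of_sum_le (fun _ => norm_nonneg _) fun τ => by simpa using H.le g hg τ x
  exact ⟨LinearMap.mkContinuous ⟨⟨fun x => ∑' q, g q * co q x, fun a b => by
    simp [mul_add, (sm a).of_norm.tsum_add (sm b).of_norm]⟩, fun a b => by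
    simp [mul_left_comm _ a, tsum_mul_left]⟩ 1 fun x => (norm_tsum_le_tsum_norm (sm x)).trans
      ((sm x).tsum_le_of_sum_le fun τ => by simpa using H.le g hg τ x),
    fun x => (sm x).of_norm.hasSum⟩

end Good

/-- The tail property. -/
def Tail {Q X : Type} [NormedAddCommGroup X] [NormedSpace ℝ X] (co : Q → X →L[ℝ] ℝ) : Prop :=
  ∀ x : X, ∀ ε > 0, ∃ F : Finset Q, ∀ y, (∀ q, |co q y| ≤ |co q x|) → (∀ q ∈ F, co q y = 0) →
    ‖y‖ ≤ ε

lemma Tail.sep {Q X : Type} [NormedAddCommGroup X] [NormedSpace ℝ X] [Countable Q]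
    {G : Set (Q → ℝ)} {co : Q → X →L[ℝ] ℝ} (T : Tail co) (H : Good G co) :
    TopologicalSpace.SeparableSpace X := by
  classical
  obtain ⟨e, he⟩ := H.basis
  refine TopologicalSpace.isSeparable_univ_iff.1 (((Set.countable_range e).isSeparable.span
    (R := ℝ)).closure.mono fun x _ => Metric.mem_closure_iff.2 fun ε e0 => ?_)
  obtain ⟨F, hF⟩ := T x _ (half_pos e0)
  refine ⟨∑ q ∈ F, co q x • e q, Submodule.sum_mem _ fun q _ => Submodule.smul_mem _ _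
    (Submodule.subset_span ⟨q, rfl⟩), ?_⟩
  rw [dist_eq_norm]
  refine (hF _ (fun q => ?_) fun q hq => ?_).trans_lt (half_lt_self e0)
  · by_cases p : q ∈ F <;> simp [he, p]
  · simp [he, hq]

end Pool.Agent.H27.Kot
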