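import Pool.Agent.H27.Kot1

/-! A separable weakly sequentially complete space without property (K). -/

open Filter Topology Finset

namespace Pool.Agent.H27.Kot

variable {Q X : Type} [NormedAddCommGroup X] [NormedSpace ℝ X] {G : Set (Q → ℝ)}
  {co : Q → X →L[ℝ] ℝ}

lemma Good.tail (H : Good G co) (h : ∀ x : X, ∀ ε > 0, ∃ F : Finset Q, ∀ g ∈ G, ∀ τ : Finset Q,
    Disjoint τ F → ∑ q ∈ τ, |g q| * |co q x| ≤ ε) : Tail co := fun x ε e0 => by
  classical
  obtain ⟨F, hF⟩ := h x ε e0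
  refine ⟨F, fun y h1 h2 => H.norm_le fun g hg τ => ?_⟩
  rw [← sum_subset (sdiff_subset (t := F)) fun q h3 h4 => by
    rw [h2 q (by simpa [h3] using h4), abs_zero, mul_zero]]
  exact (sum_le_sum fun q _ => mul_le_mul_of_nonneg_left (h1 q) (abs_nonneg _)).trans
    (hF g hg _ sdiff_disjoint)

lemma Good.split (H : Good G co) {z y : X} {η : ℝ} {F F' : Finset Q}
    (h : ∀ y, (∀ q, |co q y| ≤ |co q z|) → (∀ q ∈ F', co q y = 0) → ‖y‖ ≤ η)
    (h1 : ∀ q, |co q y| ≤ |co q z|) (h2 : ∀ q ∈ F', q ∉ F → co q y = 0) :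
    ‖y‖ ≤ ∑ q ∈ F, |co q z| + η := by
  obtain ⟨M, hM, -⟩ := H.mul (F : Set Q)
  rw [← add_sub_cancel (M y) y]
  refine (norm_add_le _ _).trans (add_le_add ((H.l1 F fun q p => by simp [hM, p]).trans
    (sum_le_sum fun q p => by simpa [hM, p] using h1 q)) (h _ (fun q => ?_) fun q p => ?_))
  · by_cases p : q ∈ F
    · simp [hM, p]
    · simpa [hM, p] using h1 q
  · by_cases r : q ∈ F
    · simp [hM, r]
    · simp [hM, r, h2 q p r]

lemma Good.wsc [CompleteSpace X] (H : Good G co) (T : Tail co) (x : ℕ → X)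
    (hx : ∀ f : X →L[ℝ] ℝ, CauchySeq fun n => f (x n)) :
    ∃ y : X, ∀ f : X →L[ℝ] ℝ, Tendsto (fun n => f (x n)) atTop (𝓝 (f y)) := by
  classical
  choose l hl using fun f => cauchySeq_tendsto_of_complete (hx f)
  obtain ⟨C, hC⟩ := banach_steinhaus (g := fun n => NormedSpace.inclusionInDoubleDualLi ℝ (x n))
    fun f => isBounded_iff_forall_norm_le.1 (hx f).isBounded_range |>.imp fun C h n => h _ ⟨n, rfl⟩
  simp only [LinearIsometry.norm_map] at hC
  obtain ⟨y, hy, -⟩ := H.mk' (fun q => l (co q)) C fun g hg τ => le_of_tendsto'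
    (tendsto_finsetSum τ fun q _ => (hl (co q)).abs.const_mul |g q|)
    fun n => (H.le g hg τ _).trans (hC n)
  have hz : ∀ f : X →L[ℝ] ℝ, Tendsto (fun n => f (x n - y)) atTop (𝓝 (l f - f y)) := fun f => by
    simpa using (hl f).sub_const (f y)
  refine ⟨y, fun f => ?_⟩
  suffices l f - f y = 0 from sub_eq_zero.1 this ▸ hl f
  refine abs_nonpos_iff.1 (le_of_forall_pos_le_add fun ε e0 => ?_)
  obtain ⟨η, η0, hη⟩ : ∃ η > 0, ‖f‖ * (η + η) ≤ ε / 2 := ⟨ε / 4 / (‖f‖ + 1), by positivity, by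
    rw [← two_mul, mul_left_comm, ← mul_div_assoc, ← mul_div_assoc, div_le_iff₀ (by positivity)]
    nlinarith⟩
  have ex : ∀ p : Finset Q × ℕ, ∃ p' : Finset Q × ℕ, p.1 ⊆ p'.1 ∧ p.2 < p'.2 ∧ ∀ w,
      (∀ q, |co q w| ≤ |co q (x p'.2 - y)|) → (∀ q ∈ p'.1, q ∉ p.1 → co q w = 0) →
        ‖w‖ ≤ η + η := fun p => by
    have := tendsto_finsetSum p.1 fun q _ => (hz (co q)).abs
    simp only [hy, sub_self, abs_zero, sum_const_zero] at this
    obtain ⟨n, h1, h2⟩ := ((this.eventually (ge_mem_nhds η0)).and (eventually_gt_atTop p.2)).exists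
    obtain ⟨F, hF⟩ := T (x n - y) η η0
    exact ⟨(p.1 ∪ F, n), subset_union_left, h2, fun w h3 h4 => (H.split (F := p.1) hF h3
      fun q a b => h4 q (mem_union_right _ a) b).trans (by linarith)⟩
  choose S S1 S2 S3 using ex
  let p : ℕ → Finset Q × ℕ := fun i => S^[i] (∅, 0)
  have ps : ∀ i, p (i + 1) = S (p i) := fun i => Function.iterate_succ_apply' _ _ _
  have m1 : Monotone fun i => (p i).1 := monotone_nat_of_le_succ fun i => ps i ▸ S1 _
  have m2 : StrictMono fun i => (p i).2 := strictMono_nat_of_lt_succ fun i => ps i ▸ S2 _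
  obtain ⟨M, hM, -⟩ := H.mul {q | ∃ i, q ∈ (p (2 * i + 1)).1 ∧ q ∉ (p (2 * i)).1}
  have t1 := m2.tendsto_atTop.comp (tendsto_atTop_mono (g := fun i => 2 * i + 1)
    (fun i => by simp; omega) tendsto_id)
  have t2 := m2.tendsto_atTop.comp (tendsto_atTop_mono (g := fun i => 2 * i + 1 + 1)
    (fun i => by simp; omega) tendsto_id)
  have a := le_of_tendsto' ((((hz f).sub (hz (f.comp M))).comp t1).abs) (b := ε / 2) fun i => by
    refine le_trans ?_ ((f.le_of_opNorm_le_of_le le_rfl (S3 (p (2 * i)) (x (p (2 * i + 1)).2 - y -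
      M (x (p (2 * i + 1)).2 - y)) (fun q => ?_) fun q h1 h2 => ?_)).trans hη)
    · simp
    · rw [map_sub, hM, ← ps, Set.indicator]
      split_ifs <;> simp
    · rw [map_sub, hM, Set.indicator_of_mem (by exact ⟨i, ps _ ▸ h1, h2⟩), sub_self]
  have b := le_of_tendsto' (((hz (f.comp M)).comp t2).abs) (b := ε / 2) fun i => by
    refine le_trans ?_ ((f.le_of_opNorm_le_of_le le_rfl (S3 (p (2 * i + 1))
      (M (x (p (2 * i + 1 + 1)).2 - y)) (fun q => ?_) fun q h1 h2 => ?_)).trans hη)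
    · simp
    · rw [hM, ← ps, Set.indicator]
      split_ifs <;> simp
    · rw [hM, Set.indicator_of_notMem]
      rintro ⟨j, h3, h4⟩
      rcases le_or_gt j i with r | r
      · exact h2 (m1 (by omega) h3)
      · rw [← ps] at h1
        exact h4 (m1 (by omega : 2 * i + 1 + 1 ≤ 2 * j) h1)
  have := abs_add_le (l f - f y - (l (f.comp M) - f.comp M y)) (l (f.comp M) - f.comp M y)
  rw [sub_add_cancel] at this
  linarith

/-- Tests: `ℓ₂`-combinations of disjoint pieces of stars of intervals. -/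
def St (r : ℝ) : Set (ℕ × ℕ → ℝ) := {g | ∃ (ι : Type) (c : ℕ × ℕ → ι) (n : ι → ℕ) (b : ι → ℝ),
  (∀ s : Finset ι, ∑ i ∈ s, b i ^ 2 ≤ r) ∧ ∀ q, |g q| ≤ |b (c q)| ∧
    (g q ≠ 0 → q.1 ≤ n (c q) ∧ n (c q) ≤ q.1 + q.2)}

def star (n : ℕ) (q : ℕ × ℕ) : ℝ := if q.1 ≤ n ∧ n ≤ q.1 + q.2 then 1 else 0

lemma star_mem (n : ℕ) : star n ∈ St 1 :=
  ⟨Unit, fun _ => (), fun _ => n, fun _ => 1, fun s => by simpa using card_le_univ s, fun q => by
    unfold star; split_ifs with h <;> simp [h]⟩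

lemma St.tail {co : ℕ × ℕ → X →L[ℝ] ℝ} (H : Good (St 1) co) : Tail co := H.tail fun x ε e0 => by
  classical
  by_contra h
  push Not at h
  have : ∀ N : ℕ, ∃ g ∈ St N, ∃ τ : Finset (ℕ × ℕ), N * ε ≤ ∑ q ∈ τ, |g q| * |co q x| := by
    intro N
    induction N with
    | zero => exact ⟨0, ⟨Unit, fun _ => (), fun _ => 0, 0, by simp, by simp⟩, ∅, by simp⟩
    | succ N ih =>
      obtain ⟨g, ⟨ι, c, n, b, h1, h2⟩, τ, h3⟩ := ih
      obtain ⟨g', ⟨ι', c', n', b', h1', h2'⟩, τ', h4, h3'⟩ := h τ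
      refine ⟨fun q => if q ∈ τ then g q else g' q, ⟨ι ⊕ ι', fun q => if q ∈ τ then .inl (c q)
        else .inr (c' q), Sum.elim n n', Sum.elim b b', fun s => ?_, fun q => ?_⟩, τ ∪ τ', ?_⟩
      · rw [sum_sum_eq_sum_toLeft_add_sum_toRight, Nat.cast_succ]
        exact add_le_add (h1 _) (h1' _)
      · by_cases p : q ∈ τ
        · simpa [p] using h2 q
        · simpa [p] using h2' q
      · beta_reduce
        rw [sum_union h4.symm, sum_congr rfl fun q p => by rw [if_pos p], sum_congr (s₁ := τ') rfl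
          fun q p => by rw [if_neg (disjoint_left.1 h4 p)]]
        push_cast
        linarith
  obtain ⟨m, hm⟩ := exists_nat_gt (‖x‖ / ε)
  have m0 : (0 : ℝ) < m := lt_of_le_of_lt (by positivity) hm
  obtain ⟨g, ⟨ι, c, n, b, h1, h2⟩, τ, h3⟩ := this (m ^ 2)
  have := H.le (fun q => (m : ℝ)⁻¹ * g q) ⟨ι, c, n, fun i => (m : ℝ)⁻¹ * b i, fun s => by
    simp only [mul_pow, ← mul_sum, inv_pow]
    rw [inv_mul_le_iff₀ (by positivity), mul_one]
    exact_mod_cast h1 s, fun q => ⟨by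
      simp only [abs_mul]; exact mul_le_mul_of_nonneg_left (h2 q).1 (abs_nonneg _),
      fun p => (h2 q).2 (right_ne_zero_of_mul p)⟩⟩ τ x
  simp only [abs_mul, mul_assoc, ← mul_sum, abs_inv, Nat.abs_cast] at this
  rw [inv_mul_le_iff₀ m0] at this
  rw [div_lt_iff₀ e0] at hm
  push_cast at h3
  nlinarith

theorem notK : ∃ (X : Type) (_ : NormedAddCommGroup X) (_ : NormedSpace ℝ X) (_ : CompleteSpace X)
    (_ : TopologicalSpace.SeparableSpace X),
    (∀ x : ℕ → X, (∀ f : X →L[ℝ] ℝ, CauchySeq (fun n => f (x n))) →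
      ∃ y : X, ∀ f : X →L[ℝ] ℝ, Tendsto (fun n => f (x n)) atTop (𝓝 (f y))) ∧
    ∃ f : ℕ → (X →L[ℝ] ℝ), (∀ x : X, Tendsto (fun n => f n x) atTop (𝓝 0)) ∧
      ∀ (p : ℕ → ℕ) (c : ℕ → ℝ), StrictMono p → (∀ n, ∑ i ∈ Ico (p n) (p (n + 1)), c i = 1) →
        ∃ K : Set X, IsCompact (toWeakSpace ℝ X '' K) ∧ ¬ TendstoUniformlyOn
          (fun n x => ∑ i ∈ Ico (p n) (p (n + 1)), c i * f i x) (fun _ => (0 : ℝ)) atTop K := by
  obtain ⟨X, i1, i2, i3, co, H⟩ := space (St 1) (fun q => ⟨_, star_mem q.1, by simp [star]⟩)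
    (by
      rintro g ⟨ι, c, n, b, h1, h2⟩ q
      exact (h2 q).1.trans ((sq_le_one_iff_abs_le_one _).1 (by simpa using h1 {c q})))
  have T := St.tail H
  choose f hf using fun n => H.fn (star_mem n)
  obtain ⟨e, he⟩ := H.basis
  refine ⟨X, i1, i2, i3, T.sep H, H.wsc T, f, fun x => NormedAddGroup.tendsto_nhds_zero.2
    fun ε e0 => ?_, fun p c hp hc => ?_⟩
  · obtain ⟨F, hF⟩ := T x _ (half_pos e0)
    obtain ⟨M, hM, -⟩ := H.mul (F : Set (ℕ × ℕ))ᶜ
    have := hF (M x) (fun q => by by_cases r : q ∈ F <;> simp [hM, r]) fun q r => by simp [hM, r]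
    filter_upwards [eventually_gt_atTop (F.sup fun q => q.1 + q.2)] with n hn
    refine lt_of_le_of_lt (le_of_tendsto' (hf n x).norm fun τ => (norm_sum_le _ _).trans
      ((sum_le_sum fun q _ => ?_).trans ((H.le _ (star_mem n) τ _).trans this))) (half_lt_self e0)
    by_cases r : q ∈ F
    · have := (le_sup (f := fun q : ℕ × ℕ => q.1 + q.2) r).trans_lt hn
      simp [star, this.not_ge]
    · simp [hM, r]
  let q : ℕ → ℕ × ℕ := fun n => (p n, p (n + 1) - p n - 1)
  refine ⟨_, wnull (wnull' (y := fun n => e (q n)) fun ε e0 S hS => ?_), fun h => ?_⟩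
  · obtain ⟨m, hm⟩ := exists_nat_gt ε⁻¹
    have m0 : (0 : ℝ) < m := lt_of_le_of_lt (by positivity) hm
    obtain ⟨s, s1, s2⟩ := hS.exists_subset_card_eq (m ^ 2)
    refine ⟨s, s1, card_pos.1 (s2 ▸ pow_pos (Nat.cast_pos.1 m0) 2), fun σ hσ => H.norm_le ?_⟩
    rintro g ⟨ι, d, n, b, h1, h2⟩ τ
    classical
    have a : ∑ r ∈ τ, |g r| * |co r (∑ i ∈ s, σ i • e (q i))| ≤
        ∑ i ∈ s with g (q i) ≠ 0, |b (d (q i))| := by
      simp only [map_sum, map_smul, he, smul_eq_mul]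
      refine (sum_le_sum fun r _ => mul_le_mul_of_nonneg_left (abs_sum_le_sum_abs _ _)
        (abs_nonneg _)).trans ?_
      simp only [mul_sum]
      rw [sum_comm, sum_filter]
      refine sum_le_sum fun i _ => ?_
      simp only [mul_ite, mul_one, mul_zero, apply_ite abs, abs_zero, sum_ite_eq']
      have := mul_le_of_le_one_right (abs_nonneg (g (q i))) (hσ i)
      have := (h2 (q i)).1
      split_ifs with u v v <;> first | positivity | linarith | simp [not_not.1 v]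
    have a' := sq_sum_le_card_mul_sum_sq (s := s.filter fun i => g (q i) ≠ 0)
      (f := fun i => |b (d (q i))|)
    simp only [sq_abs] at a'
    rw [← sum_image (f := fun i => b i ^ 2) (g := fun i => d (q i)) fun i hi j hj u => by
      have v := (h2 _).2 (mem_filter.1 hi).2
      have w := (h2 _).2 (mem_filter.1 hj).2
      simp only [u, q] at v w
      have : p i < p (i + 1) := hp (Nat.lt_succ_self i)
      have : p j < p (j + 1) := hp (Nat.lt_succ_self j)
      exact le_antisymm (Nat.lt_succ_iff.1 (hp.lt_iff_lt.1 (show p i < p (j + 1) by omega)))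
        (Nat.lt_succ_iff.1 (hp.lt_iff_lt.1 (show p j < p (i + 1) by omega)))] at a'
    have a2 : ((s.filter fun i => g (q i) ≠ 0).card : ℝ) ≤ m ^ 2 := by
      exact_mod_cast s2 ▸ card_filter_le _ _
    have a3 := le_of_sq_le_sq (a'.trans ((mul_le_of_le_one_right (by positivity) (h1 _)).trans a2))
      m0.le
    rw [inv_lt_iff_one_lt_mul₀ e0] at hm
    rw [s2]
    push_cast
    nlinarith
  · obtain ⟨n, hn⟩ := (Metric.tendstoUniformlyOn_iff.1 h 1 one_pos).exists
    have := hn _ (Or.inr ⟨n, rfl⟩)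
    rw [sum_congr rfl fun i hi => by
      rw [← (hasSum_single (q n) fun r u => by rw [he, if_neg u, mul_zero]).unique (hf i _), he,
        if_pos rfl, star, if_pos (by simp only [q, mem_Ico] at hi ⊢; omega), mul_one, mul_one],
      hc] at this
    simp at this

end Pool.Agent.H27.Kot
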