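import Pool.Agent.H27.Kot2

/-! A Schur lattice on the binary tree. -/

open Filter Topology Finset

namespace Pool.Agent.H27.Kot

abbrev Nd := List (ZMod 2)

def Tr : Set (Nd → ℝ) :=
  {g | ∀ (l : ℕ) (σ : Finset Nd), Set.InjOn (List.take l) (σ : Set Nd) → ∑ q ∈ σ, |g q| ≤ l + 1}

noncomputable def Low (a : ℕ) : Finset Nd := (List.finite_length_lt (ZMod 2) a).toFinset

lemma mem_Low {a : ℕ} {q : Nd} : q ∈ Low a ↔ q.length < a := by simp [Low]

lemma Low_mono {a b : ℕ} (h : a ≤ b) : Low a ⊆ Low b := fun _ p =>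
  mem_Low.2 ((mem_Low.1 p).trans_le h)

lemma take_mem (l : ℕ) (q : Nd) : q.take l ∈ Low (l + 1) :=
  mem_Low.2 (Nat.lt_succ_of_le (List.length_take_le _ _))

lemma Tr.bd (g : Nd → ℝ) (hg : g ∈ Tr) (q : Nd) : |g q| ≤ 1 := by simpa using hg 0 {q} (by simp)

lemma step1 {z : ℕ → Nd → ℝ} {ε : ℝ} (h : ∀ a, ∃ᶠ k in atTop, ∃ g ∈ Tr, ∃ τ : Finset Nd,
    (∀ q ∈ τ, a ≤ q.length) ∧ ε < ∑ q ∈ τ, |g q| * |z k q|) {P : ℕ → ℕ → Prop}
    (hP : ∀ a, ∀ᶠ k in atTop, P a k) : ∃ (D : ℝ) (w : ℕ → Nd → ℝ), 1 ≤ D ∧ (∀ l c, 0 ≤ w l c) ∧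
      (∀ l, ∑ c ∈ Low (l + 1), w l c ≤ D * (l + 1)) ∧ ∀ a L, ∃ k, a ≤ k ∧ P a k ∧
        ∃ (g : Nd → ℝ) (τ : Finset Nd), (∀ q ∈ τ, a ≤ q.length) ∧
          ε / 2 < ∑ q ∈ τ, |g q| * |z k q| ∧ (∀ q, |g q| ≤ 1) ∧
          (∀ l : ℕ, ∀ σ ⊆ τ, Set.InjOn (List.take l) (σ : Set Nd) → ∑ q ∈ σ, |g q| ≤ D * (l + 1)) ∧
          ∀ l < L, ∀ q ∈ τ, |g q| ≤ w l (q.take l) := by
  by_cases c : ∀ η > 0, ∀ a, ∃ᶠ k in atTop, ∃ g ∈ Tr, ∃ τ : Finset Nd, (∀ q ∈ τ, a ≤ q.length) ∧
      (∀ q ∈ τ, |g q| ≤ η) ∧ ε / 2 < ∑ q ∈ τ, |g q| * |z k q|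
  · refine ⟨1, fun l _ => 1 / ((Low (l + 1)).card + 1), le_rfl, fun _ _ => by positivity,
      fun l => ?_, fun a L => ?_⟩
    · rw [sum_const, nsmul_eq_mul, mul_one_div]
      exact (div_le_one_of_le₀ (by linarith) (by positivity)).trans (by simp)
    · obtain ⟨k, ⟨g, hg, τ, h1, h2, h3⟩, h4, h5⟩ := ((c (1 / ((Low L).card + 1)) (by positivity)
        a).and_eventually ((eventually_ge_atTop a).and (hP a))).exists
      refine ⟨k, h4, h5, g, τ, h1, h3, Tr.bd g hg, fun l σ _ p => by simpa using hg l σ p,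
        fun l hl q p => (h2 q p).trans ?_⟩
      beta_reduce
      gcongr
      exact Low_mono hl
  push Not at c
  obtain ⟨η, η0, a₀, c⟩ := c
  have ex : ∀ m, ∃ k, m ≤ k ∧ (∀ a ∈ range (m + 1), P a k) ∧ ∃ τ : Finset Nd,
      (∀ q ∈ τ, m ≤ q.length) ∧ ε / 2 < ∑ q ∈ τ, |z k q| ∧
      ∀ l : ℕ, ∀ σ ⊆ τ, Set.InjOn (List.take l) (σ : Set Nd) → (σ.card : ℝ) ≤ (1 + η⁻¹) * (l + 1) := fun m => by
    obtain ⟨k, ⟨g, hg, τ, h1, h2⟩, ⟨h3, h4⟩, h5⟩ := ((h (max m a₀)).and_eventually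
      (((eventually_ge_atTop m).and ((eventually_all_finset (range (m + 1))).2
        fun a _ => hP a)).and c)).exists
    refine ⟨k, h3, h4, τ.filter fun q => ¬ |g q| ≤ η, fun q p => (le_max_left _ _).trans
      (h1 q (mem_filter.1 p).1), ?_, fun l σ s p => ?_⟩
    · have a := h5 g hg (τ.filter fun q => |g q| ≤ η) (fun q p => (le_max_right _ _).trans
        (h1 q (mem_filter.1 p).1)) fun q p => (mem_filter.1 p).2
      rw [← sum_filter_add_sum_filter_not τ fun q => |g q| ≤ η] at h2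
      linarith [sum_le_sum (s := τ.filter fun q => ¬ |g q| ≤ η) fun q _ =>
        mul_le_of_le_one_left (abs_nonneg (z k q)) (Tr.bd g hg q)]
    · have := (card_nsmul_le_sum σ _ η fun q r => (not_le.1 (mem_filter.1 (s r)).2).le).trans
        (hg l σ p)
      rw [nsmul_eq_mul, ← le_div_iff₀ η0, div_eq_inv_mul] at this
      nlinarith [l.cast_nonneg (α := ℝ)]
  choose k k1 k2 τ τ1 τ2 τ3 using ex
  classical
  have good : ∀ l, ∀ᶠ m in hyperfilter ℕ, ∀ c ∈ Low (l + 1), c ∈ (τ m).image (List.take l) ↔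
      ∀ᶠ m in hyperfilter ℕ, c ∈ (τ m).image (List.take l) := fun l =>
    (eventually_all_finset _).2 fun c _ => by
      by_cases p : ∀ᶠ m in hyperfilter ℕ, c ∈ (τ m).image (List.take l)
      · exact p.mono fun m r => iff_of_true r p
      · exact (Ultrafilter.eventually_not.2 p).mono fun m r => iff_of_false r p
  refine ⟨1 + η⁻¹, fun l c => if ∀ᶠ m in hyperfilter ℕ, c ∈ (τ m).image (List.take l) then 1 else 0,
    le_add_of_nonneg_right (by positivity), fun _ _ => by positivity, fun l => ?_, fun a L => ?_⟩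
  · obtain ⟨m, hm⟩ := (good l).exists
    obtain ⟨σ, s1, s2, s3⟩ := exists_subset_injOn_image_eq_of_surjOn (f := List.take l)
      (τ m : Set Nd) ((τ m).image (List.take l)) (by simp [Set.SurjOn])
    rw [sum_boole]
    refine le_trans (Nat.cast_le.2 ?_) (τ3 m l σ s1 s2)
    rw [← card_image_of_injOn s2, s3]
    exact card_le_card fun c p => (hm c (mem_filter.1 p).1).2 (mem_filter.1 p).2
  · obtain ⟨m, h1, h2⟩ := (((eventually_ge_atTop a).filter_mono Nat.hyperfilter_le_atTop).and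
      ((eventually_all_finset (range L)).2 fun l _ => good l)).exists
    refine ⟨k m, h1.trans (k1 m), k2 m a (mem_range.2 (by omega)), fun _ => 1, τ m,
      fun q p => h1.trans (τ1 m q p), by simpa using τ2 m, by simp, by simpa using τ3 m,
      fun l hl q p => ?_⟩
    beta_reduce
    rw [if_pos ((h2 l (mem_range.2 hl) _ (take_mem l q)).1 (mem_image_of_mem _ p)), abs_one]

lemma core {z : ℕ → Nd → ℝ} {ε : ℝ} (e0 : 0 < ε) (h : ∀ a, ∃ᶠ k in atTop, ∃ g ∈ Tr,
    ∃ τ : Finset Nd, (∀ q ∈ τ, a ≤ q.length) ∧ ε < ∑ q ∈ τ, |g q| * |z k q|) {P : ℕ → ℕ → Prop}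
    (hP : ∀ a, ∀ᶠ k in atTop, P a k) (R : ℕ → ℕ) : ∃ δ > 0, ∃ g ∈ Tr, ∀ a₀, ∃ a k, a₀ ≤ a ∧
      a₀ ≤ k ∧ P a k ∧ ∃ τ : Finset Nd, (∀ q ∈ τ, a ≤ q.length) ∧ δ ≤ ∑ q ∈ τ, g q * z k q ∧
        ∀ q ∉ τ, g q ≠ 0 → q.length < a ∨ R k ≤ q.length := by
  classical
  obtain ⟨D, w, D1, w0, w1, ex⟩ := step1 h hP
  choose k k1 k2 g τ τ1 τ2 g1 g2 g3 using fun a => ex a ((Low a).card + a)
  let a : ℕ → ℕ := fun i =>
    (fun a => max (a + 1) (max (R (k a)) ((τ a).sup List.length + 1)))^[i] 0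
  have s : ∀ i, a (i + 1) = max (a i + 1) (max (R (k (a i))) ((τ (a i)).sup List.length + 1)) :=
    fun i => Function.iterate_succ_apply' _ _ _
  have ha : StrictMono a := strictMono_nat_of_lt_succ fun i => by rw [s]; omega
  have ec : ∀ n, ∃ i, n < a (i + 1) := fun n => ⟨n, (Nat.lt_succ_self n).trans_le (ha.id_le _)⟩
  let I : Nd → ℕ := fun q => Nat.find (ec q.length)
  have hI : ∀ q i, a i ≤ q.length → q.length < a (i + 1) → I q = i := fun q i h1 h2 =>
    (Nat.find_eq_iff _).2 ⟨h2, fun j hj => not_lt.2 ((ha.monotone hj).trans h1)⟩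
  let u : Nd → ℝ := fun q => if q ∈ τ (a (I q)) then
    |g (a (I q)) q| * SignType.sign (z (k (a (I q))) q) else 0
  have hu : ∀ q, |u q| ≤ if q ∈ τ (a (I q)) then |g (a (I q)) q| else 0 := fun q => by
    simp only [u]
    split_ifs
    · rcases lt_trichotomy (z (k (a (I q))) q) 0 with p | p | p <;> simp [p]
    · simp
  have D0 : 0 < (3 * D)⁻¹ := by positivity
  refine ⟨(3 * D)⁻¹ * (ε / 2), by positivity, fun q => (3 * D)⁻¹ * u q, fun l σ hσ => ?_,
    fun i => ⟨a i, k (a i), ha.id_le i, (ha.id_le i).trans (k1 _), k2 _, τ (a i), τ1 _, ?_,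
      fun q h1 h2 => ?_⟩⟩
  · have el : ∃ i, l < (Low (a (i + 1))).card + a (i + 1) := (ec l).imp fun i p => by omega
    obtain ⟨j, j1, j2⟩ : ∃ j, l < (Low (a (j + 1))).card + a (j + 1) ∧ (Low (a j)).card ≤ l := by
      refine ⟨_, Nat.find_spec el, ?_⟩
      cases p : Nat.find el with
      | zero => simp [a, Low]
      | succ j => have := Nat.find_min el (m := j) (by omega); omega
    have pt : ∀ q, |u q| ≤ (if q ∈ Low (a j) then 1 else 0) + (if q ∈ τ (a j) then |g (a j) q|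
        else 0) + w l (q.take l) := fun q => by
      have b1 : (0 : ℝ) ≤ if q ∈ Low (a j) then 1 else 0 := by positivity
      have b2 : (0 : ℝ) ≤ if q ∈ τ (a j) then |g (a j) q| else 0 := by positivity
      have b3 := w0 l (q.take l)
      have b4 := hu q
      rcases lt_trichotomy (I q) j with p | p | p
      · rw [if_pos (mem_Low.2 ((Nat.find_spec (ec q.length)).trans_le (ha.monotone p)))]
        split_ifs at b4 <;> linarith [g1 (a (I q)) q]
      · rw [p] at b4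
        linarith
      · have := card_le_card (Low_mono (ha.monotone (show j + 1 ≤ I q from p)))
        have := ha.monotone (show j + 1 ≤ I q from p)
        split_ifs at b4 with r
        · linarith [g3 (a (I q)) l (by omega) q r]
        · linarith
    simp only [abs_mul, abs_of_pos D0, ← mul_sum]
    rw [inv_mul_le_iff₀ (by positivity)]
    refine (sum_le_sum fun q _ => pt q).trans ?_
    rw [sum_add_distrib, sum_add_distrib, sum_boole, ← sum_filter, ← sum_image (f := w l) hσ]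
    have c1 : ((σ.filter (· ∈ Low (a j))).card : ℝ) ≤ l :=
      Nat.cast_le.2 ((card_le_card fun q p => (mem_filter.1 p).2).trans j2)
    have c2 := g2 (a j) l (σ.filter (· ∈ τ (a j))) (fun q p => (mem_filter.1 p).2)
      (hσ.mono (coe_subset.2 (filter_subset _ _)))
    have c3 := (sum_le_sum_of_subset_of_nonneg (s := σ.image (List.take l)) (fun c p => by
      obtain ⟨q, -, rfl⟩ := mem_image.1 p
      exact take_mem l q) fun c _ _ => w0 l c).trans (w1 l)
    nlinarith [l.cast_nonneg (α := ℝ)]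
  · simp only [mul_assoc, ← mul_sum]
    refine mul_le_mul_of_nonneg_left ((τ2 _).le.trans_eq (sum_congr rfl fun q p => ?_)) D0.le
    have := le_sup (f := List.length) p
    simp only [u, hI q i (τ1 _ q p) (by rw [s]; omega), if_pos p, mul_assoc, sign_mul_self]
  · by_contra p
    push Not at p
    refine h2 ?_
    simp only [u, hI q i p.1 (by rw [s]; omega), if_neg h1, mul_zero]

variable {X : Type} [NormedAddCommGroup X] [NormedSpace ℝ X] {co : Nd → X →L[ℝ] ℝ}

lemma Tr.tail (H : Good Tr co) : Tail co := H.tail fun x ε e0 => by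
  classical
  by_contra h
  push Not at h
  obtain ⟨δ, d0, g, hg, ex⟩ := core (z := fun _ q => co q x) e0 (fun a => Frequently.of_forall
    fun _ => by
      obtain ⟨g, hg, τ, h1, h2⟩ := h (Low a)
      exact ⟨g, hg, τ, fun q p => not_lt.1 (mt mem_Low.2 (disjoint_left.1 h1 p)), h2⟩)
    (P := fun _ _ => True) (by simp) id
  have : ∀ N : ℕ, ∃ τ : Finset Nd, N * δ ≤ ∑ q ∈ τ, g q * co q x := fun N => by
    induction N with
    | zero => exact ⟨∅, by simp⟩
    | succ N ih =>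
      obtain ⟨τ, hτ⟩ := ih
      obtain ⟨a, -, h1, -, -, τ', h2, h3, -⟩ := ex (τ.sup List.length + 1)
      refine ⟨τ ∪ τ', ?_⟩
      rw [sum_union (disjoint_left.2 fun q p p' => by
        have := le_sup (f := List.length) p
        have := h2 q p'
        omega)]
      push_cast
      linarith
  obtain ⟨N, hN⟩ := exists_nat_gt (‖x‖ / δ)
  obtain ⟨τ, hτ⟩ := this N
  rw [div_lt_iff₀ d0] at hN
  linarith [(sum_le_sum fun q _ => (le_abs_self (g q * co q x)).trans_eq (abs_mul _ _)).trans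
    (H.le g hg τ x)]

lemma Tr.schur (H : Good Tr co) {z : ℕ → X} (hz : ∀ q, Tendsto (fun k => co q (z k)) atTop (𝓝 0))
    {ε : ℝ} (e0 : 0 < ε) (h : ∃ᶠ k in atTop, ε ≤ ‖z k‖) :
    ∃ f : X →L[ℝ] ℝ, ∃ δ > 0, ∃ᶠ k in atTop, δ ≤ f (z k) := by
  classical
  have sm : ∀ a, ∀ η > 0, ∀ᶠ k in atTop, ∑ q ∈ Low a, |co q (z k)| ≤ η := fun a η η0 =>
    (by simpa using tendsto_finsetSum (Low a) fun q _ => (hz q).abs :
      Tendsto (fun k => ∑ q ∈ Low a, |co q (z k)|) atTop (𝓝 0)).eventually (ge_mem_nhds η0)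
  choose F hF using fun k : ℕ => Tr.tail H (z k) _ (Nat.one_div_pos_of_nat (n := k))
  obtain ⟨δ, d0, g, hg, ex⟩ := core (z := fun k q => co q (z k)) (half_pos e0) (fun a =>
    (h.and_eventually (sm a (ε / 4) (by positivity))).mono fun k ⟨h1, h2⟩ => by
      by_contra p
      push Not at p
      have := H.norm_le (x := z k) (C := ε / 4 + ε / 2) fun g hg τ => by
        rw [← sum_filter_add_sum_filter_not τ (· ∈ Low a)]
        exact add_le_add (((sum_le_sum fun q _ => mul_le_of_le_one_left (abs_nonneg _)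
          (Tr.bd g hg q)).trans (sum_le_sum_of_subset_of_nonneg (fun q r => (mem_filter.1 r).2)
          fun _ _ _ => abs_nonneg _)).trans h2) (p g hg _ fun q r => not_lt.1
          (mt mem_Low.2 (mem_filter.1 r).2))
      linarith) (fun a => sm a _ (Nat.one_div_pos_of_nat (n := a)))
    fun k => (F k).sup List.length + 1
  obtain ⟨f, hf⟩ := H.fn hg
  obtain ⟨m, hm⟩ := exists_nat_one_div_lt (show 0 < δ / 4 by positivity)
  refine ⟨f, δ / 2, by positivity, frequently_atTop.2 fun b => ?_⟩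
  obtain ⟨a, k, h1, h2, h3, τ, -, h4, h5⟩ := ex (max m b)
  refine ⟨k, (le_max_right _ _).trans h2, ?_⟩
  obtain ⟨M, hM, -⟩ := H.mul {q | q ∉ τ ∧ g q ≠ 0}
  have e : f (z k) = ∑ q ∈ τ, g q * co q (z k) + f (M (z k)) := by
    have := (hasSum_sum_of_ne_finset_zero (f := fun q => if q ∈ τ then g q * co q (z k) else 0)
      (s := τ) (L := SummationFilter.unconditional _) fun q p => if_neg p).add (hf (M (z k)))
    rw [sum_congr rfl fun q p => if_pos p] at this
    refine (hf (z k)).unique (Eq.mp (congrArg (HasSum · _) (funext fun q => ?_)) this)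
    by_cases p : q ∈ τ <;> by_cases r : g q = 0 <;> simp [hM, p, r]
  have b := H.split (F := Low a) (y := M (z k)) (hF k) (fun q => by
    rw [hM, Set.indicator]; split_ifs <;> simp) fun q p r => by
      rw [hM, Set.indicator_of_notMem]
      rintro ⟨u, v⟩
      have := le_sup (f := List.length) p
      have := h5 q u v
      rw [mem_Low] at r
      omega
  have c : |f (M (z k))| ≤ ‖M (z k)‖ := le_of_tendsto' (hf _).abs fun s =>
    (abs_sum_le_sum_abs _ _).trans (by simpa [abs_mul] using H.le g hg s _)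
  have c1 := Nat.one_div_le_one_div (α := ℝ) ((le_max_left _ _).trans h1)
  have c2 := Nat.one_div_le_one_div (α := ℝ) ((le_max_left _ _).trans h2)
  linarith [neg_abs_le (f (M (z k)))]

lemma Tr.compact (H : Good Tr co) (L : Set X) (hL : IsCompact (toWeakSpace ℝ X '' L)) :
    IsCompact L := IsSeqCompact.isCompact fun x hx => by
  obtain ⟨_, ⟨_, ⟨y, hy, rfl⟩, rfl⟩, φ, h1, h2⟩ := (hL.image (f := fun (x : WeakSpace ℝ X) q =>
    (topDualPairing ℝ X).flip x (co q)) (continuous_pi fun q => WeakBilin.eval_continuous _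
      (co q))).tendsto_subseq fun n => ⟨_, ⟨_, hx n, rfl⟩, rfl⟩
  have h3 : ∀ q, Tendsto (fun k => co q (x (φ k))) atTop (𝓝 (co q y)) := tendsto_pi_nhds.1 h2
  refine ⟨y, hy, φ, h1, tendsto_iff_norm_sub_tendsto_zero.2 (NormedAddGroup.tendsto_nhds_zero.2
    fun ε e0 => ?_)⟩
  by_contra p
  simp only [not_eventually, norm_norm, not_lt] at p
  obtain ⟨f, δ, d0, h⟩ := Tr.schur H (z := fun k => x (φ k) - y) (fun q => by
    simpa using (h3 q).sub_const (co q y)) e0 p
  haveI := frequently_iff_neBot.1 h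
  have U := Ultrafilter.of_le (atTop ⊓ 𝓟 {k | δ ≤ f (x (φ k) - y)})
  obtain ⟨y', -, h4⟩ := wlim hL (Ultrafilter.of (atTop ⊓ 𝓟 {k | δ ≤ f (x (φ k) - y)}))
    (y := fun k => x (φ k)) (Eventually.of_forall fun _ => hx _)
  obtain rfl : y' = y := H.ext' fun q =>
    tendsto_nhds_unique (h4 _) ((h3 q).mono_left (U.trans inf_le_left))
  have := ge_of_tendsto ((h4 f).sub_const (f y')) (b := δ)
    ((show ∀ᶠ k in _, δ ≤ f (x (φ k) - y') from le_principal_iff.1 (U.trans inf_le_right)).mono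
      fun k r => by simpa using r)
  linarith

end Pool.Agent.H27.Kot
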