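import Pool.Agent.H27.Kot3

/-! An SWCG space `X` with `L¹(μ, X)` not SWCG. -/

open Filter Topology Finset MeasureTheory
open scoped Pointwise

namespace Pool.Agent.H27.Kot

lemma Good.norm_sum {Q X : Type} [NormedAddCommGroup X] [NormedSpace ℝ X] {G : Set (Q → ℝ)}
    {co : Q → X →L[ℝ] ℝ} (H : Good G co) [DecidableEq Q] {e : Q → X}
    (he : ∀ q r, co r (e q) = if r = q then 1 else 0) {s : Finset ℕ} {σ : ℕ → ℝ}
    (hσ : ∀ i, |σ i| ≤ 1) {q : ℕ → Q} {C : ℝ} (h : ∀ g ∈ G, ∑ i ∈ s, |g (q i)| ≤ C) :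
    ‖∑ i ∈ s, σ i • e (q i)‖ ≤ C := H.norm_le fun g hg τ => by
  refine le_trans ?_ (h g hg)
  simp only [map_sum, map_smul, he, smul_eq_mul]
  refine (sum_le_sum fun r _ => mul_le_mul_of_nonneg_left (abs_sum_le_sum_abs _ _)
    (abs_nonneg _)).trans ?_
  simp only [mul_sum]
  rw [sum_comm]
  refine sum_le_sum fun i _ => ?_
  simp only [mul_ite, mul_one, mul_zero, apply_ite abs, abs_zero, sum_ite_eq']
  split_ifs
  · exact mul_le_of_le_one_right (abs_nonneg _) (hσ i)
  · positivity

def br (u : ℕ → ZMod 2) (j : ℕ) : Nd := List.ofFn fun i : Fin j => u i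

lemma br_len (u : ℕ → ZMod 2) (j : ℕ) : (br u j).length = j := List.length_ofFn

lemma take_br (u : ℕ → ZMod 2) (l j : ℕ) : (br u j).take l = br u (min l j) :=
  List.ext_getElem (by simp [br]) fun i _ _ => by simp [br]

lemma br_mem (u : ℕ → ZMod 2) : (fun q : Nd => if q = br u q.length then (1 : ℝ) else 0) ∈ Tr :=
  fun l σ hσ => by
    simp only [apply_ite abs, abs_one, abs_zero, sum_boole]
    norm_cast
    rw [← card_range (l + 1)]
    refine card_le_card_of_injOn (fun q => min l q.length) (fun q _ => by simp)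
      fun q hq r hr h => hσ (mem_filter.1 hq).1 (mem_filter.1 hr).1 ?_
    rw [(mem_filter.1 hq).2, (mem_filter.1 hr).2, take_br, take_br]
    exact congrArg _ h

abbrev Om := ℕ → ℕ → ZMod 2

lemma cont {Y : Type} [TopologicalSpace Y] (f : Nd → Y) (n j : ℕ) :
    Continuous fun ω : Om => f (br (ω n) j) :=
  (continuous_of_discreteTopology (f := fun v : Fin j → ZMod 2 => f (List.ofFn v))).comp
    (f := fun (ω : Om) (i : Fin j) => ω n i) (by fun_prop)

lemma coll [MeasurableSpace Om] [BorelSpace Om] (μ : Measure Om) [IsProbabilityMeasure μ]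
    [μ.IsAddLeftInvariant] {n m : ℕ} (h : n ≠ m) (l : ℕ) :
    MeasurableSet {ω : Om | br (ω n) l = br (ω m) l} ∧
      μ.real {ω : Om | br (ω n) l = br (ω m) l} = (2 ^ l)⁻¹ := by
  let f : Om →+ (Fin l → ZMod 2) := AddMonoidHom.mk' (fun ω i => ω n i - ω m i)
    fun a b => funext fun i => by simp; ring
  have e : {ω : Om | br (ω n) l = br (ω m) l} = f.ker := Set.ext fun ω => by
    simp [br, f, funext_iff, sub_eq_zero]
  have c : MeasurableSet (f.ker : Set Om) := (IsClosed.preimage (f := f) (t := {0})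
    (show Continuous fun (ω : Om) (i : Fin l) => ω n i - ω m i by fun_prop) isClosed_singleton).measurableSet
  have i : f.ker.index = 2 ^ l := by
    rw [AddSubgroup.index_ker, AddMonoidHom.range_eq_top.2 fun v => ⟨Pi.single n fun i =>
      if q : i < l then v ⟨i, q⟩ else 0, funext fun i => by simp [f, h.symm]⟩]
    simp
  haveI : f.ker.FiniteIndex := ⟨by rw [i]; positivity⟩
  have := congrArg ENNReal.toReal (f.ker.index_mul_measure c μ)
  rw [i] at this
  rw [e]
  exact ⟨c, eq_inv_of_mul_eq_one_right (by simpa [Measure.real] using this)⟩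

theorem notSWCG : ∃ (Ω : Type) (_ : MeasurableSpace Ω) (μ : Measure Ω) (_ : IsProbabilityMeasure μ)
    (X : Type) (_ : NormedAddCommGroup X) (_ : NormedSpace ℝ X) (_ : CompleteSpace X),
    (∃ K : Set X, IsCompact (toWeakSpace ℝ X '' K) ∧ ∀ L : Set X,
      IsCompact (toWeakSpace ℝ X '' L) → ∀ ε : ℝ, 0 < ε →
        ∃ n : ℕ, L ⊆ (n : ℝ) • K + Metric.closedBall (0 : X) ε) ∧
    ¬ ∃ K : Set (Lp X 1 μ), IsCompact (toWeakSpace ℝ (Lp X 1 μ) '' K) ∧ ∀ L : Set (Lp X 1 μ),
      IsCompact (toWeakSpace ℝ (Lp X 1 μ) '' L) → ∀ ε : ℝ, 0 < ε →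
        ∃ n : ℕ, L ⊆ (n : ℝ) • K + Metric.closedBall (0 : Lp X 1 μ) ε := by
  obtain ⟨X, i1, i2, i3, co, H⟩ := space Tr (fun q => ⟨Pi.single q 1, fun l σ _ => by
    simp only [Pi.single_apply, apply_ite abs, abs_one, abs_zero, sum_ite_eq']
    split_ifs
    · simp
    · positivity, by simp⟩) Tr.bd
  haveI := (Tr.tail H).sep H
  obtain ⟨e, he⟩ := H.basis
  borelize Om
  let μ : Measure Om := Measure.addHaarMeasure ⊤
  haveI : IsProbabilityMeasure μ := ⟨Measure.addHaarMeasure_self⟩
  refine ⟨Om, inferInstance, μ, this, X, i1, i2, i3, swcg (Tr.compact H), fun ⟨K, hK, h⟩ => ?_⟩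
  let F : ℕ → ℕ → C(Om, X) := fun n j => ⟨_, cont e n j⟩
  let Φ : ℕ → ℕ → Lp X 1 μ →L[ℝ] ℝ := fun n j => (ContinuousLinearMap.id ℝ (X →L[ℝ] ℝ)).lpPairing
    μ ⊤ 1 (ContinuousMap.toLp ⊤ μ ℝ ⟨_, cont co n j⟩)
  have hΦ : ∀ n j w, Φ n j w = ∫ ω, co (br (ω n) j) (w ω) ∂μ := fun n j w => by
    rw [ContinuousLinearMap.lpPairing_eq_integral]
    refine integral_congr_ae ?_
    filter_upwards [ContinuousMap.coeFn_toLp (p := ⊤) (𝕜 := ℝ) μ ⟨_, cont co n j⟩] with ω q
    rw [q]
    rfl
  have ex : ∀ n : ℕ, ∃ j, n ≤ j ∧ ContinuousMap.toLp 1 μ ℝ (F n j) ∉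
      (n : ℝ) • K + Metric.closedBall 0 (1 / 2) := fun n => by
    refine not_absorb hK (Φ n) (fun w s => ?_) (fun i j => ?_) n n
    · have I : ∀ j, Integrable (fun ω => |co (br (ω n) j) (w ω)|) μ := fun j =>
        ((L1.integrable_coeFn w).norm.mono' ((ContinuousLinearMap.id ℝ
          (X →L[ℝ] ℝ)).aestronglyMeasurable_comp₂ (cont co n j).aestronglyMeasurable
          (Lp.aestronglyMeasurable w)) (Eventually.of_forall fun ω => H.co_le _ _)).abs
      simp only [hΦ]
      refine (sum_le_sum fun j _ => abs_integral_le_integral_abs).trans ?_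
      rw [← integral_finsetSum _ fun j _ => I j, L1.norm_eq_integral_norm]
      refine integral_mono (integrable_finsetSum _ fun j _ => I j) (L1.integrable_coeFn w).norm
        fun ω => le_trans (le_of_eq ?_) (H.le _ (br_mem (ω n)) (s.image (br (ω n))) (w ω))
      rw [sum_image fun a _ b _ r => by simpa [br_len] using congrArg List.length r]
      simp [br_len]
    · rw [hΦ, integral_congr_ae (g := fun _ => if i = j then 1 else 0)]
      · simp
      filter_upwards [ContinuousMap.coeFn_toLp (p := 1) (𝕜 := ℝ) μ (F n j)] with ω q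
      rw [q]
      exact (he _ _).trans (if_congr ⟨fun r => by simpa [br_len] using congrArg List.length r,
        fun r => by rw [r]⟩ rfl rfl)
  choose j j1 j2 using ex
  refine (h _ (wnull (wnull' (y := fun n => ContinuousMap.toLp 1 μ ℝ (F n (j n)))
    fun ε e0 S hS => ?_)) (1 / 2) one_half_pos).elim fun n hn => j2 n (hn (Or.inr ⟨n, rfl⟩))
  obtain ⟨p, hp⟩ : ∃ p : ℕ, (2 * p + 2 : ℝ) ≤ ε * 2 ^ p := by
    obtain ⟨p, h1, h2⟩ := (((tendsto_pow_const_div_const_pow_of_one_lt 1 one_lt_two).eventually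
      (ge_mem_nhds (show 0 < ε / 4 by positivity))).and (eventually_ge_atTop 1)).exists
    rw [pow_one, div_le_iff₀ (by positivity)] at h1
    have : (1 : ℝ) ≤ p := by exact_mod_cast h2
    exact ⟨p, by linarith⟩
  obtain ⟨s, s1, s2⟩ := (hS.diff (range (2 * p)).finite_toSet).exists_subset_card_eq (2 ^ p)
  refine ⟨s, fun i q => (s1 q).1, card_pos.1 (by rw [s2]; positivity), fun σ hσ => ?_⟩
  have I : ∀ i, ∀ m ∈ s.erase i, Integrable (Set.indicator {ω : Om | br (ω i) (2 * p) =
      br (ω m) (2 * p)} fun _ => (1 : ℝ)) μ := fun i m q =>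
    (integrable_const _).indicator (coll μ (ne_of_mem_erase q).symm _).1
  have I' := integrable_finsetSum s fun i _ => integrable_finsetSum _ (I i)
  simp only [← map_smul, ← map_sum]
  rw [L1.norm_eq_integral_norm]
  refine (integral_mono_ae (L1.integrable_coeFn _).norm ((integrable_const
    ((2 * p : ℕ) + 1 : ℝ)).add I') ?_).trans ?_
  · filter_upwards [ContinuousMap.coeFn_toLp (p := 1) (𝕜 := ℝ) μ (∑ i ∈ s, σ i • F i (j i))]
      with ω q
    rw [q, ContinuousMap.sum_apply]
    refine H.norm_sum he hσ (q := fun i => br (ω i) (j i)) fun g hg => ?_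
    have t : ∀ i ∈ s, (br (ω i) (j i)).take (2 * p) = br (ω i) (2 * p) := fun i r => by
      have := (s1 r).2
      rw [take_br, min_eq_left (by simp at this; linarith [j1 i])]
    have inj : ∀ a ∈ s.filter fun i => ∀ m ∈ s.erase i, br (ω i) (2 * p) ≠ br (ω m) (2 * p),
        ∀ b ∈ s, (br (ω a) (j a)).take (2 * p) = (br (ω b) (j b)).take (2 * p) → a = b :=
      fun a ha b hb r => by
        rw [t a (mem_filter.1 ha).1, t b hb] at r
        by_contra c
        exact (mem_filter.1 ha).2 b (mem_erase.2 ⟨Ne.symm c, hb⟩) r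
    rw [← sum_filter_add_sum_filter_not s fun i => ∀ m ∈ s.erase i,
      br (ω i) (2 * p) ≠ br (ω m) (2 * p)]
    refine add_le_add ?_ ((sum_le_sum fun i r => ?_).trans (sum_le_sum_of_subset_of_nonneg
      (filter_subset _ _) fun i _ _ => sum_nonneg fun m _ => Set.indicator_nonneg (by simp) _))
    · rw [← sum_image (f := fun q => |g q|) fun a ha b hb r => inj a ha b (mem_filter.1 hb).1
        (congrArg _ r)]
      refine hg _ _ fun a ha b hb r => ?_
      obtain ⟨a, ha', rfl⟩ := mem_image.1 ha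
      obtain ⟨b, hb', rfl⟩ := mem_image.1 hb
      rw [inj a ha' b (mem_filter.1 hb').1 r]
    · have := (mem_filter.1 r).2
      push Not at this
      obtain ⟨m, h1, h2⟩ := this
      refine (Tr.bd g hg _).trans (le_trans (le_of_eq ?_) (single_le_sum
        (fun m _ => Set.indicator_nonneg (by simp) _) h1))
      rw [Set.indicator_of_mem (by exact h2)]
  · erw [integral_add (integrable_const _) I']
    rw [integral_finsetSum _ fun i _ => integrable_finsetSum _ (I i), sum_congr rfl fun i _ => by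
      rw [integral_finsetSum _ (I i), sum_congr rfl fun m q => by
        rw [integral_indicator_const _ (coll μ (ne_of_mem_erase q).symm _).1,
          (coll μ (ne_of_mem_erase q).symm _).2]]]
    have : ∑ i ∈ s, ∑ m ∈ s.erase i, ((2 : ℝ) ^ (2 * p))⁻¹ • (1 : ℝ) ≤ 1 := by
      refine (sum_le_sum fun i _ => sum_le_sum_of_subset_of_nonneg (erase_subset _ _)
        fun _ _ _ => by positivity).trans_eq ?_
      simp only [sum_const, s2, smul_eq_mul, nsmul_eq_mul]
      push_cast
      field_simp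
      ring
    rw [s2]
    simp only [integral_const, probReal_univ, one_smul]
    push_cast
    linarith

end Pool.Agent.H27.Kot
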