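import Mathlib

set_option autoImplicit false

namespace Pool.Agent.H27.KottA

open Filter Topology Finset

noncomputable def avg (E : Finset ℕ) (x : ℕ → ℝ) : ℝ := (∑ k ∈ E, x k) / E.card

def Adm (F : Finset (Finset ℕ)) : Prop :=
  (∀ E ∈ F, ∃ k ∈ E, k < E.card) ∧
    ∀ E ∈ F, ∀ E' ∈ F, E ≠ E' → (∀ a ∈ E, ∀ b ∈ E', a < b) ∨ (∀ a ∈ E, ∀ b ∈ E', b < a)

noncomputable def Q (F : Finset (Finset ℕ)) (x : ℕ → ℝ) : ℝ := ∑ E ∈ F, avg E x ^ 2

def Bd (x : ℕ → ℝ) (c : ℝ) : Prop := (∀ k, |x k| ≤ c) ∧ ∀ F, Adm F → Q F x ≤ 4 * c ^ 2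

def Str (b : ℕ) (E : Finset ℕ) : Prop := (∃ a ∈ E, a < b) ∧ ∃ a ∈ E, b ≤ a

theorem Adm.mono {F G : Finset (Finset ℕ)} (h : Adm F) (hG : G ⊆ F) : Adm G :=
  ⟨fun E hE => h.1 E (hG hE), fun E hE E' hE' => h.2 E (hG hE) E' (hG hE')⟩

theorem avg_le {E : Finset ℕ} {x : ℕ → ℝ} {c : ℝ} (hc : 0 ≤ c) (h : ∀ k ∈ E, |x k| ≤ c) :
    avg E x ^ 2 ≤ c ^ 2 := by
  refine sq_le_sq' ?_ ?_ <;> [refine (abs_le.1 ?_).1; refine (abs_le.1 ?_).2] <;>
  · rcases E.eq_empty_or_nonempty with rfl | hE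
    · simpa [avg] using hc
    · have : (0 : ℝ) < E.card := by exact_mod_cast hE.card_pos
      rw [avg, abs_div, abs_of_pos this, div_le_iff₀ this]
      refine (abs_sum_le_sum_abs _ _).trans ((sum_le_sum h).trans (le_of_eq ?_))
      simp [mul_comm]

theorem avg_congr {E : Finset ℕ} {x y : ℕ → ℝ} (h : ∀ k ∈ E, x k = y k) : avg E x = avg E y := by
  rw [avg, avg, sum_congr rfl h]

theorem avg_zero {E : Finset ℕ} {x : ℕ → ℝ} (h : ∀ k ∈ E, x k = 0) : avg E x = 0 := by
  rw [avg, sum_eq_zero h, zero_div]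

open Classical in
theorem str_sum {F : Finset (Finset ℕ)} (h : Adm F) (b : ℕ) (c : ℝ) (hc : 0 ≤ c) :
    ∑ E ∈ F, (if Str b E then c else 0) ≤ c := by
  rw [← sum_filter, sum_const, nsmul_eq_mul]
  have : (F.filter (Str b)).card ≤ 1 := by
    refine card_le_one.2 fun E hE E' hE' => ?_
    rw [mem_filter] at hE hE'
    by_contra hne
    obtain ⟨⟨a, ha, ha'⟩, ⟨a2, ha2, ha2'⟩⟩ := hE.2
    obtain ⟨⟨d, hd, hd'⟩, ⟨d2, hd2, hd2'⟩⟩ := hE'.2
    rcases h.2 E hE.1 E' hE'.1 hne with h1 | h1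
    · have := h1 a2 ha2 d hd; omega
    · have := h1 a ha d2 hd2; omega
  have h2 : ((F.filter (Str b)).card : ℝ) ≤ 1 := by exact_mod_cast this
  nlinarith

theorem not_str {b : ℕ} {E : Finset ℕ} (h : ¬ Str b E) : (∀ a ∈ E, a < b) ∨ ∀ a ∈ E, b ≤ a := by
  by_contra hc
  push Not at hc
  exact h ⟨hc.2, hc.1⟩

theorem concat {x : ℕ → ℝ} {c : ℝ} (h : Bd x c) {η : ℝ} (hη : 0 < η) :
    ∃ a, ∀ F, Adm F → (∀ E ∈ F, ∀ k ∈ E, a ≤ k) → Q F x < η := by
  by_contra hc
  push Not at hc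
  have key : ∀ n : ℕ, ∃ F, Adm F ∧ n * η ≤ Q F x := by
    intro n
    induction n with
    | zero => exact ⟨∅, ⟨by simp, by simp⟩, by simp [Q]⟩
    | succ n ih =>
      obtain ⟨F, hF, hQ⟩ := ih
      obtain ⟨G, hG, hG1, hG2⟩ := hc ((F.sup fun E => E.sup id) + 1)
      have hlt : ∀ E ∈ F, ∀ E' ∈ G, ∀ a ∈ E, ∀ b ∈ E', a < b := by
        intro E hE E' hE' a ha b hb
        have h1 : a ≤ E.sup id := le_sup (f := id) ha
        have h2 : E.sup id ≤ F.sup fun E => E.sup id := le_sup (f := fun E => E.sup id) hE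
        have := hG1 E' hE' b hb
        omega
      have hdis : Disjoint F G := by
        rw [disjoint_left]
        intro E hE hE'
        obtain ⟨k, hk, -⟩ := hF.1 E hE
        exact lt_irrefl _ (hlt E hE E hE' k hk k hk)
      refine ⟨F ∪ G, ⟨fun E hE => ?_, fun E hE E' hE' hne => ?_⟩, ?_⟩
      · rcases mem_union.1 hE with h | h
        exacts [hF.1 E h, hG.1 E h]
      · rcases mem_union.1 hE with h | h <;> rcases mem_union.1 hE' with h' | h'
        · exact hF.2 E h E' h' hne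
        · exact Or.inl (hlt E h E' h')
        · exact Or.inr fun a ha b hb => hlt E' h' E h b hb a ha
        · exact hG.2 E h E' h' hne
      · rw [Q, sum_union hdis]
        push_cast
        rw [Q] at hQ hG2
        linarith
  obtain ⟨n, hn⟩ := exists_nat_gt (4 * c ^ 2 / η)
  obtain ⟨F, hF, hQ⟩ := key n
  have := h.2 F hF
  rw [div_lt_iff₀ hη] at hn
  linarith

theorem fin_large {x : ℕ → ℝ} {a : ℕ} {δ : ℝ} (hδ : 0 < δ)
    (h : ∀ F, Adm F → (∀ E ∈ F, ∀ k ∈ E, a ≤ k) → Q F x < δ ^ 2) (s : ℝ) (hs : s ^ 2 = 1) :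
    {k | a ≤ k ∧ δ ≤ s * x k}.Finite := by
  by_contra hinf
  obtain ⟨k0, hk0⟩ := Set.Infinite.nonempty hinf
  obtain ⟨T, hT, hcard⟩ := Set.Infinite.exists_subset_card_eq hinf (k0 + 1)
  have hsub : ∀ k ∈ insert k0 T, a ≤ k ∧ δ ≤ s * x k := by
    intro k hk
    rcases mem_insert.1 hk with rfl | hk
    exacts [hk0, hT hk]
  have hc : k0 < (insert k0 T).card := by
    have := card_le_card (subset_insert k0 T); omega
  have h1 := h {insert k0 T} ⟨fun E hE => ?_, fun E hE E' hE' hne => ?_⟩ fun E hE k hk => ?_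
  · rw [Q, sum_singleton] at h1
    have hpos : (0 : ℝ) < (insert k0 T).card := by exact_mod_cast (by omega)
    have h2 : δ ≤ s * avg (insert k0 T) x := by
      rw [avg, ← mul_div_assoc, le_div_iff₀ hpos, mul_sum]
      refine le_trans (le_of_eq ?_) (sum_le_sum fun k hk => (hsub k hk).2)
      simp [mul_comm]
    have h3 : δ ^ 2 ≤ (s * avg (insert k0 T) x) ^ 2 := by gcongr
    rw [mul_pow, hs, one_mul] at h3
    linarith
  · rw [mem_singleton.1 hE]; exact ⟨k0, mem_insert_self _ _, hc⟩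
  · exact absurd ((mem_singleton.1 hE).trans (mem_singleton.1 hE').symm) hne
  · rw [mem_singleton.1 hE] at hk; exact (hsub k hk).1

def R (b : ℕ) (x : ℕ → ℝ) : ℕ → ℝ := fun k => if b ≤ k then x k else 0

theorem tail {x : ℕ → ℝ} {c : ℝ} (h : Bd x c) {ε : ℝ} (hε : 0 < ε) :
    ∃ a, ∀ b, a ≤ b → Bd (R b x) ε := by
  classical
  obtain ⟨a, ha⟩ := concat h (pow_pos hε 2)
  obtain ⟨a1, ha1⟩ := ((fin_large hε ha 1 (by norm_num)).union
    (fin_large hε ha (-1) (by norm_num))).bddAbove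
  refine ⟨max a (a1 + 1), fun b hb => ?_⟩
  have hsm : ∀ k, |R b x k| ≤ ε := by
    intro k
    unfold R
    split_ifs with hk
    · by_contra hcon
      have hk1 : a ≤ k := (le_max_left _ _).trans (hb.trans hk)
      have hk2 : a1 + 1 ≤ k := (le_max_right _ _).trans (hb.trans hk)
      have : k ≤ a1 := by
        apply ha1
        rcases le_total 0 (x k) with h0 | h0
        · rw [abs_of_nonneg h0] at hcon
          exact Or.inl ⟨hk1, by linarith⟩
        · rw [abs_of_nonpos h0] at hcon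
          exact Or.inr ⟨hk1, by linarith⟩
      omega
    · simpa using hε.le
  refine ⟨hsm, fun F hF => ?_⟩
  have h1 : ∀ E ∈ F, avg E (R b x) ^ 2 ≤ (if ∀ k ∈ E, b ≤ k then avg E x ^ 2 else 0) +
      (if Str b E then ε ^ 2 else 0) := by
    intro E _
    by_cases hs : Str b E
    · rw [if_pos hs]
      have := avg_le hε.le fun k (_ : k ∈ E) => hsm k
      have h0 : 0 ≤ (if ∀ k ∈ E, b ≤ k then avg E x ^ 2 else 0) := by split_ifs <;> positivity
      linarith
    · rw [if_neg hs, add_zero]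
      split_ifs with h2
      · rw [avg_congr (x := R b x) (y := x) fun k hk => if_pos (h2 k hk)]
      · rw [avg_zero (x := R b x) fun k hk => if_neg (not_le.2 ((not_str hs).resolve_right h2 k hk))]
        simp
  have h2 := sum_le_sum h1
  rw [sum_add_distrib, ← sum_filter] at h2
  have h3 := ha _ (hF.mono (filter_subset (fun E => ∀ k ∈ E, b ≤ k) F)) fun E hE k hk =>
    (le_max_left _ _).trans (hb.trans ((mem_filter.1 hE).2 k hk))
  have h4 := str_sum hF b (ε ^ 2) (by positivity)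
  rw [Q] at h3 ⊢
  nlinarith [pow_pos hε 2]

def blk (a b : ℕ) (x y : ℕ → ℝ) : ℕ → ℝ :=
  fun k => if k < a then 0 else if k < b then x k else - y k

theorem block {x y : ℕ → ℝ} (hx : Bd x 1) (hy : Bd y 1) {a b : ℕ} (hab : a ≤ b) :
    Bd (blk a b x y) (8 / 5) := by
  classical
  have hsm : ∀ k, |blk a b x y k| ≤ 1 := by
    intro k
    unfold blk
    split_ifs
    · simp
    · exact hx.1 k
    · rw [abs_neg]; exact hy.1 k
  refine ⟨fun k => (hsm k).trans (by norm_num), fun F hF => ?_⟩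
  have h1 : ∀ E ∈ F, avg E (blk a b x y) ^ 2 ≤ avg E x ^ 2 + avg E y ^ 2 +
      (if Str a E then 1 else 0) + (if Str b E then 1 else 0) := by
    intro E _
    have hb := avg_le zero_le_one fun k (_ : k ∈ E) => hsm k
    have hx2 := sq_nonneg (avg E x)
    have hy2 := sq_nonneg (avg E y)
    by_cases hs : Str a E
    · rw [if_pos hs]
      split_ifs <;> nlinarith
    by_cases hs' : Str b E
    · rw [if_pos hs', if_neg hs]; nlinarith
    rw [if_neg hs, if_neg hs', add_zero, add_zero]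
    rcases not_str hs with h2 | h2
    · rw [avg_zero (x := blk a b x y) fun k hk => if_pos (h2 k hk)]; nlinarith
    rcases not_str hs' with h3 | h3
    · rw [avg_congr (y := x) fun k hk => by
        simp only [blk, if_neg (not_lt.2 (h2 k hk)), if_pos (h3 k hk)]]
      linarith
    · rw [avg_congr (y := fun k => - y k) fun k hk => by
        simp only [blk, if_neg (not_lt.2 (h2 k hk)), if_neg (not_lt.2 (h3 k hk))]]
      have : avg E (fun k => - y k) = - avg E y := by simp [avg, neg_div]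
      rw [this, neg_sq]
      linarith
  have h2 := sum_le_sum h1
  rw [sum_add_distrib, sum_add_distrib, sum_add_distrib] at h2
  have h3 := str_sum hF a 1 zero_le_one
  have h4 := str_sum hF b 1 zero_le_one
  have h5 := hx.2 F hF
  have h6 := hy.2 F hF
  rw [Q] at h5 h6 ⊢
  norm_num at h5 h6 ⊢
  linarith

theorem sparse {w : ℕ → ℝ} {M : ℝ} {S : Finset ℕ} {N : ℕ} (hM : ∀ k, |w k| ≤ M)
    (hS : ∀ k ∉ S, w k = 0) (hN : ∀ k ∈ S, N ≤ k) (hc : S.card ≤ N + 1) : Bd w M := by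
  classical
  have hM0 : 0 ≤ M := (abs_nonneg _).trans (hM 0)
  refine ⟨hM, fun F hF => ?_⟩
  have hN1 : (0 : ℝ) < N + 1 := by positivity
  have hc' : (S.card : ℝ) ≤ N + 1 := by exact_mod_cast hc
  have h1 : ∀ E ∈ F, avg E w ^ 2 ≤ M ^ 2 / (N + 1) * (E ∩ S).card +
      (if Str N E then M ^ 2 else 0) := by
    intro E hE
    have h0 : 0 ≤ M ^ 2 / (N + 1) * (E ∩ S).card := by positivity
    by_cases hs : Str N E
    · rw [if_pos hs]
      have := avg_le hM0 fun k (_ : k ∈ E) => hM k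
      linarith
    rw [if_neg hs, add_zero]
    rcases not_str hs with h2 | h2
    · rw [avg_zero fun k hk => hS k fun hk' => absurd (hN k hk') (not_le.2 (h2 k hk))]
      simpa using h0
    · obtain ⟨k, hk, hk'⟩ := hF.1 E hE
      have h3 : (N : ℝ) + 1 ≤ E.card := by exact_mod_cast lt_of_le_of_lt (h2 k hk) hk'
      have h4 : |∑ k ∈ E, w k| ≤ (E ∩ S).card * M := by
        rw [← sum_subset (inter_subset_left (s₂ := S)) fun k hk hk' =>
          hS k fun h => hk' (mem_inter.2 ⟨hk, h⟩)]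
        refine (abs_sum_le_sum_abs _ _).trans ((sum_le_sum fun k _ => hM k).trans (le_of_eq ?_))
        simp
      have h5 : ((E ∩ S).card : ℝ) ≤ N + 1 :=
        le_trans (by exact_mod_cast card_le_card inter_subset_right) hc'
      have h6 : |avg E w| ≤ (E ∩ S).card * M / (N + 1) := by
        rw [avg, abs_div, Nat.abs_cast]
        gcongr
      calc avg E w ^ 2 = |avg E w| ^ 2 := (sq_abs _).symm
        _ ≤ ((E ∩ S).card * M / (N + 1)) ^ 2 := by gcongr
        _ = M ^ 2 / (N + 1) * (E ∩ S).card * ((E ∩ S).card / (N + 1)) := by field_simp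
        _ ≤ _ := mul_le_of_le_one_right h0 ((div_le_one hN1).2 h5)
  have h2 := sum_le_sum h1
  rw [sum_add_distrib, ← mul_sum] at h2
  have h3 := str_sum hF N (M ^ 2) (by positivity)
  have h4 : ∑ E ∈ F, ((E ∩ S).card : ℝ) ≤ N + 1 := by
    have : ∑ E ∈ F, (E ∩ S).card ≤ S.card := by
      rw [← card_biUnion]
      · exact card_le_card (biUnion_subset.2 fun E _ => inter_subset_right)
      · intro E hE E' hE' hne
        rw [Function.onFun, disjoint_left]
        intro k hk hk'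
        rcases hF.2 E hE E' hE' hne with h | h <;>
          exact lt_irrefl _ (h k (mem_inter.1 hk).1 k (mem_inter.1 hk').1)
    exact le_trans (by exact_mod_cast this) hc'
  have h5 : M ^ 2 / (N + 1) * ∑ E ∈ F, ((E ∩ S).card : ℝ) ≤ M ^ 2 := by
    calc _ ≤ M ^ 2 / (N + 1) * (N + 1) := by gcongr
      _ = M ^ 2 := by field_simp
  rw [Q]
  nlinarith [sq_nonneg M]

theorem Bd_lim {u : ℕ → ℕ → ℝ} {x : ℕ → ℝ} {c : ℝ} (hu : ∀ n, Bd (u n) c)
    (h : Tendsto u atTop (𝓝 x)) : Bd x c := by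
  refine ⟨fun k => le_of_tendsto' (tendsto_pi_nhds.1 h k).abs fun n => (hu n).1 k,
    fun F hF => ?_⟩
  have : Continuous (Q F) := by
    unfold Q avg
    fun_prop
  exact le_of_tendsto' ((this.tendsto x).comp h) fun n => (hu n).2 F hF

end Pool.Agent.H27.KottA
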