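import Pool.Agent.H27.Gr4

set_option autoImplicit false

namespace Pool.Agent.H27.Gr

open Finset MeasureTheory ProbabilityTheory Real Filter Topology
open scoped InnerProductSpace

lemma sign_meas : Measurable Real.sign := by
  unfold Real.sign
  exact Measurable.ite measurableSet_Iio measurable_const
    (Measurable.ite measurableSet_Ioi measurable_const measurable_const)

lemma sign_abs (x : ℝ) : |Real.sign x| ≤ 1 := by
  rcases Real.sign_apply_eq x with h | h | h <;> simp [h]

lemma law {E F : Type} [NormedAddCommGroup E] [InnerProductSpace ℝ E] [FiniteDimensional ℝ E]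
    [MeasurableSpace E] [BorelSpace E] [NormedAddCommGroup F] [InnerProductSpace ℝ F]
    [FiniteDimensional ℝ F] [MeasurableSpace F] [BorelSpace F] (u v : E) (u' v' : F)
    (h1 : ‖u‖ = ‖u'‖) (h2 : ‖v‖ = ‖v'‖) (h3 : ⟪u, v⟫_ℝ = ⟪u', v'⟫_ℝ) :
    ∫ z, Real.sign ⟪u, z⟫_ℝ * Real.sign ⟪v, z⟫_ℝ ∂(stdGaussian E) =
      ∫ z, Real.sign ⟪u', z⟫_ℝ * Real.sign ⟪v', z⟫_ℝ ∂(stdGaussian F) := by
  have n : ∀ {G : Type} [NormedAddCommGroup G] [InnerProductSpace ℝ G] (a b : G)
      (L : StrongDual ℝ (ℝ × ℝ)), ‖L.comp ((innerSL ℝ a).prod (innerSL ℝ b))‖ ^ 2 =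
      L (1, 0) ^ 2 * ‖a‖ ^ 2 + 2 * (L (1, 0) * L (0, 1) * ⟪a, b⟫_ℝ) + L (0, 1) ^ 2 * ‖b‖ ^ 2 := by
    intro G _ _ a b L
    have : L.comp ((innerSL ℝ a).prod (innerSL ℝ b)) = innerSL ℝ (L (1, 0) • a + L (0, 1) • b) := by
      ext z
      have : ((⟪a, z⟫_ℝ, ⟪b, z⟫_ℝ) : ℝ × ℝ) =
          ⟪a, z⟫_ℝ • ((1, 0) : ℝ × ℝ) + ⟪b, z⟫_ℝ • ((0, 1) : ℝ × ℝ) := by simp
      simp only [ContinuousLinearMap.comp_apply, ContinuousLinearMap.prod_apply,
        innerSL_apply_apply, inner_add_left, real_inner_smul_left]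
      rw [this, map_add, map_smul, map_smul]
      simp [mul_comm]
    rw [this, innerSL_apply_norm, norm_add_sq_real, norm_smul, norm_smul, real_inner_smul_left,
      real_inner_smul_right, mul_pow, mul_pow, Real.norm_eq_abs, Real.norm_eq_abs, sq_abs, sq_abs]
    ring
  have e : (stdGaussian E).map ((innerSL ℝ u).prod (innerSL ℝ v)) =
      (stdGaussian F).map ((innerSL ℝ u').prod (innerSL ℝ v')) := by
    apply Measure.ext_of_charFunDual
    ext L
    simp only [charFunDual_map, charFunDual_stdGaussian, ← Complex.ofReal_pow, n, h1, h2, h3]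
  have m : Measurable (fun p : ℝ × ℝ => Real.sign p.1 * Real.sign p.2) :=
    (sign_meas.comp measurable_fst).mul (sign_meas.comp measurable_snd)
  have a := integral_map (μ := stdGaussian E) (φ := (innerSL ℝ u).prod (innerSL ℝ v))
    (by fun_prop) m.aestronglyMeasurable
  have b := integral_map (μ := stdGaussian F) (φ := (innerSL ℝ u').prod (innerSL ℝ v'))
    (by fun_prop) m.aestronglyMeasurable
  rw [e, b] at a
  exact a.symm

lemma arc (θ a : ℝ) (h0 : 0 ≤ θ) (h1 : θ ≤ π) :
    ∫ φ in (0 : ℝ)..π, Real.sign (cos (φ - a)) * Real.sign (cos (φ - a - θ)) = π - 2 * θ := by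
  set f : ℝ → ℝ := fun ψ => Real.sign (cos ψ) * Real.sign (cos (ψ - θ)) with hf
  have per : Function.Periodic f π := fun ψ => by
    simp only [hf]
    rw [add_sub_right_comm, cos_add_pi, cos_add_pi, Real.sign_neg, Real.sign_neg]
    ring
  have fm : Measurable f := (sign_meas.comp measurable_cos).mul
    (sign_meas.comp (measurable_cos.comp (measurable_id.sub measurable_const)))
  have fi : ∀ s t, IntervalIntegrable f volume s t := fun s t =>
    (intervalIntegrable_const (c := (1 : ℝ))).mono_fun' fm.aestronglyMeasurable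
      (Eventually.of_forall (fun x => by
        simp only [hf, Real.norm_eq_abs, abs_mul]
        exact mul_le_one₀ (sign_abs _) (abs_nonneg _) (sign_abs _)))
  rw [intervalIntegral.integral_comp_sub_right f, zero_sub, sub_eq_neg_add π,
    per.intervalIntegral_add_eq _ (-(π / 2)),
    ← intervalIntegral.integral_add_adjacent_intervals (fi _ (θ - π / 2)) (fi _ _),
    intervalIntegral.integral_of_le (by linarith), intervalIntegral.integral_of_le (by linarith),
    integral_Ioc_eq_integral_Ioo, integral_Ioc_eq_integral_Ioo,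
    setIntegral_congr_fun (g := fun _ => (-1 : ℝ)) measurableSet_Ioo,
    setIntegral_congr_fun (f := f) (g := fun _ => (1 : ℝ)) measurableSet_Ioo]
  · simp only [integral_const, measureReal_restrict_apply_univ, smul_eq_mul]
    rw [Real.volume_real_Ioo_of_le (by linarith), Real.volume_real_Ioo_of_le (by linarith)]
    ring
  · intro x hx
    simp only [hf]
    rw [Real.sign_of_pos (cos_pos_of_mem_Ioo ⟨by linarith [hx.1], by linarith [hx.2]⟩),
      Real.sign_of_pos (cos_pos_of_mem_Ioo ⟨by linarith [hx.1], by linarith [hx.2]⟩), one_mul]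
  · intro x hx
    simp only [hf]
    rw [Real.sign_of_pos (cos_pos_of_mem_Ioo ⟨by linarith [hx.1], by linarith [hx.2]⟩),
      ← cos_neg (x - θ), Real.sign_of_neg (cos_neg_of_pi_div_two_lt_of_lt (by linarith [hx.2])
        (by linarith [hx.1])), one_mul]

lemma groth {E : Type} [NormedAddCommGroup E] [InnerProductSpace ℝ E] [FiniteDimensional ℝ E]
    [MeasurableSpace E] [BorelSpace E] (u v : E) (hu : ‖u‖ = 1) (hv : ‖v‖ = 1) :
    π * ∫ z, Real.sign ⟪u, z⟫_ℝ * Real.sign ⟪v, z⟫_ℝ ∂(stdGaussian E) = 2 * arcsin ⟪u, v⟫_ℝ := by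
  have t1 : |⟪u, v⟫_ℝ| ≤ 1 := by simpa [hu, hv] using abs_real_inner_le_norm u v
  set θ := arccos ⟪u, v⟫_ℝ with hθ
  have inn : ∀ (s : ℝ) (z : ℂ), ⟪Complex.exp (s * Complex.I), z⟫_ℝ = ‖z‖ * cos (s - z.arg) := by
    intro s z
    rw [cos_sub, mul_add, mul_left_comm, Complex.norm_mul_cos_arg, mul_left_comm,
      Complex.norm_mul_sin_arg]
    simp [Complex.inner, Complex.mul_re, Complex.exp_ofReal_mul_I_re, Complex.exp_ofReal_mul_I_im]
    ring
  have e : ∀ φ : ℝ, ∫ z, Real.sign ⟪Complex.exp (φ * Complex.I), z⟫_ℝ *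
      Real.sign ⟪Complex.exp ((φ - θ : ℝ) * Complex.I), z⟫_ℝ ∂(stdGaussian ℂ) =
      ∫ z, Real.sign ⟪u, z⟫_ℝ * Real.sign ⟪v, z⟫_ℝ ∂(stdGaussian E) := fun φ =>
    law _ _ u v (by rw [Complex.norm_exp_ofReal_mul_I, hu]) (by rw [Complex.norm_exp_ofReal_mul_I, hv])
      (by
        rw [← cos_arccos (abs_le.1 t1).1 (abs_le.1 t1).2, ← hθ,
          show cos θ = cos (φ - (φ - θ)) by congr 1; ring, cos_sub]
        simp only [Complex.inner, Complex.mul_re, Complex.exp_ofReal_mul_I_re,
          Complex.exp_ofReal_mul_I_im, Complex.conj_re, Complex.conj_im]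
        ring)
  have sw := intervalIntegral_integral_swap (a := 0) (b := π) (μ := stdGaussian ℂ)
    (f := fun φ z => Real.sign ⟪Complex.exp (φ * Complex.I), z⟫_ℝ *
      Real.sign ⟪Complex.exp ((φ - θ : ℝ) * Complex.I), z⟫_ℝ) (by
      haveI : IsFiniteMeasure ((volume : Measure ℝ).restrict (Set.uIoc 0 π)) :=
        isFiniteMeasure_restrict.2 (by rw [Set.uIoc_of_le pi_pos.le]; simp)
      refine Integrable.mono' (integrable_const 1) (Measurable.aestronglyMeasurable ?_)
        (Eventually.of_forall (fun p => ?_))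
      · exact (sign_meas.comp (Continuous.measurable (by fun_prop))).mul
          (sign_meas.comp (Continuous.measurable (by fun_prop)))
      · simp only [Function.uncurry, Real.norm_eq_abs, abs_mul]
        exact mul_le_one₀ (sign_abs _) (abs_nonneg _) (sign_abs _))
  simp only [e, intervalIntegral.integral_const, sub_zero, smul_eq_mul] at sw
  haveI : NullSingletonClass (stdGaussian ℂ) := IsGaussian.nullSingletonClass (by
    intro x hx
    have := variance_dual_stdGaussian (E := ℂ) (innerSL ℝ (1 : ℂ))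
    rw [hx] at this
    simp at this)
  rw [sw, integral_congr_ae (g := fun _ => π - 2 * θ)]
  · rw [integral_const, hθ, arccos_eq_pi_div_two_sub_arcsin]
    simp
    ring
  · filter_upwards [compl_mem_ae_iff.2 (measure_singleton (0 : ℂ))] with z hz
    have z0 : 0 < ‖z‖ := norm_pos_iff.2 hz
    have s : ∀ y : ℝ, Real.sign (‖z‖ * y) = Real.sign y := fun y => by
      rcases lt_trichotomy y 0 with h | h | h
      · rw [Real.sign_of_neg h, Real.sign_of_neg (mul_neg_of_pos_of_neg z0 h)]
      · simp [h]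
      · rw [Real.sign_of_pos h, Real.sign_of_pos (mul_pos z0 h)]
    simp only [inn, s, sub_right_comm _ θ]
    exact arc θ z.arg (arccos_nonneg _) (arccos_le_pi _)

end Pool.Agent.H27.Gr
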