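import Pool.Agent.H27.Kr1

set_option autoImplicit false

namespace Pool.Agent.H27.Gr

open Finset Matrix MeasureTheory ProbabilityTheory Real Filter Topology
open scoped InnerProductSpace MatrixOrder Nat

/-- `K` works in the real Grothendieck inequality. -/
def GroAdm (K : ℝ) : Prop :=
  ∀ (m n : ℕ) (A : Matrix (Fin m) (Fin n) ℝ) (H : Type) [NormedAddCommGroup H]
    [InnerProductSpace ℝ H] [CompleteSpace H] (u : Fin m → H) (v : Fin n → H),
    (∀ i, ‖u i‖ = 1) → (∀ j, ‖v j‖ = 1) → ∀ M : ℝ,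
    (∀ (p : Fin m → ℝ) (q : Fin n → ℝ), (∀ i, |p i| = 1) → (∀ j, |q j| = 1) →
      |∑ i, ∑ j, A i j * (p i * q j)| ≤ M) → |∑ i, ∑ j, A i j * ⟪u i, v j⟫_ℝ| ≤ K * M

/-- The real Grothendieck constant. -/
noncomputable def KG : ℝ := sInf {K | 0 < K ∧ GroAdm K}

lemma psd_pow {ι : Type} [Fintype ι] (G : Matrix ι ι ℝ) (hG : G.PosSemidef) (k : ℕ) :
    (Matrix.of (fun a b => G a b ^ (k + 1))).PosSemidef := by
  induction k with
  | zero =>
    have e : Matrix.of (fun a b => G a b ^ (0 + 1)) = G := by ext a b; simp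
    rw [e]; exact hG
  | succ k ih =>
    have e : Matrix.of (fun a b => G a b ^ (k + 1 + 1)) =
        (Matrix.of (fun a b => G a b ^ (k + 1))).hadamard G := by
      ext a b
      simp [pow_succ]
    rw [e]
    exact ih.hadamard hG

lemma kvec {ι : Type} [Fintype ι] [DecidableEq ι] (G : Matrix ι ι ℝ) (hG : G.PosSemidef)
    (hd : ∀ a, G a a = 1) (s : ι → ℝ) (hs : ∀ a, s a = 1 ∨ s a = -1) :
    ∃ w : ι → EuclideanSpace ℝ ι, (∀ a, ‖w a‖ = 1) ∧
      ∀ a b, s a = 1 → s b = -1 → ⟪w a, w b⟫_ℝ = sin (arsinh 1 * G a b) := by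
  set c := arsinh 1 with hc
  have c0 : 0 ≤ c := arsinh_nonneg_iff.2 zero_le_one
  have sy : ∀ a b, G a b = G b a := fun a b => by simpa using hG.isHermitian.apply b a
  set P : Matrix ι ι ℝ := fun a b => if s a = s b then sinh (c * G a b) else sin (c * G a b)
    with hP
  have hs2 : ∀ a b, HasSum (fun k => (s a * s b) ^ k * (c * G a b) ^ (2 * k + 1) / ((2 * k + 1)! : ℝ))
      (P a b) := by
    intro a b
    simp only [hP]
    split_ifs with h
    · have : s a * s b = 1 := by rw [h]; rcases hs b with e | e <;> simp [e]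
      simpa only [this, one_pow, one_mul] using Real.hasSum_sinh (c * G a b)
    · have : s a * s b = -1 := by
        rcases hs a with e | e <;> rcases hs b with e' | e' <;> simp_all
      simpa only [this] using Real.hasSum_sin (c * G a b)
  have psd : P.PosSemidef := by
    rw [posSemidef_iff_dotProduct_mulVec]
    refine ⟨IsHermitian.ext (fun a b => by simp only [hP, star_trivial, sy b a, eq_comm]), fun x => ?_⟩
    have h := hasSum_sum (s := univ) (fun a _ => (hasSum_sum (s := univ)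
      (fun b _ => (hs2 a b).mul_right (x b))).mul_left (x a))
    refine h.nonneg (fun k => ?_)
    have := (posSemidef_iff_dotProduct_mulVec.1 (psd_pow G hG (2 * k))).2 (fun a => s a ^ k * x a)
    have p : 0 ≤ c ^ (2 * k + 1) / ((2 * k + 1)! : ℝ) := by positivity
    refine le_of_le_of_eq (mul_nonneg p this) ?_
    simp only [dotProduct, mulVec, star_trivial, of_apply, mul_sum]
    refine sum_congr rfl (fun a _ => sum_congr rfl (fun b _ => ?_))
    rw [mul_pow, mul_pow]
    ring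
  obtain ⟨B, hB⟩ := CStarAlgebra.nonneg_iff_eq_star_mul_self.mp psd.nonneg
  have ip : ∀ a b, ⟪(WithLp.toLp 2 (fun i => B i a) : EuclideanSpace ℝ ι),
      WithLp.toLp 2 (fun i => B i b)⟫_ℝ = P a b := fun a b => by
    rw [hB]
    simp [PiLp.inner_apply, mul_apply, mul_comm]
  refine ⟨fun a => WithLp.toLp 2 (fun i => B i a), fun a => ?_, fun a b ha hb => ?_⟩
  · have := ip a a
    rw [real_inner_self_eq_norm_sq] at this
    simp only [hP, if_true, hd, mul_one, hc, sinh_arsinh] at this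
    exact (pow_eq_one_iff_of_nonneg (norm_nonneg _) two_ne_zero).1 this
  · rw [ip]
    simp only [hP]
    rw [if_neg (by rw [ha, hb]; norm_num)]

lemma c_bd : 3 / 4 < arsinh 1 ∧ arsinh 1 ≤ 1 := by
  constructor
  · rw [← arsinh_sinh (3 / 4), arsinh_lt_arsinh, sinh_eq]
    have a : exp (3 / 4) ≤ 2.2 := by
      refine (pow_le_pow_iff_left₀ (exp_pos _).le (by norm_num) (show 4 ≠ 0 by norm_num)).1 ?_
      rw [← exp_nat_mul, show ((4 : ℕ) : ℝ) * (3 / 4) = (3 : ℕ) * 1 by norm_num, exp_nat_mul]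
      exact le_trans (pow_le_pow_left₀ (exp_pos _).le exp_one_lt_d9.le 3) (by norm_num)
    have b := add_one_le_exp (-(3 / 4 : ℝ))
    linarith
  · conv_rhs => rw [← arsinh_sinh 1]
    exact arsinh_le_arsinh.2 (self_le_sinh_iff.2 zero_le_one)

theorem krivine : GroAdm (π / (2 * arsinh 1)) := by
  intro m n A H _ _ _ u v hu hv M hM
  classical
  obtain ⟨c1, c2⟩ := c_bd
  obtain ⟨w, w1, w2⟩ := kvec (gram ℝ (Sum.elim u v)) (posSemidef_gram ℝ _)
    (by rintro (a | a) <;> simp [gram_apply, hu, hv]) (Sum.elim (fun _ => 1) (fun _ => -1))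
    (by rintro (a | a) <;> simp)
  have sg : ∀ (x : Fin m → ℝ) (y : Fin n → ℝ),
      |∑ i, ∑ j, A i j * (Real.sign (x i) * Real.sign (y j))| ≤ M := by
    intro x y
    set f : ℝ → ℝ := fun t => if 0 ≤ t then 1 else -1 with hf
    set g : ℝ → ℝ := fun t => if 0 < t then 1 else -1 with hg
    have f1 : ∀ t, |f t| = 1 := fun t => by simp only [hf]; split_ifs <;> simp
    have g1 : ∀ t, |g t| = 1 := fun t => by simp only [hg]; split_ifs <;> simp
    have e : ∀ t, Real.sign t = (f t + g t) / 2 := fun t => by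
      rcases lt_trichotomy t 0 with h | h | h
      · simp [hf, hg, Real.sign_of_neg h, h.not_ge, h.le.not_gt]
      · simp [hf, hg, h]
      · simp [hf, hg, Real.sign_of_pos h, h, h.le]
    have a1 := abs_le.1 (hM _ _ (fun i => f1 (x i)) (fun j => f1 (y j)))
    have a2 := abs_le.1 (hM _ _ (fun i => f1 (x i)) (fun j => g1 (y j)))
    have a3 := abs_le.1 (hM _ _ (fun i => g1 (x i)) (fun j => f1 (y j)))
    have a4 := abs_le.1 (hM _ _ (fun i => g1 (x i)) (fun j => g1 (y j)))
    have : ∑ i, ∑ j, A i j * (Real.sign (x i) * Real.sign (y j)) =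
        (∑ i, ∑ j, A i j * (f (x i) * f (y j)) + ∑ i, ∑ j, A i j * (f (x i) * g (y j)) +
        ∑ i, ∑ j, A i j * (g (x i) * f (y j)) + ∑ i, ∑ j, A i j * (g (x i) * g (y j))) / 4 := by
      simp only [← sum_add_distrib, sum_div, e]
      exact sum_congr rfl (fun i _ => sum_congr rfl (fun j _ => by ring))
    rw [this, abs_le]
    constructor <;> linarith [a1.1, a1.2, a2.1, a2.2, a3.1, a3.2, a4.1, a4.2]
  set μ := stdGaussian (EuclideanSpace ℝ (Fin m ⊕ Fin n)) with hμ
  have ii : ∀ i j, Integrable (fun z => A i j *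
      (Real.sign ⟪w (Sum.inl i), z⟫_ℝ * Real.sign ⟪w (Sum.inr j), z⟫_ℝ)) μ := fun i j =>
    (Integrable.mono' (integrable_const 1) (Measurable.aestronglyMeasurable
      ((sign_meas.comp (Continuous.measurable (by fun_prop))).mul
        (sign_meas.comp (Continuous.measurable (by fun_prop)))))
      (Eventually.of_forall (fun p => by
        simp only [Real.norm_eq_abs, Pi.mul_apply, Function.comp_apply, abs_mul]
        exact mul_le_one₀ (sign_abs _) (abs_nonneg _) (sign_abs _)))).const_mul _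
  have id : ∀ i j, ⟪u i, v j⟫_ℝ = π / (2 * arsinh 1) *
      ∫ z, Real.sign ⟪w (Sum.inl i), z⟫_ℝ * Real.sign ⟪w (Sum.inr j), z⟫_ℝ ∂μ := by
    intro i j
    have t1 : |⟪u i, v j⟫_ℝ| ≤ 1 := by simpa [hu, hv] using abs_real_inner_le_norm (u i) (v j)
    have g := groth _ _ (w1 (Sum.inl i)) (w1 (Sum.inr j))
    have t2 := abs_le.1 t1
    rw [w2 _ _ rfl rfl, gram_apply, Sum.elim_inl, Sum.elim_inr,
      arcsin_sin (by nlinarith [pi_gt_three]) (by nlinarith [pi_gt_three])] at g
    rw [div_mul_eq_mul_div, g]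
    field_simp
  have e : ∑ i, ∑ j, A i j * ⟪u i, v j⟫_ℝ = π / (2 * arsinh 1) * ∫ z, ∑ i, ∑ j, A i j *
      (Real.sign ⟪w (Sum.inl i), z⟫_ℝ * Real.sign ⟪w (Sum.inr j), z⟫_ℝ) ∂μ := by
    rw [integral_finsetSum _ (fun i _ => integrable_finsetSum _ (fun j _ => ii i j)), mul_sum]
    refine sum_congr rfl (fun i _ => ?_)
    rw [integral_finsetSum _ (fun j _ => ii i j), mul_sum]
    refine sum_congr rfl (fun j _ => ?_)
    rw [integral_const_mul, id]
    ring
  rw [e, abs_mul, abs_of_pos (by positivity)]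
  refine mul_le_mul_of_nonneg_left ?_ (by positivity)
  have := norm_integral_le_of_norm_le_const (μ := μ) (C := M) (f := fun z => ∑ i, ∑ j, A i j *
    (Real.sign ⟪w (Sum.inl i), z⟫_ℝ * Real.sign ⟪w (Sum.inr j), z⟫_ℝ))
    (Eventually.of_forall (fun z => sg _ _))
  simpa using this

theorem KG_lt : KG < π - 1 := by
  obtain ⟨c1, c2⟩ := c_bd
  refine lt_of_le_of_lt (csInf_le ⟨0, fun K hK => hK.1.le⟩ ⟨by positivity, krivine⟩) ?_
  rw [div_lt_iff₀ (by positivity)]
  nlinarith [pi_gt_three]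

end Pool.Agent.H27.Gr
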