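import Mathlib

/-! Lacunary cosine sums are not bounded on one side on a set of positive measure. -/

open MeasureTheory Complex Finset Filter Topology AddCircle

namespace Pool.Agent.H27.Lac

lemma spec {F : ℕ → ℤ → ℂ} {μ : ℕ → ℤ} {a : ℂ} {β : ℤ} (h0 : ∀ ξ, F 0 ξ = if ξ = 0 then 1 else 0)
    (hs : ∀ k ξ, F (k + 1) ξ = F k ξ + a * (F k (ξ + μ k) + F k (ξ - μ k)))
    (hμ : ∀ k, ∑ i ∈ range k, μ i + β < μ k) (μ0 : ∀ k, 0 < μ k) {N : ℕ → ℤ} {r : ℕ}
    (N0 : ∀ l, β < N l) (β0 : 0 ≤ β) (hN : ∀ k, N (r * k) = μ k)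
    (hG : ∀ k l, l ≠ r * k → ∑ i ∈ range k, μ i + β < |N l - μ k|) (k l : ℕ) (ν : ℤ)
    (hν : |ν| ≤ β) : F k (N l + ν) + F k (-N l + ν) =
      2 * a * (if ν = 0 then 1 else 0) * ∑ i ∈ range k, if l = r * i then 1 else 0 := by
  have h1 : ∀ k ξ, ∑ i ∈ range k, μ i < |ξ| → F k ξ = 0 := fun k => by
    induction k with
    | zero => intro ξ h; rw [h0, if_neg]; rintro rfl; simp at h
    | succ k ih =>
      intro ξ h
      rw [sum_range_succ] at h
      have := μ0 k
      rw [hs, ih ξ (by omega), ih _ (by rw [lt_abs] at *; omega), ih _ (by rw [lt_abs] at *; omega)]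
      simp
  rw [abs_le] at hν
  have h2 : ∀ k, F k ν = if ν = 0 then 1 else 0 := fun k => by
    induction k with
    | zero => exact h0 ν
    | succ k ih =>
      have := hμ k
      rw [hs, ih, h1 k _ (by rw [lt_abs]; omega), h1 k _ (by rw [lt_abs]; omega)]; simp
  induction k with
  | zero =>
    have := N0 l
    rw [h0, h0, if_neg (by omega), if_neg (by omega)]; simp
  | succ k ih =>
    have := hμ k
    have := μ0 k
    have := N0 l
    rw [hs, hs, sum_range_succ, mul_add (2 * a * _), ← ih, h1 k (N l + ν + μ k)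
      (by rw [lt_abs]; omega), h1 k (-N l + ν - μ k) (by rw [lt_abs]; omega)]
    by_cases h : l = r * k
    · rw [if_pos h, h, hN, show μ k + ν - μ k = ν by ring, show -μ k + ν + μ k = ν by ring, h2]
      ring
    · have := hG k l h
      rw [if_neg h, h1 k (N l + ν - μ k) (by rw [lt_abs] at *; omega), h1 k (-N l + ν + μ k)
        (by rw [lt_abs] at *; omega)]
      ring

variable {T : ℝ} [hT : Fact (0 < T)]

lemma approx {Y : Set (AddCircle T)} (hY : MeasurableSet Y) {η : ℝ} (η0 : 0 < η) :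
    ∃ β : ℕ, ∀ U : C(AddCircle T, ℂ), (∀ ν : ℤ, |ν| ≤ β →
      ∫ y, U y * fourier ν y ∂haarAddCircle = 0) → ‖∫ y in Y, U y ∂haarAddCircle‖ ≤
        η * ‖ContinuousMap.toLp (E := ℂ) 2 haarAddCircle ℂ U‖ := by
  set f := indicatorConstLp 2 hY (measure_ne_top haarAddCircle Y) (1 : ℂ)
  obtain ⟨s, hs⟩ := (Metric.tendsto_nhds.1 (hasSum_fourier_series_L2 f) η η0).exists
  refine ⟨s.sup Int.natAbs, fun U hU => ?_⟩
  set u := ContinuousMap.toLp (E := ℂ) 2 haarAddCircle ℂ U
  have e : u =ᵐ[haarAddCircle] U := ContinuousMap.coeFn_toLp _ U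
  have z : inner ℂ (∑ i ∈ s, fourierCoeff f i • fourierLp 2 i) u = 0 := by
    rw [sum_inner]
    refine sum_eq_zero fun i hi => ?_
    rw [inner_smul_left, fourierLp, ContinuousMap.inner_toLp, ← mul_zero ((starRingEnd ℂ)
      (fourierCoeff f i)),
      ← hU (-i) (by rw [abs_neg, Int.abs_eq_natAbs]; exact_mod_cast le_sup (f := Int.natAbs) hi)]
    simp only [fourier_neg]
  rw [← integral_congr_ae (ae_restrict_of_ae e), ← L2.inner_indicatorConstLp_one hY
    (measure_ne_top haarAddCircle Y), ← sub_zero (inner ℂ _ u), ← z, ← inner_sub_left]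
  refine (norm_inner_le_norm _ _).trans (mul_le_mul_of_nonneg_right ?_ (norm_nonneg _))
  rw [← dist_eq_norm, dist_comm]; exact hs.le

/-- The cosine of frequency `n` on the circle. -/
noncomputable def cs (n : ℤ) : C(AddCircle T, ℂ) := (2⁻¹ : ℂ) • (fourier n + fourier (-n))

omit hT in
lemma cs_re (n : ℤ) (y : AddCircle T) : cs n y = (fourier n y).re := by
  simp only [cs, ContinuousMap.smul_apply, ContinuousMap.add_apply, fourier_neg, add_conj,
    smul_eq_mul]
  push_cast; ring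

lemma re_le (n : ℤ) (y : AddCircle T) : |(fourier n y).re| ≤ 1 :=
  (abs_re_le_norm _).trans (by rw [fourier_apply, Circle.norm_coe])

lemma l2 {N : ℕ → ℤ} (hN : Function.Injective N) (J : ℕ) :
    ‖ContinuousMap.toLp (E := ℂ) 2 (haarAddCircle (T := T)) ℂ (∑ l ∈ range J, cs (N l))‖ ≤ √J := by
  have h : ∀ N : ℕ → ℤ, Function.Injective N →
      ‖∑ l ∈ range J, (fourierLp 2 (N l) : Lp ℂ 2 (haarAddCircle (T := T)))‖ = √J := fun N hN => by
    have := ((orthonormal_fourier (T := T)).comp N hN).inner_sum (fun _ => 1) (fun _ => 1) (range J)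
    simp only [one_smul, Function.comp, inner_self_eq_norm_sq_to_K, map_one, mul_one, sum_const,
      card_range, nsmul_eq_mul] at this
    rw [← Real.sqrt_sq (norm_nonneg _)]
    congr 1
    exact ofReal_injective (by simpa using this)
  simp only [cs, ← smul_sum, sum_add_distrib, map_smul, map_add, map_sum, norm_smul]
  have := norm_add_le (∑ l ∈ range J, (fourierLp 2 (N l) : Lp ℂ 2 (haarAddCircle (T := T))))
    (∑ l ∈ range J, fourierLp 2 (-N l))
  rw [h N hN, h (fun l => -N l) (neg_injective.comp hN)] at this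
  simp only [fourierLp] at this
  simp only [norm_inv, Complex.norm_ofNat]
  linarith

lemma ic (U : C(AddCircle T, ℂ)) : Integrable U haarAddCircle :=
  U.continuous.integrable_of_hasCompactSupport (HasCompactSupport.of_compactSpace _)

lemma riesz {μ N : ℕ → ℤ} {β : ℤ} {r : ℕ} (a : ℂ) (r0 : 0 < r)
    (hμ : ∀ k, ∑ i ∈ range k, μ i + β < μ k) (μ0 : ∀ k, 0 < μ k)
    (N0 : ∀ l, β < N l) (β0 : 0 ≤ β) (hN : ∀ k, N (r * k) = μ k)
    (hG : ∀ k l, l ≠ r * k → ∑ i ∈ range k, μ i + β < |N l - μ k|) {k K : ℕ} (hk : k ≤ K) (ν : ℤ)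
    (hν : |ν| ≤ β) : ∫ y, ((∑ l ∈ range (r * K), cs (N l)) * ∏ i ∈ range k, (1 + a • cs (μ i)) -
      ContinuousMap.const _ (a / 2 * k) : C(AddCircle T, ℂ)) y * fourier ν y ∂haarAddCircle = 0 := by
  set F : ℕ → ℤ → ℂ := fun k ξ => ∫ y, ((∏ i ∈ range k, (1 + a • cs (μ i))) * fourier ξ :
    C(AddCircle T, ℂ)) y ∂haarAddCircle with hF
  have h0 : ∀ ξ, F 0 ξ = if ξ = 0 then 1 else 0 := fun ξ => by
    have := congrFun (fourierCoeff_fourier (T := T) ξ) 0
    simpa [hF, fourierCoeff, Pi.single_apply, eq_comm] using this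
  have m : ∀ a b : ℤ, (fourier (a + b) : C(AddCircle T, ℂ)) = fourier a * fourier b :=
    fun a b => ContinuousMap.ext fun _ => fourier_add
  have L : ∃ L : C(AddCircle T, ℂ) →ₗ[ℂ] ℂ, ∀ U, ∫ y, U y ∂haarAddCircle = L U :=
    ⟨⟨⟨fun U => ∫ y, U y ∂haarAddCircle, fun U V => integral_add (ic U) (ic V)⟩,
      fun c U => integral_smul c U⟩, fun _ => rfl⟩
  obtain ⟨L, hL⟩ := L
  have := fun l => spec (a := a / 2) h0 (fun k ξ => by
    simp only [hF, hL, prod_range_succ, cs, sub_eq_add_neg, m, ← smul_eq_mul (a / 2), ← map_smul,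
      ← map_add]
    congr 1
    ext y
    simp only [ContinuousMap.mul_apply, ContinuousMap.add_apply, ContinuousMap.smul_apply,
      smul_eq_mul, ContinuousMap.one_apply]
    ring) hμ μ0 N0 β0 hN hG k l ν hν
  have e := sum_congr (rfl : range (r * K) = _) fun l _ => this l
  rw [← mul_sum, sum_comm, sum_congr rfl fun i hi => (sum_ite_eq' _ _ _).trans (if_pos
    (mem_range.2 (Nat.mul_lt_mul_of_pos_left ((mem_range.1 hi).trans_le hk) r0))), ← h0] at e
  simp only [hF, hL, m, ← map_add, ← map_sum, prod_range_zero, one_mul, sum_const, card_range,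
    nsmul_eq_mul, mul_one] at e
  simp only [← ContinuousMap.mul_apply, hL]
  rw [← mul_right_inj' (two_ne_zero' ℂ), mul_zero, ← sub_eq_zero.2 e, mul_right_comm,
    ← smul_eq_mul _ (L _), ← smul_eq_mul _ (L _), ← map_smul, ← map_smul, ← map_sub]
  congr 1
  ext y
  simp only [cs, ContinuousMap.mul_apply, ContinuousMap.add_apply, ContinuousMap.smul_apply,
    smul_eq_mul, ContinuousMap.sub_apply, ContinuousMap.sum_apply, ContinuousMap.const_apply,
    sub_mul, mul_sub, sum_mul, mul_sum]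
  congr 1
  · exact sum_congr rfl fun _ _ => by ring
  · ring

end Pool.Agent.H27.Lac
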