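import Pool.Agent.H27.Lac1

/-! One-sided unboundedness of lacunary cosine sums. -/

open MeasureTheory Complex Finset Filter Topology AddCircle

namespace Pool.Agent.H27.Lac

variable {n : ℕ → ℕ} {q : ℝ}

lemma gpow (q1 : 1 < q) (h : ∀ k, q * n k ≤ n (k + 1)) (l r : ℕ) : q ^ r * n l ≤ n (l + r) := by
  induction r with
  | zero => simp
  | succ r ih =>
    rw [pow_succ', mul_assoc]
    exact (mul_le_mul_of_nonneg_left ih (by linarith)).trans (h _)

lemma gle (q1 : 1 < q) (h : ∀ k, q * n k ≤ n (k + 1)) {a b : ℕ} (ab : a < b) : q * n a ≤ n b := by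
  obtain ⟨r, rfl⟩ := Nat.exists_eq_add_of_lt ab
  refine le_trans ?_ (gpow q1 h a (r + 1))
  gcongr
  exact le_self_pow₀ q1.le r.succ_ne_zero

lemma ntend (q1 : 1 < q) (n0 : ∀ k, 0 < n k) (h : ∀ k, q * n k ≤ n (k + 1)) :
    Tendsto (fun k => (n k : ℝ)) atTop atTop :=
  tendsto_atTop_mono (fun k => by
    have := gpow q1 h 0 k
    rw [zero_add] at this
    exact (le_mul_of_one_le_right (by positivity) (by exact_mod_cast n0 0)).trans this)
    (tendsto_pow_atTop_atTop_of_one_lt q1)

variable {T : ℝ} [hT : Fact (0 < T)]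

theorem oneside (q1 : 1 < q) (n0 : ∀ k, 0 < n k) (h : ∀ k, q * n k ≤ n (k + 1)) {s : ℝ}
    (hs : |s| = 1) (B : ℝ) (m : ℕ) : haarAddCircle {y : AddCircle T | ∀ i, m ≤ i →
      B < s * ∑ k ∈ range i, (fourier (n k) y).re} = 0 := by
  set Y := {y : AddCircle T | ∀ i, m ≤ i → B < s * ∑ k ∈ range i, (fourier (n k) y).re} with hY
  have mY : MeasurableSet Y := by
    simp only [hY, Set.setOf_forall]
    exact .iInter fun i => .iInter fun _ => (isOpen_lt continuous_const (by fun_prop)).measurableSet
  by_contra y0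
  replace y0 : 0 < haarAddCircle.real Y := ENNReal.toReal_pos y0 (measure_ne_top _ _)
  have y1 : haarAddCircle.real Y ≤ 1 := measureReal_le_one
  set y := haarAddCircle.real Y
  have qi : q⁻¹ < 1 := inv_lt_one_of_one_lt₀ q1
  have q0 : 0 < q := by linarith
  obtain ⟨r, hr, r0⟩ := (((tendsto_pow_atTop_atTop_of_one_lt q1).eventually_ge_atTop
    (2 / (1 - q⁻¹))).and (eventually_gt_atTop 0)).exists
  rw [div_le_iff₀ (by linarith)] at hr
  obtain ⟨β, hβ⟩ := approx mY (η := y / (4 * (4 * √r + 1))) (by positivity)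
  obtain ⟨j, hj, mj⟩ := (((ntend q1 n0 h).eventually_gt_atTop (β / (1 - q⁻¹))).and
    (eventually_ge_atTop m)).exists
  rw [div_lt_iff₀ (by linarith)] at hj
  have mono : StrictMono n := strictMono_nat_of_lt_succ fun k => by
    have : (0 : ℝ) < n k := by exact_mod_cast n0 k
    exact_mod_cast (show (n k : ℝ) < n (k + 1) by nlinarith [h k])
  have g : ∀ k, (∑ i ∈ range k, (n (j + r * i) : ℝ)) + β < n (j + r * k) * (1 - q⁻¹) := fun k => by
    induction k with
    | zero => simpa using hj
    | succ k ih =>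
      have := gpow q1 h (j + r * k) r
      have p : (0 : ℝ) ≤ n (j + r * k) := by positivity
      rw [sum_range_succ, mul_add_one, ← add_assoc]
      nlinarith [mul_le_mul_of_nonneg_right this (sub_nonneg.2 qi.le), mul_nonneg p (inv_pos.2 q0).le,
        mul_le_mul_of_nonneg_right hr p]
  obtain ⟨K, hK⟩ := exists_nat_gt ((16 * (j + |B|) / y) ^ 2)
  have K0 : (0 : ℝ) < K := (sq_nonneg _).trans_lt hK
  have sK := Real.sqrt_pos.2 K0
  replace hK := (div_lt_iff₀ y0).1 (Real.lt_sqrt_of_sq_lt hK)
  have R := fun k hk => hβ _ (riesz (T := T) (μ := fun i => n (j + r * i)) (N := fun l => n (j + l))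
    (β := β) (I / √K) r0 (fun k => by
      have p : (0 : ℝ) ≤ n (j + r * k) := by positivity
      exact_mod_cast (g k).trans_le (mul_le_of_le_one_right p (by linarith [inv_pos.2 q0])))
    (fun k => by exact_mod_cast n0 _) (fun l => by
      have p : (0 : ℝ) ≤ n j := by positivity
      have : (n j : ℝ) ≤ n (j + l) := by exact_mod_cast mono.monotone (by omega)
      exact_mod_cast (show (β : ℝ) < n (j + l) by nlinarith [inv_pos.2 q0]))
    (by positivity) (fun _ => rfl) (fun k l hl => by
      have p : (0 : ℝ) ≤ n (j + r * k) := by positivity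
      have : (n (j + r * k) : ℝ) * (1 - q⁻¹) ≤ |(n (j + l) : ℝ) - n (j + r * k)| := by
        rcases lt_or_gt_of_ne hl with a | a
        · have := gle q1 h (Nat.add_lt_add_left a j)
          rw [← le_inv_mul_iff₀ q0] at this
          exact le_abs.2 (Or.inr (by linarith))
        · have := gle q1 h (Nat.add_lt_add_left a j)
          have e : 2 ≤ q + q⁻¹ := by
            rw [← mul_le_mul_iff_right₀ q0, mul_add, mul_inv_cancel₀ q0.ne']
            nlinarith [sq_nonneg (q - 1)]
          exact le_abs.2 (Or.inl (by nlinarith))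
      exact_mod_cast (g k).trans_le this) (k := k) (K := K) hk)
  have l := l2 (T := T) (N := fun l => n (j + l)) (fun a b e => by
    simpa using mono.injective (Nat.cast_injective (R := ℤ) e)) (r * K)
  have R0 := R 0 K.zero_le
  have R1 := R K le_rfl
  set U : C(AddCircle T, ℂ) := ∑ l ∈ range (r * K), cs (n (j + l)) with hU
  set P : C(AddCircle T, ℂ) := ∏ i ∈ range K, (1 + (I / √K) • cs (n (j + r * i))) with hP
  have pb : ∀ z, ‖P z‖ ≤ 2 := fun z => by
    rw [hP, ContinuousMap.prod_apply, norm_prod]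
    refine (prod_le_prod (g := fun _ => Real.exp (1 / (2 * K))) (fun _ _ => norm_nonneg _)
      fun i _ => ?_).trans ?_
    · have a := re_le (n (j + r * i)) z
      rw [ContinuousMap.add_apply, ContinuousMap.smul_apply, cs_re, ContinuousMap.one_apply,
        smul_eq_mul, show 1 + I / √K * (fourier (n (j + r * i)) z).re = (1 : ℝ) +
          ((fourier (n (j + r * i)) z).re / √K : ℝ) * I by push_cast; ring, norm_add_mul_I]
      refine Real.sqrt_le_iff.2 ⟨(Real.exp_pos _).le, ?_⟩
      rw [← Real.exp_nat_mul, div_pow, Real.sq_sqrt K0.le, one_pow, add_comm]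
      refine le_trans ?_ (Real.add_one_le_exp _)
      rw [show ((2 : ℕ) : ℝ) * (1 / (2 * K)) = 1 / K by push_cast; field_simp]
      gcongr
      exact (sq_le_one_iff_abs_le_one _).2 a
    · rw [prod_const, card_range, ← Real.exp_nat_mul, show K * (1 / (2 * K)) = (1 / 2 : ℝ) by
        field_simp]
      refine (pow_le_pow_iff_left₀ (Real.exp_pos _).le zero_le_two two_ne_zero).1 ?_
      rw [← Real.exp_nat_mul]
      norm_num
      linarith [Real.exp_one_lt_d9]
  have cn : ‖(I / √K / 2 * K : ℂ)‖ = √K / 2 := by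
    simp only [norm_mul, norm_div, norm_I, norm_real, Complex.norm_ofNat, Complex.norm_natCast,
      Real.norm_of_nonneg sK.le]
    field_simp
    exact (Real.sq_sqrt K0.le).symm
  generalize (I / √K / 2 * K : ℂ) = c at *
  simp only [prod_range_zero, mul_one, Nat.cast_zero, mul_zero, ContinuousMap.const_zero,
    sub_zero] at R0
  have a1 : ‖ContinuousMap.toLp (E := ℂ) 2 haarAddCircle ℂ (U * P - ContinuousMap.const _ c)‖ ≤
      2 * ‖ContinuousMap.toLp (E := ℂ) 2 haarAddCircle ℂ U‖ + ‖c‖ := by
    rw [map_sub]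
    refine (norm_sub_le _ _).trans (add_le_add (Lp.norm_le_mul_norm_of_ae_le_mul ?_) ?_)
    · filter_upwards [ContinuousMap.coeFn_toLp (p := 2) (𝕜 := ℂ) haarAddCircle (U * P),
        ContinuousMap.coeFn_toLp (p := 2) (𝕜 := ℂ) haarAddCircle U] with z e1 e2
      rw [e1, e2, ContinuousMap.mul_apply, norm_mul, mul_comm]
      exact mul_le_mul_of_nonneg_right (pb z) (norm_nonneg _)
    · simpa [measureUnivNNReal] using Lp.norm_le_of_ae_bound (norm_nonneg c) (f := ContinuousMap.toLp (E := ℂ) 2
        (haarAddCircle (T := T)) ℂ (ContinuousMap.const _ c)) (by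
          filter_upwards [ContinuousMap.coeFn_toLp (p := 2) (𝕜 := ℂ) haarAddCircle
            (ContinuousMap.const (AddCircle T) c)] with z e using by rw [e]; exact le_rfl)
  have a2 : ‖∫ z in Y, (U * P) z ∂haarAddCircle‖ ≤
      ∫ z in Y, (2 * s * (U z).re + 4 * (j + |B|)) ∂haarAddCircle := by
    refine norm_integral_le_of_norm_le (((ic U).re.const_mul _).integrableOn.add
      (integrable_const _)) ((ae_restrict_iff' mY).2 (ae_of_all _ fun z hz => ?_))
    have e : U z = (∑ l ∈ range (r * K), (fourier (n (j + l)) z).re : ℝ) := by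
      simp [hU, cs_re]
    have b := hz (j + r * K) (by omega)
    have d : |s * ∑ k ∈ range j, (fourier (n k) z).re| ≤ j := by
      rw [abs_mul, hs, one_mul]
      exact (abs_sum_le_sum_abs _ _).trans (by simpa using sum_le_sum (s := range j) fun i _ => re_le (n i) z)
    rw [sum_range_add, mul_add] at b
    rw [ContinuousMap.mul_apply, norm_mul, e, norm_real, ofReal_re, Real.norm_eq_abs,
      ← one_mul |_|, ← hs, ← abs_mul, mul_assoc 2]
    generalize s * ∑ l ∈ range (r * K), (fourier (n (j + l)) z).re = t at *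
    have d2 := (abs_le.1 d).2
    have j0 := j.cast_nonneg (α := ℝ)
    have : |t| ≤ t + 2 * (j + |B|) := abs_le.2 ⟨by linarith [neg_abs_le B, abs_nonneg B],
      by linarith [abs_nonneg B]⟩
    nlinarith [pb z, abs_nonneg t]
  simp only [← RCLike.re_to_complex] at a2
  rw [integral_add ((ic U).re.const_mul _).integrableOn (integrable_const _), integral_const_mul,
    integral_re (ic U).integrableOn, setIntegral_const, smul_eq_mul] at a2
  have a3 : s * RCLike.re (∫ z in Y, U z ∂haarAddCircle) ≤ ‖∫ z in Y, U z ∂haarAddCircle‖ :=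
    (le_abs_self _).trans (by rw [abs_mul, hs, one_mul]; exact abs_re_le_norm _)
  simp only [ContinuousMap.sub_apply, ContinuousMap.const_apply] at R1
  rw [integral_sub (ic _).integrableOn (integrable_const _), setIntegral_const] at R1
  have a4 := norm_sub_norm_le (y • c) (∫ z in Y, (U * P) z ∂haarAddCircle)
  rw [norm_sub_rev, norm_smul, Real.norm_of_nonneg y0.le, cn] at a4
  rw [Nat.cast_mul, Real.sqrt_mul (by positivity)] at l
  have a5 : y / (4 * (4 * √r + 1)) * (4 * (√r * √K) + √K) = y * √K / 4 := by field_simp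
  have η0 : 0 ≤ y / (4 * (4 * √r + 1)) := by positivity
  generalize y / (4 * (4 * √r + 1)) = η at *
  have := mul_le_mul_of_nonneg_left a1 η0
  have := mul_le_mul_of_nonneg_left l η0
  have : y * (4 * (j + |B|)) ≤ 4 * (j + |B|) := mul_le_of_le_one_left (by positivity) y1
  rw [cn] at *
  nlinarith [mul_nonneg η0 sK.le]

end Pool.Agent.H27.Lac
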