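import Pool.Agent.H27.Lac2

/-! Lacunary cosine sums are almost everywhere dense. -/

open MeasureTheory Finset Filter Topology Real Metric

namespace Pool.Agent.H27.Lac

variable {n : ℕ → ℕ} {q : ℝ}

lemma lip (q1 : 1 < q) (h : ∀ k, q * n k ≤ n (k + 1)) {i j : ℕ} (ji : j ≤ i + 1) (x y : ℝ) :
    |∑ k ∈ range j, cos (n k * x) - ∑ k ∈ range j, cos (n k * y)| * (1 - q⁻¹) ≤ n i * |x - y| := by
  have q0 : 0 < q := by linarith
  have qi : q⁻¹ < 1 := inv_lt_one_of_one_lt₀ q1
  have a : ∀ i, (∑ k ∈ range (i + 1), (n k : ℝ)) * (1 - q⁻¹) ≤ n i := fun i => by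
    induction i with
    | zero => simpa using mul_le_of_le_one_right (by positivity) (by linarith [inv_pos.2 q0])
    | succ i ih =>
      have := h i
      rw [← le_inv_mul_iff₀ q0] at this
      rw [sum_range_succ]
      linarith
  have b : |∑ k ∈ range j, cos (n k * x) - ∑ k ∈ range j, cos (n k * y)| ≤
      (∑ k ∈ range (i + 1), (n k : ℝ)) * |x - y| := by
    rw [← sum_sub_distrib, sum_mul]
    refine (abs_sum_le_sum_abs _ _).trans ((sum_le_sum fun k _ => (abs_cos_sub_cos_le _ _).trans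
      ?_).trans (sum_le_sum_of_subset_of_nonneg (range_subset_range.2 ji) fun _ _ _ => by
        positivity))
    rw [← mul_sub, abs_mul, Nat.abs_cast]
  nlinarith [mul_le_mul_of_nonneg_right (a i) (abs_nonneg (x - y))]

lemma dens (q1 : 1 < q) (n0 : ∀ k, 0 < n k) (h : ∀ k, q * n k ≤ n (k + 1)) (ξ : ℝ) {ε : ℝ}
    (ε0 : 0 < ε) (m : ℕ) : ∀ᵐ x, (∀ i, m ≤ i → ε ≤ |∑ k ∈ range i, cos (n k * x) - ξ|) →
      ∃ s : ℝ, |s| = 1 ∧ ∃ m', ∀ i, m' ≤ i → s * ξ < s * ∑ k ∈ range i, cos (n k * x) := by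
  set S : ℕ → ℝ → ℝ := fun i x => ∑ k ∈ range i, cos (n k * x) - ξ with hS
  set Z := {x | ∀ i, m ≤ i → ε ≤ |S i x|} with hZ
  have cS : ∀ i, Continuous (S i) := fun i => by simp only [hS]; fun_prop
  have mZ : MeasurableSet Z := by
    simp only [hZ, Set.setOf_forall]
    exact .iInter fun i => .iInter fun _ => (isClosed_le continuous_const (cS i).abs).measurableSet
  have qi : 0 < 1 - q⁻¹ := sub_pos.2 (inv_lt_one_of_one_lt₀ q1)
  set c := ε * (1 - q⁻¹) / 2 with hc
  have c0 : 0 < c := by positivity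
  have N0 : ∀ k, (0 : ℝ) < n k := fun k => by exact_mod_cast n0 k
  filter_upwards [(ae_restrict_iff' mZ).1
    (IsUnifLocDoublingMeasure.ae_tendsto_measure_inter_div.{_, 0} volume Z (π / c))] with x hx xZ
  have ev : ∀ᶠ i in atTop, ∀ y ∈ closedBall x (π / n i), S (i + 1) y * S i y ≠ 0 := by
    by_contra hn
    simp only [not_eventually, not_forall, exists_prop, not_not] at hn
    obtain ⟨φ, hφ, hy⟩ := extraction_of_frequently_atTop hn
    choose y y1 y2 using hy
    have t := hx xZ y (fun j => c / n (φ j)) (l := atTop) (tendsto_nhdsWithin_iff.2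
      ⟨((ntend q1 n0 h).comp hφ.tendsto_atTop).const_div_atTop c, .of_forall fun j =>
        div_pos c0 (N0 _)⟩) (.of_forall fun j => by
          rw [mem_closedBall_comm, show π / c * (c / n (φ j)) = π / n (φ j) by field_simp]
          exact y1 j)
    refine zero_ne_one (tendsto_nhds_unique (tendsto_const_nhds.congr' ?_) t)
    filter_upwards [hφ.tendsto_atTop.eventually_ge_atTop m] with j hj
    suffices e : Z ∩ closedBall (y j) (c / n (φ j)) = ∅ by rw [e, measure_empty, ENNReal.zero_div]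
    refine Set.eq_empty_of_forall_notMem fun z ⟨z1, z2⟩ => ?_
    rw [mem_closedBall, Real.dist_eq, le_div_iff₀' (N0 _)] at z2
    obtain ⟨l, l1, l2, l3⟩ : ∃ l, m ≤ l ∧ l ≤ φ j + 1 ∧ S l (y j) = 0 := by
      rcases mul_eq_zero.1 (y2 j) with e | e
      exacts [⟨_, by omega, le_rfl, e⟩, ⟨_, hj, by omega, e⟩]
    have a := lip q1 h l2 z (y j)
    have b := z1 l l1
    rw [sub_eq_zero.1 l3] at a
    nlinarith
  obtain ⟨m', hm⟩ := eventually_atTop.1 ev
  have sg : ∀ i, m' ≤ i → 0 < S (i + 1) x * S i x := fun i hi => by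
    set k := ⌊n i * x / π⌋
    have k1 : (k : ℝ) ≤ _ := Int.floor_le _
    have k2 : _ < (k : ℝ) + 1 := Int.lt_floor_add_one _
    rw [le_div_iff₀ pi_pos] at k1
    rw [div_lt_iff₀ pi_pos] at k2
    set y := (2 * k + 1) * π / 2 / n i with hy
    have e : n i * y = (2 * k + 1) * π / 2 := mul_div_cancel₀ _ (N0 i).ne'
    have ym : y ∈ closedBall x (π / n i) := by
      rw [mem_closedBall, Real.dist_eq, le_div_iff₀' (N0 _), ← Nat.abs_cast, ← abs_mul, mul_sub, e]
      exact abs_le.2 ⟨by linarith [pi_pos], by linarith [pi_pos]⟩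
    have p : 0 < S (i + 1) y * S i y := by
      have : S (i + 1) y = S i y := by
        simp only [hS, sum_range_succ]
        rw [cos_eq_zero_iff.2 ⟨k, e⟩, add_zero]
      refine lt_of_le_of_ne ?_ (hm i hi y ym).symm
      rw [this]
      exact mul_self_nonneg _
    by_contra! hn
    obtain ⟨z, z1, z2⟩ := (convex_closedBall x (π / n i)).isPreconnected.intermediate_value
      (mem_closedBall_self (div_pos pi_pos (N0 i)).le) ym
      ((cS (i + 1)).mul (cS i)).continuousOn ⟨hn, p.le⟩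
    exact hm i hi z z1 z2
  have s0 : S m' x ≠ 0 := right_ne_zero_of_mul (sg m' le_rfl).ne'
  refine ⟨SignType.sign (S m' x), ?_, m', fun i hi => ?_⟩
  · rcases lt_or_gt_of_ne s0 with a | a <;> simp [a]
  rw [← sub_pos, ← mul_sub]
  change 0 < _ * S i x
  induction i, hi using Nat.le_induction with
  | base => rw [sign_mul_self]; exact abs_pos.2 s0
  | succ i hi ih =>
    by_contra! hn
    nlinarith [mul_pos ih (sg i hi), mul_nonneg (neg_nonneg.2 hn) (mul_self_nonneg (S i x))]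

theorem main (q1 : 1 < q) (n0 : ∀ k, 0 < n k) (h : ∀ k, q * n k ≤ n (k + 1)) :
    ∀ᵐ x ∂volume.restrict (Set.Ioc 0 (0 + 2 * π)), ∀ ξ ε : ℝ, 0 < ε →
      ∃ᶠ m in atTop, |∑ k ∈ range m, cos (n k * x) - ξ| < ε := by
  haveI : Fact (0 < 2 * π) := ⟨two_pi_pos⟩
  have o : ∀ s : ℝ, |s| = 1 → ∀ (B : ℝ) (m : ℕ), ∀ᵐ x ∂volume.restrict (Set.Ioc 0 (0 + 2 * π)),
      ¬∀ i, m ≤ i → B < s * ∑ k ∈ range i, cos (n k * x) := fun s hs B m => by
    have a : ∀ᵐ y : AddCircle (2 * π), ¬∀ i, m ≤ i →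
        B < s * ∑ k ∈ range i, (fourier (n k) y).re := by
      rw [AddCircle.volume_eq_smul_haarAddCircle]
      exact Measure.ae_smul_measure (measure_eq_zero_iff_ae_notMem.1 (oneside q1 n0 h hs B m)) _
    filter_upwards [(AddCircle.measurePreserving_mk (2 * π) 0).quasiMeasurePreserving.ae a]
      with x hx
    convert hx using 7 with i _ k
    rw [fourier_coe_apply, ← Complex.exp_ofReal_mul_I_re]
    congr 2
    push_cast
    field_simp
  filter_upwards [ae_all_iff.2 fun ξ : ℚ => ae_all_iff.2 fun m => (o 1 abs_one (1 * ξ) m).and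
    (o (-1) (by simp) (-1 * ξ) m), ae_restrict_of_ae (ae_all_iff.2 fun ξ : ℚ => ae_all_iff.2
      fun e : ℕ => ae_all_iff.2 (dens q1 n0 h ξ e.one_div_pos_of_nat))] with x h1 h2 ξ ε ε0
  by_contra hn
  obtain ⟨m, hm⟩ := eventually_atTop.1 (not_frequently.1 hn)
  obtain ⟨e, he⟩ := exists_nat_one_div_lt (half_pos ε0)
  obtain ⟨r, hr⟩ := exists_rat_near ξ (half_pos ε0)
  obtain ⟨s, hs, m', hm'⟩ := h2 r e m fun i hi => by
    linarith [not_lt.1 (hm i hi), abs_sub_le (∑ k ∈ range i, cos (n k * x)) r ξ,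
      abs_sub_comm ξ r]
  rcases eq_or_eq_neg_of_abs_eq hs with rfl | rfl
  exacts [(h1 r m').1 hm', (h1 r m').2 hm']

end Pool.Agent.H27.Lac
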