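import Mathlib

set_option autoImplicit false
open Filter Topology

namespace Pool.Agent.H27.Lemb

/-- an operator splitting the norm additively has powers converging to an L-projection -/
theorem exists_Lproj {𝕜 : Type} [RCLike 𝕜] {V : Type} [NormedAddCommGroup V] [NormedSpace 𝕜 V]
    [CompleteSpace V] (U : V →L[𝕜] V) (hU : ∀ v, ‖U v‖ + ‖v - U v‖ ≤ ‖v‖) :
    ∃ E : V →L[𝕜] V, E.comp E = E ∧ (∀ v, U v = v ↔ E v = v) ∧
      ∀ v, ‖v‖ = ‖E v‖ + ‖v - E v‖ := by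
  have hsum : ∀ (v : V) (n : ℕ), ‖(U ^ n) v‖ +
      ∑ k ∈ Finset.range n, dist ((U ^ k) v) ((U ^ (k + 1)) v) ≤ ‖v‖ := by
    intro v n
    induction n with
    | zero => simp
    | succ n ih =>
      rw [Finset.sum_range_succ, dist_eq_norm]
      have h1 := hU ((U ^ n) v)
      have h2 : (U ^ (n + 1)) v = U ((U ^ n) v) := by rw [pow_succ']; rfl
      rw [h2]; linarith
  have hc : ∀ v : V, CauchySeq fun n : ℕ => (U ^ n) v := by
    intro v
    apply cauchySeq_of_summable_dist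
    apply summable_of_sum_range_le (c := ‖v‖) (fun _ => dist_nonneg)
    intro n
    have := hsum v n
    have h0 := norm_nonneg ((U ^ n) v)
    linarith
  choose e he using fun v => cauchySeq_tendsto_of_complete (hc v)
  have hle : ∀ v, ‖e v‖ + ‖v - e v‖ ≤ ‖v‖ := by
    intro v
    have ht : Tendsto (fun n : ℕ => ‖(U ^ n) v‖ + ‖v - (U ^ n) v‖) atTop
        (𝓝 (‖e v‖ + ‖v - e v‖)) :=
      (he v).norm.add (tendsto_const_nhds.sub (he v)).norm
    refine le_of_tendsto' ht fun n => ?_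
    have h1 := hsum v n
    have h2 := dist_le_range_sum_dist (fun k : ℕ => (U ^ k) v) n
    simp only [pow_zero, ContinuousLinearMap.one_apply] at h2
    rw [dist_eq_norm] at h2
    linarith
  let El : V →ₗ[𝕜] V :=
    { toFun := e
      map_add' := fun v w => by
        refine tendsto_nhds_unique (he (v + w)) ?_
        simpa only [map_add] using (he v).add (he w)
      map_smul' := fun c v => by
        refine tendsto_nhds_unique (he (c • v)) ?_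
        simpa only [map_smul, RingHom.id_apply] using (he v).const_smul c }
  let E : V →L[𝕜] V := El.mkContinuous 1 fun v => by
    have h1 := hle v
    have h0 := norm_nonneg (v - e v)
    show ‖e v‖ ≤ 1 * ‖v‖
    linarith
  have hE : ∀ v, E v = e v := fun v => rfl
  have hfix : ∀ v, U v = v → e v = v := by
    intro v hv
    have : ∀ n : ℕ, (U ^ n) v = v := by
      intro n
      induction n with
      | zero => simp
      | succ n ih => rw [pow_succ']; show U ((U ^ n) v) = v; rw [ih, hv]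
    refine tendsto_nhds_unique (he v) ?_
    simp only [this]; exact tendsto_const_nhds
  have hUe : ∀ v, U (e v) = e v := by
    intro v
    have h1 : Tendsto (fun n : ℕ => U ((U ^ n) v)) atTop (𝓝 (U (e v))) :=
      (U.continuous.tendsto _).comp (he v)
    have h2 : Tendsto (fun n : ℕ => (U ^ (n + 1)) v) atTop (𝓝 (e v)) :=
      (he v).comp (tendsto_add_atTop_nat 1)
    refine tendsto_nhds_unique h1 ?_
    refine h2.congr fun n => ?_
    rw [pow_succ']; rfl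
  refine ⟨E, ?_, ?_, ?_⟩
  · ext v
    show e (e v) = e v
    exact hfix _ (hUe v)
  · intro v
    rw [hE]
    refine ⟨hfix v, fun h => ?_⟩
    have := hUe v
    rwa [h] at this
  · intro v
    rw [hE]
    refine le_antisymm ?_ (hle v)
    have := norm_add_le (e v) (v - e v)
    simpa using this

theorem mem_of_ann {𝕜 : Type} [RCLike 𝕜] {X : Type} [NormedAddCommGroup X] [NormedSpace 𝕜 X]
    (W : Submodule 𝕜 X) (hW : IsClosed (W : Set X)) (x : X)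
    (hx : ∀ f : X →L[𝕜] 𝕜, (∀ w ∈ W, f w = 0) → f x = 0) : x ∈ W := by
  haveI : IsClosed (W : Set X) := hW
  obtain ⟨g, -, hg⟩ := exists_dual_vector'' 𝕜 (W.mkQ x)
  have h := hx (g.comp W.mkQL) (fun w hw => by
    show g (W.mkQ w) = 0
    have : W.mkQ w = 0 := (Submodule.Quotient.mk_eq_zero W).2 hw
    rw [this, map_zero])
  have h2 : g (W.mkQ x) = 0 := h
  rw [h2] at hg
  have h3 : ‖W.mkQ x‖ = 0 := by exact_mod_cast hg.symm
  exact (Submodule.Quotient.mk_eq_zero W).1 (norm_eq_zero.1 h3)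

/-- Hahn-Banach extension operator of an ideal -/
theorem exists_ext {𝕜 : Type} [RCLike 𝕜] {X : Type} [NormedAddCommGroup X] [NormedSpace 𝕜 X]
    (W : Submodule 𝕜 X) (P : (X →L[𝕜] 𝕜) →L[𝕜] (X →L[𝕜] 𝕜)) (hP : P.comp P = P) (hn : ‖P‖ ≤ 1)
    (hk : ∀ f : X →L[𝕜] 𝕜, P f = 0 ↔ ∀ w ∈ W, f w = 0) :
    ∃ φ : (W →L[𝕜] 𝕜) →L[𝕜] (X →L[𝕜] 𝕜), (∀ g, ‖φ g‖ ≤ ‖g‖) ∧ ∀ g (w : W), φ g w = g w := by
  choose ex hex hexn using fun g : W →L[𝕜] 𝕜 => exists_extension_norm_eq W g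
  have key : ∀ (f f' : X →L[𝕜] 𝕜), (∀ w ∈ W, f w = f' w) → P f = P f' := by
    intro f f' h
    have : P (f - f') = 0 := (hk _).2 fun w hw => by simp [h w hw]
    rwa [map_sub, sub_eq_zero] at this
  let φl : (W →L[𝕜] 𝕜) →ₗ[𝕜] (X →L[𝕜] 𝕜) :=
    { toFun := fun g => P (ex g)
      map_add' := fun g h => by
        rw [← map_add]
        apply key
        intro w hw
        have h1 := hex (g + h) ⟨w, hw⟩
        have h2 := hex g ⟨w, hw⟩
        have h3 := hex h ⟨w, hw⟩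
        simp only [ContinuousLinearMap.add_apply] at h1 h2 h3 ⊢
        rw [h1, h2, h3]
      map_smul' := fun c g => by
        rw [RingHom.id_apply, ← map_smul]
        apply key
        intro w hw
        have h1 := hex (c • g) ⟨w, hw⟩
        have h2 := hex g ⟨w, hw⟩
        simp only [ContinuousLinearMap.smul_apply] at h1 h2 ⊢
        rw [h1, h2] }
  have hb : ∀ g, ‖φl g‖ ≤ 1 * ‖g‖ := by
    intro g
    show ‖P (ex g)‖ ≤ 1 * ‖g‖
    rw [← hexn g]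
    exact (P.le_opNorm _).trans (mul_le_mul_of_nonneg_right hn (norm_nonneg _))
  refine ⟨φl.mkContinuous 1 hb, fun g => by simpa using hb g, fun g w => ?_⟩
  show P (ex g) w = g w
  have h1 : P (ex g - P (ex g)) = 0 := by
    rw [map_sub]
    have : P (P (ex g)) = P (ex g) := by
      have := congrArg (fun T => T (ex g)) hP
      exact this
    rw [this, sub_self]
  have h2 := (hk _).1 h1 w w.2
  simp only [ContinuousLinearMap.sub_apply] at h2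
  rw [← hex g w]
  exact (sub_eq_zero.1 h2).symm

theorem main (𝕜 : Type) [RCLike 𝕜] (X : Type) [NormedAddCommGroup X] [NormedSpace 𝕜 X]
    (W : Submodule 𝕜 X)
    (Q : ((X →L[𝕜] 𝕜) →L[𝕜] 𝕜) →L[𝕜] ((X →L[𝕜] 𝕜) →L[𝕜] 𝕜))
    (hQr : ∀ Φ : (X →L[𝕜] 𝕜) →L[𝕜] 𝕜, (∃ x : X, ∀ f : X →L[𝕜] 𝕜, Φ f = f x) ↔ Q Φ = Φ)
    (hQn : ∀ Φ : (X →L[𝕜] 𝕜) →L[𝕜] 𝕜, ‖Φ‖ = ‖Q Φ‖ + ‖Φ - Q Φ‖)
    (hW : IsClosed (W : Set X))
    (P : (X →L[𝕜] 𝕜) →L[𝕜] (X →L[𝕜] 𝕜)) (hP : P.comp P = P) (hn : ‖P‖ ≤ 1)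
    (hk : ∀ f : X →L[𝕜] 𝕜, P f = 0 ↔ ∀ w ∈ W, f w = 0) :
    ∃ Q : ((W →L[𝕜] 𝕜) →L[𝕜] 𝕜) →L[𝕜] ((W →L[𝕜] 𝕜) →L[𝕜] 𝕜),
      Q.comp Q = Q ∧
      (∀ Φ : (W →L[𝕜] 𝕜) →L[𝕜] 𝕜, (∃ y : W, ∀ f : W →L[𝕜] 𝕜, Φ f = f y) ↔ Q Φ = Φ) ∧
      (∀ Φ : (W →L[𝕜] 𝕜) →L[𝕜] 𝕜, ‖Φ‖ = ‖Q Φ‖ + ‖Φ - Q Φ‖) := by
  obtain ⟨φ, hφn, hφ⟩ := exists_ext W P hP hn hk
  let r : (X →L[𝕜] 𝕜) →L[𝕜] (W →L[𝕜] 𝕜) :=
    (ContinuousLinearMap.compL 𝕜 W X 𝕜).flip W.subtypeL
  have hr : ∀ f (w : W), r f w = f w := fun f w => rfl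
  have hrn : ∀ f, ‖r f‖ ≤ ‖f‖ := fun f =>
    ContinuousLinearMap.opNorm_le_bound _ (norm_nonneg _) fun w => by
      rw [hr]; exact f.le_opNorm _
  let j : ((W →L[𝕜] 𝕜) →L[𝕜] 𝕜) →L[𝕜] ((X →L[𝕜] 𝕜) →L[𝕜] 𝕜) :=
    (ContinuousLinearMap.compL 𝕜 (X →L[𝕜] 𝕜) (W →L[𝕜] 𝕜) 𝕜).flip r
  have hj : ∀ v f, j v f = v (r f) := fun v f => rfl
  let R : ((X →L[𝕜] 𝕜) →L[𝕜] 𝕜) →L[𝕜] ((W →L[𝕜] 𝕜) →L[𝕜] 𝕜) :=
    (ContinuousLinearMap.compL 𝕜 (W →L[𝕜] 𝕜) (X →L[𝕜] 𝕜) 𝕜).flip φ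
  have hR : ∀ v g, R v g = v (φ g) := fun v g => rfl
  have hjn : ∀ v, ‖j v‖ ≤ ‖v‖ := fun v =>
    ContinuousLinearMap.opNorm_le_bound _ (ContinuousLinearMap.opNorm_nonneg v) fun f => by
      rw [hj]
      exact (v.le_opNorm _).trans (mul_le_mul_of_nonneg_left (hrn f)
        (ContinuousLinearMap.opNorm_nonneg v))
  have hRn : ∀ v, ‖R v‖ ≤ ‖v‖ := fun v =>
    ContinuousLinearMap.opNorm_le_bound _ (ContinuousLinearMap.opNorm_nonneg v) fun g => by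
      rw [hR]
      exact (v.le_opNorm _).trans (mul_le_mul_of_nonneg_left (hφn g)
        (ContinuousLinearMap.opNorm_nonneg v))
  have hrφ : ∀ g, r (φ g) = g := fun g => by
    ext w; rw [hr, hφ]
  have hRj : ∀ v, R (j v) = v := fun v => by
    ext g; rw [hR, hj, hrφ]
  let U := R.comp (Q.comp j)
  have hU : ∀ v, U v = R (Q (j v)) := fun v => rfl
  obtain ⟨E, hE1, hE2, hE3⟩ := exists_Lproj (𝕜 := 𝕜) (V := (W →L[𝕜] 𝕜) →L[𝕜] 𝕜) U (fun v => by
    have h1 := hQn (j v)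
    have h2 := hRn (Q (j v))
    have h3 := hRn (j v - Q (j v))
    have h5 : R (j v - Q (j v)) = v - R (Q (j v)) := by
      ext g
      show j v (φ g) - Q (j v) (φ g) = v g - Q (j v) (φ g)
      rw [hj, hrφ]
    rw [h5] at h3
    have h4 := hjn v
    rw [hU]; linarith)
  refine ⟨E, hE1, fun v => ?_, hE3⟩
  rw [← hE2, hU]
  constructor
  · rintro ⟨y, hy⟩
    have : Q (j v) = j v := (hQr _).1 ⟨y, fun f => by rw [hj, hy, hr]⟩
    rw [this, hRj]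
  · intro h
    have h1 := hQn (j v)
    have h2 := hRn (Q (j v))
    rw [h] at h2
    have h4 := hjn v
    have h5 : ‖j v - Q (j v)‖ = 0 := le_antisymm (by linarith) (ContinuousLinearMap.opNorm_nonneg _)
    have h6 : Q (j v) = j v := by
      ext f
      have h7 := (j v - Q (j v)).le_opNorm f
      rw [h5, zero_mul] at h7
      have h8 : (j v - Q (j v)) f = 0 := norm_le_zero_iff.1 h7
      exact (sub_eq_zero.1 h8).symm
    obtain ⟨x, hx⟩ := (hQr _).2 h6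
    have hxW : x ∈ W := mem_of_ann W hW x fun f hf => by
      rw [← hx, hj]
      have : r f = 0 := by ext w; rw [hr]; exact hf w w.2
      rw [this, map_zero]
    refine ⟨⟨x, hxW⟩, fun g => ?_⟩
    rw [← hφ g ⟨x, hxW⟩, ← hx, hj, hrφ]

end Pool.Agent.H27.Lemb
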