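import Mathlib

set_option autoImplicit false

open Filter Topology ENNReal

namespace Pool.Agent.H27.Modu

section Defs

variable {X : Type*} [AddCommGroup X] [Module ℝ X]

/-- The modular space `X_ρ`. -/
def space (ρ : X → ℝ≥0∞) : Set X := {v | ∃ t : ℝ, 0 < t ∧ ρ (t • v) < ∞}

/-- `ρ`-closed subsets of `X_ρ`. -/
def MClosed (ρ : X → ℝ≥0∞) (C : Set X) : Prop :=
  C ⊆ space ρ ∧ ∀ (x : ℕ → X), ∀ y ∈ space ρ, (∀ j, x j ∈ C) →
    Tendsto (fun j => ρ (x j - y)) atTop (𝓝 0) → y ∈ C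

/-- Open subsets of `X_ρ` for the modular topology: complements in `X_ρ` of `ρ`-closed sets. -/
def MOpen (ρ : X → ℝ≥0∞) (U : Set X) : Prop := U ⊆ space ρ ∧ MClosed ρ (space ρ \ U)

/-- Regularity fails: some point and some closed set missing it cannot be separated. -/
def NotRegular (ρ : X → ℝ≥0∞) : Prop :=
  ∃ x ∈ space ρ, ∃ F, MClosed ρ F ∧ x ∉ F ∧
    ∀ U V, MOpen ρ U → MOpen ρ V → x ∈ U → F ⊆ V → (U ∩ V).Nonempty

end Defs

/-- The modular `ρ_p(a) = ∑ |a_j| ^ p_j`. -/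
noncomputable def rho (p : ℕ → ℝ) (a : ℕ → ℝ) : ℝ≥0∞ := ∑' j, ENNReal.ofReal (|a j| ^ p j)

/-- Auxiliary null sequence. -/
noncomputable def small (n : ℕ) : ℝ≥0∞ := ENNReal.ofReal ((7 / 8) ^ n * 8)

theorem small_lim : Tendsto small atTop (𝓝 0) := by
  have := ENNReal.tendsto_ofReal ((tendsto_pow_atTop_nhds_zero_of_lt_one (r := (7 / 8 : ℝ))
    (by norm_num) (by norm_num)).mul_const 8)
  rw [zero_mul, ENNReal.ofReal_zero] at this
  exact this

theorem nbhd {X : Type*} [AddCommGroup X] [Module ℝ X] {ρ : X → ℝ≥0∞} {U : Set X}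
    (hU : MOpen ρ U) {x : X} (hx : x ∈ U) :
    ∃ n, ∀ y ∈ space ρ, ρ (y - x) ≤ small n → y ∈ U := by
  by_contra h
  push Not at h
  choose y h1 h2 h3 using h
  exact (hU.2.2 y x (hU.1 hx) (fun j => ⟨h1 j, h3 j⟩) (tendsto_of_tendsto_of_tendsto_of_le_of_le
    tendsto_const_nhds small_lim (fun _ => zero_le) h2)).2 hx

theorem rho_zero {p : ℕ → ℝ} (hp : ∀ n, 1 ≤ p n) (a : ℕ → ℝ) : rho p a = 0 ↔ a = 0 := by
  have h : ∀ j, p j ≠ 0 := fun j => by linarith [hp j]
  refine ⟨fun h0 => funext fun j => ?_, by rintro rfl; simp [rho, h]⟩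
  have h1 := ENNReal.ofReal_eq_zero.1 (ENNReal.tsum_eq_zero.1 h0 j)
  exact abs_eq_zero.1 ((Real.rpow_eq_zero (abs_nonneg _) (h j)).1
    (le_antisymm h1 (by positivity)))

theorem notRegular {p : ℕ → ℝ} (hp : ∀ n, 1 ≤ p n) (hu : ¬BddAbove (Set.range p)) :
    NotRegular (rho p) := by
  classical
  obtain ⟨ι, hι, hq⟩ : ∃ ι : ℕ → ℕ, StrictMono ι ∧ ∀ k : ℕ, (k : ℝ) < p (ι k) := by
    refine extraction_forall_of_frequently (P := fun k j => (k : ℝ) < p j) fun k => ?_
    by_contra h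
    rw [← Nat.cofinite_eq_atTop, frequently_cofinite_iff_infinite, Set.not_infinite] at h
    obtain ⟨M, hM⟩ := (h.image p).bddAbove
    refine hu ⟨max k M, ?_⟩
    rintro _ ⟨j, rfl⟩
    by_cases hj : (k : ℝ) < p j
    · exact le_max_of_le_right (hM ⟨j, hj, rfl⟩)
    · exact le_max_of_le_left (not_lt.1 hj)
  let E : (ℕ → ℝ) → ℕ → ℝ := fun a => Function.extend ι a 0
  have hE : ∀ a k, E a (ι k) = a k := fun a k => hι.injective.extend_apply _ _ _
  have hE' : ∀ a j, (¬∃ k, ι k = j) → E a j = 0 := fun a j h => Function.extend_apply' _ _ _ h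
  have hsm : ∀ (x a : ℕ → ℝ) (J : ℕ), (∀ k, x (ι k) = a k) → (∀ j, (¬∃ k, ι k = j) → x j = 0) →
      (∀ k, |a k| ≤ 3 / 4) → (∀ k < J, a k = 0) → rho p x ≤ small J := by
    intro x a J h1 h2 h3 h4
    have h0 : ∀ j, p j ≠ 0 := fun j => by linarith [hp j]
    rw [rho, ← hι.injective.tsum_eq (fun j hj => by
      by_contra h; exact hj (by simp [h2 j h, h0]))]
    have hs := (summable_geometric_of_lt_one (r := (7 / 8 : ℝ)) (by norm_num)
      (by norm_num)).mul_left ((7 / 8) ^ J)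
    have : small J = ∑' k : ℕ, ENNReal.ofReal ((7 / 8) ^ J * (7 / 8) ^ k) := by
      rw [← ENNReal.ofReal_tsum_of_nonneg (fun _ => by positivity) hs, tsum_mul_left,
        tsum_geometric_of_lt_one (by norm_num) (by norm_num)]
      norm_num [small]
    rw [this]
    refine ENNReal.tsum_le_tsum fun k => ENNReal.ofReal_le_ofReal ?_
    rw [h1]
    rcases lt_or_ge k J with hk | hk
    · simp only [h4 k hk, abs_zero, Real.zero_rpow (h0 _)]; positivity
    · calc |a k| ^ p (ι k) ≤ (3 / 4 : ℝ) ^ p (ι k) :=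
            Real.rpow_le_rpow (abs_nonneg _) (h3 k) (by linarith [hp (ι k)])
        _ ≤ (3 / 4 : ℝ) ^ (k : ℝ) :=
            Real.rpow_le_rpow_of_exponent_ge (by norm_num) (by norm_num) (hq k).le
        _ ≤ (7 / 8 * (7 / 8) : ℝ) ^ k := by
            rw [Real.rpow_natCast]; gcongr; norm_num
        _ ≤ _ := by
            rw [mul_pow]; gcongr ?_ * _
            exact pow_le_pow_of_le_one (by norm_num) (by norm_num) hk
  have hsub : ∀ (a b : ℕ → ℝ) (J : ℕ), (∀ k, |a k - b k| ≤ 3 / 4) → (∀ k < J, a k = b k) →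
      rho p (E a - E b) ≤ small J := fun a b J h1 h2 =>
    hsm _ (fun k => a k - b k) J (fun k => by simp [hE]) (fun j h => by simp [hE' _ j h]) h1
      fun k hk => sub_eq_zero.2 (h2 k hk)
  have hmem : ∀ a : ℕ → ℝ, (∀ k, |a k| ≤ 3) → E a ∈ space (rho p) := fun a h =>
    ⟨1 / 4, by norm_num, (hsm _ (fun k => 1 / 4 * a k) 0 (fun k => by simp [hE])
      (fun j h => by simp [hE' _ j h]) (fun k => by
        rw [abs_mul, abs_of_pos (by norm_num : (0 : ℝ) < 1 / 4)]; linarith [h k])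
      (by simp)).trans_lt ENNReal.ofReal_lt_top⟩
  let g : ℕ × Finset ℕ → ℕ → ℝ := fun c k => if k < c.1 then (if k ∈ c.2 then 3 / 4 else 0) else
    if (Nat.unpair k).1 = Encodable.encode c then 3 / 2 else -(3 / 4)
  have hg : ∀ c, E (g c) ∈ space (rho p) := fun c => hmem _ fun k => by
    simp only [g]; split_ifs <;> norm_num [abs_le]
  have hE0 : E 0 = 0 := funext fun j => by
    by_cases h : ∃ k, ι k = j
    · obtain ⟨k, rfl⟩ := h; exact hE _ _
    · exact hE' _ _ h
  refine ⟨0, hE0 ▸ hmem 0 (by simp), Set.range fun c => E (g c), ⟨?_, fun x y _ hx hl => ?_⟩, ?_,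
    fun U V hU hV h0 hF => ?_⟩
  · rintro _ ⟨c, rfl⟩; exact hg c
  · choose c hc using hx
    obtain ⟨N, hN⟩ := eventually_atTop.1 (hl.eventually (gt_mem_nhds one_pos))
    have h1 : ∀ j ≥ N, ∀ i, |x j i - y i| ≤ 1 := fun j hj i => by
      have a1 := ENNReal.ofReal_lt_one.1 ((ENNReal.le_tsum i).trans_lt (hN j hj))
      by_contra h
      exact a1.not_ge (Real.one_le_rpow (not_le.1 h).le (by linarith [hp i]))
    have h2 : ∀ j ≥ N, x j = x N := fun j hj => by
      by_contra h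
      have a1 : Encodable.encode (c j) ≠ Encodable.encode (c N) := fun e =>
        h (by rw [← hc j, ← hc N, Encodable.encode_injective e])
      have a2 := Nat.right_le_pair (Encodable.encode (c j)) (max (c j).1 (c N).1)
      have a3 := h1 j hj (ι (Nat.pair (Encodable.encode (c j)) (max (c j).1 (c N).1)))
      have a4 := h1 N le_rfl (ι (Nat.pair (Encodable.encode (c j)) (max (c j).1 (c N).1)))
      rw [← hc j] at a3
      rw [← hc N] at a4
      simp only [hE, g, Nat.unpair_pair] at a3 a4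
      rw [if_neg (by omega), if_pos trivial, abs_le] at a3
      rw [if_neg (by omega), if_neg a1, abs_le] at a4
      linarith [a3.2, a4.1]
    have h3 : rho p (x N - y) = 0 := tendsto_nhds_unique tendsto_const_nhds
      (hl.congr' ((eventually_ge_atTop N).mono fun j hj => by simp only [h2 j hj]))
    exact ⟨c N, (hc N).trans (sub_eq_zero.1 ((rho_zero hp _).1 h3))⟩
  · rintro ⟨c, hc⟩
    have := congrFun hc (ι c.1)
    simp only [hE, g, lt_irrefl, if_false, Pi.zero_apply] at this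
    split_ifs at this <;> norm_num at this
  obtain ⟨n0, hn0⟩ := nbhd hU h0
  let w : (ℕ → Bool) → ℕ → ℝ := fun b k => if n0 ≤ k ∧ b k then 3 / 4 else 0
  have hw : ∀ b k, |w b k| ≤ 3 / 4 := fun b k => by
    simp only [w]; split_ifs <;> norm_num [abs_le]
  have hwU : ∀ b, E (w b) ∈ U := fun b => hn0 _ (hmem _ fun k => by linarith [hw b k])
    (hE0 ▸ hsub _ 0 n0 (by simpa using hw b) fun k hk => by simp [w, hk.not_ge])
  let D : ℕ → Set (ℕ → Bool) := fun n =>
    {b | ∀ y ∈ space (rho p), rho p (y - E (w b)) ≤ small n → y ∈ U}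
  obtain ⟨n, b0, hb0⟩ := nonempty_interior_of_iUnion_of_closed (f := fun n => closure (D n))
    (fun _ => isClosed_closure) (Set.eq_univ_of_forall fun b => by
      obtain ⟨n, hn⟩ := nbhd hU (hwU b)
      exact Set.mem_iUnion.2 ⟨n, subset_closure hn⟩)
  rw [mem_interior_iff_mem_nhds, nhds_pi, Filter.mem_pi] at hb0
  obtain ⟨I, hI, t, ht, hIt⟩ := hb0
  obtain ⟨M, hM⟩ := hI.bddAbove
  obtain ⟨J, hJ1, hJ2, hJ3⟩ : ∃ J, n ≤ J ∧ n0 ≤ J ∧ M < J := ⟨n + n0 + M + 1, by omega⟩
  let c : ℕ × Finset ℕ := (J, (Finset.range J).filter fun k => n0 ≤ k ∧ b0 k)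
  let b1 : ℕ → Bool := fun k => if k < J then b0 k else
    decide ((Nat.unpair k).1 = Encodable.encode c)
  have hb1 : b1 ∈ closure (D n) := hIt fun i hi => by
    simpa [b1, (hM hi).trans_lt hJ3] using mem_of_mem_nhds (ht i)
  obtain ⟨m, hm⟩ := nbhd hV (hF ⟨c, rfl⟩)
  obtain ⟨b, hb, hbD⟩ := mem_closure_iff_nhds.1 hb1 {b | ∀ k ∈ Finset.range m, b k = b1 k}
    ((Finset.eventually_all _).2 fun k _ =>
      ((continuous_apply k).tendsto b1).eventually (p := fun x => x = b1 k)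
        ((isOpen_discrete {b1 k}).mem_nhds rfl))
  let q : ℕ → ℝ := fun k => if k < J then 0 else
    if (Nat.unpair k).1 = Encodable.encode c then 3 / 4 else -(3 / 4)
  have hq' : ∀ k, |q k| ≤ 3 / 4 := fun k => by
    simp only [q]; split_ifs <;> norm_num [abs_le]
  have hy : E (fun k => w b k + q k) ∈ space (rho p) := hmem _ fun k =>
    (abs_add_le _ _).trans (by linarith [hw b k, hq' k])
  have hgq : ∀ k, g c k = w b1 k + q k := fun k => by
    by_cases hk : k < J
    · simp [g, w, q, b1, c, hk]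
    · have : n0 ≤ k := by omega
      have h2 : ¬k < c.1 := hk
      simp only [g, w, q, b1, hk, h2, if_false, this, true_and, decide_eq_true_eq]
      split_ifs <;> norm_num
  refine ⟨_, hbD _ hy (hsub _ _ n (by simpa using hq') fun k hk => ?_),
    hm _ hy (hsub _ _ m (fun k => ?_) fun k hk => ?_)⟩
  · simp [q, hk.trans_le hJ1]
  · rw [hgq, add_sub_add_right_eq_sub]
    simp only [w]; split_ifs <;> norm_num [abs_le]
  · simp [hgq, w, hb k (Finset.mem_range.2 hk)]

end Pool.Agent.H27.Modu
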