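import Mathlib

namespace Pool.Agent.H27.Mom
open Complex Matrix Finset
open scoped Matrix.Norms.L2Operator ComplexConjugate

variable {n : ℕ}

abbrev G (n : ℕ) := Fin n → ZMod 3

noncomputable def e (t : ZMod 3) : ℂ := ZMod.stdAddChar t

lemma e1 (t : ZMod 3) : ‖e t‖ = 1 := by simp [e, ZMod.stdAddChar_apply]

lemma chs (φ : G n →+ ZMod 3) [Decidable (φ = 0)] :
    ∑ z, e (φ z) = if φ = 0 then (Fintype.card (G n) : ℂ) else 0 := by
  classical
  refine ((ZMod.stdAddChar.compAddMonoidHom φ).sum_eq_ite).trans (if_congr ⟨fun h => ?_, ?_⟩ rfl rfl)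
  · refine AddMonoidHom.ext fun z => ?_
    exact ZMod.injective_stdAddChar ((DFunLike.congr_fun h z).trans (by simp))
  · rintro rfl; exact AddChar.ext _ _ fun z => by simp

lemma m4 (i j k l : Fin n) : ∑ z : G n, conj (e (z i)) * e (z j) * conj (e (z k)) * e (z l) =
    Fintype.card (G n) * ((if j = i ∧ l = k then 1 else 0) + (if l = i ∧ k = j then 1 else 0) -
      if j = i ∧ k = i ∧ l = i then 1 else 0) := by
  classical
  let p := Pi.evalAddMonoidHom fun _ : Fin n => ZMod 3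
  have := chs (-p i + p j + -p k + p l)
  simp only [AddMonoidHom.add_apply, AddMonoidHom.neg_apply, e, AddChar.map_add_eq_mul,
    AddChar.map_neg_eq_conj] at this
  refine this.trans ?_
  by_cases h1 : j = i ∧ l = k
  · obtain ⟨rfl, rfl⟩ := h1
    rw [if_pos (by abel)]
    by_cases h : l = j <;> simp [h]
  by_cases h2 : l = i ∧ k = j
  · obtain ⟨rfl, rfl⟩ := h2
    have h3 : k ≠ l := fun h => h1 ⟨h, h.symm⟩
    rw [if_pos (by abel)]; simp [h3]
  have h3 : ¬(j = i ∧ k = i ∧ l = i) := fun h => h1 ⟨h.1, h.2.2.trans h.2.1.symm⟩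
  rw [if_neg h1, if_neg h2, if_neg h3, if_neg, zero_add, sub_zero, mul_zero]
  intro h
  have a := DFunLike.congr_fun h (Pi.single i 1)
  have b := DFunLike.congr_fun h (Pi.single k 1)
  simp only [AddMonoidHom.add_apply, AddMonoidHom.neg_apply, p, Pi.evalAddMonoidHom_apply,
    Pi.single_apply, AddMonoidHom.zero_apply] at a b
  by_cases c1 : j = i <;> by_cases c2 : k = i <;> by_cases c3 : l = i <;> by_cases c4 : j = k <;>
    by_cases c5 : l = k <;> simp only [c1, c2, c3, c4, c5, eq_comm (a := i), if_true, if_false,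
      eq_comm (a := k) (b := j), and_self, and_true, true_and, not_true] at a b h1 h2 h3 <;>
    first | (revert a b; decide) | omega

lemma m2 (i j : Fin n) : ∑ z : G n, conj (e (z i)) * e (z j) =
    Fintype.card (G n) * if j = i then 1 else 0 := by
  have := m4 i j i i
  simp only [mul_assoc, conj_mul', e1, ofReal_one, one_pow, mul_one] at this
  rw [this]
  by_cases h : j = i
  · simp [h]
  · simp [h, Ne.symm h]

section
variable {A : Type} [Ring A] [Algebra ℂ A]

lemma mom2 (a b : Fin n → A) : ∑ z : G n, (∑ i, conj (e (z i)) • a i) * ∑ j, e (z j) • b j =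
    (Fintype.card (G n) : ℂ) • ∑ i, a i * b i := by
  simp only [sum_mul, mul_sum, smul_mul_smul_comm]
  rw [sum_comm, smul_sum]
  refine sum_congr rfl fun i _ => ?_
  rw [sum_comm]
  simp [← sum_smul, m2]

lemma mom4 (a b c d : Fin n → A) : ∑ z : G n, (∑ i, conj (e (z i)) • a i) * (∑ j, e (z j) • b j) *
    (∑ k, conj (e (z k)) • c k) * ∑ l, e (z l) • d l = (Fintype.card (G n) : ℂ) •
      ((∑ i, a i * b i) * ∑ k, c k * d k + ∑ i, a i * (∑ j, b j * c j) * d i -
        ∑ i, a i * b i * c i * d i) := by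
  have : ∀ z : G n, (∑ i, conj (e (z i)) • a i) * (∑ j, e (z j) • b j) *
      (∑ k, conj (e (z k)) • c k) * ∑ l, e (z l) • d l = ∑ i, ∑ j, ∑ k, ∑ l,
        (conj (e (z i)) * e (z j) * conj (e (z k)) * e (z l)) • (a i * b j * c k * d l) := fun z => by
    simp only [mul_assoc, sum_mul]
    simp only [mul_sum, smul_mul_smul_comm]
  simp only [this]
  rw [sum_comm, sum_mul, ← sum_add_distrib, ← sum_sub_distrib, smul_sum]
  refine sum_congr rfl fun i _ => ?_
  rw [sum_comm, sum_congr rfl fun j _ => sum_comm, sum_congr rfl fun j _ =>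
    sum_congr rfl fun k _ => sum_comm]
  simp only [← sum_smul, m4]
  simp only [mul_smul, ← smul_sum]
  congr 1
  simp [add_smul, sub_smul, ite_and, sum_add_distrib, mul_sum, sum_mul, mul_assoc]

end

variable {I : Type} [Fintype I] [DecidableEq I]

noncomputable def vec (M : Matrix I I ℂ) : EuclideanSpace ℂ (I × I) :=
  WithLp.toLp 2 fun p => M p.1 p.2

noncomputable def fn (M : Matrix I I ℂ) : ℝ := ‖vec M‖

omit [DecidableEq I] in
lemma fn2 (M : Matrix I I ℂ) : fn M ^ 2 = ∑ i, ∑ j, ‖M i j‖ ^ 2 := by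
  simp [fn, vec, EuclideanSpace.norm_sq_eq, Fintype.sum_prod_type]

omit [DecidableEq I] in
lemma tri (M N : Matrix I I ℂ) : trace (Mᴴ * N) = inner ℂ (vec M) (vec N) := by
  simp only [trace, Matrix.diag, mul_apply, conjTranspose_apply, vec, PiLp.inner_apply,
    Fintype.sum_prod_type, RCLike.inner_apply]
  rw [sum_comm]; simp [mul_comm]

omit [DecidableEq I] in
lemma cs (M N : Matrix I I ℂ) : ‖trace (Mᴴ * N)‖ ≤ fn M * fn N := tri M N ▸ norm_inner_le_norm _ _

omit [DecidableEq I] in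
lemma trs (M : Matrix I I ℂ) : trace (Mᴴ * M) = (fn M ^ 2 : ℝ) := by
  rw [tri, inner_self_eq_norm_sq_to_K, fn]; simp

omit [DecidableEq I] in
lemma f0 (M : Matrix I I ℂ) : 0 ≤ fn M := norm_nonneg _

omit [DecidableEq I] in
lemma fnH (M : Matrix I I ℂ) : fn Mᴴ = fn M := by
  rw [← sq_eq_sq₀ (f0 _) (f0 _), fn2, fn2, sum_comm]; simp

lemma nge (M : Matrix I I ℂ) (v : I → ℂ) : ∑ i, ‖(M *ᵥ v) i‖ ^ 2 ≤ ‖M‖ ^ 2 * ∑ i, ‖v i‖ ^ 2 := by
  simpa [mul_pow, EuclideanSpace.norm_sq_eq] using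
    pow_le_pow_left₀ (norm_nonneg _) (l2_opNorm_mulVec M (WithLp.toLp 2 v)) 2

lemma nle (M : Matrix I I ℂ) (c : ℝ) (hc : 0 ≤ c)
    (h : ∀ v : I → ℂ, ∑ i, ‖(M *ᵥ v) i‖ ^ 2 ≤ c ^ 2 * ∑ i, ‖v i‖ ^ 2) : ‖M‖ ≤ c :=
  ContinuousLinearMap.opNorm_le_bound _ hc fun v => (abs_le_of_sq_le_sq' (by
    simpa [mul_pow, EuclideanSpace.norm_sq_eq] using h v) (by positivity)).2

lemma fm (Y M : Matrix I I ℂ) : fn (Y * M) ≤ ‖Y‖ * fn M := by
  refine (abs_le_of_sq_le_sq' ?_ (mul_nonneg (norm_nonneg _) (f0 _))).2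
  rw [mul_pow, fn2, fn2, sum_comm, sum_comm (f := fun i j => ‖M i j‖ ^ 2), mul_sum]
  exact sum_le_sum fun j _ => nge Y fun i => M i j

lemma fm' (Y M : Matrix I I ℂ) : fn (M * Y) ≤ fn M * ‖Y‖ := by
  rw [← fnH, conjTranspose_mul, ← fnH M, ← l2_opNorm_conjTranspose Y, mul_comm]; exact fm _ _

noncomputable def D (x : I → ℝ) : Matrix I I ℂ := diagonal fun i => x i

omit [Fintype I] in
lemma DH (x : I → ℝ) : (D x)ᴴ = D x := by simp [D, diagonal_conjTranspose, Pi.star_def]

lemma cardpos : (0 : ℝ) < Fintype.card (G n) := by exact_mod_cast Fintype.card_pos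

lemma uni (U C : Fin n → Matrix I I ℂ) (h1 : ∀ k, (U k)ᴴ * U k = 1) (h2 : ∀ k, U k * (U k)ᴴ = 1)
    (hC : ∀ z : Fin n → ℂ, (∀ k, ‖z k‖ = 1) → ‖∑ k, z k • C k‖ ≤ 1) (x y : I → ℝ) (hn : 0 < n) :
    ‖∑ k, trace (D y * U k * D x * C k)‖ ≤
      n / √(2 * n - 1) * (√(∑ i, y i ^ 2) * √(∑ i, x i ^ 2)) := by
  set W : G n → Matrix I I ℂ := fun z => ∑ k, conj (e (z k)) • U k with hW
  have WH : ∀ z, (W z)ᴴ = ∑ k, e (z k) • (U k)ᴴ := fun z => by
    simp [hW, conjTranspose_sum]
  have hW' : ∀ z : G n, ∑ k, conj (e (z k)) • U k = W z := fun _ => rfl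
  have n1 : (1 : ℝ) ≤ n := by exact_mod_cast hn
  have N := cardpos (n := n)
  have tD : ∀ x : I → ℝ, trace (D x * D x) = (∑ i, x i ^ 2 : ℝ) := fun x => by simp [D, sq]
  have a : ∑ z, trace ((W z * (W z)ᴴ * D y)ᴴ * (W z * D x * ∑ k, e (z k) • C k)) =
      (Fintype.card (G n) * (2 * n - 1) : ℝ) * ∑ k, trace (D y * U k * D x * C k) := by
    have := congrArg (fun M => trace (D y * M)) (mom4 U (fun k => (U k)ᴴ) (fun k => U k * D x) C)
    simp only [← smul_mul_assoc, ← sum_mul, ← WH, hW'] at this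
    simp only [← mul_assoc, sum_mul, h1, h2, one_mul, mul_one, sum_const, card_univ,
      Fintype.card_fin, mul_sum, trace_sum] at this
    simp only [conjTranspose_mul, DH, conjTranspose_conjTranspose, ← mul_assoc, mul_sum, trace_sum]
    refine this.trans ?_
    simp only [← Nat.cast_smul_eq_nsmul ℂ n, smul_mul_assoc, mul_smul_comm, one_mul, ← smul_sum,
      mul_add, mul_sub, trace_smul, trace_add, trace_sub, mul_sum, trace_sum, ← mul_assoc]
    simp only [smul_eq_mul, ← mul_sum]; push_cast; ring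
  have b : ∑ z, fn (W z * (W z)ᴴ * D y) ^ 2 =
      Fintype.card (G n) * (n * (2 * n - 1) * ∑ i, y i ^ 2) := by
    have := congrArg (fun M => trace (D y * M * D y))
      (mom4 U (fun k => (U k)ᴴ) U fun k => (U k)ᴴ)
    simp only [← WH, hW', h1, h2, mul_one, one_mul, sum_const, card_univ, Fintype.card_fin] at this
    simp only [mul_sum, sum_mul, trace_sum] at this
    refine ofReal_injective ?_
    simp only [ofReal_sum, ← trs, conjTranspose_mul, DH, conjTranspose_conjTranspose, ← mul_assoc]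
    simp only [← mul_assoc] at this
    refine this.trans ?_
    simp only [← Nat.cast_smul_eq_nsmul ℂ n, smul_mul_assoc, mul_smul_comm, mul_one, h2, sum_const,
      card_univ, Fintype.card_fin, mul_add, mul_sub, add_mul, sub_mul, trace_smul, trace_add,
      trace_sub, tD, smul_eq_mul]
    push_cast; ring
  have c : ∑ z, fn (W z * D x) ^ 2 = Fintype.card (G n) * (n * ∑ i, x i ^ 2) := by
    have := congrArg trace (mom2 (fun k => U k * D x) fun k => D x * (U k)ᴴ)
    have q : ∀ z : G n, ∑ j, e (z j) • (D x * (U j)ᴴ) = D x * (W z)ᴴ := fun z => by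
      simp only [WH, mul_sum, mul_smul_comm]
    simp only [q] at this
    simp only [← smul_mul_assoc, ← sum_mul, hW', trace_sum] at this
    refine ofReal_injective ?_
    simp only [ofReal_sum, ← fnH (W _ * D x), ← trs, conjTranspose_mul, DH,
      conjTranspose_conjTranspose]
    refine this.trans ?_
    have r : ∀ i, trace (U i * D x * (D x * (U i)ᴴ)) = trace (D x * D x) := fun i => by
      rw [trace_mul_comm, mul_assoc, ← mul_assoc (U i)ᴴ, h1, one_mul]
    simp [r, tD]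
  have d := (norm_sum_le_of_le univ fun z _ => (cs (W z * (W z)ᴴ * D y) _).trans
    (mul_le_mul_of_nonneg_left ((fm' _ _).trans (mul_le_of_le_one_right (f0 (W z * D x))
      (hC _ fun k => e1 (z k)))) (f0 _))).trans (Real.sum_mul_le_sqrt_mul_sqrt _ _ _)
  have q : 0 < 2 * (n : ℝ) - 1 := by linarith
  have r := Real.sqrt_pos.2 q
  rw [a, b, c, norm_mul, norm_real, Real.norm_of_nonneg (by positivity), ← le_div_iff₀'
    (by positivity)] at d
  refine d.trans_eq ?_
  rw [Real.sqrt_mul N.le, Real.sqrt_mul N.le, Real.sqrt_mul (by positivity), Real.sqrt_mul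
    (by positivity), Real.sqrt_mul (by positivity)]
  have e1 := Real.mul_self_sqrt N.le
  have e2 := Real.mul_self_sqrt q.le
  have e3 := Real.mul_self_sqrt (n.cast_nonneg (α := ℝ))
  generalize √(Fintype.card (G n)) = a at *
  generalize √(2 * n - 1) = b at *
  generalize √n = c at *
  rw [← e1, ← e2]
  nth_rewrite 1 [← e3]
  have : a ≠ 0 := by rintro rfl; linarith
  field_simp

end Pool.Agent.H27.Mom
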