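import Mathlib

set_option autoImplicit false

open Filter Topology

namespace Pool.Agent.H27.Mono

variable {X : Type*} [NormedAddCommGroup X] [NormedSpace ℝ X] [PartialOrder X]
  [IsOrderedAddMonoid X] [PosSMulMono ℝ X]

/-- The ideal generated by `b`. -/
def ideal (b : X) (hb : 0 ≤ b) : Submodule ℝ X where
  carrier := {y | ∃ t : ℝ, 0 ≤ t ∧ y ≤ t • b ∧ -y ≤ t • b}
  add_mem' := by
    rintro y z ⟨s, hs, h1, h2⟩ ⟨t, ht, h3, h4⟩
    exact ⟨s + t, by positivity, by rw [add_smul]; exact add_le_add h1 h3,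
      by rw [add_smul, neg_add]; exact add_le_add h2 h4⟩
  zero_mem' := ⟨0, le_rfl, by simp, by simp⟩
  smul_mem' := by
    rintro c y ⟨t, ht, h1, h2⟩
    refine ⟨|c| * t, by positivity, ?_, ?_⟩ <;> rw [mul_smul] <;> rcases abs_cases c with h | h
    · rw [h.1]; exact smul_le_smul_of_nonneg_left h1 h.2
    · rw [h.1, ← neg_neg (c • y), ← neg_smul, ← smul_neg]
      exact smul_le_smul_of_nonneg_left h2 (by linarith)
    · rw [h.1, ← smul_neg]; exact smul_le_smul_of_nonneg_left h2 h.2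
    · rw [h.1, ← neg_smul]; exact smul_le_smul_of_nonneg_left h1 (by linarith)

/-- The ideal as a type, to carry the order unit norm. -/
def Id (b : X) (hb : 0 ≤ b) : Type _ := ideal b hb

instance (b : X) (hb : 0 ≤ b) : AddCommGroup (Id b hb) :=
  inferInstanceAs (AddCommGroup (ideal b hb))
instance (b : X) (hb : 0 ≤ b) : Module ℝ (Id b hb) := inferInstanceAs (Module ℝ (ideal b hb))

/-- The inclusion. -/
def incl (b : X) (hb : 0 ≤ b) : Id b hb →ₗ[ℝ] X := (ideal b hb).subtype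

/-- The order unit norm. -/
noncomputable def N {b : X} {hb : 0 ≤ b} (y : Id b hb) : ℝ :=
  sInf {t : ℝ | 0 ≤ t ∧ incl b hb y ≤ t • b ∧ -incl b hb y ≤ t • b}

theorem N_le {b : X} {hb : 0 ≤ b} {y : Id b hb} {t : ℝ} (ht : 0 ≤ t) (h1 : incl b hb y ≤ t • b)
    (h2 : -incl b hb y ≤ t • b) : N y ≤ t := csInf_le ⟨0, fun _ h => h.1⟩ ⟨ht, h1, h2⟩

theorem closed_le (hC : IsClosed (Set.Ici (0 : X))) {Y : Type*} [TopologicalSpace Y] {f g : Y → X}
    (hf : Continuous f) (hg : Continuous g) : IsClosed {y | f y ≤ g y} := by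
  simpa [Set.preimage] using hC.preimage (hg.sub hf)

theorem N_spec (hC : IsClosed (Set.Ici (0 : X))) {b : X} {hb : 0 ≤ b} (y : Id b hb) :
    0 ≤ N y ∧ incl b hb y ≤ N y • b ∧ -incl b hb y ≤ N y • b :=
  IsClosed.csInf_mem (s := {t : ℝ | 0 ≤ t ∧ incl b hb y ≤ t • b ∧ -incl b hb y ≤ t • b})
    (isClosed_Ici.inter ((closed_le hC continuous_const (by fun_prop)).inter
      (closed_le hC continuous_const (by fun_prop)))) y.2 ⟨0, fun _ h => h.1⟩

theorem bdd [CompleteSpace X] (hC : IsClosed (Set.Ici (0 : X)))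
    (hS : ∀ x : ℕ → X, Monotone x → BddAbove (Set.range x) → ∃ s, IsLUB (Set.range x) s)
    (b : X) (hb : 0 ≤ b) : ∃ c : ℝ, ∀ y, 0 ≤ y → y ≤ b → ‖y‖ ≤ c := by
  letI : NormedAddCommGroup (Id b hb) := AddGroupNorm.toNormedAddCommGroup
    { toFun := N
      map_zero' := le_antisymm (N_le le_rfl (by simp) (by simp)) (N_spec hC 0).1
      add_le' := fun y z => N_le (add_nonneg (N_spec hC y).1 (N_spec hC z).1)
        (by rw [add_smul, map_add]; exact add_le_add (N_spec hC y).2.1 (N_spec hC z).2.1)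
        (by rw [add_smul, map_add, neg_add]; exact add_le_add (N_spec hC y).2.2 (N_spec hC z).2.2)
      neg' := fun y => by simp only [N, map_neg, neg_neg, and_comm (a := -incl b hb y ≤ _)]
      eq_zero_of_map_eq_zero' := fun y h => by
        have := N_spec hC y
        rw [h, zero_smul, neg_nonpos] at this
        exact Subtype.ext (le_antisymm this.2.1 this.2.2) }
  have hN : ∀ y : Id b hb, ‖y‖ = N y := fun _ => rfl
  letI : NormedSpace ℝ (Id b hb) := ⟨fun c y => by
    obtain ⟨h0, h1, h2⟩ := N_spec hC y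
    rw [hN, hN, Real.norm_eq_abs]
    refine N_le (by positivity) ?_ ?_ <;> rw [mul_smul, map_smul] <;>
      rcases abs_cases c with h | h
    · rw [h.1]; exact smul_le_smul_of_nonneg_left h1 h.2
    · rw [h.1, ← neg_neg (c • _), ← neg_smul, ← smul_neg]
      exact smul_le_smul_of_nonneg_left h2 (by linarith)
    · rw [h.1, ← smul_neg]; exact smul_le_smul_of_nonneg_left h2 h.2
    · rw [h.1, ← neg_smul]; exact smul_le_smul_of_nonneg_left h1 (by linarith)⟩
  haveI : CompleteSpace (Id b hb) := by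
    refine NormedAddCommGroup.completeSpace_of_summable_imp_tendsto fun u hu => ?_
    let r : ℕ → ℝ := fun n => ∑' i, ‖u (i + n)‖
    have hr : ∀ n, r n = ‖u n‖ + r (n + 1) := fun n => by
      simp only [r]
      rw [((summable_nat_add_iff n).2 hu).tsum_eq_zero_add]
      simp [add_assoc, add_comm 1 n]
    have hr0 : ∀ n, 0 ≤ r n := fun n => tsum_nonneg fun _ => norm_nonneg _
    let S : ℕ → X := fun n => incl b hb (∑ i ∈ Finset.range n, u i)
    have hS1 : ∀ n, S (n + 1) = S n + incl b hb (u n) := fun n => by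
      simp [S, Finset.sum_range_succ]
    have hz : Monotone fun n => S n - r n • b := monotone_nat_of_le_succ fun n => by
      have := (N_spec hC (u n)).2.2
      rw [hS1, hr n, add_smul, hN, ← sub_nonneg]
      rw [← sub_nonneg] at this
      convert this using 1; abel
    have hw : Antitone fun n => S n + r n • b := antitone_nat_of_succ_le fun n => by
      have := (N_spec hC (u n)).2.1
      rw [hS1, hr n, add_smul, hN, ← sub_nonneg]
      rw [← sub_nonneg] at this
      convert this using 1; abel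
    have hzw : ∀ n, S n + r n • b ∈ upperBounds (Set.range fun n => S n - r n • b) := by
      rintro n _ ⟨m, rfl⟩
      have h0 : 0 ≤ r (max m n) • b := smul_nonneg (hr0 _) hb
      exact (hz (le_max_left m n)).trans (((sub_le_self _ h0).trans
        (le_add_of_nonneg_right h0)).trans (hw (le_max_right m n)))
    obtain ⟨s, hs⟩ := hS _ hz ⟨_, hzw 0⟩
    have h1 : ∀ n, S n - s ≤ r n • b ∧ -(S n - s) ≤ r n • b := fun n =>
      ⟨sub_le_comm.1 (hs.1 ⟨n, rfl⟩), by rw [neg_sub, sub_le_iff_le_add']; exact hs.2 (hzw n)⟩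
    have h2 := h1 0
    simp only [S, Finset.range_zero, Finset.sum_empty, map_zero, zero_sub, neg_neg] at h2
    refine ⟨⟨s, r 0, hr0 0, h2.2, h2.1⟩, tendsto_iff_norm_sub_tendsto_zero.2 ?_⟩
    exact squeeze_zero (fun _ => norm_nonneg _) (fun n => N_le (hr0 n) (h1 n).1 (h1 n).2)
      (tendsto_sum_nat_add fun i => ‖u i‖)
  have hc : Continuous (incl b hb) := by
    refine (incl b hb).continuous_of_seq_closed_graph fun u x y hx hy => ?_
    have h1 := (tendsto_iff_norm_sub_tendsto_zero.1 hx).smul_const b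
    rw [zero_smul] at h1
    have h2 := hy.sub_const (incl b hb x)
    have a1 := (closed_le hC continuous_fst continuous_snd).mem_of_tendsto (h2.prodMk_nhds h1)
      (Eventually.of_forall fun n => by simpa [hN] using (N_spec hC (u n - x)).2.1)
    have a2 := (closed_le hC continuous_fst continuous_snd).mem_of_tendsto (h2.neg.prodMk_nhds h1)
      (Eventually.of_forall fun n => by simpa [hN] using (N_spec hC (u n - x)).2.2)
    simp only [Set.mem_setOf_eq, neg_sub, sub_nonpos] at a1 a2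
    exact le_antisymm a1 a2
  let T : Id b hb →L[ℝ] X := ⟨incl b hb, hc⟩
  refine ⟨‖T‖, fun y h0 h1 => ?_⟩
  have h2 : -y ≤ (1 : ℝ) • b := by rw [one_smul]; exact (neg_nonpos.2 h0).trans hb
  have h3 : y ≤ (1 : ℝ) • b := by rwa [one_smul]
  let z : Id b hb := ⟨y, 1, zero_le_one, h3, h2⟩
  exact T.unit_le_opNorm z (N_le zero_le_one h3 h2)

theorem normal_of_bdd [CompleteSpace X] (hC : IsClosed (Set.Ici (0 : X)))
    (hS : ∀ b : X, 0 ≤ b → ∃ c : ℝ, ∀ y, 0 ≤ y → y ≤ b → ‖y‖ ≤ c) :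
    ∃ c : ℝ, 0 < c ∧ ∀ x y : X, 0 ≤ x → x ≤ y → ‖x‖ ≤ c * ‖y‖ := by
  by_contra h
  push Not at h
  have h' : ∀ n : ℕ, ∃ x y : X, 0 ≤ x ∧ x ≤ y ∧ ‖y‖ ≤ (1 / 2) ^ n ∧ (n : ℝ) ≤ ‖x‖ := fun n => by
    obtain ⟨x, y, h0, h1, h2⟩ := h ((n + 1) * 2 ^ n) (by positivity)
    have hx : 0 < ‖x‖ := lt_of_le_of_lt (by positivity) h2
    have ht : 0 < (n + 1) / ‖x‖ := by positivity
    refine ⟨((n + 1) / ‖x‖) • x, ((n + 1) / ‖x‖) • y, smul_nonneg ht.le h0,
      smul_le_smul_of_nonneg_left h1 ht.le, ?_, ?_⟩ <;> rw [norm_smul, Real.norm_of_nonneg ht.le]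
    · rw [div_mul_eq_mul_div, div_le_iff₀ hx, one_div_pow, one_div, le_inv_mul_iff₀ (by positivity)]
      linarith
    · rw [div_mul_cancel₀ _ hx.ne']; linarith
  choose x y h0 h1 h2 h3 using h'
  have hy : Summable y := .of_norm_bounded summable_geometric_two h2
  have hle : ∀ n, y n ≤ ∑' i, y i := fun n =>
    (closed_le hC continuous_const continuous_id).mem_of_tendsto hy.hasSum
      ((eventually_ge_atTop {n}).mono fun s hs => Finset.single_le_sum
        (fun i _ => (h0 i).trans (h1 i)) (hs (Finset.mem_singleton_self n)))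
  obtain ⟨c, hc⟩ := hS _ ((h0 0).trans ((h1 0).trans (hle 0)))
  obtain ⟨n, hn⟩ := exists_nat_gt c
  exact (hn.trans_le ((h3 n).trans (hc _ (h0 n) ((h1 n).trans (hle n))))).false

theorem normal [CompleteSpace X] (hC : IsClosed (Set.Ici (0 : X)))
    (hS : ∀ x : ℕ → X, Monotone x → BddAbove (Set.range x) → ∃ s, IsLUB (Set.range x) s) :
    ∃ c : ℝ, 0 < c ∧ ∀ x y : X, 0 ≤ x → x ≤ y → ‖x‖ ≤ c * ‖y‖ :=
  normal_of_bdd hC (bdd hC hS)

end Pool.Agent.H27.Mono
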