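import Mathlib

/-! A Johnson–Lindenstrauss type space. -/

open Filter Topology

namespace Pool.Agent.H27.NSD

structure JL {E : Type} [NormedAddCommGroup E] [NormedSpace ℝ E] (b : ℕ × ℤ → E →L[ℝ] ℝ)
    (L : ℝ → E →L[ℝ] ℝ) (e : ℕ × ℤ → E) (χ : ℝ → E) : Prop where
  le : ∀ t x, |b t x| ≤ ‖x‖
  nb : ∀ x C, 0 ≤ C → (∀ t, |b t x| ≤ C) → ‖x‖ ≤ C
  be : ∀ t s, b t (e s) = if t = s then 1 else 0
  bχ : ∀ t σ, b t (χ σ) = if t.2 = ⌊(t.1 : ℝ) * σ⌋ then 1 else 0
  lim : ∀ σ x, Tendsto (fun k : ℕ => b (k, ⌊(k : ℝ) * σ⌋) x) (hyperfilter ℕ) (𝓝 (L σ x))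
  ind : ∀ P : Submodule ℝ E, IsClosed (P : Set E) → (∀ t, e t ∈ P) → (∀ σ, χ σ ∈ P) → ∀ x, x ∈ P
  mul : ∀ B : Set (ℕ × ℤ), (∀ (σ : ℝ) (k : ℕ), (k, ⌊(k : ℝ) * σ⌋) ∉ B) →
    ∃ M : E →L[ℝ] E, ∀ x t, b t (M x) = B.indicator (b · x) t

lemma ulim {E : Type} [NormedAddCommGroup E] [NormedSpace ℝ E] (f : ℕ → E →L[ℝ] ℝ)
    (hf : ∀ k x, |f k x| ≤ ‖x‖) :
    ∃ L : E →L[ℝ] ℝ, ∀ x, Tendsto (f · x) (hyperfilter ℕ) (𝓝 (L x)) := by
  have : ∀ x, ∃ a, Tendsto (f · x) (hyperfilter ℕ) (𝓝 a) := fun x => by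
    obtain ⟨a, -, ha⟩ := (isCompact_Icc (a := -‖x‖) (b := ‖x‖)).ultrafilter_le_nhds
      ((hyperfilter ℕ).map (f · x)) (le_principal_iff.2 (mem_map.2 (Eventually.of_forall
        fun k => abs_le.1 (hf k x))))
    exact ⟨a, ha⟩
  choose l hl using this
  refine ⟨LinearMap.mkContinuous ⟨⟨l, fun x y => tendsto_nhds_unique (hl _) ?_⟩,
    fun c x => tendsto_nhds_unique (hl _) ?_⟩ 1 fun x => ?_, hl⟩
  · simpa using (hl x).add (hl y)
  · simpa using (hl x).const_mul c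
  · rw [one_mul]
    exact le_of_tendsto' (hl x).abs fun k => hf k x

theorem space : ∃ (E : Type) (_ : NormedAddCommGroup E) (_ : NormedSpace ℝ E)
    (_ : CompleteSpace E) (b : ℕ × ℤ → E →L[ℝ] ℝ) (L : ℝ → E →L[ℝ] ℝ) (e : ℕ × ℤ → E)
    (χ : ℝ → E), JL b L e χ := by
  classical
  let V := lp (fun _ : ℕ × ℤ => ℝ) ⊤
  let i : (ℕ × ℤ → Prop) → V := fun p => ⟨fun t => if p t then 1 else 0, memℓp_infty ⟨1, by
    rintro _ ⟨t, rfl⟩; beta_reduce; split_ifs <;> simp⟩⟩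
  let e : ℕ × ℤ → V := fun s => i (· = s)
  let χ : ℝ → V := fun σ => i fun t => t.2 = ⌊(t.1 : ℝ) * σ⌋
  let N := (Submodule.span ℝ (Set.range e ∪ Set.range χ)).topologicalClosure
  have Nc : IsClosed (N : Set V) := Submodule.isClosed_topologicalClosure _
  have eN : ∀ s, e s ∈ N := fun s => Submodule.le_topologicalClosure _
    (Submodule.subset_span (Or.inl ⟨s, rfl⟩))
  have χN : ∀ s, χ s ∈ N := fun s => Submodule.le_topologicalClosure _
    (Submodule.subset_span (Or.inr ⟨s, rfl⟩))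
  have ind : ∀ P : Submodule ℝ V, IsClosed (P : Set V) → (∀ t, e t ∈ P) → (∀ σ, χ σ ∈ P) →
      N ≤ P := fun P hP h1 h2 => Submodule.topologicalClosure_minimal _ (Submodule.span_le.2 (by
        rintro _ (⟨t, rfl⟩ | ⟨t, rfl⟩); exacts [h1 t, h2 t])) hP
  let b : ℕ × ℤ → N →L[ℝ] ℝ := fun t => (lp.evalCLM ℝ (fun _ => ℝ) ⊤ t).comp N.subtypeL
  have hb : ∀ t (x : N), b t x = x.1 t := fun _ _ => rfl
  have le : ∀ t (x : N), |b t x| ≤ ‖x‖ := fun t x => lp.norm_apply_le_norm (by simp) x.1 t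
  choose L hL using fun σ : ℝ => ulim (E := N) (fun k => b (k, ⌊(k : ℝ) * σ⌋)) fun k => le _
  refine ⟨N, inferInstance, inferInstance, Nc.completeSpace_coe, b, L, fun s => ⟨e s, eN s⟩,
    fun s => ⟨χ s, χN s⟩, le, fun x C h0 h => lp.norm_le_of_forall_le h0 h,
    fun t s => by simp [hb, e, i], fun t s => by simp [hb, χ, i], hL, fun P hP h1 h2 x => ?_,
    fun B hB => ?_⟩
  · obtain ⟨y, hy, h⟩ := ind (P.map N.subtype) (Nc.isClosedEmbedding_subtypeVal.isClosedMap _ hP)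
      (fun t => ⟨_, h1 t, rfl⟩) (fun t => ⟨_, h2 t, rfl⟩) x.2
    exact Subtype.ext h ▸ hy
  · have bd : ∀ (v : V) t, ‖B.indicator v t‖ ≤ ‖v‖ := fun v t =>
      (norm_indicator_le_norm_self _ _).trans (lp.norm_apply_le_norm (by simp) v t)
    let M : V →L[ℝ] V := LinearMap.mkContinuous
      { toFun := fun v => ⟨B.indicator v, memℓp_infty ⟨‖v‖, by rintro _ ⟨t, rfl⟩; exact bd v t⟩⟩
        map_add' := fun u v => lp.ext (funext fun t => by by_cases q : t ∈ B <;> simp [V, q])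
        map_smul' := fun c v => lp.ext (funext fun t => by by_cases q : t ∈ B <;> simp [V, q]) } 1
      fun v => by rw [one_mul]; exact lp.norm_le_of_forall_le (norm_nonneg _) (bd v)
    have hM : ∀ v t, M v t = B.indicator v t := fun _ _ => rfl
    have MN : N ≤ N.comap (M : V →ₗ[ℝ] V) := ind _ (Nc.preimage M.continuous) (fun s => by
      by_cases q : s ∈ B
      · have : M (e s) = e s := lp.ext (funext fun t => by
          by_cases p : t = s <;> simp [hM, e, i, p, q, Set.indicator])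
        exact show M (e s) ∈ N from this.symm ▸ eN s
      · have : M (e s) = 0 := lp.ext (funext fun t => by
          by_cases p : t = s <;> simp [hM, e, i, p, q, Set.indicator])
        exact show M (e s) ∈ N from this.symm ▸ N.zero_mem) fun σ => by
      have : M (χ σ) = 0 := lp.ext (funext fun t => by
        by_cases p : t ∈ B
        · have : t.2 ≠ ⌊(t.1 : ℝ) * σ⌋ := fun r => hB σ t.1 (r ▸ p)
          simp [hM, χ, i, p, this]
        · simp [hM, p])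
      exact show M (χ σ) ∈ N from this.symm ▸ N.zero_mem
    exact ⟨(M.comp N.subtypeL).codRestrict N fun x => MN x.2, fun x t => hM x.1 t⟩

lemma rec_choice {I Y : Type} (hI : Cardinal.mk I ≤ Cardinal.continuum) (Q : I → Set Y → Y → Prop)
    (h : ∀ i (s : Set Y), Cardinal.mk s < Cardinal.continuum → ∃ y, Q i s y) :
    ∃ (r : I → I → Prop) (f : I → Y), (∀ i j, i ≠ j → r i j ∨ r j i) ∧
      ∀ i, Q i (f '' {j | r j i}) (f i) := by
  classical
  obtain ⟨φ⟩ : Nonempty (I ↪ Cardinal.continuum.{0}.ord.ToType) := by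
    rw [← Cardinal.le_def]; simpa using hI
  let r : I → I → Prop := fun i j => φ i < φ j
  have wf : WellFounded r := InvImage.wf φ wellFounded_lt
  have sm : ∀ i, Cardinal.mk {j | r j i} < Cardinal.continuum := fun i =>
    (Cardinal.mk_preimage_of_injective φ (Set.Iio (φ i)) φ.injective).trans_lt
      (Cardinal.mk_Iio_toType_ord_lt _)
  let f : I → Y := wf.fix fun i g => (h i (Set.range fun j : {j | r j i} => g j.1 j.2)
    (Cardinal.mk_range_le.trans_lt (sm i))).choose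
  refine ⟨r, f, fun i j q => lt_or_gt_of_ne (φ.injective.ne q), fun i => ?_⟩
  rw [Set.image_eq_range, show f i = _ from wf.fix_eq _ i]
  exact Exists.choose_spec (h i _ (Cardinal.mk_range_le.trans_lt (sm i)))

end Pool.Agent.H27.NSD
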