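import Pool.Agent.H27.NSD1

/-! Properties of the Johnson–Lindenstrauss type space. -/

open Filter Topology Finset Cardinal

namespace Pool.Agent.H27.NSD

def Sep (k : ℕ) (F : Finset ℝ) : Prop :=
  ∀ l : ℕ, k ≤ l → ∀ σ ∈ F, ∀ τ ∈ F, ⌊(l : ℝ) * σ⌋ = ⌊(l : ℝ) * τ⌋ → σ = τ

lemma ev_ne {σ τ : ℝ} : ∀ᶠ l : ℕ in atTop, ⌊(l : ℝ) * σ⌋ = ⌊(l : ℝ) * τ⌋ → σ = τ := by
  filter_upwards [eventually_ge_atTop ⌈|σ - τ|⁻¹⌉₊] with l hl h
  by_contra q
  have := Int.abs_sub_lt_one_of_floor_eq_floor h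
  rw [← mul_sub, abs_mul, Nat.abs_cast] at this
  rw [Nat.ceil_le, inv_le_iff_one_le_mul₀ (abs_pos.2 (sub_ne_zero.2 q))] at hl
  linarith

lemma ex_sep (F : Finset ℝ) : ∃ k, Sep k F :=
  eventually_atTop.1 ((eventually_all_finset F).2 fun _ _ =>
    (eventually_all_finset F).2 fun _ _ => ev_ne)

variable {E : Type} [NormedAddCommGroup E] [NormedSpace ℝ E]

noncomputable def cut (e : ℕ × ℤ → E) (χ : ℝ → E) (k : ℕ) (σ : ℝ) : E :=
  χ σ - ∑ l ∈ range k, e (l, ⌊(l : ℝ) * σ⌋)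

noncomputable def R {ι : Type} (g : ι → E) : (ι →₀ ℚ) →+ E :=
  Finsupp.liftAddHom fun i => AddMonoidHom.mk' (fun r : ℚ => (r : ℝ) • g i) (by simp [add_smul])

lemma R_single {ι : Type} (g : ι → E) (i : ι) (r : ℚ) : R g (Finsupp.single i r) = (r : ℝ) • g i :=
  Finsupp.liftAddHom_apply_single _ _ _

lemma R_apply {ι : Type} (g : ι → E) (a : ι →₀ ℚ) :
    R g a = ∑ i ∈ a.support, (a i : ℝ) • g i := rfl

lemma R_smul {ι : Type} (g : ι → E) (q : ℚ) (a : ι →₀ ℚ) : R g (q • a) = (q : ℝ) • R g a := by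
  induction a using Finsupp.induction_linear with
  | zero => simp
  | add a c h h' => simp [h, h']
  | single i r => rw [Finsupp.smul_single, R_single, R_single, smul_eq_mul, Rat.cast_mul, mul_smul]

lemma graph_inj {f g : ℝ → ℝ} (h : (fun σ => (σ, f σ)) '' Function.support f =
    (fun σ => (σ, g σ)) '' Function.support g) (σ : ℝ) : f σ = g σ := by
  by_cases p : f σ = 0
  · by_contra q
    obtain ⟨τ, h1, h2⟩ := h.ge ⟨σ, fun r => q (p.trans r.symm), rfl⟩
    exact h1 ((Prod.mk.inj h2).1 ▸ p)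
  · obtain ⟨τ, -, h2⟩ := h.le ⟨σ, p, rfl⟩
    obtain ⟨rfl, h3⟩ := Prod.mk.inj h2
    exact h3.symm

namespace JL

variable {b : ℕ × ℤ → E →L[ℝ] ℝ} {L : ℝ → E →L[ℝ] ℝ} {e : ℕ × ℤ → E} {χ : ℝ → E}
  (H : JL b L e χ)
include H

lemma ext {x y : E} (h : ∀ t, b t x = b t y) : x = y :=
  sub_eq_zero.1 (norm_le_zero_iff.1 (H.nb _ 0 le_rfl fun t => by simp [h]))

lemma L_le (σ : ℝ) (x : E) : |L σ x| ≤ ‖x‖ := le_of_tendsto' (H.lim σ x).abs fun _ => H.le _ _

lemma L_eq {σ c : ℝ} {x : E} (h : ∀ᶠ k : ℕ in atTop, b (k, ⌊(k : ℝ) * σ⌋) x = c) : L σ x = c :=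
  tendsto_nhds_unique (H.lim σ x) (tendsto_const_nhds.congr'
    ((h.filter_mono Nat.hyperfilter_le_atTop).mono fun _ q => q.symm))

lemma b_cut (k : ℕ) (σ : ℝ) (t : ℕ × ℤ) :
    b t (cut e χ k σ) = if k ≤ t.1 ∧ t.2 = ⌊(t.1 : ℝ) * σ⌋ then 1 else 0 := by
  simp only [cut, map_sub, map_sum, H.be, H.bχ, Prod.ext_iff, ite_and, sum_ite_eq, mem_range]
  split_ifs <;> first | omega | simp

lemma L_e (σ : ℝ) (t : ℕ × ℤ) : L σ (e t) = 0 := H.L_eq (by
  filter_upwards [eventually_gt_atTop t.1] with k hk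
  rw [H.be, if_neg fun q => hk.ne' (congrArg Prod.fst q)])

lemma L_cut (k : ℕ) (σ τ : ℝ) : L σ (cut e χ k τ) = if σ = τ then 1 else 0 := H.L_eq (by
  filter_upwards [eventually_ge_atTop k, ev_ne (σ := σ) (τ := τ)] with l hl h
  rw [H.b_cut]
  exact if_congr ⟨fun q => h q.2, fun q => ⟨hl, by rw [q]⟩⟩ rfl rfl)

lemma norm_cut {k : ℕ} {F : Finset ℝ} (h : Sep k F) {c : ℝ → ℝ} {M : ℝ} (M0 : 0 ≤ M)
    (hc : ∀ τ ∈ F, |c τ| ≤ M) : ‖∑ τ ∈ F, c τ • cut e χ k τ‖ ≤ M := H.nb _ _ M0 fun t => by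
  simp only [map_sum, map_smul, H.b_cut, smul_eq_mul]
  by_cases q : ∃ τ ∈ F, k ≤ t.1 ∧ t.2 = ⌊(t.1 : ℝ) * τ⌋
  · obtain ⟨τ, h1, h2⟩ := q
    rw [sum_eq_single_of_mem τ h1 fun σ h3 h4 => ?_, if_pos h2, mul_one]
    · exact hc τ h1
    · rw [if_neg fun q => h4 (h _ h2.1 σ h3 τ h1 (q.2.symm.trans h2.2)), mul_zero]
  · rw [sum_eq_zero fun τ hτ => by rw [if_neg fun p => q ⟨τ, hτ, p⟩, mul_zero], abs_zero]
    exact M0

lemma approx (y : E) {δ : ℝ} (d0 : 0 < δ) : ∃ (k : ℕ) (u : ℕ × ℤ →₀ ℚ) (a : ℝ →₀ ℚ),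
    Sep k a.support ∧ ‖y - (R e u + R (cut e χ k) a)‖ < δ := by
  let D := Set.range fun p : (ℕ × ℤ →₀ ℚ) × (ℝ →₀ ℚ) => R e p.1 + R χ p.2
  let P : Submodule ℝ E :=
    { carrier := closure D
      add_mem' := fun hx hy => map_mem_closure₂ continuous_add hx hy (by
        rintro _ ⟨p, rfl⟩ _ ⟨q, rfl⟩
        exact ⟨p + q, by simp; abel⟩)
      zero_mem' := subset_closure ⟨0, by simp⟩
      smul_mem' := fun c _ hx => map_mem_closure₂ continuous_smul (Rat.denseRange_cast c) hx (by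
        rintro _ ⟨q, rfl⟩ _ ⟨p, rfl⟩
        exact ⟨q • p, by simp [R_smul]⟩) }
  obtain ⟨_, ⟨⟨u, a⟩, rfl⟩, h⟩ := Metric.mem_closure_iff.1 (H.ind P isClosed_closure
    (fun t => subset_closure ⟨(Finsupp.single t 1, 0), by simp [R_single]⟩)
    (fun t => subset_closure ⟨(0, Finsupp.single t 1), by simp [R_single]⟩) y) δ d0
  obtain ⟨k, hk⟩ := ex_sep a.support
  obtain ⟨u', hu⟩ : ∃ u', R χ a = R e u' + R (cut e χ k) a := by
    clear hk h
    induction a using Finsupp.induction_linear with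
    | zero => exact ⟨0, by simp⟩
    | add a c h h' =>
      obtain ⟨u, h⟩ := h
      obtain ⟨u', h'⟩ := h'
      exact ⟨u + u', by simp only [map_add, h, h']; abel⟩
    | single i r =>
      exact ⟨∑ l ∈ range k, Finsupp.single (l, ⌊(l : ℝ) * i⌋) r, by
        simp [map_sum, R_single, cut, smul_sub, smul_sum]⟩
  exact ⟨k, u + u', a, hk, by rwa [map_add, add_assoc, ← hu, ← dist_eq_norm]⟩

lemma L_R (k : ℕ) (u : ℕ × ℤ →₀ ℚ) (a : ℝ →₀ ℚ) (τ : ℝ) :
    L τ (R e u + R (cut e χ k) a) = a τ := by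
  simp +contextual [R_apply, H.L_e, H.L_cut]

lemma cnt (x : E) : {σ | L σ x ≠ 0}.Countable := by
  choose k u a _ h using fun m : ℕ => H.approx x (Nat.one_div_pos_of_nat (n := m))
  refine (Set.countable_iUnion fun m => (a m).support.countable_toSet).mono fun σ hσ => ?_
  obtain ⟨m, hm⟩ := exists_nat_one_div_lt (abs_pos.2 hσ)
  refine Set.mem_iUnion.2 ⟨m, Finsupp.mem_support_iff.2 fun q => ?_⟩
  have := (H.L_le σ _).trans_lt (h m)
  rw [map_sub, H.L_R, q, Rat.cast_zero, sub_zero] at this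
  linarith

lemma card_dual : #(E →L[ℝ] ℝ) ≤ 𝔠 := by
  have z : ∀ h : E →L[ℝ] ℝ, (∀ t, h (e t) = 0) → (Function.support fun σ => h (χ σ)).Countable :=
    fun h h0 => Summable.countable_support (summable_abs_iff.1 (summable_of_sum_le
      (fun _ => abs_nonneg _) (c := ‖h‖) fun F => by
        obtain ⟨k, hk⟩ := ex_sep F
        have := h.unit_le_opNorm _ (H.norm_cut hk (c := fun σ => SignType.sign (h (χ σ)))
          zero_le_one fun τ _ => by
            rcases lt_trichotomy (h (χ τ)) 0 with q | q | q <;> simp [q])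
        refine le_trans (le_of_eq ?_) ((le_abs_self _).trans this)
        simp [cut, h0]))
  refine (mk_le_mk_mul_of_mk_preimage_le (c := 𝔠) (fun f : E →L[ℝ] ℝ => fun t => f (e t))
    fun β => ?_).trans (by simp [mk_real])
  rcases Set.eq_empty_or_nonempty ((fun f : E →L[ℝ] ℝ => fun t => f (e t)) ⁻¹' {β}) with q | ⟨f, hf⟩
  · simp [q]
  have ze : ∀ g ∈ (fun f : E →L[ℝ] ℝ => fun t => f (e t)) ⁻¹' {β}, ∀ t, (g - f) (e t) = 0 :=
    fun g hg t => sub_eq_zero.2 ((congrFun hg t).trans (congrFun hf t).symm)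
  refine le_trans (mk_le_of_injective (f := fun g => (⟨(fun σ => (σ, (g.1 - f) (χ σ))) ''
    Function.support fun σ => (g.1 - f) (χ σ), mk_image_le.trans (le_aleph0_iff_set_countable.2
      (z _ (ze _ g.2)))⟩ : {t : Set (ℝ × ℝ) // #t ≤ ℵ₀})) fun g g' q => ?_)
    ((mk_bounded_set_le_of_infinite _ _).trans (by simp [mk_real]))
  refine Subtype.ext (ContinuousLinearMap.ext fun x => sub_eq_zero.1 (H.ind (g.1 - g'.1).ker
    (ContinuousLinearMap.isClosed_ker _) (fun t => sub_eq_zero.2 ((congrFun g.2 t).trans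
      (congrFun g'.2 t).symm)) (fun σ => ?_) x))
  simpa [sub_eq_zero] using graph_inj (congrArg Subtype.val q) σ

lemma card_op : #(E →L[ℝ] E) ≤ 𝔠 :=
  (mk_le_of_injective (f := fun (P : E →L[ℝ] E) t => (b t).comp P) fun _ _ h =>
    ContinuousLinearMap.ext fun x => H.ext fun t => congrArg (· x) (congrFun h t)).trans (by
      simpa using power_le_power_right (c := ℵ₀) H.card_dual)

lemma deco : ∃ v : ℕ → (E →L[ℝ] E), (∀ n, v n ≠ 0) ∧
    (∀ n m, (v n).comp (v m) = if n = m then v n else 0) ∧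
    ∀ x : E, Tendsto (fun N => ∑ n ∈ range N, v n x) atTop (𝓝 x) := by
  choose M hM using fun N : ℕ => H.mul {t | t.1 = 0 ∧ (N : ℤ) < t.2} fun σ k q => by
    obtain ⟨rfl, q⟩ := q
    simp at q
    omega
  simp only [Set.indicator, Set.mem_setOf_eq] at hM
  have M1 : ∀ N x, ‖M N x‖ ≤ ‖x‖ := fun N x => H.nb _ _ (norm_nonneg _) fun t => by
    rw [hM]; split_ifs
    · exact H.le _ _
    · simp
  let v : ℕ → E →L[ℝ] E := fun n => Nat.casesOn n (1 - M 0) fun n => M n - M (n + 1)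
  have hv : ∀ n x t, b t (v n x) = if (if t.1 = 0 ∧ 0 < t.2 then t.2 else 0) = n then b t x
      else 0 := fun n x t => by
    cases n with
    | zero =>
      change b t (x - M 0 x) = _
      rw [map_sub, hM]
      split_ifs <;> first | omega | simp
    | succ n =>
      change b t (M n x - M (n + 1) x) = _
      rw [map_sub, hM, hM]
      split_ifs <;> first | omega | simp
  refine ⟨v, fun n q => ?_, fun n m => ContinuousLinearMap.ext fun x => H.ext fun t => ?_,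
    fun x => ?_⟩
  · have := hv n (e (0, n)) (0, n)
    rw [q, H.be, if_pos (by split_ifs <;> omega), if_pos rfl] at this
    simp at this
  · rw [ContinuousLinearMap.comp_apply, hv, hv]
    by_cases q : n = m
    · rw [if_pos q, hv, q]
      split_ifs <;> rfl
    · rw [if_neg q]
      split_ifs <;> first | omega | simp
  · have s : ∀ N, ∑ n ∈ range (N + 1), v n x = x - M N x := fun N => by
      induction N with
      | zero => simp [v]
      | succ N ih => rw [sum_range_succ, ih]; simp [v]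
    rw [← tendsto_add_atTop_iff_nat 1]
    simp only [s]
    conv_rhs => rw [← sub_zero x]
    refine tendsto_const_nhds.sub (NormedAddGroup.tendsto_nhds_zero.2 fun ε e0 => ?_)
    obtain ⟨k, u, a, -, h⟩ := H.approx x e0
    filter_upwards [eventually_ge_atTop (u.support.sup fun t => t.2.toNat)] with N hN
    refine lt_of_le_of_lt (le_of_eq ?_) ((M1 N _).trans_lt h)
    congr 1
    refine H.ext fun t => ?_
    rw [hM, hM]
    split_ifs with q
    · have : t ∉ u.support := fun p => by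
        have := (le_sup (f := fun t : ℕ × ℤ => t.2.toNat) p).trans hN
        omega
      have z : t.2 ≠ 0 := by omega
      simp [R_apply, H.be, H.b_cut, this, q.1, z]
    · rfl

lemma large (v : ℕ → E →L[ℝ] E) (hv : ∀ x, Tendsto (fun N => ∑ n ∈ range N, v n x) atTop (𝓝 x)) :
    ∃ n, ∀ S : Set ℝ, #S < 𝔠 → ∃ x σ, ‖v n x‖ ≤ 3 ∧ L σ (v n x) = 1 ∧
      ∀ τ ∈ S, |L τ (v n x)| ≤ 1 / 10 := by
  classical
  by_contra hc
  simp only [not_exists, not_forall] at hc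
  choose S S1 S2 using hc
  obtain ⟨T, hT, T0, T1⟩ : ∃ T : Set ℝ, #T < 𝔠 ∧ 0 ∈ T ∧ ∀ n, S n ⊆ T :=
    ⟨insert 0 (⋃ n, S n), mk_insert_le.trans_lt (add_lt_of_lt aleph0_le_continuum
      (mk_iUnion_le_sum_mk.trans_lt ((sum_lt_prod _ (fun _ => 𝔠) S1).trans_eq (by simp)))
      (one_lt_aleph0.trans aleph0_lt_continuum)), Set.mem_insert _ _,
      fun n => (Set.subset_iUnion S n).trans (Set.subset_insert _ _)⟩
  have ex : ∀ σ : ℝ, ∃ (n m k : ℕ) (u : ℕ × ℤ →₀ ℚ) (a : ℝ →₀ ℚ), Sep k a.support ∧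
      100 * (1 / ((m : ℝ) + 1)) < |L σ (v n (χ σ))| ∧
      ‖v n (χ σ) - (R e u + R (cut e χ k) a)‖ < 1 / ((m : ℝ) + 1) := fun σ => by
    obtain ⟨n, hn⟩ : ∃ n, L σ (v n (χ σ)) ≠ 0 := by
      by_contra h
      push Not at h
      have := ((L σ).continuous.tendsto _).comp (hv (χ σ))
      have c := H.L_cut 0 σ σ
      simp only [cut, range_zero, sum_empty, sub_zero, if_true] at c
      simp [Function.comp_def, h, c] at this
    obtain ⟨m, hm⟩ := exists_nat_one_div_lt (div_pos (abs_pos.2 hn) (by norm_num : (0 : ℝ) < 100))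
    obtain ⟨k, u, a, h⟩ := H.approx (v n (χ σ)) (Nat.one_div_pos_of_nat (n := m))
    exact ⟨n, m, k, u, a, h.1, by linarith, h.2⟩
  choose n m k u a sp lo ap using ex
  haveI : Nonempty T := ⟨⟨0, T0⟩⟩
  obtain ⟨c, hc⟩ := exists_infinite_fiber (fun σ : ℝ => (n σ, m σ, k σ, u σ,
    (a σ).subtypeDomain (· ∈ T))) (by
      have : #(T →₀ ℚ) < 𝔠 := by
        rw [mk_finsupp_of_infinite']
        exact max_lt hT (by simp [aleph0_lt_continuum])
      simp only [mk_prod, lift_id, mk_real, mk_eq_aleph0]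
      iterate 4 refine mul_lt_of_lt aleph0_le_continuum aleph0_lt_continuum ?_
      exact this)
  have hc := Set.infinite_coe_iff.1 hc
  obtain ⟨σ', h'⟩ := hc.nonempty
  obtain ⟨σ, h, hσ⟩ := hc.exists_notMem_finset (a σ').support
  simp only [Set.mem_preimage, Set.mem_singleton_iff] at h h'
  simp only [← h, Prod.mk.injEq] at h'
  obtain ⟨e1, e2, e3, e4, e5⟩ := h'
  have p := ap σ
  have p' := ap σ'
  have s' := sp σ'
  have l := lo σ
  rw [e1, e2, e3, e4] at p'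
  rw [e3] at s'
  have d0 : 0 < 1 / ((m σ : ℝ) + 1) := Nat.one_div_pos_of_nat
  generalize 1 / ((m σ : ℝ) + 1) = δ at p p' l d0
  have q : ‖v (n σ) (χ σ - χ σ') - R (cut e χ (k σ)) (a σ - a σ')‖ ≤ 2 * δ := by
    rw [two_mul]
    refine le_trans (le_of_eq ?_) ((norm_sub_le _ _).trans (add_le_add p.le p'.le))
    simp only [map_sub]
    congr 1
    abel
  have q1 : ∀ τ, |L τ (v (n σ) (χ σ - χ σ')) - (a σ - a σ') τ| ≤ 2 * δ := fun τ => by
    have := H.L_R (k σ) 0 (a σ - a σ') τ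
    rw [map_zero, zero_add] at this
    rw [← this, ← map_sub]
    exact (H.L_le _ _).trans q
  have q2 : 99 * δ ≤ |((a σ - a σ') σ : ℝ)| := by
    have := (H.L_le σ _).trans_lt p
    rw [map_sub, H.L_R] at this
    rw [Finsupp.sub_apply, Finsupp.notMem_support_iff.1 hσ, sub_zero]
    linarith [abs_sub_abs_le_abs_sub (L σ (v (n σ) (χ σ))) (a σ σ)]
  have q3 : ∀ τ ∈ T, (a σ - a σ') τ = 0 := fun τ hτ =>
    sub_eq_zero.2 (DFunLike.congr_fun e5 ⟨τ, hτ⟩).symm
  have q4 : (a σ - a σ').support ⊆ (a σ).support ∪ (a σ').support := Finsupp.support_sub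
  generalize a σ - a σ' = c at q q1 q2 q3 q4
  obtain ⟨τ, -, hτ⟩ := exists_max_image c.support (fun τ => |(c τ : ℝ)|) ⟨σ,
    Finsupp.mem_support_iff.2 fun r => by rw [r, Rat.cast_zero, abs_zero] at q2; linarith⟩
  have hτ' : ∀ β, |(c β : ℝ)| ≤ |(c τ : ℝ)| := fun β => by
    by_cases r : β ∈ c.support
    · exact hτ β r
    · simp [Finsupp.notMem_support_iff.1 r]
  have q5 : ‖R (cut e χ (k σ)) c‖ ≤ |(c τ : ℝ)| + |(c τ : ℝ)| := by
    rw [R_apply, ← sum_filter_add_sum_filter_not _ (· ∈ (a σ).support)]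
    refine (norm_add_le _ _).trans (add_le_add (H.norm_cut (fun l hl x hx y hy => sp σ l hl x
      (mem_filter.1 hx).2 y (mem_filter.1 hy).2) (abs_nonneg _) fun β _ => hτ' β)
      (H.norm_cut (fun l hl x hx y hy => s' l hl x ?_ y ?_) (abs_nonneg _) fun β _ => hτ' β))
    · exact (mem_union.1 (q4 (mem_filter.1 hx).1)).resolve_left (mem_filter.1 hx).2
    · exact (mem_union.1 (q4 (mem_filter.1 hy).1)).resolve_left (mem_filter.1 hy).2
  have q6 := norm_le_insert' (v (n σ) (χ σ - χ σ')) (R (cut e χ (k σ)) c)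
  have q7 := q1 τ
  have q8 := hτ' σ
  generalize χ σ - χ σ' = x at q q1 q6 q7
  have q9 := abs_sub_abs_le_abs_sub (c τ : ℝ) (L τ (v (n σ) x))
  rw [abs_sub_comm] at q9
  have l0 : 0 < |L τ (v (n σ) x)| := by linarith
  refine S2 (n σ) ((L τ (v (n σ) x))⁻¹ • x) τ ⟨?_, ?_, fun β hβ => ?_⟩
  · rw [map_smul, norm_smul, norm_inv, Real.norm_eq_abs, inv_mul_le_iff₀ l0]
    linarith
  · rw [map_smul, map_smul, smul_eq_mul, inv_mul_cancel₀ (abs_pos.1 l0)]
  · have := q1 β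
    rw [q3 β (T1 _ hβ), Rat.cast_zero, sub_zero] at this
    rw [map_smul, map_smul, smul_eq_mul, abs_mul, abs_inv, inv_mul_le_iff₀ l0]
    linarith

end JL

end Pool.Agent.H27.NSD
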