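import Pool.Agent.H27.NSD2

/-! A Banach space with a Schauder decomposition and no normal one. -/

open Filter Topology Finset Cardinal

namespace Pool.Agent.H27.NSD

lemma renorm {E I : Type} [NormedAddCommGroup E] [NormedSpace ℝ E] [CompleteSpace E]
    (F : I → E →L[ℝ] ℝ) (hF : ∀ i x, |F i x| ≤ 11 * ‖x‖) : ∃ (X : Type) (_ : NormedAddCommGroup X)
      (_ : NormedSpace ℝ X) (_ : CompleteSpace X) (j : E ≃L[ℝ] X), (∀ i x, |F i x| ≤ ‖j x‖) ∧
        ∀ x c, ‖x‖ ≤ c → (∀ i, |F i x| ≤ c) → ‖j x‖ ≤ c := by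
  let V := lp (fun _ : I => ℝ) ⊤
  let G : E →L[ℝ] V := LinearMap.mkContinuous
    { toFun := fun x => ⟨fun i => F i x, memℓp_infty ⟨_, by rintro _ ⟨i, rfl⟩; exact hF i x⟩⟩
      map_add' := fun x y => lp.ext (funext fun i => by simp [V])
      map_smul' := fun c x => lp.ext (funext fun i => by simp [V]) } 11
    fun x => lp.norm_le_of_forall_le (by positivity) fun i => hF i x
  let N : Submodule ℝ (E × V) :=
    (ContinuousLinearMap.snd ℝ E V - G.comp (ContinuousLinearMap.fst ℝ E V)).ker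
  have Nc : IsClosed (N : Set (E × V)) := ContinuousLinearMap.isClosed_ker _
  refine ⟨N, inferInstance, inferInstance, Nc.completeSpace_coe,
    ContinuousLinearEquiv.equivOfInverse (((ContinuousLinearMap.id ℝ E).prod G).codRestrict N
      fun x => by simp [N]) ((ContinuousLinearMap.fst ℝ E V).comp N.subtypeL) (fun _ => rfl)
      fun p => Subtype.ext (Prod.ext rfl (sub_eq_zero.1 p.2).symm), fun i x => ?_,
    fun x c h h' => ?_⟩
  · exact (lp.norm_apply_le_norm (by simp) (G x) i).trans (norm_snd_le (x, G x))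
  · exact max_le h (lp.norm_le_of_forall_le (f := G x) ((norm_nonneg _).trans h) h')

lemma transfer {E X : Type} [NormedAddCommGroup E] [NormedSpace ℝ E] [NormedAddCommGroup X]
    [NormedSpace ℝ X] (j : E ≃L[ℝ] X) {v : ℕ → E →L[ℝ] E} (h1 : ∀ n, v n ≠ 0)
    (h2 : ∀ n m, (v n).comp (v m) = if n = m then v n else 0)
    (h3 : ∀ x : E, Tendsto (fun N => ∑ n ∈ range N, v n x) atTop (𝓝 x)) :
    ∃ w : ℕ → X →L[ℝ] X, (∀ n x, w n x = j (v n (j.symm x))) ∧ (∀ n, w n ≠ 0) ∧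
      (∀ n m, (w n).comp (w m) = if n = m then w n else 0) ∧
      ∀ x : X, Tendsto (fun N => ∑ n ∈ range N, w n x) atTop (𝓝 x) := by
  refine ⟨fun n => (j : E →L[ℝ] X).comp ((v n).comp (j.symm : X →L[ℝ] E)), fun _ _ => rfl, fun n q => h1 n
    (ContinuousLinearMap.ext fun x => ?_), fun n m => ContinuousLinearMap.ext fun x => ?_,
    fun x => ?_⟩
  · simpa using congrArg (· (j x)) q
  · have := congrArg (· (j.symm x)) (h2 n m)
    split_ifs at this ⊢ <;> simpa using this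
  · simpa [Function.comp_def] using (j.continuous.tendsto _).comp (h3 (j.symm x))

theorem main : ∃ (X : Type) (_ : NormedAddCommGroup X) (_ : NormedSpace ℝ X) (_ : CompleteSpace X),
    (∃ v : ℕ → (X →L[ℝ] X), (∀ n, v n ≠ 0) ∧
      (∀ n m, (v n).comp (v m) = if n = m then v n else 0) ∧
      (∀ x : X, Tendsto (fun N => ∑ n ∈ range N, v n x) atTop (𝓝 x))) ∧
    ¬ ∃ w : ℕ → (X →L[ℝ] X), (∀ n, w n ≠ 0) ∧
      (∀ n m, (w n).comp (w m) = if n = m then w n else 0) ∧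
      (∀ x : X, Tendsto (fun N => ∑ n ∈ range N, w n x) atTop (𝓝 x)) ∧ ∀ n, ‖w n‖ = 1 := by
  obtain ⟨E, i1, i2, i3, b, L, e, χ, H⟩ := space
  let I := {P : E →L[ℝ] E // (∃ z ≠ 0, P z = 0) ∧ ∀ S : Set ℝ, #S < 𝔠 → ∃ x σ, ‖P x‖ ≤ 3 ∧
    L σ (P x) = 1 ∧ ∀ τ ∈ S, |L τ (P x)| ≤ 1 / 10}
  obtain ⟨r, f, r1, hf⟩ := rec_choice (I := I) (Y := E × ℝ) ((mk_subtype_le _).trans H.card_op)
    (fun P s y => (∃ x, y.1 = P.1 x) ∧ ‖y.1‖ ≤ 3 ∧ L y.2 y.1 = 1 ∧
      ∀ p ∈ s, |L p.2 y.1| ≤ 1 / 10 ∧ L y.2 p.1 = 0) fun P s hs => by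
    obtain ⟨x, σ, h1, h2, h3⟩ := P.2.2 (⋃ p ∈ s, insert p.2 {σ | L σ p.1 ≠ 0})
      ((mk_biUnion_le _ _).trans_lt (mul_lt_of_lt aleph0_le_continuum hs (lt_of_le_of_lt
        (ciSup_le' fun p => le_aleph0_iff_set_countable.2 ((H.cnt _).insert _))
        aleph0_lt_continuum)))
    refine ⟨(P.1 x, σ), ⟨x, rfl⟩, h1, h2, fun p hp => ⟨h3 _ (Set.mem_biUnion hp
      (Set.mem_insert _ _)), ?_⟩⟩
    by_contra q
    have := h3 σ (Set.mem_biUnion hp (Set.mem_insert_of_mem _ q))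
    rw [h2] at this
    norm_num at this
  have ex : ∀ P : I, ∃ (z : E) (φ : E →L[ℝ] ℝ), P.1 z = 0 ∧ (∀ x, |φ x| ≤ ‖x‖) ∧
      10 * L (f P).2 z + φ z ≠ 0 := fun P => by
    obtain ⟨z, z0, hz⟩ := P.2.1
    by_cases q : L (f P).2 z = 0
    · obtain ⟨t, ht⟩ : ∃ t, b t z ≠ 0 := by
        by_contra h
        push Not at h
        exact z0 (H.ext fun t => by simp [h])
      exact ⟨z, b t, hz, H.le t, by simpa [q] using ht⟩
    · exact ⟨z, 0, hz, by simp, by simpa using q⟩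
  choose z φ z1 φ1 z2 using ex
  let F : I → E →L[ℝ] ℝ := fun P => (10 : ℝ) • L (f P).2 + φ P
  have hF : ∀ P x, F P x = 10 * L (f P).2 x + φ P x := fun _ _ => rfl
  have F1 : ∀ P x, |F P x| ≤ 10 * |L (f P).2 x| + ‖x‖ := fun P x => by
    have := abs_add_le (10 * L (f P).2 x) (φ P x)
    rw [abs_mul, Nat.abs_ofNat] at this
    linarith [φ1 P x, hF P x ▸ this]
  have F2 : ∀ P x, |F P x| ≤ 11 * ‖x‖ := fun P x => by linarith [F1 P x, H.L_le (f P).2 x]
  obtain ⟨X, j1, j2, j3, j, le, nb⟩ := renorm F F2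
  obtain ⟨v, v1, v2, v3⟩ := H.deco
  obtain ⟨v', -, hv⟩ := transfer j v1 v2 v3
  refine ⟨X, j1, j2, j3, ⟨v', hv⟩, fun ⟨w, w1, w2, w3, w4⟩ => ?_⟩
  obtain ⟨u, u0, u1, u2, u3⟩ := transfer j.symm w1 w2 w3
  obtain ⟨n, hn⟩ := H.large u u3
  obtain ⟨y, hy⟩ : ∃ y, u (n + 1) y ≠ 0 := by
    by_contra h
    push Not at h
    exact u1 _ (ContinuousLinearMap.ext h)
  let P : I := ⟨u n, ⟨_, hy, by simpa using congrArg (· y) (u2 n (n + 1))⟩, hn⟩
  obtain ⟨⟨x, hx⟩, g1, g2, -⟩ := hf P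
  have Pg : u n (f P).1 = (f P).1 := by
    rw [hx]
    simpa using congrArg (· x) (u2 n n)
  have g3 : ∀ Q, Q ≠ P → |F Q (f P).1| ≤ 4 := fun Q q => by
    have := F1 Q (f P).1
    rcases r1 _ _ q with q | q
    · linarith [((hf P).2.2.2 _ ⟨Q, q, rfl⟩).1]
    · rw [((hf Q).2.2.2 _ ⟨P, q, rfl⟩).2, abs_zero] at this
      linarith
  have g4 : 7 ≤ F P (f P).1 := by
    rw [hF, g2]
    linarith [neg_abs_le (φ P (f P).1), φ1 P (f P).1]
  obtain ⟨y, y1, y2, y3⟩ : ∃ y, u n y = 0 ∧ 11 * ‖y‖ ≤ 1 ∧ F P y < 0 := by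
    have z0 : 0 < ‖z P‖ := norm_pos_iff.2 fun q => z2 P (by simp [q])
    have a : ∀ s : ℝ, |s| = (11 * ‖z P‖)⁻¹ → u n (s • z P) = 0 ∧ 11 * ‖s • z P‖ ≤ 1 :=
      fun s hs => ⟨by rw [map_smul, show u n (z P) = 0 from z1 P, smul_zero], by
        rw [norm_smul, Real.norm_eq_abs, hs]
        exact le_of_eq (by field_simp)⟩
    have p : 0 < (11 * ‖z P‖)⁻¹ := by positivity
    rcases lt_or_gt_of_ne (z2 P) with q | q
    · exact ⟨_, (a _ (abs_of_pos p)).1, (a _ (abs_of_pos p)).2, by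
        rw [map_smul]; exact mul_neg_of_pos_of_neg p q⟩
    · have := a (-(11 * ‖z P‖)⁻¹) (by rw [abs_neg, abs_of_pos p])
      exact ⟨_, this.1, this.2, by rw [map_smul]; exact mul_neg_of_neg_of_pos (neg_neg_of_pos p) q⟩
  have k1 : ‖j (f P).1‖ ≤ ‖j ((f P).1 + y)‖ := by
    have := (w n).le_opNorm (j ((f P).1 + y))
    rw [w4, one_mul] at this
    refine le_trans (le_of_eq ?_) this
    have a := u0 n ((f P).1 + y)
    rw [map_add, Pg, y1, add_zero, ContinuousLinearEquiv.symm_symm] at a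
    conv_lhs => rw [a, j.apply_symm_apply]
  have k2 := nb ((f P).1 + y) (max 5 (F P (f P).1 + F P y)) (le_max_of_le_left
    ((norm_add_le _ _).trans (by linarith [norm_nonneg y]))) fun Q => by
      rw [map_add]
      have a := F2 Q y
      by_cases q : Q = P
      · rw [q] at a ⊢
        exact le_max_of_le_right (abs_of_nonneg (by linarith [neg_abs_le (F P y)])).le
      · exact le_max_of_le_left ((abs_add_le _ _).trans (by linarith [g3 Q q]))
  have k3 := ((le_abs_self _).trans (le P (f P).1)).trans (k1.trans k2)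
  rcases le_max_iff.1 k3 with q | q <;> linarith

end Pool.Agent.H27.NSD
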