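import Mathlib

namespace Pool.Agent.H27.NumIdx

open Filter Topology

variable {𝕜 : Type*} [RCLike 𝕜] {X : Type*} [NormedAddCommGroup X] [NormedSpace 𝕜 X]

def Coord (p : ℝ) (π : X →L[𝕜] 𝕜) (e : X) : Prop :=
  ∀ x u, ‖x + (u - π x) • e‖ ^ p = ‖x‖ ^ p - ‖π x‖ ^ p + ‖u‖ ^ p

lemma norming {p q : ℝ} (hpq : p.HolderConjugate q) {π : X →L[𝕜] 𝕜} {e : X} (h : Coord p π e)
    {x : X} {f : X →L[𝕜] 𝕜} (hx : ‖x‖ = 1) (hf : ‖f‖ = 1) (hfx : f x = 1) :
    f e * π x = ((‖π x‖ ^ p : ℝ) : 𝕜) ∧ ‖f e‖ = (‖π x‖ ^ p) ^ (1 / q) := by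
  set c := f e
  set a := π x
  obtain ⟨u, hu1, hu2⟩ : ∃ u : 𝕜, u * c = ((‖c‖ ^ q : ℝ) : 𝕜) ∧ ‖u‖ ^ p = ‖c‖ ^ q := by
    by_cases hc : c = 0
    · exact ⟨0, by simp [hc, hpq.symm.ne_zero], by simp [hc, hpq.ne_zero, hpq.symm.ne_zero]⟩
    · have c0 : 0 < ‖c‖ := norm_pos_iff.2 hc
      refine ⟨((‖c‖ ^ q : ℝ) : 𝕜) / c, div_mul_cancel₀ _ hc, ?_⟩
      rw [norm_div, RCLike.norm_ofReal, abs_of_nonneg (by positivity), ← Real.rpow_sub_one c0.ne',
        ← Real.rpow_mul c0.le, hpq.symm.sub_one_mul_conj]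
  have h1 := h x u
  rw [hx, Real.one_rpow] at h1
  have h2 : RCLike.re (f (x + (u - a) • e)) ≤ ‖x + (u - a) • e‖ :=
    (RCLike.re_le_norm _).trans (by simpa [hf] using f.le_opNorm (x + (u - a) • e))
  have h3 := Real.young_inequality_of_nonneg (norm_nonneg (x + (u - a) • e)) zero_le_one hpq
  rw [h1, hu2, Real.one_rpow, mul_one] at h3
  have h4 : RCLike.re (f (x + (u - a) • e)) = 1 + ‖c‖ ^ q - RCLike.re (c * a) := by
    rw [map_add, map_smul, hfx, smul_eq_mul, sub_mul, hu1, mul_comm a c]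
    simp only [map_add, map_sub, RCLike.one_re, RCLike.ofReal_re]; ring
  have h5 := RCLike.re_le_norm (c * a)
  have h6 := Real.young_inequality_of_nonneg (norm_nonneg a) (norm_nonneg c) hpq
  have s := hpq.inv_add_inv_eq_one
  have e1 : (1 - ‖a‖ ^ p + ‖c‖ ^ q) / p + 1 / q =
      1 - ‖a‖ ^ p / p + ‖c‖ ^ q - ‖c‖ ^ q / q := by
    have : q⁻¹ = 1 - p⁻¹ := by linarith
    simp only [div_eq_mul_inv, this]; ring
  rw [norm_mul] at h5
  have h7 : ‖a‖ ^ p = ‖c‖ ^ q :=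
    (Real.young_inequality_eq_iff_of_nonneg (norm_nonneg a) (norm_nonneg c) hpq).1 (by nlinarith)
  have h8 : RCLike.re (c * a) = ‖a‖ ^ p := by
    have : ‖a‖ ^ p / p + ‖a‖ ^ p / q = ‖a‖ ^ p := by
      rw [div_eq_mul_inv, div_eq_mul_inv, ← mul_add, s, mul_one]
    rw [← h7] at h6 h4 e1 h3
    nlinarith
  refine ⟨?_, ?_⟩
  · rw [← h8]
    refine (RCLike.re_eq_self_of_le ?_).symm
    rw [norm_mul]; nlinarith
  · rw [h7, ← Real.rpow_mul (norm_nonneg _), mul_one_div_cancel hpq.symm.ne_zero, Real.rpow_one]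

lemma refined {a b X Y : ℝ} (ha : 0 < a) (hb : 0 < b) (hab : a + b = 1) (hX : 0 ≤ X) (hY : 0 ≤ Y) :
    X ^ a * Y ^ b ≤ a * X + b * Y - min a b * (√X - √Y) ^ 2 := by
  wlog h : b ≤ a generalizing a b X Y
  · have := this hb ha (by linarith) hY hX (by linarith)
    rw [min_comm, mul_comm]
    have e : (√X - √Y) ^ 2 = (√Y - √X) ^ 2 := by ring
    rw [e]; linarith
  rw [min_eq_right h]
  have := Real.geom_mean_le_arith_mean2_weighted (w₁ := a - b) (w₂ := 2 * b) (p₁ := X)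
    (p₂ := √X * √Y) (by linarith) (by linarith) hX (by positivity) (by linarith)
  have e : X ^ (a - b) * (√X * √Y) ^ (2 * b) = X ^ a * Y ^ b := by
    rw [Real.rpow_mul (by positivity), Real.rpow_two, mul_pow, Real.sq_sqrt hX, Real.sq_sqrt hY,
      Real.mul_rpow hX hY, ← mul_assoc, ← Real.rpow_add' hX (by linarith)]
    congr 2; ring
  rw [e] at this
  have x := Real.sq_sqrt hX
  have y := Real.sq_sqrt hY
  nlinarith

noncomputable def kap (p q : ℝ) : ℝ := 1 / (p ^ (1 / p) * q ^ (1 / q))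

lemma scalar {p q : ℝ} (hpq : p.HolderConjugate q) : ∃ C : ℝ, 0 < C ∧ ∀ ε A B : ℝ, 0 ≤ ε → 0 ≤ A →
    0 ≤ B → A + B ≤ 1 → A ^ (1 / q) * B ^ (1 / p) + ε * |p * B - q * A| + ε ^ 2 * (p * q) ≤
      kap p q * (1 + C * ε ^ 2) := by
  have p0 := hpq.pos
  have q0 := hpq.symm.pos
  have k0 : 0 < kap p q := by unfold kap; positivity
  set κ := kap p q with hκ
  set r := min (1 / q) (1 / p)
  have r0 : 0 < r := lt_min (by positivity) (by positivity)
  refine ⟨((p + q) / (2 * κ * r) + p * q) / κ, by positivity, fun ε A B e0 A0 B0 h => ?_⟩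
  have h1 := refined (a := 1 / q) (b := 1 / p) (X := q * A) (Y := p * B) (by positivity)
    (by positivity) (by simpa [add_comm] using hpq.inv_add_inv_eq_one) (by positivity)
    (by positivity)
  have e1 : A ^ (1 / q) * B ^ (1 / p) = κ * ((q * A) ^ (1 / q) * (p * B) ^ (1 / p)) := by
    rw [Real.mul_rpow q0.le A0, Real.mul_rpow p0.le B0, hκ, kap]; field_simp
  have e2 : 1 / q * (q * A) + 1 / p * (p * B) = A + B := by field_simp
  rw [e2] at h1
  have x := Real.sq_sqrt (show 0 ≤ q * A by positivity)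
  have y := Real.sq_sqrt (show 0 ≤ p * B by positivity)
  have x0 := Real.sqrt_nonneg (q * A)
  have y0 := Real.sqrt_nonneg (p * B)
  generalize √(q * A) = s at *
  generalize √(p * B) = t at *
  have e3 : |p * B - q * A| = |s - t| * (s + t) := by
    rw [← x, ← y, abs_sub_comm, sq_sub_sq, abs_mul, abs_of_nonneg (by positivity), mul_comm]
  have h2 : ε * (|s - t| * (s + t)) ≤ κ * r * (s - t) ^ 2 + (ε * (s + t)) ^ 2 / (4 * κ * r) := by
    rw [← sq_abs (s - t), ← sub_nonneg]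
    have : κ * r * |s - t| ^ 2 + (ε * (s + t)) ^ 2 / (4 * κ * r) - ε * (|s - t| * (s + t)) =
        (2 * κ * r * |s - t| - ε * (s + t)) ^ 2 / (4 * κ * r) := by field_simp; ring
    rw [this]; positivity
  have h3 : (s + t) ^ 2 ≤ 2 * (p + q) := by nlinarith [sq_nonneg (s - t)]
  have h4 : (ε * (s + t)) ^ 2 / (4 * κ * r) ≤ ε ^ 2 * ((p + q) / (2 * κ * r)) := by
    rw [mul_pow, mul_div_assoc]; gcongr ε ^ 2 * ?_
    rw [div_le_div_iff₀ (by positivity) (by positivity)]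
    nlinarith [mul_pos k0 r0]
  have e4 : κ * (1 + ((p + q) / (2 * κ * r) + p * q) / κ * ε ^ 2) =
      κ + ε ^ 2 * ((p + q) / (2 * κ * r)) + ε ^ 2 * (p * q) := by field_simp; ring
  rw [e1, e3, e4]
  have h5 := mul_le_mul_of_nonneg_left h1 k0.le
  nlinarith

lemma small (C a : ℝ) (ha : 0 < a) : ∃ s : ℝ, 0 < s ∧ s < 1 ∧ C * s ^ a < 1 := by
  have h : Tendsto (fun s : ℝ => C * s ^ a) (𝓝[>] 0) (𝓝 (C * 0 ^ a)) :=
    ((Real.continuousAt_rpow_const 0 a (Or.inr ha.le)).tendsto.const_mul C).mono_left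
      nhdsWithin_le_nhds
  rw [Real.zero_rpow ha.ne', mul_zero] at h
  obtain ⟨s, h1, h2⟩ := ((h.eventually (gt_mem_nhds one_pos)).and (Ioo_mem_nhdsGT one_pos)).exists
  exact ⟨s, h2.1, h2.2, h1⟩

theorem main {p q : ℝ} (hpq : p.HolderConjugate q) (h2 : p ≠ 2) {πa πb : X →L[𝕜] 𝕜} {ea eb : X}
    (ha : Coord p πa ea) (hb : Coord p πb eb) (aa : πa ea = 1) (ab : πa eb = 0) (ba : πb ea = 0)
    (bb : πb eb = 1) : ∃ (φ : X →L[𝕜] 𝕜) (w : X) (c : ℝ), ‖φ.smulRight w‖ = 1 ∧ 0 ≤ c ∧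
      c < kap p q ∧ ∀ x (f : X →L[𝕜] 𝕜), ‖x‖ = 1 → ‖f‖ = 1 → f x = 1 → ‖f (φ.smulRight w x)‖ ≤ c := by
  have p0 := hpq.pos
  have p1 := hpq.lt
  have q1 := hpq.symm.lt
  have q0 := hpq.symm.pos
  have k0 : 0 < kap p q := by unfold kap; positivity
  obtain ⟨C, C0, hC⟩ := scalar hpq
  have two : ∀ s t : 𝕜, ‖s • ea + t • eb‖ ^ p = ‖s‖ ^ p + ‖t‖ ^ p := by
    intro s t
    have h1 := ha 0 s
    have h2 := hb (s • ea) t
    simp only [map_zero, sub_zero, zero_add, norm_zero, Real.zero_rpow p0.ne'] at h1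
    simp only [map_smul, ba, smul_zero, sub_zero, norm_zero, Real.zero_rpow p0.ne'] at h2
    rw [h2, h1]
  let φ : ℝ → X →L[𝕜] 𝕜 := fun ε => πb - ((ε * q : ℝ) : 𝕜) • πa
  let w : ℝ → X := fun ε => (1 : 𝕜) • ea + ((ε * p : ℝ) : 𝕜) • eb
  have hv : ∀ ε, 0 ≤ ε → ∀ x (f : X →L[𝕜] 𝕜), ‖x‖ = 1 → ‖f‖ = 1 → f x = 1 →
      ‖f ((φ ε).smulRight (w ε) x)‖ ≤ kap p q * (1 + C * ε ^ 2) := by
    intro ε e0 x f hx hf hfx
    obtain ⟨a1, a2⟩ := norming hpq ha hx hf hfx
    obtain ⟨b1, b2⟩ := norming hpq hb hx hf hfx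
    have s1 := ha x 0
    have s2 := hb (x + (0 - πa x) • ea) 0
    rw [s1, hx, map_add, map_smul, ba] at s2
    simp only [smul_zero, add_zero, norm_zero, Real.zero_rpow p0.ne', Real.one_rpow] at s2
    have s3 := Real.rpow_nonneg (norm_nonneg (x + (0 - πa x) • ea + (0 - πb x) • eb)) p
    have A0 : 0 ≤ ‖πa x‖ ^ p := by positivity
    have B0 : 0 ≤ ‖πb x‖ ^ p := by positivity
    have r : ∀ z : 𝕜, ‖z‖ = (‖z‖ ^ p) ^ (1 / p) := fun z => by
      rw [← Real.rpow_mul (norm_nonneg _), mul_one_div_cancel p0.ne', Real.rpow_one]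
    refine le_trans ?_ (hC ε _ _ e0 A0 B0 (by linarith))
    have e : f ((φ ε).smulRight (w ε) x) = f ea * πb x +
        ((ε * (p * ‖πb x‖ ^ p - q * ‖πa x‖ ^ p) : ℝ) : 𝕜) -
          ((ε ^ 2 * (p * q) : ℝ) : 𝕜) * (f eb * πa x) := by
      simp only [φ, w, ContinuousLinearMap.smulRight_apply, map_smul, map_add, smul_eq_mul,
        ContinuousLinearMap.sub_apply, ContinuousLinearMap.smul_apply]
      push_cast
      linear_combination (ε * p : 𝕜) * b1 - (ε * q : 𝕜) * a1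
    rw [e]
    refine (norm_sub_le _ _).trans (add_le_add ((norm_add_le _ _).trans (add_le_add ?_ ?_)) ?_)
    · rw [norm_mul, a2, ← r]
    · rw [RCLike.norm_ofReal, abs_mul, abs_of_nonneg e0]
    · rw [norm_mul, RCLike.norm_ofReal, abs_of_nonneg (by positivity), norm_mul, b2, r (πa x)]
      refine mul_le_of_le_one_right (by positivity) (mul_le_one₀ ?_ (by positivity) ?_)
      · exact Real.rpow_le_one B0 (by linarith) (by positivity)
      · exact Real.rpow_le_one A0 (by linarith) (by positivity)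
  have nw : ∀ ε, 0 ≤ ε → ‖w ε‖ ^ p = 1 + (ε * p) ^ p := fun ε e0 => by
    simp only [w]; rw [two, norm_one, Real.one_rpow, RCLike.norm_ofReal, abs_of_nonneg (by positivity)]
  obtain ⟨ε, e0, he⟩ : ∃ ε, 0 ≤ ε ∧ 1 + C * ε ^ 2 < ‖(φ ε).smulRight (w ε)‖ := by
    rcases lt_or_gt_of_ne h2 with h | h
    · obtain ⟨ε, e0, e1, e2⟩ := small (2 * C + C ^ 2) (2 - p) (by linarith)
      refine ⟨ε, e0.le, ?_⟩
      have n1 : ‖eb‖ = 1 := by
        have := two 0 1
        simp only [zero_smul, one_smul, zero_add, norm_zero, norm_one, Real.zero_rpow p0.ne',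
          Real.one_rpow] at this
        exact (Real.rpow_left_inj (norm_nonneg _) zero_le_one p0.ne').1 (by rw [this, Real.one_rpow])
      have n2 := ((φ ε).smulRight (w ε)).le_opNorm eb
      simp only [φ, ContinuousLinearMap.smulRight_apply, ContinuousLinearMap.sub_apply,
        ContinuousLinearMap.smul_apply, ab, bb, smul_zero, sub_zero, one_smul, n1, mul_one] at n2
      refine lt_of_lt_of_le ?_ n2
      rw [← Real.rpow_lt_rpow_iff (by positivity) (norm_nonneg _) p0, nw ε e0.le]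
      have i1 : (1 + C * ε ^ 2) ^ p ≤ (1 + C * ε ^ 2) ^ 2 := by
        rw [← Real.rpow_two (1 + C * ε ^ 2)]
        exact Real.rpow_le_rpow_of_exponent_le (by have : 0 ≤ C * ε ^ 2 := by positivity
                                                   linarith) h.le
      have i2 : ε ^ p ≤ (ε * p) ^ p := Real.rpow_le_rpow e0.le (by nlinarith) p0.le
      have i3 : ε ^ 2 = ε ^ (2 - p) * ε ^ p := by
        rw [← Real.rpow_add e0, sub_add_cancel, Real.rpow_two]
      have i4 : 0 < ε ^ p := by positivity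
      have i5 : (2 * C + C ^ 2) * ε ^ 2 < ε ^ p := by rw [i3]; nlinarith
      have i6 : ε ^ 2 ≤ 1 := by nlinarith
      have i7 : C ^ 2 * ε ^ 2 * ε ^ 2 ≤ C ^ 2 * ε ^ 2 := mul_le_of_le_one_right (by positivity) i6
      nlinarith
    · obtain ⟨s, s0, s1, s2⟩ := small (2 * C + 1) (p / 2 - 1) (by linarith)
      refine ⟨s ^ (p / 2), by positivity, ?_⟩
      have e1 : (s ^ (p / 2)) ^ 2 = s ^ p := by
        rw [← Real.rpow_two, ← Real.rpow_mul s0.le]; congr 1; ring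
      have e2 : s ^ p = s ^ (p / 2 - 1) * (s ^ (p / 2) * s) := by
        rw [← Real.rpow_add_one s0.ne', ← Real.rpow_add s0]; congr 1; ring
      have e3 : 0 < s ^ (p / 2) * s := by positivity
      have e4 : 0 < s ^ p := by positivity
      have e5 : s ^ p ≤ 1 := Real.rpow_le_one s0.le s1.le p0.le
      rw [e1]
      set ε := s ^ (p / 2)
      have e0 : 0 < ε := by positivity
      have n1 : ‖((-s : ℝ) : 𝕜) • ea + (1 : 𝕜) • eb‖ ≤ 1 + s ^ p := by
        rw [← Real.rpow_le_rpow_iff (norm_nonneg _) (by positivity) p0, two, norm_one,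
          Real.one_rpow, RCLike.norm_ofReal, abs_neg, abs_of_pos s0, add_comm]
        exact Real.self_le_rpow_of_one_le (by linarith) p1.le
      have n3 : 1 ≤ ‖w ε‖ := by
        rw [← Real.rpow_le_rpow_iff zero_le_one (norm_nonneg _) p0, nw ε e0.le, Real.one_rpow]
        have : 0 ≤ (ε * p) ^ p := by positivity
        linarith
      have n2 := ((φ ε).smulRight (w ε)).le_opNorm (((-s : ℝ) : 𝕜) • ea + (1 : 𝕜) • eb)
      have e6 : φ ε (((-s : ℝ) : 𝕜) • ea + (1 : 𝕜) • eb) = ((1 + ε * q * s : ℝ) : 𝕜) := by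
        simp only [φ, ContinuousLinearMap.sub_apply, ContinuousLinearMap.smul_apply, map_add,
          map_smul, aa, ab, ba, bb, smul_eq_mul]
        push_cast; ring
      rw [ContinuousLinearMap.smulRight_apply, e6, norm_smul, RCLike.norm_ofReal,
        abs_of_pos (by positivity)] at n2
      by_contra hn
      rw [not_lt] at hn
      have n4 : 1 + ε * q * s ≤ (1 + C * s ^ p) * (1 + s ^ p) :=
        (le_mul_of_one_le_right (by positivity) n3).trans
          (n2.trans (mul_le_mul hn n1 (norm_nonneg _) (by positivity)))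
      have i5 : (2 * C + 1) * s ^ p < ε * s := by rw [e2]; nlinarith
      have i7 : C * s ^ p * s ^ p ≤ C * s ^ p := mul_le_of_le_one_right (by positivity) e5
      nlinarith
  set N := ‖(φ ε).smulRight (w ε)‖
  have N0 : 0 < N := lt_trans (by positivity) he
  have e : (((N⁻¹ : ℝ) : 𝕜) • φ ε).smulRight (w ε) = ((N⁻¹ : ℝ) : 𝕜) • (φ ε).smulRight (w ε) := by
    ext x; simp [smul_smul]
  refine ⟨((N⁻¹ : ℝ) : 𝕜) • φ ε, w ε, N⁻¹ * (kap p q * (1 + C * ε ^ 2)), ?_, by positivity, ?_,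
    fun x f hx hf hfx => ?_⟩
  · rw [e, norm_smul, RCLike.norm_ofReal, abs_of_pos (by positivity), inv_mul_cancel₀ N0.ne']
  · rw [inv_mul_lt_iff₀ N0]; nlinarith
  · rw [e, ContinuousLinearMap.smul_apply, map_smul, norm_smul, RCLike.norm_ofReal,
      abs_of_pos (by positivity)]
    gcongr
    exact hv ε e0 x f hx hf hfx

end Pool.Agent.H27.NumIdx
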