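import Mathlib
import Pool.Agent.H27.NumIdx

namespace Pool.Agent.H27.NumIdx

open scoped ENNReal

variable {𝕜 : Type*} [RCLike 𝕜] {ι : Type*} [DecidableEq ι] {p : ℝ≥0∞} [Fact (1 ≤ p)]

lemma coord_lp (hp : 0 < p.toReal) (i : ι) :
    Coord p.toReal (lp.evalCLM 𝕜 (fun _ : ι => 𝕜) p i) (lp.single p i (1 : 𝕜)) := by
  intro x u
  have ev : ∀ y : lp (fun _ : ι => 𝕜) p, lp.evalCLM 𝕜 (fun _ : ι => 𝕜) p i y = y i := fun _ => rfl
  rw [ev]
  have h1 := lp.norm_sub_norm_compl_sub_single hp x {i}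
  have h2 := lp.norm_sub_norm_compl_sub_single hp (x + (u - x i) • lp.single p i (1 : 𝕜)) {i}
  have e1 : (x + (u - x i) • lp.single p i (1 : 𝕜) : lp (fun _ : ι => 𝕜) p) i = u := by simp
  simp only [Finset.sum_singleton, e1] at h1 h2
  have e2 : x + (u - x i) • lp.single p i (1 : 𝕜) - lp.single p i u = x - lp.single p i (x i) := by
    ext j
    by_cases h : j = i
    · subst h; simp
    · simp [h]
  rw [e2] at h2
  linarith

theorem main_lp [Nontrivial ι] (h1 : 1 < p) (ht : p ≠ ⊤) (h2 : p ≠ 2) :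
    ∃ (φ : lp (fun _ : ι => 𝕜) p →L[𝕜] 𝕜) (w : lp (fun _ : ι => 𝕜) p) (c : ℝ),
      ‖φ.smulRight w‖ = 1 ∧ 0 ≤ c ∧ c < kap p.toReal (p.toReal / (p.toReal - 1)) ∧
      ∀ x (f : lp (fun _ : ι => 𝕜) p →L[𝕜] 𝕜), ‖x‖ = 1 → ‖f‖ = 1 → f x = 1 →
        ‖f (φ.smulRight w x)‖ ≤ c := by
  obtain ⟨a, b, hab⟩ := exists_pair_ne ι
  have p1 : 1 < p.toReal := by
    rw [← ENNReal.toReal_one]; exact (ENNReal.toReal_lt_toReal (by simp) ht).2 h1
  have ev : ∀ i (y : lp (fun _ : ι => 𝕜) p), lp.evalCLM 𝕜 (fun _ : ι => 𝕜) p i y = y i :=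
    fun _ _ => rfl
  refine main (Real.HolderConjugate.conjExponent p1) (fun h => h2 ?_)
    (coord_lp (by linarith) a) (coord_lp (by linarith) b) (by simp [ev]) (by simp [ev, hab])
    (by simp [ev, hab.symm]) (by simp [ev])
  rw [← ENNReal.ofReal_toReal ht, h]; simp

end Pool.Agent.H27.NumIdx
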