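import Mathlib

set_option autoImplicit false

namespace Pool.Agent.H27.PiB

open Filter Topology Set

variable {X : Type} [NormedAddCommGroup X] [NormedSpace ℝ X]

def Unc (e : ℕ → X) : Prop := ∀ (s : Finset ℕ) (a ε : ℕ → ℝ), (∀ n, ε n = 1 ∨ ε n = -1) →
  ‖∑ n ∈ s, (ε n * a n) • e n‖ ≤ ‖∑ n ∈ s, a n • e n‖

theorem Unc.proj {e : ℕ → X} (hu : Unc e) {s t : Finset ℕ} (hst : s ⊆ t) (a : ℕ → ℝ) :
    ‖∑ n ∈ s, a n • e n‖ ≤ ‖∑ n ∈ t, a n • e n‖ := by
  classical
  have h1 := hu t a (fun n => if n ∈ s then 1 else -1) fun n => by split_ifs <;> simp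
  have h2 : (2 : ℝ) • ∑ n ∈ s, a n • e n = ∑ n ∈ t, a n • e n +
      ∑ n ∈ t, ((if n ∈ s then 1 else -1) * a n) • e n := by
    rw [← Finset.sum_add_distrib, Finset.smul_sum]
    refine Finset.sum_subset_zero_on_sdiff hst (fun n hn => ?_) fun n hn => ?_
    · simp [(Finset.mem_sdiff.1 hn).2]
    · simp [hn, two_smul]
  have h3 := congrArg norm h2
  rw [norm_smul] at h3
  have h4 := norm_add_le (∑ n ∈ t, a n • e n) (∑ n ∈ t, ((if n ∈ s then 1 else -1) * a n) • e n)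
  simp only [Real.norm_ofNat] at h3
  linarith

noncomputable abbrev T (e : ℕ → X) : (ℕ →₀ ℝ) →ₗ[ℝ] X := Finsupp.linearCombination ℝ e

theorem T_eq (e : ℕ → X) (a : ℕ →₀ ℝ) {s : Finset ℕ} (hs : a.support ⊆ s) :
    T e a = ∑ n ∈ s, a n • e n := by
  rw [Finsupp.linearCombination_apply, Finsupp.sum_of_support_subset _ hs]
  simp

theorem Unc.sign {e : ℕ → X} (hu : Unc e) {a b : ℕ →₀ ℝ} (h : ∀ n, |a n| = |b n|) :
    ‖T e a‖ ≤ ‖T e b‖ := by
  classical
  have hs : a.support ⊆ b.support := fun n hn => by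
    rw [Finsupp.mem_support_iff] at hn ⊢
    intro h0
    have := h n
    rw [h0, abs_zero, abs_eq_zero] at this
    exact hn this
  rw [T_eq e a hs, T_eq e b subset_rfl]
  refine le_trans (le_of_eq ?_) (hu b.support b (fun n => if a n = b n then 1 else -1)
    fun n => by split_ifs <;> simp)
  congr 1
  refine Finset.sum_congr rfl fun n _ => ?_
  congr 1
  split_ifs with h1
  · simp [h1]
  · rcases abs_eq_abs.1 (h n) with h2 | h2
    · exact absurd h2 h1
    · simp [h2]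

variable {ι : Type} [Fintype ι]

noncomputable def Gam (e : ℕ → X) (f : ι → X →L[ℝ] ℝ) (a : ℕ →₀ ℝ) : ℝ :=
  a.sum fun n c => |c| * ∑ i, |f i (e n)|

theorem Gam_add (e : ℕ → X) (f : ι → X →L[ℝ] ℝ) {a b : ℕ →₀ ℝ} (h : Disjoint a.support b.support) :
    Gam e f (a + b) = Gam e f a + Gam e f b :=
  Finsupp.sum_add_index_of_disjoint h _

theorem Gam_smul (e : ℕ → X) (f : ι → X →L[ℝ] ℝ) (r : ℝ) (a : ℕ →₀ ℝ) :
    Gam e f (r • a) = |r| * Gam e f a := by
  unfold Gam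
  rw [Finsupp.sum_smul_index' (by simp), Finsupp.mul_sum]
  exact Finsupp.sum_congr fun n _ => by rw [smul_eq_mul, abs_mul, mul_assoc]

theorem abs_le_Gam (e : ℕ → X) (f : ι → X →L[ℝ] ℝ) (a : ℕ →₀ ℝ) (i : ι) :
    |f i (T e a)| ≤ Gam e f a := by
  rw [T_eq e a subset_rfl, map_sum]
  refine (Finset.abs_sum_le_sum_abs _ _).trans (Finset.sum_le_sum fun n _ => ?_)
  rw [map_smul, smul_eq_mul, abs_mul]
  exact mul_le_mul_of_nonneg_left (Finset.single_le_sum (f := fun i => |f i (e n)|)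
    (fun _ _ => abs_nonneg _) (Finset.mem_univ i)) (abs_nonneg _)

theorem Gam_le {e : ℕ → X} (hu : Unc e) (f : ι → X →L[ℝ] ℝ) (a : ℕ →₀ ℝ) :
    Gam e f a ≤ (∑ i, ‖f i‖) * ‖T e a‖ := by
  unfold Gam Finsupp.sum
  simp only [Finset.mul_sum, Finset.sum_mul]
  rw [Finset.sum_comm]
  refine Finset.sum_le_sum fun i _ => ?_
  have h1 := hu a.support a (fun n => if 0 ≤ a n * f i (e n) then 1 else -1)
    fun n => by split_ifs <;> simp
  rw [← T_eq e a subset_rfl] at h1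
  refine le_trans ?_ (((le_abs_self _).trans ((f i).le_opNorm _)).trans
    (mul_le_mul_of_nonneg_left h1 (norm_nonneg _)))
  rw [map_sum]
  refine Finset.sum_le_sum fun n _ => le_of_eq ?_
  rw [map_smul, smul_eq_mul, ← abs_mul]
  split_ifs with h
  · rw [abs_of_nonneg h, one_mul]
  · rw [abs_of_neg (not_le.1 h)]; ring

def Stop (e : ℕ → X) (f : ι → X →L[ℝ] ℝ) (η : ℝ) (a : ℕ →₀ ℝ) : Prop :=
  ∃ (t : Finset ℕ) (δ : ℝ), a.support ⊆ t ∧ 0 < δ ∧ ∀ b : ℕ →₀ ℝ, Disjoint t b.support →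
    ‖T e a + T e b‖ ≤ 1 + δ → Gam e f b < η

theorem go {e : ℕ → X} (hu : Unc e) (f : ι → X →L[ℝ] ℝ) {η : ℝ} (hη : 0 < η) {a : ℕ →₀ ℝ}
    (ha : ‖T e a‖ ≤ 1) (hs : ¬ Stop e f η a) {ε : ℝ} (hε : 0 < ε) :
    ∃ a' : ℕ →₀ ℝ, ‖T e a'‖ ≤ 1 ∧ Gam e f a + η / 2 ≤ Gam e f a' ∧
      ∀ i, |f i (T e a') - f i (T e a)| ≤ ε := by
  classical
  set C := ∑ i, ‖f i‖ with hC
  have hC0 : 0 ≤ C := Finset.sum_nonneg fun _ _ => norm_nonneg _
  have hfi : ∀ i x, |f i x| ≤ C * ‖x‖ := fun i x => ((f i).le_opNorm x).trans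
    (mul_le_mul_of_nonneg_right (Finset.single_le_sum (f := fun i => ‖f i‖)
      (fun _ _ => norm_nonneg _) (Finset.mem_univ i)) (norm_nonneg _))
  obtain ⟨δ, hδ, hδ1, hδ2, hδ3⟩ : ∃ δ : ℝ, 0 < δ ∧ δ ≤ 1 ∧ δ * (C + η) ≤ η / 2 ∧ δ * C ≤ ε / 2 := by
    refine ⟨min 1 (min (η / 2 / (C + η)) (ε / 2 / (C + 1))), by positivity, min_le_left _ _, ?_, ?_⟩
    · rw [← le_div_iff₀ (by positivity)]
      exact (min_le_right _ _).trans (min_le_left _ _)
    · refine le_trans (mul_le_mul_of_nonneg_left (by linarith : C ≤ C + 1) (by positivity)) ?_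
      rw [← le_div_iff₀ (by positivity)]
      exact (min_le_right _ _).trans (min_le_right _ _)
  have h1 : ∀ t : Finset ℕ, ∃ b : ℕ →₀ ℝ, Disjoint (t ∪ a.support) b.support ∧
      ‖T e a + T e b‖ ≤ 1 + δ ∧ η ≤ Gam e f b := by
    intro t
    by_contra hc
    refine hs ⟨t ∪ a.support, δ, Finset.subset_union_right, hδ, fun b h2 h3 => ?_⟩
    by_contra h4
    exact hc ⟨b, h2, h3, not_lt.1 h4⟩
  choose b hb1 hb2 hb3 using h1
  let g : Finset ℕ → ι → ℝ := fun t i => f i (T e (b t))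
  have hg : ∀ t, g t ∈ Metric.closedBall (0 : ι → ℝ) (C * 3) := fun t => by
    rw [mem_closedBall_zero_iff, pi_norm_le_iff_of_nonneg (by positivity)]
    intro i
    refine (hfi i _).trans (mul_le_mul_of_nonneg_left ?_ hC0)
    have := norm_sub_le (T e a + T e (b t)) (T e a)
    rw [add_sub_cancel_left] at this
    linarith [hb2 t]
  obtain ⟨p, -, hp⟩ := (isCompact_closedBall (0 : ι → ℝ) (C * 3)).exists_mapClusterPt
    (f := atTop) (u := g) (le_principal_iff.2 (mem_map.2 (Eventually.of_forall hg)))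
  have h2 := mapClusterPt_iff_frequently.1 hp _ (Metric.ball_mem_nhds p (half_pos hε))
  obtain ⟨t1, ht1⟩ := h2.exists
  obtain ⟨t2, ht2, ht3⟩ := (h2.and_eventually (eventually_ge_atTop (b t1).support)).exists
  have d1 : Disjoint a.support (b t1).support := (Finset.disjoint_union_left.1 (hb1 t1)).2
  have d2 : Disjoint a.support (b t2).support := (Finset.disjoint_union_left.1 (hb1 t2)).2
  have d3 : Disjoint (b t1).support (b t2).support :=
    (Finset.disjoint_union_left.1 (hb1 t2)).1.mono_left ht3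
  have n2 : ‖T e a - T e (b t2)‖ ≤ 1 + δ := by
    refine le_trans ?_ (hb2 t2)
    rw [← map_sub, ← map_add]
    refine hu.sign fun n => ?_
    by_cases h : n ∈ a.support
    · have : b t2 n = 0 := Finsupp.notMem_support_iff.1 (Finset.disjoint_left.1 d2 h)
      simp [this]
    · simp [Finsupp.notMem_support_iff.1 h]
  let w : ℕ →₀ ℝ := a + ((1 / 2 : ℝ) • b t1 + (-1 / 2 : ℝ) • b t2)
  have hw : T e w = (1 / 2 : ℝ) • (T e a + T e (b t1)) + (1 / 2 : ℝ) • (T e a - T e (b t2)) := by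
    simp only [w, map_add, map_smul]
    module
  have nw : ‖T e w‖ ≤ 1 + δ := by
    rw [hw]
    refine (norm_add_le _ _).trans ?_
    rw [norm_smul, norm_smul]
    have := hb2 t1
    norm_num; linarith
  have gw : Gam e f a + η ≤ Gam e f w := by
    rw [Gam_add, Gam_add, Gam_smul, Gam_smul]
    · have := hb3 t1
      have := hb3 t2
      rw [abs_of_pos (by norm_num : (0 : ℝ) < 1 / 2), abs_of_neg (by norm_num : (-1 / 2 : ℝ) < 0)]
      linarith
    · exact d3.mono Finsupp.support_smul Finsupp.support_smul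
    · refine Disjoint.mono_right Finsupp.support_add (Finset.disjoint_union_right.2 ⟨?_, ?_⟩)
      · exact d1.mono_right Finsupp.support_smul
      · exact d2.mono_right Finsupp.support_smul
  have hp1 : (0 : ℝ) < 1 + δ := by linarith
  have na : ‖T e ((1 + δ)⁻¹ • w)‖ ≤ 1 := by
    rw [map_smul, norm_smul, Real.norm_eq_abs, abs_of_pos (inv_pos.2 hp1), inv_mul_le_iff₀ hp1]
    linarith
  refine ⟨(1 + δ)⁻¹ • w, na, ?_, fun i => ?_⟩
  · rw [Gam_smul, abs_of_pos (inv_pos.2 hp1), le_inv_mul_iff₀ hp1]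
    have := (Gam_le hu f a).trans (mul_le_mul_of_nonneg_left ha hC0)
    nlinarith
  · have e1 : f i (T e w) = (1 + δ) * f i (T e ((1 + δ)⁻¹ • w)) := by
      rw [map_smul, map_smul, smul_eq_mul, ← mul_assoc, mul_inv_cancel₀ hp1.ne', one_mul]
    have e2 : f i (T e w) = f i (T e a) + (g t1 i - g t2 i) / 2 := by
      simp only [w, g, map_add, map_smul, smul_eq_mul]; ring
    have e3 := (hfi i _).trans (mul_le_mul_of_nonneg_left na hC0)
    have e4 := (dist_le_pi_dist (g t1) p i).trans_lt (Metric.mem_ball.1 ht1)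
    have e5 := (dist_le_pi_dist (g t2) p i).trans_lt (Metric.mem_ball.1 ht2)
    rw [Real.dist_eq, abs_lt] at e4 e5
    rw [abs_le] at e3 ⊢
    constructor <;> nlinarith [e3.1, e3.2]

theorem stop {e : ℕ → X} (hu : Unc e) (f : ι → X →L[ℝ] ℝ) {η : ℝ} (hη : 0 < η) (m : ℕ) :
    ∀ a : ℕ →₀ ℝ, ‖T e a‖ ≤ 1 → (∑ i, ‖f i‖) - m * (η / 2) < Gam e f a → ∀ ε : ℝ, 0 < ε →
      ∃ a' : ℕ →₀ ℝ, ‖T e a'‖ ≤ 1 ∧ Stop e f η a' ∧ ∀ i, |f i (T e a') - f i (T e a)| ≤ ε := by
  induction m with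
  | zero =>
    intro a ha h
    have := (Gam_le hu f a).trans (mul_le_mul_of_nonneg_left ha
      (Finset.sum_nonneg fun _ _ => norm_nonneg _))
    simp at h; linarith
  | succ m ih =>
    intro a ha h ε hε
    by_cases hs : Stop e f η a
    · exact ⟨a, ha, hs, fun i => by simp [hε.le]⟩
    · obtain ⟨a1, h1, h2, h3⟩ := go hu f hη ha hs (half_pos hε)
      obtain ⟨a2, h4, h5, h6⟩ := ih a1 h1 (by push_cast at h; linarith) _ (half_pos hε)
      refine ⟨a2, h4, h5, fun i => ?_⟩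
      have := abs_sub_le (f i (T e a2)) (f i (T e a1)) (f i (T e a))
      linarith [h3 i, h6 i]

theorem weak_nhds {V : Set (WeakSpace ℝ X)} (hV : IsOpen V) {x0 : X}
    (hx : toWeakSpace ℝ X x0 ∈ V) : ∃ (I : Finset (X →L[ℝ] ℝ)) (ε : ℝ), 0 < ε ∧
      ∀ x, (∀ f ∈ I, |f x - f x0| < ε) → toWeakSpace ℝ X x ∈ V := by
  obtain ⟨W, hW, rfl⟩ := isOpen_induced_iff.1 hV
  obtain ⟨I, u, hu, hI⟩ := isOpen_pi_iff.1 hW _ hx
  have h1 : ∀ᶠ ε : ℝ in 𝓝[>] 0, ∀ f ∈ I, Metric.ball (f x0) ε ⊆ u f := by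
    rw [eventually_all_finset]
    intro f hf
    obtain ⟨δ, hδ, h⟩ := Metric.isOpen_iff.1 (hu f hf).1 _ (hu f hf).2
    filter_upwards [Ioo_mem_nhdsGT hδ] with ε hε
    exact (Metric.ball_subset_ball hε.2.le).trans h
  obtain ⟨ε, h2, h3⟩ := (h1.and self_mem_nhdsWithin).exists
  exact ⟨I, ε, h3, fun x hx => hI fun f hf => h2 f hf (hx f hf)⟩

theorem coords {e : ℕ → X} (hb : ∀ x : X, ∃! a : ℕ → ℝ, HasSum (fun n => a n • e n) x)
    (hu : Unc e) : ∃ c : ℕ → X →L[ℝ] ℝ, (∀ x, HasSum (fun n => c n x • e n) x) ∧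
      (∀ x t, ‖∑ n ∈ t, c n x • e n‖ ≤ ‖x‖) ∧ ∀ a n, c n (T e a) = a n := by
  classical
  choose c hc hc' using hb
  have h1 : ∀ x t, ‖∑ n ∈ t, c x n • e n‖ ≤ ‖x‖ := fun x t => by
    refine ge_of_tendsto (Tendsto.norm (hc x)) ?_
    filter_upwards [eventually_ge_atTop t] with w hw
    exact hu.proj hw _
  have h2 : ∀ a : ℕ →₀ ℝ, c (T e a) = a := fun a => by
    refine (hc' _ _ ?_).symm
    rw [T_eq e a subset_rfl]
    exact hasSum_sum_of_ne_finset_zero fun n hn => by simp [Finsupp.notMem_support_iff.1 hn]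
  have h3 : ∀ n, 0 < ‖e n‖ := fun n => norm_pos_iff.2 fun h0 => by
    have h4 := congrFun (h2 (Finsupp.single n 1)) n
    have h5 := congrFun (h2 0) n
    simp only [Finsupp.linearCombination_single, h0, smul_zero, map_zero] at h4 h5
    rw [h5] at h4
    simp at h4
  refine ⟨fun n => LinearMap.mkContinuous
    { toFun := fun x => c x n
      map_add' := fun x y => by
        have := hc' (x + y) (fun n => c x n + c y n) (by simpa [add_smul] using (hc x).add (hc y))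
        exact (congrFun this n).symm
      map_smul' := fun r x => by
        have := hc' (r • x) (fun n => r * c x n) (by simpa [mul_smul] using (hc x).const_smul r)
        exact (congrFun this n).symm } ‖e n‖⁻¹ fun x => ?_, hc, h1, fun a n => congrFun (h2 a) n⟩
  have := h1 x {n}
  rw [Finset.sum_singleton, norm_smul] at this
  rw [le_inv_mul_iff₀ (h3 n), mul_comm]
  exact this

theorem main {e : ℕ → X} (hu : Unc e) {c : ℕ → X →L[ℝ] ℝ}
    (hc : ∀ x, HasSum (fun n => c n x • e n) x) (hc1 : ∀ x t, ‖∑ n ∈ t, c n x • e n‖ ≤ ‖x‖)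
    (hc2 : ∀ a n, c n (T e a) = a n) (f : ι → X →L[ℝ] ℝ) {x0 : X} (hx0 : ‖x0‖ ≤ 1) {ε : ℝ}
    (hε : 0 < ε) : ∃ y : X, ‖y‖ ≤ 1 ∧ ∃ O : Set (ℕ → ℝ), IsOpen O ∧ (fun n => c n y) ∈ O ∧
      ∀ x : X, ‖x‖ ≤ 1 → (fun n => c n x) ∈ O → ∀ i, |f i x - f i x0| < ε := by
  classical
  have hT : ∀ (t : Finset ℕ) (x : X),
      T e (Finsupp.indicator t fun n _ => c n x) = ∑ n ∈ t, c n x • e n := fun t x => by
    rw [T_eq e _ (Finsupp.support_indicator_subset _ _)]
    exact Finset.sum_congr rfl fun n hn => by rw [Finsupp.indicator_of_mem hn]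
  have h4 : 0 < ε / 4 := by positivity
  obtain ⟨t0, ht0⟩ : ∃ t0 : Finset ℕ, ∀ i, |f i (∑ n ∈ t0, c n x0 • e n) - f i x0| < ε / 4 := by
    refine (eventually_all.2 fun i => ?_ : ∀ᶠ t0 : Finset ℕ in atTop, _).exists
    exact Metric.tendsto_nhds.1 (((f i).continuous.tendsto x0).comp (hc x0)) _ h4
  obtain ⟨m, hm⟩ := exists_nat_gt ((∑ i, ‖f i‖) / (ε / 4 / 2))
  rw [div_lt_iff₀ (by positivity)] at hm
  obtain ⟨a, ha, ⟨t, δ, hat, hδ, hs⟩, ha2⟩ := stop hu f h4 m (Finsupp.indicator t0 fun n _ => c n x0)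
    (by rw [hT]; exact (hc1 _ _).trans hx0) (by
      have : 0 ≤ Gam e f (Finsupp.indicator t0 fun n _ => c n x0) :=
        Finset.sum_nonneg fun _ _ => by positivity
      linarith) _ h4
  rw [hT] at ha2
  let P : (ℕ → ℝ) → X := fun p => ∑ n ∈ t, p n • e n
  have hP : Continuous P := by fun_prop
  have hPa : P (fun n => c n (T e a)) = T e a := by
    simp only [P, hc2]
    exact (T_eq e a hat).symm
  refine ⟨T e a, ha, {p | ‖P p - T e a‖ < δ} ∩ ⋂ i, {p | |f i (P p) - f i (T e a)| < ε / 4},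
    (isOpen_lt (by fun_prop) continuous_const).inter
      (isOpen_iInter_of_finite fun i => isOpen_lt (by fun_prop) continuous_const), ?_, ?_⟩
  · refine ⟨?_, mem_iInter.2 fun i => ?_⟩
    · simp only [mem_setOf_eq, hPa]; simpa using hδ
    · simp only [mem_setOf_eq, hPa]; simpa using hε
  · rintro x hx ⟨h1, h2⟩ i
    have h3 : |f i (P fun n => c n x) - f i (T e a)| < ε / 4 := mem_iInter.1 h2 i
    have h1' : ‖P (fun n => c n x) - T e a‖ < δ := h1
    have h5 : |f i x - f i (P fun n => c n x)| ≤ ε / 4 := by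
      refine le_of_tendsto (((((f i).continuous.tendsto x).comp (hc x)).sub_const
        (f i (P fun n => c n x))).abs) ?_
      filter_upwards [eventually_ge_atTop t] with w hw
      have e1 : ∑ n ∈ w, c n x • e n = ∑ n ∈ w \ t, c n x • e n + P fun n => c n x :=
        (Finset.sum_sdiff hw).symm
      have h6 := hs (Finsupp.indicator (w \ t) fun n _ => c n x)
        (Finset.disjoint_sdiff.mono_right (Finsupp.support_indicator_subset _ _)) (by
          rw [hT]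
          have e2 : T e a + ∑ n ∈ w \ t, c n x • e n =
              ∑ n ∈ w, c n x • e n - (P (fun n => c n x) - T e a) := by
            rw [e1]; abel
          rw [e2]
          refine (norm_sub_le _ _).trans ?_
          linarith [hc1 x w])
      have h7 := abs_le_Gam e f (Finsupp.indicator (w \ t) fun n _ => c n x) i
      rw [hT] at h7
      show |f i (∑ n ∈ w, c n x • e n) - f i (P fun n => c n x)| ≤ ε / 4
      rw [e1, map_add, add_sub_cancel_right]
      linarith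
    have h8 := ha2 i
    have h9 := ht0 i
    rw [abs_lt] at h3 h9 ⊢
    rw [abs_le] at h5 h8
    constructor <;> linarith [h3.1, h3.2, h5.1, h5.2, h8.1, h8.2, h9.1, h9.2]

end Pool.Agent.H27.PiB
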