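import Mathlib
import Pool.Agent.H27.PiB

set_option autoImplicit false

namespace Pool.Agent.H27.PiB

open Filter Topology Set

variable {X : Type} [NormedAddCommGroup X] [NormedSpace ℝ X]

theorem coords' {e : ℕ → X} (hd : DenseRange (T e)) (hu : Unc e) (h0 : ∀ n, e n ≠ 0) :
    ∃ c : ℕ → X →L[ℝ] ℝ, (∀ x, HasSum (fun n => c n x • e n) x) ∧
      (∀ x t, ‖∑ n ∈ t, c n x • e n‖ ≤ ‖x‖) ∧ ∀ a n, c n (T e a) = a n := by
  classical
  have h1 : ∀ (a : ℕ →₀ ℝ) t, ‖∑ n ∈ t, a n • e n‖ ≤ ‖T e a‖ := fun a t => by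
    rw [T_eq e a (Finset.subset_union_right (s₁ := t))]
    exact hu.proj Finset.subset_union_left _
  let c : ℕ → X →L[ℝ] ℝ := fun n => (Finsupp.lapply n : (ℕ →₀ ℝ) →ₗ[ℝ] ℝ).extendOfNorm (T e)
  have h2 : ∀ a n, c n (T e a) = a n := fun a n =>
    LinearMap.extendOfNorm_eq hd ⟨‖e n‖⁻¹, fun a => by
      have := h1 a {n}
      rw [Finset.sum_singleton, norm_smul] at this
      rw [le_inv_mul_iff₀ (norm_pos_iff.2 (h0 n)), mul_comm]
      exact this⟩ a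
  have h3 : ∀ x t, ‖∑ n ∈ t, c n x • e n‖ ≤ ‖x‖ := fun x t => by
    refine hd.induction_on x (isClosed_le (by fun_prop) continuous_norm) fun a => ?_
    simp only [h2]
    exact h1 a t
  refine ⟨c, fun x => ?_, h3, h2⟩
  refine Metric.tendsto_nhds.2 fun ε hε => ?_
  obtain ⟨a, ha⟩ := hd.exists_dist_lt x (half_pos hε)
  filter_upwards [eventually_ge_atTop a.support] with w hw
  have e1 : ∑ n ∈ w, c n x • e n - x = ∑ n ∈ w, c n (x - T e a) • e n - (x - T e a) := by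
    simp only [map_sub, sub_smul, Finset.sum_sub_distrib, h2]
    rw [← T_eq e a hw]; abel
  rw [dist_eq_norm, e1]
  rw [dist_eq_norm] at ha
  refine (norm_sub_le _ _).trans_lt ?_
  linarith [h3 (x - T e a) w]

/-- the closed unit ball with the relative weak topology -/
abbrev WB (X : Type) [NormedAddCommGroup X] [NormedSpace ℝ X] : Type :=
  {x : WeakSpace ℝ X // ‖(toWeakSpace ℝ X).symm x‖ ≤ 1}

theorem pibase_nat {e : ℕ → X} (hd : DenseRange (T e)) (hu : Unc e) (h0 : ∀ n, e n ≠ 0) :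
    ∃ 𝒰 : Set (Set (WB X)), 𝒰.Countable ∧ (∀ U ∈ 𝒰, IsOpen U ∧ U.Nonempty) ∧
      ∀ V : Set (WB X), IsOpen V → V.Nonempty → ∃ U ∈ 𝒰, U ⊆ V := by
  obtain ⟨c, hc, hc1, hc2⟩ := coords' hd hu h0
  let C : WB X → ℕ → ℝ := fun x n => c n ((toWeakSpace ℝ X).symm x.1)
  have hC : Continuous C := continuous_pi fun n =>
    (WeakBilin.eval_continuous (topDualPairing ℝ X).flip (c n)).comp continuous_subtype_val
  have hB := TopologicalSpace.isBasis_countableBasis (ℕ → ℝ)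
  refine ⟨(fun B => C ⁻¹' B) '' {B | B ∈ TopologicalSpace.countableBasis (ℕ → ℝ) ∧
    (C ⁻¹' B).Nonempty}, ((TopologicalSpace.countable_countableBasis _).mono fun B h => h.1).image _,
    ?_, ?_⟩
  · rintro _ ⟨B, hB1, rfl⟩
    exact ⟨(hB.isOpen hB1.1).preimage hC, hB1.2⟩
  · rintro V hV ⟨x0, hx0⟩
    obtain ⟨V', hV', rfl⟩ := isOpen_induced_iff.1 hV
    obtain ⟨I, ε, hε, hI⟩ := weak_nhds hV' (x0 := (toWeakSpace ℝ X).symm x0.1) hx0
    obtain ⟨y, hy, O, hO, hyO, h⟩ := main hu hc hc1 hc2 (fun f : I => f.1) x0.2 hε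
    obtain ⟨B, hB1, hB2, hB3⟩ := hB.exists_subset_of_mem_open hyO hO
    refine ⟨_, ⟨B, ⟨hB1, ⟨toWeakSpace ℝ X y, hy⟩, hB2⟩, rfl⟩, fun x hx => ?_⟩
    exact hI ((toWeakSpace ℝ X).symm x.1) fun f hf => h _ x.2 (hB3 hx) ⟨f, hf⟩

theorem pibase {κ : Type} [Countable κ] [Infinite κ] {e : κ → X}
    (hd : Dense (Submodule.span ℝ (range e) : Set X))
    (hu : ∀ (s : Finset κ) (a ε : κ → ℝ), (∀ n, ε n = 1 ∨ ε n = -1) →
      ‖∑ n ∈ s, (ε n * a n) • e n‖ ≤ ‖∑ n ∈ s, a n • e n‖) (h0 : ∀ n, e n ≠ 0) :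
    ∃ 𝒰 : Set (Set (WB X)), 𝒰.Countable ∧ (∀ U ∈ 𝒰, IsOpen U ∧ U.Nonempty) ∧
      ∀ V : Set (WB X), IsOpen V → V.Nonempty → ∃ U ∈ 𝒰, U ⊆ V := by
  obtain ⟨σ⟩ : Nonempty (ℕ ≃ κ) := nonempty_equiv_of_countable
  refine pibase_nat (e := e ∘ σ) ?_ ?_ fun n => h0 _
  · have : range (T (e ∘ σ)) = (Submodule.span ℝ (range e) : Set X) := by
      rw [← σ.surjective.range_comp e, ← Finsupp.range_linearCombination]
      rfl
    rw [DenseRange, this]
    exact hd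
  · intro s a ε hε
    have := hu (s.map σ.toEmbedding) (a ∘ σ.symm) (ε ∘ σ.symm) fun n => hε _
    simpa [Finset.sum_map] using this

theorem no_pibase [Nontrivial X]
    (h : ∀ x : X, ‖x‖ = 1 → ∀ W : Set (WB X), IsOpen W → W.Nonempty → ∀ η : ℝ, 0 < η →
      ∃ y ∈ W, 2 - η < max ‖x + (toWeakSpace ℝ X).symm y.1‖ ‖x - (toWeakSpace ℝ X).symm y.1‖)
    (𝒰 : Set (Set (WB X))) (h1 : 𝒰.Countable) (h2 : ∀ U ∈ 𝒰, IsOpen U ∧ U.Nonempty)
    (h3 : ∀ V : Set (WB X), IsOpen V → V.Nonempty → ∃ U ∈ 𝒰, U ⊆ V) : False := by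
  obtain ⟨U0, hU0, -⟩ := h3 univ isOpen_univ ⟨⟨0, by simp⟩, trivial⟩
  obtain ⟨U, hU⟩ := h1.exists_eq_range ⟨U0, hU0⟩
  have hU' : ∀ n, U n ∈ 𝒰 := fun n => hU ▸ mem_range_self n
  have step : ∀ (n : ℕ) (z : X), ∃ v : X, 1 ≤ ‖z‖ → ‖v‖ ≤ 1 ∧ ‖z‖ + 1 - (1 / 2) ^ (n + 2) ≤ ‖z + v‖ ∧
      ∃ y ∈ U n, v = (toWeakSpace ℝ X).symm y.1 ∨ v = -(toWeakSpace ℝ X).symm y.1 := by
    intro n z
    by_cases hz : 1 ≤ ‖z‖
    swap
    · exact ⟨0, fun h => absurd h hz⟩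
    have hz0 : 0 < ‖z‖ := by linarith
    have hn : ‖‖z‖⁻¹ • z‖ = 1 := by
      rw [norm_smul, norm_inv, norm_norm, inv_mul_cancel₀ hz0.ne']
    have key : ∀ v : X, ‖v‖ ≤ 1 → 2 - (1 / 2) ^ (n + 2) / (‖z‖ + 1) < ‖‖z‖⁻¹ • z + v‖ →
        ‖z‖ + 1 - (1 / 2) ^ (n + 2) ≤ ‖z + v‖ := by
      intro v hv hlt
      obtain ⟨g, hg1, hg2⟩ := exists_dual_vector'' ℝ (‖z‖⁻¹ • z + v)
      have b1 : ∀ x : X, g x ≤ ‖x‖ := fun x => (le_abs_self _).trans ((g.le_opNorm x).trans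
        (mul_le_of_le_one_left (norm_nonneg _) hg1))
      have e1 : g (‖z‖⁻¹ • z) + g v = ‖‖z‖⁻¹ • z + v‖ := by rw [← map_add]; exact hg2
      have e2 : g z = ‖z‖ * g (‖z‖⁻¹ • z) := by
        rw [map_smul, smul_eq_mul, ← mul_assoc, mul_inv_cancel₀ hz0.ne', one_mul]
      have e3 := b1 (z + v)
      rw [map_add, e2] at e3
      have e4 := b1 (‖z‖⁻¹ • z)
      have e5 := b1 v
      set η := (1 / 2 : ℝ) ^ (n + 2) / (‖z‖ + 1) with hη
      have e6 : η * (‖z‖ + 1) = (1 / 2) ^ (n + 2) := div_mul_cancel₀ _ (by positivity)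
      have e7 : 1 - η ≤ g (‖z‖⁻¹ • z) := by linarith
      have e8 : 1 - η ≤ g v := by linarith
      nlinarith
    obtain ⟨y, hy, hlt⟩ := h _ hn (U n) (h2 _ (hU' n)).1 (h2 _ (hU' n)).2
      ((1 / 2) ^ (n + 2) / (‖z‖ + 1)) (by positivity)
    rcases lt_max_iff.1 hlt with h4 | h4
    · exact ⟨_, fun _ => ⟨y.2, key _ y.2 h4, y, hy, Or.inl rfl⟩⟩
    · have h5 : ‖-(toWeakSpace ℝ X).symm y.1‖ ≤ 1 := by rw [norm_neg]; exact y.2
      exact ⟨_, fun _ => ⟨h5, key _ h5 (by rwa [← sub_eq_add_neg]), y, hy, Or.inr rfl⟩⟩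
  choose v hv using step
  obtain ⟨x, hx⟩ := exists_norm_eq X zero_le_one
  let z : ℕ → X := fun N => Nat.rec x (fun n w => w + v n w) N
  have hz : ∀ n, z (n + 1) = z n + v n (z n) := fun _ => rfl
  have hN : ∀ N : ℕ, 1 + N - (1 / 2 - (1 / 2) ^ (N + 1)) ≤ ‖z N‖ ∧ 1 ≤ ‖z N‖ := by
    intro N
    induction N with
    | zero => simp [z, hx]
    | succ N ih =>
      have h4 := (hv N _ ih.2).2.1
      rw [← hz] at h4
      have h5 : (1 / 2 : ℝ) ^ (N + 2) ≤ 1 := pow_le_one₀ (by norm_num) (by norm_num)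
      have h6 : (1 / 2 : ℝ) ^ (N + 1) = 2 * (1 / 2) ^ (N + 2) := by ring
      push_cast
      constructor <;> linarith [ih.1, ih.2]
  have hsum : ∀ N, z N = x + ∑ n ∈ Finset.range N, v n (z n) := by
    intro N
    induction N with
    | zero => simp [z]
    | succ N ih => rw [hz, Finset.sum_range_succ, ← add_assoc, ← ih]
  let K : ℕ → Set (WeakDual ℝ X) := fun N =>
    WeakDual.toStrongDual ⁻¹' Metric.closedBall 0 1 ∩ ⋂ n ∈ Finset.range N, {f | 1 / 2 ≤ f (v n (z n))}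
  have hK : ∀ N, IsClosed (K N) := fun N => (WeakDual.isClosed_closedBall 0 1).inter
    (isClosed_biInter fun n _ => isClosed_le continuous_const (WeakDual.eval_continuous _))
  obtain ⟨f, hf⟩ := IsCompact.nonempty_iInter_of_sequence_nonempty_isCompact_isClosed K
    (fun N => inter_subset_inter_right _ (biInter_subset_biInter_left
      (Finset.coe_subset.2 (Finset.range_mono (Nat.le_succ N)))))
    (fun N => by
      obtain ⟨g, hg1, hg2⟩ := exists_dual_vector'' ℝ (z N)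
      have b1 : ∀ x : X, g x ≤ ‖x‖ := fun x => (le_abs_self _).trans ((g.le_opNorm x).trans
        (mul_le_of_le_one_left (norm_nonneg _) hg1))
      refine ⟨StrongDual.toWeakDual g, mem_closedBall_zero_iff.2 hg1, mem_iInter₂.2 fun n hn => ?_⟩
      have h4 := Finset.single_le_sum (f := fun n => 1 - g (v n (z n))) (s := Finset.range N)
        (fun m _ => by linarith [b1 (v m (z m)), (hv m _ (hN m).2).1]) hn
      have h5 : g (z N) = ‖z N‖ := hg2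
      rw [hsum N, map_add, map_sum, ← hsum N] at h5
      simp only [Finset.sum_sub_distrib, Finset.sum_const, Finset.card_range, nsmul_eq_mul,
        mul_one] at h4
      have h6 : (0 : ℝ) < (1 / 2) ^ (N + 1) := by positivity
      show 1 / 2 ≤ g (v n (z n))
      linarith [b1 x, (hN N).1])
    ((WeakDual.isCompact_closedBall 0 1).of_isClosed_subset (hK 0) inter_subset_left) hK
  obtain ⟨W, hW, hWV⟩ := h3 {y | |f ((toWeakSpace ℝ X).symm y.1)| < 1 / 2}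
    (isOpen_lt (((WeakBilin.eval_continuous (topDualPairing ℝ X).flip
      (WeakDual.toStrongDual f)).comp continuous_subtype_val).abs) continuous_const)
    ⟨⟨0, by simp⟩, by simp⟩
  rw [hU] at hW
  obtain ⟨n, rfl⟩ := hW
  obtain ⟨y, hy, hyv⟩ := (hv n _ (hN n).2).2.2
  have h4 : 1 / 2 ≤ f (v n (z n)) :=
    mem_iInter₂.1 (mem_iInter.1 hf (n + 1)).2 n (Finset.self_mem_range_succ n)
  have h5 : |f ((toWeakSpace ℝ X).symm y.1)| < 1 / 2 := hWV hy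
  rw [abs_lt] at h5
  rcases hyv with h6 | h6
  · rw [h6] at h4; linarith
  · rw [h6, map_neg] at h4; linarith

end Pool.Agent.H27.PiB
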