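import Mathlib

/-! An Acosta type Banach space. -/

open Filter Topology Finset

namespace Pool.Agent.H27.PropB

lemma l1sum {ι : Type*} {F : ι → Type*} [∀ n, NormedAddCommGroup (F n)] (y : lp F 1) :
    HasSum (fun n => ‖y n‖) ‖y‖ := by simpa using lp.hasSum_norm (p := 1) (by simp) y

lemma l1le {ι : Type*} {F : ι → Type*} [∀ n, NormedAddCommGroup (F n)] (y : lp F 1)
    (s : Finset ι) : ∑ n ∈ s, ‖y n‖ ≤ ‖y‖ := sum_le_hasSum s (fun _ _ => norm_nonneg _) (l1sum y)

theorem space {K : Type} [TopologicalSpace K] [DiscreteTopology K] [DecidableEq K] (w : K → ℝ)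
    (w0 : ∀ k, 0 < w k) (w1 : ∀ k, w k ≤ 1) : ∃ (X : Type) (_ : NormedAddCommGroup X)
      (_ : NormedSpace ℝ X) (_ : CompleteSpace X) (l : K → X →L[ℝ] ℝ) (h : K → X),
        (∀ k, ‖h k‖ ≤ 1) ∧ (∀ j k, l j (h k) = if j = k then 1 else 0) ∧
        (∀ x k t, ‖x‖ ≤ 1 → |l k x + t| ≤ w k → ‖x + t • h k‖ ≤ 1) ∧
        ∀ x, ∀ η > 0, ∃ a b : K → ℝ, (∀ k, l k x = a k + w k * b k) ∧
          (∀ s : Finset K, ∑ k ∈ s, |a k| ≤ ‖x‖ + η) ∧ (∀ k, |b k| ≤ ‖x‖ + η) ∧
            Tendsto b cofinite (𝓝 0) := by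
  let E := lp (fun _ : K => ℝ) 1 × ZeroAtInftyContinuousMap K ℝ
  have b1 : ∀ (v : E) k, |v.2 k| ≤ ‖v‖ := fun v k =>
    (v.2.toBCF.norm_coe_le_norm k).trans (norm_snd_le v)
  have a1 : ∀ (v : E) (s : Finset K), ∑ k ∈ s, |v.1 k| ≤ ‖v‖ := fun v s =>
    (l1le v.1 s).trans (norm_fst_le v)
  let L : K → E →L[ℝ] ℝ := fun k => LinearMap.mkContinuous
    ⟨⟨fun v => v.1 k + w k * v.2 k, fun u v => by simp [E]; ring⟩, fun c v => by simp [E]; ring⟩ 2
    fun v => (abs_add_le _ _).trans (by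
      have := a1 v {k}
      rw [sum_singleton] at this
      rw [abs_mul, abs_of_pos (w0 k)]
      nlinarith [b1 v k, w1 k, abs_nonneg (v.2 k)])
  have hL : ∀ k v, L k v = v.1 k + w k * v.2 k := fun _ _ => rfl
  let N : Submodule ℝ E := ⨅ k, (L k).ker
  haveI : IsClosed (N : Set E) := by
    rw [Submodule.coe_iInf]
    exact isClosed_iInter fun k => (L k).isClosed_ker
  let g : K → ZeroAtInftyContinuousMap K ℝ := fun k => ⟨⟨Pi.single k 1,
    continuous_of_discreteTopology⟩, by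
      rw [cocompact_eq_cofinite]
      exact tendsto_const_nhds.congr' ((eventually_cofinite_ne k).mono fun j hj => by simp [hj])⟩
  have hg : ∀ k j, g k j = if j = k then 1 else 0 := fun k j => Pi.single_apply _ _ _
  refine ⟨E ⧸ N, inferInstance, inferInstance, inferInstance, fun k => N.liftQL (L k)
    (iInf_le _ k), fun k => N.mkQ (lp.single 1 k 1, 0), fun k => (Submodule.Quotient.norm_mk_le
      _ _).trans (by simp [E]), fun j k => ?_, fun x k t hx ht => le_of_forall_pos_le_add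
        fun η η0 => ?_, fun x η η0 => ?_⟩
  · change L j _ = _
    simp [hL, Pi.single_apply]
  · obtain ⟨v, rfl, hv⟩ := Submodule.Quotient.norm_mk_lt x η0
    change |L k v + t| ≤ _ at ht
    have : Submodule.Quotient.mk v + t • N.mkQ (lp.single 1 k 1, 0) = Submodule.Quotient.mk
        (v.1 - lp.single 1 k (v.1 k), v.2 + ((v.1 k + t) / w k) • g k) := by
      rw [← map_smul, Submodule.mkQ_apply, ← Submodule.Quotient.mk_add, Submodule.Quotient.eq,
        Submodule.mem_iInf]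
      intro j
      change L j _ = 0
      have := (w0 k).ne'
      by_cases e : j = k
      · subst e
        simp [hL, E, hg]
        field_simp
        ring
      · simp [hL, E, hg, e]
    rw [this]
    refine (Submodule.Quotient.norm_mk_le _ _).trans (norm_prod_le_iff.2 ⟨?_, ?_⟩)
    · refine (hasSum_le (fun j => ?_) (l1sum _) (l1sum v.1)).trans ((norm_fst_le v).trans (by
        linarith))
      by_cases e : j = k
      · subst e; simp
      · simp [e]
    · refine (BoundedContinuousFunction.norm_le (f := ZeroAtInftyContinuousMap.toBCF _)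
        (by linarith)).2 fun j => ?_
      change |v.2 j + (v.1 k + t) / w k * g k j| ≤ _
      rw [hg]
      split_ifs with e
      · subst e
        rw [mul_one, show v.2 j + (v.1 j + t) / w j = (L j v + t) / w j by
          rw [hL]; have := (w0 j).ne'; field_simp; ring, abs_div, abs_of_pos (w0 j)]
        exact ((div_le_one (w0 j)).2 ht).trans (by linarith)
      · rw [mul_zero, add_zero]
        linarith [b1 v j]
  · obtain ⟨v, rfl, hv⟩ := Submodule.Quotient.norm_mk_lt x η0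
    exact ⟨v.1, v.2, fun k => rfl, fun s => (a1 v s).trans hv.le, fun k => (b1 v k).trans hv.le,
      cocompact_eq_cofinite K ▸ v.2.zero_at_infty'⟩

/-- Signs. -/
def sg (b : Bool) : ℝ := if b then 1 else -1

lemma sg_abs (b : Bool) : |sg b| = 1 := by cases b <;> simp [sg]

lemma rad2 (N : ℕ) (b : Fin N → ℝ) :
    ∑ s : Fin N → Bool, (∑ j, b j * sg (s j)) ^ 2 = 2 ^ N * ∑ j, b j ^ 2 := by
  induction N with
  | zero => simp
  | succ N ih =>
    rw [← (Fin.consEquiv fun _ => Bool).sum_comp, Fintype.sum_prod_type, Fintype.sum_bool,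
      ← sum_add_distrib, Fin.sum_univ_succ, pow_succ, mul_right_comm, mul_add, ← ih, add_mul,
      sum_mul, show 2 ^ N * b 0 ^ 2 * 2 = ∑ s : Fin N → Bool, b 0 ^ 2 * 2 by simp; ring,
      ← sum_add_distrib]
    refine sum_congr rfl fun s _ => ?_
    simp [Fin.sum_univ_succ, sg]
    ring

lemma rad1 {N : ℕ} (b : Fin N → ℝ) {C r : ℝ} (hb : ∀ j, |b j| ≤ C) (C0 : 0 ≤ C) (r0 : 0 ≤ r)
    (hr : r ^ 2 = N) : ∑ s : Fin N → Bool, |∑ j, b j * sg (s j)| ≤ 2 ^ N * (r * C) := by
  refine le_of_sq_le_sq (sq_sum_le_card_mul_sum_sq.trans ?_) (by positivity)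
  simp only [sq_abs, rad2, card_univ, Fintype.card_fun, Fintype.card_bool, Fintype.card_fin]
  have : ∑ j, b j ^ 2 ≤ N * C ^ 2 := by
    simpa using sum_le_card_nsmul univ _ _ fun j _ => sq_le_sq' (abs_le.1 (hb j)).1 (abs_le.1 (hb j)).2
  push_cast
  rw [mul_pow, mul_pow, hr, sq, mul_assoc]
  gcongr

lemma dom {ι : Type*} {F : ι → Type*} [∀ n, NormedAddCommGroup (F n)] [∀ n, NormedSpace ℝ (F n)]
    {y z : lp F 1} (h1 : ‖y + z‖ ≤ ‖y‖) (h2 : ‖y - z‖ ≤ ‖y‖) (n : ι) : ‖z n‖ ≤ ‖y n‖ := by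
  have two : ∀ {i} (u v : F i), 2 * ‖u‖ ≤ ‖u + v‖ + ‖u - v‖ := fun u v => by
    have := norm_add_le (u + v) (u - v)
    rwa [add_add_sub_cancel, ← two_smul ℝ, norm_smul, Real.norm_two] at this
  have := le_hasSum (((l1sum (y + z)).add (l1sum (y - z))).sub ((l1sum y).mul_left 2)) n
    fun j _ => by simpa using two (y j) (z j)
  have a := two (z n) (y n)
  rw [add_comm (z n), norm_sub_rev] at a
  simp only [lp.coeFn_add, lp.coeFn_sub, Pi.add_apply, Pi.sub_apply] at this
  linarith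

end Pool.Agent.H27.PropB
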