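import Pool.Agent.H27.PropB1

/-! The `ℓ₁`-sum of nonzero spaces fails property B. -/

open Filter Topology Finset

namespace Pool.Agent.H27.PropB

lemma blk {A : ℕ → Type} [∀ m, Fintype (A m)] {g : (Σ m, A m) → ℝ} (g0 : ∀ k, 0 ≤ g k) {C : ℝ}
    (hg : ∀ s : Finset (Σ m, A m), ∑ k ∈ s, g k ≤ C) {ε : ℝ} (e0 : 0 < ε) :
    ∀ᶠ m in atTop, ∑ j, g ⟨m, j⟩ ≤ ε := by
  have : Summable fun m => ∑ j, g ⟨m, j⟩ :=
    summable_of_sum_le (fun m => sum_nonneg fun _ _ => g0 _) fun s => by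
      rw [sum_sigma']; exact hg _
  exact this.tendsto_atTop_zero.eventually (ge_mem_nhds e0)

lemma blk' {A : ℕ → Type} {b : (Σ m, A m) → ℝ} (hb : Tendsto b cofinite (𝓝 0)) {ε : ℝ}
    (e0 : 0 < ε) : ∀ᶠ m in atTop, ∀ j, |b ⟨m, j⟩| ≤ ε := by
  have h := (hb.abs.eventually (ge_mem_nhds (by simpa using e0 : |(0 : ℝ)| < ε)))
  rw [eventually_cofinite] at h
  rw [← Nat.cofinite_eq_atTop, eventually_cofinite]
  refine (h.image Sigma.fst).subset fun m hm => ?_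
  simp only [Set.mem_setOf_eq, not_forall] at hm
  obtain ⟨j, hj⟩ := hm
  exact ⟨⟨m, j⟩, hj, rfl⟩

lemma sub_blk {A : ℕ → Type} [∀ m, Fintype (A m)] {g : (Σ m, A m) → ℝ} (g0 : ∀ k, 0 ≤ g k)
    (t : Finset (Σ m, A m)) : ∃ M, ∑ k ∈ t, g k ≤ ∑ m ∈ range M, ∑ j, g ⟨m, j⟩ := by
  classical
  refine ⟨t.sup Sigma.fst + 1, ?_⟩
  rw [sum_sigma']
  refine sum_le_sum_of_subset_of_nonneg (fun k hk => ?_) fun _ _ _ => g0 _
  simp [Nat.lt_succ_iff, le_sup (f := Sigma.fst) hk]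

theorem main (F : ℕ → Type) [∀ n, NormedAddCommGroup (F n)] [∀ n, NormedSpace ℝ (F n)]
    [∀ n, Nontrivial (F n)] :
    ∃ (X : Type) (_ : NormedAddCommGroup X) (_ : NormedSpace ℝ X) (_ : CompleteSpace X),
      ¬ Dense {T : X →L[ℝ] lp F 1 | ∃ x : X, ‖x‖ ≤ 1 ∧ ‖T x‖ = ‖T‖} := by
  classical
  let K := Σ m : ℕ, Fin (4 ^ m)
  let I := Σ m : ℕ, (Fin (4 ^ m) → Bool)
  letI : TopologicalSpace K := ⊥
  haveI : DiscreteTopology K := ⟨rfl⟩
  haveI : Infinite I := Infinite.of_injective (fun m : ℕ => (⟨m, fun _ => true⟩ : I))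
    fun _ _ h => congrArg Sigma.fst h
  obtain ⟨e⟩ : Nonempty (ℕ ≃ I) := nonempty_equiv_of_countable
  obtain ⟨X, i1, i2, i3, l, h, h1, hl, hp, hd⟩ := space (K := K) (fun k => ((4 : ℝ) ^ k.1)⁻¹)
    (fun _ => by positivity) fun _ => inv_le_one_of_one_le₀ (one_le_pow₀ (by norm_num))
  refine ⟨X, i1, i2, i3, fun hD => ?_⟩
  choose f hf using fun n => exists_norm_eq (F n) zero_le_one
  choose φ φ1 φf using fun n => exists_dual_vector'' ℝ (f n)
  let c : I → X →L[ℝ] ℝ := fun i => ((2 : ℝ) ^ 4 ^ i.1)⁻¹ • ∑ j, sg (i.2 j) • l ⟨i.1, j⟩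
  have cb : ∀ x (t : Finset I), ∑ i ∈ t, |c i x| ≤ 3 * ‖x‖ := fun x t => by
    refine le_of_forall_pos_le_add fun η η0 => ?_
    obtain ⟨a, b, ab, ha, hb, -⟩ := hd x (η / 3) (by positivity)
    obtain ⟨M, hM⟩ := sub_blk (g := fun i : I => |c i x|) (fun _ => abs_nonneg _) t
    refine hM.trans ?_
    have : ∀ m, ∑ s, |c ⟨m, s⟩ x| ≤ ∑ j, |a ⟨m, j⟩| + (1 / 2) ^ m * (‖x‖ + η / 3) := fun m => by
      have r := rad1 (fun j => b ⟨m, j⟩) (fun j => hb _) (by positivity)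
        (show (0 : ℝ) ≤ 2 ^ m by positivity) (by push_cast; rw [← pow_mul, pow_mul']; norm_num)
      have q : ∀ s, |c ⟨m, s⟩ x| ≤ ((2 : ℝ) ^ 4 ^ m)⁻¹ * (∑ j, |a ⟨m, j⟩| +
          ((4 : ℝ) ^ m)⁻¹ * |∑ j, b ⟨m, j⟩ * sg (s j)|) := fun s => by
        simp only [c, ContinuousLinearMap.smul_apply, ContinuousLinearMap.sum_apply, smul_eq_mul,
          abs_mul, ab]
        rw [abs_of_pos (by positivity)]
        gcongr
        simp only [mul_add, sum_add_distrib]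
        refine (abs_add_le _ _).trans (add_le_add ((abs_sum_le_sum_abs _ _).trans
          (by simp [abs_mul, sg_abs])) (le_of_eq ?_))
        rw [← abs_of_pos (show (0 : ℝ) < (4 ^ m)⁻¹ by positivity), ← abs_mul, mul_sum, abs_of_pos
          (show (0 : ℝ) < (4 ^ m)⁻¹ by positivity)]
        congr 1
        exact sum_congr rfl fun _ _ => by ring
      refine (sum_le_sum fun s _ => q s).trans ?_
      rw [← mul_sum, sum_add_distrib, ← mul_sum, inv_mul_le_iff₀ (by positivity), mul_add]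
      refine add_le_add (by simp) ((mul_le_mul_of_nonneg_left r (by positivity)).trans_eq ?_)
      rw [show (4 : ℝ) ^ m = 2 ^ m * 2 ^ m by rw [← mul_pow]; norm_num, one_div, inv_pow]
      field_simp
    refine (sum_le_sum fun m _ => this m).trans ?_
    rw [sum_add_distrib, sum_sigma', ← sum_mul]
    have g2 := sum_geometric_two_le M
    have g3 := ha ((range M).sigma fun _ => univ)
    have : 0 ≤ ‖x‖ + η / 3 := by positivity
    nlinarith
  have cb' : ∀ x (t : Finset ℕ), ∑ n ∈ t, ‖c (e n) x • f n‖ ^ (1 : ENNReal).toReal ≤ 3 * ‖x‖ :=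
    fun x t => by simpa [norm_smul, hf] using cb x (t.map e.toEmbedding)
  let T : X →L[ℝ] lp F 1 := LinearMap.mkContinuous
    { toFun := fun x => ⟨fun n => c (e n) x • f n, memℓp_gen' (cb' x)⟩
      map_add' := fun x y => lp.ext (funext fun n => by simp [add_smul])
      map_smul' := fun r x => lp.ext (funext fun n => by simp [mul_smul]) } 3
    fun x => lp.norm_le_of_forall_sum_le (by simp) (by positivity) fun t => by
      simpa using cb' x t
  have hT : ∀ x n, T x n = c (e n) x • f n := fun _ _ => rfl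
  obtain ⟨S, ⟨x, x1, hx⟩, hS⟩ := hD.exists_dist_lt T (show (0 : ℝ) < 1 / 2 by norm_num)
  obtain ⟨a, b, ab, ha, -, hb⟩ := hd x 1 one_pos
  obtain ⟨m, ⟨m1, m2⟩, m3⟩ := (((blk (g := fun k : K => |a k|) (fun _ => abs_nonneg _) ha
    (show (0 : ℝ) < 1 / 4 by norm_num)).and (blk' hb (show (0 : ℝ) < 1 / 4 by norm_num))).and
    (blk (g := fun i : I => ‖S x (e.symm i)‖) (fun _ => norm_nonneg _) (C := ‖S x‖)
      (fun t => by simpa using l1le (S x) (t.map e.symm.toEmbedding))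
      (show (0 : ℝ) < 1 / 8 by norm_num))).exists
  let θ : Fin (4 ^ m) → ℝ := fun j => max (((4 : ℝ) ^ m)⁻¹ - |l ⟨m, j⟩ x|) 0
  have θ0 : ∀ j, 0 ≤ θ j := fun j => le_max_right _ _
  have θ1 : 1 / 2 ≤ ∑ j, θ j := by
    have : ∀ j, ((4 : ℝ) ^ m)⁻¹ * (3 / 4) - |a ⟨m, j⟩| ≤ θ j := fun j => by
      refine le_trans ?_ (le_max_left _ _)
      have := abs_add_le (a ⟨m, j⟩) (((4 : ℝ) ^ m)⁻¹ * b ⟨m, j⟩)
      rw [abs_mul, abs_of_pos (show (0 : ℝ) < (4 ^ m)⁻¹ by positivity)] at this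
      have := mul_le_mul_of_nonneg_left (m2 j) (show (0 : ℝ) ≤ (4 ^ m)⁻¹ by positivity)
      rw [ab]
      linarith
    refine le_trans ?_ (sum_le_sum fun j _ => this j)
    rw [sum_sub_distrib, sum_const, card_univ, Fintype.card_fin, nsmul_eq_mul, ← mul_assoc]
    push_cast
    rw [mul_inv_cancel₀ (by positivity)]
    linarith
  have pert : ∀ t : Fin (4 ^ m) → ℝ, (∀ j, |t j| ≤ θ j) → ∀ u : Finset (Fin (4 ^ m)),
      ‖x + ∑ j ∈ u, t j • h ⟨m, j⟩‖ ≤ 1 := fun t ht u => by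
    induction u using Finset.induction_on with
    | empty => simpa using x1
    | insert j u hj ih =>
      rw [sum_insert hj, add_comm (t j • _), ← add_assoc]
      rcases le_total (((4 : ℝ) ^ m)⁻¹ - |l ⟨m, j⟩ x|) 0 with q | q
      · have : t j = 0 := abs_nonpos_iff.1 ((ht j).trans_eq (max_eq_right q))
        simpa [this] using ih
      · refine hp _ _ _ ih ?_
        have : l ⟨m, j⟩ (∑ i ∈ u, t i • h ⟨m, i⟩) = 0 := by
          rw [map_sum]
          refine sum_eq_zero fun i hi => ?_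
          rw [map_smul, hl, if_neg, smul_zero]
          intro q
          exact hj (eq_of_heq (Sigma.mk.inj q).2 ▸ hi)
        rw [map_add, this, add_zero]
        have := (ht j).trans_eq (max_eq_left q)
        have := abs_add_le (l ⟨m, j⟩ x) (t j)
        linarith
  have key : ∀ n, ∑ j, θ j * |φ n (S (h ⟨m, j⟩) n)| ≤ ‖S x n‖ := fun n => by
    let t : Fin (4 ^ m) → ℝ := fun j => θ j * sg (decide (0 ≤ φ n (S (h ⟨m, j⟩) n)))
    have ht : ∀ j, |t j| ≤ θ j := fun j => by simp [t, abs_mul, sg_abs, abs_of_nonneg (θ0 j)]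
    have d := dom (y := S x) (z := S (∑ j, t j • h ⟨m, j⟩)) (by
      rw [← map_add, hx]
      exact S.unit_le_opNorm _ (pert t ht _)) (by
      rw [← map_sub, hx]
      refine S.unit_le_opNorm _ ?_
      simpa [sub_eq_add_neg] using pert (fun j => -t j) (by simpa using ht) univ) n
    refine le_trans ?_ (((le_abs_self _).trans ((φ n).le_of_opNorm_le (φ1 n) _)).trans
      ((one_mul _).trans_le d))
    rw [map_sum, lp.coeFn_sum, Finset.sum_apply, map_sum]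
    refine sum_le_sum fun j _ => le_of_eq ?_
    rw [map_smul, lp.coeFn_smul, Pi.smul_apply, map_smul, smul_eq_mul, mul_assoc]
    congr 1
    by_cases q : 0 ≤ φ n (S (h ⟨m, j⟩) n)
    · simp [sg, q, abs_of_nonneg q]
    · simp [sg, q, abs_of_neg (not_le.1 q)]
  have low : ∀ j, 1 / 2 ≤ ∑ s, |φ (e.symm ⟨m, s⟩) (S (h ⟨m, j⟩) (e.symm ⟨m, s⟩))| := fun j => by
    have q : ∀ s, ((2 : ℝ) ^ 4 ^ m)⁻¹ - ‖(T - S) (h ⟨m, j⟩) (e.symm ⟨m, s⟩)‖ ≤
        |φ (e.symm ⟨m, s⟩) (S (h ⟨m, j⟩) (e.symm ⟨m, s⟩))| := fun s => by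
      set n := e.symm ⟨m, s⟩ with hn
      have q1 : |φ n (T (h ⟨m, j⟩) n)| = ((2 : ℝ) ^ 4 ^ m)⁻¹ := by
        rw [hT, map_smul, φf, hf, hn, e.apply_symm_apply]
        simp [c, hl, abs_mul, sg_abs, K]
      have q2 : |φ n ((T - S) (h ⟨m, j⟩) n)| ≤ _ := (φ n).le_of_opNorm_le (φ1 n) _
      rw [one_mul] at q2
      have q3 := abs_sub_abs_le_abs_sub (φ n (T (h ⟨m, j⟩) n)) (φ n (S (h ⟨m, j⟩) n))
      rw [← map_sub] at q3
      change _ ≤ |φ n ((T - S) (h ⟨m, j⟩) n)| at q3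
      linarith
    refine le_trans ?_ (sum_le_sum fun s _ => q s)
    have q1 := l1le ((T - S) (h ⟨m, j⟩)) (univ.map ⟨fun s => e.symm ⟨m, s⟩,
      e.symm.injective.comp sigma_mk_injective⟩)
    have q2 := (T - S).unit_le_opNorm _ (h1 ⟨m, j⟩)
    rw [dist_eq_norm] at hS
    rw [sum_map] at q1
    rw [sum_sub_distrib, sum_const, card_univ, Fintype.card_fun, Fintype.card_bool,
      Fintype.card_fin, nsmul_eq_mul, Nat.cast_pow, Nat.cast_ofNat,
      mul_inv_cancel₀ (by positivity)]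
    simp only [Function.Embedding.coeFn_mk] at q1
    linarith
  have := (sum_le_sum fun s _ => key (e.symm ⟨m, s⟩)).trans m3
  rw [sum_comm] at this
  have q : ∑ j, θ j * (1 / 2) ≤ _ := (sum_le_sum fun j _ => by
    rw [← mul_sum]; exact mul_le_mul_of_nonneg_left (low j) (θ0 j)).trans this
  rw [← sum_mul] at q
  linarith

end Pool.Agent.H27.PropB
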