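import Mathlib

open MeasureTheory Set Filter Topology Metric UnitAddTorus
open scoped ComplexConjugate

namespace Pool.Agent.H27.Rein

variable {n : ℕ}

noncomputable def rot (θ : UnitAddTorus (Fin n)) (z : Fin n → ℂ) : Fin n → ℂ :=
  fun j => fourier 1 (θ j) * z j

noncomputable def mon (γ : Fin n → ℤ) (z : Fin n → ℂ) : ℂ := ∏ j, z j ^ γ j

noncomputable abbrev tau (n : ℕ) : Measure (UnitAddTorus (Fin n)) :=
  Measure.pi fun _ => AddCircle.haarAddCircle

def Inv (S : Set (Fin n → ℂ)) : Prop := ∀ θ, ∀ z ∈ S, rot θ z ∈ S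

def Ust (n : ℕ) : Set (Fin n → ℂ) := {z | ∀ j, z j ≠ 0}

lemma cont_rot : Continuous fun p : UnitAddTorus (Fin n) × (Fin n → ℂ) => rot p.1 p.2 := by
  unfold rot; fun_prop

lemma norm_f (k : ℤ) (x : UnitAddCircle) : ‖fourier k x‖ = 1 := by simp [fourier_apply]

lemma f_ne (k : ℤ) (x : UnitAddCircle) : fourier k x ≠ 0 := norm_ne_zero_iff.1 (by simp [norm_f])

lemma norm_mF (γ : Fin n → ℤ) (θ : UnitAddTorus (Fin n)) : ‖mFourier γ θ‖ = 1 := by
  simp [mFourier, norm_f]

lemma rot_add (θ η : UnitAddTorus (Fin n)) (z : Fin n → ℂ) : rot (θ + η) z = rot θ (rot η z) := by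
  ext j; simp [rot, AddCircle.toCircle_add, mul_assoc]

lemma rot_zero (z : Fin n → ℂ) : rot 0 z = z := by ext j; simp [rot]

lemma rot_neg (θ : UnitAddTorus (Fin n)) (z : Fin n → ℂ) : rot (-θ) (rot θ z) = z := by
  rw [← rot_add, neg_add_cancel, rot_zero]

lemma mF_add (γ : Fin n → ℤ) (θ η : UnitAddTorus (Fin n)) :
    mFourier γ (θ + η) = mFourier γ θ * mFourier γ η := by
  simp [mFourier, fourier_apply, AddCircle.toCircle_add, Finset.prod_mul_distrib]

lemma mon_rot (γ : Fin n → ℤ) (θ : UnitAddTorus (Fin n)) (z : Fin n → ℂ) :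
    mon γ (rot θ z) = mFourier γ θ * mon γ z := by
  simp [mon, rot, mFourier, fourier_apply, AddCircle.toCircle_zsmul, mul_zpow,
    Finset.prod_mul_distrib]

lemma dist_rot (θ : UnitAddTorus (Fin n)) (z w : Fin n → ℂ) :
    dist (rot θ z) (rot θ w) = dist z w := by
  simp only [dist_pi_def, rot, nndist_eq_nnnorm, ← mul_sub, nnnorm_mul]
  congr 2; ext j
  simp [fourier_apply]

lemma inv_Ust : Inv (Ust n) := fun θ _ hz j => mul_ne_zero (f_ne _ _) (hz j)

lemma open_Ust : IsOpen (Ust n) := by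
  have : Ust n = ⋂ j, {z | z j ≠ 0} := by ext; simp [Ust]
  rw [this]
  exact isOpen_iInter_of_finite fun j => isOpen_ne_fun (by fun_prop) continuous_const

lemma ae_Ust : ∀ᵐ z : Fin n → ℂ, z ∈ Ust n := ae_all_iff.2 fun j => Measure.ae_eval_ne _ j 0

lemma dense_Ust : Dense (Ust n) := Measure.dense_of_ae ae_Ust

lemma mon_ne (γ : Fin n → ℤ) {z : Fin n → ℂ} (hz : z ∈ Ust n) : mon γ z ≠ 0 :=
  Finset.prod_ne_zero_iff.2 fun j _ => zpow_ne_zero _ (hz j)

lemma mon_add (α β : Fin n → ℤ) {z : Fin n → ℂ} (hz : z ∈ Ust n) :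
    mon (α + β) z = mon α z * mon β z := by
  simp only [mon, ← Finset.prod_mul_distrib, Pi.add_apply]
  exact Finset.prod_congr rfl fun j _ => zpow_add₀ (hz j) _ _

lemma diff_mon (γ : Fin n → ℤ) {z : Fin n → ℂ} (hz : ∀ j, z j ≠ 0 ∨ 0 ≤ γ j) :
    DifferentiableAt ℂ (mon γ) z := by
  unfold mon
  have : ∀ j, DifferentiableAt ℂ (fun z : Fin n → ℂ => z j ^ γ j) z := fun j =>
    DifferentiableAt.comp (g := fun w : ℂ => w ^ γ j) (f := fun z : Fin n → ℂ => z j) z
      (differentiableAt_zpow.2 (hz j)) (differentiableAt_apply (𝕜 := ℂ) j z)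
  exact (HasFDerivAt.finsetProd (u := Finset.univ) fun j _ => (this j).hasFDerivAt).differentiableAt

lemma cont_mon (γ : Fin n → ℤ) : ContinuousOn (mon γ) (Ust n) := fun _ hz =>
  (diff_mon γ fun j => Or.inl (hz j)).continuousAt.continuousWithinAt

lemma ball_conn (c : ℂ) {r : ℝ} (hr : 0 < r) : IsPreconnected (ball c r \ {0}) := by
  by_cases h : (0:ℂ) ∈ ball c r
  · let e := OpenPartialHomeomorph.univBall (E := ℂ) c r
    have hs : e.source = univ := OpenPartialHomeomorph.univBall_source c r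
    have ht : e.target = ball c r := OpenPartialHomeomorph.univBall_target c hr
    have : ball c r \ {0} = e '' {e.symm 0}ᶜ := by
      ext w
      constructor
      · rintro ⟨h1, h2⟩
        refine ⟨e.symm w, fun h3 => h2 ?_, e.right_inv (ht ▸ h1)⟩
        exact e.symm.injOn (show w ∈ e.target from ht ▸ h1) (show 0 ∈ e.target from ht ▸ h) h3
      · rintro ⟨u, hu, rfl⟩
        refine ⟨ht ▸ e.map_source (hs ▸ mem_univ u), fun h3 => hu ?_⟩
        rw [mem_singleton_iff] at h3 ⊢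
        rw [← h3, e.left_inv (hs ▸ mem_univ u)]
    rw [this]
    exact (isConnected_compl_singleton_of_one_lt_rank (by simp) _).2.image _
      (e.continuousOn.mono (hs ▸ subset_univ _))
  · rw [diff_singleton_eq_self h]; exact (convex_ball c r).isPreconnected

lemma const_of {Ω : Set (Fin n → ℂ)} (ho : IsOpen Ω) (hc : IsPreconnected Ω)
    {G : (Fin n → ℂ) → ℂ} (hG : ∀ z ∈ Ω ∩ Ust n, HasFDerivAt G (0 : (Fin n → ℂ) →L[ℂ] ℂ) z) :
    ∃ a, ∀ z ∈ Ω ∩ Ust n, G z = a := by
  have loc : ∀ p ∈ Ω, ∃ r > 0, ∀ x ∈ ball p r ∩ Ust n, ∀ y ∈ ball p r ∩ Ust n, G x = G y := by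
    intro p hp
    obtain ⟨r, r0, hr⟩ := Metric.isOpen_iff.1 ho p hp
    refine ⟨r, r0, fun x hx y hy => ?_⟩
    have hpc : IsPreconnected (ball p r ∩ Ust n) := by
      have : ball p r ∩ Ust n = Set.pi univ fun j => ball (p j) r \ {0} := by
        rw [ball_pi _ r0]; ext z; simp [Ust, forall_and]
      rw [this]
      exact isPreconnected_univ_pi fun j => ball_conn _ r0
    exact (isOpen_ball.inter open_Ust).is_const_of_fderiv_eq_zero (𝕜 := ℂ) hpc
      (fun z hz => (hG z ⟨hr hz.1, hz.2⟩).differentiableAt.differentiableWithinAt)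
      (fun z hz => (hG z ⟨hr hz.1, hz.2⟩).fderiv) hx hy
  rcases (Ω ∩ Ust n).eq_empty_or_nonempty with h | ⟨z0, h0⟩
  · exact ⟨0, by simp [h]⟩
  refine ⟨G z0, fun z hz => ?_⟩
  have : Ω ⊆ {p | ∀ᶠ q in 𝓝 p, q ∈ Ust n → G q = G z0} := by
    refine hc.subset_of_closure_inter_subset isOpen_setOf_eventually_nhds ⟨z0, h0.1, ?_⟩ ?_
    · obtain ⟨r, r0, hr⟩ := loc z0 h0.1
      filter_upwards [ball_mem_nhds z0 r0] with q hq hq'
      exact hr q ⟨hq, hq'⟩ z0 ⟨mem_ball_self r0, h0.2⟩
    · rintro p ⟨hp, hp'⟩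
      obtain ⟨r, r0, hr⟩ := loc p hp'
      obtain ⟨q, hq, hq'⟩ := mem_closure_iff.1 hp _ isOpen_ball (mem_ball_self r0)
      obtain ⟨u, hu, hu'⟩ := dense_Ust.inter_nhds_nonempty
        (inter_mem (isOpen_ball.mem_nhds hq) hq')
      filter_upwards [ball_mem_nhds p r0] with x hx hx'
      rw [hr x ⟨hx, hx'⟩ u ⟨hu'.1, hu⟩]
      exact hu'.2 hu
  exact (this hz.1).self_of_nhds hz.2

noncomputable def rotL (θ : UnitAddTorus (Fin n)) : (Fin n → ℂ) →L[ℂ] (Fin n → ℂ) :=
  ContinuousLinearMap.pi fun j => fourier 1 (θ j) • ContinuousLinearMap.proj j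

lemma rotL_apply (θ : UnitAddTorus (Fin n)) (z : Fin n → ℂ) : rotL θ z = rot θ z := rfl

lemma cont_rotL : Continuous (rotL (n := n)) := by
  rw [continuous_clm_apply]
  intro z
  exact cont_rot.comp (Continuous.prodMk_left z)

lemma norm_rotL (θ : UnitAddTorus (Fin n)) : ‖rotL θ‖ ≤ 1 :=
  ContinuousLinearMap.opNorm_le_bound _ zero_le_one fun z => by
    have := dist_rot θ z 0
    rw [← rotL_apply, ← rotL_apply, map_zero, dist_zero_right, dist_zero_right] at this
    rw [this, one_mul]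

noncomputable def Fc (h : (Fin n → ℂ) → ℂ) (γ : Fin n → ℤ) (z : Fin n → ℂ) : ℂ :=
  ∫ θ, mFourier (-γ) θ * h (rot θ z) ∂(tau n)

variable {Ω : Set (Fin n → ℂ)} {h : (Fin n → ℂ) → ℂ}

lemma cont_orb (hi : Inv Ω) (hh : ContinuousOn h Ω) {z : Fin n → ℂ} (hz : z ∈ Ω) :
    Continuous fun θ => h (rot θ z) :=
  hh.comp_continuous (cont_rot.comp (Continuous.prodMk_left z)) fun θ => hi θ z hz

lemma diff_Fc (ho : IsOpen Ω) (hi : Inv Ω) (hh : DifferentiableOn ℂ h Ω) (γ : Fin n → ℤ)
    {z : Fin n → ℂ} (hz : z ∈ Ω) : DifferentiableAt ℂ (Fc h γ) z := by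
  obtain ⟨ε, ε0, hε⟩ := nhds_basis_closedBall.mem_iff.1 (ho.mem_nhds hz)
  have hC : IsCompact ((fun p : UnitAddTorus (Fin n) × (Fin n → ℂ) => rot p.1 p.2) ''
      (univ ×ˢ closedBall z ε)) :=
    (isCompact_univ.prod (isCompact_closedBall z ε)).image cont_rot
  obtain ⟨M, hM⟩ := hC.exists_bound_of_continuousOn (hh.continuousOn.mono (by
    rintro _ ⟨p, hp, rfl⟩; exact hi _ _ (hε hp.2)))
  have hM' : ∀ θ, ∀ x ∈ closedBall z ε, ‖h (rot θ x)‖ ≤ M := fun θ x hx =>
    hM _ ⟨(θ, x), ⟨mem_univ _, hx⟩, rfl⟩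
  have hb : ball z (ε / 2) ⊆ Ω := fun x hx => hε (ball_subset_closedBall (ball_subset_ball
    (by linarith) hx))
  have hint : ∀ x ∈ Ω, Integrable (fun θ => mFourier (-γ) θ * h (rot θ x)) (tau n) := fun x hx =>
    ((mFourier (-γ)).continuous.mul (cont_orb hi hh.continuousOn hx)).integrable_of_hasCompactSupport
      (HasCompactSupport.of_compactSpace _)
  refine (hasFDerivAt_integral_of_dominated_of_fderiv_le (𝕜 := ℂ) (μ := tau n)
    (F := fun x θ => mFourier (-γ) θ * h (rot θ x))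
    (F' := fun x θ => mFourier (-γ) θ • (fderiv ℂ h (rot θ x)).comp (rotL θ))
    (bound := fun _ => 2 * M / (ε / 2)) (ball_mem_nhds z (half_pos ε0)) ?_ (hint z hz) ?_ ?_
    (integrable_const _) ?_).differentiableAt
  · filter_upwards [ho.mem_nhds hz] with x hx using (hint x hx).aestronglyMeasurable
  · refine (mFourier (-γ)).continuous.aestronglyMeasurable.smul ?_
    have m1 : AEStronglyMeasurable (fun θ => fderiv ℂ h (rot θ z)) (tau n) :=
      ((measurable_fderiv ℂ h).comp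
        (cont_rot.comp (Continuous.prodMk_left z)).measurable).aestronglyMeasurable
    exact (ContinuousLinearMap.compL ℂ _ _ _).aestronglyMeasurable_comp₂ m1
      cont_rotL.aestronglyMeasurable
  · refine ae_of_all _ fun θ x hx => ?_
    rw [norm_smul, norm_mF, one_mul]
    refine (ContinuousLinearMap.opNorm_comp_le _ _).trans
      ((mul_le_of_le_one_right (norm_nonneg _) (norm_rotL θ)).trans ?_)
    have hin : ∀ y ∈ ball (rot θ x) (ε / 2), rot (-θ) y ∈ closedBall z ε := by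
      intro y hy
      rw [mem_ball, ← dist_rot (-θ), rot_neg] at hy
      rw [mem_ball] at hx
      rw [mem_closedBall]
      linarith [dist_triangle (rot (-θ) y) x z]
    have e : ∀ y, rot θ (rot (-θ) y) = y := fun y => by simpa using rot_neg (-θ) y
    refine Complex.norm_fderiv_le_div_of_mapsTo_ball (hh.mono fun y hy => ?_) (fun y hy => ?_)
      (half_pos ε0)
    · rw [← e y]; exact hi _ _ (hε (hin y hy))
    · rw [mem_closedBall, dist_eq_norm]
      have h1 := hM' θ _ (hin y hy)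
      rw [e] at h1
      have h2 := hM' θ x (ball_subset_closedBall (ball_subset_ball (by linarith) hx))
      linarith [norm_sub_le (h y) (h (rot θ x))]
  · refine ae_of_all _ fun θ x hx => ?_
    have := (hh.differentiableAt (ho.mem_nhds (hi θ x (hb hx)))).hasFDerivAt
    exact (HasFDerivAt.comp x (g := h) (f := rotL θ) this (rotL θ).hasFDerivAt).const_mul _

lemma Fc_rot (h : (Fin n → ℂ) → ℂ) (γ : Fin n → ℤ) (η : UnitAddTorus (Fin n)) (z : Fin n → ℂ) :
    Fc h γ (rot η z) = mFourier γ η * Fc h γ z := by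
  unfold Fc
  rw [← integral_const_mul, ← integral_add_right_eq_self (μ := tau n)
    (fun θ => mFourier γ η * (mFourier (-γ) θ * h (rot θ z))) η]
  congr 1; ext θ
  have : mFourier γ η * mFourier (-γ) η = 1 := by
    rw [← mFourier_add]; simp [mFourier_zero]
  rw [rot_add, mF_add]
  linear_combination (-(mFourier (-γ) θ * h (rot θ (rot η z)))) * this

lemma laurent (ho : IsOpen Ω) (hc : IsPreconnected Ω) (hi : Inv Ω) (hh : DifferentiableOn ℂ h Ω)
    (γ : Fin n → ℤ) : ∃ a : ℂ, ∀ z ∈ Ω ∩ Ust n, Fc h γ z = a * mon γ z := by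
  obtain ⟨a, ha⟩ := const_of ho hc (G := fun z => Fc h γ z / mon γ z) (by
    intro z hz
    have hd : DifferentiableAt ℂ (fun z => Fc h γ z / mon γ z) z :=
      (diff_Fc ho hi hh γ hz.1).mul
        ((diff_mon γ fun j => Or.inl (hz.2 j)).inv (mon_ne γ hz.2))
    set L := fderiv ℂ (fun z => Fc h γ z / mon γ z) z
    suffices L = 0 from this ▸ hd.hasFDerivAt
    have key : ∀ j, L (Pi.single j 1) = 0 := by
      intro j
      let c : ℝ → Fin n → ℂ := fun s => rot (Pi.single j ((s : ℝ) : UnitAddCircle)) z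
      have c0 : c 0 = z := by simp [c, rot_zero]
      have dc : HasDerivAt c ((2 * Real.pi * Complex.I * z j) • Pi.single j (1:ℂ)) 0 := by
        rw [hasDerivAt_pi]
        intro i
        by_cases hij : i = j
        · subst hij
          simpa [c, rot] using (hasDerivAt_fourier 1 1 0).mul_const (z i)
        · simpa [c, rot, hij] using hasDerivAt_const (0:ℝ) (z i)
      have d2 := (hd.hasFDerivAt.restrictScalars ℝ).comp_hasDerivAt_of_eq 0 dc c0.symm
      have e : (fun z => Fc h γ z / mon γ z) ∘ c = fun _ => Fc h γ z / mon γ z := by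
        ext s
        simp only [Function.comp, c, Fc_rot, mon_rot]
        exact mul_div_mul_left _ _ (norm_ne_zero_iff.1 (by simp [norm_mF]))
      rw [e] at d2
      have := d2.unique (hasDerivAt_const _ _)
      simp only [ContinuousLinearMap.coe_restrictScalars', map_smul, smul_eq_mul] at this
      simpa [hz.2 j] using this
    refine ContinuousLinearMap.coe_injective (LinearMap.pi_ext' fun j => ?_)
    ext
    simpa using key j)
  exact ⟨a, fun z hz => by rw [← ha z hz, div_mul_cancel₀ _ (mon_ne γ hz.2)]⟩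

lemma uniq (hi : Inv Ω) (hh : ContinuousOn h Ω) {z : Fin n → ℂ} (hz : z ∈ Ω)
    (h0 : ∀ γ ≠ 0, Fc h γ z = 0) : h z = Fc h 0 z := by
  let f : C(UnitAddTorus (Fin n), ℂ) := ⟨fun θ => h (rot θ z), cont_orb hi hh hz⟩
  have e : ∀ γ, mFourierCoeff f γ = Fc h γ z := fun γ => rfl
  have hs : Summable (mFourierCoeff f) :=
    summable_of_ne_finset_zero (s := {0}) fun γ hγ => by rw [e]; exact h0 γ (by simpa using hγ)
  have h1 := hasSum_mFourier_series_apply_of_summable hs 0
  have h2 : HasSum (fun i ↦ mFourierCoeff f i • mFourier i (0 : UnitAddTorus (Fin n)))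
      (mFourierCoeff f 0 • mFourier 0 (0 : UnitAddTorus (Fin n))) :=
    hasSum_single 0 fun γ hγ => by rw [e, h0 γ hγ, zero_smul]
  have := h1.unique h2
  rw [e] at this
  simpa [f, rot_zero, mFourier_zero] using this

end Pool.Agent.H27.Rein
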