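import Pool.Agent.H27.Rein1

open MeasureTheory Set Filter Topology Metric UnitAddTorus
open scoped ComplexConjugate

namespace Pool.Agent.H27.Rein

variable {n : ℕ} {Ω K : Set (Fin n → ℂ)} {h : (Fin n → ℂ) → ℂ}

lemma rot_mp (θ : UnitAddTorus (Fin n)) : MeasurePreserving (rot θ) volume volume := by
  refine measurePreserving_pi (fun _ => volume) (fun _ => volume)
    (f := fun j w => fourier 1 (θ j) * w) fun j => ?_
  have : MeasurePreserving (rotation (AddCircle.toCircle (θ j))) (volume : Measure ℂ) volume :=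
    (rotation (AddCircle.toCircle (θ j))).measurePreserving
  have e : (fun w => (fourier 1) (θ j) * w) = ⇑(rotation (AddCircle.toCircle (θ j))) := by
    ext w; simp
  rw [e]; exact this

lemma setInt_rot (hi : Inv K) (θ : UnitAddTorus (Fin n)) (G : (Fin n → ℂ) → ℂ) :
    ∫ z in K, G (rot θ z) = ∫ z in K, G z := by
  let e : (Fin n → ℂ) ≃ₜ (Fin n → ℂ) :=
    { toFun := rot θ, invFun := rot (-θ), left_inv := rot_neg θ,
      right_inv := fun y => by simpa using rot_neg (-θ) y
      continuous_toFun := cont_rot.comp (Continuous.prodMk_right θ)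
      continuous_invFun := cont_rot.comp (Continuous.prodMk_right (-θ)) }
  have := (rot_mp θ).setIntegral_preimage_emb e.measurableEmbedding G K
  have e2 : rot θ ⁻¹' K = K := by
    ext z
    exact ⟨fun hz => by simpa [rot_neg] using hi (-θ) _ hz, hi θ z⟩
  rwa [e2] at this

lemma pairing (hi : Inv Ω) (hh : ContinuousOn h Ω) {γ : Fin n → ℤ} {a : ℂ}
    (ha : ∀ z ∈ Ω ∩ Ust n, Fc h γ z = a * mon γ z) (hK : IsCompact K) (hKs : K ⊆ Ω ∩ Ust n)
    (hKi : Inv K) {φ : (Fin n → ℂ) → ℂ} (hφ : ContinuousOn φ K)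
    (hφi : ∀ θ, ∀ z ∈ K, φ (rot θ z) = φ z) :
    ∫ z in K, conj (mon γ z) * φ z * h z = a * ∫ z in K, conj (mon γ z) * φ z * mon γ z := by
  set G : (Fin n → ℂ) → ℂ := fun z => conj (mon γ z) * φ z * h z with hG
  have cG : ContinuousOn G K :=
    ((Complex.continuous_conj.comp_continuousOn ((cont_mon γ).mono fun z hz => (hKs hz).2)).mul
      hφ).mul (hh.mono fun z hz => (hKs hz).1)
  have h1 : ∫ z in K, G z = ∫ θ, ∫ z in K, G (rot θ z) ∂volume ∂(tau n) := by
    simp [setInt_rot hKi]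
  have hint : Integrable (Function.uncurry fun θ z => G (rot θ z))
      ((tau n).prod (volume.restrict K)) := by
    have : ContinuousOn (Function.uncurry fun θ z => G (rot θ z)) (univ ×ˢ K) :=
      cG.comp cont_rot.continuousOn fun p hp => hKi _ _ hp.2
    have := this.integrableOn_compact (μ := (tau n).prod volume) (isCompact_univ.prod hK)
    rwa [IntegrableOn, ← Measure.prod_restrict, Measure.restrict_univ] at this
  rw [h1, integral_integral_swap hint, ← integral_const_mul]
  refine setIntegral_congr_fun hK.measurableSet fun z hz => ?_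
  simp only [hG, mon_rot, hφi _ z hz, map_mul, ← mFourier_neg]
  have : ∀ θ, mFourier (-γ) θ * conj (mon γ z) * φ z * h (rot θ z)
      = conj (mon γ z) * φ z * (mFourier (-γ) θ * h (rot θ z)) := fun θ => by ring
  simp only [this]
  rw [integral_const_mul]
  change _ * Fc h γ z = _
  rw [ha z (hKs hz)]; ring

lemma orth {γ δ : Fin n → ℤ} (hne : γ ≠ δ) (hK : MeasurableSet K) (hKi : Inv K)
    {φ : (Fin n → ℂ) → ℂ} (hφi : ∀ θ, ∀ z ∈ K, φ (rot θ z) = φ z) :
    ∫ z in K, conj (mon γ z) * φ z * mon δ z = 0 := by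
  obtain ⟨j, hj⟩ := Function.ne_iff.1 hne
  have hj' : δ j - γ j ≠ 0 := sub_ne_zero.2 (Ne.symm hj)
  let θ : UnitAddTorus (Fin n) := Pi.single j ((1 / 2 / (δ j - γ j : ℤ) : ℝ) : UnitAddCircle)
  have h1 : mFourier (-γ + δ) θ = -1 := by
    simp only [mFourier, ContinuousMap.coe_mk]
    rw [Finset.prod_eq_single j (fun i _ hi => by simp [θ, hi]) (by simp)]
    have := fourier_add_half_inv_index hj' one_pos (0 : UnitAddCircle)
    rw [zero_add, fourier_eval_zero] at this
    simp only [θ, Pi.single_eq_same, Pi.add_apply, Pi.neg_apply, neg_add_eq_sub]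
    exact this
  have := setInt_rot hKi θ fun z => conj (mon γ z) * φ z * mon δ z
  rw [setIntegral_congr_fun hK (g := fun z => -(conj (mon γ z) * φ z * mon δ z)) (fun z hz => by
    simp only [mon_rot, hφi _ z hz, map_mul, ← mFourier_neg]
    rw [mFourier_add] at h1
    linear_combination (conj (mon γ z) * φ z * mon δ z) * h1), integral_neg] at this
  linear_combination (-1 / 2) * this

def KK (Ω : Set (Fin n → ℂ)) (N : ℕ) : Set (Fin n → ℂ) :=
  {z | ball z (1 / ((N : ℝ) + 1)) ⊆ Ω ∩ Ust n}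

lemma KK_sub (N : ℕ) : KK Ω N ⊆ Ω ∩ Ust n := fun _ hz => hz (mem_ball_self Nat.one_div_pos_of_nat)

lemma KK_compact (hb : Bornology.IsBounded Ω) (N : ℕ) : IsCompact (KK Ω N) := by
  refine Metric.isCompact_of_isClosed_isBounded ?_ (hb.subset fun z hz => (KK_sub N hz).1)
  have : KK Ω N = ⋂ w ∈ (Ω ∩ Ust n)ᶜ, (ball w (1 / ((N : ℝ) + 1)))ᶜ := by
    ext z
    simp only [KK, mem_setOf_eq, mem_iInter, mem_compl_iff]
    exact ⟨fun h w hw h' => hw (h (mem_ball_comm.1 h')),
      fun h w hw => by_contra fun h' => h w h' (mem_ball_comm.1 hw)⟩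
  rw [this]
  exact isClosed_biInter fun w _ => isOpen_ball.isClosed_compl

lemma KK_inv (hi : Inv Ω) (N : ℕ) : Inv (KK Ω N) := by
  intro θ z hz w hw
  have : rot (-θ) w ∈ Ω ∩ Ust n := hz (by rwa [mem_ball, ← dist_rot (-θ), rot_neg] at hw)
  have e : rot θ (rot (-θ) w) = w := by simpa using rot_neg (-θ) w
  rw [← e]
  exact ⟨hi _ _ this.1, inv_Ust _ _ this.2⟩

lemma KK_ev (ho : IsOpen Ω) {z : Fin n → ℂ} (hz : z ∈ Ω ∩ Ust n) :
    ∀ᶠ N in atTop, KK Ω N ∈ 𝓝 z := by
  obtain ⟨ε, ε0, hε⟩ := Metric.isOpen_iff.1 (ho.inter open_Ust) z hz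
  filter_upwards [tendsto_one_div_add_atTop_nhds_zero_nat.eventually (gt_mem_nhds (half_pos ε0))]
    with N hN
  filter_upwards [ball_mem_nhds z (half_pos ε0)] with w hw
  exact (ball_subset_ball' (by rw [mem_ball] at hw; linarith)).trans hε

lemma ae_mem (ho : IsOpen Ω) : ∀ᵐ z ∂(volume.restrict Ω), z ∈ Ω ∩ Ust n := by
  filter_upwards [ae_restrict_mem ho.measurableSet, ae_restrict_of_ae ae_Ust] with z h1 h2
  exact ⟨h1, h2⟩

lemma KK_cover (ho : IsOpen Ω) (hb : Bornology.IsBounded Ω) :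
    AECover (volume.restrict Ω) atTop (KK Ω) :=
  ⟨(ae_mem ho).mono fun _ hz => (KK_ev ho hz).mono fun _ h => mem_of_mem_nhds h,
    fun N => (KK_compact hb N).measurableSet⟩

lemma pole (ho : IsOpen Ω) {α : Fin n → ℤ} (hα : IntegrableOn (fun z => ‖mon α z‖ ^ 2) Ω)
    {p : Fin n → ℂ} (hp : p ∈ Ω) (j : Fin n) : p j ≠ 0 ∨ 0 ≤ α j := by
  by_contra hcon
  push Not at hcon
  obtain ⟨ε, ε0, hε⟩ := Metric.isOpen_iff.1 ho p hp
  obtain ⟨p', h1, h2⟩ := dense_Ust.inter_open_nonempty _ isOpen_ball ⟨p, mem_ball_self ε0⟩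
  set q := Function.update p' j 0 with hq
  have hqΩ : q ∈ Ω := hε (by
    rw [ball_pi _ ε0] at h1 ⊢
    intro i _
    by_cases hij : i = j
    · subst hij; simp [hq, hcon.1, ε0]
    · simpa [hq, hij] using h1 i (mem_univ _))
  set β := Function.update α j 0 with hβ
  have hg : ∀ i, q i ≠ 0 ∨ 0 ≤ β i := fun i => by
    by_cases hij : i = j
    · subst hij; simp [hβ]
    · simp [hq, hij, h2 i]
  have g0 : 0 < ‖mon β q‖ := norm_pos_iff.2 (Finset.prod_ne_zero_iff.2 fun i _ => by
    by_cases hij : i = j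
    · subst hij; simp [hβ]
    · simpa [hq, hij] using zpow_ne_zero _ (h2 i))
  set c := ‖mon β q‖ / 2 with hc
  have c0 : 0 < c := by positivity
  obtain ⟨δ, δ0, hδ⟩ := Metric.eventually_nhds_iff_ball.1 ((ho.eventually_mem hqΩ).and
    (continuousAt_const.eventually_lt (diff_mon β hg).continuousAt.norm
      (show c < ‖mon β q‖ by linarith)))
  let P : ℝ → Set (Fin n → ℂ) := fun t => Set.pi univ fun i => ball (q i) (if i = j then t else δ)
  have mP : ∀ t, MeasurableSet (P t) := fun t => MeasurableSet.univ_pi fun i => measurableSet_ball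
  set V : ℝ := Real.pi * ∏ i ∈ Finset.univ.erase j, (δ ^ 2 * Real.pi) with hV
  have V0 : 0 < V := by positivity
  have vP : ∀ t, 0 ≤ t → volume (P t) = ENNReal.ofReal (t ^ 2 * V) := by
    intro t ht
    rw [volume_pi_pi, ← Finset.mul_prod_erase _ _ (Finset.mem_univ j), hV, ← mul_assoc,
      ENNReal.ofReal_mul (by positivity), ENNReal.ofReal_prod_of_nonneg (fun _ _ => by positivity)]
    have e : ∀ (a : ℂ) (r : ℝ), 0 ≤ r → volume (ball a r) = ENNReal.ofReal (r ^ 2 * Real.pi) := by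
      intro a r hr
      rw [Complex.volume_ball, ENNReal.ofReal_mul (by positivity), ENNReal.ofReal_pow hr,
        ← ENNReal.ofReal_coe_nnreal, NNReal.coe_real_pi]
    congr 1
    · simp [e _ t ht]
    · refine Finset.prod_congr rfl fun i hi => ?_
      rw [if_neg (Finset.ne_of_mem_erase hi), e _ δ δ0.le]
  have sP : ∀ t ≤ δ, P t ⊆ ball q δ := by
    intro t ht z hz
    rw [ball_pi _ δ0]
    intro i _
    refine ball_subset_ball ?_ (hz i (mem_univ _))
    split_ifs; exacts [ht, le_rfl]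
  have lim : Tendsto (fun t => ∫ z in P t, ‖mon α z‖ ^ 2 ∂(volume.restrict Ω)) (𝓝[>] 0) (𝓝 0) := by
    refine hα.integrable.tendsto_setIntegral_nhds_zero ?_
    have : Tendsto (fun t : ℝ => ENNReal.ofReal (t ^ 2 * V)) (𝓝[>] 0) (𝓝 0) := by
      have : Tendsto (fun t : ℝ => ENNReal.ofReal (t ^ 2 * V)) (𝓝 0)
          (𝓝 (ENNReal.ofReal (0 ^ 2 * V))) :=
        ENNReal.tendsto_ofReal ((by fun_prop : Continuous fun t : ℝ => t ^ 2 * V).tendsto 0)
      simpa using this.mono_left nhdsWithin_le_nhds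
    refine tendsto_of_tendsto_of_tendsto_of_le_of_le' tendsto_const_nhds this
      (Eventually.of_forall fun _ => zero_le) ?_
    filter_upwards [self_mem_nhdsWithin] with t ht
    rw [← vP t (le_of_lt ht)]
    exact Measure.restrict_apply_le _ _
  obtain ⟨t, ht1, ht2⟩ := ((lim.eventually (gt_mem_nhds (show 0 < c ^ 2 * V by positivity))).and
    (Ioo_mem_nhdsGT (lt_min δ0 one_pos))).exists
  have t0 := ht2.1
  have hsub : P t ⊆ Ω := fun z hz => (hδ z (sP t (ht2.2.le.trans (min_le_left _ _)) hz)).1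
  rw [Measure.restrict_restrict_of_subset hsub] at ht1
  refine ht1.not_ge ?_
  have : ∫ z in P t, (c / t) ^ 2 ≤ ∫ z in P t, ‖mon α z‖ ^ 2 := by
    refine setIntegral_mono_ae_restrict (integrableOn_const (by rw [vP t t0.le]; simp))
      (hα.mono_set hsub) ?_
    filter_upwards [ae_restrict_mem (mP t), ae_restrict_of_ae ae_Ust] with z hz hz'
    have e : mon α z = z j ^ α j * mon β z := by
      unfold mon
      rw [← Finset.mul_prod_erase _ _ (Finset.mem_univ j),
        ← Finset.mul_prod_erase _ (fun i => z i ^ β i) (Finset.mem_univ j)]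
      simp only [hβ, Function.update_self, zpow_zero, one_mul]
      congr 1
      exact Finset.prod_congr rfl fun i hi => by
        rw [Function.update_of_ne (Finset.ne_of_mem_erase hi)]
    have z1 : ‖z j‖ < t := by simpa [hq] using hz j (mem_univ _)
    have z0 : 0 < ‖z j‖ := norm_pos_iff.2 (hz' j)
    have z2 : t⁻¹ ≤ ‖z j‖ ^ α j := by
      refine (inv_anti₀ z0 z1.le).trans ?_
      rw [← zpow_neg_one]
      exact zpow_le_zpow_right_of_le_one₀ z0
        (z1.le.trans (ht2.2.le.trans (min_le_right _ _))) (by omega)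
    have z3 := (hδ z (sP t (ht2.2.le.trans (min_le_left _ _)) hz)).2
    refine pow_le_pow_left₀ (by positivity) ?_ 2
    rw [e, norm_mul, norm_zpow, div_eq_inv_mul]
    exact mul_le_mul z2 z3.le c0.le (by positivity)
  refine le_trans (le_of_eq ?_) this
  rw [setIntegral_const, measureReal_def, vP t t0.le, ENNReal.toReal_ofReal (by positivity)]
  simp only [smul_eq_mul]
  field_simp

end Pool.Agent.H27.Rein
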