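import Mathlib

open MeasureTheory Set Filter Topology
open scoped InnerProductSpace

namespace Pool.Agent.H27.Rein

lemma step {Z : Type*} [MeasurableSpace Z] {μ : Measure Z} {w X : Z → ℝ} {a b : ℂ} (hb : b ≠ 0)
    (mw : AEStronglyMeasurable w μ) (mX : AEStronglyMeasurable X μ)
    (w0 : ∀ z, 0 ≤ w z) (X0 : ∀ z, 0 ≤ X z) (h1 : Integrable (fun z => X z * w z) μ)
    (h2 : Integrable (fun z => ‖b * X z - a‖ ^ 2 * w z) μ) :
    Integrable (fun z => X z ^ 2 * w z) μ ∧
      ‖b‖ ^ 2 * ((∫ z, X z ^ 2 * w z ∂μ) - (∫ z, X z * w z ∂μ) ^ 2 / ∫ z, w z ∂μ)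
        ≤ ∫ z, ‖b * X z - a‖ ^ 2 * w z ∂μ := by
  set β := ‖b‖
  set α := ‖a‖
  have β0 : 0 < β := norm_pos_iff.2 hb
  have α0 : 0 ≤ α := norm_nonneg _
  have le : ∀ z, β ^ 2 * (X z ^ 2 * w z) + α ^ 2 * w z
      ≤ ‖b * X z - a‖ ^ 2 * w z + 2 * α * β * (X z * w z) := by
    intro z
    have h := abs_norm_sub_norm_le (b * X z) a
    rw [norm_mul, Complex.norm_real, Real.norm_of_nonneg (X0 z)] at h
    have h' := pow_le_pow_left₀ (abs_nonneg _) h 2
    rw [sq_abs] at h'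
    nlinarith [mul_le_mul_of_nonneg_right h' (w0 z)]
  have i0 := h2.add (h1.const_mul (2 * α * β))
  have p1 : ∀ z, 0 ≤ β ^ 2 * (X z ^ 2 * w z) := fun z => by have := w0 z; positivity
  have p2 : ∀ z, 0 ≤ α ^ 2 * w z := fun z => by have := w0 z; positivity
  have i1 : Integrable (fun z => β ^ 2 * (X z ^ 2 * w z)) μ :=
    i0.mono' (((mX.pow 2).mul mw).const_mul _) (ae_of_all _ fun z => by
      rw [Real.norm_of_nonneg (p1 z)]; exact le_trans (by linarith [p2 z]) (le z))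
  have i2 : Integrable (fun z => α ^ 2 * w z) μ :=
    i0.mono' (mw.const_mul _) (ae_of_all _ fun z => by
      rw [Real.norm_of_nonneg (p2 z)]; exact le_trans (by linarith [p1 z]) (le z))
  refine ⟨(integrable_const_mul_iff (by positivity : β ^ 2 ≠ 0).isUnit _).1 i1, ?_⟩
  have := integral_mono (i1.add i2) i0 le
  simp only [Pi.add_apply] at this
  rw [integral_add i1 i2, integral_add h2 (h1.const_mul _), integral_const_mul, integral_const_mul,
    integral_const_mul] at this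
  have W0 : 0 ≤ ∫ z, w z ∂μ := integral_nonneg w0
  suffices 2 * α * β * ∫ z, X z * w z ∂μ - α ^ 2 * ∫ z, w z ∂μ ≤
      β ^ 2 * ((∫ z, X z * w z ∂μ) ^ 2 / ∫ z, w z ∂μ) by linarith
  rcases α0.eq_or_lt with h | h
  · rw [← h]; simp; positivity
  rcases W0.eq_or_lt with h' | h'
  · have iw := (integrable_const_mul_iff (by positivity : α ^ 2 ≠ 0).isUnit _).1 i2
    have := (integral_eq_zero_iff_of_nonneg w0 iw).1 h'.symm
    have : ∫ z, X z * w z ∂μ = 0 := integral_eq_zero_of_ae (this.mono fun z hz => by simp [hz])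
    simp [this, ← h']
  · rw [← mul_div_assoc, le_div_iff₀ h']
    nlinarith [sq_nonneg (β * ∫ z, X z * w z ∂μ - α * ∫ z, w z ∂μ)]

lemma growth {V : ℕ → ℝ} {s t c : ℝ} (hs : 0 < s) (hst : s < t) (hc : 0 < c)
    (h1 : ∀ k, V (k + 1) ≤ s * V k) (h2 : ∀ k, c * t ^ k ≤ V k) : False := by
  have h3 : ∀ k, V k ≤ s ^ k * V 0 := by
    intro k
    induction k with
    | zero => simp
    | succ k ih => rw [pow_succ]; nlinarith [h1 k]
  have := (tendsto_pow_atTop_atTop_of_one_lt ((one_lt_div hs).2 hst)).eventually_gt_atTop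
    (V 0 / c)
  obtain ⟨k, hk⟩ := this.exists
  rw [div_pow, div_lt_div_iff₀ hc (by positivity)] at hk
  linarith [h2 k, h3 k]

lemma line {U d : ℤ → ℝ} {P : ℤ → Prop} {s t c i t' c' : ℝ} (h0 : P 0)
    (hpos : ∀ k, P k → 0 < U k) (hz : ∀ k, ¬ P k → U k = 0)
    (hstep : ∀ k, P k → P (k + 1) ∧ U (k + 1) / U k - U k / U (k - 1) ≤ d k)
    (hs : 0 < s) (hst : s < t) (hc : 0 < c) (hi : 0 < i) (hit : i⁻¹ < t') (hc' : 0 < c')
    (up : ∀ k : ℕ, P k → c * t ^ k ≤ U k) (down : ∀ k : ℕ, P (-k) → c' * t' ^ k ≤ U (-k)) :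
    ∃ J L : ℕ, (∀ l < L, P (l - J)) ∧ s - i ≤ ∑ l ∈ Finset.range L, d (l - J) := by
  classical
  have hP : ∀ k : ℕ, P k := fun k => by
    induction k with
    | zero => exact h0
    | succ k ih => exact_mod_cast (hstep k ih).1
  obtain ⟨K, hK⟩ : ∃ K : ℕ, s ≤ U (K + 1) / U K := by
    by_contra hcon
    push Not at hcon
    refine growth (V := fun k => U k) hs hst hc (fun k => ?_) fun k => up k (hP k)
    have := hcon k
    rw [div_lt_iff₀ (hpos _ (hP k))] at this
    exact_mod_cast this.le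
  have fin : ∀ j : ℕ, i < U (-j) / U (-j - 1) → P (-((j + 1 : ℕ) : ℤ)) := by
    intro j hj
    by_contra h
    have := hz _ h
    rw [show (-((j + 1 : ℕ) : ℤ)) = -j - 1 by push_cast; ring] at this
    rw [this, div_zero] at hj
    linarith
  have ex : ∃ J : ℕ, U (-J) / U (-J - 1) ≤ i := by
    by_contra hcon
    push Not at hcon
    have hP' : ∀ k : ℕ, P (-k) := fun k => by
      cases k with
      | zero => exact h0
      | succ k => exact fin k (hcon k)
    refine growth (V := fun k => U (-k)) (inv_pos.2 hi) hit hc' (fun k => ?_)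
      fun k => down k (hP' k)
    have := hcon k
    have p := hpos _ (hP' (k + 1))
    rw [show (-((k + 1 : ℕ) : ℤ)) = -k - 1 by push_cast; ring] at p ⊢
    rw [lt_div_iff₀ p] at this
    rw [le_inv_mul_iff₀ hi]; exact this.le
  set J := Nat.find ex
  have hJ : U (-J) / U (-J - 1) ≤ i := Nat.find_spec ex
  have hPl : ∀ l : ℕ, P (l - J) := by
    intro l
    induction l with
    | zero =>
      rcases hJ' : J with _ | j
      · exact h0
      · have := fin j (not_le.1 (Nat.find_min ex (by omega : j < J)))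
        simpa using this
    | succ l ih =>
      have := (hstep _ ih).1
      rwa [show (l : ℤ) - J + 1 = ((l + 1 : ℕ) : ℤ) - J by push_cast; ring] at this
  refine ⟨J, J + K + 1, fun l _ => hPl l, ?_⟩
  have tel := Finset.sum_range_sub (fun l : ℕ => U (l - J) / U (l - J - 1)) (J + K + 1)
  refine le_trans ?_ (Finset.sum_le_sum fun l _ => (hstep _ (hPl l)).2)
  have e : ∀ l : ℕ, U (l - J + 1) / U (l - J) =
      U (((l + 1 : ℕ) : ℤ) - J) / U (((l + 1 : ℕ) : ℤ) - J - 1) := by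
    intro l; congr 2 <;> push_cast <;> ring
  simp only [e]
  rw [tel, show ((J + K + 1 : ℕ) : ℤ) - J = K + 1 by push_cast; ring]
  simp only [add_sub_cancel_right, Nat.cast_zero, zero_sub]
  linarith

lemma bessel {H κ : Type*} [NormedAddCommGroup H] [InnerProductSpace ℂ H] (s : Finset κ)
    (w : κ → H) (hw : ∀ k ∈ s, ∀ l ∈ s, k ≠ l → ⟪w k, w l⟫_ℂ = 0) (x : H) :
    ∑ k ∈ s, ‖⟪w k, x⟫_ℂ‖ ^ 2 / ‖w k‖ ^ 2 ≤ ‖x‖ ^ 2 := by
  classical
  have on : Orthonormal ℂ fun k : s.filter (fun k => w k ≠ 0) => ((‖w k‖ : ℂ)⁻¹ • w k) := by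
    refine ⟨fun k => ?_, fun k l hkl => ?_⟩
    · have := (Finset.mem_filter.1 k.2).2
      simp [norm_smul, this]
    · simp only [inner_smul_left, inner_smul_right]
      rw [hw k (Finset.mem_filter.1 k.2).1 l (Finset.mem_filter.1 l.2).1
        fun h => hkl (Subtype.ext h)]
      simp
  have := on.sum_inner_products_le x (s := Finset.univ)
  rw [← Finset.sum_filter_of_ne (p := fun k => w k ≠ 0) (fun k _ h h' => h (by simp [h'])),
    ← Finset.sum_coe_sort]
  refine le_trans (le_of_eq ?_) this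
  refine Finset.sum_congr rfl fun k _ => ?_
  simp [inner_smul_left, div_eq_inv_mul, mul_pow]

lemma hs_bound {A H ι κ : Type*} [NormedAddCommGroup A] [InnerProductSpace ℂ A]
    [NormedAddCommGroup H] [InnerProductSpace ℂ H] [CompleteSpace H] (b : HilbertBasis ι ℂ A)
    (T : A →L[ℂ] H) (hs : Summable fun i => ‖T (b i)‖ ^ 2) (s : Finset κ) (u : κ → A) (w : κ → H)
    (hw : ∀ k ∈ s, ∀ l ∈ s, k ≠ l → ⟪w k, w l⟫_ℂ = 0)
    (hu : ∀ k ∈ s, ⟪w k, T (u k)⟫_ℂ = (‖w k‖ ^ 2 : ℝ)) :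
    ∑ k ∈ s, ‖w k‖ ^ 2 / ‖u k‖ ^ 2 ≤ ∑' i, ‖T (b i)‖ ^ 2 := by
  haveI : CompleteSpace A := b.repr.toIsometryEquiv.completeSpace
  have h1 : ∀ k, HasSum (fun i => ‖⟪w k, T (b i)⟫_ℂ‖ ^ 2 / ‖w k‖ ^ 2)
      (‖ContinuousLinearMap.adjoint T (w k)‖ ^ 2 / ‖w k‖ ^ 2) := by
    intro k
    refine HasSum.div_const ?_ _
    have := b.hasSum_inner_mul_inner (ContinuousLinearMap.adjoint T (w k))
      (ContinuousLinearMap.adjoint T (w k))
    have := Complex.reCLM.hasSum this
    have e1 : ∀ i, Complex.reCLM (⟪ContinuousLinearMap.adjoint T (w k), b i⟫_ℂ *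
        ⟪b i, ContinuousLinearMap.adjoint T (w k)⟫_ℂ) = ‖⟪w k, T (b i)⟫_ℂ‖ ^ 2 := by
      intro i
      rw [← inner_conj_symm (b i), Complex.mul_conj, ContinuousLinearMap.adjoint_inner_left]
      simp [Complex.normSq_eq_norm_sq, ← Complex.ofReal_pow]
    have e2 : Complex.reCLM ⟪ContinuousLinearMap.adjoint T (w k),
        ContinuousLinearMap.adjoint T (w k)⟫_ℂ = ‖ContinuousLinearMap.adjoint T (w k)‖ ^ 2 := by
      simp [← Complex.ofReal_pow]
    simpa only [e1, e2] using this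
  refine le_trans (Finset.sum_le_sum fun k hk => ?_)
    (hasSum_le (fun i => bessel s w hw (T (b i))) (hasSum_sum fun k _ => h1 k) hs.hasSum)
  have h2 := norm_inner_le_norm (𝕜 := ℂ) (ContinuousLinearMap.adjoint T (w k)) (u k)
  rw [ContinuousLinearMap.adjoint_inner_left, hu k hk, Complex.norm_real,
    Real.norm_of_nonneg (by positivity)] at h2
  rcases (norm_nonneg (u k)).eq_or_lt with h | h
  · rw [← h]; simp; positivity
  rcases (norm_nonneg (w k)).eq_or_lt with h' | h'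
  · rw [← h']; simp
  rw [div_le_div_iff₀ (by positivity) (by positivity)]
  nlinarith [pow_le_pow_left₀ (by positivity) h2 2]

end Pool.Agent.H27.Rein
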