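import Pool.Agent.H27.Rein2
import Pool.Agent.H27.Rein3

open MeasureTheory Set Filter Topology Metric UnitAddTorus
open scoped ComplexConjugate InnerProductSpace

namespace Pool.Agent.H27.Rein

variable {n : ℕ}

/-- The Bergman space: the classes in `L²(Ω)` that have a holomorphic representative. -/
def A2 (Ω : Set (Fin n → ℂ)) : Submodule ℂ (Lp ℂ 2 (volume.restrict Ω)) where
  carrier := {g | ∃ h : (Fin n → ℂ) → ℂ, DifferentiableOn ℂ h Ω ∧ g =ᵐ[volume.restrict Ω] h}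
  add_mem' := by
    rintro g g' ⟨h, h1, h2⟩ ⟨h', h1', h2'⟩
    exact ⟨h + h', h1.add h1', (Lp.coeFn_add g g').trans (h2.add h2')⟩
  zero_mem' := ⟨0, differentiableOn_const 0, Lp.coeFn_zero _ _ _⟩
  smul_mem' := by
    rintro c g ⟨h, h1, h2⟩
    exact ⟨c • h, h1.const_smul c, (Lp.coeFn_smul c g).trans (h2.const_smul c)⟩

variable {Ω K : Set (Fin n → ℂ)} {f : (Fin n → ℂ) → ℂ}

lemma exists_tv (hK : IsCompact K) {ψ : (Fin n → ℂ) → ℂ} (hψ : ContinuousOn ψ K) :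
    ∃ w : Lp ℂ 2 (volume.restrict Ω), w =ᵐ[volume.restrict Ω] K.indicator ψ := by
  have : MemLp (K.indicator ψ) 2 (volume.restrict Ω) := by
    refine MemLp.restrict _ ?_
    rw [memLp_indicator_iff_restrict hK.measurableSet,
      memLp_two_iff_integrable_sq_norm (hψ.aestronglyMeasurable hK.measurableSet)]
    exact (hψ.norm.pow 2).integrableOn_compact hK
  exact ⟨this.toLp _, this.coeFn_toLp⟩

lemma tv_inner (hK : MeasurableSet K) (hKs : K ⊆ Ω) {ψ G : (Fin n → ℂ) → ℂ}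
    {w F : Lp ℂ 2 (volume.restrict Ω)} (hw : w =ᵐ[volume.restrict Ω] K.indicator ψ)
    (hF : F =ᵐ[volume.restrict Ω] G) : ⟪w, F⟫_ℂ = ∫ z in K, conj (ψ z) * G z := by
  rw [L2.inner_def, ← Measure.restrict_restrict_of_subset hKs, ← integral_indicator hK]
  refine integral_congr_ae ?_
  filter_upwards [hw, hF] with z h1 h2
  rw [h1, h2]
  by_cases hz : z ∈ K <;> simp [hz, mul_comm]

lemma int_pos {μ : Measure (Fin n → ℂ)} (h0 : μ ≠ 0) (hU : ∀ᵐ z ∂μ, z ∈ Ust n) {γ : Fin n → ℤ}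
    (hi : Integrable (fun z => ‖mon γ z‖ ^ 2) μ) : 0 < ∫ z, ‖mon γ z‖ ^ 2 ∂μ := by
  rw [integral_pos_iff_support_of_nonneg_ae (ae_of_all _ fun z => by positivity) hi]
  refine lt_of_lt_of_le (Measure.measure_univ_pos.2 h0) (measure_mono_ae ?_)
  filter_upwards [hU] with z hz _
  exact pow_ne_zero _ (norm_ne_zero_iff.2 (mon_ne γ hz))

lemma restrict_ne {S : Set (Fin n → ℂ)} {z : Fin n → ℂ} (h : S ∈ 𝓝 z) :
    volume.restrict S ≠ 0 := by
  rw [Ne, Measure.restrict_eq_zero]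
  exact (Measure.measure_pos_of_mem_nhds volume h).ne'

structure Good (Ω K : Set (Fin n → ℂ)) (φ : (Fin n → ℂ) → ℂ) : Prop where
  c : IsCompact K
  s : K ⊆ Ω ∩ Ust n
  i : Inv K
  cφ : ContinuousOn φ K
  iφ : ∀ θ, ∀ z ∈ K, φ (rot θ z) = φ z

lemma Good.conj {φ : (Fin n → ℂ) → ℂ} (h : Good Ω K φ) : Good Ω K fun z => conj (φ z) :=
  ⟨h.c, h.s, h.i, Complex.continuous_conj.comp_continuousOn h.cφ, fun θ z hz => by
    simp only [h.iφ θ z hz]⟩

lemma norm_mon_rot (γ : Fin n → ℤ) (θ : UnitAddTorus (Fin n)) (z : Fin n → ℂ) :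
    ‖mon γ (rot θ z)‖ = ‖mon γ z‖ := by rw [mon_rot, norm_mul, norm_mF, one_mul]

lemma core (ho : IsOpen Ω) (hc : IsConnected Ω) (hb : Bornology.IsBounded Ω) (hi : Inv Ω)
    (hf : DifferentiableOn ℂ f Ω) (T : A2 Ω →L[ℂ] Lp ℂ 2 (volume.restrict Ω))
    (hd : Dense {g : A2 Ω | MemLp (fun z => conj (f z) * (g : Lp ℂ 2 (volume.restrict Ω)) z) 2
      (volume.restrict Ω)})
    (hT : ∀ (g : A2 Ω) (u : Lp ℂ 2 (volume.restrict Ω)),
      (u =ᵐ[volume.restrict Ω] fun z => conj (f z) * (g : Lp ℂ 2 (volume.restrict Ω)) z) →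
      u - T g ∈ A2 Ω)
    {β : Fin n → ℤ} {b : ℂ} (hβ : ∀ z ∈ Ω ∩ Ust n, Fc f β z = b * mon β z) (α : Fin n → ℤ)
    (u : A2 Ω) (hu : (u : Lp ℂ 2 (volume.restrict Ω)) =ᵐ[volume.restrict Ω] mon α) :
    ∃ a : ℂ, ∀ K φ, Good Ω K φ → ∀ w : Lp ℂ 2 (volume.restrict Ω),
      w =ᵐ[volume.restrict Ω] K.indicator (fun z => mon (α - β) z * φ z) →
      ⟪w, T u⟫_ℂ = ∫ z in K, conj (φ z) * (conj b * (‖mon β z‖ ^ 2 : ℝ) - a) *
        (‖mon (α - β) z‖ ^ 2 : ℝ) := by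
  set γ := α - β with hγ
  let J : Set (Fin n → ℂ) → ((Fin n → ℂ) → ℂ) → ℂ := fun K φ =>
    ∫ z in K, conj (mon γ z) * conj (φ z) * mon γ z
  have lemA : ∀ g ∈ {g : A2 Ω | MemLp (fun z => conj (f z) *
      (g : Lp ℂ 2 (volume.restrict Ω)) z) 2 (volume.restrict Ω)}, ∃ a : ℂ, ∀ K φ, Good Ω K φ →
      ∀ w v : Lp ℂ 2 (volume.restrict Ω),
      w =ᵐ[volume.restrict Ω] K.indicator (fun z => mon γ z * φ z) →
      v =ᵐ[volume.restrict Ω] K.indicator (fun z => mon γ z * φ z * f z) →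
      ⟪v, (g : Lp ℂ 2 (volume.restrict Ω))⟫_ℂ - ⟪w, T g⟫_ℂ = a * J K φ := by
    intro g hg
    obtain ⟨p, hp, hp'⟩ := hT g (MemLp.toLp _ hg) (MemLp.coeFn_toLp hg)
    obtain ⟨a, ha⟩ := laurent ho hc.2 hi hp γ
    refine ⟨a, fun K φ hK w v hw hv => ?_⟩
    have ms := hK.c.measurableSet
    have ss : K ⊆ Ω := fun z hz => (hK.s hz).1
    have e1 := tv_inner ms ss hw hp'
    rw [inner_sub_right, tv_inner ms ss hw (MemLp.coeFn_toLp hg)] at e1
    rw [tv_inner ms ss hv (ae_eq_refl _),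
      ← pairing hi hp.continuousOn ha hK.c hK.s hK.i hK.conj.cφ hK.conj.iφ]
    simp only [map_mul, mul_assoc] at e1 ⊢
    exact e1
  obtain ⟨z0, h0⟩ := dense_Ust.inter_open_nonempty _ ho hc.1
  obtain ⟨N, hN⟩ := (KK_ev ho h0).exists
  have g0 : Good Ω (KK Ω N) fun _ => 1 :=
    ⟨KK_compact hb N, KK_sub N, KK_inv hi N, continuousOn_const, fun _ _ _ => rfl⟩
  have cw : ∀ K φ, Good Ω K φ → ContinuousOn (fun z => mon γ z * φ z) K := fun K φ h =>
    ((cont_mon γ).mono fun z hz => (h.s hz).2).mul h.cφ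
  have cv : ∀ K φ, Good Ω K φ → ContinuousOn (fun z => mon γ z * φ z * f z) K := fun K φ h =>
    (cw K φ h).mul (hf.continuousOn.mono fun z hz => (h.s hz).1)
  obtain ⟨w0, hw0⟩ := exists_tv (Ω := Ω) g0.c (cw _ _ g0)
  obtain ⟨v0, hv0⟩ := exists_tv (Ω := Ω) g0.c (cv _ _ g0)
  have cm : ∀ (δ : Fin n → ℤ) z, conj (mon δ z) * mon δ z = (‖mon δ z‖ ^ 2 : ℝ) := fun δ z => by
    rw [Complex.conj_mul']; simp
  have J0 : J (KK Ω N) (fun _ => 1) ≠ 0 := by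
    simp only [J, map_one, mul_one, cm]
    rw [integral_complex_ofReal]
    refine Complex.ofReal_ne_zero.2 (int_pos (restrict_ne hN) (ae_restrict_of_ae ae_Ust) ?_).ne'
    exact (((cont_mon γ).mono fun z hz => (g0.s hz).2).norm.pow 2).integrableOn_compact g0.c
  refine ⟨(⟪v0, (u : Lp ℂ 2 (volume.restrict Ω))⟫_ℂ - ⟪w0, T u⟫_ℂ) / J (KK Ω N) (fun _ => 1),
    fun K φ hK w hw => ?_⟩
  obtain ⟨v, hv⟩ := exists_tv (Ω := Ω) hK.c (cv _ _ hK)
  have key := Continuous.ext_on hd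
    (f := fun g : A2 Ω => (⟪v, (g : Lp ℂ 2 (volume.restrict Ω))⟫_ℂ - ⟪w, T g⟫_ℂ) *
      J (KK Ω N) (fun _ => 1))
    (g := fun g : A2 Ω => (⟪v0, (g : Lp ℂ 2 (volume.restrict Ω))⟫_ℂ - ⟪w0, T g⟫_ℂ) * J K φ)
    (by fun_prop) (by fun_prop) (fun g hg => by
      obtain ⟨a, ha⟩ := lemA g hg
      simp only [ha K φ hK w v hw hv, ha _ _ g0 w0 v0 hw0 hv0]
      ring)
  have k2 := congrFun key u
  set a := (⟪v0, (u : Lp ℂ 2 (volume.restrict Ω))⟫_ℂ - ⟪w0, T u⟫_ℂ) / J (KK Ω N) (fun _ => 1)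
  have k3 : ⟪w, T u⟫_ℂ = ⟪v, (u : Lp ℂ 2 (volume.restrict Ω))⟫_ℂ - a * J K φ := by
    simp only [a]; field_simp; linear_combination -k2
  have ms := hK.c.measurableSet
  have cN : ∀ δ : Fin n → ℤ, ContinuousOn (fun z => ((‖mon δ z‖ ^ 2 : ℝ) : ℂ)) K := fun δ =>
    Complex.continuous_ofReal.comp_continuousOn
      (((cont_mon δ).mono fun z hz => (hK.s hz).2).norm.pow 2)
  have k4 := pairing hi hf.continuousOn hβ hK.c hK.s hK.i
    (φ := fun z => φ z * (‖mon γ z‖ ^ 2 : ℝ)) (hK.cφ.mul (cN γ))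
    (fun θ z hz => by simp only [hK.iφ θ z hz, norm_mon_rot])
  have k5 := congrArg conj k4
  rw [map_mul, ← integral_conj, ← integral_conj] at k5
  have k6 : ⟪v, (u : Lp ℂ 2 (volume.restrict Ω))⟫_ℂ =
      conj b * ∫ z in K, conj (φ z) * (‖mon β z‖ ^ 2 : ℝ) * (‖mon γ z‖ ^ 2 : ℝ) := by
    rw [tv_inner ms (fun z hz => (hK.s hz).1) hv hu]
    convert k5 using 1
    · refine setIntegral_congr_fun ms fun z hz => ?_
      have : mon α z = mon γ z * mon β z := by rw [← mon_add _ _ (hK.s hz).2, hγ, sub_add_cancel]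
      simp only [this, map_mul, Complex.conj_conj, Complex.conj_ofReal, ← cm]
      ring
    · congr 1
      refine setIntegral_congr_fun ms fun z _ => ?_
      simp only [map_mul, Complex.conj_conj, Complex.conj_ofReal, ← cm]
      ring
  rw [k3, k6]
  simp only [J]
  rw [← integral_const_mul, ← integral_const_mul, ← integral_sub]
  · refine setIntegral_congr_fun ms fun z _ => ?_
    simp only [← cm]
    ring
  · exact (((hK.conj.cφ.mul (cN β)).mul (cN γ)).integrableOn_compact hK.c).const_mul _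
  · have := (cont_mon γ).mono fun z hz => (hK.s hz).2
    exact ((((Complex.continuous_conj.comp_continuousOn this).mul hK.conj.cφ).mul
      this).integrableOn_compact hK.c).const_mul _

end Pool.Agent.H27.Rein
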