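import Mathlib

/-! Linear periodic ODE: a priori estimate and solvability. -/

open Set Metric

namespace Pool.Agent.H27.Rig

variable {P : Type*} [NormedAddCommGroup P] [NormedSpace ℝ P] [FiniteDimensional ℝ P]

lemma gron (A : ℝ → P →L[ℝ] P) (K : ℝ) (hK0 : 0 < K) (hK : ∀ t, ‖A t‖ ≤ K) (w h : ℝ → P)
    (hh : Continuous h) (hw : ∀ t, HasDerivAt w (A t (w t) + h t) t) (h0 : w 0 = 0) :
    ∀ t ∈ Icc (0:ℝ) 1, ‖w t‖ ≤ Real.exp K * ∫ s in (0:ℝ)..1, ‖h s‖ := by
  haveI : CompleteSpace P := FiniteDimensional.complete ℝ P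
  set I := ∫ s in (0:ℝ)..1, ‖h s‖ with hI
  have hI0 : 0 ≤ I := intervalIntegral.integral_nonneg zero_le_one (fun s _ => norm_nonneg _)
  set H : ℝ → P := fun t => ∫ s in (0:ℝ)..t, h s with hH
  have hHd : ∀ t, HasDerivAt H (h t) t := fun t => (hh.integral_hasStrictDerivAt 0 t).hasDerivAt
  have hHb : ∀ t ∈ Icc (0:ℝ) 1, ‖H t‖ ≤ I := by
    intro t ht
    calc ‖H t‖ ≤ ∫ s in (0:ℝ)..t, ‖h s‖ := intervalIntegral.norm_integral_le_integral_norm ht.1
      _ ≤ I := intervalIntegral.integral_mono_interval le_rfl ht.1 ht.2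
          (Filter.Eventually.of_forall fun s => norm_nonneg _) (hh.norm.intervalIntegrable _ _)
  have hz : ∀ t, HasDerivAt (fun t => w t - H t) (A t (w t)) t := by
    intro t
    exact ((hw t).sub (hHd t)).congr_deriv (by simp)
  have key := norm_le_gronwallBound_of_norm_deriv_right_le (f := fun t => w t - H t)
    (f' := fun t => A t (w t)) (δ := 0) (K := K) (ε := K * I) (a := 0) (b := 1)
    (fun t _ => (hz t).continuousAt.continuousWithinAt)
    (fun t _ => (hz t).hasDerivWithinAt) (by simp [h0, hH]) (by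
      intro t ht
      have h1 : ‖A t (w t)‖ ≤ K * ‖w t‖ :=
        ((A t).le_opNorm _).trans (mul_le_mul_of_nonneg_right (hK t) (norm_nonneg _))
      have h2 : ‖w t‖ ≤ ‖w t - H t‖ + I := by
        have := norm_add_le (w t - H t) (H t)
        rw [sub_add_cancel] at this
        linarith [hHb t ⟨ht.1, ht.2.le⟩]
      nlinarith)
  intro t ht
  have h3 := key t ht
  rw [gronwallBound_of_K_ne_0 hK0.ne'] at h3
  simp only [sub_zero, zero_mul, zero_add] at h3
  have h4 : K * I / K = I := by field_simp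
  rw [h4] at h3
  have h5 : Real.exp (K * t) ≤ Real.exp K := Real.exp_le_exp.2 (by nlinarith [ht.2])
  have h2 : ‖w t‖ ≤ ‖w t - H t‖ + I := by
    have := norm_add_le (w t - H t) (H t)
    rw [sub_add_cancel] at this
    linarith [hHb t ht]
  nlinarith

omit [FiniteDimensional ℝ P] in
lemma lin_unique (A : ℝ → P →L[ℝ] P) (K : ℝ) (hK : ∀ t, ‖A t‖ ≤ K) (w : ℝ → P)
    (hw : ∀ t, HasDerivAt w (A t (w t)) t) (t0 : ℝ) (h0 : w t0 = 0) : ∀ t, w t = 0 := by
  have hK0 : 0 ≤ K := (norm_nonneg _).trans (hK 0)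
  have := ODE_solution_unique_univ (K := ⟨K, hK0⟩) (v := fun t z => A t z) (s := fun _ => univ)
    (f := w) (g := fun _ => 0) (t₀ := t0)
    (fun t => ((A t).lipschitz.weaken (by
      show ‖A t‖₊ ≤ ⟨K, hK0⟩
      exact_mod_cast hK t)).lipschitzOnWith)
    (fun t => ⟨hw t, trivial⟩) (fun t => ⟨by simpa using hasDerivAt_const t (0:P), trivial⟩) h0
  intro t
  exact congrFun this t

/-- Data of the linearisation along a period-one orbit. -/
structure Lin (P : Type*) [NormedAddCommGroup P] [NormedSpace ℝ P] where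
  A : ℝ → P →L[ℝ] P
  F : ℝ → P →L[ℝ] P
  e : ℝ → P
  l : P →L[ℝ] ℝ
  K : ℝ
  hK0 : 0 < K
  hK : ∀ t, ‖A t‖ ≤ K
  hAp : ∀ t, A (t + 1) = A t
  hF0 : F 0 = ContinuousLinearMap.id ℝ P
  hF : ∀ t, HasDerivAt F ((A t).comp (F t)) t
  he : ∀ t, HasDerivAt e (A t (e t)) t
  hep : ∀ t, e (t + 1) = e t
  hB : ∀ (v : P) (τ : ℝ), v - F 1 v - τ • e 0 = 0 → l v = 0 → v = 0 ∧ τ = 0

namespace Lin

variable (L : Lin P)

/-- The boundary map. -/
noncomputable def B : (P × ℝ) →L[ℝ] (P × ℝ) :=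
  (ContinuousLinearMap.fst ℝ P ℝ - (L.F 1).comp (ContinuousLinearMap.fst ℝ P ℝ) -
    (ContinuousLinearMap.snd ℝ P ℝ).smulRight (L.e 0)).prod
    (L.l.comp (ContinuousLinearMap.fst ℝ P ℝ))

omit [FiniteDimensional ℝ P] in
lemma B_apply (v : P) (τ : ℝ) : L.B (v, τ) = (v - L.F 1 v - τ • L.e 0, L.l v) := by
  simp [B]

omit [FiniteDimensional ℝ P] in
lemma B_inj : Function.Injective L.B := by
  rw [injective_iff_map_eq_zero]
  rintro ⟨v, τ⟩ h
  rw [B_apply] at h
  obtain ⟨h1, h2⟩ := L.hB v τ (congrArg Prod.fst h) (congrArg Prod.snd h)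
  simp [h1, h2]

lemma B_surj : Function.Surjective L.B :=
  (LinearMap.injective_iff_surjective (f := (L.B : (P × ℝ) →ₗ[ℝ] (P × ℝ)))).1 L.B_inj

lemma B_bound : ∃ C : ℝ, 0 < C ∧ ∀ z, ‖z‖ ≤ C * ‖L.B z‖ := by
  obtain ⟨C, hC0, hC⟩ := LinearMap.exists_antilipschitzWith
    (L.B : (P × ℝ) →ₗ[ℝ] (P × ℝ)) (LinearMap.ker_eq_bot.2 L.B_inj)
  refine ⟨C, by exact_mod_cast hC0, fun z => ?_⟩
  have := hC.le_mul_dist z 0
  simpa using this

omit [FiniteDimensional ℝ P] in
lemma hFv (v : P) (t : ℝ) : HasDerivAt (fun t => L.F t v) (L.A t (L.F t v)) t := by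
  have := (L.hF t).clm_apply (hasDerivAt_const t v)
  simpa using this

omit [FiniteDimensional ℝ P] in
lemma hom (v : P) (τ t : ℝ) : HasDerivAt (fun t => L.F t v + (τ * t) • L.e t)
    (L.A t (L.F t v + (τ * t) • L.e t) + τ • L.e t) t := by
  have h1 := L.hFv v t
  have h2 := ((hasDerivAt_id t).const_mul τ).smul (L.he t)
  have := h1.add h2
  refine HasDerivAt.congr_deriv this ?_
  simp only [map_add, map_smul, id, mul_one]
  abel

lemma est : ∃ C : ℝ, 0 < C ∧ ∀ (y h : ℝ → P) (τ : ℝ), Continuous h →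
    (∀ t, HasDerivAt y (L.A t (y t) + τ • L.e t + h t) t) → (∀ t, y (t + 1) = y t) →
    L.l (y 0) = 0 → ∀ t, ‖y t‖ + |τ| ≤ C * ∫ s in (0:ℝ)..1, ‖h s‖ := by
  obtain ⟨C, hC0, hC⟩ := L.B_bound
  have hFc : Continuous L.F := continuous_iff_continuousAt.2 fun t => (L.hF t).continuousAt
  have hec : Continuous L.e := continuous_iff_continuousAt.2 fun t => (L.he t).continuousAt
  obtain ⟨M1, hM1⟩ := (isCompact_Icc (a := (0:ℝ)) (b := 1)).exists_bound_of_continuousOn
    hFc.continuousOn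
  obtain ⟨M2, hM2⟩ := (isCompact_Icc (a := (0:ℝ)) (b := 1)).exists_bound_of_continuousOn
    hec.continuousOn
  have hM10 : 0 ≤ M1 := (norm_nonneg _).trans (hM1 0 ⟨le_rfl, zero_le_one⟩)
  have hM20 : 0 ≤ M2 := (norm_nonneg _).trans (hM2 0 ⟨le_rfl, zero_le_one⟩)
  have hE := Real.exp_pos L.K
  refine ⟨Real.exp L.K * (1 + (M1 + M2 + 1) * C), by positivity, ?_⟩
  intro y h τ hh hy hp hl
  set I := ∫ s in (0:ℝ)..1, ‖h s‖ with hI
  have hI0 : 0 ≤ I := intervalIntegral.integral_nonneg zero_le_one (fun s _ => norm_nonneg _)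
  set z : ℝ → P := fun t => L.F t (y 0) + (τ * t) • L.e t with hz
  have hw : ∀ t, HasDerivAt (fun t => y t - z t) (L.A t (y t - z t) + h t) t := by
    intro t
    have := (hy t).sub (L.hom (y 0) τ t)
    refine HasDerivAt.congr_deriv this ?_
    simp only [map_sub, hz]
    abel
  have hg := gron L.A L.K L.hK0 L.hK _ h hh hw (by simp [hz, L.hF0])
  have h1 := hg 1 ⟨zero_le_one, le_rfl⟩
  have hy1 : y 1 = y 0 := by simpa using hp 0
  have he1 : L.e 1 = L.e 0 := by simpa using L.hep 0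
  have hBz : L.B (y 0, τ) = (y 1 - z 1, 0) := by
    rw [B_apply, hl]
    simp only [hz, hy1, he1, mul_one]
    congr 1
    abel
  have h2 := hC (y 0, τ)
  rw [hBz] at h2
  have h3 : ‖(y 1 - z 1, (0:ℝ))‖ = ‖y 1 - z 1‖ := by simp [Prod.norm_def]
  rw [h3] at h2
  have h4 : ‖y 0‖ ≤ C * (Real.exp L.K * I) :=
    (norm_fst_le (y 0, τ)).trans (h2.trans (mul_le_mul_of_nonneg_left h1 hC0.le))
  have h5 : |τ| ≤ C * (Real.exp L.K * I) :=
    (norm_snd_le (y 0, τ)).trans (h2.trans (mul_le_mul_of_nonneg_left h1 hC0.le))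
  have main : ∀ t ∈ Icc (0:ℝ) 1, ‖y t‖ + |τ| ≤ Real.exp L.K * (1 + (M1 + M2 + 1) * C) * I := by
    intro t ht
    have h6 := hg t ht
    have h7 : ‖z t‖ ≤ M1 * ‖y 0‖ + |τ| * M2 := by
      refine (norm_add_le _ _).trans (add_le_add ?_ ?_)
      · exact ((L.F t).le_opNorm _).trans (mul_le_mul_of_nonneg_right (hM1 t ht) (norm_nonneg _))
      · rw [norm_smul, Real.norm_eq_abs, abs_mul, abs_of_nonneg ht.1]
        have := hM2 t ht
        have h8 : |τ| * t ≤ |τ| := mul_le_of_le_one_right (abs_nonneg _) ht.2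
        exact mul_le_mul h8 this (norm_nonneg _) (abs_nonneg _)
    have h9 : ‖y t‖ ≤ ‖y t - z t‖ + ‖z t‖ := by
      have := norm_add_le (y t - z t) (z t)
      rwa [sub_add_cancel] at this
    have h10 := mul_le_mul_of_nonneg_left h4 hM10
    have h11 := mul_le_mul_of_nonneg_right h5 hM20
    nlinarith
  intro t
  have hper : Function.Periodic y 1 := hp
  have : y t = y (Int.fract t) := by
    rw [Int.fract]
    have := hper.sub_int_mul_eq (x := t) ⌊t⌋
    rw [mul_one] at this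
    exact this.symm
  rw [this]
  exact main _ ⟨Int.fract_nonneg t, (Int.fract_lt_one t).le⟩

lemma F_unit (t : ℝ) : IsUnit (L.F t) := by
  haveI : CompleteSpace P := FiniteDimensional.complete ℝ P
  have hinj : Function.Injective (L.F t) := by
    rw [injective_iff_map_eq_zero]
    intro v hv
    have := lin_unique L.A L.K L.hK (fun t => L.F t v) (L.hFv v) t hv 0
    simpa [L.hF0] using this
  have hsurj : Function.Surjective (L.F t) :=
    (LinearMap.injective_iff_surjective (f := (L.F t : P →ₗ[ℝ] P))).1 hinj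
  exact ContinuousLinearMap.isUnit_iff_bijective.2 ⟨hinj, hsurj⟩

lemma solve (h : ℝ → P) (hh : Continuous h) (hp : ∀ t, h (t + 1) = h t) :
    ∃ (y : ℝ → P) (τ : ℝ), (∀ t, HasDerivAt y (L.A t (y t) + τ • L.e t + h t) t) ∧
      (∀ t, y (t + 1) = y t) ∧ L.l (y 0) = 0 := by
  haveI : CompleteSpace P := FiniteDimensional.complete ℝ P
  have hFc : Continuous L.F := continuous_iff_continuousAt.2 fun t => (L.hF t).continuousAt
  set G : ℝ → P →L[ℝ] P := fun t => Ring.inverse (L.F t) with hG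
  have hGc : Continuous G := by
    refine continuous_iff_continuousAt.2 fun t => ?_
    obtain ⟨u, hu⟩ := L.F_unit t
    have h1 := NormedRing.inverse_continuousAt u
    rw [hu] at h1
    exact ContinuousAt.comp (f := L.F) h1 hFc.continuousAt
  have hFG : ∀ t v, L.F t (G t v) = v := by
    intro t v
    have := Ring.mul_inverse_cancel _ (L.F_unit t)
    have h2 := congrArg (fun M : P →L[ℝ] P => M v) this
    simpa using h2
  have hc : Continuous fun s => G s (h s) := hGc.clm_apply hh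
  set W : ℝ → P := fun t => ∫ s in (0:ℝ)..t, G s (h s) with hW
  have hWd : ∀ t, HasDerivAt W (G t (h t)) t :=
    fun t => (hc.integral_hasStrictDerivAt 0 t).hasDerivAt
  have hYd : ∀ t, HasDerivAt (fun t => L.F t (W t)) (L.A t (L.F t (W t)) + h t) t := by
    intro t
    have := (L.hF t).clm_apply (hWd t)
    simpa [hFG] using this
  obtain ⟨⟨v, τ⟩, hv⟩ := L.B_surj (L.F 1 (W 1), 0)
  rw [B_apply] at hv
  have hv1 := congrArg Prod.fst hv
  have hv2 := congrArg Prod.snd hv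
  simp only at hv1 hv2
  set y : ℝ → P := fun t => L.F t v + (τ * t) • L.e t + L.F t (W t) with hy
  have hyd : ∀ t, HasDerivAt y (L.A t (y t) + τ • L.e t + h t) t := by
    intro t
    have := (L.hom v τ t).add (hYd t)
    refine HasDerivAt.congr_deriv this ?_
    simp only [hy, map_add]
    abel
  have hy0 : y 0 = v := by simp [hy, L.hF0, hW]
  have he1 : L.e 1 = L.e 0 := by simpa using L.hep 0
  have hy1 : y 1 = v := by
    simp only [hy, he1, mul_one, ← hv1]
    abel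
  refine ⟨y, τ, hyd, ?_, by rw [hy0, hv2]⟩
  have hw : ∀ t, HasDerivAt (fun t => y (t + 1) - y t) (L.A t (y (t + 1) - y t)) t := by
    intro t
    have h1 := (hyd (t + 1)).comp_add_const t 1
    have := h1.sub (hyd t)
    refine HasDerivAt.congr_deriv this ?_
    rw [L.hAp, L.hep, hp, map_sub]
    abel
  have := lin_unique L.A L.K L.hK _ hw 0 (by simp [hy0, hy1])
  intro t
  exact sub_eq_zero.1 (this t)

end Lin

end Pool.Agent.H27.Rig
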