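import Pool.Agent.H27.Rig1

/-! Persistence and an `L¹` stability estimate for a nondegenerate periodic orbit. -/

open Set Metric

namespace Pool.Agent.H27.Rig

variable {P : Type*} [NormedAddCommGroup P] [NormedSpace ℝ P] [FiniteDimensional ℝ P]

/-- `C¹` closeness, uniformly on the whole space. -/
def Cl (f g : P → P) (η : ℝ) : Prop :=
  ∀ z, ‖g z - f z‖ ≤ η ∧ ‖fderiv ℝ g z - fderiv ℝ f z‖ ≤ η

omit [FiniteDimensional ℝ P] in
lemma Cl.mono {f g : P → P} {η η' : ℝ} (h : Cl f g η) (hη : η ≤ η') : Cl f g η' :=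
  fun z => ⟨(h z).1.trans hη, (h z).2.trans hη⟩

lemma per_bound {E : Type*} [NormedAddCommGroup E] (u : ℝ → E) (hc : Continuous u)
    (hp : ∀ t, u (t + 1) = u t) : ∃ R, 0 ≤ R ∧ ∀ t, ‖u t‖ ≤ R := by
  obtain ⟨M, hM⟩ := (isCompact_Icc (a := (0:ℝ)) (b := 1)).exists_bound_of_continuousOn
    hc.continuousOn
  refine ⟨M, (norm_nonneg _).trans (hM 0 ⟨le_rfl, zero_le_one⟩), fun t => ?_⟩
  have hper : Function.Periodic u 1 := hp
  have : u t = u (Int.fract t) := by
    rw [Int.fract]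
    have := hper.sub_int_mul_eq (x := t) ⌊t⌋
    rw [mul_one] at this
    exact this.symm
  rw [this]
  exact hM _ ⟨Int.fract_nonneg t, (Int.fract_lt_one t).le⟩

/-- Base data: a period-one reparametrised orbit with its linearisation. -/
structure Base (P : Type*) [NormedAddCommGroup P] [NormedSpace ℝ P] extends Lin P where
  f : P → P
  u : ℝ → P
  T : ℝ
  hT : 0 < T
  hf : ContDiff ℝ 1 f
  hu : ∀ t, HasDerivAt u (T • f (u t)) t
  hup : ∀ t, u (t + 1) = u t
  hA : ∀ t, A t = T • fderiv ℝ f (u t)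
  he' : ∀ t, e t = T • f (u t)

namespace Base

variable (B : Base P)

omit [FiniteDimensional ℝ P] in
lemma u_cont : Continuous B.u := continuous_iff_continuousAt.2 fun t => (B.hu t).continuousAt

lemma rem : ∃ Lp : ℝ, 0 < Lp ∧ ∀ κ > 0, ∃ δ > 0, δ ≤ B.T / 2 ∧ ∀ g : P → P, ContDiff ℝ 1 g →
    Cl B.f g δ → ∀ t a b, ‖a - B.u t‖ ≤ δ → ‖b - B.u t‖ ≤ δ →
      ‖g a - g b‖ ≤ Lp * ‖a - b‖ ∧ ‖g a - B.f (B.u t)‖ ≤ κ ∧
      ∀ S, |S - B.T| ≤ δ → ‖S • (g a - g b) - B.A t (a - b)‖ ≤ κ * ‖a - b‖ := by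
  obtain ⟨R, hR0, hR⟩ := per_bound B.u B.u_cont B.hup
  have hK : IsCompact (closedBall (0:P) (R + 1)) := isCompact_closedBall _ _
  have hDc : Continuous (fderiv ℝ B.f) := B.hf.continuous_fderiv one_ne_zero
  obtain ⟨M, hM⟩ := hK.exists_bound_of_continuousOn hDc.continuousOn
  have hM0 : 0 ≤ M := (norm_nonneg _).trans (hM 0 (mem_closedBall_self (by linarith)))
  have hT := B.hT
  refine ⟨M + 1, by linarith, fun κ hκ => ?_⟩
  have hU := hK.uniformContinuousOn_of_continuous hDc.continuousOn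
  rw [Metric.uniformContinuousOn_iff_le] at hU
  obtain ⟨δ1, hδ1, hU⟩ := hU (κ / (3 * B.T)) (by positivity)
  set δ := min (min (min δ1 1) (B.T / 2)) (κ / (3 * (M + 2 + B.T))) with hδ
  have h1 : δ ≤ δ1 := (min_le_left _ _).trans ((min_le_left _ _).trans (min_le_left _ _))
  have h2 : δ ≤ 1 := (min_le_left _ _).trans ((min_le_left _ _).trans (min_le_right _ _))
  have h3 : δ ≤ B.T / 2 := (min_le_left _ _).trans (min_le_right _ _)
  have h4 : δ ≤ κ / (3 * (M + 2 + B.T)) := min_le_right _ _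
  have h0 : 0 < δ := by positivity
  have h5 : δ * (3 * (M + 2 + B.T)) ≤ κ := by rwa [le_div_iff₀ (by positivity)] at h4
  refine ⟨δ, h0, h3, fun g hg hcl t a b ha hb => ?_⟩
  have hsub : ∀ z ∈ closedBall (B.u t) δ, z ∈ closedBall (0:P) (R + 1) := by
    intro z hz
    rw [mem_closedBall, dist_eq_norm] at hz
    rw [mem_closedBall, dist_zero_right]
    have := norm_add_le (z - B.u t) (B.u t)
    rw [sub_add_cancel] at this
    linarith [hR t]
  have hgd : Differentiable ℝ g := hg.differentiable one_ne_zero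
  have hDg : ∀ z ∈ closedBall (B.u t) δ, ‖fderiv ℝ g z‖ ≤ M + 1 := by
    intro z hz
    have := norm_add_le (fderiv ℝ g z - fderiv ℝ B.f z) (fderiv ℝ B.f z)
    rw [sub_add_cancel] at this
    linarith [(hcl z).2, hM z (hsub z hz)]
  have ha' : a ∈ closedBall (B.u t) δ := by rwa [mem_closedBall, dist_eq_norm]
  have hb' : b ∈ closedBall (B.u t) δ := by rwa [mem_closedBall, dist_eq_norm]
  have hu' : B.u t ∈ closedBall (B.u t) δ := mem_closedBall_self h0.le
  have hL : ∀ a ∈ closedBall (B.u t) δ, ∀ b ∈ closedBall (B.u t) δ,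
      ‖g a - g b‖ ≤ (M + 1) * ‖a - b‖ := fun a ha b hb =>
    (convex_closedBall _ _).norm_image_sub_le_of_norm_fderiv_le (fun z _ => hgd z) hDg hb ha
  refine ⟨hL a ha' b hb', ?_, fun S hS => ?_⟩
  · have e1 := hL a ha' _ hu'
    have e2 := (hcl (B.u t)).1
    have := norm_add_le (g a - g (B.u t)) (g (B.u t) - B.f (B.u t))
    rw [sub_add_sub_cancel] at this
    nlinarith
  · have hSd : ∀ z ∈ closedBall (B.u t) δ, HasFDerivWithinAt (fun z => S • g z)
        (S • fderiv ℝ g z) (closedBall (B.u t) δ) z :=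
      fun z _ => ((hgd z).hasFDerivAt.const_smul S).hasFDerivWithinAt
    have hbd : ∀ z ∈ closedBall (B.u t) δ, ‖S • fderiv ℝ g z - B.A t‖ ≤ κ := by
      intro z hz
      have e0 : S • fderiv ℝ g z - B.A t = (S - B.T) • fderiv ℝ g z +
          B.T • (fderiv ℝ g z - fderiv ℝ B.f z) +
          B.T • (fderiv ℝ B.f z - fderiv ℝ B.f (B.u t)) := by
        rw [B.hA]
        module
      have e1 : ‖(S - B.T) • fderiv ℝ g z‖ ≤ δ * (M + 1) := by
        rw [norm_smul, Real.norm_eq_abs]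
        exact mul_le_mul hS (hDg z hz) (norm_nonneg _) h0.le
      have e2 : ‖B.T • (fderiv ℝ g z - fderiv ℝ B.f z)‖ ≤ B.T * δ := by
        rw [norm_smul, Real.norm_eq_abs, abs_of_pos hT]
        exact mul_le_mul_of_nonneg_left (hcl z).2 hT.le
      have e3 : ‖B.T • (fderiv ℝ B.f z - fderiv ℝ B.f (B.u t))‖ ≤ κ / 3 := by
        rw [norm_smul, Real.norm_eq_abs, abs_of_pos hT]
        have := hU z (hsub z hz) _ (hsub _ hu') ((mem_closedBall.1 hz).trans h1)
        rw [dist_eq_norm] at this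
        calc _ ≤ B.T * (κ / (3 * B.T)) := mul_le_mul_of_nonneg_left this hT.le
          _ = κ / 3 := by field_simp
      rw [e0]
      refine (norm_add₃_le).trans ?_
      nlinarith
    have := (convex_closedBall _ _).norm_image_sub_le_of_norm_hasFDerivWithin_le' hSd hbd hb' ha'
    rwa [← smul_sub] at this

/-- `(v, S)` is a normalised periodic solution of `g` that is `δ`-close to the base orbit. -/
def Sol (g : P → P) (v : ℝ → P) (S δ : ℝ) : Prop :=
  (∀ t, HasDerivAt v (S • g (v t)) t) ∧ (∀ t, v (t + 1) = v t) ∧ B.l (v 0 - B.u 0) = 0 ∧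
    (∀ t, ‖v t - B.u t‖ ≤ δ) ∧ |S - B.T| ≤ δ

omit [FiniteDimensional ℝ P] in
lemma Sol.mono {B : Base P} {g : P → P} {v : ℝ → P} {S δ δ' : ℝ} (h : B.Sol g v S δ)
    (hδ : δ ≤ δ') : B.Sol g v S δ' :=
  ⟨h.1, h.2.1, h.2.2.1, fun t => (h.2.2.2.1 t).trans hδ, h.2.2.2.2.trans hδ⟩

omit [FiniteDimensional ℝ P] in
lemma dbound {g : P → P} {t κ S1 S2 τ : ℝ} {a b : P} (hτ : S1 - S2 = τ * B.T)
    (h1 : ‖g a - B.f (B.u t)‖ ≤ κ) (h2 : ‖S2 • (g a - g b) - B.A t (a - b)‖ ≤ κ * ‖a - b‖) :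
    ‖S1 • g a - S2 • g b - B.A t (a - b) - τ • B.e t‖ ≤ κ * ‖a - b‖ + |τ| * B.T * κ := by
  have hS : S1 = S2 + τ * B.T := by linarith
  have e0 : S1 • g a - S2 • g b - B.A t (a - b) - τ • B.e t =
      (S2 • (g a - g b) - B.A t (a - b)) + (τ * B.T) • (g a - B.f (B.u t)) := by
    rw [B.he', hS]
    module
  rw [e0]
  refine (norm_add_le _ _).trans (add_le_add h2 ?_)
  rw [norm_smul, Real.norm_eq_abs, abs_mul, abs_of_pos B.hT]
  exact mul_le_mul_of_nonneg_left h1 (mul_nonneg (abs_nonneg _) B.hT.le)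

lemma stab : ∃ C δ Lp : ℝ, 0 < C ∧ 0 < δ ∧ 0 < Lp ∧ δ ≤ B.T / 2 ∧
    (∀ g : P → P, ContDiff ℝ 1 g → Cl B.f g δ → ∀ t a b, ‖a - B.u t‖ ≤ δ → ‖b - B.u t‖ ≤ δ →
      ‖g a - g b‖ ≤ Lp * ‖a - b‖) ∧
    ∀ (g1 g2 : P → P) (v1 v2 : ℝ → P) (S1 S2 : ℝ), Continuous g1 → ContDiff ℝ 1 g2 →
      Cl B.f g2 δ → B.Sol g1 v1 S1 δ → B.Sol g2 v2 S2 δ →
      ∀ t, ‖v1 t - v2 t‖ ≤ C * ∫ s in (0:ℝ)..1, ‖g1 (v1 s) - g2 (v1 s)‖ := by
  obtain ⟨Lp, hLp, hrem⟩ := B.rem
  obtain ⟨C, hC0, hC⟩ := B.toLin.est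
  have hT := B.hT
  set κ := 1 / (2 * C * (1 + B.T)) with hκ
  have hκ0 : 0 < κ := by positivity
  have hκ1 : C * κ * (1 + B.T) = 1 / 2 := by rw [hκ]; field_simp
  obtain ⟨δ, hδ0, hδT, hδ⟩ := hrem κ hκ0
  refine ⟨4 * B.T * C, δ, Lp, by positivity, hδ0, hLp, hδT,
    fun g hg hcl t a b ha hb => (hδ g hg hcl t a b ha hb).1, ?_⟩
  intro g1 g2 v1 v2 S1 S2 hg1 hg2 hcl h1 h2
  obtain ⟨d1, p1, l1, c1, s1⟩ := h1
  obtain ⟨d2, p2, l2, c2, s2⟩ := h2
  set τ := (S1 - S2) / B.T with hτ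
  have hτ' : S1 - S2 = τ * B.T := by rw [hτ]; field_simp
  have v1c : Continuous v1 := continuous_iff_continuousAt.2 fun t => (d1 t).continuousAt
  have v2c : Continuous v2 := continuous_iff_continuousAt.2 fun t => (d2 t).continuousAt
  have hg2c := hg2.continuous
  have hAc : Continuous B.A := by
    have : B.A = fun t => B.T • fderiv ℝ B.f (B.u t) := funext B.hA
    rw [this]
    exact ((B.hf.continuous_fderiv one_ne_zero).comp B.u_cont).const_smul B.T
  have hec : Continuous B.e := continuous_iff_continuousAt.2 fun t => (B.he t).continuousAt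
  set h : ℝ → P := fun t => S1 • g1 (v1 t) - S2 • g2 (v2 t) - B.A t (v1 t - v2 t) - τ • B.e t
    with hh
  have hhc : Continuous h := by
    refine Continuous.sub (Continuous.sub (by fun_prop) (hAc.clm_apply (v1c.sub v2c))) (by fun_prop)
  have hy : ∀ t, HasDerivAt (fun t => v1 t - v2 t)
      (B.A t (v1 t - v2 t) + τ • B.e t + h t) t := by
    intro t
    refine HasDerivAt.congr_deriv ((d1 t).sub (d2 t)) ?_
    simp only [hh]
    abel
  have key := hC (fun t => v1 t - v2 t) h τ hhc hy (fun t => by simp only [p1, p2]) (by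
    have : v1 0 - v2 0 = (v1 0 - B.u 0) - (v2 0 - B.u 0) := by abel
    simp only [this, map_sub (B.l) (v1 0 - B.u 0), l1, l2, sub_zero])
  have hbdd : BddAbove (range fun t => ‖v1 t - v2 t‖) := by
    refine ⟨2 * δ, ?_⟩
    rintro _ ⟨t, rfl⟩
    have := norm_sub_le (v1 t - B.u t) (v2 t - B.u t)
    rw [sub_sub_sub_cancel_right] at this
    linarith [c1 t, c2 t]
  set M := ⨆ t, ‖v1 t - v2 t‖ with hM
  have hMle : ∀ t, ‖v1 t - v2 t‖ ≤ M := fun t => le_ciSup hbdd t
  have hM0 : 0 ≤ M := (norm_nonneg _).trans (hMle 0)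
  set I := ∫ s in (0:ℝ)..1, ‖g1 (v1 s) - g2 (v1 s)‖ with hI
  have hS1 : |S1| ≤ 2 * B.T := by
    rw [abs_le] at s1 ⊢
    constructor <;> linarith [s1.1, s1.2]
  have hpt : ∀ s, ‖h s‖ ≤ 2 * B.T * ‖g1 (v1 s) - g2 (v1 s)‖ + κ * (1 + B.T) * (M + |τ|) := by
    intro s
    obtain ⟨-, r1, r2⟩ := hδ g2 hg2 hcl s (v1 s) (v2 s) (c1 s) (c2 s)
    have r3 := B.dbound hτ' r1 (r2 S2 s2)
    have e0 : h s = S1 • (g1 (v1 s) - g2 (v1 s)) +
        (S1 • g2 (v1 s) - S2 • g2 (v2 s) - B.A s (v1 s - v2 s) - τ • B.e s) := by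
      simp only [hh]
      module
    rw [e0]
    refine (norm_add_le _ _).trans (add_le_add ?_ (r3.trans ?_))
    · rw [norm_smul, Real.norm_eq_abs]
      exact mul_le_mul_of_nonneg_right hS1 (norm_nonneg _)
    · have := hMle s
      have := abs_nonneg τ
      have a1 : κ * ‖v1 s - v2 s‖ ≤ κ * M := by gcongr
      have a2 : 0 ≤ κ * B.T * M := by positivity
      have a3 : 0 ≤ κ * |τ| := by positivity
      nlinarith
  have hint : ∫ s in (0:ℝ)..1, ‖h s‖ ≤ 2 * B.T * I + κ * (1 + B.T) * (M + |τ|) := by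
    have hc1 : Continuous fun s => ‖g1 (v1 s) - g2 (v1 s)‖ := by fun_prop
    calc ∫ s in (0:ℝ)..1, ‖h s‖ ≤ ∫ s in (0:ℝ)..1,
          (2 * B.T * ‖g1 (v1 s) - g2 (v1 s)‖ + κ * (1 + B.T) * (M + |τ|)) :=
          intervalIntegral.integral_mono_on zero_le_one (hhc.norm.intervalIntegrable _ _)
            (((hc1.const_mul _).add continuous_const).intervalIntegrable _ _) (fun s _ => hpt s)
      _ = _ := by
          rw [intervalIntegral.integral_add ((hc1.const_mul _).intervalIntegrable _ _)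
            (continuous_const.intervalIntegrable _ _), intervalIntegral.integral_const_mul]
          simp [hI]
  have hM2 : M ≤ C * (2 * B.T * I + κ * (1 + B.T) * (M + |τ|)) - |τ| := by
    refine ciSup_le fun t => ?_
    have := key t
    have := mul_le_mul_of_nonneg_left hint hC0.le
    linarith
  have e1 : C * (2 * B.T * I + κ * (1 + B.T) * (M + |τ|)) =
      2 * B.T * C * I + (C * κ * (1 + B.T)) * (M + |τ|) := by ring
  rw [e1, hκ1] at hM2
  intro t
  have := hMle t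
  have := abs_nonneg τ
  linarith

lemma exist (δ : ℝ) (hδ : 0 < δ) : ∃ η > 0, ∀ g : P → P, ContDiff ℝ 1 g → Cl B.f g η →
    ∃ v S, B.Sol g v S δ := by
  haveI : CompleteSpace P := FiniteDimensional.complete ℝ P
  obtain ⟨Lp, hLp, hrem⟩ := B.rem
  obtain ⟨C, hC0, hC⟩ := B.toLin.est
  have hT := B.hT
  set κ := 1 / (2 * C * (1 + B.T)) with hκ
  have hκ0 : 0 < κ := by positivity
  have hκ1 : C * κ * (1 + B.T) = 1 / 2 := by rw [hκ]; field_simp
  obtain ⟨δ0, hδ0, hδT, hδ'⟩ := hrem κ hκ0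
  set r := min δ δ0 / (1 + B.T) with hr
  have hr0 : 0 < r := by positivity
  have hr1 : r * (1 + B.T) = min δ δ0 := by rw [hr]; field_simp
  have hrT : 0 < r * B.T := by positivity
  have hra : r ≤ δ0 := by nlinarith [min_le_right δ δ0]
  have hrb : r * B.T ≤ δ0 := by nlinarith [min_le_right δ δ0]
  have hrc : r ≤ δ := by nlinarith [min_le_left δ δ0]
  have hrd : r * B.T ≤ δ := by nlinarith [min_le_left δ δ0]
  refine ⟨min δ0 (r / (4 * B.T * C)), by positivity, fun g hg hcl => ?_⟩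
  have hcl0 : Cl B.f g δ0 := hcl.mono (min_le_left _ _)
  have hcl1 : Cl B.f g (r / (4 * B.T * C)) := hcl.mono (min_le_right _ _)
  have hgc := hg.continuous
  have huc := B.u_cont
  have hfc := B.hf.continuous
  have hAc : Continuous B.A := by
    have : B.A = fun t => B.T • fderiv ℝ B.f (B.u t) := funext B.hA
    rw [this]
    exact ((B.hf.continuous_fderiv one_ne_zero).comp B.u_cont).const_smul B.T
  have hec : Continuous B.e := continuous_iff_continuousAt.2 fun t => (B.he t).continuousAt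
  set s : Set (BoundedContinuousFunction ℝ P × ℝ) :=
    {z | (∀ t, z.1 (t + 1) = z.1 t) ∧ ‖z‖ ≤ r} with hs
  have hsc : IsClosed s := by
    refine IsClosed.inter ?_ (isClosed_le continuous_norm continuous_const)
    show IsClosed {z : BoundedContinuousFunction ℝ P × ℝ | ∀ t, z.1 (t + 1) = z.1 t}
    rw [setOf_forall]
    exact isClosed_iInter fun t => isClosed_eq (by fun_prop) (by fun_prop)
  haveI : CompleteSpace s := hsc.completeSpace_coe
  haveI : Nonempty s := ⟨⟨0, fun t => rfl, by simpa using hr0.le⟩⟩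
  set h : BoundedContinuousFunction ℝ P × ℝ → ℝ → P := fun z t =>
    (B.T + z.2 * B.T) • g (B.u t + z.1 t) - B.T • B.f (B.u t) - B.A t (z.1 t) - z.2 • B.e t
    with hh
  have hhc : ∀ z, Continuous (h z) := by
    intro z
    refine Continuous.sub (Continuous.sub (by fun_prop) (hAc.clm_apply z.1.continuous))
      (by fun_prop)
  have hz1 : ∀ z ∈ s, ∀ t, ‖z.1 t‖ ≤ r := fun z hz t =>
    (z.1.norm_coe_le_norm t).trans ((norm_fst_le z).trans hz.2)
  have hz2 : ∀ z ∈ s, |z.2| ≤ r := fun z hz => (norm_snd_le z).trans hz.2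
  have hz3 : ∀ z ∈ s, ∀ t, ‖B.u t + z.1 t - B.u t‖ ≤ δ0 := fun z hz t => by
    rw [add_sub_cancel_left]; exact (hz1 z hz t).trans hra
  have hz4 : ∀ z ∈ s, |B.T + z.2 * B.T - B.T| ≤ r * B.T := fun z hz => by
    rw [add_sub_cancel_left, abs_mul, abs_of_pos hT]
    exact mul_le_mul_of_nonneg_right (hz2 z hz) hT.le
  have hconst : ∀ (k : ℝ → P) (c : ℝ), Continuous k → (∀ t, ‖k t‖ ≤ c) →
      ∫ s in (0:ℝ)..1, ‖k s‖ ≤ c := by
    intro k c hk hc
    calc ∫ s in (0:ℝ)..1, ‖k s‖ ≤ ∫ _ in (0:ℝ)..1, c :=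
          intervalIntegral.integral_mono_on zero_le_one (hk.norm.intervalIntegrable _ _)
            (continuous_const.intervalIntegrable _ _) (fun s _ => hc s)
      _ = c := by simp
  have hex : ∀ z : s, ∃ w : s, (∀ t, HasDerivAt w.1.1
      (B.A t (w.1.1 t) + w.1.2 • B.e t + h z t) t) ∧ B.l (w.1.1 0) = 0 := by
    rintro ⟨z, hz⟩
    obtain ⟨y, τ, hy, hp, hl⟩ := B.toLin.solve (h z) (hhc z) (fun t => by
      simp only [hh, hz.1, B.hup, B.hAp, B.hep])
    have hb : ∀ t, ‖h z t‖ ≤ κ * r + 2 * B.T * (r / (4 * B.T * C)) := by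
      intro t
      obtain ⟨-, -, r2⟩ := hδ' g hg hcl0 t (B.u t + z.1 t) (B.u t) (hz3 z hz t) (by simpa using hδ0.le)
      have r3 := r2 _ ((hz4 z hz).trans hrb)
      rw [add_sub_cancel_left] at r3
      have e0 : h z t = ((B.T + z.2 * B.T) • (g (B.u t + z.1 t) - g (B.u t)) - B.A t (z.1 t)) +
          (B.T + z.2 * B.T) • (g (B.u t) - B.f (B.u t)) := by
        simp only [hh, B.he']
        module
      rw [e0]
      refine (norm_add_le _ _).trans (add_le_add (r3.trans ?_) ?_)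
      · exact mul_le_mul_of_nonneg_left (hz1 z hz t) hκ0.le
      · rw [norm_smul, Real.norm_eq_abs]
        refine mul_le_mul ?_ (hcl1 _).1 (norm_nonneg _) (by positivity)
        have := abs_le.1 ((hz4 z hz).trans hrb)
        rw [abs_le]
        constructor <;> linarith [this.1, this.2]
    have key := hC y (h z) τ (hhc z) hy hp hl
    have hI := mul_le_mul_of_nonneg_left (hconst _ _ (hhc z) hb) hC0.le
    have e1 : C * (κ * r + 2 * B.T * (r / (4 * B.T * C))) = C * κ * r + r / 2 := by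
      field_simp; ring
    have e2 : C * κ * r ≤ r / 2 := by
      have : 0 ≤ C * κ * B.T := by positivity
      nlinarith
    have key2 : ∀ t, ‖y t‖ + |τ| ≤ r := fun t => by linarith [key t]
    have hyc : Continuous y := continuous_iff_continuousAt.2 fun t => (hy t).continuousAt
    have hyb : ∀ t, ‖y t‖ ≤ r := fun t => by linarith [key2 t, abs_nonneg τ]
    refine ⟨⟨(BoundedContinuousFunction.ofNormedAddCommGroup y hyc r hyb, τ), hp, ?_⟩, hy, hl⟩
    rw [Prod.norm_def]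
    refine max_le ((BoundedContinuousFunction.norm_le hr0.le).2 hyb) ?_
    have := key2 0
    have := norm_nonneg (y 0)
    show |τ| ≤ r
    linarith
  choose Φ hΦ using hex
  have hcon : ContractingWith (1 / 2) Φ := by
    refine ⟨by norm_num, LipschitzWith.of_dist_le_mul fun z w => ?_⟩
    have hy : ∀ t, HasDerivAt (fun t => (Φ z).1.1 t - (Φ w).1.1 t)
        (B.A t ((Φ z).1.1 t - (Φ w).1.1 t) + ((Φ z).1.2 - (Φ w).1.2) • B.e t +
          (h z t - h w t)) t := by
      intro t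
      refine HasDerivAt.congr_deriv (((hΦ z).1 t).sub ((hΦ w).1 t)) ?_
      rw [map_sub]
      module
    have key := hC _ (fun t => h z t - h w t) _ ((hhc z).sub (hhc w)) hy
      (fun t => by simp only [(Φ z).2.1 t, (Φ w).2.1 t]) (by
        simp only [map_sub, (hΦ z).2, (hΦ w).2, sub_zero])
    have hd1 : ∀ t, ‖z.1.1 t - w.1.1 t‖ ≤ dist z w := fun t => by
      rw [Subtype.dist_eq, dist_eq_norm]
      exact ((z.1 - w.1).1.norm_coe_le_norm t).trans (norm_fst_le _)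
    have hd2 : |z.1.2 - w.1.2| ≤ dist z w := by
      rw [Subtype.dist_eq, dist_eq_norm]
      exact norm_snd_le (z.1 - w.1)
    have hb : ∀ t, ‖h z t - h w t‖ ≤ κ * (1 + B.T) * dist z w := by
      intro t
      obtain ⟨-, r1, r2⟩ := hδ' g hg hcl0 t (B.u t + z.1.1 t) (B.u t + w.1.1 t)
        (hz3 _ z.2 t) (hz3 _ w.2 t)
      have r3 := B.dbound (S1 := B.T + z.1.2 * B.T) (τ := z.1.2 - w.1.2) (by ring) r1
        (r2 _ ((hz4 _ w.2).trans hrb))
      rw [add_sub_add_left_eq_sub] at r3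
      have e0 : h z t - h w t = (B.T + z.1.2 * B.T) • g (B.u t + z.1.1 t) -
          (B.T + w.1.2 * B.T) • g (B.u t + w.1.1 t) - B.A t (z.1.1 t - w.1.1 t) -
          (z.1.2 - w.1.2) • B.e t := by
        simp only [hh, map_sub]
        module
      rw [e0]
      refine r3.trans ?_
      have a1 : κ * ‖z.1.1 t - w.1.1 t‖ ≤ κ * dist z w := by gcongr; exact hd1 t
      have a2 : |z.1.2 - w.1.2| * B.T * κ ≤ dist z w * B.T * κ := by gcongr
      nlinarith
    have hI := mul_le_mul_of_nonneg_left (hconst (fun t => h z t - h w t) _ ((hhc z).sub (hhc w)) hb) hC0.le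
    have e1 : C * (κ * (1 + B.T) * dist z w) = (C * κ * (1 + B.T)) * dist z w := by ring
    rw [e1, hκ1] at hI
    have hd0 : 0 ≤ dist z w := dist_nonneg
    rw [Subtype.dist_eq, dist_eq_norm, Prod.norm_def]
    push_cast
    refine max_le ((BoundedContinuousFunction.norm_le (by positivity)).2 fun t => ?_) ?_
    · have := key t
      have := abs_nonneg ((Φ z).1.2 - (Φ w).1.2)
      show ‖(Φ z).1.1 t - (Φ w).1.1 t‖ ≤ _
      linarith
    · have := key 0
      have := norm_nonneg ((Φ z).1.1 0 - (Φ w).1.1 0)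
      show |(Φ z).1.2 - (Φ w).1.2| ≤ _
      linarith
  set z := hcon.fixedPoint Φ with hz
  have hfix : Φ z = z := hcon.fixedPoint_isFixedPt
  have hz' := hΦ z
  rw [hfix] at hz'
  refine ⟨fun t => B.u t + z.1.1 t, B.T + z.1.2 * B.T, fun t => ?_, fun t => ?_, ?_, fun t => ?_, ?_⟩
  · refine HasDerivAt.congr_deriv ((B.hu t).add (hz'.1 t)) ?_
    simp only [hh]
    abel
  · simp only [B.hup, z.2.1 t]
  · simpa using hz'.2
  · rw [add_sub_cancel_left]
    exact (hz1 _ z.2 t).trans hrc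
  · exact (hz4 _ z.2).trans hrd

end Base

end Pool.Agent.H27.Rig
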