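import Pool.Agent.H27.RigDef

/-! Test perturbations for networks. -/

open Set Metric
open scoped ContDiff

namespace Pool.Agent.H27.Rig

lemma Eqv.dim {a b : ℕ} {v : Fin a → ℝ} {w : Fin b → ℝ} (h : Eqv v w) : a = b := by
  have := congrArg List.length h
  simpa using this

lemma Eqv.eq {a : ℕ} {v w : Fin a → ℝ} (h : Eqv v w) : v = w := List.ofFn_injective h

lemma Eqv.rfl {a : ℕ} {v : Fin a → ℝ} : Eqv v v := Eq.refl _

lemma Eqv.symm {a b : ℕ} {v : Fin a → ℝ} {w : Fin b → ℝ} (h : Eqv v w) : Eqv w v := Eq.symm h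

lemma Eqv.trans {a b c : ℕ} {v : Fin a → ℝ} {w : Fin b → ℝ} {z : Fin c → ℝ} (h : Eqv v w)
    (h' : Eqv w z) : Eqv v z := Eq.trans h h'

lemma Eqv.add {a b : ℕ} {v v' : Fin a → ℝ} {w w' : Fin b → ℝ} (h : Eqv v w) (h' : Eqv v' w') :
    Eqv (v + v') (w + w') := by
  obtain rfl := h.dim
  rw [h.eq, h'.eq]
  exact Eqv.rfl

lemma Eqv.smul {a b : ℕ} {v : Fin a → ℝ} {w : Fin b → ℝ} (h : Eqv v w) (r : ℝ) :
    Eqv (r • v) (r • w) := by
  obtain rfl := h.dim
  rw [h.eq]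
  exact Eqv.rfl

lemma Eqv.zero {a b : ℕ} (h : a = b) : Eqv (0 : Fin a → ℝ) (0 : Fin b → ℝ) := by
  subst h
  exact Eqv.rfl

/-- Padding by zeros or truncation. -/
noncomputable def Jm (a b : ℕ) : (Fin a → ℝ) →L[ℝ] (Fin b → ℝ) :=
  ContinuousLinearMap.pi fun i => if h : i.val < a then ContinuousLinearMap.proj ⟨i.val, h⟩ else 0

lemma Jm_apply (a b : ℕ) (v : Fin a → ℝ) (i : Fin b) :
    Jm a b v i = if h : i.val < a then v ⟨i.val, h⟩ else 0 := by
  simp only [Jm, ContinuousLinearMap.pi_apply]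
  split_ifs <;> simp

lemma Jm_Jm {a K : ℕ} (h : a ≤ K) (v : Fin a → ℝ) : Jm K a (Jm a K v) = v := by
  ext i
  have : i.val < K := i.2.trans_le h
  simp [Jm_apply, this]

lemma Jm_norm (a b : ℕ) (v : Fin a → ℝ) : ‖Jm a b v‖ ≤ ‖v‖ := by
  refine (pi_norm_le_iff_of_nonneg (norm_nonneg _)).2 fun i => ?_
  rw [Jm_apply]
  split_ifs
  · exact norm_le_pi_norm v _
  · simp

lemma Jm_eqv {a b K : ℕ} (h : a = b) (w : Fin K → ℝ) : Eqv (Jm K a w) (Jm K b w) := by
  subst h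
  exact Eqv.rfl

/-- Common embedding of all state spaces. -/
noncomputable def emb (K : ℕ) {a : ℕ} (v : Fin a → ℝ) : ℝ × (Fin K → ℝ) := ((a : ℝ), Jm a K v)

lemma emb_of_eqv (K : ℕ) {a b : ℕ} {v : Fin a → ℝ} {w : Fin b → ℝ} (h : Eqv v w) :
    emb K v = emb K w := by
  obtain rfl := h.dim
  rw [h.eq]

lemma eqv_of_emb {K a b : ℕ} (ha : a ≤ K) {v : Fin a → ℝ} {w : Fin b → ℝ}
    (h : emb K v = emb K w) : Eqv v w := by
  have h1 : (a : ℝ) = b := congrArg Prod.fst h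
  obtain rfl : a = b := by exact_mod_cast h1
  have h2 : Jm a K v = Jm a K w := congrArg Prod.snd h
  have : v = w := by rw [← Jm_Jm ha v, h2, Jm_Jm ha]
  rw [this]
  exact Eqv.rfl

lemma emb_dist (K : ℕ) {a : ℕ} (v w : Fin a → ℝ) : dist (emb K v) (emb K w) ≤ ‖v - w‖ := by
  rw [dist_eq_norm]
  have : emb K v - emb K w = (0, Jm a K (v - w)) := by simp [emb]
  rw [this, Prod.norm_def]
  exact max_le (by simp) (Jm_norm _ _ _)

lemma emb_cont (K a : ℕ) : Continuous fun v : Fin a → ℝ => emb K v :=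
  continuous_const.prodMk (Jm a K).continuous

section BC

variable {E F E' : Type*} [NormedAddCommGroup E] [NormedSpace ℝ E] [NormedAddCommGroup F]
  [NormedSpace ℝ F] [NormedAddCommGroup E'] [NormedSpace ℝ E']

/-- Smooth, bounded and globally Lipschitz. -/
def BC (h : E → F) : Prop :=
  ContDiff ℝ ∞ h ∧ ∃ M, 0 ≤ M ∧ ∀ z, ‖h z‖ ≤ M ∧ ∀ w, ‖h z - h w‖ ≤ M * ‖z - w‖

lemma BC.const (c : F) : BC fun _ : E => c :=
  ⟨contDiff_const, ‖c‖, norm_nonneg _, fun z => ⟨le_rfl, fun w => by simp; positivity⟩⟩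

lemma BC.add {h1 h2 : E → F} (a : BC h1) (b : BC h2) : BC fun z => h1 z + h2 z := by
  obtain ⟨c1, M1, p1, b1⟩ := a
  obtain ⟨c2, M2, p2, b2⟩ := b
  refine ⟨c1.add c2, M1 + M2, by positivity, fun z => ⟨?_, fun w => ?_⟩⟩
  · exact (norm_add_le _ _).trans (add_le_add (b1 z).1 (b2 z).1)
  · have : h1 z + h2 z - (h1 w + h2 w) = (h1 z - h1 w) + (h2 z - h2 w) := by abel
    rw [this, add_mul]
    exact (norm_add_le _ _).trans (add_le_add ((b1 z).2 w) ((b2 z).2 w))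

lemma BC.smul {h1 : E → ℝ} {h2 : E → F} (a : BC h1) (b : BC h2) : BC fun z => h1 z • h2 z := by
  obtain ⟨c1, M1, p1, b1⟩ := a
  obtain ⟨c2, M2, p2, b2⟩ := b
  refine ⟨c1.smul c2, 2 * (M1 * M2), by positivity, fun z => ⟨?_, fun w => ?_⟩⟩
  · rw [norm_smul]
    have := mul_le_mul (b1 z).1 (b2 z).1 (norm_nonneg _) p1
    have : 0 ≤ M1 * M2 := by positivity
    linarith
  · have : h1 z • h2 z - h1 w • h2 w = h1 z • (h2 z - h2 w) + (h1 z - h1 w) • h2 w := by module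
    rw [this]
    refine (norm_add_le _ _).trans ?_
    rw [norm_smul, norm_smul]
    have e1 := mul_le_mul (b1 z).1 ((b2 z).2 w) (norm_nonneg _) p1
    have e2 := mul_le_mul ((b1 z).2 w) (b2 w).1 (norm_nonneg _) (by positivity)
    nlinarith

lemma BC.sum {ι : Type*} (s : Finset ι) {h : ι → E → F} (a : ∀ i ∈ s, BC (h i)) :
    BC fun z => ∑ i ∈ s, h i z := by
  classical
  induction s using Finset.induction_on with
  | empty => simpa using BC.const (0:F)
  | insert i s hi ih =>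
    simp only [Finset.sum_insert hi]
    exact (a i (Finset.mem_insert_self _ _)).add (ih fun j hj => a j (Finset.mem_insert_of_mem hj))

lemma BC.comp {h : E → F} (a : BC h) (c : E) (L : E' →L[ℝ] E) : BC fun z => h (c + L z) := by
  obtain ⟨c1, M1, p1, b1⟩ := a
  refine ⟨c1.comp (contDiff_const.add L.contDiff), M1 * (1 + ‖L‖), by positivity,
    fun z => ⟨?_, fun w => ?_⟩⟩
  · have := (b1 (c + L z)).1
    have : 0 ≤ M1 * ‖L‖ := by positivity
    nlinarith
  · refine ((b1 _).2 _).trans ?_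
    rw [add_sub_add_left_eq_sub, ← map_sub, mul_assoc]
    refine mul_le_mul_of_nonneg_left ((L.le_opNorm _).trans ?_) p1
    nlinarith [norm_nonneg (z - w)]

lemma BC.pi {ι : Type*} [Fintype ι] {F : ι → Type*} [∀ i, NormedAddCommGroup (F i)]
    [∀ i, NormedSpace ℝ (F i)] {h : E → ∀ i, F i} (a : ∀ i, BC fun z => h z i) : BC h := by
  choose M hM0 hM using fun i => (a i).2
  have hS : 0 ≤ ∑ i, M i := Finset.sum_nonneg fun i _ => hM0 i
  have hle : ∀ i, M i ≤ ∑ i, M i := fun i =>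
    Finset.single_le_sum (fun j _ => hM0 j) (Finset.mem_univ i)
  refine ⟨contDiff_pi.2 fun i => (a i).1, ∑ i, M i, hS, fun z => ⟨?_, fun w => ?_⟩⟩
  · exact (pi_norm_le_iff_of_nonneg hS).2 fun i => (hM i z).1.trans (hle i)
  · exact (pi_norm_le_iff_of_nonneg (by positivity)).2 fun i =>
      ((hM i z).2 w).trans (mul_le_mul_of_nonneg_right (hle i) (norm_nonneg _))

lemma BC.bump [FiniteDimensional ℝ E] {c : E} (φ : ContDiffBump c) : BC (φ : E → ℝ) := by
  obtain ⟨C, hC⟩ := ContDiff.lipschitzWith_of_hasCompactSupport φ.hasCompactSupport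
    (φ.contDiff (n := 1)) one_ne_zero
  refine ⟨φ.contDiff, 1 + C, by positivity, fun z => ⟨?_, fun w => ?_⟩⟩
  · rw [Real.norm_eq_abs, abs_of_nonneg φ.nonneg]
    have := φ.le_one (x := z)
    have := C.2
    linarith
  · have := hC.dist_le_mul z w
    rw [dist_eq_norm, dist_eq_norm] at this
    nlinarith [norm_nonneg (z - w)]

lemma BC.fderiv_le {h : E → F} (a : BC h) :
    ∃ M, 0 < M ∧ ∀ z, ‖h z‖ ≤ M ∧ ‖fderiv ℝ h z‖ ≤ M := by
  obtain ⟨-, M, p, b⟩ := a
  refine ⟨M + 1, by linarith, fun z => ⟨by linarith [(b z).1], ?_⟩⟩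
  have hL : LipschitzWith ⟨M, p⟩ h := LipschitzWith.of_dist_le_mul fun x y => by
    rw [dist_eq_norm, dist_eq_norm]; exact (b x).2 y
  have : ‖fderiv ℝ h z‖ ≤ M := norm_fderiv_le_of_lipschitz ℝ (x₀ := z) hL
  linarith

end BC

namespace Net

variable (G : Net)

/-- The largest state dimension. -/
def K : ℕ := Finset.univ.sup G.k

lemma k_le (c : Fin G.n) : G.k c ≤ G.K := Finset.le_sup (f := G.k) (Finset.mem_univ c)

/-- The common target space. -/
abbrev V : Type := ℝ × (Fin G.K → ℝ)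

/-- State of node `a` in the common space. -/
noncomputable def st (x : G.P) (a : Fin G.n) : G.V := emb G.K (x a)

lemma st_eq_iff {x y : G.P} {a b : Fin G.n} : G.st x a = G.st y b ↔ Eqv (x a) (y b) :=
  ⟨eqv_of_emb (G.k_le a), emb_of_eqv _⟩

lemma st_dist (x y : G.P) (a : Fin G.n) : dist (G.st x a) (G.st y a) ≤ ‖x - y‖ :=
  (emb_dist _ _ _).trans (norm_le_pi_norm (x - y) a)

lemma st_cont (a : Fin G.n) : Continuous fun x : G.P => G.st x a :=
  (emb_cont _ _).comp (continuous_apply a)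

/-- The input tuple as a continuous linear map. -/
noncomputable def tupL (c : Fin G.n) : G.P →L[ℝ] G.Tup c :=
  (ContinuousLinearMap.proj c).prod
    (ContinuousLinearMap.pi fun e : G.I c => ContinuousLinearMap.proj (G.tail e.1))

lemma tupL_apply (c : Fin G.n) (x : G.P) : G.tupL c x = G.tup c x := rfl

/-- Invariant scalar families. -/
def SF (lam : (c : Fin G.n) → G.Tup c → ℝ) : Prop :=
  (∀ c, BC (lam c)) ∧ ∀ c d β, G.IsIso c d β → ∀ (z : G.Tup c) (w : G.Tup d), Eqv z.1 w.1 →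
    (∀ e, Eqv (z.2 e) (w.2 (β e))) → lam c z = lam d w

/-- Good perturbations. -/
def Good (p : G.P → G.P) : Prop := G.SAdm p ∧ BC p

variable {G}

lemma SF.mul {l1 l2 : (c : Fin G.n) → G.Tup c → ℝ} (a : G.SF l1) (b : G.SF l2) :
    G.SF fun c z => l1 c z * l2 c z :=
  ⟨fun c => (a.1 c).smul (b.1 c), fun c d β h z w h1 h2 => by
    simp only [a.2 c d β h z w h1 h2, b.2 c d β h z w h1 h2]⟩

lemma SF.own {φ : G.V → ℝ} (hφ : BC φ) : G.SF fun c z => φ (emb G.K z.1) := by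
  refine ⟨fun c => ?_, fun c d β _ z w h1 _ => by simp only [emb_of_eqv _ h1]⟩
  have := hφ.comp (((G.k c : ℕ) : ℝ), 0) ((ContinuousLinearMap.inr ℝ ℝ _).comp
    ((Jm (G.k c) G.K).comp (ContinuousLinearMap.fst ℝ _ ((e : G.I c) → Fin (G.k (G.tail e.1)) → ℝ))))
  simpa [emb] using this

lemma SF.inp {φ : G.V → ℝ} (hφ : BC φ) (χ : ℕ → ℝ) :
    G.SF fun c z => ∑ e : G.I c, χ (G.aty e.1) * φ (emb G.K (z.2 e)) := by
  refine ⟨fun c => BC.sum _ fun e _ => (BC.const _).smul ?_, fun c d β h z w _ h2 => ?_⟩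
  · have := hφ.comp (((G.k (G.tail e.1) : ℕ) : ℝ), 0) ((ContinuousLinearMap.inr ℝ ℝ _).comp
      ((Jm (G.k (G.tail e.1)) G.K).comp ((ContinuousLinearMap.proj e).comp
        (ContinuousLinearMap.snd ℝ (Fin (G.k c) → ℝ) ((e : G.I c) → Fin (G.k (G.tail e.1)) → ℝ)))))
    simpa [emb] using this
  · refine Fintype.sum_equiv β _ _ fun e => ?_
    simp only [h.2 e, emb_of_eqv _ (h2 e)]

lemma SF.cst {κ : Fin G.n → ℝ} (h : ∀ c d β, G.IsIso c d β → κ c = κ d) :
    G.SF fun c _ => κ c :=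
  ⟨fun _ => BC.const _, fun c d β hh _ _ _ _ => h c d β hh⟩

/-- A scalar family times a fixed vector. -/
noncomputable def vec (lam : (c : Fin G.n) → G.Tup c → ℝ) (w : Fin G.K → ℝ) : G.P → G.P :=
  fun x c => lam c (G.tup c x) • Jm G.K (G.k c) w

lemma SF.good {lam : (c : Fin G.n) → G.Tup c → ℝ} (h : G.SF lam) (w : Fin G.K → ℝ) :
    G.Good (vec lam w) := by
  refine ⟨⟨fun c z => lam c z • Jm G.K (G.k c) w, fun c => ((h.1 c).smul (BC.const _)).1,
    fun x c => rfl, fun c d β hh z z' h1 h2 => ?_⟩, BC.pi fun c => ?_⟩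
  · simp only [h.2 c d β hh z z' h1 h2]
    exact (Jm_eqv (G.hk c d hh.1) w).smul _
  · have := ((h.1 c).comp 0 (G.tupL c)).smul (BC.const (Jm G.K (G.k c) w))
    simpa [tupL_apply, vec] using this

lemma Good.zero : G.Good 0 :=
  ⟨⟨fun _ _ => 0, fun _ => contDiff_const, fun _ _ => rfl,
    fun c d _ hh _ _ _ _ => Eqv.zero (G.hk c d hh.1)⟩, BC.const 0⟩

lemma Good.add {p q : G.P → G.P} (a : G.Good p) (b : G.Good q) : G.Good (p + q) := by
  obtain ⟨⟨F1, c1, e1, i1⟩, b1⟩ := a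
  obtain ⟨⟨F2, c2, e2, i2⟩, b2⟩ := b
  refine ⟨⟨fun c z => F1 c z + F2 c z, fun c => (c1 c).add (c2 c), fun x c => ?_,
    fun c d β hh z w h1 h2 => (i1 c d β hh z w h1 h2).add (i2 c d β hh z w h1 h2)⟩, b1.add b2⟩
  simp only [Pi.add_apply, e1, e2]

lemma Good.smul {p : G.P → G.P} (a : G.Good p) (r : ℝ) : G.Good (r • p) := by
  obtain ⟨⟨F1, c1, e1, i1⟩, b1⟩ := a
  refine ⟨⟨fun c z => r • F1 c z, fun c => (c1 c).const_smul r, fun x c => ?_,
    fun c d β hh z w h1 h2 => (i1 c d β hh z w h1 h2).smul r⟩, (BC.const r).smul b1⟩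
  simp only [Pi.smul_apply, e1]

lemma Good.sum {ι : Type*} (s : Finset ι) {p : ι → G.P → G.P} (a : ∀ i ∈ s, G.Good (p i)) :
    G.Good (∑ i ∈ s, p i) := by
  classical
  induction s using Finset.induction_on with
  | empty => simpa using Good.zero
  | insert i s hi ih =>
    rw [Finset.sum_insert hi]
    exact (a i (Finset.mem_insert_self _ _)).add (ih fun j hj => a j (Finset.mem_insert_of_mem hj))

lemma Adm.add_good {f p : G.P → G.P} (a : G.Adm f) (b : G.Good p) : G.Adm (f + p) := by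
  obtain ⟨⟨F, -, e, i⟩, -⟩ := b
  intro c d β hh x y h1 h2
  have := i c d β hh (G.tup c x) (G.tup d y) h1 h2
  rw [← e, ← e] at this
  exact (a c d β hh x y h1 h2).add this

lemma IsIso.refl (c : Fin G.n) : G.IsIso c c (Equiv.refl _) := ⟨rfl, fun _ => rfl⟩

lemma IsIso.symm {c d : Fin G.n} {β : G.I c ≃ G.I d} (h : G.IsIso c d β) : G.IsIso d c β.symm :=
  ⟨h.1.symm, fun e => by rw [← h.2 (β.symm e), Equiv.apply_symm_apply]⟩

lemma IsIso.trans {c d e : Fin G.n} {β : G.I c ≃ G.I d} {γ : G.I d ≃ G.I e} (h : G.IsIso c d β)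
    (h' : G.IsIso d e γ) : G.IsIso c e (β.trans γ) :=
  ⟨h.1.trans h'.1, fun a => by rw [Equiv.trans_apply, h'.2, h.2]⟩

end Net

end Pool.Agent.H27.Rig
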