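import Pool.Agent.H27.Rig3

/-! Families of perturbed orbits and the narrow-bump argument. -/

open Set Metric MeasureTheory Filter Topology
open scoped ContDiff

namespace Pool.Agent.H27.Rig

lemma nonatom {V ι : Type*} [NormedAddCommGroup V] [MeasurableSpace V] [BorelSpace V]
    [Countable ι] (γ : ι → ℝ → V) (hγ : ∀ a, Continuous (γ a)) (b : ι) (J : Set ℝ)
    (hJ : IsPreconnected J) {s t : ℝ} (hs : s ∈ J) (ht : t ∈ J) (hst : γ b s ≠ γ b t) :
    ∃ t1 ∈ J, ∀ a, volume {r | γ a r = γ b t1} = 0 := by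
  by_contra hcon
  push Not at hcon
  have hc : (⋃ a, {z : V | 0 < volume {r | γ a r = z}}).Countable :=
    countable_iUnion fun a => Measure.countable_meas_level_set_pos (hγ a).measurable
  have hsub : γ b '' J ⊆ ⋃ a, {z : V | 0 < volume {r | γ a r = z}} := by
    rintro _ ⟨r, hr, rfl⟩
    obtain ⟨a, ha⟩ := hcon r hr
    exact mem_iUnion.2 ⟨a, pos_iff_ne_zero.2 ha⟩
  have h1 := (hc.mono hsub).isTotallyDisconnected (γ b '' J) Subset.rfl
    (hJ.image _ (hγ b).continuousOn)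
  exact hst (h1 (mem_image_of_mem _ hs) (mem_image_of_mem _ ht))

lemma small_bump {V ι : Type*} [NormedAddCommGroup V] [NormedSpace ℝ V] [FiniteDimensional ℝ V]
    [Fintype ι] (γ : ι → ℝ → V) (hγ : ∀ a, Continuous (γ a)) (z : V)
    (hz : ∀ a, volume {r | γ a r = z} = 0) (ε : ℝ) (hε : 0 < ε) :
    ∃ φ : ContDiffBump z, ∫ s in (0:ℝ)..1, ∑ a, φ (γ a s) < ε := by
  let φ : ℕ → ContDiffBump z := fun n => ⟨1 / ((n:ℝ) + 1) / 2, 1 / ((n:ℝ) + 1), by positivity, by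
    have : (0:ℝ) < 1 / ((n:ℝ) + 1) := by positivity
    linarith⟩
  have hc : ∀ n, Continuous fun s => ∑ a, φ n (γ a s) := fun n =>
    continuous_finset_sum _ fun a _ => (φ n).continuous.comp (hγ a)
  have hlim := intervalIntegral.tendsto_integral_filter_of_dominated_convergence (μ := volume)
    (a := 0) (b := 1) (l := atTop) (F := fun n s => ∑ a, φ n (γ a s)) (f := fun _ => (0:ℝ))
    (fun _ => (Fintype.card ι : ℝ)) (Eventually.of_forall fun n => (hc n).aestronglyMeasurable)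
    (Eventually.of_forall fun n => Eventually.of_forall fun s _ => by
      rw [Real.norm_eq_abs, abs_of_nonneg (Finset.sum_nonneg fun a _ => (φ n).nonneg)]
      calc ∑ a, φ n (γ a s) ≤ ∑ _a : ι, (1:ℝ) := Finset.sum_le_sum fun a _ => (φ n).le_one
        _ = _ := by simp)
    (continuous_const.intervalIntegrable _ _) (by
      have hae : ∀ᵐ s : ℝ, ∀ a, γ a s ≠ z := by
        rw [ae_all_iff]
        intro a
        rw [ae_iff]
        simpa using hz a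
      filter_upwards [hae] with s hs _
      have : Tendsto (fun n => ∑ a, φ n (γ a s)) atTop (𝓝 (∑ _a : ι, (0:ℝ))) := by
        refine tendsto_finset_sum _ fun a _ => ?_
        have hd : 0 < dist (γ a s) z := dist_pos.2 (hs a)
        have h1 := (tendsto_one_div_add_atTop_nhds_zero_nat (𝕜 := ℝ)).eventually (ge_mem_nhds hd)
        refine tendsto_const_nhds.congr' ?_
        filter_upwards [h1] with n hn
        exact ((φ n).zero_of_le_dist hn).symm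
      simpa using this)
  simp only [intervalIntegral.integral_zero] at hlim
  obtain ⟨n, hn⟩ := (hlim.eventually (gt_mem_nhds hε)).exists
  exact ⟨φ n, hn⟩

lemma inv_sub {P : Type*} [NormedAddCommGroup P] [NormedSpace ℝ P] [FiniteDimensional ℝ P]
    (D : Submodule ℝ P) (g : P → P) (hg : ContDiff ℝ 1 g) (hD : ∀ x ∈ D, g x ∈ D) (S : ℝ)
    (v : ℝ → P) (hv : ∀ t, HasDerivAt v (S • g (v t)) t) (hp : ∀ t, v (t + 1) = v t) (t0 : ℝ)
    (h0 : v t0 ∈ D) (t : ℝ) : v t ∈ D := by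
  obtain ⟨Q', hQ'⟩ := Submodule.ClosedComplemented.of_finiteDimensional D
  set Q : P →L[ℝ] P := D.subtypeL.comp Q' with hQ
  have hQm : ∀ x, Q x ∈ D := fun x => (Q' x).2
  have hQi : ∀ x ∈ D, Q x = x := fun x hx => congrArg Subtype.val (hQ' ⟨x, hx⟩)
  have hvc : Continuous v := continuous_iff_continuousAt.2 fun t => (hv t).continuousAt
  obtain ⟨R, hR⟩ := (isCompact_Icc (a := t0) (b := t0 + 1)).exists_bound_of_continuousOn
    hvc.continuousOn
  have hR0 : 0 ≤ R := (norm_nonneg _).trans (hR t0 ⟨le_rfl, by linarith⟩)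
  have hK : IsCompact (closedBall (0:P) (R * (1 + ‖Q‖))) := isCompact_closedBall _ _
  obtain ⟨M, hM⟩ := hK.exists_bound_of_continuousOn
    (hg.continuous_fderiv one_ne_zero).continuousOn
  have hM0 : 0 ≤ M := (norm_nonneg _).trans (hM 0 (mem_closedBall_self (by positivity)))
  have hQ0 := norm_nonneg Q
  have key := eq_zero_of_abs_deriv_le_mul_abs_self_of_eq_zero_right (f := fun t => v t - Q (v t))
    (f' := fun t => S • g (v t) - Q (S • g (v t))) (K := |S| * ((1 + ‖Q‖) * M)) (a := t0)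
    (b := t0 + 1) (hvc.sub (Q.continuous.comp hvc)).continuousOn
    (fun t _ => ((hv t).sub (Q.hasFDerivAt.comp_hasDerivAt t (hv t))).hasDerivWithinAt)
    (by simp [hQi _ h0]) (by
      intro t ht
      have h1 : v t ∈ closedBall (0:P) (R * (1 + ‖Q‖)) := by
        rw [mem_closedBall, dist_zero_right]
        nlinarith [hR t ⟨ht.1, ht.2.le⟩, mul_nonneg hR0 hQ0]
      have h2 : Q (v t) ∈ closedBall (0:P) (R * (1 + ‖Q‖)) := by
        rw [mem_closedBall, dist_zero_right]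
        have := Q.le_opNorm (v t)
        have := mul_le_mul_of_nonneg_left (hR t ⟨ht.1, ht.2.le⟩) hQ0
        nlinarith
      have h3 := (convex_closedBall _ _).norm_image_sub_le_of_norm_fderiv_le
        (fun z _ => hg.differentiable one_ne_zero z) hM h2 h1
      have e0 : S • g (v t) - Q (S • g (v t)) =
          S • ((g (v t) - g (Q (v t))) - Q (g (v t) - g (Q (v t)))) := by
        rw [map_sub, hQi _ (hD _ (hQm _)), map_smul]
        module
      rw [e0, norm_smul, Real.norm_eq_abs, mul_assoc]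
      refine mul_le_mul_of_nonneg_left ((norm_sub_le _ _).trans ?_) (abs_nonneg _)
      have h4 := Q.le_opNorm (g (v t) - g (Q (v t)))
      have h5 := mul_le_mul_of_nonneg_left h3 hQ0
      nlinarith)
  have hper : Function.Periodic v 1 := hp
  have e1 : v t = v (t0 + Int.fract (t - t0)) := by
    have := hper.sub_int_mul_eq (x := t) ⌊t - t0⌋
    rw [mul_one] at this
    rw [← this, Int.fract]
    congr 1
    ring
  have h6 := key (t0 + Int.fract (t - t0))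
    ⟨by linarith [Int.fract_nonneg (t - t0)], by linarith [Int.fract_lt_one (t - t0)]⟩
  rw [e1, sub_eq_zero.1 h6]
  exact hQm _

lemma dim_count {D P : Type*} [NormedAddCommGroup D] [NormedSpace ℝ D] [FiniteDimensional ℝ D]
    [NormedAddCommGroup P] [NormedSpace ℝ P] [FiniteDimensional ℝ P] (ι : (D × ℝ) →ₗ[ℝ] P)
    (hι : LinearMap.ker ι = ⊥) (H : D → P) (hH : ContDiff ℝ 1 H)
    (hc : ∀ w, ∃ n : ℕ, ∃ z, ι w = (n : ℝ) • H z) : False := by
  obtain ⟨Q, hQ⟩ := LinearMap.exists_leftInverse_of_injective ι hι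
  have hQ' : ∀ w, Q (ι w) = w := fun w => congrArg (fun L : (D × ℝ) →ₗ[ℝ] (D × ℝ) => L w) hQ
  have hsub : (univ : Set (D × ℝ)) ⊆ ⋃ n : ℕ, range fun z => Q ((n : ℝ) • H z) := by
    intro w _
    obtain ⟨n, z, h⟩ := hc w
    exact mem_iUnion.2 ⟨n, z, by simp only [← h, hQ']⟩
  have h1 := dimH_mono hsub
  rw [dimH_iUnion, Real.dimH_univ_eq_finrank] at h1
  have h2 : (⨆ n : ℕ, dimH (range fun z => Q ((n : ℝ) • H z))) ≤ Module.finrank ℝ D :=
    iSup_le fun n => ContDiff.dimH_range_le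
      ((LinearMap.toContinuousLinearMap Q).contDiff.comp (hH.const_smul (n : ℝ)))
  have h3 := h1.trans h2
  rw [Module.finrank_prod, Module.finrank_self] at h3
  norm_cast at h3
  omega

namespace Net

/-- Radial openness with respect to good perturbations. -/
def Opn (G : Net) (W : Set (G.P → G.P)) : Prop :=
  ∀ p ∈ W, ∀ q, G.Good q → ∃ ε0 > 0, ∀ ε : ℝ, 0 < ε → ε ≤ ε0 → p + ε • q ∈ W

/-- A family of normalised periodic orbits of the fields `f + p`, `p ∈ U`. -/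
structure Fam (G : Net) where
  f : G.P → G.P
  U : Set (G.P → G.P)
  v : (G.P → G.P) → ℝ → G.P
  S : (G.P → G.P) → ℝ
  C : ℝ
  Lp : ℝ
  hC : 0 < C
  hLp : 0 < Lp
  hf : ContDiff ℝ 1 f
  ha : G.Adm f
  ne : U.Nonempty
  good : ∀ p ∈ U, G.Good p
  opn : G.Opn U
  hS : ∀ p ∈ U, S p ≠ 0
  hv : ∀ p ∈ U, ∀ t, HasDerivAt (v p) (S p • (f + p) (v p t)) t
  per : ∀ p ∈ U, ∀ t, v p (t + 1) = v p t
  stab : ∀ p ∈ U, ∀ q ∈ U, ∀ t, ‖v p t - v q t‖ ≤ C * ∫ s in (0:ℝ)..1, ‖p (v p s) - q (v p s)‖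
  lip : ∀ p ∈ U, ∀ q ∈ U, ∀ t, ‖(f + p) (v p t) - (f + p) (v q t)‖ ≤ Lp * ‖v p t - v q t‖

namespace Fam

variable {G : Net} (Φ : G.Fam)

lemma v_cont {p : G.P → G.P} (hp : p ∈ Φ.U) : Continuous (Φ.v p) :=
  continuous_iff_continuousAt.2 fun t => (Φ.hv p hp t).continuousAt

lemma stab' {p q : G.P → G.P} (hp : p ∈ Φ.U) (hq : G.Good q) {ε : ℝ} (hε : 0 < ε)
    (hpq : p + ε • q ∈ Φ.U) (t : ℝ) :
    ‖Φ.v p t - Φ.v (p + ε • q) t‖ ≤ Φ.C * (ε * ∫ s in (0:ℝ)..1, ‖q (Φ.v p s)‖) := by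
  have := Φ.stab p hp _ hpq t
  rw [← intervalIntegral.integral_const_mul]
  have e : ∀ s, ‖p (Φ.v p s) - (p + ε • q) (Φ.v p s)‖ = ε * ‖q (Φ.v p s)‖ := fun s => by
    rw [Pi.add_apply, Pi.smul_apply, sub_add_cancel_left, norm_neg, norm_smul, Real.norm_eq_abs,
      abs_of_pos hε]
  simpa only [e] using this

lemma near {W : Set (G.P → G.P)} (hW : W ⊆ Φ.U) (ho : G.Opn W) {p q : G.P → G.P} (hp : p ∈ W)
    (hq : G.Good q) {r : ℝ} (hr : 0 < r) : ∃ ε0 > 0, ∀ ε : ℝ, 0 < ε → ε ≤ ε0 →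
      p + ε • q ∈ W ∧ ∀ t, ‖Φ.v (p + ε • q) t - Φ.v p t‖ ≤ r := by
  obtain ⟨ε0, h0, h⟩ := ho p hp q hq
  set I := ∫ s in (0:ℝ)..1, ‖q (Φ.v p s)‖ with hI
  have hI0 : 0 ≤ I := intervalIntegral.integral_nonneg zero_le_one (fun s _ => norm_nonneg _)
  have hC := Φ.hC
  refine ⟨min ε0 (r / (Φ.C * (I + 1))), by positivity, fun ε hε hle => ?_⟩
  have h1 := h ε hε (hle.trans (min_le_left _ _))
  refine ⟨h1, fun t => ?_⟩
  rw [norm_sub_rev]
  refine (Φ.stab' (hW hp) hq hε (hW h1) t).trans ?_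
  have h2 := hle.trans (min_le_right _ _)
  rw [le_div_iff₀ (by positivity)] at h2
  nlinarith [mul_pos hC hε]

lemma bump {W : Set (G.P → G.P)} (hW : W ⊆ Φ.U) (ho : G.Opn W) {p1 : G.P → G.P} (hp : p1 ∈ W)
    (l1 l2 : G.P →L[ℝ] ℝ) (t1 t2 : ℝ)
    (hΓ : ∀ p ∈ W, l1 ((Φ.f + p) (Φ.v p t1)) = l2 ((Φ.f + p) (Φ.v p t2)))
    (z : G.V) (hz : ∀ a, volume {r | G.st (Φ.v p1 r) a = z} = 0)
    (q : ContDiffBump z → G.P → G.P) (hq : ∀ φ, G.Good (q φ)) (M : ℝ) (hM0 : 0 ≤ M)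
    (hM : ∀ φ x, ‖q φ x‖ ≤ M * ∑ a, φ (G.st x a)) (m : ℝ) (hm : 0 < m)
    (hlow : ∀ φ, ∀ p ∈ W, (∀ t, ‖Φ.v p t - Φ.v p1 t‖ ≤ φ.rIn) →
      m ≤ |l1 (q φ (Φ.v p t1)) - l2 (q φ (Φ.v p t2))|) : False := by
  have hC := Φ.hC
  have hLp := Φ.hLp
  have hvc := Φ.v_cont (hW hp)
  set N := (‖l1‖ + ‖l2‖ + 1) * Φ.Lp * Φ.C * (M + 1) with hN
  have hN0 : 0 < N := by positivity
  obtain ⟨φ, hφ⟩ := small_bump (fun a s => G.st (Φ.v p1 s) a)
    (fun a => (G.st_cont a).comp hvc) z hz (m / N) (by positivity)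
  obtain ⟨ε, hε, hn⟩ := Φ.near hW ho hp (hq φ) φ.rIn_pos
  obtain ⟨h2, h3⟩ := hn ε hε le_rfl
  set p2 := p1 + ε • q φ with hp2
  have h4 := hlow φ p2 h2 h3
  set J := ∫ s in (0:ℝ)..1, ∑ a, φ (G.st (Φ.v p1 s) a) with hJ
  have hc : Continuous fun s => ∑ a, φ (G.st (Φ.v p1 s) a) :=
    continuous_finset_sum _ fun a _ => φ.continuous.comp ((G.st_cont a).comp hvc)
  have hJ0 : 0 ≤ J := intervalIntegral.integral_nonneg zero_le_one
    (fun s _ => Finset.sum_nonneg fun a _ => φ.nonneg)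
  have h5 : ∫ s in (0:ℝ)..1, ‖q φ (Φ.v p1 s)‖ ≤ M * J := by
    rw [hJ, ← intervalIntegral.integral_const_mul]
    exact intervalIntegral.integral_mono_on zero_le_one
      ((((hq φ).2.1.continuous.comp hvc).norm).intervalIntegrable _ _)
      ((hc.const_mul _).intervalIntegrable _ _) (fun s _ => hM φ _)
  have h6 : ∀ t, ‖(Φ.f + p1) (Φ.v p1 t) - (Φ.f + p1) (Φ.v p2 t)‖ ≤
      Φ.Lp * (Φ.C * (ε * (M * J))) := by
    intro t
    refine (Φ.lip p1 (hW hp) p2 (hW h2) t).trans (mul_le_mul_of_nonneg_left ?_ hLp.le)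
    refine (Φ.stab' (hW hp) (hq φ) hε (hW h2) t).trans ?_
    gcongr
  have e1 := hΓ p1 hp
  have e2 := hΓ p2 h2
  have e3 : ∀ x, (Φ.f + p2) x = (Φ.f + p1) x + ε • q φ x := fun x => by
    simp only [hp2, Pi.add_apply, Pi.smul_apply]
    abel
  rw [e3, e3, map_add, map_add, map_smul, map_smul, smul_eq_mul, smul_eq_mul] at e2
  have e4 : ε * (l1 (q φ (Φ.v p2 t1)) - l2 (q φ (Φ.v p2 t2))) =
      l1 ((Φ.f + p1) (Φ.v p1 t1) - (Φ.f + p1) (Φ.v p2 t1)) -
      l2 ((Φ.f + p1) (Φ.v p1 t2) - (Φ.f + p1) (Φ.v p2 t2)) := by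
    rw [map_sub, map_sub]
    linarith
  have b1 := (l1.le_opNorm _).trans (mul_le_mul_of_nonneg_left (h6 t1) (norm_nonneg l1))
  have b2 := (l2.le_opNorm _).trans (mul_le_mul_of_nonneg_left (h6 t2) (norm_nonneg l2))
  have b3 := abs_sub (l1 ((Φ.f + p1) (Φ.v p1 t1) - (Φ.f + p1) (Φ.v p2 t1)))
    (l2 ((Φ.f + p1) (Φ.v p1 t2) - (Φ.f + p1) (Φ.v p2 t2)))
  rw [← e4, abs_mul, abs_of_pos hε] at b3
  rw [Real.norm_eq_abs] at b1 b2
  have b4 : ε * m ≤ ε * ((‖l1‖ + ‖l2‖) * Φ.Lp * Φ.C * M * J) := by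
    have := mul_le_mul_of_nonneg_left h4 hε.le
    nlinarith
  have b5 := le_of_mul_le_mul_left b4 hε
  rw [lt_div_iff₀ hN0] at hφ
  have b6 : (‖l1‖ + ‖l2‖) * Φ.Lp * Φ.C * M ≤ N := by
    rw [hN]
    have h7 : ‖l1‖ + ‖l2‖ ≤ ‖l1‖ + ‖l2‖ + 1 := by linarith
    have h8 : M ≤ M + 1 := by linarith
    exact mul_le_mul (mul_le_mul_of_nonneg_right (mul_le_mul_of_nonneg_right h7 hLp.le) hC.le) h8
      hM0 (by positivity)
  nlinarith

end Fam

end Net

end Pool.Agent.H27.Rig
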