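import Pool.Agent.H27.Rig4

/-! Some orbit of the family has a balanced synchrony pattern. -/

open Set Metric MeasureTheory Filter Topology
open scoped ContDiff

namespace Pool.Agent.H27.Rig

namespace Net

variable {G : Net}

/-- A coordinate functional. -/
noncomputable def co (a : Fin G.n) (i : Fin (G.k a)) : G.P →L[ℝ] ℝ :=
  (ContinuousLinearMap.proj i).comp (ContinuousLinearMap.proj (R := ℝ) (φ := fun c => Fin (G.k c) → ℝ) a)

lemma co_apply (a : Fin G.n) (i : Fin (G.k a)) (x : G.P) : co a i x = x a i := rfl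

/-- The first coordinate of node `a`. -/
noncomputable def c0 (a : Fin G.n) : G.P →L[ℝ] ℝ := co a ⟨0, G.kpos a⟩

lemma K_pos (a : Fin G.n) : 0 < G.K := (G.kpos a).trans_le (G.k_le a)

lemma c0_J (a : Fin G.n) (x : G.P) : c0 a x = Jm (G.k a) G.K (x a) ⟨0, K_pos a⟩ := by
  simp [c0, co_apply, Jm_apply, G.kpos a]

lemma c0_st {a b : Fin G.n} {x y : G.P} (h : G.st x a = G.st y b) : c0 a x = c0 b y := by
  have h2 : Jm (G.k a) G.K (x a) = Jm (G.k b) G.K (y b) := congrArg Prod.snd h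
  rw [c0_J, c0_J, h2]

lemma J_one (a : Fin G.n) : Jm G.K (G.k a) 1 = 1 := by
  ext i
  have : i.val < G.K := i.2.trans_le (G.k_le a)
  simp [Jm_apply, this]

lemma c0_vec (lam : (c : Fin G.n) → G.Tup c → ℝ) (a : Fin G.n) (x : G.P) :
    c0 a (vec lam 1 x) = lam a (G.tup a x) := by
  simp [c0, co_apply, vec, J_one]

lemma vec_norm (lam : (c : Fin G.n) → G.Tup c → ℝ) (x : G.P) {B : ℝ} (hB : 0 ≤ B)
    (h : ∀ c, |lam c (G.tup c x)| ≤ B) : ‖vec lam 1 x‖ ≤ B := by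
  refine (pi_norm_le_iff_of_nonneg hB).2 fun c => (pi_norm_le_iff_of_nonneg hB).2 fun i => ?_
  simpa [vec, J_one] using h c

lemma SF.bound {lam : (c : Fin G.n) → G.Tup c → ℝ} (h : G.SF lam) :
    ∃ M, 0 ≤ M ∧ ∀ c z, |lam c z| ≤ M := by
  choose M hM0 hM using fun c => (h.1 c).2
  exact ⟨∑ c, M c, Finset.sum_nonneg fun c _ => hM0 c, fun c z =>
    (hM c z).1.trans (Finset.single_le_sum (fun j _ => hM0 j) (Finset.mem_univ c))⟩

namespace Fam

variable (Φ : G.Fam)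

lemma deriv_loc {p : G.P → G.P} (hp : p ∈ Φ.U) (l : G.P →L[ℝ] ℝ) {J : Set ℝ} (hJ : IsOpen J)
    {t1 : ℝ} (ht : t1 ∈ J) (c : ℝ) (h : ∀ t ∈ J, l (Φ.v p t) = c) :
    l ((Φ.f + p) (Φ.v p t1)) = 0 := by
  have h1 := l.hasFDerivAt.comp_hasDerivAt t1 (Φ.hv p hp t1)
  have h2 : HasDerivAt (l ∘ Φ.v p) 0 t1 := by
    refine (hasDerivAt_const t1 c).congr_of_eventuallyEq ?_
    filter_upwards [hJ.mem_nhds ht] with t ht using h t ht
  have h3 := h1.unique h2
  rw [map_smul, smul_eq_mul] at h3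
  exact (mul_eq_zero.1 h3).resolve_left (Φ.hS p hp)

/-- A region of fields and times on which the instantaneous pattern is constant. -/
structure Loc where
  W : Set (G.P → G.P)
  p0 : G.P → G.P
  t0 : ℝ
  ρ : ℝ
  r : ℝ
  hW : W ⊆ Φ.U
  ho : G.Opn W
  hp0 : p0 ∈ W
  hρ : 0 < ρ
  hr : 0 < r
  sep : ∀ a b, G.st (Φ.v p0 t0) a ≠ G.st (Φ.v p0 t0) b →
    3 * r ≤ dist (G.st (Φ.v p0 t0) a) (G.st (Φ.v p0 t0) b)
  nr : ∀ p ∈ W, ∀ t ∈ ball t0 ρ, ‖Φ.v p t - Φ.v p0 t0‖ ≤ r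
  pat : ∀ p ∈ W, ∀ t ∈ ball t0 ρ, ∀ a b, G.st (Φ.v p0 t0) a = G.st (Φ.v p0 t0) b →
    G.st (Φ.v p t) a = G.st (Φ.v p t) b

lemma exists_loc : Nonempty Φ.Loc := by
  classical
  set D : G.P → Finset (Fin G.n × Fin G.n) :=
    fun x => Finset.univ.filter fun ab => G.st x ab.1 ≠ G.st x ab.2 with hD
  obtain ⟨p1, hp1⟩ := Φ.ne
  have hfin : ((fun pt : (G.P → G.P) × ℝ => (D (Φ.v pt.1 pt.2)).card) '' (Φ.U ×ˢ univ)).Finite :=
    (Set.finite_Iic (Fintype.card (Fin G.n × Fin G.n))).subset (by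
      rintro _ ⟨pt, -, rfl⟩
      exact Finset.card_le_univ _)
  obtain ⟨⟨p0, t0⟩, ⟨hp0, -⟩, hmax⟩ := hfin.exists_maximalFor' (fun pt : (G.P → G.P) × ℝ =>
    (D (Φ.v pt.1 pt.2)).card) _ ⟨(p1, 0), hp1, trivial⟩
  simp only at hp0
  set x0 := Φ.v p0 t0 with hx0
  obtain ⟨r, hr, hsep⟩ : ∃ r > 0, ∀ a b, G.st x0 a ≠ G.st x0 b →
      3 * r ≤ dist (G.st x0 a) (G.st x0 b) := by
    have : ∀ ab : Fin G.n × Fin G.n, ∀ᶠ r in 𝓝[>] (0:ℝ), G.st x0 ab.1 ≠ G.st x0 ab.2 →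
        3 * r ≤ dist (G.st x0 ab.1) (G.st x0 ab.2) := by
      intro ab
      by_cases h : G.st x0 ab.1 = G.st x0 ab.2
      · exact Eventually.of_forall fun r h' => absurd h h'
      · have hd : 0 < dist (G.st x0 ab.1) (G.st x0 ab.2) / 3 := by
          have := dist_pos.2 h
          positivity
        filter_upwards [mem_nhdsWithin_of_mem_nhds (ge_mem_nhds hd)] with r hr _
        linarith
    obtain ⟨r, hr1, hr2⟩ := ((eventually_all.2 this).and self_mem_nhdsWithin).exists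
    exact ⟨r, hr2, fun a b => hr1 (a, b)⟩
  obtain ⟨ρ, hρ, hρ'⟩ := Metric.continuousAt_iff.1
    ((Φ.v_cont hp0).continuousAt (x := t0)) (r / 2) (by positivity)
  set W : Set (G.P → G.P) := {p | p ∈ Φ.U ∧ ∃ r' < r / 2, ∀ t, ‖Φ.v p t - Φ.v p0 t‖ ≤ r'} with hW
  have hnr : ∀ p ∈ W, ∀ t ∈ ball t0 ρ, ‖Φ.v p t - x0‖ ≤ r := by
    rintro p ⟨-, r', h1, h2⟩ t ht
    have h3 := hρ' (mem_ball.1 ht)
    rw [dist_eq_norm] at h3
    have := norm_add_le (Φ.v p t - Φ.v p0 t) (Φ.v p0 t - x0)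
    rw [sub_add_sub_cancel] at this
    linarith [h2 t]
  refine ⟨⟨W, p0, t0, ρ, r, fun p hp => hp.1, ?_, ⟨hp0, 0, by positivity, fun t => by simp⟩, hρ,
    hr, hsep, hnr, ?_⟩⟩
  · rintro p ⟨hp, r', h1, h2⟩ q hq
    obtain ⟨ε0, h0, h⟩ := Φ.near Subset.rfl Φ.opn hp hq (r := (r / 2 - r') / 2) (by linarith)
    refine ⟨ε0, h0, fun ε hε hle => ⟨(h ε hε hle).1, r' + (r / 2 - r') / 2, by linarith,
      fun t => ?_⟩⟩
    have := norm_add_le (Φ.v (p + ε • q) t - Φ.v p t) (Φ.v p t - Φ.v p0 t)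
    rw [sub_add_sub_cancel] at this
    linarith [h2 t, (h ε hε hle).2 t]
  · intro p hp t ht a b hab
    have hsub : D x0 ⊆ D (Φ.v p t) := by
      rintro ⟨a, b⟩ h
      simp only [hD, Finset.mem_filter, Finset.mem_univ, true_and] at h ⊢
      intro h'
      have e1 := (G.st_dist _ _ a).trans (hnr p hp t ht)
      have e2 := (G.st_dist _ _ b).trans (hnr p hp t ht)
      have e3 := dist_triangle_left (G.st x0 a) (G.st x0 b) (G.st (Φ.v p t) a)
      rw [h'] at e1 e3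
      linarith [hsep a b h]
    have hle := hmax (j := (p, t)) ⟨hp.1, trivial⟩ (Finset.card_le_card hsub)
    have heq := Finset.eq_of_subset_of_card_le hsub hle
    by_contra h'
    have : (a, b) ∈ D (Φ.v p t) := by simpa [hD] using h'
    rw [← heq] at this
    simp only [hD, Finset.mem_filter, Finset.mem_univ, true_and] at this
    exact this hab

namespace Loc

variable {Φ} (L : Φ.Loc)

/-- Node `a` is constant throughout the region. -/
def Cs (a : Fin G.n) : Prop :=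
  ∀ p ∈ L.W, ∀ t ∈ ball L.t0 L.ρ, G.st (Φ.v p t) a = G.st (Φ.v p L.t0) a

lemma pick {b : Fin G.n} (h : ¬ L.Cs b) : ∃ p1 ∈ L.W, ∃ t1 ∈ ball L.t0 L.ρ,
    ∀ a, volume {r | G.st (Φ.v p1 r) a = G.st (Φ.v p1 t1) b} = 0 := by
  unfold Cs at h
  push Not at h
  obtain ⟨p1, hp1, t, ht, hne⟩ := h
  exact ⟨p1, hp1, nonatom (fun a s => G.st (Φ.v p1 s) a)
    (fun a => (G.st_cont a).comp (Φ.v_cont (L.hW hp1))) b _ (convex_ball _ _).isPreconnected ht
    (mem_ball_self L.hρ) hne⟩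

lemma cs_tail (i : Fin G.m) (h : L.Cs (G.head i)) : L.Cs (G.tail i) := by
  by_contra hcon
  obtain ⟨p1, hp1, t1, ht1, hz⟩ := L.pick hcon
  refine Φ.bump L.hW L.ho hp1 (c0 (G.head i)) 0 t1 t1 (fun p hp => ?_) _ hz
    (fun φ => vec (fun c z => ∑ e : G.I c, (fun _ => (1:ℝ)) (G.aty e.1) * φ (emb G.K (z.2 e))) 1)
    (fun φ => (SF.inp (BC.bump φ) fun _ => 1).good 1) G.m (Nat.cast_nonneg _) (fun φ x => ?_) 1
    one_pos (fun φ p hp hn => ?_)
  · exact Φ.deriv_loc (L.hW hp) _ isOpen_ball ht1 _ (fun t ht => c0_st (h p hp t ht))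
  · have h0 : 0 ≤ ∑ a, φ (G.st x a) := Finset.sum_nonneg fun a _ => φ.nonneg
    refine vec_norm _ _ (by positivity) fun c => ?_
    rw [abs_of_nonneg (Finset.sum_nonneg fun e _ => mul_nonneg zero_le_one φ.nonneg)]
    calc ∑ e : G.I c, (1:ℝ) * φ (emb G.K ((G.tup c x).2 e))
        ≤ ∑ _e : G.I c, ∑ a, φ (G.st x a) := Finset.sum_le_sum fun e _ => by
          rw [one_mul]
          exact Finset.single_le_sum (f := fun a => φ (G.st x a)) (fun a _ => φ.nonneg)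
            (Finset.mem_univ (G.tail e.1))
      _ = (Fintype.card (G.I c) : ℝ) * ∑ a, φ (G.st x a) := by simp
      _ ≤ _ := by
          refine mul_le_mul_of_nonneg_right ?_ h0
          have := Fintype.card_subtype_le fun e : Fin G.m => G.head e = c
          rw [Fintype.card_fin] at this
          exact_mod_cast this
  · rw [c0_vec, ContinuousLinearMap.zero_apply, sub_zero]
    refine le_trans ?_ (le_abs_self _)
    have h1 : φ (G.st (Φ.v p t1) (G.tail i)) = 1 :=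
      φ.one_of_mem_closedBall (mem_closedBall.2 ((G.st_dist _ _ _).trans (hn t1)))
    have := Finset.single_le_sum (s := Finset.univ)
      (f := fun e : G.I (G.head i) => (1:ℝ) * φ (emb G.K ((G.tup _ (Φ.v p t1)).2 e)))
      (fun e _ => mul_nonneg zero_le_one φ.nonneg) (Finset.mem_univ ⟨i, rfl⟩)
    refine le_trans ?_ this
    rw [one_mul]
    exact h1.ge

/-- The separating bump at the state of node `b`. -/
noncomputable def ψ (b : Fin G.n) : ContDiffBump (G.st (Φ.v L.p0 L.t0) b) :=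
  ⟨L.r, 2 * L.r, L.hr, by linarith [L.hr]⟩

open Classical in
lemma ψ_val (b a : Fin G.n) {x : G.P} (hx : ‖x - Φ.v L.p0 L.t0‖ ≤ L.r) :
    L.ψ b (G.st x a) = if G.st (Φ.v L.p0 L.t0) a = G.st (Φ.v L.p0 L.t0) b then 1 else 0 := by
  have h1 := (G.st_dist _ _ a).trans hx
  split_ifs with h
  · exact (L.ψ b).one_of_mem_closedBall (mem_closedBall.2 (by rw [h] at h1; exact h1))
  · refine (L.ψ b).zero_of_le_dist ?_
    have h2 := L.sep a b h
    have h3 := dist_triangle_left (G.st (Φ.v L.p0 L.t0) a) (G.st (Φ.v L.p0 L.t0) b) (G.st x a)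
    show 2 * L.r ≤ _
    linarith

lemma caseA {c d : Fin G.n} (hcd : G.st (Φ.v L.p0 L.t0) c = G.st (Φ.v L.p0 L.t0) d)
    {lam : (c : Fin G.n) → G.Tup c → ℝ} (hl : G.SF lam) (ℓ : Fin G.n → ℝ)
    (hℓ : ∀ x, ‖x - Φ.v L.p0 L.t0‖ ≤ L.r → ∀ e, lam e (G.tup e x) = ℓ e) (hc : ¬ L.Cs c) :
    ℓ c = ℓ d := by
  by_contra hne
  obtain ⟨p1, hp1, t1, ht1, hz⟩ := L.pick hc
  obtain ⟨M, hM0, hM⟩ := hl.bound
  refine Φ.bump L.hW L.ho hp1 (c0 c) (c0 d) t1 t1 (fun p hp => ?_) _ hz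
    (fun φ => vec (fun c z => φ (emb G.K z.1) * lam c z) 1)
    (fun φ => ((SF.own (BC.bump φ)).mul hl).good 1) M hM0 (fun φ x => ?_) |ℓ c - ℓ d|
    (abs_pos.2 (sub_ne_zero.2 hne)) (fun φ p hp hn => ?_)
  · have := Φ.deriv_loc (L.hW hp) (c0 c - c0 d) isOpen_ball ht1 0 (fun t ht => by
      rw [ContinuousLinearMap.sub_apply, c0_st (L.pat p hp t ht c d hcd), sub_self])
    rwa [ContinuousLinearMap.sub_apply, sub_eq_zero] at this
  · have h0 : 0 ≤ ∑ a, φ (G.st x a) := Finset.sum_nonneg fun a _ => φ.nonneg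
    refine vec_norm _ _ (by positivity) fun e => ?_
    rw [abs_mul, abs_of_nonneg φ.nonneg, mul_comm]
    exact mul_le_mul (hM _ _) (Finset.single_le_sum (f := fun a => φ (G.st x a))
      (fun a _ => φ.nonneg) (Finset.mem_univ e)) φ.nonneg hM0
  · rw [c0_vec, c0_vec, hℓ _ (L.nr p hp t1 ht1), hℓ _ (L.nr p hp t1 ht1)]
    have h1 : φ (G.st (Φ.v p t1) c) = 1 :=
      φ.one_of_mem_closedBall (mem_closedBall.2 ((G.st_dist _ _ _).trans (hn t1)))
    have h2 : φ (G.st (Φ.v p t1) d) = 1 := by rw [← L.pat p hp t1 ht1 c d hcd, h1]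
    have h3 : φ (emb G.K (G.tup c (Φ.v p t1)).1) = 1 := h1
    have h4 : φ (emb G.K (G.tup d (Φ.v p t1)).1) = 1 := h2
    rw [h3, h4, one_mul, one_mul]

lemma caseB {c d : Fin G.n} (hcd : G.st (Φ.v L.p0 L.t0) c = G.st (Φ.v L.p0 L.t0) d)
    {lam : (c : Fin G.n) → G.Tup c → ℝ} (hl : G.SF lam) (ℓ : Fin G.n → ℝ)
    (hℓ : ∀ x, ‖x - Φ.v L.p0 L.t0‖ ≤ L.r → ∀ e, lam e (G.tup e x) = ℓ e) (hc : L.Cs c) :
    ℓ c = ℓ d := by
  classical
  by_contra hne
  have ht0 : L.t0 ∈ ball L.t0 L.ρ := mem_ball_self L.hρ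
  have hd : L.Cs d := fun p hp t ht => by
    rw [← L.pat p hp t ht c d hcd, ← L.pat p hp _ ht0 c d hcd, hc p hp t ht]
  set x0 := Φ.v L.p0 L.t0 with hx0
  let Δ : Submodule ℝ G.P :=
    { carrier := {x | (∀ a, ¬ L.Cs a → x a = 0) ∧ ∀ a b, L.Cs a → L.Cs b →
        G.st x0 a = G.st x0 b → Jm (G.k a) G.K (x a) = Jm (G.k b) G.K (x b)}
      add_mem' := fun {x y} hx hy => ⟨fun a ha => by simp [hx.1 a ha, hy.1 a ha],
        fun a b ha hb h => by simp only [Pi.add_apply, map_add, hx.2 a b ha hb h, hy.2 a b ha hb h]⟩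
      zero_mem' := ⟨fun _ _ => rfl, fun a b _ _ _ => by simp⟩
      smul_mem' := fun r x hx => ⟨fun a ha => by simp [hx.1 a ha],
        fun a b ha hb h => by simp only [Pi.smul_apply, map_smul, hx.2 a b ha hb h]⟩ }
  set Y : G.P := fun e => if L.Cs e then ℓ e • 1 else 0 with hY
  set Tr : G.P →L[ℝ] G.P := ContinuousLinearMap.pi fun e =>
    if L.Cs e then ContinuousLinearMap.proj e else 0 with hTr
  have hTr1 : ∀ x e, L.Cs e → Tr x e = x e := fun x e h => by simp [hTr, h]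
  have hTr0 : ∀ x e, ¬ L.Cs e → Tr x e = 0 := fun x e h => by simp [hTr, h]
  have hg0 : ContDiff ℝ 1 (Φ.f + L.p0) :=
    Φ.hf.add ((Φ.good _ (L.hW L.hp0)).2.1.of_le (by exact_mod_cast le_top))
  have ha0 : G.Adm (Φ.f + L.p0) := Φ.ha.add_good (Φ.good _ (L.hW L.hp0))
  refine dim_count (D := Δ) (Δ.subtype.coprod (LinearMap.toSpanSingleton ℝ G.P Y)) ?_
    (fun z => -Tr ((Φ.f + L.p0) z)) (Tr.contDiff.comp (hg0.comp Δ.subtypeL.contDiff)).neg ?_
  · rw [LinearMap.ker_eq_bot']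
    rintro ⟨w, s⟩ h
    simp only [LinearMap.coprod_apply, Submodule.subtype_apply,
      LinearMap.toSpanSingleton_apply] at h
    have e1 := congrArg (c0 c) h
    have e2 := congrArg (c0 d) h
    have e3 : c0 c w.1 = c0 d w.1 := by rw [c0_J, c0_J, w.2.2 c d hc hd hcd]
    have e4 : c0 c Y = ℓ c := by simp [c0, co_apply, hY, hc]
    have e5 : c0 d Y = ℓ d := by simp [c0, co_apply, hY, hd]
    rw [map_add, map_smul, map_zero, smul_eq_mul] at e1 e2
    have hs : s = 0 := by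
      have : s * (ℓ c - ℓ d) = 0 := by rw [e4] at e1; rw [e5] at e2; linarith
      exact (mul_eq_zero.1 this).resolve_right (sub_ne_zero.2 hne)
    rw [hs, zero_smul, add_zero] at h
    rw [hs]
    exact Prod.ext (Subtype.ext h) rfl
  · rintro ⟨w, s⟩
    set F : Fin G.n → Finset (Fin G.n) := fun e =>
      Finset.univ.filter fun b => L.Cs b ∧ G.st x0 e = G.st x0 b with hF
    set q : G.P → G.P := ∑ b ∈ Finset.univ.filter L.Cs,
      vec (fun c z => L.ψ b (emb G.K z.1)) (((F b).card : ℝ)⁻¹ • Jm (G.k b) G.K (w.1 b)) +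
      s • vec lam 1 with hq
    have hqg : G.Good q :=
      (Good.sum _ fun b _ => (SF.own (BC.bump (L.ψ b))).good _).add ((hl.good 1).smul s)
    have hqv : ∀ x, ‖x - x0‖ ≤ L.r → ∀ e, L.Cs e → q x e = w.1 e + s • Y e := by
      intro x hx e he
      simp only [hq, Pi.add_apply, Finset.sum_apply, Pi.smul_apply, vec, hℓ x hx, J_one, hY, he,
        if_true]
      congr 1
      have e1 : ∀ b ∈ Finset.univ.filter L.Cs, L.ψ b (emb G.K (G.tup e x).1) •
          Jm G.K (G.k e) (((F b).card : ℝ)⁻¹ • Jm (G.k b) G.K (w.1 b)) =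
          if G.st x0 e = G.st x0 b then ((F e).card : ℝ)⁻¹ • w.1 e else 0 := by
        intro b hb
        have hb' : L.Cs b := (Finset.mem_filter.1 hb).2
        have := L.ψ_val b e hx
        rw [show emb G.K (G.tup e x).1 = G.st x e from rfl, this]
        split_ifs with h
        · have h' : G.st x0 e = G.st x0 b := h
          have hFb : F b = F e := by simp only [hF, h']
          rw [one_smul, hFb, map_smul, ← w.2.2 e b he hb' h, Jm_Jm (G.k_le e)]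
        · simp
      rw [Finset.sum_congr rfl e1, ← Finset.sum_filter, Finset.filter_filter, Finset.sum_const]
      have hne : ((F e).card : ℝ) ≠ 0 := by
        have : e ∈ F e := by simp [hF, he]
        exact_mod_cast (Finset.card_pos.2 ⟨e, this⟩).ne'
      rw [← Nat.cast_smul_eq_nsmul ℝ, smul_smul]
      show (((F e).card : ℝ) * ((F e).card : ℝ)⁻¹) • w.1 e = w.1 e
      rw [mul_inv_cancel₀ hne, one_smul]
    obtain ⟨ε0, h0, hε⟩ := L.ho _ L.hp0 q hqg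
    obtain ⟨n, hn⟩ := exists_nat_one_div_lt h0
    have hp := hε (1 / ((n:ℝ) + 1)) (by positivity) hn.le
    set p := L.p0 + (1 / ((n:ℝ) + 1)) • q with hp'
    set x := Φ.v p L.t0 with hx
    have hxn := L.nr p hp _ ht0
    have hz : Tr x ∈ Δ := ⟨fun a ha => hTr0 x a ha, fun a b ha hb h => by
      rw [hTr1 x a ha, hTr1 x b hb]
      exact congrArg Prod.snd (L.pat p hp _ ht0 a b h)⟩
    refine ⟨n + 1, ⟨Tr x, hz⟩, ?_⟩
    simp only [LinearMap.coprod_apply, Submodule.subtype_apply, LinearMap.toSpanSingleton_apply]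
    funext e
    by_cases he : L.Cs e
    · have e1 : (Φ.f + p) x e = 0 := by
        funext i
        exact Φ.deriv_loc (L.hW hp) (co e i) isOpen_ball ht0 (co e i x) (fun t ht => by
          rw [co_apply, co_apply, (G.st_eq_iff.1 (he p hp t ht)).eq])
      have e2 : (Φ.f + L.p0) (Tr x) e = (Φ.f + L.p0) x e :=
        (ha0 e e _ (IsIso.refl e) (Tr x) x (by rw [hTr1 x e he]; exact Eqv.rfl) (fun i => by
          have hi : L.Cs (G.tail i.1) := L.cs_tail i.1 (by rw [i.2]; exact he)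
          rw [hTr1 x _ hi]
          exact Eqv.rfl)).eq
      have e3 : (Φ.f + p) x e = (Φ.f + L.p0) x e + (1 / ((n:ℝ) + 1)) • q x e := by
        simp only [hp', Pi.add_apply, Pi.smul_apply]
        abel
      rw [e1, hqv x hxn e he] at e3
      have e4 : (Φ.f + L.p0) x e = -((1 / ((n:ℝ) + 1)) • (w.1 e + s • Y e)) :=
        eq_neg_of_add_eq_zero_left e3.symm
      rw [Pi.smul_apply, Pi.neg_apply, hTr1 _ e he, e2, e4, neg_neg, smul_smul]
      have : ((n + 1 : ℕ) : ℝ) * (1 / ((n:ℝ) + 1)) = 1 := by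
        push_cast
        field_simp
      rw [this, one_smul]
      rfl
    · rw [Pi.smul_apply, Pi.neg_apply, hTr0 _ e he, Pi.add_apply, w.2.1 e he]
      simp [hY, he]

lemma test {c d : Fin G.n} (hcd : G.st (Φ.v L.p0 L.t0) c = G.st (Φ.v L.p0 L.t0) d)
    {lam : (c : Fin G.n) → G.Tup c → ℝ} (hl : G.SF lam) (ℓ : Fin G.n → ℝ)
    (hℓ : ∀ x, ‖x - Φ.v L.p0 L.t0‖ ≤ L.r → ∀ e, lam e (G.tup e x) = ℓ e) : ℓ c = ℓ d := by
  by_cases hc : L.Cs c
  · exact L.caseB hcd hl ℓ hℓ hc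
  · exact L.caseA hcd hl ℓ hℓ hc

lemma balanced {c d : Fin G.n} (hcd : G.st (Φ.v L.p0 L.t0) c = G.st (Φ.v L.p0 L.t0) d) :
    ∃ β, G.IsIso c d β ∧
      ∀ e, G.st (Φ.v L.p0 L.t0) (G.tail e.1) = G.st (Φ.v L.p0 L.t0) (G.tail (β e).1) := by
  classical
  set x0 := Φ.v L.p0 L.t0 with hx0
  have h1 : G.nty c = G.nty d := by
    have := L.test hcd (SF.cst (κ := fun e => if G.nty e = G.nty c then 1 else 0)
      (fun a b β h => by simp only [h.1])) (fun e => if G.nty e = G.nty c then 1 else 0)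
      (fun _ _ _ => rfl)
    by_contra h
    simp [Ne.symm h] at this
  set lab : (a : Fin G.n) → G.I a → ℕ × G.V := fun a e => (G.aty e.1, G.st x0 (G.tail e.1))
    with hlab
  have h2 : ∀ y : ℕ × G.V, Fintype.card {e : G.I c // lab c e = y} =
      Fintype.card {e : G.I d // lab d e = y} := by
    rintro ⟨τ, z⟩
    by_cases hz : ∃ b, G.st x0 b = z
    · obtain ⟨b, rfl⟩ := hz
      have := L.test hcd (SF.inp (BC.bump (L.ψ b)) fun σ => if σ = τ then 1 else 0)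
        (fun a => (Fintype.card {e : G.I a // lab a e = (τ, G.st x0 b)} : ℝ)) (fun x hx a => by
          rw [Fintype.card_subtype, Finset.card_filter]
          push_cast
          refine Finset.sum_congr rfl fun e _ => ?_
          rw [show emb G.K ((G.tup a x).2 e) = G.st x (G.tail e.1) from rfl, L.ψ_val b _ hx]
          simp only [hlab, Prod.mk.injEq, ← hx0]
          by_cases h3 : G.aty e.1 = τ <;> by_cases h4 : G.st x0 (G.tail e.1) = G.st x0 b <;>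
            simp [h3, h4])
      exact_mod_cast this
    · have : ∀ a, Fintype.card {e : G.I a // lab a e = (τ, z)} = 0 := fun a =>
        Fintype.card_eq_zero_iff.2 ⟨fun e => hz ⟨_, congrArg Prod.snd e.2⟩⟩
      rw [this, this]
  set β := Equiv.ofFiberEquiv (f := lab c) (g := lab d) fun y => Fintype.equivOfCardEq (h2 y)
  have h3 : ∀ e, lab d (β e) = lab c e := fun e => Equiv.ofFiberEquiv_map _ e
  exact ⟨β, ⟨h1, fun e => congrArg Prod.fst (h3 e)⟩, fun e => (congrArg Prod.snd (h3 e)).symm⟩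

lemma glob {a b : Fin G.n} (h : G.st (Φ.v L.p0 L.t0) a = G.st (Φ.v L.p0 L.t0) b) (t : ℝ) :
    G.st (Φ.v L.p0 t) a = G.st (Φ.v L.p0 t) b := by
  set x0 := Φ.v L.p0 L.t0 with hx0
  let Δ : Submodule ℝ G.P :=
    { carrier := {x | ∀ a b, G.st x0 a = G.st x0 b → Eqv (x a) (x b)}
      add_mem' := fun {x y} hx hy a b h => (hx a b h).add (hy a b h)
      zero_mem' := fun a b h => Eqv.zero (G.st_eq_iff.1 h).dim
      smul_mem' := fun r x hx a b h => (hx a b h).smul r }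
  have hg0 : ContDiff ℝ 1 (Φ.f + L.p0) :=
    Φ.hf.add ((Φ.good _ (L.hW L.hp0)).2.1.of_le (by exact_mod_cast le_top))
  have ha0 : G.Adm (Φ.f + L.p0) := Φ.ha.add_good (Φ.good _ (L.hW L.hp0))
  have := inv_sub Δ _ hg0 (fun x hx a b h => by
      obtain ⟨β, hβ, hβ'⟩ := L.balanced h
      exact ha0 a b β hβ x x (hx a b h) fun e => hx _ _ (hβ' e)) _ _
    (Φ.hv _ (L.hW L.hp0)) (Φ.per _ (L.hW L.hp0)) L.t0 (fun a b h => G.st_eq_iff.1 h) t
  exact G.st_eq_iff.2 (this a b h)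

end Loc

theorem key : ∃ p ∈ Φ.U, ∀ c d, (∀ t, Eqv (Φ.v p t c) (Φ.v p t d)) → ∃ β, G.IsIso c d β ∧
    ∀ e t, Eqv (Φ.v p t (G.tail e.1)) (Φ.v p t (G.tail (β e).1)) := by
  obtain ⟨L⟩ := Φ.exists_loc
  refine ⟨L.p0, L.hW L.hp0, fun c d h => ?_⟩
  obtain ⟨β, hβ, hβ'⟩ := L.balanced (G.st_eq_iff.2 (h L.t0))
  exact ⟨β, hβ, fun e t => G.st_eq_iff.1 (L.glob (hβ' e) t)⟩

theorem phase (c d : Fin G.n) (θ : ℝ) (h : ∀ p ∈ Φ.U, ∀ t, Eqv (Φ.v p t c) (Φ.v p (t + θ) d)) :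
    ∃ β, G.IsIso c d β := by
  classical
  by_cases hc : ∀ p ∈ Φ.U, ∀ s t, G.st (Φ.v p s) c = G.st (Φ.v p t) c
  · obtain ⟨p, hp, hk⟩ := Φ.key
    obtain ⟨β, hβ, -⟩ := hk c d fun t => by
      have := h p hp (t - θ)
      rw [sub_add_cancel] at this
      exact (G.st_eq_iff.1 (hc p hp t (t - θ))).trans this
    exact ⟨β, hβ⟩
  by_contra hcon
  push Not at hc
  obtain ⟨p1, hp1, s, t, hne⟩ := hc
  obtain ⟨t1, -, hz⟩ := nonatom (fun a s => G.st (Φ.v p1 s) a)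
    (fun a => (G.st_cont a).comp (Φ.v_cont hp1)) c univ isPreconnected_univ (mem_univ s)
    (mem_univ t) hne
  set κ : Fin G.n → ℝ := fun e => if ∃ β, G.IsIso c e β then 1 else 0 with hκ
  have hl : G.SF fun c _ => κ c := SF.cst fun a b β hβ => by
    have : (∃ β, G.IsIso c a β) ↔ ∃ β, G.IsIso c b β :=
      ⟨fun ⟨γ, hγ⟩ => ⟨_, hγ.trans hβ⟩, fun ⟨γ, hγ⟩ => ⟨_, hγ.trans hβ.symm⟩⟩
    simp only [hκ, this]
  refine Φ.bump Subset.rfl Φ.opn hp1 (c0 c) (c0 d) t1 (t1 + θ) (fun p hp => ?_) _ hz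
    (fun φ => vec (fun c z => φ (emb G.K z.1) * κ c) 1)
    (fun φ => ((SF.own (BC.bump φ)).mul hl).good 1) 1 zero_le_one (fun φ x => ?_) 1
    one_pos (fun φ p hp hn => ?_)
  · have h1 := (c0 c).hasFDerivAt.comp_hasDerivAt t1 (Φ.hv p hp t1)
    have h2 := (c0 d).hasFDerivAt.comp_hasDerivAt t1 ((Φ.hv p hp (t1 + θ)).comp_add_const t1 θ)
    have h3 : (c0 c ∘ Φ.v p) = c0 d ∘ fun t => Φ.v p (t + θ) :=
      funext fun t => c0_st (G.st_eq_iff.2 (h p hp t))
    rw [h3] at h1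
    have h4 := h1.unique h2
    rw [map_smul, map_smul, smul_eq_mul, smul_eq_mul] at h4
    exact mul_left_cancel₀ (Φ.hS p hp) h4
  · have h0 : 0 ≤ ∑ a, φ (G.st x a) := Finset.sum_nonneg fun a _ => φ.nonneg
    refine vec_norm _ _ (by positivity) fun e => ?_
    rw [abs_mul, abs_of_nonneg φ.nonneg, mul_comm]
    refine mul_le_mul ?_ (Finset.single_le_sum (f := fun a => φ (G.st x a))
      (fun a _ => φ.nonneg) (Finset.mem_univ e)) φ.nonneg zero_le_one
    simp only [hκ]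
    split_ifs <;> simp
  · rw [c0_vec, c0_vec]
    have h1 : φ (emb G.K (G.tup c (Φ.v p t1)).1) = 1 :=
      φ.one_of_mem_closedBall (mem_closedBall.2 ((G.st_dist _ _ _).trans (hn t1)))
    have h2 : κ c = 1 := if_pos ⟨_, IsIso.refl c⟩
    have h3 : κ d = 0 := if_neg hcon
    rw [h1, h2, h3]
    simp

end Fam

end Net

end Pool.Agent.H27.Rig
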