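import Pool.Agent.H27.Rig2
import Pool.Agent.H27.Rig5

/-! From a hyperbolic orbit to a family of perturbed orbits. -/

open Set Metric
open scoped ContDiff

namespace Pool.Agent.H27.Rig

lemma exists_base {E : Type} [NormedAddCommGroup E] [NormedSpace ℝ E] [FiniteDimensional ℝ E]
    (f : E → E) (hf : ContDiff ℝ 1 f) (x : ℝ → E) (T : ℝ) (hx : IsPer f x T) (hh : Hyp f x T) :
    ∃ B : Base E, B.f = f ∧ B.T = T ∧ ∀ t, B.u t = x (T * t) := by
  obtain ⟨hT, hd, hp, s0, t0, hne⟩ := hx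
  obtain ⟨Φ, hΦ0, hΦ, hm, -⟩ := hh
  set u : ℝ → E := fun t => x (T * t) with hu
  have hlin : ∀ t : ℝ, HasDerivAt (fun t => T * t) T t := fun t => by
    simpa using (hasDerivAt_id t).const_mul T
  have hud : ∀ t, HasDerivAt u (T • f (u t)) t := fun t => (hd (T * t)).scomp t (hlin t)
  have hup : ∀ t, u (t + 1) = u t := fun t => by simp only [hu, mul_add, mul_one, hp]
  have huc : Continuous u := continuous_iff_continuousAt.2 fun t => (hud t).continuousAt
  set A : ℝ → E →L[ℝ] E := fun t => T • fderiv ℝ f (u t) with hA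
  have hAc : Continuous A := ((hf.continuous_fderiv one_ne_zero).comp huc).const_smul T
  have hAp : ∀ t, A (t + 1) = A t := fun t => by simp only [hA, hup]
  obtain ⟨K, hK0, hK⟩ := per_bound A hAc hAp
  set F : ℝ → E →L[ℝ] E := fun t => Φ (T * t) with hF
  have hFd : ∀ t, HasDerivAt F ((A t).comp (F t)) t := fun t => by
    refine HasDerivAt.congr_deriv ((hΦ (T * t)).scomp t (hlin t)) ?_
    simp only [hA, hF, hu, ContinuousLinearMap.smul_comp]
  set e : ℝ → E := fun t => T • f (u t) with he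
  have hed : ∀ t, HasDerivAt e (A t (e t)) t := fun t => by
    have := ((hf.differentiable one_ne_zero (u t)).hasFDerivAt.comp_hasDerivAt t
      (hud t)).const_smul T
    exact HasDerivAt.congr_deriv this rfl
  have he0 : e 0 ≠ 0 := by
    intro h
    have h1 := lin_unique A K hK e hed 0 h
    have h2 : ∀ t, HasDerivAt u 0 t := fun t => HasDerivAt.congr_deriv (hud t) (h1 t)
    have h3 := is_const_of_deriv_eq_zero (fun t => (h2 t).differentiableAt)
      (fun t => (h2 t).deriv) (s0 / T) (t0 / T)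
    simp only [hu, mul_div_cancel₀ _ hT.ne'] at h3
    exact hne h3
  obtain ⟨l, hl⟩ := SeparatingDual.exists_ne_zero (R := ℝ) he0
  have hF0 : F 0 = ContinuousLinearMap.id ℝ E := by simp only [hF, mul_zero, hΦ0]
  have hFe : F 1 (e 0) = e 0 := by
    have h1 : ∀ t, HasDerivAt (fun t => e t - F t (e 0)) (A t (e t - F t (e 0))) t := fun t => by
      have := (hFd t).clm_apply (hasDerivAt_const t (e 0))
      refine HasDerivAt.congr_deriv ((hed t).sub this) ?_
      simp
    have h2 := lin_unique A K hK _ h1 0 (by simp [hF0]) 1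
    have h3 : e 1 = e 0 := by
      have := hup 0
      rw [zero_add] at this
      simp only [he, this]
    rw [h3] at h2
    exact (sub_eq_zero.1 h2).symm
  have hB : ∀ (v : E) (τ : ℝ), v - F 1 v - τ • e 0 = 0 → l v = 0 → v = 0 ∧ τ = 0 := by
    intro v τ h1 h2
    set M : Module.End ℝ E := (Φ T : E →ₗ[ℝ] E) with hM
    have hMF : ∀ w, M w = F 1 w := fun w => by simp [hM, hF]
    have hr := LinearMap.finrank_maxGenEigenspace_eq M 1
    rw [hm] at hr
    have m1 : e 0 ∈ M.maxGenEigenspace 1 := by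
      rw [Module.End.mem_maxGenEigenspace]
      exact ⟨1, by simp [hMF, hFe]⟩
    have m2 : v ∈ M.maxGenEigenspace 1 := by
      rw [Module.End.mem_maxGenEigenspace]
      refine ⟨2, ?_⟩
      have h3 : (M - (1:ℝ) • 1) v = -(τ • e 0) := by
        simp only [one_smul, LinearMap.sub_apply, Module.End.one_apply, hMF]
        rw [← sub_eq_zero.1 h1]
        abel
      rw [pow_two, Module.End.mul_apply, h3]
      simp [hMF, hFe]
    obtain ⟨a, ha⟩ := (finrank_eq_one_iff_of_nonzero' (⟨e 0, m1⟩ : M.maxGenEigenspace 1)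
      (fun h => he0 (congrArg Subtype.val h))).1 hr ⟨v, m2⟩
    have ha' : a • e 0 = v := congrArg Subtype.val ha
    have ha0 : a = 0 := by
      rw [← ha', map_smul, smul_eq_mul] at h2
      exact (mul_eq_zero.1 h2).resolve_right hl
    have hv : v = 0 := by rw [← ha', ha0, zero_smul]
    refine ⟨hv, ?_⟩
    rw [hv, map_zero, sub_zero, zero_sub, neg_eq_zero] at h1
    exact (smul_eq_zero.1 h1).resolve_right he0
  exact ⟨⟨⟨A, F, e, l, K + 1, by linarith, fun t => (hK t).trans (by linarith), hAp, hF0, hFd, hed,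
    fun t => by simp only [he, hup], hB⟩, f, u, T, hT, hf, hud, hup, fun _ => rfl, fun _ => rfl⟩,
    rfl, rfl, fun _ => rfl⟩

namespace Net

variable {G : Net}

lemma exists_fam (f : G.P → G.P) (hf : ContDiff ℝ 1 f) (ha : G.Adm f) (x : ℝ → G.P) (T : ℝ)
    (hx : IsPer f x T) (hh : Hyp f x T) (R : (ℝ → G.P) → ℝ → Prop) (hR : G.Rigid f x T R)
    (δ1 : ℝ) (hδ1 : 0 < δ1) : ∃ Φ : G.Fam, ∀ p ∈ Φ.U, 0 < Φ.S p ∧
      R (fun t => Φ.v p (t / Φ.S p)) (Φ.S p) ∧ ∀ t, ‖Φ.v p t - x (T * t)‖ ≤ δ1 := by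
  classical
  obtain ⟨B, rfl, rfl, hu⟩ := exists_base f hf x T hx hh
  obtain ⟨η, hη, δ, hδ, hR⟩ := hR
  obtain ⟨hT, -, -, s0, t0, hne⟩ := hx
  obtain ⟨C, δs, Lp, hC, hδs, hLp, hδT, hlip, hstab⟩ := B.stab
  have hd0 : 0 < ‖x s0 - x t0‖ := norm_pos_iff.2 (sub_ne_zero.2 hne)
  set δ' := min (min δ δs) (min δ1 (‖x s0 - x t0‖ / 3)) with hδ'
  have a1 : δ' ≤ δ := (min_le_left _ _).trans (min_le_left _ _)
  have a2 : δ' ≤ δs := (min_le_left _ _).trans (min_le_right _ _)
  have a3 : δ' ≤ δ1 := (min_le_right _ _).trans (min_le_left _ _)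
  have a4 : δ' ≤ ‖x s0 - x t0‖ / 3 := (min_le_right _ _).trans (min_le_right _ _)
  obtain ⟨η1, hη1, hex⟩ := B.exist δ' (by positivity)
  set η' := min η1 (min η δs) with hη'
  set U : Set (G.P → G.P) :=
    {p | G.Good p ∧ ∃ r < η', ∀ z, ‖p z‖ ≤ r ∧ ‖fderiv ℝ p z‖ ≤ r} with hU
  have hpd : ∀ p, G.Good p → ContDiff ℝ 1 p := fun p hp => hp.2.1.of_le (by exact_mod_cast le_top)
  have hg : ∀ p ∈ U, ContDiff ℝ 1 (B.f + p) := fun p hp => hf.add (hpd p hp.1)
  have hcl : ∀ p ∈ U, Cl B.f (B.f + p) η' := by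
    rintro p ⟨hp, r, hr, h⟩ z
    rw [fderiv_add (hf.differentiable one_ne_zero z) ((hpd p hp).differentiable one_ne_zero z),
      Pi.add_apply, add_sub_cancel_left, add_sub_cancel_left]
    exact ⟨(h z).1.trans hr.le, (h z).2.trans hr.le⟩
  have hcs : ∀ p ∈ U, Cl B.f (B.f + p) δs := fun p hp =>
    (hcl p hp).mono ((min_le_right _ _).trans (min_le_right _ _))
  have hsol : ∀ p, ∃ v S, p ∈ U → B.Sol (B.f + p) v S δ' := by
    intro p
    by_cases hp : p ∈ U
    · obtain ⟨v, S, h⟩ := hex _ (hg p hp) ((hcl p hp).mono (min_le_left _ _))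
      exact ⟨v, S, fun _ => h⟩
    · exact ⟨0, 0, fun h => absurd h hp⟩
  choose v S hsol using hsol
  have hS : ∀ p ∈ U, 0 < S p := fun p hp => by
    have := abs_le.1 (hsol p hp).2.2.2.2
    linarith [this.1]
  refine ⟨⟨B.f, U, v, S, C, Lp, hC, hLp, hf, ha,
    ⟨0, Good.zero, 0, by positivity, fun z => by simp⟩, fun p hp => hp.1, ?_,
    fun p hp => (hS p hp).ne', fun p hp => (hsol p hp).1, fun p hp => (hsol p hp).2.1,
    fun p hp q hq t => ?_, fun p hp q hq t => ?_⟩, fun p hp => ⟨hS p hp, ?_, fun t => ?_⟩⟩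
  · rintro p ⟨hp, r, hr, h⟩ q hq
    obtain ⟨M, hM, hMb⟩ := hq.2.fderiv_le
    refine ⟨(η' - r) / 2 / M, by have := sub_pos.2 hr; positivity, fun ε hε hle =>
      ⟨hp.add (hq.smul ε), r + (η' - r) / 2, by linarith, fun z => ?_⟩⟩
    rw [le_div_iff₀ hM] at hle
    rw [fderiv_add ((hpd p hp).differentiable one_ne_zero z)
      ((hpd _ (hq.smul ε)).differentiable one_ne_zero z),
      fderiv_const_smul ((hpd q hq).differentiable one_ne_zero z), Pi.add_apply, Pi.smul_apply]
    constructor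
    · refine (norm_add_le _ _).trans (add_le_add (h z).1 ?_)
      rw [norm_smul, Real.norm_eq_abs, abs_of_pos hε]
      exact (mul_le_mul_of_nonneg_left (hMb z).1 hε.le).trans hle
    · refine (norm_add_le _ _).trans (add_le_add (h z).2 ?_)
      rw [norm_smul, Real.norm_eq_abs, abs_of_pos hε]
      exact (mul_le_mul_of_nonneg_left (hMb z).2 hε.le).trans hle
  · have := hstab _ _ _ _ _ _ (hg p hp).continuous (hg q hq) (hcs q hq) ((hsol p hp).mono a2)
      ((hsol q hq).mono a2) t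
    simpa only [Pi.add_apply, add_sub_add_left_eq_sub] using this
  · exact hlip _ (hg p hp) (hcs p hp) t _ _ (((hsol p hp).2.2.2.1 t).trans a2)
      (((hsol q hq).2.2.2.1 t).trans a2)
  · obtain ⟨d1, p1, -, c1, s1⟩ := hsol p hp
    have hSp := hS p hp
    obtain ⟨hgood, r, hr, h⟩ := hp
    have hr' : r ≤ η := hr.le.trans ((min_le_right _ _).trans (min_le_left _ _))
    refine hR p hgood.1 (fun z => ⟨(h z).1.trans hr', (h z).2.trans hr'⟩) _ _
      ⟨hSp, fun t => ?_, fun t => ?_, s0 / B.T * S p, t0 / B.T * S p, fun h' => ?_⟩ (s1.trans a1)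
      (fun t => ?_)
    · have := (d1 (t / S p)).scomp t ((hasDerivAt_id t).div_const (S p))
      refine HasDerivAt.congr_deriv this ?_
      rw [smul_smul, one_div, inv_mul_cancel₀ hSp.ne', one_smul]
    · show v p ((t + S p) / S p) = v p (t / S p)
      rw [add_div, div_self hSp.ne', p1]
    · simp only [mul_div_cancel_right₀ _ hSp.ne'] at h'
      have e1 := c1 (s0 / B.T)
      have e2 := c1 (t0 / B.T)
      rw [hu, mul_div_cancel₀ _ hT.ne'] at e1 e2
      rw [h'] at e1
      have := norm_sub_le (v p (t0 / B.T) - x t0) (v p (t0 / B.T) - x s0)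
      rw [sub_sub_sub_cancel_left] at this
      linarith
    · show ‖v p (S p * t / S p) - x (B.T * t)‖ ≤ δ
      rw [mul_div_cancel_left₀ _ hSp.ne', ← hu]
      exact (c1 t).trans a1
  · rw [← hu]
    exact ((hsol p hp).2.2.2.1 t).trans a3

end Net

end Pool.Agent.H27.Rig
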