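import Mathlib

/-! Coupled cell networks: admissible vector fields, hyperbolic periodic orbits, rigidity. -/

open scoped ContDiff

namespace Pool.Agent.H27.Rig

/-- A network with nodes `Fin n` and arrows `Fin m`. Node and arrow types are given by labels
(equal type means equal label); node `c` has state space `ℝ^(k c)`, `k c ≥ 1`. -/
structure Net where
  n : ℕ
  m : ℕ
  head : Fin m → Fin n
  tail : Fin m → Fin n
  nty : Fin n → ℕ
  aty : Fin m → ℕ
  k : Fin n → ℕ
  compat : ∀ e e', aty e = aty e' → nty (head e) = nty (head e') ∧ nty (tail e) = nty (tail e')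
  hk : ∀ c d, nty c = nty d → k c = k d
  kpos : ∀ c, 0 < k c

/-- Equality of a vector of `ℝ^a` and a vector of `ℝ^b`: `a = b` and the coordinates agree. -/
def Eqv {a b : ℕ} (v : Fin a → ℝ) (w : Fin b → ℝ) : Prop := List.ofFn v = List.ofFn w

/-- `y` is a nonconstant solution of `y' = g y` with period `T > 0`. -/
def IsPer {E : Type} [NormedAddCommGroup E] [NormedSpace ℝ E] (g : E → E) (y : ℝ → E) (T : ℝ) :
    Prop :=
  0 < T ∧ (∀ t, HasDerivAt y (g (y t)) t) ∧ (∀ t, y (t + T) = y t) ∧ ∃ s t, y s ≠ y t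

/-- Hyperbolicity: with `Φ` the fundamental solution of the variational equation along `x`,
the Floquet multipliers are the roots of the characteristic polynomial of `Φ T`; `1` is a simple
root and there is no other complex root on the unit circle. -/
def Hyp {E : Type} [NormedAddCommGroup E] [NormedSpace ℝ E] [FiniteDimensional ℝ E]
    (f : E → E) (x : ℝ → E) (T : ℝ) : Prop :=
  ∃ Φ : ℝ → E →L[ℝ] E, Φ 0 = ContinuousLinearMap.id ℝ E ∧
    (∀ t, HasDerivAt Φ ((fderiv ℝ f (x t)).comp (Φ t)) t) ∧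
    (LinearMap.charpoly (Φ T : E →ₗ[ℝ] E)).rootMultiplicity 1 = 1 ∧
    ∀ z : ℂ, ‖z‖ = 1 → Polynomial.aeval z (LinearMap.charpoly (Φ T : E →ₗ[ℝ] E)) = 0 → z = 1

namespace Net

variable (G : Net)

/-- The total state space. -/
abbrev P : Type := (c : Fin G.n) → Fin (G.k c) → ℝ

/-- The input arrows of `c`. -/
abbrev I (c : Fin G.n) : Type := {e : Fin G.m // G.head e = c}

/-- Input tuples of `c`: the state of `c` and one state for each input arrow. -/
abbrev Tup (c : Fin G.n) : Type :=
  (Fin (G.k c) → ℝ) × ((e : G.I c) → Fin (G.k (G.tail e.1)) → ℝ)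

/-- The input tuple of `c` in the state `x`. -/
def tup (c : Fin G.n) (x : G.P) : G.Tup c := (x c, fun e => x (G.tail e.1))

/-- `β` is an input isomorphism from `c` to `d`. -/
def IsIso (c d : Fin G.n) (β : G.I c ≃ G.I d) : Prop :=
  G.nty c = G.nty d ∧ ∀ e, G.aty (β e).1 = G.aty e.1

/-- Admissibility: if an input isomorphism matches the input tuple of `c` in `x` with that of `d`
in `y`, then `f_c x = f_d y` (for `c = d`, `β = id`: `f_c` depends only on the input tuple). -/
def Adm (f : G.P → G.P) : Prop :=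
  ∀ c d β, G.IsIso c d β → ∀ x y : G.P, Eqv (x c) (y d) →
    (∀ e, Eqv (x (G.tail e.1)) (y (G.tail (β e).1))) → Eqv (f x c) (f y d)

/-- Strict smooth admissibility: `p_c = F_c ∘ tup_c` with `F_c` smooth on all input tuples and the
`F_c` matched by every input isomorphism. -/
def SAdm (p : G.P → G.P) : Prop :=
  ∃ F : (c : Fin G.n) → G.Tup c → Fin (G.k c) → ℝ, (∀ c, ContDiff ℝ ∞ (F c)) ∧
    (∀ x c, p x c = F c (G.tup c x)) ∧
    ∀ c d β, G.IsIso c d β → ∀ (z : G.Tup c) (w : G.Tup d), Eqv z.1 w.1 →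
      (∀ e, Eqv (z.2 e) (w.2 (β e))) → Eqv (F c z) (F d w)

/-- The property `R` (of an orbit and its period) is rigid at the `T`-periodic orbit `x` of `f`:
it holds for every periodic orbit close to `x`, with period close to `T`, of every `f + p` with
`p` strictly admissible and `C¹`-small. -/
def Rigid (f : G.P → G.P) (x : ℝ → G.P) (T : ℝ) (R : (ℝ → G.P) → ℝ → Prop) : Prop :=
  ∃ η > 0, ∃ δ > 0, ∀ p, G.SAdm p → (∀ z, ‖p z‖ ≤ η ∧ ‖fderiv ℝ p z‖ ≤ η) →
    ∀ y S, IsPer (f + p) y S → |S - T| ≤ δ → (∀ t, ‖y (S * t) - x (T * t)‖ ≤ δ) → R y S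

end Net

end Pool.Agent.H27.Rig
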