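import Mathlib
import Pool.Agent.H27.PiB

set_option autoImplicit false

namespace Pool.Agent.H27.Scd

open Filter Topology Set

abbrev D : Type := ℕ → Bool
abbrev Y : Type := C(D, ℝ)

instance (x : D) : NeBot (𝓝[≠] x) := by
  have h1 : Tendsto (fun n => Function.update x n (!x n)) atTop (𝓝 x) := by
    refine tendsto_pi_nhds.2 fun k => tendsto_const_nhds.congr' ?_
    filter_upwards [eventually_gt_atTop k] with n hn
    rw [Function.update_of_ne hn.ne]
  have h2 : Tendsto (fun n => Function.update x n (!x n)) atTop (𝓝[≠] x) := by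
    refine tendsto_nhdsWithin_iff.2 ⟨h1, Eventually.of_forall fun n => ?_⟩
    intro h
    have := congrFun (mem_singleton_iff.1 h) n
    simp at this
  exact h2.neBot

theorem split {Q : Set D} (hQ : IsOpen Q) (hne : Q.Nonempty) :
    ∃ E : ℕ → Set D, (∀ j, IsClopen (E j) ∧ (E j).Nonempty ∧ E j ⊆ Q) ∧
      Pairwise (Function.onFun Disjoint E) := by
  obtain ⟨x, hx⟩ := hne
  haveI : Infinite Q := (infinite_of_mem_nhds x (hQ.mem_nhds hx)).to_subtype
  obtain ⟨U, h1, h2, h3⟩ := exists_seq_infinite_isOpen_pairwise_disjoint Q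
  have h4 : ∀ j, ∃ E : Set D, IsClopen E ∧ E.Nonempty ∧ E ⊆ Subtype.val '' U j := fun j => by
    obtain ⟨y, hy⟩ := (h1 j).nonempty
    obtain ⟨V, hV, hyV, hVU⟩ := compact_exists_isClopen_in_isOpen
      (hQ.isOpenMap_subtype_val _ (h2 j)) (mem_image_of_mem _ hy)
    exact ⟨V, hV, ⟨_, hyV⟩, hVU⟩
  choose E hE1 hE2 hE3 using h4
  refine ⟨E, fun j => ⟨hE1 j, hE2 j, (hE3 j).trans (Subtype.coe_image_subset _ _)⟩, fun i j hij => ?_⟩
  exact ((disjoint_image_iff Subtype.val_injective).2 (h3 hij)).mono (hE3 i) (hE3 j)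

noncomputable def chi {Q : Set D} (hQ : IsClopen Q) : Y :=
  ⟨Q.indicator 1, hQ.continuous_indicator continuous_const⟩

theorem chi_mem {Q : Set D} (hQ : IsClopen Q) {t : D} (h : t ∈ Q) : chi hQ t = 1 :=
  indicator_of_mem h _

theorem chi_not {Q : Set D} (hQ : IsClopen Q) {t : D} (h : t ∉ Q) : chi hQ t = 0 :=
  indicator_of_notMem h _

theorem small {ι : Type} [Fintype ι] (f : ι → Y →L[ℝ] ℝ) {Q : Set D} (hQ : IsOpen Q)
    (hne : Q.Nonempty) {ε : ℝ} (hε : 0 < ε) : ∃ E : Set D, IsClopen E ∧ E.Nonempty ∧ E ⊆ Q ∧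
      ∀ g : Y, ‖g‖ ≤ 1 → (∀ t ∉ E, g t = 0) → ∀ i, |f i g| < ε := by
  classical
  obtain ⟨E, hE, hd⟩ := split hQ hne
  by_contra hc
  have h1 : ∀ j, ∃ g : Y, ‖g‖ ≤ 1 ∧ (∀ t ∉ E j, g t = 0) ∧ ∃ i, ε ≤ |f i g| := fun j => by
    by_contra h2
    refine hc ⟨E j, (hE j).1, (hE j).2.1, (hE j).2.2, fun g h3 h4 i => ?_⟩
    by_contra h5
    exact h2 ⟨g, h3, h4, i, not_lt.1 h5⟩
  choose g hg1 hg2 hg3 using h1
  have h2 : ∀ i M, ∑ j ∈ Finset.range M, |f i (g j)| ≤ ‖f i‖ := fun i M => by
    let w : Y := ∑ j ∈ Finset.range M, (if 0 ≤ f i (g j) then (1 : ℝ) else -1) • g j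
    have h3 : ‖w‖ ≤ 1 := by
      rw [ContinuousMap.norm_le _ zero_le_one]
      intro t
      simp only [w, ContinuousMap.sum_apply, ContinuousMap.smul_apply, smul_eq_mul]
      by_cases h4 : ∃ j ∈ Finset.range M, t ∈ E j
      · obtain ⟨j, hj, ht⟩ := h4
        rw [Finset.sum_eq_single_of_mem j hj fun k _ hk => by
          rw [hg2 k t (Set.disjoint_left.1 (hd hk.symm) ht), mul_zero], norm_mul]
        have := ((g j).norm_coe_le_norm t).trans (hg1 j)
        split_ifs <;> simpa using this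
      · rw [Finset.sum_eq_zero fun k hk => by rw [hg2 k t fun h5 => h4 ⟨k, hk, h5⟩, mul_zero]]
        simp
    have h4 : f i w = ∑ j ∈ Finset.range M, |f i (g j)| := by
      simp only [w, map_sum, map_smul, smul_eq_mul]
      refine Finset.sum_congr rfl fun j _ => ?_
      split_ifs with h5
      · rw [abs_of_nonneg h5, one_mul]
      · rw [abs_of_neg (not_le.1 h5)]; ring
    rw [← h4]
    exact (le_abs_self _).trans (((f i).le_opNorm w).trans
      (mul_le_of_le_one_right (norm_nonneg _) h3))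
  obtain ⟨M, hM⟩ := exists_nat_gt ((∑ i, ‖f i‖) / ε)
  rw [div_lt_iff₀ hε] at hM
  have h3 : ∑ j ∈ Finset.range M, ε ≤ ∑ j ∈ Finset.range M, ∑ i, |f i (g j)| :=
    Finset.sum_le_sum fun j _ => by
      obtain ⟨i, hi⟩ := hg3 j
      exact hi.trans (Finset.single_le_sum (f := fun i => |f i (g j)|) (fun _ _ => abs_nonneg _)
        (Finset.mem_univ i))
  rw [Finset.sum_comm] at h3
  have h4 := Finset.sum_le_sum fun i (_ : i ∈ Finset.univ) => h2 i M
  simp only [Finset.sum_const, Finset.card_range, nsmul_eq_mul] at h3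
  linarith

theorem exC : ∃ E : ℕ → Set D, (∀ j, IsClopen (E j) ∧ (E j).Nonempty ∧ E j ⊆ univ) ∧
    Pairwise (Function.onFun Disjoint E) := split isOpen_univ univ_nonempty

def Cs : ℕ → Set D := exC.choose
theorem Cs_clopen (n : ℕ) : IsClopen (Cs n) := (exC.choose_spec.1 n).1
noncomputable def tau (n : ℕ) : D := (exC.choose_spec.1 n).2.1.some
theorem tau_mem (n : ℕ) : tau n ∈ Cs n := (exC.choose_spec.1 n).2.1.some_mem
theorem Cs_disj {m n : ℕ} (h : m ≠ n) {t : D} (ht : t ∈ Cs m) : t ∉ Cs n :=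
  Set.disjoint_left.1 (exC.choose_spec.2 h) ht

noncomputable def ch (n : ℕ) : Y := chi (Cs_clopen n)

instance : Nonempty (Metric.closedBall (0 : Y) 1) := ⟨⟨0, by simp⟩⟩

noncomputable def z (n : ℕ) : Y :=
  (TopologicalSpace.denseSeq (Metric.closedBall (0 : Y) 1) (n / 2).unpair.1).1

theorem z_le (n : ℕ) (t : D) : |z n t| ≤ 1 :=
  ((z n).norm_coe_le_norm t).trans (mem_closedBall_zero_iff.1 (Subtype.property _))

noncomputable def eta (n : ℕ) : ℝ := 1 / (n + 2)

theorem eta_pos (n : ℕ) : 0 < eta n := by unfold eta; positivity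
theorem eta_le (n : ℕ) : eta n ≤ 1 := by
  unfold eta
  rw [div_le_one (by positivity)]
  have : (0 : ℝ) ≤ n := n.cast_nonneg
  linarith
theorem eta_anti {m n : ℕ} (h : n ≤ m) : eta m ≤ eta n := by
  unfold eta
  have : (n : ℝ) ≤ m := by exact_mod_cast h
  gcongr

noncomputable def d (n : ℕ) : Y := (1 - eta n) • (z n * (1 - ch n)) + (1 + eta n) • ch n

theorem d_mem {n : ℕ} {t : D} (h : t ∈ Cs n) : d n t = 1 + eta n := by
  simp [d, ch, chi_mem _ h]

theorem d_not {n : ℕ} {t : D} (h : t ∉ Cs n) : d n t = (1 - eta n) * z n t := by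
  simp [d, ch, chi_not _ h]

theorem d_not_le {n : ℕ} {t : D} (h : t ∉ Cs n) : |d n t| ≤ 1 - eta n := by
  rw [d_not h, abs_mul, abs_of_nonneg (by linarith [eta_le n])]
  exact mul_le_of_le_one_right (by linarith [eta_le n]) (z_le n t)

theorem d_norm (n : ℕ) : ‖d n‖ ≤ 2 := by
  rw [ContinuousMap.norm_le _ (by norm_num)]
  intro t
  by_cases h : t ∈ Cs n
  · rw [d_mem h, Real.norm_eq_abs, abs_of_pos (by linarith [eta_pos n])]
    linarith [eta_le n]
  · exact (d_not_le h).trans (by linarith [eta_pos n])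

/-- flattening the spike of `d n` and using the slack on another piece -/
theorem flat {m n : ℕ} (h : m ≠ n) : ‖d n - eta n • ch n + eta n • ch m‖ ≤ 1 := by
  rw [ContinuousMap.norm_le _ zero_le_one]
  intro t
  simp only [ContinuousMap.add_apply, ContinuousMap.sub_apply, ContinuousMap.smul_apply,
    smul_eq_mul, Real.norm_eq_abs, ch]
  by_cases h1 : t ∈ Cs n
  · rw [d_mem h1, chi_mem _ h1, chi_not _ (Cs_disj h.symm h1)]
    simp
  · have h2 := abs_le.1 (d_not_le h1)
    have := eta_pos n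
    rw [chi_not _ h1, abs_le]
    by_cases h3 : t ∈ Cs m
    · rw [chi_mem _ h3]; constructor <;> linarith [h2.1, h2.2]
    · rw [chi_not _ h3]; constructor <;> linarith [h2.1, h2.2]

abbrev X : Type := Y × ℝ

noncomputable def sg (n : ℕ) : ℝ := if n % 2 = 0 then 1 else -1
noncomputable def P (n : ℕ) : X := (d n, sg n)
def K : Set X := closure (convexHull ℝ (range P))

theorem K_convex : Convex ℝ K := (convex_convexHull ℝ _).closure
theorem K_closed : IsClosed K := isClosed_closure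
theorem P_mem (n : ℕ) : P n ∈ K := subset_closure (subset_convexHull ℝ _ ⟨n, rfl⟩)
theorem P_norm (n : ℕ) : ‖P n‖ ≤ 2 := by
  refine max_le (d_norm n) ?_
  simp only [P, sg]
  split_ifs <;> norm_num

theorem K_sub {S : Set X} (h1 : IsClosed S) (h2 : Convex ℝ S) (h3 : ∀ n, P n ∈ S) : K ⊆ S :=
  closure_minimal (convexHull_min (range_subset_iff.2 h3) h2) h1

theorem K_ball : K ⊆ Metric.closedBall 0 2 :=
  K_sub Metric.isClosed_closedBall (convex_closedBall _ _) fun n =>
    mem_closedBall_zero_iff.2 (P_norm n)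

theorem base (u : Y) (hu : ‖u‖ ≤ 1) (n0 : ℕ) : (u, sg n0) ∈ K := by
  refine K_closed.closure_subset (Metric.mem_closure_iff.2 fun ε hε => ?_)
  obtain ⟨a, ha⟩ := (TopologicalSpace.denseRange_denseSeq (Metric.closedBall (0 : Y) 1)).exists_dist_lt
    ⟨u, mem_closedBall_zero_iff.2 hu⟩ (by positivity : 0 < ε / 3)
  obtain ⟨N, hN⟩ := exists_nat_gt (12 / ε)
  have hN0 : (0 : ℝ) < N := lt_trans (by positivity) hN
  rw [div_lt_iff₀ hε] at hN
  let k : ℕ → ℕ := fun i => 2 * Nat.pair a (N + i) + n0 % 2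
  have k1 : ∀ i, k i / 2 = Nat.pair a (N + i) := fun i => by simp only [k]; omega
  have k2 : ∀ i, sg (k i) = sg n0 := fun i => by
    have : k i % 2 = n0 % 2 := by simp only [k]; omega
    simp only [sg, this]
  have k3 : ∀ i, N ≤ k i := fun i => by
    have := Nat.right_le_pair a (N + i)
    simp only [k]; omega
  have k4 : Function.Injective k := fun i j h => by
    have h1 : Nat.pair a (N + i) = Nat.pair a (N + j) := by rw [← k1, ← k1, h]
    have := (Nat.pair_eq_pair.1 h1).2
    omega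
  have k5 : ∀ i t, |z (k i) t - u t| ≤ ε / 3 := fun i t => by
    have h1 : dist u (z (k i)) < ε / 3 := by
      simp only [z, k1, Nat.unpair_pair]
      exact ha
    rw [dist_comm, dist_eq_norm] at h1
    exact ((z (k i) - u).norm_coe_le_norm t).trans h1.le
  refine ⟨∑ i ∈ Finset.range N, (1 / N : ℝ) • P (k i), K_convex.sum_mem
    (fun _ _ => by positivity) (by simp [hN0.ne']) fun i _ => P_mem _, ?_⟩
  have e1 : ∑ i ∈ Finset.range N, (1 / N : ℝ) • P (k i) =
      (∑ i ∈ Finset.range N, (1 / N : ℝ) • d (k i), sg n0) := by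
    refine Prod.ext (by simp [P, Prod.fst_sum]) ?_
    simp only [P, Prod.snd_sum, Prod.smul_snd, k2, smul_eq_mul, Finset.sum_const, Finset.card_range,
      nsmul_eq_mul]
    field_simp
  rw [e1, Prod.dist_eq, dist_self, max_lt_iff]
  refine ⟨lt_of_le_of_lt (b := 2 * ε / 3) ?_ (by linarith), hε⟩
  rw [dist_comm, dist_eq_norm, ContinuousMap.norm_le _ (by positivity)]
  intro t
  have h1 : ∀ i, |d (k i) t - u t| ≤ ε / 3 + 1 / N + 3 * ch (k i) t := fun i => by
    have h2 : |u t| ≤ 1 := (u.norm_coe_le_norm t).trans hu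
    have h5 : (0 : ℝ) < 1 / N := by positivity
    by_cases h3 : t ∈ Cs (k i)
    · have h4 : |d (k i) t| ≤ 2 := ((d (k i)).norm_coe_le_norm t).trans (d_norm _)
      have := abs_sub (d (k i) t) (u t)
      simp only [ch, chi_mem _ h3]
      linarith
    · simp only [ch, chi_not _ h3, d_not h3]
      have h6 : eta (k i) ≤ 1 / N := by
        have : (N : ℝ) ≤ k i := by exact_mod_cast k3 i
        unfold eta
        gcongr; linarith
      have h7 := abs_le.1 (k5 i t)
      have h8 := abs_le.1 (z_le (k i) t)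
      have := eta_pos (k i)
      rw [abs_le]
      constructor <;> nlinarith [h7.1, h7.2, h8.1, h8.2]
  have h2 : ∑ i ∈ Finset.range N, ch (k i) t ≤ 1 := by
    simp only [ch]
    by_cases h4 : ∃ j ∈ Finset.range N, t ∈ Cs (k j)
    · obtain ⟨j, hj, ht⟩ := h4
      rw [Finset.sum_eq_single_of_mem j hj fun i _ hi =>
        chi_not _ (Cs_disj (fun h => hi (k4 h).symm) ht)]
      exact (chi_mem _ ht).le
    · rw [Finset.sum_eq_zero fun i hi => chi_not _ fun h5 => h4 ⟨i, hi, h5⟩]
      norm_num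
  have h3 : (∑ i ∈ Finset.range N, (1 / N : ℝ) • d (k i) - u) t =
      (1 / N) * ∑ i ∈ Finset.range N, (d (k i) t - u t) := by
    simp only [ContinuousMap.sub_apply, ContinuousMap.sum_apply, ContinuousMap.smul_apply,
      smul_eq_mul, Finset.sum_sub_distrib, Finset.sum_const, Finset.card_range, nsmul_eq_mul,
      ← Finset.mul_sum]
    field_simp
  rw [h3, Real.norm_eq_abs, abs_mul, abs_of_pos (by positivity : (0 : ℝ) < 1 / N)]
  have h4 := (Finset.abs_sum_le_sum_abs _ _).trans
    (Finset.sum_le_sum fun i (_ : i ∈ Finset.range N) => h1 i)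
  simp only [Finset.sum_add_distrib, Finset.sum_const, Finset.card_range, nsmul_eq_mul,
    ← Finset.mul_sum] at h4
  rw [mul_one_div_cancel hN0.ne'] at h4
  rw [one_div, inv_mul_le_iff₀ hN0]
  nlinarith

theorem dent (n : ℕ) {p : X} (hp : p ∈ K) :
    ‖p - P n‖ ≤ 4 / eta n * (1 + eta n - p.1 (tau n)) := by
  refine K_sub (S := {p | ‖p - P n‖ ≤ 4 / eta n * (1 + eta n - p.1 (tau n))})
    (isClosed_le (by fun_prop) (by fun_prop)) ?_ (fun m => ?_) hp
  · intro p hp q hq a b ha hb hab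
    simp only [mem_setOf_eq] at hp hq ⊢
    have e : a • p + b • q - P n = a • (p - P n) + b • (q - P n) := by
      rw [smul_sub, smul_sub, ← add_sub_add_comm, ← add_smul, hab, one_smul]
    rw [e]
    refine (norm_add_le _ _).trans ?_
    rw [norm_smul, norm_smul, Real.norm_of_nonneg ha, Real.norm_of_nonneg hb]
    have e2 : (a • p + b • q).1 (tau n) = a * p.1 (tau n) + b * q.1 (tau n) := by simp
    rw [e2]
    have h1 := mul_le_mul_of_nonneg_left hp ha
    have h2 := mul_le_mul_of_nonneg_left hq hb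
    have e3 : 4 / eta n * (1 + eta n - (a * p.1 (tau n) + b * q.1 (tau n))) =
        a * (4 / eta n * (1 + eta n - p.1 (tau n))) + b * (4 / eta n * (1 + eta n - q.1 (tau n))) := by
      have : b = 1 - a := by linarith
      rw [this]; ring
    linarith
  · simp only [mem_setOf_eq]
    by_cases h : m = n
    · subst h
      simp [P, d_mem (tau_mem m)]
    · have h1 := (abs_le.1 (d_not_le (Cs_disj (Ne.symm h) (tau_mem n)))).2
      have h2 := norm_sub_le (P m) (P n)
      have h3 : 4 / eta n * eta n ≤ 4 / eta n * (1 + eta n - (P m).1 (tau n)) :=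
        mul_le_mul_of_nonneg_left (by simp only [P]; linarith [eta_pos m])
          (by have := eta_pos n; positivity)
      rw [div_mul_cancel₀ _ (eta_pos n).ne'] at h3
      linarith [P_norm m, P_norm n]

end Pool.Agent.H27.Scd
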