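import Mathlib
import Pool.Agent.H27.Scd1

set_option autoImplicit false

namespace Pool.Agent.H27.Scd

open Filter Topology Set

/-- a part of mass `m` of the first coordinate of `p` can be replaced freely -/
def F (p : X) (m : ℝ) : Prop :=
  ∃ h : Y, ‖h‖ ≤ 1 ∧ ∀ h' : Y, ‖h'‖ ≤ 1 → p + (m • (h' - h), 0) ∈ K

theorem F.conv {m : ℝ} : Convex ℝ {p | F p m} := by
  rintro p ⟨h, h1, h2⟩ q ⟨k, k1, k2⟩ a b ha hb hab
  refine ⟨a • h + b • k, ?_, fun h' hh => ?_⟩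
  · exact mem_closedBall_zero_iff.1 (convex_closedBall (0 : Y) 1 (mem_closedBall_zero_iff.2 h1)
      (mem_closedBall_zero_iff.2 k1) ha hb hab)
  · convert K_convex (h2 h' hh) (k2 h' hh) ha hb hab using 1
    have : b = 1 - a := by linarith
    subst this
    refine Prod.ext ?_ (by simp)
    simp only [Prod.fst_add, Prod.smul_fst]
    module

theorem F.mix {p q : X} {m a b : ℝ} (hp : F p m) (hq : q ∈ K) (ha : 0 ≤ a) (hb : 0 ≤ b)
    (hab : a + b = 1) : F (a • p + b • q) (a * m) := by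
  obtain ⟨h, h1, h2⟩ := hp
  refine ⟨h, h1, fun h' hh => ?_⟩
  convert K_convex (h2 h' hh) hq ha hb hab using 1
  refine Prod.ext ?_ (by simp)
  simp only [Prod.fst_add, Prod.smul_fst]
  module

theorem F_base (u : Y) (hu : ‖u‖ ≤ 1) (n : ℕ) : F (u, sg n) 1 :=
  ⟨u, hu, fun h' hh => by simpa using base h' hh n⟩

theorem F_pair_lt {m n : ℕ} (h : n < m) : F ((1 / 2 : ℝ) • P m + (1 / 2 : ℝ) • P n) (1 / 2) := by
  have hn := eta_pos n
  have hm := eta_pos m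
  have h1 : eta m / eta n ≤ 1 := (div_le_one hn).2 (eta_anti h.le)
  have h2 := K_convex (P_mem n) (base _ (flat h.ne') n) (sub_nonneg.2 h1) (by positivity)
    (sub_add_cancel _ _)
  have h3 := (F_base _ (flat h.ne) m).mix h2 (a := 1 / 2) (b := 1 / 2) (by norm_num) (by norm_num)
    (by norm_num)
  rw [mul_one] at h3
  convert h3 using 1
  have e : eta m = eta m / eta n * eta n := (div_mul_cancel₀ _ hn.ne').symm
  generalize eta m / eta n = θ at e ⊢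
  refine Prod.ext ?_ ?_
  · simp only [P, Prod.fst_add, Prod.smul_fst, e]
    module
  · simp only [P, Prod.snd_add, Prod.smul_snd, smul_eq_mul]
    ring

theorem F_pair {m n : ℕ} (h : m ≠ n) : F ((1 / 2 : ℝ) • P m + (1 / 2 : ℝ) • P n) (1 / 2) := by
  rcases lt_or_gt_of_ne h with h1 | h1
  · rw [add_comm]; exact F_pair_lt h1
  · exact F_pair_lt h1

def A (r : ℕ) : Set X := convexHull ℝ (P '' {n | n % 2 = r})

theorem A_sub (r : ℕ) : A r ⊆ K := convexHull_min (by rintro _ ⟨n, -, rfl⟩; exact P_mem n) K_convex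

theorem A_snd {r : ℕ} (hr : r < 2) {p : X} (hp : p ∈ A r) : p.2 = sg r := by
  refine convexHull_min (t := {p : X | p.2 = sg r}) ?_ ?_ hp
  · rintro _ ⟨n, hn, rfl⟩
    have h1 : n % 2 = r := hn
    have h2 : r % 2 = r := Nat.mod_eq_of_lt hr
    simp only [mem_setOf_eq, P, sg, h1, h2]
  · exact (convex_singleton (sg r)).linear_preimage (LinearMap.snd ℝ Y ℝ)

theorem F_half {a b : X} (ha : a ∈ A 0) (hb : b ∈ A 1) :
    F ((1 / 2 : ℝ) • a + (1 / 2 : ℝ) • b) (1 / 2) := by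
  have hc : ∀ c : X, Convex ℝ {a : X | F ((1 / 2 : ℝ) • a + (1 / 2 : ℝ) • c) (1 / 2)} := by
    intro c p hp q hq s t hs ht hst
    have := F.conv hp hq hs ht hst
    simp only [mem_setOf_eq] at this ⊢
    convert this using 1
    have : t = 1 - s := by linarith
    subst this
    module
  refine convexHull_min (t := {a : X | F ((1 / 2 : ℝ) • a + (1 / 2 : ℝ) • b) (1 / 2)}) ?_ (hc b) ha
  rintro _ ⟨m, hm, rfl⟩
  simp only [mem_setOf_eq]
  rw [add_comm]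
  refine convexHull_min (t := {a : X | F ((1 / 2 : ℝ) • a + (1 / 2 : ℝ) • P m) (1 / 2)}) ?_
    (hc _) hb
  rintro _ ⟨n, hn, rfl⟩
  refine F_pair fun h => ?_
  have h1 : m % 2 = 0 := hm
  have h2 : n % 2 = 1 := hn
  omega

theorem F_mid {p : X} (hp : p ∈ convexHull ℝ (range P)) (h : |p.2| < 1 / 2) : F p (1 / 4) := by
  have e : range P = P '' {n | n % 2 = 0} ∪ P '' {n | n % 2 = 1} := by
    rw [← image_union, ← image_univ]
    congr 1
    ext n; simp only [mem_univ, mem_union, mem_setOf_eq, true_iff]; omega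
  have n0 : (P '' {n | n % 2 = 0}).Nonempty := ⟨_, 0, rfl, rfl⟩
  have n1 : (P '' {n | n % 2 = 1}).Nonempty := ⟨_, 1, rfl, rfl⟩
  rw [e, convexHull_union n0 n1, mem_convexJoin] at hp
  obtain ⟨a, ha, b, hb, s, t, hs, ht, hst, rfl⟩ := hp
  have a2 : a.2 = 1 := (A_snd (by norm_num) ha).trans (by simp [sg])
  have b2 : b.2 = -1 := (A_snd (by norm_num) hb).trans (by simp [sg])
  simp only [Prod.snd_add, Prod.smul_snd, a2, b2, smul_eq_mul, abs_lt] at h
  have h1 := K_convex (A_sub 0 ha) (A_sub 1 hb) (a := 2 * s - 1 / 2) (b := 2 * t - 1 / 2)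
    (by linarith [h.1, h.2]) (by linarith [h.1, h.2]) (by linarith)
  have h2 := (F_half ha hb).mix h1 (a := 1 / 2) (b := 1 / 2) (by norm_num) (by norm_num)
    (by norm_num)
  convert h2 using 1
  · module
  · norm_num

abbrev WK : Type := {x : WeakSpace ℝ X // (toWeakSpace ℝ X).symm x ∈ K}

theorem step {U : Set WK} (hU : IsOpen U) (hne : U.Nonempty) {Q : Set D} (hQ : IsOpen Q)
    (hQn : Q.Nonempty) : ∃ Q' : Set D, IsClopen Q' ∧ Q'.Nonempty ∧ Q' ⊆ Q ∧ ∃ y ∈ U,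
      1 / 2 ≤ |((toWeakSpace ℝ X).symm y.1).2| ∨
        ∀ t ∈ Q', 1 / 5 < |((toWeakSpace ℝ X).symm y.1).1 t| := by
  obtain ⟨y0, hy0⟩ := hne
  by_cases h0 : 1 / 2 ≤ |((toWeakSpace ℝ X).symm y0.1).2|
  · obtain ⟨E, hE, -⟩ := split hQ hQn
    exact ⟨E 0, (hE 0).1, (hE 0).2.1, (hE 0).2.2, y0, hy0, Or.inl h0⟩
  obtain ⟨V, hV, rfl⟩ := isOpen_induced_iff.1 hU
  set p0 : X := (toWeakSpace ℝ X).symm y0.1 with hp0
  obtain ⟨I, ε, hε, hI⟩ := PiB.weak_nhds hV (x0 := p0) hy0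
  have hO : IsOpen ((⋂ f ∈ I, {p : X | |f p - f p0| < ε / 2}) ∩ {p : X | |p.2| < 1 / 2}) :=
    (isOpen_biInter_finset fun f _ => isOpen_lt (by fun_prop) continuous_const).inter
      (isOpen_lt (by fun_prop) continuous_const)
  obtain ⟨p, ⟨hp1, hp2⟩, hp3⟩ := mem_closure_iff.1 y0.2 _ hO
    ⟨mem_iInter₂.2 fun f _ => by
      show |f p0 - f p0| < ε / 2
      simpa using hε, not_le.1 h0⟩
  obtain ⟨h, h1, h2⟩ := F_mid hp3 hp2
  obtain ⟨E, hE1, ⟨t1, ht1⟩, hE3, hE4⟩ := small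
    (fun f : I => f.1.comp (ContinuousLinearMap.inl ℝ Y ℝ)) hQ hQn hε
  let σ : ℝ := if 0 ≤ p.1 t1 - 1 / 4 * h t1 then 1 else -1
  have hσ : |σ| = 1 := by simp only [σ]; split_ifs <;> simp
  let h' : Y := h * (1 - chi hE1) + σ • chi hE1
  have e1 : ∀ t ∈ E, h' t = σ := fun t ht => by simp [h', chi_mem _ ht]
  have e2 : ∀ t ∉ E, h' t = h t := fun t ht => by simp [h', chi_not _ ht]
  have n1 : ‖h'‖ ≤ 1 := by
    rw [ContinuousMap.norm_le _ zero_le_one]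
    intro t
    by_cases ht : t ∈ E
    · rw [e1 t ht]; exact hσ.le
    · rw [e2 t ht]; exact (h.norm_coe_le_norm t).trans h1
  let y : X := p + ((1 / 4 : ℝ) • (h' - h), 0)
  have n2 : ‖(1 / 2 : ℝ) • (h' - h)‖ ≤ 1 := by
    rw [norm_smul]
    have := norm_sub_le h' h
    norm_num; linarith
  have hy : toWeakSpace ℝ X y ∈ V := hI y fun f hf => by
    have h3 := hE4 _ n2 (fun t ht => by simp [e2 t ht]) ⟨f, hf⟩
    have h4 : |f p - f p0| < ε / 2 := mem_iInter₂.1 hp1 f hf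
    have h5 : f y = f p + 1 / 2 * f ((1 / 2 : ℝ) • (h' - h), 0) := by
      simp only [y, map_add]
      congr 1
      rw [← smul_eq_mul, ← map_smul]
      congr 1
      refine Prod.ext ?_ (by simp)
      simp only [Prod.smul_fst]
      module
    have h6 : |f ((1 / 2 : ℝ) • (h' - h), 0)| < ε := h3
    rw [abs_lt] at h4 h6 ⊢
    constructor <;> linarith [h4.1, h4.2, h6.1, h6.2]
  have hy1 : 1 / 5 < |y.1 t1| := by
    have : y.1 t1 = p.1 t1 - 1 / 4 * h t1 + 1 / 4 * σ := by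
      simp [y, e1 t1 ht1]; ring
    rw [this]
    simp only [σ]
    split_ifs with h3
    · rw [abs_of_nonneg (by linarith)]; linarith
    · rw [abs_of_neg (by linarith [not_le.1 h3])]; linarith [not_le.1 h3]
  obtain ⟨Q', q1, q2, q3⟩ := compact_exists_isClopen_in_isOpen
    (hE1.2.inter (isOpen_lt continuous_const (y.1.continuous.abs) :
      IsOpen {t | 1 / 5 < |y.1 t|})) ⟨ht1, hy1⟩
  exact ⟨Q', q1, ⟨_, q2⟩, fun t ht => hE3 (q3 ht).1, ⟨toWeakSpace ℝ X y, h2 h' n1⟩, hy,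
    Or.inr fun t ht => (q3 ht).2⟩

theorem no_pibase (𝒰 : Set (Set WK)) (h1 : 𝒰.Countable) (h2 : ∀ U ∈ 𝒰, IsOpen U ∧ U.Nonempty)
    (h3 : ∀ V : Set WK, IsOpen V → V.Nonempty → ∃ U ∈ 𝒰, U ⊆ V) : False := by
  have h0 : (0 : X) ∈ K := by
    have := K_convex (base 0 (by simp) 0) (base 0 (by simp) 1) (a := 1 / 2) (b := 1 / 2)
      (by norm_num) (by norm_num) (by norm_num)
    convert this using 1
    refine Prod.ext (by simp) ?_
    simp [sg]
  obtain ⟨U0, hU0, -⟩ := h3 univ isOpen_univ ⟨⟨0, h0⟩, trivial⟩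
  obtain ⟨U, hU⟩ := h1.exists_eq_range ⟨U0, hU0⟩
  have hU' : ∀ n, U n ∈ 𝒰 := fun n => hU ▸ mem_range_self n
  have st := fun (n : ℕ) (Q : {Q : Set D // IsClopen Q ∧ Q.Nonempty}) =>
    step (h2 _ (hU' n)).1 (h2 _ (hU' n)).2 Q.2.1.2 Q.2.2
  choose G g1 g2 g3 g4 using st
  let Q : ℕ → {Q : Set D // IsClopen Q ∧ Q.Nonempty} := fun N =>
    Nat.rec ⟨univ, isClopen_univ, univ_nonempty⟩ (fun n Q => ⟨G n Q, g1 n Q, g2 n Q⟩) N
  obtain ⟨t, ht⟩ := IsCompact.nonempty_iInter_of_sequence_nonempty_isCompact_isClosed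
    (fun n => (Q n).1) (fun n => g3 n (Q n)) (fun n => (Q n).2.2) (Q 0).2.1.1.isCompact
    (fun n => (Q n).2.1.1)
  let f1 : X →L[ℝ] ℝ := ContinuousLinearMap.snd ℝ Y ℝ
  let f2 : X →L[ℝ] ℝ := (ContinuousMap.evalCLM ℝ t).comp (ContinuousLinearMap.fst ℝ Y ℝ)
  have hc : ∀ f : X →L[ℝ] ℝ, Continuous fun y : WK => |f ((toWeakSpace ℝ X).symm y.1)| := fun f =>
    ((WeakBilin.eval_continuous (topDualPairing ℝ X).flip f).comp continuous_subtype_val).abs
  obtain ⟨W, hW, hWV⟩ := h3 ({y | |f1 ((toWeakSpace ℝ X).symm y.1)| < 1 / 2} ∩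
      {y | |f2 ((toWeakSpace ℝ X).symm y.1)| < 1 / 5})
    ((isOpen_lt (hc f1) continuous_const).inter (isOpen_lt (hc f2) continuous_const))
    ⟨⟨0, h0⟩, by simp, by simp⟩
  rw [hU] at hW
  obtain ⟨n, rfl⟩ := hW
  obtain ⟨y, hy, h4⟩ := g4 n (Q n)
  rcases h4 with h4 | h4
  · exact absurd (hWV hy).1 (not_lt.2 h4)
  · exact absurd (hWV hy).2 (not_lt.2 (h4 t (mem_iInter.1 ht (n + 1))).le)

end Pool.Agent.H27.Scd
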