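import Mathlib
import Pool.Agent.H27.Scd1

set_option autoImplicit false

namespace Pool.Agent.H27.Scd

open Filter Topology Set

theorem disj_small (f : Y →L[ℝ] ℝ) {k : ℕ → ℕ} (hk : Function.Injective k) (g : ℕ → Y)
    (hg1 : ∀ j, ‖g j‖ ≤ 1) (hg2 : ∀ j, ∀ t ∉ Cs (k j), g j t = 0) {ε : ℝ} (hε : 0 < ε) :
    ∃ j, |f (g j)| < ε := by
  classical
  have h2 : ∀ M, ∑ j ∈ Finset.range M, |f (g j)| ≤ ‖f‖ := fun M => by
    let w : Y := ∑ j ∈ Finset.range M, (if 0 ≤ f (g j) then (1 : ℝ) else -1) • g j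
    have h3 : ‖w‖ ≤ 1 := by
      rw [ContinuousMap.norm_le _ zero_le_one]
      intro t
      simp only [w, ContinuousMap.sum_apply, ContinuousMap.smul_apply, smul_eq_mul]
      by_cases h4 : ∃ j ∈ Finset.range M, t ∈ Cs (k j)
      · obtain ⟨j, hj, ht⟩ := h4
        rw [Finset.sum_eq_single_of_mem j hj fun i _ hi => by
          rw [hg2 i t (Cs_disj (fun h => hi (hk h).symm) ht), mul_zero], norm_mul]
        have := ((g j).norm_coe_le_norm t).trans (hg1 j)
        split_ifs <;> simpa using this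
      · rw [Finset.sum_eq_zero fun i hi => by rw [hg2 i t fun h5 => h4 ⟨i, hi, h5⟩, mul_zero]]
        simp
    have h4 : f w = ∑ j ∈ Finset.range M, |f (g j)| := by
      simp only [w, map_sum, map_smul, smul_eq_mul]
      refine Finset.sum_congr rfl fun j _ => ?_
      split_ifs with h5
      · rw [abs_of_nonneg h5, one_mul]
      · rw [abs_of_neg (not_le.1 h5)]; ring
    rw [← h4]
    exact (le_abs_self _).trans ((f.le_opNorm w).trans (mul_le_of_le_one_right (norm_nonneg _) h3))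
  by_contra hc
  obtain ⟨M, hM⟩ := exists_nat_gt (‖f‖ / ε)
  rw [div_lt_iff₀ hε] at hM
  have h3 : ∑ j ∈ Finset.range M, ε ≤ ∑ j ∈ Finset.range M, |f (g j)| :=
    Finset.sum_le_sum fun j _ => not_lt.1 fun h => hc ⟨j, h⟩
  simp only [Finset.sum_const, Finset.card_range, nsmul_eq_mul] at h3
  linarith [h2 M]

theorem approx (u : Y) (hu : ‖u‖ ≤ 1) {r : ℕ} (hr : r < 2) (f : Y →L[ℝ] ℝ) {δ : ℝ} (hδ : 0 < δ) :
    ∃ k, k % 2 = r ∧ f u - δ < f (d k) ∧ ∀ t, u t - 1 / 2 ≤ d k t := by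
  have hf := norm_nonneg f
  set γ : ℝ := min (1 / 4) (δ / 3 / (‖f‖ + 1)) with hγ
  have γ0 : 0 < γ := by positivity
  have γ1 : γ ≤ 1 / 4 := min_le_left _ _
  have γ2 : γ * (‖f‖ + 1) ≤ δ / 3 := (le_div_iff₀ (by positivity)).1 (min_le_right _ _)
  obtain ⟨a, ha⟩ := (TopologicalSpace.denseRange_denseSeq (Metric.closedBall (0 : Y) 1)).exists_dist_lt
    ⟨u, mem_closedBall_zero_iff.2 hu⟩ γ0
  obtain ⟨N, hN⟩ := exists_nat_one_div_lt γ0
  let k : ℕ → ℕ := fun i => 2 * Nat.pair a (N + i) + r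
  have k1 : ∀ i, k i / 2 = Nat.pair a (N + i) := fun i => by simp only [k]; omega
  have k3 : ∀ i, eta (k i) ≤ γ := fun i => by
    have h1 := Nat.right_le_pair a (N + i)
    have h2 : (N : ℝ) ≤ k i := by exact_mod_cast (by simp only [k]; omega : N ≤ k i)
    refine le_trans ?_ hN.le
    unfold eta
    gcongr; linarith
  have k4 : Function.Injective k := fun i j h => by
    have h1 : Nat.pair a (N + i) = Nat.pair a (N + j) := by rw [← k1, ← k1, h]
    have := (Nat.pair_eq_pair.1 h1).2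
    omega
  have k5 : ∀ i, ‖z (k i) - u‖ ≤ γ := fun i => by
    have h1 : dist u (z (k i)) < γ := by
      simp only [z, k1, Nat.unpair_pair]
      exact ha
    rw [dist_comm, dist_eq_norm] at h1
    exact h1.le
  obtain ⟨j, hj⟩ := disj_small f k4 (fun j => (1 / 2 : ℝ) • (d (k j) - (1 - eta (k j)) • z (k j)))
    (fun j => by
      rw [ContinuousMap.norm_le _ zero_le_one]
      intro t
      simp only [ContinuousMap.smul_apply, ContinuousMap.sub_apply, smul_eq_mul, Real.norm_eq_abs]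
      by_cases h : t ∈ Cs (k j)
      · have h1 := abs_le.1 (z_le (k j) t)
        have := eta_le (k j)
        have := eta_pos (k j)
        rw [d_mem h, abs_le]
        constructor <;> nlinarith [h1.1, h1.2]
      · rw [d_not h]; simp)
    (fun j t h => by simp [d_not h]) (by positivity : 0 < δ / 6)
  refine ⟨k j, by simp only [k]; omega, ?_, fun t => ?_⟩
  · simp only [map_smul, map_sub, smul_eq_mul, abs_lt] at hj
    have h1 := abs_le.1 ((f.le_opNorm (z (k j) - u)).trans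
      (mul_le_mul_of_nonneg_left (k5 j) hf))
    have h2 := abs_le.1 ((f.le_opNorm (z (k j))).trans (mul_le_mul_of_nonneg_left
      ((ContinuousMap.norm_le _ zero_le_one).2 (z_le (k j))) hf))
    rw [map_sub] at h1
    have := k3 j
    have := eta_pos (k j)
    nlinarith [h1.1, h1.2, h2.1, h2.2, hj.1, hj.2]
  · have h1 := abs_le.1 ((u.norm_coe_le_norm t).trans hu)
    have := eta_pos (k j)
    by_cases h : t ∈ Cs (k j)
    · rw [d_mem h]; linarith [h1.2]
    · have h2 := abs_le.1 (((z (k j) - u).norm_coe_le_norm t).trans (k5 j))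
      have h3 := abs_le.1 (z_le (k j) t)
      simp only [ContinuousMap.sub_apply] at h2
      have := k3 j
      rw [d_not h]
      nlinarith [h2.1, h2.2, h3.1, h3.2]

theorem d_ge (n : ℕ) (t : D) : -1 ≤ d n t := by
  have := eta_pos n
  by_cases h : t ∈ Cs n
  · rw [d_mem h]; linarith
  · linarith [(abs_le.1 (d_not_le h)).1]

theorem not_both_lt (f : Y →L[ℝ] ℝ) {m n : ℕ} (h : n < m) (h1 : ‖f‖ < f (d n)) : f (d m) ≤ ‖f‖ := by
  have b : ∀ u : Y, ‖u‖ ≤ 1 → f u ≤ ‖f‖ := fun u hu => (le_abs_self _).trans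
    ((f.le_opNorm u).trans (mul_le_of_le_one_right (norm_nonneg _) hu))
  have h2 := b _ (flat h.ne')
  have h3 := b _ (flat h.ne)
  simp only [map_add, map_sub, map_smul, smul_eq_mul] at h2 h3
  have hn := eta_pos n
  have hm := eta_pos m
  have h4 : 0 < f (ch n) - f (ch m) := by
    by_contra hc
    nlinarith [not_lt.1 hc]
  nlinarith

theorem not_both (f : Y →L[ℝ] ℝ) {m n : ℕ} (h : m ≠ n) : f (d m) ≤ ‖f‖ ∨ f (d n) ≤ ‖f‖ := by
  by_contra hc
  rw [not_or, not_le, not_le] at hc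
  rcases lt_or_gt_of_ne h with h1 | h1
  · exact absurd (not_both_lt f h1 hc.1) (not_le.2 hc.2)
  · exact absurd (not_both_lt f h1 hc.2) (not_le.2 hc.1)

/-- replacing a point that is not a strict spike for `f` -/
theorem replace (f : Y →L[ℝ] ℝ) {r : ℕ} (hr : r < 2) {Q : Set D} (hQ : IsOpen Q) (hne : Q.Nonempty)
    {δ : ℝ} (hδ : 0 < δ) : ∃ E : Set D, IsClopen E ∧ E.Nonempty ∧ E ⊆ Q ∧ ∃ k, k % 2 = r ∧
      ‖f‖ - δ < f (d k) ∧ ∀ t ∈ E, 1 / 2 ≤ d k t := by
  obtain ⟨u, hu, hfu⟩ : ∃ u : Y, ‖u‖ ≤ 1 ∧ ‖f‖ - δ / 3 < f u := by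
    obtain ⟨u, h1, h2⟩ := f.exists_lt_apply_of_lt_opNorm (by linarith : ‖f‖ - δ / 3 < ‖f‖)
    rcases lt_abs.1 h2 with h3 | h3
    · exact ⟨u, h1.le, h3⟩
    · exact ⟨-u, by rw [norm_neg]; exact h1.le, by rwa [map_neg]⟩
  obtain ⟨E, hE1, hE2, hE3, hE4⟩ := small (fun _ : Unit => f) hQ hne (by positivity : 0 < δ / 6)
  let u' : Y := u * (1 - chi hE1) + chi hE1
  have e1 : ∀ t ∈ E, u' t = 1 := fun t ht => by simp [u', chi_mem _ ht]
  have e2 : ∀ t ∉ E, u' t = u t := fun t ht => by simp [u', chi_not _ ht]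
  have n1 : ‖u'‖ ≤ 1 := by
    rw [ContinuousMap.norm_le _ zero_le_one]
    intro t
    by_cases ht : t ∈ E
    · rw [e1 t ht]; simp
    · rw [e2 t ht]; exact (u.norm_coe_le_norm t).trans hu
  have n2 : ‖(1 / 2 : ℝ) • (u' - u)‖ ≤ 1 := by
    rw [norm_smul]
    have := norm_sub_le u' u
    norm_num; linarith
  have h3 := hE4 _ n2 (fun t ht => by simp [e2 t ht]) ()
  simp only [map_smul, map_sub, smul_eq_mul, abs_lt] at h3
  obtain ⟨k, k1, k2, k3⟩ := approx u' n1 hr f (by positivity : 0 < δ / 3)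
  refine ⟨E, hE1, hE2, hE3, k, k1, by linarith [h3.1], fun t ht => ?_⟩
  have := k3 t
  rw [e1 t ht] at this
  linarith

theorem step2 (f : Y →L[ℝ] ℝ) {m n : ℕ} (hm : m % 2 = 0) (hn : n % 2 = 1) {c : ℝ}
    (hc : c < f (d m + d n)) {Q : Set D} (hQ : IsOpen Q) (hne : Q.Nonempty) :
    ∃ E : Set D, IsClopen E ∧ E.Nonempty ∧ E ⊆ Q ∧ ∃ k l, k % 2 = 0 ∧ l % 2 = 1 ∧
      c < f (d k + d l) ∧ ∀ t ∈ E, -1 / 2 ≤ (d k + d l) t := by
  rw [map_add] at hc
  rcases not_both f (show m ≠ n by omega) with h | h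
  · obtain ⟨E, h1, h2, h3, k, k1, k2, k3⟩ := replace f (r := 0) (by norm_num) hQ hne
      (sub_pos.2 hc)
    refine ⟨E, h1, h2, h3, k, n, k1, hn, by rw [map_add]; linarith, fun t ht => ?_⟩
    rw [ContinuousMap.add_apply]
    linarith [k3 t ht, d_ge n t]
  · obtain ⟨E, h1, h2, h3, k, k1, k2, k3⟩ := replace f (r := 1) (by norm_num) hQ hne
      (sub_pos.2 hc)
    refine ⟨E, h1, h2, h3, m, k, hm, k1, by rw [map_add]; linarith, fun t ht => ?_⟩
    rw [ContinuousMap.add_apply]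
    linarith [k3 t ht, d_ge m t]

theorem low (t : D) {r : ℕ} (hr : r < 2) : ∃ k, k % 2 = r ∧ d k t < -1 / 2 := by
  obtain ⟨k, k1, k2, -⟩ := approx (-1) (by simp) hr (-ContinuousMap.evalCLM ℝ t)
    (by norm_num : (0 : ℝ) < 1 / 2)
  refine ⟨k, k1, ?_⟩
  simp at k2
  linarith

end Pool.Agent.H27.Scd
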