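import Mathlib
import Pool.Agent.H27.Uab

set_option autoImplicit false

/-! Choquet's lemma for the dual ball, and refinement of weak-star slices. -/

namespace Pool.Agent.H27.Sr

open Filter Topology Set Uab

variable {𝕜 X : Type} [RCLike 𝕜] [NormedAddCommGroup X] [NormedSpace 𝕜 X]

noncomputable local instance (priority := 2000) smulW : SMul ℝ (WeakDual 𝕜 X) :=
  (inferInstance : Module ℝ (WeakDual 𝕜 X)).toSMul

instance : LocallyConvexSpace ℝ (WeakDual 𝕜 X) :=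
  WeakBilin.locallyConvexSpace (B := topDualPairing 𝕜 X)

instance : IsScalarTower ℝ 𝕜 (WeakDual 𝕜 X) :=
  ⟨fun a b f => DFunLike.ext _ _ fun x => smul_assoc a b (f x)⟩

theorem re_le (f : X →L[𝕜] 𝕜) (hf : ‖f‖ ≤ 1) (x : X) : RCLike.re (f x) ≤ ‖x‖ :=
  (RCLike.re_le_norm _).trans ((f.le_of_opNorm_le hf _).trans (by rw [one_mul]))

theorem sep {L : Set (WeakDual 𝕜 X)} (h1 : Convex ℝ L) (h2 : IsClosed L) (h0 : 0 ∈ L)
    {g : WeakDual 𝕜 X} (hg : g ∉ L) (g1 : ‖WeakDual.toStrongDual g‖ ≤ 1) :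
    ∃ (x : X) (ε : ℝ), ‖x‖ = 1 ∧ 0 < ε ∧ ε ≤ 1 ∧ 1 - ε < RCLike.re (g x) ∧
      ∀ f ∈ L, RCLike.re (f x) ≤ 1 - ε := by
  obtain ⟨φ, u, a1, a2⟩ := RCLike.geometric_hahn_banach_point_closed (𝕜 := 𝕜) h1 h2 hg
  obtain ⟨z, hz⟩ := LinearMap.dualEmbedding_surjective (topDualPairing 𝕜 X) φ
  have e : ∀ f, φ f = f z := fun f => by rw [← hz]; rfl
  have u0 : u < 0 := by simpa using a2 0 h0
  rw [e] at a1
  have z0 : 0 < ‖z‖ := norm_pos_iff.2 fun h => by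
    rw [h, map_zero, map_zero] at a1
    linarith
  have e2 : ∀ f : WeakDual 𝕜 X, RCLike.re (f (((-‖z‖⁻¹ : ℝ) : 𝕜) • z)) =
      -(RCLike.re (f z) / ‖z‖) := fun f => by
    rw [map_smul, smul_eq_mul, RCLike.re_ofReal_mul]; ring
  have a3 : RCLike.re (g (-z)) ≤ ‖-z‖ := re_le (WeakDual.toStrongDual g) g1 (-z)
  rw [map_neg, map_neg, norm_neg] at a3
  refine ⟨((-‖z‖⁻¹ : ℝ) : 𝕜) • z, 1 + u / ‖z‖, ?_, ?_, ?_, ?_, fun f hf => ?_⟩
  · rw [norm_smul, RCLike.norm_ofReal, abs_neg, abs_of_pos (inv_pos.2 z0), inv_mul_cancel₀ z0.ne']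
  · have : -1 < u / ‖z‖ := by rw [lt_div_iff₀ z0]; linarith
    linarith
  · linarith [div_neg_of_neg_of_pos u0 z0]
  · rw [e2]; linarith [div_lt_div_of_pos_right a1 z0]
  · have := a2 f hf
    rw [e] at this
    rw [e2]; linarith [div_lt_div_of_pos_right this z0]

theorem compact_join {K L : Set (WeakDual 𝕜 X)} (hK : IsCompact K) (hL : IsCompact L) :
    IsCompact (convexJoin ℝ K L) := by
  have : convexJoin ℝ K L = (fun p : ℝ × WeakDual 𝕜 X × WeakDual 𝕜 X =>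
      (1 - p.1) • p.2.1 + p.1 • p.2.2) '' (Icc 0 1 ×ˢ K ×ˢ L) := by
    ext f
    simp only [mem_convexJoin, segment_eq_image]
    exact ⟨fun ⟨a, ha, b, hb, t, ht, h⟩ => ⟨(t, a, b), ⟨ht, ha, hb⟩, h⟩,
      fun ⟨p, ⟨ht, ha, hb⟩, h⟩ => ⟨_, ha, _, hb, _, ht, h⟩⟩
  rw [this]
  exact (isCompact_Icc.prod (hK.prod hL)).image (by fun_prop)

theorem choquet [Nontrivial X] : ∃ g : X →L[𝕜] 𝕜, ∀ (A : Finset X) (η : ℝ), 0 < η →
    ∃ D : Set (X →L[𝕜] 𝕜), Sl D ∧ ∀ f ∈ D, ∀ a ∈ A, RCLike.re (f a) < RCLike.re (g a) + η := by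
  classical
  let K : Set (WeakDual 𝕜 X) := WeakDual.toStrongDual ⁻¹' Metric.closedBall 0 1
  have mK : ∀ f, f ∈ K ↔ ‖WeakDual.toStrongDual f‖ ≤ 1 := fun f => mem_closedBall_zero_iff
  have cK : IsCompact K := WeakDual.isCompact_closedBall 0 1
  have vK : Convex ℝ K := fun f hf f' hf' a b ha hb hab =>
    convex_closedBall (0 : StrongDual 𝕜 X) 1 hf hf' ha hb hab
  have K0 : 0 ∈ K := (mK _).2 (by simp)
  obtain ⟨g, hg⟩ := cK.extremePoints_nonempty ⟨0, K0⟩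
  obtain ⟨gK, hg⟩ := mem_extremePoints_iff_forall_segment.1 hg
  have g0 : g ≠ 0 := by
    rintro rfl
    obtain ⟨x, hx⟩ := exists_ne (0 : X)
    obtain ⟨f, f1, f2⟩ := exists_dual_vector 𝕜 x (norm_ne_zero_iff.2 hx)
    have f0 : f ≠ 0 := fun h => by simp [h] at f1
    rcases hg (WeakDual.toStrongDual.symm f) ((mK _).2 f1.le) (-WeakDual.toStrongDual.symm f)
      ((mK _).2 (by simpa using f1.le)) ⟨1 / 2, 1 / 2, by norm_num, by norm_num, by norm_num,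
        by simp⟩ with h | h
    · exact f0 h
    · exact f0 (neg_eq_zero.1 h)
  have half : ∀ (a : X) (c : ℝ), IsCompact {f ∈ K | RCLike.re (f a) ≤ c} ∧
      Convex ℝ {f ∈ K | RCLike.re (f a) ≤ c} := fun a c =>
    ⟨cK.inter_right (isClosed_le (RCLike.continuous_re.comp (WeakDual.eval_continuous a))
      continuous_const), fun f hf f' hf' s t hs ht hst => ⟨vK hf.1 hf'.1 hs ht hst, by
        show RCLike.re (s • f a + t • f' a) ≤ c
        rw [map_add, RCLike.smul_re, RCLike.smul_re]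
        calc _ ≤ s * c + t * c := by gcongr; exacts [hf.2, hf'.2]
          _ = c := by rw [← add_mul, hst, one_mul]⟩⟩
  refine ⟨WeakDual.toStrongDual g, fun A η hη => ?_⟩
  have : ∃ (x : X) (ε : ℝ), ‖x‖ = 1 ∧ 0 < ε ∧ ε ≤ 1 ∧ 1 - ε < RCLike.re (g x) ∧
      ∀ f ∈ K, 1 - ε < RCLike.re (f x) → ∀ a ∈ A, RCLike.re (f a) < RCLike.re (g a) + η := by
    induction A using Finset.induction_on with
    | empty =>
      obtain ⟨x, ε, h1, h2, h3, h4, -⟩ := sep (L := {0}) (g := g) (convex_singleton 0)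
        isClosed_singleton (mem_singleton 0) (fun h => g0 (mem_singleton_iff.1 h)) ((mK _).1 gK)
      exact ⟨x, ε, h1, h2, h3, h4, by simp⟩
    | insert a A _ ih =>
      obtain ⟨x, ε, h1, h2, h3, h4, h5⟩ := ih
      have neg : ∀ f : WeakDual 𝕜 X, RCLike.re (f (-a)) = -RCLike.re (f a) := fun f => by simp
      by_cases hne : {f ∈ K | RCLike.re (f (-a)) ≤ -(RCLike.re (g a) + η)}.Nonempty
      · have z1 : (0 : WeakDual 𝕜 X) ∈ {f ∈ K | RCLike.re (f x) ≤ 1 - ε} :=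
          ⟨K0, by show RCLike.re (0 : 𝕜) ≤ _; simpa using h3⟩
        obtain ⟨y, δ, k1, k2, k3, k4, k5⟩ := sep (g := g)
          ((half x (1 - ε)).2.convexJoin (half (-a) (-(RCLike.re (g a) + η))).2)
          (compact_join (half _ _).1 (half _ _).1).isClosed (subset_convexJoin_left hne z1)
          (fun h => by
            obtain ⟨f, hf, f', hf', h⟩ := mem_convexJoin.1 h
            rcases hg f hf.1 f' hf'.1 h with rfl | rfl
            · linarith [hf.2]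
            · linarith [hf'.2, neg f']) ((mK _).1 gK)
        refine ⟨y, δ, k1, k2, k3, k4, fun f hf h b hb => ?_⟩
        rcases Finset.mem_insert.1 hb with rfl | hb
        · by_contra hc
          linarith [k5 f (subset_convexJoin_right ⟨0, z1⟩ ⟨hf, by linarith [neg f]⟩)]
        · refine h5 f hf (lt_of_not_ge fun hc => ?_) b hb
          linarith [k5 f (subset_convexJoin_left hne ⟨hf, hc⟩)]
      · refine ⟨x, ε, h1, h2, h3, h4, fun f hf h b hb => ?_⟩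
        rcases Finset.mem_insert.1 hb with rfl | hb
        · by_contra hc
          exact hne ⟨f, hf, by linarith [neg f]⟩
        · exact h5 f hf h b hb
  obtain ⟨x, ε, h1, h2, -, -, h5⟩ := this
  exact ⟨_, ⟨x, ε, h1, h2, rfl⟩, fun f hf => h5 (WeakDual.toStrongDual.symm f) ((mK _).2 hf.1) hf.2⟩

theorem refine {W : Set X} (H : ∀ x : X, ‖x‖ = 1 → ∀ η : ℝ, 0 < η → ∃ y ∈ W, ∃ θ : 𝕜, ‖y‖ ≤ 1 ∧
    ‖θ‖ = 1 ∧ 2 - η < ‖x + θ • y‖) {D : Set (X →L[𝕜] 𝕜)} (hD : Sl D) {η : ℝ} (hη : 0 < η) :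
    ∃ D', Sl D' ∧ D' ⊆ D ∧ ∃ y ∈ W, ∀ f ∈ D', 1 - η < ‖f y‖ := by
  obtain ⟨x, ε, hx, hε, rfl⟩ := hD
  obtain ⟨ρ, r0, r1, r2, r3⟩ : ∃ ρ : ℝ, 0 < ρ ∧ ρ ≤ 1 ∧ 3 * ρ ≤ η ∧ 3 * ρ ≤ ε :=
    ⟨min 1 (min (η / 3) (ε / 3)), by positivity, min_le_left _ _,
      by linarith [(min_le_right 1 _).trans (min_le_left (η / 3) (ε / 3))],
      by linarith [(min_le_right 1 _).trans (min_le_right (η / 3) (ε / 3))]⟩
  obtain ⟨y, hW, θ, h1, h2, h4⟩ := H x hx ρ r0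
  set N := ‖x + θ • y‖ with hN
  have N0 : 0 < N := by linarith
  have hy : ‖θ • y‖ ≤ 1 := by rw [norm_smul, h2, one_mul]; exact h1
  have N2 : N ≤ 2 := (norm_add_le _ _).trans (by linarith)
  have key : ∀ f : X →L[𝕜] 𝕜, ‖f‖ ≤ 1 → 1 - ρ < RCLike.re (f (((N⁻¹ : ℝ) : 𝕜) • (x + θ • y))) →
      1 - 3 * ρ < RCLike.re (f x) ∧ 1 - 3 * ρ < RCLike.re (f (θ • y)) := by
    intro f hf h
    rw [map_smul, smul_eq_mul, RCLike.re_ofReal_mul, map_add, map_add, lt_inv_mul_iff₀ N0] at h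
    have a1 := re_le f hf x
    have a2 := re_le f hf (θ • y)
    have a3 : 2 - 3 * ρ ≤ N * (1 - ρ) := by nlinarith
    constructor <;> linarith
  refine ⟨{f | ‖f‖ ≤ 1 ∧ 1 - ρ < RCLike.re (f (((N⁻¹ : ℝ) : 𝕜) • (x + θ • y)))},
    ⟨_, ρ, ?_, r0, rfl⟩, fun f hf => ⟨hf.1, by linarith [(key f hf.1 hf.2).1]⟩, y, hW,
    fun f hf => ?_⟩
  · rw [norm_smul, RCLike.norm_ofReal, abs_of_pos (inv_pos.2 N0), inv_mul_cancel₀ N0.ne']
  · have a1 := ((key f hf.1 hf.2).2).trans_le (RCLike.re_le_norm _)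
    rw [map_smul, norm_smul, h2, one_mul] at a1
    linarith

theorem refine_all {ι : Type} (W : ι → Set X) (H : ∀ i, ∀ x : X, ‖x‖ = 1 → ∀ η : ℝ, 0 < η →
    ∃ y ∈ W i, ∃ θ : 𝕜, ‖y‖ ≤ 1 ∧ ‖θ‖ = 1 ∧ 2 - η < ‖x + θ • y‖) {D : Set (X →L[𝕜] 𝕜)} (hD : Sl D)
    {η : ℝ} (hη : 0 < η) (s : Finset ι) :
    ∃ D', Sl D' ∧ D' ⊆ D ∧ ∀ i ∈ s, ∃ y ∈ W i, ∀ f ∈ D', 1 - η < ‖f y‖ := by
  classical
  induction s using Finset.induction_on with
  | empty => exact ⟨D, hD, subset_rfl, by simp⟩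
  | insert j s _ ih =>
    obtain ⟨D1, h1, h2, h3⟩ := ih
    obtain ⟨D2, k1, k2, y, hy, k3⟩ := refine (H j) h1 hη
    refine ⟨D2, k1, k2.trans h2, fun i hi => ?_⟩
    rcases Finset.mem_insert.1 hi with rfl | hi
    · exact ⟨y, hy, k3⟩
    · obtain ⟨z, hz, h⟩ := h3 i hi
      exact ⟨z, hz, fun f hf => h f (k2 hf)⟩

end Pool.Agent.H27.Sr
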