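import Mathlib

namespace Pool.Agent.H27.Strip
open Complex Set Filter Topology MeasureTheory
open scoped Real

lemma strip (F D : ℂ → ℂ) (a : ℂ) (θ : ℝ) (w : ℝ → ℝ) (hθ : 0 < θ)
    (hD : DifferentiableOn ℂ D {z | |z.im| ≤ θ}) (e : ∀ z ≠ 0, |z.im| ≤ θ → D z = F z - a / z)
    (iw : Integrable w) (w1 : Tendsto w atTop (𝓝 0)) (w2 : Tendsto w atBot (𝓝 0))
    (hF : ∀ z, |z.im| ≤ θ → |z.im| = θ ∨ 1 ≤ |z.re| → ‖F z‖ ≤ w z.re) :
    Integrable (fun x : ℝ => F (x - θ * I) - F (x + θ * I)) ∧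
      ∫ x : ℝ, (F (x - θ * I) - F (x + θ * I)) = 2 * π * I * a := by
  have t := abs_of_pos hθ
  have n : ∀ z : ℂ, |z.im| = θ → z ≠ 0 := fun z h k => by simp [k] at h; linarith
  have c : ∀ y : ℝ, |y| ≤ θ → Continuous fun x : ℝ => D (x + y * I) := fun y h =>
    hD.continuousOn.comp_continuous (by fun_prop) fun x => by simpa using h
  have i : ∀ y : ℝ, |y| = θ → Integrable fun x : ℝ => F (x + y * I) := fun y h =>
    iw.mono' (((c y h.le).add ((continuous_const (y := a)).div (by fun_prop)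
      fun x : ℝ => n (x + y * I) (by simpa using h))).congr fun x => by
        simp [e _ (n (x + y * I) (by simpa using h)) (by simpa using h.le)]).aestronglyMeasurable
      (.of_forall fun x => by simpa using hF (x + y * I) (by simpa using h.le) (by simp [h]))
  have i1 := (i (-θ) (by rwa [abs_neg])).sub (i θ t)
  have i2 : Integrable fun x : ℝ => (2 * I * a / θ * ((1 + (x / θ) ^ 2)⁻¹ : ℝ) : ℂ) :=
    ((integrable_comp_div_iff _ hθ.ne').2 integrable_inv_one_add_sq).ofReal.const_mul _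
  have θ0 := ofReal_ne_zero.2 hθ.ne'
  have e2 : ∀ x : ℝ, D (x + (-θ : ℝ) * I) - D (x + θ * I) =
      F (x + (-θ : ℝ) * I) - F (x + θ * I) - 2 * I * a / θ * ((1 + (x / θ) ^ 2)⁻¹ : ℝ) := fun x => by
    have n1 := n (x + (-θ : ℝ) * I) (by simp [t])
    have n2 := n (x + θ * I) (by simp [t])
    have : ((1 + (x / θ) ^ 2 : ℝ) : ℂ) = (x + (-θ : ℝ) * I) * (x + θ * I) / θ ^ 2 := by
      push_cast; field_simp; linear_combination θ ^ 2 * I_sq
    rw [e _ n1 (by simp [t]), e _ n2 (by simp [t]), ofReal_inv, this]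
    have := div_sub_div a a n1 n2
    have e3 : 2 * I * a / θ * ((x + (-θ : ℝ) * I) * (x + θ * I) / θ ^ 2)⁻¹ =
        ((a * (x + θ * I) - (x + (-θ : ℝ) * I) * a) / ((x + (-θ : ℝ) * I) * (x + θ * I)) : ℂ) := by
      rw [inv_div, ← mul_div_assoc]; congr 1; field_simp; push_cast; ring
    rw [e3, ← this]; ring
  have l1 := intervalIntegral_tendsto_integral (i1.sub i2) tendsto_neg_atTop_atBot tendsto_id
  have v : ∀ x : ℝ, 1 ≤ |x| → ‖∫ y in -θ..θ, D (x + y * I)‖ ≤ (w x + ‖a‖ * |x|⁻¹) * |θ - -θ| :=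
    fun x hx => intervalIntegral.norm_integral_le_of_norm_le_const fun y hy => by
      rw [uIoc_of_le (by linarith)] at hy
      have y1 : |((x : ℂ) + y * I).im| ≤ θ := by simpa using abs_le.2 ⟨hy.1.le, hy.2⟩
      have r : |x| ≤ ‖(x : ℂ) + y * I‖ := by simpa using abs_re_le_norm (x + y * I)
      rw [e _ (norm_pos_iff.1 (by linarith)) y1]
      refine (norm_sub_le _ _).trans (add_le_add (by simpa using hF _ y1 (by simp [hx])) ?_)
      rw [norm_div, div_eq_mul_inv]
      gcongr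
  have ti := (tendsto_inv_atTop_zero.comp tendsto_abs_atTop_atTop).const_mul ‖a‖
  have l2 : Tendsto (fun L : ℝ => I • (∫ y in -θ..θ, D ((-L : ℝ) + y * I)) -
      I • ∫ y in -θ..θ, D (L + y * I)) atTop (𝓝 (I • (0 : ℂ) - I • (0 : ℂ))) := by
    refine (Tendsto.const_smul (squeeze_zero_norm' ?_ (by
      simpa using ((w2.comp tendsto_neg_atTop_atBot).add ti).mul_const |θ - -θ|)) I).sub
      (Tendsto.const_smul (squeeze_zero_norm' ?_ (by
        simpa using (w1.add ti).mul_const |θ - -θ|)) I) <;>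
    filter_upwards [eventually_ge_atTop 1] with L hL
    · simpa using v (-L) (by rw [abs_neg]; exact hL.trans (le_abs_self L))
    · simpa using v L (hL.trans (le_abs_self L))
  have z := tendsto_nhds_unique (l1.congr fun L => by
    have := integral_boundary_rect_eq_zero_of_differentiableOn D ⟨-L, -θ⟩ ⟨L, θ⟩ (hD.mono
      fun z hz => abs_le.2 (by simpa [uIcc_of_le (by linarith : -θ ≤ θ)] using hz.2))
    simp only [Pi.sub_apply, ← e2, id]
    rw [intervalIntegral.integral_sub ((c _ (by simp [t])).intervalIntegrable _ _)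
      ((c _ t.le).intervalIntegrable _ _)]
    linear_combination this) l2
  simp only [ofReal_neg, neg_mul, ← sub_eq_add_neg] at i1 z
  refine ⟨i1, ?_⟩
  rw [integral_sub' i1 i2, integral_const_mul, integral_complex_ofReal,
    Measure.integral_comp_div (fun x => (1 + x ^ 2)⁻¹), integral_univ_inv_one_add_sq, t] at z
  simp only [smul_zero, sub_zero, smul_eq_mul, mul_zero, sub_eq_zero] at z
  refine z.trans ?_
  push_cast; field_simp

lemma sec (γ p : ℝ) (z : ℂ) (h1 : -1 ≤ γ) (h2 : γ ≤ 1) (hp : 0 ≤ p) (h : γ * ‖z‖ ≤ z.re) :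
    (1 + γ) / 2 * (p + ‖z‖) ≤ ‖p + z‖ := by
  refine (abs_le_of_sq_le_sq' ?_ (norm_nonneg _)).2
  have : ‖p + z‖ ^ 2 = p ^ 2 + 2 * p * z.re + ‖z‖ ^ 2 := by
    simp only [Complex.sq_norm, normSq_apply]; simp; ring
  rw [this, mul_pow]
  have a := mul_le_mul_of_nonneg_left h hp
  have b := mul_nonneg (sub_nonneg.2 h2) (sq_nonneg (p - ‖z‖))
  have c := mul_nonneg (mul_nonneg (sub_nonneg.2 h2) (sub_nonneg.2 h1)) (sq_nonneg (p + ‖z‖))
  nlinarith

lemma cl (σ : ℝ) (hσ : σ < π) : -1 < Real.cos σ ∨ σ < 0 := by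
  rcases lt_or_ge σ 0 with h | h
  exacts [.inr h, .inl (Real.cos_pi ▸ Real.cos_lt_cos_of_nonneg_of_le_pi h le_rfl hσ)]

lemma decay (ε : ℝ) (hε : 0 < ε) (x : ℝ) :
    Real.exp x ^ ε * (1 + Real.exp x) ^ (-2 * ε) ≤ (1 + 2 / ε ^ 2) * (1 + x ^ 2)⁻¹ := by
  have p := Real.exp_pos x
  have k : Real.exp x ^ ε * (1 + Real.exp x) ^ (-2 * ε) ≤ Real.exp (-(ε * |x|)) := by
    rcases le_total 0 x with h | h
    · refine (mul_le_mul_of_nonneg_left (Real.rpow_le_rpow_of_nonpos p (by linarith)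
        (by linarith)) (by positivity)).trans_eq ?_
      rw [← Real.rpow_add p, ← Real.exp_mul, abs_of_nonneg h]; congr 1; ring
    · refine (mul_le_of_le_one_right (by positivity) (Real.rpow_le_one_of_one_le_of_nonpos
        (by linarith) (by linarith))).trans_eq ?_
      rw [← Real.exp_mul, abs_of_nonpos h]; congr 1; ring
  refine k.trans ?_
  rw [Real.exp_neg, ← div_eq_mul_inv, le_div_iff₀ (by positivity), inv_mul_le_iff₀ (Real.exp_pos _)]
  have q := Real.quadratic_le_exp_of_nonneg (mul_nonneg hε.le (abs_nonneg x))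
  refine le_trans ?_ (mul_le_mul_of_nonneg_right q (by positivity))
  have : (ε * |x|) ^ 2 / 2 * (2 / ε ^ 2) = x ^ 2 := by rw [mul_pow, sq_abs]; field_simp
  have a : 0 ≤ ε * |x| := by positivity
  have b : 0 ≤ 2 / ε ^ 2 := by positivity
  nlinarith [mul_nonneg a b, sq_nonneg (ε * |x|)]

lemma ray (θ : ℝ) (h0 : 0 < θ) (h : θ ≤ π) (z : ℂ) (hz : θ ≤ |arg z|) (p : ℝ) (hp : 0 ≤ p) :
    (1 - Real.cos θ) / 2 * (p + ‖z‖) ≤ ‖z - p‖ := by
  have := sec (-Real.cos θ) p (-z) (by linarith [Real.cos_le_one θ])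
    (by linarith [Real.neg_one_le_cos θ]) hp (by
      rw [norm_neg, neg_re, ← norm_mul_cos_arg, ← Real.cos_abs (arg z)]
      nlinarith [norm_nonneg z, Real.cos_le_cos_of_nonneg_of_le_pi h0.le (abs_arg_le_pi z) hz])
  rwa [norm_neg, ← sub_eq_add_neg, ← sub_eq_add_neg, norm_sub_rev] at this

lemma c1 (θ : ℝ) (h0 : 0 < θ) (h : θ ≤ π) : 0 < 1 - Real.cos θ :=
  sub_pos.2 (Real.cos_zero ▸ Real.cos_lt_cos_of_nonneg_of_le_pi le_rfl h h0)

lemma ae (z : ℂ) (h : |z.im| < π) : arg (exp z) = z.im := by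
  rw [← log_im, log_exp (abs_lt.1 h).1 (abs_lt.1 h).2.le]

lemma cauchy (f : ℂ → ℂ) (σ θ b C ε : ℝ) (h0 : 0 < θ) (h1 : θ < σ) (h2 : σ < π) (hb : 0 < b)
    (hε : 0 < ε) (hf : DifferentiableOn ℂ f {z | z ≠ 0 ∧ |arg z| < σ})
    (hC : ∀ z, z ≠ 0 ∧ |arg z| < σ → ‖f z‖ ≤ C * ‖z‖ ^ ε * (1 + ‖z‖) ^ (-2 * ε)) :
    Integrable (fun x : ℝ => f (exp (x - θ * I)) * exp (x - θ * I) / (exp (x - θ * I) - b) -
      f (exp (x + θ * I)) * exp (x + θ * I) / (exp (x + θ * I) - b)) ∧
    ∫ x : ℝ, (f (exp (x - θ * I)) * exp (x - θ * I) / (exp (x - θ * I) - b) -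
      f (exp (x + θ * I)) * exp (x + θ * I) / (exp (x + θ * I) - b)) = 2 * π * I * f b := by
  set l := Real.log b with hl
  have el : exp l = b := by rw [← ofReal_exp, Real.exp_log hb]
  have m : ∀ z : ℂ, |z.im| < σ → exp (z + l) ≠ 0 ∧ |arg (exp (z + l))| < σ := fun z h =>
    ⟨exp_ne_zero _, by rw [ae _ (by simpa using h.trans h2)]; simpa using h⟩
  have n : ∀ z : ℂ, |z.im| < σ → dslope exp 0 z ≠ 0 := fun z h => by
    rcases eq_or_ne z 0 with rfl | k
    · simp
    rw [dslope_of_ne _ k, slope_def_field, exp_zero, sub_zero]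
    refine div_ne_zero (sub_ne_zero.2 fun e => k ?_) k
    rw [← log_exp (abs_lt.1 (h.trans h2)).1 (abs_lt.1 (h.trans h2)).2.le, e, log_one]
  have o : IsOpen {z : ℂ | |z.im| < σ} := isOpen_lt (by fun_prop) continuous_const
  have dP : DifferentiableOn ℂ (fun z => f (exp (z + l)) * exp z / dslope exp 0 z)
      {z | |z.im| < σ} := ((hf.comp (by fun_prop) m).mul (by fun_prop)).div
        (((differentiableOn_dslope univ_mem).2 (by fun_prop)).mono (subset_univ _)) n
  have c := c1 θ h0 (by linarith)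
  have C0 : 0 ≤ C := by
    have := (norm_nonneg _).trans (hC 1 ⟨one_ne_zero, by simp; linarith⟩)
    simp at this
    exact nonneg_of_mul_nonneg_left this (by positivity)
  have t : ∀ {F : Filter ℝ}, Tendsto (fun x => |x + l|) F atTop → Tendsto (fun x : ℝ =>
      C * (1 + 2 / ε ^ 2) * (2 / (1 - Real.cos θ) + 2) * (1 + (x + l) ^ 2)⁻¹) F (𝓝 0) := fun h => by
    simpa using (tendsto_inv_atTop_zero.comp (tendsto_atTop_add_const_left _ 1
      ((tendsto_pow_atTop two_ne_zero).comp h))).const_mul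
        (C * (1 + 2 / ε ^ 2) * (2 / (1 - Real.cos θ) + 2))
  have s := strip (fun z => f (exp (z + l)) * exp z / (exp z - 1)) _ (f b) θ _ h0
    (((differentiableOn_dslope (c := 0) (o.mem_nhds (by simp; linarith))).2 dP).mono
      fun z hz => lt_of_le_of_lt hz h1) (fun z k _ => by
        rw [dslope_of_ne _ k, slope_def_field, dslope_of_ne _ k, slope_def_field]
        simp [el]; field_simp)
    ((integrable_inv_one_add_sq.comp_add_right l).const_mul _)
    (t (tendsto_abs_atTop_atTop.comp (tendsto_atTop_add_const_right _ _ tendsto_id)))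
    (t (tendsto_abs_atBot_atTop.comp (tendsto_atBot_add_const_right _ _ tendsto_id)))
    fun z hz h => by
      have a := hC _ (m z (hz.trans_lt h1))
      rw [norm_exp, mul_assoc] at a
      have a := a.trans (mul_le_mul_of_nonneg_left (decay ε hε _) C0)
      have p := Real.exp_pos z.re
      have k : ‖exp z / (exp z - 1)‖ ≤ 2 / (1 - Real.cos θ) + 2 := by
        have u : 0 < 2 / (1 - Real.cos θ) := by positivity
        rw [norm_div]
        refine div_le_of_le_mul₀ (norm_nonneg _) (by positivity) ?_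
        rcases h with h | h
        · have := ray θ h0 (by linarith) (exp z) (by rw [ae z (by linarith), h]) 1 zero_le_one
          have e : 2 / (1 - Real.cos θ) * ((1 - Real.cos θ) / 2) = 1 := by field_simp
          rw [ofReal_one] at this
          nlinarith [mul_le_mul_of_nonneg_left this u.le, norm_nonneg (exp z - 1)]
        · have r := abs_le.1 (abs_norm_sub_norm_le (exp z) 1)
          rw [norm_exp, norm_one] at r
          rw [norm_exp]
          have := mul_nonneg u.le (norm_nonneg (exp z - 1))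
          rcases le_abs.1 h with h | h
          · linarith [Real.add_one_le_exp z.re]
          · have := Real.add_one_le_exp (-z.re)
            have e : Real.exp z.re * Real.exp (-z.re) = 1 := by simp [← Real.exp_add]
            nlinarith
      rw [mul_div_assoc, norm_mul]
      refine (mul_le_mul a k (norm_nonneg _) (by positivity)).trans_eq ?_
      simp; ring
  have b0 := ofReal_ne_zero.2 hb.ne'
  have e : ∀ (x : ℝ) (u : ℂ), f (exp (x + u)) * exp (x + u) / (exp (x + u) - b) =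
      f (exp ((x - l : ℝ) + u + l)) * exp ((x - l : ℝ) + u) / (exp ((x - l : ℝ) + u) - 1) :=
    fun x u => by
      have : exp (x + u) = exp ((x - l : ℝ) + u) * b := by
        rw [← el, ← exp_add]; congr 1; push_cast; ring
      rw [show ((x - l : ℝ) : ℂ) + u + l = x + u by push_cast; ring, this, ← sub_one_mul,
        ← mul_assoc, mul_div_mul_right _ _ b0]
  simp only [sub_eq_add_neg _ (θ * I), e] at s ⊢
  exact ⟨s.1.comp_sub_right l, (integral_sub_right_eq_self _ l).trans s.2⟩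

end Pool.Agent.H27.Strip
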