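import Pool.Agent.H27.Iso8

/-! The sublinear case `1 < q < 2` on a set of finite measure. -/

open Set Filter Topology MeasureTheory
open scoped ENNReal RealInnerProductSpace

namespace Pool.Agent.H27.Iso

variable {Z : Type} [MeasurableSpace Z] {μ : Measure Z} {H : Type} [NormedAddCommGroup H]
  [InnerProductSpace ℝ H] {q s : ℝ}

namespace DS

lemma eig_bound2 (D : DS μ H q) {Λ : ℝ} (hΛ : 0 ≤ Λ) : ∃ M, 0 < M ∧ ∀ (h : H) (f : Z → ℝ),
    (∀ᵐ z ∂μ, 1 ≤ D.j h z → f z ≤ Λ * D.j h z ^ (q - 1)) → ∫ z, |D.j h z| ^ q ∂μ ≤ 1 →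
    D.Src h f → ∀ᵐ z ∂μ, D.j h z ≤ M := by
  have hC := D.hC
  have q2 := D.hq
  have qp := D.hqp
  have p0 : 0 < D.p := by linarith
  set e := 1 - q / D.p with he
  have e0 : 0 < e := by rw [he, sub_pos, div_lt_one p0]; exact qp
  have α0 : 0 < q / 2 - q / D.p := by
    rw [sub_pos]; exact div_lt_div_of_pos_left (by linarith) (by norm_num) (by linarith)
  set α := q / 2 - q / D.p with hα
  set b : ℝ := (2 ^ (q - 1)) ^ (q / 2) * 2 ^ (q * e) with hb
  have b1 : 1 < b := by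
    have h1 : (1:ℝ) < (2 ^ (q - 1)) ^ (q / 2) :=
      Real.one_lt_rpow (Real.one_lt_rpow (by norm_num) (by linarith)) (by linarith)
    have h2 : (1:ℝ) < 2 ^ (q * e) := Real.one_lt_rpow (by norm_num) (by positivity)
    nlinarith
  obtain ⟨K, hK1, hK2⟩ := (((tendsto_rpow_atTop (by positivity : 0 < q * e)).eventually_ge_atTop
    ((D.C ^ 2 * Λ) ^ (q / 2) * b * b ^ (1 / α))).and (eventually_ge_atTop 2)).exists
  have hK : 0 < K := by linarith
  refine ⟨K, hK, fun h f h0 hY hS => ?_⟩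
  have hi := D.intq h
  have KP : 0 < K ^ (q * e) := by positivity
  refine dg (c := (D.C ^ 2 * Λ) ^ (q / 2) * b / K ^ (q * e)) (b := b) (α := α) (D.meas h)
    (by linarith) hK hi hY (by positivity) b1 α0 (fun n => ?_) ?_
  · obtain ⟨t, t0, h1, h2, h3⟩ := hS.trunc (lev_nonneg hK (n + 1))
    have yi := (trunc_int (D.meas h) (by linarith) (lev_nonneg hK n) hi).1
    obtain ⟨c1, c2⟩ := cheb (μ := μ) (v := D.j h) (s := q) (by linarith) (lev_lt hK n) yi
    set y := ∫ z, max (D.j h z - lev K n) 0 ^ q ∂μ with hy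
    have y0 : 0 ≤ y := integral_nonneg fun z => Real.rpow_nonneg (le_max_right _ _) _
    set m := μ.real {z | lev K (n + 1) < D.j h z}
    have m0 : 0 ≤ m := measureReal_nonneg
    obtain ⟨-, g2⟩ := holder_set (μ := μ) (w := fun z => max (D.j h z - lev K (n + 1)) 0)
      (a := q) (b := D.p) (by linarith) qp (((D.meas h).sub_const _).max measurable_const)
      (ae_of_all _ fun z => le_max_right _ _)
      (trunc_int (D.meas h) p0 (lev_nonneg hK (n + 1)) (D.emb _ (by simp) h).1).1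
      (measurableSet_lt measurable_const (D.meas h)) c1
      (ae_of_all _ fun z hz => max_eq_right (by simpa using hz))
    have g3 : (∫ z, max (D.j h z - lev K (n + 1)) 0 ^ D.p ∂μ) ^ (q / D.p) ≤
        (D.C ^ 2 * t ^ 2) ^ (q / 2) := by
      refine (Real.rpow_le_rpow (integral_nonneg fun z => Real.rpow_nonneg (le_max_right _ _) _)
        (h1 _ (by simp)) (by positivity)).trans (le_of_eq ?_)
      rw [← Real.rpow_mul (by positivity), ← mul_pow, ← Real.rpow_natCast,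
        ← Real.rpow_mul (by positivity)]
      congr 1; push_cast; field_simp
    have g4 : t ^ 2 ≤ Λ * (2 ^ (q - 1)) ^ (n + 1) * y := by
      refine h3.trans ((integral_mono_ae h2 (yi.const_mul (Λ * (2 ^ (q - 1)) ^ (n + 1))) ?_).trans
        (by rw [integral_const_mul]))
      filter_upwards [h0] with z hz1
      by_cases hv : D.j h z ≤ lev K (n + 1)
      · rw [max_eq_right (by linarith), mul_zero]
        have := Real.rpow_nonneg (le_max_right (D.j h z - lev K n) 0) q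
        positivity
      · push Not at hv
        have l1 := lev_lt hK n
        have l2 : 1 ≤ D.j h z := by
          have : (1 / 2 : ℝ) ^ (n + 1) ≤ 1 / 2 := pow_le_of_le_one (by norm_num) (by norm_num)
            (by omega)
          unfold lev at hv
          nlinarith
        have hz : 0 ≤ D.j h z := by linarith
        replace hz1 := hz1 l2
        rw [max_eq_left (by linarith), max_eq_left (by linarith)]
        set v := D.j h z
        have t1 : 0 < v - lev K n := by linarith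
        have hv2 : v ≤ 2 ^ (n + 1) * (v - lev K n) := by
          have a1 : (2:ℝ) ^ (n + 1) * lev K n = (2 ^ (n + 1) - 2) * K := by
            unfold lev; rw [one_div_pow]; field_simp; ring
          have a2 : ((2:ℝ) ^ (n + 1) - 2) * K ≤ (2 ^ (n + 1) - 1) * lev K (n + 1) := by
            have a3 : ((2:ℝ) ^ (n + 1) - 1) * lev K (n + 1) =
                (2 ^ (n + 1) - 2) * K + K / 2 ^ (n + 1) := by
              unfold lev; rw [one_div_pow]; field_simp; ring
            have : 0 < K / 2 ^ (n + 1) := by positivity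
            linarith
          have a4 : (1:ℝ) ≤ 2 ^ (n + 1) := one_le_pow₀ (by norm_num)
          nlinarith
        have a5 : v ^ (q - 1) ≤ (2 ^ (q - 1)) ^ (n + 1) * (v - lev K n) ^ (q - 1) := by
          refine (Real.rpow_le_rpow hz hv2 (by linarith)).trans (le_of_eq ?_)
          rw [Real.mul_rpow (by positivity) t1.le, ← Real.rpow_pow_comm (by norm_num)]
        have a6 : (v - lev K n) ^ q = (v - lev K n) ^ (q - 1) * (v - lev K n) := by
          rw [← Real.rpow_add_one t1.ne']; congr 1; ring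
        have a7 := Real.rpow_nonneg hz (q - 1)
        calc f z * (v - lev K (n + 1))
            ≤ Λ * ((2 ^ (q - 1)) ^ (n + 1) * (v - lev K n) ^ (q - 1)) * (v - lev K n) := by
              refine mul_le_mul (hz1.trans (mul_le_mul_of_nonneg_left a5 hΛ)) (by linarith) (by linarith)
                (by positivity)
          _ = _ := by rw [a6]; ring
    have g6 := lev_step m0 y0 hK e0.le c2
    calc _ ≤ _ := g2
      _ ≤ (D.C ^ 2 * (Λ * (2 ^ (q - 1)) ^ (n + 1) * y)) ^ (q / 2) *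
          ((2 ^ (q * e)) ^ (n + 1) * y ^ e / K ^ (q * e)) := by
          refine mul_le_mul (g3.trans ?_) g6 (by positivity) (by positivity)
          gcongr
      _ = _ := by
          have a1 : (D.C ^ 2 * (Λ * (2 ^ (q - 1)) ^ (n + 1) * y)) ^ (q / 2) =
              (D.C ^ 2 * Λ) ^ (q / 2) * (((2:ℝ) ^ (q - 1)) ^ (q / 2)) ^ (n + 1) * y ^ (q / 2) := by
            rw [show D.C ^ 2 * (Λ * (2 ^ (q - 1)) ^ (n + 1) * y) =
              D.C ^ 2 * Λ * (2 ^ (q - 1)) ^ (n + 1) * y by ring,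
              Real.mul_rpow (by positivity) y0, Real.mul_rpow (by positivity) (by positivity),
              ← Real.rpow_pow_comm (by positivity)]
          have a2 : y ^ (1 + α) = y ^ (q / 2) * y ^ e := by
            rw [← Real.rpow_add' y0 (by positivity)]; congr 1; rw [hα, he]; ring
          rw [a1, a2, hb, mul_pow]; field_simp; ring
  · have e1 : b ^ (-1 / α) = (b ^ (1 / α))⁻¹ := by
      rw [← Real.rpow_neg (by linarith), neg_div]
    have : 0 < b ^ (1 / α) := by positivity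
    rw [e1, Real.one_rpow, mul_one, div_le_iff₀ KP, le_inv_mul_iff₀ this]
    linarith

end DS

lemma tangent2 {a b : ℝ} (hq : 1 < q) : |a| ^ q + q * (|a| ^ (q - 2) * a * b) ≤ |a + b| ^ q := by
  have e : ∀ c : ℝ, 0 ≤ c → c ^ (q - 2) * c = c ^ (q - 1) := fun c hc => by
    rw [← Real.rpow_add_one' hc (by linarith)]; congr 1; ring
  rcases le_total 0 a with h | h
  · rw [abs_of_nonneg h, e a h]; exact tangent hq h
  · have := tangent (b := -b) hq (neg_nonneg.2 h)
    rw [← neg_add, abs_neg, ← e _ (neg_nonneg.2 h)] at this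
    rw [abs_of_nonpos h]; linarith

lemma abs_pw {a : ℝ} (hq : 1 < q) : |(|a| ^ (q - 2) * a)| = |a| ^ (q - 1) := by
  rw [abs_mul, abs_of_nonneg (Real.rpow_nonneg (abs_nonneg _) _),
    ← Real.rpow_add_one' (abs_nonneg _) (by linarith)]; congr 1; ring

lemma pw2 {a : ℝ} (q1 : 1 < q) (ha : 0 ≤ a) : |a| ^ (q - 2) * a = a ^ (q - 1) := by
  rw [abs_of_nonneg ha, ← Real.rpow_add_one' ha (by linarith)]; congr 1; ring

lemma trapez {a b : ℝ} (q1 : 1 < q) (q2 : q < 2) (ha : 0 ≤ a) (hab : a < b) :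
    (a ^ (q - 1) + b ^ (q - 1)) * (b - a) / 2 < (b ^ q - a ^ q) / q := by
  have q0 : 0 < q := by linarith
  have key := strictMonoOn_of_deriv_pos (convex_Ici a)
    (f := fun t => (t ^ q - a ^ q) / q - (a ^ (q - 1) + t ^ (q - 1)) * (t - a) / 2)
    (Continuous.continuousOn (by
      have := Real.continuous_rpow_const q0.le
      have := Real.continuous_rpow_const (by linarith : 0 ≤ q - 1)
      fun_prop)) (fun t ht => by
      rw [interior_Ici] at ht
      have t0 : 0 < t := ha.trans_lt ht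
      have d := ((((Real.hasDerivAt_rpow_const (p := q) (Or.inl t0.ne')).sub_const
        (a ^ q)).div_const q).sub (((((Real.hasDerivAt_rpow_const (p := q - 1)
        (Or.inl t0.ne')).const_add (a ^ (q - 1))).mul
        ((hasDerivAt_id t).sub_const a))).div_const 2)).deriv
      refine lt_of_lt_of_eq ?_ d.symm
      have h1 := rpow_one_add_lt_one_add_mul_self (s := a / t - 1)
        (by linarith [div_nonneg ha t0.le]) (by
          rw [sub_ne_zero, Ne, div_eq_one_iff_eq t0.ne']; exact (ne_of_lt ht))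
        (by linarith : 0 < q - 1) (by linarith)
      rw [add_sub_cancel, Real.div_rpow ha t0.le, div_lt_iff₀ (by positivity)] at h1
      have e : t ^ (q - 1) = t ^ (q - 1 - 1) * t := by
        rw [← Real.rpow_add_one t0.ne', sub_add_cancel]
      have e2 : (q - 1) * (a / t - 1) * t ^ (q - 1) = (q - 1) * t ^ (q - 1 - 1) * (a - t) := by
        rw [e]; field_simp
      have e3 : q * t ^ (q - 1) / q = t ^ (q - 1) := by field_simp
      simp only [id, e3]
      linarith) self_mem_Ici (show b ∈ Ici a from hab.le) hab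
  simpa using key

/-- Data for the sublinear problem. -/
structure Sub (D : DS μ H s) (q : ℝ) where
  Ω : Set Z
  mΩ : MeasurableSet Ω
  fin : μ Ω < ∞
  zero : ∀ h, ∀ᵐ z ∂μ, z ∉ Ω → D.j h z = 0
  q1 : 1 < q
  q2 : q < 2

namespace Sub

variable {D : DS μ H s} (S : Sub D q)
include S

lemma q0 : 0 < q := by linarith [S.q1]

lemma hold (h : H) : Integrable (fun z => |D.j h z| ^ q) μ ∧ ∫ z, |D.j h z| ^ q ∂μ ≤
    (∫ z, |D.j h z| ^ s ∂μ) ^ (q / s) * μ.real S.Ω ^ (1 - q / s) :=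
  holder_set S.q0 (by linarith [S.q2, D.hq]) (D.meas h).abs (ae_of_all _ fun _ => abs_nonneg _)
    (D.intq h) S.mΩ S.fin ((S.zero h).mono fun z hz h1 => by rw [hz h1, abs_zero])

lemma intq (h : H) : Integrable (fun z => |D.j h z| ^ q) μ := (S.hold h).1

lemma emb : ∃ C, 0 < C ∧ ∀ h, ∫ z, |D.j h z| ^ q ∂μ ≤ (C * ‖h‖) ^ q := by
  have s0 : 0 < s := by linarith [D.hq]
  have q0 := S.q0
  have hC := D.hC
  set V := μ.real S.Ω ^ (1 - q / s)
  have V0 : 0 ≤ V := Real.rpow_nonneg measureReal_nonneg _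
  refine ⟨(V + 1) ^ q⁻¹ * D.C, by positivity, fun h => (S.hold h).2.trans ?_⟩
  have := Real.rpow_le_rpow (integral_nonneg fun z => by positivity) (D.embq h)
    (by positivity : 0 ≤ q / s)
  rw [← Real.rpow_mul (by positivity), mul_div_cancel₀ _ s0.ne'] at this
  rw [mul_assoc, Real.mul_rpow (by positivity) (by positivity),
    Real.rpow_inv_rpow (by positivity) q0.ne', mul_comm]
  exact mul_le_mul (by linarith) this
    (Real.rpow_nonneg (integral_nonneg fun z => by positivity) _) (by positivity)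

lemma tend {ι : Type*} {F : Filter ι} {d : ι → H}
    (hd : Tendsto (fun n => ∫ z, |D.j (d n) z| ^ s ∂μ) F (𝓝 0)) :
    Tendsto (fun n => ∫ z, |D.j (d n) z| ^ q ∂μ) F (𝓝 0) := by
  have : 0 < q / s := div_pos S.q0 (by linarith [D.hq])
  have t := ((Real.continuousAt_rpow_const 0 (q / s) (Or.inr this.le)).tendsto.comp hd).mul_const
    (μ.real S.Ω ^ (1 - q / s))
  rw [Real.zero_rpow this.ne', zero_mul] at t
  exact squeeze_zero (fun n => integral_nonneg fun z => by positivity) (fun n => (S.hold _).2) t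

/-- Mass. -/
noncomputable def m (_ : Sub D q) (h : H) : ℝ := ∫ z, |D.j h z| ^ q ∂μ

lemma m_nonneg (h : H) : 0 ≤ S.m h := integral_nonneg fun _ => by positivity

lemma m_smul {c : ℝ} (hc : 0 ≤ c) (h : H) : S.m (c • h) = c ^ q * S.m h := by
  rw [m, m, ← integral_const_mul]
  refine integral_congr_ae ?_
  filter_upwards [D.j_smul c h] with z hz
  rw [hz, abs_mul, abs_of_nonneg hc, Real.mul_rpow hc (abs_nonneg _)]

lemma normalize {h : H} (ha : 0 < S.m h) : ∃ c : ℝ, 0 < c ∧ S.m (c • h) = 1 ∧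
    S.m h ^ (2 / q) * ‖c • h‖ ^ 2 = ‖h‖ ^ 2 := by
  have q0 := S.q0
  set a := S.m h
  refine ⟨a ^ (-1 / q), by positivity, ?_, ?_⟩
  · rw [S.m_smul (by positivity), ← Real.rpow_mul ha.le, div_mul_cancel₀ _ q0.ne',
      Real.rpow_neg_one, inv_mul_cancel₀ ha.ne']
  · rw [norm_smul, Real.norm_of_nonneg (by positivity), mul_pow, ← mul_assoc, ← Real.rpow_natCast,
      ← Real.rpow_mul ha.le, ← Real.rpow_add ha,
      show 2 / q + -1 / q * ((2:ℕ):ℝ) = 0 by push_cast; ring, Real.rpow_zero, one_mul]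

/-- The first eigenvalue. -/
noncomputable def lam : ℝ := sInf {t | ∃ h, S.m h = 1 ∧ t = ‖h‖ ^ 2}

lemma lam_le {h : H} (hh : S.m h = 1) : S.lam ≤ ‖h‖ ^ 2 :=
  csInf_le ⟨0, fun _ ⟨_, _, e⟩ => e ▸ sq_nonneg _⟩ ⟨h, hh, rfl⟩

lemma lam_pos {h : H} (hh : S.m h = 1) : 0 < S.lam := by
  obtain ⟨C, C0, hC⟩ := S.emb
  refine lt_of_lt_of_le (by positivity : 0 < 1 / C ^ 2) (le_csInf ⟨_, h, hh, rfl⟩ ?_)
  rintro _ ⟨g, hg, rfl⟩
  have h2 : 1 ≤ C * ‖g‖ := by
    by_contra h3
    exact absurd (hg.ge.trans (hC g)) (not_le.2 (Real.rpow_lt_one (by positivity) (not_le.1 h3)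
      S.q0))
  rw [div_le_iff₀ (by positivity)]
  nlinarith

lemma lam_mul (h : H) : S.lam * S.m h ^ (2 / q) ≤ ‖h‖ ^ 2 := by
  have := S.q0
  rcases (S.m_nonneg h).eq_or_lt with h0 | h0
  · rw [← h0, Real.zero_rpow (by positivity), mul_zero]; positivity
  · obtain ⟨c, -, g1, g2⟩ := S.normalize h0
    rw [← g2, mul_comm]
    exact mul_le_mul_of_nonneg_left (S.lam_le g1) (by positivity)

lemma m_cont : Continuous S.m := continuous_iff_continuousAt.2 fun u =>
  tend_int (d := fun n => D.j (n - u)) S.q0 (fun _ => S.intq _) (S.intq _) (fun _ => S.intq _)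
    (fun _ => D.j_sub _ _) (S.tend (D.tend_q (F := 𝓝 u) (h := id) tendsto_id))

lemma min_limit [CompleteSpace H] {x : ℕ → H} (hx : ∀ n, S.m (x n) = 1)
    (ht : Tendsto (fun n => ‖x n‖ ^ 2) atTop (𝓝 S.lam)) : ∃ φ : ℕ → ℕ, StrictMono φ ∧ ∃ h,
      S.m h = 1 ∧ ‖h‖ ^ 2 = S.lam ∧ Tendsto (fun n => x (φ n)) atTop (𝓝 h) := by
  obtain ⟨R, hR⟩ := ht.bddAbove_range
  obtain ⟨φ, hφ, hc⟩ := D.cpt x (R + 1) fun n => by
    have : ‖x n‖ ^ 2 ≤ R := hR ⟨n, rfl⟩
    nlinarith [norm_nonneg (x n)]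
  set y : ℕ → H := fun n => x (φ n) with hy
  have yn : Tendsto (fun n => ‖y n‖ ^ 2) atTop (𝓝 S.lam) := ht.comp hφ.tendsto_atTop
  let g : ℕ × ℕ → H := fun p => (1 / 2 : ℝ) • (y p.1 + y p.2)
  have f1 : Tendsto (fun p : ℕ × ℕ => p.1) atTop atTop := by
    rw [← prod_atTop_atTop_eq]; exact tendsto_fst
  have f2 : Tendsto (fun p : ℕ × ℕ => p.2) atTop atTop := by
    rw [← prod_atTop_atTop_eq]; exact tendsto_snd
  have d0 : Tendsto (fun p : ℕ × ℕ => ∫ z, |D.j (y p.1 - y p.2) z| ^ s ∂μ) atTop (𝓝 0) := by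
    refine Metric.tendsto_nhds.2 fun ε hε => ?_
    obtain ⟨n0, hn0⟩ := hc (ε / 2) (half_pos hε)
    filter_upwards [f1.eventually_ge_atTop n0, f2.eventually_ge_atTop n0] with p p1 p2
    rw [Real.dist_eq, sub_zero, abs_of_nonneg
      (integral_nonneg fun z => Real.rpow_nonneg (abs_nonneg _) _)]
    exact (hn0 _ p1 _ p2).trans_lt (half_lt_self hε)
  have g1 : Tendsto (fun p => S.m (g p)) atTop (𝓝 1) := by
    refine tend_of_eps (S.tend d0) zero_le_one fun ε hε => ?_
    obtain ⟨C, C0, hC⟩ := int_pert (Z := Z) S.q0 hε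
    refine ⟨C, fun p => ?_⟩
    have := hC μ (fun z => |D.j (g p) z|) (fun z => |D.j (y p.1) z|) (D.j (y p.1 - y p.2))
      (S.intq _) (S.intq _) (S.intq _) (by
      filter_upwards [D.j_smul (1 / 2) (y p.1 + y p.2), D.j_add (y p.1) (y p.2),
        D.j_sub (y p.1) (y p.2)] with z b1 b2 b3
      refine ⟨abs_nonneg _, abs_nonneg _, (abs_abs_sub_abs_le_abs_sub _ _).trans ?_⟩
      simp only [g]
      rw [b1, b2, b3, show 1 / 2 * (D.j (y p.1) z + D.j (y p.2) z) - D.j (y p.1) z =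
        -(1 / 2) * (D.j (y p.1) z - D.j (y p.2) z) by ring, abs_mul, abs_neg]
      norm_num; linarith [abs_nonneg (D.j (y p.1) z - D.j (y p.2) z)])
    have e : ∫ z, |D.j (y p.1) z| ^ q ∂μ = 1 := hx _
    rwa [e] at this
  have gl : Tendsto (fun p => S.lam * S.m (g p) ^ (2 / q)) atTop (𝓝 S.lam) := by
    simpa using (g1.rpow_const (p := 2 / q) (Or.inl one_ne_zero)).const_mul S.lam
  have hcau : CauchySeq y := by
    rw [cauchySeq_iff_tendsto_dist_atTop_0]
    have hsq : Tendsto (fun p : ℕ × ℕ => dist (y p.1) (y p.2) ^ 2) atTop (𝓝 0) := by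
      have lim := (((yn.comp f1).const_mul 2).add ((yn.comp f2).const_mul 2)).sub (gl.const_mul 4)
      rw [show 2 * S.lam + 2 * S.lam - 4 * S.lam = 0 by ring] at lim
      refine squeeze_zero (fun _ => sq_nonneg _) (fun p => ?_) lim
      have b2 := S.lam_mul (g p)
      have b3 : 4 * ‖g p‖ ^ 2 = ‖y p.1 + y p.2‖ ^ 2 := by
        simp only [g]; rw [norm_smul, Real.norm_of_nonneg (by norm_num)]; ring
      have b4 := parallelogram_law_with_norm ℝ (y p.1) (y p.2)
      simp only [Function.comp_apply, dist_eq_norm]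
      nlinarith
    simpa [Real.sqrt_sq dist_nonneg] using hsq.sqrt
  obtain ⟨h, hh⟩ := cauchySeq_tendsto_of_complete hcau
  exact ⟨φ, hφ, h, tendsto_nhds_unique ((S.m_cont.tendsto h).comp hh)
    (tendsto_const_nhds.congr fun n => (hx _).symm), tendsto_nhds_unique (hh.norm.pow 2) yn, hh⟩

/-- Normalised eigenfunction. -/
structure Eig (u : H) (l : ℝ) : Prop where
  one : S.m u = 1
  src : D.Src u fun z => l * (|D.j u z| ^ (q - 2) * D.j u z)

lemma pairq {g h : H} (hg : S.m g = 1) :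
    Integrable (fun z => |D.j g z| ^ (q - 2) * D.j g z * D.j h z) μ := by
  obtain ⟨C, C0, hC⟩ := S.emb
  have m := D.meas g
  exact (hold3 (A := 1) S.q1 (Measurable.aestronglyMeasurable (by fun_prop)) m (D.meas h)
    (S.intq _) (S.intq _) zero_le_one zero_le_one (by positivity)
    (by rw [Real.one_rpow]; exact hg.le) (hC h)
    (ae_of_all _ fun z => by rw [abs_pw S.q1, one_mul])).1

lemma euler {h : H} (h1 : S.m h = 1) (h2 : ‖h‖ ^ 2 = S.lam) : S.Eig h S.lam := by
  have q0 := S.q0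
  refine ⟨h1, fun φ => ?_⟩
  have pi := S.pairq (h := φ) h1
  simp only [mul_assoc S.lam]
  refine ⟨pi.const_mul _, ?_⟩
  rw [integral_const_mul]
  set I := ∫ z, |D.j h z| ^ (q - 2) * D.j h z * D.j φ z ∂μ with hI
  have c3 : Tendsto (fun t : ℝ => 1 + q * (t * I)) (𝓝 0) (𝓝 1) := by
    have : Continuous fun t : ℝ => 1 + q * (t * I) := by fun_prop
    simpa using this.tendsto 0
  have hm : IsLocalMin (fun t : ℝ => ‖h‖ ^ 2 + 2 * (t * ⟪h, φ⟫) + t ^ 2 * ‖φ‖ ^ 2 -
      ‖h‖ ^ 2 * (1 + q * (t * I)) ^ (2 / q)) 0 := by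
    filter_upwards [c3.eventually_const_lt zero_lt_one] with t t3
    have b1 := S.lam_mul (h + t • φ)
    have b2 : 1 + q * (t * I) ≤ S.m (h + t • φ) := by
      rw [← h1, m, m, hI, ← integral_const_mul, ← integral_const_mul,
        ← integral_add (S.intq h) ((pi.const_mul t).const_mul q)]
      refine integral_mono_ae ((S.intq h).add ((pi.const_mul t).const_mul q)) (S.intq _) ?_
      filter_upwards [D.j_add h (t • φ), D.j_smul t φ] with z a2 a3
      rw [a2, a3, mul_left_comm t]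
      exact tangent2 S.q1
    have b3 := Real.rpow_le_rpow t3.le b2 (by positivity : 0 ≤ 2 / q)
    have b4 : ‖h + t • φ‖ ^ 2 = ‖h‖ ^ 2 + 2 * (t * ⟪h, φ⟫) + t ^ 2 * ‖φ‖ ^ 2 := by
      rw [norm_add_sq_real, real_inner_smul_right, norm_smul, mul_pow, Real.norm_eq_abs, sq_abs]
    have b5 := mul_le_mul_of_nonneg_left b3 (sq_nonneg ‖h‖)
    simp only [zero_mul, mul_zero, add_zero, Real.one_rpow, mul_one, sub_self, ne_eq,
      OfNat.ofNat_ne_zero, not_false_eq_true, zero_pow]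
    rw [← h2] at b1
    linarith
  have hd : HasDerivAt (fun t : ℝ => ‖h‖ ^ 2 + 2 * (t * ⟪h, φ⟫) + t ^ 2 * ‖φ‖ ^ 2 -
      ‖h‖ ^ 2 * (1 + q * (t * I)) ^ (2 / q)) (2 * ⟪h, φ⟫ - ‖h‖ ^ 2 * (2 * I)) 0 := by
    have a1 := ((((hasDerivAt_id (0:ℝ)).mul_const I).const_mul q).const_add 1).rpow_const
      (p := 2 / q) (Or.inl (by simp))
    have a2 := ((((hasDerivAt_id (0:ℝ)).mul_const ⟪h, φ⟫).const_mul 2).const_add (‖h‖ ^ 2)).add
      (((hasDerivAt_id (0:ℝ)).pow 2).mul_const (‖φ‖ ^ 2))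
    refine (a2.sub (a1.const_mul (‖h‖ ^ 2))).congr_deriv ?_
    simp; field_simp; simp
  have := hm.hasDerivAt_eq_zero hd
  rw [← h2]; linarith

variable {S}

lemma Eig.neg {u : H} {l : ℝ} (h : S.Eig u l) : S.Eig (-u) l :=
  ⟨(integral_congr_ae ((D.j_neg u).mono fun z hz => by simp only [hz, abs_neg])).trans h.one,
    h.src.neg.congr ((D.j_neg u).mono fun z hz => by simp only [hz, abs_neg, mul_neg])⟩

lemma Eig.eq {u : H} {l : ℝ} (h : S.Eig u l) : ‖u‖ ^ 2 = l := by
  have e : l = ∫ z, l * |D.j u z| ^ q ∂μ := by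
    rw [integral_const_mul, show ∫ z, |D.j u z| ^ q ∂μ = 1 from h.one, mul_one]
  rw [← real_inner_self_eq_norm_sq, (h.src u).2]
  refine (integral_congr_ae (ae_of_all _ fun z => ?_)).trans e.symm
  have := abs_pw (a := D.j u z) S.q1
  rw [abs_mul, abs_of_nonneg (Real.rpow_nonneg (abs_nonneg _) _)] at this
  simp only
  rw [mul_assoc, mul_assoc, ← abs_mul_abs_self, ← mul_assoc (|D.j u z| ^ (q - 2)), this,
    ← Real.rpow_add_one' (abs_nonneg _) (by linarith [S.q1]), sub_add_cancel]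

variable (S) in
lemma first [CompleteSpace H] {h0 : H} (hh : S.m h0 = 1) :
    ∃ u, S.Eig u S.lam ∧ ∀ᵐ z ∂μ, 0 ≤ D.j u z := by
  obtain ⟨t, -, ht, hts⟩ := exists_seq_tendsto_sInf (S := {t | ∃ h, S.m h = 1 ∧ t = ‖h‖ ^ 2})
    ⟨_, h0, hh, rfl⟩ ⟨0, fun _ ⟨_, _, e⟩ => e ▸ sq_nonneg _⟩
  choose x hx hxt using hts
  obtain ⟨-, -, h, h1, h2, -⟩ := S.min_limit hx (ht.congr hxt)
  obtain ⟨w, a1, a2, -⟩ := D.trunc0 h
  have e : ∀ᵐ z ∂μ, D.j ((2:ℝ) • w - h) z = |D.j h z| := by
    filter_upwards [a1, D.j_sub ((2:ℝ) • w) h, D.j_smul 2 w] with z b1 b2 b3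
    rw [b2, b3, b1]
    rcases le_total 0 (D.j h z) with h1 | h1
    · rw [max_eq_left h1, abs_of_nonneg h1]; ring
    · rw [max_eq_right h1, abs_of_nonpos h1]; ring
  have e1 : S.m ((2:ℝ) • w - h) = 1 :=
    (integral_congr_ae (e.mono fun z hz => by simp only [hz, abs_abs])).trans h1
  refine ⟨_, S.euler e1 (le_antisymm ?_ (S.lam_le e1)), e.mono fun z hz => hz ▸ abs_nonneg _⟩
  rw [norm_sub_sq_real, norm_smul, real_inner_smul_left, real_inner_comm, Real.norm_two]
  linarith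

lemma Eig.sub_le {u v : H} {f : Z → ℝ} (hu : S.Eig u S.lam) (u0 : ∀ᵐ z ∂μ, 0 ≤ D.j u z)
    (hv : D.Src v f) (hf : ∀ᵐ z ∂μ, D.j u z < D.j v z → f z ≤ S.lam * D.j v z ^ (q - 1)) :
    ∀ᵐ z ∂μ, D.j v z ≤ D.j u z := by
  have q0 := S.q0
  have q1 := S.q1
  have l0 := S.lam_pos hu.one
  obtain ⟨w, a1, a2, -⟩ := D.trunc0 (v - u)
  have b1 := S.lam_mul (u + w)
  have b2 : 1 + 2 / q * (S.m (u + w) - 1) ≤ S.m (u + w) ^ (2 / q) := by
    have := one_add_mul_self_le_rpow_one_add (s := S.m (u + w) - 1)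
      (by linarith [S.m_nonneg (u + w)]) (p := 2 / q) (by rw [le_div_iff₀ q0]; linarith [S.q2])
    rwa [add_sub_cancel] at this
  have b3 := mul_le_mul_of_nonneg_left b2 l0.le
  rw [norm_add_sq_real, hu.eq] at b1
  rw [inner_sub_left] at a2
  have i1 := ((hu.src w).1.add (hv w).1).div_const 2
  have i2 := ((S.intq (u + w)).sub (S.intq u)).const_mul (S.lam / q)
  simp only [Pi.add_apply, Pi.sub_apply] at i1 i2
  have pt : ∀ᵐ z ∂μ, 0 ≤ S.lam / q * (|D.j (u + w) z| ^ q - |D.j u z| ^ q) -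
      (S.lam * (|D.j u z| ^ (q - 2) * D.j u z) * D.j w z + f z * D.j w z) / 2 ∧
      (S.lam / q * (|D.j (u + w) z| ^ q - |D.j u z| ^ q) -
      (S.lam * (|D.j u z| ^ (q - 2) * D.j u z) * D.j w z + f z * D.j w z) / 2 = 0 →
        D.j v z ≤ D.j u z) := by
    filter_upwards [a1, D.j_sub v u, D.j_add u w, u0, hf] with z c1 c2 c3 c4 c5
    rw [c3, c1, c2]
    by_cases h : D.j v z ≤ D.j u z
    · rw [max_eq_right (by linarith)]; simp [h]
    · push Not at h
      have c6 := mul_lt_mul_of_pos_left (trapez q1 S.q2 c4 h) l0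
      have c7 := mul_le_mul_of_nonneg_right (c5 h) (sub_pos.2 h).le
      rw [max_eq_left (by linarith), add_sub_cancel, pw2 q1 c4, abs_of_nonneg c4,
        abs_of_nonneg (c4.trans h.le)]
      have : 0 < S.lam / q * (D.j v z ^ q - D.j u z ^ q) - (S.lam * D.j u z ^ (q - 1) *
          (D.j v z - D.j u z) + f z * (D.j v z - D.j u z)) / 2 := by
        rw [div_mul_eq_mul_div, mul_div_assoc]; linarith
      exact ⟨this.le, fun e => absurd e this.ne'⟩
  have z := (integral_eq_zero_iff_of_nonneg_ae (pt.mono fun z hz => hz.1) (i2.sub i1)).1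
    (le_antisymm (by
      rw [integral_sub i2 i1, integral_const_mul, integral_sub (S.intq _) (S.intq _),
        integral_div, integral_add (hu.src w).1 (hv w).1, ← (hu.src w).2, ← (hv w).2,
        show ∫ z, |D.j u z| ^ q ∂μ = 1 from hu.one]
      change S.lam / q * (S.m (u + w) - 1) - _ ≤ 0
      have : S.lam * (2 / q * (S.m (u + w) - 1)) = 2 * (S.lam / q * (S.m (u + w) - 1)) := by ring
      linarith) (integral_nonneg_of_ae (pt.mono fun z hz => hz.1)))
  filter_upwards [pt, z] with x c1 c2 using c1.2 c2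

lemma Eig.abs_le {u v : H} (hu : S.Eig u S.lam) (u0 : ∀ᵐ z ∂μ, 0 ≤ D.j u z)
    (hv : D.Src v fun z => S.lam * (|D.j v z| ^ (q - 2) * D.j v z)) :
    ∀ᵐ z ∂μ, |D.j v z| ≤ D.j u z := by
  have a1 := hu.sub_le u0 hv (u0.mono fun z h1 h2 => by rw [pw2 S.q1 (h1.trans h2.le)])
  have a2 := hu.sub_le u0 hv.neg (by
    filter_upwards [u0, D.j_neg v] with z h1 h3 h2
    rw [← pw2 S.q1 (h1.trans h2.le), h3, abs_neg]; linarith)
  filter_upwards [a1, a2, D.j_neg v] with z b1 b2 b3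
  rw [_root_.abs_le]; constructor <;> linarith

lemma Eig.abs_eq {u v : H} (hu : S.Eig u S.lam) (u0 : ∀ᵐ z ∂μ, 0 ≤ D.j u z)
    (hv : S.Eig v S.lam) : ∀ᵐ z ∂μ, |D.j v z| = D.j u z := by
  have a1 := hu.abs_le u0 hv.src
  have a2 := (integral_eq_zero_iff_of_nonneg_ae (f := fun z => |D.j u z| ^ q - |D.j v z| ^ q) (by
    filter_upwards [a1, u0] with z b1 b2
    exact sub_nonneg.2 (Real.rpow_le_rpow (abs_nonneg _) (by rwa [abs_of_nonneg b2]) S.q0.le))
    ((S.intq u).sub (S.intq v))).1 (by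
      rw [integral_sub (S.intq u) (S.intq v)]; exact sub_eq_zero.2 (hu.one.trans hv.one.symm))
  filter_upwards [a2, u0] with z b1 b2
  rw [← abs_of_nonneg b2]
  exact (Real.rpow_left_injOn S.q0.ne' (abs_nonneg (D.j u z)) (abs_nonneg (D.j v z))
    (sub_eq_zero.1 b1)).symm

lemma Eig.bdd {u : H} {l : ℝ} (hu : S.Eig u l) (l0 : 0 ≤ l) :
    ∃ M, 0 < M ∧ ∀ᵐ z ∂μ, D.j u z ≤ M := by
  have s2 := D.hq
  have hC := D.hC
  obtain ⟨M, M0, hM⟩ := D.eig_bound2 l0
  set T := D.C * ‖u‖ + 1 with hT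
  have T1 : 1 ≤ T := by rw [hT]; exact le_add_of_nonneg_left (by positivity)
  have T0 : 0 < T := by linarith
  have := hM (T⁻¹ • u) _ (by
    filter_upwards [D.j_smul T⁻¹ u] with z b1 b2
    have b3 : D.j u z = T * D.j (T⁻¹ • u) z := by rw [b1]; field_simp
    generalize D.j (T⁻¹ • u) z = x at b2 b3
    rw [b3, pw2 S.q1 (by positivity), Real.mul_rpow T0.le (by linarith), mul_left_comm,
      ← mul_assoc T⁻¹]
    refine mul_le_mul_of_nonneg_left ?_ l0
    have c1 : T ^ (q - 1) ≤ T := by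
      simpa using Real.rpow_le_rpow_of_exponent_le T1 (by linarith [S.q2] : q - 1 ≤ 1)
    have c2 := Real.rpow_le_rpow_of_exponent_le b2 (by linarith [S.q2] : q - 1 ≤ s - 1)
    exact (mul_le_of_le_one_left (by positivity) (by rwa [inv_mul_le_iff₀ T0, mul_one])).trans c2)
    ((D.embq _).trans (Real.rpow_le_one (by positivity) (by
      rw [norm_smul, norm_inv, Real.norm_of_nonneg T0.le, mul_left_comm, inv_mul_le_iff₀ T0]
      linarith) (by linarith))) (hu.src.smul T⁻¹)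
  refine ⟨T * M, by positivity, ?_⟩
  filter_upwards [this, D.j_smul T⁻¹ u] with z b1 b2
  rwa [b2, inv_mul_le_iff₀ T0] at b1

theorem isolated [CompleteSpace H] {u w : H} {f : Z → ℝ} {κ : ℝ} (hu : S.Eig u S.lam)
    (u0 : ∀ᵐ z ∂μ, 0 ≤ D.j u z) (hw : D.Src w f) (hf : ∀ᵐ z ∂μ, 0 ≤ f z ∧ (z ∈ S.Ω → 1 ≤ f z))
    (κ0 : 0 ≤ κ) (hκ : ∀ᵐ z ∂μ, D.j w z ≤ κ * D.j u z) :
    ∃ ε, 0 < ε ∧ ∀ v l, S.Eig v l → S.lam < l → S.lam + ε ≤ l := by
  have q0 := S.q0
  have q1 := S.q1
  have q2 := S.q2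
  have l0 := S.lam_pos hu.one
  by_contra hc
  push Not at hc
  choose v l hv hl1 hl2 using fun n : ℕ => hc (1 / ((n:ℝ) + 1)) Nat.one_div_pos_of_nat
  have tl : Tendsto l atTop (𝓝 S.lam) := tendsto_of_tendsto_of_tendsto_of_le_of_le
    tendsto_const_nhds (by simpa using tendsto_one_div_add_atTop_nhds_zero_nat.const_add S.lam)
    (fun n => (hl1 n).le) fun n => (hl2 n).le
  obtain ⟨φ, hφ, h, h1, h2, h3⟩ := S.min_limit (fun n => (hv n).one)
    (tl.congr fun n => (hv n).eq.symm)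
  have hh := S.euler h1 h2
  have ha := hu.abs_eq u0 hh
  obtain ⟨M, M0, hM⟩ := hu.bdd l0.le
  set t : ℕ → ℝ := fun n => (l n / S.lam) ^ (1 / (2 - q)) with ht
  have t1 : ∀ n, 1 < t n := fun n => Real.one_lt_rpow ((one_lt_div l0).2 (hl1 n))
    (one_div_pos.2 (by linarith))
  have src : ∀ n, D.Src ((t n)⁻¹ • v n) fun z => S.lam *
      (|D.j ((t n)⁻¹ • v n) z| ^ (q - 2) * D.j ((t n)⁻¹ • v n) z) := fun n => by
    have t0 : 0 < t n := by linarith [t1 n]
    have e : (t n)⁻¹ ^ (q - 2) = l n / S.lam := by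
      rw [Real.inv_rpow t0.le, ← Real.rpow_neg t0.le, neg_sub, ht, ← Real.rpow_mul
        (div_pos (l0.trans (hl1 n)) l0).le, one_div_mul_cancel (by linarith), Real.rpow_one]
    refine ((hv n).src.smul (t n)⁻¹).congr ?_
    filter_upwards [D.j_smul (t n)⁻¹ (v n)] with z hz
    rw [hz, abs_mul, abs_of_pos (inv_pos.2 t0), Real.mul_rpow (by positivity) (abs_nonneg _), e]
    field_simp
  have tt : Tendsto (fun n => (t (φ n))⁻¹) atTop (𝓝 1) := by
    have := (((tl.comp hφ.tendsto_atTop).div_const S.lam).rpow_const (p := 1 / (2 - q))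
      (Or.inl (div_pos l0 l0).ne')).inv₀ (by simp [l0.ne'])
    simpa [l0.ne', ht] using this
  have tv : Tendsto (fun n => (t (φ n))⁻¹ • v (φ n)) atTop (𝓝 h) := by
    simpa using tt.smul h3
  obtain ⟨δ, hδ, δ0⟩ : ∃ δ : ℝ, 2 * S.lam * κ * δ ^ (q - 1) ≤ 1 / 4 ∧ 0 < δ := by
    have := ((Real.continuousAt_rpow_const 0 (q - 1) (Or.inr (by linarith))).tendsto.const_mul
      (2 * S.lam * κ)).mono_left (nhdsWithin_le_nhds (s := Ioi 0))
    rw [Real.zero_rpow (by linarith), mul_zero] at this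
    exact ((this.eventually_le_const (by norm_num)).and self_mem_nhdsWithin).exists
  obtain ⟨η, η0, hη⟩ := D.small_sup (A := 2 * S.lam * M ^ (q - 1)) (S := δ / 4) (by positivity)
    (by positivity)
  obtain ⟨n, hn⟩ := ((D.tend_q tv).eventually_le_const η0).exists
  have t0 : 0 < t (φ n) := by linarith [t1 (φ n)]
  have mx : S.m ((t (φ n))⁻¹ • v (φ n)) < 1 := by
    rw [S.m_smul (by positivity), (hv _).one, mul_one]
    exact Real.rpow_lt_one (by positivity) (inv_lt_one_of_one_lt₀ (t1 _)) q0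
  have sx := src (φ n)
  generalize (t (φ n))⁻¹ • v (φ n) = x at hn mx sx
  have xa := hu.abs_le u0 sx
  have fb : ∀ᵐ z ∂μ, |S.lam * (|D.j x z| ^ (q - 2) * D.j x z) -
      S.lam * (|D.j h z| ^ (q - 2) * D.j h z)| ≤ 2 * S.lam * D.j u z ^ (q - 1) := by
    filter_upwards [xa, ha] with z b1 b2
    refine (abs_sub _ _).trans ?_
    rw [abs_mul S.lam, abs_mul S.lam, abs_pw q1, abs_pw q1, b2, abs_of_pos l0]
    have := mul_le_mul_of_nonneg_left (Real.rpow_le_rpow (abs_nonneg _) b1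
      (by linarith : 0 ≤ q - 1)) l0.le
    linarith
  have sb := hη _ _ (sx.sub hh.src) (by
    filter_upwards [fb, hM, u0] with z b1 b2 b3
    exact b1.trans (mul_le_mul_of_nonneg_left (Real.rpow_le_rpow b3 b2 (by linarith))
      (by positivity))) hn
  have w0 : ∀ᵐ z ∂μ, 0 ≤ D.j w z := by
    filter_upwards [hw.neg.nonpos (hf.mono fun z hz => Or.inr (by linarith [hz.1])), D.j_neg w]
      with z b1 b2
    linarith
  have key : ∀ (ψ : H) (g : Z → ℝ), D.Src ψ g → (∀ᵐ z ∂μ, g z ≤ 2 * S.lam * D.j u z ^ (q - 1)) →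
      (∀ᵐ z ∂μ, D.j ψ z ≤ δ / 4) → ∀ᵐ z ∂μ, D.j ψ z ≤ D.j u z / 2 := fun ψ g c1 c2 c3 => by
    have e : ∀ᵐ z ∂μ, D.j ((1 / 4 : ℝ) • u + (2 * S.lam * δ ^ (q - 1)) • w) z =
        1 / 4 * D.j u z + 2 * S.lam * δ ^ (q - 1) * D.j w z := by
      filter_upwards [D.j_add ((1 / 4 : ℝ) • u) ((2 * S.lam * δ ^ (q - 1)) • w), D.j_smul (1 / 4) u,
        D.j_smul (2 * S.lam * δ ^ (q - 1)) w] with z d1 d2 d3
      rw [d1, d2, d3]
    have p0 : 0 ≤ 2 * S.lam * δ ^ (q - 1) := by positivity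
    have := c1.cmp ((hu.src.smul (1 / 4)).add (hw.smul (2 * S.lam * δ ^ (q - 1)))) (by
      filter_upwards [e, c2, c3, u0, w0, hf, S.zero u] with z d1 d2 d3 d4 d5 d6 d7
      by_cases h4 : D.j u z < δ
      · right
        rw [pw2 q1 d4]
        have d8 := mul_nonneg l0.le (Real.rpow_nonneg d4 (q - 1))
        by_cases h5 : z ∈ S.Ω
        · have d9 := mul_le_mul_of_nonneg_left (Real.rpow_le_rpow d4 h4.le
            (by linarith : 0 ≤ q - 1)) (by positivity : 0 ≤ 2 * S.lam)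
          nlinarith [d6.2 h5]
        · rw [d7 h5, Real.zero_rpow (by linarith)] at d2 ⊢
          nlinarith [d6.1]
      · left
        rw [d1]; nlinarith)
    filter_upwards [this, e, hκ, u0] with z d1 d2 d3 d4
    have := mul_le_mul_of_nonneg_left d3 p0
    have := mul_le_mul_of_nonneg_right hδ d4
    rw [d2] at d1; linarith
  have k1 := key _ _ (sx.sub hh.src) (fb.mono fun z hz => (le_abs_self _).trans hz)
    (sb.mono fun z hz => (le_abs_self _).trans hz)
  have k2 := key _ _ (sx.sub hh.src).neg (fb.mono fun z hz => (neg_le_abs _).trans hz) (by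
    filter_upwards [sb, D.j_neg (x - h)] with z b1 b2
    rw [b2]; exact (neg_le_abs _).trans b1)
  have pt : ∀ᵐ z ∂μ, 0 ≤ S.lam * (|D.j x z| ^ (q - 2) * D.j x z) * D.j h z -
      S.lam * (|D.j h z| ^ (q - 2) * D.j h z) * D.j x z ∧
      (S.lam * (|D.j x z| ^ (q - 2) * D.j x z) * D.j h z -
      S.lam * (|D.j h z| ^ (q - 2) * D.j h z) * D.j x z = 0 → |D.j x z| = |D.j h z|) := by
    filter_upwards [k1, k2, D.j_neg (x - h), D.j_sub x h, ha, xa] with z b1 b2 b3 b4 b5 b6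
    rw [b3] at b2
    rw [b4] at b1 b2
    rw [← b5] at b1 b2 b6
    generalize D.j x z = a at *
    generalize D.j h z = b at *
    have e : S.lam * (|a| ^ (q - 2) * a) * b - S.lam * (|b| ^ (q - 2) * b) * a =
        S.lam * (a * b) * (|a| ^ (q - 2) - |b| ^ (q - 2)) := by ring
    rw [e]
    rcases b6.eq_or_lt with b7 | b7
    · simp [b7]
    · have c1 : 0 < a * b := by
        rcases le_total 0 b with c | c
        · rw [abs_of_nonneg c] at b1 b2 b7; nlinarith [abs_nonneg a]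
        · rw [abs_of_nonpos c] at b1 b2 b7; nlinarith [abs_nonneg a]
      have c2 := Real.rpow_lt_rpow_of_neg (abs_pos.2 (left_ne_zero_of_mul c1.ne')) b7
        (by linarith : q - 2 < 0)
      have := mul_pos (mul_pos l0 c1) (sub_pos.2 c2)
      exact ⟨this.le, fun e => absurd e this.ne'⟩
  have z := (integral_eq_zero_iff_of_nonneg_ae (pt.mono fun z hz => hz.1)
    ((sx h).1.sub (hh.src x).1)).1 (by
      rw [integral_sub (sx h).1 (hh.src x).1, ← (sx h).2, ← (hh.src x).2, real_inner_comm, sub_self])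
  refine mx.ne (Eq.trans (integral_congr_ae ?_) h1)
  filter_upwards [pt, z] with y c1 c2
  rw [c1.2 c2]

/-- Mass of the positive part. -/
noncomputable def mp (_ : Sub D q) (h : H) : ℝ := ∫ z, max (D.j h z) 0 ^ q ∂μ

variable (S)

lemma mp_int (h : H) : Integrable (fun z => max (D.j h z) 0 ^ q) μ := by
  simpa using (trunc_int (D.meas h) S.q0 le_rfl (S.intq h)).1

lemma mp_cont : Continuous S.mp := by
  refine continuous_iff_continuousAt.2 fun u => ?_
  refine tend_of_eps (S.tend (D.tend_q (F := 𝓝 u) (h := id) tendsto_id)) (T := S.mp u)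
    (integral_nonneg fun _ => Real.rpow_nonneg (le_max_right _ _) _) fun ε hε => ?_
  obtain ⟨C, -, hC⟩ := int_pert (Z := Z) S.q0 hε
  refine ⟨C, fun h => hC μ _ _ _ (S.mp_int h) (S.mp_int u) (S.intq _) ?_⟩
  filter_upwards [D.j_sub h u] with z hz
  refine ⟨le_max_right _ _, le_max_right _ _, ?_⟩
  rw [id, hz]; exact abs_max_sub_max_le_abs _ _ _

lemma mp_smul {c : ℝ} (hc : 0 ≤ c) (h : H) : S.mp (c • h) = c ^ q * S.mp h := by
  rw [mp, mp, ← integral_const_mul]
  refine integral_congr_ae ?_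
  filter_upwards [D.j_smul c h] with z hz
  rw [hz, ← Real.mul_rpow hc (le_max_right _ _), mul_max_of_nonneg _ _ hc, mul_zero]

theorem gap [CompleteSpace H] (hs : ∀ h, S.Eig h S.lam → S.mp h ≠ S.mp (-h)) :
    ∃ ν, S.lam < ν ∧ ∀ h, S.mp h = S.mp (-h) → ν * S.m h ^ (2 / q) ≤ ‖h‖ ^ 2 := by
  have q0 := S.q0
  have : ∃ ν, S.lam < ν ∧ ∀ h, S.m h = 1 → S.mp h = S.mp (-h) → ν ≤ ‖h‖ ^ 2 := by
    by_contra hc
    push Not at hc
    choose x h1 h2 h3 using fun n : ℕ => hc (S.lam + 1 / ((n:ℝ) + 1))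
      (lt_add_of_pos_right _ Nat.one_div_pos_of_nat)
    obtain ⟨φ, -, h, a1, a2, a3⟩ := S.min_limit h1 (tendsto_of_tendsto_of_tendsto_of_le_of_le
      tendsto_const_nhds (by simpa using tendsto_one_div_add_atTop_nhds_zero_nat.const_add S.lam)
      (fun n => S.lam_le (h1 n)) fun n => (h3 n).le)
    exact hs h (S.euler a1 a2) (tendsto_nhds_unique ((S.mp_cont.tendsto h).comp a3)
      (((S.mp_cont.tendsto _).comp a3.neg).congr fun n => (h2 _).symm))
  obtain ⟨ν, h1, h2⟩ := this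
  refine ⟨ν, h1, fun h hh => ?_⟩
  rcases (S.m_nonneg h).eq_or_lt with h0 | h0
  · rw [← h0, Real.zero_rpow (by positivity), mul_zero]; positivity
  · obtain ⟨c, c0, g1, g2⟩ := S.normalize h0
    rw [← g2, mul_comm]
    refine mul_le_mul_of_nonneg_left (h2 _ g1 ?_) (by positivity)
    rw [← smul_neg, S.mp_smul c0.le, S.mp_smul c0.le, hh]

end Sub

end Pool.Agent.H27.Iso
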