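import Pool.Agent.H27.Sub1
import Pool.Agent.H27.Iso12
import Pool.Agent.H27.QDef2

/-! The sublinear case on bounded open sets: link with weak solutions. -/

open Set Filter Topology MeasureTheory Metric
open scoped ENNReal RealInnerProductSpace

namespace Pool.Agent.H27.Iso

section abstract
variable {Z : Type} [MeasurableSpace Z] {μ : Measure Z} {H : Type} [NormedAddCommGroup H]
  [InnerProductSpace ℝ H] {q s : ℝ}

lemma Sub.green [CompleteSpace H] {D : DS μ H s} (S : Sub D q) {f g : Z → ℝ} {A : ℝ}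
    (hf : AEStronglyMeasurable f μ) (hg : Measurable g) (gi : Integrable (fun z => |g z| ^ q) μ)
    (A0 : 0 ≤ A) (hb : ∀ᵐ z ∂μ, |f z| ≤ A * |g z| ^ (q - 1)) : ∃ ψ, D.Src ψ f := by
  obtain ⟨C, C0, hC⟩ := S.emb
  have i0 : 0 ≤ ∫ z, |g z| ^ q ∂μ := integral_nonneg fun z => by positivity
  have hp := fun φ => hold3 (T := (∫ z, |g z| ^ q ∂μ) ^ q⁻¹) S.q1 hf hg (D.meas φ) gi (S.intq φ) A0
    (by positivity) (by positivity) (Real.rpow_inv_rpow i0 S.q0.ne').ge (hC φ) hb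
  simp only [← mul_assoc] at hp
  let L : H →ₗ[ℝ] ℝ :=
    { toFun := fun φ => ∫ z, f z * D.j φ z ∂μ
      map_add' := fun a b => by
        rw [← integral_add (hp a).1 (hp b).1]
        refine integral_congr_ae ?_
        filter_upwards [D.j_add a b] with z hz
        rw [hz, mul_add]
      map_smul' := fun c a => by
        rw [RingHom.id_apply, smul_eq_mul, ← integral_const_mul]
        refine integral_congr_ae ?_
        filter_upwards [D.j_smul c a] with z hz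
        rw [hz]; ring }
  refine ⟨(InnerProductSpace.toDual ℝ H).symm (L.mkContinuous _ fun φ => (hp φ).2),
    fun φ => ⟨(hp φ).1, ?_⟩⟩
  rw [InnerProductSpace.toDual_symm_apply]
  rfl

lemma vanish {F : Type*} [NormedAddCommGroup F] {f : ℕ → Z → F} {g : Z → F} {p : ℝ≥0∞}
    (hp : p ≠ 0) (hf : ∀ n, AEStronglyMeasurable (f n) μ) (hg : AEStronglyMeasurable g μ)
    (h : Tendsto (fun n => eLpNorm (fun x => f n x - g x) p μ) atTop (𝓝 0)) {A : Set Z}
    (hz : ∀ n, ∀ x ∉ A, f n x = 0) : ∀ᵐ x ∂μ, x ∉ A → g x = 0 := by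
  obtain ⟨k, -, hk⟩ := (tendstoInMeasure_of_tendsto_eLpNorm hp hf hg h).exists_seq_tendsto_ae
  filter_upwards [hk] with x hx hA
  simp only [hz _ x hA] at hx
  exact tendsto_nhds_unique hx tendsto_const_nhds |>.symm ▸ rfl

lemma dct2 {F : Type*} [NormedAddCommGroup F] {f : ℕ → Z → F} {A : Set Z} {C : ℝ}
    (hf : ∀ n, AEStronglyMeasurable (f n) μ) (hA : MeasurableSet A) (fin : μ A < ∞)
    (hb : ∀ n x, ‖f n x‖ ≤ C) (hz : ∀ n, ∀ x ∉ A, f n x = 0)
    (ht : ∀ x ∈ A, ∀ᶠ n in atTop, f n x = 0) :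
    Tendsto (fun n => eLpNorm (f n) 2 μ) atTop (𝓝 0) := by
  have i : Integrable (A.indicator fun _ => C ^ (2:ℝ)) μ :=
    (integrable_indicator_iff hA).2 (integrableOn_const fin.ne)
  have m : ∀ n, AEStronglyMeasurable (fun x => ‖f n x‖ ^ (2:ℝ)) μ := fun n =>
    ((hf n).norm.aemeasurable.pow_const _).aestronglyMeasurable
  have b : ∀ n, ∀ᵐ x ∂μ, ‖‖f n x‖ ^ (2:ℝ)‖ ≤ A.indicator (fun _ => C ^ (2:ℝ)) x := fun n =>
    ae_of_all _ fun x => by
      rw [Real.norm_of_nonneg (by positivity)]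
      by_cases hx : x ∈ A
      · rw [indicator_of_mem hx]; exact Real.rpow_le_rpow (norm_nonneg _) (hb n x) zero_le_two
      · simp [hx, hz n x hx]
  have t := tendsto_integral_of_dominated_convergence (f := fun _ => (0:ℝ)) _ m i b
    (ae_of_all _ fun x => by
      refine tendsto_const_nhds.congr' ?_
      by_cases hx : x ∈ A
      · exact (ht x hx).mono fun n hn => by simp [hn]
      · exact Eventually.of_forall fun n => by simp [hz n x hx])
  rw [integral_zero] at t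
  have t2 := ENNReal.tendsto_ofReal (t.rpow_const (p := (2:ℝ)⁻¹) (Or.inr (by norm_num)))
  rw [Real.zero_rpow (by norm_num), ENNReal.ofReal_zero] at t2
  refine t2.congr fun n => ?_
  rw [← eLp_eq (hf n) two_pos (i.mono' (m n) (b n))]
  simp

end abstract

variable {N : ℕ} {Ω U : Set (E N)} {q s : ℝ}

lemma IsTest.zero {φ : E N → ℝ} (h : IsTest Ω φ) {x : E N} (hx : x ∉ Ω) :
    φ x = 0 ∧ gradient φ x = 0 := by
  have : φ =ᶠ[𝓝 x] 0 := notMem_tsupport_iff_eventuallyEq.1 fun hc => hx (h.2.2 hc)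
  exact ⟨this.self_of_nhds, by rw [this.gradient_eq]; exact gradient_fun_const _ _⟩

lemma W.zero {p : ℝ≥0∞} (hp : p ≠ 0) {u : E N → ℝ} {G : E N → E N} (h : W p Ω u G) :
    ∀ᵐ x, x ∉ Ω → u x = 0 ∧ G x = 0 := by
  obtain ⟨hu, hG, φ, hφ, h1, h2⟩ := h
  filter_upwards [vanish hp (fun n => (hφ n).c1.cont.aestronglyMeasurable) hu.1 h1
    fun n x hx => ((hφ n).zero hx).1, vanish two_ne_zero
    (fun n => (hφ n).c1.contG.aestronglyMeasurable) hG.1 h2 fun n x hx => ((hφ n).zero hx).2]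
    with x a1 a2 hx using ⟨a1 hx, a2 hx⟩

lemma W.mono {p : ℝ≥0∞} {u : E N → ℝ} {G : E N → E N} (h : W p U u G) (hU : U ⊆ Ω) :
    W p Ω u G := by
  obtain ⟨hu, hG, φ, hφ, h1⟩ := h
  exact ⟨hu, hG, φ, fun n => (hφ n).mono hU, h1⟩

/-- `U` is a union of components of `Ω`. -/
def Comp (U Ω : Set (E N)) : Prop :=
  IsOpen U ∧ U ⊆ Ω ∧ ∃ V, IsOpen V ∧ Disjoint U V ∧ Ω ⊆ U ∪ V

lemma Comp.test (h : Comp U Ω) {ψ : E N → ℝ} (hψ : IsTest Ω ψ) : IsTest U (U.indicator ψ) ∧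
    gradient (U.indicator ψ) = U.indicator (gradient ψ) := by
  obtain ⟨hU, -, V, hV, hd, hs⟩ := h
  have t := ((hψ.mono hs).split hU hV hd).1
  refine ⟨t, funext fun x => ?_⟩
  by_cases hx : x ∈ U
  · rw [indicator_of_mem hx]
    exact EventuallyEq.gradient_eq
      ((hU.eventually_mem hx).mono fun y hy => indicator_of_mem hy _)
  · rw [indicator_of_notMem hx, (t.zero hx).2]

lemma W.restrict {p : ℝ≥0∞} {u : E N → ℝ} {G : E N → E N} (h : W p Ω u G) (hU : Comp U Ω) :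
    W p U (U.indicator u) (U.indicator G) := by
  obtain ⟨hu, hG, φ, hφ, h1, h2⟩ := h
  have m := hU.1.measurableSet
  refine ⟨hu.indicator m, hG.indicator m, fun n => U.indicator (φ n), fun n => (hU.test (hφ n)).1,
    tendsto_of_tendsto_of_tendsto_of_le_of_le tendsto_const_nhds h1 (fun n => zero_le) fun n => ?_,
    tendsto_of_tendsto_of_tendsto_of_le_of_le tendsto_const_nhds h2 (fun n => zero_le) fun n => ?_⟩
  · refine eLpNorm_mono fun x => ?_
    by_cases hx : x ∈ U <;> simp [hx]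
  · refine eLpNorm_mono fun x => ?_
    rw [(hU.test (hφ n)).2]
    by_cases hx : x ∈ U <;> simp [hx]

theorem sub_bdd (hN : 2 ≤ N) (q1 : 1 < q) (q2 : q < 2) (ho : IsOpen Ω)
    (hΩ : Bornology.IsBounded Ω) : ∃ (s : ℝ) (D : DS (volume : Measure (E N)) (HS Ω) s)
      (S : Sub D q), Real' D ∧ S.Ω = Ω := by
  obtain ⟨s, h1, h2⟩ := ex_p hN (q := 2) (by linarith)
  obtain ⟨D, hD⟩ := real_bdd hN h1 h2 hΩ
  exact ⟨s, D, ⟨Ω, ho.measurableSet, hΩ.measure_lt_top, fun h => by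
    rw [hD.eq]
    exact ((hD.to_W (Or.inl rfl) h).zero two_ne_zero).mono fun x hx h1 => (hx h1).1, q1, q2⟩,
    hD, rfl⟩

variable {D : DS (volume : Measure (E N)) (HS Ω) s}

lemma Real'.src (hD : Real' D) {h : HS Ω} {u : E N → ℝ} {G : E N → E N} (r : Rep h u G)
    {f : E N → ℝ} (hf : ∃ g, D.Src g f) (h2 : ∀ ψ, IsTest Ω ψ →
      ∫ x, ⟪G x, gradient ψ x⟫ = ∫ x, f x * ψ x) : D.Src h f := by
  obtain ⟨g, hg⟩ := hf
  have e : h = g := by
    refine ext_inner_right ℝ fun φ => ?_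
    refine eL_dense.induction_on φ (isClosed_eq (by fun_prop) (by fun_prop)) fun ψ => ?_
    refine (r.inner (hD.hP.rep_test ψ)).trans ((h2 _ ψ.2).trans (Eq.trans ?_ (hg _).2.symm))
    refine integral_congr_ae ?_
    filter_upwards [hD.j_eq (hD.hP.rep_test ψ)] with x a2
    rw [a2]
  rwa [e]

namespace Sub

variable (S : Sub D q) (hD : Real' D)
include S hD

lemma eLp_eq {h : HS Ω} {u : E N → ℝ} {G : E N → E N} (r : Rep h u G) :
    eLpNorm u (ENNReal.ofReal q) volume = ENNReal.ofReal (S.m h ^ q⁻¹) := by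
  rw [← eLpNorm_congr_ae (hD.j_eq r), Iso.eLp_eq (D.j h).aestronglyMeasurable S.q0 (S.intq h)]
  rfl

lemma m_eq {h : HS Ω} {u : E N → ℝ} {G : E N → E N} (r : Rep h u G) : S.m h = ∫ x, |u x| ^ q :=
  integral_congr_ae ((hD.j_eq r).mono fun x hx => by simp only [hx])

lemma to_W (h : HS Ω) : W (ENNReal.ofReal q) Ω (J Ω h) h.1 := by
  obtain ⟨C, C0, hC⟩ := S.emb
  have b : ∀ h, eLpNorm (J Ω h) (ENNReal.ofReal q) volume ≤ ENNReal.ofReal (C * ‖h‖) := fun h => by
    refine eLp_le_of_int (Lp.aestronglyMeasurable _) S.q0 (by positivity) ?_ ?_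
    · simpa only [hD.eq, Real.norm_eq_abs] using S.intq h
    · simpa only [hD.eq, Real.norm_eq_abs] using hC h
  obtain ⟨φ, h1, h2⟩ := hD.hP.approx h
  have g : Tendsto (fun n => eLpNorm (fun x => gradient (φ n).1 x - h.1 x) 2 volume) atTop
      (𝓝 0) := by
    have := (Lp.tendsto_Lp_iff_tendsto_eLpNorm' _ _).1 (tendsto_subtype_rng.1 h1)
    refine this.congr fun n => eLpNorm_congr_ae ?_
    filter_upwards [gradL_coe (φ n)] with x a1
    rw [Pi.sub_apply, ← a1]; rfl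
  refine ⟨⟨Lp.aestronglyMeasurable _, (b h).trans_lt ENNReal.ofReal_lt_top⟩, Lp.memLp _,
    fun n => (φ n).1, fun n => (φ n).2, ?_, g⟩
  have t := ENNReal.tendsto_ofReal ((tendsto_iff_norm_sub_tendsto_zero.1 h1).const_mul C)
  rw [mul_zero, ENNReal.ofReal_zero] at t
  refine tendsto_of_tendsto_of_tendsto_of_le_of_le tendsto_const_nhds t (fun n => zero_le)
    fun n => le_of_eq_of_le (eLpNorm_congr_ae ?_) (b (eL Ω (φ n) - h))
  rw [map_sub]
  filter_upwards [Lp.coeFn_sub (J Ω (eL Ω (φ n))) (J Ω h), hD.hP.J_coe (φ n)] with x a1 a2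
  rw [a1, Pi.sub_apply, a2]

lemma one_iff {h : HS Ω} {u : E N → ℝ} {G : E N → E N} (r : Rep h u G) :
    eLpNorm u (ENNReal.ofReal q) volume = 1 ↔ S.m h = 1 := by
  have q0 : q⁻¹ ≠ 0 := inv_ne_zero S.q0.ne'
  rw [S.eLp_eq hD r, ENNReal.ofReal_eq_one]
  refine ⟨fun h1 => Real.rpow_left_injOn q0 (S.m_nonneg _) (zero_le_one' ℝ) (by simpa using h1),
    fun h1 => by rw [h1, Real.one_rpow]⟩

lemma lam_eq : QSpec.lam1 Ω q = S.lam := by
  rw [Sub.lam, QSpec.lam1]
  congr 1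
  ext t
  constructor
  · rintro ⟨u, G, h1, h2, rfl⟩
    obtain ⟨h, r⟩ := hD.hP.of_W (by simpa using S.q0) h1
    exact ⟨h, (S.one_iff hD r).1 h2, r.norm.symm⟩
  · rintro ⟨h, h1, rfl⟩
    exact ⟨_, _, S.to_W hD h, (S.one_iff hD (rep_self h)).2 h1, (rep_self h).norm⟩

lemma isEig {l : ℝ} {u : E N → ℝ} (h : QSpec.IsEig Ω q l u) :
    ∃ k, S.Eig k l ∧ ∃ c, 0 < c ∧ D.j k =ᵐ[volume] fun x => c * u x := by
  obtain ⟨G, h1, h2, h3⟩ := h
  have q0 := S.q0
  obtain ⟨h, r⟩ := hD.hP.of_W (by simpa using q0) h1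
  have a0 : 0 < S.m h := by
    refine lt_of_le_of_ne (S.m_nonneg _) fun h0 => h2 ?_
    rw [← eLpNorm_eq_zero_iff h1.1.1 (by simpa using q0 : ENNReal.ofReal q ≠ 0), S.eLp_eq hD r,
      ← h0, Real.zero_rpow (by positivity), ENNReal.ofReal_zero]
  rw [S.eLp_eq hD r, ENNReal.toReal_ofReal (by positivity)] at h3
  set a := S.m h ^ q⁻¹ with ha
  have a1 : 0 < a := by positivity
  have r' : Rep (a⁻¹ • h) (fun x => a⁻¹ * u x) fun x => a⁻¹ • G x := by
    constructor
    · filter_upwards [Lp.coeFn_smul a⁻¹ h.1, r.1] with x b1 b2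
      rw [← b2]; exact b1
    · rw [map_smul]
      filter_upwards [Lp.coeFn_smul a⁻¹ (J Ω h), r.2] with x b1 b2
      rw [← b2]; exact b1
  have m := D.meas (a⁻¹ • h)
  refine ⟨a⁻¹ • h, ⟨?_, hD.src r' (S.green (A := |l|) (Measurable.aestronglyMeasurable
    (by fun_prop)) m (S.intq _) (abs_nonneg _) (ae_of_all _ fun z => by
      rw [abs_mul, abs_pw S.q1])) fun ψ hψ => ?_⟩, a⁻¹, by positivity, hD.j_eq r'⟩
  · rw [S.m_smul (by positivity), Real.inv_rpow a1.le, ha, ← Real.rpow_mul a0.le,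
      inv_mul_cancel₀ q0.ne', Real.rpow_one, inv_mul_cancel₀ a0.ne']
  · simp only [real_inner_smul_left]
    rw [integral_const_mul, h3 ψ hψ, ← integral_const_mul, ← integral_const_mul]
    refine integral_congr_ae ?_
    filter_upwards [hD.j_eq r'] with x hx
    rw [hx, abs_mul, abs_of_pos (inv_pos.2 a1), Real.mul_rpow (by positivity) (abs_nonneg _),
      Real.inv_rpow a1.le, ← Real.rpow_neg a1.le, neg_sub]
    ring

end Sub

lemma Sub.ext {D : DS (volume : Measure (E N)) (HS U) s} (S : Sub D q) (hD : Real' D) {l : ℝ}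
    {h : HS U} (he : S.Eig h l) (hU : Comp U Ω) : QSpec.IsEig Ω q l (J U h) := by
  have e := (S.one_iff hD (rep_self h)).2 he.one
  have w := S.to_W hD h
  refine ⟨_, w.mono hU.2.1, fun h0 => ?_, fun ψ hψ => ?_⟩
  · rw [eLpNorm_congr_ae h0, eLpNorm_zero] at e
    exact zero_ne_one e
  · obtain ⟨t1, t2⟩ := hU.test hψ
    have r := hD.hP.rep_test ⟨_, t1⟩
    have := ((rep_self h).inner r).symm.trans (he.src _).2
    rw [e, ENNReal.toReal_one, Real.one_rpow, mul_one, ← integral_const_mul]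
    refine Eq.trans (integral_congr_ae ?_) (this.trans (integral_congr_ae ?_))
    · filter_upwards [w.zero (by simpa using S.q0)] with x hx
      simp only [t2]
      by_cases h1 : x ∈ U
      · rw [indicator_of_mem h1]
      · simp [(hx h1).2]
    · filter_upwards [w.zero (by simpa using S.q0), hD.j_eq r] with x hx h2
      rw [h2, hD.eq, mul_assoc l]
      by_cases h1 : x ∈ U
      · simp only [indicator_of_mem h1]
      · simp [(hx h1).1]

end Pool.Agent.H27.Iso
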