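import Pool.Agent.H27.Sub2

/-! Barriers on balls and constant sign of first eigenfunctions. -/

open Set Filter Topology MeasureTheory Metric
open scoped ENNReal RealInnerProductSpace

namespace Pool.Agent.H27.Iso

variable {N : ℕ} {Ω : Set (E N)} {q s : ℝ}

lemma div_id {g : E N → ℝ} (hg : C1 g) (y : E N) :
    Integrable (fun x => fderiv ℝ g x (x - y) + N * g x) ∧
      ∫ x, fderiv ℝ g x (x - y) + N * g x = 0 := by
  have c := hg.cont
  have cD := hg.contD
  let e : Fin N → E N := fun i => EuclideanSpace.single i 1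
  have e1 : ∀ x, fderiv ℝ g x (x - y) + N * g x =
      ∑ i, ((x i - y i) * fderiv ℝ g x (e i) + g x) := fun x => by
    rw [Finset.sum_add_distrib, Finset.sum_const, Finset.card_univ, Fintype.card_fin, nsmul_eq_mul]
    congr 1
    conv_lhs => rw [← (EuclideanSpace.basisFun (Fin N) ℝ).sum_repr (x - y)]
    simp [e]
  have i1 : ∀ i, Integrable fun x : E N => (x i - y i) * fderiv ℝ g x (e i) := fun i =>
    Continuous.integrable_of_hasCompactSupport (by fun_prop)
      (((hg.cs.fderiv ℝ).comp_left (g := fun L : E N →L[ℝ] ℝ => L (e i)) rfl).mul_left)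
  have i2 : Integrable g := c.integrable_of_hasCompactSupport hg.cs
  simp only [e1]
  have i3 : ∀ i, Integrable fun x : E N => (x i - y i) * fderiv ℝ g x (e i) + g x := fun i =>
    (i1 i).add i2
  refine ⟨integrable_finset_sum _ fun i _ => i3 i, ?_⟩
  rw [integral_finset_sum _ fun i _ => i3 i]
  refine Finset.sum_eq_zero fun i _ => ?_
  have d : ∀ x : E N, HasFDerivAt (fun x : E N => x i - y i) (EuclideanSpace.proj i : E N →L[ℝ] ℝ) x :=
    fun x => (EuclideanSpace.proj i : E N →L[ℝ] ℝ).hasFDerivAt.sub_const _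
  have d1 : ∀ x : E N, fderiv ℝ (fun x : E N => x i - y i) x (e i) * g x = g x := fun x => by
    rw [(d x).fderiv]; simp [e]
  rw [integral_add (i1 i) i2, integral_mul_fderiv_eq_neg_fderiv_mul_of_integrable
    (by simpa only [d1] using i2) (i1 i)
    (Continuous.integrable_of_hasCompactSupport (by fun_prop) hg.cs.mul_left)
    (fun x _ => (d x).differentiableAt) fun x _ => hg.diff x]
  simp only [d1, neg_add_cancel]

/-- The defining function of a ball. -/
noncomputable def bs (y : E N) (R : ℝ) (x : E N) : ℝ := R ^ 2 - ‖x - y‖ ^ 2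

lemma bs_smooth (y : E N) (R : ℝ) : ContDiff ℝ (⊤ : ℕ∞) (bs y R) :=
  contDiff_const.sub ((contDiff_norm_sq ℝ).comp (contDiff_id.sub contDiff_const))

lemma bs_pos {y x : E N} {R : ℝ} (hR : 0 < R) : 0 < bs y R x ↔ x ∈ ball y R := by
  rw [bs, sub_pos, mem_ball_iff_norm, pow_lt_pow_iff_left₀ (norm_nonneg _) hR.le two_ne_zero]

lemma bs_le (y x : E N) (R : ℝ) : bs y R x ≤ R ^ 2 := sub_le_self _ (sq_nonneg _)

lemma bs_grad {y x : E N} {R b : ℝ} {β : ℝ → ℝ} (h : HasDerivAt β b (bs y R x)) :
    HasGradientAt (fun x => β (bs y R x)) ((-2 * b) • (x - y)) x := by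
  have := h.comp_hasFDerivAt x (((hasFDerivAt_id x).sub_const y).norm_sq.const_sub (R ^ 2))
  rw [hasGradientAt_iff_hasFDerivAt]
  refine this.congr_fderiv ?_
  ext v; simp; ring

lemma inner_grad (φ : E N → ℝ) (x v : E N) : ⟪v, gradient φ x⟫ = fderiv ℝ φ x v := by
  rw [real_inner_comm, gradient, InnerProductSpace.toDual_symm_apply]

lemma W_bs (y : E N) {R κ : ℝ} (hR : 0 < R) (κ0 : 0 ≤ κ) :
    W 2 (ball y R) ((ball y R).indicator fun x => bs y R x + κ * bs y R x ^ 2)
      ((ball y R).indicator fun x => (-2 * (1 + 2 * κ * bs y R x)) • (x - y)) := by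
  set χ := Real.smoothTransition
  have χs : ContDiff ℝ (⊤ : ℕ∞) χ := Real.smoothTransition.contDiff
  have χd : Continuous (deriv χ) := χs.continuous_deriv (by simp)
  have z1 : ∀ t, 1 < t → deriv χ t = 0 := fun t ht => by
    rw [EventuallyEq.deriv_eq (f := fun _ => 1) ((lt_mem_nhds ht).mono fun a ha =>
      Real.smoothTransition.one_of_one_le ha.le), deriv_const]
  have z0 : ∀ t, t < 0 → deriv χ t = 0 := fun t ht => by
    rw [EventuallyEq.deriv_eq (f := fun _ => 0) ((gt_mem_nhds ht).mono fun a ha =>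
      Real.smoothTransition.zero_of_nonpos ha.le), deriv_const]
  obtain ⟨L, hL⟩ := (isCompact_Icc (a := (1:ℝ)) (b := 2)).exists_bound_of_continuousOn
    (f := fun t => deriv χ (t - 1) * t) (by fun_prop)
  have L0 : 0 ≤ L := (norm_nonneg _).trans (hL 1 (by simp))
  have hL' : ∀ t, |deriv χ (t - 1) * t| ≤ L := fun t => by
    by_cases h : t ∈ Icc (1:ℝ) 2
    · exact hL t h
    · rw [mem_Icc, not_and_or, not_le, not_le] at h
      rcases h with h | h
      · rwa [z0 _ (by linarith), zero_mul, abs_zero]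
      · rwa [z1 _ (by linarith), zero_mul, abs_zero]
  have sc := (bs_smooth y R).continuous
  let φ : ℕ → E N → ℝ := fun n x => χ (n * bs y R x - 1) * (bs y R x + κ * bs y R x ^ 2)
  have t : ∀ n, IsTest (ball y R) (φ n) := fun n => by
    have a : tsupport (φ n) ⊆ ball y R := (closure_minimal (t := {x | 1 ≤ n * bs y R x})
      (fun x hx => by
        by_contra hc
        exact hx (by simp only [φ, χ]; rw [Real.smoothTransition.zero_of_nonpos (by
          simp only [mem_setOf_eq, not_le] at hc; linarith), zero_mul]))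
      (isClosed_le continuous_const (by fun_prop))).trans fun x hx => (bs_pos hR).1
        (pos_of_mul_pos_right (lt_of_lt_of_le one_pos hx) n.cast_nonneg)
    exact ⟨(χs.comp ((contDiff_const.mul (bs_smooth y R)).sub contDiff_const)).mul
      ((bs_smooth y R).add (contDiff_const.mul ((bs_smooth y R).pow 2))),
      (isCompact_closedBall y R).of_isClosed_subset isClosed_closure
        (a.trans ball_subset_closedBall), a⟩
  have g : ∀ n x, gradient (φ n) x = (-2 * (deriv χ (n * bs y R x - 1) * (n * bs y R x) *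
      (1 + κ * bs y R x) + χ (n * bs y R x - 1) * (1 + 2 * κ * bs y R x))) • (x - y) := fun n x => by
    refine (bs_grad (β := fun t => χ (n * t - 1) * (t + κ * t ^ 2)) ?_).gradient
    refine ((((χs.differentiable (by simp) _).hasDerivAt).comp (bs y R x)
      (((hasDerivAt_id _).const_mul (n:ℝ)).sub_const 1)).mul ((hasDerivAt_id _).add
        (((hasDerivAt_id _).pow 2).const_mul κ))).congr_deriv ?_
    simp; ring
  have mb := measurableSet_ball (x := y) (ε := R)
  have ev : ∀ x ∈ ball y R, ∀ᶠ n : ℕ in atTop, 1 < n * bs y R x - 1 := fun x hx =>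
    ((tendsto_natCast_atTop_atTop.atTop_mul_const ((bs_pos hR).2 hx)).eventually_gt_atTop 2).mono
      fun n hn => by linarith
  have mem : ∀ {F : Type} [NormedAddCommGroup F] {f : E N → F}, Continuous f →
      MemLp ((ball y R).indicator f) 2 volume := fun {F} _ {f} hf => by
    rw [memLp_indicator_iff_restrict mb]
    obtain ⟨C, hC⟩ := (isCompact_closedBall y R).exists_bound_of_continuousOn hf.continuousOn
    have : Fact (volume (ball y R) < ∞) := ⟨measure_ball_lt_top⟩
    exact MemLp.of_bound hf.aestronglyMeasurable C ((ae_restrict_mem mb).mono fun x hx =>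
      hC x (ball_subset_closedBall hx))
  have m1 := mem (f := fun x => bs y R x + κ * bs y R x ^ 2) (by fun_prop)
  have m2 := mem (f := fun x => (-2 * (1 + 2 * κ * bs y R x)) • (x - y)) (by fun_prop)
  have χ1 : ∀ t, |χ t - 1| ≤ 1 := fun t => abs_le.2 ⟨by
    linarith [Real.smoothTransition.nonneg t], by linarith [Real.smoothTransition.le_one t]⟩
  refine ⟨m1, m2, φ, t, dct2 (C := R ^ 2 + κ * (R ^ 2) ^ 2)
    (fun n => (t n).c1.cont.aestronglyMeasurable.sub m1.1) mb measure_ball_lt_top (fun n x => ?_)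
    (fun n x hx => by simp [hx, ((t n).zero hx).1]) fun x hx => ?_,
    dct2 (C := 2 * (L * (1 + κ * R ^ 2) + (1 + 2 * κ * R ^ 2)) * R)
    (fun n => (t n).c1.contG.aestronglyMeasurable.sub m2.1) mb measure_ball_lt_top (fun n x => ?_)
    (fun n x hx => by simp [hx, ((t n).zero hx).2]) fun x hx => ?_⟩
  · by_cases hx : x ∈ ball y R
    · have a1 := (bs_pos hR).2 hx
      have a2 := bs_le y x R
      rw [indicator_of_mem hx, ← sub_one_mul, norm_mul, Real.norm_of_nonneg (r := _ + _)
        (by positivity)]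
      refine (mul_le_of_le_one_left (by positivity) (χ1 _)).trans (by gcongr)
    · simp only [indicator_of_notMem hx, ((t n).zero hx).1, sub_zero, norm_zero]; positivity
  · filter_upwards [ev x hx] with n hn
    simp only [φ, χ, indicator_of_mem hx, Real.smoothTransition.one_of_one_le hn.le, one_mul,
      sub_self]
  · by_cases hx : x ∈ ball y R
    · have a1 := (bs_pos hR).2 hx
      have a2 := bs_le y x R
      rw [indicator_of_mem hx, g, ← sub_smul, norm_smul, ← mul_sub, norm_mul, add_sub_assoc,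
        ← sub_one_mul, norm_neg, Real.norm_two]
      refine mul_le_mul (mul_le_mul_of_nonneg_left ((norm_add_le _ _).trans (add_le_add ?_ ?_))
        zero_le_two) (mem_ball_iff_norm.1 hx).le (norm_nonneg _) (by positivity)
      · rw [norm_mul, Real.norm_of_nonneg (r := _ + _) (by positivity)]
        exact mul_le_mul (hL' _) (by gcongr) (by positivity) L0
      · rw [norm_mul, Real.norm_of_nonneg (r := _ + _) (by positivity)]
        exact (mul_le_of_le_one_left (by positivity) (χ1 _)).trans (by gcongr)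
    · simp only [indicator_of_notMem hx, ((t n).zero hx).2, sub_zero, norm_zero]; positivity
  · filter_upwards [ev x hx] with n hn
    simp only [g, χ, indicator_of_mem hx, Real.smoothTransition.one_of_one_le hn.le, one_mul,
      z1 _ hn, zero_mul, zero_add, sub_self]

variable {D : DS (volume : Measure (E N)) (HS Ω) s}

lemma Sub.barrier (S : Sub D q) (hD : Real' D) {y : E N} {R κ : ℝ} (hR : 0 < R) (κ0 : 0 ≤ κ)
    (hU : Comp (ball y R) Ω) : ∃ h, (D.j h =ᵐ[volume] (ball y R).indicator fun x =>
      bs y R x + κ * bs y R x ^ 2) ∧ D.Src h ((ball y R).indicator fun x =>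
        2 * N * (1 + 2 * κ * bs y R x) - 8 * κ * (R ^ 2 - bs y R x)) := by
  obtain ⟨h, r⟩ := hD.hP.of_W two_ne_zero ((W_bs y hR κ0).mono hU.2.1)
  have sc := (bs_smooth y R).continuous
  have mb := measurableSet_ball (x := y) (ε := R)
  have fc : Continuous fun x => 2 * N * (1 + 2 * κ * bs y R x) - 8 * κ * (R ^ 2 - bs y R x) := by
    fun_prop
  obtain ⟨C, hC⟩ := (isCompact_closedBall y R).exists_bound_of_continuousOn fc.continuousOn
  refine ⟨h, hD.j_eq r, hD.src r (S.green (g := (ball y R).indicator 1) (A := |C|)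
    (fc.aestronglyMeasurable.indicator mb) (measurable_one.indicator mb) ?_ (abs_nonneg _)
    (ae_of_all _ fun x => ?_)) fun ψ hψ => ?_⟩
  · refine ((integrable_indicator_iff mb).2 (integrableOn_const (C := (1:ℝ))
      measure_ball_lt_top.ne)).congr (ae_of_all _ fun x => ?_)
    by_cases hx : x ∈ ball y R <;> simp [hx, S.q0.ne']
  · by_cases hx : x ∈ ball y R
    · simpa [hx] using (hC x (ball_subset_closedBall hx)).trans (le_abs_self C)
    · simp only [indicator_of_notMem hx, abs_zero]; positivity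
  · obtain ⟨t1, t2⟩ := hU.test hψ
    set φ := (ball y R).indicator ψ with hφ
    obtain ⟨d1, d2⟩ := div_id (t1.c1.mul (η := fun x => 1 + 2 * κ * bs y R x)
      (contDiff_const.add (contDiff_const.mul (bs_smooth y R)))) y
    have i : Integrable fun x =>
        (2 * N * (1 + 2 * κ * bs y R x) - 8 * κ * (R ^ 2 - bs y R x)) * φ x :=
      (fc.mul t1.c1.cont).integrable_of_hasCompactSupport t1.2.1.mul_left
    have := integral_sub i (d1.const_mul 2)
    rw [integral_const_mul, d2, mul_zero, sub_zero] at this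
    refine Eq.trans (integral_congr_ae (ae_of_all _ fun x => ?_)) (this.trans
      (integral_congr_ae (ae_of_all _ fun x => ?_)))
    · have a1 := (bs_grad (y := y) (x := x) (R := R) (β := fun t => 1 + 2 * κ * t) (b := 2 * κ)
        (by simpa using ((hasDerivAt_id (bs y R x)).const_mul (2 * κ)).const_add 1)).hasFDerivAt
      have a2 : ⟪(ball y R).indicator (fun x => (-2 * (1 + 2 * κ * bs y R x)) • (x - y)) x,
          gradient ψ x⟫ = ⟪(-2 * (1 + 2 * κ * bs y R x)) • (x - y), gradient φ x⟫ := by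
        rw [t2]
        by_cases hx : x ∈ ball y R <;> simp [hx]
      simp only
      rw [a2, real_inner_smul_left, inner_grad, (a1.fun_mul (t1.c1.diff x).hasFDerivAt).fderiv]
      simp only [ContinuousLinearMap.add_apply, ContinuousLinearMap.smul_apply, smul_eq_mul,
        InnerProductSpace.toDual_apply_apply, real_inner_smul_left, real_inner_self_eq_norm_sq, bs]
      ring
    · by_cases hx : x ∈ ball y R <;> simp [hx, hφ]

lemma Sub.Eig.hopf {S : Sub D q} (hD : Real' D) {y : E N} {R : ℝ} (hR : 0 < R)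
    (hU : Comp (ball y R) Ω) {u : HS Ω} (hu : S.Eig u S.lam) (u0 : ∀ᵐ x, 0 ≤ D.j u x) :
    ∃ t, 0 < t ∧ ∀ᵐ x, x ∈ ball y R → t * bs y R x ≤ D.j u x := by
  have l0 := S.lam_pos hu.one
  have q1 := S.q1
  have q2 := S.q2
  set κ : ℝ := N / (4 * R ^ 2) with hκ
  have κ0 : 0 ≤ κ := by positivity
  obtain ⟨h, h1, h2⟩ := S.barrier hD hR κ0 hU
  obtain ⟨t, ht, t0⟩ : ∃ t : ℝ, (4 * N + 8) * κ * (t * R ^ 2) ^ (2 - q) ≤ S.lam ∧ 0 < t := by
    have c : Continuous fun t : ℝ => (4 * N + 8) * κ * (t * R ^ 2) ^ (2 - q) :=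
      continuous_const.mul (Continuous.rpow_const (by fun_prop) fun _ => Or.inr (by linarith))
    have := (c.tendsto 0).mono_left (nhdsWithin_le_nhds (s := Ioi 0))
    rw [zero_mul, Real.zero_rpow (by linarith), mul_zero] at this
    exact ((this.eventually_le_const l0).and self_mem_nhdsWithin).exists
  have := hu.sub_le u0 (h2.smul t) (by
    filter_upwards [h1, D.j_smul t h] with x a1 a2 _
    rw [a2, a1]
    by_cases hx : x ∈ ball y R
    · have a3 := (bs_pos hR).2 hx
      have a4 := bs_le y x R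
      simp only [indicator_of_mem hx]
      generalize bs y R x = b at a3 a4
      have e : t * (2 * N * (1 + 2 * κ * b) - 8 * κ * (R ^ 2 - b)) =
          (4 * N + 8) * κ * (t * b) ^ (2 - q) * (t * b) ^ (q - 1) := by
        rw [mul_assoc _ _ ((t * b) ^ (q - 1)), ← Real.rpow_add (by positivity),
          show 2 - q + (q - 1) = 1 by ring, Real.rpow_one, hκ]
        field_simp; ring
      rw [e]
      refine mul_le_mul (le_trans ?_ ht) ?_ (by positivity) l0.le
      · gcongr
      · have : 0 ≤ κ * b ^ 2 := by positivity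
        gcongr <;> linarith
    · simp only [indicator_of_notMem hx, mul_zero]; positivity)
  refine ⟨t, t0, ?_⟩
  filter_upwards [this, h1, D.j_smul t h] with x a1 a2 a3 hx
  rw [a3, a2, indicator_of_mem hx] at a1
  have : 0 ≤ t * (κ * bs y R x ^ 2) := by positivity
  linarith

lemma Poin.transl (hP : Poin Ω) (h : HS Ω) (z : E N) :
    Integrable (fun x => (J Ω h (x + z) - J Ω h x) ^ 2) ∧
      ∫ x, (J Ω h (x + z) - J Ω h x) ^ 2 ≤ ‖z‖ ^ 2 * ‖h‖ ^ 2 := by
  have mp := measurePreserving_add_right (volume : Measure (E N)) z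
  let T := Lp.compMeasurePreservingₗᵢ (E := ℝ) (p := 2) ℝ (· + z) mp
  have e : ∀ v : Lp ℝ 2 (volume : Measure (E N)), (T v - v : Lp ℝ 2 volume) =ᵐ[volume]
      fun x => v (x + z) - v x := fun v => by
    filter_upwards [Lp.coeFn_sub (T v) v, Lp.coeFn_compMeasurePreserving v mp] with x a1 a2
    rw [a1, Pi.sub_apply]; congr 1
  have e2 : ∀ v : Lp ℝ 2 (volume : Measure (E N)), ‖T v - v‖ ^ 2 = ∫ x, (v (x + z) - v x) ^ 2 :=
    fun v => by rw [L2_sq _ (e v)]; simp
  refine ⟨by simpa using ((memLp_congr_ae (e _)).1 (Lp.memLp _)).integrable_norm_pow two_ne_zero,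
    ?_⟩
  rw [← e2]
  refine eL_dense.induction_on h (isClosed_le (by fun_prop) (by fun_prop)) fun φ => ?_
  have c := Test.c1 φ
  have e3 : (fun x => (J Ω (eL Ω φ) (x + z) - J Ω (eL Ω φ) x) ^ 2) =ᵐ[volume]
      fun x => (φ.1 (x + z) - φ.1 x) ^ 2 := by
    filter_upwards [hP.J_coe φ, mp.quasiMeasurePreserving.ae (hP.J_coe φ)] with x a1 a2
    rw [a1, a2]
  have i : Integrable fun x => (φ.1 (x + z) - φ.1 x) ^ 2 := Integrable.congr (by
    simpa using ((memLp_congr_ae (e _)).1 (Lp.memLp _)).integrable_norm_pow two_ne_zero) e3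
  have := Iso.transl c z
  rwa [← ofReal_integral_eq_lintegral_ofReal i (ae_of_all _ fun x => sq_nonneg _),
    ENNReal.ofReal_le_ofReal_iff (mul_nonneg (sq_nonneg _) (En_nonneg _)), ← eL_sq,
    ← integral_congr_ae e3, ← e2] at this

lemma step_sum {a : ℕ → ℝ} {c : ℝ} {k : ℕ} (c0 : 0 ≤ c) (h0 : 0 < a 0) (hk : a k < 0)
    (h : ∀ i ≤ k, c ≤ |a i|) : c ^ 2 ≤ ∑ i ∈ Finset.range k, (a (i + 1) - a i) ^ 2 := by
  have : ∃ i < k, 0 < a i ∧ a (i + 1) ≤ 0 := by
    by_contra hc
    push Not at hc
    have : ∀ i ≤ k, 0 < a i := fun i => by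
      induction i with
      | zero => exact fun _ => h0
      | succ i ih => exact fun hi => hc i hi (ih (by omega))
    linarith [this k le_rfl]
  obtain ⟨i, h1, h2, h3⟩ := this
  refine le_trans ?_ (Finset.single_le_sum (f := fun i => (a (i + 1) - a i) ^ 2)
    (fun _ _ => sq_nonneg _) (Finset.mem_range.2 h1))
  have := h i h1.le
  rw [abs_of_pos h2] at this
  nlinarith

lemma Poin.sign (hP : Poin Ω) (h : HS Ω) {y : E N} {R t : ℝ} (hR : 0 < R) (t0 : 0 < t)
    (hl : ∀ᵐ x, x ∈ ball y R → t * bs y R x ≤ |J Ω h x|) :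
    (∀ᵐ x, x ∈ ball y R → J Ω h x ≤ 0) ∨ ∀ᵐ x, x ∈ ball y R → 0 ≤ J Ω h x := by
  have tr := hP.transl h
  have vm : Measurable (J Ω h) := (Lp.stronglyMeasurable _).measurable
  generalize (J Ω h : E N → ℝ) = v at *
  let A : Set (E N × E N) := {p | (p.2 ∈ ball y R ∧ 0 < v p.2) ∧ p.2 + p.1 ∈ ball y R ∧
    v (p.2 + p.1) < 0}
  have ma : Measurable fun p : E N × E N => p.2 + p.1 := by fun_prop
  have Am : MeasurableSet A :=
    ((measurableSet_ball.preimage measurable_snd).inter (measurableSet_lt measurable_const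
      (vm.comp measurable_snd))).inter ((measurableSet_ball.preimage ma).inter
        (measurableSet_lt (vm.comp ma) measurable_const))
  have key : ∀ z, ∀ᵐ x, (z, x) ∉ A := fun z => by
    let c : E N → ℝ := fun x => t * (R ^ 2 - max ‖x - y‖ ‖x + z - y‖ ^ 2)
    have c0 : ∀ x, (z, x) ∈ A → 0 < c x := fun x hx => mul_pos t0 (sub_pos.2 (pow_lt_pow_left₀
      (max_lt (mem_ball_iff_norm.1 hx.1.1) (mem_ball_iff_norm.1 hx.2.1)) (by positivity)
      two_ne_zero))
    let Φ : E N → ℝ := (Prod.mk z ⁻¹' A).indicator fun x => c x ^ 2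
    have Φ0 : ∀ x, 0 ≤ Φ x := fun x => indicator_nonneg (fun _ _ => sq_nonneg _) _
    have b : ∀ k : ℕ, 0 < k → Integrable Φ ∧ ∫ x, Φ x ≤ ‖z‖ ^ 2 * ‖h‖ ^ 2 / k := fun k hk => by
      have k0 : (0:ℝ) < k := by exact_mod_cast hk
      let w : E N := (k:ℝ)⁻¹ • z
      have i := fun i : ℕ => (tr w).1.comp_add_right ((i:ℝ) • w)
      have i2 := integrable_finset_sum (Finset.range k) fun j _ => i j
      have le : ∀ᵐ x, Φ x ≤ ∑ i ∈ Finset.range k, (v (x + (i:ℝ) • w + w) - v (x + (i:ℝ) • w)) ^ 2 := by
        filter_upwards [ae_all_iff.2 fun i : ℕ => (measurePreserving_add_right volume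
          ((i:ℝ) • w)).quasiMeasurePreserving.ae hl] with x hx
        by_cases hA : (z, x) ∈ A
        · have := step_sum (a := fun i => v (x + (i:ℝ) • w)) (k := k) (c0 x hA).le
            (by simpa using hA.1.2) (by simpa [w, smul_smul, k0.ne'] using hA.2.2) fun i hi => by
              have a1 : x + (i:ℝ) • w ∈ closedBall y (max ‖x - y‖ ‖x + z - y‖) := by
                simp only [w, smul_smul]
                exact (convex_closedBall _ _).add_smul_mem (mem_closedBall_iff_norm.2
                  (le_max_left _ _)) (mem_closedBall_iff_norm.2 (le_max_right _ _))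
                  ⟨by positivity, by
                    rw [mul_inv_le_iff₀ k0, one_mul]; exact_mod_cast hi⟩
              refine le_trans (mul_le_mul_of_nonneg_left (sub_le_sub_left (pow_le_pow_left₀
                (norm_nonneg _) (mem_closedBall_iff_norm.1 a1) 2) _) t0.le) (hx i ?_)
              exact closedBall_subset_ball (max_lt (mem_ball_iff_norm.1 hA.1.1)
                (mem_ball_iff_norm.1 hA.2.1)) a1
          simp only [Nat.cast_add, Nat.cast_one, add_smul, one_smul, ← add_assoc] at this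
          exact (indicator_of_mem (s := Prod.mk z ⁻¹' A) hA _).trans_le this
        · exact (indicator_of_notMem (s := Prod.mk z ⁻¹' A) hA _).trans_le
            (Finset.sum_nonneg fun _ _ => sq_nonneg _)
      have i3 : Integrable Φ := i2.mono' ((Continuous.aestronglyMeasurable (by fun_prop)).indicator
        (Am.preimage measurable_prodMk_left)) (le.mono fun x hx => by
          rwa [Real.norm_of_nonneg (Φ0 x)])
      refine ⟨i3, (integral_mono_ae i3 i2 le).trans ?_⟩
      rw [integral_finset_sum _ fun j _ => i j]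
      simp only [fun i : ℕ => integral_add_right_eq_self (μ := volume)
        (fun x => (v (x + w) - v x) ^ 2) ((i:ℝ) • w)]
      rw [Finset.sum_const, Finset.card_range, nsmul_eq_mul]
      refine (mul_le_mul_of_nonneg_left (tr w).2 k0.le).trans (le_of_eq ?_)
      simp only [w, norm_smul, norm_inv, Real.norm_of_nonneg k0.le]
      field_simp
    have z0 := (integral_eq_zero_iff_of_nonneg Φ0 (b 1 one_pos).1).1 (le_antisymm
      (ge_of_tendsto (tendsto_const_div_atTop_nhds_zero_nat _)
        ((eventually_gt_atTop 0).mono fun k hk => (b k hk).2)) (integral_nonneg Φ0))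
    filter_upwards [z0] with x hx hA
    exact (pow_pos (c0 x hA) 2).ne' ((indicator_of_mem (s := Prod.mk z ⁻¹' A) hA _).symm.trans hx)
  have sw := (Measure.ae_ae_comm (μ := volume) (ν := volume) (p := fun z x => (z, x) ∉ A)
    Am.compl).1 (ae_of_all _ key)
  by_contra hc
  rw [not_or] at hc
  obtain ⟨x, h1, h2⟩ := (Eventually.and_frequently sw (not_eventually.1 hc.1)).exists
  push Not at h2
  refine hc.2 ?_
  filter_upwards [(measurePreserving_sub_right volume x).quasiMeasurePreserving.ae h1] with z hz hb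
  by_contra hn
  exact hz ⟨h2, by simpa using hb, by simpa using hn⟩

end Pool.Agent.H27.Iso
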