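import Pool.Agent.H27.Sub3

/-! A big and a tiny ball: the second eigenvalue lies below the second min-max value. -/

open Set Filter Topology MeasureTheory Metric
open scoped ENNReal RealInnerProductSpace

namespace Pool.Agent.H27.Iso

variable {N : ℕ} {Ω : Set (E N)} {q s : ℝ}

lemma comp_self (h : IsOpen Ω) : Comp Ω Ω := ⟨h, Subset.rfl, ∅, isOpen_empty, by simp, by simp⟩

lemma gap_ball (hN : 2 ≤ N) (q1 : 1 < q) (q2 : q < 2) (y : E N) {R : ℝ} (hR : 0 < R) :
    ∃ a ν, 0 < a ∧ a < ν ∧ (∃ u : E N → ℝ, (∀ᵐ x, x ∉ ball y R → u x = 0) ∧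
      ∀ Ω, Comp (ball y R) Ω → QSpec.IsEig Ω q a u) ∧ ∀ u G, W (ENNReal.ofReal q) (ball y R) u G →
      ∫ x, max (u x) 0 ^ q = ∫ x, max (-u x) 0 ^ q →
        ν * (∫ x, |u x| ^ q) ^ (2 / q) ≤ ∫ x, ‖G x‖ ^ 2 := by
  obtain ⟨s, D, S, hD, hS⟩ := sub_bdd hN q1 q2 isOpen_ball (isBounded_ball (x := y) (r := R))
  have q0 := S.q0
  obtain ⟨φ, φ1, φ2⟩ := ex_test q0 y hR
  obtain ⟨u, hu, u0⟩ := S.first ((S.m_eq hD (hD.hP.rep_test ⟨φ, φ1⟩)).trans φ2)
  obtain ⟨t, t0, ht⟩ := hu.hopf hD hR (comp_self isOpen_ball) u0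
  have key : ∀ h, S.Eig h S.lam → (∀ᵐ x, x ∈ ball y R → D.j h x ≤ 0) → S.mp h ≠ S.mp (-h) :=
    fun h hh h0 => by
      have a : ∀ᵐ x, D.j h x ≤ 0 := by
        filter_upwards [h0, S.zero h] with x a1 a2
        by_cases hx : x ∈ ball y R
        exacts [a1 hx, (a2 (by rwa [hS])).le]
      have a1 : S.mp h = 0 := (integral_congr_ae (a.mono fun x hx => by
        simp only [max_eq_right hx, Real.zero_rpow q0.ne'])).trans (integral_zero _ _)
      have a2 : S.mp (-h) = 1 := (integral_congr_ae (by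
        filter_upwards [a, D.j_neg h] with x b1 b2
        rw [b2, max_eq_left (by linarith), abs_of_nonpos b1])).trans hh.one
      rw [a1, a2]; exact zero_ne_one
  obtain ⟨ν, h1, h2⟩ := S.gap fun h hh => by
    rcases hD.hP.sign h hR t0 (by
      filter_upwards [ht, hu.abs_eq u0 hh] with x a1 a2 hx
      rw [← hD.eq, a2]; exact a1 hx) with h3 | h3
    · exact key h hh (by rwa [hD.eq])
    · have := key _ hh.neg (by
        filter_upwards [h3, D.j_neg h] with x a1 a2 hx
        rw [a2, hD.eq]; linarith [a1 hx])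
      rw [neg_neg] at this
      exact this.symm
  refine ⟨_, ν, S.lam_pos hu.one, h1, ⟨J _ u, by simpa only [hS, hD.eq] using S.zero u,
    fun Ω hΩ => S.ext hD hu hΩ⟩, fun v G hv e => ?_⟩
  obtain ⟨h, r⟩ := hD.hP.of_W (by simpa using q0) hv
  rw [← r.norm, ← S.m_eq hD r]
  refine h2 h ((integral_congr_ae ?_).trans (e.trans (integral_congr_ae ?_)))
  · filter_upwards [hD.j_eq r] with x hx
    rw [hx]
  · filter_upwards [hD.j_eq r, D.j_neg h] with x hx h3
    rw [h3, hx]

lemma mass_small' (hN : 2 ≤ N) (q1 : 1 < q) (q2 : q < 2) (hΩ : Bornology.IsBounded Ω) {σ : ℝ}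
    (σ0 : 0 < σ) : ∀ᶠ R in 𝓝[>] (0:ℝ), ∀ u G, W (ENNReal.ofReal q) Ω u G → ∀ y,
      ∫ x in ball y R, |u x| ^ q ≤ σ * (∫ x, ‖G x‖ ^ 2) ^ (q / 2) := by
  obtain ⟨p, h1, h2⟩ := ex_p hN (q := 2) (by linarith)
  obtain ⟨D, hD⟩ := real_bdd hN h1 h2 hΩ
  have C0 := D.hC
  have q0 : 0 < q := by linarith
  have p0 : 0 < p := by linarith
  have e0 : 0 < 1 - q / p := by rw [sub_pos, div_lt_one p0]; linarith
  have n0 : N ≠ 0 := by omega
  have tt : Tendsto (fun t : ℝ => D.C ^ q * (t ^ N * volume.real (ball (0 : E N) 1)) ^ (1 - q / p))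
      (𝓝[>] 0) (𝓝 0) := by
    have c : Continuous fun t : ℝ =>
        D.C ^ q * (t ^ N * volume.real (ball (0 : E N) 1)) ^ (1 - q / p) :=
      continuous_const.mul (Continuous.rpow_const (by fun_prop) fun _ => Or.inr e0.le)
    simpa [e0.ne', n0] using (c.tendsto 0).mono_left
      (nhdsWithin_le_nhds (s := Ioi 0))
  filter_upwards [tt.eventually_le_const σ0, self_mem_nhdsWithin] with R h1 R0 u G hu y
  obtain ⟨h, r⟩ := hD.hP.of_W (by simpa using q0) hu
  have a2 := (holder_set (μ := volume.restrict (ball y R)) (w := fun x => |D.j h x|) q0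
    (by linarith : q < p) (D.meas h).abs (ae_of_all _ fun x => abs_nonneg _) (D.intq h).restrict
    MeasurableSet.univ (by simpa using measure_ball_lt_top) (ae_of_all _ fun x hx => by
      simp at hx)).2
  have a3 : (∫ x in ball y R, |D.j h x| ^ p) ^ (q / p) ≤ D.C ^ q * (‖h‖ ^ 2) ^ (q / 2) := by
    refine (Real.rpow_le_rpow (integral_nonneg fun x => by positivity) ((setIntegral_le_integral
      (D.intq h) (ae_of_all _ fun x => by positivity)).trans (D.embq h)) (by positivity)).trans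
      (le_of_eq ?_)
    rw [← Real.rpow_mul (by positivity), mul_div_cancel₀ _ p0.ne', Real.mul_rpow C0.le
      (norm_nonneg _), ← Real.rpow_two, ← Real.rpow_mul (norm_nonneg _)]
    congr 2; ring
  simp only [MeasurableSet.univ, measureReal_restrict_apply, univ_inter, ball_real y R0] at a2
  have a5 := ball1_pos (N := N)
  have R0' : 0 < R := R0
  rw [← r.norm]
  calc _ = ∫ x in ball y R, |D.j h x| ^ q :=
        integral_congr_ae (ae_restrict_of_ae ((hD.j_eq r).mono fun x hx => by simp only [hx]))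
    _ ≤ _ := a2
    _ ≤ D.C ^ q * (‖h‖ ^ 2) ^ (q / 2) * (R ^ N * volume.real (ball (0 : E N) 1)) ^ (1 - q / p) := by
      gcongr
    _ = D.C ^ q * (R ^ N * volume.real (ball (0 : E N) 1)) ^ (1 - q / p) * (‖h‖ ^ 2) ^ (q / 2) := by
      ring
    _ ≤ _ := by gcongr

variable {D : DS (volume : Measure (E N)) (HS Ω) s}

lemma Sub.ls_low (S : Sub D q) (hD : Real' D) {h1 h2 : HS Ω}
    (hi : ∀ p : ℝ × ℝ, S.m (p.1 • h1 + p.2 • h2) = 0 → p = 0) {g : HS Ω → ℝ} (gc : Continuous g)
    (go : ∀ h, g (-h) = -g h) {c : ℝ} (hc : ∀ h, S.m h = 1 → g h = 0 → c ≤ ‖h‖ ^ 2) :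
    c ≤ QSpec.lamLS Ω q 2 := by
  have q0 := S.q0
  refine le_csInf ?_ ?_
  · let γ : ℝ × ℝ → HS Ω := fun p => p.1 • h1 + p.2 • h2
    have γc : Continuous γ := by fun_prop
    have γn : ∀ p, γ (-p) = -γ p := fun p => by simp [γ, add_comm]
    have mn : ∀ h, S.m (-h) = S.m h := fun h =>
      integral_congr_ae ((D.j_neg h).mono fun z hz => by simp only [hz, abs_neg])
    have pos : ∀ p ∈ sphere (0 : ℝ × ℝ) 1, 0 < S.m (γ p) := fun p hp =>
      lt_of_le_of_ne (S.m_nonneg _) fun h => by simp [hi p h.symm] at hp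
    let Γ : ℝ × ℝ → Lp (E N) 2 (volume : Measure (E N)) := fun p => (S.m (γ p) ^ (-1 / q) • γ p).1
    have Γc : ContinuousOn Γ (sphere 0 1) := continuous_subtype_val.comp_continuousOn
      (((S.m_cont.comp γc).continuousOn.rpow_const fun p hp => Or.inl (pos p hp).ne').smul
        γc.continuousOn)
    have Γn : ∀ p, Γ (-p) = -Γ p := fun p => by simp only [Γ, γn, mn, smul_neg]; rfl
    have K := (isCompact_sphere (0 : ℝ × ℝ) 1).image_of_continuousOn Γc
    have p0 : ((1:ℝ), (0:ℝ)) ∈ sphere (0 : ℝ × ℝ) 1 := by simp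
    obtain ⟨t, ht⟩ := (K.image (f := fun G => ‖G‖ ^ 2) (by fun_prop)).exists_isGreatest
      ⟨_, _, ⟨_, p0, rfl⟩, rfl⟩
    refine ⟨t, _, ?_, K, ?_, le_sInf ?_, ht⟩
    · rintro _ ⟨p, hp, rfl⟩
      refine ⟨_, S.to_W hD _, (S.one_iff hD (rep_self _)).2 ?_⟩
      rw [S.m_smul (by have := pos p hp; positivity), ← Real.rpow_mul (pos p hp).le,
        div_mul_cancel₀ _ q0.ne', Real.rpow_neg_one, inv_mul_cancel₀ (pos p hp).ne']
    · ext G
      constructor
      · rintro ⟨p, hp, rfl⟩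
        exact ⟨-p, by simpa using hp, Γn p⟩
      · rintro ⟨p, hp, e⟩
        exact ⟨-p, by simpa using hp, by rw [Γn, e, neg_neg]⟩
    · rintro _ ⟨m, rfl, hm, f, fc, hf⟩
      rcases hm.eq_or_lt with rfl | hm
      · exfalso
        have cn := (isConnected_sphere (E := ℝ × ℝ) (by simp [one_add_one_eq_two]) 0
          zero_le_one).isPreconnected.image Γ Γc
        have m1 : Γ (1, 0) ∈ Γ '' sphere 0 1 := ⟨_, p0, rfl⟩
        have m2 : -Γ (1, 0) ∈ Γ '' sphere 0 1 := ⟨-(1, 0), by simp, Γn _⟩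
        have fc' : ContinuousOn (fun G => f G 0) (Γ '' sphere 0 1) := by fun_prop
        have e : f (-Γ (1, 0)) 0 = -f (Γ (1, 0)) 0 := by rw [(hf _ m1).2]; rfl
        have : ∃ G ∈ Γ '' sphere 0 1, f G 0 = 0 := by
          rcases le_total (f (Γ (1, 0)) 0) 0 with h | h
          · exact cn.intermediate_value m1 m2 fc' ⟨h, by simp only [e]; linarith⟩
          · exact cn.intermediate_value m2 m1 fc' ⟨by simp only [e]; linarith, h⟩
        obtain ⟨G, hG, h0⟩ := this
        have := (hf G hG).1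
        rw [EuclideanSpace.norm_eq] at this
        simp [h0] at this
      · exact_mod_cast hm
  · rintro t ⟨F, f1, -, -, f4, f5⟩
    let P := (HS Ω).orthogonalProjectionOnto
    by_cases hz : ∃ G ∈ F, g (P G) = 0
    · obtain ⟨G, hG, hz⟩ := hz
      obtain ⟨u, u1, u2⟩ := f1 hG
      obtain ⟨h, r⟩ := hD.hP.of_W (by simpa using q0) u1
      have e : P G = h := by
        rw [← Lp.ext r.1]; exact Submodule.orthogonalProjectionOnto_mem_subspace_eq_self h
      rw [e] at hz
      refine (hc h ((S.one_iff hD r).1 u2) hz).trans (f5.2 ⟨G, hG, ?_⟩)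
      rw [← Lp.ext r.1]; rfl
    · push Not at hz
      have gc := gc.comp P.continuous
      have : QSpec.genus F ≤ (1:ℕ) := sInf_le ⟨1, rfl, le_rfl,
        fun G => (g (P G) / |g (P G)|) • EuclideanSpace.single (0 : Fin 1) (1:ℝ),
        (gc.continuousOn.div gc.abs.continuousOn fun G hG => abs_ne_zero.2 (hz G hG)).smul
          continuousOn_const, fun G hG => ⟨by
            simp [norm_smul, hz G hG], by simp [go, neg_div]⟩⟩
      have := f4.trans this
      norm_cast at this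

lemma Sub.mp_cont' (S : Sub D q) {A : Set (E N)} :
    Continuous fun h => ∫ x in A, max (D.j h x) 0 ^ q := by
  refine continuous_iff_continuousAt.2 fun u => ?_
  refine tend_of_eps (S.tend (D.tend_q (F := 𝓝 u) (h := id) tendsto_id))
    (T := ∫ x in A, max (D.j u x) 0 ^ q)
    (integral_nonneg fun _ => Real.rpow_nonneg (le_max_right _ _) _) fun ε hε => ?_
  obtain ⟨C, C0, hC⟩ := int_pert (Z := E N) S.q0 hε
  refine ⟨C, fun h => (hC (volume.restrict A) _ _ _ (S.mp_int h).restrict (S.mp_int u).restrict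
    (S.intq (h - u)).restrict (ae_restrict_of_ae ?_)).trans ?_⟩
  · filter_upwards [D.j_sub h u] with z hz
    refine ⟨le_max_right _ _, le_max_right _ _, ?_⟩
    rw [hz]; exact abs_max_sub_max_le_abs _ _ _
  · exact add_le_add le_rfl (mul_le_mul_of_nonneg_left (setIntegral_le_integral (S.intq _)
      (ae_of_all _ fun x => by positivity)) C0)

theorem second_lt (hN : 2 ≤ N) (q1 : 1 < q) (q2 : q < 2) :
    ∃ Ω : Set (E N), IsOpen Ω ∧ Bornology.IsBounded Ω ∧ Ω.Nonempty ∧
      (∃ ε > 0, ∀ l ∈ QSpec.Spec Ω q, QSpec.lam1 Ω q < l → QSpec.lam1 Ω q + ε ≤ l) ∧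
      ∃ l ∈ QSpec.Spec Ω q, QSpec.lam1 Ω q < l ∧ l < QSpec.lamLS Ω q 2 := by
  have q0 : 0 < q := by linarith
  have N0 : (2:ℝ) ≤ N := by exact_mod_cast hN
  obtain ⟨a, ν, a0, aν, ⟨u1, z1, e1⟩, hν⟩ := gap_ball hN q1 q2 (0 : E N) one_pos
  have ν0 := a0.trans aν
  obtain ⟨θ, ⟨hθ, θ1⟩, θ0⟩ : ∃ θ : ℝ, (a < ν * (1 - θ) ^ (2 / q) ∧ θ < 1) ∧ 0 < θ := by
    have c : Continuous fun θ : ℝ => ν * (1 - θ) ^ (2 / q) :=
      continuous_const.mul (Continuous.rpow_const (by fun_prop) fun _ => Or.inr (by positivity))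
    exact (((((c.tendsto 0).eventually_const_lt (by simpa using aν)).and
      (gt_mem_nhds one_pos)).filter_mono nhdsWithin_le_nhds).and
      (self_mem_nhdsWithin (s := Ioi 0))).exists
  obtain ⟨r, ⟨hr, r1⟩, r0⟩ := (((mass_small' hN q1 q2 (isBounded_ball (x := (0 : E N)) (r := 3))
    (σ := θ / ν ^ (q / 2)) (by positivity)).and ((eventually_le_nhds one_pos).filter_mono
      nhdsWithin_le_nhds)).and self_mem_nhdsWithin).exists
  replace r0 : 0 < r := r0
  set c : E N := EuclideanSpace.single ⟨0, by omega⟩ 2 with hc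
  have c1 : ‖c‖ = 2 := by simp [hc]
  have dj : Disjoint (ball (0 : E N) 1) (ball c r) :=
    ball_disjoint_ball (by rw [dist_comm, dist_zero_right, c1]; linarith)
  have sub : ball (0 : E N) 1 ∪ ball c r ⊆ ball 0 3 := union_subset (ball_subset_ball (by norm_num))
    (ball_subset_ball' (by rw [dist_zero_right, c1]; linarith))
  have op : IsOpen (ball (0 : E N) 1 ∪ ball c r) := isOpen_ball.union isOpen_ball
  have C1 : Comp (ball 0 1) (ball (0 : E N) 1 ∪ ball c r) :=
    ⟨isOpen_ball, subset_union_left, _, isOpen_ball, dj, Subset.rfl⟩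
  have C2 : Comp (ball c r) (ball (0 : E N) 1 ∪ ball c r) :=
    ⟨isOpen_ball, subset_union_right, _, isOpen_ball, dj.symm, (union_comm _ _).le⟩
  obtain ⟨s, D, S, hD, hS⟩ := sub_bdd hN q1 q2 op (isBounded_ball.subset sub)
  obtain ⟨k, k1, κ, κ0, k2⟩ := S.isEig hD (e1 _ C1)
  obtain ⟨u, hu, u0⟩ := S.first k1.one
  obtain ⟨t1, t10, ht1⟩ := hu.hopf hD one_pos C1 u0
  obtain ⟨t2, t20, ht2⟩ := hu.hopf hD r0 C2 u0
  obtain ⟨w1, v1, s1⟩ := S.barrier hD one_pos le_rfl C1
  obtain ⟨w2, v2, s2⟩ := S.barrier hD r0 le_rfl C2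
  have kz : ∀ᵐ x, x ∈ ball c r → D.j k x = 0 ∧ 0 < D.j u x := by
    filter_upwards [k2, z1, ht2] with x b1 b2 b3 hx
    exact ⟨by rw [b1, b2 (disjoint_right.1 dj hx), mul_zero],
      (mul_pos t20 ((bs_pos r0).2 hx)).trans_le (b3 hx)⟩
  have ex : ∀ {P : E N → Prop}, (∀ᵐ x, P x) → ∃ x ∈ ball c r, P x := fun h =>
    Measure.exists_mem_of_measure_ne_zero_of_ae (measure_ball_pos _ _ r0).ne' (ae_restrict_of_ae h)
  refine ⟨_, op, isBounded_ball.subset sub, ⟨0, Or.inl (mem_ball_self one_pos)⟩, ?_, a,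
    ⟨u1, e1 _ C1⟩, ?_, hθ.trans_le ?_⟩
  · obtain ⟨ε, ε0, hε⟩ := Sub.isolated hu u0 (s1.add s2) (ae_of_all _ fun x => by
      rw [hS]
      by_cases h1 : x ∈ ball (0 : E N) 1 <;> by_cases h2 : x ∈ ball c r <;>
        simp only [h1, h2, indicator_of_mem, indicator_of_notMem, not_false_eq_true, mem_union,
          or_self, or_true, or_false, true_or, false_imp_iff, true_imp_iff, and_true] <;>
        first | (constructor <;> linarith) | linarith)
      (κ := t1⁻¹ + t2⁻¹) (by positivity) (by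
      filter_upwards [D.j_add w1 w2, v1, v2, ht1, ht2, u0] with x b1 b2 b3 b4 b5 b6
      rw [b1, b2, b3, add_mul]
      refine add_le_add ?_ ?_
      · by_cases h1 : x ∈ ball (0 : E N) 1
        · simpa [h1, le_inv_mul_iff₀ t10] using b4 h1
        · rw [indicator_of_notMem h1]; positivity
      · by_cases h1 : x ∈ ball c r
        · simpa [h1, le_inv_mul_iff₀ t20] using b5 h1
        · rw [indicator_of_notMem h1]; positivity)
    rw [S.lam_eq hD]
    refine ⟨ε, ε0, fun l ⟨v, hv⟩ hl => ?_⟩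
    obtain ⟨h, h1, -⟩ := S.isEig hD hv
    exact hε h l h1 hl
  · rw [S.lam_eq hD]
    refine lt_of_le_of_ne (k1.eq ▸ S.lam_le k1.one) fun e => ?_
    obtain ⟨x, hx, b1, b2⟩ := ex (kz.and (hu.abs_eq u0 (e ▸ k1)))
    rw [(b1 hx).1, abs_zero] at b2
    exact (b1 hx).2.ne b2
  · have mB := measurableSet_ball (x := (0 : E N)) (ε := 1)
    refine S.ls_low hD (h1 := k) (h2 := u) (fun p hp => ?_)
      (g := fun h => (∫ x in ball 0 1, max (D.j h x) 0 ^ q) - ∫ x in ball 0 1, max (D.j (-h) x) 0 ^ q)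
      (S.mp_cont'.sub (S.mp_cont'.comp continuous_neg)) (fun h => by simp only [neg_neg, neg_sub])
      fun h h1 h2 => ?_
    · have := (integral_eq_zero_iff_of_nonneg (fun x => by positivity) (S.intq _)).1 hp
      obtain ⟨x, hx, b1, b2, b3, b4, b5⟩ := ex (kz.and (this.and ((D.j_add (p.1 • k) (p.2 • u)).and
        ((D.j_smul p.1 k).and (D.j_smul p.2 u)))))
      simp only [b3, b4, b5, (b1 hx).1, mul_zero, zero_add, Pi.zero_apply,
        Real.rpow_eq_zero (abs_nonneg _) q0.ne', abs_eq_zero, mul_eq_zero, (b1 hx).2.ne',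
        or_false] at b2
      rw [b2, zero_smul, add_zero] at hp
      have : S.m (|p.1| • k) = 0 := Eq.trans (integral_congr_ae (by
        filter_upwards [D.j_smul p.1 k, D.j_smul |p.1| k] with z d1 d2
        rw [d1, d2, abs_mul, abs_mul, abs_abs])) hp
      rw [S.m_smul (abs_nonneg _), k1.one, mul_one, Real.rpow_eq_zero (abs_nonneg _) q0.ne',
        abs_eq_zero] at this
      exact Prod.ext this b2
    · have w := S.to_W hD h
      have b1 := hν _ _ (w.restrict C1) (by
        rw [sub_eq_zero, ← integral_indicator mB, ← integral_indicator mB] at h2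
        refine Eq.trans (integral_congr_ae (ae_of_all _ fun x => ?_))
          (h2.trans (integral_congr_ae ?_))
        · by_cases hx : x ∈ ball (0 : E N) 1 <;> simp [hx, hD.eq, q0.ne', -mem_ball]
        · filter_upwards [D.j_neg h] with x b
          rw [hD.eq h] at b
          by_cases hx : x ∈ ball (0 : E N) 1 <;> simp [hx, b, q0.ne', -mem_ball, -map_neg])
      have b2 := hr _ _ (w.mono sub) c
      have b3 : ∫ x, ‖(ball (0 : E N) 1).indicator h.1 x‖ ^ 2 ≤ ‖h‖ ^ 2 := by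
        rw [(rep_self h).norm]
        refine integral_mono_of_nonneg (ae_of_all _ fun x => sq_nonneg _)
          ((Lp.memLp _).integrable_norm_pow two_ne_zero) (ae_of_all _ fun x => ?_)
        exact pow_le_pow_left₀ (norm_nonneg _) (norm_indicator_le_norm_self _ _) 2
      rw [← (rep_self h).norm] at b2
      by_contra hc
      push Not at hc
      have b4 : ν * (1 - θ) ^ (2 / q) ≤ ν := mul_le_of_le_one_right ν0.le
        (Real.rpow_le_one (by linarith) (by linarith) (by positivity))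
      have b5 : ∫ x in ball c r, |J _ h x| ^ q ≤ θ := b2.trans (by
        rw [div_mul_eq_mul_div, div_le_iff₀ (by positivity)]
        gcongr; linarith)
      have i : Integrable fun x => |J _ h x| ^ q := by simpa only [hD.eq] using S.intq h
      have b6 : ∫ x, |J _ h x| ^ q = (∫ x in ball 0 1, |J _ h x| ^ q) +
          ∫ x in ball c r, |J _ h x| ^ q := by
        rw [← setIntegral_union dj measurableSet_ball i.integrableOn i.integrableOn,
          setIntegral_eq_integral_of_ae_compl_eq_zero]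
        filter_upwards [w.zero (by simpa using q0)] with x b hx
        simp [(b hx).1, q0.ne']
      have b7 : ∫ x, |(ball (0 : E N) 1).indicator (J _ h) x| ^ q =
          ∫ x in ball 0 1, |J _ h x| ^ q := by
        rw [← integral_indicator mB]
        congr 1; funext x
        by_cases hx : x ∈ ball (0 : E N) 1 <;> simp [hx, q0.ne', -mem_ball]
      rw [← S.m_eq hD (rep_self h), h1] at b6
      rw [b7] at b1
      have b8 := mul_le_mul_of_nonneg_left (Real.rpow_le_rpow (by linarith : 0 ≤ 1 - θ)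
        (by linarith : 1 - θ ≤ ∫ x in ball 0 1, |J _ h x| ^ q) (by positivity : 0 ≤ 2 / q)) ν0.le
      linarith

end Pool.Agent.H27.Iso
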