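import Mathlib

/-! One-variable tools: maximum and minimum modulus, Montel's theorem, a division lemma and a
rescaling bound for a first order system. -/

open Set Filter Topology Metric Complex

namespace Pool.Agent.H27.Tab

/-- The `n`-th Taylor coefficient at `0`. -/
noncomputable def coef (f : ℂ → ℂ) (n : ℕ) : ℂ := iteratedDeriv n f 0 / n.factorial

lemma max_mod {f : ℂ → ℂ} {c z : ℂ} {r m : ℝ} (hr : 0 < r)
    (hd : ∀ w ∈ closedBall c r, DifferentiableAt ℂ f w) (hm : ∀ w ∈ sphere c r, ‖f w‖ ≤ m)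
    (hz : z ∈ closedBall c r) : ‖f z‖ ≤ m := by
  refine norm_le_of_forall_mem_frontier_norm_le (U := ball c r) isBounded_ball
    (DifferentiableOn.diffContOnCl fun w hw => (hd w ?_).differentiableWithinAt)
    (by rwa [frontier_ball c hr.ne']) (by rwa [closure_ball c hr.ne'])
  rwa [closure_ball c hr.ne'] at hw

lemma min_mod {f : ℂ → ℂ} {c z : ℂ} {r m : ℝ} (hr : 0 < r) (m0 : 0 < m)
    (hd : ∀ w ∈ closedBall c r, DifferentiableAt ℂ f w) (h0 : ∀ w ∈ closedBall c r, f w ≠ 0)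
    (hm : ∀ w ∈ sphere c r, m ≤ ‖f w‖) (hz : z ∈ closedBall c r) : m ≤ ‖f z‖ := by
  have := max_mod (f := fun w => (f w)⁻¹) (m := m⁻¹) hr (fun w hw => (hd w hw).inv (h0 w hw))
    (fun w hw => by rw [norm_inv]; exact inv_anti₀ m0 (hm w hw)) hz
  rwa [norm_inv, inv_le_inv₀ (norm_pos_iff.2 (h0 z hz)) m0] at this

lemma diff_ball {f : ℂ → ℂ} (hd : DifferentiableOn ℂ f (ball 0 1)) {z : ℂ} (hz : ‖z‖ < 1) :
    DifferentiableAt ℂ f z := hd.differentiableAt (isOpen_ball.mem_nhds (mem_ball_zero_iff.2 hz))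

lemma coef_sum {f : ℂ → ℂ} (hd : DifferentiableOn ℂ f (ball 0 1)) {z : ℂ} (hz : ‖z‖ < 1) :
    HasSum (fun n => coef f n * z ^ n) (f z) := by
  have e : (fun n => coef f n * z ^ n) =
      fun n : ℕ => (n.factorial : ℂ)⁻¹ • (z - 0) ^ n • iteratedDeriv n f 0 := by
    funext n; simp only [coef, sub_zero, smul_eq_mul]; ring
  rw [e]; exact hasSum_taylorSeries_on_ball hd (mem_ball_zero_iff.2 hz)

lemma coef_le {f : ℂ → ℂ} (hd : DifferentiableOn ℂ f (ball 0 1)) {r C : ℝ} (r0 : 0 < r) (r1 : r < 1)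
    (hC : ∀ z, ‖z‖ ≤ r → ‖f z‖ ≤ C) (n : ℕ) : ‖coef f n‖ ≤ C / r ^ n := by
  have := norm_iteratedDeriv_le_of_forall_mem_sphere_norm_le (f := f) (c := 0) (C := C) n r0
    (DifferentiableOn.diffContOnCl (hd.mono (closure_ball_subset_closedBall.trans
      (closedBall_subset_ball r1)))) fun z hz => hC z (mem_sphere_zero_iff_norm.1 hz).le
  have n0 : (0:ℝ) < n.factorial := by positivity
  rw [coef, norm_div, Complex.norm_natCast, div_le_iff₀ n0]
  exact this.trans_eq (by ring)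

/-- Locally uniformly bounded family on the unit disc. -/
def LUB {ι : Type*} (F : ι → ℂ → ℂ) : Prop := ∀ r < 1, ∃ C, ∀ i z, ‖z‖ ≤ r → ‖F i z‖ ≤ C

lemma montel {F : ℕ → ℂ → ℂ} (hd : ∀ n, DifferentiableOn ℂ (F n) (ball 0 1)) (hb : LUB F) :
    ∃ k : ℕ → ℕ, StrictMono k ∧ ∃ g, TendstoLocallyUniformlyOn (fun n => F (k n)) g atTop
      (ball 0 1) := by
  obtain ⟨C0, hC0⟩ := hb (1 / 2) (by norm_num)
  obtain ⟨b, -, k, hk, ht⟩ := (isCompact_univ_pi fun j : ℕ => isCompact_closedBall (0:ℂ)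
    (C0 / (1 / 2) ^ j)).tendsto_subseq (x := fun n => coef (F n)) fun n j _ =>
      mem_closedBall_zero_iff.2 (coef_le (hd n) (by norm_num) (by norm_num) (hC0 n) j)
  rw [tendsto_pi_nhds] at ht
  refine ⟨k, hk, fun z => ∑' j, b j * z ^ j,
    (tendstoLocallyUniformlyOn_iff_forall_isCompact isOpen_ball).2 fun K hK cK => ?_⟩
  obtain ⟨r, ⟨r0, r1⟩, hr⟩ := exists_pos_lt_subset_ball one_pos cK.isClosed hK
  obtain ⟨C, hC⟩ := hb ((1 + r) / 2) (by linarith)
  have R0 : 0 < (1 + r) / 2 := by linarith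
  have a1 := fun n => coef_le (hd n) R0 (by linarith) (hC n)
  have a2 : ∀ j, ‖b j‖ ≤ C / ((1 + r) / 2) ^ j := fun j =>
    le_of_tendsto' (ht j).norm fun n => a1 _ j
  have s : Summable fun j : ℕ => 2 * C * (r / ((1 + r) / 2)) ^ j :=
    (summable_geometric_of_lt_one (by positivity) (by rw [div_lt_one R0]; linarith)).mul_left _
  have bd : ∀ n j, ‖‖coef (F (k n)) j - b j‖ * r ^ j‖ ≤ 2 * C * (r / ((1 + r) / 2)) ^ j :=
    fun n j => by
      rw [Real.norm_of_nonneg (by positivity), div_pow]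
      refine (mul_le_mul_of_nonneg_right ((norm_sub_le _ _).trans (add_le_add (a1 _ j) (a2 j)))
        (by positivity)).trans_eq (by ring)
  have t := tendsto_tsum_of_dominated_convergence (𝓕 := atTop) (g := fun _ => (0:ℝ)) s
    (fun j => by simpa using (((ht j).sub_const (b j)).norm.mul_const (r ^ j)))
    (Eventually.of_forall bd)
  rw [tsum_zero] at t
  refine Metric.tendstoUniformlyOn_iff.2 fun ε hε => (t.eventually_lt_const hε).mono
    fun n hn z hz => lt_of_le_of_lt ?_ hn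
  have z1 := (mem_ball_zero_iff.1 (hr hz)).le
  have h1 := coef_sum (hd (k n)) (z1.trans_lt r1)
  have le : ∀ j, ‖(coef (F (k n)) j - b j) * z ^ j‖ ≤ ‖coef (F (k n)) j - b j‖ * r ^ j := fun j => by
    rw [norm_mul, norm_pow]; gcongr
  have s2 := Summable.of_norm_bounded s (bd n)
  have s3 := (Summable.of_norm_bounded s2 le).hasSum
  have := (h1.sub s3).tsum_eq
  simp only [sub_mul, sub_sub_cancel] at this
  rw [dist_comm, dist_eq_norm, this, sub_sub_cancel]
  simpa only [sub_mul] using tsum_of_norm_bounded s2.hasSum le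

lemma division {ι : Type*} {y f : ι → ℂ → ℂ} {a : ℂ} (a0 : a ≠ 0)
    (hy : ∀ i, DifferentiableOn ℂ (y i) (ball 0 1)) (hf : ∀ i, DifferentiableOn ℂ (f i) (ball 0 1))
    (y0 : ∀ i, y i 0 = a) (b1 : LUB y) (b2 : LUB fun i z => y i z * f i z) : LUB f := by
  intro r r1
  wlog r0 : 0 < r generalizing r
  · obtain ⟨C, hC⟩ := this (1 / 2) (by norm_num) (by norm_num)
    exact ⟨C, fun i z hz => hC i z (by linarith)⟩
  by_contra hc
  push Not at hc
  choose i z hz hi using fun n : ℕ => hc n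
  obtain ⟨k, hk, g, hg⟩ := montel (fun n => hy (i n)) fun r hr =>
    (b1 r hr).imp fun C hC n => hC (i n)
  have gd := hg.differentiableOn (Eventually.of_forall fun n => hy _) isOpen_ball
  have g0 : g 0 = a := tendsto_nhds_unique (hg.tendsto_at (mem_ball_self one_pos))
    (by simp only [y0]; exact tendsto_const_nhds)
  have : ∃ ρ, r < ρ ∧ ρ < 1 ∧ ∀ w ∈ sphere (0:ℂ) ρ, g w ≠ 0 := by
    by_contra h
    push Not at h
    obtain ⟨ρ, -, h1, h2⟩ := exists_seq_strictAnti_tendsto' (by linarith : r < (1 + r) / 2)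
    choose w hw1 hw2 using fun n => h (ρ n) (h1 n).1 (by linarith [(h1 n).2])
    simp only [mem_sphere_zero_iff_norm] at hw1
    obtain ⟨x, -, l, hl, hx⟩ := (isCompact_closedBall (0:ℂ) 1).tendsto_subseq (x := w) fun n => by
      rw [mem_closedBall_zero_iff, hw1]; linarith [(h1 n).2]
    have xr : ‖x‖ = r := tendsto_nhds_unique hx.norm (by
      simpa only [Function.comp_def, hw1] using h2.comp hl.tendsto_atTop)
    refine a0 (g0.symm.trans ((gd.analyticOnNhd isOpen_ball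
      ).eqOn_zero_of_preconnected_of_frequently_eq_zero (convex_ball _ _).isPreconnected
      (z₀ := x) (by rwa [mem_ball_zero_iff, xr]) ?_ (mem_ball_self one_pos)))
    refine ((tendsto_nhdsWithin_iff (s := {x}ᶜ)).2 ⟨hx, Eventually.of_forall fun n e => ?_⟩).frequently
      (Frequently.of_forall fun n => hw2 _)
    have : w (l n) = x := e
    linarith [(h1 (l n)).1, hw1 (l n), congrArg norm this]
  obtain ⟨ρ, ρ1, ρ2, hρ⟩ := this
  have sb : sphere (0:ℂ) ρ ⊆ ball 0 1 := sphere_subset_ball ρ2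
  obtain ⟨w0, hw0, hm⟩ := (isCompact_sphere (0:ℂ) ρ).exists_isMinOn
    (NormedSpace.sphere_nonempty.2 (by linarith)) (gd.continuousOn.mono sb).norm
  have m0 := norm_pos_iff.2 (hρ w0 hw0)
  obtain ⟨K, hK⟩ := b2 ρ ρ2
  obtain ⟨n, h1, h2⟩ := ((Metric.tendstoUniformlyOn_iff.1
    ((tendstoLocallyUniformlyOn_iff_forall_isCompact isOpen_ball).1 hg _ sb (isCompact_sphere _ _))
    _ (half_pos m0)).and ((tendsto_natCast_atTop_atTop.comp hk.tendsto_atTop).eventually_ge_atTop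
      (K / (‖g w0‖ / 2)))).exists
  refine (hi (k n)).not_ge (le_trans (max_mod (r := ρ) (c := 0) (by linarith) (fun w hw =>
    diff_ball (hf _) ((mem_closedBall_zero_iff.1 hw).trans_lt ρ2)) (fun w hw => ?_)
    (mem_closedBall_zero_iff.2 ((hz _).trans ρ1.le))) h2)
  have c1 := hK (i (k n)) w (mem_sphere_zero_iff_norm.1 hw).le
  have c2 := h1 w hw
  have c3 : ‖g w0‖ ≤ ‖g w‖ := hm hw
  have c4 := norm_sub_norm_le (g w) (y (i (k n)) w)
  rw [dist_eq_norm] at c2
  rw [norm_mul] at c1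
  rw [le_div_iff₀ (half_pos m0), mul_comm]
  exact le_trans (mul_le_mul_of_nonneg_right (by linarith) (norm_nonneg _)) c1

lemma one_var {P S : ℂ → ℂ} {c : ℂ} {σ d E : ℝ} (σ0 : 0 < σ) (hd : 144 ≤ d * σ) (hE : 6 * E ≤ σ ^ 2)
    (h : ∀ z ∈ ball c d, DifferentiableAt ℂ S z ∧ ‖S z‖ ≤ 4 * σ ^ 2 ∧ (P z = 0 → S z = 0) ∧
      ∃ e, ‖e‖ ≤ E ∧ HasDerivAt P (e - S z) z) (hc : ‖S c‖ = σ ^ 2) : σ < ‖P c‖ := by
  have d0 : 0 < d := pos_of_mul_pos_left (by linarith) σ0.le
  have sub : closedBall c (4 / σ) ⊆ ball c d := closedBall_subset_ball (by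
    rw [div_lt_iff₀ σ0]; linarith)
  have a1 : ∀ z ∈ closedBall c (4 / σ), ‖S z - S c‖ ≤ σ ^ 2 / 6 := fun z hz => by
    have := dist_le_div_mul_dist_of_mapsTo_ball (f := S) (R₂ := 5 * σ ^ 2)
      (fun w hw => (h w hw).1.differentiableWithinAt) (fun w hw => mem_closedBall_iff_norm.2
        ((norm_sub_le _ _).trans (by linarith [(h w hw).2.1]))) (sub hz)
    rw [dist_eq_norm] at this
    refine this.trans ((mul_le_mul_of_nonneg_left hz (by positivity)).trans ?_)
    rw [div_mul_div_comm, div_le_div_iff₀ (by positivity) (by norm_num)]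
    nlinarith [sq_nonneg σ]
  choose! e he1 he2 using fun z hz => (h z hz).2.2.2
  have a2 : ∀ z ∈ closedBall c (4 / σ), ‖P z + S c * z - (P c + S c * c)‖ ≤ σ ^ 2 / 3 * ‖z - c‖ :=
    fun z hz => (convex_closedBall c _).norm_image_sub_le_of_norm_hasDerivWithin_le
      (f := fun z => P z + S c * z) (f' := fun z => e z - S z + S c * 1)
      (fun w hw => ((he2 w (sub hw)).add ((hasDerivAt_id w).const_mul _)).hasDerivWithinAt)
      (fun w hw => by
        rw [show e w - S w + S c * 1 = e w - (S w - S c) by ring]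
        linarith [norm_sub_le (e w) (S w - S c), he1 w (sub hw), a1 w hw])
      (mem_closedBall_self (by positivity)) hz
  by_contra hP
  push Not at hP
  have := min_mod (f := P) (c := c) (z := c) (r := 4 / σ) (m := 5 / 3 * σ) (by positivity)
    (by positivity) (fun w hw => (he2 w (sub hw)).differentiableAt) (fun w hw h0 => by
      have := a1 w hw
      rw [(h w (sub hw)).2.2.1 h0, zero_sub, norm_neg, hc] at this
      nlinarith) (fun w hw => by
      have b1 := a2 w (sphere_subset_closedBall hw)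
      have b2 : ‖S c * (w - c)‖ = 4 * σ := by
        rw [norm_mul, hc, mem_sphere_iff_norm.1 hw]; field_simp
      have b3 : σ ^ 2 / 3 * (4 / σ) = 4 / 3 * σ := by field_simp
      have b4 := norm_sub_le (P w + S c * w - (P c + S c * c)) (P w - P c)
      rw [show P w + S c * w - (P c + S c * c) - (P w - P c) = S c * (w - c) by ring] at b4
      rw [mem_sphere_iff_norm.1 hw] at b1
      linarith [norm_sub_le (P w) (P c)]) (mem_closedBall_self (by positivity))
  linarith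

lemma brody {a E : ℝ} (a0 : 0 < a) : ∃ C, ∀ (p q : ℂ → ℂ → ℂ) (z0 : ℂ × ℂ),
    ContinuousOn (fun z : ℂ × ℂ => p z.1 z.2 * q z.1 z.2) (closedBall z0 a) →
    (∀ u v, (u, v) ∈ ball z0 a → (∃ e, ‖e‖ ≤ E ∧ HasDerivAt (p u) (e - p u v * q u v) v) ∧
      (∃ e, ‖e‖ ≤ E ∧ HasDerivAt (q · v) (e - p u v * q u v) u) ∧
      DifferentiableAt ℂ (p · v) u ∧ DifferentiableAt ℂ (q u) v) →
    ‖p z0.1 z0.2 * q z0.1 z0.2‖ ≤ C := by
  refine ⟨(288 + a * √(6 * E)) ^ 2 / a ^ 2, fun p q z0 hc h => ?_⟩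
  obtain ⟨z, hz, hm⟩ := (isCompact_closedBall z0 a).exists_isMaxOn
    (f := fun z => ‖p z.1 z.2 * q z.1 z.2‖ * (a - dist z z0) ^ 2)
    ⟨z0, mem_closedBall_self a0.le⟩ (hc.norm.mul (by fun_prop))
  obtain ⟨σ, σ0, hσ⟩ : ∃ σ, 0 ≤ σ ∧ ‖p z.1 z.2 * q z.1 z.2‖ = σ ^ 2 :=
    ⟨_, Real.sqrt_nonneg _, (Real.sq_sqrt (norm_nonneg _)).symm⟩
  set d := a - dist z z0 with hd
  have d0 : 0 ≤ d := sub_nonneg.2 hz
  have da : d ≤ a := sub_le_self _ dist_nonneg
  have E0 := Real.sqrt_nonneg (6 * E)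
  by_cases hs : d * σ ≤ 288 + a * √(6 * E)
  · have := hm (mem_closedBall_self a0.le)
    simp only [mem_setOf_eq, dist_self, sub_zero, hσ] at this
    rw [le_div_iff₀ (by positivity)]
    refine this.trans ?_
    rw [← mul_pow, mul_comm]
    gcongr
  exfalso
  push Not at hs
  have σ1 : √(6 * E) < σ := lt_of_mul_lt_mul_left (by nlinarith) a0.le
  have σ2 : 0 < σ := E0.trans_lt σ1
  have hE : 6 * E ≤ σ ^ 2 := (Real.sqrt_le_left σ0).1 σ1.le
  have d1 : 144 ≤ d / 2 * σ := by nlinarith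
  have d2 : 0 < d := pos_of_mul_pos_left (by nlinarith) σ0
  have key : ∀ w, dist w z < d / 2 → w ∈ ball z0 a ∧ ‖p w.1 w.2 * q w.1 w.2‖ ≤ 4 * σ ^ 2 :=
    fun w hw => by
      have b1 : d / 2 ≤ a - dist w z0 := by linarith [dist_triangle w z z0]
      have b2 : w ∈ ball z0 a := by rw [mem_ball]; linarith
      have b3 := hm (ball_subset_closedBall b2)
      simp only [mem_setOf_eq, hσ] at b3
      refine ⟨b2, le_of_mul_le_mul_right ?_ (by positivity : 0 < (d / 2) ^ 2)⟩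
      refine (mul_le_mul_of_nonneg_left (pow_le_pow_left₀ (by positivity) b1 2)
        (norm_nonneg _)).trans (b3.trans_eq (by ring))
  have c1 := one_var (P := p z.1) (S := fun v => p z.1 v * q z.1 v) (c := z.2) σ2 d1 hE
    (fun v hv => by
      obtain ⟨b1, b2⟩ := key (z.1, v) (by rwa [Prod.dist_eq, dist_self, max_eq_right dist_nonneg])
      obtain ⟨⟨e, e1, e2⟩, -, -, e3⟩ := h _ _ b1
      exact ⟨e2.differentiableAt.mul e3, b2, fun h0 => by simp [h0], e, e1, e2⟩) hσ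
  have c2 := one_var (P := (q · z.2)) (S := fun u => p u z.2 * q u z.2) (c := z.1) σ2 d1 hE
    (fun u hu => by
      obtain ⟨b1, b2⟩ := key (u, z.2) (by rwa [Prod.dist_eq, dist_self, max_eq_left dist_nonneg])
      obtain ⟨-, ⟨e, e1, e2⟩, e3, -⟩ := h _ _ b1
      exact ⟨e3.mul e2.differentiableAt, b2, fun h0 => by simp [h0], e, e1, e2⟩) hσ
  rw [norm_mul] at hσ
  nlinarith [mul_lt_mul'' c1 c2 σ0 σ0]

end Pool.Agent.H27.Tab
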