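import Pool.Agent.H27.Tab1

/-! The two-variable kernel integral and its Euler-Poisson-Darboux equation. -/

open Set Filter Topology Metric Complex MeasureTheory

namespace Pool.Agent.H27.Tab

/-- Admissible boundary data. -/
structure Dat where
  ψ : ℝ → ℂ
  w : ℝ → ℂ
  cψ : Continuous ψ
  cw : Continuous w
  le : ∀ θ, ‖w θ‖ ≤ 1

namespace Dat

variable (D : Dat) {a b u v : ℂ} {k : ℕ}

/-- Integrand. -/
noncomputable def F (a b : ℂ) (k : ℕ) (u v : ℂ) (θ : ℝ) : ℂ :=
  D.ψ θ * D.w θ ^ k * ((1 + u * D.w θ) ^ a * (1 + v * D.w θ) ^ b)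

/-- Kernel integral. -/
noncomputable def K (a b : ℂ) (k : ℕ) (u v : ℂ) : ℂ := ∫ θ in (0:ℝ)..2 * Real.pi, D.F a b k u v θ

lemma slit (hu : ‖u‖ < 1) (θ : ℝ) : 1 + u * D.w θ ∈ slitPlane :=
  mem_slitPlane_of_norm_lt_one (by
    rw [norm_mul]; exact (mul_le_of_le_one_right (norm_nonneg _) (D.le θ)).trans_lt hu)

lemma F_cont {X : Type*} [TopologicalSpace X] {u v : X → ℂ} {θ : X → ℝ} (cu : Continuous u)
    (cv : Continuous v) (cθ : Continuous θ) (hu : ∀ x, ‖u x‖ < 1) (hv : ∀ x, ‖v x‖ < 1) :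
    Continuous fun x => D.F a b k (u x) (v x) (θ x) := by
  have := D.cψ
  have := D.cw
  exact Continuous.mul (by fun_prop) ((Continuous.cpow (by fun_prop) continuous_const fun x =>
    D.slit (hu x) _).mul (Continuous.cpow (by fun_prop) continuous_const fun x => D.slit (hv x) _))

lemma F_c (hu : ‖u‖ < 1) (hv : ‖v‖ < 1) : Continuous (D.F a b k u v) :=
  D.F_cont continuous_const continuous_const continuous_id (fun _ => hu) fun _ => hv

lemma K_cont {X : Type*} [TopologicalSpace X] [FirstCountableTopology X] [LocallyCompactSpace X]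
    {u v : X → ℂ} {s : Set X} (hs : IsCompact s) (cu : Continuous u) (cv : Continuous v)
    (h : ∀ x ∈ s, ‖u x‖ < 1 ∧ ‖v x‖ < 1) : ContinuousOn (fun x => D.K a b k (u x) (v x)) s := by
  have := isCompact_iff_compactSpace.1 hs
  rw [continuousOn_iff_continuous_restrict]
  exact intervalIntegral.continuous_parametric_intervalIntegral_of_continuous'
    (f := fun (x : s) θ => D.F a b k (u x) (v x) θ) (D.F_cont (X := s × ℝ) (by fun_prop)
      (by fun_prop) continuous_snd (fun x => (h _ x.1.2).1) fun x => (h _ x.1.2).2) _ _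

lemma K_symm : D.K a b k u v = D.K b a k v u := by
  simp only [K, F, mul_comm ((1 + u * _) ^ a)]

lemma dU (hu : ‖u‖ < 1) (hv : ‖v‖ < 1) :
    HasDerivAt (D.K a b k · v) (a * D.K (a - 1) b (k + 1) u v) u := by
  obtain ⟨r, r1, r2⟩ := exists_between hu
  have : CompactSpace (closedBall (0:ℂ) r) := isCompact_iff_compactSpace.1 (isCompact_closedBall _ _)
  have m : ∀ x ∈ closedBall (0:ℂ) r, ‖x‖ < 1 := fun x hx =>
    (mem_closedBall_zero_iff.1 hx).trans_lt r2
  obtain ⟨C, hC⟩ := (isCompact_univ.prod (isCompact_uIcc (a := (0:ℝ)) (b := 2 * Real.pi))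
    ).exists_bound_of_continuousOn (D.F_cont (a := a - 1) (b := b) (k := k + 1)
      (X := closedBall (0:ℂ) r × ℝ) (u := fun x => x.1) (v := fun _ => v) (by fun_prop)
      continuous_const continuous_snd (fun x => m _ x.1.2) fun _ => hv).continuousOn
  have n : closedBall (0:ℂ) r ∈ 𝓝 u :=
    mem_of_superset (isOpen_ball.mem_nhds (mem_ball_zero_iff.2 r1)) ball_subset_closedBall
  rw [K, ← intervalIntegral.integral_const_mul]
  refine (intervalIntegral.hasDerivAt_integral_of_dominated_loc_of_deriv_le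
    (F := fun x θ => D.F a b k x v θ) (F' := fun x θ => a * D.F (a - 1) b (k + 1) x v θ)
    (bound := fun _ => ‖a‖ * C) n (mem_of_superset n fun x hx =>
      (D.F_c (m x hx) hv).aestronglyMeasurable) ((D.F_c hu hv).intervalIntegrable _ _)
    (continuous_const.mul (D.F_c hu hv)).aestronglyMeasurable (ae_of_all _ fun θ hθ x hx => ?_)
    intervalIntegrable_const (ae_of_all _ fun θ _ x hx => ?_)).2
  · rw [norm_mul]
    exact mul_le_mul_of_nonneg_left (hC (⟨x, hx⟩, θ) ⟨trivial, uIoc_subset_uIcc hθ⟩) (norm_nonneg _)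
  · refine (((((hasDerivAt_id x).mul_const (D.w θ)).const_add 1).cpow_const
      (D.slit (m x hx) θ)).mul_const _ |>.const_mul _).congr_deriv ?_
    simp only [F, id]; ring

lemma dV (hu : ‖u‖ < 1) (hv : ‖v‖ < 1) :
    HasDerivAt (D.K a b k u) (b * D.K a (b - 1) (k + 1) u v) v := by
  simpa only [← D.K_symm] using D.dU (a := b) (b := a) (k := k) hv hu

lemma step (hu : ‖u‖ < 1) (hv : ‖v‖ < 1) :
    D.K a b k u v = D.K (a - 1) b k u v + u * D.K (a - 1) b (k + 1) u v := by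
  rw [K, K, K, ← intervalIntegral.integral_const_mul, ← intervalIntegral.integral_add
    ((D.F_c hu hv).intervalIntegrable _ _)
    (((D.F_c hu hv).intervalIntegrable _ _).const_mul u)]
  congr 1; funext θ
  have := cpow_add (a - 1) 1 (slitPlane_ne_zero (D.slit hu θ))
  rw [sub_add_cancel, cpow_one] at this
  simp only [F, this]; ring

lemma epd (hu : ‖u‖ < 1) (hv : ‖v‖ < 1) : (u - v) * D.K (a - 1) (b - 1) 2 u v =
    D.K a (b - 1) 1 u v - D.K (a - 1) b 1 u v := by
  rw [D.step (a := a) hu hv, D.K_symm (b := b), D.step (a := b) hv hu, D.K_symm (u := v),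
    D.K_symm (u := v)]
  ring

/-- Non-vanishing on the torus part of the boundary. -/
def NV (a b : ℂ) : Prop := ∀ x v : ℂ, ‖x‖ = 1 → ‖v‖ < 1 → D.K a b 0 (x * v) v ≠ 0

variable {D}

lemma NV.ne (h : D.NV a b) (hu : ‖u‖ ≤ ‖v‖) (hv : ‖v‖ < 1) : D.K a b 0 u v ≠ 0 := by
  have lt : ∀ (x : ℂ) (t : ℝ), ‖x‖ ≤ 1 → t ∈ Icc (0:ℝ) 1 → ‖x * (t * v)‖ < 1 ∧ ‖t * v‖ < 1 :=
    fun x t hx ht => by
      have : ‖t * v‖ < 1 := by
        rw [norm_mul, norm_real, Real.norm_of_nonneg ht.1]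
        exact (mul_le_of_le_one_left (norm_nonneg _) ht.2).trans_lt hv
      exact ⟨by rw [norm_mul]; exact (mul_le_of_le_one_left (norm_nonneg _) hx).trans_lt this, this⟩
  have cK := (isCompact_closedBall (0:ℂ) 1).prod (isCompact_Icc (a := (0:ℝ)) (b := 1))
  have c := D.K_cont (a := a) (b := b) (k := 0) (u := fun p : ℂ × ℝ => p.1 * (p.2 * v))
    (v := fun p => p.2 * v) cK (by fun_prop) (by fun_prop)
    fun p hp => lt _ _ (mem_closedBall_zero_iff.1 hp.1) hp.2
  obtain ⟨p0, hp0, hm⟩ := ((isCompact_sphere (0:ℂ) 1).prod (isCompact_Icc (a := (0:ℝ)) (b := 1))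
    ).exists_isMinOn ⟨(1, 0), by simp⟩ (c.mono (prod_mono_left sphere_subset_closedBall)).norm
  have m0 := norm_pos_iff.2 (h p0.1 _ (mem_sphere_zero_iff_norm.1 hp0.1)
    (lt _ _ (mem_sphere_zero_iff_norm.1 hp0.1).le hp0.2).2)
  intro h0
  obtain ⟨p, ⟨hp, p1⟩, hq⟩ := (cK.of_isClosed_subset (c.preimage_isClosed_of_isClosed cK.isClosed
    (isClosed_singleton (x := 0))) inter_subset_left).exists_isMinOn (f := Prod.snd)
    ⟨(u / v, 1), ⟨mem_closedBall_zero_iff.2 (by
      rw [norm_div]; exact div_le_one_of_le₀ hu (norm_nonneg _)), by simp⟩, by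
      rcases eq_or_ne v 0 with rfl | v0
      · simpa [norm_le_zero_iff.1 (hu.trans_eq norm_zero)] using h0
      · simpa [v0] using h0⟩ continuousOn_snd
  replace p1 : D.K a b 0 (p.1 * (p.2 * v)) (p.2 * v) = 0 := p1
  have t0 : 0 < p.2 := lt_of_le_of_ne hp.2.1 fun e => h 1 0 (by simp) (by simp)
    (by simpa [← e] using p1)
  have t := (c p hp).tendsto.comp (tendsto_nhdsWithin_iff.2 ⟨((by fun_prop :
    Continuous fun t : ℝ => (p.1, t)).tendsto p.2).mono_left (nhdsWithin_le_nhds (s := Iio p.2)),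
    mem_of_superset (Ioo_mem_nhdsLT t0) fun t ht => ⟨hp.1, ht.1.le, ht.2.le.trans hp.2.2⟩⟩)
  refine m0.not_ge ((ge_of_tendsto t.norm (mem_of_superset (Ioo_mem_nhdsLT t0) fun t ht => ?_)).trans_eq
    (by rw [p1, norm_zero]))
  have ht' : t ∈ Icc (0:ℝ) 1 := ⟨ht.1.le, ht.2.le.trans hp.2.2⟩
  refine min_mod (f := fun x => D.K a b 0 (x * (t * v)) (t * v)) one_pos m0 (fun x hx => ?_)
    (fun x hx e => ?_) (fun x hx => hm (a := (x, t)) ⟨hx, ht'⟩) hp.1
  · have l := lt x t (mem_closedBall_zero_iff.1 hx) ht'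
    exact (D.dU l.1 l.2).differentiableAt.comp x (f := fun x => x * (t * v)) (by fun_prop)
  · exact ht.2.not_ge (hq (a := (x, t)) ⟨⟨hx, ht'⟩, e⟩)

variable (D) in
/-- Logarithmic derivative in the first variable. -/
noncomputable def lu (a b u v : ℂ) : ℂ := a * D.K (a - 1) b 1 u v / D.K a b 0 u v

variable (D) in
/-- Logarithmic derivative in the second variable. -/
noncomputable def lv (a b u v : ℂ) : ℂ := b * D.K a (b - 1) 1 u v / D.K a b 0 u v

variable (D) in
/-- Minus the mixed derivative of the logarithm. -/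
noncomputable def T (a b u v : ℂ) : ℂ :=
  D.lu a b u v * D.lv a b u v - a * b * D.K (a - 1) (b - 1) 2 u v / D.K a b 0 u v

lemma NV.facts (h : D.NV a b) (hu : ‖u‖ ≤ ‖v‖) (hv : ‖v‖ < 1) :
    HasDerivAt (D.lu a b u) (-D.T a b u v) v ∧ HasDerivAt (D.lv a b · v) (-D.T a b u v) u ∧
    DifferentiableAt ℂ (D.lu a b · v) u ∧ DifferentiableAt ℂ (D.lv a b u) v ∧
    DifferentiableAt ℂ (D.T a b u) v ∧ ((u - v) * D.lu a b u v - a) * ((u - v) * D.lv a b u v + b) =
      (u - v) ^ 2 * D.T a b u v - a * b := by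
  have n := h.ne hu hv
  have u1 := hu.trans_lt hv
  have d1 := ((D.dV (a := a - 1) (b := b) (k := 1) u1 hv).const_mul a).div (D.dV u1 hv) n
  have d2 := ((D.dU (a := a) (b := b - 1) (k := 1) u1 hv).const_mul b).div (D.dU u1 hv) n
  have d3 := ((D.dV (a := a) (b := b - 1) (k := 1) u1 hv).const_mul b).div (D.dV u1 hv) n
  refine ⟨d1.congr_deriv ?_, d2.congr_deriv ?_, (((D.dU u1 hv).const_mul a).div (D.dU u1 hv)
    n).differentiableAt, d3.differentiableAt, (d1.differentiableAt.mul d3.differentiableAt).sub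
    (((D.dV u1 hv).const_mul _).div (D.dV u1 hv) n).differentiableAt, ?_⟩
  · simp only [T, lu, lv, zero_add]; field_simp; ring
  · simp only [T, lu, lv, zero_add]; field_simp; ring
  · have e := D.epd (a := a) (b := b) u1 hv
    simp only [T, lu, lv]; field_simp
    linear_combination (a * b * D.K a b 0 u v * (u - v)) * e

lemma T_bdd (a b : ℂ) : LUB fun D : {D : Dat // D.NV a b} => D.1.T a b 0 := by
  intro r r1
  obtain ⟨R, R1, R2⟩ := exists_between (max_lt r1 one_pos)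
  have R0 : 0 < R := (le_max_right _ _).trans_lt R1
  set c := min (R / 4) ((1 - R) / 2) with hc
  have c0 : 0 < c := lt_min (by linarith) (by linarith)
  have c1 : c ≤ R / 4 := min_le_left _ _
  have c2 : c ≤ (1 - R) / 2 := min_le_right _ _
  obtain ⟨C, hC⟩ := brody (E := (‖a * (1 + b)‖ + ‖b * (1 + a)‖) / (R / 2) ^ 2) c0
  refine ⟨C + ‖a * b‖ / R ^ 2, fun D z hz => max_mod (c := 0) R0 (fun w hw => (D.2.facts (by simp)
    ((mem_closedBall_zero_iff.1 hw).trans_lt R2)).2.2.2.2.1) (fun v0 hv0 => ?_)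
    (mem_closedBall_zero_iff.2 (hz.trans ((le_max_left _ _).trans R1.le)))⟩
  rw [mem_sphere_zero_iff_norm] at hv0
  have geo : ∀ z : ℂ × ℂ, z ∈ closedBall ((0:ℂ), v0) c →
      ‖z.1‖ ≤ ‖z.2‖ ∧ ‖z.2‖ < 1 ∧ R / 2 ≤ ‖z.1 - z.2‖ := fun z hz => by
    rw [mem_closedBall, Prod.dist_eq, max_le_iff, dist_zero_right, dist_eq_norm] at hz
    have a1 := abs_le.1 ((abs_norm_sub_norm_le z.2 v0).trans hz.2)
    have a2 := norm_sub_norm_le z.2 z.1
    rw [norm_sub_rev] at a2
    exact ⟨by linarith, by linarith, by linarith⟩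
  have ne : ∀ z : ℂ × ℂ, z ∈ closedBall ((0:ℂ), v0) c → z.1 - z.2 ≠ 0 := fun z hz =>
    norm_pos_iff.1 (by linarith [(geo z hz).2.2])
  have pq : ∀ z : ℂ × ℂ, z ∈ closedBall ((0:ℂ), v0) c → (D.1.lu a b z.1 z.2 - a / (z.1 - z.2)) *
      (D.1.lv a b z.1 z.2 + b / (z.1 - z.2)) = D.1.T a b z.1 z.2 - a * b / (z.1 - z.2) ^ 2 :=
    fun z hz => by
      have e := (D.2.facts (geo z hz).1 (geo z hz).2.1).2.2.2.2.2
      have := ne z hz
      field_simp
      linear_combination e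
  have eb : ∀ {e : ℂ} (z : ℂ × ℂ), z ∈ closedBall ((0:ℂ), v0) c →
      ‖e‖ ≤ ‖a * (1 + b)‖ + ‖b * (1 + a)‖ →
      ‖-e / (z.1 - z.2) ^ 2‖ ≤ (‖a * (1 + b)‖ + ‖b * (1 + a)‖) / (R / 2) ^ 2 := fun z hz he => by
    rw [norm_div, norm_neg, norm_pow]
    gcongr
    exact (geo z hz).2.2
  have cK : ∀ a b k, ContinuousOn (fun z : ℂ × ℂ => D.1.K a b k z.1 z.2) (closedBall (0, v0) c) :=
    fun a b k => D.1.K_cont (isCompact_closedBall _ _) continuous_fst continuous_snd fun z hz =>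
      ⟨(geo z hz).1.trans_lt (geo z hz).2.1, (geo z hz).2.1⟩
  have n := fun z hz => D.2.ne (geo z hz).1 (geo z hz).2.1
  have := hC (fun u v => D.1.lu a b u v - a / (u - v)) (fun u v => D.1.lv a b u v + b / (u - v))
    (0, v0) ((((continuousOn_const.mul (cK _ _ _)).div (cK _ _ _) n).sub (continuousOn_const.div
      (by fun_prop) ne)).mul (((continuousOn_const.mul (cK _ _ _)).div (cK _ _ _) n).add
      (continuousOn_const.div (by fun_prop) ne))) fun u v huv => by
    have m := ball_subset_closedBall huv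
    obtain ⟨f1, f2, f3, f4, -⟩ := D.2.facts (geo _ m).1 (geo _ m).2.1
    have n2 : u - v ≠ 0 := ne _ m
    have e := pq _ m
    simp only at e f1 f2 f3 f4
    refine ⟨⟨_, eb (e := a * (1 + b)) _ m (le_add_of_nonneg_right (norm_nonneg _)), ?_⟩,
      ⟨_, eb (e := b * (1 + a)) _ m (le_add_of_nonneg_left (norm_nonneg _)), ?_⟩,
      f3.sub (by fun_prop (disch := exact n2)), f4.add (by fun_prop (disch := exact n2))⟩
    · refine (f1.sub ((hasDerivAt_const v a).div ((hasDerivAt_id v).const_sub u) n2)).congr_deriv ?_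
      simp only [e, id]; field_simp; ring
    · refine (f2.add ((hasDerivAt_const u b).div ((hasDerivAt_id u).sub_const v) n2)).congr_deriv ?_
      simp only [e, id]; field_simp; ring
  simp only at this
  rw [pq (0, v0) (mem_closedBall_self c0.le)] at this
  have e := norm_add_le (D.1.T a b 0 v0 - a * b / (0 - v0) ^ 2) (a * b / (0 - v0) ^ 2)
  rw [sub_add_cancel, norm_div, norm_pow, zero_sub, norm_neg, hv0] at e
  simp only [zero_sub] at this
  linarith

theorem core {a b : ℂ} (a0 : a ≠ 0) (b0 : b ≠ 0) {r : ℝ} (r1 : r < 1) : ∃ C, ∀ D : Dat, D.NV a b →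
    ∀ v, ‖v‖ ≤ r → ‖D.K a b 0 0 v‖ ≤ C * ‖D.K a b 0 0 0‖ := by
  have hT := T_bdd a b
  have fc := fun (D : {D : Dat // D.NV a b}) (v : ℂ) (hv : ‖v‖ < 1) =>
    D.2.facts (u := 0) (v := v) (by simp) hv
  have mv : ∀ r < 1, ∃ K, 0 ≤ K ∧ ∀ (D : {D : Dat // D.NV a b}) v, ‖v‖ ≤ r →
      ‖D.1.T a b 0 v‖ ≤ K ∧ ‖D.1.lu a b 0 v - D.1.lu a b 0 0‖ ≤ K * ‖v‖ := fun r hr => by
    obtain ⟨K, hK⟩ := hT r hr
    refine ⟨|K|, abs_nonneg _, fun D v hv => ⟨(hK D v hv).trans (le_abs_self _), ?_⟩⟩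
    simpa using (convex_closedBall (0:ℂ) r).norm_image_sub_le_of_norm_hasDerivWithin_le
      (f := D.1.lu a b 0) (C := |K|) (fun w hw => (fc D w ((mem_closedBall_zero_iff.1 hw).trans_lt
        hr)).1.hasDerivWithinAt) (fun w hw => by
        rw [norm_neg]; exact (hK D w (mem_closedBall_zero_iff.1 hw)).trans (le_abs_self _))
      (mem_closedBall_self ((norm_nonneg _).trans hv)) (mem_closedBall_zero_iff.2 hv)
  obtain ⟨K, K0, hK⟩ := mv (1 / 2) (by norm_num)
  have ab := norm_pos_iff.2 (mul_ne_zero a0 b0)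
  have a1 := norm_pos_iff.2 a0
  obtain ⟨δ, ⟨δ1, δ2⟩, δ0⟩ : ∃ δ : ℝ, (δ ^ 2 * K < ‖a * b‖ ∧ δ < 1 / 2) ∧ 0 < δ :=
    ((((((by fun_prop : Continuous fun δ : ℝ => δ ^ 2 * K).tendsto 0).eventually_lt_const
      (by simpa using ab)).and (gt_mem_nhds (by norm_num))).filter_mono nhdsWithin_le_nhds).and
      (self_mem_nhdsWithin (s := Ioi 0))).exists
  have yd : ∀ (D : {D : Dat // D.NV a b}) v, ‖v‖ < 1 →
      DifferentiableAt ℂ (fun v => (0 - v) * D.1.lu a b 0 v - a) v := fun D v hv =>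
    (DifferentiableAt.mul (by fun_prop) (fc D v hv).1.differentiableAt).sub_const _
  have g0 : ∀ D : {D : Dat // D.NV a b}, ‖D.1.lu a b 0 0‖ ≤ 3 * ‖a‖ / δ + K * δ := fun D => by
    by_contra hc
    push Not at hc
    have := min_mod (c := 0) (z := 0) (m := 2 * ‖a‖) δ0 (by positivity) (fun w hw => yd D w
      ((mem_closedBall_zero_iff.1 hw).trans_lt (by linarith))) (fun w hw h0 => by
        have w1 := mem_closedBall_zero_iff.1 hw
        have e := (fc D w (by linarith)).2.2.2.2.2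
        rw [h0, zero_mul, eq_comm, sub_eq_zero] at e
        rw [← e, norm_mul, norm_pow, zero_sub, norm_neg] at δ1
        exact δ1.not_ge (by gcongr; exact (hK D w (by linarith)).1)) (fun w hw => by
        have w1 := mem_sphere_zero_iff_norm.1 hw
        have e1 := (hK D w (by linarith)).2
        have e2 := norm_sub_norm_le (D.1.lu a b 0 0) (D.1.lu a b 0 w)
        have e3 := norm_sub_norm_le ((0 - w) * D.1.lu a b 0 w) a
        rw [norm_sub_rev] at e2
        rw [norm_mul, zero_sub, norm_neg, w1] at e3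
        rw [w1] at e1
        have e4 : 3 * ‖a‖ / δ ≤ ‖D.1.lu a b 0 w‖ := by linarith
        rw [div_le_iff₀ δ0] at e4
        simp only [zero_sub]
        linarith) (mem_closedBall_self δ0.le)
    simp only [sub_self, zero_mul, zero_sub, norm_neg] at this
    linarith
  have hf := division (y := fun (D : {D : Dat // D.NV a b}) v => (0 - v) * D.1.lu a b 0 v - a)
    (f := fun D v => (0 - v) * D.1.lv a b 0 v + b) (neg_ne_zero.2 a0)
    (fun D v hv => (yd D v (mem_ball_zero_iff.1 hv)).differentiableWithinAt)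
    (fun D v hv => ((DifferentiableAt.mul (by fun_prop) (fc D v (mem_ball_zero_iff.1 hv)).2.2.2.1
      ).add_const _).differentiableWithinAt) (fun D => by simp) (fun r hr => by
      obtain ⟨L, L0, hL⟩ := mv r hr
      refine ⟨L + (3 * ‖a‖ / δ + K * δ) + ‖a‖, fun D v hv => (norm_sub_le _ _).trans
        (add_le_add ?_ le_rfl)⟩
      have e1 := (hL D v hv).2.trans (mul_le_of_le_one_right L0 (hv.trans hr.le))
      have e2 := norm_sub_norm_le (D.1.lu a b 0 v) (D.1.lu a b 0 0)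
      rw [norm_mul, zero_sub, norm_neg]
      refine (mul_le_of_le_one_left (norm_nonneg _) (hv.trans hr.le)).trans ?_
      linarith [g0 D]) fun r hr => by
      obtain ⟨L, L0, hL⟩ := mv r hr
      refine ⟨L + ‖a * b‖, fun D v hv => ?_⟩
      simp only [(fc D v (hv.trans_lt hr)).2.2.2.2.2]
      refine (norm_sub_le _ _).trans (add_le_add ?_ le_rfl)
      rw [norm_mul, norm_pow, zero_sub, norm_neg]
      exact (mul_le_of_le_one_left (norm_nonneg _) (pow_le_one₀ (norm_nonneg _)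
        (hv.trans hr.le))).trans (hL D v hv).1
  obtain ⟨R, R1, R2⟩ := exists_between (max_lt r1 one_pos)
  have R0 : 0 < R := (le_max_right _ _).trans_lt R1
  obtain ⟨L, hL⟩ := hf R R2
  refine ⟨Real.exp |(L + ‖b‖) / R|, fun D hD v hv => ?_⟩
  have v1 : ‖v‖ ≤ R := hv.trans ((le_max_left _ _).trans R1.le)
  have lb : ∀ w, ‖w‖ ≤ R → ‖D.lv a b 0 w‖ ≤ |(L + ‖b‖) / R| := fun w hw =>
    max_mod (c := 0) R0 (fun x hx => (fc ⟨D, hD⟩ x ((mem_closedBall_zero_iff.1 hx).trans_lt
      R2)).2.2.2.1) (fun x hx => by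
      have x1 := mem_sphere_zero_iff_norm.1 hx
      have e1 := hL ⟨D, hD⟩ x x1.le
      have e2 := norm_sub_le ((0 - x) * D.lv a b 0 x + b) b
      rw [add_sub_cancel_right, norm_mul, zero_sub, norm_neg, x1] at e2
      refine le_trans ?_ (le_abs_self _)
      rw [le_div_iff₀ R0]
      simp only [zero_sub] at e1
      linarith) (mem_closedBall_zero_iff.2 hw)
  have tv : ∀ t ∈ Icc (0:ℝ) 1, ‖t * v‖ ≤ R := fun t ht => by
    rw [norm_mul, norm_real, Real.norm_of_nonneg ht.1]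
    exact (mul_le_of_le_one_left (norm_nonneg _) ht.2).trans v1
  have d : ∀ t ∈ Icc (0:ℝ) 1, HasDerivAt (fun t : ℝ => D.K a b 0 0 (t * v))
      (b * D.K a (b - 1) 1 0 (t * v) * v) t := fun t ht => by
    have := ((D.dV (a := a) (b := b) (k := 0) (u := 0) (by simp) ((tv t ht).trans_lt R2)).comp
      (t:ℂ) ((hasDerivAt_id (t:ℂ)).mul_const v)).comp_ofReal
    simpa using this
  have := norm_le_gronwallBound_of_norm_deriv_right_le (K := |(L + ‖b‖) / R|) (ε := 0)
    (fun t ht => (d t ht).continuousAt.continuousWithinAt)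
    (fun t ht => (d t (Ico_subset_Icc_self ht)).hasDerivWithinAt) le_rfl (fun t ht => by
      have t1 := tv t (Ico_subset_Icc_self ht)
      have e := lb _ t1
      rw [lv, norm_div, div_le_iff₀ (norm_pos_iff.2 (hD.ne (norm_zero.trans_le (norm_nonneg _))
        (t1.trans_lt R2)))] at e
      rw [norm_mul, add_zero]
      exact (mul_le_of_le_one_right (norm_nonneg _) (v1.trans R2.le)).trans e) 1 (by simp)
  simpa [gronwallBound_ε0, mul_comm] using this

lemma iter (D : Dat) (n : ℕ) : ∀ v, ‖v‖ < 1 → iteratedDeriv n (D.K a b 0 0) v =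
    (∏ j ∈ Finset.range n, (b - j)) * D.K a (b - n) n 0 v := by
  induction n with
  | zero => simp
  | succ n ih =>
    intro v hv
    rw [iteratedDeriv_succ, EventuallyEq.deriv_eq ((isOpen_ball.eventually_mem
      (mem_ball_zero_iff.2 hv)).mono fun w hw => ih w (mem_ball_zero_iff.1 hw)),
      ((D.dV (by simp) hv).const_mul _).deriv, Finset.prod_range_succ, Nat.cast_succ, sub_sub,
      mul_assoc]

end Dat

end Pool.Agent.H27.Tab
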