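import Mathlib

/-! The convolution class `T(α, β)`. -/

namespace Pool.Agent.H27.TabDef

/-- The `n`-th Taylor coefficient at `0`. -/
noncomputable def coef (f : ℂ → ℂ) (n : ℕ) : ℂ := iteratedDeriv n f 0 / n.factorial

/-- Hadamard convolution. -/
noncomputable def conv (f g : ℂ → ℂ) (z : ℂ) : ℂ := ∑' n, coef f n * coef g n * z ^ n

/-- The class `T(α, β)`; powers are principal branches. -/
def T (α β : ℝ) : Set (ℂ → ℂ) :=
  {φ | DifferentiableOn ℂ φ (Metric.ball 0 1) ∧ φ 0 = 1 ∧ ∀ x : ℂ, ‖x‖ = 1 → ∀ z : ℂ, ‖z‖ < 1 →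
    conv φ (fun t => (1 + x * t) ^ (α : ℂ) / (1 - t) ^ (β : ℂ)) z ≠ 0}

end Pool.Agent.H27.TabDef
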