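import Pool.Agent.H27.Tab2
import Pool.Agent.H27.TabDef

/-! Normality of `T(α, β)`. -/

open Set Filter Topology Metric Complex MeasureTheory

namespace Pool.Agent.H27.Tab

variable {φ g : ℂ → ℂ} {ρ : ℝ}

/-- Boundary data on the circle of radius `ρ`. -/
noncomputable def dat (hφ : DifferentiableOn ℂ φ (ball 0 1)) (ρ0 : 0 < ρ) (ρ1 : ρ < 1) : Dat where
  ψ θ := φ (circleMap 0 ρ θ)
  w θ := ρ / circleMap 0 ρ θ
  cψ := hφ.continuousOn.comp_continuous (continuous_circleMap _ _) fun θ => by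
    simp [abs_of_pos ρ0, ρ1]
  cw := continuous_const.div (continuous_circleMap _ _) fun θ => circleMap_ne_center ρ0.ne'
  le θ := by simp [abs_of_pos ρ0, ρ0.ne']

lemma mom (hφ : DifferentiableOn ℂ φ (ball 0 1)) (ρ0 : 0 < ρ) (ρ1 : ρ < 1) (n : ℕ) :
    ∫ θ in (0:ℝ)..2 * Real.pi, (dat hφ ρ0 ρ1).ψ θ * (dat hφ ρ0 ρ1).w θ ^ n =
      2 * Real.pi * ρ ^ n * coef φ n := by
  have := (hφ.mono (closedBall_subset_ball ρ1)).circleIntegral_one_div_sub_center_pow_smul ρ0 n
  simp only [circleIntegral, deriv_circleMap, smul_eq_mul, sub_zero] at this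
  refine mul_left_cancel₀ I_ne_zero ?_
  rw [show I * (2 * Real.pi * ρ ^ n * coef φ n) = ρ ^ n * (2 * Real.pi * I / n.factorial *
    iteratedDeriv n φ 0) by rw [coef]; ring, ← this, ← intervalIntegral.integral_const_mul,
    ← intervalIntegral.integral_const_mul]
  congr 1; funext θ
  have : circleMap 0 ρ θ ≠ 0 := circleMap_ne_center ρ0.ne'
  simp only [dat, div_pow]; field_simp; ring

lemma pars (hφ : DifferentiableOn ℂ φ (ball 0 1)) (hg : DifferentiableOn ℂ g (ball 0 1))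
    (ρ0 : 0 < ρ) (ρ1 : ρ < 1) {v : ℂ} (hv : ‖v‖ < 1) :
    ∫ θ in (0:ℝ)..2 * Real.pi, (dat hφ ρ0 ρ1).ψ θ * g (v * (dat hφ ρ0 ρ1).w θ) =
      2 * Real.pi * TabDef.conv φ g (ρ * v) := by
  have m := mom hφ ρ0 ρ1
  generalize dat hφ ρ0 ρ1 = D at m
  have c1 := D.cψ
  have c2 := D.cw
  have s : Summable fun n => ‖coef g n * (‖v‖ : ℂ) ^ n‖ :=
    summable_norm_iff.2 (coef_sum hg (by simpa using hv)).summable
  have le : ∀ θ, ‖v * D.w θ‖ ≤ ‖v‖ := fun θ => by
    rw [norm_mul]; exact mul_le_of_le_one_right (norm_nonneg _) (D.le θ)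
  have := intervalIntegral.hasSum_integral_of_dominated_convergence (μ := volume) (a := 0)
    (b := 2 * Real.pi) (F := fun n θ => D.ψ θ * (coef g n * (v * D.w θ) ^ n))
    (f := fun θ => D.ψ θ * g (v * D.w θ)) (fun n θ => ‖D.ψ θ‖ * ‖coef g n * (‖v‖ : ℂ) ^ n‖)
    (fun n => Continuous.aestronglyMeasurable (by fun_prop)) (fun n => ae_of_all _ fun θ _ => by
      simp only [norm_mul _ (_ ^ n), norm_mul (D.ψ θ), norm_pow, norm_real, norm_norm]
      gcongr; exact le θ) (ae_of_all _ fun θ _ => s.mul_left _) (by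
      simp only [tsum_mul_left]
      exact Continuous.intervalIntegrable (by fun_prop) _ _)
    (ae_of_all _ fun θ _ => (coef_sum hg ((le θ).trans_lt hv)).mul_left _)
  rw [← this.tsum_eq, TabDef.conv, ← tsum_mul_left]
  congr 1; funext n
  rw [show 2 * Real.pi * (TabDef.coef φ n * TabDef.coef g n * (ρ * v) ^ n) =
    coef g n * v ^ n * (2 * Real.pi * ρ ^ n * coef φ n) by simp only [coef, TabDef.coef]; ring,
    ← m, ← intervalIntegral.integral_const_mul]
  congr 1; funext θ; ring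

theorem lub {α β : ℝ} (hα : α ≠ 0) (hβ : 1 ≤ β) : LUB fun φ : TabDef.T α β => φ.1 := by
  intro r r1
  obtain ⟨ρ, h1, ρ1⟩ := exists_between (show √(max r 0) < 1 by
    rw [Real.sqrt_lt' one_pos]; simpa using r1)
  have ρ0 := (Real.sqrt_nonneg _).trans_lt h1
  rw [Real.sqrt_lt' ρ0] at h1
  obtain ⟨C, hC⟩ := Dat.core (a := α) (b := -β) (by simpa using hα)
    (by simp; linarith) ρ1
  have q1 : max r 0 / ρ ^ 2 < 1 := by rwa [div_lt_one (by positivity)]
  refine ⟨∑' n, C * (max r 0 / ρ ^ 2) ^ n, fun ⟨φ, hφ, φ0, hT⟩ z hz => ?_⟩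
  have m := mom hφ ρ0 ρ1
  have nv : (dat hφ ρ0 ρ1).NV α (-β) := fun x v hx hv => by
    have sl : ∀ y t : ℂ, ‖y‖ = 1 → t ∈ ball (0:ℂ) 1 → 1 + y * t ∈ slitPlane := fun y t hy ht =>
      mem_slitPlane_of_norm_lt_one (by simpa [hy] using ht)
    have e := pars (g := fun t => (1 + -x * t) ^ (α : ℂ) / (1 - t) ^ (β : ℂ)) hφ (fun t ht => by
      have s1 := sl (-x) t (by simpa using hx) ht
      have s2 := sl (-1) t (by simp) ht
      rw [neg_one_mul, ← sub_eq_add_neg] at s2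
      exact ((DifferentiableAt.cpow (f := fun t => 1 + -x * t) (g := fun _ => (α:ℂ)) (by fun_prop)
        (by fun_prop) s1).div (DifferentiableAt.cpow (f := fun t => 1 - t) (g := fun _ => (β:ℂ))
        (by fun_prop) (by fun_prop) s2) (cpow_ne_zero_iff.2 (Or.inl (slitPlane_ne_zero s2)))
        ).differentiableWithinAt) ρ0 ρ1 (v := -v) (by simpa using hv)
    refine ne_of_eq_of_ne (Eq.trans ?_ e) (mul_ne_zero (by simp) (hT _ (by simpa using hx) _ ?_))
    · simp only [Dat.K, Dat.F, pow_zero, mul_one, cpow_neg, div_eq_mul_inv, neg_mul, mul_neg,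
        neg_neg, sub_neg_eq_add, mul_assoc]
    · rw [norm_mul, norm_neg, norm_real, Real.norm_of_nonneg ρ0.le]
      nlinarith [norm_nonneg v]
  generalize dat hφ ρ0 ρ1 = D at m nv
  have k0 : ∀ a b n, D.K a b n 0 0 = 2 * Real.pi * ρ ^ n * coef φ n := fun a b n => by
    simp only [Dat.K, Dat.F, zero_mul, add_zero, one_cpow, mul_one, m]
  have b := fun n => coef_le (f := D.K α (-β) 0 0) (fun v hv => (D.dV (by simp)
    (mem_ball_zero_iff.1 hv)).differentiableAt.differentiableWithinAt) ρ0 ρ1 (hC D nv) n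
  have π0 := Real.pi_pos
  refine tsum_of_norm_bounded (f := fun n => coef φ n * z ^ n) ((summable_geometric_of_lt_one
    (by positivity) q1).mul_left C).hasSum (fun n => ?_) |>.trans_eq'
    (by rw [(coef_sum hφ (hz.trans_lt r1)).tsum_eq])
  have b1 := b n
  have p : (n.factorial : ℝ) ≤ ‖∏ j ∈ Finset.range n, (-(β:ℂ) - j)‖ := by
    rw [norm_prod, ← Finset.prod_range_add_one_eq_factorial, Nat.cast_prod]
    refine Finset.prod_le_prod (fun _ _ => by positivity) fun j _ => ?_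
    rw [show -(β:ℂ) - j = -((β + j : ℝ) : ℂ) by push_cast; ring, norm_neg, norm_real,
      Real.norm_of_nonneg (by positivity)]
    push_cast; linarith
  have n0 : (0:ℝ) < n.factorial := by positivity
  rw [coef, D.iter n 0 (by simp), k0, k0, norm_div, Complex.norm_natCast, norm_mul] at b1
  have b2 : ‖2 * Real.pi * ρ ^ n * coef φ n‖ ≤ _ := le_trans (by
    rw [le_div_iff₀ n0, mul_comm]; gcongr) b1
  have c0 : coef φ 0 = 1 := by simp [coef, φ0]
  simp only [norm_mul, norm_pow, norm_real, Real.norm_of_nonneg ρ0.le, Real.norm_of_nonneg π0.le,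
    c0, norm_one, pow_zero, mul_one, Complex.norm_ofNat] at b2 ⊢
  have b3 : ‖coef φ n‖ ≤ C / (ρ ^ 2) ^ n := by
    rw [le_div_iff₀ (by positivity)] at b2 ⊢
    rw [← pow_mul, two_mul, pow_add]
    nlinarith
  rw [div_pow, ← mul_div_assoc, ← div_mul_eq_mul_div]
  exact mul_le_mul b3 (pow_le_pow_left₀ (norm_nonneg _) (hz.trans (le_max_left _ _)) n)
    (by positivity) ((norm_nonneg _).trans b3)

end Pool.Agent.H27.Tab
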