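import Mathlib

set_option autoImplicit false

namespace Pool.Agent.H27.Tb

open Filter Topology Finset

variable {𝕜 : Type} [RCLike 𝕜] {E : Type} [NormedAddCommGroup E] [NormedSpace 𝕜 E]

/-- Consistent matrices. -/
def Consistent (t : ℕ → ℕ → 𝕜) : Prop :=
  (∃ B : ℝ, ∀ n, Summable (fun m => ‖t n m‖) ∧ ∑' m, ‖t n m‖ ≤ B) ∧
  (∀ m, Tendsto (fun n => t n m) atTop (𝓝 0)) ∧ Tendsto (fun n => ∑' m, t n m) atTop (𝓝 1)

/-- The coefficients `α` give a `T`-expansion of `v` in `x`. -/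
def TSum (t : ℕ → ℕ → 𝕜) (x : ℕ → E) (α : ℕ → 𝕜) (v : E) : Prop :=
  ∃ σ : ℕ → E, (∀ n, Tendsto (fun m => ∑ j ∈ range m, t n j • ∑ i ∈ range (j + 1), α i • x i)
    atTop (𝓝 (σ n))) ∧ Tendsto σ atTop (𝓝 v)

/-- `T`-bases. -/
def IsTBasis (t : ℕ → ℕ → 𝕜) (x : ℕ → E) : Prop := ∀ v : E, ∃! α : ℕ → 𝕜, TSum t x α v

/-- M-bases with their functionals. -/
def IsMBasis (x : ℕ → E) (f : ℕ → E →L[𝕜] 𝕜) : Prop :=
  (∀ i j, f i (x j) = if i = j then 1 else 0) ∧
  Dense (Submodule.span 𝕜 (Set.range x) : Set E) ∧ ∀ v, (∀ i, f i v = 0) → v = 0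

/-- Gamma-bases. -/
def IsGammaBasis (𝕜 : Type) [RCLike 𝕜] [NormedSpace 𝕜 E] (x : ℕ → E) : Prop :=
  ∃ f : ℕ → E →L[𝕜] 𝕜, IsMBasis x f ∧ ∃ l : ℕ → ℕ → 𝕜,
    (∀ i, Tendsto (fun n => l n i) atTop (𝓝 1)) ∧
    (∃ B : ℝ, ∀ n, Summable (fun i => ‖l n i - l n (i + 1)‖) ∧ ∑' i, ‖l n i - l n (i + 1)‖ ≤ B) ∧
    ∀ v : E, ∃ τ : ℕ → E,
      (∀ n, Tendsto (fun m => ∑ i ∈ range m, (l n i * f i v) • x i) atTop (𝓝 (τ n))) ∧
      Tendsto τ atTop (𝓝 v)

lemma abl (a : ℕ → 𝕜) (y : ℕ → E) (m : ℕ) :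
    ∑ j ∈ range m, (a j - a (j + 1)) • ∑ i ∈ range (j + 1), y i =
      ∑ i ∈ range m, (a i - a m) • y i := by
  induction m with
  | zero => simp
  | succ m ih =>
    rw [sum_range_succ, ih, smul_sum, sum_range_succ, sum_range_succ (fun i => (a i - a (m + 1)) • y i),
      ← add_assoc, ← sum_add_distrib]
    congr 1
    refine sum_congr rfl (fun i _ => ?_)
    rw [← add_smul]
    congr 1
    ring

lemma lim_single (a : ℕ → 𝕜) (ha : Tendsto a atTop (𝓝 0)) (x : ℕ → E) (k : ℕ) :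
    Tendsto (fun m => ∑ j ∈ range m, (a j - a (j + 1)) •
      ∑ i ∈ range (j + 1), (if i = k then (1 : 𝕜) else 0) • x i) atTop (𝓝 (a k • x k)) := by
  have h : Tendsto (fun m => (a k - a m) • x k) atTop (𝓝 ((a k - 0) • x k)) :=
    (tendsto_const_nhds.sub ha).smul_const _
  rw [sub_zero] at h
  refine h.congr' ?_
  filter_upwards [eventually_gt_atTop k] with m hm
  rw [abl]
  simp only [ite_smul, one_smul, zero_smul, smul_ite, smul_zero]
  rw [sum_ite_eq' (range m) k, if_pos (mem_range.2 hm)]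

lemma tails (t : ℕ → ℕ → 𝕜) (ht : Consistent t) : ∃ (l : ℕ → ℕ → 𝕜) (B : ℝ),
    (∀ n j, t n j = l n j - l n (j + 1)) ∧ (∀ n, Tendsto (l n) atTop (𝓝 0)) ∧
    (∀ j, Tendsto (fun n => l n j) atTop (𝓝 1)) ∧ (∀ n j, ‖l n j‖ ≤ B) ∧
    ∀ n, Summable (fun m => ‖t n m‖) ∧ ∑' m, ‖t n m‖ ≤ B := by
  obtain ⟨⟨B, hB⟩, h0, h1⟩ := ht
  have s : ∀ n, Summable (t n) := fun n => (hB n).1.of_norm
  refine ⟨fun n j => ∑' k, t n (k + j), B, fun n j => ?_, fun n => tendsto_sum_nat_add _,
    fun j => ?_, fun n j => ?_, hB⟩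
  · beta_reduce
    rw [((summable_nat_add_iff j).2 (s n)).tsum_eq_zero_add]
    simp only [zero_add, add_assoc, add_comm 1 j, add_sub_cancel_right]
  · have h := h1.sub (tendsto_finsetSum (range j) (fun m _ => h0 m))
    simp only [sum_const_zero, sub_zero] at h
    refine h.congr (fun n => ?_)
    rw [← (s n).sum_add_tsum_nat_add j, add_sub_cancel_left]
  · have s2 := (summable_nat_add_iff j).2 (hB n).1
    refine le_trans (norm_tsum_le_tsum_norm s2) (le_trans ?_ (hB n).2)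
    rw [← (hB n).1.sum_add_tsum_nat_add j]
    exact le_add_of_nonneg_left (sum_nonneg (fun _ _ => norm_nonneg _))

lemma dirichlet {F : Type} [NormedAddCommGroup F] [NormedSpace 𝕜 F] [CompleteSpace F]
    (c : ℕ → 𝕜) (hc : Tendsto c atTop (𝓝 0)) (hv : Summable (fun j => ‖c j - c (j + 1)‖))
    (w : ℕ → F) (C : ℝ) (hC : ∀ m, ‖∑ j ∈ range m, w j‖ ≤ C) :
    ∃ V : F, Tendsto (fun m => ∑ j ∈ range m, c j • w j) atTop (𝓝 V) := by
  have s : Summable (fun j => (c j - c (j + 1)) • ∑ i ∈ range (j + 1), w i) :=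
    Summable.of_norm_bounded (hv.mul_right C) (fun j => by
      rw [norm_smul]; exact mul_le_mul_of_nonneg_left (hC _) (norm_nonneg _))
  have z : Tendsto (fun m => c m • ∑ j ∈ range m, w j) atTop (𝓝 0) := by
    have h := hc.norm.mul_const C
    rw [norm_zero, zero_mul] at h
    refine squeeze_zero_norm (fun m => ?_) h
    rw [norm_smul]
    exact mul_le_mul_of_nonneg_left (hC _) (norm_nonneg _)
  refine ⟨_, (s.hasSum.tendsto_sum_nat.add z).congr (fun m => ?_)⟩
  rw [abl, smul_sum, ← sum_add_distrib]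
  refine sum_congr rfl (fun i _ => ?_)
  rw [← add_smul, sub_add_cancel]

theorem gamma_of_cont [CompleteSpace E] (t : ℕ → ℕ → 𝕜) (ht : Consistent t) (x : ℕ → E)
    (hx : IsTBasis t x) (f : ℕ → E →L[𝕜] 𝕜) (hf : ∀ v, TSum t x (fun i => f i v) v) :
    IsGammaBasis 𝕜 x := by
  obtain ⟨l, B, e, l0, l1, lB, tB⟩ := tails t ht
  have bi : ∀ i j, f i (x j) = if i = j then 1 else 0 := by
    intro i j
    have : TSum t x (fun i => if i = j then (1 : 𝕜) else 0) (x j) := by
      refine ⟨fun n => l n j • x j, fun n => ?_, by simpa using (l1 j).smul_const (x j)⟩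
      simp only [e]
      exact lim_single (l n) (l0 n) x j
    exact congrFun ((hx (x j)).unique (hf _) this) i
  have de : Dense (Submodule.span 𝕜 (Set.range x) : Set E) := by
    intro v
    obtain ⟨σ, h1, h2⟩ := hf v
    refine isClosed_closure.mem_of_tendsto h2 (Eventually.of_forall (fun n => ?_))
    refine mem_closure_of_tendsto (h1 n) (Eventually.of_forall (fun m => ?_))
    exact Submodule.sum_mem _ (fun j _ => Submodule.smul_mem _ _ (Submodule.sum_mem _ (fun i _ =>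
      Submodule.smul_mem _ _ (Submodule.subset_span ⟨i, rfl⟩))))
  have tot : ∀ v, (∀ i, f i v = 0) → v = 0 := by
    intro v hv
    obtain ⟨σ, h1, h2⟩ := hf v
    have : σ = fun _ => 0 := funext (fun n => tendsto_nhds_unique (h1 n) (by simp [hv]))
    rw [this] at h2
    exact tendsto_nhds_unique h2 tendsto_const_nhds
  set S : ℕ → E →L[𝕜] E := fun j => ∑ i ∈ range (j + 1), (f i).smulRight (x i) with hS
  have Sv : ∀ (a : ℕ → 𝕜) m v, (∑ j ∈ range m, a j • S j) v =
      ∑ j ∈ range m, a j • ∑ i ∈ range (j + 1), f i v • x i := by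
    intro a m v
    simp [hS, ContinuousLinearMap.sum_apply]
  choose σ h1 h2 using hf
  have hU : ∀ n v, Tendsto (fun m => (∑ j ∈ range m, t n j • S j) v) atTop (𝓝 (σ v n)) :=
    fun n v => by simp only [Sv]; exact h1 v n
  set P : ℕ → E →L[𝕜] E := fun n => continuousLinearMapOfTendsto
    (fun m => ∑ j ∈ range m, t n j • S j) (f := fun v => σ v n) (tendsto_pi_nhds.2 (hU n)) with hP
  have Pv : ∀ n v, P n v = σ v n := fun n v => rfl
  obtain ⟨C, hC⟩ : ∃ C, ∀ n, ‖P n‖ ≤ C := banach_steinhaus (fun v => by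
    obtain ⟨C, hC⟩ := (h2 v).norm.bddAbove_range
    exact ⟨C, fun n => hC ⟨n, rfl⟩⟩)
  have Px : ∀ n k, P n (x k) = l n k • x k := by
    intro n k
    refine tendsto_nhds_unique (h1 (x k) n) ?_
    simp only [e, bi]
    exact lim_single (l n) (l0 n) x k
  have sq : ∀ n j, (l n j + l n (j + 1)) * t n j = l n j ^ 2 - l n (j + 1) ^ 2 := fun n j => by
    rw [e]; ring
  have l2 : ∀ n, Tendsto (fun j => l n j ^ 2) atTop (𝓝 0) := fun n => by
    simpa using (l0 n).pow 2
  have hV : ∀ n, Tendsto (fun m => ∑ j ∈ range m, (l n j ^ 2 - l n (j + 1) ^ 2) • S j) atTop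
      (𝓝 ((P n).comp (P n))) := by
    intro n
    obtain ⟨D, hD⟩ : ∃ D, ∀ m, ‖∑ j ∈ range m, t n j • S j‖ ≤ D := banach_steinhaus (fun v => by
      obtain ⟨C, hC⟩ := (hU n v).norm.bddAbove_range
      exact ⟨C, fun n => hC ⟨n, rfl⟩⟩)
    obtain ⟨V, hV⟩ := dirichlet (fun j => l n j + l n (j + 1))
      (by simpa using (l0 n).add ((tendsto_add_atTop_iff_nat 1).2 (l0 n)))
      (Summable.of_nonneg_of_le (fun _ => norm_nonneg _) (fun j => by
        rw [show l n j + l n (j + 1) - (l n (j + 1) + l n (j + 1 + 1)) = t n j + t n (j + 1) by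
          rw [e, e]; ring]
        exact norm_add_le _ _) ((tB n).1.add ((summable_nat_add_iff 1).2 (tB n).1)))
      (fun j => t n j • S j) D hD
    simp only [smul_smul, sq] at hV
    have : V = (P n).comp (P n) := by
      refine ContinuousLinearMap.ext_on de ?_
      rintro _ ⟨k, rfl⟩
      have a1 := ((ContinuousLinearMap.apply 𝕜 E (x k)).continuous.tendsto V).comp hV
      refine tendsto_nhds_unique a1 ?_
      have a2 := lim_single (fun j => l n j ^ 2) (l2 n) x k
      rw [ContinuousLinearMap.comp_apply, Px, map_smul, Px, smul_smul, ← pow_two]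
      refine a2.congr (fun m => ?_)
      simp only [Function.comp, ContinuousLinearMap.apply_apply, Sv, bi]
    rwa [this] at hV
  have ch : ∀ n : ℕ, ∃ m, n ≤ m ∧ ‖l n m ^ 2‖ ≤ 1 / ((n : ℝ) + 1) ∧
      ‖∑ j ∈ range m, (l n j ^ 2 - l n (j + 1) ^ 2) • S j - (P n).comp (P n)‖ ≤
        1 / ((n : ℝ) + 1) := by
    intro n
    have p : (0 : ℝ) < 1 / ((n : ℝ) + 1) := by positivity
    have a1 := (tendsto_zero_iff_norm_tendsto_zero.1 (l2 n)).eventually_le_const p
    have a2 := (tendsto_iff_norm_sub_tendsto_zero.1 (hV n)).eventually_le_const p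
    exact ((eventually_ge_atTop n).and (a1.and a2)).exists
  choose m m1 m2 m3 using ch
  have z := tendsto_one_div_add_atTop_nhds_zero_nat (𝕜 := ℝ)
  have B0 : 0 ≤ B := le_trans (norm_nonneg _) (lB 0 0)
  refine ⟨f, ⟨bi, de, tot⟩, fun n i => if i < m n then l n i ^ 2 - l n (m n) ^ 2 else 0,
    fun i => ?_, ⟨2 * B * B, fun n => ?_⟩, fun v => ?_⟩
  · have a := ((l1 i).pow 2).sub (squeeze_zero_norm m2 z)
    rw [one_pow, sub_zero] at a
    refine a.congr' ?_
    filter_upwards [eventually_gt_atTop i] with n hn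
    rw [if_pos (lt_of_lt_of_le hn (m1 n))]
  · have b : ∀ i, ‖(if i < m n then l n i ^ 2 - l n (m n) ^ 2 else 0) -
        (if i + 1 < m n then l n (i + 1) ^ 2 - l n (m n) ^ 2 else 0)‖ ≤ 2 * B * ‖t n i‖ := by
      intro i
      have q : ‖l n i ^ 2 - l n (i + 1) ^ 2‖ ≤ 2 * B * ‖t n i‖ := by
        rw [← sq, norm_mul]
        refine mul_le_mul_of_nonneg_right (le_trans (norm_add_le _ _) ?_) (norm_nonneg _)
        linarith [lB n i, lB n (i + 1)]
      rcases lt_trichotomy (i + 1) (m n) with h | h | h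
      · rw [if_pos (by omega), if_pos h, sub_sub_sub_cancel_right]; exact q
      · rw [if_pos (by omega), if_neg (by omega), ← h, sub_zero]; exact q
      · rw [if_neg (by omega), if_neg (by omega), sub_zero, norm_zero]; positivity
    have s := (tB n).1.mul_left (2 * B)
    have s' := Summable.of_nonneg_of_le (fun _ => norm_nonneg _) b s
    refine ⟨s', le_trans (s'.tsum_le_tsum b s) ?_⟩
    rw [tsum_mul_left]
    exact mul_le_mul_of_nonneg_left (tB n).2 (by positivity)
  · refine ⟨fun n => (∑ j ∈ range (m n), (l n j ^ 2 - l n (j + 1) ^ 2) • S j) v, fun n => ?_, ?_⟩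
    · refine tendsto_const_nhds.congr' ?_
      filter_upwards [eventually_ge_atTop (m n)] with k hk
      rw [Sv, abl (fun j => l n j ^ 2), ← sum_range_add_sum_Ico _ hk, sum_eq_zero (s := Ico _ _),
        add_zero]
      · refine sum_congr rfl (fun i hi => ?_)
        rw [if_pos (mem_range.1 hi), smul_smul]
      · intro i hi
        rw [if_neg (not_lt.2 (mem_Ico.1 hi).1), zero_mul, zero_smul]
    · rw [tendsto_iff_norm_sub_tendsto_zero]
      have a := tendsto_iff_norm_sub_tendsto_zero.1 (h2 v)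
      have b := (z.mul_const ‖v‖).add ((a.const_mul C).add a)
      simp only [zero_mul, mul_zero, add_zero] at b
      refine squeeze_zero (fun _ => norm_nonneg _) (fun n => ?_) b
      set W := ∑ j ∈ range (m n), (l n j ^ 2 - l n (j + 1) ^ 2) • S j
      have e1 : W v - v = (W - (P n).comp (P n)) v + (P n (σ v n - v) + (σ v n - v)) := by
        rw [ContinuousLinearMap.sub_apply, ContinuousLinearMap.comp_apply, map_sub, Pv n v]
        simp only [sub_eq_add_neg, neg_add, neg_neg]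
        abel_nf
      rw [e1]
      refine le_trans (norm_add_le _ _) (add_le_add ?_ (le_trans (norm_add_le _ _)
        (add_le_add ?_ le_rfl)))
      · exact le_trans (ContinuousLinearMap.le_opNorm _ _)
          (mul_le_mul_of_nonneg_right (m3 n) (norm_nonneg _))
      · exact le_trans (ContinuousLinearMap.le_opNorm _ _)
          (mul_le_mul_of_nonneg_right (hC n) (norm_nonneg _))

end Pool.Agent.H27.Tb
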