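import Pool.Agent.H27.Tb1

set_option autoImplicit false

namespace Pool.Agent.H27.Tb

open Filter Topology Finset

variable {𝕜 : Type} [RCLike 𝕜] {E : Type} [NormedAddCommGroup E] [NormedSpace 𝕜 E]

lemma baire_ball [CompleteSpace E] (B : ℝ → Set E) (h1 : ∀ v, ∃ N : ℕ, v ∈ B (N + 1))
    (h2 : ∀ r a b, a ∈ B r → b ∈ B r → a - b ∈ B (2 * r))
    (h3 : ∀ (r c : ℝ) a, 0 < c → a ∈ B r → (c : 𝕜) • a ∈ B (c * r)) (ε : ℝ) (hε : 0 < ε) :
    ∃ δ : ℝ, 0 < δ ∧ ∀ w : E, ‖w‖ < δ → ∀ η : ℝ, 0 < η → ∃ a ∈ B ε, ‖w - a‖ < η := by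
  obtain ⟨N, v₀, hv₀⟩ := nonempty_interior_of_iUnion_of_closed
    (f := fun N : ℕ => closure (B (N + 1))) (fun _ => isClosed_closure) (by
      refine Set.eq_univ_of_forall (fun v => ?_)
      obtain ⟨N, hN⟩ := h1 v
      exact Set.mem_iUnion.2 ⟨N, subset_closure hN⟩)
  obtain ⟨ρ, ρ0, hρ⟩ := Metric.mem_nhds_iff.1 (mem_interior_iff_mem_nhds.1 hv₀)
  set c : ℝ := ε / (2 * ((N : ℝ) + 1)) with hc
  have c0 : 0 < c := by positivity
  have cn : (c : 𝕜) ≠ 0 := by exact_mod_cast c0.ne'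
  have nc : ‖(c : 𝕜)‖ = c := by rw [RCLike.norm_ofReal, abs_of_pos c0]
  refine ⟨c * ρ, by positivity, fun w hw η hη => ?_⟩
  have m1 : v₀ + (c : 𝕜)⁻¹ • w ∈ closure (B (N + 1)) := hρ (by
    rw [mem_ball_iff_norm, add_sub_cancel_left, norm_smul, norm_inv, nc, inv_mul_lt_iff₀ c0]
    exact hw)
  have m2 : v₀ ∈ closure (B (N + 1)) := hρ (Metric.mem_ball_self ρ0)
  obtain ⟨a, ha, da⟩ := Metric.mem_closure_iff.1 m1 (η / (2 * c)) (by positivity)
  obtain ⟨b, hb, db⟩ := Metric.mem_closure_iff.1 m2 (η / (2 * c)) (by positivity)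
  refine ⟨(c : 𝕜) • (a - b), ?_, ?_⟩
  · have := h3 _ c _ c0 (h2 _ a b ha hb)
    rwa [show c * (2 * ((N : ℝ) + 1)) = ε by rw [hc]; field_simp] at this
  · have e : w - (c : 𝕜) • (a - b) = (c : 𝕜) • ((v₀ + (c : 𝕜)⁻¹ • w - a) - (v₀ - b)) := by
      simp only [smul_sub, smul_add, smul_inv_smul₀ cn]
      abel
    rw [dist_eq_norm] at da db
    rw [e, norm_smul, nc]
    have := norm_sub_le (v₀ + (c : 𝕜)⁻¹ • w - a) (v₀ - b)
    have q : c * (η / (2 * c) + η / (2 * c)) = η := by field_simp; ring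
    rw [← q]
    exact mul_lt_mul_of_pos_left (by linarith) c0

lemma approx (B : ℕ → Set E) (δ : ℕ → ℝ) (δ0 : ∀ j, 0 < δ j) (δ1 : Tendsto δ atTop (𝓝 0))
    (h : ∀ j (w : E), ‖w‖ < δ j → ∀ η : ℝ, 0 < η → ∃ a ∈ B j, ‖w - a‖ < η) (v : E)
    (hv : ‖v‖ < δ 0) :
    ∃ a : ℕ → E, (∀ j, a j ∈ B j) ∧ Tendsto (fun J => ∑ j ∈ range J, a j) atTop (𝓝 v) := by
  choose! g g1 g2 using fun j w hw => h j w hw (δ (j + 1)) (δ0 _)
  let r : ℕ → E := fun j => Nat.rec v (fun j w => w - g j w) j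
  have rs : ∀ j, r (j + 1) = r j - g j (r j) := fun j => rfl
  have rb : ∀ j, ‖r j‖ < δ j := by
    intro j
    induction j with
    | zero => exact hv
    | succ j ih => rw [rs]; exact g2 j _ ih
  refine ⟨fun j => g j (r j), fun j => g1 j _ (rb j), ?_⟩
  have e : ∀ J, ∑ j ∈ range J, g j (r j) = v - r J := by
    intro J
    induction J with
    | zero => simp [r]
    | succ J ih => rw [sum_range_succ, ih, rs]; abel
  simp only [e]
  simpa using tendsto_const_nhds.sub (squeeze_zero_norm (fun j => (rb j).le) δ1)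

/-- Partial sums of the `n`-th mean. -/
def u (t : ℕ → ℕ → 𝕜) (x : ℕ → E) (n m : ℕ) (α : ℕ → 𝕜) : E :=
  ∑ j ∈ range m, t n j • ∑ i ∈ range (j + 1), α i • x i

lemma u_lin (t : ℕ → ℕ → 𝕜) (x : ℕ → E) (n m : ℕ) (c : 𝕜) (α β : ℕ → 𝕜) :
    u t x n m (c • α + β) = c • u t x n m α + u t x n m β := by
  simp only [u, Pi.add_apply, Pi.smul_apply, smul_eq_mul, add_smul, sum_add_distrib, smul_add,
    mul_smul, ← smul_sum]
  congr 1
  rw [smul_sum]
  exact sum_congr rfl (fun j _ => smul_comm _ _ _)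

theorem cont [CompleteSpace E] (t : ℕ → ℕ → 𝕜) (x : ℕ → E) (hx : IsTBasis t x) :
    ∃ f : ℕ → E →L[𝕜] 𝕜, ∀ v, TSum t x (fun i => f i v) v := by
  choose L hL hU using hx
  have hL' := hL
  choose σ h1 h2 using hL'
  have h1' : ∀ v n, Tendsto (fun m => u t x n m (L v)) atTop (𝓝 (σ v n)) := h1
  have lim : ∀ (c : 𝕜) a b n, Tendsto (fun m => u t x n m (c • L a + L b)) atTop
      (𝓝 (c • σ a n + σ b n)) := fun c a b n => by
    simp only [u_lin]
    exact ((h1' a n).const_smul c).add (h1' b n)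
  have lin : ∀ (c : 𝕜) a b, L (c • a + b) = c • L a + L b := fun c a b =>
    (hU _ _ ⟨_, lim c a b, ((h2 a).const_smul c).add (h2 b)⟩).symm
  have slin : ∀ (c : 𝕜) a b n, σ (c • a + b) n = c • σ a n + σ b n := fun c a b n =>
    tendsto_nhds_unique (h1' _ n) (by rw [lin]; exact lim c a b n)
  have L0 : L 0 = 0 := by simpa using lin (-1) 0 0
  have s0 : ∀ n, σ 0 n = 0 := fun n => by simpa using slin (-1) 0 0 n
  have u0 : ∀ n m, u t x n m 0 = 0 := fun n m => by simp [u]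
  set B : ℕ → ℝ → Set E := fun k r => {v | (∀ n ≤ k, ∀ m, ‖u t x n m (L v)‖ ≤ r) ∧
    (∀ n, ‖σ v n‖ ≤ r) ∧ ∀ i ≤ k, ‖L v i‖ ≤ r} with hB
  have comb : ∀ k (c : 𝕜) r s a b, a ∈ B k r → b ∈ B k s → c • a + b ∈ B k (‖c‖ * r + s) := by
    rintro k c r s a b ⟨a1, a2, a3⟩ ⟨b1, b2, b3⟩
    refine ⟨fun n hn m => ?_, fun n => ?_, fun i hi => ?_⟩
    · rw [lin, u_lin]
      refine le_trans (norm_add_le _ _) (add_le_add ?_ (b1 n hn m))
      rw [norm_smul]; exact mul_le_mul_of_nonneg_left (a1 n hn m) (norm_nonneg _)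
    · rw [slin]
      refine le_trans (norm_add_le _ _) (add_le_add ?_ (b2 n))
      rw [norm_smul]; exact mul_le_mul_of_nonneg_left (a2 n) (norm_nonneg _)
    · rw [lin, Pi.add_apply, Pi.smul_apply]
      refine le_trans (norm_add_le _ _) (add_le_add ?_ (b3 i hi))
      rw [norm_smul]; exact mul_le_mul_of_nonneg_left (a3 i hi) (norm_nonneg _)
  have z0 : ∀ k, (0 : E) ∈ B k 0 := fun k =>
    ⟨fun n _ m => by rw [L0, u0, norm_zero], fun n => by rw [s0, norm_zero],
      fun i _ => by rw [L0]; simp⟩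
  have cov : ∀ k v, ∃ N : ℕ, v ∈ B k (N + 1) := by
    intro k v
    choose C hC using fun n => (h1' v n).norm.bddAbove_range
    obtain ⟨D, hD⟩ := (h2 v).norm.bddAbove_range
    obtain ⟨N, hN⟩ := exists_nat_ge (∑ n ∈ range (k + 1), |C n| + |D| + ∑ i ∈ range (k + 1), ‖L v i‖)
    have p1 : 0 ≤ ∑ n ∈ range (k + 1), |C n| := sum_nonneg (fun _ _ => abs_nonneg _)
    have p2 : 0 ≤ ∑ i ∈ range (k + 1), ‖L v i‖ := sum_nonneg (fun _ _ => norm_nonneg _)
    refine ⟨N, fun n hn m => ?_, fun n => ?_, fun i hi => ?_⟩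
    · have a := hC n ⟨m, rfl⟩
      have b := single_le_sum (f := fun n => |C n|) (fun _ _ => abs_nonneg _)
        (mem_range.2 (Nat.lt_succ_of_le hn))
      linarith [le_abs_self (C n), abs_nonneg D]
    · have a := hD ⟨n, rfl⟩
      linarith [le_abs_self D]
    · have b := single_le_sum (f := fun i => ‖L v i‖) (fun _ _ => norm_nonneg _)
        (mem_range.2 (Nat.lt_succ_of_le hi))
      linarith [abs_nonneg D]
  have ball : ∀ k (ε : ℝ), 0 < ε → ∃ δ : ℝ, 0 < δ ∧ ∀ w : E, ‖w‖ < δ → ∀ η : ℝ, 0 < η →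
      ∃ a ∈ B k ε, ‖w - a‖ < η := fun k => baire_ball (𝕜 := 𝕜) (B k) (cov k) (fun r a b ha hb => by
        have := comb k (-1) r r b a hb ha
        rwa [neg_one_smul, neg_add_eq_sub, norm_neg, norm_one, one_mul, ← two_mul] at this)
      (fun r c a c0 ha => by
        have := comb k c r 0 a 0 ha (z0 k)
        rwa [add_zero, add_zero, RCLike.norm_ofReal, abs_of_pos c0] at this)
  have geo : Summable (fun j : ℕ => (1 / 2 : ℝ) ^ j) := summable_geometric_two
  have bd : ∀ k, ∃ δ : ℝ, 0 < δ ∧ ∀ v : E, ‖v‖ < δ → ‖L v k‖ ≤ 2 := by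
    intro k
    choose δ d0 d1 using fun j : ℕ => ball (j + k) ((1 / 2) ^ j) (by positivity)
    refine ⟨min (δ 0) ((1 / 2) ^ 0), lt_min (d0 0) (by positivity), fun v hv => ?_⟩
    obtain ⟨a, ha, hs⟩ := approx (fun j => B (j + k) ((1 / 2) ^ j))
      (fun j => min (δ j) ((1 / 2) ^ j)) (fun j => lt_min (d0 j) (by positivity))
      (squeeze_zero (fun j => (lt_min (d0 j) (by positivity)).le) (fun j => min_le_right _ _)
        geo.tendsto_atTop_zero)
      (fun j w hw => d1 j w (lt_of_lt_of_le hw (min_le_left _ _))) v hv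
    have sL : ∀ i, Summable (fun j => L (a j) i) := fun i =>
      Summable.of_norm_bounded_eventually_nat geo (by
        filter_upwards [eventually_ge_atTop i] with j hj
        exact (ha j).2.2 i (by omega))
    have sa : ∀ j, ‖a j‖ ≤ (1 / 2) ^ j := fun j =>
      le_of_tendsto' (h2 (a j)).norm (fun n => (ha j).2.1 n)
    have sv : ∑' j, a j = v :=
      tendsto_nhds_unique (Summable.of_norm_bounded geo sa).hasSum.tendsto_sum_nat hs
    have hu : ∀ n m, HasSum (fun j => u t x n m (L (a j))) (u t x n m (fun i => ∑' j, L (a j) i)) :=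
      fun n m => hasSum_sum (fun j _ => (hasSum_sum (fun i _ =>
        (sL i).hasSum.smul_const (x i))).const_smul _)
    have T : TSum t x (fun i => ∑' j, L (a j) i) v := by
      refine ⟨fun n => ∑' j, σ (a j) n, fun n => ?_, ?_⟩
      · choose C hC using fun j => (h1' (a j) n).norm.bddAbove_range
        have sb : Summable (fun j => if j < n then C j else (1 / 2 : ℝ) ^ j) :=
          Summable.of_norm_bounded_eventually_nat geo (by
            filter_upwards [eventually_ge_atTop n] with j hj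
            rw [if_neg (not_lt.2 hj), Real.norm_eq_abs, abs_of_pos (by positivity)])
        have := tendsto_tsum_of_dominated_convergence (𝓕 := atTop)
          (f := fun m j => u t x n m (L (a j))) sb (fun j => h1' (a j) n)
          (Eventually.of_forall (fun m j => by
            split_ifs with hj
            · exact hC j ⟨m, rfl⟩
            · exact (ha j).1 n (by omega) m))
        exact this.congr (fun m => (hu n m).tsum_eq)
      · rw [← sv]
        exact tendsto_tsum_of_dominated_convergence (f := fun n j => σ (a j) n) geo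
          (fun j => h2 (a j)) (Eventually.of_forall (fun n j => (ha j).2.1 n))
    rw [← hU v _ T, ← tsum_geometric_two]
    exact tsum_of_norm_bounded geo.hasSum (fun j => (ha j).2.2 k (by omega))
  let g : ℕ → E →ₗ[𝕜] 𝕜 := fun i =>
    { toFun := fun v => L v i
      map_add' := fun a b => by simpa using congrFun (lin 1 a b) i
      map_smul' := fun c a => by simpa [L0] using congrFun (lin c a 0) i }
  have gc : ∀ i, Continuous (g i) := by
    intro i
    obtain ⟨δ, d0, d1⟩ := bd i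
    obtain ⟨C, hC⟩ := LinearMap.bound_of_ball_bound d0 2 (g i)
      (fun z hz => d1 z (mem_ball_zero_iff.1 hz))
    exact AddMonoidHomClass.continuous_of_bound (g i) C hC
  exact ⟨fun i => ⟨g i, gc i⟩, hL⟩

theorem main [CompleteSpace E] (t : ℕ → ℕ → 𝕜) (ht : Consistent t) (x : ℕ → E)
    (hx : IsTBasis t x) : IsGammaBasis 𝕜 x := by
  obtain ⟨f, hf⟩ := cont t x hx
  exact gamma_of_cont t ht x hx f hf

end Pool.Agent.H27.Tb
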