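import Mathlib

namespace Pool.Agent.H27.Tri
open Complex Set Filter Topology MeasureTheory Finset
open scoped Real

noncomputable abbrev H := lp (fun _ : ℕ => ℂ) 2

noncomputable def L (n : ℕ) : ℝ := Real.log (Real.log (n + 3))

noncomputable def h (l : ℕ) : ℝ := L (l + 2) - L l

noncomputable def m (i j : ℕ) : ℝ := if Odd i ∧ Even j then h (i - 1 - j) else 0

lemma l1 (n : ℕ) : 1 ≤ Real.log (n + 3) := (Real.le_log_iff_exp_le (by positivity)).2 <| by
  linarith [Real.exp_one_lt_d9, n.cast_nonneg (α := ℝ)]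

lemma Lm : Monotone L := fun a b hab => Real.log_le_log (by linarith [l1 a])
  (Real.log_le_log (by positivity) (by simpa))

lemma h0 (l : ℕ) : 0 ≤ h l := sub_nonneg.2 (Lm (by omega))

lemma m0 (i j : ℕ) : 0 ≤ m i j := by unfold m; split_ifs; exacts [h0 _, le_rfl]

lemma hs (N : ℕ) : ∑ l ∈ range N, (l + 1) * h l ^ 2 ≤ 8 := by
  set w : ℕ → ℝ := fun n => (Real.log (n + 3))⁻¹ with hw
  have w0 : ∀ n, 0 ≤ w n := fun n => inv_nonneg.2 (by linarith [l1 n])
  have w1 : ∀ n, w n ≤ 1 := fun n => inv_le_one_of_one_le₀ (l1 n)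
  refine (sum_le_sum (g := fun l => 4 * (w l + w (l + 1)) - 4 * (w (l + 1) + w (l + 1 + 1)))
    fun l _ => ?_).trans ?_
  swap
  · rw [sum_range_sub' fun l => 4 * (w l + w (l + 1))]
    linarith [w1 0, w1 (0 + 1), w0 N, w0 (N + 1)]
  have a := l1 l
  have b := l1 (l + 2)
  have l0 := l.cast_nonneg (α := ℝ)
  have d := Real.log_le_sub_one_of_pos (x := ((l + 2 : ℕ) + 3) / (l + 3)) (by positivity)
  have d0 : Real.log (l + 3) ≤ Real.log ((l + 2 : ℕ) + 3) :=
    Real.log_le_log (by positivity) (by simp)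
  have k := Real.log_le_sub_one_of_pos (x := Real.log ((l + 2 : ℕ) + 3) / Real.log (l + 3))
    (by positivity)
  have k0 := h0 l
  rw [Real.log_div (by positivity) (by positivity)] at d k
  simp only [hw, h, L, add_assoc l, one_add_one_eq_two] at *
  generalize Real.log (l + 3) = A at *
  generalize Real.log ((l + 2 : ℕ) + 3) = B at *
  generalize Real.log B - Real.log A = x at *
  rw [div_sub_one (by positivity), le_div_iff₀ (by positivity)] at d k
  push_cast at d
  have e : 4 * (A⁻¹ + (Real.log (↑(l + 1) + 3))⁻¹) - 4 * ((Real.log (↑(l + 1) + 3))⁻¹ + B⁻¹) =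
      4 * (B - A) / (A * B) := by field_simp; ring
  rw [e, le_div_iff₀ (by positivity)]
  have p1 : (x * A) ^ 2 ≤ (B - A) ^ 2 := pow_le_pow_left₀ (by positivity) k 2
  have p2 : B ≤ 2 * A := by nlinarith
  have p3 : (l + 1) * (B - A) ^ 2 ≤ 2 * (B - A) := by nlinarith
  have p4 : (l + 1) * x ^ 2 * (A * B) ≤ (l + 1) * x ^ 2 * (A * (2 * A)) := by gcongr
  nlinarith [mul_le_mul_of_nonneg_left p1 (by positivity : (0 : ℝ) ≤ l + 1)]

lemma HS (u : ℕ → ℝ) (hu : Monotone u) (u0 : ∀ i, 0 ≤ u i) (u1 : ∀ i, u i ≤ 1) (N : ℕ) :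
    ∑ i ∈ range N, ∑ j ∈ range i, m i j ^ 2 * (u i - u j) ≤ 8 := by
  have t : ∀ l : ℕ, ∑ i ∈ range N, (u i - u (i - l)) ≤ l := fun l => by
    induction l with
    | zero => simp
    | succ l ih =>
      have := sum_range_sub (fun i => u (i - 1 - l)) N
      have e : ∑ i ∈ range N, (u i - u (i - (l + 1))) = ∑ i ∈ range N, (u i - u (i - l)) +
          ∑ i ∈ range N, (u (i + 1 - 1 - l) - u (i - 1 - l)) := by
        rw [← sum_add_distrib]
        refine sum_congr rfl fun i _ => ?_
        rw [Nat.add_sub_cancel, Nat.sub_sub, add_comm 1 l]; ring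
      rw [e, this]; push_cast
      linarith [u0 (0 - 1 - l), u1 (N - 1 - l)]
  refine le_trans ?_ ((sum_le_sum fun l _ => mul_le_mul_of_nonneg_right
    (by exact_mod_cast t (l + 1)) (sq_nonneg (h l))).trans (hs N))
  simp only [sum_mul]
  rw [sum_comm]
  refine sum_le_sum fun i hi => le_trans ?_ (sum_le_sum_of_subset_of_nonneg
    (range_mono (mem_range.1 hi).le) fun l _ _ => mul_nonneg (sub_nonneg.2 (hu (Nat.sub_le _ _)))
      (sq_nonneg _))
  rw [← sum_range_reflect fun l => (u i - u (i - (l + 1))) * h l ^ 2]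
  refine sum_le_sum fun j hj => ?_
  have hj := mem_range.1 hj
  rw [show i - (i - 1 - j + 1) = j by omega, mul_comm]
  refine mul_le_mul_of_nonneg_left ?_ (sub_nonneg.2 (hu hj.le))
  unfold m; split_ifs
  exacts [le_rfl, by simp [sq_nonneg]]

noncomputable def act (g x : ℕ → ℂ) (i : ℕ) : ℂ :=
  g i * x i + ∑ j ∈ range i, m i j * (g i - g j) * x j

def Rep (S : H →L[ℂ] H) (g : ℕ → ℂ) : Prop := ∀ (x : H) i, S x i = act g x i

lemma act_mul (f g x : ℕ → ℂ) : act f (act g x) = act (f * g) x := funext fun i => by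
  have : ∀ j, m i j * (f i - f j) * act g x j = m i j * (f i - f j) * (g j * x j) := fun j => by
    rcases Nat.even_or_odd j with e | e
    · simp [act, m, Nat.not_odd_iff_even.2 e]
    · simp [m, Nat.not_even_iff_odd.2 e]
  rw [act, act, act]
  simp only [this, Pi.mul_apply]
  rw [mul_add, mul_sum, add_assoc, ← sum_add_distrib, mul_assoc]
  congr 1; exact sum_congr rfl fun j _ => by ring

lemma act_one (x : ℕ → ℂ) : act 1 x = x := funext fun i => by simp [act]

lemma Rep.mul {S U f g} (h : Rep S f) (k : Rep U g) : Rep (S * U) (f * g) := fun x i => by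
  rw [← act_mul, ← funext (k x), ← h]; rfl

lemma Rep.ext {S U f} (h : Rep S f) (k : Rep U f) : S = U := by
  ext x i; rw [h, k]

lemma Rep.one : Rep 1 1 := fun x i => by rw [act_one]; rfl

lemma Rep.smul {S f} (h : Rep S f) (a : ℂ) : Rep (a • S) (a • f) := fun x i => by
  change a * S x i = _
  rw [h, act, act, mul_add, mul_sum, ← mul_assoc]
  congr 1; exact sum_congr rfl fun j _ => by simp; ring

lemma Rep.sub {S U f g} (h : Rep S f) (k : Rep U g) : Rep (S - U) (f - g) := fun x i => by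
  change S x i - U x i = _
  rw [h, k, act, act, act, add_sub_add_comm, ← sum_sub_distrib]
  congr 1; exacts [by simp [sub_mul], sum_congr rfl fun j _ => by simp; ring]

lemma Rep.pow {S f} (h : Rep S f) (n : ℕ) : Rep (S ^ n) (f ^ n) := by
  induction n with
  | zero => exact .one
  | succ n ih => rw [pow_succ, pow_succ]; exact ih.mul h

noncomputable def ev (x : H) (i : ℕ) : (H →L[ℂ] H) →L[ℂ] ℂ :=
  (lp.evalCLM ℂ (fun _ : ℕ => ℂ) 2 i).comp (ContinuousLinearMap.apply ℂ H x)

lemma Rep.exp {S f} (h : Rep S f) : Rep (NormedSpace.exp S) fun i => exp (f i) := fun x i => by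
  have k : ∀ i, HasSum (fun n => ((n.factorial⁻¹ : ℂ) • f ^ n) i) (Complex.exp (f i)) := fun i => by
    rw [exp_eq_exp_ℂ]; exact NormedSpace.exp_series_hasSum_exp' (𝕂 := ℂ) _
  refine ((NormedSpace.exp_series_hasSum_exp' (𝕂 := ℂ) S).mapL (ev x i)).unique ?_
  convert! ((k i).mul_right (x i)).add (hasSum_sum (s := range i) fun j _ =>
    (((k i).sub (k j)).mul_left (m i j : ℂ)).mul_right (x j)) using 2 with n
  exact (h.pow n).smul _ x i

lemma Rep.integral {S : ℝ → H →L[ℂ] H} {f : ℝ → ℕ → ℂ} (h : ∀ t, Rep (S t) (f t))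
    (hS : Integrable S) (hf : ∀ i, Integrable (f · i)) : Rep (∫ t, S t) fun i => ∫ t, f t i :=
  fun x i => by
    refine ((ev x i).integral_comp_comm hS).symm.trans ((integral_congr_ae (.of_forall fun t =>
      h t x i)).trans ?_)
    have k : ∀ j, Integrable fun t => m i j * (f t i - f t j) * x j := fun j =>
      (((hf i).sub (hf j)).const_mul _).mul_const _
    simp only [act]
    rw [integral_add ((hf i).mul_const _) (integrable_finset_sum _ fun j _ => k j),
      integral_finset_sum _ fun j _ => k j, integral_mul_const]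
    congr 1
    exact sum_congr rfl fun j _ => by
      rw [integral_mul_const, integral_const_mul, integral_sub (hf i) (hf j)]

lemma ex (u : ℕ → ℝ) (hu : Monotone u) (u0 : ∀ i, 0 ≤ u i) (u1 : ∀ i, u i ≤ 1) (g : ℕ → ℂ) (C : ℝ)
    (g1 : ∀ i, ‖g i‖ ≤ C) (g2 : ∀ i j, j < i → ‖g i - g j‖ ≤ C * (u i - u j)) :
    ∃ S, Rep S g ∧ ‖S‖ ≤ 5 * C := by
  have C0 := (norm_nonneg _).trans (g1 0)
  have key : ∀ (x : H) (s : Finset ℕ), ∑ i ∈ s, ‖act g x i‖ ^ (2 : ENNReal).toReal ≤
      (5 * C * ‖x‖) ^ (2 : ENNReal).toReal := fun x s => by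
    have n := lp.sum_rpow_le_norm_rpow (p := 2) (by simp) x
    simp only [ENNReal.toReal_ofNat, Real.rpow_ofNat] at n ⊢
    obtain ⟨N, hN⟩ := s.exists_nat_subset_range
    refine (sum_le_sum_of_subset_of_nonneg hN fun _ _ _ => sq_nonneg _).trans
      ((sum_le_sum (g := fun i => 2 * C ^ 2 * ‖x i‖ ^ 2 + 2 * C ^ 2 * ‖x‖ ^ 2 *
        ∑ j ∈ range i, m i j ^ 2 * (u i - u j)) fun i _ => ?_).trans ?_)
    · have a : ‖g i * x i‖ ≤ C * ‖x i‖ := by rw [norm_mul]; gcongr; exact g1 i
      have b : ‖∑ j ∈ range i, m i j * (g i - g j) * x j‖ ≤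
          C * ∑ j ∈ range i, m i j * (u i - u j) * ‖x j‖ := by
        rw [mul_sum]
        refine norm_sum_le_of_le _ fun j hj => ?_
        rw [norm_mul, norm_mul, norm_real, Real.norm_of_nonneg (m0 _ _)]
        refine (mul_le_mul_of_nonneg_right (mul_le_mul_of_nonneg_left (g2 i j (mem_range.1 hj))
          (m0 _ _)) (norm_nonneg _)).trans_eq (by ring)
      have c : (∑ j ∈ range i, m i j * (u i - u j) * ‖x j‖) ^ 2 ≤
          (∑ j ∈ range i, m i j ^ 2 * (u i - u j)) * ‖x‖ ^ 2 :=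
        (sum_mul_sq_le_sq_mul_sq _ _ _).trans (mul_le_mul (sum_le_sum fun j hj => by
          have := hu (mem_range.1 hj).le
          rw [mul_pow]
          exact mul_le_mul_of_nonneg_left (by nlinarith [u0 j, u1 i]) (sq_nonneg _)) (n _)
            (by positivity) (sum_nonneg fun j hj => mul_nonneg (sq_nonneg _)
              (sub_nonneg.2 (hu (mem_range.1 hj).le))))
      have d := pow_le_pow_left₀ (norm_nonneg _) ((norm_add_le _ _).trans (add_le_add a b)) 2
      rw [act]
      nlinarith [mul_le_mul_of_nonneg_left c (sq_nonneg C),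
        sq_nonneg (C * ‖x i‖ - C * ∑ j ∈ range i, m i j * (u i - u j) * ‖x j‖)]
    · rw [sum_add_distrib, ← mul_sum, ← mul_sum]
      nlinarith [mul_le_mul_of_nonneg_left (n (range N)) (sq_nonneg C), mul_le_mul_of_nonneg_left
        (HS u hu u0 u1 N) (sq_nonneg (C * ‖x‖)), sq_nonneg (C * ‖x‖)]
  refine ⟨LinearMap.mkContinuous ⟨⟨fun x => ⟨act g x, memℓp_gen' (key x)⟩, fun x y => ?_⟩,
    fun a x => ?_⟩ (5 * C) fun x => lp.norm_le_of_forall_sum_le (by simp) (by positivity) (key x),
    fun _ _ => rfl, LinearMap.mkContinuous_norm_le _ (by positivity) _⟩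
  · ext i
    change act g (⇑x + ⇑y) i = act g x i + act g y i
    simp only [act, Pi.add_apply, mul_add, sum_add_distrib]; ring
  · ext i
    change act g (a • ⇑x) i = a * act g x i
    simp only [act, Pi.smul_apply, smul_eq_mul, mul_add, mul_sum, mul_left_comm _ a]

lemma unb (g : ℕ → ℕ → ℂ) (hg : ∀ i, Tendsto (g · i) atTop (𝓝 ((-1) ^ i))) (C : ℝ)
    (hS : ∀ n, ∃ S, Rep S (g n) ∧ ‖S‖ ≤ C) : False := by
  have R : ∀ a, ∑ j ∈ range (2 * a + 1), m (2 * a + 1) j = L (2 * a + 2) - L 0 := fun a => by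
    have : ∑ l ∈ range (2 * a + 1), (if Even l then h l else 0) = L (2 * a + 2) - L 0 := by
      induction a with
      | zero => simp [h]
      | succ a ih =>
        rw [mul_add, mul_one, sum_range_succ, sum_range_succ, ih]
        simp [h, parity_simps]
    rw [← this, ← sum_range_reflect fun l => if Even l then h l else 0]
    refine sum_congr rfl fun j hj => if_congr ?_ rfl rfl
    have := mem_range.1 hj
    simp only [Nat.even_iff, Nat.odd_iff]; omega
  obtain ⟨N, h1, h2⟩ := (((Real.tendsto_log_atTop.comp (Real.tendsto_log_atTop.comp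
    (tendsto_atTop_add_const_right _ 3 tendsto_natCast_atTop_atTop))).eventually_gt_atTop
      (2 * |C| + L 0)).and (eventually_gt_atTop 0)).exists
  change _ < L N at h1
  set x : H := ∑ j ∈ range (4 * N), lp.single 2 j (1 : ℂ) with hx
  have x1 : ∀ j < 4 * N, x j = 1 := fun j hj => by
    rw [hx, lp.coeFn_sum, Finset.sum_apply]
    simp [lp.single_apply, Pi.single_apply, hj]
  have x2 : ‖x‖ ^ 2 = 4 * N := by
    simpa using lp.norm_sum_single (p := 2) (by simp) (fun _ : ℕ => (1 : ℂ)) (range (4 * N))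
  have k : ∑ a ∈ Finset.Ico N (2 * N), ‖act (fun i => (-1) ^ i) x (2 * a + 1)‖ ^ 2 ≤
      C ^ 2 * (4 * N) := by
    refine le_of_tendsto' (tendsto_finset_sum _ fun a _ => (Tendsto.norm (((hg _).mul_const _).add
      (tendsto_finset_sum _ fun j _ => (((hg _).sub (hg _)).const_mul _).mul_const _))).pow 2)
      fun n => ?_
    obtain ⟨S, h3, h4⟩ := hS n
    have := lp.sum_rpow_le_norm_rpow (p := 2) (by simp) (S x)
      ((Finset.Ico N (2 * N)).image fun a => 2 * a + 1)
    rw [sum_image fun a _ b _ h => by simpa using h] at this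
    simp only [ENNReal.toReal_ofNat, Real.rpow_ofNat, h3 x] at this
    refine this.trans ?_
    rw [← x2, ← mul_pow]
    exact pow_le_pow_left₀ (norm_nonneg _) (S.le_of_opNorm_le h4 x) 2
  have := (card_nsmul_le_sum _ _ ((L N - L 0) ^ 2) fun a ha => ?_).trans k
  · rw [Nat.card_Ico, show 2 * N - N = N by omega, nsmul_eq_mul] at this
    have N0 : (0 : ℝ) < N := by exact_mod_cast h2
    have : (2 * |C|) ^ 2 < (L N - L 0) ^ 2 := pow_lt_pow_left₀ (by linarith) (by positivity)
      two_ne_zero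
    rw [mul_pow, sq_abs] at this
    nlinarith
  have ha := Finset.mem_Ico.1 ha
  have e : act (fun i => (-1) ^ i) x (2 * a + 1) = -(1 + 2 * (L (2 * a + 2) - L 0) : ℝ) := by
    rw [act, x1 _ (by omega), ← R]
    push_cast
    rw [neg_add, mul_sum, ← sum_neg_distrib]
    congr 1
    · simp [pow_succ]
    refine sum_congr rfl fun j hj => ?_
    rw [x1 _ (by have := mem_range.1 hj; omega)]
    rcases Nat.even_or_odd j with e | e
    · simp [pow_succ, e.neg_one_pow]; ring
    · simp [m, Nat.not_even_iff_odd.2 e]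
  have b1 := Lm (show N ≤ 2 * a + 2 by omega)
  have b2 := Lm N.zero_le
  rw [e, norm_neg, norm_real, Real.norm_eq_abs, sq_abs]
  exact pow_le_pow_left₀ (by linarith) (by linarith) 2

lemma dense {S f} (h : Rep S f) (hf : ∀ i, f i ≠ 0) : DenseRange S := by
  refine Submodule.dense_iff_topologicalClosure_eq_top.2 (Submodule.topologicalClosure_eq_top_iff.2
    ((Submodule.eq_bot_iff (LinearMap.range S.toLinearMap)ᗮ).2 fun y hy => ?_))
  have k : ∀ j, (∀ i, j < i → m i j = 0 ∨ y i = 0) → y j = 0 := fun j hj => by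
    have := hy (S (lp.single 2 j 1)) ⟨_, rfl⟩
    rw [lp.inner_eq_tsum, tsum_eq_single j fun i hi => ?_] at this
    · simpa [h _ j, act, lp.single_apply, Pi.single_apply, hf] using this
    · rcases hi.lt_or_gt with e | e
      · simp [h _ i, act, lp.single_apply, Pi.single_apply, hi, e.not_gt]
      · rcases hj i e with e | e <;> simp [h _ i, act, lp.single_apply, Pi.single_apply, hi, e]
  have o : ∀ j, Odd j → y j = 0 := fun j e => k j fun i _ =>
    .inl (by simp [m, Nat.not_even_iff_odd.2 e])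
  ext j
  exact k j fun i _ => (Nat.even_or_odd i).imp (fun e => by simp [m, Nat.not_odd_iff_even.2 e])
    (o i)

open scoped ComplexOrder in
lemma dom {S} {g : ℕ → ℝ} (h : Rep S fun i => g i) (g0 : ∀ i, 0 ≤ g i) (hg : Monotone g) (x y : H)
    (k : ∀ i, (‖x i‖ : ℂ) ≤ y i) (i : ℕ) : (‖S x i‖ : ℂ) ≤ S y i := by
  have t : ∀ (r : ℝ) j, 0 ≤ r → (‖r * x j‖ : ℂ) ≤ r * y j := fun r j hr => by
    rw [norm_mul, norm_real, Real.norm_of_nonneg hr, ofReal_mul]
    exact mul_le_mul_of_nonneg_left (k j) (zero_le_real.2 hr)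
  rw [h, h, act, act]
  refine (real_le_real.2 ((norm_add_le _ _).trans (add_le_add_right (norm_sum_le _ _) _))).trans ?_
  rw [ofReal_add, ofReal_sum]
  refine add_le_add (t _ _ (g0 i)) (sum_le_sum fun j hj => ?_)
  simpa using t (m i j * (g i - g j)) j (mul_nonneg (m0 _ _) (sub_nonneg.2 (hg (mem_range.1 hj).le)))

end Pool.Agent.H27.Tri
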