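import Mathlib

/-! The dual Tsirelson norm on nonnegative sequences. -/

open Finset

namespace Pool.Agent.H27.Tsi

inductive W : (ℕ → ℝ) → Prop
  | base (m : ℕ) : W (Pi.single m 1)
  | node (N : ℕ) (c : ℕ → ℕ) (hc : Monotone c) (w : ℕ → ℕ → ℝ) (hw : ∀ j, W (w j)) :
      W fun n => if N ≤ n ∧ c n < N then 2 / 3 * w (c n) n else 0

lemma W.bd {w : ℕ → ℝ} (h : W w) (n : ℕ) : 0 ≤ w n ∧ w n ≤ 1 := by
  induction h with
  | base m => by_cases q : n = m <;> simp [q]
  | node N c _ w _ ih =>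
    beta_reduce
    split_ifs
    · constructor <;> linarith [(ih (c n)).1, (ih (c n)).2]
    · simp

/-- `y` lies in the ball of radius `t` of the Tsirelson norm on `[0, M)`. -/
def TB (M : ℕ) (y : ℕ → ℝ) (t : ℝ) : Prop :=
  (∀ n, 0 ≤ y n) ∧ ∀ w, W w → ∑ n ∈ range M, w n * y n ≤ t

/-- `u` has dual norm at most `C`. -/
def Nb (u : ℕ → ℝ) (C : ℝ) : Prop := ∀ M y, TB M y 1 → ∑ n ∈ range M, y n * u n ≤ C

lemma TB.le {M : ℕ} {y : ℕ → ℝ} {t : ℝ} (h : TB M y t) {n : ℕ} (hn : n < M) : y n ≤ t := by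
  simpa [Pi.single_apply, hn] using h.2 _ (W.base n)

lemma TB.single (M m : ℕ) : TB M (Pi.single m 1) 1 := by
  refine ⟨fun n => by by_cases q : n = m <;> simp [q], fun w hw => ?_⟩
  simp only [Pi.single_apply, mul_ite, mul_one, mul_zero, sum_ite_eq']
  split_ifs
  · exact (hw.bd m).2
  · exact zero_le_one

lemma Nb.le {u : ℕ → ℝ} {C : ℝ} (h : Nb u C) (n : ℕ) : u n ≤ C := by
  simpa [Pi.single_apply] using h (n + 1) _ (TB.single _ n)

lemma Nb.nonneg {u : ℕ → ℝ} {C : ℝ} (h : Nb u C) : 0 ≤ C := by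
  simpa using h 0 _ (TB.single _ 0)

lemma Nb.mono {u v : ℕ → ℝ} {C D : ℝ} (h : Nb u C) (huv : ∀ n, v n ≤ u n) (hC : C ≤ D) :
    Nb v D := fun M y hy =>
  (sum_le_sum fun n _ => mul_le_mul_of_nonneg_left (huv n) (hy.1 n)).trans ((h M y hy).trans hC)

lemma Nb.add {u v : ℕ → ℝ} {C D : ℝ} (h : Nb u C) (h' : Nb v D) :
    Nb (fun n => u n + v n) (C + D) := fun M y hy => by
  simp only [mul_add, sum_add_distrib]
  exact add_le_add (h M y hy) (h' M y hy)

lemma Nb.sum {u : ℕ → ℕ → ℝ} {C : ℝ} (N : ℕ) (h : ∀ i, Nb (u i) C) :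
    Nb (fun n => ∑ i ∈ range N, u i n) (N * C) := fun M y hy => by
  simp only [mul_sum]
  rw [sum_comm]
  simpa using sum_le_card_nsmul (range N) _ _ fun i _ => h i M y hy

lemma Nb.smul {u : ℕ → ℝ} {C m : ℝ} (h : Nb u C) (m0 : 0 ≤ m) :
    Nb (fun n => m * u n) (m * C) := fun M y hy => by
  simp only [mul_left_comm _ m, ← mul_sum]
  exact mul_le_mul_of_nonneg_left (h M y hy) m0

lemma Nb.head (k : ℕ) {η : ℝ} (e0 : 0 ≤ η) :
    Nb (fun n => if n < k then 2 ^ n * η else 0) (2 ^ k * η) := fun M y hy => by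
  calc _ ≤ ∑ n ∈ range M, if n < k then 2 ^ n * η else 0 := sum_le_sum fun n hn =>
        mul_le_of_le_one_left (by positivity) (hy.le (mem_range.1 hn))
    _ ≤ ∑ n ∈ range k, 2 ^ n * η := by
        rw [← sum_filter]
        exact sum_le_sum_of_subset_of_nonneg (fun n hn => by simpa using (mem_filter.1 hn).2)
          fun _ _ _ => by positivity
    _ ≤ _ := by
        rw [← sum_mul, geom_sum_eq (by norm_num)]
        gcongr
        norm_num

lemma Nb.scale {u : ℕ → ℝ} {C : ℝ} (h : Nb u C) {M : ℕ} {y : ℕ → ℝ} {t : ℝ} (t0 : 0 < t)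
    (hy : TB M y t) : ∑ n ∈ range M, y n * u n ≤ t * C := by
  have := h M (fun n => t⁻¹ * y n) ⟨fun n => mul_nonneg (by positivity) (hy.1 n), fun w hw => by
    simp only [mul_left_comm _ t⁻¹, ← mul_sum]
    rw [inv_mul_le_iff₀ t0, mul_one]
    exact hy.2 w hw⟩
  simp only [mul_assoc, ← mul_sum] at this
  rwa [inv_mul_le_iff₀ t0] at this

lemma Nb.node (N : ℕ) {c : ℕ → ℕ} (hc : Monotone c) {u : ℕ → ℕ → ℝ} (h : ∀ j, Nb (u j) 1) :
    Nb (fun n => if N ≤ n ∧ c n < N then u (c n) n else 0) (3 / 2) := fun M y hy => by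
  let Y : ℕ → ℕ → ℝ := fun j n => if N ≤ n ∧ c n = j then y n else 0
  have Y0 : ∀ j n, 0 ≤ Y j n := fun j n => by
    simp only [Y]; split_ifs; exacts [hy.1 n, le_rfl]
  have sp : ∀ (v : ℕ → ℕ → ℝ) (a : ℝ), ∑ n ∈ range M, (if N ≤ n ∧ c n < N then a * v (c n) n
      else 0) * y n = a * ∑ j ∈ range N, ∑ n ∈ range M, v j n * Y j n := fun v a => by
    rw [sum_comm, mul_sum]
    refine sum_congr rfl fun n _ => ?_
    by_cases q : N ≤ n <;> by_cases q' : c n < N <;> simp [Y, q, q', mul_assoc]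
  refine le_of_forall_pos_le_add fun η η0 => ?_
  have e0 : 0 < η / (2 * (N + 1)) := by positivity
  have ex : ∀ j, ∃ w, W w ∧ ∑ n ∈ range M, u j n * Y j n ≤
      ∑ n ∈ range M, w n * Y j n + 2 * (η / (2 * (N + 1))) := fun j => by
    let A := {s | ∃ w, W w ∧ ∑ n ∈ range M, w n * Y j n = s}
    have A0 : A.Nonempty := ⟨_, _, W.base 0, rfl⟩
    have Ab : BddAbove A := ⟨1, by
      rintro _ ⟨w, hw, rfl⟩
      refine le_trans (sum_le_sum fun n _ => mul_le_mul_of_nonneg_left ?_ (hw.bd n).1) (hy.2 w hw)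
      simp only [Y]; split_ifs; exacts [le_rfl, hy.1 n]⟩
    obtain ⟨_, ⟨w, hw, rfl⟩, hs⟩ := exists_lt_of_lt_csSup A0 (sub_lt_self (sSup A) e0)
    have p : 0 ≤ sSup A := le_csSup_of_le Ab ⟨w, hw, rfl⟩
      (sum_nonneg fun n _ => mul_nonneg (hw.bd n).1 (Y0 j n))
    have := (h j).scale (t := sSup A + η / (2 * (N + 1))) (by positivity) (M := M) ⟨Y0 j,
      fun v hv => (le_csSup Ab ⟨v, hv, rfl⟩).trans (le_add_of_nonneg_right e0.le)⟩
    simp only [mul_comm (Y j _)] at this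
    exact ⟨w, hw, by linarith⟩
  choose w hw hw' using ex
  have a := hy.2 _ (W.node N c hc w hw)
  have b := sp u 1
  rw [sp] at a
  simp only [one_mul] at b
  simp only [mul_comm (y _)]
  rw [b]
  refine (sum_le_sum fun j _ => hw' j).trans ?_
  rw [sum_add_distrib, sum_const, card_range, nsmul_eq_mul]
  have : N * (2 * (η / (2 * (N + 1)))) ≤ η := by
    rw [show N * (2 * (η / (2 * (N + 1)))) = η * (N / (N + 1)) by field_simp]
    exact mul_le_of_le_one_right η0.le (div_le_one_of_le₀ (by linarith) (by positivity))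
  linarith

lemma fj {k : ℕ → ℕ} (hk : Monotone k) {y : ℕ → ℕ → ℝ} {M : ℕ} (hy : ∀ i, TB M (y i) 1)
    (s : ∀ i n, y i n ≠ 0 → k i ≤ n ∧ n < k (i + 1)) {L : ℕ} (hL : L = 6 * (k 1 + 1)) :
    TB M (fun n => y 0 n + (L : ℝ)⁻¹ * ∑ i ∈ range L, y (i + 1) n) (11 / 6) := by
  have L0 : (0 : ℝ) < L := by rw [hL]; positivity
  refine ⟨fun n => add_nonneg ((hy 0).1 n) (mul_nonneg (by positivity)
    (sum_nonneg fun i _ => (hy _).1 n)), fun w hw => ?_⟩
  simp only [mul_add, sum_add_distrib, mul_left_comm _ (L : ℝ)⁻¹, ← mul_sum]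
  simp only [mul_sum (range L)]
  rw [sum_comm]
  have A := (hy 0).2 w hw
  have z : (∀ n < k 1, w n = 0) → ∑ n ∈ range M, w n * y 0 n + (L : ℝ)⁻¹ * ∑ i ∈ range L,
      ∑ n ∈ range M, w n * y (i + 1) n ≤ 11 / 6 := fun q => by
    rw [sum_eq_zero fun n _ => by
      by_cases p : y 0 n = 0
      · simp [p]
      · simp [q n (s 0 n p).2]]
    have := sum_le_card_nsmul (range L) _ _ fun i _ => (hy (i + 1)).2 w hw
    rw [card_range, nsmul_eq_mul, ← inv_mul_le_iff₀ L0] at this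
    linarith
  cases hw with
  | base m =>
    by_cases q : m < k 1
    · rw [sum_eq_zero (s := range L) fun i _ => sum_eq_zero fun n _ => ?_]
      · linarith
      by_cases p : y (i + 1) n = 0
      · simp [p]
      · have := (hk (Nat.le_add_left 1 i)).trans (s _ n p).1
        rw [Pi.single_eq_of_ne (by omega), zero_mul]
    · exact z fun n hn => Pi.single_eq_of_ne (by omega) _
  | node N c hc v hv =>
    by_cases q : k 1 ≤ N
    · exact z fun n hn => if_neg (by omega)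
    have B : ∀ i, ∑ n ∈ range M, (if N ≤ n ∧ c n < N then 2 / 3 * v (c n) n else 0) * y (i + 1) n
        ≤ 2 / 3 + (((min (c (k (i + 1 + 1))) N : ℕ) : ℝ) - (min (c (k (i + 1))) N : ℕ)) := by
      intro i
      have m := hc (hk (Nat.le_succ (i + 1)))
      by_cases p : min (c (k (i + 1 + 1))) N = min (c (k (i + 1))) N
      · rw [p, sub_self, add_zero]
        have := (hy (i + 1)).2 _ (hv (c (k (i + 1))))
        refine le_trans ?_ (mul_le_of_le_one_right (by norm_num) this)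
        rw [mul_sum]
        refine sum_le_sum fun n _ => ?_
        by_cases r : y (i + 1) n = 0
        · simp [r]
        have r1 := hc (s _ n r).1
        have r2 := hc (s _ n r).2.le
        split_ifs with r3
        · rw [show c n = c (k (i + 1)) by omega, mul_assoc]
        · rw [zero_mul]
          exact mul_nonneg (by norm_num) (mul_nonneg ((hv _).bd n).1 ((hy _).1 n))
      · have : ((min (c (k (i + 1))) N : ℕ) : ℝ) + 1 ≤ (min (c (k (i + 1 + 1))) N : ℕ) := by
          exact_mod_cast (by simp only [Nat.succ_eq_add_one] at m; omega)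
        linarith [(hy (i + 1)).2 _ (W.node N c hc v hv)]
    have := sum_le_sum fun i (_ : i ∈ range L) => B i
    rw [sum_add_distrib, sum_range_sub fun i => ((min (c (k (i + 1))) N : ℕ) : ℝ), sum_const,
      card_range, nsmul_eq_mul] at this
    have e : ((min (c (k (L + 1))) N : ℕ) : ℝ) ≤ k 1 := by exact_mod_cast (by omega)
    have e' : (0 : ℝ) ≤ (min (c (k (0 + 1))) N : ℕ) := Nat.cast_nonneg _
    have e'' : (L : ℝ) = 6 * (k 1 + 1) := by rw [hL]; push_cast; ring
    have f : (L : ℝ)⁻¹ * _ ≤ 5 / 6 := (inv_mul_le_iff₀ L0).2 (this.trans (by linarith))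
    linarith

lemma Nb.step {u : ℕ → ℝ} {C : ℝ} {k₀ : ℕ} (h : Nb (fun n => if k₀ ≤ n then u n else 0) C) :
    ∃ k, Nb (fun n => if k ≤ n then u n else 0) (11 / 12 * C) := by
  by_contra H
  have ex : ∀ k, ∃ M, k ≤ M ∧ ∃ y : ℕ → ℝ, (∀ M', TB M' y 1) ∧ (∀ n, y n ≠ 0 → k ≤ n ∧ n < M) ∧
      ∀ M', M ≤ M' → 11 / 12 * C < ∑ n ∈ range M', y n * u n := fun k => by
    have : ¬ _ := fun q => H ⟨k, q⟩
    simp only [Nb, not_forall, not_le] at this
    obtain ⟨M, y, hy, hs⟩ := this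
    have r : ∀ (v : ℕ → ℝ) M', ∑ n ∈ range M', (if k ≤ n ∧ n < M then y n else 0) * v n =
        ∑ n ∈ range (min M M'), y n * if k ≤ n then v n else 0 := fun v M' => by
      rw [← sum_subset (range_mono (min_le_right M M'))]
      · refine sum_congr rfl fun n hn => ?_
        have := (lt_min_iff.1 (mem_range.1 hn)).1
        by_cases q : k ≤ n <;> simp [q, this]
      · intro n h1 h2
        rw [if_neg (by simp at h1 h2; omega), zero_mul]
    refine ⟨max k M, le_max_left _ _, fun n => if k ≤ n ∧ n < M then y n else 0, fun M' =>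
      ⟨fun n => by beta_reduce; split_ifs; exacts [hy.1 n, le_rfl], fun w hw => ?_⟩, fun n hn => ?_,
      fun M' hM => ?_⟩
    · simp only [mul_comm (w _)]
      rw [r]
      refine le_trans ?_ (hy.2 w hw)
      refine (sum_le_sum fun n _ => ?_).trans (sum_le_sum_of_subset_of_nonneg (range_mono
        (min_le_left M M')) fun n _ _ => mul_nonneg (hw.bd n).1 (hy.1 n))
      rw [mul_comm]
      refine mul_le_mul_of_nonneg_right ?_ (hy.1 n)
      split_ifs; exacts [le_rfl, (hw.bd n).1]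
    · have := ite_ne_right_iff.1 hn
      omega
    · rwa [r, min_eq_left ((le_max_right _ _).trans hM)]
  choose F F1 y hy s hu using ex
  let k : ℕ → ℕ := fun i => F^[i] k₀
  have ks : ∀ i, k (i + 1) = F (k i) := fun i => Function.iterate_succ_apply' _ _ _
  have hk : Monotone k := monotone_nat_of_le_succ fun i => ks i ▸ F1 _
  obtain ⟨L, hL⟩ : ∃ L, L = 6 * (k 1 + 1) := ⟨_, rfl⟩
  have L0 : (0 : ℝ) < L := by rw [hL]; positivity
  have t := h.scale (by norm_num) (fj hk (y := fun i => y (k i)) (M := k (L + 1))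
    (fun i => hy _ _) (fun i n q => ks i ▸ s _ n q) hL)
  have e : ∀ i, ∑ n ∈ range (k (L + 1)), y (k i) n * (if k₀ ≤ n then u n else 0) =
      ∑ n ∈ range (k (L + 1)), y (k i) n * u n := fun i => sum_congr rfl fun n _ => by
    by_cases q : y (k i) n = 0
    · simp [q]
    · rw [if_pos (show k₀ ≤ n from (hk (Nat.zero_le i)).trans (s _ n q).1)]
  simp only [add_mul, sum_add_distrib, mul_assoc, ← mul_sum] at t
  simp only [sum_mul] at t
  rw [sum_comm (s := range (k (L + 1)))] at t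
  simp only [e] at t
  have a := hu (k 0) (k (L + 1)) (ks 0 ▸ hk (by omega))
  have b := card_nsmul_le_sum (range L) _ _ fun i hi => (hu (k (i + 1)) (k (L + 1))
    (ks (i + 1) ▸ hk (by simp at hi; omega))).le
  rw [card_range, nsmul_eq_mul, ← le_inv_mul_iff₀ L0] at b
  linarith

lemma Nb.tail {u : ℕ → ℝ} {C ε : ℝ} (h : Nb u C) (e0 : 0 < ε) :
    ∃ k, Nb (fun n => if k ≤ n then u n else 0) ε := by
  have : ∀ j : ℕ, ∃ k, Nb (fun n => if k ≤ n then u n else 0) ((11 / 12) ^ j * C) := fun j => by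
    induction j with
    | zero => exact ⟨0, by simpa using h⟩
    | succ j ih =>
      obtain ⟨k, hk⟩ := ih
      rw [pow_succ', mul_assoc]
      exact hk.step
  obtain ⟨j, hj⟩ := exists_pow_lt_of_lt_one (div_pos e0
    (add_pos_of_nonneg_of_pos h.nonneg one_pos)) (show (11 / 12 : ℝ) < 1 by norm_num)
  obtain ⟨k, hk⟩ := this j
  refine ⟨k, hk.mono (fun _ => le_rfl) ?_⟩
  rw [lt_div_iff₀ (by linarith [h.nonneg])] at hj
  nlinarith [pow_pos (show (0 : ℝ) < 11 / 12 by norm_num) j]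

end Pool.Agent.H27.Tsi
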