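import Pool.Agent.H27.Tsi1

/-! A symmetric space over the dual Tsirelson norm. -/

open Finset

namespace Pool.Agent.H27.Tsi

/-- Level `n` of `f` is at most `t`. -/
def Lv (n : ℕ) (f : ℝ → ℝ) (t : ℝ) : Prop :=
  ∀ S : Finset ℝ, S.card ≤ 4 ^ n → ∑ γ ∈ S, |f γ| ≤ 2 ^ n * t

lemma Lv.nonneg {n : ℕ} {f : ℝ → ℝ} {t : ℝ} (h : Lv n f t) : 0 ≤ t := by
  have := h ∅ (by simp)
  rw [sum_empty] at this
  exact nonneg_of_mul_nonneg_right this (by positivity)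

lemma Lv.mono {n : ℕ} {f g : ℝ → ℝ} {t : ℝ} (h : Lv n f t) (hg : ∀ γ, |g γ| ≤ |f γ|) :
    Lv n g t := fun S hS => (sum_le_sum fun γ _ => hg γ).trans (h S hS)

lemma Lv.sup (n : ℕ) {f : ℝ → ℝ} {η : ℝ} (e0 : 0 ≤ η) (h : ∀ γ, |f γ| ≤ η) :
    Lv n f (2 ^ n * η) := fun S hS => by
  refine (sum_le_card_nsmul _ _ _ fun γ _ => h γ).trans ?_
  rw [nsmul_eq_mul, ← mul_assoc, ← mul_pow]
  gcongr
  exact_mod_cast hS

lemma Lv.sum {n N : ℕ} {f : ℕ → ℝ → ℝ} {t : ℕ → ℝ} (h : ∀ i, Lv n (f i) (t i)) {a : ℕ → ℝ}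
    {m : ℝ} (m0 : 0 ≤ m) (ha : ∀ i < N, |a i| ≤ m) :
    Lv n (fun γ => ∑ i ∈ range N, a i * f i γ) (m * ∑ i ∈ range N, t i) := fun S hS => by
  refine (sum_le_sum fun γ _ => abs_sum_le_sum_abs _ _).trans ?_
  rw [sum_comm, mul_sum, mul_sum]
  refine sum_le_sum fun i hi => ?_
  simp only [abs_mul, ← mul_sum]
  rw [mul_left_comm]
  exact mul_le_mul (ha i (mem_range.1 hi)) (h i S hS) (by positivity) m0

structure Good {X : Type} [NormedAddCommGroup X] [NormedSpace ℝ X] (co : ℝ → X →L[ℝ] ℝ) :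
    Prop where
  ext : ∀ x, (∀ γ, co γ x = 0) → x = 0
  lev : ∀ x, ∃ u, (∀ n, Lv n (co · x) (u n)) ∧ Nb u ‖x‖
  mk' : ∀ (f : ℝ → ℝ) u C, (∀ n, Lv n f (u n)) → Nb u C → ∃ x, (∀ γ, co γ x = f γ) ∧ ‖x‖ ≤ C
  bid : ∀ φ : (X →L[ℝ] ℝ) →L[ℝ] ℝ, ∃ x, ∀ γ, co γ x = φ (co γ)

lemma bid_aux {X : Type} [NormedAddCommGroup X] [NormedSpace ℝ X]
    (φ : (X →L[ℝ] ℝ) →L[ℝ] ℝ) : ∃ C, ∀ f : X →L[ℝ] ℝ, (∀ x, |f x| ≤ ‖x‖) → |φ f| ≤ C :=
  ⟨‖φ‖, fun f h => φ.unit_le_opNorm _ (f.opNorm_le_bound zero_le_one fun x => by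
    rw [one_mul]; exact h x)⟩

theorem space : ∃ (X : Type) (_ : NormedAddCommGroup X) (_ : NormedSpace ℝ X)
    (_ : CompleteSpace X) (co : ℝ → X →L[ℝ] ℝ), Good co := by
  let G := {g : ℕ × (ℕ → ℝ) × (ℕ → Finset ℝ) × (ℝ → ℝ) //
    TB g.1 g.2.1 1 ∧ (∀ n, (g.2.2.1 n).card ≤ 4 ^ n) ∧ ∀ γ, |g.2.2.2 γ| ≤ 1}
  let δ : ℝ → G := fun γ => ⟨⟨1, Pi.single 0 1, fun _ => {γ}, fun _ => 1⟩, TB.single _ _,
    fun n => by simpa using Nat.one_le_pow _ _ (by norm_num), by simp⟩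
  let E := lp (fun _ : G => ℝ) ⊤
  let ev : G → E →L[ℝ] ℝ := fun g => lp.evalCLM ℝ (fun _ : G => ℝ) ⊤ g
  let pr : {V : Type} → [AddCommGroup V] → [Module ℝ V] → G → (ℝ → V) → V := fun g f =>
    ∑ n ∈ range g.1.1, (g.1.2.1 n * (2 ^ n)⁻¹) • ∑ γ ∈ g.1.2.2.1 n, g.1.2.2.2 γ • f γ
  have prδ : ∀ γ (f : ℝ → ℝ), pr (δ γ) f = f γ := fun γ f => by simp [pr, δ]
  let N : Submodule ℝ E := ⨅ g, (ev g - pr g fun γ => ev (δ γ)).ker
  have hN : ∀ v : E, v ∈ N ↔ ∀ g, v g = pr g fun γ => v (δ γ) := fun v => by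
    simp [N, pr, ev, sub_eq_zero, lp.evalCLM]
    rfl
  haveI : IsClosed (N : Set E) := by
    rw [Submodule.coe_iInf]
    exact isClosed_iInter fun g => ContinuousLinearMap.isClosed_ker _
  let co : ℝ → N →L[ℝ] ℝ := fun γ => (ev (δ γ)).comp N.subtypeL
  have hco : ∀ γ (x : N), co γ x = x.1 (δ γ) := fun _ _ => rfl
  have b : ∀ (x : N) g, |pr g (co · x)| ≤ ‖x‖ := fun x g => by
    simp only [hco]
    rw [← (hN _).1 x.2]
    exact lp.norm_apply_le_norm (by simp) x.1 g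
  have mk : ∀ (f : ℝ → ℝ) C, (∀ g, |pr g f| ≤ C) → ∃ x : N, (∀ γ, co γ x = f γ) ∧ ‖x‖ ≤ C :=
    fun f C h => ⟨⟨⟨fun g => pr g f, memℓp_infty ⟨C, by rintro _ ⟨g, rfl⟩; exact h g⟩⟩,
      (hN _).2 fun g => by simp only [prδ]⟩, fun γ => prδ γ f,
      lp.norm_le_of_forall_le ((abs_nonneg _).trans (h (δ 0))) h⟩
  refine ⟨N, inferInstance, inferInstance, inferInstance, co, fun x h => ?_, fun x => ?_,
    fun f u C h h' => mk f C fun g => ?_, fun φ => ?_⟩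
  · refine Subtype.ext (lp.ext (funext fun g => ?_))
    simp only [hco] at h
    rw [(hN _).1 x.2]
    simp [h, pr]
  · let A := fun n => {s | ∃ S : Finset ℝ, S.card ≤ 4 ^ n ∧ (2 ^ n)⁻¹ * ∑ γ ∈ S, |co γ x| = s}
    have key : ∀ M y (S : ℕ → Finset ℝ), TB M y 1 → (∀ n, (S n).card ≤ 4 ^ n) →
        ∑ n ∈ range M, y n * ((2 ^ n)⁻¹ * ∑ γ ∈ S n, |co γ x|) ≤ ‖x‖ := fun M y S h h' => by
      refine le_trans (le_of_eq ?_) ((le_abs_self _).trans (b x ⟨⟨M, y, S,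
        fun γ => SignType.sign (co γ x)⟩, h, h', fun γ => ?_⟩))
      · simp [pr, mul_assoc]
      · rcases lt_trichotomy (co γ x) 0 with q | q | q <;> simp [q]
    have Ab : ∀ n, BddAbove (A n) := fun n => ⟨‖x‖, by
      rintro _ ⟨S, hS, rfl⟩
      simpa [Pi.single_apply] using key (n + 1) _ (fun m => if m = n then S else ∅)
        (TB.single _ n) fun m => by split_ifs with q; exacts [q ▸ hS, by simp]⟩
    refine ⟨fun n => sSup (A n), fun n S hS => ?_, fun M y hy => ?_⟩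
    · rw [← inv_mul_le_iff₀ (by positivity)]
      exact le_csSup (Ab n) ⟨S, hS, rfl⟩
    · refine le_of_forall_pos_le_add fun η η0 => ?_
      have e0 : 0 < η / (M + 1) := by positivity
      choose s hs hs' using fun n => exists_lt_of_lt_csSup (s := A n) ⟨_, ∅, by simp, rfl⟩
        (sub_lt_self (sSup (A n)) e0)
      choose S hS hS' using hs
      have := key M y S hy hS
      simp only [hS'] at this
      have q : ∑ n ∈ range M, y n * sSup (A n) ≤ ∑ n ∈ range M, (y n * s n + η / (M + 1)) :=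
        sum_le_sum fun n hn => by nlinarith [hs' n, hy.1 n, hy.le (mem_range.1 hn)]
      rw [sum_add_distrib, sum_const, card_range, nsmul_eq_mul] at q
      have : M * (η / (M + 1)) ≤ η := by
        rw [show M * (η / (M + 1)) = η * (M / (M + 1)) by field_simp]
        exact mul_le_of_le_one_right η0.le (div_le_one_of_le₀ (by linarith) (by positivity))
      linarith
  · refine ((abs_sum_le_sum_abs _ _).trans (sum_le_sum fun n _ => ?_)).trans (h' _ _ g.2.1)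
    rw [smul_eq_mul, abs_mul, abs_of_nonneg (mul_nonneg (g.2.1.1 n) (by positivity)), mul_assoc]
    refine mul_le_mul_of_nonneg_left ?_ (g.2.1.1 n)
    rw [inv_mul_le_iff₀ (by positivity)]
    refine (abs_sum_le_sum_abs _ _).trans ((sum_le_sum fun γ _ => ?_).trans (h n _ (g.2.2.1 n)))
    rw [smul_eq_mul, abs_mul]
    exact mul_le_of_le_one_left (abs_nonneg _) (g.2.2.2 γ)
  · obtain ⟨C, hC⟩ := bid_aux (X := N) φ
    obtain ⟨x, hx, -⟩ := mk (fun γ => φ (co γ)) C fun g => by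
      rw [show pr g (fun γ => φ (co γ)) = φ (pr g co) by simp [pr]]
      refine hC _ fun x => ?_
      rw [show pr g co x = pr g (co · x) by simp [pr]]
      exact b x g
    exact ⟨x, hx⟩

end Pool.Agent.H27.Tsi
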