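import Pool.Agent.H27.Tsi2

/-! Properties of the symmetric space over the dual Tsirelson norm. -/

open Finset

namespace Pool.Agent.H27.Tsi.Good

variable {X : Type} [NormedAddCommGroup X] [NormedSpace ℝ X] {co : ℝ → X →L[ℝ] ℝ} (H : Good co)
include H

lemma lv (x : X) (n : ℕ) : Lv n (co · x) ‖x‖ := fun S hS => by
  obtain ⟨u, h, h'⟩ := H.lev x
  exact (h n S hS).trans (mul_le_mul_of_nonneg_left (h'.le n) (by positivity))

lemma co_le (x : X) (γ : ℝ) : |co γ x| ≤ ‖x‖ := by simpa using H.lv x 0 {γ} (by simp)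

lemma norm_le {x : X} {u : ℕ → ℝ} {C : ℝ} (h : ∀ n, Lv n (co · x) (u n)) (h' : Nb u C) :
    ‖x‖ ≤ C := by
  obtain ⟨y, hy, hC⟩ := H.mk' _ u C h h'
  rwa [← sub_eq_zero.1 (H.ext (y - x) fun γ => by simp [hy])]

lemma mono {x y : X} (h : ∀ γ, |co γ y| ≤ |co γ x|) : ‖y‖ ≤ ‖x‖ := by
  obtain ⟨u, h1, h2⟩ := H.lev x
  exact H.norm_le (fun n => (h1 n).mono h) h2

lemma big {x : X} {ε : ℝ} {n : ℕ} {S : Finset ℝ} (hS : S.card = 4 ^ n)
    (h : ∀ γ ∈ S, ε ≤ |co γ x|) : 2 ^ n * ε ≤ ‖x‖ := by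
  have := (card_nsmul_le_sum _ _ _ h).trans (H.lv x n S hS.le)
  rw [hS, nsmul_eq_mul, Nat.cast_pow, show ((4 : ℕ) : ℝ) = 2 * 2 by norm_num, mul_pow,
    mul_assoc] at this
  exact le_of_mul_le_mul_left this (by positivity)

lemma fin (x : X) {ε : ℝ} (e0 : 0 < ε) : ∃ F : Finset ℝ, ∀ γ, γ ∈ F ↔ ε ≤ |co γ x| := by
  have : {γ | ε ≤ |co γ x|}.Finite := by
    by_contra h
    obtain ⟨n, hn⟩ := pow_unbounded_of_one_lt (‖x‖ / ε) one_lt_two
    obtain ⟨S, h1, h2⟩ := Set.Infinite.exists_subset_card_eq h (4 ^ n)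
    rw [div_lt_iff₀ e0] at hn
    exact hn.not_ge (H.big h2 fun γ hγ => h1 hγ)
  exact ⟨this.toFinset, by simp⟩

lemma tail (x : X) {ε : ℝ} (e0 : 0 < ε) : ∃ F : Finset ℝ, ∀ y, (∀ γ, |co γ y| ≤ |co γ x|) →
    (∀ γ ∈ F, co γ y = 0) → ‖y‖ ≤ ε := by
  obtain ⟨u, h1, h2⟩ := H.lev x
  obtain ⟨k, hk⟩ := h2.tail (half_pos e0)
  have e1 : 0 < ε / 2 / 2 ^ k := by positivity
  obtain ⟨F, hF⟩ := H.fin x e1
  refine ⟨F, fun y hy hy' => H.norm_le (fun n => ?_) (((Nb.head k e1.le).add hk).mono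
    (fun _ => le_rfl) (le_of_eq (by field_simp; norm_num)))⟩
  by_cases q : n < k
  · simp only [q, q.not_ge, if_true, if_false, add_zero]
    refine Lv.sup n e1.le fun γ => ?_
    by_cases p : γ ∈ F
    · simpa [hy' γ p] using e1.le
    · exact (hy γ).trans (not_le.1 (mt (hF γ).2 p)).le
  · simp only [q, not_lt.1 q, if_true, if_false, zero_add]
    exact (h1 n).mono hy

lemma basis : ∃ e : ℝ → X, ∀ γ γ', co γ' (e γ) = if γ' = γ then 1 else 0 := by
  have : ∀ γ : ℝ, ∃ x, (∀ γ', co γ' x = if γ' = γ then 1 else 0) ∧ ‖x‖ ≤ 2 := fun γ =>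
    H.mk' _ (fun n => (1 / 2) ^ n) 2 (fun n S _ => by
      simp only [apply_ite abs, abs_one, abs_zero, sum_ite_eq', ← mul_pow]
      split_ifs <;> simp) fun M y hy => (sum_le_sum fun n hn => mul_le_of_le_one_left
        (by positivity) (hy.le (mem_range.1 hn))).trans (sum_geometric_two_le M)
  choose e he _ using this
  exact ⟨e, he⟩

lemma hump {Z : Set X} (h1 : ∀ z ∈ Z, ‖z‖ ≤ 1) (h2 : ∀ η > 0, ∃ z ∈ Z, ∀ γ, |co γ z| ≤ η)
    (N : ℕ) : ∃ z : ℕ → X, (∀ i, z i ∈ Z) ∧ ∀ (a : ℕ → ℝ) (m : ℝ), 0 ≤ m → (∀ i < N, |a i| ≤ m) →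
      ‖∑ i ∈ range N, a i • z i‖ ≤ 7 / 4 * m := by
  obtain ⟨ε, hε⟩ : ∃ ε : ℝ, ε = 1 / (8 * (N + 1)) := ⟨_, rfl⟩
  have e0 : 0 < ε := by rw [hε]; positivity
  have ex : ∀ k : ℕ, ∃ k', k < k' ∧ ∃ z ∈ Z, ∃ u, (∀ n, Lv n (co · z) (u n)) ∧ Nb u 1 ∧
      Nb (fun n => if n < k ∨ k' ≤ n then u n else 0) (2 * ε) := fun k => by
    have e1 : 0 < ε / 2 ^ k := by positivity
    obtain ⟨z, hz, hz'⟩ := h2 _ e1
    obtain ⟨u, u1, u2⟩ := H.lev z
    obtain ⟨l, hl⟩ := u2.tail e0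
    refine ⟨max (k + 1) l, by omega, z, hz, fun n => min (u n) (2 ^ n * (ε / 2 ^ k)),
      fun n S hS => ?_, u2.mono (fun n => min_le_left _ _) (h1 z hz), ((Nb.head k e1.le).add
      hl).mono (fun n => ?_) (le_of_eq (by field_simp; norm_num))⟩
    · rw [mul_min_of_nonneg _ _ (by positivity)]
      exact le_min (u1 n S hS) (Lv.sup n e1.le hz' S hS)
    · have := (u1 n).nonneg
      have a := min_le_left (u n) (2 ^ n * (ε / 2 ^ k))
      have b := min_le_right (u n) (2 ^ n * (ε / 2 ^ k))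
      have : 0 ≤ 2 ^ n * (ε / 2 ^ k) := by positivity
      split_ifs <;> first | linarith | omega
  choose F F1 z hz u u1 u2 u3 using ex
  let k : ℕ → ℕ := fun i => F^[i] N
  have ks : ∀ i, k (i + 1) = F (k i) := fun i => Function.iterate_succ_apply' _ _ _
  have hk : StrictMono k := strictMono_nat_of_lt_succ fun i => ks i ▸ F1 _
  have ec : ∀ n, ∃ i, n < k (i + 1) := fun n => ⟨n, (Nat.lt_succ_self n).trans_le (hk.id_le _)⟩
  have hc : Monotone fun n => Nat.find (ec n) := fun a b h => Nat.find_mono fun _ q => h.trans_lt q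
  refine ⟨fun i => z (k i), fun i => hz _, fun a m m0 ha => H.norm_le (fun n => by
    simpa using Lv.sum (fun i => u1 (k i) n) m0 ha) ((((Nb.node N hc fun j => u2 (k j)).add
      (Nb.sum N fun i => u3 (k i))).smul m0).mono (fun n => ?_) ?_)⟩
  · refine mul_le_mul_of_nonneg_left ?_ m0
    have : (if N ≤ n ∧ Nat.find (ec n) < N then u (k (Nat.find (ec n))) n else 0) =
        ∑ i ∈ range N, if N ≤ n ∧ Nat.find (ec n) = i then u (k i) n else 0 := by
      by_cases q : N ≤ n <;> simp only [q, true_and, false_and, if_false, sum_ite_eq, mem_range,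
        sum_const_zero]
    rw [this, ← sum_add_distrib]
    refine sum_le_sum fun i _ => ?_
    have := (u1 (k i) n).nonneg
    by_cases q : n < k i ∨ F (k i) ≤ n
    · rw [if_pos q]
      split_ifs <;> linarith
    · rw [if_neg q, if_pos, add_zero]
      rw [not_or, not_lt, not_le, ← ks] at q
      exact ⟨(hk.monotone (Nat.zero_le i)).trans q.1, (Nat.find_eq_iff _).2 ⟨q.2, fun j hj =>
        not_lt.2 ((hk.monotone hj).trans q.1)⟩⟩
  · have : N * (2 * ε) ≤ 1 / 4 := by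
      rw [hε, show (N : ℝ) * (2 * (1 / (8 * (N + 1)))) = 1 / 4 * (N / (N + 1)) by field_simp; ring]
      exact mul_le_of_le_one_right (by norm_num) (div_le_one_of_le₀ (by linarith) (by positivity))
    nlinarith

lemma shrink (f : X →L[ℝ] ℝ) {ε : ℝ} (e0 : 0 < ε) :
    ∃ F : Finset ℝ, ∀ x, (∀ γ ∈ F, co γ x = 0) → |f x| ≤ ε * ‖x‖ := by
  by_contra h
  have ex : ∀ F : Finset ℝ, ∃ x, (∀ γ ∈ F, co γ x = 0) ∧ ‖x‖ ≤ 1 ∧ ε ≤ f x := fun F => by
    push Not at h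
    obtain ⟨x, h1, h2⟩ := h F
    have x0 : 0 < ‖x‖ := norm_pos_iff.2 (by rintro rfl; simp at h2)
    refine ⟨(‖x‖⁻¹ * SignType.sign (f x)) • x, fun γ hγ => by simp [h1 γ hγ], ?_, ?_⟩
    · rw [norm_smul, norm_mul, norm_inv, norm_norm, mul_right_comm, inv_mul_cancel₀ x0.ne', one_mul]
      rcases lt_trichotomy (f x) 0 with q | q | q <;> simp [q]
    · rw [map_smul, smul_eq_mul, mul_assoc, sign_mul_self, le_inv_mul_iff₀ x0, mul_comm]
      exact h2.le
  have av : ∀ k : ℕ, ∃ s, ‖s‖ ≤ k ∧ k * ε ≤ f s ∧ ∀ γ, |co γ s| ≤ 2 := fun k => by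
    induction k with
    | zero => exact ⟨0, by simp⟩
    | succ k ih =>
      obtain ⟨s, s1, s2, s3⟩ := ih
      obtain ⟨F, hF⟩ := H.fin s one_pos
      obtain ⟨x, x1, x2, x3⟩ := ex F
      refine ⟨s + x, (norm_add_le _ _).trans (by push_cast; linarith), by
        rw [map_add]; push_cast; linarith, fun γ => ?_⟩
      rw [map_add]
      by_cases q : γ ∈ F
      · simpa [x1 γ q] using s3 γ
      · linarith [abs_add_le (co γ s) (co γ x), not_le.1 (mt (hF γ).2 q), H.co_le x γ]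
  obtain ⟨N, hN⟩ := exists_nat_gt (‖f‖ * (7 / 4 * 1) / ε)
  obtain ⟨z, z1, z2⟩ := H.hump (Z := {z | ‖z‖ ≤ 1 ∧ ε ≤ f z}) (fun _ q => q.1) (fun η η0 => by
    obtain ⟨k, hk⟩ := exists_nat_gt (2 / η)
    have k0 : (0 : ℝ) < k := (by positivity : 0 < 2 / η).trans hk
    obtain ⟨s, s1, s2, s3⟩ := av k
    refine ⟨(k : ℝ)⁻¹ • s, ⟨?_, ?_⟩, fun γ => ?_⟩
    · rwa [norm_smul, norm_inv, Real.norm_natCast, inv_mul_le_iff₀ k0, mul_one]
    · rwa [map_smul, smul_eq_mul, le_inv_mul_iff₀ k0]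
    · rw [map_smul, smul_eq_mul, abs_mul, abs_of_pos (inv_pos.2 k0), inv_mul_le_iff₀ k0]
      rw [div_lt_iff₀ η0] at hk
      linarith [s3 γ]) N
  have a := (le_abs_self _).trans (f.le_of_opNorm_le_of_le le_rfl (z2 (fun _ => 1) 1 zero_le_one
    (by simp)))
  have b := card_nsmul_le_sum (range N) _ _ fun i _ => (z1 i).2
  simp only [one_smul, map_sum] at a
  rw [card_range, nsmul_eq_mul] at b
  rw [div_lt_iff₀ e0] at hN
  linarith

lemma flat {Y : Submodule ℝ X} (hY : ¬ FiniteDimensional ℝ Y) (k : ℕ) : ∃ y ∈ Y,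
    (∀ γ, |co γ y| ≤ 1) ∧ ∃ S : Finset ℝ, S.card = k ∧ ∀ γ ∈ S, 1 / 4 ≤ |co γ y| := by
  classical
  induction k with
  | zero => exact ⟨0, Y.zero_mem, by simp, ∅, by simp⟩
  | succ k ih =>
    obtain ⟨y, hy, y1, S, S1, S2⟩ := ih
    obtain ⟨F, hF⟩ := H.fin y (show (0 : ℝ) < 1 / 4 by norm_num)
    obtain ⟨z, z1, z0⟩ : ∃ z : Y, (∀ γ ∈ F, co γ z = 0) ∧ z ≠ 0 := by
      by_contra h
      push Not at h
      refine hY (FiniteDimensional.of_injective (LinearMap.pi fun γ : F =>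
        (co γ : X →ₗ[ℝ] ℝ).domRestrict Y) ((injective_iff_map_eq_zero _).2 fun z hz => ?_))
      exact h z fun γ hγ => congrFun hz ⟨γ, hγ⟩
    have bd : BddAbove (Set.range fun γ => |co γ z|) := ⟨‖(z : X)‖, by
      rintro _ ⟨γ, rfl⟩; exact H.co_le _ γ⟩
    have s1 : ∀ γ, |co γ z| ≤ ⨆ γ, |co γ z| := le_ciSup bd
    have s0 : 0 < ⨆ γ, |co γ z| := lt_of_not_ge fun q => z0 (Subtype.ext (H.ext _ fun γ =>
      abs_nonpos_iff.1 ((s1 γ).trans q)))
    obtain ⟨γ, hγ⟩ := exists_lt_of_lt_ciSup (half_lt_self s0)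
    generalize ⨆ γ, |co γ z| = s at s1 s0 hγ
    have gF : γ ∉ F := fun q => by
      rw [z1 γ q, abs_zero] at hγ
      linarith
    obtain ⟨t, t1, t2⟩ : ∃ t : ℝ, |t| = (2 * s)⁻¹ ∧ |t * co γ z| ≤ |co γ y + t * co γ z| := by
      have := abs_sub (co γ y + (2 * s)⁻¹ * co γ z) (co γ y + -(2 * s)⁻¹ * co γ z)
      rw [show co γ y + (2 * s)⁻¹ * co γ z - (co γ y + -(2 * s)⁻¹ * co γ z) =
        2 * ((2 * s)⁻¹ * co γ z) by ring, abs_mul, abs_two] at this
      by_cases q : |(2 * s)⁻¹ * co γ z| ≤ |co γ y + (2 * s)⁻¹ * co γ z|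
      · exact ⟨_, abs_of_pos (by positivity), q⟩
      · refine ⟨-(2 * s)⁻¹, by rw [abs_neg, abs_of_pos (by positivity)], ?_⟩
        rw [neg_mul, abs_neg, ← neg_mul]
        linarith
    have e : ∀ γ, co γ (y + t • (z : X)) = co γ y + t * co γ z := fun γ => by simp
    refine ⟨y + t • z, Y.add_mem hy (Y.smul_mem _ z.2), fun β => ?_, insert γ S, by
      rw [card_insert_of_notMem fun q => gF ((hF γ).2 (S2 γ q)), S1], fun β hβ => ?_⟩
    · rw [e]
      by_cases q : β ∈ F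
      · simpa [z1 β q] using y1 β
      · have : |t * co β z| ≤ 1 / 2 := by
          rw [abs_mul, t1, inv_mul_le_iff₀ (by positivity)]
          linarith [s1 β]
        linarith [abs_add_le (co β y) (t * co β z), not_le.1 (mt (hF β).2 q)]
    · rw [e]
      rcases mem_insert.1 hβ with rfl | q
      · refine le_trans ?_ t2
        rw [abs_mul, t1, le_inv_mul_iff₀ (by positivity)]
        linarith
      · simpa [z1 β ((hF β).2 (S2 β q))] using S2 β q

lemma cfr {Y : Submodule ℝ X} (hY : ¬ FiniteDimensional ℝ Y) (E : Type) [NormedAddCommGroup E]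
    [NormedSpace ℝ E] [FiniteDimensional ℝ E] (l : ℕ → E →ₗ[ℝ] ℝ) (b : ∀ v n, |l n v| ≤ ‖v‖)
    (b' : ∀ v, (∀ n, |l n v| ≤ 1 / 2) → ‖v‖ ≤ 1 / 2) :
    ∃ T : E →ₗ[ℝ] X, (∀ v, T v ∈ Y) ∧ ∀ v : E, ‖v‖ ≤ ‖T v‖ ∧ ‖T v‖ ≤ 14 * ‖v‖ := by
  let L : ℕ → E →L[ℝ] ℝ := fun n => (l n).mkContinuous 1 fun v => by rw [one_mul]; exact b v n
  obtain ⟨t, ht⟩ := (isCompact_sphere (0 : E) 1).elim_finite_subcover
    (fun n => {v | 1 / 2 < |L n v|}) (fun n => isOpen_lt continuous_const (L n).continuous.abs)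
    fun v hv => by
      by_contra h
      simp only [Set.mem_iUnion, Set.mem_setOf_eq, not_exists, not_lt] at h
      rw [mem_sphere_zero_iff_norm] at hv
      linarith [b' v h]
  obtain ⟨z, z1, z2⟩ := H.hump (Z := {z | z ∈ Y ∧ ‖z‖ = 1}) (fun _ q => q.2.le) (fun η η0 => by
    obtain ⟨n, hn⟩ := pow_unbounded_of_one_lt (4 / η) one_lt_two
    obtain ⟨y, hy, y1, S, S1, S2⟩ := H.flat hY (4 ^ n)
    have a := H.big S1 S2
    have y0 : 0 < ‖y‖ := lt_of_lt_of_le (by positivity) a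
    refine ⟨‖y‖⁻¹ • y, ⟨Y.smul_mem _ hy, norm_smul_inv_norm (norm_pos_iff.1 y0)⟩, fun γ => ?_⟩
    rw [map_smul, smul_eq_mul, abs_mul, abs_of_pos (inv_pos.2 y0), inv_mul_le_iff₀ y0]
    rw [div_lt_iff₀ η0] at hn
    nlinarith [y1 γ]) (t.sup id + 1)
  generalize hN : t.sup id + 1 = N at z2
  refine ⟨(8 : ℝ) • ∑ i ∈ range N, (L i : E →ₗ[ℝ] ℝ).smulRight (z i), fun v => ?_, fun v => ?_⟩
  · simp only [LinearMap.smul_apply, LinearMap.sum_apply, LinearMap.smulRight_apply]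
    exact Y.smul_mem _ (Y.sum_mem fun i _ => Y.smul_mem _ (z1 i).1)
  simp only [LinearMap.smul_apply, LinearMap.sum_apply, LinearMap.smulRight_apply, norm_smul,
    ContinuousLinearMap.coe_coe, Real.norm_ofNat]
  refine ⟨?_, by linarith [z2 (L · v) ‖v‖ (norm_nonneg _) fun i _ => b v i]⟩
  rcases eq_or_ne v 0 with rfl | v0
  · rw [norm_zero]; positivity
  obtain ⟨j, hj, hm⟩ := exists_max_image (range N) (fun i => |L i v|) ⟨0, by simp [← hN]⟩
  have h1 : ‖v‖ ≤ 2 * |L j v| := by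
    have := ht (mem_sphere_zero_iff_norm.2 (norm_smul_inv_norm (𝕜 := ℝ) v0))
    simp only [Set.mem_iUnion, Set.mem_setOf_eq] at this
    obtain ⟨i, hi, h⟩ := this
    have p := norm_pos_iff.2 v0
    rw [map_smul, smul_eq_mul, abs_mul, abs_of_pos (by simpa using p)] at h
    erw [lt_inv_mul_iff₀ p] at h
    linarith [hm i (by rw [mem_range, ← hN, Nat.lt_succ_iff]; exact le_sup (f := id) hi)]
  have h2 := z2 (fun i => if i = j then L i v else -L i v) |L j v| (abs_nonneg _) fun i hi => by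
    split_ifs <;> simpa using hm i (mem_range.2 hi)
  have h3 := norm_add_le (∑ i ∈ range N, L i v • z i)
    (∑ i ∈ range N, (if i = j then L i v else -L i v) • z i)
  rw [← sum_add_distrib, sum_eq_single j (fun i _ q => by simp [q]) (fun q => (q hj).elim),
    if_pos rfl, ← add_smul, norm_smul, (z1 j).2, ← two_mul, norm_mul, Real.norm_ofNat,
    Real.norm_eq_abs] at h3
  linarith

lemma hasSum {e : ℝ → X} (he : ∀ γ γ', co γ' (e γ) = if γ' = γ then 1 else 0) (x : X) :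
    HasSum (fun γ => co γ x • e γ) x := by
  refine Metric.tendsto_atTop.2 fun ε e0 => ?_
  obtain ⟨F, hF⟩ := H.tail x (half_pos e0)
  refine ⟨F, fun F' h => ?_⟩
  rw [dist_eq_norm]
  refine (hF _ (fun γ => ?_) fun γ hγ => ?_).trans_lt (half_lt_self e0)
  · by_cases q : γ ∈ F' <;> simp [he, q]
  · simp [he, h hγ]

lemma refl (φ : (X →L[ℝ] ℝ) →L[ℝ] ℝ) : ∃ x : X, ∀ f : X →L[ℝ] ℝ, φ f = f x := by
  obtain ⟨e, he⟩ := H.basis
  obtain ⟨x, hx⟩ := H.bid φ
  refine ⟨x, fun f => sub_eq_zero.1 (abs_nonpos_iff.1 (le_of_forall_pos_le_add fun ε e0 => ?_))⟩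
  have e1 : 0 < ε / (‖φ‖ + ‖x‖ + 1) := by positivity
  obtain ⟨F, hF⟩ := H.shrink f e1
  let g := f - ∑ γ ∈ F, f (e γ) • co γ
  have hg : ‖g‖ ≤ ε / (‖φ‖ + ‖x‖ + 1) := g.opNorm_le_bound e1.le fun y => by
    rw [show g y = f (y - ∑ γ ∈ F, co γ y • e γ) by simp [g, mul_comm]]
    refine (hF _ fun γ hγ => by simp [he, hγ]).trans (mul_le_mul_of_nonneg_left
      (H.mono fun γ => ?_) e1.le)
    by_cases q : γ ∈ F <;> simp [he, q]
  rw [show φ f - f x = φ g - g x by simp [g, hx]]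
  have a : |φ g| ≤ _ := φ.le_of_opNorm_le_of_le le_rfl hg
  have b : |g x| ≤ _ := g.le_of_opNorm_le hg x
  have c : ε / (‖φ‖ + ‖x‖ + 1) * (‖φ‖ + ‖x‖ + 1) = ε := div_mul_cancel₀ _ (by positivity)
  linarith [abs_sub (φ g) (g x)]

lemma dens : (∃ D : Set X, Dense D ∧ Cardinal.mk D = Cardinal.continuum) ∧
    ∀ D : Set X, Dense D → Cardinal.continuum ≤ Cardinal.mk D := by
  obtain ⟨e, he⟩ := H.basis
  have low : ∀ D : Set X, Dense D → Cardinal.continuum ≤ Cardinal.mk D := fun D hD => by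
    choose d d1 d2 using fun γ => hD.exists_dist_lt (e γ) (show (0 : ℝ) < 1 / 2 by norm_num)
    rw [← Cardinal.mk_real]
    refine Cardinal.mk_le_of_injective (f := fun γ => (⟨d γ, d1 γ⟩ : D)) fun β γ h => ?_
    by_contra q
    have a := H.co_le (e β - e γ) β
    have b := dist_triangle_right (e β) (e γ) (d γ)
    have c := d2 β
    rw [show d β = d γ from congrArg Subtype.val h] at c
    simp only [map_sub, he, if_true, if_neg q, sub_zero, abs_one, ← dist_eq_norm] at a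
    linarith [d2 γ]
  have D : Dense (Set.range fun g : ℝ →₀ ℝ => g.sum fun γ a => a • e γ) := fun x =>
    mem_closure_of_tendsto (H.hasSum he x) (Filter.Eventually.of_forall fun F => by
      classical
      refine ⟨Finsupp.onFinset F (fun γ => if γ ∈ F then co γ x else 0) (by simp +contextual), ?_⟩
      beta_reduce
      rw [Finsupp.onFinset_sum _ (by simp)]
      exact sum_congr rfl fun γ q => by rw [if_pos q])
  refine ⟨⟨_, D, le_antisymm (Cardinal.mk_range_le.trans ?_) (low _ D)⟩, low⟩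
  simp [Cardinal.mk_finsupp_of_infinite, Cardinal.mk_real]

lemma uncond : ∃ (I : Type) (e : I → X), ∀ x : X, ∃! a : I → ℝ, HasSum (fun i => a i • e i) x := by
  obtain ⟨e, he⟩ := H.basis
  refine ⟨ℝ, e, fun x => ⟨_, H.hasSum he x, fun a ha => funext fun γ => ?_⟩⟩
  have := (co γ).hasSum ha
  simp only [map_smul, he, smul_eq_mul, mul_ite, mul_one, mul_zero] at this
  exact (hasSum_single γ (fun β q => if_neg q.symm)).unique this ▸ (if_pos rfl).symm

end Pool.Agent.H27.Tsi.Good
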