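import Mathlib

set_option autoImplicit false
open Filter Topology Set

namespace Pool.Agent.H27.Ubs

variable {X : Type} [NormedAddCommGroup X] [NormedSpace ℝ X] [CompleteSpace X]

omit [NormedSpace ℝ X] in
theorem bdd {u : ℕ → X} (h : Summable u) : ∃ C, ∀ A : Finset ℕ, ‖∑ i ∈ A, u i‖ ≤ C := by
  classical
  obtain ⟨s, hs⟩ := summable_iff_vanishing_norm.1 h 1 one_pos
  refine ⟨∑ i ∈ s, ‖u i‖ + 1, fun A => ?_⟩
  rw [← Finset.sum_inter_add_sum_sdiff A s]
  refine (norm_add_le _ _).trans (add_le_add ?_ (hs _ Finset.sdiff_disjoint).le)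
  exact (norm_sum_le _ _).trans (Finset.sum_le_sum_of_subset_of_nonneg Finset.inter_subset_right
    fun _ _ _ => norm_nonneg _)

/-- coordinate functionals of an unconditional basis are continuous -/
theorem coords {e : ℕ → X} (hb : ∀ x : X, ∃! a : ℕ → ℝ, HasSum (fun n => a n • e n) x) :
    ∃ (c : ℕ → X →L[ℝ] ℝ) (C : ℝ), (∀ x, HasSum (fun n => c n x • e n) x) ∧ (∀ n, e n ≠ 0) ∧
      ∀ (A : Finset ℕ) (x : X), ‖∑ i ∈ A, c i x • e i‖ ≤ C * ‖x‖ := by
  classical
  choose a ha hu using hb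
  have he : ∀ n, e n ≠ 0 := by
    intro n hn
    have h1 : HasSum (fun m => (0 : ℕ → ℝ) m • e m) 0 := by simpa using hasSum_zero
    have h2 : HasSum (fun m => (Pi.single n 1 : ℕ → ℝ) m • e m) 0 := by
      have : (fun m => (Pi.single n 1 : ℕ → ℝ) m • e m) = fun _ => 0 := by
        funext m
        by_cases hm : m = n
        · subst hm; simp [hn]
        · simp [hm]
      rw [this]; exact hasSum_zero
    have h3 := congrFun ((hu 0 _ h1).trans (hu 0 _ h2).symm) n
    simp at h3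
  have hadd : ∀ x y, a (x + y) = a x + a y := fun x y => (hu _ _ (by
    simpa only [Pi.add_apply, add_smul] using (ha x).add (ha y))).symm
  have hsm : ∀ (r : ℝ) x, a (r • x) = r • a x := fun r x => (hu _ _ (by
    simpa only [Pi.smul_apply, smul_eq_mul, mul_smul] using (ha x).const_smul r)).symm
  let T : X →ₗ[ℝ] lp (fun _ : Finset ℕ => X) ⊤ :=
    { toFun := fun x => ⟨fun A => ∑ i ∈ A, a x i • e i, by
        obtain ⟨C, hC⟩ := bdd (ha x).summable
        exact memℓp_infty ⟨C, by rintro _ ⟨A, rfl⟩; exact hC A⟩⟩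
      map_add' := fun x y => by
        ext A
        show ∑ i ∈ A, a (x + y) i • e i = ∑ i ∈ A, a x i • e i + ∑ i ∈ A, a y i • e i
        rw [hadd, ← Finset.sum_add_distrib]
        simp only [Pi.add_apply, add_smul]
      map_smul' := fun r x => by
        ext A
        show ∑ i ∈ A, a (r • x) i • e i = r • ∑ i ∈ A, a x i • e i
        rw [hsm, Finset.smul_sum]
        simp only [Pi.smul_apply, smul_eq_mul, mul_smul] }
  have hT : ∀ x A, T x A = ∑ i ∈ A, a x i • e i := fun x A => rfl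
  have hφ : ∀ i, ∃ φ : X →L[ℝ] ℝ, φ (e i) = 1 := fun i => by
    obtain ⟨g, -, hg⟩ := exists_dual_vector'' ℝ (e i)
    have h0 : ‖e i‖ ≠ 0 := norm_ne_zero_iff.2 (he i)
    refine ⟨‖e i‖⁻¹ • g, ?_⟩
    simp only [ContinuousLinearMap.smul_apply, hg, smul_eq_mul]
    exact inv_mul_cancel₀ h0
  choose φ hφ using hφ
  have hev : ∀ (s t : lp (fun _ : Finset ℕ => X) ⊤) A, ‖s A - t A‖ ≤ ‖s - t‖ := fun s t A =>
    lp.norm_apply_le_norm ENNReal.top_ne_zero (s - t) A
  have hc : Continuous T := by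
    apply T.continuous_of_seq_closed_graph
    intro u x s hux hs
    have hs' : Tendsto (fun k => ‖T (u k) - s‖) atTop (𝓝 0) :=
      tendsto_iff_norm_sub_tendsto_zero.1 hs
    have h1 : ∀ A, Tendsto (fun k => T (u k) A) atTop (𝓝 (s A)) := fun A =>
      tendsto_iff_norm_sub_tendsto_zero.2
        (squeeze_zero (fun _ => norm_nonneg _) (fun k => hev _ _ A) hs')
    have h2 : ∀ i, Tendsto (fun k => a (u k) i) atTop (𝓝 (φ i (s {i}))) := fun i => by
      refine (((φ i).continuous.tendsto _).comp (h1 {i})).congr fun k => ?_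
      simp [hT, hφ]
    have h3 : ∀ A, s A = ∑ i ∈ A, φ i (s {i}) • e i := fun A =>
      tendsto_nhds_unique (h1 A) (tendsto_finset_sum A fun i _ => (h2 i).smul_const (e i))
    have h4 : HasSum (fun i => φ i (s {i}) • e i) x := by
      refine Metric.tendsto_nhds.2 fun ε hε => ?_
      have hε3 : 0 < ε / 3 := by positivity
      obtain ⟨k, hk1, hk2⟩ := ((hs'.eventually (gt_mem_nhds hε3)).and
        (Metric.tendsto_nhds.1 hux _ hε3)).exists
      filter_upwards [Metric.tendsto_nhds.1 (ha (u k)) _ hε3] with A hA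
      rw [← h3 A]
      have h5 := hev (T (u k)) s A
      rw [hT] at h5
      have h6 := dist_triangle4 (s A) (∑ i ∈ A, a (u k) i • e i) (u k) x
      rw [dist_comm (s A) (∑ i ∈ A, a (u k) i • e i), dist_eq_norm (∑ i ∈ A, a (u k) i • e i) (s A)]
        at h6
      linarith
    have h5 := hu x _ h4
    ext A
    rw [hT, h3 A, ← h5]
  let Tc : X →L[ℝ] lp (fun _ : Finset ℕ => X) ⊤ := ⟨T, hc⟩
  have hbd : ∀ (A : Finset ℕ) x, ‖∑ i ∈ A, a x i • e i‖ ≤ ‖Tc‖ * ‖x‖ := fun A x =>
    (lp.norm_apply_le_norm ENNReal.top_ne_zero (T x) A).trans (Tc.le_opNorm x)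
  let cl : ℕ → X →ₗ[ℝ] ℝ := fun i =>
    { toFun := fun x => a x i
      map_add' := fun x y => by rw [hadd]; rfl
      map_smul' := fun r x => by rw [hsm]; rfl }
  have hcl : ∀ i x, ‖cl i x‖ ≤ (‖φ i‖ * ‖Tc‖) * ‖x‖ := fun i x => by
    have h1 := hbd {i} x
    rw [Finset.sum_singleton] at h1
    have h2 : cl i x = φ i (a x i • e i) := by
      show a x i = _
      simp [hφ]
    rw [h2, mul_assoc]
    exact ((φ i).le_opNorm _).trans (mul_le_mul_of_nonneg_left h1 (norm_nonneg _))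
  exact ⟨fun i => (cl i).mkContinuous _ (hcl i), ‖Tc‖, ha, he, hbd⟩

/-- the origin is an SCD point of the unit ball -/
theorem zero_scd {e : ℕ → X} (hb : ∀ x : X, ∃! a : ℕ → ℝ, HasSum (fun n => a n • e n) x) :
    ∃ (f : ℕ → (X →L[ℝ] ℝ)) (α : ℕ → ℝ), (∀ n, f n ≠ 0 ∧ 0 < α n) ∧
      ∀ y : ℕ → X,
        (∀ n, y n ∈ Metric.closedBall (0 : X) 1 ∧ ‖f n‖ - α n < f n (y n)) →
        (0 : X) ∈ closure (convexHull ℝ (range y)) := by
  classical
  obtain ⟨c, C, hc, he, hC⟩ := coords hb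
  obtain ⟨φ, hφ1, -⟩ := exists_dual_vector ℝ (e 0) (norm_ne_zero_iff.2 (he 0))
  have hφ : φ ≠ 0 := by
    intro h; rw [h, norm_zero] at hφ1; exact zero_ne_one hφ1
  obtain ⟨t, ht, hsub⟩ := ((countable_range c).isSeparable).span (R := ℝ)
  have hne : t.Nonempty := closure_nonempty_iff.1 ⟨0, hsub (Submodule.zero_mem _)⟩
  obtain ⟨τ, rfl⟩ := ht.exists_eq_range hne
  refine ⟨fun n => if τ n.unpair.1 = 0 then φ else τ n.unpair.1,
    fun n => 1 / ((n.unpair.2 : ℝ) + 1), fun n => ⟨?_, by positivity⟩, fun y hy => ?_⟩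
  · beta_reduce
    split_ifs with h
    · exact hφ
    · exact h
  by_contra h0
  obtain ⟨g, δ, hδ, hg⟩ := geometric_hahn_banach_point_closed
    (convex_convexHull ℝ (range y)).closure isClosed_closure h0
  rw [map_zero] at hδ
  have hgy : ∀ n, δ < g (y n) := fun n =>
    hg _ (subset_closure (subset_convexHull ℝ _ ⟨n, rfl⟩))
  have hy1 : ∀ n, ‖y n‖ ≤ 1 := fun n => by simpa using (hy n).1
  have hy2 : ∀ j k : ℕ, ‖τ j‖ - 1 / ((k : ℝ) + 1) < τ j (y (Nat.pair j k)) := fun j k => by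
    have h := (hy (Nat.pair j k)).2
    simp only [Nat.unpair_pair] at h
    by_cases hj : τ j = 0
    · rw [hj]
      have : 0 < 1 / ((k : ℝ) + 1) := by positivity
      simp only [norm_zero, ContinuousLinearMap.zero_apply]
      linarith
    · rwa [if_neg hj] at h
  let G : Finset ℕ → X →L[ℝ] ℝ := fun A => ∑ i ∈ A, g (e i) • c i
  have hG : ∀ A x, G A x = g (∑ i ∈ A, c i x • e i) := fun A x => by
    simp only [G, ContinuousLinearMap.sum_apply, ContinuousLinearMap.smul_apply, map_sum, map_smul,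
      smul_eq_mul]
    exact Finset.sum_congr rfl fun i _ => mul_comm _ _
  have hlow : ∀ A, ‖G A‖ + δ ≤ ‖g - G A‖ := by
    intro A
    refine le_of_forall_pos_le_add fun η hη => ?_
    have hmem : -G A ∈ Submodule.span ℝ (range c) :=
      Submodule.neg_mem _ (Submodule.sum_mem _ fun i _ =>
        Submodule.smul_mem _ _ (Submodule.subset_span ⟨i, rfl⟩))
    have hη3 : 0 < η / 3 := by positivity
    obtain ⟨_, ⟨j, rfl⟩, hj⟩ := Metric.mem_closure_iff.1 (hsub hmem) _ hη3
    obtain ⟨k, hk⟩ := exists_nat_one_div_lt hη3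
    rw [dist_eq_norm] at hj
    set z := y (Nat.pair j k) with hz
    have h1 := hy2 j k
    have h2 := hgy (Nat.pair j k)
    have h3 := hy1 (Nat.pair j k)
    rw [← hz] at h1 h2 h3
    have h4 : ‖G A‖ ≤ ‖τ j‖ + ‖-G A - τ j‖ := by
      have := norm_add_le (τ j) (-G A - τ j)
      rwa [add_sub_cancel, norm_neg] at this
    have h5 : |(-G A - τ j) z| ≤ ‖-G A - τ j‖ :=
      ((-G A - τ j).le_opNorm z).trans (mul_le_of_le_one_right (norm_nonneg _) h3)
    have h6 : |(g - G A) z| ≤ ‖g - G A‖ :=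
      ((g - G A).le_opNorm z).trans (mul_le_of_le_one_right (norm_nonneg _) h3)
    simp only [ContinuousLinearMap.sub_apply, ContinuousLinearMap.neg_apply] at h5 h6
    have h7 := (abs_le.1 h5).1
    have h8 := (abs_le.1 h6).2
    linarith
  have hup : ∀ β : ℝ, (∀ B, ‖G B‖ ≤ β) → ∀ A, ‖g - G A‖ ≤ β := by
    intro β hβ A
    refine ContinuousLinearMap.opNorm_le_bound _ ((norm_nonneg _).trans (hβ ∅)) fun x => ?_
    have h1 : Tendsto (fun B : Finset ℕ => ‖g (∑ i ∈ B, c i x • e i) - G A x‖) atTop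
        (𝓝 ‖g x - G A x‖) :=
      (((g.continuous.tendsto _).comp (hc x)).sub tendsto_const_nhds).norm
    refine le_of_tendsto h1 ?_
    filter_upwards [eventually_ge_atTop A] with B hB
    rw [← Finset.sum_sdiff hB, map_add, ← hG, ← hG, add_sub_cancel_right]
    exact ((G _).le_opNorm x).trans (mul_le_mul_of_nonneg_right (hβ _) (norm_nonneg _))
  have hind : ∀ m : ℕ, ∀ A, ‖G A‖ ≤ ‖g‖ * |C| - m * δ := by
    intro m
    induction m with
    | zero =>
      intro A
      simp only [Nat.cast_zero, zero_mul, sub_zero]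
      refine ContinuousLinearMap.opNorm_le_bound _ (by positivity) fun x => ?_
      rw [hG, mul_assoc]
      refine (g.le_opNorm _).trans (mul_le_mul_of_nonneg_left ((hC A x).trans ?_) (norm_nonneg _))
      exact mul_le_mul_of_nonneg_right (le_abs_self C) (norm_nonneg _)
    | succ m ih =>
      intro A
      have h1 := hup _ ih A
      have h2 := hlow A
      push_cast
      linarith
  obtain ⟨m, hm⟩ := exists_nat_gt (‖g‖ * |C| / δ)
  have h1 := hind m ∅
  have h2 := norm_nonneg (G ∅)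
  rw [div_lt_iff₀ hδ] at hm
  linarith

end Pool.Agent.H27.Ubs
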