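import Mathlib

set_option autoImplicit false
open Set Bornology

namespace Pool.Agent.H27.Ul

variable (T : ℝ × ℝ ≃ₜ ℝ × ℝ)

/-- first coordinate of a plane homeomorphism as a binary operation -/
def m (a b : ℝ) : ℝ := (T (a, b)).1

theorem cont : Continuous fun u : ℝ × ℝ => m T u.1 u.2 := continuous_fst.comp T.continuous

theorem contl (b : ℝ) : Continuous fun a => m T a b :=
  (cont T).comp (continuous_id.prodMk continuous_const)

theorem contr (a : ℝ) : Continuous fun b => m T a b :=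
  (cont T).comp (continuous_const.prodMk continuous_id)

theorem opn : IsOpenMap fun u : ℝ × ℝ => m T u.1 u.2 := isOpenMap_fst.comp T.isOpenMap

theorem pre {I : Set ℝ} (hI : IsPreconnected I) :
    IsPreconnected {u : ℝ × ℝ | m T u.1 u.2 ∈ I} := by
  have : {u : ℝ × ℝ | m T u.1 u.2 ∈ I} = T.symm '' (I ×ˢ univ) := by
    rw [T.image_symm]; ext u; simp [m]
  rw [this]
  exact (hI.prod isPreconnected_univ).image _ T.symm.continuous.continuousOn

theorem srj (c : ℝ) : ∃ a b, m T a b = c :=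
  ⟨(T.symm (c, 0)).1, (T.symm (c, 0)).2, by simp [m]⟩

def Up (X : Set (ℝ × ℝ)) : Prop := ∃ a, ∀ t, a ≤ t → ∃ u ∈ X, (T u).2 = t
def Dn (X : Set (ℝ × ℝ)) : Prop := ∃ a, ∀ t, t ≤ a → ∃ u ∈ X, (T u).2 = t

theorem ordc {X : Set (ℝ × ℝ)} (hX : IsPreconnected X) :
    OrdConnected ((fun u => (T u).2) '' X) :=
  (hX.image _ (continuous_snd.comp T.continuous).continuousOn).ordConnected

variable {T}

theorem updn {X : Set (ℝ × ℝ)} {c : ℝ} (hX : IsPreconnected X) (hc : ∀ u ∈ X, m T u.1 u.2 = c)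
    (hb : ¬ IsBounded X) : Up T X ∨ Dn T X := by
  obtain ⟨u0, hu0⟩ : X.Nonempty := nonempty_iff_ne_empty.2 fun h => hb (h ▸ isBounded_empty)
  by_cases h1 : BddAbove ((fun u => (T u).2) '' X)
  · by_cases h2 : BddBelow ((fun u => (T u).2) '' X)
    · obtain ⟨hi, h1⟩ := h1
      obtain ⟨lo, h2⟩ := h2
      refine absurd ((((isCompact_singleton (x := c)).prod (isCompact_Icc (a := lo) (b := hi))).image
        T.symm.continuous).isBounded.subset fun u hu => ?_) hb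
      exact ⟨T u, ⟨hc u hu, h2 ⟨u, hu, rfl⟩, h1 ⟨u, hu, rfl⟩⟩, T.symm_apply_apply u⟩
    · refine Or.inr ⟨(T u0).2, fun t ht => ?_⟩
      obtain ⟨y, hy, h⟩ := not_bddBelow_iff.1 h2 t
      exact (ordc T hX).out hy ⟨u0, hu0, rfl⟩ ⟨h.le, ht⟩
  · refine Or.inl ⟨(T u0).2, fun t ht => ?_⟩
    obtain ⟨y, hy, h⟩ := not_bddAbove_iff.1 h1 t
    exact (ordc T hX).out ⟨u0, hu0, rfl⟩ hy ⟨ht, h.le⟩

theorem meet {X Y : Set (ℝ × ℝ)} {c : ℝ} (hX : ∀ u ∈ X, m T u.1 u.2 = c)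
    (hY : ∀ u ∈ Y, m T u.1 u.2 = c) (h : Up T X ∧ Up T Y ∨ Dn T X ∧ Dn T Y) :
    ∃ u ∈ X, u ∈ Y := by
  obtain ⟨t, ⟨u, hu, h1⟩, v, hv, h2⟩ : ∃ t, (∃ u ∈ X, (T u).2 = t) ∧ ∃ u ∈ Y, (T u).2 = t := by
    rcases h with ⟨⟨a, ha⟩, b, hb⟩ | ⟨⟨a, ha⟩, b, hb⟩
    · exact ⟨max a b, ha _ (le_max_left _ _), hb _ (le_max_right _ _)⟩
    · exact ⟨min a b, ha _ (min_le_left _ _), hb _ (min_le_right _ _)⟩
  obtain rfl : u = v := T.injective (Prod.ext ((hX u hu).trans (hY v hv).symm) (h1.trans h2.symm))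
  exact ⟨u, hu, hv⟩

theorem nb1 {A : Set ℝ} (hA : ¬ IsBounded A) (k : ℝ) : ¬ IsBounded (A ×ˢ ({k} : Set ℝ)) :=
  fun h => hA (h.fst_of_prod (singleton_nonempty k))

theorem nb2 {A : Set ℝ} (hA : ¬ IsBounded A) (k : ℝ) : ¬ IsBounded (({k} : Set ℝ) ×ˢ A) :=
  fun h => hA (h.snd_of_prod (singleton_nonempty k))

theorem nbh {I : Set ℝ} {w : ℝ} (h : Iic w ⊆ I ∨ Ici w ⊆ I) : ¬ IsBounded I := fun hb => by
  rcases h with h | h
  · exact not_bddBelow_Iic w (hb.subset h).bddBelow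
  · exact not_bddAbove_Ici w (hb.subset h).bddAbove

theorem cross (a b : ℝ) : IsPreconnected (({a} : Set ℝ) ×ˢ (univ : Set ℝ) ∪ univ ×ˢ {b}) :=
  IsPreconnected.union (a, b) (by simp) (by simp) (isPreconnected_singleton.prod isPreconnected_univ)
    (isPreconnected_univ.prod isPreconnected_singleton)

theorem rect {I U V : Set ℝ} (h : ∀ p q, m T p q ∈ I ↔ p ∈ U ∧ q ∈ V) {p0 q0 w : ℝ} (hp : p0 ∉ U)
    (hq : q0 ∉ V) (hw : w ∈ I) : Iic w ⊆ I ∨ Ici w ⊆ I := by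
  have hZ : IsPreconnected {u : ℝ × ℝ | ¬ (u.1 ∈ U ∧ u.2 ∈ V)} := by
    refine isPreconnected_of_forall (p0, q0) fun y hy => ?_
    by_cases h1 : y.1 ∈ U
    · refine ⟨_, ?_, by simp, by simp, cross p0 y.2⟩
      rintro u (hu | hu) h2
      · exact hp (mem_singleton_iff.1 hu.1 ▸ h2.1)
      · exact hy ⟨h1, mem_singleton_iff.1 hu.2 ▸ h2.2⟩
    · refine ⟨_, ?_, by simp, by simp, cross y.1 q0⟩
      rintro u (hu | hu) h2
      · exact h1 (mem_singleton_iff.1 hu.1 ▸ h2.1)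
      · exact hq (mem_singleton_iff.1 hu.2 ▸ h2.2)
  by_contra hn
  obtain ⟨⟨a, ha, ha'⟩, b, hb, hb'⟩ := (not_or.1 hn).imp not_subset.1 not_subset.1
  obtain ⟨a1, a2, rfl⟩ := srj T a
  obtain ⟨b1, b2, rfl⟩ := srj T b
  obtain ⟨u, hu, e⟩ := hZ.intermediate_value (a := (a1, a2)) (b := (b1, b2))
    (fun h1 => ha' ((h _ _).2 h1)) (fun h1 => hb' ((h _ _).2 h1)) (cont T).continuousOn ⟨ha, hb⟩
  exact hu ((h _ _).1 (by rw [show m T u.1 u.2 = w from e]; exact hw))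

variable (hA : ∀ a b c, m T (m T a b) c = m T a (m T b c))
include hA

theorem rz {k : ℝ} (hk : ∀ x, m T x k = k) (x s : ℝ) : m T x s = s := by
  have h1 : ∀ x, m T x (m T k s) = m T k s := fun x => by rw [← hA, hk]
  have h2 : ∀ (A : Set ℝ), ∀ u ∈ A ×ˢ ({m T k s} : Set ℝ), m T u.1 u.2 = m T k s := fun A u hu => by
    rw [mem_singleton_iff.1 hu.2, h1]
  have a1 := updn (isPreconnected_Ici.prod isPreconnected_singleton) (h2 (Ici 1))
    (nb1 (nbh (Or.inr Subset.rfl)) _)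
  have a2 := updn (isPreconnected_Iic.prod isPreconnected_singleton) (h2 (Iic 0))
    (nb1 (nbh (Or.inl Subset.rfl)) _)
  have a3 : ¬ _ := fun h => by
    obtain ⟨u, h3, h4⟩ := meet (h2 (Ici 1)) (h2 (Iic 0)) h
    linarith [mem_Ici.1 h3.1, mem_Iic.1 h4.1]
  have a4 : Up T (univ ×ˢ {m T k s}) ∧ Dn T (univ ×ˢ {m T k s}) := by
    have b1 : ∀ A, Up T (A ×ˢ {m T k s}) → Up T (univ ×ˢ {m T k s}) := fun A ⟨a, ha⟩ =>
      ⟨a, fun t ht => (ha t ht).imp fun u hu => ⟨⟨trivial, hu.1.2⟩, hu.2⟩⟩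
    have b2 : ∀ A, Dn T (A ×ˢ {m T k s}) → Dn T (univ ×ˢ {m T k s}) := fun A ⟨a, ha⟩ =>
      ⟨a, fun t ht => (ha t ht).imp fun u hu => ⟨⟨trivial, hu.1.2⟩, hu.2⟩⟩
    rcases a1 with a1 | a1 <;> rcases a2 with a2 | a2
    exacts [(a3 (Or.inl ⟨a1, a2⟩)).elim, ⟨b1 _ a1, b2 _ a2⟩, ⟨b1 _ a2, b2 _ a1⟩,
      (a3 (Or.inr ⟨a1, a2⟩)).elim]
  obtain ⟨⟨a, ha⟩, b, hb⟩ := a4
  obtain ⟨u, hu, e⟩ := (ordc T (isPreconnected_univ.prod isPreconnected_singleton)).out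
    (hb _ (min_le_left b (T (k, s)).2)) (ha _ (le_max_left a (T (k, s)).2))
    ⟨min_le_right _ _, le_max_right _ _⟩
  have e1 : u = (k, s) := T.injective (Prod.ext (h2 _ u hu) e)
  have e2 : s = m T k s := by have := hu.2; rw [e1] at this; exact this
  rw [e2, h1]

theorem middle {a b p y z : ℝ} (h : m T (m T (m T a p) y) z ≠ m T (m T (m T b p) y) z)
    (h1 : m T a p < m T b p) : ¬ m T (m T b p) y < m T (m T a p) y := fun h2 => by
  obtain ⟨u, hu, e⟩ := (pre T (isPreconnected_singleton (x := m T (m T p y) z))).intermediate_value₂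
    (a := (p, m T y z)) (b := (m T p y, z)) (f := fun u => m T a u.1) (g := fun u => m T b u.1)
    (hA _ _ _).symm rfl ((contr T a).comp continuous_fst).continuousOn
    ((contr T b).comp continuous_fst).continuousOn h1.le (by rw [← hA, ← hA]; exact h2.le)
  refine h ?_
  rw [hA a p y, hA b p y, hA a, hA b, ← show m T u.1 u.2 = _ from hu, ← hA, ← hA, e]

/-- elements with the same left translation -/
def cls (T : ℝ × ℝ ≃ₜ ℝ × ℝ) (y : ℝ) : Set ℝ := {q | ∀ z, m T q z = m T y z}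

omit hA in
theorem cls_closed (y : ℝ) : IsClosed (cls T y) := by
  rw [cls, setOf_forall]
  exact isClosed_iInter fun z => isClosed_eq (contl T z) continuous_const

omit hA in
theorem cls_eq {x y : ℝ} (h : x ∈ cls T y) : cls T x = cls T y :=
  Set.ext fun _ => forall_congr' fun z => by rw [h z]

omit hA in
theorem cls_conn {X : Set ℝ} (hX : IsPreconnected X) (h : ∀ x ∈ X, x ∈ interior (cls T x)) {y : ℝ}
    (hy : y ∈ X) : X ⊆ interior (cls T y) :=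
  hX.subset_of_closure_inter_subset isOpen_interior ⟨y, hy, h y hy⟩ fun x hx => by
    rw [← cls_eq ((cls_closed y).closure_subset_iff.2 interior_subset hx.1)]
    exact h x hx.2

theorem rfac {p q w : ℝ} (h : m T p q ∈ interior (cls T w)) : q ∈ interior (cls T q) := by
  obtain ⟨U, V, hU, hV, hp, hq, hUV⟩ := isOpen_prod_iff.1 (isOpen_interior.preimage (cont T)) p q h
  obtain ⟨ε, hε, hb⟩ := Metric.isOpen_iff.1 hV q hq
  refine mem_interior.2 ⟨_, fun q' hq' z => ?_, Metric.isOpen_ball, Metric.mem_ball_self hε⟩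
  by_contra hne
  have h1 : OrdConnected ((fun a => m T a z) '' Metric.ball q ε) :=
    ((convex_ball q ε).isPreconnected.image _ (contl T z).continuousOn).ordConnected
  have h2 := h1.uIcc_subset ⟨q', hq', rfl⟩ ⟨q, Metric.mem_ball_self hε, rfl⟩
  have h3 : (fun u : ℝ × ℝ => m T u.1 u.2) '' (U ×ˢ uIoo (m T q' z) (m T q z)) = {m T w z} := by
    refine eq_singleton_iff_nonempty_unique_mem.2 ⟨(Set.Nonempty.prod ⟨p, hp⟩
      (nonempty_uIoo.2 hne)).image _, ?_⟩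
    rintro _ ⟨u, hu, rfl⟩
    obtain ⟨v, hv, e⟩ := h2 (uIoo_subset_uIcc_self hu.2)
    show m T u.1 u.2 = _
    rw [← e, ← hA]
    exact interior_subset (hUV (mk_mem_prod hu.1 (hb hv))) z
  exact not_isOpen_singleton _ (h3 ▸ opn T _ (hU.prod isOpen_Ioo))

end Pool.Agent.H27.Ul
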