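import Mathlib

set_option autoImplicit false
open Set Complex
open scoped Real

namespace Pool.Agent.H27.Ul

theorem cst {X : Type} [TopologicalSpace X] [PreconnectedSpace X] {u : X → ℂ} (hu : Continuous u)
    (h : ∀ a b, exp (u a) = exp (u b)) (a b : X) : u a = u b :=
  isCoveringMap_exp.const_of_comp hu (fun a b => Subtype.ext (h a b)) a b

/-- the loop has a periodic continuous logarithm -/
def Null (γ : ℝ → ℂ) : Prop :=
  ∃ l : ℝ → ℂ, Continuous l ∧ (∀ t, exp (l t) = γ t) ∧ ∀ t, l (t + 2 * π) = l t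

theorem null_hom {F : ℝ × ℝ → ℂ} (hF : Continuous F) (h0 : ∀ s ∈ Icc (0 : ℝ) 1, ∀ t, F (s, t) ≠ 0)
    (hp : ∀ s t, F (s, t + 2 * π) = F (s, t)) (h : Null fun t => F (0, t)) :
    Null fun t => F (1, t) := by
  obtain ⟨l, hl, h1, h2⟩ := h
  have hc : ∀ s : ℝ, max 0 (min 1 s) ∈ Icc (0 : ℝ) 1 := fun s =>
    ⟨le_max_left _ _, max_le zero_le_one (min_le_left _ _)⟩
  obtain ⟨L, ⟨-, hL⟩, -⟩ := isCoveringMapOn_exp.existsUnique_continuousMap_lifts
    (⟨fun u : ℝ × ℝ => F (max 0 (min 1 u.1), u.2), by fun_prop⟩ : C(ℝ × ℝ, ℂ)) (a₀ := (0, 0))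
    (e₀ := l 0) (by simp [h1]) fun u => h0 _ (hc _) _
  have hL' : ∀ s t, exp (L (s, t)) = F (max 0 (min 1 s), t) := fun s t => congrFun hL (s, t)
  have e1 : ∀ s t, exp (L (s, t + 2 * π) - L (s, t)) = 1 := fun s t => by
    rw [exp_sub, hL', hL', hp, div_self (h0 _ (hc _) _)]
  have e2 : ∀ t, exp (L (0, t) - l t) = 1 := fun t => by
    rw [exp_sub, hL', h1]
    simpa using h0 0 ⟨le_rfl, zero_le_one⟩ t
  have e3 := cst (u := fun t => L (0, t) - l t) (by fun_prop) (fun a b => by rw [e2, e2])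
    (0 + 2 * π) 0
  refine ⟨fun t => L (1, t), by fun_prop, fun t => by simpa using hL' 1 t, fun t => ?_⟩
  have e4 := cst (u := fun u : ℝ × ℝ => L (u.1, u.2 + 2 * π) - L (u.1, u.2)) (by fun_prop)
    (fun a b => by rw [e1, e1]) (1, t) (0, 0)
  simp only [h2] at e3 e4
  linear_combination e3 + e4

theorem not_null {γ : ℝ → ℂ} (h : ∀ t, γ (t + π) = -γ t) : ¬ Null γ := by
  rintro ⟨l, hl, h1, h2⟩
  have e1 : ∀ t, exp (l (t + π) - l t) = -1 := fun t => by
    rw [exp_sub, h1, h, ← h1, neg_div, div_self (exp_ne_zero _)]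
  have e2 := cst (u := fun t => l (t + π) - l t) (by fun_prop) (fun a b => by rw [e1, e1]) π 0
  have e3 := h2 0
  have e4 := e1 0
  rw [show π + π = 0 + 2 * π by ring, e3, zero_add] at e2
  rw [show l (0 + π) - l 0 = 0 by rw [zero_add]; linear_combination (-1 / 2 : ℂ) * e2,
    exp_zero] at e4
  norm_num at e4

/-- a plane map with a continuous left inverse is onto -/
theorem surj {T r : ℝ × ℝ → ℝ × ℝ} (hT : Continuous T) (hr : Continuous r)
    (h : ∀ u, r (T u) = u) : Function.Surjective T := by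
  intro p
  by_contra hp
  have hp' : ∀ u, T u ≠ p := fun u hu => hp ⟨u, hu⟩
  have hinj : Function.Injective T := Function.LeftInverse.injective h
  let τ := equivRealProdCLM.symm
  have hτ : ∀ u v, u ≠ v → τ u - τ v ≠ 0 := fun u v huv h => huv (τ.injective (sub_eq_zero.1 h))
  have hτc : Continuous τ := τ.continuous
  obtain ⟨M, hM⟩ := (isCompact_Icc (a := (0 : ℝ)) (b := 1)).bddAbove_image
    (f := fun s => (r ((1 - s) • p + s • T 0)).1 ^ 2 + (r ((1 - s) • p + s • T 0)).2 ^ 2)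
    (by fun_prop)
  let e : ℝ → ℝ × ℝ := fun t => ((|M| + 1) * Real.cos t, (|M| + 1) * Real.sin t)
  have he : Continuous e := by fun_prop
  have he1 : ∀ t, (e t).1 ^ 2 + (e t).2 ^ 2 = (|M| + 1) ^ 2 := fun t => by
    show ((|M| + 1) * Real.cos t) ^ 2 + ((|M| + 1) * Real.sin t) ^ 2 = _
    linear_combination (|M| + 1) ^ 2 * Real.cos_sq_add_sin_sq t
  have he2 : ∀ t, e (t + 2 * π) = e t := fun t => by simp [e]
  have he3 : ∀ t, e (t + π) = -e t := fun t => by simp [e]
  have n1 := null_hom (F := fun u => τ (T (u.1 • e u.2)) - τ p) (by fun_prop)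
    (fun s _ t => hτ _ _ (hp' _)) (fun s t => by simp only [he2])
    ⟨fun _ => log (τ (T 0) - τ p), continuous_const,
      fun t => by simp only [zero_smul]; exact exp_log (hτ _ _ (hp' _)), fun _ => rfl⟩
  have n2 := null_hom (F := fun u => τ (T (e u.2)) - τ ((1 - u.1) • p + u.1 • T 0)) (by fun_prop)
    (fun s hs t => hτ _ _ fun h1 => by
      have h2 := hM ⟨s, hs, rfl⟩
      simp only at h1 h2
      rw [← h1, h, he1] at h2
      nlinarith [le_abs_self M, abs_nonneg M])
    (fun s t => by simp only [he2]) (by simpa using n1)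
  have n3 := null_hom (F := fun u => τ (T (e u.2)) - τ (T (-(u.1 • e u.2)))) (by fun_prop)
    (fun s hs t => hτ _ _ fun h1 => by
      have h2 : e t = -(s • e t) := hinj h1
      have h3 := congrArg Prod.fst h2
      have h4 := congrArg Prod.snd h2
      simp only [Prod.fst_neg, Prod.snd_neg, Prod.smul_fst, Prod.smul_snd, smul_eq_mul] at h3 h4
      have h5 : (e t).1 = 0 := by nlinarith [hs.1]
      have h6 : (e t).2 = 0 := by nlinarith [hs.1]
      have h7 := he1 t
      rw [h5, h6] at h7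
      nlinarith [abs_nonneg M])
    (fun s t => by simp only [he2]) (by simpa using n2)
  exact not_null (fun t => by simp [he3]) n3

end Pool.Agent.H27.Ul
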