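import Pool.Agent.H27.Ul1
import Pool.Agent.H27.Ul2

set_option autoImplicit false
open Set Bornology

namespace Pool.Agent.H27.Ul

theorem uniq {A : Set ℝ} (hA : OrdConnected A) {w : ℝ} (h : Iic w ⊆ A ∨ Ici w ⊆ A) {b c : ℝ}
    (hb : b ∈ closure A) (hb' : b ∉ A) (hc : c ∈ closure A) (hc' : c ∉ A) : ¬ b < c := fun hlt => by
  rcases h with h | h
  · obtain ⟨a, h1, h2⟩ := mem_closure_iff.1 hc _ isOpen_Ioi hlt
    exact hb' (hA.out (h (min_le_left w b)) h2 ⟨min_le_right _ _, le_of_lt h1⟩)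
  · obtain ⟨a, h1, h2⟩ := mem_closure_iff.1 hb _ isOpen_Iio hlt
    exact hc' (hA.out h2 (h (le_max_left w c)) ⟨le_of_lt h1, le_max_right _ _⟩)

variable {T : ℝ × ℝ ≃ₜ ℝ × ℝ} (hA : ∀ a b c, m T (m T a b) c = m T a (m T b c))
include hA

theorem noint (hz : ∀ k, ∃ x, m T x k ≠ k) (w : ℝ) : w ∉ interior (cls T w) := fun hw => by
  obtain ⟨t, y, rfl⟩ := srj T w
  obtain ⟨y1, y2, hy⟩ := srj T y
  have hy0 := rfac hA hw
  set C := connectedComponentIn (interior (cls T y)) y with hC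
  have hCo : IsOpen C := isOpen_interior.connectedComponentIn
  have hCp : IsPreconnected C := isPreconnected_connectedComponentIn
  have hCi : C ⊆ interior (cls T y) := connectedComponentIn_subset _ _
  have hCc : C ⊆ cls T y := hCi.trans interior_subset
  have hyC : y ∈ C := mem_connectedComponentIn hy0
  have hy2 : y2 ∈ C := by
    have h1 := (pre T (isPreconnected_singleton (x := m T t y))).image _ continuous_snd.continuousOn
    have h2 : y ∈ Prod.snd '' {u : ℝ × ℝ | m T u.1 u.2 ∈ ({m T t y} : Set ℝ)} := ⟨(t, y), rfl, rfl⟩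
    refine h1.subset_connectedComponentIn h2 (cls_conn h1 ?_ h2)
      ⟨(m T t y1, y2), (hA _ _ _).trans (congrArg _ hy), rfl⟩
    rintro _ ⟨u, hu, rfl⟩
    exact rfac hA (show m T u.1 u.2 ∈ _ by rw [show m T u.1 u.2 = _ from hu]; exact hw)
  have F1 : ∀ p q, m T p q ∈ C → q ∈ C := fun p q h => by
    have h1 := (pre T hCp).image _ continuous_snd.continuousOn
    have h2 : y2 ∈ Prod.snd '' {u : ℝ × ℝ | m T u.1 u.2 ∈ C} :=
      ⟨(y1, y2), show m T y1 y2 ∈ C from hy ▸ hyC, rfl⟩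
    have h3 := cls_conn h1 (by rintro _ ⟨u, hu, rfl⟩; exact rfac hA (hCi hu)) h2
    rw [cls_eq (hCc hy2)] at h3
    rw [hC, connectedComponentIn_eq hy2]
    exact h1.subset_connectedComponentIn h2 h3 ⟨(p, q), h, rfl⟩
  set A := Prod.fst '' {u : ℝ × ℝ | m T u.1 u.2 ∈ C} with hAd
  have hAo : IsOpen A := isOpenMap_fst _ (hCo.preimage (cont T))
  have hAp : IsPreconnected A := (pre T hCp).image _ continuous_fst.continuousOn
  have hy1 : y1 ∈ A := ⟨(y1, y2), show m T y1 y2 ∈ C from hy ▸ hyC, rfl⟩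
  have F2 : ∀ p ∈ A, ∀ z, m T p (m T y z) = m T y z := by
    rintro _ ⟨u, hu, rfl⟩ z
    rw [← hCc (F1 _ _ hu) z, ← hA, hCc hu z, hCc (F1 _ _ hu) z]
  have F3 : ∀ p q, m T p q ∈ C ↔ p ∈ A ∧ q ∈ C := fun p q =>
    ⟨fun h => ⟨⟨(p, q), h, rfl⟩, F1 _ _ h⟩, fun h => by
      refine ((hAp.prod hCp).image _ (cont T).continuousOn).subset_connectedComponentIn
        ⟨(y1, y2), ⟨hy1, hy2⟩, hy⟩ (interior_maximal ?_ (opn T _ (hAo.prod hCo))) ⟨(p, q), h, rfl⟩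
      rintro _ ⟨u, hu, rfl⟩ z
      show m T (m T u.1 u.2) z = _
      rw [hA, hCc hu.2 z, F2 _ hu.1]⟩
  obtain ⟨β, hβ, hβ'⟩ : ∃ β ∈ closure A, β ∉ A := by
    by_contra h
    have h1 : IsClosed A := closure_subset_iff_isClosed.1 fun β hβ => not_not.1 fun h' => h ⟨β, hβ, h'⟩
    rcases isClopen_iff.1 ⟨h1, hAo⟩ with h2 | h2
    · exact (h2 ▸ hy1 : y1 ∈ (∅ : Set ℝ))
    · obtain ⟨x, hx⟩ := hz (m T y y)
      exact hx (F2 x (h2 ▸ mem_univ x) y)
  have F5 : ∀ z, m T y z ∉ C := fun z h => by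
    have h1 : m T β (m T y z) = m T y z :=
      (isClosed_eq (contl T _) continuous_const).closure_subset_iff.2 (fun p hp => F2 p hp z) hβ
    exact hβ' ((F3 β _).1 (h1.symm ▸ h)).1
  have F5' : ∀ q ∈ A, q ∉ C := fun q h1 h2 => F5 y (hCc h2 y ▸ (F3 q y).2 ⟨h1, hyC⟩)
  have F6 : ∀ p q, m T p q ∈ A ↔ p ∈ A ∧ q ∈ A := fun p q =>
    ⟨fun h => by
      have h1 := (F3 _ y).2 ⟨h, hyC⟩
      rw [hA, F3, F3] at h1
      exact ⟨h1.1, h1.2.1⟩, fun h => by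
      have h1 := (F3 p _).2 ⟨h.1, (F3 q y).2 ⟨h.2, hyC⟩⟩
      rw [← hA] at h1
      exact ((F3 _ _).1 h1).1⟩
  have r1 := rect F3 hβ' (F5 y) hyC
  have r2 := rect F6 hβ' hβ' hy1
  have F7 : ∀ p ∈ A, m T β p = β := fun p hp => by
    have h1 : m T β p ∈ closure A :=
      map_mem_closure (f := fun a => m T a p) (contl T p) hβ fun a ha => (F6 a p).2 ⟨ha, hp⟩
    have h2 : m T β p ∉ A := fun h => hβ' ((F6 _ _).1 h).1
    exact le_antisymm (not_lt.1 (uniq hAp.ordConnected r2 hβ hβ' h1 h2))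
      (not_lt.1 (uniq hAp.ordConnected r2 h1 h2 hβ hβ'))
  have c1 : ∀ u ∈ A ×ˢ ({m T y β} : Set ℝ), m T u.1 u.2 = m T y β := fun u hu => by
    rw [mem_singleton_iff.1 hu.2, F2 _ hu.1]
  have c2 : ∀ u ∈ C ×ˢ ({β} : Set ℝ), m T u.1 u.2 = m T y β := fun u hu => by
    rw [mem_singleton_iff.1 hu.2, hCc hu.1]
  have c3 : ∀ u ∈ ({m T y β} : Set ℝ) ×ˢ A, m T u.1 u.2 = m T y β := fun u hu => by
    rw [mem_singleton_iff.1 hu.1, hA, F7 _ hu.2]
  have d1 : ¬ _ := fun h => by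
    obtain ⟨u, h1, h2⟩ := meet c1 c2 h
    exact F5' _ h1.1 h2.1
  have d2 : ¬ _ := fun h => by
    obtain ⟨u, h1, h2⟩ := meet c1 c3 h
    exact F5' y ((F6 y β).1 (mem_singleton_iff.1 h2.1 ▸ h1.1)).1 hyC
  have d3 : ¬ _ := fun h => by
    obtain ⟨u, h1, h2⟩ := meet c2 c3 h
    exact F5 β (mem_singleton_iff.1 h2.1 ▸ h1.1)
  have a1 := updn (hAp.prod isPreconnected_singleton) c1 (nb1 (nbh r2) _)
  have a2 := updn (hCp.prod isPreconnected_singleton) c2 (nb1 (nbh r1) _)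
  have a3 := updn (isPreconnected_singleton.prod hAp) c3 (nb2 (nbh r2) _)
  tauto

theorem mono (y : ℝ) : Monotone fun x => m T x y := by
  by_cases hz : ∀ k, ∃ x, m T x k ≠ k
  swap
  · push Not at hz
    obtain ⟨k, hk⟩ := hz
    exact fun a b _ => by simp only [rz hA hk, le_refl]
  intro a b hab
  by_contra hlt
  have hlt : m T b y < m T a y := not_le.1 hlt
  have hS : IsCompact (Icc a b ∩ {t | m T a y ≤ m T t y}) :=
    isCompact_Icc.inter_right (isClosed_le continuous_const (contl T y))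
  obtain ⟨c, ⟨hc1, hc2⟩, hc⟩ := hS.exists_isGreatest ⟨a, ⟨le_rfl, hab⟩, le_refl (m T a y)⟩
  have hcb : c < b := lt_of_le_of_ne hc1.2 fun h => absurd (h ▸ hc2 : m T a y ≤ m T b y) hlt.not_ge
  have hgt : ∀ t, c < t → t ≤ b → m T t y < m T c y := fun t h1 h2 =>
    lt_of_lt_of_le (not_le.1 fun h => absurd (hc ⟨⟨hc1.1.trans h1.le, h2⟩, h⟩) h1.not_ge) hc2
  have hJ := ((pre T (isPreconnected_singleton (x := c))).image _
    continuous_snd.continuousOn).ordConnected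
  obtain ⟨p, q, hpq⟩ := srj T c
  obtain ⟨y1, h1, y2, h2, h12⟩ : ∃ y1 ∈ Prod.snd '' {u : ℝ × ℝ | m T u.1 u.2 ∈ ({c} : Set ℝ)},
      ∃ y2 ∈ Prod.snd '' {u : ℝ × ℝ | m T u.1 u.2 ∈ ({c} : Set ℝ)}, y1 < y2 := by
    by_contra hn
    push Not at hn
    have e : ∀ u : ℝ × ℝ, m T u.1 u.2 = c → u.2 = q := fun u hu =>
      le_antisymm (hn _ ⟨(p, q), hpq, rfl⟩ _ ⟨u, hu, rfl⟩) (hn _ ⟨u, hu, rfl⟩ _ ⟨(p, q), hpq, rfl⟩)
    have e1 : ∀ x, m T x q = c := fun x => by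
      by_contra hx
      refine nbh (rect (T := T) (I := {c}) (U := {x | m T x q = c}) (V := {q}) (p0 := x)
        (q0 := q + 1) (fun p' q' => ⟨fun h => ?_, fun h => ?_⟩) hx (by simp) rfl)
        isBounded_singleton
      · have h3 : q' = q := e (p', q') h
        exact ⟨h3 ▸ h, h3⟩
      · rw [mem_singleton_iff.1 h.2]; exact h.1
    obtain ⟨x, hx⟩ := hz c
    exact hx (by rw [← e1 0, ← hA, e1, e1])
  obtain ⟨u, hu, e⟩ := hJ.out h1 h2 (show (y1 + y2) / 2 ∈ Icc y1 y2 from ⟨by linarith, by linarith⟩)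
  have hU := opn T _ (isOpen_univ.prod (isOpen_Ioo (a := y1) (b := y2)))
  obtain ⟨ε, hε, hb⟩ := Metric.isOpen_iff.1 hU c
    ⟨u, ⟨trivial, by rw [e]; exact ⟨by linarith, by linarith⟩⟩, hu⟩
  have key : ∀ t ∈ Icc c (min b (c + ε / 2)), m T t y ∈ cls T (m T c y) := fun t ht z => by
    rcases ht.1.eq_or_lt with rfl | h3
    · rfl
    obtain ⟨v, hv, e1⟩ := hb (show t ∈ Metric.ball c ε by
      rw [Metric.mem_ball, Real.dist_eq, abs_of_pos (sub_pos.2 h3)]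
      linarith [ht.2.trans (min_le_right _ _)])
    obtain ⟨v', hv', e2⟩ := hJ.out h1 h2 (Ioo_subset_Icc_self hv.2)
    have e3 : m T v'.1 v.2 = c := e2 ▸ hv'
    have e4 : m T v.1 v.2 = t := e1
    by_contra hne
    refine middle hA (a := v'.1) (b := v.1) (p := v.2) (y := y) (z := z) ?_ ?_ ?_ <;> rw [e3, e4]
    exacts [Ne.symm hne, h3, hgt t h3 (ht.2.trans (min_le_left _ _))]
  have h3 : c < min b (c + ε / 2) := lt_min hcb (by linarith)
  have h4 := hgt _ h3 (min_le_left _ _)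
  have h5 : Ioo (m T (min b (c + ε / 2)) y) (m T c y) ⊆ cls T (m T c y) := fun s hs => by
    obtain ⟨t, ht, rfl⟩ := intermediate_value_Icc' h3.le (contl T y).continuousOn
      (Ioo_subset_Icc_self hs)
    exact key t ht
  obtain ⟨s, hs⟩ := nonempty_Ioo.2 h4
  exact noint hA hz s (cls_eq (h5 hs) ▸ interior_maximal h5 isOpen_Ioo hs)

omit hA in
theorem mono2 {S : ℝ × ℝ ≃ₜ ℝ × ℝ}
    (h : ∀ a b c : ℝ, (S ((S (a, b)).1, c)).1 = (S (a, (S (b, c)).1)).1) :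
    Monotone fun u => (S u).1 := fun u v huv =>
  (mono (T := S) h u.2 huv.1).trans (mono (T := (Homeomorph.prodComm ℝ ℝ).trans S)
    (fun a b c => (h c b a).symm) v.1 huv.2)

omit hA in
theorem mono3 : ∀ (L : List (ℝ × ℝ → ℝ × ℝ)), (∀ S ∈ L, Continuous S ∧
      (∀ a b c : ℝ, (S ((S (a, b)).1, c)).1 = (S (a, (S (b, c)).1)).1) ∧
      (∀ a b c : ℝ, (S ((S (a, b)).2, c)).2 = (S (a, (S (b, c)).2)).2)) →
    Continuous (L.foldr (fun S R => S ∘ R) id) ∧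
      ∀ r : ℝ × ℝ → ℝ × ℝ, Continuous r → (∀ u, r (L.foldr (fun S R => S ∘ R) id u) = u) →
        Monotone (L.foldr (fun S R => S ∘ R) id)
  | [], _ => ⟨continuous_id, fun _ _ _ => monotone_id⟩
  | S :: L, h => by
    obtain ⟨h1, h2⟩ := mono3 L fun S' hS' => h S' (List.mem_cons_of_mem _ hS')
    obtain ⟨h3, h4, h5⟩ := h S List.mem_cons_self
    refine ⟨h3.comp h1, fun r hr e => ?_⟩
    have e1 : ∀ u, (r ∘ S) (L.foldr (fun S R => S ∘ R) id u) = u := e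
    have h6 := surj h1 (hr.comp h3) e1
    have e2 : ∀ u, (L.foldr (fun S R => S ∘ R) id ∘ r) (S u) = u := fun u => by
      obtain ⟨v, rfl⟩ := h6 u
      exact congrArg _ (e1 v)
    have h7 := surj h3 (h1.comp hr) e2
    let E : ℝ × ℝ ≃ₜ ℝ × ℝ := ⟨⟨S, _, e2, fun u => by
      obtain ⟨v, rfl⟩ := h7 u
      exact congrArg S (e2 v)⟩, h3, h1.comp hr⟩
    have h8 : Monotone S := fun u v huv =>
      ⟨mono2 (S := E) h4 huv, mono2 (S := E.trans (Homeomorph.prodComm ℝ ℝ)) h5 huv⟩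
    exact h8.comp (h2 _ (hr.comp h3) e1)

end Pool.Agent.H27.Ul
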