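import Mathlib

set_option autoImplicit false
open Set Metric Filter Topology

namespace Pool.Agent.H27.Uz

/-- `h` is twice differentiable with all of `h, h', h''` bounded by `η` -/
def Sm (h : ℝ → ℝ) (η : ℝ) : Prop :=
  ∃ h1 h2 : ℝ → ℝ, ∀ t, HasDerivAt h (h1 t) t ∧ HasDerivAt h1 (h2 t) t ∧
    |h t| ≤ η ∧ |h1 t| ≤ η ∧ |h2 t| ≤ η

theorem Sm.add {h k : ℝ → ℝ} {a b : ℝ} (hh : Sm h a) (hk : Sm k b) :
    Sm (fun t => h t + k t) (a + b) := by
  obtain ⟨h1, h2, e⟩ := hh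
  obtain ⟨k1, k2, e'⟩ := hk
  exact ⟨fun t => h1 t + k1 t, fun t => h2 t + k2 t, fun t =>
    ⟨(e t).1.add (e' t).1, (e t).2.1.add (e' t).2.1,
      (abs_add_le _ _).trans (add_le_add (e t).2.2.1 (e' t).2.2.1),
      (abs_add_le _ _).trans (add_le_add (e t).2.2.2.1 (e' t).2.2.2.1),
      (abs_add_le _ _).trans (add_le_add (e t).2.2.2.2 (e' t).2.2.2.2)⟩⟩

theorem Sm.mono {h : ℝ → ℝ} {a b : ℝ} (hh : Sm h a) (hab : a ≤ b) : Sm h b := by
  obtain ⟨h1, h2, e⟩ := hh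
  exact ⟨h1, h2, fun t => ⟨(e t).1, (e t).2.1, (e t).2.2.1.trans hab, (e t).2.2.2.1.trans hab,
    (e t).2.2.2.2.trans hab⟩⟩

theorem sm_of {ψ : ℝ → ℝ} (h : ContDiff ℝ 2 ψ) (hc : HasCompactSupport ψ) :
    ∃ M, 0 < M ∧ Sm ψ M := by
  have h1 : ContDiff ℝ 1 (deriv ψ) := h.deriv' 
  obtain ⟨a, ha⟩ := h.continuous.bounded_above_of_compact_support hc
  obtain ⟨b, hb⟩ := h1.continuous.bounded_above_of_compact_support hc.deriv
  obtain ⟨c, hc'⟩ := (h1.continuous_deriv le_rfl).bounded_above_of_compact_support hc.deriv.deriv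
  refine ⟨|a| + |b| + |c| + 1, by positivity, deriv ψ, deriv (deriv ψ), fun t =>
    ⟨(h.differentiable (by norm_num) t).hasDerivAt, (h1.differentiable (by norm_num) t).hasDerivAt,
      ?_, ?_, ?_⟩⟩
  · linarith [ha t, le_abs_self a, abs_nonneg b, abs_nonneg c, Real.norm_eq_abs (ψ t)]
  · linarith [hb t, le_abs_self b, abs_nonneg a, abs_nonneg c, Real.norm_eq_abs (deriv ψ t)]
  · linarith [hc' t, le_abs_self c, abs_nonneg b, abs_nonneg a,
      Real.norm_eq_abs (deriv (deriv ψ) t)]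

theorem Sm.scale {ψ : ℝ → ℝ} {M A η ρ : ℝ} (h : Sm ψ M) (z : ℝ) (h0 : 0 < ρ) (h1 : ρ ≤ 1)
    (hA : |A| ≤ η * ρ ^ 2) : Sm (fun t => A * ψ ((t - z) / ρ)) (η * M) := by
  obtain ⟨k1, k2, e⟩ := h
  have hη : 0 ≤ η := nonneg_of_mul_nonneg_left ((abs_nonneg A).trans hA) (by positivity)
  have hd : ∀ t, HasDerivAt (fun t => (t - z) / ρ) (1 / ρ) t := fun t =>
    ((hasDerivAt_id t).sub_const z).div_const ρ
  have b2 : |A / ρ ^ 2| ≤ η := by
    rw [abs_div, abs_of_pos (pow_pos h0 2), div_le_iff₀ (pow_pos h0 2)]; exact hA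
  have b1 : |A / ρ| ≤ η := by
    rw [abs_div, abs_of_pos h0, div_le_iff₀ h0]
    exact hA.trans (mul_le_mul_of_nonneg_left (by nlinarith) hη)
  have b0 : |A| ≤ η := hA.trans (mul_le_of_le_one_right hη (by nlinarith))
  refine ⟨fun t => A / ρ * k1 ((t - z) / ρ), fun t => A / ρ ^ 2 * k2 ((t - z) / ρ), fun t =>
    ⟨?_, ?_, ?_, ?_, ?_⟩⟩
  · exact (((e _).1.comp t (hd t)).const_mul A).congr_deriv (by ring)
  · exact (((e _).2.1.comp t (hd t)).const_mul (A / ρ)).congr_deriv (by ring)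
  · rw [abs_mul]; exact mul_le_mul b0 (e _).2.2.1 (abs_nonneg _) hη
  · rw [abs_mul]; exact mul_le_mul b1 (e _).2.2.2.1 (abs_nonneg _) hη
  · rw [abs_mul]; exact mul_le_mul b2 (e _).2.2.2.2 (abs_nonneg _) hη

theorem bump : ∃ M, 0 < M ∧ ∀ z ρ η p q w : ℝ, 0 < ρ → ρ ≤ 1 → |p| ≤ η * ρ ^ 2 → |q| ≤ η * ρ →
    |w| ≤ η → ∃ h, Sm h (η * M) ∧ (∀ t, ρ ≤ |t - z| → h t = 0) ∧
      ∀ t, |t - z| ≤ ρ / 2 → h t = p + q * (t - z) + w * (t - z) ^ 2 / 2 := by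
  let χ : ContDiffBump (0 : ℝ) := ⟨1 / 2, 1, by norm_num, by norm_num⟩
  obtain ⟨M0, p0, s0⟩ := sm_of (ψ := χ) χ.contDiff χ.hasCompactSupport
  obtain ⟨M1, p1, s1⟩ := sm_of (ψ := fun t => χ t * t) (χ.contDiff.mul contDiff_id)
    χ.hasCompactSupport.mul_right
  obtain ⟨M2, p2, s2⟩ := sm_of (ψ := fun t => χ t * (t ^ 2 / 2))
    (χ.contDiff.mul ((contDiff_id.pow 2).div_const 2)) χ.hasCompactSupport.mul_right
  refine ⟨M0 + M1 + M2, by positivity, fun z ρ η p q w h0 h1 hp hq hw => ⟨_,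
    (((s0.scale z h0 h1 hp).add (s1.scale (A := q * ρ) (η := η) z h0 h1 ?_)).add
      (s2.scale (A := w * ρ ^ 2) (η := η) z h0 h1 ?_)).mono (le_of_eq (by ring)),
    fun t ht => ?_, fun t ht => ?_⟩⟩
  · rw [abs_mul, abs_of_pos h0]; nlinarith
  · rw [abs_mul, abs_of_pos (pow_pos h0 2)]; nlinarith [pow_pos h0 2]
  · have : χ ((t - z) / ρ) = 0 := χ.zero_of_le_dist (by
      rw [dist_zero_right, Real.norm_eq_abs, abs_div, abs_of_pos h0]
      exact (one_le_div h0).2 ht)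
    simp [this]
  · have : χ ((t - z) / ρ) = 1 := χ.one_of_mem_closedBall (by
      rw [mem_closedBall_zero_iff, Real.norm_eq_abs, abs_div, abs_of_pos h0, div_le_iff₀ h0]
      show _ ≤ 1 / 2 * ρ
      linarith)
    simp only [this]
    field_simp

/-- the quadratic polynomial attached to a two-jet -/
noncomputable def Q (G : ℝ → ℝ) (u : ℝ × ℝ × ℝ) (t : ℝ) : ℝ :=
  G u.1 + u.2.1 * (t - u.1) + u.2.2 * (t - u.1) ^ 2 / 2

/-- every jet of `S` is approximated by compatible pairs of jets of `S` -/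
def Good (G : ℝ → ℝ) (S : Set (ℝ × ℝ × ℝ)) : Prop :=
  ∀ u ∈ S, ∀ ε > 0, ∃ a ∈ S, ∃ b ∈ S, a.1 ≠ b.1 ∧ dist a u < ε ∧ dist b u < ε ∧
    |b.2.1 - a.2.1 - a.2.2 * (b.1 - a.1)| ≤ ε * |b.1 - a.1| ∧
    |G b.1 - Q G a b.1| ≤ ε * (b.1 - a.1) ^ 2

theorem step {G : ℝ → ℝ} (hG : Continuous G) {S : Set (ℝ × ℝ × ℝ)} (hS : Good G S)
    (u : ℝ × ℝ × ℝ) (r η : ℝ) (hu : u ∈ S ∧ 0 < r ∧ r ≤ 1) (hη : 0 < η) :
    ∃ (v : Bool → ℝ × ℝ × ℝ) (s : ℝ) (h : ℝ → ℝ), (∀ i, v i ∈ S ∧ 0 < s ∧ s ≤ 1) ∧ Sm h η ∧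
      (∀ t, r < |t - u.1| → h t = 0) ∧
      (∀ i t, |t - (v i).1| ≤ s → |t - u.1| ≤ r ∧ h t = Q G (v i) t - Q G u t) ∧
      (∀ i, (|(v i).2.1| + |(v i).2.2| + 1) * s ≤ r / 2) ∧
      ∀ t, |t - (v true).1| ≤ s → s < |t - (v false).1| := by
  obtain ⟨M, hM, hb⟩ := bump
  obtain ⟨hu, r0, r1⟩ := hu
  set κ := η / (2 * M) with hκ
  have κ0 : 0 < κ := by positivity
  have c1 : Continuous fun a : ℝ × ℝ × ℝ => |Q G a u.1 - G u.1| := by unfold Q; fun_prop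
  have c2 : Continuous fun a : ℝ × ℝ × ℝ => |a.2.1 + a.2.2 * (u.1 - a.1) - u.2.1| := by fun_prop
  obtain ⟨δ, δ0, hδ⟩ := Metric.eventually_nhds_iff.1
    (((c1.tendsto u).eventually (gt_mem_nhds (show _ < κ * r ^ 2 by simp [Q]; positivity))).and
      ((c2.tendsto u).eventually (gt_mem_nhds (show _ < κ * r by simp; positivity))))
  obtain ⟨a, ha, b, hb', hne, h1, h2, h3, h4⟩ := hS u hu (min δ (min (κ / 4) (r / 8)))
    (by positivity)
  simp only [lt_min_iff, Prod.dist_eq, max_lt_iff, Real.dist_eq] at h1 h2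
  have h5 := hδ (y := a) (by simp only [Prod.dist_eq, max_lt_iff, Real.dist_eq]; exact h1.1)
  have h6 : min δ (min (κ / 4) (r / 8)) ≤ κ / 4 := (min_le_right _ _).trans (min_le_left _ _)
  set d := |b.1 - a.1| with hd
  have d0 : 0 < d := abs_pos.2 (sub_ne_zero.2 hne.symm)
  have d1 : d ≤ r / 4 := by
    have := abs_sub_le b.1 u.1 a.1
    rw [abs_sub_comm u.1] at this
    linarith [h1.2.2.1, h2.2.2.1]
  obtain ⟨k1, s1, z1, e1⟩ := hb u.1 r κ _ _ (a.2.2 - u.2.2) r0 r1 h5.1.le h5.2.le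
    (by linarith [h1.2.1.2.2])
  obtain ⟨k2, s2, z2, e2⟩ := hb b.1 (d / 2) κ (G b.1 - Q G a b.1)
    (b.2.1 - a.2.1 - a.2.2 * (b.1 - a.1)) (b.2.2 - a.2.2) (by positivity) (by linarith)
    (h4.trans (by rw [← sq_abs, ← hd]; nlinarith [pow_pos d0 2])) (h3.trans (by nlinarith))
    (by
      have := abs_sub_le b.2.2 u.2.2 a.2.2
      rw [abs_sub_comm u.2.2] at this
      linarith [h1.2.1.2.2, h2.2.1.2.2])
  set N := |a.2.1| + |a.2.2| + |b.2.1| + |b.2.2| + 1 with hN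
  have N0 : 0 < N := by positivity
  have t1 : min (d / 4) (r / 2 / N) ≤ d / 4 := min_le_left _ _
  have t2 : N * min (d / 4) (r / 2 / N) ≤ r / 2 :=
    (mul_le_mul_of_nonneg_left (min_le_right _ _) N0.le).trans (le_of_eq (by field_simp))
  have t0 : 0 < min (d / 4) (r / 2 / N) := by positivity
  have tri : ∀ t, d ≤ |t - b.1| + |t - a.1| := fun t => by
    have := abs_sub_le b.1 t a.1
    rwa [abs_sub_comm b.1 t] at this
  refine ⟨fun i => if i then b else a, min (d / 4) (r / 2 / N), fun t => k1 t + k2 t,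
    fun i => ⟨by cases i <;> simpa, t0, by linarith⟩,
    (s1.add s2).mono (le_of_eq (by rw [hκ]; field_simp; ring)), fun t ht => ?_, fun i t ht => ?_,
    fun i => ?_, fun t ht => ?_⟩
  · have := abs_sub_le t b.1 u.1
    show k1 t + k2 t = 0
    rw [z1 t ht.le, z2 t (by linarith [h2.2.2.1]), add_zero]
  · cases i
    · have ht' : |t - a.1| ≤ d / 4 := le_trans ht t1
      have := abs_sub_le t a.1 u.1
      refine ⟨by linarith [h1.2.2.1], ?_⟩
      show k1 t + k2 t = Q G a t - Q G u t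
      rw [e1 t (by linarith [h1.2.2.1]), z2 t (by linarith [tri t])]
      unfold Q; ring
    · have ht' : |t - b.1| ≤ d / 4 := le_trans ht t1
      have := abs_sub_le t b.1 u.1
      refine ⟨by linarith [h2.2.2.1], ?_⟩
      show k1 t + k2 t = Q G b t - Q G u t
      rw [e1 t (by linarith [h2.2.2.1]), e2 t (by linarith)]
      unfold Q; ring
  · refine le_trans (mul_le_mul_of_nonneg_right ?_ t0.le) t2
    cases i
    · show |a.2.1| + |a.2.2| + 1 ≤ N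
      linarith [abs_nonneg b.2.1, abs_nonneg b.2.2]
    · show |b.2.1| + |b.2.2| + 1 ≤ N
      linarith [abs_nonneg a.2.1, abs_nonneg a.2.2]
  · have ht' : |t - b.1| ≤ d / 4 := le_trans ht t1
    show _ < |t - a.1|
    linarith [tri t]

end Pool.Agent.H27.Uz
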