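import Pool.Agent.H27.Uz1

set_option autoImplicit false
open Set Metric Filter Topology

namespace Pool.Agent.H27.Uz

/-- initial segments of a branch -/
def br (σ : ℕ → Bool) : ℕ → List Bool
  | 0 => []
  | n + 1 => σ n :: br σ n

theorem br_len (σ : ℕ → Bool) : ∀ n, (br σ n).length = n
  | 0 => rfl
  | n + 1 => by simp [br, br_len σ n]

theorem core {G : ℝ → ℝ} (hG : Continuous G) {S : Set (ℝ × ℝ × ℝ)} (hS : Good G S)
    (hne : S.Nonempty) : ∃ F : ℝ → ℝ, Differentiable ℝ F ∧ Differentiable ℝ (deriv F) ∧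
      ¬ Set.Countable {x | F x = G x} := by
  obtain ⟨u0, hu0⟩ := hne
  choose v s h H1 H2 H3 H4 H5 H6 using step hG hS
  let η : List Bool → ℝ := fun l => (1 / 2) ^ Encodable.encode l
  have hη : ∀ l, 0 < η l := fun l => by positivity
  have hs : Summable η := summable_geometric_two.comp_injective Encodable.encode_injective
  let D : List Bool → {z : (ℝ × ℝ × ℝ) × ℝ // z.1 ∈ S ∧ 0 < z.2 ∧ z.2 ≤ 1} := fun l =>
    l.rec ⟨(u0, 1), hu0, one_pos, le_rfl⟩ fun i l z =>
      ⟨(v z.1.1 z.1.2 (η l) z.2 (hη l) i, s z.1.1 z.1.2 (η l) z.2 (hη l)), H1 _ _ _ _ _ i⟩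
  let k : List Bool → ℝ → ℝ := fun l => h (D l).1.1 (D l).1.2 (η l) (D l).2 (hη l)
  have K2 : ∀ l, Sm (k l) (η l) := fun l => H2 _ _ _ _ _
  have K3 : ∀ l t, (D l).1.2 < |t - (D l).1.1.1| → k l t = 0 := fun l => H3 _ _ _ _ _
  have K4 : ∀ l i t, |t - (D (i :: l)).1.1.1| ≤ (D (i :: l)).1.2 → |t - (D l).1.1.1| ≤ (D l).1.2 ∧
      k l t = Q G (D (i :: l)).1.1 t - Q G (D l).1.1 t := fun l => H4 _ _ _ _ _
  have K5 : ∀ l i, (|(D (i :: l)).1.1.2.1| + |(D (i :: l)).1.1.2.2| + 1) * (D (i :: l)).1.2 ≤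
      (D l).1.2 / 2 := fun l => H5 _ _ _ _ _
  have K6 : ∀ l t, |t - (D (true :: l)).1.1.1| ≤ (D (true :: l)).1.2 →
      (D (false :: l)).1.2 < |t - (D (false :: l)).1.1.1| := fun l => H6 _ _ _ _ _
  have K7 : D [] = ⟨(u0, 1), hu0, one_pos, le_rfl⟩ := rfl
  clear_value k D
  choose k1 k2 e using K2
  have d1 : ∀ t, HasDerivAt (fun t => ∑' l, k l t) (∑' l, k1 l t) t :=
    hasDerivAt_tsum hs (fun l t => (e l t).1) (fun l t => (e l t).2.2.2.1)
      (hs.of_norm_bounded fun l => (e l 0).2.2.1)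
  have d2 : ∀ t, HasDerivAt (fun t => ∑' l, k1 l t) (∑' l, k2 l t) t :=
    hasDerivAt_tsum hs (fun l t => (e l t).2.1) (fun l t => (e l t).2.2.2.2)
      (hs.of_norm_bounded fun l => (e l 0).2.2.2.1)
  have d3 : ∀ t, HasDerivAt (Q G u0) (u0.2.1 + u0.2.2 * (t - u0.1)) t := fun t =>
    (((((hasDerivAt_id t).sub_const u0.1).const_mul u0.2.1).const_add (G u0.1)).add
      (((((hasDerivAt_id t).sub_const u0.1).pow 2).const_mul u0.2.2).div_const 2)).congr_deriv
      (by simp; ring)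
  have d4 := fun t => (d3 t).add (d1 t)
  refine ⟨fun t => Q G u0 t + ∑' l, k l t, fun t => (d4 t).differentiableAt, ?_, fun hc => ?_⟩
  · rw [show deriv (fun t => Q G u0 t + ∑' l, k l t) = _ from funext fun t => (d4 t).deriv]
    exact (show Differentiable ℝ fun t => u0.2.1 + u0.2.2 * (t - u0.1) by fun_prop).add
      fun t => (d2 t).differentiableAt
  have hx : ∀ σ : ℕ → Bool, ∃ t, ∀ n, |t - (D (br σ n)).1.1.1| ≤ (D (br σ n)).1.2 := fun σ => by
    obtain ⟨t, ht⟩ := IsCompact.nonempty_iInter_of_sequence_nonempty_isCompact_isClosed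
      (fun n => closedBall (D (br σ n)).1.1.1 (D (br σ n)).1.2) (fun n t ht => (K4 _ _ t ht).1)
      (fun n => nonempty_closedBall.2 (D _).2.2.1.le) (isCompact_closedBall _ _)
      fun _ => isClosed_closedBall
    exact ⟨t, fun n => mem_iInter.1 ht n⟩
  choose x hx using hx
  have hu : ∀ σ l, |x σ - (D l).1.1.1| ≤ (D l).1.2 → l = br σ l.length := fun σ l => by
    induction l with
    | nil => exact fun _ => rfl
    | cons i l ih =>
      intro ht
      have h1 := ih (K4 l i _ ht).1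
      have h2 : |x σ - (D (σ l.length :: l)).1.1.1| ≤ (D (σ l.length :: l)).1.2 := by
        have := hx σ (l.length + 1)
        rwa [br, ← h1] at this
      rw [List.length_cons, br, ← h1]
      cases i <;> cases h3 : σ l.length <;> rw [h3] at h2
      · exact absurd ht (K6 l _ h2).not_ge
      · exact absurd h2 (K6 l _ ht).not_ge
  have hinj : Function.Injective x := fun σ τ hst => funext fun n => by
    have h1 := hu σ (br τ (n + 1)) (hst ▸ hx τ (n + 1))
    rw [br_len] at h1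
    exact (List.cons.inj h1).1.symm
  haveI : Uncountable (ℕ → Bool) :=
    Cardinal.aleph0_lt_mk_iff.1 (by simp [Cardinal.aleph0_lt_continuum])
  refine not_countable_univ ((hc.preimage_of_injOn hinj.injOn).mono fun σ _ => ?_)
  have hb : Function.Injective (br σ) := fun a b hab => by rw [← br_len σ a, hab, br_len]
  have h1 : ∑' n, k (br σ n) (x σ) = ∑' l, k l (x σ) :=
    hb.tsum_eq (f := fun l => k l (x σ)) fun l hl =>
      ⟨_, (hu σ l (not_lt.1 fun h2 => hl (K3 l _ h2))).symm⟩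
  have h2 : Summable fun n => k (br σ n) (x σ) :=
    (hs.of_norm_bounded (f := fun l => k l (x σ)) fun l => (e l _).2.2.1).comp_injective hb
  have h3 : ∀ n, Q G u0 (x σ) + ∑ i ∈ Finset.range n, k (br σ i) (x σ) =
      Q G (D (br σ n)).1.1 (x σ) := fun n => by
    induction n with
    | zero => simp [br, K7]
    | succ n ih =>
      rw [Finset.sum_range_succ, ← add_assoc, ih, (K4 _ _ _ (hx σ (n + 1))).2, br]
      ring
  have h4 : ∀ n, (D (br σ n)).1.2 ≤ (1 / 2) ^ n := fun n => by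
    induction n with
    | zero => simp [br, K7]
    | succ n ih =>
      have := K5 (br σ n) (σ n)
      rw [br, pow_succ]
      nlinarith [abs_nonneg (D (σ n :: br σ n)).1.1.2.1, abs_nonneg (D (σ n :: br σ n)).1.1.2.2,
        (D (σ n :: br σ n)).2.2.1]
  have h5 : Tendsto (fun n : ℕ => (1 / 2 : ℝ) ^ n) atTop (𝓝 0) :=
    tendsto_pow_atTop_nhds_zero_of_lt_one (by norm_num) (by norm_num)
  have h6 : Tendsto (fun n => (D (br σ n)).1.1.1) atTop (𝓝 (x σ)) :=
    tendsto_iff_dist_tendsto_zero.2 (squeeze_zero (fun _ => dist_nonneg)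
      (fun n => by rw [dist_comm]; exact (hx σ n).trans (h4 n)) h5)
  have h7 : Tendsto (fun n => Q G (D (br σ (n + 1))).1.1 (x σ) - G (D (br σ (n + 1))).1.1.1) atTop
      (𝓝 0) := by
    refine squeeze_zero_norm (fun n => ?_) h5
    have a1 := K5 (br σ n) (σ n)
    have a2 := hx σ (n + 1)
    have a3 := h4 n
    rw [br] at a2 ⊢
    obtain ⟨-, a4, a5⟩ := (D (σ n :: br σ n)).2
    generalize (D (σ n :: br σ n)).1 = z at *
    rw [Q, Real.norm_eq_abs, add_assoc, add_sub_cancel_left]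
    refine (abs_add_le _ _).trans ?_
    rw [abs_div, abs_mul, abs_mul, abs_pow, abs_two]
    have a6 : |x σ - z.1.1| ^ 2 ≤ z.2 := by nlinarith [abs_nonneg (x σ - z.1.1)]
    nlinarith [mul_le_mul_of_nonneg_left a2 (abs_nonneg z.1.2.1),
      mul_le_mul_of_nonneg_left a6 (abs_nonneg z.1.2.2), abs_nonneg z.1.2.2,
      mul_nonneg (abs_nonneg z.1.2.2) a4.le, (D (br σ n)).2.2.1]
  have h8 := h7.add (((hG.tendsto _).comp h6).comp (tendsto_add_atTop_nat 1))
  have h9 := ((h2.hasSum.tendsto_sum_nat.const_add (Q G u0 (x σ))).comp (tendsto_add_atTop_nat 1))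
  show Q G u0 (x σ) + ∑' l, k l (x σ) = G (x σ)
  rw [← h1, ← zero_add (G (x σ))]
  refine tendsto_nhds_unique h9 (h8.congr fun n => ?_)
  simp only [Function.comp, h3, sub_add_cancel]

end Pool.Agent.H27.Uz
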