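import Pool.Agent.H27.Uz2

set_option autoImplicit false
open Set Metric Filter Topology MeasureTheory

namespace Pool.Agent.H27.Uz

theorem cond {X : Type} [MetricSpace X] [SecondCountableTopology X] {E : Set X}
    (hE : ¬ E.Countable) : ∃ S ⊆ E, S.Nonempty ∧ ∀ u ∈ S, ∀ ε > 0, ∃ b ∈ S, b ≠ u ∧ dist b u < ε := by
  let N := {z ∈ E | ∃ ε > 0, (ball z ε ∩ E).Countable}
  have hN : N.Countable := by
    choose! ε ε0 hε using fun z (hz : z ∈ N) => hz.2
    obtain ⟨t, h1, h2, h3⟩ := TopologicalSpace.countable_cover_nhdsWithin (s := N)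
      (f := fun z => ball z (ε z) ∩ E) fun z hz => inter_mem
        (mem_nhdsWithin_of_mem_nhds (ball_mem_nhds z (ε0 z hz)))
        (mem_of_superset self_mem_nhdsWithin fun y hy => hy.1)
    exact (h2.biUnion fun z hz => hε z (h1 hz)).mono h3
  refine ⟨E \ N, diff_subset, nonempty_iff_ne_empty.2 fun h => hE (hN.mono (diff_eq_empty.1 h)),
    fun u hu ε ε0 => ?_⟩
  by_contra h
  refine hu.2 ⟨hu.1, ε, ε0, (hN.insert u).mono fun b hb => ?_⟩
  by_contra hb'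
  exact h ⟨b, ⟨hb.2, fun h1 => hb' (Or.inr h1)⟩, fun h1 => hb' (Or.inl h1), hb.1⟩

variable {G : ℝ → ℝ} (hG : Differentiable ℝ G)
include hG

theorem caseA {p q : ℝ} (hpq : p < q) (hm : MonotoneOn (deriv G) (Ioo p q)) :
    ∃ S, S.Nonempty ∧ Good G S := by
  let j : ℝ → ℝ × ℝ × ℝ := fun x => (x, deriv G x, deriv (deriv G) x)
  have hE : ¬ (j '' {x | DifferentiableAt ℝ (deriv G) x}).Countable := fun hc => by
    have h1 : {x | DifferentiableAt ℝ (deriv G) x}.Countable :=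
      countable_of_injective_of_countable_image (fun a _ b _ h => congrArg Prod.fst h) hc
    have h2 : volume (Ioo p q) = 0 := by
      refine measure_mono_null (fun x hx => ?_) (measure_union_null (h1.measure_zero volume)
        (ae_iff.1 hm.ae_differentiableWithinAt_of_mem))
      by_contra h
      exact h (Or.inl ((not_not.1 (fun h3 => h (Or.inr h3)) hx).differentiableAt
        (isOpen_Ioo.mem_nhds hx)))
    rw [Real.volume_Ioo, ENNReal.ofReal_eq_zero] at h2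
    linarith
  obtain ⟨S, h1, h2, h3⟩ := cond hE
  refine ⟨S, h2, fun u hu ε ε0 => ?_⟩
  obtain ⟨x, hx, rfl⟩ := h1 hu
  obtain ⟨δ, δ0, hδ⟩ := Metric.eventually_nhds_iff.1
    ((hasDerivAt_iff_isLittleO.1 (DifferentiableAt.hasDerivAt hx)).bound ε0)
  obtain ⟨b, hb, h4, h5⟩ := h3 _ hu (min ε δ) (lt_min ε0 δ0)
  obtain ⟨y, -, rfl⟩ := h1 hb
  have h6 : dist y x < δ := lt_of_le_of_lt (le_max_left _ _) (h5.trans_le (min_le_right _ _))
  have h7 : ∀ t, dist t x < δ → |deriv G t - deriv G x - deriv (deriv G) x * (t - x)| ≤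
      ε * |t - x| := fun t ht => by simpa [mul_comm] using hδ ht
  refine ⟨_, hu, _, hb, fun h => h4 (congrArg j h.symm), by simpa using ε0,
    h5.trans_le (min_le_left _ _), h7 y h6, ?_⟩
  have d3 : ∀ t, HasDerivAt (fun t => G t - Q G (j x) t)
      (deriv G t - deriv G x - deriv (deriv G) x * (t - x)) t := fun t =>
    ((hG t).hasDerivAt.sub
      ((((((hasDerivAt_id t).sub_const x).const_mul (deriv G x)).const_add (G x)).add
      (((((hasDerivAt_id t).sub_const x).pow 2).const_mul (deriv (deriv G) x)).div_const 2)))).congr_deriv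
      (by simp; ring)
  have h8 := (convex_closedBall x |y - x|).norm_image_sub_le_of_norm_hasDerivWithin_le
    (C := ε * |y - x|) (fun t _ => (d3 t).hasDerivWithinAt)
    (fun t ht => (h7 t (lt_of_le_of_lt ht h6)).trans (mul_le_mul_of_nonneg_left ht ε0.le))
    (mem_closedBall_self (abs_nonneg _)) (show y ∈ _ from le_refl |y - x|)
  simpa [Q, j, mul_assoc, ← sq] using h8

/-- points of `[0,1]` where a line of slope `y` supports the graph from below -/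
def Am (G : ℝ → ℝ) (y : ℝ) : Set ℝ :=
  {x | x ∈ Icc (0 : ℝ) 1 ∧ ∀ t ∈ Icc (0 : ℝ) 1, G x - y * x ≤ G t - y * t}

theorem closedC {T : Set ℝ} (hT : IsClosed T) : IsClosed {y | ∃ x ∈ Am G y, x ∈ T} := by
  have hc := hG.continuous
  have h1 : IsClosed {z : Icc (0 : ℝ) 1 × ℝ | (z.1 : ℝ) ∈ T ∧
      ∀ t : Icc (0 : ℝ) 1, G z.1 - z.2 * z.1 ≤ G t - z.2 * t} := by
    refine (hT.preimage (continuous_subtype_val.comp continuous_fst)).inter ?_
    show IsClosed {z : Icc (0 : ℝ) 1 × ℝ | ∀ t : Icc (0 : ℝ) 1, G z.1 - z.2 * z.1 ≤ G t - z.2 * t}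
    rw [setOf_forall]
    exact isClosed_iInter fun t => isClosed_le (by fun_prop) (by fun_prop)
  convert isClosedMap_snd_of_compactSpace _ h1 using 1
  ext y
  exact ⟨fun ⟨x, hx, h⟩ => ⟨(⟨x, hx.1⟩, y), ⟨h, fun t => hx.2 t t.2⟩, rfl⟩,
    fun ⟨z, hz, h⟩ => ⟨z.1, ⟨z.1.2, fun t ht => h ▸ hz.2 ⟨t, ht⟩⟩, hz.1⟩⟩

theorem compA (y : ℝ) : IsCompact (Am G y) ∧ (Am G y).Nonempty := by
  have hc := hG.continuous
  refine ⟨isCompact_Icc.inter_right (t := {x | ∀ t ∈ Icc (0 : ℝ) 1, G x - y * x ≤ G t - y * t}) ?_,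
    ?_⟩
  · simp only [setOf_forall]
    exact isClosed_iInter fun t => isClosed_iInter fun _ => isClosed_le (by fun_prop) (by fun_prop)
  · obtain ⟨x, hx, h⟩ := isCompact_Icc.exists_isMinOn (nonempty_Icc.2 (zero_le_one' ℝ))
      (f := fun t => G t - y * t) (by fun_prop)
    exact ⟨x, hx, fun t ht => h ht⟩

omit hG in
theorem monoA {x x' y y' : ℝ} (h : x ∈ Am G y) (h' : x' ∈ Am G y') (hy : y < y') : x ≤ x' := by
  nlinarith [h.2 x' h'.1, h'.2 x h.1]

theorem derA {x y : ℝ} (h : x ∈ Am G y) (h0 : 2 * (G (1 / 2) - G 0) < y)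
    (h1 : y < 2 * (G 1 - G (1 / 2))) : deriv G x = y := by
  have h2 := h.2 (1 / 2) ⟨by norm_num, by norm_num⟩
  have h3 : 0 < x := lt_of_le_of_ne h.1.1 fun e => by rw [← e] at h2; linarith
  have h4 : x < 1 := lt_of_le_of_ne h.1.2 fun e => by rw [e] at h2; linarith
  have h5 : IsLocalMin (fun t => G t - y * t) x :=
    mem_of_superset (Icc_mem_nhds h3 h4) fun t ht => h.2 t ht
  have h6 := h5.hasDerivAt_eq_zero ((hG x).hasDerivAt.sub ((hasDerivAt_id x).const_mul y))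
  linarith

theorem exS (hc : 2 * (G (1 / 2) - G 0) < 2 * (G 1 - G (1 / 2))) : ∃ S, S.Nonempty ∧ Good G S := by
  set y0 := 2 * (G (1 / 2) - G 0) with hy0
  set y1 := 2 * (G 1 - G (1 / 2)) with hy1
  by_cases hB : ∀ u v, y0 < u → u < v → v < y1 → ∃ y ∈ Icc u v, ∃ a ∈ Am G y, ∃ b ∈ Am G y, a < b
  swap
  · push Not at hB
    obtain ⟨u, v, h1, h2, h3, hB⟩ := hB
    obtain ⟨p, hp⟩ := (compA hG u).2
    obtain ⟨q, hq⟩ := (compA hG v).2
    have h4 : ∀ x ∈ Ioo p q, ∃ y ∈ Icc u v, x ∈ Am G y := fun x hx => by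
      obtain ⟨y, hy, ⟨a, ha, ha'⟩, b, hb, hb'⟩ := isPreconnected_closed_iff.1
        (isPreconnected_Icc (a := u) (b := v)) _ _ (closedC hG (isClosed_Iic (a := x)))
        (closedC hG (isClosed_Ici (a := x))) (fun y _ => by
          obtain ⟨a, ha⟩ := (compA hG y).2
          exact (le_total a x).imp (fun h => ⟨a, ha, h⟩) fun h => ⟨a, ha, h⟩)
        ⟨u, ⟨le_rfl, h2.le⟩, p, hp, hx.1.le⟩ ⟨v, ⟨h2.le, le_rfl⟩, q, hq, hx.2.le⟩
      exact ⟨y, hy, (le_antisymm ha' (le_trans hb' (hB y hy a ha b hb)) : a = x) ▸ ha⟩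
    refine caseA hG (lt_of_le_of_ne (monoA hp hq h2) fun e => ?_) fun x hx x' hx' hxx => ?_
    · have := derA hG hp h1 (h2.trans h3)
      rw [e, derA hG hq (h1.trans h2) h3] at this
      exact h2.ne' this
    · obtain ⟨y, hy, ha⟩ := h4 x hx
      obtain ⟨y', hy', ha'⟩ := h4 x' hx'
      have e1 := derA hG ha (h1.trans_le hy.1) (hy.2.trans_lt h3)
      have e2 := derA hG ha' (h1.trans_le hy'.1) (hy'.2.trans_lt h3)
      by_contra h
      have h5 : y' < y := by rw [← e1, ← e2]; exact not_le.1 h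
      rw [le_antisymm hxx (monoA ha' ha h5)] at h
      exact h le_rfl
  let S : Set (ℝ × ℝ × ℝ) := {u | u.2.1 ∈ Ioo y0 y1 ∧ u.2.2 = 0 ∧
    (IsLeast (Am G u.2.1) u.1 ∨ IsGreatest (Am G u.2.1) u.1)}
  obtain ⟨y2, hy2⟩ := nonempty_Ioo.2 hc
  obtain ⟨a2, ha2⟩ := (compA hG y2).1.exists_isLeast (compA hG y2).2
  refine ⟨S, ⟨(a2, y2, 0), hy2, rfl, Or.inl ha2⟩, ?_⟩
  rintro ⟨x, y, c⟩ ⟨h1, rfl, h2⟩ ε ε0
  obtain ⟨u, v, h3, h4, h5, h6⟩ : ∃ u v, y0 < u ∧ u < v ∧ v < y1 ∧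
      ∀ z ∈ Icc u v, |z - y| < ε ∧ ∀ t ∈ Am G z, |t - x| < ε := by
    rcases h2 with h2 | h2
    · obtain ⟨δ, δ0, hδ⟩ := Metric.eventually_nhds_iff.1
        (((closedC hG (isClosed_Iic (a := x - ε))).isOpen_compl.eventually_mem (x := y)
          fun ⟨t, ht, h⟩ => by linarith [h2.2 ht, mem_Iic.1 h]).and
        ((isOpen_Ioo.eventually_mem h1).and (isOpen_ball.eventually_mem (mem_ball_self ε0))))
      have h7 : ∀ z ∈ Icc (y - δ / 2) (y - δ / 4), dist z y < δ := fun z hz =>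
        abs_lt.2 ⟨by linarith [hz.1], by linarith [hz.2]⟩
      refine ⟨y - δ / 2, y - δ / 4, (hδ (h7 _ ⟨le_rfl, by linarith⟩)).2.1.1, by linarith,
        by linarith [h1.2], fun z hz => ⟨(hδ (h7 z hz)).2.2, fun t ht => abs_lt.2 ⟨?_, ?_⟩⟩⟩
      · by_contra h
        exact (hδ (h7 z hz)).1 ⟨t, ht, by rw [mem_Iic]; linarith⟩
      · linarith [monoA ht h2.1 (show z < y by linarith [hz.2])]
    · obtain ⟨δ, δ0, hδ⟩ := Metric.eventually_nhds_iff.1
        (((closedC hG (isClosed_Ici (a := x + ε))).isOpen_compl.eventually_mem (x := y)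
          fun ⟨t, ht, h⟩ => by linarith [h2.2 ht, mem_Ici.1 h]).and
        ((isOpen_Ioo.eventually_mem h1).and (isOpen_ball.eventually_mem (mem_ball_self ε0))))
      have h7 : ∀ z ∈ Icc (y + δ / 4) (y + δ / 2), dist z y < δ := fun z hz =>
        abs_lt.2 ⟨by linarith [hz.1], by linarith [hz.2]⟩
      refine ⟨y + δ / 4, y + δ / 2, by linarith [h1.1], by linarith,
        (hδ (h7 _ ⟨by linarith, le_rfl⟩)).2.1.2,
        fun z hz => ⟨(hδ (h7 z hz)).2.2, fun t ht => abs_lt.2 ⟨?_, ?_⟩⟩⟩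
      · linarith [monoA h2.1 ht (show y < z by linarith [hz.1])]
      · by_contra h
        exact (hδ (h7 z hz)).1 ⟨t, ht, by rw [mem_Ici]; linarith⟩
  obtain ⟨z, hz, a', ha', b', hb', hab⟩ := hB u v h3 h4 h5
  obtain ⟨a, ha⟩ := (compA hG z).1.exists_isLeast (compA hG z).2
  obtain ⟨b, hb⟩ := (compA hG z).1.exists_isGreatest (compA hG z).2
  have hz' : z ∈ Ioo y0 y1 := ⟨h3.trans_le hz.1, hz.2.trans_lt h5⟩
  have hd : ∀ t ∈ Am G z, dist ((t, z, 0) : ℝ × ℝ × ℝ) (x, y, 0) < ε := fun t ht => by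
    simp only [Prod.dist_eq, max_lt_iff, Real.dist_eq, sub_self, abs_zero]
    exact ⟨(h6 z hz).2 t ht, (h6 z hz).1, ε0⟩
  refine ⟨(a, z, 0), ⟨hz', rfl, Or.inl ha⟩, (b, z, 0), ⟨hz', rfl, Or.inr hb⟩,
    (((ha.2 ha').trans_lt hab).trans_le (hb.2 hb')).ne, hd a ha.1, hd b hb.1,
    by simp; positivity, ?_⟩
  have e : G b - Q G (a, z, 0) b = 0 := by
    simp only [Q]
    linarith [ha.1.2 b hb.1.1, hb.1.2 a ha.1.1]
  show |G b - Q G (a, z, 0) b| ≤ ε * (b - a) ^ 2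
  rw [e, abs_zero]
  positivity

end Pool.Agent.H27.Uz
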