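import Mathlib

set_option autoImplicit false

namespace Pool.Agent.H27.Wb

open Filter Topology Set

/-- The Weierstrass-type function attached to `g`. -/
noncomputable def W (b : ℕ) (α : ℝ) (g : ℝ → ℝ) (x : ℝ) : ℝ :=
  ∑' k : ℕ, (b : ℝ) ^ (-(α * k)) * g ((b : ℝ) ^ k * x)

/-- A steep staircase. -/
noncomputable def st (M : ℝ) (x : ℝ) : ℝ := ⌊x⌋ + min (M * Int.fract x) 1

/-- A sawtooth with a steep rise and a slow fall. -/
noncomputable def sw (M : ℝ) (x : ℝ) : ℝ := min (M * Int.fract x) 1 - Int.fract x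

lemma sw_eq (M x : ℝ) : sw M x = st M x - x := by
  simp only [sw, st]
  have := Int.floor_add_fract x
  linarith

lemma sw_per (M x : ℝ) (n : ℤ) : sw M (x + n) = sw M x := by
  simp only [sw, Int.fract_add_intCast]

lemma sw_abs (M : ℝ) (hM : 1 ≤ M) (x : ℝ) : |sw M x| ≤ 1 := by
  have h0 := Int.fract_nonneg x
  have h1 := Int.fract_lt_one x
  have h2 : 0 ≤ min (M * Int.fract x) 1 := le_min (by positivity) zero_le_one
  have h3 := min_le_right (M * Int.fract x) 1
  rw [sw, abs_le]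
  constructor <;> linarith

lemma st_mono (M : ℝ) (hM : 1 ≤ M) (x y : ℝ) (h : x ≤ y) :
    0 ≤ st M y - st M x ∧ st M y - st M x ≤ M * (y - x) := by
  have a0 := Int.fract_nonneg x
  have a1 := Int.fract_lt_one x
  have c0 := Int.fract_nonneg y
  have c1 := Int.fract_lt_one y
  have ex := Int.floor_add_fract x
  have ey := Int.floor_add_fract y
  have hf : ⌊x⌋ ≤ ⌊y⌋ := Int.floor_le_floor h
  simp only [st]
  set a := Int.fract x
  set c := Int.fract y
  have p1 : 0 ≤ M * a := by positivity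
  have p2 : 0 ≤ M * c := by positivity
  rcases hf.eq_or_lt with e | e
  · have e' : (⌊x⌋ : ℝ) = ⌊y⌋ := by exact_mod_cast e
    have hac : a ≤ c := by linarith
    have p3 : M * a ≤ M * c := mul_le_mul_of_nonneg_left hac (by linarith)
    have p4 : M * (y - x) = M * c - M * a := by rw [← ex, ← ey, e']; ring
    rw [p4]
    rcases min_cases (M * a) 1 with h1 | h1 <;> rcases min_cases (M * c) 1 with h2 | h2 <;>
      constructor <;> linarith [h1.1, h1.2, h2.1, h2.2]
  · have e' : (⌊x⌋ : ℝ) + 1 ≤ ⌊y⌋ := by exact_mod_cast e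
    set n : ℝ := (⌊y⌋ : ℝ) - ⌊x⌋ with hn
    have p4 : M * (y - x) = M * n + M * c - M * a := by rw [← ex, ← ey, hn]; simp only [Int.floor_intCast_add, Int.floor_fract, a, c, Int.floor_add_fract]; nlinarith
    have p5 : n ≤ M * n := by nlinarith
    have p6 : n - 1 ≤ M * n - M * a := by nlinarith
    rw [p4]
    rcases min_cases (M * a) 1 with h1 | h1 <;> rcases min_cases (M * c) 1 with h2 | h2 <;>
      constructor <;> linarith [h1.1, h1.2, h2.1, h2.2]

lemma sw_lip (M : ℝ) (hM : 1 ≤ M) (x y : ℝ) : |sw M y - sw M x| ≤ M * |y - x| := by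
  rw [sw_eq, sw_eq]
  rcases le_total x y with h | h
  · have := st_mono M hM x y h
    rw [abs_of_nonneg (sub_nonneg.2 h), abs_le]
    constructor <;> nlinarith [this.1, this.2]
  · have := st_mono M hM y x h
    rw [abs_of_nonpos (sub_nonpos.2 h), abs_le]
    constructor <;> nlinarith [this.1, this.2]

lemma st_jump (M : ℝ) (hM : 2 ≤ M) (u v : ℝ) (p : ℤ) (h1 : u ≤ p) (h2 : p + 1 / M ≤ v) :
    1 ≤ st M v - st M u := by
  have a := (st_mono M (by linarith) u p h1).1
  have c := (st_mono M (by linarith) _ v h2).1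
  have q0 : 0 ≤ 1 / M := by positivity
  have q1 : 1 / M < 1 := by rw [div_lt_one (by linarith)]; linarith
  have e1 : st M p = p := by simp [st]
  have e2 : st M (p + 1 / M) = p + 1 := by
    simp only [st, Int.floor_intCast_add, Int.fract_intCast_add]
    rw [Int.floor_eq_zero_iff.2 ⟨q0, q1⟩, Int.fract_eq_self.2 ⟨q0, q1⟩, mul_one_div_cancel (by linarith)]
    simp
  linarith

lemma pick (M : ℕ) (hM : 2 ≤ M) (u v : ℝ) (h : 2 / (M : ℝ) ≤ v - u) :
    ∃ i : Fin M, 1 - (v - u) ≤ sw M (v - (i : ℕ) / M) - sw M (u - (i : ℕ) / M) := by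
  have M0 : (0 : ℝ) < M := by positivity
  have M2 : (2 : ℝ) ≤ M := by exact_mod_cast hM
  set j : ℤ := ⌈(M : ℝ) * u⌉ with hj
  have j1 : (M : ℝ) * u ≤ j := Int.le_ceil _
  have j2 : (j : ℝ) < M * u + 1 := Int.ceil_lt_add_one _
  have r0 : 0 ≤ j % M := Int.emod_nonneg _ (by omega)
  have r1 : j % M < M := Int.emod_lt_of_pos _ (by omega)
  have r2 : (M : ℤ) * (j / M) + j % M = j := Int.mul_ediv_add_emod j M
  refine ⟨⟨(j % M).toNat, by omega⟩, ?_⟩
  have c : (((j % M).toNat : ℕ) : ℝ) = ((j % M : ℤ) : ℝ) := by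
    have : (((j % M).toNat : ℕ) : ℤ) = j % M := Int.toNat_of_nonneg r0
    exact_mod_cast this
  have r3 : (M : ℝ) * ((j / M : ℤ) : ℝ) + ((j % M : ℤ) : ℝ) = j := by exact_mod_cast r2
  simp only [c]
  set p : ℤ := j / M
  set r : ℝ := ((j % M : ℤ) : ℝ)
  have := st_jump M M2 (u - r / M) (v - r / M) p (by
      rw [sub_le_iff_le_add, ← sub_le_iff_le_add', le_div_iff₀ M0]; nlinarith) (by
      rw [div_le_iff₀ M0] at h
      have : (p : ℝ) + 1 / M - (v - r / M) = (M * p + r + 1 - M * v) / M := by field_simp; ring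
      have h3 : (M * p + r + 1 - M * v) / (M : ℝ) ≤ 0 :=
        div_nonpos_of_nonpos_of_nonneg (by nlinarith) M0.le
      linarith)
  rw [sw_eq, sw_eq]
  linarith

lemma scale (b : ℝ) (hb : 2 ≤ b) (d s : ℝ) (hd : 0 < d) (hs : d ≤ b * s) :
    ∃ n : ℕ, s ≤ b ^ n * d ∧ b ^ n * d ≤ b * s := by
  classical
  have ex : ∃ n : ℕ, s ≤ b ^ n * d := by
    obtain ⟨n, hn⟩ := pow_unbounded_of_one_lt (s / d) (show 1 < b by linarith)
    exact ⟨n, by rw [div_lt_iff₀ hd] at hn; exact hn.le⟩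
  refine ⟨Nat.find ex, Nat.find_spec ex, ?_⟩
  rcases h : Nat.find ex with _ | n
  · simpa using hs
  · have := Nat.find_min ex (show n < Nat.find ex by omega)
    rw [not_le] at this
    rw [pow_succ]
    nlinarith

lemma lam_pow (b α : ℝ) (hb : 2 ≤ b) (k : ℕ) : b ^ (-(α * k)) = (b ^ (-α)) ^ k := by
  rw [← Real.rpow_natCast, ← Real.rpow_mul (by linarith)]
  congr 1
  ring

lemma lam_mul (b α d : ℝ) (hb : 2 ≤ b) (hd : 0 < d) (n : ℕ) :
    (b ^ (-α)) ^ n * (b ^ n * d) ^ α = d ^ α := by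
  have b0 : 0 < b := by linarith
  rw [Real.mul_rpow (by positivity) hd.le, ← lam_pow b α hb, ← Real.rpow_natCast b n,
    ← Real.rpow_mul b0.le, ← mul_assoc, ← Real.rpow_add b0]
  simp [mul_comm]

lemma lam_lt (b α : ℝ) (hb : 2 ≤ b) (h0 : 0 < α) : 0 < b ^ (-α) ∧ b ^ (-α) < 1 :=
  ⟨Real.rpow_pos_of_pos (by linarith) _,
    Real.rpow_lt_one_of_one_lt_of_neg (by linarith) (by linarith)⟩

lemma sum_u (b α : ℝ) (hb : 2 ≤ b) (h0 : 0 < α) (d : ℝ) (hd : 0 ≤ d) :
    Summable (fun k : ℕ => (b ^ (-α)) ^ k * min (b ^ k * d) 2) := by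
  obtain ⟨l0, l1⟩ := lam_lt b α hb h0
  refine Summable.of_nonneg_of_le (fun k => ?_) (fun k => ?_)
    ((summable_geometric_of_lt_one l0.le l1).mul_right 2)
  · exact mul_nonneg (by positivity) (le_min (by positivity) (by norm_num))
  · exact mul_le_mul_of_nonneg_left (min_le_right _ _) (by positivity)

lemma key (b α : ℝ) (hb : 2 ≤ b) (h0 : 0 < α) (h1 : α < 1) :
    ∃ K : ℝ, 0 ≤ K ∧ ∀ d : ℝ, 0 < d → d ≤ 1 →
      ∑' k : ℕ, (b ^ (-α)) ^ k * min (b ^ k * d) 2 ≤ K * d ^ α := by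
  obtain ⟨l0, l1⟩ := lam_lt b α hb h0
  have b0 : 0 < b := by linarith
  have m1 : 1 < b ^ (-α) * b := by
    have : b ^ (-α) * b = b ^ (1 - α) := by
      rw [sub_eq_neg_add, Real.rpow_add b0, Real.rpow_one]
    rw [this]
    exact Real.one_lt_rpow (by linarith) (by linarith)
  set l := b ^ (-α) with hl
  have q1 : 0 < l * b - 1 := by linarith
  have q2 : 0 < 1 - l := by linarith
  refine ⟨b / (l * b - 1) + 2 / (1 - l), by positivity, fun d hd hd1 => ?_⟩
  obtain ⟨n, n1, n2⟩ := scale b hb d 1 hd (by linarith)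
  have e := lam_mul b α d hb hd n
  rw [← hl] at e
  have ln : l ^ n ≤ d ^ α := by
    rw [← e]
    exact le_mul_of_one_le_right (by positivity) (Real.one_le_rpow n1 h0.le)
  rw [← (sum_u b α hb h0 d hd.le).sum_add_tsum_nat_add n, add_mul]
  refine add_le_add ?_ ?_
  · calc ∑ i ∈ Finset.range n, l ^ i * min (b ^ i * d) 2
        ≤ ∑ i ∈ Finset.range n, (l * b) ^ i * d := Finset.sum_le_sum (fun i _ => by
          rw [mul_pow, mul_assoc]
          exact mul_le_mul_of_nonneg_left (min_le_left _ _) (by positivity))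
      _ = ((l * b) ^ n - 1) / (l * b - 1) * d := by
          rw [← Finset.sum_mul, geom_sum_eq m1.ne']
      _ ≤ b / (l * b - 1) * d ^ α := by
          rw [div_mul_eq_mul_div, div_mul_eq_mul_div]
          refine div_le_div_of_nonneg_right ?_ q1.le
          have : l ^ n * (b ^ n * d) ≤ d ^ α * b :=
            mul_le_mul ln (by linarith) (by positivity) (by positivity)
          rw [mul_pow]
          nlinarith
  · have s1 := (summable_nat_add_iff n).2 (sum_u b α hb h0 d hd.le)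
    have s2 := (summable_geometric_of_lt_one l0.le l1).mul_right (2 * d ^ α)
    refine le_trans (s1.tsum_le_tsum (fun i => ?_) s2) ?_
    · rw [pow_add, mul_assoc]
      refine mul_le_mul_of_nonneg_left ?_ (by positivity)
      rw [mul_comm 2]
      exact mul_le_mul ln (min_le_right _ _) (le_min (by positivity) (by norm_num)) (by positivity)
    · rw [tsum_mul_right, tsum_geometric_of_lt_one l0.le l1]
      apply le_of_eq
      field_simp

end Pool.Agent.H27.Wb
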