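import Pool.Agent.H27.Wb1

set_option autoImplicit false

namespace Pool.Agent.H27.Wb

open Filter Topology Set

lemma W_eq (b : ℕ) (hb : 2 ≤ b) (α : ℝ) (g : ℝ → ℝ) (x : ℝ) :
    W b α g x = ∑' k : ℕ, ((b : ℝ) ^ (-α)) ^ k * g ((b : ℝ) ^ k * x) := by
  simp only [W, lam_pow b α (by exact_mod_cast hb)]

lemma W_sum (b : ℕ) (hb : 2 ≤ b) (α : ℝ) (h0 : 0 < α) (g : ℝ → ℝ) (hg : ∀ x, |g x| ≤ 1) (x : ℝ) :
    Summable (fun k : ℕ => ((b : ℝ) ^ (-α)) ^ k * g ((b : ℝ) ^ k * x)) := by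
  obtain ⟨l0, l1⟩ := lam_lt b α (by exact_mod_cast hb) h0
  refine Summable.of_norm_bounded (summable_geometric_of_lt_one l0.le l1) (fun k => ?_)
  rw [Real.norm_eq_abs, abs_mul, abs_of_pos (by positivity)]
  exact mul_le_of_le_one_right (by positivity) (hg _)

lemma W_per (b : ℕ) (α : ℝ) (g : ℝ → ℝ) (hg : ∀ x (n : ℤ), g (x + n) = g x) (x : ℝ) (n : ℤ) :
    W b α g (x + n) = W b α g x := by
  simp only [W]
  congr 1
  funext k
  have := hg ((b : ℝ) ^ k * x) ((b : ℤ) ^ k * n)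
  push_cast at this
  rw [mul_add, this]

lemma W_tel (b : ℕ) (hb : 2 ≤ b) (α : ℝ) (h0 : 0 < α) (g : ℝ → ℝ) (hg : ∀ x, |g x| ≤ 1) (x : ℝ) :
    W b α (fun x => g x - (b : ℝ) ^ (-α) * g (b * x)) x = g x := by
  rw [W_eq b hb]
  have s := W_sum b hb α h0 g hg x
  have s1 := (summable_nat_add_iff 1).2 s
  have e : ∀ k : ℕ, ((b : ℝ) ^ (-α)) ^ k * (g ((b : ℝ) ^ k * x) -
      (b : ℝ) ^ (-α) * g (b * ((b : ℝ) ^ k * x))) =
      ((b : ℝ) ^ (-α)) ^ k * g ((b : ℝ) ^ k * x) -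
        ((b : ℝ) ^ (-α)) ^ (k + 1) * g ((b : ℝ) ^ (k + 1) * x) := by
    intro k
    rw [show (b : ℝ) * ((b : ℝ) ^ k * x) = (b : ℝ) ^ (k + 1) * x by ring]
    ring
  simp only [e]
  rw [s.tsum_sub s1, s.tsum_eq_zero_add]
  simp

lemma W_up (b : ℕ) (hb : 2 ≤ b) (α : ℝ) (h0 : 0 < α) (g : ℝ → ℝ) (hg : ∀ x, |g x| ≤ 1)
    (L : ℝ) (hL : 1 ≤ L) (hl : ∀ x y, |g y - g x| ≤ L * |y - x|) (x d : ℝ) (hd : 0 ≤ d) :
    |W b α g (x + d) - W b α g x| ≤
      L * ∑' k : ℕ, ((b : ℝ) ^ (-α)) ^ k * min ((b : ℝ) ^ k * d) 2 := by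
  have hb' : (2 : ℝ) ≤ b := by exact_mod_cast hb
  obtain ⟨l0, l1⟩ := lam_lt b α hb' h0
  rw [W_eq b hb, W_eq b hb, ← (W_sum b hb α h0 g hg _).tsum_sub (W_sum b hb α h0 g hg _),
    ← tsum_mul_left, ← Real.norm_eq_abs]
  refine tsum_of_norm_bounded ((sum_u b α hb' h0 d hd).mul_left L).hasSum (fun k => ?_)
  rw [← mul_sub, Real.norm_eq_abs, abs_mul, abs_of_pos (by positivity), mul_left_comm]
  refine mul_le_mul_of_nonneg_left ?_ (by positivity)
  rw [mul_min_of_nonneg _ _ (by linarith : 0 ≤ L)]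
  refine le_min ?_ ?_
  · refine le_trans (hl _ _) (le_of_eq ?_)
    rw [mul_add, add_sub_cancel_left, abs_of_nonneg (by positivity)]
  · refine le_trans (abs_sub _ _) ?_
    linarith [hg ((b : ℝ) ^ k * (x + d)), hg ((b : ℝ) ^ k * x)]

lemma W_low (b : ℕ) (hb : 2 ≤ b) (α : ℝ) (h0 : 0 < α) (g : ℝ → ℝ) (hg : ∀ x, |g x| ≤ 1)
    (hl : ∀ x y, x ≤ y → -(y - x) ≤ g y - g x) (x d : ℝ) (hd : 0 ≤ d) (n : ℕ)
    (hn : (b : ℝ) ^ n * d ≤ 2)
    (hj : 1 - (b : ℝ) ^ n * d ≤ g ((b : ℝ) ^ n * (x + d)) - g ((b : ℝ) ^ n * x)) :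
    ((b : ℝ) ^ (-α)) ^ n - ∑' k : ℕ, ((b : ℝ) ^ (-α)) ^ k * min ((b : ℝ) ^ k * d) 2 ≤
      W b α g (x + d) - W b α g x := by
  have hb' : (2 : ℝ) ≤ b := by exact_mod_cast hb
  obtain ⟨l0, l1⟩ := lam_lt b α hb' h0
  have s1 := W_sum b hb α h0 g hg (x + d)
  have s2 := W_sum b hb α h0 g hg x
  have s3 := sum_u b α hb' h0 d hd
  rw [W_eq b hb, W_eq b hb, ← s1.tsum_sub s2, sub_le_iff_le_add, ← (s1.sub s2).tsum_add s3]
  refine le_trans ?_ (((s1.sub s2).add s3).le_tsum n (fun k _ => ?_))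
  · rw [min_eq_left hn, ← mul_sub, ← mul_add]
    exact le_mul_of_one_le_right (by positivity) (by linarith)
  · rw [← mul_sub, ← mul_add]
    refine mul_nonneg (by positivity) ?_
    have a1 := hl ((b : ℝ) ^ k * x) ((b : ℝ) ^ k * (x + d))
      (mul_le_mul_of_nonneg_left (by linarith) (by positivity))
    have a2 := abs_le.1 (hg ((b : ℝ) ^ k * (x + d)))
    have a3 := abs_le.1 (hg ((b : ℝ) ^ k * x))
    rw [mul_add, add_sub_cancel_left, ← mul_add] at a1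
    rcases min_cases ((b : ℝ) ^ k * d) 2 with h | h <;> linarith [h.1, a2.1, a3.2]

/-- The family: shifted sawteeth and their telescoped versions. -/
noncomputable def fam (b : ℕ) (α : ℝ) (M : ℕ) : Fin M ⊕ Fin M → ℝ → ℝ
  | Sum.inl i => fun x => sw M (x - (i : ℕ) / M)
  | Sum.inr i => fun x => sw M (x - (i : ℕ) / M) - (b : ℝ) ^ (-α) * sw M (b * x - (i : ℕ) / M)

lemma fam_per (b : ℕ) (α : ℝ) (M : ℕ) (i : Fin M ⊕ Fin M) (x : ℝ) (n : ℤ) :
    fam b α M i (x + n) = fam b α M i x := by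
  rcases i with i | i
  · simp only [fam]
    rw [add_sub_right_comm, sw_per]
  · simp only [fam]
    have := sw_per M (b * x - (i : ℕ) / M) ((b : ℤ) * n)
    push_cast at this
    rw [add_sub_right_comm, sw_per, mul_add, add_sub_right_comm, this]

lemma fam_lip (b : ℕ) (α : ℝ) (M : ℕ) (hM : 2 ≤ M) (i : Fin M ⊕ Fin M) :
    ∃ K : NNReal, LipschitzWith K (fam b α M i) := by
  have M1 : (1 : ℝ) ≤ M := by exact_mod_cast (by omega : 1 ≤ M)
  have l1 : LipschitzWith (Real.toNNReal M) (sw M) := LipschitzWith.of_dist_le' (fun x y => by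
    rw [Real.dist_eq, Real.dist_eq]; exact sw_lip M M1 y x)
  have l2 : ∀ a c : ℝ, LipschitzWith (Real.toNNReal |a|) (fun x : ℝ => a * x - c) := fun a c =>
    LipschitzWith.of_dist_le' (fun x y => by
      rw [Real.dist_eq, Real.dist_eq, ← abs_mul]; apply le_of_eq; congr 1; ring)
  rcases i with i | i
  · have := l1.comp (l2 1 ((i : ℕ) / M))
    exact ⟨_, by simpa only [fam, Function.comp_def, one_mul] using this⟩
  · have := (l1.comp (l2 1 ((i : ℕ) / M))).sub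
      ((l2 ((b : ℝ) ^ (-α)) 0).comp (l1.comp (l2 b ((i : ℕ) / M))))
    exact ⟨_, by simpa only [fam, Function.comp_def, one_mul, sub_zero] using this⟩

theorem core (b : ℕ) (hb : 2 ≤ b) (α : ℝ) (h0 : 0 < α) (h1 : α < 1) :
    ∃ M : ℕ, 2 ≤ M ∧ ∃ A : ℝ, 1 ≤ A ∧ ∀ x d : ℝ, 0 < d → d ≤ 1 / 2 →
      (∀ i, |W b α (fam b α M i) (x + d) - W b α (fam b α M i) x| ≤ A * d ^ α) ∧
      ∃ i, 1 / 2 * d ^ α ≤ W b α (fam b α M i) (x + d) - W b α (fam b α M i) x := by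
  have hb' : (2 : ℝ) ≤ b := by exact_mod_cast hb
  obtain ⟨l0, l1⟩ := lam_lt b α hb' h0
  obtain ⟨K, K0, hK⟩ := key b α hb' h0 h1
  set η : ℝ := (1 / (K + 1)) ^ α⁻¹ with hη
  have η0 : 0 < η := Real.rpow_pos_of_pos (by positivity) _
  have η1 : η ^ α = 1 / (K + 1) := Real.rpow_inv_rpow (by positivity) h0.ne'
  obtain ⟨M, hM⟩ := exists_nat_ge (2 * b / η + b)
  have q : (0 : ℝ) ≤ 2 * b / η := by positivity
  have M2 : (2 : ℝ) ≤ M := by linarith
  have M0 : (0 : ℝ) < M := by linarith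
  have M3 : (b : ℝ) * (2 / M) ≤ η := by
    have : 2 * b / η ≤ M := by linarith
    rw [div_le_iff₀ η0] at this
    rw [← mul_div_assoc, div_le_iff₀ M0]
    linarith
  have M4 : (b : ℝ) * (2 / M) ≤ 2 := by
    rw [← mul_div_assoc, div_le_iff₀ M0]
    linarith
  have M5 : 2 ≤ M := by exact_mod_cast M2
  have sa : ∀ c x : ℝ, |sw M (x - c)| ≤ 1 := fun c x => sw_abs M (by linarith) _
  have sl : ∀ c x y : ℝ, |sw M (y - c) - sw M (x - c)| ≤ M * |y - x| := fun c x y => by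
    have := sw_lip M (by linarith) (x - c) (y - c)
    rwa [sub_sub_sub_cancel_right] at this
  have tel : ∀ (i : Fin M) x, W b α (fam b α M (Sum.inr i)) x = sw M (x - (i : ℕ) / M) :=
    fun i x => W_tel b hb α h0 (fun x => sw M (x - (i : ℕ) / M)) (sa _) x
  refine ⟨M, M5, M * (K + 1), by nlinarith, fun x d hd hd1 => ⟨?_, ?_⟩⟩
  · have p0 : 0 < d ^ α := Real.rpow_pos_of_pos hd _
    rintro (i | i)
    · refine le_trans (W_up b hb α h0 _ (sa _) M (by linarith) (sl _) x d hd.le) ?_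
      rw [mul_assoc]
      refine mul_le_mul_of_nonneg_left (le_trans (hK d hd (by linarith)) ?_) M0.le
      nlinarith
    · rw [tel, tel]
      refine le_trans (sl _ _ _) ?_
      rw [add_sub_cancel_left, abs_of_pos hd, mul_assoc]
      refine mul_le_mul_of_nonneg_left ?_ M0.le
      have : d ≤ d ^ α := Real.self_le_rpow_of_le_one hd.le (by linarith) h1.le
      nlinarith
  · have p0 : 0 < d ^ α := Real.rpow_pos_of_pos hd _
    by_cases hc : 2 / (M : ℝ) ≤ d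
    · obtain ⟨i, hi⟩ := pick M M5 x (x + d) (by linarith)
      refine ⟨Sum.inr i, ?_⟩
      rw [tel, tel]
      have : d ^ α ≤ 1 := Real.rpow_le_one hd.le (by linarith) h0.le
      linarith
    · rw [not_le] at hc
      have q2 : (0 : ℝ) < 2 / M := by positivity
      obtain ⟨n, n1, n2⟩ := scale b hb' d (2 / M) hd (by nlinarith)
      obtain ⟨i, hi⟩ := pick M M5 ((b : ℝ) ^ n * x) ((b : ℝ) ^ n * (x + d)) (by linarith)
      refine ⟨Sum.inl i, le_trans ?_ (W_low b hb α h0 _ (sa _) (fun u v huv => ?_) x d hd.le n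
        (by linarith) (by linarith))⟩
      · have e := lam_mul b α d hb' hd n
        have e2 : ((b : ℝ) ^ n * d) ^ α ≤ 1 / (K + 1) := by
          rw [← η1]
          exact Real.rpow_le_rpow (by positivity) (by linarith) h0.le
        have e3 : d ^ α ≤ ((b : ℝ) ^ (-α)) ^ n * (1 / (K + 1)) := by
          rw [← e]
          exact mul_le_mul_of_nonneg_left e2 (by positivity)
        rw [mul_one_div, le_div_iff₀ (by positivity)] at e3
        have := hK d hd (by linarith)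
        nlinarith
      · have := (st_mono M (by linarith) (u - (i : ℕ) / M) (v - (i : ℕ) / M) (by linarith)).1
        rw [sw_eq, sw_eq]
        linarith

end Pool.Agent.H27.Wb
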