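import Mathlib

set_option autoImplicit false
open Filter Topology Set NormedSpace
open scoped ENNReal NNReal

namespace Pool.Agent.H27.Wnc

/-- `wk A`: the largest distance from a point of the weak-star closure of `A` in the bidual to the
canonical copy of the space. -/
noncomputable def wk {X : Type} [NormedAddCommGroup X] [NormedSpace ℂ X] (A : Set X) : ℝ≥0∞ :=
  ⨆ F ∈ closure (inclusionInDoubleDualWeak ℂ X '' (toWeakSpace ℂ X '' A)),
    ⨅ x : X, ENNReal.ofReal ‖WeakDual.toStrongDual F - inclusionInDoubleDual ℂ X x‖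

/-- The De Blasi measure of weak non-compactness. -/
noncomputable def omega {X : Type} [NormedAddCommGroup X] [NormedSpace ℂ X] (A : Set X) : ℝ≥0∞ :=
  ⨅ L ∈ {L : Set X | IsCompact (toWeakSpace ℂ X '' L)}, ⨆ a ∈ A, ⨅ u ∈ L, ENNReal.ofReal ‖a - u‖

variable {X : Type} [NormedAddCommGroup X] [NormedSpace ℂ X]

theorem wlim {K : Set X} (hK : IsCompact (toWeakSpace ℂ X '' K)) {ι : Type} (U : Ultrafilter ι)
    {y : ι → X} (hy : ∀ i, y i ∈ K) :
    ∃ x ∈ K, ∀ f : X →L[ℂ] ℂ, Tendsto (fun i => f (y i)) U (𝓝 (f x)) := by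
  obtain ⟨_, ⟨x, hx, rfl⟩, h⟩ := hK.ultrafilter_le_nhds (U.map fun i => toWeakSpace ℂ X (y i))
    (le_principal_iff.2 (mem_map.2 (Eventually.of_forall fun i => ⟨_, hy i, rfl⟩)))
  exact ⟨x, hx, fun f => ((WeakBilin.eval_continuous (topDualPairing ℂ X).flip f).tendsto _).comp h⟩

theorem slim {ι : Type} (U : Ultrafilter ι) {y : ι → X →L[ℂ] ℂ} (hy : ∀ i, ‖y i‖ ≤ 1) :
    ∃ g : X →L[ℂ] ℂ, ‖g‖ ≤ 1 ∧ ∀ x, Tendsto (fun i => y i x) U (𝓝 (g x)) := by
  obtain ⟨g, hg, h⟩ := (WeakDual.isCompact_closedBall (𝕜 := ℂ) (E := X) 0 1).ultrafilter_le_nhds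
    (U.map fun i => StrongDual.toWeakDual (y i))
    (le_principal_iff.2 (mem_map.2 (Eventually.of_forall fun i => by
      show WeakDual.toStrongDual (StrongDual.toWeakDual (y i)) ∈ Metric.closedBall 0 1
      exact mem_closedBall_zero_iff.2 (hy i))))
  exact ⟨WeakDual.toStrongDual g, mem_closedBall_zero_iff.1 hg,
    fun x => ((WeakDual.eval_continuous x).tendsto _).comp h⟩

theorem summ_re {ι : Type} {r : ι → ℝ} {M : ℝ} (h : ∀ F : Finset ι, |∑ s ∈ F, r s| ≤ M) :
    Summable r := by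
  classical
  refine summable_abs_iff.1 (summable_of_sum_le (c := 2 * M) (fun _ => abs_nonneg _) fun F => ?_)
  rw [← Finset.sum_filter_add_sum_filter_not F fun s => 0 ≤ r s]
  have h1 : ∑ s ∈ F.filter fun s => 0 ≤ r s, |r s| = ∑ s ∈ F.filter fun s => 0 ≤ r s, r s :=
    Finset.sum_congr rfl fun s hs => abs_of_nonneg (Finset.mem_filter.1 hs).2
  have h2 : ∑ s ∈ F.filter fun s => ¬ 0 ≤ r s, |r s| = -∑ s ∈ F.filter fun s => ¬ 0 ≤ r s, r s := by
    rw [← Finset.sum_neg_distrib]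
    exact Finset.sum_congr rfl fun s hs => abs_of_neg (not_le.1 (Finset.mem_filter.1 hs).2)
  rw [h1, h2]
  linarith [(abs_le.1 (h (F.filter fun s => 0 ≤ r s))).2,
    (abs_le.1 (h (F.filter fun s => ¬ 0 ≤ r s))).1]

theorem summ {ι : Type} {r : ι → ℂ} {M : ℝ} (h : ∀ F : Finset ι, ‖∑ s ∈ F, r s‖ ≤ M) :
    Summable r := by
  have h1 : Summable fun s => (r s).re := summ_re (M := M) fun F => by
    rw [← Complex.re_sum]; exact (Complex.abs_re_le_norm _).trans (h F)
  have h2 : Summable fun s => (r s).im := summ_re (M := M) fun F => by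
    rw [← Complex.im_sum]; exact (Complex.abs_im_le_norm _).trans (h F)
  exact ⟨⟨_, _⟩, (Complex.hasSum_iff _ _).2 ⟨h1.hasSum, h2.hasSum⟩⟩

/-- nodes of level `i` interlacing with `d` -/
def S (i : ℕ) (d : ℕ → ℕ) : Finset (Fin i → ℕ) :=
  Fintype.piFinset fun j : Fin i => Finset.Ioc (d j) (d (j + 1))

theorem mem_S {i : ℕ} {d : ℕ → ℕ} {s : Fin i → ℕ} :
    s ∈ S i d ↔ ∀ j : Fin i, d j < s j ∧ s j ≤ d (j + 1) := by
  simp [S]

variable (P : ∀ i : ℕ, (Fin i → ℕ) → X)

noncomputable def Q (i : ℕ) (d : ℕ → ℕ) : X := ∑ s ∈ S i d, P i s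

noncomputable def a (N : ℕ) (d : ℕ → ℕ) : X := ∑ i ∈ Finset.range N, Q P (i + 1) d

variable {P}

theorem upper (h1 : ∀ (i : ℕ) (F : Finset (Fin i → ℕ)), ‖∑ s ∈ F, P i s‖ ≤ 1) (N : ℕ) :
    wk (range (a P N)) ≤ 1 := by
  classical
  refine iSup₂_le fun F hF => ?_
  let g : (ℕ → ℕ) → WeakDual ℂ (StrongDual ℂ X) := fun d =>
    inclusionInDoubleDualWeak ℂ X (toWeakSpace ℂ X (a P N d))
  haveI : (comap g (𝓝 F)).NeBot := comap_neBot fun t ht => by
    obtain ⟨_, h, _, ⟨_, ⟨d, rfl⟩, rfl⟩, rfl⟩ := mem_closure_iff_nhds.1 hF t ht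
    exact ⟨d, h⟩
  let U := Ultrafilter.of (comap g (𝓝 F))
  have hU : Tendsto g U (𝓝 F) := tendsto_iff_comap.2 (Ultrafilter.of_le _)
  have hU' : ∀ μ : X →L[ℂ] ℂ, Tendsto (fun d => μ (a P N d)) U (𝓝 (F μ)) := fun μ =>
    ((WeakDual.eval_continuous μ).tendsto _).comp hU
  let p : ℕ → Prop := fun j => ∃ v, ∀ᶠ d in (U : Filter (ℕ → ℕ)), d j = v
  obtain ⟨k, hk1, hk2⟩ : ∃ k, (∀ j < k, p j) ∧ (k ≤ N → ¬ p k) := by
    by_cases h : ∃ j, ¬ p j
    · exact ⟨Nat.find h, fun j hj => not_not.1 (Nat.find_min h hj), fun _ => Nat.find_spec h⟩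
    · exact ⟨N + 1, fun j _ => not_not.1 (not_exists.1 h j), fun h => absurd h (by omega)⟩
  have he : ∀ j, ∃ v, j < k → ∀ᶠ d in (U : Filter (ℕ → ℕ)), d j = v := fun j => by
    by_cases h : j < k
    · obtain ⟨v, hv⟩ := hk1 j h
      exact ⟨v, fun _ => hv⟩
    · exact ⟨0, fun h' => absurd h' h⟩
  choose e he using he
  let x : X := ∑ i ∈ Finset.range N, if i + 1 < k then Q P (i + 1) e else 0
  let y : (ℕ → ℕ) → X := fun d => ∑ i ∈ Finset.range N, if i + 1 = k then Q P (i + 1) d else 0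
  have hy : ∀ d, ‖y d‖ ≤ 1 := fun d => by
    by_cases h : ∃ i ∈ Finset.range N, i + 1 = k
    · obtain ⟨i, hi, hik⟩ := h
      simp only [y]
      rw [Finset.sum_eq_single i (fun j _ hj => if_neg (by omega)) (fun h => absurd hi h), if_pos hik]
      exact h1 _ _
    · simp only [y]
      rw [Finset.sum_eq_zero fun j hj => if_neg fun h' => h ⟨j, hj, h'⟩, norm_zero]
      exact zero_le_one
  have key : ∀ μ : X →L[ℂ] ℂ, Tendsto (fun d => μ (a P N d) - μ x - μ (y d)) U (𝓝 0) := by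
    intro μ
    simp only [a, x, y, map_sum, ← Finset.sum_sub_distrib]
    have e0 : (0 : ℂ) = ∑ i ∈ Finset.range N, (fun _ => (0 : ℂ)) i := by simp
    rw [e0]
    refine tendsto_finset_sum _ fun i hi => ?_
    beta_reduce
    rcases lt_trichotomy (i + 1) k with h | h | h
    · simp only [if_pos h, if_neg h.ne, map_zero, sub_zero]
      refine tendsto_const_nhds.congr' ?_
      have h2 : ∀ᶠ d in (U : Filter (ℕ → ℕ)), ∀ j ∈ Finset.range k, d j = e j :=
        (eventually_all_finset _).2 fun j hj => he j (Finset.mem_range.1 hj)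
      filter_upwards [h2] with d hd
      have : S (i + 1) d = S (i + 1) e := by
        unfold S
        congr 1
        funext j
        have := j.2
        rw [hd j (Finset.mem_range.2 (by omega)), hd (j + 1) (Finset.mem_range.2 (by omega))]
      simp only [Q, this, sub_self]
    · simp only [if_neg h.not_lt, if_pos h, map_zero, sub_zero, sub_self]
      exact tendsto_const_nhds
    · simp only [if_neg h.le.not_gt, if_neg h.ne', map_zero, sub_zero]
      have hs : Summable fun s => μ (P (i + 1) s) := summ (M := ‖μ‖) fun F => by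
        rw [← map_sum]
        exact (μ.le_opNorm _).trans (mul_le_of_le_one_right (norm_nonneg _) (h1 _ _))
      refine NormedAddGroup.tendsto_nhds_zero.2 fun ε hε => ?_
      obtain ⟨T, hT⟩ := summable_iff_vanishing_norm.1 hs ε hε
      have hp := hk2 (by have := Finset.mem_range.1 hi; omega)
      have h3 : ∀ v, ∀ᶠ d in (U : Filter (ℕ → ℕ)), d k ≠ v := fun v =>
        Ultrafilter.eventually_not.2 fun h => hp ⟨v, h⟩
      have h4 : ∀ᶠ d in (U : Filter (ℕ → ℕ)),
          ∀ v ∈ Finset.range (T.sup fun s => s ⟨k, h⟩), d k ≠ v :=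
        (eventually_all_finset _).2 fun v _ => h3 v
      filter_upwards [h4] with d hd
      rw [Q, map_sum]
      refine hT _ (Finset.disjoint_left.2 fun s hs hsT => ?_)
      have h5 : d k < s ⟨k, h⟩ := (mem_S.1 hs ⟨k, h⟩).1
      exact hd (d k) (Finset.mem_range.2
        (h5.trans_le (Finset.le_sup (f := fun s => s ⟨k, h⟩) hsT))) rfl
  refine (iInf_le _ x).trans (ENNReal.ofReal_le_one.2 ?_)
  refine ContinuousLinearMap.opNorm_le_bound _ zero_le_one fun μ => ?_
  have h2 : Tendsto (fun d => ‖μ (y d)‖) U (𝓝 ‖F μ - μ x‖) := by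
    have := (((hU' μ).sub_const (μ x)).sub (key μ)).norm
    simpa using this
  rw [one_mul]
  exact le_of_tendsto' h2 fun d =>
    (μ.le_opNorm _).trans (mul_le_of_le_one_right (norm_nonneg _) (hy d))

end Pool.Agent.H27.Wnc
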