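import Pool.Agent.H27.Wnc1

set_option autoImplicit false
open Filter Topology Set NormedSpace
open scoped ENNReal NNReal

namespace Pool.Agent.H27.Wnc

variable {X : Type} [NormedAddCommGroup X] [NormedSpace ℂ X] {P : ∀ i : ℕ, (Fin i → ℕ) → X}

theorem lower_aux {N : ℕ}
    (h2 : ∀ t : ℕ → ℕ, ∃ φ : X →L[ℂ] ℂ, ‖φ‖ ≤ 1 ∧ ∀ i ≤ N, ∀ s : Fin i → ℕ,
      φ (P i s) = if s = fun j : Fin i => t j then 1 else 0)
    {L : Set X} (hL : IsCompact (toWeakSpace ℂ X '' L)) {r : ℝ}
    (hr : ∀ d, ∃ u ∈ L, ‖a P N d - u‖ ≤ r) : (N : ℝ) ≤ 2 * r := by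
  classical
  let U := hyperfilter ℕ
  have hU : ∀ n : ℕ, ∀ᶠ m in (U : Filter ℕ), n ≤ m := fun n =>
    Nat.hyperfilter_le_atTop (eventually_ge_atTop n)
  have main : ∀ k ≤ N, ∃ (u : (ℕ → ℕ) → X) (φ : (ℕ → ℕ) → X →L[ℂ] ℂ), (∀ d, u d ∈ L) ∧
      (∀ t, ‖φ t‖ ≤ 1) ∧
      (∀ d t : ℕ → ℕ, (∀ j < N - k, d j < t j ∧ t j ≤ d (j + 1)) → N - r ≤ (φ t (u d)).re) ∧
      (∀ ψ : X →L[ℂ] ℂ, ‖ψ‖ ≤ 1 → (∀ d, ψ (a P N d) = 0) → ∀ d, ‖ψ (u d)‖ ≤ r) ∧
      ∀ d t : ℕ → ℕ, (k < N → d 1 < t 0) → φ t (a P N d) = 0 := by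
    intro k
    induction k with
    | zero =>
      intro _
      choose u hu hur using hr
      choose φ hφ hφP using h2
      have hQ : ∀ (d t : ℕ → ℕ), ∀ i ≤ N, φ t (Q P i d) =
          if (fun j : Fin i => t j) ∈ S i d then 1 else 0 := fun d t i hi => by
        rw [Q, map_sum, Finset.sum_congr rfl fun s _ => hφP t i hi s, Finset.sum_ite_eq']
      have hb : ∀ ψ : X →L[ℂ] ℂ, ‖ψ‖ ≤ 1 → ∀ d, ‖ψ (a P N d) - ψ (u d)‖ ≤ r := fun ψ h d => by
        rw [← map_sub]
        exact (ψ.le_of_opNorm_le h _).trans (by rw [one_mul]; exact hur d)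
      refine ⟨u, φ, hu, hφ, fun d t h => ?_, fun ψ h h0 d => ?_, fun d t h => ?_⟩
      · have e1 : φ t (a P N d) = N := by
          rw [a, map_sum, Finset.sum_congr rfl fun i hi => (hQ d t (i + 1)
            (Finset.mem_range.1 hi)).trans (if_pos (mem_S.2 fun j => h j (by
              have := j.2; have := Finset.mem_range.1 hi; omega)))]
          simp
        have h3 := (Complex.re_le_norm _).trans (hb _ (hφ t) d)
        rw [e1, Complex.sub_re, Complex.natCast_re] at h3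
        linarith
      · have := hb ψ h d
        rwa [h0, zero_sub, norm_neg] at this
      · rw [a, map_sum]
        refine Finset.sum_eq_zero fun i hi => ?_
        have hi' := Finset.mem_range.1 hi
        rw [hQ d t (i + 1) hi', if_neg]
        intro hm
        have h3 : t 0 ≤ d 1 := (mem_S.1 hm ⟨0, Nat.succ_pos i⟩).2
        exact absurd (h (by omega)) (not_lt.2 h3)
    | succ k ih =>
      intro hk
      obtain ⟨u, φ, hu, hφ, hA, hB, hC⟩ := ih (by omega)
      set j := N - (k + 1) with hj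
      choose u' hu' hul using fun d : ℕ → ℕ =>
        wlim hL U (y := fun n => u (Function.update d (j + 1) n)) fun n => hu _
      choose φ' hφ' hφl using fun t : ℕ → ℕ =>
        slim U (y := fun m => φ (Function.update t j m)) fun m => hφ _
      refine ⟨u', φ', hu', hφ', fun d t h => ?_, fun ψ h h0 d => ?_, fun d t h => ?_⟩
      · refine ge_of_tendsto ((Complex.continuous_re.tendsto _).comp (hφl t (u' d))) ?_
        filter_upwards [hU (d j + 1)] with m hm
        refine ge_of_tendsto ((Complex.continuous_re.tendsto _).comp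
          (hul d (φ (Function.update t j m)))) ?_
        filter_upwards [hU m] with n hn
        refine hA _ _ fun i hi => ?_
        rcases (show i < j ∨ i = j by omega) with h3 | rfl
        · rw [Function.update_of_ne (by omega), Function.update_of_ne h3.ne,
            Function.update_of_ne (by omega)]
          exact h i h3
        · rw [Function.update_of_ne (by omega), Function.update_self, Function.update_self]
          exact ⟨hm, hn⟩
      · exact le_of_tendsto' (hul d ψ).norm fun n => hB ψ h h0 _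
      · refine tendsto_nhds_unique (hφl t _) (tendsto_const_nhds.congr' ?_)
        filter_upwards [hU (d 1 + 1)] with m hm
        refine (hC d _ fun _ => ?_).symm
        by_cases h3 : j = 0
        · rw [h3, Function.update_self]; exact hm
        · rw [Function.update_of_ne (Ne.symm h3)]; exact h (by omega)
  obtain ⟨u, φ, -, hφ, hA, hB, hC⟩ := main N le_rfl
  have h3 := hA 0 0 fun j hj => absurd hj (by omega)
  have h4 := hB (φ 0) (hφ 0) (fun d => hC d 0 fun h => absurd h (lt_irrefl _)) 0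
  linarith [Complex.re_le_norm (φ 0 (u 0))]

theorem main (h1 : ∀ (i : ℕ) (F : Finset (Fin i → ℕ)), ‖∑ s ∈ F, P i s‖ ≤ 1)
    (h2 : ∀ (N : ℕ) (t : ℕ → ℕ), ∃ φ : X →L[ℂ] ℂ, ‖φ‖ ≤ 1 ∧ ∀ i ≤ N, ∀ s : Fin i → ℕ,
      φ (P i s) = if s = fun j : Fin i => t j then 1 else 0) (c : ℝ≥0) :
    ∃ A : Set X, Bornology.IsBounded A ∧ A.Nonempty ∧ (c : ℝ≥0∞) * wk A < omega A := by
  obtain ⟨N, hN⟩ := exists_nat_gt (2 * ((c : ℝ) + 1))
  refine ⟨range (a P N), ?_, range_nonempty _, ?_⟩
  · refine isBounded_iff_forall_norm_le.2 ⟨∑ i ∈ Finset.range N, 1, ?_⟩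
    rintro _ ⟨d, rfl⟩
    exact norm_sum_le_of_le _ fun i _ => h1 _ _
  · refine lt_of_le_of_lt (mul_le_of_le_one_right' (upper h1 N)) ?_
    refine lt_of_lt_of_le (b := ENNReal.ofReal (c + 1)) ?_ (le_iInf₂ fun L hL => ?_)
    · rw [← ENNReal.ofReal_coe_nnreal]
      exact (ENNReal.ofReal_lt_ofReal_iff (by positivity)).2 (lt_add_one _)
    · by_contra h
      have h3 := lower_aux (h2 N) hL (r := c + 1) fun d => by
        have h4 := (le_iSup₂ (f := fun (b : X) (_ : b ∈ range (a P N)) =>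
          ⨅ u ∈ L, ENNReal.ofReal ‖b - u‖) (a P N d) ⟨d, rfl⟩).trans_lt (not_le.1 h)
        obtain ⟨u, h5⟩ := iInf_lt_iff.1 h4
        obtain ⟨hu, h6⟩ := iInf_lt_iff.1 h5
        exact ⟨u, hu, ((ENNReal.ofReal_lt_ofReal_iff (by positivity)).1 h6).le⟩
      linarith

end Pool.Agent.H27.Wnc
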