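import Pool.Agent.H27.Wnc1

set_option autoImplicit false
open Filter Topology Set NormedSpace
open scoped ENNReal NNReal Classical

namespace Pool.Agent.H27.Wnc

variable {X : Type} [NormedAddCommGroup X] [NormedSpace ℂ X] {Γ : Type}

def Thin (k : ℕ) (Z : Finset (Γ × Γ)) : Prop := ∀ ρ, (Z.filter fun p => p.1 = ρ).card ≤ k

theorem Thin.mono {k : ℕ} {Z Z' : Finset (Γ × Γ)} (h : Thin k Z) (hs : Z' ⊆ Z) : Thin k Z' :=
  fun ρ => (Finset.card_le_card (Finset.filter_subset_filter _ hs)).trans (h ρ)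

theorem van {g : Γ × Γ → ℝ} {M : ℝ} (hG : ∀ k Z, Thin k Z → ∑ p ∈ Z, g p ≤ M * √k) (D : ℕ)
    {ε : ℝ} (hε : 0 < ε) :
    ∃ S : Finset (Γ × Γ), ∀ Z, Thin D Z → Disjoint Z S → ∑ p ∈ Z, g p ≤ ε := by
  by_contra h
  push Not at h
  have key : ∀ J : ℕ, ∃ S : Finset (Γ × Γ), Thin (J * D) S ∧ J * ε ≤ ∑ p ∈ S, g p := by
    intro J
    induction J with
    | zero => exact ⟨∅, fun ρ => by simp, by simp⟩
    | succ J ih =>
      obtain ⟨S, h1, h2⟩ := ih
      obtain ⟨Z, h3, h4, h5⟩ := h S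
      refine ⟨Z ∪ S, fun ρ => ?_, ?_⟩
      · rw [Finset.filter_union]
        refine (Finset.card_union_le _ _).trans ?_
        have := h1 ρ
        have := h3 ρ
        rw [Nat.succ_mul]; omega
      · rw [Finset.sum_union h4]; push_cast; linarith
  obtain ⟨J, hJ⟩ := exists_nat_gt (M ^ 2 * D / ε ^ 2)
  obtain ⟨S, h1, h2⟩ := key J
  have h3 := h2.trans (hG _ S h1)
  have J0 : (0 : ℝ) < J := lt_of_le_of_lt (by positivity) hJ
  have h4 := pow_le_pow_left₀ (by positivity) h3 2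
  rw [mul_pow, mul_pow, Real.sq_sqrt (by positivity)] at h4
  push_cast at h4
  rw [div_lt_iff₀ (by positivity)] at hJ
  nlinarith

variable (j : Γ → ℝ) (D : ℕ)

def Adm (Z : Finset (Γ × Γ)) : Prop :=
  Thin D Z ∧ ∀ p ∈ Z, ∀ q ∈ Z, p.1 = q.1 → |j p.2 - j q.2| * Z.card ≤ 1

variable {j D} {E : Γ × Γ → X}

theorem upper2 (hj : Function.Injective j)
    (hN : ∀ k Z, Thin k Z → ∀ c : Γ × Γ → ℂ, (∀ p, ‖c p‖ ≤ 1) → ‖∑ p ∈ Z, c p • E p‖ ≤ √k) :
    wk (range fun Z : {Z // Adm j D Z} => ∑ p ∈ Z.1, E p) ≤ 1 := by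
  refine iSup₂_le fun F hF => ?_
  let g : {Z // Adm j D Z} → WeakDual ℂ (StrongDual ℂ X) := fun Z =>
    inclusionInDoubleDualWeak ℂ X (toWeakSpace ℂ X (∑ p ∈ Z.1, E p))
  haveI : (comap g (𝓝 F)).NeBot := comap_neBot fun t ht => by
    obtain ⟨_, h, _, ⟨_, ⟨d, rfl⟩, rfl⟩, rfl⟩ := mem_closure_iff_nhds.1 hF t ht
    exact ⟨d, h⟩
  let U := Ultrafilter.of (comap g (𝓝 F))
  have hU : Tendsto g U (𝓝 F) := tendsto_iff_comap.2 (Ultrafilter.of_le _)
  have hU' : ∀ μ : X →L[ℂ] ℂ, Tendsto (fun Z : {Z // Adm j D Z} => μ (∑ p ∈ Z.1, E p)) U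
      (𝓝 (F μ)) := fun μ => ((WeakDual.eval_continuous μ).tendsto _).comp hU
  let G : Γ × Γ → Prop := fun p => ∀ᶠ Z in (U : Filter {Z // Adm j D Z}), p ∈ Z.1
  have hfin : ∀ T : Finset (Γ × Γ), (∀ p ∈ T, G p) →
      ∀ᶠ Z in (U : Filter {Z // Adm j D Z}), T ⊆ Z.1 := fun T hT =>
    ((eventually_all_finset T).2 hT).mono fun Z h p hp => h p hp
  obtain ⟨x, hx⟩ : ∃ x : X, ∀ᶠ Z in (U : Filter {Z // Adm j D Z}),
      ‖∑ p ∈ Z.1.filter G, E p - x‖ ≤ 1 := by
    by_cases h : ∀ p q, G p → G q → p.1 = q.1 → p = q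
    · refine ⟨0, Eventually.of_forall fun Z => ?_⟩
      have := hN 1 (Z.1.filter G) (fun ρ => Finset.card_le_one.2 fun p hp q hq => by
        simp only [Finset.mem_filter] at hp hq
        exact h p q hp.1.2 hq.1.2 (hp.2.trans hq.2.symm)) (fun _ => 1) (by simp)
      simpa using this
    · push Not at h
      obtain ⟨p, q, hp, hq, h1, h2⟩ := h
      have h3 : 0 < |j p.2 - j q.2| :=
        abs_pos.2 (sub_ne_zero.2 fun h => h2 (Prod.ext h1 (hj h)))
      have hG : {p | G p}.Finite := by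
        by_contra hi
        obtain ⟨n, hn⟩ := exists_nat_gt (1 / |j p.2 - j q.2|)
        obtain ⟨T, hT, hc⟩ := Set.Infinite.exists_subset_card_eq hi n
        obtain ⟨Z, hZ1, hZ2, hZ3⟩ := ((hfin T fun p hp => hT hp).and (hp.and hq)).exists
        have h4 := Z.2.2 p hZ2 q hZ3 h1
        have h5 : (n : ℝ) ≤ Z.1.card := by exact_mod_cast hc ▸ Finset.card_le_card hZ1
        rw [div_lt_iff₀ h3] at hn
        nlinarith
      refine ⟨∑ p ∈ hG.toFinset, E p, ?_⟩
      filter_upwards [hfin hG.toFinset fun p hp => hG.mem_toFinset.1 hp] with Z hZ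
      have : Z.1.filter G = hG.toFinset := by
        ext p
        rw [Finset.mem_filter]
        exact ⟨fun h => hG.mem_toFinset.2 h.2, fun h => ⟨hZ h, hG.mem_toFinset.1 h⟩⟩
      rw [this, sub_self, norm_zero]
      exact zero_le_one
  have key : ∀ μ : X →L[ℂ] ℂ, Tendsto (fun Z : {Z // Adm j D Z} =>
      μ (∑ p ∈ Z.1.filter fun p => ¬ G p, E p)) U (𝓝 0) := by
    intro μ
    refine NormedAddGroup.tendsto_nhds_zero.2 fun ε hε => ?_
    obtain ⟨S, hS⟩ := van (g := fun p => ‖μ (E p)‖) (M := ‖μ‖) (fun k Z hZ => by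
      choose c hc1 hc2 using fun p => Complex.exists_norm_eq_mul_self (μ (E p))
      have h1 := (μ.le_opNorm _).trans
        (mul_le_mul_of_nonneg_left (hN k Z hZ c fun p => (hc1 p).le) (norm_nonneg _))
      rw [map_sum] at h1
      simp only [map_smul, smul_eq_mul, ← hc2] at h1
      rw [← Complex.ofReal_sum, Complex.norm_real] at h1
      exact (le_abs_self _).trans h1) D (half_pos hε)
    have h1 : ∀ᶠ Z in (U : Filter {Z // Adm j D Z}), ∀ p ∈ S.filter fun p => ¬ G p, p ∉ Z.1 :=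
      (eventually_all_finset _).2 fun p hp => Ultrafilter.eventually_not.2 (Finset.mem_filter.1 hp).2
    filter_upwards [h1] with Z hZ
    rw [map_sum]
    refine ((norm_sum_le _ _).trans (hS _ (Z.2.1.mono (Finset.filter_subset _ _))
      (Finset.disjoint_left.2 fun p hp hpS => ?_))).trans_lt (half_lt_self hε)
    exact hZ p (Finset.mem_filter.2 ⟨hpS, (Finset.mem_filter.1 hp).2⟩) (Finset.mem_filter.1 hp).1
  refine (iInf_le _ x).trans (ENNReal.ofReal_le_one.2 ?_)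
  refine ContinuousLinearMap.opNorm_le_bound _ zero_le_one fun μ => ?_
  have h2 : Tendsto (fun Z : {Z // Adm j D Z} => ‖μ (∑ p ∈ Z.1.filter G, E p - x)‖) U
      (𝓝 ‖F μ - μ x‖) := by
    have := (((hU' μ).sub (key μ)).sub_const (μ x)).norm
    rw [sub_zero] at this
    refine this.congr fun Z => ?_
    rw [← Finset.sum_filter_add_sum_filter_not Z.1 G, map_add, add_sub_cancel_right, map_sub]
  rw [one_mul]
  exact le_of_tendsto h2 (hx.mono fun Z h =>
    (μ.le_opNorm _).trans (mul_le_of_le_one_right (norm_nonneg _) h))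

end Pool.Agent.H27.Wnc
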