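import Pool.Agent.H27.Wnc3

set_option autoImplicit false
open Filter Topology Set NormedSpace
open scoped ENNReal NNReal Classical

namespace Pool.Agent.H27.Wnc

section comb

variable {Γ Y : Type} (j : Γ → ℝ) (D : ℕ) (Big : Y → Γ × Γ → Prop)

/-- full blocks of small diameter on the rows of `T` -/
def Cfg (m : ℕ) (T : Finset Γ) (B : Γ → Finset Γ) : Prop :=
  ∀ ρ ∈ T, (B ρ).card = D ∧ ∀ x ∈ B ρ, ∀ y ∈ B ρ, |j x - j y| * m ≤ 1

def Hit (s : Finset (Γ × Γ)) (T : Finset Γ) (B : Γ → Finset Γ) : Prop :=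
  ∃ u, (∀ p ∈ s, Big u p) ∧ ∀ ρ ∈ T, ∃ x ∈ B ρ, Big u (ρ, x)

def Rob (s : Finset (Γ × Γ)) : Prop :=
  ∃ C : Set Γ, C.Countable ∧ ∀ n : ℕ, ∃ m : ℕ, ∀ T B, Cfg j D m T B → T.card ≤ n →
    (∀ ρ ∈ T, ρ ∉ C) → Hit Big s T B

variable {j D Big}

theorem cluster (hj : ∀ x, 0 ≤ j x ∧ j x ≤ 1) {S : Set Γ} (hS : S.Infinite) (m D : ℕ) :
    ∃ B : Finset Γ, ↑B ⊆ S ∧ B.card = D ∧ ∀ x ∈ B, ∀ y ∈ B, |j x - j y| * m ≤ 1 := by
  obtain ⟨v, hv⟩ : ∃ v : ℕ, {x ∈ S | ⌊j x * m⌋₊ = v}.Infinite := by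
    by_contra h
    push Not at h
    refine hS (((finite_Iic m).biUnion fun v _ => h v).subset fun x hx => ?_)
    refine mem_biUnion (x := ⌊j x * m⌋₊) ?_ ⟨hx, rfl⟩
    refine Nat.floor_le_of_le ?_
    nlinarith [(hj x).2, (Nat.cast_nonneg m : (0 : ℝ) ≤ m)]
  obtain ⟨B, hB, hc⟩ := hv.exists_subset_card_eq D
  refine ⟨B, fun x hx => (hB hx).1, hc, fun x hx y hy => ?_⟩
  have m0 : (0 : ℝ) ≤ m := Nat.cast_nonneg m
  have h1 := Nat.floor_le (mul_nonneg (hj x).1 m0)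
  have h2 := Nat.floor_le (mul_nonneg (hj y).1 m0)
  have h3 := Nat.lt_floor_add_one (j x * m)
  have h4 := Nat.lt_floor_add_one (j y * m)
  rw [(hB hx).2] at h1 h3
  rw [(hB hy).2] at h2 h4
  rw [← abs_of_nonneg m0, ← abs_mul, sub_mul, abs_le]
  constructor <;> linarith

theorem step [Uncountable Γ] (hj : ∀ x, 0 ≤ j x ∧ j x ≤ 1) {s : Finset (Γ × Γ)}
    (hs : Rob j D Big s) : ∃ p : Γ × Γ, (∀ q ∈ s, q.1 ≠ p.1) ∧ Rob j D Big (insert p s) := by
  obtain ⟨C, hC, hR⟩ := hs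
  obtain ⟨ρ, hρ⟩ : ∃ ρ, ρ ∉ C ∪ ↑(s.image Prod.fst) := by
    by_contra h
    push Not at h
    exact not_countable_univ ((hC.union (Finset.countable_toSet _)).mono fun x _ => h x)
  by_contra h
  have h1 : ∀ x, ∃ n : ℕ, ∀ C' : Set Γ, C'.Countable → ∀ m : ℕ, ∃ T B, Cfg j D m T B ∧
      T.card ≤ n ∧ (∀ ρ ∈ T, ρ ∉ C') ∧ ¬ Hit Big (insert (ρ, x) s) T B := by
    intro x
    by_contra h2
    push Not at h2
    choose C' hC' m hm using h2
    refine h ⟨(ρ, x), fun q hq h3 => hρ (Or.inr (Finset.mem_coe.2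
      (Finset.mem_image.2 ⟨q, hq, h3⟩))), ⋃ n, C' n, countable_iUnion hC', fun n =>
      ⟨m n, fun T B h3 h4 h5 => hm n T B h3 h4 fun r hr h6 => h5 r hr (mem_iUnion.2 ⟨n, h6⟩)⟩⟩
  choose nx hnx using h1
  obtain ⟨n, hn⟩ : ∃ n, {x | nx x = n}.Infinite := by
    by_contra h2
    push Not at h2
    exact not_countable_univ ((countable_iUnion fun n => (h2 n).countable).mono
      fun x _ => mem_iUnion.2 ⟨nx x, rfl⟩)
  obtain ⟨m, hm⟩ := hR (D * n + 1)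
  obtain ⟨B0, hB1, hB2, hB3⟩ := cluster hj hn m D
  have key : ∀ A : Finset Γ, (∀ x ∈ A, nx x = n) → ∃ T B, Cfg j D m T B ∧ T.card ≤ A.card * n ∧
      (∀ r ∈ T, r ∉ insert ρ C) ∧ ∀ x ∈ A, ¬ Hit Big (insert (ρ, x) s) T B := by
    intro A
    induction A using Finset.induction_on with
    | empty => exact fun _ => ⟨∅, fun _ => ∅, fun _ h => by simp at h, by simp, by simp, by simp⟩
    | insert x A hx ih =>
      intro hA
      obtain ⟨T, B, c1, c2, c3, c4⟩ := ih fun y hy => hA y (Finset.mem_insert_of_mem hy)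
      obtain ⟨T', B', d1, d2, d3, d4⟩ := hnx x (insert ρ C ∪ ↑T)
        ((hC.insert ρ).union T.countable_toSet) m
      refine ⟨T ∪ T', fun r => if r ∈ T then B r else B' r, fun r hr => ?_, ?_, fun r hr => ?_,
        fun y hy => ?_⟩
      · by_cases h3 : r ∈ T
        · simp only [if_pos h3]; exact c1 r h3
        · simp only [if_neg h3]; exact d1 r ((Finset.mem_union.1 hr).resolve_left h3)
      · rw [hA x (Finset.mem_insert_self _ _)] at d2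
        rw [Finset.card_insert_of_notMem hx, Nat.succ_mul]
        exact (Finset.card_union_le _ _).trans (add_le_add c2 d2)
      · rcases Finset.mem_union.1 hr with h3 | h3
        · exact c3 r h3
        · exact fun h4 => d3 r h3 (Or.inl h4)
      · rintro ⟨u, u1, u2⟩
        rcases Finset.mem_insert.1 hy with rfl | hy
        · refine d4 ⟨u, u1, fun r hr => ?_⟩
          have := u2 r (Finset.mem_union_right _ hr)
          have h5 : r ∉ T := fun h4 => d3 r hr (Or.inr h4)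
          simpa only [if_neg h5] using this
        · refine c4 y hy ⟨u, u1, fun r hr => ?_⟩
          have := u2 r (Finset.mem_union_left _ hr)
          simpa only [if_pos hr] using this
  obtain ⟨T, B, c1, c2, c3, c4⟩ := key B0 fun x hx => hB1 hx
  have hρT : ∀ r ∈ T, r ≠ ρ := fun r hr h3 => c3 r hr (Or.inl h3)
  obtain ⟨u, u1, u2⟩ := hm (insert ρ T) (fun r => if r = ρ then B0 else B r) (fun r hr => by
      by_cases h3 : r = ρ
      · simp only [if_pos h3]; exact ⟨hB2, hB3⟩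
      · simp only [if_neg h3]; exact c1 r ((Finset.mem_insert.1 hr).resolve_left h3))
    ((Finset.card_insert_le _ _).trans (by rw [hB2] at c2; omega)) (fun r hr => by
      rcases Finset.mem_insert.1 hr with rfl | h3
      · exact fun h4 => hρ (Or.inl h4)
      · exact fun h4 => c3 r h3 (Or.inr h4))
  obtain ⟨x, hx, hb⟩ := u2 ρ (Finset.mem_insert_self _ _)
  replace hx : x ∈ B0 := by simpa using hx
  refine c4 x hx ⟨u, fun p hp => ?_, fun r hr => ?_⟩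
  · rcases Finset.mem_insert.1 hp with rfl | hp
    · exact hb
    · exact u1 p hp
  · have := u2 r (Finset.mem_insert_of_mem hr)
    simpa only [if_neg (hρT r hr)] using this

theorem chain [Uncountable Γ] (hj : ∀ x, 0 ≤ j x ∧ j x ≤ 1) (h0 : Rob j D Big ∅) :
    ∃ p : ℕ → Γ × Γ, (Function.Injective fun i => (p i).1) ∧
      ∀ n, ∃ u, ∀ i < n, Big u (p i) := by
  choose f hf1 hf2 using fun s : {s // Rob j D Big s} => step hj s.2
  let s : ℕ → {s // Rob j D Big s} := fun n => Nat.rec ⟨∅, h0⟩ (fun _ a => ⟨insert (f a) a.1, hf2 a⟩) n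
  have hs : ∀ n, (s (n + 1)).1 = insert (f (s n)) (s n).1 := fun n => rfl
  have hm : Monotone fun n => (s n).1 := monotone_nat_of_le_succ fun n => by
    rw [hs]; exact Finset.subset_insert _ _
  have hin : ∀ i n, i < n → f (s i) ∈ (s n).1 := fun i n h =>
    hm (Nat.succ_le_of_lt h) (by show f (s i) ∈ (s (i + 1)).1; rw [hs]; exact Finset.mem_insert_self _ _)
  refine ⟨fun i => f (s i), Function.Injective.of_lt_imp_ne fun i n h => hf1 _ _ (hin i n h), fun n => ?_⟩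
  obtain ⟨C, -, hC⟩ := (s n).2
  obtain ⟨m, hm⟩ := hC 0
  obtain ⟨u, hu, -⟩ := hm ∅ (fun _ => ∅) (fun _ h => by simp at h) le_rfl (by simp)
  exact ⟨u, fun i hi => hu _ (hin i n hi)⟩

end comb

variable {X : Type} [NormedAddCommGroup X] [NormedSpace ℂ X] {Γ : Type} {j : Γ → ℝ}
  {E : Γ × Γ → X} {φ : Γ × Γ → X →L[ℂ] ℂ}

theorem lower2 [Uncountable Γ] (hj : ∀ x, 0 ≤ j x ∧ j x ≤ 1)
    (hδ : ∀ p q, φ p (E q) = if q = p then 1 else 0)
    (hB : ∀ (u : X) (ρ : Γ) (B : Finset Γ), ∑ x ∈ B, ‖φ (ρ, x) u‖ ^ 2 ≤ ‖u‖ ^ 2)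
    (hC : ∀ (u : X) (p : ℕ → Γ × Γ), (Function.Injective fun i => (p i).1) →
      ∃ i, ‖φ (p i) u‖ < 1 / 2)
    {D : ℕ} {L : Set X} (hL : IsCompact (toWeakSpace ℂ X '' L)) {r : ℝ}
    (hr : ∀ Z, Adm j D Z → ∃ u ∈ L, ‖∑ p ∈ Z, E p - u‖ ≤ r) : (D : ℝ) ≤ 4 * r ^ 2 := by
  by_contra hD
  have h0 : Rob j D (fun (u : L) p => 1 / 2 ≤ ‖φ p u‖) ∅ := by
    refine ⟨∅, countable_empty, fun n => ⟨n * D, fun T B h1 h2 _ => ?_⟩⟩
    let Z : Finset (Γ × Γ) := T.biUnion fun ρ => (B ρ).image (Prod.mk ρ)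
    have hZ : ∀ p, p ∈ Z ↔ p.1 ∈ T ∧ p.2 ∈ B p.1 := fun p => by
      simp only [Z, Finset.mem_biUnion, Finset.mem_image]
      exact ⟨by rintro ⟨ρ, h, x, hx, rfl⟩; exact ⟨h, hx⟩, fun h => ⟨p.1, h.1, p.2, h.2, rfl⟩⟩
    have hc : Z.card ≤ n * D := by
      refine (Finset.card_biUnion_le_card_mul _ _ D fun ρ h => ?_).trans (Nat.mul_le_mul_right _ h2)
      exact Finset.card_image_le.trans (h1 ρ h).1.le
    obtain ⟨u, hu, hur⟩ := hr Z ⟨fun ρ => by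
      by_cases h : ρ ∈ T
      · refine (Finset.card_le_card (t := (B ρ).image (Prod.mk ρ)) fun p hp => ?_).trans
          (Finset.card_image_le.trans (h1 ρ h).1.le)
        obtain ⟨h3, rfl⟩ := Finset.mem_filter.1 hp
        exact Finset.mem_image.2 ⟨p.2, ((hZ p).1 h3).2, rfl⟩
      · have h4 : (Z.filter fun p => p.1 = ρ) = ∅ :=
          Finset.filter_eq_empty_iff.2 fun p hp (h3 : p.1 = ρ) => h (h3 ▸ ((hZ p).1 hp).1)
        rw [h4]
        exact Nat.zero_le _, fun p hp q hq h => by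
      have h3 := (h1 p.1 ((hZ p).1 hp).1).2 p.2 ((hZ p).1 hp).2 q.2 (h ▸ ((hZ q).1 hq).2)
      exact (mul_le_mul_of_nonneg_left (by exact_mod_cast hc) (abs_nonneg _)).trans h3⟩
    refine ⟨⟨u, hu⟩, by simp, fun ρ hρ => ?_⟩
    by_contra h
    push Not at h
    have h3 := hB (∑ p ∈ Z, E p - u) ρ (B ρ)
    have h4 := Finset.card_nsmul_le_sum (B ρ) (fun x => ‖φ (ρ, x) (∑ p ∈ Z, E p - u)‖ ^ 2) (1 / 4)
      fun x hx => by
        rw [map_sub, map_sum]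
        simp only [hδ, Finset.sum_ite_eq', if_pos ((hZ (ρ, x)).2 ⟨hρ, hx⟩)]
        have h5 := norm_sub_norm_le (1 : ℂ) (φ (ρ, x) u)
        have h6 := h x hx
        rw [norm_one] at h5
        nlinarith
    rw [(h1 ρ hρ).1, nsmul_eq_mul] at h4
    have h5 := pow_le_pow_left₀ (norm_nonneg _) hur 2
    exact hD (by linarith)
  obtain ⟨p, hp, hu⟩ := chain hj h0
  choose u hu using hu
  obtain ⟨v, -, hv⟩ := wlim hL (hyperfilter ℕ) (y := fun n => (u n : X)) fun n => (u n).2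
  obtain ⟨i, hi⟩ := hC v p hp
  refine absurd (ge_of_tendsto (hv (φ (p i))).norm ?_) (not_le.2 hi)
  filter_upwards [Nat.hyperfilter_le_atTop (eventually_gt_atTop i)] with n hn
  exact hu n i hn

theorem main2 [Uncountable Γ] (hj : ∀ x, 0 ≤ j x ∧ j x ≤ 1) (hj' : Function.Injective j)
    (hN : ∀ k Z, Thin k Z → ∀ c : Γ × Γ → ℂ, (∀ p, ‖c p‖ ≤ 1) → ‖∑ p ∈ Z, c p • E p‖ ≤ √k)
    (hδ : ∀ p q, φ p (E q) = if q = p then 1 else 0)
    (hB : ∀ (u : X) (ρ : Γ) (B : Finset Γ), ∑ x ∈ B, ‖φ (ρ, x) u‖ ^ 2 ≤ ‖u‖ ^ 2)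
    (hC : ∀ (u : X) (p : ℕ → Γ × Γ), (Function.Injective fun i => (p i).1) →
      ∃ i, ‖φ (p i) u‖ < 1 / 2) (c : ℝ≥0) :
    ∃ A : Set X, Bornology.IsBounded A ∧ A.Nonempty ∧ (c : ℝ≥0∞) * wk A < omega A := by
  obtain ⟨D, hD⟩ := exists_nat_gt (4 * ((c : ℝ) + 1) ^ 2)
  refine ⟨range fun Z : {Z // Adm j D Z} => ∑ p ∈ Z.1, E p, ?_,
    ⟨_, ⟨∅, fun ρ => by simp, by simp⟩, rfl⟩, ?_⟩
  · refine isBounded_iff_forall_norm_le.2 ⟨√D, ?_⟩
    rintro _ ⟨Z, rfl⟩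
    simpa using hN D Z.1 Z.2.1 (fun _ => 1) (by simp)
  · refine lt_of_le_of_lt (mul_le_of_le_one_right' (upper2 hj' hN)) ?_
    refine lt_of_lt_of_le (b := ENNReal.ofReal (c + 1)) ?_ (le_iInf₂ fun L hL => ?_)
    · rw [← ENNReal.ofReal_coe_nnreal]
      exact (ENNReal.ofReal_lt_ofReal_iff (by positivity)).2 (lt_add_one _)
    · by_contra h
      have h3 := lower2 hj hδ hB hC (D := D) hL (r := c + 1) fun Z hZ => by
        have h4 := (le_iSup₂ (f := fun (b : X)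
          (_ : b ∈ range fun Z : {Z // Adm j D Z} => ∑ p ∈ Z.1, E p) =>
          ⨅ u ∈ L, ENNReal.ofReal ‖b - u‖) (∑ p ∈ Z, E p) ⟨⟨Z, hZ⟩, rfl⟩).trans_lt (not_le.1 h)
        obtain ⟨u, h5⟩ := iInf_lt_iff.1 h4
        obtain ⟨hu, h6⟩ := iInf_lt_iff.1 h5
        exact ⟨u, hu, ((ENNReal.ofReal_lt_ofReal_iff (by positivity)).1 h6).le⟩
      linarith

end Pool.Agent.H27.Wnc
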