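import Pool.Agent.H27.Wnc4

set_option autoImplicit false
open Filter Topology Set NormedSpace
open scoped ENNReal NNReal Classical InnerProductSpace

namespace Pool.Agent.H27.Wnc

variable {H : Type} [NormedAddCommGroup H] [InnerProductSpace ℂ H] [CompleteSpace H]

/-- the compact operators with the operator norm -/
abbrev KH (H : Type) [NormedAddCommGroup H] [InnerProductSpace ℂ H] : Type :=
  compactOperator (RingHom.id ℂ) H H

omit [CompleteSpace H] in
theorem norm_sum_sq {ι : Type} {v : ι → H} (hv : Orthonormal ℂ v) (l : ι → ℂ) (s : Finset ι) :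
    ‖∑ i ∈ s, l i • v i‖ ^ 2 = ∑ i ∈ s, ‖l i‖ ^ 2 := by
  have h := hv.inner_sum l l s
  rw [inner_self_eq_norm_sq_to_K] at h
  simp only [RCLike.conj_mul] at h
  exact_mod_cast h

theorem kh {Γ : Type} [Uncountable Γ] {j : Γ → ℝ} (hj : ∀ x, 0 ≤ j x ∧ j x ≤ 1)
    (hj' : Function.Injective j) {e : Γ × Γ → H} (he : Orthonormal ℂ e) (c : ℝ≥0) :
    ∃ A : Set (KH H), Bornology.IsBounded A ∧ A.Nonempty ∧ (c : ℝ≥0∞) * wk A < omega A := by
  let f : Γ → H := fun ρ => e (ρ, ρ)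
  have hf : Orthonormal ℂ f := he.comp (fun ρ => (ρ, ρ)) fun a b h => (Prod.ext_iff.1 h).1
  let E : Γ × Γ → KH H := fun p => ⟨(innerSL ℂ (e p)).smulRight (f p.1),
    (isCompactOperator_of_locallyCompactSpace_dom (innerSL ℂ (e p))).clm_comp
      (ContinuousLinearMap.toSpanSingleton ℂ (f p.1))⟩
  have hE : ∀ p v, (E p).1 v = ⟪e p, v⟫_ℂ • f p.1 := fun p v => rfl
  let φ : Γ × Γ → KH H →L[ℂ] ℂ := fun p => (innerSL ℂ (f p.1)).comp
    ((ContinuousLinearMap.apply ℂ H (e p)).comp (Submodule.subtypeL _))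
  have hφ : ∀ p u, φ p u = ⟪f p.1, u.1 (e p)⟫_ℂ := fun p u => rfl
  refine main2 (E := E) (φ := φ) hj hj' (fun k Z hZ c hc => ?_) (fun p q => ?_)
    (fun u ρ B => ?_) (fun u p hp => ?_) c
  · refine ContinuousLinearMap.opNorm_le_bound _ (Real.sqrt_nonneg _) fun v => ?_
    have e1 : (∑ p ∈ Z, c p • E p).1 v = ∑ ρ ∈ Z.image Prod.fst,
        (∑ p ∈ Z.filter fun p => p.1 = ρ, c p * ⟪e p, v⟫_ℂ) • f ρ := by
      rw [Submodule.coe_sum, ContinuousLinearMap.sum_apply,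
        ← Finset.sum_fiberwise_of_maps_to (g := Prod.fst) (t := Z.image Prod.fst)
          fun p hp => Finset.mem_image_of_mem _ hp]
      refine Finset.sum_congr rfl fun ρ _ => ?_
      rw [Finset.sum_smul]
      refine Finset.sum_congr rfl fun p hp => ?_
      rw [← (Finset.mem_filter.1 hp).2, mul_smul, ← hE]
      rfl
    refine (pow_le_pow_iff_left₀ (norm_nonneg _) (by positivity) two_ne_zero).1 ?_
    show ‖(∑ p ∈ Z, c p • E p).1 v‖ ^ 2 ≤ (√k * ‖v‖) ^ 2
    rw [e1, norm_sum_sq hf, mul_pow, Real.sq_sqrt (Nat.cast_nonneg k)]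
    refine le_trans ?_ (mul_le_mul_of_nonneg_left (he.sum_inner_products_le (s := Z) v)
      (Nat.cast_nonneg k))
    rw [← Finset.sum_fiberwise_of_maps_to (s := Z) (g := Prod.fst) (t := Z.image Prod.fst)
      fun p hp => Finset.mem_image_of_mem _ hp, Finset.mul_sum]
    refine Finset.sum_le_sum fun ρ _ => ?_
    have h1 : ‖∑ p ∈ Z.filter fun p => p.1 = ρ, c p * ⟪e p, v⟫_ℂ‖ ≤
        ∑ p ∈ Z.filter fun p => p.1 = ρ, ‖⟪e p, v⟫_ℂ‖ := norm_sum_le_of_le _ fun p _ => by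
      rw [norm_mul]; exact mul_le_of_le_one_left (norm_nonneg _) (hc p)
    refine (pow_le_pow_left₀ (norm_nonneg _) h1 2).trans (sq_sum_le_card_mul_sum_sq.trans ?_)
    exact mul_le_mul_of_nonneg_right (by exact_mod_cast hZ ρ)
      (Finset.sum_nonneg fun _ _ => by positivity)
  · rw [hφ, hE, inner_smul_right, orthonormal_iff_ite.1 he]
    split_ifs with h
    · rw [h, orthonormal_iff_ite.1 hf, if_pos rfl, one_mul]
    · rw [zero_mul]
  · have h1 := (he.comp (Prod.mk ρ) (Prod.mk_right_injective ρ)).sum_inner_products_le (s := B)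
      (ContinuousLinearMap.adjoint u.1 (f ρ))
    have h2 : ‖ContinuousLinearMap.adjoint u.1 (f ρ)‖ ≤ ‖u‖ := by
      refine ((ContinuousLinearMap.adjoint u.1).le_opNorm _).trans ?_
      rw [hf.1 ρ, mul_one, LinearIsometryEquiv.norm_map]
      rfl
    refine le_trans (le_of_eq (Finset.sum_congr rfl fun x _ => ?_))
      (h1.trans (pow_le_pow_left₀ (norm_nonneg _) h2 2))
    rw [hφ, ← ContinuousLinearMap.adjoint_inner_left, norm_inner_symm]
    rfl
  · obtain ⟨K, hK, hKu⟩ := IsCompactOperator.image_closedBall_subset_compact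
      (f := (u.1 : H →ₗ[ℂ] H)) u.2 1
    obtain ⟨v, -, hv⟩ := hK.ultrafilter_le_nhds ((hyperfilter ℕ).map fun i => u.1 (e (p i)))
      (le_principal_iff.2 (mem_map.2 (Eventually.of_forall fun i =>
        hKu ⟨e (p i), mem_closedBall_zero_iff.2 (he.1 _).le, rfl⟩)))
    have h1 : Tendsto (fun i => ‖u.1 (e (p i)) - v‖) (hyperfilter ℕ) (𝓝 0) :=
      tendsto_iff_norm_sub_tendsto_zero.1 hv
    have h2 : Tendsto (fun i => ‖⟪f (p i).1, v⟫_ℂ‖ ^ 2) (hyperfilter ℕ) (𝓝 0) :=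
      ((hf.comp _ hp).inner_products_summable v).tendsto_atTop_zero.mono_left
        Nat.hyperfilter_le_atTop
    obtain ⟨i, h3, h4⟩ := ((h1.eventually (gt_mem_nhds (show (0 : ℝ) < 1 / 4 by norm_num))).and
      (h2.eventually (gt_mem_nhds (show (0 : ℝ) < 1 / 16 by norm_num)))).exists
    refine ⟨i, ?_⟩
    have h5 := norm_inner_le_norm (𝕜 := ℂ) (f (p i).1) (u.1 (e (p i)) - v)
    rw [hf.1, one_mul, inner_sub_right] at h5
    have h6 := norm_sub_norm_le ⟪f (p i).1, u.1 (e (p i))⟫_ℂ ⟪f (p i).1, v⟫_ℂ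
    have h7 : ‖⟪f (p i).1, v⟫_ℂ‖ < 1 / 4 := by nlinarith [norm_nonneg ⟪f (p i).1, v⟫_ℂ]
    rw [hφ]
    linarith

theorem kh' (hH : ¬ TopologicalSpace.SeparableSpace H) (c : ℝ≥0) :
    ∃ A : Set (KH H), Bornology.IsBounded A ∧ A.Nonempty ∧ (c : ℝ≥0∞) * wk A < omega A := by
  obtain ⟨w, b, -⟩ := exists_hilbertBasis ℂ H
  have hw : Cardinal.aleph 1 ≤ Cardinal.mk w := by
    by_contra h
    haveI : Countable w := ((Cardinal.countable_iff_lt_aleph_one w).2 (not_le.1 h)).to_subtype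
    refine hH (TopologicalSpace.isSeparable_univ_iff.1 ?_)
    have h1 := ((countable_range b).isSeparable.span (R := ℂ)).closure
    rwa [← Submodule.topologicalClosure_coe, b.dense_span, Submodule.top_coe] at h1
  let Γ := (Cardinal.aleph 1 : Cardinal.{0}).out
  have hΓ : Cardinal.mk Γ = Cardinal.aleph 1 := Cardinal.mk_out _
  haveI : Uncountable Γ := Cardinal.aleph0_lt_mk_iff.1 (hΓ ▸ Cardinal.aleph0_lt_aleph_one)
  obtain ⟨i⟩ : Nonempty (Γ × Γ ↪ w) := (Cardinal.le_def _ _).1 (by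
    rw [Cardinal.mk_prod, Cardinal.lift_id, hΓ, Cardinal.mul_eq_self (Cardinal.aleph0_le_aleph 1)]
    exact hw)
  obtain ⟨j⟩ : Nonempty (Γ ↪ Icc (0 : ℝ) 1) := (Cardinal.le_def _ _).1 (by
    rw [hΓ, Cardinal.mk_Icc_real zero_lt_one]
    exact Cardinal.aleph_one_le_continuum)
  exact kh (j := fun x => j x) (fun x => (j x).2) (Subtype.val_injective.comp j.injective)
    (b.orthonormal.comp i i.injective) c

end Pool.Agent.H27.Wnc
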