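import Mathlib

set_option autoImplicit false

namespace Pool.Agent.H27.XrayA

open Filter Topology MeasureTheory Set BoundedContinuousFunction

theorem int23 {g φ : ℝ → ℝ} (hg : Continuous g) (h0 : ∀ s ∉ Icc (2 : ℝ) 3, g s = 0)
    (hφ : ContinuousOn φ (Icc 2 3)) : Integrable fun s => g s * φ s := by
  refine IntegrableOn.integrable_of_forall_notMem_eq_zero (s := Icc 2 3) ?_ fun s hs => ?_
  · exact (hg.continuousOn.mul hφ).integrableOn_Icc
  · rw [h0 s hs, zero_mul]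

theorem bound23 {g φ : ℝ → ℝ} (hg : Continuous g) (h0 : ∀ s ∉ Icc (2 : ℝ) 3, g s = 0)
    (hφ : ContinuousOn φ (Icc 2 3)) {M : ℝ} (hM : ∀ s ∈ Icc (2 : ℝ) 3, |φ s| ≤ M) :
    ∫ s, |g s * φ s| ≤ (∫ s, |g s|) * M := by
  rw [← integral_mul_const]
  have h1 : Integrable g := by simpa using int23 hg h0 (φ := fun _ => 1) continuousOn_const
  refine integral_mono (int23 hg h0 hφ).abs (h1.abs.mul_const M) fun s => ?_
  by_cases hs : s ∈ Icc (2 : ℝ) 3
  · simp only [abs_mul]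
    exact mul_le_mul_of_nonneg_left (hM s hs) (abs_nonneg _)
  · simp [h0 s hs]

noncomputable def ρ : ContDiffBump (5 / 2 : ℝ) := ⟨1 / 8, 1 / 4, by norm_num, by norm_num⟩

theorem ρ_zero {s : ℝ} (hs : s ∉ Icc (9 / 4 : ℝ) (11 / 4)) : ρ s = 0 := by
  apply ρ.zero_of_le_dist
  change (1 / 4 : ℝ) ≤ |s - 5 / 2|
  rw [mem_Icc, not_and_or, not_le, not_le] at hs
  rcases hs with h | h
  · rw [abs_of_neg (by linarith)]; linarith
  · rw [abs_of_pos (by linarith)]; linarith

theorem ρ_shift (a : ℝ) (ha : |a| ≤ 1 / 4) (s : ℝ) (hs : s ∉ Icc (2 : ℝ) 3) : ρ (s + a) = 0 := by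
  refine ρ_zero fun h => hs ⟨?_, ?_⟩ <;> linarith [h.1, h.2, (abs_le.1 ha).1, (abs_le.1 ha).2]

noncomputable def γ (s : ℝ) : ℝ := ρ (s + -(1 / 4)) - 2 * ρ (s + 0) + ρ (s + 1 / 4)

theorem γ_zero (s : ℝ) (hs : s ∉ Icc (2 : ℝ) 3) : γ s = 0 := by
  rw [γ, ρ_shift _ (by norm_num [abs_of_neg]) s hs, ρ_shift _ (by norm_num) s hs,
    ρ_shift _ (by norm_num [abs_of_pos]) s hs]
  ring

theorem γ_smooth : ContDiff ℝ 2 γ := by
  have h : ∀ a : ℝ, ContDiff ℝ 2 fun s => ρ (s + a) := fun a =>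
    (ρ.contDiff (n := 2)).comp (contDiff_id.add contDiff_const)
  exact ((h _).sub (contDiff_const.mul (h _))).add (h _)

theorem int3 {f g k : ℝ → ℝ} {μ : Measure ℝ} (hf : Integrable f μ) (hg : Integrable g μ)
    (hk : Integrable k μ) :
    ∫ s, f s - 2 * g s + k s ∂μ = ∫ s, f s ∂μ - 2 * ∫ s, g s ∂μ + ∫ s, k s ∂μ := by
  have h1 : Integrable (fun s => f s - 2 * g s) μ := hf.sub (hg.const_mul 2)
  rw [integral_add h1 hk, integral_sub hf (hg.const_mul 2), integral_const_mul]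

theorem γ_int {φ : ℝ → ℝ} (hφ : ContinuousOn φ (Icc 2 3)) :
    ∫ s, γ s * φ s = ∫ s, ρ s * (φ (s + 1 / 4) - 2 * φ s + φ (s - 1 / 4)) := by
  have h : ∀ a : ℝ, |a| ≤ 1 / 4 → Integrable fun s => ρ (s + a) * φ s := fun a ha =>
    int23 (ρ.continuous.comp (continuous_id.add continuous_const)) (ρ_shift a ha) hφ
  have h' : ∀ a : ℝ, |a| ≤ 1 / 4 → Integrable fun s => ρ s * φ (s - a) := fun a ha => by
    simpa using (h a ha).comp_sub_right a
  have e : ∀ a : ℝ, ∫ s, ρ (s + a) * φ s = ∫ s, ρ s * φ (s - a) := fun a => by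
    rw [← integral_sub_right_eq_self _ a]; simp
  have a1 : |(-(1 / 4) : ℝ)| ≤ 1 / 4 := by norm_num [abs_of_neg]
  have a2 : |(0 : ℝ)| ≤ 1 / 4 := by norm_num
  have a3 : |(1 / 4 : ℝ)| ≤ 1 / 4 := by norm_num [abs_of_pos]
  have e1 : (fun s => γ s * φ s) = fun s => (ρ (s + -(1 / 4)) * φ s - 2 * (ρ (s + 0) * φ s))
      + ρ (s + 1 / 4) * φ s := by funext s; rw [γ]; ring
  have e2 : (fun s => ρ s * (φ (s + 1 / 4) - 2 * φ s + φ (s - 1 / 4))) = fun s =>
      (ρ s * φ (s - -(1 / 4)) - 2 * (ρ s * φ (s - 0))) + ρ s * φ (s - 1 / 4) := by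
    funext s; rw [sub_neg_eq_add, sub_zero]; ring
  rw [e1, e2, int3 (h _ a1) (h _ a2) (h _ a3), int3 (h' _ a1) (h' _ a2) (h' _ a3), e, e, e]

noncomputable def β (s : ℝ) : ℝ := γ s * s ^ 3

theorem β_zero (s : ℝ) (hs : s ∉ Icc (2 : ℝ) 3) : β s = 0 := by rw [β, γ_zero s hs, zero_mul]

theorem β_smooth : ContDiff ℝ 2 β := γ_smooth.mul (contDiff_id.pow 3)

theorem β_cont : Continuous β := β_smooth.continuous

theorem β_supp : HasCompactSupport β :=
  HasCompactSupport.intro isCompact_Icc β_zero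

theorem β_bd : ∃ K, 0 ≤ K ∧ (∀ x, |β x| ≤ K) ∧
    ∀ x y, |β (x + y) - 2 * β x + β (x - y)| ≤ K * y ^ 2 := by
  obtain ⟨K1, h1⟩ := β_supp.exists_bound_of_continuous β_cont
  have hd : ContDiff ℝ 1 (deriv β) := (contDiff_succ_iff_deriv.1 (β_smooth : ContDiff ℝ (1 + 1) β)).2.2
  obtain ⟨L, hL⟩ := hd.lipschitzWith_of_hasCompactSupport β_supp.deriv one_ne_zero
  have hdiff : Differentiable ℝ β := β_smooth.differentiable (by norm_num)
  have hK1 : 0 ≤ K1 := (norm_nonneg _).trans (h1 0)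
  refine ⟨K1 + 2 * L, by positivity, fun x => (h1 x).trans (by simp), fun x y => ?_⟩
  have := Convex.norm_image_sub_le_of_norm_hasDerivWithin_le (𝕜 := ℝ)
    (f := fun t => β (x + t) + β (x - t)) (f' := fun t => deriv β (x + t) - deriv β (x - t))
    (s := Metric.closedBall 0 |y|) (C := L * (2 * |y|))
    (fun t _ => (((hdiff (x + t)).hasDerivAt.comp_const_add x t).add
      ((hdiff (x - t)).hasDerivAt.comp_const_sub x t)).hasDerivWithinAt)
    (fun t ht => by
      have := hL.dist_le_mul (x + t) (x - t)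
      rw [dist_eq_norm, Real.dist_eq] at this
      refine this.trans (mul_le_mul_of_nonneg_left ?_ L.2)
      have e : x + t - (x - t) = 2 * t := by ring
      rw [e, abs_mul, abs_two]
      have : |t| ≤ |y| := by simpa using ht
      linarith)
    (convex_closedBall _ _) (Metric.mem_closedBall_self (abs_nonneg y))
    (show dist y 0 ≤ |y| by simp)
  simp only [add_zero, sub_zero, Real.norm_eq_abs] at this
  have e : β (x + y) - 2 * β x + β (x - y) = β (x + y) + β (x - y) - (β x + β x) := by ring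
  rw [e]
  refine this.trans ?_
  have : (L : ℝ) * (2 * |y|) * |y| = 2 * L * y ^ 2 := by rw [← sq_abs y]; ring
  rw [this]
  nlinarith [sq_nonneg y]

def Far (r : ℝ) : Prop := (0 ≤ r ∧ r ≤ 1) ∨ 4 ≤ r

theorem Far.sq {r : ℝ} (hr : Far r) {s : ℝ} (hs : s ∈ Icc (2 : ℝ) 3) : 1 ≤ (s - r) ^ 2 := by
  rcases hr with h | h <;> nlinarith [hs.1, hs.2]

theorem Far.cont {r : ℝ} (hr : Far r) : ContinuousOn (fun s => 1 / (s - r) ^ 2) (Icc 2 3) :=
  continuousOn_const.div (by fun_prop) fun s hs => by linarith [hr.sq hs]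

noncomputable def h (r : ℝ) : ℝ := ∫ s, β s * (1 / (s - r) ^ 2)

theorem h_abs {r : ℝ} (hr : Far r) : ∫ s, |β s * (1 / (s - r) ^ 2)| ≤ ∫ s, |β s| := by
  have := bound23 β_cont β_zero hr.cont (M := 1) fun s hs => by
    have := hr.sq hs
    rw [abs_of_nonneg (by positivity), div_le_one (by linarith)]; exact this
  simpa using this

theorem h_small {r : ℝ} (h0 : 0 ≤ r) (h1 : r ≤ 1) :
    h r = r ^ 2 * ∫ s, γ s * ((3 * s - 2 * r) * (1 / (s - r) ^ 2)) := by
  have hr : Far r := Or.inl ⟨h0, h1⟩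
  have hc := γ_smooth.continuous
  have e : (fun s => β s * (1 / (s - r) ^ 2)) = fun s => γ s * (s + 2 * r) +
      r ^ 2 * (γ s * ((3 * s - 2 * r) * (1 / (s - r) ^ 2))) := by
    funext s
    by_cases hs : s ∈ Icc (2 : ℝ) 3
    · have h2 : (s - r) ^ 2 ≠ 0 := by linarith [hr.sq hs]
      have h3 : s - r ≠ 0 := fun h => h2 (by rw [h]; ring)
      rw [β]; field_simp; ring
    · simp [β, γ_zero s hs]
  rw [h, e, integral_add (int23 hc γ_zero (φ := fun s => s + 2 * r) (by fun_prop))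
    ((int23 hc γ_zero (φ := fun s => (3 * s - 2 * r) * (1 / (s - r) ^ 2))
      (ContinuousOn.mul (by fun_prop) hr.cont)).const_mul _), integral_const_mul,
    γ_int (φ := fun s => s + 2 * r) (by fun_prop)]
  have : (fun s => ρ s * (s + 1 / 4 + 2 * r - 2 * (s + 2 * r) + (s - 1 / 4 + 2 * r))) =
      fun _ => 0 := by funext s; ring
  rw [this]; simp

theorem h_bd : ∃ C, 0 < C ∧ (∀ r, 0 ≤ r → r ≤ 1 → |h r| ≤ C * r ^ 2) ∧
    ∀ r, 4 ≤ r → |h r| ≤ C := by
  have p1 : 0 ≤ ∫ s, |β s| := integral_nonneg fun _ => abs_nonneg _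
  have p2 : 0 ≤ ∫ s, |γ s| := integral_nonneg fun _ => abs_nonneg _
  refine ⟨(∫ s, |β s|) + (∫ s, |γ s|) * 9 + 1, by positivity, fun r h0 h1 => ?_, fun r hr => ?_⟩
  · have hr : Far r := Or.inl ⟨h0, h1⟩
    rw [h_small h0 h1, abs_mul, abs_of_nonneg (sq_nonneg r), mul_comm]
    refine mul_le_mul_of_nonneg_right ?_ (sq_nonneg r)
    have := bound23 γ_smooth.continuous γ_zero
      (φ := fun s => (3 * s - 2 * r) * (1 / (s - r) ^ 2))
      (ContinuousOn.mul (by fun_prop) hr.cont) (M := 9) fun s hs => by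
        have := hr.sq hs
        rw [abs_of_nonneg (mul_nonneg (by linarith [hs.1]) (by positivity)), mul_one_div,
          div_le_iff₀ (by linarith)]
        linarith [hs.2]
    linarith [abs_integral_le_integral_abs (μ := volume)
      (f := fun s => γ s * ((3 * s - 2 * r) * (1 / (s - r) ^ 2)))]
  · have := h_abs (Or.inr hr)
    have h2 := abs_integral_le_integral_abs (μ := volume) (f := fun s => β s * (1 / (s - r) ^ 2))
    rw [h]; nlinarith

theorem h_one : 0 < h 1 := by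
  have hr : Far 1 := Or.inl ⟨zero_le_one, le_rfl⟩
  have hφ : ContinuousOn (fun s : ℝ => (3 * s - 2 * 1) * (1 / (s - 1) ^ 2)) (Icc 2 3) :=
    ContinuousOn.mul (by fun_prop) hr.cont
  rw [h_small zero_le_one le_rfl, one_pow, one_mul, γ_int hφ]
  have hp : 0 < ∫ s, ρ s * (1 / 20 : ℝ) := by
    rw [integral_mul_const]; exact mul_pos ρ.integral_pos (by norm_num)
  refine hp.trans_le (integral_mono (ρ.integrable.mul_const _) ?_ fun s => ?_)
  · refine int23 ρ.continuous (fun s hs => by simpa using ρ_shift 0 (by norm_num) s hs) ?_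
    refine ContinuousOn.add (ContinuousOn.sub ?_ (continuousOn_const.mul hφ)) ?_ <;>
    refine ContinuousOn.mul (by fun_prop) (continuousOn_const.div (by fun_prop) fun s hs => ?_) <;>
    exact pow_ne_zero _ (by linarith [hs.1])
  · by_cases hs : s ∈ Icc (9 / 4 : ℝ) (11 / 4)
    · refine mul_le_mul_of_nonneg_left ?_ ρ.nonneg
      obtain ⟨t, rfl⟩ : ∃ t, s = 9 / 4 + t := ⟨s - 9 / 4, by ring⟩
      have h0 : 0 ≤ t := by linarith [hs.1]
      have h1 : t ≤ 1 / 2 := by linarith [hs.2]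
      have e1 : 9 / 4 + t + 1 / 4 - 1 = t + 3 / 2 := by ring
      have e2 : 9 / 4 + t - 1 = t + 5 / 4 := by ring
      have e3 : 9 / 4 + t - 1 / 4 - 1 = t + 1 := by ring
      simp only [e1, e2, e3]
      rw [← sub_nonneg]
      have e : (3 * (9 / 4 + t + 1 / 4) - 2 * 1) * (1 / (t + 3 / 2) ^ 2) -
          2 * ((3 * (9 / 4 + t) - 2 * 1) * (1 / (t + 5 / 4) ^ 2)) +
          (3 * (9 / 4 + t - 1 / 4) - 2 * 1) * (1 / (t + 1) ^ 2) - 1 / 20 =
          (3 / 8 / ((t + 1) * (t + 5 / 4) * (t + 3 / 2)) - 1 / 20) +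
          (6 * (t + 5 / 4) ^ 2 / 16 - 2 / 256) / ((t + 1) * (t + 5 / 4) * (t + 3 / 2)) ^ 2 := by
        field_simp; ring
      rw [e]
      refine add_nonneg ?_ (div_nonneg (by nlinarith) (by positivity))
      rw [sub_nonneg, le_div_iff₀ (by positivity)]
      nlinarith [mul_nonneg h0 h0, mul_nonneg (mul_nonneg h0 h0) h0]
    · simp [ρ_zero hs]

theorem solve (E : ℕ → ℕ → ℝ) (hs : ∀ j, Summable fun k => |E j k|)
    (hE : ∀ j, ∑' k, |E j k| ≤ 1 / 2) (b : ℕ → ℝ) (hb : ∀ j, |b j| ≤ 1) :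
    ∃ a : ℕ →ᵇ ℝ, ∀ j, a j = b j - ∑' k, E j k * a k := by
  have hsum : ∀ (a : ℕ →ᵇ ℝ) j, Summable fun k => E j k * a k := fun a j =>
    Summable.of_norm_bounded ((hs j).mul_right ‖a‖) fun k => by
      rw [norm_mul]; exact mul_le_mul_of_nonneg_left (a.norm_coe_le_norm k) (abs_nonneg _)
  have hbd : ∀ (a : ℕ →ᵇ ℝ) j, |∑' k, E j k * a k| ≤ 1 / 2 * ‖a‖ := fun a j => by
    refine le_trans (tsum_of_norm_bounded (f := fun k => E j k * a k)
      ((hs j).mul_right ‖a‖).hasSum fun k => ?_) ?_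
    · rw [norm_mul]; exact mul_le_mul_of_nonneg_left (a.norm_coe_le_norm k) (abs_nonneg _)
    · rw [tsum_mul_right]; exact mul_le_mul_of_nonneg_right (hE j) (norm_nonneg _)
  let Φ : (ℕ →ᵇ ℝ) → (ℕ →ᵇ ℝ) := fun a => BoundedContinuousFunction.ofNormedAddCommGroupDiscrete
    (fun j => b j - ∑' k, E j k * a k) (1 + 1 / 2 * ‖a‖) fun j =>
      (abs_sub _ _).trans (add_le_add (hb j) (hbd a j))
  have hΦ : ContractingWith (1 / 2) Φ := by
    refine ⟨by norm_num, LipschitzWith.of_dist_le_mul fun a a' => ?_⟩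
    refine (BoundedContinuousFunction.dist_le (by positivity)).2 fun j => ?_
    change dist (b j - ∑' k, E j k * a k) (b j - ∑' k, E j k * a' k) ≤ _
    rw [Real.dist_eq, sub_sub_sub_cancel_left, ← (hsum a' j).tsum_sub (hsum a j), dist_comm,
      dist_eq_norm]
    have := hbd (a' - a) j
    simp only [BoundedContinuousFunction.coe_sub, Pi.sub_apply, mul_sub] at this
    simpa using this
  refine ⟨hΦ.fixedPoint Φ, fun j => ?_⟩
  conv_lhs => rw [← hΦ.fixedPoint_isFixedPt.eq]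
  rfl

theorem geo_dist (j : ℕ) : Summable (fun k : ℕ => (1 / 2 : ℝ) ^ Nat.dist j k) ∧
    ∑' k : ℕ, (1 / 2 : ℝ) ^ Nat.dist j k ≤ 4 := by
  have e : ∀ i, Nat.dist j (i + j) = i := fun i => by unfold Nat.dist; omega
  have hs : Summable (fun k : ℕ => (1 / 2 : ℝ) ^ Nat.dist j k) := by
    rw [← summable_nat_add_iff j]; simp only [e]; exact summable_geometric_two
  refine ⟨hs, ?_⟩
  rw [← hs.sum_add_tsum_nat_add j]
  simp only [e, tsum_geometric_two]
  have : ∑ k ∈ Finset.range j, (1 / 2 : ℝ) ^ Nat.dist j k ≤ 2 := by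
    refine le_trans ?_ (sum_geometric_two_le j)
    rw [← Finset.sum_range_reflect (fun i => (1 / (2 : ℝ)) ^ i) j]
    refine Finset.sum_le_sum fun k _ => pow_le_pow_of_le_one (by norm_num) (by norm_num) ?_
    unfold Nat.dist; omega
  linarith

theorem far_pow {l : ℝ} (h0 : 0 < l) (h1 : l ≤ 1 / 4) (j k : ℕ) : Far (l ^ j / l ^ k) := by
  rcases le_or_gt k j with h | h
  · left
    refine ⟨by positivity, (div_le_one (by positivity)).2 (pow_le_pow_of_le_one h0.le (by linarith) h)⟩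
  · right
    rw [le_div_iff₀ (by positivity)]
    have := pow_le_pow_of_le_one h0.le (by linarith : l ≤ 1) (Nat.succ_le_of_lt h)
    rw [pow_succ] at this
    nlinarith [pow_pos h0 j]

theorem coeffs : ∃ (l : ℝ) (a : ℕ →ᵇ ℝ), 0 < l ∧ l ≤ 1 / 4 ∧ a 0 = 1 ∧
    ∀ j, j ≠ 0 → ∑' k, a k * (1 / 2) ^ k * l ^ k * h (l ^ j / l ^ k) = 0 := by
  obtain ⟨C, hC, hC1, hC2⟩ := h_bd
  have hη := h_one
  obtain ⟨l, hl0, hl1, hl2⟩ : ∃ l : ℝ, 0 < l ∧ l ≤ 1 / 4 ∧ C / h 1 * (4 * l) ≤ 1 / 8 := by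
    refine ⟨min (1 / 4) (h 1 / (32 * C)), by positivity, min_le_left _ _, ?_⟩
    calc _ ≤ C / h 1 * (4 * (h 1 / (32 * C))) := by gcongr; exact min_le_right _ _
      _ = 1 / 8 := by field_simp; norm_num
  let m : ℕ → ℕ → ℝ := fun j k =>
    (1 / 2) ^ k * l ^ k * h (l ^ j / l ^ k) / ((1 / 2) ^ j * l ^ j * h 1)
  let E : ℕ → ℕ → ℝ := fun j k => if j = 0 ∨ k = j then 0 else m j k
  have hq : ∀ d : ℕ, (2 * l) ^ (d + 1) ≤ 4 * l * (1 / 2) ^ (d + 1) := by
    intro d
    rw [pow_succ, pow_succ]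
    have : (2 * l) ^ d ≤ (1 / 2) ^ d := pow_le_pow_left₀ (by positivity) (by linarith) d
    nlinarith
  have hE : ∀ j k, |E j k| ≤ 1 / 8 * (1 / 2) ^ Nat.dist j k := by
    intro j k
    simp only [E]
    split_ifs with hjk
    · simp
    have hne : k ≠ j := fun h => hjk (Or.inr h)
    have key : |m j k| ≤ C / h 1 * (2 * l) ^ Nat.dist j k := by
      simp only [m]
      rw [abs_div, abs_mul, abs_of_pos (a := (1 / 2) ^ k * l ^ k) (by positivity),
        abs_of_pos (a := (1 / 2) ^ j * l ^ j * h 1) (by positivity), div_le_iff₀ (by positivity)]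
      rcases lt_or_gt_of_ne hne with hk | hk
      · obtain ⟨d, rfl⟩ := Nat.exists_eq_add_of_le hk.le
        have e1 : Nat.dist (k + d) k = d := by unfold Nat.dist; omega
        have e2 : l ^ (k + d) / l ^ k = l ^ d := by rw [pow_add]; field_simp
        rw [e1, e2]
        have := hC1 (l ^ d) (by positivity) (pow_le_one₀ hl0.le (by linarith))
        calc _ ≤ (1 / 2) ^ k * l ^ k * (C * (l ^ d) ^ 2) := by gcongr
          _ = _ := by
            simp only [pow_add, mul_pow, one_div, inv_pow]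
            field_simp
      · obtain ⟨d, rfl⟩ := Nat.exists_eq_add_of_le hk.le
        have e1 : Nat.dist j (j + d) = d := by unfold Nat.dist; omega
        have hfar : 4 ≤ l ^ j / l ^ (j + d) := by
          rcases far_pow hl0 hl1 j (j + d) with h | h
          · exfalso
            have := (div_le_one (by positivity)).1 h.2
            exact absurd (pow_lt_pow_right_of_lt_one₀ hl0 (by linarith) hk) (not_lt.2 this)
          · exact h
        rw [e1]
        have := hC2 _ hfar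
        have h2 : ((1 / 2 : ℝ)) ^ d ≤ 2 ^ d := pow_le_pow_left₀ (by norm_num) (by norm_num) d
        calc _ ≤ (1 / 2) ^ (j + d) * l ^ (j + d) * C := by gcongr
          _ = (1 / 2) ^ d * ((1 / 2) ^ j * l ^ j * l ^ d * C) := by simp only [pow_add]; ring
          _ ≤ 2 ^ d * ((1 / 2) ^ j * l ^ j * l ^ d * C) := by gcongr
          _ = _ := by
            simp only [mul_pow]
            field_simp
    refine key.trans ?_
    obtain ⟨d, hd⟩ : ∃ d, Nat.dist j k = d + 1 := ⟨Nat.dist j k - 1, by unfold Nat.dist; omega⟩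
    rw [hd]
    calc _ ≤ C / h 1 * (4 * l * (1 / 2) ^ (d + 1)) := by gcongr; exact hq d
      _ = C / h 1 * (4 * l) * (1 / 2) ^ (d + 1) := by ring
      _ ≤ _ := by gcongr
  have hs : ∀ j, Summable fun k => |E j k| := fun j =>
    Summable.of_nonneg_of_le (fun _ => abs_nonneg _) (hE j) ((geo_dist j).1.mul_left _)
  obtain ⟨a, ha⟩ := solve E hs (fun j => by
    refine ((hs j).tsum_le_tsum (hE j) ((geo_dist j).1.mul_left _)).trans ?_
    rw [tsum_mul_left]; linarith [(geo_dist j).2]) (fun j => if j = 0 then 1 else 0)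
    (fun j => by split_ifs <;> simp)
  refine ⟨l, a, hl0, hl1, by simpa [E] using ha 0, fun j hj => ?_⟩
  have h1 := ha j
  rw [if_neg hj, zero_sub] at h1
  have hsum : Summable fun k => E j k * a k :=
    Summable.of_norm_bounded ((hs j).mul_right ‖a‖) fun k => by
      rw [norm_mul]; exact mul_le_mul_of_nonneg_left (a.norm_coe_le_norm k) (abs_nonneg _)
  have e : ∀ k, a k * (1 / 2) ^ k * l ^ k * h (l ^ j / l ^ k) =
      ((1 / 2) ^ j * l ^ j * h 1) * (E j k * a k + if k = j then a j else 0) := by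
    intro k
    by_cases hk : k = j
    · subst hk
      simp only [E, or_true, if_true, div_self (pow_pos hl0 k).ne']
      ring
    · simp only [E, hj, hk, or_self, if_false, m]
      field_simp
      ring
  simp only [e]
  rw [tsum_mul_left, hsum.tsum_add (summable_of_ne_finset_zero (s := {j}) fun k hk => by
    rw [if_neg (by simpa using hk)]), tsum_ite_eq]
  rw [h1]; ring

end Pool.Agent.H27.XrayA
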