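import Mathlib

namespace Pool.Agent.H27.Zak
open Real Finset MeasureTheory Filter Topology
open scoped ENNReal ComplexConjugate

lemma cnt (J : Finset ℤ) (p q : ℤ) (h : p ≤ q) :
    ∑ j ∈ J, (if p ≤ j ∧ j < q then (1 : ℝ) else 0) ≤ q - p := by
  rw [sum_boole]
  have := card_le_card (show J.filter (fun j => p ≤ j ∧ j < q) ⊆ Ico p q from fun j hj => by
    simpa using (mem_filter.1 hj).2)
  have e := Int.card_Ico_of_le p q h
  exact_mod_cast (Int.ofNat_le.2 this).trans_eq e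

lemma disc (b β : ℤ → ℝ) (h : ∀ k, |b k| ≤ β k) (hβ : Summable fun k => β k * (4 * |(k : ℝ)| + 2))
    (N : ℕ) (J : Finset ℤ) : ∑ j ∈ J, (∑ k ∈ range N, b (k - j)) ^ 2 ≤
      2 * N * (∑' k, b k) ^ 2 + 2 * (∑' k, β k * (4 * |(k : ℝ)| + 2)) ^ 2 := by
  let c : ℤ → ℝ := fun m => if 0 ≤ m ∧ m < N then 1 else 0
  have b0 : ∀ k, 0 ≤ β k := fun k => (abs_nonneg _).trans (h k)
  have c1 : ∀ j k : ℤ, |c (j + k) - c j| ≤ 4 * |(k : ℝ)| + 2 := fun j k => by
    have := abs_nonneg (k : ℝ)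
    simp only [c]; split_ifs <;> norm_num <;> linarith
  have s1 : ∀ j, Summable fun k => β k * |c (j + k) - c j| := fun j =>
    hβ.of_nonneg_of_le (fun k => mul_nonneg (b0 k) (abs_nonneg _)) fun k =>
      mul_le_mul_of_nonneg_left (c1 j k) (b0 k)
  have d : ∀ j k, ‖b k * (c (j + k) - c j)‖ ≤ β k * |c (j + k) - c j| := fun j k => by
    rw [norm_mul]; exact mul_le_mul_of_nonneg_right (h k) (abs_nonneg _)
  have sb : Summable b := hβ.of_norm_bounded fun k => (h k).trans (le_mul_of_one_le_right (b0 k)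
    (by linarith [abs_nonneg (k : ℝ)]))
  have e : ∀ j : ℤ, ∑ k ∈ range N, b (k - j) =
      (∑' k, b k) * c j + ∑' k, b k * (c (j + k) - c j) := fun j => by
    rw [← tsum_mul_right, ← (sb.mul_right _).tsum_add ((s1 j).of_norm_bounded (d j)),
      tsum_eq_sum (s := (range N).image fun k : ℕ => (k : ℤ) - j), sum_image (by
        intro x _ y _ h; simpa using h)]
    · refine sum_congr rfl fun k hk => ?_
      have : c (j + (k - j)) = 1 := by simp [c, mem_range.1 hk]
      rw [this]; ring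
    · intro k hk
      have : ¬(0 ≤ j + k ∧ j + k < N) := fun h => hk (mem_image.2 ⟨(j + k).toNat, by
        rw [mem_range]; omega, by omega⟩)
      have : c (j + k) = 0 := if_neg this
      rw [this]; ring
  set K := ∑' k, β k * (4 * |(k : ℝ)| + 2)
  have K0 : 0 ≤ K := tsum_nonneg fun k => mul_nonneg (b0 k) (by positivity)
  have f : ∀ j, (∑' k, b k * (c (j + k) - c j)) ^ 2 ≤ K * ∑' k, β k * |c (j + k) - c j| :=
    fun j => by
    have a := tsum_of_norm_bounded (s1 j).hasSum (d j)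
    rw [← sq_abs, sq]
    exact mul_le_mul (a.trans ((s1 j).tsum_le_tsum (fun k => mul_le_mul_of_nonneg_left (c1 j k)
      (b0 k)) hβ)) a (abs_nonneg _) K0
  have g : ∑ j ∈ J, ∑' k, β k * |c (j + k) - c j| ≤ K := by
    rw [← Summable.tsum_finsetSum fun j _ => s1 j]
    refine (summable_sum fun j _ => s1 j).tsum_le_tsum (fun k => ?_) hβ
    rw [← mul_sum]
    refine mul_le_mul_of_nonneg_left ?_ (b0 k)
    have a1 := cnt J (-|k|) (|k| + 1) (by linarith [abs_nonneg k])
    have a2 := cnt J (N - |k|) (N + |k| + 1) (by linarith [abs_nonneg k])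
    push_cast at a1 a2
    refine (sum_le_sum fun j _ => ?_).trans ((sum_add_distrib.trans_le (add_le_add a1 a2)).trans_eq
      (by ring))
    have := le_abs_self k
    have := neg_abs_le k
    simp only [c]; split_ifs <;> norm_num <;> omega
  have i := cnt J 0 N (by omega)
  calc _ ≤ ∑ j ∈ J, (2 * (∑' k, b k) ^ 2 * c j + 2 * K * ∑' k, β k * |c (j + k) - c j|) :=
        sum_le_sum fun j _ => by
          have : c j ^ 2 = c j := by simp only [c]; split_ifs <;> norm_num
          rw [e]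
          nlinarith [f j, sq_nonneg ((∑' k, b k) * c j - ∑' k, b k * (c (j + k) - c j))]
    _ ≤ _ := by
      rw [sum_add_distrib, ← mul_sum, ← mul_sum]
      simp only [Int.cast_natCast, Int.cast_zero, sub_zero] at i
      nlinarith [mul_le_mul_of_nonneg_left i (sq_nonneg (∑' k, b k)),
        mul_le_mul_of_nonneg_left g K0]

lemma bessel (a ε : ℝ) (hε : 0 < ε) (ha : ε < a) (H : ℝ → ℂ) (hH : Continuous H) :
    ∑' l : ℤ, ‖∫ t in Set.Ioc 0 ε, Complex.exp (-(2 * π * Complex.I * (l / a) * t)) * H t‖ₑ ^ 2 =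
      ENNReal.ofReal (a * ∫ t in Set.Ioc 0 ε, ‖H t‖ ^ 2) := by
  have a0 := hε.trans ha
  obtain ⟨C, hC⟩ := (isCompact_Icc (a := 0) (b := ε)).exists_bound_of_continuousOn hH.continuousOn
  have hs := (hasSum_sq_fourierCoeffOn (f := (Set.Ioc 0 ε).indicator H) a0 (MemLp.of_bound
    (hH.aestronglyMeasurable.indicator measurableSet_Ioc) (max C 0) (ae_of_all _ fun t => by
      by_cases h : t ∈ Set.Ioc 0 ε
      · simp [h, hC t (Set.Ioc_subset_Icc_self h)]
      · simp [h]))).mul_left (a ^ 2)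
  have i : Set.Ioc 0 a ∩ Set.Ioc 0 ε = Set.Ioc 0 ε := Set.inter_eq_right.2 (Set.Ioc_subset_Ioc_right ha.le)
  have e : ∀ l : ℤ, a ^ 2 * ‖fourierCoeffOn a0 ((Set.Ioc 0 ε).indicator H) l‖ ^ 2 =
      ‖∫ t in Set.Ioc 0 ε, Complex.exp (-(2 * π * Complex.I * (l / a) * t)) * H t‖ ^ 2 := fun l => by
    rw [fourierCoeffOn_eq_integral, intervalIntegral.integral_of_le a0.le]
    simp only [smul_eq_mul, ← Set.indicator_mul_right _ (fun x : ℝ => fourier (-l) (x : AddCircle (a - 0))) H,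
      setIntegral_indicator measurableSet_Ioc, i]
    simp only [
      fourier_coe_apply, norm_smul, sub_zero, Real.norm_of_nonneg (one_div_pos.2 a0).le]
    field_simp
    congr 3
    ext t
    congr 2
    push_cast; ring
  have e2 : ∀ t, ‖(Set.Ioc 0 ε).indicator H t‖ ^ 2 = (Set.Ioc 0 ε).indicator (‖H ·‖ ^ 2) t :=
    fun t => by by_cases h : t ∈ Set.Ioc 0 ε <;> simp [h]
  simp only [e, e2, intervalIntegral.integral_of_le a0.le, setIntegral_indicator measurableSet_Ioc,
    i, smul_eq_mul, sub_zero] at hs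
  simp only [← ofReal_norm_eq_enorm, ← ENNReal.ofReal_pow (norm_nonneg _)]
  rw [← ENNReal.ofReal_tsum_of_nonneg (fun _ => sq_nonneg _) hs.summable, hs.tsum_eq]
  congr 1; field_simp

/-- test functions -/
noncomputable def tf (a ε : ℝ) (N : ℕ) (t : ℝ) : ℂ :=
  ∑ k ∈ range N, (Set.Ioc (k * a) (k * a + ε)).indicator 1 t

lemma tf2 (a ε : ℝ) (N : ℕ) : MemLp (tf a ε N) 2 :=
  memLp_finsetSum _ fun _ _ => memLp_indicator_const 2 measurableSet_Ioc 1 (Or.inr (by simp))

lemma tfl (a ε : ℝ) (N : ℕ) : N * ENNReal.ofReal ε ≤ ∫⁻ t, ‖tf a ε N t‖ₑ ^ 2 := by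
  have : ∫⁻ t, ∑ k ∈ range N, (Set.Ioc (k * a) (k * a + ε)).indicator (1 : ℝ → ℝ≥0∞) t =
      N * ENNReal.ofReal ε := by
    rw [lintegral_finsetSum _ fun _ _ => measurable_one.indicator measurableSet_Ioc]
    simp
  refine this ▸ lintegral_mono fun t => ?_
  classical
  simp only [tf, Set.indicator_apply, Pi.one_apply, sum_boole, ← ofReal_norm_eq_enorm,
    Complex.norm_natCast, ENNReal.ofReal_natCast]
  exact_mod_cast Nat.le_self_pow two_ne_zero _

lemma tfi (a ε : ℝ) (N : ℕ) (F : ℝ → ℂ) (hF : Continuous F) :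
    ∫ t, tf a ε N t * F t = ∫ t in Set.Ioc 0 ε, ∑ k ∈ range N, F (t + k * a) := by
  have I : ∀ (F : ℝ → ℂ) (p q : ℝ), Continuous F → IntegrableOn F (Set.Ioc p q) := fun F p q h =>
    (h.integrableOn_Icc).mono_set Set.Ioc_subset_Icc_self
  simp only [tf, sum_mul, ← Set.indicator_mul_left, Pi.one_apply, one_mul]
  rw [integral_finsetSum _ fun k _ => (integrable_indicator_iff measurableSet_Ioc).2 (I F _ _ hF),
    integral_finsetSum _ fun k _ => I _ _ _ (by fun_prop)]
  refine sum_congr rfl fun k _ => ?_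
  rw [← integral_add_right_eq_self _ (k * a), ← integral_indicator measurableSet_Ioc]
  congr 1; ext t
  simp [Set.indicator_apply, add_comm]

lemma sume (C : ℝ) : Summable fun k : ℤ => C * exp (-|(k : ℝ)|) * (4 * |(k : ℝ)| + 2) := by
  have : Summable fun n : ℕ => C * exp (-(n : ℝ)) * (4 * n + 2) := by
    have a := (summable_pow_mul_exp_neg_nat_mul 1 one_pos).mul_left (4 * C)
    have b := (summable_pow_mul_exp_neg_nat_mul 0 one_pos).mul_left (2 * C)
    exact (a.add b).congr fun n => by simp; ring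
  exact Summable.of_nat_of_neg (by simpa using this) (by simpa using this)

lemma bd (g : ℝ → ℝ) (C : ℝ) (hC : ∀ t, |g t| ≤ C * exp (-|t|)) (a R : ℝ) (ha : 1 ≤ a) (s k : ℤ)
    (y : ℝ) (hy : |y| ≤ R) : |(-1 : ℝ) ^ (s * k) * g (y + k * a)| ≤ C * exp R * exp (-|(k : ℝ)|) := by
  have C0 : 0 ≤ C := nonneg_of_mul_nonneg_left ((abs_nonneg _).trans (hC 0)) (exp_pos _)
  rw [abs_mul, abs_neg_one_zpow, one_mul, mul_assoc, ← exp_add]
  refine (hC _).trans (mul_le_mul_of_nonneg_left (exp_le_exp.2 ?_) C0)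
  have := abs_sub (y + k * a) y
  rw [add_sub_cancel_left, abs_mul, abs_of_pos (by linarith : 0 < a)] at this
  nlinarith [abs_nonneg (k : ℝ)]

lemma sume' (C : ℝ) (hC : 0 ≤ C) : Summable fun k : ℤ => C * exp (-|(k : ℝ)|) :=
  (sume C).of_nonneg_of_le (fun _ => by positivity) fun k => le_mul_of_one_le_right (by positivity)
    (by linarith [abs_nonneg (k : ℝ)])

/-- the Zak transform at frequency `s / (2a)` -/
noncomputable def Z (g : ℝ → ℝ) (a : ℝ) (s : ℤ) (y : ℝ) : ℝ :=
  ∑' k : ℤ, (-1 : ℝ) ^ (s * k) * g (y + k * a)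

lemma Zc (g : ℝ → ℝ) (hg : Continuous g) (C : ℝ) (hC : ∀ t, |g t| ≤ C * exp (-|t|)) (a : ℝ)
    (ha : 1 ≤ a) (s : ℤ) : Continuous (Z g a s) := by
  have C0 : 0 ≤ C := nonneg_of_mul_nonneg_left ((abs_nonneg _).trans (hC 0)) (exp_pos _)
  refine continuous_iff_continuousAt.2 fun y => (continuousOn_tsum (s := Metric.ball 0 (|y| + 1))
    (fun k => by fun_prop) (sume' (C * exp (|y| + 1)) (by positivity)) fun k t ht =>
      bd g C hC a _ ha s k t (le_of_lt (by simpa using ht))).continuousAt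
        (Metric.isOpen_ball.mem_nhds (by simp))

lemma one (g : ℝ → ℝ) (hg : Continuous g) (C : ℝ) (hC : ∀ t, |g t| ≤ C * exp (-|t|)) (a : ℝ)
    (ha : 1 < a) (s : ℤ) (x : ℝ) (h0 : Z g a s (-x) = 0) (η : ℝ) (hη : 0 < η) :
    ∀ᶠ ε in 𝓝[>] 0, ∀ᶠ N : ℕ in atTop, ∑' j : ℤ, ∑' l : ℤ, ‖∫ t, tf a ε N t * conj (Complex.exp
      (2 * π * Complex.I * (s / (2 * a) + l / a : ℝ) * t) * g (t - (x + j * a)))‖ₑ ^ 2 ≤
        ENNReal.ofReal η * (N * ENNReal.ofReal ε) := by
  have a0 : 0 < a := by linarith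
  have z : Tendsto (fun t => Z g a s (t - x) ^ 2) (𝓝 0) (𝓝 0) := by
    have := Zc g hg C hC a ha.le s
    exact (by fun_prop : Continuous fun t => Z g a s (t - x) ^ 2).tendsto' 0 0 (by simp [h0])
  obtain ⟨δ, δ0, hδ⟩ := Metric.eventually_nhds_iff.1 (z.eventually_lt_const
    (show 0 < η / (4 * a) by positivity))
  filter_upwards [Ioo_mem_nhdsGT (lt_min δ0 one_pos)] with ε ⟨e0, e1⟩
  rw [lt_min_iff] at e1
  set K := ∑' k : ℤ, C * exp (1 + |x|) * exp (-|(k : ℝ)|) * (4 * |(k : ℝ)| + 2)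
  filter_upwards [tendsto_natCast_atTop_atTop.eventually_ge_atTop (4 * a * K ^ 2 / η)] with N hN
  let G := fun (j : ℤ) (t : ℝ) => ∑ k ∈ range N, (-1 : ℝ) ^ (s * (k - j)) * g (t - x + (k - j : ℤ) * a)
  have e : ∀ j l : ℤ, ∫ t, tf a ε N t * conj (Complex.exp (2 * π * Complex.I *
      (s / (2 * a) + l / a : ℝ) * t) * g (t - (x + j * a))) = ∫ t in Set.Ioc 0 ε,
      Complex.exp (-(2 * π * Complex.I * (l / a) * t)) * (Complex.exp (-(π * Complex.I *
        (s / a * t + s * j))) * G j t) := fun j l => by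
    rw [tfi _ _ _ _ (by fun_prop)]
    congr 1; ext t
    simp only [G, Complex.ofReal_sum, mul_sum]
    refine sum_congr rfl fun k _ => ?_
    have a1 : (a : ℂ) ≠ 0 := by exact_mod_cast a0.ne'
    rw [map_mul, Complex.conj_ofReal, ← Complex.exp_conj, Complex.ofReal_mul, Complex.ofReal_zpow,
      Complex.ofReal_neg, Complex.ofReal_one, ← Complex.exp_pi_mul_I, ← Complex.exp_int_mul,
      ← mul_assoc, ← mul_assoc, ← Complex.exp_add, ← Complex.exp_add]
    congr 1
    · refine Complex.exp_eq_exp_iff_exists_int.2 ⟨-(l * k) - s * (k - j), ?_⟩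
      simp only [map_mul, Complex.conj_ofReal, Complex.conj_I, map_ofNat]
      push_cast; field_simp; ring
    · congr 2; push_cast; ring
  have Gc : ∀ j, Continuous (G j) := fun j => by fun_prop
  simp only [e]
  refine ENNReal.summable.tsum_le_of_sum_le fun J => ?_
  rw [sum_congr rfl fun j _ => bessel a ε e0 (by linarith) _ (by have := Gc j; fun_prop),
    ← ENNReal.ofReal_sum_of_nonneg fun _ _ => by positivity, ← ENNReal.ofReal_natCast,
    ← ENNReal.ofReal_mul (by positivity), ← ENNReal.ofReal_mul (by positivity)]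
  refine ENNReal.ofReal_le_ofReal ?_
  have n : ∀ (j : ℤ) (t : ℝ), ‖Complex.exp (-(π * Complex.I * (s / a * t + s * j))) * G j t‖ ^ 2 =
      G j t ^ 2 := fun j t => by
    simp [Complex.norm_exp]
  have I : ∀ j, IntegrableOn (G j · ^ 2) (Set.Ioc 0 ε) := fun j =>
    ((Gc j).pow 2).integrableOn_Icc.mono_set Set.Ioc_subset_Icc_self
  simp only [n]
  rw [← mul_sum, ← integral_finsetSum _ fun j _ => I j]
  have b := setIntegral_mono_on (μ := volume) (s := Set.Ioc 0 ε) (integrable_finsetSum J fun j _ => I j)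
    (integrableOn_const (C := η * N / a) (by simp)) measurableSet_Ioc fun t ht => by
      have t1 : |t| < min δ 1 := by rw [abs_of_pos ht.1]; exact ht.2.trans_lt (lt_min e1.1 e1.2)
      rw [lt_min_iff] at t1
      have d := disc (fun k => (-1 : ℝ) ^ (s * k) * g (t - x + k * a)) _ (fun k => bd g C hC a
        (1 + |x|) ha.le s k _ ((abs_sub _ _).trans (by linarith))) (sume _) N J
      have d2 := hδ (y := t) (by simpa using t1.1)
      rw [div_le_iff₀ hη] at hN
      rw [lt_div_iff₀ (by positivity)] at d2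
      refine d.trans ?_
      rw [le_div_iff₀ a0]
      unfold Z at d2
      nlinarith [mul_le_mul_of_nonneg_left d2.le (N.cast_nonneg (α := ℝ))]
  refine (mul_le_mul_of_nonneg_left b a0.le).trans_eq ?_
  simp [e0.le]
  field_simp

end Pool.Agent.H27.Zak
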